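import Pool.Agent.ADG.St
import Pool.Agent.ADS.EV1

/-!
# ADG, module CN1: the reciprocal sum over the integers whose prime factors have `χ p = 1` (helper92)
-/

set_option autoImplicit false

namespace Pool.Agent.ADG

open Finset

namespace CN1

open Pool.Agent.ADS.EV1m (abel H H_nonneg H_mono H_le swap)

/-- A character modulo `8`, on the natural numbers. -/
noncomputable def ch (χ : MulChar (ZMod 8) ℤ) (n : ℕ) : ℝ := ((χ (n : ZMod 8) : ℤ) : ℝ)

variable (χ : MulChar (ZMod 8) ℤ)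

theorem ch_mul (m n : ℕ) : ch χ (m * n) = ch χ m * ch χ n := by
  unfold ch
  push_cast
  rw [map_mul]
  push_cast
  rfl

theorem ch_one : ch χ 1 = 1 := by
  unfold ch
  simp

theorem ch_abs_le (h : χ ^ 2 = 1) (n : ℕ) : |ch χ n| ≤ 1 := by
  unfold ch
  rcases (MulChar.isQuadratic_iff_sq_eq_one.2 h) (n : ZMod 8) with h1 | h1 | h1 <;> rw [h1] <;> simp

theorem block_sum (h1 : χ ≠ 1) (a : ℕ) : ∑ i ∈ range 8, ch χ (a + i) = 0 := by
  have h0 := MulChar.sum_eq_zero_of_ne_one h1
  have hz : (((∑ x : ZMod 8, χ x) : ℤ) : ℝ) = 0 := by rw [h0]; simp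
  rw [← hz]
  push_cast
  unfold ch
  refine Finset.sum_nbij' (fun i => ((a + i : ℕ) : ZMod 8)) (fun x => (x - a).val) ?_ ?_ ?_ ?_ ?_
  · intro i _
    exact Finset.mem_univ _
  · intro x _
    rw [Finset.mem_range]
    exact ZMod.val_lt _
  · intro i hi
    rw [Finset.mem_range] at hi
    have : (((a + i : ℕ) : ZMod 8) - (a : ZMod 8)) = (i : ZMod 8) := by
      push_cast
      ring
    rw [this]
    exact ZMod.val_cast_of_lt hi
  · intro x _
    push_cast
    rw [ZMod.natCast_zmod_val]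
    ring
  · intro i _
    rfl

theorem partial_le (h : χ ^ 2 = 1) (h1 : χ ≠ 1) (a : ℕ) :
    ∀ N : ℕ, |∑ i ∈ range N, ch χ (a + i)| ≤ 8 := by
  intro N
  induction N using Nat.strong_induction_on with
  | _ N ih =>
    by_cases hN : N < 8
    · calc |∑ i ∈ range N, ch χ (a + i)| ≤ ∑ i ∈ range N, |ch χ (a + i)| :=
            Finset.abs_sum_le_sum_abs _ _
        _ ≤ ∑ _i ∈ range N, (1 : ℝ) := Finset.sum_le_sum fun i _ => ch_abs_le χ h _
        _ = N := by simp
        _ ≤ 8 := by exact_mod_cast hN.le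
    · push Not at hN
      obtain ⟨M, rfl⟩ := Nat.exists_eq_add_of_le' hN
      rw [Finset.sum_range_add]
      have hb := block_sum χ h1 (a + M)
      simp_rw [add_assoc] at hb
      rw [hb, add_zero]
      exact ih M (by omega)

theorem conv_nonneg (h : χ ^ 2 = 1) (k : ℕ) : 0 ≤ ∑ d ∈ k.divisors, ch χ d := by
  open scoped ComplexOrder in
  let ψ : DirichletCharacter ℂ 8 := χ.ringHomComp (Int.castRingHom ℂ)
  have hψ : ψ ^ 2 = 1 := by
    refine MulChar.ext fun u => ?_
    have h2 : χ (u : ZMod 8) ^ 2 = 1 := by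
      rw [← MulChar.pow_apply_coe, h, MulChar.one_apply_coe]
    rw [MulChar.pow_apply_coe, MulChar.one_apply_coe]
    simp only [ψ, MulChar.ringHomComp_apply]
    rw [← map_pow, h2]
    simp
  have h3 := DirichletCharacter.zetaMul_nonneg hψ k
  have e : DirichletCharacter.zetaMul ψ k = ((∑ d ∈ k.divisors, ch χ d : ℝ) : ℂ) := by
    rw [DirichletCharacter.zetaMul, ArithmeticFunction.coe_zeta_mul_apply]
    push_cast
    refine Finset.sum_congr rfl fun d hd => ?_
    have hd0 : d ≠ 0 := by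
      rintro rfl
      simp at hd
    simp only [toArithmeticFunction, ArithmeticFunction.coe_mk, hd0, if_false]
    simp only [ψ, MulChar.ringHomComp_apply, ch]
    simp
  rw [e] at h3
  exact_mod_cast h3

theorem ch_eq_one : ∀ d : ℕ, d ≠ 0 → (∀ p : ℕ, p.Prime → p ∣ d → ch χ p = 1) → ch χ d = 1 := by
  intro d
  induction d using induction_on_primes with
  | zero => intro h; exact absurd rfl h
  | one => intro _ _; exact ch_one χ
  | prime_mul p a hp ih =>
    intro h0 h
    have ha : a ≠ 0 := by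
      rintro rfl
      simp at h0
    rw [ch_mul, h p hp (Dvd.intro _ rfl), ih ha fun q hq hd => h q hq (hd.mul_left p), one_mul]

theorem main_sum (h : χ ^ 2 = 1) (h1 : χ ≠ 1) (K : ℕ) :
    ∑ k ∈ Icc 1 K, (∑ d ∈ k.divisors, ch χ d) / k ≤ (2 + Real.log 8) * H K := by
  rw [swap]
  have hHK := H_nonneg K
  have hsplit : ∑ d ∈ Icc 1 K, ch χ d / d * H (K / d) =
      ∑ d ∈ (Icc 1 K).filter (· ≤ 8), ch χ d / d * H (K / d) +
      ∑ d ∈ (Icc 1 K).filter (fun d => ¬ d ≤ 8), ch χ d / d * H (K / d) :=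
    (Finset.sum_filter_add_sum_filter_not _ _ _).symm
  have hfirst : ∑ d ∈ (Icc 1 K).filter (· ≤ 8), ch χ d / d * H (K / d) ≤
      (1 + Real.log 8) * H K := by
    calc ∑ d ∈ (Icc 1 K).filter (· ≤ 8), ch χ d / d * H (K / d)
        ≤ ∑ d ∈ (Icc 1 K).filter (· ≤ 8), (1 : ℝ) / d * H K := by
          refine Finset.sum_le_sum fun d _ => ?_
          have h1 : ch χ d / d ≤ (1 : ℝ) / d :=
            div_le_div_of_nonneg_right ((le_abs_self _).trans (ch_abs_le χ h d)) (by positivity)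
          calc ch χ d / d * H (K / d) ≤ (1 : ℝ) / d * H (K / d) :=
                mul_le_mul_of_nonneg_right h1 (H_nonneg _)
            _ ≤ (1 : ℝ) / d * H K :=
                mul_le_mul_of_nonneg_left (H_mono (Nat.div_le_self _ _)) (by positivity)
      _ = (∑ d ∈ (Icc 1 K).filter (· ≤ 8), (1 : ℝ) / d) * H K := by rw [Finset.sum_mul]
      _ ≤ H 8 * H K := by
          refine mul_le_mul_of_nonneg_right ?_ hHK
          refine Finset.sum_le_sum_of_subset_of_nonneg ?_ fun _ _ _ => by positivity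
          intro d hd
          simp only [mem_filter, mem_Icc] at hd ⊢
          exact ⟨hd.1.1, hd.2⟩
      _ ≤ (1 + Real.log 8) * H K := by
          refine mul_le_mul_of_nonneg_right ?_ hHK
          have := H_le 8
          exact_mod_cast this
  have hsecond : ∑ d ∈ (Icc 1 K).filter (fun d => ¬ d ≤ 8), ch χ d / d * H (K / d) ≤ H K := by
    let f : ℕ → ℝ := fun i => H (K / (8 + 1 + i)) / ((8 + 1 + i : ℕ) : ℝ)
    let g : ℕ → ℝ := fun i => ch χ (8 + 1 + i)
    have hf : Antitone f := by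
      intro i j hij
      have h1 : H (K / (8 + 1 + j)) ≤ H (K / (8 + 1 + i)) :=
        H_mono (Nat.div_le_div_left (by omega) (by omega))
      have h2 : ((8 + 1 + i : ℕ) : ℝ) ≤ ((8 + 1 + j : ℕ) : ℝ) := by exact_mod_cast (by omega)
      have h3 : (0 : ℝ) < ((8 + 1 + i : ℕ) : ℝ) := by exact_mod_cast (by omega)
      exact div_le_div₀ (H_nonneg _) h1 h3 h2
    have hab := abel f g 8 hf (fun i => div_nonneg (H_nonneg _) (by positivity))
      (partial_le χ h h1 (8 + 1)) (K - 8)
    have e : ∑ d ∈ (Icc 1 K).filter (fun d => ¬ d ≤ 8), ch χ d / d * H (K / d) =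
        ∑ i ∈ range (K - 8), f i * g i := by
      refine Finset.sum_nbij' (fun d => d - (8 + 1)) (fun i => 8 + 1 + i) ?_ ?_ ?_ ?_ ?_
      · intro d hd
        simp only [mem_filter, mem_Icc, mem_range] at hd ⊢
        omega
      · intro i hi
        simp only [mem_filter, mem_Icc, mem_range] at hi ⊢
        omega
      · intro d hd
        simp only [mem_filter, mem_Icc] at hd ⊢
        omega
      · intro i hi
        simp
      · intro d hd
        simp only [mem_filter, mem_Icc] at hd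
        have hd' : 8 + 1 + (d - (8 + 1)) = d := by omega
        simp only [f, g, hd']
        ring
    rw [e]
    refine hab.trans ?_
    simp only [f, add_zero]
    calc (8 : ℝ) * (H (K / (8 + 1)) / ((8 + 1 : ℕ) : ℝ))
        = (8 / 9) * H (K / (8 + 1)) := by push_cast; ring
      _ ≤ 1 * H K := by
          refine mul_le_mul (by norm_num) (H_mono (Nat.div_le_self _ _)) (H_nonneg _) (by norm_num)
      _ = H K := one_mul _
  rw [hsplit]
  nlinarith [hfirst, hsecond]

theorem mem_Pset {z n : ℕ} :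
    n ∈ Pset χ z ↔ (1 ≤ n ∧ n ≤ z) ∧ ∀ p : ℕ, p.Prime → p ∣ n → χ (p : ZMod 8) = 1 := by
  classical
  unfold Pset
  rw [mem_filter, mem_Icc]

theorem sq_le (h : χ ^ 2 = 1) (z : ℕ) :
    (∑ n ∈ Pset χ z, (1 : ℝ) / n) ^ 2 ≤
      ∑ k ∈ Icc 1 (z ^ 2), (∑ d ∈ k.divisors, ch χ d) / k := by
  rw [sq, Finset.sum_mul_sum, ← Finset.sum_product']
  have hmaps : ∀ x ∈ Pset χ z ×ˢ Pset χ z, x.1 * x.2 ∈ Icc 1 (z ^ 2) := by
    rintro ⟨m, n⟩ h
    simp only [mem_product, mem_Pset, mem_Icc] at h ⊢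
    obtain ⟨⟨⟨h1, h2⟩, -⟩, ⟨h3, h4⟩, -⟩ := h
    refine ⟨Nat.mul_pos h1 h3, ?_⟩
    rw [sq]
    exact Nat.mul_le_mul h2 h4
  rw [← Finset.sum_fiberwise_of_maps_to hmaps]
  refine Finset.sum_le_sum fun k hk => ?_
  have hk0 : k ≠ 0 := by
    rw [mem_Icc] at hk
    omega
  have e : ∑ x ∈ (Pset χ z ×ˢ Pset χ z).filter (fun x => x.1 * x.2 = k), (1 : ℝ) / x.1 * (1 / x.2) =
      (((Pset χ z ×ˢ Pset χ z).filter (fun x => x.1 * x.2 = k)).card : ℝ) / k := by
    rw [Finset.card_eq_sum_ones, Nat.cast_sum, Finset.sum_div]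
    refine Finset.sum_congr rfl fun x hx => ?_
    rw [mem_filter] at hx
    rw [← hx.2]
    push_cast
    rw [one_div_mul_one_div]
  rw [e]
  refine div_le_div_of_nonneg_right ?_ (by positivity)
  rcases Finset.eq_empty_or_nonempty
    ((Pset χ z ×ˢ Pset χ z).filter (fun x => x.1 * x.2 = k)) with h' | ⟨x, hx⟩
  · rw [h']
    simpa using conv_nonneg χ h k
  · have hk1 : ∀ p : ℕ, p.Prime → p ∣ k → ch χ p = 1 := by
      intro p hp hpk
      simp only [mem_filter, mem_product, mem_Pset] at hx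
      obtain ⟨⟨⟨-, h1⟩, ⟨-, h2⟩⟩, h3⟩ := hx
      rw [← h3] at hpk
      unfold ch
      rcases (Nat.Prime.dvd_mul hp).1 hpk with h | h
      · rw [h1 p hp h]
        simp
      · rw [h2 p hp h]
        simp
    have hsum : ∑ d ∈ k.divisors, ch χ d = (k.divisors.card : ℝ) := by
      rw [Finset.card_eq_sum_ones, Nat.cast_sum]
      refine Finset.sum_congr rfl fun d hd => ?_
      have hd' := Nat.mem_divisors.1 hd
      rw [ch_eq_one χ d (fun h => by rw [h] at hd'; exact hk0 (Nat.eq_zero_of_zero_dvd hd'.1))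
        fun p hp hpd => hk1 p hp (hpd.trans hd'.1)]
      simp
    rw [hsum]
    norm_cast
    refine Finset.card_le_card_of_injOn Prod.fst ?_ ?_
    · rintro ⟨m, n⟩ h
      simp only [coe_filter, Set.mem_ofPred_eq] at h
      simp only [mem_coe, Nat.mem_divisors]
      exact ⟨Dvd.intro _ h.2, hk0⟩
    · rintro ⟨m, n⟩ h ⟨m', n'⟩ h' hmm
      simp only [coe_filter, Set.mem_ofPred_eq] at h h'
      simp only at hmm
      subst hmm
      have hm : m ≠ 0 := by
        rintro rfl
        simp at h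
        exact hk0 h.2.symm
      have : n = n' := Nat.eq_of_mul_eq_mul_left (Nat.pos_of_ne_zero hm) (h.2.trans h'.2.symm)
      rw [this]

end CN1

open CN1 in
open Pool.Agent.ADS.EV1m (H H_nonneg H_le) in
theorem CN1_thm : Stmt_CN1 := by
  intro χ hχ hχ1
  refine ⟨5, by norm_num, ?_⟩
  intro z hz
  have hlz : 1 / 2 ≤ Real.log z := by
    have h2z : (2 : ℝ) ≤ z := by exact_mod_cast hz
    have := Real.log_le_log (by norm_num) h2z
    linarith [Real.log_two_gt_d9]
  have h3 := (sq_le χ hχ z).trans (main_sum χ hχ hχ1 (z ^ 2))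
  have h4 : H (z ^ 2) ≤ 1 + 2 * Real.log z := by
    refine (H_le _).trans ?_
    push_cast
    rw [Real.log_pow]
    push_cast
    exact le_rfl
  have hH := H_nonneg (z ^ 2)
  have h8 : Real.log 8 ≤ 3 := by
    have : Real.log 8 = 3 * Real.log 2 := by
      rw [show (8 : ℝ) = 2 ^ 3 by norm_num, Real.log_pow]
      norm_num
    rw [this]
    linarith [Real.log_two_lt_d9]
  have h80 : 0 ≤ Real.log 8 := Real.log_nonneg (by norm_num)
  have h5 : (2 + Real.log 8) * H (z ^ 2) ≤ 25 * Real.log z := by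
    calc (2 + Real.log 8) * H (z ^ 2) ≤ 5 * (4 * Real.log z) := by
          refine mul_le_mul (by linarith) (by linarith) hH (by norm_num)
      _ ≤ _ := by linarith
  have hA1nn : 0 ≤ ∑ n ∈ Pset χ z, (1 : ℝ) / n := Finset.sum_nonneg fun _ _ => by positivity
  have h6 : (∑ n ∈ Pset χ z, (1 : ℝ) / n) ^ 2 ≤ 25 * Real.log z := h3.trans h5
  have h7 := Real.le_sqrt_of_sq_le h6
  have h9 : Real.sqrt (25 * Real.log z) = 5 * Real.sqrt (Real.log z) := by
    rw [Real.sqrt_mul (by norm_num)]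
    congr 1
    rw [show (25 : ℝ) = 5 ^ 2 by norm_num, Real.sqrt_sq (by norm_num)]
  rw [← h9]
  exact h7

end Pool.Agent.ADG
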