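import Pool.Agent.ADG.St

/-!
# ADG, module CN2: squarefree integers composed of primes with `χ p = 1` (helper65)
-/

set_option autoImplicit false

namespace Pool.Agent.ADG

open Finset

namespace CN2

theorem theta_bound (x : ℕ) :
    ∑ w ∈ (Icc 1 x).filter Nat.Prime, Real.log w ≤ Real.log 4 * x := by
  have h := Chebyshev.theta_le_log4_mul_x (x := (x : ℝ)) (by positivity)
  rw [Chebyshev.theta] at h
  rw [Nat.floor_natCast] at h
  refine le_trans (le_of_eq ?_) h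
  refine Finset.sum_congr ?_ fun _ _ => rfl
  ext w
  simp only [mem_filter, mem_Icc, mem_Ioc]
  constructor
  · rintro ⟨⟨h1, h2⟩, h3⟩
    exact ⟨⟨by omega, h2⟩, h3⟩
  · rintro ⟨⟨h1, h2⟩, h3⟩
    exact ⟨⟨by omega, h2⟩, h3⟩

/-- the double sum -/
theorem sum_log_le (R : Finset ℕ) (Y : ℕ) (h1 : ∀ r ∈ R, 1 ≤ r ∧ r ≤ Y ∧ Squarefree r)
    (hd : ∀ r ∈ R, ∀ d, d ∣ r → d ∈ R) :
    ∑ r ∈ R, Real.log r ≤ Real.log 4 * Y * ∑ r ∈ R, (1 : ℝ) / r := by
  have e1 : ∀ r ∈ R, Real.log r = ∑ p ∈ r.primeFactors, Real.log p := by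
    intro r hr
    have h2 : ∏ p ∈ r.primeFactors, p = r := Nat.prod_primeFactors_of_squarefree (h1 r hr).2.2
    conv_lhs => rw [← h2]
    rw [Nat.cast_prod, Real.log_prod]
    intro p hp
    exact_mod_cast (Nat.prime_of_mem_primeFactors hp).ne_zero
  rw [sum_congr rfl e1]
  have e2 : ∑ r ∈ R, ∑ p ∈ r.primeFactors, Real.log p ≤
      ∑ r ∈ R, ∑ p ∈ (Icc 1 (Y / r)).filter Nat.Prime, Real.log p := by
    rw [sum_sigma', sum_sigma']
    set S := R.sigma fun r => r.primeFactors with hS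
    set T := R.sigma fun r => (Icc 1 (Y / r)).filter Nat.Prime with hT
    let e : (Σ _ : ℕ, ℕ) → (Σ _ : ℕ, ℕ) := fun s => ⟨s.1 / s.2, s.2⟩
    have hmem : ∀ s ∈ S, s.1 ∈ R ∧ s.2.Prime ∧ s.2 ∣ s.1 := by
      intro s hs
      rw [hS, mem_sigma] at hs
      exact ⟨hs.1, Nat.prime_of_mem_primeFactors hs.2, Nat.dvd_of_mem_primeFactors hs.2⟩
    have hinj : Set.InjOn e (S : Set (Σ _ : ℕ, ℕ)) := by
      rintro ⟨r, p⟩ hs ⟨r', p'⟩ hs' heq
      have hd1 : p ∣ r := (hmem _ hs).2.2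
      have hd2 : p' ∣ r' := (hmem _ hs').2.2
      simp only [e, Sigma.mk.injEq, heq_eq_eq] at heq
      obtain ⟨h3, h4⟩ := heq
      subst h4
      have h5 : r = r' := by
        rw [← Nat.div_mul_cancel hd1, ← Nat.div_mul_cancel hd2, h3]
      subst h5
      rfl
    have hmap : ∀ s ∈ S, e s ∈ T := by
      intro s hs
      obtain ⟨hr, hp, hdv⟩ := hmem s hs
      have h5 : s.1 / s.2 ∈ R := hd _ hr _ (Nat.div_dvd_of_dvd hdv)
      rw [hT, mem_sigma, mem_filter, mem_Icc]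
      refine ⟨h5, ⟨hp.one_le, ?_⟩, hp⟩
      show s.2 ≤ Y / (s.1 / s.2)
      rw [Nat.le_div_iff_mul_le (h1 _ h5).1, Nat.mul_div_cancel' hdv]
      exact (h1 _ hr).2.1
    calc ∑ s ∈ S, Real.log s.2 = ∑ t ∈ S.image e, Real.log t.2 := by
          rw [sum_image hinj]
      _ ≤ ∑ t ∈ T, Real.log t.2 := by
          apply sum_le_sum_of_subset_of_nonneg
          · intro t ht
            obtain ⟨s, hs, rfl⟩ := mem_image.1 ht
            exact hmap s hs
          · intro t _ _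
            exact Real.log_natCast_nonneg _
  refine e2.trans ?_
  rw [mul_sum]
  apply sum_le_sum
  intro r hr
  refine (theta_bound _).trans ?_
  have h4 : (0 : ℝ) ≤ Real.log 4 := Real.log_nonneg (by norm_num)
  have h5 : ((Y / r : ℕ) : ℝ) ≤ (Y : ℝ) / r := Nat.cast_div_le
  calc Real.log 4 * ((Y / r : ℕ) : ℝ) ≤ Real.log 4 * ((Y : ℝ) / r) :=
        mul_le_mul_of_nonneg_left h5 h4
    _ = Real.log 4 * Y * (1 / r) := by ring

/-- the lower bound -/
theorem sum_log_ge (R : Finset ℕ) (Y : ℕ) (hY : 2 ≤ Y) (h1 : ∀ r ∈ R, 1 ≤ r) :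
    Real.log Y / 2 * ((R.card : ℝ) - Real.sqrt Y) ≤ ∑ r ∈ R, Real.log r := by
  have hlY : 0 ≤ Real.log Y := Real.log_natCast_nonneg _
  have hY0 : (0 : ℝ) < Y := by positivity
  have hs := card_filter_add_card_filter_not (s := R) (fun r => Y < r * r)
  have h2 : ((R.filter fun r => ¬ Y < r * r).card : ℝ) ≤ Real.sqrt Y := by
    have h3 : (R.filter fun r => ¬ Y < r * r) ⊆ Icc 1 (Nat.sqrt Y) := by
      intro r hr
      rw [mem_filter] at hr
      rw [mem_Icc]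
      exact ⟨h1 r hr.1, Nat.le_sqrt.2 (not_lt.1 hr.2)⟩
    have h4 := card_le_card h3
    rw [Nat.card_Icc, Nat.add_sub_cancel] at h4
    calc ((R.filter fun r => ¬ Y < r * r).card : ℝ) ≤ (Nat.sqrt Y : ℝ) := by exact_mod_cast h4
      _ ≤ Real.sqrt Y := Real.nat_sqrt_le_real_sqrt
  have h3 : (R.card : ℝ) - Real.sqrt Y ≤ ((R.filter fun r => Y < r * r).card : ℝ) := by
    have : (R.card : ℝ) = ((R.filter fun r => Y < r * r).card : ℝ) +
        ((R.filter fun r => ¬ Y < r * r).card : ℝ) := by exact_mod_cast hs.symm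
    linarith
  calc Real.log Y / 2 * ((R.card : ℝ) - Real.sqrt Y)
      ≤ Real.log Y / 2 * ((R.filter fun r => Y < r * r).card : ℝ) :=
        mul_le_mul_of_nonneg_left h3 (by linarith)
    _ = ∑ _r ∈ R.filter (fun r => Y < r * r), Real.log Y / 2 := by
        rw [sum_const, nsmul_eq_mul]
        ring
    _ ≤ ∑ r ∈ R.filter (fun r => Y < r * r), Real.log r := by
        apply sum_le_sum
        intro r hr
        rw [mem_filter] at hr
        have h5 : (Y : ℝ) ≤ (r : ℝ) * r := by exact_mod_cast hr.2.le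
        have h6 : (0 : ℝ) < r := by exact_mod_cast h1 r hr.1
        have h7 := Real.log_le_log hY0 h5
        rw [Real.log_mul h6.ne' h6.ne'] at h7
        linarith
    _ ≤ ∑ r ∈ R, Real.log r := by
        apply sum_le_sum_of_subset_of_nonneg (filter_subset _ _)
        intro r _ _
        exact Real.log_natCast_nonneg _

theorem card_le (R : Finset ℕ) (Y : ℕ) (hY : 2 ≤ Y)
    (h1 : ∀ r ∈ R, 1 ≤ r ∧ r ≤ Y ∧ Squarefree r) (hd : ∀ r ∈ R, ∀ d, d ∣ r → d ∈ R) (K : ℝ)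
    (hK : ∑ r ∈ R, (1 : ℝ) / r ≤ K * Real.sqrt (Real.log Y)) :
    (R.card : ℝ) ≤ (2 * Real.log 4 * K + 1) * Y / Real.sqrt (Real.log Y) := by
  have hY1 : (1 : ℝ) < Y := by exact_mod_cast (by omega : 1 < Y)
  have hY0 : (0 : ℝ) < Y := by linarith
  have hlY : 0 < Real.log Y := Real.log_pos hY1
  have h4 : (0 : ℝ) < Real.log 4 := Real.log_pos (by norm_num)
  set t := Real.sqrt (Real.log Y) with ht
  have ht0 : 0 < t := Real.sqrt_pos.2 hlY
  have htt : t * t = Real.log Y := Real.mul_self_sqrt hlY.le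
  have h5 := (sum_log_ge R Y hY fun r hr => (h1 r hr).1).trans (sum_log_le R Y h1 hd)
  have h6 : Real.log 4 * Y * ∑ r ∈ R, (1 : ℝ) / r ≤ Real.log 4 * Y * (K * t) :=
    mul_le_mul_of_nonneg_left hK (by positivity)
  have h7 := h5.trans h6
  rw [← htt] at h7
  have h8 : Real.sqrt Y * t ≤ Y := by
    have h9 : t ≤ Real.sqrt Y := Real.sqrt_le_sqrt (by
      have := Real.log_le_sub_one_of_pos hY0
      linarith)
    calc Real.sqrt Y * t ≤ Real.sqrt Y * Real.sqrt Y :=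
          mul_le_mul_of_nonneg_left h9 (Real.sqrt_nonneg _)
      _ = Y := Real.mul_self_sqrt hY0.le
  rw [le_div_iff₀ ht0]
  have h10 : t * ((R.card : ℝ) - Real.sqrt Y) ≤ 2 * Real.log 4 * K * Y := by
    have h11 : t * (t * ((R.card : ℝ) - Real.sqrt Y)) ≤ t * (2 * Real.log 4 * K * Y) := by
      nlinarith [h7]
    exact le_of_mul_le_mul_left h11 ht0
  nlinarith [h10, h8]

end CN2

open CN2 in
theorem CN2_thm (h : Stmt_CN1) : Stmt_CN2 := by
  intro χ hχ hχ1
  obtain ⟨K, hK0, hK⟩ := h χ hχ hχ1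
  have h4 : (0 : ℝ) < Real.log 4 := Real.log_pos (by norm_num)
  refine ⟨2 * Real.log 4 * K + 1, by positivity, ?_⟩
  intro Y hY
  classical
  apply card_le _ Y hY
  · intro r hr
    rw [mem_filter, Pset, mem_filter, mem_Icc] at hr
    exact ⟨hr.1.1.1, hr.1.1.2, hr.2⟩
  · intro r hr d hdr
    rw [mem_filter, Pset, mem_filter, mem_Icc] at hr ⊢
    obtain ⟨⟨⟨h1, h2⟩, h3⟩, h5⟩ := hr
    exact ⟨⟨⟨Nat.pos_of_dvd_of_pos hdr h1, (Nat.le_of_dvd h1 hdr).trans h2⟩,
      fun p hp hpd => h3 p hp (hpd.trans hdr)⟩, h5.squarefree_of_dvd hdr⟩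
  · refine le_trans ?_ (hK Y hY)
    apply sum_le_sum_of_subset_of_nonneg (filter_subset _ _)
    intro r _ _
    positivity

end Pool.Agent.ADG
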