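import Pool.Agent.ADG.St
import Pool.Agent.ADS.EV4

/-!
# ADG, module CN3: the count of the odd integers which satisfy the conditions (a), (b), (c) (helper89)
-/

set_option autoImplicit false

namespace Pool.Agent.ADG

open Finset

namespace CN3

/-- the three quadratic characters modulo 8 -/
noncomputable def ch (i : Fin 3) : MulChar (ZMod 8) ℤ :=
  if i = 0 then ZMod.χ₈ * ZMod.χ₈' else if i = 1 then ZMod.χ₈' else ZMod.χ₈

theorem ch0 : ch 0 = ZMod.χ₈ * ZMod.χ₈' := by unfold ch; rw [if_pos rfl]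
theorem ch1 : ch 1 = ZMod.χ₈' := by unfold ch; rw [if_neg (by decide), if_pos rfl]
theorem ch2 : ch 2 = ZMod.χ₈ := by unfold ch; rw [if_neg (by decide), if_neg (by decide)]

theorem ch_sq (i : Fin 3) : ch i ^ 2 = 1 := by
  have h1 := ZMod.isQuadratic_χ₈.sq_eq_one
  have h2 := ZMod.isQuadratic_χ₈'.sq_eq_one
  fin_cases i
  · show ch 0 ^ 2 = 1
    rw [ch0, mul_pow, h1, h2, one_mul]
  · show ch 1 ^ 2 = 1
    rw [ch1, h2]
  · show ch 2 ^ 2 = 1
    rw [ch2, h1]

theorem ch_ne (i : Fin 3) : ch i ≠ 1 := by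
  fin_cases i
  · show ch 0 ≠ 1
    rw [ch0]
    intro h
    have h1 := congrArg (fun χ : MulChar (ZMod 8) ℤ => χ 3) h
    simp only [MulChar.mul_apply] at h1
    rw [MulChar.one_apply (by decide)] at h1
    revert h1
    decide
  · show ch 1 ≠ 1
    rw [ch1]
    intro h
    have h1 : ((ZMod.χ₈' : MulChar (ZMod 8) ℤ) 5) = (1 : MulChar (ZMod 8) ℤ) 5 := by rw [h]
    rw [MulChar.one_apply (by decide)] at h1
    revert h1
    decide
  · show ch 2 ≠ 1
    rw [ch2]
    intro h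
    have h1 : ((ZMod.χ₈ : MulChar (ZMod 8) ℤ) 5) = (1 : MulChar (ZMod 8) ℤ) 5 := by rw [h]
    rw [MulChar.one_apply (by decide)] at h1
    revert h1
    decide

theorem val0 (p : ℕ) (h : p % 4 = 1) : ch 0 (p : ZMod 8) = 1 := by
  rw [ch0, MulChar.mul_apply, ← ZMod.natCast_mod p 8]
  have h8 : p % 8 = 1 ∨ p % 8 = 5 := by omega
  rcases h8 with h8 | h8 <;> rw [h8] <;> decide

theorem val1 (p : ℕ) (h : p % 8 = 1 ∨ p % 8 = 3) : ch 1 (p : ZMod 8) = 1 := by
  rw [ch1, ← ZMod.natCast_mod p 8]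
  rcases h with h8 | h8 <;> rw [h8] <;> decide

theorem val2 (p : ℕ) (h : p % 8 = 1 ∨ p % 8 = 7) : ch 2 (p : ZMod 8) = 1 := by
  rw [ch2, ← ZMod.natCast_mod p 8]
  rcases h with h8 | h8 <;> rw [h8] <;> decide

/-- the decomposition `n = m^2 r` -/
theorem decomp {X n : ℕ} (hn : 1 ≤ n) (hnX : n ≤ X) (hodd : Odd n) (hc : Cond n) :
    ∃ m r : ℕ, 1 ≤ m ∧ n = m ^ 2 * r ∧ Squarefree r ∧
      ∃ i : Fin 3, r ∈ Pset (ch i) (X / m ^ 2) := by
  classical
  obtain ⟨r, m, hrpos, hmpos, hmr, hrsq⟩ := Nat.sq_mul_squarefree_of_pos (show 0 < n by omega)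
  have hfac : ∀ p : ℕ, p.Prime → p ∣ r → Odd (n.factorization p) := by
    intro p hp hpr
    rw [← hmr, Nat.factorization_mul (by positivity) (by omega), Nat.factorization_pow]
    have h1 : r.factorization p = 1 := by
      have h2 : r.factorization p ≤ 1 := (Nat.squarefree_iff_factorization_le_one (by omega)).1
        hrsq p
      have h3 : 1 ≤ r.factorization p := (hp.dvd_iff_one_le_factorization (by omega)).1 hpr
      omega
    simp only [Finsupp.coe_add, Finsupp.coe_smul, Pi.add_apply, Pi.smul_apply, smul_eq_mul, h1]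
    exact ⟨_, rfl⟩
  have hle : r ≤ X / m ^ 2 := by
    rw [Nat.le_div_iff_mul_le (by positivity)]
    calc r * m ^ 2 = n := by rw [← hmr]; ring
      _ ≤ X := hnX
  have hpodd : ∀ p : ℕ, p.Prime → p ∣ r → p ≠ 2 := by
    rintro p hp hpr rfl
    have h1 : 2 ∣ n := hmr ▸ Dvd.dvd.mul_left hpr _
    obtain ⟨k, hk⟩ := hodd
    omega
  refine ⟨m, r, hmpos, hmr.symm, hrsq, ?_⟩
  have key : ∀ i : Fin 3, (∀ p : ℕ, p.Prime → p ∣ r → ch i (p : ZMod 8) = 1) →
      r ∈ Pset (ch i) (X / m ^ 2) := by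
    intro i hi
    unfold Pset
    rw [mem_filter, mem_Icc]
    exact ⟨⟨hrpos, hle⟩, hi⟩
  have h4 : n % 4 = 1 ∨ n % 8 = 3 ∨ n % 8 = 7 := by
    obtain ⟨k, hk⟩ := hodd
    omega
  rcases h4 with h4 | h4 | h4
  · refine ⟨0, key 0 fun p hp hpr => val0 p ?_⟩
    exact ((hc p hp (hfac p hp hpr)).1 (Or.inl h4)).resolve_left (hpodd p hp hpr)
  · exact ⟨1, key 1 fun p hp hpr => val1 p ((hc p hp (hfac p hp hpr)).2.1 h4)⟩
  · exact ⟨2, key 2 fun p hp hpr => val2 p ((hc p hp (hfac p hp hpr)).2.2 h4)⟩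

/-- one value of `m` -/
theorem one_le {C : ℝ} (hC : 0 < C) {χ : MulChar (ZMod 8) ℤ}
    (h : ∀ Y : ℕ, 2 ≤ Y → (((Pset χ Y).filter Squarefree).card : ℝ) ≤
      C * Y / Real.sqrt (Real.log Y)) {X m : ℕ} (hX : 16 ≤ X) (hm : 1 ≤ m) (hm4 : m ^ 4 ≤ X) :
    (((Pset χ (X / m ^ 2)).filter Squarefree).card : ℝ) ≤
      (2 * C * X / Real.sqrt (Real.log X)) * ((m : ℝ) ^ 2)⁻¹ := by
  have hm2pos : 0 < m ^ 2 := by positivity
  have hXr : (16 : ℝ) ≤ X := by exact_mod_cast hX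
  have hmr : (0 : ℝ) < (m : ℝ) ^ 2 := by exact_mod_cast hm2pos
  set Y : ℕ := X / m ^ 2 with hY
  have hm2Y : m ^ 2 ≤ Y := by
    rw [hY, Nat.le_div_iff_mul_le hm2pos]
    calc m ^ 2 * m ^ 2 = m ^ 4 := by ring
      _ ≤ X := hm4
  -- `X ≤ (2 Y)^2`
  have h1 : X < m ^ 2 * (Y + 1) := by
    rw [hY]
    exact Nat.lt_mul_div_succ X hm2pos
  have hYpos : 1 ≤ Y := le_trans hm2pos hm2Y
  have h2 : X ≤ (2 * Y) ^ 2 := by
    calc X ≤ m ^ 2 * (Y + 1) := h1.le
      _ ≤ Y * (Y + 1) := Nat.mul_le_mul_right _ hm2Y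
      _ ≤ (2 * Y) ^ 2 := by nlinarith
  have hY2 : 2 ≤ Y := by
    by_contra hlt
    have : Y = 1 := by omega
    rw [this] at h2
    omega
  have hYr : (2 : ℝ) ≤ Y := by exact_mod_cast hY2
  have h2r : (X : ℝ) ≤ (2 * Y) ^ 2 := by exact_mod_cast h2
  have hlogX : 0 < Real.log X := Real.log_pos (by linarith)
  have hlog16 : 4 * Real.log 2 ≤ Real.log X := by
    have : Real.log 16 = 4 * Real.log 2 := by
      rw [show (16 : ℝ) = 2 ^ 4 by norm_num, Real.log_pow]
      norm_num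
    rw [← this]
    exact Real.log_le_log (by norm_num) hXr
  have hlogY : Real.log X / 4 ≤ Real.log Y := by
    have h3 : Real.log X ≤ 2 * (Real.log 2 + Real.log Y) := by
      calc Real.log X ≤ Real.log ((2 * (Y : ℝ)) ^ 2) := Real.log_le_log (by linarith) h2r
        _ = 2 * (Real.log 2 + Real.log Y) := by
            rw [Real.log_pow, Real.log_mul (by norm_num) (by linarith)]
            norm_num
    linarith
  have hsq : Real.sqrt (Real.log X) / 2 ≤ Real.sqrt (Real.log Y) := by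
    apply Real.le_sqrt_of_sq_le
    rw [div_pow, Real.sq_sqrt hlogX.le]
    linarith
  have hsX : 0 < Real.sqrt (Real.log X) := Real.sqrt_pos.2 hlogX
  have hYle : (Y : ℝ) ≤ X * ((m : ℝ) ^ 2)⁻¹ := by
    rw [hY]
    refine Nat.cast_div_le.trans (le_of_eq ?_)
    push_cast
    rw [div_eq_mul_inv]
  calc (((Pset χ Y).filter Squarefree).card : ℝ) ≤ C * Y / Real.sqrt (Real.log Y) := h Y hY2
    _ ≤ C * Y / (Real.sqrt (Real.log X) / 2) := by gcongr
    _ ≤ C * (X * ((m : ℝ) ^ 2)⁻¹) / (Real.sqrt (Real.log X) / 2) := by gcongr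
    _ = (2 * C * X / Real.sqrt (Real.log X)) * ((m : ℝ) ^ 2)⁻¹ := by
        field_simp

end CN3

open CN3 in
theorem CN3_thm (h : Stmt_CN2) : Stmt_CN3 := by
  classical
  have h' : ∀ i : Fin 3, ∃ C : ℝ, 0 < C ∧ ∀ Y : ℕ, 2 ≤ Y →
      (((Pset (ch i) Y).filter Squarefree).card : ℝ) ≤ C * Y / Real.sqrt (Real.log Y) :=
    fun i => h (ch i) (ch_sq i) (ch_ne i)
  choose c hc0 hc using h'
  set C : ℝ := c 0 + c 1 + c 2 with hC
  have hCi : ∀ i, c i ≤ C := by
    intro i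
    have h0 := hc0 0
    have h1 := hc0 1
    have h2 := hc0 2
    fin_cases i
    · show c 0 ≤ C
      linarith
    · show c 1 ≤ C
      linarith
    · show c 2 ≤ C
      linarith
  have hC0 : 0 < C := lt_of_lt_of_le (hc0 0) (hCi 0)
  have hcC : ∀ i : Fin 3, ∀ Y : ℕ, 2 ≤ Y →
      (((Pset (ch i) Y).filter Squarefree).card : ℝ) ≤ C * Y / Real.sqrt (Real.log Y) := by
    intro i Y hY
    refine (hc i Y hY).trans ?_
    have := hCi i
    gcongr
  refine ⟨12 * C + 2, by positivity, ?_⟩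
  intro X hX2
  -- a general finset
  suffices H : ∀ S : Finset ℕ, (∀ n ∈ S, 1 ≤ n ∧ n ≤ X ∧ Odd n ∧ Cond n) →
      (S.card : ℝ) ≤ (12 * C + 2) * X / Real.sqrt (Real.log X) by
    apply H
    intro n hn
    rw [mem_filter, mem_Icc] at hn
    exact ⟨hn.1.1, hn.1.2, hn.2.1, hn.2.2⟩
  intro S hS
  have hXr : (2 : ℝ) ≤ X := by exact_mod_cast hX2
  have hlogX : 0 < Real.log X := Real.log_pos (by linarith)
  have hsX : 0 < Real.sqrt (Real.log X) := Real.sqrt_pos.2 hlogX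
  rcases Nat.lt_or_ge X 16 with hlt | hge
  · -- small `X`
    have hcard : (S.card : ℝ) ≤ X := by
      have h1 : S ⊆ Icc 1 X := fun n hn => mem_Icc.2 ⟨(hS n hn).1, (hS n hn).2.1⟩
      have h2 := card_le_card h1
      rw [Nat.card_Icc] at h2
      exact_mod_cast (by omega : S.card ≤ X)
    have hs2 : Real.sqrt (Real.log X) ≤ 2 := by
      rw [Real.sqrt_le_left (by norm_num)]
      have h1 : Real.log X ≤ Real.log 16 := by
        apply Real.log_le_log (by linarith)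
        exact_mod_cast hlt.le
      have h2 : Real.log 16 = 4 * Real.log 2 := by
        rw [show (16 : ℝ) = 2 ^ 4 by norm_num, Real.log_pow]
        norm_num
      have h3 := Real.log_two_lt_d9
      linarith
    rw [le_div_iff₀ hsX]
    calc (S.card : ℝ) * Real.sqrt (Real.log X) ≤ X * 2 := by gcongr
      _ ≤ (12 * C + 2) * X := by nlinarith [mul_pos hC0 (lt_of_lt_of_le (by norm_num) hXr)]
  · -- the two parts
    set M : ℕ := Nat.sqrt (Nat.sqrt X) with hM
    have hM1 : 1 ≤ M := by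
      rw [hM, Nat.le_sqrt', Nat.le_sqrt']
      omega
    have hM4 : M ^ 4 ≤ X := by
      calc M ^ 4 = (M ^ 2) ^ 2 := by ring
        _ ≤ (Nat.sqrt X) ^ 2 := by
            apply Nat.pow_le_pow_left
            exact Nat.sqrt_le' _
        _ ≤ X := Nat.sqrt_le' _
    have hM4' : X < (M + 1) ^ 4 := by
      have h1 : Nat.sqrt X < (M + 1) ^ 2 := Nat.lt_succ_sqrt' _
      have h2 : X < (Nat.sqrt X + 1) ^ 2 := Nat.lt_succ_sqrt' _
      calc X < (Nat.sqrt X + 1) ^ 2 := h2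
        _ ≤ ((M + 1) ^ 2) ^ 2 := Nat.pow_le_pow_left h1 2
        _ = (M + 1) ^ 4 := by ring
    have hMr : (1 : ℝ) ≤ M := by exact_mod_cast hM1
    set A : Finset ℕ := (Icc 1 M).biUnion (fun m => (univ : Finset (Fin 3)).biUnion (fun i =>
      ((Pset (ch i) (X / m ^ 2)).filter Squarefree).image (fun r => m ^ 2 * r))) with hA
    set B : Finset ℕ := S.filter (fun n => ∃ m : ℕ, M < m ∧ m ^ 2 ∣ n) with hB
    have hsub : S ⊆ A ∪ B := by
      intro n hn
      obtain ⟨h1, h2, h3, h4⟩ := hS n hn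
      obtain ⟨m, r, hm, hnr, hr, i, hri⟩ := decomp h1 h2 h3 h4
      rcases Nat.lt_or_ge M m with hMm | hMm
      · apply mem_union_right
        rw [hB, mem_filter]
        exact ⟨hn, m, hMm, ⟨r, hnr⟩⟩
      · apply mem_union_left
        rw [hA, mem_biUnion]
        refine ⟨m, mem_Icc.2 ⟨hm, hMm⟩, ?_⟩
        rw [mem_biUnion]
        refine ⟨i, mem_univ _, ?_⟩
        rw [mem_image]
        exact ⟨r, mem_filter.2 ⟨hri, hr⟩, hnr.symm⟩
    have hBle : (B.card : ℝ) ≤ X / M := by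
      apply Pool.Agent.ADS.EV4.card_sq_le X M hM1 B
      intro n hn
      rw [hB, mem_filter] at hn
      exact ⟨(hS n hn.1).1, (hS n hn.1).2.1, hn.2⟩
    have hAle : (A.card : ℝ) ≤ ∑ m ∈ Icc 1 M,
        3 * ((2 * C * X / Real.sqrt (Real.log X)) * ((m : ℝ) ^ 2)⁻¹) := by
      have h1 : A.card ≤ ∑ m ∈ Icc 1 M, ∑ i : Fin 3,
          ((Pset (ch i) (X / m ^ 2)).filter Squarefree).card := by
        refine card_biUnion_le.trans (sum_le_sum fun m _ => ?_)
        exact card_biUnion_le.trans (sum_le_sum fun i _ => card_image_le)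
      have h2 : (A.card : ℝ) ≤ ∑ m ∈ Icc 1 M, ∑ i : Fin 3,
          (((Pset (ch i) (X / m ^ 2)).filter Squarefree).card : ℝ) := by
        exact_mod_cast h1
      refine h2.trans (sum_le_sum fun m hm => ?_)
      rw [mem_Icc] at hm
      have hm4 : m ^ 4 ≤ X := (Nat.pow_le_pow_left hm.2 4).trans hM4
      refine (sum_le_sum fun i _ => one_le hC0 (hcC i) hge hm.1 hm4).trans (le_of_eq ?_)
      rw [sum_const, card_univ, Fintype.card_fin, nsmul_eq_mul]
      norm_num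
    have hAle' : (A.card : ℝ) ≤ 12 * C * X / Real.sqrt (Real.log X) := by
      refine hAle.trans ?_
      have h1 := Pool.Agent.ADS.EV4.sum_inv_sq_le M
      have h2 : 0 ≤ 2 * C * X / Real.sqrt (Real.log X) := by positivity
      calc ∑ m ∈ Icc 1 M, 3 * ((2 * C * X / Real.sqrt (Real.log X)) * ((m : ℝ) ^ 2)⁻¹)
          = 3 * ((2 * C * X / Real.sqrt (Real.log X)) * ∑ m ∈ Icc 1 M, ((m : ℝ) ^ 2)⁻¹) := by
            rw [mul_sum, mul_sum]
        _ ≤ 3 * ((2 * C * X / Real.sqrt (Real.log X)) * 2) := by gcongr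
        _ = 12 * C * X / Real.sqrt (Real.log X) := by ring
    have hlogM : Real.log X ≤ 4 * M := by
      have h1 : (X : ℝ) ≤ ((M : ℝ) + 1) ^ 4 := by exact_mod_cast hM4'.le
      calc Real.log X ≤ Real.log (((M : ℝ) + 1) ^ 4) := Real.log_le_log (by linarith) h1
        _ = 4 * Real.log ((M : ℝ) + 1) := by rw [Real.log_pow]; norm_num
        _ ≤ 4 * M := by
            have h2 := Real.log_le_sub_one_of_pos (show (0 : ℝ) < (M : ℝ) + 1 by linarith)
            linarith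
    have hsM : Real.sqrt (Real.log X) ≤ 2 * M := by
      rw [Real.sqrt_le_left (by linarith)]
      nlinarith
    have hBle' : (X : ℝ) / M ≤ 2 * X / Real.sqrt (Real.log X) := by
      rw [div_le_div_iff₀ (by linarith) hsX]
      nlinarith
    have hU : (S.card : ℝ) ≤ A.card + B.card := by
      exact_mod_cast (card_le_card hsub).trans (card_union_le _ _)
    calc (S.card : ℝ) ≤ A.card + B.card := hU
      _ ≤ 12 * C * X / Real.sqrt (Real.log X) + 2 * X / Real.sqrt (Real.log X) :=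
          add_le_add hAle' (hBle.trans hBle')
      _ = (12 * C + 2) * X / Real.sqrt (Real.log X) := by ring

end Pool.Agent.ADG
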