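import Pool.Agent.ADG.St

/-!
# ADG, module FIN (helper96): final assembly
-/

set_option autoImplicit false

namespace Pool.Agent.ADG

open Finset Pool.Agent.ADS

theorem FIN_thm (h1 : Stmt_SY2) (h2 : Stmt_PXT) (h3 : Stmt_CN3) : Stmt_FIN := by
  classical
  have hfin : ∀ {n : ℕ} {G : Type} [Group G] {N : Subgroup G} {D : Finset G},
      IsAffineDifferenceSet n N D → Finite G := by
    intro n G _ N D h
    refine Nat.finite_of_card_ne_zero ?_
    rw [h.card_group]
    have h4 := h.two_le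
    have h5 : 2 ^ 2 ≤ n ^ 2 := Nat.pow_le_pow_left h4 2
    omega
  have hcond : ∀ n : ℕ, AnyOrder n → Cond n := by
    rintro n ⟨G, iG, N, D, hD⟩ l hl hodd
    have := hfin hD
    exact h1 G n N D hD l hl hodd
  refine ⟨?_, ?_⟩
  · rintro n ⟨G, iG, N, D, hD⟩ l hl hodd
    have hG := hfin hD
    obtain ⟨ha, hb, hc⟩ := h1 G n N D hD l hl hodd
    exact ⟨ha, hb, hc, fun hn p hp hp2 hpn => h2 G n N D hD hn p hp hp2 hpn l hl hodd⟩
  · obtain ⟨C, hC, hcount⟩ := h3
    refine ⟨2 * C, fun x hx => ?_⟩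
    have hx0 : (0 : ℝ) ≤ x := by linarith
    set X := ⌊x⌋₊ with hX
    have hX2 : 2 ≤ X := Nat.le_floor (by exact_mod_cast hx)
    have hXx : (X : ℝ) ≤ x := Nat.floor_le hx0
    have hxX : x < X + 1 := Nat.lt_floor_add_one x
    have hX2' : (2 : ℝ) ≤ X := by exact_mod_cast hX2
    have hsub : {n : ℕ | (n : ℝ) ≤ x ∧ Odd n ∧ AnyOrder n}.ncard ≤
        ((Icc 1 X).filter (fun n => Odd n ∧ Cond n)).card := by
      rw [← Set.ncard_coe_finset]
      refine Set.ncard_le_ncard ?_ (Finset.finite_toSet _)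
      rintro n ⟨hnx, hn, hN⟩
      have h4 : n ≤ X := Nat.le_floor hnx
      rw [Finset.mem_coe, Finset.mem_filter, Finset.mem_Icc]
      exact ⟨⟨hn.pos, h4⟩, hn, hcond n hN⟩
    have h5 := hcount X hX2
    have hlX : 0 < Real.log X := Real.log_pos (by linarith)
    have hlx : 0 < Real.log x := Real.log_pos (by linarith)
    have hlog : Real.log x ≤ 2 * Real.log X := by
      have h6 : x ≤ (X : ℝ) ^ 2 := by nlinarith
      have h7 := Real.log_le_log (by linarith) h6
      rw [Real.log_pow] at h7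
      exact_mod_cast h7
    have hs : Real.sqrt (Real.log x) ≤ 2 * Real.sqrt (Real.log X) := by
      refine Real.sqrt_le_iff.2 ⟨by positivity, ?_⟩
      rw [mul_pow, Real.sq_sqrt hlX.le]
      linarith
    have hsx : 0 < Real.sqrt (Real.log x) := Real.sqrt_pos.2 hlx
    have hsX : 0 < Real.sqrt (Real.log X) := Real.sqrt_pos.2 hlX
    calc ({n : ℕ | (n : ℝ) ≤ x ∧ Odd n ∧ AnyOrder n}.ncard : ℝ)
        ≤ (((Icc 1 X).filter (fun n => Odd n ∧ Cond n)).card : ℝ) := by exact_mod_cast hsub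
      _ ≤ C * X / Real.sqrt (Real.log X) := h5
      _ ≤ 2 * C * x / Real.sqrt (Real.log x) := by
        rw [div_le_div_iff₀ hsX hsx]
        calc C * X * Real.sqrt (Real.log x) ≤ C * x * (2 * Real.sqrt (Real.log X)) := by
              refine mul_le_mul (mul_le_mul_of_nonneg_left hXx hC.le) hs hsx.le (by positivity)
          _ = 2 * C * x * Real.sqrt (Real.log X) := by ring

end Pool.Agent.ADG
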