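import Pool.Agent.ADG.St

/-!
# Project ADG, module GRP (helper22): the orbit matrix of an affine difference set
-/

set_option autoImplicit false

namespace Pool.Agent.ADG

open Finset Pool.Agent.ADS

namespace GRP

variable {G : Type} [Group G]

/-- representatives of the double cosets -/
private theorem reps (G : Type) [Group G] [Finite G] (N H : Subgroup G) :
    ∃ (r : ℕ) (x : Fin r → G), ∀ g : G, ∃! i, ∃ a ∈ N, ∃ k ∈ H, g = a * x i * k := by
  classical
  have : Finite (Quotient (DoubleCoset.setoid (N : Set G) (H : Set G))) := Quotient.finite _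
  obtain ⟨r, ⟨e⟩⟩ := Finite.exists_equiv_fin (Quotient (DoubleCoset.setoid (N : Set G) (H : Set G)))
  have hsym : ∀ (g g' : G), (∃ a ∈ N, ∃ k ∈ H, g' = a * g * k) ↔
      Quotient.mk (DoubleCoset.setoid (N : Set G) (H : Set G)) g = Quotient.mk _ g' := by
    intro g g'
    rw [Quotient.eq]
    exact (DoubleCoset.rel_iff (H := N) (K := H)).symm
  refine ⟨r, fun i => (e.symm i).out, ?_⟩
  intro g
  refine ⟨e (Quotient.mk _ g), ?_, ?_⟩
  · show ∃ a ∈ N, ∃ k ∈ H, g = a * (e.symm (e (Quotient.mk _ g))).out * k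
    rw [Equiv.symm_apply_apply, hsym]
    exact Quotient.out_eq _
  · intro i hi
    have h2 : ∃ a ∈ N, ∃ k ∈ H, g = a * (e.symm i).out * k := hi
    rw [hsym] at h2
    rw [← h2]
    rw [Quotient.out_eq, Equiv.apply_symm_apply]

/-- the sum over the group as a sum over the cosets and the subgroup -/
private theorem sum_cosets [Fintype G] (H : Subgroup G) [Fintype (G ⧸ H)] [Fintype H] (F : G → ℤ) :
    ∑ p : G ⧸ H, ∑ k : H, F (p.out * k) = ∑ g : G, F g := by
  rw [← Fintype.sum_prod_type' (f := fun (p : G ⧸ H) (k : H) => F (p.out * k))]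
  apply Fintype.sum_bijective (fun z : (G ⧸ H) × H => z.1.out * (z.2 : G))
  · constructor
    · rintro ⟨p, k⟩ ⟨p', k'⟩ h
      have h' : p.out * (k : G) = p'.out * (k' : G) := h
      have hp : p = p' := by
        have h1 : ((p.out * (k : G) : G) : G ⧸ H) = p := by
          rw [QuotientGroup.mk_mul_of_mem _ k.2, QuotientGroup.out_eq']
        have h2 : ((p'.out * (k' : G) : G) : G ⧸ H) = p' := by
          rw [QuotientGroup.mk_mul_of_mem _ k'.2, QuotientGroup.out_eq']
        rw [← h1, ← h2, h']
      subst hp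
      have hk : (k : G) = k' := mul_left_cancel h'
      rw [Subtype.ext hk]
    · intro g
      have h1 : ((g : G ⧸ H).out)⁻¹ * g ∈ H := by
        rw [← QuotientGroup.eq]
        exact QuotientGroup.out_eq' _
      exact ⟨((g : G ⧸ H), ⟨_, h1⟩), by simp⟩
  · rintro ⟨p, k⟩
    rfl

open Classical in
/-- the entries of the orbit matrix -/
private noncomputable def cc (H : Subgroup G) [Fintype H] (D : Finset G) (x y : G) : ℤ :=
  ∑ k : H, if x * k * y⁻¹ ∈ D then 1 else 0

private theorem row [Fintype G] (H : Subgroup G) [Fintype (G ⧸ H)] [Fintype H] (D : Finset G)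
    (x : G) : ∑ p : G ⧸ H, cc H D x p.out = D.card := by
  classical
  have h1 : ∀ p : G ⧸ H, cc H D x p.out =
      ∑ k : H, (if x * (p.out * (k : G))⁻¹ ∈ D then (1 : ℤ) else 0) := by
    intro p
    rw [cc]
    apply Fintype.sum_equiv (Equiv.inv H)
    intro k
    simp only [Equiv.inv_apply, InvMemClass.coe_inv, mul_inv_rev, inv_inv, mul_assoc]
  rw [Finset.sum_congr rfl fun p _ => h1 p,
    sum_cosets H (fun g => if x * g⁻¹ ∈ D then (1 : ℤ) else 0)]
  rw [Finset.sum_boole]
  norm_cast
  apply Finset.card_bij (fun g _ => x * g⁻¹)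
  · intro g hg
    simpa using hg
  · intro g _ g' _ h
    exact inv_injective (mul_left_cancel h)
  · intro d hd
    refine ⟨d⁻¹ * x, ?_, ?_⟩
    · simp [hd]
    · simp

private theorem col [Fintype G] (H : Subgroup G) [Fintype (G ⧸ H)] [Fintype H] (D : Finset G)
    (y : G) : ∑ p : G ⧸ H, cc H D p.out y = D.card := by
  classical
  have h1 : ∀ p : G ⧸ H, cc H D p.out y =
      ∑ k : H, (if (p.out * (k : G)) * y⁻¹ ∈ D then (1 : ℤ) else 0) := fun p => rfl
  rw [Finset.sum_congr rfl fun p _ => h1 p,
    sum_cosets H (fun g => if g * y⁻¹ ∈ D then (1 : ℤ) else 0)]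
  rw [Finset.sum_boole]
  norm_cast
  apply Finset.card_bij (fun g _ => g * y⁻¹)
  · intro g hg
    simpa using hg
  · intro g _ g' _ h
    exact mul_right_cancel h
  · intro d hd
    refine ⟨d * y, ?_, ?_⟩
    · simp [hd]
    · simp

open Classical in
/-- number of representations of `t` as a quotient -/
private noncomputable def lam [Fintype G] (D : Finset G) (t : G) : ℤ :=
  ∑ g : G, (if g ∈ D then (1 : ℤ) else 0) * (if t * g ∈ D then 1 else 0)

private theorem gram [Fintype G] (H : Subgroup G) [Fintype (G ⧸ H)] [Fintype H] (D : Finset G)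
    (x x' : G) : ∑ p : G ⧸ H, cc H D x p.out * cc H D x' p.out =
      ∑ j : H, lam D (x' * j * x⁻¹) := by
  classical
  have h1 : ∀ p : G ⧸ H, cc H D x p.out * cc H D x' p.out = ∑ j : H, ∑ k : H,
      (if x * (p.out * (k : G))⁻¹ ∈ D then (1 : ℤ) else 0) *
        (if x' * j * (p.out * (k : G))⁻¹ ∈ D then 1 else 0) := by
    intro p
    have h2 : cc H D x p.out =
        ∑ k : H, (if x * (p.out * (k : G))⁻¹ ∈ D then (1 : ℤ) else 0) := by
      rw [cc]
      apply Fintype.sum_equiv (Equiv.inv H)
      intro k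
      simp only [Equiv.inv_apply, InvMemClass.coe_inv, mul_inv_rev, inv_inv, mul_assoc]
    rw [h2, Finset.sum_mul, Finset.sum_comm]
    refine Finset.sum_congr rfl fun k _ => ?_
    rw [← Finset.mul_sum]
    congr 1
    rw [cc]
    symm
    apply Fintype.sum_equiv (Equiv.mulRight k⁻¹)
    intro j
    simp only [Equiv.coe_mulRight, Subgroup.coe_mul, InvMemClass.coe_inv, mul_inv_rev, mul_assoc]
  rw [Finset.sum_congr rfl fun p _ => h1 p, Finset.sum_comm]
  refine Finset.sum_congr rfl fun j _ => ?_
  rw [sum_cosets H (fun g => (if x * g⁻¹ ∈ D then (1 : ℤ) else 0) *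
    (if x' * j * g⁻¹ ∈ D then 1 else 0)), lam]
  apply Fintype.sum_equiv ((Equiv.inv G).trans (Equiv.mulLeft x))
  intro g
  simp [mul_assoc]

private theorem lam_val [Fintype G] {n : ℕ} {N : Subgroup G} {D : Finset G}
    (hD : IsAffineDifferenceSet n N D) [DecidableEq G] [DecidablePred (· ∈ N)] (t : G) :
    lam D t = (if t = 1 then (n : ℤ) else 0) + (if t ∈ N then 0 else 1) := by
  classical
  have h0 : lam D t = (#{g : G | g ∈ D ∧ t * g ∈ D} : ℕ) := by
    rw [lam, Finset.card_filter]
    push_cast
    refine Finset.sum_congr rfl fun g _ => ?_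
    by_cases h1 : g ∈ D <;> by_cases h2 : t * g ∈ D <;> simp [h1, h2]
  rw [h0]
  by_cases ht : t = 1
  · subst ht
    rw [if_pos rfl, if_pos N.one_mem]
    have : ({g : G | g ∈ D ∧ 1 * g ∈ D} : Finset G) = D := by
      ext g
      simp
    rw [this, hD.card_set]
    simp
  · rw [if_neg ht]
    by_cases hN : t ∈ N
    · rw [if_pos hN]
      have : ({g : G | g ∈ D ∧ t * g ∈ D} : Finset G) = ∅ := by
        rw [Finset.filter_eq_empty_iff]
        rintro g - ⟨h1, h2⟩
        exact hD.ne_of_mem t hN ht _ h2 _ h1 (by simp)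
      rw [this]
      simp
    · rw [if_neg hN]
      have : #{g : G | g ∈ D ∧ t * g ∈ D} = 1 := by
        rw [Finset.card_eq_one]
        obtain ⟨d, ⟨hd1, hd2, hd3⟩, hu⟩ := hD.existsUnique_of_notMem t hN
        refine ⟨d.2, ?_⟩
        ext g
        simp only [Finset.mem_filter, Finset.mem_univ, true_and, Finset.mem_singleton]
        constructor
        · rintro ⟨h1, h2⟩
          have := hu (t * g, g) ⟨h2, h1, by simp⟩
          rw [← this]
        · rintro rfl
          refine ⟨hd2, ?_⟩
          rw [← hd3]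
          simpa using hd1
      rw [this]
      simp

open Classical in
private theorem sta_eq (N H : Subgroup G) [Fintype H] (x : G) :
    (sta N H x : ℤ) = ∑ j : H, (if x * (j : G) * x⁻¹ ∈ N then (1 : ℤ) else 0) := by
  rw [Finset.sum_boole, sta]
  norm_cast
  rw [← Fintype.card_subtype, ← Nat.card_eq_fintype_card]
  apply Nat.card_congr
  exact
    { toFun := fun k => ⟨⟨k.1, k.2.1⟩, k.2.2⟩
      invFun := fun j => ⟨j.1.1, j.1.2, j.2⟩
      left_inv := fun k => rfl
      right_inv := fun j => rfl }

end GRP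

open GRP in
/-- GRP. -/
theorem GRP_thm (h : Stmt_MAT) : Stmt_GRP := by
  classical
  intro G _ _ n N D hD H
  let _ : Fintype G := Fintype.ofFinite G
  let _ : Fintype H := Fintype.ofFinite H
  let _ : Fintype (G ⧸ H) := Fintype.ofFinite _
  obtain ⟨r, x, hx⟩ := reps G N H
  choose β₀ hβ₀ using fun q : G ⧸ H => (hx q.out).exists
  have hβ : ∀ (g : G) (i : Fin r), β₀ (g : G ⧸ H) = i ↔ ∃ a ∈ N, ∃ k ∈ H, g = a * x i * k := by
    intro g i
    obtain ⟨k, hk⟩ := QuotientGroup.mk_out_eq_mul H g
    constructor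
    · rintro rfl
      obtain ⟨a, ha, k', hk', h1⟩ := hβ₀ (g : G ⧸ H)
      refine ⟨a, ha, k' * (k : G)⁻¹, H.mul_mem hk' (H.inv_mem k.2), ?_⟩
      rw [← mul_assoc, ← h1, hk, mul_inv_cancel_right]
    · rintro ⟨a, ha, k', hk', h1⟩
      apply (hx (g : G ⧸ H).out).unique (hβ₀ _)
      refine ⟨a, ha, k' * k, H.mul_mem hk' k.2, ?_⟩
      rw [hk, h1, mul_assoc (a * x i)]
  have hsurj : Function.Surjective β₀ := by
    intro i
    exact ⟨(x i : G), (hβ (x i) i).2 ⟨1, N.one_mem, 1, H.one_mem, by simp⟩⟩
  have horb : ∀ i, sta N H (x i) * #{q : G ⧸ H | β₀ q = i} = n - 1 := by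
    intro i
    have h1 := MulAction.card_orbit_mul_card_stabilizer_eq_card_group N ((x i : G) : G ⧸ H)
    have h2 : Fintype.card (MulAction.orbit N ((x i : G) : G ⧸ H)) = #{q : G ⧸ H | β₀ q = i} := by
      rw [← Set.toFinset_card]
      congr 1
      ext q
      rw [Set.mem_toFinset, Finset.mem_filter]
      constructor
      · rintro ⟨a, rfl⟩
        refine ⟨Finset.mem_univ _, ?_⟩
        have h3 : (fun m : N => m • ((x i : G) : G ⧸ H)) a = (((a : G) * x i : G) : G ⧸ H) := rfl
        rw [h3, hβ]
        exact ⟨a, a.2, 1, H.one_mem, by simp⟩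
      · rintro ⟨-, h3⟩
        obtain ⟨a, ha, k, hk, h4⟩ := (hβ q.out i).1 (by rw [QuotientGroup.out_eq', h3])
        refine ⟨⟨a, ha⟩, ?_⟩
        show (((a : G) * x i : G) : G ⧸ H) = q
        rw [← QuotientGroup.mk_mul_of_mem _ hk, ← h4, QuotientGroup.out_eq']
    have h3 : Fintype.card (MulAction.stabilizer N ((x i : G) : G ⧸ H)) = sta N H (x i) := by
      rw [sta, ← Nat.card_eq_fintype_card]
      apply Nat.card_congr
      have hst : ∀ a : N, a ∈ MulAction.stabilizer N ((x i : G) : G ⧸ H) ↔
          (x i)⁻¹ * a * x i ∈ H := by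
        intro a
        rw [MulAction.mem_stabilizer_iff]
        have h4 : a • ((x i : G) : G ⧸ H) = (((a : G) * x i : G) : G ⧸ H) := rfl
        rw [h4, eq_comm, QuotientGroup.eq, mul_assoc]
      exact
        { toFun := fun a => ⟨(x i)⁻¹ * (a.1 : G) * x i, (hst a.1).1 a.2, by
            simp [mul_assoc]⟩
          invFun := fun k => ⟨⟨x i * k.1 * (x i)⁻¹, k.2.2⟩, (hst _).2 (by
            simpa [mul_assoc] using k.2.1)⟩
          left_inv := by
            intro a
            apply Subtype.ext
            apply Subtype.ext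
            simp [mul_assoc]
          right_inv := by
            intro k
            apply Subtype.ext
            simp [mul_assoc] }
    rw [h2, h3, ← Nat.card_eq_fintype_card, hD.card_subgroup, mul_comm] at h1
    exact h1
  have hcardI : Nat.card H * Fintype.card (G ⧸ H) + 1 = n ^ 2 := by
    have h1 := hD.card_group
    have h2 := H.card_mul_index
    have h3 := hD.two_le
    rw [Subgroup.index_eq_card, Nat.card_eq_fintype_card (α := G ⧸ H)] at h2
    rw [h2, h1]
    have : 1 ≤ n ^ 2 := Nat.one_le_pow _ _ (by omega)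
    omega
  refine ⟨r, x, fun i => #{q : G ⧸ H | β₀ q = i}, hx, horb, ?_, ?_⟩
  · rw [Subgroup.index_eq_card, Nat.card_eq_fintype_card, ← Finset.card_univ]
    exact (Finset.card_eq_sum_card_fiberwise (fun q _ => Finset.mem_univ (β₀ q))).symm
  · intro l hl hodd
    have hgram : ∀ q q' : G ⧸ H,
        (Matrix.of (fun a b : G ⧸ H => cc H D a.out b.out) *
          (Matrix.of (fun a b : G ⧸ H => cc H D a.out b.out)).transpose) q q' =
        (if q = q' then (n : ℤ) else 0) + (Nat.card H : ℕ) -
          (if β₀ q = β₀ q' then (sta N H (x (β₀ q)) : ℤ) else 0) := by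
      intro q q'
      rw [Matrix.mul_apply]
      simp only [Matrix.transpose_apply, Matrix.of_apply]
      rw [gram, Finset.sum_congr rfl fun j _ => lam_val hD _, Finset.sum_add_distrib]
      have e1 : ∑ j : H, (if q'.out * (j : G) * q.out⁻¹ = 1 then (n : ℤ) else 0) =
          if q = q' then (n : ℤ) else 0 := by
        by_cases hq : q = q'
        · subst hq
          rw [if_pos rfl, Finset.sum_eq_single (1 : H)]
          · simp
          · intro j _ hj
            rw [if_neg]
            intro h6
            apply hj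
            apply Subtype.ext
            show (j : G) = 1
            have h7 : q.out * (j : G) = q.out := mul_inv_eq_one.1 h6
            exact mul_eq_left.1 h7
          · intro h6
            exact absurd (Finset.mem_univ _) h6
        · rw [if_neg hq]
          apply Finset.sum_eq_zero
          intro j _
          rw [if_neg]
          intro h6
          apply hq
          have h7 : q'.out * (j : G) = q.out := mul_inv_eq_one.1 h6
          rw [← QuotientGroup.out_eq' q, ← h7, QuotientGroup.mk_mul_of_mem _ j.2,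
            QuotientGroup.out_eq']
      have e2 : ∑ j : H, (if q'.out * (j : G) * q.out⁻¹ ∈ N then (0 : ℤ) else 1) =
          (Nat.card H : ℕ) - ∑ j : H, (if q'.out * (j : G) * q.out⁻¹ ∈ N then (1 : ℤ) else 0) := by
        rw [eq_sub_iff_add_eq, ← Finset.sum_add_distrib]
        have : ∀ j : H, ((if q'.out * (j : G) * q.out⁻¹ ∈ N then (0 : ℤ) else 1) +
            if q'.out * (j : G) * q.out⁻¹ ∈ N then (1 : ℤ) else 0) = 1 := by
          intro j
          split_ifs <;> simp
        rw [Finset.sum_congr rfl fun j _ => this j]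
        simp [Nat.card_eq_fintype_card]
      have e3 : ∑ j : H, (if q'.out * (j : G) * q.out⁻¹ ∈ N then (1 : ℤ) else 0) =
          if β₀ q = β₀ q' then (sta N H (x (β₀ q)) : ℤ) else 0 := by
        obtain ⟨a, ha, k, hk, h6⟩ := hβ₀ q
        obtain ⟨a', ha', k', hk', h7⟩ := hβ₀ q'
        by_cases hq : β₀ q = β₀ q'
        · rw [if_pos hq, sta_eq]
          apply Fintype.sum_equiv ((Equiv.mulLeft (⟨k', hk'⟩ : H)).trans
            (Equiv.mulRight (⟨k, hk⟩ : H)⁻¹))
          intro j
          have h8 : q'.out * (j : G) * q.out⁻¹ =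
              a' * (x (β₀ q) * (k' * j * k⁻¹) * (x (β₀ q))⁻¹) * a⁻¹ := by
            rw [h6, h7, ← hq]
            group
          have h9 : q'.out * (j : G) * q.out⁻¹ ∈ N ↔
              x (β₀ q) * (k' * j * k⁻¹) * (x (β₀ q))⁻¹ ∈ N := by
            rw [h8, N.mul_mem_cancel_right (N.inv_mem ha), N.mul_mem_cancel_left ha']
          simp only [h9]
          rfl
        · rw [if_neg hq]
          apply Finset.sum_eq_zero
          intro j _
          rw [if_neg]
          intro h8
          apply hq
          have h9 : β₀ q' = β₀ q := by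
            rw [← QuotientGroup.out_eq' q', hβ]
            refine ⟨(q'.out * (j : G) * q.out⁻¹) * a, N.mul_mem h8 ha, k * (j : G)⁻¹,
              H.mul_mem hk (H.inv_mem j.2), ?_⟩
            have h10 : (q'.out * (j : G) * q.out⁻¹) * a * x (β₀ q) * (k * (j : G)⁻¹) =
                (q'.out * (j : G) * q.out⁻¹) * (a * x (β₀ q) * k) * (j : G)⁻¹ := by group
            rw [h10, ← h6]
            group
          exact h9.symm
      rw [e1, e2, e3]
      ring
    have h5 := h (G ⧸ H) (G ⧸ H) (Fin r) β₀ (Matrix.of fun a b => cc H D a.out b.out) n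
      (Nat.card H) l (fun i => sta N H (x i)) hsurj hl hodd hD.two_le rfl hcardI ?_ hgram ?_ ?_
    · rw [Fintype.card_fin, ← Nat.card_eq_fintype_card, ← Subgroup.index_eq_card] at h5
      exact h5
    · intro b
      have h6 := horb b
      have h7 := hD.two_le
      show sta N H (x b) * _ + 1 = n
      rw [h6]
      omega
    · intro i
      show ∑ j : G ⧸ H, cc H D i.out j.out = n
      rw [row, hD.card_set]
    · intro j
      show ∑ i : G ⧸ H, cc H D i.out j.out = n
      rw [col, hD.card_set]

end Pool.Agent.ADG
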