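import Pool.Agent.ADG.St

set_option autoImplicit false

namespace Pool.Agent.ADG

open Finset Pool.Agent.ADS

namespace INVa

variable {G : Type} [Group G]

/-- the subgroup `H ∩ x⁻¹ N x` -/
def Kx (N H : Subgroup G) (x : G) : Subgroup G := H ⊓ N.comap (MulAut.conj x).toMonoidHom

lemma mem_Kx {N H : Subgroup G} {x k : G} : k ∈ Kx N H x ↔ k ∈ H ∧ x * k * x⁻¹ ∈ N := Iff.rfl

lemma sta_eq (N H : Subgroup G) (x : G) : sta N H x = Nat.card (Kx N H x) := rfl

lemma invo_mem {n : ℕ} {N : Subgroup G} {D : Finset G} (h : IsAffineDifferenceSet n N D) (g : G)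
    (hg : g * g = 1) : g ∈ N := by
  by_contra hN
  obtain ⟨d, ⟨hd1, hd2, hd⟩, huniq⟩ := h.existsUnique_of_notMem g hN
  have hinv : g⁻¹ = g := inv_eq_of_mul_eq_one_left hg
  have h2 : d.2 * d.1⁻¹ = g := by
    have h3 : d.2 * d.1⁻¹ = (d.1 * d.2⁻¹)⁻¹ := by group
    rw [h3, hd, hinv]
  have h4 : ((d.2, d.1) : G × G) = d := huniq (d.2, d.1) ⟨hd2, hd1, h2⟩
  have h5 : d.2 = d.1 := congrArg Prod.fst h4
  apply hN
  rw [← hd, h5, mul_inv_cancel]
  exact N.one_mem

lemma dvd_N [Finite G] (N H : Subgroup G) (x : G) : sta N H x ∣ Nat.card N := by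
  rw [sta_eq]
  let f : Kx N H x →* N :=
    ((MulAut.conj x).toMonoidHom.comp (Kx N H x).subtype).codRestrict N (fun k => k.2.2)
  refine Subgroup.card_dvd_of_injective f ?_
  intro a b hab
  have h1 : x * (a : G) * x⁻¹ = x * (b : G) * x⁻¹ := congrArg (fun z : N => (z : G)) hab
  have h2 : (a : G) = b := by simpa using h1
  exact Subtype.ext h2

lemma dvd_H [Finite G] (N H : Subgroup G) (x : G) : sta N H x ∣ Nat.card H := by
  rw [sta_eq]
  exact Subgroup.card_dvd_of_le inf_le_left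

lemma const (N H : Subgroup G) (x a k : G) (ha : a ∈ N) (hk : k ∈ H) :
    sta N H (a * x * k) = sta N H x := by
  unfold sta
  refine Nat.card_congr (Equiv.subtypeEquiv (MulAut.conj k).toEquiv fun t => ?_)
  have h1 : t ∈ H ↔ k * t * k⁻¹ ∈ H := by
    constructor
    · intro ht
      exact H.mul_mem (H.mul_mem hk ht) (H.inv_mem hk)
    · intro ht
      have h2 := H.mul_mem (H.mul_mem (H.inv_mem hk) ht) hk
      have h3 : k⁻¹ * (k * t * k⁻¹) * k = t := by group
      rwa [h3] at h2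
  have h2 : a * x * k * t * (a * x * k)⁻¹ ∈ N ↔ x * (k * t * k⁻¹) * x⁻¹ ∈ N := by
    constructor
    · intro ht
      have h3 := N.mul_mem (N.mul_mem (N.inv_mem ha) ht) ha
      have h4 : a⁻¹ * (a * x * k * t * (a * x * k)⁻¹) * a = x * (k * t * k⁻¹) * x⁻¹ := by group
      rwa [h4] at h3
    · intro ht
      have h3 := N.mul_mem (N.mul_mem ha ht) (N.inv_mem ha)
      have h4 : a * (x * (k * t * k⁻¹) * x⁻¹) * a⁻¹ = a * x * k * t * (a * x * k)⁻¹ := by group
      rwa [h4] at h3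
  exact and_congr h1 h2

end INVa

open INVa in
theorem INV_thm : Stmt_INV := by
  intro G _ _ n N D h
  refine ⟨fun g hg => invo_mem h g hg, fun H x => ⟨dvd_H N H x, dvd_N N H x⟩,
    fun H x a ha k hk => const N H x a k ha hk, fun hn H h2 x => ?_⟩
  obtain ⟨y, hy⟩ := exists_prime_orderOf_dvd_card' (G := H) 2 h2
  have hy2 : (y : G) * y = 1 := by
    have h3 := pow_orderOf_eq_one y
    rw [hy, pow_two] at h3
    exact congrArg (fun z : H => (z : G)) h3
  have hmem : (y : G) ∈ Kx N H x := by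
    refine mem_Kx.2 ⟨y.2, invo_mem h _ ?_⟩
    have h4 : x * (y : G) * x⁻¹ * (x * (y : G) * x⁻¹) = x * ((y : G) * y) * x⁻¹ := by group
    rw [h4, hy2]
    simp
  have hdvd : 2 ∣ sta N H x := by
    rw [sta_eq]
    have h5 : orderOf (⟨(y : G), hmem⟩ : Kx N H x) = 2 := by
      rw [← Subgroup.orderOf_coe]
      show orderOf (y : G) = 2
      rw [Subgroup.orderOf_coe]
      exact hy
    rw [← h5]
    exact orderOf_dvd_natCard _
  have hN : sta N H x ∣ n - 1 := by
    have h6 := dvd_N N H x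
    rwa [h.card_subgroup] at h6
  obtain ⟨c, hc⟩ := hdvd
  obtain ⟨e, he⟩ := hN
  have h7 : ¬ 4 ∣ sta N H x := by
    rintro ⟨f, hf⟩
    have : 4 ∣ n - 1 := ⟨f * e, by rw [he, hf]; ring⟩
    omega
  omega

end Pool.Agent.ADG
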