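import Pool.Agent.ADG.St

/-!
# ADG: the `l`-adic filtration of a lattice (helper83)
-/

set_option autoImplicit false

namespace Pool.Agent.ADG

open Finset

/-- a vector with coordinates divisible by `l` -/
private lemma lat_div {K : Type} (l : ℕ) (y : K → ℤ) (h : ∀ k, ((y k : ℤ) : ZMod l) = 0) :
    ∃ z : K → ℤ, y = (l : ℤ) • z := by
  have h1 : ∀ k, ∃ z : ℤ, y k = (l : ℤ) * z := fun k => by
    have h2 := (ZMod.intCast_zmod_eq_zero_iff_dvd (y k) l).1 (h k)
    exact h2
  choose z hz using h1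
  exact ⟨z, funext fun k => by rw [hz k]; rfl⟩

theorem LAT_thm : Stmt_LAT := by
  intro I J _ _ l hl j S V hV
  have : Fact l.Prime := ⟨hl⟩
  have hl0 : (l : ℤ) ≠ 0 := by exact_mod_cast hl.ne_zero
  have hlj : (l : ℤ) ^ j ≠ 0 := pow_ne_zero _ hl0
  let Λ : Submodule ℤ (I → ℤ) :=
    V ⊓ Submodule.comap S (LinearMap.range ((l : ℤ) ^ j • (LinearMap.id : (J → ℤ) →ₗ[ℤ] (J → ℤ))))
  have memΛ : ∀ x : I → ℤ, x ∈ Λ ↔ x ∈ V ∧ ∃ y : J → ℤ, (l : ℤ) ^ j • y = S x := fun x => by
    show x ∈ V ⊓ _ ↔ _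
    rw [Submodule.mem_inf, Submodule.mem_comap, LinearMap.mem_range]
    rfl
  have hΛV : Λ ≤ V := inf_le_left
  -- ranks
  let ψ : V →ₗ[ℤ] Λ := LinearMap.codRestrict Λ (((l : ℤ) ^ j • (LinearMap.id)) ∘ₗ V.subtype)
    (fun x => (memΛ _).2 ⟨V.smul_mem _ x.2, S x, by
      show _ = S ((l : ℤ) ^ j • (x : I → ℤ))
      rw [map_smul]⟩)
  have hψ : Function.Injective ψ := by
    intro a b hab
    have h1 : (l : ℤ) ^ j • (a : I → ℤ) = (l : ℤ) ^ j • (b : I → ℤ) := congrArg Subtype.val hab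
    exact Subtype.ext (smul_right_injective _ hlj h1)
  have hrank : Module.finrank ℤ Λ = Module.finrank ℤ V :=
    le_antisymm (Submodule.finrank_mono hΛV) (LinearMap.finrank_le_finrank_of_injective hψ)
  -- basis
  let d := Module.finrank ℤ Λ
  let c : Module.Basis (Fin d) ℤ Λ := Module.finBasis ℤ Λ
  have hy : ∀ i : Fin d, ∃ y : J → ℤ, (l : ℤ) ^ j • y = S (c i : I → ℤ) := fun i =>
    ((memΛ _).1 (c i).2).2
  choose y hy using hy
  -- combinations
  let X : (Fin d → ℤ) → I → ℤ := fun w => ∑ i, w i • (c i : I → ℤ)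
  let Y : (Fin d → ℤ) → J → ℤ := fun w => ∑ i, w i • y i
  have hSX : ∀ w, S (X w) = (l : ℤ) ^ j • Y w := fun w => by
    show S (∑ i, w i • (c i : I → ℤ)) = (l : ℤ) ^ j • ∑ i, w i • y i
    rw [map_sum, Finset.smul_sum]
    refine Finset.sum_congr rfl fun i _ => ?_
    rw [map_smul, ← hy i, smul_comm]
  have hXΛ : ∀ w, X w ∈ Λ := fun w => Submodule.sum_mem _ fun i _ => Λ.smul_mem _ (c i).2
  have hXV : ∀ w, X w ∈ V := fun w => hΛV (hXΛ w)
  have hXsub : ∀ w, (∑ i, w i • c i : Λ) = ⟨X w, hXΛ w⟩ := fun w => by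
    apply Subtype.ext
    show ((∑ i, w i • c i : Λ) : I → ℤ) = X w
    rw [Submodule.coe_sum]
    rfl
  have hXinj : ∀ w w', X w = X w' → w = w' := fun w w' h => by
    have h1 : (∑ i, w i • c i : Λ) = ∑ i, w' i • c i := by
      rw [hXsub, hXsub]
      exact Subtype.ext h
    have h2 := congrArg (fun t => (c.repr t : Fin d → ℤ)) h1
    simp only [c.repr_sum_self] at h2
    exact h2
  have hXsurj : ∀ x ∈ Λ, ∃ w, x = X w := fun x hx => by
    refine ⟨c.repr ⟨x, hx⟩, ?_⟩
    have h1 := c.sum_repr ⟨x, hx⟩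
    rw [hXsub] at h1
    exact (congrArg Subtype.val h1).symm
  -- the map modulo `l`
  let φ : (Fin d → ZMod l) →ₗ[ZMod l] (J → ZMod l) :=
    Fintype.linearCombination (ZMod l) (fun i k => ((y i k : ℤ) : ZMod l))
  have hφ : ∀ v k, φ v k = ∑ i, v i * ((y i k : ℤ) : ZMod l) := fun v k => by
    show (Fintype.linearCombination (ZMod l) (fun i k => ((y i k : ℤ) : ZMod l)) v) k = _
    rw [Fintype.linearCombination_apply, Finset.sum_apply]
    rfl
  have hφY : ∀ (w : Fin d → ℤ) k, ((Y w k : ℤ) : ZMod l) = φ (fun i => ((w i : ℤ) : ZMod l)) k := by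
    intro w k
    rw [hφ]
    show (((∑ i, w i • y i) k : ℤ) : ZMod l) = _
    rw [Finset.sum_apply, Int.cast_sum]
    refine Finset.sum_congr rfl fun i _ => ?_
    show ((w i * y i k : ℤ) : ZMod l) = _
    rw [Int.cast_mul]
  -- lifts
  let Lf : (Fin d → ZMod l) → Fin d → ℤ := fun v i => ((v i).val : ℤ)
  have hLf : ∀ v, (fun i => ((Lf v i : ℤ) : ZMod l)) = v := fun v => funext fun i => by
    show (((v i).val : ℤ) : ZMod l) = v i
    rw [Int.cast_natCast, ZMod.natCast_zmod_val]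
  let b1 : Module.Basis (Fin (Module.finrank (ZMod l) (LinearMap.ker φ))) (ZMod l)
    (LinearMap.ker φ) := Module.finBasis _ _
  let b2 : Module.Basis (Fin (Module.finrank (ZMod l) (LinearMap.range φ))) (ZMod l)
    (LinearMap.range φ) := Module.finBasis _ _
  have hv : ∀ a, ∃ v, φ v = (b2 a : J → ZMod l) := fun a => (b2 a).2
  choose v hv using hv
  refine ⟨_, _, fun a => X (Lf (b1 a)), fun a => X (Lf (v a)), fun a => Y (Lf (v a)), ?_,
    fun a => hXV _, ?_, ?_, fun a => hXV _, fun a => hSX _, ?_⟩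
  · rw [← hrank, add_comm, LinearMap.finrank_range_add_finrank_ker, Module.finrank_fin_fun]
  · intro a
    obtain ⟨z, hz⟩ := lat_div l (Y (Lf (b1 a))) (fun k => by
      rw [hφY, hLf]
      have h1 : φ (b1 a : Fin d → ZMod l) = 0 := (b1 a).2
      rw [h1]
      rfl)
    refine ⟨z, ?_⟩
    show S (X (Lf (b1 a))) = _
    rw [hSX, hz, smul_smul, pow_succ]
  · rw [Fintype.linearIndependent_iff]
    intro α hα
    let A : _ → ℤ := fun a => ((α a).val : ℤ)
    have hA : ∀ a, ((A a : ℤ) : ZMod l) = α a := fun a => by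
      show (((α a).val : ℤ) : ZMod l) = α a
      rw [Int.cast_natCast, ZMod.natCast_zmod_val]
    let W : Fin d → ℤ := fun i => ∑ a, A a * Lf (b1 a) i
    have hXW : X W = ∑ a, A a • X (Lf (b1 a)) := by
      show ∑ i, (∑ a, A a * Lf (b1 a) i) • (c i : I → ℤ) = ∑ a, A a • ∑ i, Lf (b1 a) i • (c i : I → ℤ)
      simp only [Finset.sum_smul, Finset.smul_sum, smul_smul]
      exact Finset.sum_comm
    obtain ⟨x', hx'⟩ := lat_div l (X W) (fun i => by
      rw [hXW, Finset.sum_apply, Int.cast_sum]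
      have h1 := congrFun hα i
      rw [Finset.sum_apply] at h1
      refine Eq.trans ?_ h1
      refine Finset.sum_congr rfl fun a _ => ?_
      show ((A a * X (Lf (b1 a)) i : ℤ) : ZMod l) = α a * _
      rw [Int.cast_mul, hA])
    have hx'V : x' ∈ V := hV x' (by rw [← hx']; exact hXV W)
    have hWm : (fun i => ((W i : ℤ) : ZMod l)) = ∑ a, α a • (b1 a : Fin d → ZMod l) := by
      funext i
      show ((∑ a, A a * Lf (b1 a) i : ℤ) : ZMod l) = _
      rw [Finset.sum_apply, Int.cast_sum]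
      refine Finset.sum_congr rfl fun a _ => ?_
      rw [Int.cast_mul, hA, congrFun (hLf (b1 a)) i]
      rfl
    obtain ⟨Z, hZ⟩ := lat_div l (Y W) (fun k => by
      rw [hφY, hWm, map_sum]
      have h1 : ∀ a, φ (α a • (b1 a : Fin d → ZMod l)) = 0 := fun a => by
        rw [map_smul, show φ (b1 a : Fin d → ZMod l) = 0 from (b1 a).2, smul_zero]
      rw [Finset.sum_congr rfl (fun a _ => h1 a), Finset.sum_const_zero]
      rfl)
    have hSx' : (l : ℤ) ^ j • Z = S x' := by
      apply smul_right_injective _ hl0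
      show (l : ℤ) • (l : ℤ) ^ j • Z = (l : ℤ) • S x'
      rw [← map_smul, ← hx', hSX, hZ, smul_comm]
    obtain ⟨w', hw'⟩ := hXsurj x' ((memΛ x').2 ⟨hx'V, Z, hSx'⟩)
    have hWw : W = fun i => (l : ℤ) * w' i := by
      apply hXinj
      rw [hx', hw']
      show (l : ℤ) • ∑ i, w' i • (c i : I → ℤ) = ∑ i, ((l : ℤ) * w' i) • (c i : I → ℤ)
      rw [Finset.smul_sum]
      exact Finset.sum_congr rfl fun i _ => smul_smul _ _ _
    have hW0 : (∑ a, α a • (b1 a : Fin d → ZMod l)) = 0 := by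
      rw [← hWm]
      funext i
      rw [hWw]
      show (((l : ℤ) * w' i : ℤ) : ZMod l) = 0
      rw [Int.cast_mul, Int.cast_natCast, ZMod.natCast_self, zero_mul]
    have hb : ∑ a, α a • b1 a = 0 := by
      apply Subtype.ext
      rw [Submodule.coe_sum]
      exact hW0
    exact Fintype.linearIndependent_iff.1 b1.linearIndependent α hb
  · have h1 : (fun a => fun i => ((Y (Lf (v a)) i : ℤ) : ZMod l))
        = fun a => (b2 a : J → ZMod l) := by
      funext a k
      rw [hφY, hLf, hv]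
    show LinearIndependent (ZMod l) (fun a => fun i => ((Y (Lf (v a)) i : ℤ) : ZMod l))
    rw [h1]
    exact b2.linearIndependent.map' (LinearMap.range φ).subtype (Submodule.ker_subtype _)

end Pool.Agent.ADG
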