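import Pool.Agent.ADG.St

/-!
# ADG, module MAT (helper96): the matrix theorem
-/

set_option autoImplicit false

namespace Pool.Agent.ADG

open Finset Matrix

namespace MATx

/-- independence of `(v a, 0)`, `(w b, ε_b)` -/
lemma indep_ext {F : Type} [Field F] {ι κ B : Type} [Fintype ι] [Fintype κ] [Fintype B]
    [DecidableEq B] (v : κ → ι → F) (hv : LinearIndependent F v) (w : B → ι → F) :
    LinearIndependent F (fun k : κ ⊕ B => (Sum.elim (fun a => Sum.elim (v a) (0 : B → F))
      (fun b => Sum.elim (w b) (Pi.single b 1)) k : ι ⊕ B → F)) := by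
  rw [Fintype.linearIndependent_iff] at hv ⊢
  intro g hg
  have hB : ∀ b, g (Sum.inr b) = 0 := by
    intro b
    have h := congrFun hg (Sum.inr b)
    rw [Finset.sum_apply] at h
    simp only [Pi.smul_apply, smul_eq_mul, Fintype.sum_sum_type, Sum.elim_inl, Sum.elim_inr,
      Pi.zero_apply, mul_zero, Finset.sum_const_zero, zero_add] at h
    rw [Finset.sum_eq_single b] at h
    · simpa using h
    · intro c _ hc
      rw [Pi.single_eq_of_ne' hc, mul_zero]
    · intro h'
      exact absurd (Finset.mem_univ b) h'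
  have hK := hv (fun a => g (Sum.inl a)) (by
    funext i
    have h := congrFun hg (Sum.inl i)
    rw [Finset.sum_apply] at h
    simp only [Pi.smul_apply, smul_eq_mul, Fintype.sum_sum_type, Sum.elim_inl, Sum.elim_inr,
      hB, zero_mul, Finset.sum_const_zero, add_zero, Pi.zero_apply] at h
    rw [Finset.sum_apply]
    simpa using h)
  rintro (a | b)
  · exact hK a
  · exact hB b

/-- the extended family -/
lemma ext (hL : Stmt_LAG) {F : Type} [Field F] {ι κ B : Type} [Fintype ι] [Fintype κ] [Fintype B]
    [DecidableEq B] (v : κ → ι → F) (hv : LinearIndependent F v) (w : B → ι → F) (m : B → F)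
    (hm : ∀ b, m b ≠ 0) (h1 : ∀ a a', ∑ i, v a i * v a' i = 0)
    (h2 : ∀ a b, ∑ i, v a i * w b i = 0)
    (h3 : ∀ b c, ∑ i, w b i * w c i = if b = c then m b else 0) :
    2 * (Fintype.card κ + Fintype.card B) ≤ Fintype.card ι + Fintype.card B ∧
      (2 * (Fintype.card κ + Fintype.card B) = Fintype.card ι + Fintype.card B →
        IsSquare ((-1) ^ (Fintype.card κ + Fintype.card B) * ∏ b, -m b)) := by
  have h := hL F (ι ⊕ B) (κ ⊕ B) (Sum.elim (fun _ => 1) (fun b => -m b))
    (fun k => (Sum.elim (fun a => Sum.elim (v a) (0 : B → F))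
      (fun b => Sum.elim (w b) (Pi.single b 1)) k : ι ⊕ B → F)) (by
        rintro (i | b)
        · exact one_ne_zero
        · exact neg_ne_zero.2 (hm b)) (indep_ext v hv w) (by
        rintro (a | b) (a' | c)
        · simp only [Fintype.sum_sum_type, Sum.elim_inl, Sum.elim_inr, one_mul, Pi.zero_apply,
            mul_zero, Finset.sum_const_zero, add_zero]
          exact h1 a a'
        · simp only [Fintype.sum_sum_type, Sum.elim_inl, Sum.elim_inr, one_mul, Pi.zero_apply,
            mul_zero, zero_mul, Finset.sum_const_zero, add_zero]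
          exact h2 a c
        · simp only [Fintype.sum_sum_type, Sum.elim_inl, Sum.elim_inr, one_mul, Pi.zero_apply,
            mul_zero, Finset.sum_const_zero, add_zero]
          rw [← h2 a' b]
          exact Finset.sum_congr rfl fun i _ => mul_comm _ _
        · simp only [Fintype.sum_sum_type, Sum.elim_inl, Sum.elim_inr, one_mul]
          rw [h3]
          rw [Finset.sum_eq_single b]
          · rw [Pi.single_eq_same]
            by_cases hbc : b = c
            · subst hbc
              rw [if_pos rfl, Pi.single_eq_same]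
              ring
            · rw [if_neg hbc, Pi.single_eq_of_ne hbc]
              ring
          · intro d _ hd
            rw [Pi.single_eq_of_ne hd]
            ring
          · intro h'
            exact absurd (Finset.mem_univ b) h')
  simp only [Fintype.card_sum, Fintype.prod_sum_type, Sum.elim_inl, Sum.elim_inr,
    Finset.prod_const_one, one_mul] at h
  exact h

section
variable {I J B : Type} [Fintype I] [Fintype J] [Fintype B] [DecidableEq I] [DecidableEq B]
  (β : I → B) (A : Matrix I J ℤ) (n h : ℕ) (s : B → ℕ)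

/-- the sum over a block -/
def sb (x : I → ℤ) (b : B) : ℤ := ∑ i, if β i = b then x i else 0

lemma sb_sum (x : I → ℤ) : ∑ b, sb β x b = ∑ i, x i := by
  unfold sb
  rw [Finset.sum_comm]
  refine Finset.sum_congr rfl fun i _ => ?_
  rw [Finset.sum_ite_eq]
  simp

/-- (*) -/
lemma star (hA : ∀ i i', (A * A.transpose) i i' = (if i = i' then (n : ℤ) else 0) + h -
    (if β i = β i' then (s (β i) : ℤ) else 0)) (x x' : I → ℤ) :
    ∑ j, (Aᵀ *ᵥ x) j * (Aᵀ *ᵥ x') j = n * (∑ i, x i * x' i) + h * (∑ i, x i) * (∑ i, x' i) -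
      ∑ b, s b * sb β x b * sb β x' b := by
  have h1 : ∑ j, (Aᵀ *ᵥ x) j * (Aᵀ *ᵥ x') j = ∑ i, ∑ i', x i * ((A * Aᵀ) i i' * x' i') := by
    have e : ∑ j, (Aᵀ *ᵥ x) j * (Aᵀ *ᵥ x') j = (Aᵀ *ᵥ x) ⬝ᵥ (Aᵀ *ᵥ x') := rfl
    rw [e, Matrix.mulVec_transpose, ← Matrix.dotProduct_mulVec, Matrix.mulVec_mulVec]
    simp only [dotProduct, Matrix.mulVec, Finset.mul_sum]
  have h2 : ∑ b, (s b : ℤ) * sb β x b * sb β x' b =
      ∑ i, ∑ i', x i * ((if β i = β i' then (s (β i) : ℤ) else 0) * x' i') := by
    unfold sb
    have e1 : ∀ b, (s b : ℤ) * (∑ i, if β i = b then x i else 0) *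
        (∑ i, if β i = b then x' i else 0) =
        ∑ i, ∑ i', (if β i = b then (if β i' = b then s b * x i * x' i' else 0) else 0) := by
      intro b
      rw [mul_assoc, Finset.sum_mul_sum, Finset.mul_sum]
      refine Finset.sum_congr rfl fun i _ => ?_
      rw [Finset.mul_sum]
      refine Finset.sum_congr rfl fun i' _ => ?_
      split_ifs <;> ring
    simp_rw [e1]
    rw [Finset.sum_comm]
    refine Finset.sum_congr rfl fun i _ => ?_
    rw [Finset.sum_comm]
    refine Finset.sum_congr rfl fun i' _ => ?_
    rw [Finset.sum_ite_eq]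
    simp only [Finset.mem_univ, if_true]
    by_cases hb : β i = β i'
    · rw [if_pos hb.symm, if_pos hb]
      ring
    · rw [if_neg (fun h => hb h.symm), if_neg hb]
      ring
  rw [h1, h2]
  have h3 : ∀ i i', x i * ((A * Aᵀ) i i' * x' i') = (if i = i' then (n : ℤ) * (x i * x' i') else 0) +
      h * x i * x' i' - x i * ((if β i = β i' then (s (β i) : ℤ) else 0) * x' i') := by
    intro i i'
    rw [hA]
    split_ifs <;> ring
  simp_rw [h3, Finset.sum_sub_distrib, Finset.sum_add_distrib]
  congr 2
  · simp_rw [Finset.sum_ite_eq, Finset.mem_univ, if_true]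
    rw [Finset.mul_sum]
  · simp_rw [mul_assoc, ← Finset.mul_sum, ← Finset.sum_mul]

/-- the indicator of a block -/
def ind (b : B) : I → ℤ := fun i => if β i = b then 1 else 0

lemma sum_ind (b : B) : ∑ i, ind β b i = #{i | β i = b} := by
  unfold ind
  rw [Finset.sum_boole]

lemma sb_ind (b c : B) : sb β (ind β b) c = if b = c then (#{i | β i = b} : ℤ) else 0 := by
  unfold sb ind
  by_cases h : b = c
  · subst h
    rw [if_pos rfl]
    simp_rw [← ite_and]
    simp
  · rw [if_neg h]
    refine Finset.sum_eq_zero fun i _ => ?_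
    split_ifs with h1 h2
    · exact absurd (h2.symm.trans h1) h
    · rfl
    · rfl

lemma ind_ind (b c : B) : ∑ i, ind β b i * ind β c i =
    if b = c then (#{i | β i = b} : ℤ) else 0 := by
  rw [← sb_ind]
  unfold sb
  refine Finset.sum_congr rfl fun i _ => ?_
  unfold ind
  split_ifs <;> simp

lemma sum_col (hrow : ∀ i, ∑ j, A i j = n) (x : I → ℤ) :
    ∑ j, (Aᵀ *ᵥ x) j = n * ∑ i, x i := by
  simp only [Matrix.mulVec, dotProduct, Matrix.transpose_apply]
  rw [Finset.sum_comm, Finset.mul_sum]
  refine Finset.sum_congr rfl fun i _ => ?_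
  rw [← Finset.sum_mul, hrow]

end

end MATx

open MATx in
theorem MAT_thm (hL : Stmt_LAG) (hT : Stmt_LAT) (hR : Stmt_RKV) : Stmt_MAT := by
  classical
  intro I J B _ _ _ _ _ β A n h l s hβ hl hodd hn hIJ hu hs hA hrow _
  haveI : Fact l.Prime := ⟨hl⟩
  obtain ⟨j, hj⟩ := hodd
  obtain ⟨n', hn'⟩ : ∃ n', n = l ^ (2 * j + 1) * n' := by
    have := Nat.ordProj_dvd n l
    rw [hj] at this
    exact this
  have hln' : ¬ l ∣ n' := by
    intro hd
    have h1 : l ^ (2 * j + 1 + 1) ∣ n := by
      rw [hn', pow_succ]
      exact Nat.mul_dvd_mul_left _ hd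
    have h2 := (hl.pow_dvd_iff_le_factorization (by omega)).1 h1
    omega
  have hl0 : (l : ℤ) ≠ 0 := by exact_mod_cast hl.ne_zero
  have hnF : (n : ZMod l) = 0 := by
    rw [ZMod.natCast_eq_zero_iff, hn']
    exact Dvd.dvd.mul_right (dvd_pow_self _ (by omega)) _
  -- the lattice
  let V : Submodule ℤ (I → ℤ) :=
    { carrier := {x | ∀ b, sb β x b = 0}
      add_mem' := by
        intro x y hx hy b
        have h1 := hx b
        have h2 := hy b
        unfold sb at h1 h2 ⊢
        have e : ∀ i, (if β i = b then (x + y) i else 0) = (if β i = b then x i else 0) +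
            (if β i = b then y i else 0) := by
          intro i
          split_ifs <;> simp
        simp_rw [e, Finset.sum_add_distrib, h1, h2]
        rfl
      zero_mem' := by
        intro b
        unfold sb
        simp
      smul_mem' := by
        intro c x hx b
        have h1 := hx b
        unfold sb at h1 ⊢
        have e : ∀ i, (if β i = b then (c • x) i else 0) = c * (if β i = b then x i else 0) := by
          intro i
          split_ifs <;> simp
        simp_rw [e, ← Finset.mul_sum, h1]
        simp }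
  have hV : ∀ x, x ∈ V ↔ ∀ b, sb β x b = 0 := fun x => Iff.rfl
  have hrk := hR I B β hβ V (by
    intro x
    rw [hV]
    refine forall_congr' fun b => ?_
    unfold sb
    rw [Finset.sum_filter])
  obtain ⟨u1, u2, x, x', y, hu12, hx, hxz, hxi, hx', hxy, hyi⟩ := hT I J l hl j
    (Matrix.mulVecLin Aᵀ) V (by
      intro x hx b
      have h1 := hx b
      unfold sb at h1 ⊢
      have e : ∀ i, (if β i = b then ((l : ℤ) • x) i else 0) = l * (if β i = b then x i else 0) := by
        intro i
        split_ifs <;> simp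
      simp_rw [e, ← Finset.mul_sum] at h1
      exact (mul_eq_zero.1 h1).resolve_left hl0)
  simp only [Matrix.mulVecLin_apply] at hxz hxy
  have hsum0 : ∀ x ∈ V, ∑ i, x i = 0 := by
    intro x hx
    rw [← sb_sum β x]
    exact Finset.sum_eq_zero fun b _ => hx b
  have hstarV : ∀ x ∈ V, ∀ x' : I → ℤ, ∑ j, (Aᵀ *ᵥ x) j * (Aᵀ *ᵥ x') j = n * ∑ i, x i * x' i := by
    intro x hx x'
    rw [star β A n h s hA, hsum0 x hx]
    have : ∑ b, (s b : ℤ) * sb β x b * sb β x' b = 0 :=
      Finset.sum_eq_zero fun b _ => by rw [hx b]; ring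
    rw [this]
    ring
  have hmF : ∀ b, (s b : ZMod l) * (#{i | β i = b} : ZMod l) = -1 := by
    intro b
    have h1 := congrArg (Nat.cast : ℕ → ZMod l) (hs b)
    push_cast at h1
    rw [hnF] at h1
    linear_combination h1
  have hm0 : ∀ b, (#{i | β i = b} : ZMod l) ≠ 0 := by
    intro b hb
    have h1 := hmF b
    rw [hb, mul_zero] at h1
    exact neg_ne_zero.2 one_ne_zero h1.symm
  -- the first family
  have hE1 := ext hL (F := ZMod l) (ι := I) (fun a i => ((x a i : ℤ) : ZMod l)) hxi
    (fun b i => ((ind β b i : ℤ) : ZMod l)) (fun b => (#{i | β i = b} : ZMod l)) hm0 (by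
      intro a a'
      obtain ⟨z, hz⟩ := hxz a
      obtain ⟨z', hz'⟩ := hxz a'
      have h1 := hstarV (x a) (hx a) (x a')
      rw [hz, hz'] at h1
      have h2 : (l : ℤ) ∣ ∑ i, x a i * x a' i := by
        have h3 : (n' : ℤ) * ∑ i, x a i * x a' i = l * ∑ j, z j * z' j := by
          have h4 : (l : ℤ) ^ (2 * j + 1) * ((n' : ℤ) * ∑ i, x a i * x a' i) =
              (l : ℤ) ^ (2 * j + 1) * (l * ∑ j, z j * z' j) := by
            have h5 : ∑ k, ((l : ℤ) ^ (j + 1) • z) k * ((l : ℤ) ^ (j + 1) • z') k =
                (l : ℤ) ^ (2 * j + 1) * (l * ∑ j, z j * z' j) := by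
              rw [← mul_assoc, Finset.mul_sum]
              refine Finset.sum_congr rfl fun k _ => ?_
              simp only [Pi.smul_apply, smul_eq_mul]
              ring
            rw [← h5, h1, hn']
            push_cast
            ring
          exact mul_left_cancel₀ (pow_ne_zero _ hl0) h4
        have h6 : (l : ℤ) ∣ (n' : ℤ) * ∑ i, x a i * x a' i := ⟨_, h3⟩
        rcases (Nat.prime_iff_prime_int.1 hl).dvd_or_dvd h6 with h7 | h7
        · exact absurd (Int.natCast_dvd_natCast.1 h7) hln'
        · exact h7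
      have h3 := (CharP.intCast_eq_zero_iff (ZMod l) l _).2 h2
      push_cast at h3
      exact h3) (by
      intro a b
      have h1 : ∑ i, x a i * ind β b i = 0 := by
        rw [← hx a b]
        unfold sb ind
        refine Finset.sum_congr rfl fun i _ => ?_
        split_ifs <;> simp
      have h2 := congrArg (Int.cast : ℤ → ZMod l) h1
      push_cast at h2
      exact h2) (by
      intro b c
      have h1 := congrArg (Int.cast : ℤ → ZMod l) (ind_ind β b c)
      push_cast at h1
      exact h1)
  -- the second family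
  have hE2 := ext hL (F := ZMod l) (ι := J) (fun a i => ((y a i : ℤ) : ZMod l)) hyi
    (fun b k => (((Aᵀ *ᵥ ind β b) k - h * #{i | β i = b} : ℤ) : ZMod l))
    (fun b => (#{i | β i = b} : ZMod l)) hm0 (by
      intro a a'
      have h1 := hstarV (x' a) (hx' a) (x' a')
      rw [hxy, hxy] at h1
      have h2 : ∑ k, y a k * y a' k = l * (n' * ∑ i, x' a i * x' a' i) := by
        have h4 : (l : ℤ) ^ (2 * j) * ∑ k, y a k * y a' k =
            (l : ℤ) ^ (2 * j) * (l * (n' * ∑ i, x' a i * x' a' i)) := by
          have h5 : ∑ k, ((l : ℤ) ^ j • y a) k * ((l : ℤ) ^ j • y a') k =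
              (l : ℤ) ^ (2 * j) * ∑ k, y a k * y a' k := by
            rw [Finset.mul_sum]
            refine Finset.sum_congr rfl fun k _ => ?_
            simp only [Pi.smul_apply, smul_eq_mul]
            ring
          rw [← h5, h1, hn']
          push_cast
          ring
        exact mul_left_cancel₀ (pow_ne_zero _ hl0) h4
      have h3 := congrArg (Int.cast : ℤ → ZMod l) h2
      push_cast at h3
      rw [h3, ZMod.natCast_self, zero_mul]) (by
      intro a b
      have h1 : ∑ k, y a k * (Aᵀ *ᵥ ind β b) k = 0 := by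
        have h2 := hstarV (x' a) (hx' a) (ind β b)
        have h3 : ∑ i, x' a i * ind β b i = 0 := by
          rw [← hx' a b]
          unfold sb ind
          refine Finset.sum_congr rfl fun i _ => ?_
          split_ifs <;> simp
        rw [h3, mul_zero, hxy] at h2
        have h4 : (l : ℤ) ^ j * ∑ k, y a k * (Aᵀ *ᵥ ind β b) k = 0 := by
          rw [← h2, Finset.mul_sum]
          refine Finset.sum_congr rfl fun k _ => ?_
          simp only [Pi.smul_apply, smul_eq_mul]
          ring
        exact (mul_eq_zero.1 h4).resolve_left (pow_ne_zero _ hl0)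
      have h5 : ∑ k, y a k = 0 := by
        have h2 := sum_col A n hrow (x' a)
        rw [hsum0 _ (hx' a), mul_zero, hxy] at h2
        have h4 : (l : ℤ) ^ j * ∑ k, y a k = 0 := by
          rw [← h2, Finset.mul_sum]
          exact Finset.sum_congr rfl fun k _ => rfl
        exact (mul_eq_zero.1 h4).resolve_left (pow_ne_zero _ hl0)
      have h6 : ∑ k, y a k * ((Aᵀ *ᵥ ind β b) k - h * #{i | β i = b}) = 0 := by
        simp_rw [mul_sub, Finset.sum_sub_distrib, ← Finset.sum_mul, h1, h5]
        ring
      have h7 := congrArg (Int.cast : ℤ → ZMod l) h6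
      rw [Int.cast_sum] at h7
      simp_rw [Int.cast_mul] at h7
      rw [h7]
      simp) (by
      intro b c
      have h1 := star β A n h s hA (ind β b) (ind β c)
      rw [ind_ind, sum_ind, sum_ind] at h1
      have h2 : ∑ d, (s d : ℤ) * sb β (ind β b) d * sb β (ind β c) d =
          if b = c then (s b : ℤ) * #{i | β i = b} * #{i | β i = b} else 0 := by
        simp_rw [sb_ind]
        by_cases hbc : b = c
        · subst hbc
          rw [if_pos rfl, Finset.sum_eq_single b]
          · rw [if_pos rfl]
          · intro d _ hd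
            rw [if_neg (Ne.symm hd)]
            ring
          · intro h'
            exact absurd (Finset.mem_univ b) h'
        · rw [if_neg hbc]
          refine Finset.sum_eq_zero fun d _ => ?_
          by_cases hd : b = d
          · have : ¬ c = d := fun h' => hbc (hd.trans h'.symm)
            rw [if_neg this]
            ring
          · rw [if_neg hd]
            ring
      rw [h2] at h1
      have hsz : (s b : ℤ) * #{i | β i = b} + 1 = n := by exact_mod_cast hs b
      have huz : (h : ℤ) * Fintype.card J + 1 = n ^ 2 := by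
        rw [← hIJ]
        exact_mod_cast hu
      have h3 : ∑ k, ((Aᵀ *ᵥ ind β b) k - h * #{i | β i = b}) *
          ((Aᵀ *ᵥ ind β c) k - h * #{i | β i = c}) =
          (if b = c then (#{i | β i = b} : ℤ) else 0) +
            n * ((n - 2) * (h * #{i | β i = b} * #{i | β i = c})) := by
        have e1 : ∀ k, ((Aᵀ *ᵥ ind β b) k - h * #{i | β i = b}) *
            ((Aᵀ *ᵥ ind β c) k - h * #{i | β i = c}) =
            (Aᵀ *ᵥ ind β b) k * (Aᵀ *ᵥ ind β c) k - (Aᵀ *ᵥ ind β b) k * (h * #{i | β i = c}) -
            (Aᵀ *ᵥ ind β c) k * (h * #{i | β i = b}) +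
            (h * #{i | β i = b}) * (h * #{i | β i = c}) := by
          intro k
          ring
        simp_rw [e1, Finset.sum_add_distrib, Finset.sum_sub_distrib, ← Finset.sum_mul,
          sum_col A n hrow, sum_ind, h1, Finset.sum_const, Finset.card_univ, nsmul_eq_mul]
        by_cases hbc : b = c
        · subst hbc
          simp only [if_true]
          linear_combination -(#{i | β i = b} : ℤ) * hsz +
            (h : ℤ) * #{i | β i = b} * #{i | β i = b} * huz
        · simp only [hbc, if_false]
          linear_combination (h : ℤ) * #{i | β i = b} * #{i | β i = c} * huz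
      have h4 := congrArg (Int.cast : ℤ → ZMod l) h3
      rw [Int.cast_sum] at h4
      simp_rw [Int.cast_mul] at h4
      rw [h4]
      push_cast
      rw [hnF]
      ring)
  rw [Fintype.card_fin] at hE1 hE2
  have hu1 : 2 * (u1 + Fintype.card B) = Fintype.card I + Fintype.card B := by
    have h1 := hE1.1
    have h2 := hE2.1
    omega
  have hsq := hE1.2 hu1
  refine ⟨⟨u1 + Fintype.card B, by omega⟩, ?_⟩
  have hhalf : (Fintype.card I + Fintype.card B) / 2 = u1 + Fintype.card B := by omega
  rw [hhalf]
  obtain ⟨t, ht⟩ := hsq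
  refine ⟨t * ∏ b, (s b : ZMod l), ?_⟩
  have h1 : ∏ b, (s b : ZMod l) = (∏ b, -(#{i | β i = b} : ZMod l)) *
      ((∏ b, (s b : ZMod l)) * ∏ b, (s b : ZMod l)) := by
    rw [← mul_assoc, ← Finset.prod_mul_distrib]
    have : ∏ b, (-(#{i | β i = b} : ZMod l) * (s b : ZMod l)) = 1 := by
      refine Finset.prod_eq_one fun b _ => ?_
      linear_combination -hmF b
    rw [this, one_mul]
  calc (-1) ^ (u1 + Fintype.card B) * ∏ b, (s b : ZMod l)
      = (-1) ^ (u1 + Fintype.card B) * ((∏ b, -(#{i | β i = b} : ZMod l)) *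
        ((∏ b, (s b : ZMod l)) * ∏ b, (s b : ZMod l))) := by rw [← h1]
    _ = ((-1) ^ (u1 + Fintype.card B) * ∏ b, -(#{i | β i = b} : ZMod l)) *
        ((∏ b, (s b : ZMod l)) * ∏ b, (s b : ZMod l)) := by ring
    _ = t * (∏ b, (s b : ZMod l)) * (t * ∏ b, (s b : ZMod l)) := by
        rw [ht]
        ring

end Pool.Agent.ADG
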