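import Pool.Agent.ADG.St

set_option autoImplicit false

namespace Pool.Agent.ADG

open Finset Pool.Agent.ADS

namespace PFXa

variable {G : Type} [Group G] [Finite G]

/-- the fibres of `(a, k) ↦ a x k` -/
lemma fib (N R : Subgroup G) (x g a0 k0 : G) (ha : a0 ∈ N) (hk : k0 ∈ R)
    (hg : g = a0 * x * k0) :
    Nat.card {q : N × R // (q.1 : G) * x * q.2 = g} = sta N R x := by
  unfold sta
  refine Nat.card_congr ⟨fun q => ⟨(q.1.2 : G) * k0⁻¹, mul_mem q.1.2.2 (inv_mem hk), ?_⟩,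
    fun k => ⟨(⟨a0 * (x * k.1 * x⁻¹)⁻¹, mul_mem ha (inv_mem k.2.2)⟩,
      ⟨k.1 * k0, mul_mem k.2.1 hk⟩), ?_⟩, ?_, ?_⟩
  · have h1 : (q.1.1 : G) * x * q.1.2 = a0 * x * k0 := q.2.trans hg
    have h2 : x * ((q.1.2 : G) * k0⁻¹) * x⁻¹ = (q.1.1 : G)⁻¹ * a0 := by
      have : (q.1.1 : G) * (x * ((q.1.2 : G) * k0⁻¹) * x⁻¹) = a0 := by
        calc (q.1.1 : G) * (x * ((q.1.2 : G) * k0⁻¹) * x⁻¹)
            = ((q.1.1 : G) * x * q.1.2) * k0⁻¹ * x⁻¹ := by group
          _ = a0 := by rw [h1]; group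
      rw [← this]; group
    rw [h2]
    exact mul_mem (inv_mem q.1.1.2) ha
  · show a0 * (x * k.1 * x⁻¹)⁻¹ * x * (k.1 * k0) = g
    rw [hg]; group
  · rintro ⟨⟨a, k⟩, hq⟩
    have h1 : (a : G) * x * k = a0 * x * k0 := hq.trans hg
    apply Subtype.ext
    apply Prod.ext
    · apply Subtype.ext
      show a0 * (x * ((k : G) * k0⁻¹) * x⁻¹)⁻¹ = a
      have : (a : G) * (x * ((k : G) * k0⁻¹) * x⁻¹) = a0 := by
        calc (a : G) * (x * ((k : G) * k0⁻¹) * x⁻¹)
            = ((a : G) * x * k) * k0⁻¹ * x⁻¹ := by group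
          _ = a0 := by rw [h1]; group
      rw [mul_inv_eq_iff_eq_mul]
      exact this.symm
    · apply Subtype.ext
      show (k : G) * k0⁻¹ * k0 = k
      group
  · rintro ⟨k, hk1, hk2⟩
    apply Subtype.ext
    show k * k0 * k0⁻¹ = k
    group

/-- counting a union of double cosets -/
lemma cnt (N R : Subgroup G) {r : ℕ} (x : Fin r → G) (I : Fin r → Prop) (s : ℕ) (T : Set G)
    (hT : ∀ g, g ∈ T ↔ ∃ i, I i ∧ ∃ a ∈ N, ∃ k ∈ R, g = a * x i * k)
    (hu : ∀ g, ∀ i j, (∃ a ∈ N, ∃ k ∈ R, g = a * x i * k) →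
      (∃ a ∈ N, ∃ k ∈ R, g = a * x j * k) → i = j)
    (hs : ∀ i, I i → sta N R (x i) = s) :
    Nat.card {i // I i} * (Nat.card N * Nat.card R) = Nat.card T * s := by
  classical
  haveI : Fintype G := Fintype.ofFinite G
  let F : {i // I i} × (N × R) → T := fun y =>
    ⟨(y.2.1 : G) * x y.1 * y.2.2, (hT _).2 ⟨y.1, y.1.2, y.2.1, y.2.1.2, y.2.2, y.2.2.2, rfl⟩⟩
  have h1 : Nat.card ({i // I i} × (N × R)) = ∑ t : T, Nat.card {y // F y = t} := by
    rw [← Nat.card_sigma]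
    exact Nat.card_congr (Equiv.sigmaFiberEquiv F).symm
  have h2 : ∀ t : T, Nat.card {y // F y = t} = s := by
    intro t
    obtain ⟨i, hi, a, ha, k, hk, hg⟩ := (hT t.1).1 t.2
    rw [← hs i hi, ← fib N R (x i) t.1 a k ha hk hg]
    have hu' : ∀ y : {i // I i} × (N × R), F y = t → y.1 = ⟨i, hi⟩ := by
      intro y hy
      apply Subtype.ext
      refine hu t.1 _ _ ⟨y.2.1, y.2.1.2, y.2.2, y.2.2.2, ?_⟩ ⟨a, ha, k, hk, hg⟩
      rw [← hy]
    refine Nat.card_congr ⟨fun y => ⟨y.1.2, ?_⟩, fun q => ⟨(⟨i, hi⟩, q.1), ?_⟩, ?_, ?_⟩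
    · have := congrArg Subtype.val y.2
      have h3 := hu' y.1 y.2
      show (y.1.2.1 : G) * x i * y.1.2.2 = t.1
      rw [← this]
      show (y.1.2.1 : G) * x i * y.1.2.2 = (y.1.2.1 : G) * x y.1.1 * y.1.2.2
      rw [h3]
    · exact Subtype.ext q.2
    · rintro ⟨y, hy⟩
      apply Subtype.ext
      exact Prod.ext (hu' y hy).symm rfl
    · rintro ⟨q, hq⟩
      rfl
  rw [Nat.card_prod, Nat.card_prod] at h1
  rw [h1, Finset.sum_congr rfl (fun t _ => h2 t), Finset.sum_const, Finset.card_univ,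
    smul_eq_mul, Nat.card_eq_fintype_card]

/-- `sta` is the order of a subgroup -/
def KK (N R : Subgroup G) (g : G) : Subgroup G := R ⊓ N.comap (MulAut.conj g).toMonoidHom

lemma mem_KK {N R : Subgroup G} {g k : G} : k ∈ KK N R g ↔ k ∈ R ∧ g * k * g⁻¹ ∈ N := Iff.rfl

lemma card_KK (N R : Subgroup G) (g : G) : Nat.card (KK N R g) = sta N R g := rfl

lemma sta_one (N M : Subgroup G) : sta N M 1 = Nat.card (N ⊓ M : Subgroup G) := by
  unfold sta
  refine Nat.card_congr (Equiv.subtypeEquivRight fun k => ?_)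
  rw [one_mul, inv_one, mul_one, Subgroup.mem_inf, and_comm]

/-- the order of `P ⊔ X` -/
lemma card_sup {P X : Subgroup G} (hX : X ≤ Subgroup.normalizer (P : Set G))
    (hco : (Nat.card P).Coprime (Nat.card X)) :
    Nat.card (P ⊔ X : Subgroup G) = Nat.card P * Nat.card X := by
  have h1 : ∀ g : G, g ∈ ((P ⊔ X : Subgroup G) : Set G) ↔ ∃ i : Fin 1, True ∧ ∃ a ∈ P, ∃ k ∈ X,
      g = a * (fun _ : Fin 1 => (1 : G)) i * k := by
    intro g
    rw [Subgroup.coe_mul_of_right_le_normalizer_left P X hX, Set.mem_mul]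
    constructor
    · rintro ⟨a, ha, k, hk, rfl⟩
      exact ⟨0, trivial, a, ha, k, hk, by rw [mul_one]⟩
    · rintro ⟨_, _, a, ha, k, hk, rfl⟩
      exact ⟨a, ha, k, hk, by rw [mul_one]⟩
  have h2 := cnt P X (fun _ : Fin 1 => (1 : G)) (fun _ => True) 1
    ((P ⊔ X : Subgroup G) : Set G) h1 (fun _ i j _ _ => Subsingleton.elim i j) (fun i _ => by
      rw [sta_one, (Subgroup.disjoint_of_coprime_natCard hco).eq_bot, Subgroup.card_bot])
  have h3 : Nat.card {i : Fin 1 // True} = 1 := by simp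
  rw [h3, one_mul, mul_one] at h2
  exact h2.symm

/-- an element of order `p` of `R` is in `P` -/
lemma mem_P {P R : Subgroup G} {p b : ℕ} (hp : p.Prime) (hp2 : p ≠ 2) (hP : Nat.card P = p)
    (hPR : P ≤ R) (hR : R ≤ Subgroup.normalizer (P : Set G)) (hRc : Nat.card R = p * 2 ^ b) {y : G} (hy : y ∈ R)
    (hyp : y ^ p = 1) : y ∈ P := by
  haveI : (P.subgroupOf R).Normal := (Subgroup.normal_subgroupOf_iff_le_normalizer hPR).2 hR
  have h1 : Nat.card (P.subgroupOf R) = p := by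
    rw [← hP]
    exact Nat.card_congr (Subgroup.subgroupOfEquivOfLe hPR).toEquiv
  have h2 : (P.subgroupOf R).index = 2 ^ b := by
    have := (P.subgroupOf R).card_mul_index
    rw [h1, hRc] at this
    exact Nat.eq_of_mul_eq_mul_left hp.pos this
  have h3 : y ^ 2 ^ b ∈ P := by
    have := Subgroup.pow_index_mem (P.subgroupOf R) ⟨y, hy⟩
    rw [h2, Subgroup.mem_subgroupOf] at this
    exact this
  have h4 : Nat.Coprime (2 ^ b) p :=
    Nat.Coprime.pow_left b ((Nat.coprime_primes Nat.prime_two hp).2 (Ne.symm hp2))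
  have h5 : ((2 ^ b : ℕ) : ℤ) * Nat.gcdA (2 ^ b) p + (p : ℤ) * Nat.gcdB (2 ^ b) p = 1 := by
    rw [← Nat.gcd_eq_gcd_ab, h4.gcd_eq_one]
    rfl
  have h6 : y = (y ^ 2 ^ b) ^ (Nat.gcdA (2 ^ b) p) * (y ^ p) ^ (Nat.gcdB (2 ^ b) p) := by
    rw [← zpow_natCast, ← zpow_natCast, ← zpow_mul, ← zpow_mul, ← zpow_add, h5, zpow_one]
  rw [h6]
  refine mul_mem (zpow_mem h3 _) (zpow_mem ?_ _)
  rw [hyp]
  exact one_mem P

/-- `g P g⁻¹ ≤ N` iff `sta = 2 p` -/
lemma sta_iff {N P R : Subgroup G} {p b : ℕ} (hp : p.Prime) (hp2 : p ≠ 2) (hP : Nat.card P = p)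
    (hPR : P ≤ R) (hR : R ≤ Subgroup.normalizer (P : Set G)) (hRc : Nat.card R = p * 2 ^ b) (g : G)
    (hs : sta N R g = 2 ∨ sta N R g = 2 * p) :
    sta N R g = 2 * p ↔ ∀ k ∈ P, g * k * g⁻¹ ∈ N := by
  constructor
  · intro h
    haveI := Fact.mk hp
    have h1 : p ∣ Nat.card (KK N R g) := by
      rw [card_KK, h]
      exact dvd_mul_left p 2
    obtain ⟨y, hy⟩ := exists_prime_orderOf_dvd_card' p h1
    have hy1 : (y : G) ^ p = 1 := by
      have := pow_orderOf_eq_one y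
      rw [hy] at this
      have h2 := congrArg Subtype.val this
      simpa using h2
    have hyP : (y : G) ∈ P := mem_P hp hp2 hP hPR hR hRc (mem_KK.1 y.2).1 hy1
    have hne : (⟨(y : G), hyP⟩ : P) ≠ 1 := by
      intro h0
      have h2 : (y : G) = 1 := congrArg Subtype.val h0
      have h3 : y = 1 := Subtype.ext h2
      rw [h3, orderOf_one] at hy
      exact hp.one_lt.ne hy
    intro k hk
    have h4 : (⟨k, hk⟩ : P) ∈ Subgroup.zpowers (⟨(y : G), hyP⟩ : P) :=
      mem_zpowers_of_prime_card hP hne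
    obtain ⟨z, hz⟩ := Subgroup.mem_zpowers_iff.1 h4
    have h5 : (y : G) ^ z = k := by
      have := congrArg Subtype.val hz
      simpa using this
    have h6 : k ∈ KK N R g := by
      rw [← h5]
      exact zpow_mem y.2 z
    exact (mem_KK.1 h6).2
  · intro h
    have h1 : P ≤ KK N R g := fun k hk => mem_KK.2 ⟨hPR hk, h k hk⟩
    have h2 := Subgroup.card_dvd_of_le h1
    rw [hP, card_KK] at h2
    rcases hs with h3 | h3
    · rw [h3] at h2
      exact absurd ((Nat.prime_dvd_prime_iff_eq hp Nat.prime_two).1 h2) hp2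
    · exact h3

/-- `T = N M` -/
lemma mem_NM {N P : Subgroup G} {p : ℕ} (hp : p.Prime) (hP : Nat.card P = p) (hPN : P ≤ N)
    (hfac : (Nat.card N).factorization p = 1) (g : G) :
    (∀ k ∈ P, g * k * g⁻¹ ∈ N) ↔ ∃ a ∈ N, ∃ m ∈ Subgroup.normalizer (P : Set G), g = a * 1 * m := by
  constructor
  · intro h
    haveI := Fact.mk hp
    set Q : Subgroup G := P.map (MulAut.conj g).toMonoidHom with hQ
    have hQN : Q ≤ N := by
      rintro _ ⟨k, hk, rfl⟩
      exact h k hk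
    have hQc : Nat.card Q = p := by
      rw [← hP]
      exact (Nat.card_congr (P.equivMapOfInjective _ (MulAut.conj g).injective).toEquiv).symm
    have h1 : Nat.card (P.subgroupOf N) = p ^ (Nat.card N).factorization p := by
      rw [hfac, pow_one, ← hP]
      exact Nat.card_congr (Subgroup.subgroupOfEquivOfLe hPN).toEquiv
    have h2 : Nat.card (Q.subgroupOf N) = p ^ (Nat.card N).factorization p := by
      rw [hfac, pow_one, ← hQc]
      exact Nat.card_congr (Subgroup.subgroupOfEquivOfLe hQN).toEquiv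
    obtain ⟨a, ha⟩ := MulAction.exists_smul_eq N (Sylow.ofCard (Q.subgroupOf N) h2)
      (Sylow.ofCard (P.subgroupOf N) h1)
    have h3 : ∀ k ∈ P, ((a : G) * g) * k * ((a : G) * g)⁻¹ ∈ P := by
      intro k hk
      have h4 : (⟨g * k * g⁻¹, h k hk⟩ : N) ∈ Q.subgroupOf N := by
        rw [Subgroup.mem_subgroupOf]
        exact ⟨k, hk, rfl⟩
      have h5 : (MulAut.conj a) • (⟨g * k * g⁻¹, h k hk⟩ : N) ∈
          ((a • Sylow.ofCard (Q.subgroupOf N) h2 : Sylow p N) : Subgroup N) := by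
        rw [Sylow.coe_subgroup_smul]
        exact Subgroup.smul_mem_pointwise_smul _ _ _ h4
      rw [ha] at h5
      have h6 : ((MulAut.conj a • (⟨g * k * g⁻¹, h k hk⟩ : N) : N) : G) ∈ P := h5
      have h7 : ((MulAut.conj a • (⟨g * k * g⁻¹, h k hk⟩ : N) : N) : G) =
          ((a : G) * g) * k * ((a : G) * g)⁻¹ := by
        rw [MulAut.smul_def, MulAut.conj_apply]
        show (a : G) * (g * k * g⁻¹) * (a : G)⁻¹ = _
        group
      rw [h7] at h6
      exact h6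
    have h8 : (a : G) * g ∈ Subgroup.normalizer (P : Set G) := by
      have h9 : P.map (MulAut.conj ((a : G) * g)).toMonoidHom ≤ P := by
        rintro _ ⟨k, hk, rfl⟩
        exact h3 k hk
      have h10 : P.map (MulAut.conj ((a : G) * g)).toMonoidHom = P := by
        refine Subgroup.eq_of_le_of_card_ge h9 ?_
        rw [← Nat.card_congr (P.equivMapOfInjective _
          (MulAut.conj ((a : G) * g)).injective).toEquiv]
      rw [Subgroup.mem_normalizer_iff]
      intro k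
      refine ⟨h3 k, fun hk => ?_⟩
      rw [← h10] at hk
      obtain ⟨k', hk', hkk⟩ := hk
      have : k' = k := (MulAut.conj ((a : G) * g)).injective hkk
      rw [← this]
      exact hk'
    exact ⟨(a : G)⁻¹, inv_mem a.2, (a : G) * g, h8, by group⟩
  · rintro ⟨a, ha, m, hm, rfl⟩ k hk
    have h1 : m * k * m⁻¹ ∈ P := (Subgroup.mem_normalizer_iff.1 hm k).1 hk
    have h2 : a * 1 * m * k * (a * 1 * m)⁻¹ = a * (m * k * m⁻¹) * a⁻¹ := by group
    rw [h2]
    exact mul_mem (mul_mem ha (hPN h1)) (inv_mem ha)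

end PFXa

open PFXa in
theorem PFX_thm (hI : Stmt_INV) : Stmt_PFX := by
  intro G _ _ n N D hD hn4 p hp hp2 hfac P X M b c d hP hPN hM hXM hX hb hMc hc hNM hd
  have hI' := hI G n N D hD
  have hMn : M = Subgroup.normalizer (P : Set G) := by
    ext g
    rw [hM g, Subgroup.mem_normalizer_iff]
  have hXn : X ≤ Subgroup.normalizer (P : Set G) := hMn ▸ hXM
  have hco : (Nat.card P).Coprime (Nat.card X) := by
    rw [hP, hX]
    exact Nat.Coprime.pow_right b ((Nat.coprime_primes hp Nat.prime_two).2 hp2)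
  have hRc : Nat.card (P ⊔ X : Subgroup G) = p * 2 ^ b := by
    rw [card_sup hXn hco, hP, hX]
  have h2R : 2 ∣ Nat.card (P ⊔ X : Subgroup G) := by
    rw [hRc]
    exact Dvd.dvd.mul_left (dvd_pow_self 2 (by omega)) p
  have hRn : P ⊔ X ≤ Subgroup.normalizer (P : Set G) := sup_le Subgroup.le_normalizer hXn
  have hsta : ∀ x, sta N (P ⊔ X) x = 2 ∨ sta N (P ⊔ X) x = 2 * p := by
    intro x
    have h1 := (hI'.2.1 (P ⊔ X) x).1
    have h2 := hI'.2.2.2 hn4 (P ⊔ X) h2R x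
    rw [hRc] at h1
    obtain ⟨e, he⟩ : ∃ e, sta N (P ⊔ X) x = 2 * e := ⟨sta N (P ⊔ X) x / 2, by omega⟩
    have he1 : e % 2 = 1 := by omega
    rw [he] at h1
    have h3 : e ∣ p * 2 ^ b := (dvd_mul_left e 2).trans h1
    have h4 : Nat.Coprime e (2 ^ b) :=
      Nat.Coprime.pow_right b (Nat.coprime_two_right.2 (Nat.odd_iff.2 he1))
    have h5 : e ∣ p := h4.dvd_of_dvd_mul_right h3
    rcases (Nat.dvd_prime hp).1 h5 with h6 | h6
    · left; rw [he, h6]
    · right; rw [he, h6]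
  refine ⟨P ⊔ X, hRc, hsta, ?_⟩
  intro r x hx
  have hNc : (Nat.card N).factorization p = 1 := by
    rw [hD.card_subgroup]
    exact hfac
  set T : Set G := {g | ∀ k ∈ P, g * k * g⁻¹ ∈ N} with hT
  have hiff : ∀ g, sta N (P ⊔ X) g = 2 * p ↔ g ∈ T := fun g =>
    sta_iff hp hp2 hP le_sup_left hRn hRc g (hsta g)
  have h1 := cnt N (P ⊔ X) x (fun i => sta N (P ⊔ X) (x i) = 2 * p) (2 * p) T (by
      intro g
      constructor
      · intro hg
        obtain ⟨i, ⟨a, ha, k, hk, hgk⟩, _⟩ := hx g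
        refine ⟨i, ?_, a, ha, k, hk, hgk⟩
        rw [← hI'.2.2.1 (P ⊔ X) (x i) a ha k hk, ← hgk]
        exact (hiff g).2 hg
      · rintro ⟨i, hi, a, ha, k, hk, hgk⟩
        rw [← hiff g, hgk, hI'.2.2.1 (P ⊔ X) (x i) a ha k hk]
        exact hi)
    (fun g i j hi hj => (hx g).unique hi hj) (fun i hi => hi)
  have h2 := cnt N M (fun _ : Fin 1 => (1 : G)) (fun _ => True) (2 * d) T (by
      intro g
      rw [hT, Set.mem_ofPred_eq, mem_NM hp hP hPN hNc g, hMn]
      constructor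
      · rintro ⟨a, ha, m, hm, h⟩
        exact ⟨0, trivial, a, ha, m, hm, h⟩
      · rintro ⟨_, _, a, ha, m, hm, h⟩
        exact ⟨a, ha, m, hm, h⟩)
    (fun _ i j _ _ => Subsingleton.elim i j) (fun i _ => by rw [sta_one, hNM])
  have h3 : Nat.card {i : Fin 1 // True} = 1 := by simp
  rw [h3, one_mul, hMc] at h2
  rw [hRc] at h1
  set r1 := Nat.card {i // sta N (P ⊔ X) (x i) = 2 * p} with hr1
  have hN0 : 0 < Nat.card N := Nat.card_pos
  have h4 : r1 * d = c := by
    have h5 : (Nat.card N * 2 ^ b * (2 * p)) * (r1 * d) = (Nat.card N * 2 ^ b * (2 * p)) * c := by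
      calc (Nat.card N * 2 ^ b * (2 * p)) * (r1 * d)
          = (r1 * (Nat.card N * (p * 2 ^ b))) * (2 * d) := by ring
        _ = (Nat.card T * (2 * p)) * (2 * d) := by rw [h1]
        _ = (Nat.card T * (2 * d)) * (2 * p) := by ring
        _ = (Nat.card N * (2 ^ b * c)) * (2 * p) := by rw [h2]
        _ = (Nat.card N * 2 ^ b * (2 * p)) * c := by ring
    exact Nat.eq_of_mul_eq_mul_left (by have := hp.pos; positivity) h5
  have h6 : Odd r1 := by
    rw [← h4] at hc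
    exact (Nat.odd_mul.1 hc).1
  rw [hr1, Nat.card_eq_fintype_card, Fintype.card_subtype] at h6
  exact h6

end Pool.Agent.ADG
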