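import Pool.Agent.ADG.St

/-!
# PNR: the Sylow `p`-subgroup and a 2-subgroup which normalizes it (helper99)
-/

set_option autoImplicit false

namespace Pool.Agent.ADG

open Finset Pool.Agent.ADS
open scoped Pointwise

namespace PNRx

variable {G : Type} [Group G]

/-- the index of a normal subgroup with a supplement -/
lemma index_dvd [Finite G] {K M : Subgroup G} [K.Normal] (h : M ⊔ K = ⊤) :
    K.index ∣ Nat.card M := by
  rw [← Subgroup.relIndex_top_right, ← h, Subgroup.relIndex_sup_right]
  exact Subgroup.relIndex_dvd_card _ _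

lemma arith {n p : ℕ} (hn : n % 4 = 3) (hp : p.Prime) (hp2 : p ≠ 2)
    (hf : (n - 1).factorization p = 1) :
    (n ^ 2 - 1).factorization p = 1 ∧ 8 ∣ n ^ 2 - 1 ∧ p ∣ n - 1 := by
  obtain ⟨k, rfl⟩ : ∃ k, n = 4 * k + 3 := ⟨n / 4, by omega⟩
  have h0 : 4 * k + 3 - 1 = 4 * k + 2 := by omega
  rw [h0] at hf
  have h1 : (4 * k + 3) ^ 2 - 1 = (4 * k + 2) * (4 * k + 4) := by
    have h2 : (4 * k + 3) ^ 2 = (4 * k + 2) * (4 * k + 4) + 1 := by ring
    rw [h2, Nat.add_sub_cancel]
  have hd : p ∣ 4 * k + 2 := Nat.dvd_of_factorization_pos (by rw [hf]; norm_num)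
  have hd2 : ¬ p ∣ 4 * k + 4 := by
    intro h3
    have h4 : p ∣ 2 := by
      have h5 := Nat.dvd_sub h3 hd
      have h6 : 4 * k + 4 - (4 * k + 2) = 2 := by omega
      rwa [h6] at h5
    exact hp2 ((Nat.prime_dvd_prime_iff_eq hp Nat.prime_two).1 h4)
  refine ⟨?_, ?_, by rw [h0]; exact hd⟩
  · rw [h1, Nat.factorization_mul (by omega) (by omega), Finsupp.add_apply, hf,
      Nat.factorization_eq_zero_of_not_dvd hd2]
  · rw [h1]
    exact ⟨(2 * k + 1) * (k + 1), by ring⟩

lemma card_mapx (M : Subgroup G) (S : Subgroup M) :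
    Nat.card (S.map M.subtype) = Nat.card S :=
  (Nat.card_congr (S.equivMapOfInjective M.subtype M.subtype_injective).toEquiv).symm

lemma fin [Finite G] {n : ℕ} {N : Subgroup G} (hN : Nat.card N = n - 1)
    (hI : ∀ g : G, g * g = 1 → g ∈ N) (hn : n % 4 = 3) {p : ℕ} (P : Subgroup G)
    (hP : Nat.card P = p) (hPN : P ≤ N)
    (h2 : 2 ∣ Nat.card (Subgroup.normalizer (P : Set G))) :
    ∃ (P X M : Subgroup G) (b c d : ℕ), Nat.card P = p ∧ P ≤ N ∧
    (∀ g, g ∈ M ↔ ∀ k, k ∈ P ↔ g * k * g⁻¹ ∈ P) ∧ X ≤ M ∧ Nat.card X = 2 ^ b ∧ 1 ≤ b ∧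
    Nat.card M = 2 ^ b * c ∧ Odd c ∧ Nat.card (N ⊓ M : Subgroup G) = 2 * d ∧ Odd d := by
  have hF : Fact (Nat.Prime 2) := ⟨Nat.prime_two⟩
  set M : Subgroup G := Subgroup.normalizer (P : Set G) with hM
  have h0 : Nat.card M ≠ 0 := Nat.card_pos.ne'
  obtain ⟨S⟩ : Nonempty (Sylow 2 M) := inferInstance
  -- the intersection
  have hd : ∃ d, Nat.card (N ⊓ M : Subgroup G) = 2 * d ∧ Odd d := by
    obtain ⟨t, ht⟩ := exists_prime_orderOf_dvd_card' (G := M) 2 h2
    have ht2 : (t : G) * t = 1 := by
      have h3 := pow_orderOf_eq_one t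
      rw [ht, pow_two] at h3
      exact congrArg (fun z : M => (z : G)) h3
    have hmem : (t : G) ∈ N ⊓ M := ⟨hI _ ht2, t.2⟩
    have hdvd : 2 ∣ Nat.card (N ⊓ M : Subgroup G) := by
      have h5 : orderOf (⟨(t : G), hmem⟩ : (N ⊓ M : Subgroup G)) = 2 := by
        rw [← Subgroup.orderOf_coe]
        show orderOf (t : G) = 2
        rw [Subgroup.orderOf_coe]
        exact ht
      rw [← h5]
      exact orderOf_dvd_natCard _
    obtain ⟨d, hd⟩ := hdvd
    refine ⟨d, hd, ?_⟩
    rcases Nat.even_or_odd d with he | ho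
    · exfalso
      obtain ⟨e, he⟩ := he
      have h6 : Nat.card (N ⊓ M : Subgroup G) ∣ Nat.card N :=
        Subgroup.card_dvd_of_le inf_le_left
      rw [hN, hd, he] at h6
      obtain ⟨f, hf⟩ := h6
      have h7 : 4 ∣ n - 1 := ⟨e * f, by rw [hf]; ring⟩
      omega
    · exact ho
  obtain ⟨d, hd1, hd2⟩ := hd
  refine ⟨P, (S : Subgroup M).map M.subtype, M, (Nat.card M).factorization 2,
    Nat.card M / 2 ^ (Nat.card M).factorization 2, d, hP, hPN, fun g => ?_, ?_, ?_, ?_, ?_, ?_,
    hd1, hd2⟩
  · rw [hM]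
    exact Subgroup.mem_normalizer_iff
  · exact Subgroup.map_subtype_le _
  · rw [card_mapx]
    exact S.card_eq_multiplicity
  · exact (Nat.prime_two.dvd_iff_one_le_factorization h0).1 h2
  · exact (Nat.ordProj_mul_ordCompl_eq_self (Nat.card M) 2).symm
  · rw [← Nat.not_even_iff_odd, even_iff_two_dvd]
    exact Nat.not_dvd_ordCompl Nat.prime_two h0

/-- two subgroups of order `p` are conjugate if `p` divides the order of the group once -/
lemma conj [Finite G] {p : ℕ} (hp : p.Prime) (hc : (Nat.card G).factorization p = 1)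
    (P Q : Subgroup G) (hP : Nat.card P = p) (hQ : Nat.card Q = p) :
    ∃ g : G, ∀ x, x ∈ P ↔ g * x * g⁻¹ ∈ Q := by
  have hF : Fact p.Prime := ⟨hp⟩
  have e1 : Nat.card P = p ^ (Nat.card G).factorization p := by rw [hc, pow_one, hP]
  have e2 : Nat.card Q = p ^ (Nat.card G).factorization p := by rw [hc, pow_one, hQ]
  obtain ⟨g, hg⟩ := MulAction.exists_smul_eq G (Sylow.ofCard P e1) (Sylow.ofCard Q e2)
  refine ⟨g, fun x => ?_⟩
  have h1 : MulAut.conj g • P = Q := by
    have h2 := congrArg (fun S : Sylow p G => (S : Subgroup G)) hg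
    simpa [Sylow.coe_subgroup_smul] using h2
  rw [← h1, ← MulAut.conj_apply, ← MulAut.smul_def, Subgroup.smul_mem_pointwise_smul_iff]

end PNRx

open PNRx in
open Classical in
/-- (PNR) -/
theorem PNR_thm (h : Stmt_INV) : Stmt_PNR := by
  intro G _ _ n N D hD hn p hp hp2 hf
  have hI : ∀ g : G, g * g = 1 → g ∈ N := (h G n N D hD).1
  have hN := hD.card_subgroup
  have hG := hD.card_group
  obtain ⟨hfG, h8, hpn⟩ := arith hn hp hp2 hf
  rw [← hG] at hfG h8
  have hF : Fact p.Prime := ⟨hp⟩
  have hF2 : Fact (Nat.Prime 2) := ⟨Nat.prime_two⟩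
  -- the core
  set K : Subgroup G := N.normalCore with hK
  have hKN : K ≤ N := N.normalCore_le
  have hIK : ∀ g : G, g * g = 1 → g ∈ K := by
    intro g hg x
    apply hI
    have h1 : x * g * x⁻¹ * (x * g * x⁻¹) = x * (g * g) * x⁻¹ := by group
    rw [h1, hg]
    simp
  have hKdvd : Nat.card K ∣ n - 1 := by
    rw [← hN]
    exact Subgroup.card_dvd_of_le hKN
  have hK4 : ¬ 4 ∣ Nat.card K := by
    intro h4
    have := h4.trans hKdvd
    omega
  have hGK : Nat.card K * K.index = Nat.card G := K.card_mul_index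
  by_cases hpK : p ∣ Nat.card K
  · -- a Sylow subgroup of `K`
    obtain ⟨S⟩ : Nonempty (Sylow p K) := inferInstance
    have hKp : (Nat.card K).factorization p = 1 := by
      apply le_antisymm
      · have h1 : (Nat.card K).factorization p ≤ (n - 1).factorization p :=
          (Nat.factorization_le_iff_dvd Nat.card_pos.ne' (by omega)).2 hKdvd p
        rwa [hf] at h1
      · exact (hp.dvd_iff_one_le_factorization Nat.card_pos.ne').1 hpK
    refine fin hN hI hn ((S : Subgroup K).map K.subtype) ?_ ?_ ?_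
    · rw [card_mapx, S.card_eq_multiplicity, hKp, pow_one]
    · exact (Subgroup.map_subtype_le _).trans hKN
    · have h1 := index_dvd (Sylow.normalizer_sup_eq_top S)
      refine dvd_trans ?_ h1
      by_contra h2
      have h3 : Nat.Coprime 4 K.index := by
        have h4 : Nat.Coprime 2 K.index := (Nat.Prime.coprime_iff_not_dvd Nat.prime_two).2 h2
        exact Nat.Coprime.pow_left 2 h4
      apply hK4
      apply h3.dvd_of_dvd_mul_right
      rw [hGK]
      exact (by norm_num : (4 : ℕ) ∣ 8).trans h8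
  · -- an involution with an element of order `p` in its centralizer
    obtain ⟨S⟩ : Nonempty (Sylow 2 K) := inferInstance
    set T : Subgroup G := (S : Subgroup K).map K.subtype with hT
    have hK2 : 2 ∣ Nat.card K := by
      obtain ⟨y, hy⟩ := exists_prime_orderOf_dvd_card' (G := G) 2
        ((by norm_num : (2 : ℕ) ∣ 8).trans h8)
      have hyy : y * y = 1 := by
        rw [← pow_two, ← hy]
        exact pow_orderOf_eq_one y
      have h5 : orderOf (⟨y, hIK y hyy⟩ : K) = 2 := by
        rw [← Subgroup.orderOf_coe]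
        exact hy
      rw [← h5]
      exact orderOf_dvd_natCard _
    have hTc : Nat.card T = 2 := by
      rw [hT, card_mapx, S.card_eq_multiplicity]
      have h1 : (Nat.card K).factorization 2 = 1 := by
        apply le_antisymm
        · by_contra h2
          apply hK4
          have h3 : 2 ^ 2 ∣ Nat.card K :=
            (Nat.prime_two.pow_dvd_iff_le_factorization Nat.card_pos.ne').2 (by omega)
          exact h3
        · exact (Nat.prime_two.dvd_iff_one_le_factorization Nat.card_pos.ne').1 hK2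
      rw [h1, pow_one]
    have hpT : p ∣ Nat.card (Subgroup.normalizer (T : Set G)) := by
      have h1 := index_dvd (Sylow.normalizer_sup_eq_top S)
      refine dvd_trans ?_ h1
      have h2 : p ∣ Nat.card K * K.index := by
        rw [hGK]
        exact Nat.dvd_of_factorization_pos (by rw [hfG]; norm_num)
      exact (hp.dvd_mul.1 h2).resolve_left hpK
    obtain ⟨z, hz⟩ := exists_prime_orderOf_dvd_card' p hpT
    obtain ⟨t, ht⟩ := exists_prime_orderOf_dvd_card' (G := T) 2 (by rw [hTc])
    have ht1 : (t : G) ≠ 1 := by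
      intro h1
      have h2 : t = 1 := Subtype.ext h1
      rw [h2, orderOf_one] at ht
      norm_num at ht
    have ht2 : (t : G) * t = 1 := by
      have h3 := pow_orderOf_eq_one t
      rw [ht, pow_two] at h3
      exact congrArg (fun z : T => (z : G)) h3
    -- `T = {1, t}`
    have hTt : ∀ x ∈ T, x = 1 ∨ x = t := by
      intro x hx
      by_contra h1
      rw [not_or] at h1
      have h2 : ({1, t, ⟨x, hx⟩} : Finset T).card = 3 := by
        rw [Finset.card_eq_three]
        refine ⟨1, t, ⟨x, hx⟩, ?_, ?_, ?_, rfl⟩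
        · intro h
          exact ht1 (congrArg (fun z : T => (z : G)) h).symm
        · intro h
          exact h1.1 (congrArg (fun z : T => (z : G)) h).symm
        · intro h
          exact h1.2 (congrArg (fun z : T => (z : G)) h).symm
      have h3 : ({1, t, ⟨x, hx⟩} : Finset T).card ≤ Nat.card T := by
        have := Fintype.ofFinite T
        rw [Nat.card_eq_fintype_card]
        exact Finset.card_le_univ _
      omega
    have hcomm : (z : G) * t * (z : G)⁻¹ = t := by
      have h1 : (z : G) * t * (z : G)⁻¹ ∈ T := (Subgroup.mem_normalizer_iff.1 z.2 t).1 t.2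
      rcases hTt _ h1 with h2 | h2
      · exfalso
        apply ht1
        have h3 : (t : G) = (z : G)⁻¹ * ((z : G) * t * (z : G)⁻¹) * z := by group
        rw [h3, h2]
        group
      · exact h2
    have hzo : orderOf (z : G) = p := by
      rw [Subgroup.orderOf_coe]
      exact hz
    have hP0 : Nat.card (Subgroup.zpowers (z : G)) = p := by
      rw [Nat.card_zpowers, hzo]
    -- a subgroup of order `p` of `N`
    obtain ⟨w, hw⟩ := exists_prime_orderOf_dvd_card' (G := N) p (by rw [hN]; exact hpn)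
    have hwo : orderOf (w : G) = p := by
      rw [Subgroup.orderOf_coe]
      exact hw
    have hP1 : Nat.card (Subgroup.zpowers (w : G)) = p := by
      rw [Nat.card_zpowers, hwo]
    obtain ⟨g, hg⟩ := conj hp hfG _ _ hP0 hP1
    refine fin hN hI hn (Subgroup.zpowers (w : G)) hP1
      (by rw [Subgroup.zpowers_le]; exact w.2) ?_
    set s : G := g * t * g⁻¹ with hs
    have hs2 : s ^ 2 = 1 := by
      have h1 : s ^ 2 = g * (t * t) * g⁻¹ := by
        rw [hs, pow_two]
        group
      rw [h1, ht2]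
      simp
    have hs1 : s ≠ 1 := by
      intro h1
      apply ht1
      have h2 : (t : G) = g⁻¹ * (g * t * g⁻¹) * g := by group
      rw [h2, ← hs, h1]
      simp
    have hso : orderOf s = 2 := orderOf_eq_prime hs2 hs1
    -- `s` commutes with the subgroup
    have hsc : ∀ x ∈ Subgroup.zpowers (w : G), s * x * s⁻¹ = x := by
      intro x hx
      have h1 : g⁻¹ * x * g ∈ Subgroup.zpowers (z : G) := by
        rw [hg]
        have h2 : g * (g⁻¹ * x * g) * g⁻¹ = x := by group
        rw [h2]
        exact hx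
      obtain ⟨i, hi⟩ := Subgroup.mem_zpowers_iff.1 h1
      have hcz : Commute (z : G) t := by
        have h3 : (z : G) * t = t * z := by
          calc (z : G) * t = (z : G) * t * (z : G)⁻¹ * z := by group
            _ = t * z := by rw [hcomm]
        exact h3
      have h4 : (t : G) * (z : G) ^ i = (z : G) ^ i * t := (hcz.zpow_left i).symm.eq
      have h5 : x = g * (z : G) ^ i * g⁻¹ := by
        rw [hi]
        group
      rw [h5, hs]
      calc g * ↑t * g⁻¹ * (g * (z : G) ^ i * g⁻¹) * (g * ↑t * g⁻¹)⁻¹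
          = g * (↑t * (z : G) ^ i * (↑t)⁻¹) * g⁻¹ := by group
        _ = g * (z : G) ^ i * g⁻¹ := by rw [h4]; group
    have hsM : s ∈ Subgroup.normalizer ((Subgroup.zpowers (w : G) : Subgroup G) : Set G) := by
      rw [Subgroup.mem_normalizer_iff]
      intro x
      constructor
      · intro hx
        rw [hsc x hx]
        exact hx
      · intro hx
        have h1 := hsc _ hx
        have h2 : x = s⁻¹ * (s * (s * x * s⁻¹) * s⁻¹) * s * 1 := by
          rw [h1]
          group
        have h3 : s * x * s⁻¹ = x := by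
          have h4 : s * (s * x * s⁻¹) * s⁻¹ = s * x * s⁻¹ := h1
          have h5 : s⁻¹ * (s * (s * x * s⁻¹) * s⁻¹) * s = s⁻¹ * (s * x * s⁻¹) * s := by rw [h4]
          have h6 : s⁻¹ * (s * (s * x * s⁻¹) * s⁻¹) * s = s * x * s⁻¹ := by group
          have h7 : s⁻¹ * (s * x * s⁻¹) * s = x := by group
          rw [h6, h7] at h5
          exact h5
        rwa [h3] at hx
    have h5 : orderOf (⟨s, hsM⟩ :
        Subgroup.normalizer ((Subgroup.zpowers (w : G) : Subgroup G) : Set G)) = 2 := by
      rw [← Subgroup.orderOf_coe]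
      exact hso
    rw [← h5]
    exact orderOf_dvd_natCard _

end Pool.Agent.ADG
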