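import Pool.Agent.ADG.St

/-!
# ADG, module PXT: condition (d) (helper30)
-/

set_option autoImplicit false

namespace Pool.Agent.ADG

open Finset Pool.Agent.ADS

namespace PXT

/-- a divisor of a power of two which is `2` modulo `4` is `2` -/
lemma eq_two {s b : ℕ} (h : s ∣ 2 ^ b) (h4 : s % 4 = 2) : s = 2 := by
  obtain ⟨j, -, rfl⟩ := (Nat.dvd_prime_pow Nat.prime_two).1 h
  rcases j with _ | _ | j
  · simp at h4
  · rfl
  · exfalso
    have : 2 ^ (j + 2) = 4 * 2 ^ j := by ring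
    omega

lemma neg_one_pow_mod (F : Type) [CommRing F] (a b : ℕ) (h : a % 2 = b % 2) :
    (-1 : F) ^ a = (-1) ^ b := by
  rcases Nat.even_or_odd a with ha | ha
  · have hb : Even b := by rw [Nat.even_iff] at ha ⊢; omega
    rw [ha.neg_one_pow, hb.neg_one_pow]
  · have hb : Odd b := by rw [Nat.odd_iff] at ha ⊢; omega
    rw [ha.neg_one_pow, hb.neg_one_pow]

/-- the quadratic reciprocity step -/
lemma recip {l p : ℕ} (hl : l.Prime) (hp : p.Prime) (hl2 : l ≠ 2) (hp2 : p ≠ 2) (hlp : l ≠ p)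
    (h : IsSquare ((-1 : ZMod l) ^ ((p - 1) / 2) * (p : ZMod l))) : IsSquare ((l : ℕ) : ZMod p) := by
  have := Fact.mk hl
  have := Fact.mk hp
  have hpo : p % 2 = 1 := hp.eq_two_or_odd.resolve_left hp2
  have hlo : l % 2 = 1 := hl.eq_two_or_odd.resolve_left hl2
  have hp0 : (p : ZMod l) ≠ 0 := by
    intro h0
    rw [ZMod.natCast_eq_zero_iff] at h0
    exact hlp ((Nat.prime_dvd_prime_iff_eq hl hp).1 h0)
  have hcase : p % 4 = 1 ∨ p % 4 = 3 := by omega
  rcases hcase with h4 | h4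
  · have he : Even ((p - 1) / 2) := by rw [Nat.even_iff]; omega
    rw [he.neg_one_pow, one_mul] at h
    exact (ZMod.exists_sq_eq_prime_iff_of_mod_four_eq_one h4 hl2).2 h
  · have ho : Odd ((p - 1) / 2) := by rw [Nat.odd_iff]; omega
    rw [ho.neg_one_pow] at h
    have hl4 : l % 4 = 1 ∨ l % 4 = 3 := by omega
    rcases hl4 with hl4 | hl4
    · have h1 : IsSquare (-1 : ZMod l) := ZMod.exists_sq_eq_neg_one_iff.2 (by omega)
      have h2 : IsSquare ((-1 : ZMod l) * (-1 * (p : ZMod l))) := h1.mul h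
      have h3 : (-1 : ZMod l) * (-1 * (p : ZMod l)) = p := by ring
      rw [h3] at h2
      exact (ZMod.exists_sq_eq_prime_iff_of_mod_four_eq_one hl4 hp2).1 h2
    · refine (ZMod.exists_sq_eq_prime_iff_of_mod_four_eq_three h4 hl4 (Ne.symm hlp)).2 fun h2 => ?_
      have h3 : IsSquare ((-1 * (p : ZMod l)) / p) := h.div h2
      have h4' : (-1 * (p : ZMod l)) / p = -1 := by field_simp
      rw [h4'] at h3
      exact ZMod.exists_sq_eq_neg_one_iff.1 h3 hl4

/-- the parity computation -/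
lemma parity {l p : ℕ} (hl : l.Prime) (hl2 : l ≠ 2) (hlp : (p : ZMod l) ≠ 0) (hpo : p % 2 = 1)
    (u u' r r1 w : ℕ) (hu : u = p * u') (hr : r = r1 + p * w) (hr1 : Odd r1)
    (he1 : Even (u + r)) (he2 : Even (u' + (r1 + w)))
    (hs1 : IsSquare ((-1) ^ ((u + r) / 2) * (2 : ZMod l) ^ r))
    (hs2 : IsSquare ((-1) ^ ((u' + (r1 + w)) / 2) * ((2 * (p : ZMod l)) ^ r1 * 2 ^ w))) :
    IsSquare ((-1 : ZMod l) ^ ((p - 1) / 2) * (p : ZMod l)) := by
  have := Fact.mk hl
  have h20 : (2 : ZMod l) ≠ 0 := by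
    intro h0
    have h1 : ((2 : ℕ) : ZMod l) = 0 := by exact_mod_cast h0
    rw [ZMod.natCast_eq_zero_iff] at h1
    exact hl2 ((Nat.prime_dvd_prime_iff_eq hl Nat.prime_two).1 h1)
  obtain ⟨q, hq⟩ : ∃ q, p = 2 * q + 1 := ⟨p / 2, by omega⟩
  obtain ⟨t, ht⟩ := hr1
  have hprod := hs1.mul hs2
  -- the exponents
  have hE : ((u + r) / 2 + (u' + (r1 + w)) / 2) % 2 = ((p - 1) / 2) % 2 := by
    obtain ⟨A, hA⟩ := he1
    obtain ⟨B, hB⟩ := he2
    have hA' : (u + r) / 2 = A := by omega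
    have hB' : (u' + (r1 + w)) / 2 = B := by omega
    have hq' : (p - 1) / 2 = q := by omega
    rw [hA', hB', hq']
    -- 2 (A + B) = (p + 1) (u' + w) + 2 r1
    have h1 : 2 * (A + B) = 2 * ((q + 1) * (u' + w) + r1) := by
      have e1 : 2 * A = p * u' + (r1 + p * w) := by rw [← hu, ← hr]; omega
      have e2 : 2 * B = u' + (r1 + w) := by omega
      have e3 : 2 * (A + B) = (p * u' + (r1 + p * w)) + (u' + (r1 + w)) := by omega
      rw [e3, hq]
      ring
    have h2 : A + B = (q + 1) * (u' + w) + r1 := by omega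
    obtain ⟨z, hz⟩ : ∃ z, u' + w = 2 * z + 1 := ⟨(u' + w) / 2, by omega⟩
    rw [h2, hz, ht]
    have h3 : (q + 1) * (2 * z + 1) + (2 * t + 1) = q + 2 * ((q + 1) * z + t + 1) := by ring
    rw [h3]
    omega
  -- the value
  have hval : ((-1) ^ ((u + r) / 2) * (2 : ZMod l) ^ r) *
      ((-1) ^ ((u' + (r1 + w)) / 2) * ((2 * (p : ZMod l)) ^ r1 * 2 ^ w)) =
      ((-1 : ZMod l) ^ ((p - 1) / 2) * (p : ZMod l)) *
        ((2 ^ (r1 + (q + 1) * w) * (p : ZMod l) ^ t) * (2 ^ (r1 + (q + 1) * w) * (p : ZMod l) ^ t)) := by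
    rw [← neg_one_pow_mod (ZMod l) _ _ hE, mul_pow, pow_add (-1 : ZMod l)]
    have e1 : (2 : ZMod l) ^ r * (2 ^ r1 * 2 ^ w) = 2 ^ (r1 + (q + 1) * w) * 2 ^ (r1 + (q + 1) * w) := by
      rw [← pow_add, ← pow_add, ← pow_add]
      congr 1
      rw [hr]
      nth_rewrite 1 [hq]
      ring
    have e2 : (p : ZMod l) ^ r1 = p * ((p : ZMod l) ^ t * (p : ZMod l) ^ t) := by
      rw [ht, ← pow_add]
      ring
    calc _ = (-1 : ZMod l) ^ ((u + r) / 2) * (-1) ^ ((u' + (r1 + w)) / 2) *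
          ((2 : ZMod l) ^ r * (2 ^ r1 * 2 ^ w)) * (p : ZMod l) ^ r1 := by ring
      _ = _ := by rw [e1, e2]; ring
  rw [hval] at hprod
  set a : ZMod l := 2 ^ (r1 + (q + 1) * w) * (p : ZMod l) ^ t with ha
  have ha0 : a ≠ 0 := mul_ne_zero (pow_ne_zero _ h20) (pow_ne_zero _ hlp)
  have h3 : IsSquare (((-1 : ZMod l) ^ ((p - 1) / 2) * (p : ZMod l)) * (a * a) / (a * a)) :=
    hprod.div ⟨a, rfl⟩
  rwa [mul_div_assoc, div_self (mul_ne_zero ha0 ha0), mul_one] at h3

end PXT

open Classical in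
theorem PXT_thm (h1 : Stmt_GRP) (h2 : Stmt_INV) (h3 : Stmt_PNR) (h4 : Stmt_PFX) : Stmt_PXT := by
  intro G _ _ n N D hD hn p hp hp2 hnp l hl hodd
  have := Fact.mk hl
  obtain ⟨P, X, M, b, c, d, hP, hPN, hM, hXM, hX, hb, hMc, hc, hNM, hd⟩ :=
    h3 G n N D hD hn p hp hp2 hnp
  obtain ⟨R, hR, hRs, hRo⟩ :=
    h4 G n N D hD hn p hp hp2 hnp P X M b c d hP hPN hM hXM hX hb hMc hc hNM hd
  obtain ⟨-, hdiv, -, hmod⟩ := h2 G n N D hD
  have hn1 : 1 ≤ n := by omega
  -- divisibility facts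
  have hln : l ∣ n := by
    rcases hodd with ⟨k, hk⟩
    exact Nat.dvd_of_factorization_pos (by omega)
  have hpn : p ∣ n - 1 := Nat.dvd_of_factorization_pos (by omega)
  have hl2 : l ≠ 2 := by
    intro h
    rw [h] at hln
    omega
  have hlp : l ≠ p := by
    intro h
    rw [h] at hln
    have h5 : p ∣ n - (n - 1) := Nat.dvd_sub hln hpn
    have h6 : n - (n - 1) = 1 := by omega
    rw [h6] at h5
    exact hp.one_lt.ne' (Nat.dvd_one.1 h5)
  have hp0 : (p : ZMod l) ≠ 0 := by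
    intro h0
    rw [ZMod.natCast_eq_zero_iff] at h0
    exact hlp ((Nat.prime_dvd_prime_iff_eq hl hp).1 h0)
  have hpo : p % 2 = 1 := hp.eq_two_or_odd.resolve_left hp2
  -- the subgroup X
  obtain ⟨r, x, m, hx, hxm, hsum, hsq⟩ := h1 G n N D hD X
  have hsX : ∀ i, sta N X (x i) = 2 := fun i =>
    PXT.eq_two (by rw [← hX]; exact (hdiv X (x i)).1)
      (hmod hn X (by rw [hX]; exact dvd_pow_self 2 (by omega)) (x i))
  obtain ⟨he1, hs1⟩ := hsq l hl hodd
  have hs1' : IsSquare ((-1) ^ ((X.index + r) / 2) * (2 : ZMod l) ^ r) := by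
    have e : ∏ i, (sta N X (x i) : ZMod l) = 2 ^ r := by
      have e1 : ∏ i, (sta N X (x i) : ZMod l) = ∏ _i : Fin r, (2 : ZMod l) :=
        Finset.prod_congr rfl (fun i _ => by rw [hsX i]; rfl)
      rw [e1, Finset.prod_const, Finset.card_univ, Fintype.card_fin]
    rwa [e] at hs1
  have hru : 2 * X.index = r * (n - 1) := by
    have e1 : ∑ i, 2 * m i = ∑ _i : Fin r, (n - 1) :=
      Finset.sum_congr rfl (fun i _ => by
        have := hxm i
        rw [hsX i] at this
        exact this)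
    rw [← hsum, Finset.mul_sum, e1, Finset.sum_const, Finset.card_univ, Fintype.card_fin,
      smul_eq_mul]
  -- the subgroup R
  obtain ⟨r', y, m', hy, hym, hsum', hsq'⟩ := h1 G n N D hD R
  obtain ⟨he2, hs2⟩ := hsq' l hl hodd
  have hcard1 := hRo r' y hy
  set r1 : ℕ := #{i | sta N R (y i) = 2 * p} with hr1
  set w : ℕ := #{i | ¬ sta N R (y i) = 2 * p} with hw
  have hrw : r' = r1 + w := by
    have := Finset.card_filter_add_card_filter_not (s := (univ : Finset (Fin r')))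
      (fun i => sta N R (y i) = 2 * p)
    rw [Finset.card_univ, Fintype.card_fin] at this
    exact this.symm
  have hs2' : IsSquare ((-1) ^ ((R.index + (r1 + w)) / 2) * ((2 * (p : ZMod l)) ^ r1 * 2 ^ w)) := by
    have e : ∏ i, (sta N R (y i) : ZMod l) = (2 * (p : ZMod l)) ^ r1 * 2 ^ w := by
      rw [← Finset.prod_filter_mul_prod_filter_not univ (fun i => sta N R (y i) = 2 * p)]
      congr 1
      · rw [Finset.prod_congr rfl (g := fun _ => (2 * (p : ZMod l))) (fun i hi => by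
          rw [(Finset.mem_filter.1 hi).2]
          push_cast
          rfl), Finset.prod_const]
      · rw [Finset.prod_congr rfl (g := fun _ => (2 : ZMod l)) (fun i hi => by
          rw [(hRs (y i)).resolve_right (Finset.mem_filter.1 hi).2]
          push_cast
          rfl), Finset.prod_const]
    rw [← hrw, ← e]
    exact hs2
  rw [hrw] at he2
  have hru' : 2 * p * R.index = (r1 + p * w) * (n - 1) := by
    rw [← hsum', Finset.mul_sum,
      ← Finset.sum_filter_add_sum_filter_not univ (fun i => sta N R (y i) = 2 * p)]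
    rw [Finset.sum_congr rfl (s₁ := univ.filter (fun i => sta N R (y i) = 2 * p))
      (g := fun _ => n - 1) (fun i hi => by
        have := hym i
        rw [(Finset.mem_filter.1 hi).2] at this
        exact this),
      Finset.sum_congr rfl (s₁ := univ.filter (fun i => ¬ sta N R (y i) = 2 * p))
      (g := fun _ => p * (n - 1)) (fun i hi => by
        have := hym i
        rw [(hRs (y i)).resolve_right (Finset.mem_filter.1 hi).2] at this
        rw [← this]
        ring), Finset.sum_const, Finset.sum_const]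
    rw [smul_eq_mul, smul_eq_mul]
    show r1 * (n - 1) + w * (p * (n - 1)) = _
    ring
  -- the indices
  have hiX : X.index * 2 ^ b = n ^ 2 - 1 := by
    rw [← hX, Subgroup.index_mul_card, hD.card_group]
  have hiR : R.index * (p * 2 ^ b) = n ^ 2 - 1 := by
    rw [← hR, Subgroup.index_mul_card, hD.card_group]
  have hu : X.index = p * R.index := by
    have h5 : X.index * 2 ^ b = (p * R.index) * 2 ^ b := by
      rw [hiX, ← hiR]
      ring
    exact Nat.eq_of_mul_eq_mul_right (by positivity) h5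
  have hr : r = r1 + p * w := by
    have h5 : r * (n - 1) = (r1 + p * w) * (n - 1) := by
      rw [← hru, ← hru', hu]
      ring
    have h6 : 0 < n - 1 := by omega
    exact Nat.eq_of_mul_eq_mul_right h6 h5
  exact PXT.recip hl hp hl2 hp2 hlp
    (PXT.parity hl hl2 hp0 hpo X.index R.index r r1 w hu hr hcard1 he1 he2 hs1' hs2')

end Pool.Agent.ADG
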