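import Pool.Agent.ADG.St

set_option autoImplicit false

namespace Pool.Agent.ADG

open Finset

/-- RKV. -/
theorem RKV_thm : Stmt_RKV := by
  intro I B _ _ _ β hβ V hV
  classical
  let f : (I → ℤ) →ₗ[ℤ] (B → ℤ) :=
    { toFun := fun x b => ∑ i with β i = b, x i
      map_add' := by
        intro x y
        funext b
        simp only [Pi.add_apply, Finset.sum_add_distrib]
      map_smul' := by
        intro c x
        funext b
        simp only [Pi.smul_apply, smul_eq_mul, Finset.mul_sum, RingHom.id_apply] }
  have hf : ∀ x b, f x b = ∑ i with β i = b, x i := fun _ _ => rfl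
  have hker : LinearMap.ker f = V := by
    ext x
    rw [LinearMap.mem_ker, hV]
    constructor
    · intro h b
      rw [← hf, h]
      rfl
    · intro h
      funext b
      rw [hf, h b]
      rfl
  have hsurj : LinearMap.range f = ⊤ := by
    rw [LinearMap.range_eq_top]
    intro y
    obtain ⟨s, hs⟩ := hβ.hasRightInverse
    refine ⟨fun i => if s (β i) = i then y (β i) else 0, ?_⟩
    funext b
    rw [hf]
    rw [Finset.sum_eq_single (s b)]
    · rw [hs b, if_pos rfl]
    · intro i hi hne
      rw [Finset.mem_filter] at hi
      rw [if_neg]
      rw [hi.2]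
      exact fun h => hne h.symm
    · intro h
      exfalso
      apply h
      rw [Finset.mem_filter]
      exact ⟨Finset.mem_univ _, hs b⟩
  have h := Submodule.finrank_quotient_add_finrank (LinearMap.ker f)
  rw [f.quotKerEquivRange.finrank_eq, hsurj, hker, finrank_top,
    Module.finrank_fintype_fun_eq_card, Module.finrank_fintype_fun_eq_card] at h
  omega

end Pool.Agent.ADG
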