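import Pool.Agent.ADG.St

/-!
# ADG, module SY2: the conditions modulo 4 and 8 (helper54)
-/

set_option autoImplicit false

namespace Pool.Agent.ADG

open Finset Pool.Agent.ADS

namespace SY2

/-- a divisor of a power of two which is `2` modulo `4` is `2` -/
lemma eq_two {s b : ℕ} (h : s ∣ 2 ^ b) (h4 : s % 4 = 2) : s = 2 := by
  obtain ⟨j, -, rfl⟩ := (Nat.dvd_prime_pow Nat.prime_two).1 h
  rcases j with _ | _ | j
  · simp at h4
  · rfl
  · exfalso
    have : 2 ^ (j + 2) = 4 * 2 ^ j := by ring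
    omega

/-- odd powers of `2` -/
lemma sq_two {l : ℕ} [Fact l.Prime] (h20 : (2 : ZMod l) ≠ 0) (c : ZMod l) {r : ℕ} (hr : Odd r)
    (h : IsSquare (c * (2 : ZMod l) ^ r)) : IsSquare (c * 2) := by
  obtain ⟨t, rfl⟩ := hr
  have ha0 : (2 : ZMod l) ^ t * 2 ^ t ≠ 0 := mul_ne_zero (pow_ne_zero _ h20) (pow_ne_zero _ h20)
  have h3 : IsSquare (c * (2 : ZMod l) ^ (2 * t + 1) / (2 ^ t * 2 ^ t)) := h.div ⟨2 ^ t, rfl⟩
  have h4 : c * (2 : ZMod l) ^ (2 * t + 1) = c * 2 * (2 ^ t * 2 ^ t) := by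
    rw [← pow_add]
    ring
  rwa [h4, mul_div_assoc, div_self ha0, mul_one] at h3

lemma sq_sub (n : ℕ) : n ^ 2 - 1 = (n + 1) * (n - 1) := by
  have := Nat.sq_sub_sq n 1
  simpa using this

end SY2

theorem SY2_thm (h1 : Stmt_GRP) (h2 : Stmt_INV) : Stmt_SY2 := by
  intro G _ _ n N D hD l hl hodd
  have := Fact.mk hl
  obtain ⟨-, hdiv, -, hmod⟩ := h2 G n N D hD
  have hn2 := hD.two_le
  have hln : l ∣ n := by
    rcases hodd with ⟨k, hk⟩
    exact Nat.dvd_of_factorization_pos (by omega)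
  have hG : Nat.card G = (n + 1) * (n - 1) := by rw [hD.card_group, SY2.sq_sub]
  -- part (b), (c): the Sylow 2-subgroup
  have key : n % 4 = 3 → ∃ a r : ℕ, n + 1 = 2 ^ (a + 2) * r ∧ Odd r ∧ l ≠ 2 ∧
      (2 : ZMod l) ≠ 0 ∧ IsSquare ((-1) ^ (2 ^ a * r ^ 2) * (2 : ZMod l) ^ r) := by
    intro hn
    have hl2 : l ≠ 2 := by
      intro h
      rw [h] at hln
      omega
    have h20 : (2 : ZMod l) ≠ 0 := by
      intro h0
      have h1 : ((2 : ℕ) : ZMod l) = 0 := by exact_mod_cast h0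
      rw [ZMod.natCast_eq_zero_iff] at h1
      exact hl2 ((Nat.prime_dvd_prime_iff_eq hl Nat.prime_two).1 h1)
    obtain ⟨q, hq⟩ : ∃ q, n = 4 * q + 3 := ⟨n / 4, by omega⟩
    have hG8 : Nat.card G = 8 * ((q + 1) * (2 * q + 1)) := by
      have e : n - 1 = 2 * (2 * q + 1) := by omega
      rw [hG, e, hq]
      ring
    obtain ⟨P⟩ : Nonempty (Sylow 2 G) := inferInstance
    obtain ⟨b, hb⟩ := P.isPGroup'.exists_card_eq
    have hHb : Nat.card (P : Subgroup G) = 2 ^ b := hb
    have hio : (P : Subgroup G).index % 2 = 1 := by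
      have h3 : ¬ 2 ∣ (P : Subgroup G).index := P.not_dvd_index
      omega
    have hiP : (P : Subgroup G).index * 2 ^ b = 8 * ((q + 1) * (2 * q + 1)) := by
      rw [← hHb, Subgroup.index_mul_card, hG8]
    have hb3 : 3 ≤ b := by
      have h3 : 2 ^ 3 ∣ (P : Subgroup G).index * 2 ^ b := by
        rw [hiP]
        exact ⟨_, rfl⟩
      have h4 : Nat.Coprime (2 ^ 3) (P : Subgroup G).index := by
        apply Nat.Coprime.pow_left
        rw [Nat.coprime_two_left, Nat.odd_iff]
        exact hio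
      exact (Nat.pow_dvd_pow_iff_le_right (by norm_num)).1 (h4.dvd_of_dvd_mul_left h3)
    obtain ⟨a, rfl⟩ : ∃ a, b = a + 3 := ⟨b - 3, by omega⟩
    have h2H : 2 ∣ Nat.card (P : Subgroup G) := by
      rw [hHb]
      exact dvd_pow_self 2 (by omega)
    obtain ⟨r, x, m, hx, hxm, hsum, hsq⟩ := h1 G n N D hD (P : Subgroup G)
    have hst : ∀ i, sta N (P : Subgroup G) (x i) = 2 := fun i =>
      SY2.eq_two (by rw [← hHb]; exact (hdiv _ (x i)).1) (hmod hn _ h2H (x i))
    obtain ⟨-, hs⟩ := hsq l hl hodd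
    have hs1 : IsSquare ((-1) ^ (((P : Subgroup G).index + r) / 2) * (2 : ZMod l) ^ r) := by
      have e : ∏ i, (sta N (P : Subgroup G) (x i) : ZMod l) = 2 ^ r := by
        have e1 : ∏ i, (sta N (P : Subgroup G) (x i) : ZMod l) = ∏ _i : Fin r, (2 : ZMod l) :=
          Finset.prod_congr rfl (fun i _ => by rw [hst i]; rfl)
        rw [e1, Finset.prod_const, Finset.card_univ, Fintype.card_fin]
      rwa [e] at hs
    have hru : (P : Subgroup G).index = r * (2 * q + 1) := by
      have e1 : ∑ i, 2 * m i = ∑ _i : Fin r, (n - 1) :=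
        Finset.sum_congr rfl (fun i _ => by
          have := hxm i
          rw [hst i] at this
          exact this)
      have e2 : 2 * (P : Subgroup G).index = r * (n - 1) := by
        rw [← hsum, Finset.mul_sum, e1, Finset.sum_const, Finset.card_univ, Fintype.card_fin,
          smul_eq_mul]
      have e3 : n - 1 = 2 * (2 * q + 1) := by omega
      rw [e3] at e2
      have e4 : r * (2 * (2 * q + 1)) = 2 * (r * (2 * q + 1)) := by ring
      omega
    have hro : Odd r := by
      have h3 : Odd (r * (2 * q + 1)) := by rw [← hru, Nat.odd_iff]; exact hio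
      exact (Nat.odd_mul.1 h3).1
    have hrq : r * 2 ^ a = q + 1 := by
      have e1 : (8 * (2 * q + 1)) * (r * 2 ^ a) = (8 * (2 * q + 1)) * (q + 1) := by
        have e2 : (8 * (2 * q + 1)) * (q + 1) = 8 * ((q + 1) * (2 * q + 1)) := by ring
        rw [e2, ← hiP, hru]
        ring
      exact Nat.eq_of_mul_eq_mul_left (by positivity) e1
    refine ⟨a, r, ?_, hro, hl2, h20, ?_⟩
    · have e1 : 2 ^ (a + 2) * r = 4 * (r * 2 ^ a) := by ring
      rw [e1, hrq, hq]
      ring
    · have e1 : ((P : Subgroup G).index + r) / 2 = 2 ^ a * r ^ 2 := by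
        have e2 : (P : Subgroup G).index + r = 2 * (r * (q + 1)) := by
          rw [hru]
          ring
        rw [e2, Nat.mul_div_cancel_left _ (by norm_num), ← hrq]
        ring
      rwa [e1] at hs1
  refine ⟨?_, ?_, ?_⟩
  · intro hn
    obtain ⟨r, x, m, hx, hxm, hsum, hsq⟩ := h1 G n N D hD ⊥
    obtain ⟨he, hs⟩ := hsq l hl hodd
    have hst : ∀ i, sta N ⊥ (x i) = 1 := fun i => by
      have := (hdiv ⊥ (x i)).1
      rw [Subgroup.card_bot] at this
      exact Nat.dvd_one.1 this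
    have hm : ∀ i, m i = n - 1 := fun i => by
      have := hxm i
      rwa [hst i, one_mul] at this
    have hr : r = n + 1 := by
      have e : ∑ i, m i = r * (n - 1) := by
        rw [Finset.sum_congr rfl (fun i _ => hm i), Finset.sum_const, Finset.card_univ,
          Fintype.card_fin, smul_eq_mul]
      rw [hsum, Subgroup.index_bot, hG] at e
      have h6 : 0 < n - 1 := by omega
      exact (Nat.eq_of_mul_eq_mul_right h6 e).symm
    have hp : ∏ i, (sta N ⊥ (x i) : ZMod l) = 1 := by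
      rw [Finset.prod_congr rfl (g := fun _ => (1 : ZMod l)) (fun i _ => by rw [hst i]; simp)]
      simp
    rw [hp, mul_one, Subgroup.index_bot, hG, hr] at hs
    have hE : Odd (((n + 1) * (n - 1) + (n + 1)) / 2) := by
      have e1 : (n + 1) * (n - 1) + (n + 1) = (n + 1) * n := by
        obtain ⟨q, hq⟩ : ∃ q, n = q + 1 := ⟨n - 1, by omega⟩
        rw [hq, Nat.add_sub_cancel]
        ring
      rw [e1]
      rcases hn with hn | hn
      · obtain ⟨q, hq⟩ : ∃ q, n = 4 * q + 1 := ⟨n / 4, by omega⟩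
        have e2 : (n + 1) * n = 2 * ((2 * q + 1) * (4 * q + 1)) := by rw [hq]; ring
        rw [e2, Nat.mul_div_cancel_left _ (by norm_num)]
        exact Odd.mul ⟨q, rfl⟩ ⟨2 * q, by ring⟩
      · obtain ⟨q, hq⟩ : ∃ q, n = 4 * q + 2 := ⟨n / 4, by omega⟩
        have e2 : (n + 1) * n = 2 * ((4 * q + 3) * (2 * q + 1)) := by rw [hq]; ring
        rw [e2, Nat.mul_div_cancel_left _ (by norm_num)]
        exact Odd.mul ⟨2 * q + 1, by ring⟩ ⟨q, rfl⟩
    rw [hE.neg_one_pow] at hs
    have h3 := ZMod.exists_sq_eq_neg_one_iff.1 hs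
    rcases hl.eq_two_or_odd with h | h
    · exact Or.inl h
    · exact Or.inr (by omega)
  · intro hn
    obtain ⟨a, r, har, hr, hl2, h20, hs⟩ := key (by omega)
    have ha : a = 0 := by
      rcases a with _ | a
      · rfl
      · exfalso
        have e : 2 ^ (a + 1 + 2) * r = 8 * (2 ^ a * r) := by ring
        omega
    subst ha
    have hE : Odd (2 ^ 0 * r ^ 2) := by
      rw [pow_zero, one_mul]
      exact hr.pow
    rw [hE.neg_one_pow] at hs
    have h3 := SY2.sq_two h20 (-1) hr hs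
    have e : (-1 : ZMod l) * 2 = -2 := by ring
    rw [e] at h3
    exact (ZMod.exists_sq_eq_neg_two_iff hl2).1 h3
  · intro hn
    obtain ⟨a, r, har, hr, hl2, h20, hs⟩ := key (by omega)
    rcases a with _ | a
    · exfalso
      obtain ⟨t, ht⟩ := hr
      have e : 2 ^ (0 + 2) * r = 4 * r := by ring
      omega
    · have hE : Even (2 ^ (a + 1) * r ^ 2) := ⟨2 ^ a * r ^ 2, by ring⟩
      rw [hE.neg_one_pow] at hs
      have h3 := SY2.sq_two h20 1 hr hs
      rw [one_mul] at h3
      exact (ZMod.exists_sq_eq_two_iff hl2).1 h3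

end Pool.Agent.ADG
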