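import Pool.Agent.ADG.LAG
import Pool.Agent.ADG.LAT
import Pool.Agent.ADG.RKV
import Pool.Agent.ADG.MAT
import Pool.Agent.ADG.GRP
import Pool.Agent.ADG.INV
import Pool.Agent.ADG.SY2
import Pool.Agent.ADG.PNR
import Pool.Agent.ADG.PFX
import Pool.Agent.ADG.PXT
import Pool.Agent.ADG.CN1
import Pool.Agent.ADG.CN2
import Pool.Agent.ADG.CN3
import Pool.Agent.ADG.FIN

/-! Project ADG (MP_43d07b_co), part 1: assembly (helper96). -/

set_option autoImplicit false

namespace Pool.Agent.ADG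

theorem GRP_all : Stmt_GRP := GRP_thm (MAT_thm LAG_thm LAT_thm RKV_thm)

theorem PXT_all : Stmt_PXT := PXT_thm GRP_all INV_thm (PNR_thm INV_thm) (PFX_thm INV_thm)

theorem SY2_all : Stmt_SY2 := SY2_thm GRP_all INV_thm

theorem main1 : MainStatement := FIN_thm SY2_all PXT_all (CN3_thm (CN2_thm CN1_thm))

end Pool.Agent.ADG
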