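import Pool.Agent.ADG.St2
import Pool.Agent.ADS.EV1

/-!
Module ADG_CAB of MP_43d07b_co: the sum of `cf χ n / n` over an interval.
-/

set_option autoImplicit false

namespace Pool.Agent.ADG

open Finset Pool.Agent.ADS

namespace CABm

theorem abs_le_one {m : ℕ} {χ : ℕ → ℝ} (h : RC m χ) (n : ℕ) : |χ n| ≤ 1 := by
  rcases h.val n with h1 | h1 | h1 <;> rw [h1] <;> simp

theorem partial_le {m : ℕ} {χ : ℕ → ℝ} (h : RC m χ) (a : ℕ) :
    ∀ N : ℕ, |∑ i ∈ range N, χ (a + i)| ≤ m := by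
  intro N
  induction N using Nat.strong_induction_on with
  | _ N ih =>
    by_cases hN : N < m
    · calc |∑ i ∈ range N, χ (a + i)| ≤ ∑ i ∈ range N, |χ (a + i)| :=
            Finset.abs_sum_le_sum_abs _ _
        _ ≤ ∑ _i ∈ range N, (1 : ℝ) := Finset.sum_le_sum fun i _ => abs_le_one h _
        _ = N := by simp
        _ ≤ m := by exact_mod_cast hN.le
    · push Not at hN
      obtain ⟨M, rfl⟩ := Nat.exists_eq_add_of_le' hN
      have hm0 : 0 < m := h.pos
      rw [Finset.sum_range_add]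
      have hb := h.block (a + M)
      simp_rw [add_assoc] at hb
      rw [hb, add_zero]
      exact ih M (by omega)

theorem tail_one {m : ℕ} (χ : ℕ → ℝ) (M K : ℕ)
    (hp : ∀ N : ℕ, |∑ i ∈ range N, χ (M + 1 + i)| ≤ m) :
    ∑ d ∈ Ioc M K, χ d / d * EV1m.H (K / d) ≤ m * (EV1m.H (K / (M + 1)) / ((M + 1 : ℕ) : ℝ)) := by
  let f : ℕ → ℝ := fun i => EV1m.H (K / (M + 1 + i)) / ((M + 1 + i : ℕ) : ℝ)
  let g : ℕ → ℝ := fun i => χ (M + 1 + i)
  have hf : Antitone f := by
    intro i j hij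
    have h1 : EV1m.H (K / (M + 1 + j)) ≤ EV1m.H (K / (M + 1 + i)) :=
      EV1m.H_mono (Nat.div_le_div_left (by omega) (by omega))
    have h2 : ((M + 1 + i : ℕ) : ℝ) ≤ ((M + 1 + j : ℕ) : ℝ) := by exact_mod_cast (by omega)
    have h3 : (0 : ℝ) < ((M + 1 + i : ℕ) : ℝ) := by exact_mod_cast (by omega)
    exact div_le_div₀ (EV1m.H_nonneg _) h1 h3 h2
  have hab := EV1m.abel f g m hf (fun i => div_nonneg (EV1m.H_nonneg _) (by positivity))
    hp (K - M)
  have e : ∑ d ∈ Ioc M K, χ d / d * EV1m.H (K / d) = ∑ i ∈ range (K - M), f i * g i := by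
    refine Finset.sum_nbij' (fun d => d - (M + 1)) (fun i => M + 1 + i) ?_ ?_ ?_ ?_ ?_
    · intro d hd
      simp only [mem_Ioc, mem_range] at hd ⊢
      omega
    · intro i hi
      simp only [mem_Ioc, mem_range] at hi ⊢
      omega
    · intro d hd
      simp only [mem_Ioc] at hd
      have : M + 1 + (d - (M + 1)) = d := by omega
      exact this
    · intro i hi
      simp
    · intro d hd
      simp only [mem_Ioc] at hd
      have hd' : M + 1 + (d - (M + 1)) = d := by omega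
      simp only [f, g, hd']
      ring
  rw [e]
  exact hab

theorem tail_le {m : ℕ} {χ : ℕ → ℝ} (h : RC m χ) {M K : ℕ} (hM : 1 ≤ M) (hK : 1 ≤ K) :
    |∑ d ∈ Ioc M K, χ d / d * EV1m.H (K / d)| ≤ m * (1 + Real.log K) / M := by
  have hm0 : (0 : ℝ) < m := by exact_mod_cast h.pos
  have hM0 : (0 : ℝ) < M := by exact_mod_cast hM
  have hlogK : 0 ≤ Real.log K := Real.log_nonneg (by exact_mod_cast hK)
  have hH : EV1m.H (K / (M + 1)) ≤ 1 + Real.log K := by
    refine (EV1m.H_le _).trans ?_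
    have h1 : Real.log ((K / (M + 1) : ℕ) : ℝ) ≤ Real.log K := by
      rcases Nat.eq_zero_or_pos (K / (M + 1)) with h0 | h0
      · rw [h0]
        simpa using hlogK
      · refine Real.log_le_log (by exact_mod_cast h0) ?_
        exact_mod_cast Nat.div_le_self _ _
    linarith
  have hb : (m : ℝ) * (EV1m.H (K / (M + 1)) / ((M + 1 : ℕ) : ℝ)) ≤
      m * (1 + Real.log K) / M := by
    rw [mul_div_assoc]
    refine mul_le_mul_of_nonneg_left ?_ hm0.le
    refine div_le_div₀ (by linarith) hH hM0 ?_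
    push_cast
    linarith
  rw [abs_le]
  constructor
  · have h1 := tail_one (m := m) (fun n => - χ n) M K (by
      intro N
      have := partial_le h (M + 1) N
      rw [Finset.sum_neg_distrib, abs_neg]
      exact this)
    have h2 : ∑ d ∈ Ioc M K, (fun n => - χ n) d / (d : ℝ) * EV1m.H (K / d) =
        - ∑ d ∈ Ioc M K, χ d / d * EV1m.H (K / d) := by
      rw [← Finset.sum_neg_distrib]
      refine Finset.sum_congr rfl fun d _ => ?_
      simp only
      ring
    rw [h2] at h1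
    linarith
  · exact (tail_one χ M K (partial_le h (M + 1))).trans hb

theorem H_eq (n : ℕ) : EV1m.H n = (harmonic n : ℝ) := by
  unfold EV1m.H
  rw [harmonic_eq_sum_Icc]
  push_cast
  simp

theorem H_near {n : ℕ} (hn : 1 ≤ n) :
    0 ≤ EV1m.H n - Real.log n - Real.eulerMascheroniConstant ∧
    EV1m.H n - Real.log n - Real.eulerMascheroniConstant ≤ 1 / n := by
  have hn0 : (0 : ℝ) < n := by exact_mod_cast hn
  have h1 := Real.eulerMascheroniConstant_lt_eulerMascheroniSeq' n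
  have h2 := Real.eulerMascheroniSeq_lt_eulerMascheroniConstant n
  unfold Real.eulerMascheroniSeq' at h1
  unfold Real.eulerMascheroniSeq at h2
  rw [if_neg (by omega)] at h1
  rw [H_eq]
  constructor
  · linarith
  · have h3 : Real.log ((n : ℝ) + 1) ≤ Real.log n + 1 / n := by
      have h4 : Real.log ((n : ℝ) + 1) = Real.log n + Real.log (1 + 1 / n) := by
        rw [← Real.log_mul hn0.ne' (by positivity)]
        congr 1
        field_simp
      rw [h4]
      have h5 := Real.log_le_sub_one_of_pos (show (0 : ℝ) < 1 + 1 / n by positivity)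
      linarith
    linarith

/-- `H ⌊K/d⌋ = log (K/d) + γ` up to `2 d / K`. -/
theorem H_div {K d : ℕ} (hd : 1 ≤ d) (hdK : d ≤ K) :
    |EV1m.H (K / d) - Real.log ((K : ℝ) / d) - Real.eulerMascheroniConstant| ≤ 2 * d / K := by
  have hd0 : (0 : ℝ) < d := by exact_mod_cast hd
  have hK0 : (0 : ℝ) < K := by exact_mod_cast (by omega : 0 < K)
  set n := K / d with hn
  have hn1 : 1 ≤ n := (Nat.one_le_div_iff (by omega)).2 hdK
  have hn0 : (0 : ℝ) < n := by exact_mod_cast hn1
  have hle : (n : ℝ) ≤ (K : ℝ) / d := Nat.cast_div_le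
  have hlt : (K : ℝ) / d < n + 1 := by
    rw [div_lt_iff₀ hd0]
    have : K < (n + 1) * d := by
      rw [hn, mul_comm]
      exact Nat.lt_mul_div_succ K (by omega)
    exact_mod_cast this
  obtain ⟨h1, h2⟩ := H_near hn1
  have h3 : Real.log n ≤ Real.log ((K : ℝ) / d) := Real.log_le_log hn0 hle
  have h4 : Real.log ((K : ℝ) / d) ≤ Real.log n + 1 / n := by
    have h5 : Real.log ((K : ℝ) / d) ≤ Real.log ((n : ℝ) + 1) :=
      Real.log_le_log (by positivity) hlt.le
    have h6 : Real.log ((n : ℝ) + 1) = Real.log n + Real.log (1 + 1 / n) := by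
      rw [← Real.log_mul hn0.ne' (by positivity)]
      congr 1
      field_simp
    have h7 := Real.log_le_sub_one_of_pos (show (0 : ℝ) < 1 + 1 / n by positivity)
    linarith
  have h8 : (1 : ℝ) / n ≤ 2 * d / K := by
    rw [div_le_div_iff₀ hn0 hK0]
    have h9 : (K : ℝ) < (n + 1) * d := by
      rwa [div_lt_iff₀ hd0] at hlt
    have h10 : (1 : ℝ) ≤ n := by exact_mod_cast hn1
    nlinarith
  rw [abs_le]
  constructor <;> linarith

theorem head_le {m : ℕ} {χ : ℕ → ℝ} (h : RC m χ) {A B M : ℕ} (hM : 1 ≤ M) (hMA : M ≤ A)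
    (hAB : A ≤ B) :
    |∑ d ∈ Icc 1 M, χ d / d * (EV1m.H (B / d) - EV1m.H (A / d) - Real.log ((B : ℝ) / A))| ≤
      4 * (M : ℝ) / A := by
  have hA0 : (0 : ℝ) < A := by exact_mod_cast (by omega : 0 < A)
  have hB0 : (0 : ℝ) < B := by exact_mod_cast (by omega : 0 < B)
  have hAB' : (A : ℝ) ≤ B := by exact_mod_cast hAB
  calc |∑ d ∈ Icc 1 M, χ d / d * (EV1m.H (B / d) - EV1m.H (A / d) - Real.log ((B : ℝ) / A))|
      ≤ ∑ d ∈ Icc 1 M, |χ d / d *
          (EV1m.H (B / d) - EV1m.H (A / d) - Real.log ((B : ℝ) / A))| :=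
        Finset.abs_sum_le_sum_abs _ _
    _ ≤ ∑ _d ∈ Icc 1 M, 4 / (A : ℝ) := by
        refine Finset.sum_le_sum fun d hd => ?_
        rw [mem_Icc] at hd
        have hd0 : (0 : ℝ) < d := by exact_mod_cast hd.1
        have h1 := H_div hd.1 (show d ≤ A by omega)
        have h2 := H_div hd.1 (show d ≤ B by omega)
        have h3 : Real.log ((B : ℝ) / d) - Real.log ((A : ℝ) / d) = Real.log ((B : ℝ) / A) := by
          rw [Real.log_div hB0.ne' hd0.ne', Real.log_div hA0.ne' hd0.ne',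
            Real.log_div hB0.ne' hA0.ne']
          ring
        have h4 : 2 * (d : ℝ) / B ≤ 2 * d / A := by
          exact div_le_div_of_nonneg_left (by positivity) hA0 hAB'
        have h5 : |EV1m.H (B / d) - EV1m.H (A / d) - Real.log ((B : ℝ) / A)| ≤ 4 * d / A := by
          rw [abs_le] at h1 h2 ⊢
          have h6 : 4 * (d : ℝ) / A = 2 * d / A + 2 * d / A := by ring
          constructor <;> linarith [h1.1, h1.2, h2.1, h2.2]
        rw [abs_mul, abs_div, abs_of_pos hd0]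
        calc |χ d| / d * |EV1m.H (B / d) - EV1m.H (A / d) - Real.log ((B : ℝ) / A)|
            ≤ 1 / d * (4 * d / A) := by
              refine mul_le_mul ?_ h5 (abs_nonneg _) (by positivity)
              exact div_le_div_of_nonneg_right (abs_le_one h d) hd0.le
          _ = 4 / (A : ℝ) := by field_simp
    _ = 4 * (M : ℝ) / A := by
        rw [Finset.sum_const, Nat.card_Icc]
        simp only [Nat.add_sub_cancel, nsmul_eq_mul]
        ring

theorem split_sum {χ : ℕ → ℝ} {M K : ℕ} (hMK : M ≤ K) :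
    ∑ n ∈ Icc 1 K, cf χ n / n =
      ∑ d ∈ Icc 1 M, χ d / d * EV1m.H (K / d) + ∑ d ∈ Ioc M K, χ d / d * EV1m.H (K / d) := by
  have h1 : ∑ n ∈ Icc 1 K, cf χ n / n = ∑ d ∈ Icc 1 K, χ d / d * EV1m.H (K / d) := by
    unfold cf
    exact EV1m.swap χ K
  rw [h1]
  have h2 : Icc 1 K = Icc 1 M ∪ Ioc M K := by
    ext d
    simp only [mem_Icc, mem_union, mem_Ioc]
    omega
  rw [h2, Finset.sum_union]
  rw [Finset.disjoint_left]
  intro d h3 h4
  simp only [mem_Icc, mem_Ioc] at h3 h4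
  omega

end CABm

open CABm in
theorem CAB_thm : Stmt_CAB := by
  refine ⟨4, by norm_num, ?_⟩
  intro m χ h A B M hM hMA hAB
  have hM0 : (0 : ℝ) < M := by exact_mod_cast hM
  have hm0 : (0 : ℝ) < m := by exact_mod_cast h.pos
  have hA0 : (0 : ℝ) < A := by exact_mod_cast (by omega : 0 < A)
  have hAB' : (A : ℝ) ≤ B := by exact_mod_cast hAB
  have h1 : ∑ n ∈ Ioc A B, cf χ n / n =
      ∑ n ∈ Icc 1 B, cf χ n / n - ∑ n ∈ Icc 1 A, cf χ n / n := by
    have h2 : Icc 1 B = Icc 1 A ∪ Ioc A B := by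
      ext d
      simp only [mem_Icc, mem_union, mem_Ioc]
      omega
    rw [h2, Finset.sum_union]
    · ring
    · rw [Finset.disjoint_left]
      intro d h3 h4
      simp only [mem_Icc, mem_Ioc] at h3 h4
      omega
  have hhead := head_le h hM hMA hAB
  have hB := tail_le h hM (show 1 ≤ B by omega)
  have hA := tail_le h hM (show 1 ≤ A by omega)
  have hlog : Real.log A ≤ Real.log B := Real.log_le_log hA0 hAB'
  have hA' : m * (1 + Real.log A) / M ≤ m * (1 + Real.log B) / M := by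
    refine div_le_div_of_nonneg_right ?_ hM0.le
    exact mul_le_mul_of_nonneg_left (by linarith) hm0.le
  have hBnn : 0 ≤ m * (1 + Real.log B) / M := (abs_nonneg _).trans hB
  rw [h1, split_sum (show M ≤ B by omega), split_sum hMA]
  have e : (∑ d ∈ Icc 1 M, χ d / d * EV1m.H (B / d) +
      ∑ d ∈ Ioc M B, χ d / d * EV1m.H (B / d)) -
      (∑ d ∈ Icc 1 M, χ d / d * EV1m.H (A / d) + ∑ d ∈ Ioc M A, χ d / d * EV1m.H (A / d)) -
      (∑ d ∈ Icc 1 M, χ d / d) * Real.log ((B : ℝ) / A) =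
      ∑ d ∈ Icc 1 M, χ d / d * (EV1m.H (B / d) - EV1m.H (A / d) - Real.log ((B : ℝ) / A)) +
      (∑ d ∈ Ioc M B, χ d / d * EV1m.H (B / d) - ∑ d ∈ Ioc M A, χ d / d * EV1m.H (A / d)) := by
    have e2 : ∑ d ∈ Icc 1 M, χ d / d *
        (EV1m.H (B / d) - EV1m.H (A / d) - Real.log ((B : ℝ) / A)) =
        ∑ d ∈ Icc 1 M, χ d / d * EV1m.H (B / d) - ∑ d ∈ Icc 1 M, χ d / d * EV1m.H (A / d) -
        (∑ d ∈ Icc 1 M, χ d / d) * Real.log ((B : ℝ) / A) := by
      rw [Finset.sum_mul, ← Finset.sum_sub_distrib, ← Finset.sum_sub_distrib]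
      refine Finset.sum_congr rfl fun d _ => ?_
      ring
    rw [e2]
    ring
  rw [e]
  have hMA0 : 0 ≤ (M : ℝ) / A := by positivity
  have h4 : 4 * (M : ℝ) / A = 4 * ((M : ℝ) / A) := by ring
  rw [abs_le] at hhead hB hA ⊢
  constructor <;> nlinarith [hhead.1, hhead.2, hB.1, hB.2, hA.1, hA.2]

end Pool.Agent.ADG
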