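import Pool.Agent.ADG.St2

/-!
# CFP: the convolution `1 * χ` (helper71)
-/

set_option autoImplicit false

open Finset
open scoped ArithmeticFunction.zeta

namespace Pool.Agent.ADG

namespace CFPm

/-- `χ` as an arithmetic function -/
noncomputable def g (χ : ℕ → ℝ) : ArithmeticFunction ℝ :=
  ⟨fun n => if n = 0 then 0 else χ n, by simp⟩

lemma g_apply (χ : ℕ → ℝ) {n : ℕ} (hn : n ≠ 0) : g χ n = χ n := by
  show (if n = 0 then 0 else χ n) = χ n
  rw [if_neg hn]

lemma g_mult {m : ℕ} {χ : ℕ → ℝ} (h : RC m χ) : (g χ).IsMultiplicative := by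
  rw [ArithmeticFunction.IsMultiplicative.iff_ne_zero]
  refine ⟨by rw [g_apply χ one_ne_zero, h.one], ?_⟩
  intro a b ha hb _
  rw [g_apply χ (mul_ne_zero ha hb), g_apply χ ha, g_apply χ hb, h.mul]

lemma cf_eq (χ : ℕ → ℝ) (k : ℕ) : cf χ k = ((ζ : ArithmeticFunction ℝ) * g χ) k := by
  rw [ArithmeticFunction.coe_zeta_mul_apply]
  unfold cf
  refine Finset.sum_congr rfl fun d hd => ?_
  rw [g_apply χ (Nat.pos_of_mem_divisors hd).ne']

lemma cf_mult {m : ℕ} {χ : ℕ → ℝ} (h : RC m χ) :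
    ((ζ : ArithmeticFunction ℝ) * g χ).IsMultiplicative :=
  (ArithmeticFunction.isMultiplicative_zeta.natCast).mul (g_mult h)

lemma chi_pow {m : ℕ} {χ : ℕ → ℝ} (h : RC m χ) (q j : ℕ) : χ (q ^ j) = χ q ^ j := by
  induction j with
  | zero => rw [pow_zero, pow_zero, h.one]
  | succ j ih => rw [pow_succ, h.mul, ih, pow_succ]

lemma cf_pow {m : ℕ} {χ : ℕ → ℝ} (h : RC m χ) {q : ℕ} (hq : q.Prime) (e : ℕ) :
    0 ≤ cf χ (q ^ e) := by
  unfold cf
  rw [Nat.sum_divisors_prime_pow hq]
  have e1 : ∑ x ∈ range (e + 1), χ (q ^ x) = ∑ x ∈ range (e + 1), χ q ^ x :=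
    Finset.sum_congr rfl fun x _ => chi_pow h q x
  rw [e1]
  rcases h.val q with h0 | h0 | h0
  · rw [h0]
    exact Finset.sum_nonneg fun x _ => pow_nonneg le_rfl x
  · rw [h0]
    exact Finset.sum_nonneg fun x _ => pow_nonneg zero_le_one x
  · rw [h0, neg_one_geom_sum]
    split_ifs
    · exact le_rfl
    · exact zero_le_one

lemma chi_one {m : ℕ} {χ : ℕ → ℝ} (h : RC m χ) :
    ∀ d : ℕ, d ≠ 0 → (∀ q : ℕ, q.Prime → q ∣ d → χ q = 1) → χ d = 1 := by
  intro d
  induction d using Nat.strong_induction_on with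
  | _ d ih =>
    intro hd hq
    by_cases h1 : d = 1
    · rw [h1, h.one]
    · have hp := Nat.minFac_prime h1
      obtain ⟨e, he⟩ := Nat.minFac_dvd d
      have he0 : e ≠ 0 := by
        rintro rfl
        rw [mul_zero] at he
        exact hd he
      have hlt : e < d := by
        have h2 := hp.two_le
        have h3 : 2 * e ≤ d.minFac * e := Nat.mul_le_mul_right e h2
        have h4 : 0 < e := Nat.pos_of_ne_zero he0
        omega
      have hed : e ∣ d := by
        rw [he]
        exact dvd_mul_left e _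
      have h5 := ih e hlt he0 (fun q hq' hqe => hq q hq' (hqe.trans hed))
      rw [he, h.mul, h5, hq _ hp (Nat.minFac_dvd d), mul_one]

end CFPm

open CFPm in
theorem CFP_thm : Stmt_CFP := by
  intro m χ h
  refine ⟨fun k => ?_, fun a b hab => ?_, fun k hk hq => ?_⟩
  · by_cases hk : k = 0
    · rw [hk]
      simp [cf]
    · rw [cf_eq, (cf_mult h).multiplicative_factorization _ hk]
      refine Finset.prod_nonneg fun q hq => ?_
      show 0 ≤ ((ζ : ArithmeticFunction ℝ) * g χ) (q ^ k.factorization q)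
      rw [← cf_eq]
      exact cf_pow h (Nat.prime_of_mem_primeFactors hq) _
  · rw [cf_eq, cf_eq, cf_eq]
    exact (cf_mult h).map_mul_of_coprime hab
  · unfold cf
    have e1 : ∀ d ∈ k.divisors, χ d = 1 := fun d hd =>
      chi_one h d (Nat.pos_of_mem_divisors hd).ne'
        (fun q hq' hqd => hq q hq' (hqd.trans (Nat.dvd_of_mem_divisors hd)))
    rw [Finset.sum_congr rfl e1]
    simp

end Pool.Agent.ADG
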