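import Pool.Agent.ADG.St3

set_option autoImplicit false

namespace Pool.Agent.ADG

open Finset Pool.Agent.ADS

/-- one of the two halves of (CS0) -/
lemma cs0_half (h1 : Stmt_S2V) (X z c d n0 : ℕ) (P1 P2 : Finset ℕ) (K : ℝ) (hz : 2 ≤ z)
    (hc : 1 ≤ c) (hd : 1 ≤ d) (hK : 0 < K)
    (hcd : Nat.Coprime c d)
    (hP : ∀ q ∈ P1 ∪ P2, q.Prime ∧ ¬ q ∣ 2 * (c * d))
    (hR : Real.log z ≤ RSm P1 z * RSm P2 z * K)
    (S : Finset ℕ) (hn0 : n0 ∈ S)
    (hS : ∀ x ∈ S, 2 ≤ x ∧ x ≤ X ∧ c ^ 2 ∣ x ∧ d ^ 2 ∣ x - 1 ∧ (∀ q ∈ P1, ¬ q ∣ x) ∧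
      ∀ q ∈ P2, ¬ q ∣ x - 1) :
    (S.card : ℝ) ≤ X * K / ((c : ℝ) ^ 2 * d ^ 2 * Real.log z) + (z : ℝ) ^ 12 := by
  have hlog : 0 < Real.log z := Real.log_pos (by exact_mod_cast (by omega : 1 < z))
  have hM : 0 < c ^ 2 * d ^ 2 := by positivity
  have hco : Nat.Coprime (c ^ 2) (d ^ 2) := Nat.Coprime.pow 2 2 hcd
  have key := h1 X z (c ^ 2 * d ^ 2) n0 P1 P2 (by omega) hM (by
    intro q hq
    obtain ⟨hqp, hqd⟩ := hP q hq
    refine ⟨hqp, ?_, ?_⟩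
    · rintro rfl
      exact hqd (Dvd.intro _ rfl)
    · intro h
      apply hqd
      apply Dvd.dvd.mul_left
      rcases (Nat.Prime.dvd_mul hqp).1 h with h' | h'
      · exact Dvd.dvd.mul_right (hqp.dvd_of_dvd_pow h') _
      · exact Dvd.dvd.mul_left (hqp.dvd_of_dvd_pow h') _) S (by
    intro x hx
    obtain ⟨a1, a2, a3, a4, a5, a6⟩ := hS x hx
    obtain ⟨b1, b2, b3, b4, b5, b6⟩ := hS n0 hn0
    refine ⟨by omega, a2, ?_, a5, a6⟩
    rw [← Nat.modEq_and_modEq_iff_modEq_mul hco]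
    refine ⟨?_, ?_⟩
    · exact ((Nat.modEq_zero_iff_dvd).2 a3).trans ((Nat.modEq_zero_iff_dvd).2 b3).symm
    · have e1 : x ≡ 1 [MOD d ^ 2] := ((Nat.modEq_iff_dvd' (by omega)).2 a4).symm
      have e2 : n0 ≡ 1 [MOD d ^ 2] := ((Nat.modEq_iff_dvd' (by omega)).2 b4).symm
      exact e1.trans e2.symm)
  refine key.trans (add_le_add_left ?_ _)
  have hRR : 0 < RSm P1 z * RSm P2 z := by
    by_contra h
    push Not at h
    have : RSm P1 z * RSm P2 z * K ≤ 0 := mul_nonpos_of_nonpos_of_nonneg h hK.le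
    linarith
  have hMr : (0 : ℝ) < (c : ℝ) ^ 2 * d ^ 2 := by exact_mod_cast hM
  rw [div_div, div_le_div_iff₀ (by push_cast; positivity) (by positivity)]
  push_cast
  have hX : (0 : ℝ) ≤ X := Nat.cast_nonneg _
  have : (X : ℝ) * ((c : ℝ) ^ 2 * d ^ 2) * Real.log z ≤
      (X : ℝ) * ((c : ℝ) ^ 2 * d ^ 2) * (RSm P1 z * RSm P2 z * K) :=
    mul_le_mul_of_nonneg_left hR (by positivity)
  nlinarith [this]

/-- CS0 (uses S2V, RSU, EPP, GKB). -/
theorem CS0_thm (h1 : Stmt_S2V) (h2 : Stmt_RSU) (h3 : Stmt_EPP) (h4 : Stmt_GKB) : Stmt_CS0 := by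
  classical
  obtain ⟨-, -, r3, r4, -, -⟩ := h2
  obtain ⟨e1, -⟩ := h3
  refine ⟨8, by norm_num, ?_⟩
  intro X z c d hz hc hd
  have hlog : 0 < Real.log z := Real.log_pos (by exact_mod_cast (by omega : 1 < z))
  set P : Finset ℕ := (Icc 1 z).filter (fun q => q.Prime ∧ ¬ q ∣ 2 * (c * d)) with hPdef
  set K : ℝ := 4 * ((c : ℝ) * d) ^ (1 / 4 : ℝ) with hK
  have hcr : (0 : ℝ) < c := by exact_mod_cast hc
  have hdr : (0 : ℝ) < d := by exact_mod_cast hd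
  have hKpos : 0 < K := by positivity
  have hP : ∀ q ∈ P, q.Prime ∧ ¬ q ∣ 2 * (c * d) := fun q hq => (mem_filter.1 hq).2
  have hlogP : Real.log z ≤ RSm P z * K := by
    have a1 := r4 P (2 * (c * d)).primeFactors z (by omega) (by
      intro q hq hqz
      rw [mem_union]
      by_cases h : q ∣ 2 * (c * d)
      · right
        rw [Nat.mem_primeFactors]
        exact ⟨hq, h, by positivity⟩
      · left
        rw [hPdef, mem_filter, mem_Icc]
        exact ⟨⟨hq.one_le, hqz⟩, hq, h⟩)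
    have a2 : RSm (2 * (c * d)).primeFactors z ≤ K := by
      refine (e1 _ z (fun q hq => Nat.prime_of_mem_primeFactors hq)).trans ?_
      exact (h4 c d hc hd).1
    have a3 : 1 ≤ RSm P z := r3 P z (by omega)
    exact a1.trans (mul_le_mul_of_nonneg_left a2 (by linarith))
  have hR0 : 1 ≤ RSm ∅ z := r3 ∅ z (by omega)
  have hRP : 1 ≤ RSm P z := r3 P z (by omega)
  have b1 : Real.log z ≤ RSm P z * RSm ∅ z * K := by
    refine hlogP.trans (mul_le_mul_of_nonneg_right ?_ hKpos.le)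
    exact le_mul_of_one_le_right (by linarith) hR0
  have b2 : Real.log z ≤ RSm ∅ z * RSm P z * K := by
    rw [mul_comm (RSm ∅ z)]
    exact b1
  set A : Finset ℕ := (T0 X z c d).filter
    (fun n => ∀ q : ℕ, q.Prime → q ≤ z → ¬ q ∣ 2 * (c * d) → ¬ q ∣ n) with hA
  set B : Finset ℕ := (T0 X z c d).filter
    (fun n => ∀ q : ℕ, q.Prime → q ≤ z → ¬ q ∣ 2 * (c * d) → ¬ q ∣ n - 1) with hB
  have hT : ∀ n ∈ T0 X z c d, 2 ≤ n ∧ n ≤ X ∧ c ^ 2 ∣ n ∧ d ^ 2 ∣ n - 1 := by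
    intro n hn
    rw [T0, mem_filter, mem_Icc] at hn
    exact ⟨hn.1.1, hn.1.2, hn.2.1.2.1, hn.2.1.2.2.1⟩
  have hcop : ∀ n ∈ T0 X z c d, Nat.Coprime c d := by
    intro n hn
    obtain ⟨a1, a2, a3, a4⟩ := hT n hn
    have h0 : Nat.Coprime n (n - 1) := by
      have : Nat.Coprime (n - 1 + 1) (n - 1) := by simp
      rwa [Nat.sub_add_cancel (by omega)] at this
    have hc' : c ∣ n := (Dvd.intro_left (c ^ 1) (by ring)).trans a3
    have hd' : d ∣ n - 1 := (Dvd.intro_left (d ^ 1) (by ring)).trans a4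
    exact Nat.Coprime.of_dvd hc' hd' h0
  have hbd : ∀ S : Finset ℕ, (S.Nonempty → (S.card : ℝ) ≤
      X * K / ((c : ℝ) ^ 2 * d ^ 2 * Real.log z) + (z : ℝ) ^ 12) → (S.card : ℝ) ≤
      X * K / ((c : ℝ) ^ 2 * d ^ 2 * Real.log z) + (z : ℝ) ^ 12 := by
    intro S hS
    rcases S.eq_empty_or_nonempty with h | h
    · rw [h]
      simp only [card_empty, Nat.cast_zero]
      positivity
    · exact hS h
  have hAc : (A.card : ℝ) ≤ X * K / ((c : ℝ) ^ 2 * d ^ 2 * Real.log z) + (z : ℝ) ^ 12 := by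
    apply hbd
    rintro ⟨n0, hn0⟩
    have hn0T := (mem_filter.1 hn0).1
    refine cs0_half h1 X z c d n0 P ∅ K hz hc hd hKpos (hcop n0 hn0T) ?_ b1 A hn0 ?_
    · intro q hq
      rw [union_empty] at hq
      exact hP q hq
    · intro x hx
      obtain ⟨hx1, hx2⟩ := mem_filter.1 hx
      obtain ⟨a1, a2, a3, a4⟩ := hT x hx1
      refine ⟨a1, a2, a3, a4, ?_, by simp⟩
      intro q hq
      have hq' := mem_filter.1 hq
      exact hx2 q hq'.2.1 (mem_Icc.1 hq'.1).2 hq'.2.2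
  have hBc : (B.card : ℝ) ≤ X * K / ((c : ℝ) ^ 2 * d ^ 2 * Real.log z) + (z : ℝ) ^ 12 := by
    apply hbd
    rintro ⟨n0, hn0⟩
    have hn0T := (mem_filter.1 hn0).1
    refine cs0_half h1 X z c d n0 ∅ P K hz hc hd hKpos (hcop n0 hn0T) ?_ b2 B hn0 ?_
    · intro q hq
      rw [empty_union] at hq
      exact hP q hq
    · intro x hx
      obtain ⟨hx1, hx2⟩ := mem_filter.1 hx
      obtain ⟨a1, a2, a3, a4⟩ := hT x hx1
      refine ⟨a1, a2, a3, a4, by simp, ?_⟩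
      intro q hq
      have hq' := mem_filter.1 hq
      exact hx2 q hq'.2.1 (mem_Icc.1 hq'.1).2 hq'.2.2
  have hsub : T0 X z c d ⊆ A ∪ B := by
    intro n hn
    have hn' := hn
    rw [T0, mem_filter] at hn'
    rw [mem_union, hA, hB, mem_filter, mem_filter]
    rcases hn'.2.2 with h | h
    · exact Or.inl ⟨hn, h⟩
    · exact Or.inr ⟨hn, h⟩
  have hcard : ((T0 X z c d).card : ℝ) ≤ A.card + B.card := by
    have := (card_le_card hsub).trans (card_union_le A B)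
    exact_mod_cast this
  have e : X * K / ((c : ℝ) ^ 2 * d ^ 2 * Real.log z) +
      X * K / ((c : ℝ) ^ 2 * d ^ 2 * Real.log z) =
      8 * X * ((c : ℝ) * d) ^ (1 / 4 : ℝ) / ((c : ℝ) ^ 2 * d ^ 2 * Real.log z) := by
    rw [hK]
    ring
  linarith

end Pool.Agent.ADG
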