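import Pool.Agent.ADG.St4
import Pool.Agent.ADG.PFX

/-!
# Project ADG, module DCL: sums over double cosets
-/

set_option autoImplicit false

namespace Pool.Agent.ADG

open Finset Pool.Agent.ADS

namespace DCLa

variable {G : Type} [Group G]

/-- representatives of the double cosets -/
theorem reps [Finite G] (N H : Subgroup G) :
    ∃ (r : ℕ) (x : Fin r → G), ∀ g : G, ∃! i, ∃ a ∈ N, ∃ k ∈ H, g = a * x i * k := by
  classical
  have : Finite (Quotient (DoubleCoset.setoid (N : Set G) (H : Set G))) := Quotient.finite _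
  obtain ⟨r, ⟨e⟩⟩ := Finite.exists_equiv_fin (Quotient (DoubleCoset.setoid (N : Set G) (H : Set G)))
  have hsym : ∀ (g g' : G), (∃ a ∈ N, ∃ k ∈ H, g' = a * g * k) ↔
      Quotient.mk (DoubleCoset.setoid (N : Set G) (H : Set G)) g = Quotient.mk _ g' := by
    intro g g'
    rw [Quotient.eq]
    exact (DoubleCoset.rel_iff (H := N) (K := H)).symm
  refine ⟨r, fun i => (e.symm i).out, ?_⟩
  intro g
  refine ⟨e (Quotient.mk _ g), ?_, ?_⟩
  · show ∃ a ∈ N, ∃ k ∈ H, g = a * (e.symm (e (Quotient.mk _ g))).out * k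
    rw [Equiv.symm_apply_apply, hsym]
    exact Quotient.out_eq _
  · intro i hi
    have h2 : ∃ a ∈ N, ∃ k ∈ H, g = a * (e.symm i).out * k := hi
    rw [hsym] at h2
    rw [← h2]
    rw [Quotient.out_eq, Equiv.apply_symm_apply]

/-- `sta` is constant on double cosets -/
theorem sta_const (N H : Subgroup G) (x a k : G) (ha : a ∈ N) (hk : k ∈ H) :
    sta N H (a * x * k) = sta N H x := by
  unfold sta
  refine Nat.card_congr ⟨fun t => ⟨k * t.1 * k⁻¹, mul_mem (mul_mem hk t.2.1) (inv_mem hk), ?_⟩,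
    fun t => ⟨k⁻¹ * t.1 * k, mul_mem (mul_mem (inv_mem hk) t.2.1) hk, ?_⟩, ?_, ?_⟩
  · have h1 : x * (k * t.1 * k⁻¹) * x⁻¹ = a⁻¹ * ((a * x * k) * t.1 * (a * x * k)⁻¹) * a := by group
    rw [h1]
    exact mul_mem (mul_mem (inv_mem ha) t.2.2) ha
  · have h1 : (a * x * k) * (k⁻¹ * t.1 * k) * (a * x * k)⁻¹ = a * (x * t.1 * x⁻¹) * a⁻¹ := by group
    rw [h1]
    exact mul_mem (mul_mem ha t.2.2) (inv_mem ha)
  · rintro ⟨t, ht⟩
    apply Subtype.ext
    show k⁻¹ * (k * t * k⁻¹) * k = t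
    group
  · rintro ⟨t, ht⟩
    apply Subtype.ext
    show k * (k⁻¹ * t * k) * k⁻¹ = t
    group

/-- the total number of pairs -/
theorem tot [Fintype G] (N H : Subgroup G) (x : G) :
    ∑ g : G, (Nat.card {q : N × H // (q.1 : G) * x * q.2 = g} : ℚ) = Nat.card N * Nat.card H := by
  have h1 : Nat.card (N × H) = ∑ g : G, Nat.card {q : N × H // (q.1 : G) * x * q.2 = g} := by
    rw [← Nat.card_sigma]
    exact Nat.card_congr (Equiv.sigmaFiberEquiv (fun q : N × H => (q.1 : G) * x * q.2)).symm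
  rw [Nat.card_prod] at h1
  have h2 := congrArg (Nat.cast : ℕ → ℚ) h1
  push_cast at h2
  exact h2.symm

theorem part1 [Fintype G] (N H : Subgroup G) (r : ℕ) (x : Fin r → G)
    (hx : ∀ g : G, ∃! i, ∃ a ∈ N, ∃ k ∈ H, g = a * x i * k) (f : G → ℚ)
    (hf : ∀ a ∈ N, ∀ k ∈ H, ∀ y, f (a * y * k) = f y) : dc N H f = ∑ i, f (x i) := by
  classical
  have hN : (Nat.card N : ℚ) ≠ 0 := by
    exact_mod_cast (Nat.card_pos (α := N)).ne'
  have hH : (Nat.card H : ℚ) ≠ 0 := by
    exact_mod_cast (Nat.card_pos (α := H)).ne'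
  have key : ∀ g : G, f g * sta N H g =
      ∑ i, f (x i) * (Nat.card {q : N × H // (q.1 : G) * x i * q.2 = g} : ℚ) := by
    intro g
    obtain ⟨i, ⟨a, ha, k, hk, hg⟩, hun⟩ := hx g
    rw [Finset.sum_eq_single i]
    · rw [PFXa.fib N H (x i) g a k ha hk hg, hg, hf a ha k hk, sta_const N H (x i) a k ha hk]
    · intro j _ hj
      have : IsEmpty {q : N × H // (q.1 : G) * x j * q.2 = g} := by
        refine ⟨fun q => hj (hun j ⟨q.1.1, q.1.1.2, q.1.2, q.1.2.2, q.2.symm⟩)⟩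
      rw [Nat.card_of_isEmpty]
      simp
    · intro h
      exact absurd (Finset.mem_univ i) h
  unfold dc
  rw [div_eq_iff (mul_ne_zero hN hH)]
  rw [Finset.sum_congr rfl (fun g _ => key g), Finset.sum_comm, Finset.sum_mul]
  refine Finset.sum_congr rfl fun i _ => ?_
  rw [← Finset.mul_sum, tot N H (x i)]

end DCLa

theorem DCL_thm : Stmt_DCL := by
  intro G _ _ N H
  refine ⟨fun r x hx f hf => DCLa.part1 N H r x hx f hf, fun f hf => ?_⟩
  obtain ⟨r, x, hx⟩ := DCLa.reps N H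
  refine ⟨∑ i, f (x i), ?_⟩
  rw [DCLa.part1 N H r x hx (fun x => (f x : ℚ)) (fun a ha k hk y => by
    show (f (a * y * k) : ℚ) = f y
    rw [hf a ha k hk y])]
  push_cast
  rfl

end Pool.Agent.ADG
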