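import Pool.Agent.ADG.St3
import Pool.Agent.Lib_helper10.Erdos460.Mertens2

/-!
# ADG: facts on the Euler products `EP` (helper68)
-/

set_option autoImplicit false

namespace Pool.Agent.ADG

open Finset

namespace EPPm

theorem fac_ge_one {q : ℕ} (hq : q.Prime) : 1 ≤ (1 - (1 : ℝ) / q)⁻¹ := by
  have h2 : (2 : ℝ) ≤ q := by exact_mod_cast hq.two_le
  have h1 : (1 : ℝ) / q ≤ 1 / 2 := by
    rw [div_le_div_iff₀ (by linarith) (by norm_num)]
    linarith
  have h0 : (0 : ℝ) < 1 / q := by positivity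
  exact (one_le_inv₀ (by linarith)).2 (by linarith)

theorem EP_pos {A : Finset ℕ} (hA : ∀ q ∈ A, q.Prime) : 0 < EP A :=
  prod_pos fun q hq => lt_of_lt_of_le one_pos (fac_ge_one (hA q hq))

theorem EP_ge_one {A : Finset ℕ} (hA : ∀ q ∈ A, q.Prime) : 1 ≤ EP A := by
  unfold EP
  calc (1 : ℝ) = ∏ q ∈ A, (1 : ℝ) := by simp
    _ ≤ _ := prod_le_prod (fun _ _ => zero_le_one) fun q hq => fac_ge_one (hA q hq)

theorem fac_le {q : ℕ} (hq : q.Prime) :
    (1 - (1 : ℝ) / q)⁻¹ ≤ Real.exp ((1 : ℝ) / q + (1 / ((q : ℝ) - 1) - 1 / q)) := by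
  have h2 : (2 : ℝ) ≤ q := by exact_mod_cast hq.two_le
  have e1 : (1 - (1 : ℝ) / q)⁻¹ = 1 / ((q : ℝ) - 1) + 1 := by
    have h3 : (q : ℝ) ≠ 0 := by positivity
    have h4 : (q : ℝ) - 1 ≠ 0 := by
      have : (0 : ℝ) < (q : ℝ) - 1 := by linarith
      exact this.ne'
    field_simp
    ring
  rw [e1, show (1 : ℝ) / q + (1 / ((q : ℝ) - 1) - 1 / q) = 1 / ((q : ℝ) - 1) by ring]
  exact Real.add_one_le_exp _

theorem tel (n : ℕ) : ∑ k ∈ Ico 2 (n + 2), (1 / ((k : ℝ) - 1) - 1 / k) = 1 - 1 / ((n : ℝ) + 1) := by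
  induction n with
  | zero => norm_num
  | succ n ih =>
    rw [show n + 1 + 2 = (n + 2) + 1 by ring, sum_Ico_succ_top (by omega), ih]
    push_cast
    ring

theorem tel_le {A : Finset ℕ} (hA : ∀ q ∈ A, q.Prime) :
    ∑ q ∈ A, (1 / ((q : ℝ) - 1) - 1 / q) ≤ 1 := by
  obtain ⟨n, hn⟩ : ∃ n : ℕ, ∀ q ∈ A, q < n := ⟨A.sup id + 1, fun q hq =>
    Nat.lt_succ_of_le (Finset.le_sup (f := id) hq)⟩
  have h1 : A ⊆ Ico 2 (n + 2) := fun q hq =>
    mem_Ico.2 ⟨(hA q hq).two_le, (hn q hq).trans (by omega)⟩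
  refine (sum_le_sum_of_subset_of_nonneg h1 ?_).trans ?_
  · intro k hk _
    have h2 : (2 : ℝ) ≤ k := by exact_mod_cast (mem_Ico.1 hk).1
    have : (1 : ℝ) / k ≤ 1 / ((k : ℝ) - 1) :=
      one_div_le_one_div_of_le (by linarith) (by linarith)
    linarith
  · rw [tel]
    have : (0 : ℝ) < 1 / ((n : ℝ) + 1) := by positivity
    linarith

theorem EP_le_exp {A : Finset ℕ} (hA : ∀ q ∈ A, q.Prime) :
    EP A ≤ Real.exp (∑ q ∈ A, (1 : ℝ) / q + 1) := by
  calc EP A ≤ ∏ q ∈ A, Real.exp ((1 : ℝ) / q + (1 / ((q : ℝ) - 1) - 1 / q)) :=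
        prod_le_prod (fun q hq => zero_le_one.trans (fac_ge_one (hA q hq)))
          fun q hq => fac_le (hA q hq)
    _ = Real.exp (∑ q ∈ A, ((1 : ℝ) / q + (1 / ((q : ℝ) - 1) - 1 / q))) :=
        (Real.exp_sum _ _).symm
    _ ≤ Real.exp (∑ q ∈ A, (1 : ℝ) / q + 1) := by
        rw [Real.exp_le_exp, sum_add_distrib]
        have := tel_le hA
        linarith

theorem RSm_empty (z : ℕ) : RSm ∅ z ≤ 1 := by
  classical
  unfold RSm
  have h1 : (Icc 1 z).filter (fun m => ∀ p : ℕ, p.Prime → p ∣ m → p ∈ (∅ : Finset ℕ)) ⊆ {1} := by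
    intro m hm
    obtain ⟨h1, h2⟩ := mem_filter.1 hm
    rw [mem_singleton]
    by_contra h
    obtain ⟨p, hp, hpm⟩ := Nat.exists_prime_and_dvd h
    exact absurd (h2 p hp hpm) (notMem_empty _)
  refine (sum_le_sum_of_subset_of_nonneg h1 fun _ _ _ => by positivity).trans ?_
  simp

theorem RSm_single {q : ℕ} (hq : q.Prime) (z : ℕ) : RSm {q} z ≤ (1 - (1 : ℝ) / q)⁻¹ := by
  classical
  have h2 : (2 : ℝ) ≤ q := by exact_mod_cast hq.two_le
  have h3 : (1 : ℝ) / q < 1 := by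
    rw [div_lt_one (by linarith)]
    linarith
  have h0 : (0 : ℝ) ≤ 1 / q := by positivity
  unfold RSm
  have h1 : (Icc 1 z).filter (fun m => ∀ p : ℕ, p.Prime → p ∣ m → p ∈ ({q} : Finset ℕ)) ⊆
      (range (z + 1)).image fun j => q ^ j := by
    intro m hm
    obtain ⟨h1, h4⟩ := mem_filter.1 hm
    obtain ⟨h5, h6⟩ := mem_Icc.1 h1
    have h7 : m = q ^ m.primeFactorsList.length := by
      refine Nat.eq_prime_pow_of_unique_prime_dvd (by omega) ?_
      intro d hd hdm
      exact mem_singleton.1 (h4 d hd hdm)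
    refine mem_image.2 ⟨m.primeFactorsList.length, mem_range.2 ?_, h7.symm⟩
    have h8 : m.primeFactorsList.length < q ^ m.primeFactorsList.length :=
      Nat.lt_pow_self hq.one_lt
    rw [← h7] at h8
    omega
  refine (sum_le_sum_of_subset_of_nonneg h1 fun _ _ _ => by positivity).trans ?_
  have h4 : ∑ m ∈ (range (z + 1)).image (fun j => q ^ j), (1 : ℝ) / m =
      ∑ j ∈ range (z + 1), ((1 : ℝ) / q) ^ j := by
    rw [sum_image fun a _ b _ h => Nat.pow_right_injective hq.two_le h]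
    refine sum_congr rfl fun j _ => ?_
    push_cast
    rw [one_div_pow]
  rw [h4, ← tsum_geometric_of_lt_one h0 h3]
  exact (summable_geometric_of_lt_one h0 h3).sum_le_tsum _ fun _ _ => by positivity

theorem EP_union {A B : Finset ℕ} (h : Disjoint A B) : EP (A ∪ B) = EP A * EP B :=
  prod_union h

theorem primesLE_eq (n : ℕ) : Nat.primesLE n = (Icc 1 n).filter Nat.Prime := by
  ext p
  simp only [Nat.primesLE, Nat.primesBelow, mem_filter, mem_range, mem_Icc]
  constructor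
  · rintro ⟨h1, h2⟩
    exact ⟨⟨h2.one_le, by omega⟩, h2⟩
  · rintro ⟨⟨h1, h2⟩, h3⟩
    exact ⟨by omega, h3⟩

end EPPm

open EPPm

theorem EPP_thm (h : Stmt_RSU) : Stmt_EPP := by
  classical
  obtain ⟨hsub, hmono, hone, hlog, -, -⟩ := h
  have h1 : ∀ (A : Finset ℕ) (z : ℕ), (∀ q ∈ A, q.Prime) → RSm A z ≤ EP A := by
    intro A z
    induction A using Finset.induction_on with
    | empty =>
      intro _
      simpa [EP] using RSm_empty z
    | insert q A hqA ih =>
      intro hA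
      have hq := hA q (mem_insert_self _ _)
      have ih' := ih fun p hp => hA p (mem_insert_of_mem hp)
      have e1 : EP (insert q A) = (1 - (1 : ℝ) / q)⁻¹ * EP A := by
        unfold EP
        rw [prod_insert hqA]
      rw [e1, insert_eq]
      refine (hsub {q} A z).trans ?_
      have h0 : 0 ≤ RSm A z := by
        unfold RSm
        exact sum_nonneg fun _ _ => by positivity
      exact mul_le_mul (RSm_single hq z) ih' h0 (zero_le_one.trans (fac_ge_one hq))
  obtain ⟨M, C, hC, hM⟩ := Pool.Agent.Lib_helper10.Erdos460.mertens_second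
  simp only [primesLE_eq] at hM
  have hl2 : 0 < Real.log 2 := Real.log_pos (by norm_num)
  have hlog2 : ∀ n : ℕ, 2 ≤ n → Real.log 2 ≤ Real.log n := fun n hn =>
    Real.log_le_log (by norm_num) (by exact_mod_cast hn)
  have hCn : ∀ n : ℕ, 2 ≤ n → C / Real.log n ≤ C / Real.log 2 := fun n hn =>
    div_le_div_of_nonneg_left hC hl2 (hlog2 n hn)
  set K : ℝ := Real.exp (|M| + 2 * (C / Real.log 2) + 1) with hK
  have hCl : 0 ≤ C / Real.log 2 := by positivity
  have hK1 : 1 ≤ K := by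
    rw [hK]
    apply Real.one_le_exp
    have := abs_nonneg M
    linarith
  -- all primes up to `z`
  have h2 : ∀ z : ℕ, 2 ≤ z → EP ((Icc 1 z).filter Nat.Prime) ≤ K * Real.log z := by
    intro z hz
    have hlz : 0 < Real.log z := hl2.trans_le (hlog2 z hz)
    refine (EP_le_exp fun q hq => (mem_filter.1 hq).2).trans ?_
    have e1 : K * Real.log z =
        Real.exp (|M| + 2 * (C / Real.log 2) + 1 + Real.log (Real.log z)) := by
      rw [Real.exp_add _ (Real.log (Real.log z)), Real.exp_log hlz]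
    rw [e1, Real.exp_le_exp]
    have h3 := (abs_le.1 (hM z hz)).2
    have h4 := hCn z hz
    have h5 := le_abs_self M
    linarith
  -- disjoint decomposition
  have hdec : ∀ a z : ℕ, a ≤ z → (Icc 1 z).filter Nat.Prime =
      (Icc 1 a).filter Nat.Prime ∪ (Ioc a z).filter Nat.Prime := by
    intro a z haz
    ext q
    simp only [mem_filter, mem_Icc, mem_union, mem_Ioc]
    constructor
    · rintro ⟨⟨h3, h4⟩, h5⟩
      by_cases h6 : q ≤ a
      · exact Or.inl ⟨⟨h3, h6⟩, h5⟩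
      · exact Or.inr ⟨⟨by omega, h4⟩, h5⟩
    · rintro (⟨⟨h3, h4⟩, h5⟩ | ⟨⟨h3, h4⟩, h5⟩)
      · exact ⟨⟨h3, by omega⟩, h5⟩
      · exact ⟨⟨h5.one_le, h4⟩, h5⟩
  have hdisj : ∀ a z : ℕ, Disjoint ((Icc 1 a).filter Nat.Prime) ((Ioc a z).filter Nat.Prime) := by
    intro a z
    rw [disjoint_left]
    intro q h3 h4
    have h5 := (mem_Icc.1 (mem_filter.1 h3).1).2
    have h6 := (mem_Ioc.1 (mem_filter.1 h4).1).1
    omega
  have h3 : ∀ a z : ℕ, 2 ≤ a → a ≤ z →
      EP ((Ioc a z).filter Nat.Prime) ≤ K * (Real.log z / Real.log a) := by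
    intro a z ha haz
    have hz : 2 ≤ z := ha.trans haz
    have hla : 0 < Real.log a := hl2.trans_le (hlog2 a ha)
    have hlz : 0 < Real.log z := hl2.trans_le (hlog2 z hz)
    refine (EP_le_exp fun q hq => (mem_filter.1 hq).2).trans ?_
    have e1 : K * (Real.log z / Real.log a) =
        Real.exp (|M| + 2 * (C / Real.log 2) + 1 +
          (Real.log (Real.log z) - Real.log (Real.log a))) := by
      rw [Real.exp_add _ (Real.log (Real.log z) - Real.log (Real.log a)), Real.exp_sub,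
        Real.exp_log hlz, Real.exp_log hla]
    rw [e1, Real.exp_le_exp]
    have e2 : ∑ q ∈ (Icc 1 z).filter Nat.Prime, (1 : ℝ) / q =
        ∑ q ∈ (Icc 1 a).filter Nat.Prime, (1 : ℝ) / q +
          ∑ q ∈ (Ioc a z).filter Nat.Prime, (1 : ℝ) / q := by
      rw [hdec a z haz, sum_union (hdisj a z)]
    have h4 := (abs_le.1 (hM z hz)).2
    have h5 := (abs_le.1 (hM a ha)).1
    have h6 := hCn z hz
    have h7 := hCn a ha
    have h8 := abs_nonneg M
    linarith
  have h4 : ∀ a z : ℕ, 2 ≤ a → a ≤ z →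
      Real.log z / Real.log a ≤ K * EP ((Ioc a z).filter Nat.Prime) := by
    intro a z ha haz
    have hz : 2 ≤ z := ha.trans haz
    have hla : 0 < Real.log a := hl2.trans_le (hlog2 a ha)
    rw [div_le_iff₀ hla]
    have h5 := hlog ((Icc 1 z).filter Nat.Prime) ∅ z (by omega) fun q hq hqz =>
      mem_union_left _ (mem_filter.2 ⟨mem_Icc.2 ⟨hq.one_le, hqz⟩, hq⟩)
    have h6 := h1 ((Icc 1 z).filter Nat.Prime) z fun q hq => (mem_filter.1 hq).2
    have h7 := RSm_empty z
    have h8 : 1 ≤ RSm ((Icc 1 z).filter Nat.Prime) z := hone _ z (by omega)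
    have h9 : Real.log z ≤ EP ((Icc 1 z).filter Nat.Prime) := by
      refine h5.trans (le_trans ?_ h6)
      calc RSm ((Icc 1 z).filter Nat.Prime) z * RSm ∅ z
          ≤ RSm ((Icc 1 z).filter Nat.Prime) z * 1 :=
            mul_le_mul_of_nonneg_left h7 (by linarith)
        _ = _ := mul_one _
    rw [hdec a z haz, EP_union (hdisj a z)] at h9
    have h10 : 0 < EP ((Ioc a z).filter Nat.Prime) := EP_pos fun q hq => (mem_filter.1 hq).2
    calc Real.log z ≤ _ := h9
      _ ≤ (K * Real.log a) * EP ((Ioc a z).filter Nat.Prime) :=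
          mul_le_mul_of_nonneg_right (h2 a ha) h10.le
      _ = _ := by ring
  refine ⟨h1, K, hK1, ?_, h2, fun a z ha haz => ⟨h3 a z ha haz, h4 a z ha haz⟩⟩
  intro A z hz hA
  set B : Finset ℕ := ((Icc 1 z).filter Nat.Prime) \ A with hB
  have hAsub : A ⊆ (Icc 1 z).filter Nat.Prime := fun q hq =>
    mem_filter.2 ⟨mem_Icc.2 ⟨(hA q hq).1.one_le, (hA q hq).2⟩, (hA q hq).1⟩
  have hBp : ∀ q ∈ B, q.Prime := fun q hq => (mem_filter.1 (mem_sdiff.1 hq).1).2
  have h5 : Real.log z ≤ RSm A z * RSm B z := hlog A B z (by omega) fun q hq hqz => by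
    by_cases hqA : q ∈ A
    · exact mem_union_left _ hqA
    · exact mem_union_right _ (mem_sdiff.2 ⟨mem_filter.2 ⟨mem_Icc.2 ⟨hq.one_le, hqz⟩, hq⟩, hqA⟩)
  have h6 := h1 B z hBp
  have h7 : EP A * EP B = EP ((Icc 1 z).filter Nat.Prime) := by
    rw [← EP_union disjoint_sdiff, union_sdiff_of_subset hAsub]
  have h8 := h2 z hz
  have h9 : 0 < EP B := EP_pos hBp
  have h10 : 1 ≤ RSm A z := hone A z (by omega)
  have h11 : EP A * EP B ≤ (K * RSm A z) * EP B := by
    rw [h7]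
    calc EP ((Icc 1 z).filter Nat.Prime) ≤ K * Real.log z := h8
      _ ≤ K * (RSm A z * EP B) := by
          refine mul_le_mul_of_nonneg_left (h5.trans ?_) (by linarith)
          exact mul_le_mul_of_nonneg_left h6 (by linarith)
      _ = _ := by ring
  exact le_of_mul_le_mul_right h11 h9

end Pool.Agent.ADG
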