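import Pool.Agent.ADG.St2
import Pool.Agent.ADG.PFX
import Pool.Agent.ADG.PXT

/-!
# ADG, module EPX (helper22): the condition for even orders
-/

set_option autoImplicit false

namespace Pool.Agent.ADG

open Finset Pool.Agent.ADS

namespace EPX

/-- the parity computation -/
private lemma parity {l p : ℕ} (hl : l.Prime) (hlp : (p : ZMod l) ≠ 0) (hpo : p % 2 = 1)
    (u u' r r1 w : ℕ) (hu : u = p * u') (hr : r = r1 + p * w) (hr1 : Odd r1)
    (he1 : Even (u + r)) (he2 : Even (u' + (r1 + w)))
    (hs1 : IsSquare ((-1 : ZMod l) ^ ((u + r) / 2)))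
    (hs2 : IsSquare ((-1) ^ ((u' + (r1 + w)) / 2) * (p : ZMod l) ^ r1)) :
    IsSquare ((-1 : ZMod l) ^ ((p - 1) / 2) * (p : ZMod l)) := by
  have := Fact.mk hl
  obtain ⟨q, hq⟩ : ∃ q, p = 2 * q + 1 := ⟨p / 2, by omega⟩
  obtain ⟨t, ht⟩ := hr1
  have hprod := hs1.mul hs2
  have hE : ((u + r) / 2 + (u' + (r1 + w)) / 2) % 2 = ((p - 1) / 2) % 2 := by
    obtain ⟨A, hA⟩ := he1
    obtain ⟨B, hB⟩ := he2
    have hA' : (u + r) / 2 = A := by omega
    have hB' : (u' + (r1 + w)) / 2 = B := by omega
    have hq' : (p - 1) / 2 = q := by omega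
    rw [hA', hB', hq']
    have h1 : 2 * (A + B) = 2 * ((q + 1) * (u' + w) + r1) := by
      have e1 : 2 * A = p * u' + (r1 + p * w) := by rw [← hu, ← hr]; omega
      have e2 : 2 * B = u' + (r1 + w) := by omega
      have e3 : 2 * (A + B) = (p * u' + (r1 + p * w)) + (u' + (r1 + w)) := by omega
      rw [e3, hq]
      ring
    have h2 : A + B = (q + 1) * (u' + w) + r1 := by omega
    obtain ⟨z, hz⟩ : ∃ z, u' + w = 2 * z + 1 := ⟨(u' + w) / 2, by omega⟩
    rw [h2, hz, ht]
    have h3 : (q + 1) * (2 * z + 1) + (2 * t + 1) = q + 2 * ((q + 1) * z + t + 1) := by ring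
    rw [h3]
    omega
  have hval : (-1 : ZMod l) ^ ((u + r) / 2) *
      ((-1) ^ ((u' + (r1 + w)) / 2) * (p : ZMod l) ^ r1) =
      ((-1 : ZMod l) ^ ((p - 1) / 2) * (p : ZMod l)) * ((p : ZMod l) ^ t * (p : ZMod l) ^ t) := by
    rw [← PXT.neg_one_pow_mod (ZMod l) _ _ hE, pow_add (-1 : ZMod l)]
    have e2 : (p : ZMod l) ^ r1 = p * ((p : ZMod l) ^ t * (p : ZMod l) ^ t) := by
      rw [ht, ← pow_add]
      ring
    rw [e2]
    ring
  rw [hval] at hprod
  have ha0 : (p : ZMod l) ^ t ≠ 0 := pow_ne_zero _ hlp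
  have h3 := hprod.div (⟨(p : ZMod l) ^ t, rfl⟩ : IsSquare ((p : ZMod l) ^ t * (p : ZMod l) ^ t))
  rwa [mul_div_assoc, div_self (mul_ne_zero ha0 ha0), mul_one] at h3

end EPX

open Classical in
/-- EPX. -/
theorem EPX_thm (h1 : Stmt_GRP) (h2 : Stmt_INV) : Stmt_EPX := by
  intro G _ _ n N D hD hn p hp hp2 hnp l hl hl2 hodd
  have := Fact.mk hl
  have := Fact.mk hp
  obtain ⟨-, hdiv, hcst, -⟩ := h2 G n N D hD
  have hn2 := hD.two_le
  have hln : l ∣ n := by
    rcases hodd with ⟨k, hk⟩
    exact Nat.dvd_of_factorization_pos (by omega)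
  have hpn : p ∣ n - 1 := Nat.dvd_of_factorization_pos (by omega)
  have hlp : l ≠ p := by
    intro h
    rw [h] at hln
    have h5 : p ∣ n - (n - 1) := Nat.dvd_sub hln hpn
    have h6 : n - (n - 1) = 1 := by omega
    rw [h6] at h5
    exact hp.one_lt.ne' (Nat.dvd_one.1 h5)
  have hp0 : (p : ZMod l) ≠ 0 := by
    intro h0
    rw [ZMod.natCast_eq_zero_iff] at h0
    exact hlp ((Nat.prime_dvd_prime_iff_eq hl hp).1 h0)
  have hpo : p % 2 = 1 := hp.eq_two_or_odd.resolve_left hp2
  have hNc : (Nat.card N).factorization p = 1 := by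
    rw [hD.card_subgroup]
    exact hnp
  have hcG : Nat.card G = (n - 1) * (n + 1) := by
    rw [hD.card_group]
    obtain ⟨k, rfl⟩ : ∃ k, n = k + 1 := ⟨n - 1, by omega⟩
    have : (k + 1) ^ 2 = k * (k + 2) + 1 := by ring
    rw [this]
    simp
  -- the subgroup of order p
  obtain ⟨y0, hy0⟩ := exists_prime_orderOf_dvd_card' (G := N) p (by rw [hD.card_subgroup]; exact hpn)
  have hy1 : orderOf (y0 : G) = p := by
    rw [Subgroup.orderOf_coe]
    exact hy0
  set P : Subgroup G := Subgroup.zpowers (y0 : G) with hPdef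
  have hP : Nat.card P = p := by rw [hPdef, Nat.card_zpowers, hy1]
  have hPN : P ≤ N := by
    rw [hPdef, Subgroup.zpowers_le]
    exact y0.2
  -- the trivial subgroup
  obtain ⟨r, x, m, hx, hxm, hsum, hsq⟩ := h1 G n N D hD ⊥
  have hs1 : ∀ i, sta N ⊥ (x i) = 1 := by
    intro i
    have := (hdiv ⊥ (x i)).1
    rw [Subgroup.card_bot] at this
    exact Nat.dvd_one.1 this
  obtain ⟨he1, hq1⟩ := hsq l hl hodd
  have hix : (⊥ : Subgroup G).index = (n - 1) * (n + 1) := by
    rw [Subgroup.index_bot, hcG]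
  have hr : r = n + 1 := by
    have e1 : ∑ i, m i = ∑ _i : Fin r, (n - 1) := Finset.sum_congr rfl (fun i _ => by
      have := hxm i
      rw [hs1 i, one_mul] at this
      exact this)
    rw [e1, Finset.sum_const, Finset.card_univ, Fintype.card_fin, smul_eq_mul, hix] at hsum
    have h6 : 0 < n - 1 := by omega
    rw [mul_comm] at hsum
    exact Nat.eq_of_mul_eq_mul_left h6 hsum
  have hq1' : IsSquare ((-1 : ZMod l) ^ (((⊥ : Subgroup G).index + r) / 2)) := by
    have e : ∏ i, (sta N ⊥ (x i) : ZMod l) = 1 := by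
      apply Finset.prod_eq_one
      intro i _
      rw [hs1 i]
      simp
    rw [e, mul_one] at hq1
    exact hq1
  -- the subgroup P
  obtain ⟨r', y, m', hy, hym, hsum', hsq'⟩ := h1 G n N D hD P
  obtain ⟨he2, hq2⟩ := hsq' l hl hodd
  have hsP : ∀ i, ¬ sta N P (y i) = p → sta N P (y i) = 1 := by
    intro i hi
    have := (hdiv P (y i)).1
    rw [hP] at this
    exact ((Nat.dvd_prime hp).1 this).resolve_right hi
  set r1 : ℕ := #{i | sta N P (y i) = p} with hr1
  set w : ℕ := #{i | ¬ sta N P (y i) = p} with hw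
  have hrw : r' = r1 + w := by
    have := Finset.card_filter_add_card_filter_not (s := (univ : Finset (Fin r')))
      (fun i => sta N P (y i) = p)
    rw [Finset.card_univ, Fintype.card_fin] at this
    exact this.symm
  have hq2' : IsSquare ((-1) ^ ((P.index + (r1 + w)) / 2) * (p : ZMod l) ^ r1) := by
    have e : ∏ i, (sta N P (y i) : ZMod l) = (p : ZMod l) ^ r1 := by
      rw [← Finset.prod_filter_mul_prod_filter_not univ (fun i => sta N P (y i) = p)]
      have ea : ∏ i ∈ univ.filter (fun i => ¬ sta N P (y i) = p), (sta N P (y i) : ZMod l) = 1 := by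
        apply Finset.prod_eq_one
        intro i hi
        rw [hsP i (Finset.mem_filter.1 hi).2]
        simp
      rw [ea, mul_one, Finset.prod_congr rfl (g := fun _ => (p : ZMod l)) (fun i hi => by
          rw [(Finset.mem_filter.1 hi).2]), Finset.prod_const]
    rw [← hrw, ← e]
    exact hq2
  rw [hrw] at he2
  have hru' : p * P.index = (r1 + p * w) * (n - 1) := by
    rw [← hsum', Finset.mul_sum,
      ← Finset.sum_filter_add_sum_filter_not univ (fun i => sta N P (y i) = p)]
    rw [Finset.sum_congr rfl (s₁ := univ.filter (fun i => sta N P (y i) = p))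
      (g := fun _ => n - 1) (fun i hi => by
        have := hym i
        rw [(Finset.mem_filter.1 hi).2] at this
        exact this),
      Finset.sum_congr rfl (s₁ := univ.filter (fun i => ¬ sta N P (y i) = p))
      (g := fun _ => p * (n - 1)) (fun i hi => by
        have := hym i
        rw [hsP i (Finset.mem_filter.1 hi).2, one_mul] at this
        rw [this]), Finset.sum_const, Finset.sum_const]
    rw [smul_eq_mul, smul_eq_mul]
    show r1 * (n - 1) + w * (p * (n - 1)) = _
    ring
  have hiP : (⊥ : Subgroup G).index = p * P.index := by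
    rw [hix, ← hcG, ← hP, P.card_mul_index]
  have hr2 : r = r1 + p * w := by
    have h5 : r * (n - 1) = (r1 + p * w) * (n - 1) := by
      rw [← hru', ← hiP, hix, hr]
      ring
    have h6 : 0 < n - 1 := by omega
    exact Nat.eq_of_mul_eq_mul_right h6 h5
  -- r1 is odd
  have hodd1 : Odd r1 := by
    set T : Set G := {g | ∀ k ∈ P, g * k * g⁻¹ ∈ N} with hT
    have hiff : ∀ g, sta N P g = p ↔ g ∈ T := by
      intro g
      constructor
      · intro h k hk
        have h3 : PFXa.KK N P g = P := by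
          apply Subgroup.eq_of_le_of_card_ge
          · intro k hk
            exact (PFXa.mem_KK.1 hk).1
          · rw [PFXa.card_KK, h, hP]
        have h4 : k ∈ PFXa.KK N P g := by rw [h3]; exact hk
        exact (PFXa.mem_KK.1 h4).2
      · intro h
        have h3 : PFXa.KK N P g = P := by
          apply le_antisymm
          · intro k hk
            exact (PFXa.mem_KK.1 hk).1
          · intro k hk
            exact PFXa.mem_KK.2 ⟨hk, h k hk⟩
        rw [← PFXa.card_KK, h3, hP]
    have g1 := PFXa.cnt N P y (fun i => sta N P (y i) = p) p T (by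
        intro g
        constructor
        · intro hg
          obtain ⟨i, ⟨a, ha, k, hk, hgk⟩, _⟩ := hy g
          refine ⟨i, ?_, a, ha, k, hk, hgk⟩
          rw [← hcst P (y i) a ha k hk, ← hgk]
          exact (hiff g).2 hg
        · rintro ⟨i, hi, a, ha, k, hk, hgk⟩
          rw [← hiff g, hgk, hcst P (y i) a ha k hk]
          exact hi)
      (fun g i j hi hj => (hy g).unique hi hj) (fun i hi => hi)
    have g2 := PFXa.cnt N (Subgroup.normalizer (P : Set G)) (fun _ : Fin 1 => (1 : G))
      (fun _ => True) (Nat.card (N ⊓ Subgroup.normalizer (P : Set G) : Subgroup G)) T (by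
        intro g
        rw [hT, Set.mem_ofPred_eq, PFXa.mem_NM hp hP hPN hNc g]
        constructor
        · rintro ⟨a, ha, m, hm, h⟩
          exact ⟨0, trivial, a, ha, m, hm, h⟩
        · rintro ⟨_, _, a, ha, m, hm, h⟩
          exact ⟨a, ha, m, hm, h⟩)
      (fun _ i j _ _ => Subsingleton.elim i j) (fun i _ => by rw [PFXa.sta_one])
    have g3 : Nat.card {i : Fin 1 // True} = 1 := by simp
    rw [g3, one_mul] at g2
    have g4 : Nat.card {i // sta N P (y i) = p} = r1 := by
      rw [hr1, Nat.card_eq_fintype_card, Fintype.card_subtype]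
    rw [g4, hP] at g1
    set c := Nat.card (Subgroup.normalizer (P : Set G)) with hc
    set d := Nat.card (N ⊓ Subgroup.normalizer (P : Set G) : Subgroup G) with hd
    have hN0 : 0 < Nat.card N := Nat.card_pos
    have g5 : r1 * d = c := by
      have h5 : (Nat.card N * p) * (r1 * d) = (Nat.card N * p) * c := by
        calc (Nat.card N * p) * (r1 * d) = (r1 * (Nat.card N * p)) * d := by ring
          _ = (Nat.card T * p) * d := by rw [g1]
          _ = (Nat.card T * d) * p := by ring
          _ = (Nat.card N * c) * p := by rw [g2]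
          _ = (Nat.card N * p) * c := by ring
      exact Nat.eq_of_mul_eq_mul_left (by have := hp.pos; positivity) h5
    have g6 : c ∣ Nat.card G := Subgroup.card_subgroup_dvd_card _
    have g7 : Odd (Nat.card G) := by
      rw [hcG]
      apply Nat.odd_mul.2
      rw [Nat.even_iff] at hn
      exact ⟨Nat.odd_iff.2 (by omega), Nat.odd_iff.2 (by omega)⟩
    have g8 : Odd c := g7.of_dvd_nat g6
    rw [← g5] at g8
    exact (Nat.odd_mul.1 g8).1
  exact PXT.recip hl hp hl2 hp2 hlp
    (EPX.parity hl hp0 hpo (⊥ : Subgroup G).index P.index r r1 w hiP hr2 hodd1 he1 he2 hq1' hq2')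

end Pool.Agent.ADG
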