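import Pool.Agent.ADG.St3

/-!
# ADG, module FIN3 (helper96): assembly of part 3
-/

set_option autoImplicit false

namespace Pool.Agent.ADG

open Finset Pool.Agent.ADS

theorem FIN3.qrc (h1 : Stmt_EPX) (h2 : Stmt_PXT) {n : ℕ} (h4 : n % 4 ≠ 1) (h : AnyOrder n) :
    2 ≤ n ∧ QRC n := by
  obtain ⟨G, iG, N, D, hD⟩ := h
  have hfin : Finite G := by
    refine Nat.finite_of_card_ne_zero ?_
    rw [hD.card_group]
    have h4 := hD.two_le
    have h5 : 2 ^ 2 ≤ n ^ 2 := Nat.pow_le_pow_left h4 2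
    omega
  refine ⟨hD.two_le, fun l p hl hp hl2 hp2 hodd hpn => ?_⟩
  rcases Nat.even_or_odd n with he | ho
  · exact h1 G n N D hD he p hp hp2 hpn l hl hl2 hodd
  · have h3 : n % 4 = 3 := by
      rcases ho with ⟨k, hk⟩
      omega
    exact h2 G n N D hD h3 p hp hp2 hpn l hl hodd

theorem FIN3_thm (h1 : Stmt_EPX) (h2 : Stmt_PXT) (h3 : Stmt_QSM) : Stmt_FIN3 := by
  classical
  obtain ⟨C, hC, hcount⟩ := h3
  refine ⟨2 * C, fun x hx => ?_⟩
  have hx0 : (0 : ℝ) ≤ x := by linarith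
  set X := ⌊x⌋₊ with hX
  have hX2 : 2 ≤ X := Nat.le_floor (by exact_mod_cast hx)
  have hXx : (X : ℝ) ≤ x := Nat.floor_le hx0
  have hxX : x < X + 1 := Nat.lt_floor_add_one x
  have hX2' : (2 : ℝ) ≤ X := by exact_mod_cast hX2
  have hsub : {n : ℕ | (n : ℝ) ≤ x ∧ n % 4 ≠ 1 ∧ AnyOrder n}.ncard ≤
      ((Icc 2 X).filter (fun n => QRC n)).card := by
    rw [← Set.ncard_coe_finset]
    refine Set.ncard_le_ncard ?_ (Finset.finite_toSet _)
    rintro n ⟨hnx, hn, hN⟩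
    obtain ⟨h5, h6⟩ := FIN3.qrc h1 h2 hn hN
    have h4 : n ≤ X := Nat.le_floor hnx
    rw [Finset.mem_coe, Finset.mem_filter, Finset.mem_Icc]
    exact ⟨⟨h5, h4⟩, h6⟩
  have h5 := hcount X hX2
  have hlX : 0 < Real.log X := Real.log_pos (by linarith)
  have hlx : 0 < Real.log x := Real.log_pos (by linarith)
  have hlog : Real.log x ≤ 2 * Real.log X := by
    have h6 : x ≤ (X : ℝ) ^ 2 := by nlinarith
    have h7 := Real.log_le_log (by linarith) h6
    rw [Real.log_pow] at h7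
    exact_mod_cast h7
  calc ({n : ℕ | (n : ℝ) ≤ x ∧ n % 4 ≠ 1 ∧ AnyOrder n}.ncard : ℝ)
      ≤ (((Icc 2 X).filter (fun n => QRC n)).card : ℝ) := by exact_mod_cast hsub
    _ ≤ C * X / Real.log X := h5
    _ ≤ 2 * C * x / Real.log x := by
      rw [div_le_div_iff₀ hlX hlx]
      calc C * X * Real.log x ≤ C * x * (2 * Real.log X) := by
            refine mul_le_mul (mul_le_mul_of_nonneg_left hXx hC.le) hlog hlx.le (by positivity)
        _ = 2 * C * x * Real.log X := by ring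

end Pool.Agent.ADG
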