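import Pool.Agent.ADG.St4
import Pool.Agent.ADG.FIN3
import Pool.Agent.ADS.BOSE

/-!
# ADG, module FIN4 (helper96): assembly of part 4
-/

set_option autoImplicit false

namespace Pool.Agent.ADG

open Finset Pool.Agent.ADS

theorem FIN4.fin_of {n : ℕ} {G : Type} [Group G] {N : Subgroup G} {D : Finset G}
    (hD : IsAffineDifferenceSet n N D) : Finite G := by
  refine Nat.finite_of_card_ne_zero ?_
  rw [hD.card_group]
  have h4 := hD.two_le
  have h5 : 2 ^ 2 ≤ n ^ 2 := Nat.pow_le_pow_left h4 2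
  omega

theorem FIN4.qrc (h1 : Stmt_EPX) (h2 : Stmt_PXT) (h3 : Stmt_PXU) {n : ℕ} (h : AnyOrder n) :
    QRC n := by
  by_cases h4 : n % 4 = 1
  · obtain ⟨G, iG, N, D, hD⟩ := h
    have hfin : Finite G := FIN4.fin_of hD
    intro l p hl hp hl2 hp2 hodd hpn
    exact h3 G n N D hD h4 p hp hp2 hpn l hl hodd
  · exact (FIN3.qrc h1 h2 h4 h).2

theorem FIN4.any_prime {p : ℕ} (hp : p.Prime) : AnyOrder p := by
  obtain ⟨G, iG, _, N, D, hD⟩ := BOSE_thm p hp
  exact ⟨G, inferInstance, N, D, hD⟩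

theorem FIN4.cheb (x : ℝ) (hx : 16 ≤ x) :
    x / 4 / Real.log x ≤ (Nat.primeCounting ⌊x⌋₊ : ℝ) := by
  have h1 := Chebyshev.pi_ge' (x := x) (by linarith)
  refine le_trans ?_ h1
  have hlx : 0 < Real.log x := Real.log_pos (by linarith)
  refine div_le_div_of_nonneg_right ?_ hlx.le
  have h2 := Real.log_le_sub_one_of_pos (show (0 : ℝ) < (x + 2) / 16 by positivity)
  rw [Real.log_div (by positivity) (by norm_num)] at h2
  have h3 : Real.log 16 = 4 * Real.log 2 := by
    rw [show (16 : ℝ) = 2 ^ 4 by norm_num, Real.log_pow]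
    norm_num
  have h4 := Real.log_two_gt_d9
  have h5 := Real.log_two_lt_d9
  nlinarith

theorem FIN4_thm (h1 : Stmt_EPX) (h2 : Stmt_PXT) (h3 : Stmt_PXU) (h4 : Stmt_QSM) : Stmt_FIN4 := by
  classical
  refine ⟨fun n hn => FIN4.qrc h1 h2 h3 hn, ?_⟩
  obtain ⟨C, hC, hcount⟩ := h4
  refine ⟨1 / 24, 2 * C, by norm_num, fun x hx => ?_⟩
  have hx0 : (0 : ℝ) ≤ x := by linarith
  set X := ⌊x⌋₊ with hX
  have hX2 : 2 ≤ X := Nat.le_floor (by exact_mod_cast hx)
  have hXx : (X : ℝ) ≤ x := Nat.floor_le hx0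
  have hxX : x < X + 1 := Nat.lt_floor_add_one x
  have hX2' : (2 : ℝ) ≤ X := by exact_mod_cast hX2
  have hlX : 0 < Real.log X := Real.log_pos (by linarith)
  have hlx : 0 < Real.log x := Real.log_pos (by linarith)
  have hfin : {n : ℕ | (n : ℝ) ≤ x ∧ AnyOrder n}.Finite := by
    refine (Finset.finite_toSet (Finset.range (X + 1))).subset ?_
    intro n hn
    have h1 : n ≤ X := Nat.le_floor hn.1
    rw [Finset.mem_coe, Finset.mem_range]
    omega
  constructor
  · have hlow : (Nat.primeCounting X : ℝ) ≤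
        ({n : ℕ | (n : ℝ) ≤ x ∧ AnyOrder n}.ncard : ℝ) := by
      have e1 : Nat.primeCounting X = ((Finset.range (X + 1)).filter Nat.Prime).card := by
        rw [Nat.primeCounting, Nat.primeCounting', Nat.count_eq_card_filter_range]
      rw [e1]
      have e2 : ((Finset.range (X + 1)).filter Nat.Prime).card ≤
          {n : ℕ | (n : ℝ) ≤ x ∧ AnyOrder n}.ncard := by
        rw [← Set.ncard_coe_finset]
        refine Set.ncard_le_ncard ?_ hfin
        intro n hn
        rw [Finset.mem_coe, Finset.mem_filter, Finset.mem_range] at hn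
        refine ⟨?_, FIN4.any_prime hn.2⟩
        have h3 : n ≤ X := by omega
        exact (Nat.le_floor_iff hx0).1 h3
      exact_mod_cast e2
    rcases le_or_gt 16 x with h16 | h16
    · refine le_trans ?_ ((FIN4.cheb x h16).trans hlow)
      refine div_le_div_of_nonneg_right ?_ hlx.le
      linarith
    · have e3 : (1 : ℝ) ≤ ({n : ℕ | (n : ℝ) ≤ x ∧ AnyOrder n}.ncard : ℝ) := by
        have e4 : 0 < {n : ℕ | (n : ℝ) ≤ x ∧ AnyOrder n}.ncard := by
          rw [Set.ncard_pos hfin]
          exact ⟨2, by exact_mod_cast hx, FIN4.any_prime Nat.prime_two⟩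
        exact_mod_cast e4
      refine le_trans ?_ e3
      rw [div_le_one hlx]
      have e5 : Real.log 2 ≤ Real.log x := Real.log_le_log (by norm_num) hx
      have e6 := Real.log_two_gt_d9
      linarith
  · have hsub : {n : ℕ | (n : ℝ) ≤ x ∧ AnyOrder n}.ncard ≤
        ((Icc 2 X).filter (fun n => QRC n)).card := by
      rw [← Set.ncard_coe_finset]
      refine Set.ncard_le_ncard ?_ (Finset.finite_toSet _)
      rintro n ⟨hnx, hN⟩
      have h6 := FIN4.qrc h1 h2 h3 hN
      obtain ⟨G, iG, N, D, hD⟩ := hN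
      have h4 : n ≤ X := Nat.le_floor hnx
      rw [Finset.mem_coe, Finset.mem_filter, Finset.mem_Icc]
      exact ⟨⟨hD.two_le, h4⟩, h6⟩
    have h5 := hcount X hX2
    have hlog : Real.log x ≤ 2 * Real.log X := by
      have h6 : x ≤ (X : ℝ) ^ 2 := by nlinarith
      have h7 := Real.log_le_log (by linarith) h6
      rw [Real.log_pow] at h7
      exact_mod_cast h7
    calc ({n : ℕ | (n : ℝ) ≤ x ∧ AnyOrder n}.ncard : ℝ)
        ≤ (((Icc 2 X).filter (fun n => QRC n)).card : ℝ) := by exact_mod_cast hsub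
      _ ≤ C * X / Real.log X := h5
      _ ≤ 2 * C * x / Real.log x := by
        rw [div_le_div_iff₀ hlX hlx]
        calc C * X * Real.log x ≤ C * x * (2 * Real.log X) := by
              refine mul_le_mul (mul_le_mul_of_nonneg_left hXx hC.le) hlog hlx.le (by positivity)
          _ = 2 * C * x * Real.log X := by ring

end Pool.Agent.ADG
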