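import Pool.Agent.ADG.St3

/-!
# GKB: bounds for the product over the prime divisors (helper99)
-/

set_option autoImplicit false

namespace Pool.Agent.ADG

open Finset Pool.Agent.ADS

namespace GKBx

lemma fac_pos {q : ℕ} (hq : q.Prime) : 0 < 1 - (1 : ℝ) / q := by
  have h2 : (2 : ℝ) ≤ q := by exact_mod_cast hq.two_le
  have h3 : (1 : ℝ) / q ≤ 1 / 2 := by
    apply one_div_le_one_div_of_le (by norm_num) h2
  linarith

lemma fac_one {q : ℕ} (hq : q.Prime) : 1 ≤ (1 - (1 : ℝ) / q)⁻¹ := by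
  apply (one_le_inv₀ (fac_pos hq)).2
  have : 0 ≤ (1 : ℝ) / q := by positivity
  linarith

lemma EP_one {A : Finset ℕ} (hA : ∀ q ∈ A, q.Prime) : 1 ≤ EP A := by
  have h := Finset.prod_le_prod (s := A) (f := fun _ : ℕ => (1 : ℝ))
    (g := fun q : ℕ => (1 - (1 : ℝ) / q)⁻¹) (fun _ _ => zero_le_one) (fun q hq => fac_one (hA q hq))
  simpa [EP] using h

lemma EP_union {A B : Finset ℕ} (hA : ∀ q ∈ A, q.Prime) (hB : ∀ q ∈ B, q.Prime) :
    EP (A ∪ B) ≤ EP A * EP B := by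
  have h1 : EP (A ∪ B) * EP (A ∩ B) = EP A * EP B := Finset.prod_union_inter
  have h2 : 1 ≤ EP (A ∩ B) := EP_one fun q hq => hA q (Finset.mem_inter.1 hq).1
  have h3 : 1 ≤ EP (A ∪ B) := EP_one fun q hq => by
    rcases Finset.mem_union.1 hq with h | h
    · exact hA q h
    · exact hB q h
  rw [← h1]
  nlinarith

lemma EP_single (q : ℕ) : EP {q} = (1 - (1 : ℝ) / q)⁻¹ := by
  simp [EP]

/-- the quarter power -/
lemma qp (x : ℝ) (hx : 0 ≤ x) : (x ^ (1 / 4 : ℝ)) ^ 4 = x := by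
  rw [← Real.rpow_natCast, ← Real.rpow_mul hx]
  norm_num

lemma le_qp {a x : ℝ} (ha : 0 ≤ a) (hx : 0 ≤ x) (h : a ^ 4 ≤ x) : a ≤ x ^ (1 / 4 : ℝ) := by
  have h1 : 0 ≤ x ^ (1 / 4 : ℝ) := Real.rpow_nonneg hx _
  have h2 : a ^ 4 ≤ (x ^ (1 / 4 : ℝ)) ^ 4 := by rwa [qp x hx]
  exact (pow_le_pow_iff_left₀ ha h1 (by norm_num)).1 h2

lemma fac_le {q : ℕ} (hq : q.Prime) (h2 : q ≠ 2) (h3 : q ≠ 3) :
    (1 - (1 : ℝ) / q)⁻¹ ≤ (q : ℝ) ^ (1 / 4 : ℝ) := by
  have h5 : 5 ≤ q := by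
    have h4 : q ≠ 4 := by
      rintro rfl
      exact absurd hq (by norm_num)
    have := hq.two_le
    omega
  have h5' : (5 : ℝ) ≤ q := by exact_mod_cast h5
  have h6 : (1 - (1 : ℝ) / q)⁻¹ ≤ 5 / 4 := by
    have h7 : (4 : ℝ) / 5 ≤ 1 - 1 / q := by
      have : (1 : ℝ) / q ≤ 1 / 5 := one_div_le_one_div_of_le (by norm_num) h5'
      linarith
    have h8 := inv_anti₀ (by norm_num : (0 : ℝ) < 4 / 5) h7
    calc (1 - (1 : ℝ) / q)⁻¹ ≤ ((4 : ℝ) / 5)⁻¹ := h8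
      _ = 5 / 4 := by norm_num
  refine h6.trans (le_qp (by norm_num) (by positivity) ?_)
  norm_num
  linarith

/-- the constants at `2` and `3` -/
noncomputable def cc (S : Finset ℕ) (q : ℕ) : ℝ := if q ∈ S then (1 - (1 : ℝ) / q)⁻¹ / (q : ℝ) ^ (1 / 4 : ℝ) else 1

lemma EP_le (S : Finset ℕ) (hS : ∀ q ∈ S, q.Prime) :
    EP S ≤ cc S 2 * cc S 3 * ∏ q ∈ S, (q : ℝ) ^ (1 / 4 : ℝ) := by
  induction S using Finset.induction_on with
  | empty => simp [EP, cc]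
  | insert q S hq ih =>
    have hqp : q.Prime := hS q (Finset.mem_insert_self q S)
    have ih' := ih fun r hr => hS r (Finset.mem_insert_of_mem hr)
    have hpos : 0 < (q : ℝ) ^ (1 / 4 : ℝ) := Real.rpow_pos_of_pos (by exact_mod_cast hqp.pos) _
    have hf0 : 0 < (1 - (1 : ℝ) / q)⁻¹ := inv_pos.2 (fac_pos hqp)
    have e1 : EP (insert q S) = (1 - (1 : ℝ) / q)⁻¹ * EP S := by
      unfold EP
      rw [Finset.prod_insert hq]
    rw [e1, Finset.prod_insert hq]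
    have h1 := mul_le_mul_of_nonneg_left ih' hf0.le
    refine h1.trans ?_
    by_cases h2 : q = 2
    · subst h2
      have c1 : cc S 2 = 1 := if_neg hq
      have c2 : cc (insert 2 S) 2 = (1 - (1 : ℝ) / (2 : ℕ))⁻¹ / ((2 : ℕ) : ℝ) ^ (1 / 4 : ℝ) :=
        if_pos (Finset.mem_insert_self _ _)
      have c3 : cc (insert 2 S) 3 = cc S 3 := by
        unfold cc
        simp
      rw [c1, c2, c3]
      apply le_of_eq
      field_simp
    · by_cases h3 : q = 3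
      · subst h3
        have c1 : cc S 3 = 1 := if_neg hq
        have c2 : cc (insert 3 S) 3 = (1 - (1 : ℝ) / (3 : ℕ))⁻¹ / ((3 : ℕ) : ℝ) ^ (1 / 4 : ℝ) :=
          if_pos (Finset.mem_insert_self _ _)
        have c3 : cc (insert 3 S) 2 = cc S 2 := by
          unfold cc
          simp
        rw [c1, c2, c3]
        apply le_of_eq
        field_simp
      · have c2 : cc (insert q S) 2 = cc S 2 := by
          unfold cc
          simp [Ne.symm h2]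
        have c3 : cc (insert q S) 3 = cc S 3 := by
          unfold cc
          simp [Ne.symm h3]
        rw [c2, c3]
        have h4 := fac_le hqp h2 h3
        have hc : ∀ r : ℕ, r.Prime → 0 ≤ cc S r := by
          intro r hr
          unfold cc
          split_ifs
          · have := inv_pos.2 (fac_pos hr)
            positivity
          · exact zero_le_one
        have h5 : 0 ≤ cc S 2 * cc S 3 * ∏ q ∈ S, (q : ℝ) ^ (1 / 4 : ℝ) :=
          mul_nonneg (mul_nonneg (hc 2 Nat.prime_two) (hc 3 Nat.prime_three))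
            (Finset.prod_nonneg fun r _ => Real.rpow_nonneg (Nat.cast_nonneg r) _)
        calc (1 - (1 : ℝ) / q)⁻¹ * (cc S 2 * cc S 3 * ∏ q ∈ S, (q : ℝ) ^ (1 / 4 : ℝ))
            ≤ (q : ℝ) ^ (1 / 4 : ℝ) * (cc S 2 * cc S 3 * ∏ q ∈ S, (q : ℝ) ^ (1 / 4 : ℝ)) :=
              mul_le_mul_of_nonneg_right h4 h5
          _ = _ := by ring

lemma cc_two (S : Finset ℕ) : cc S 2 * cc S 3 ≤ 2 := by
  have h2 : 1 ≤ (2 : ℝ) ^ (1 / 4 : ℝ) := Real.one_le_rpow (by norm_num) (by norm_num)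
  have h3 : 1 ≤ (3 : ℝ) ^ (1 / 4 : ℝ) := Real.one_le_rpow (by norm_num) (by norm_num)
  have h6 : 3 / 2 ≤ (2 : ℝ) ^ (1 / 4 : ℝ) * (3 : ℝ) ^ (1 / 4 : ℝ) := by
    rw [← Real.mul_rpow (by norm_num) (by norm_num)]
    exact le_qp (by norm_num) (by norm_num) (by norm_num)
  have e2 : ((2 : ℕ) : ℝ) = 2 := by norm_num
  have e3 : ((3 : ℕ) : ℝ) = 3 := by norm_num
  have k2 : (1 - (1 : ℝ) / 2)⁻¹ = 2 := by norm_num
  have k3 : (1 - (1 : ℝ) / 3)⁻¹ = 3 / 2 := by norm_num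
  unfold cc
  rw [e2, e3, k2, k3]
  have p2 : 0 < (2 : ℝ) ^ (1 / 4 : ℝ) := by linarith
  have p3 : 0 < (3 : ℝ) ^ (1 / 4 : ℝ) := by linarith
  split_ifs
  · rw [div_mul_div_comm, div_le_iff₀ (mul_pos p2 p3)]
    linarith
  · rw [mul_one, div_le_iff₀ p2]
    linarith
  · rw [one_mul, div_le_iff₀ p3]
    linarith
  · norm_num

lemma gk_le {k : ℕ} (hk : 1 ≤ k) : gk k ≤ 2 * (k : ℝ) ^ (1 / 4 : ℝ) := by
  have hS : ∀ q ∈ k.primeFactors, q.Prime := fun q hq => Nat.prime_of_mem_primeFactors hq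
  have h1 := EP_le k.primeFactors hS
  have h2 : ∏ q ∈ k.primeFactors, (q : ℝ) ^ (1 / 4 : ℝ) =
      (∏ q ∈ k.primeFactors, (q : ℝ)) ^ (1 / 4 : ℝ) :=
    Real.finsetProd_rpow _ _ (fun q _ => Nat.cast_nonneg q) _
  have h3 : (∏ q ∈ k.primeFactors, (q : ℝ)) ≤ k := by
    have h4 : (∏ q ∈ k.primeFactors, q) ≤ k := Nat.le_of_dvd (by omega) (Nat.prod_primeFactors_dvd k)
    have h8 : ((∏ q ∈ k.primeFactors, q : ℕ) : ℝ) ≤ k := Nat.cast_le.2 h4
    rwa [Nat.cast_prod] at h8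
  have h5 : (∏ q ∈ k.primeFactors, (q : ℝ)) ^ (1 / 4 : ℝ) ≤ (k : ℝ) ^ (1 / 4 : ℝ) :=
    Real.rpow_le_rpow (Finset.prod_nonneg fun q _ => Nat.cast_nonneg q) h3 (by norm_num)
  have h6 : 0 ≤ (∏ q ∈ k.primeFactors, (q : ℝ)) ^ (1 / 4 : ℝ) :=
    Real.rpow_nonneg (Finset.prod_nonneg fun q _ => Nat.cast_nonneg q) _
  rw [h2] at h1
  have h7 := cc_two k.primeFactors
  unfold gk
  calc EP k.primeFactors ≤ cc k.primeFactors 2 * cc k.primeFactors 3 *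
        (∏ q ∈ k.primeFactors, (q : ℝ)) ^ (1 / 4 : ℝ) := h1
    _ ≤ 2 * (∏ q ∈ k.primeFactors, (q : ℝ)) ^ (1 / 4 : ℝ) := mul_le_mul_of_nonneg_right h7 h6
    _ ≤ 2 * (k : ℝ) ^ (1 / 4 : ℝ) := by linarith

lemma gk_mul {a b : ℕ} (ha : a ≠ 0) (hb : b ≠ 0) : gk (a * b) ≤ gk a * gk b := by
  unfold gk
  rw [Nat.primeFactors_mul ha hb]
  exact EP_union (fun q hq => Nat.prime_of_mem_primeFactors hq)
    (fun q hq => Nat.prime_of_mem_primeFactors hq)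

lemma gk_prime {l : ℕ} (hl : l.Prime) : gk l = (1 - (1 : ℝ) / l)⁻¹ := by
  unfold gk
  rw [hl.primeFactors, EP_single]

lemma gk_odd {l : ℕ} (hl : l.Prime) (h2 : l ≠ 2) : gk l ≤ 3 / 2 := by
  rw [gk_prime hl]
  have h3 : (3 : ℝ) ≤ l := by
    have := hl.two_le
    exact_mod_cast (by omega : 3 ≤ l)
  have h4 : (2 : ℝ) / 3 ≤ 1 - 1 / l := by
    have : (1 : ℝ) / l ≤ 1 / 3 := one_div_le_one_div_of_le (by norm_num) h3
    linarith
  have h5 := inv_anti₀ (by norm_num : (0 : ℝ) < 2 / 3) h4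
  calc (1 - (1 : ℝ) / l)⁻¹ ≤ ((2 : ℝ) / 3)⁻¹ := h5
    _ = 3 / 2 := by norm_num

lemma gk_nn (k : ℕ) : 0 ≤ gk k :=
  zero_le_one.trans (EP_one fun _ hq => Nat.prime_of_mem_primeFactors hq)

lemma gk_two : gk 2 = 2 := by
  rw [gk_prime Nat.prime_two]
  norm_num

end GKBx

open GKBx in
theorem GKB_thm : Stmt_GKB := by
  intro c d hc hd
  have hcd : 1 ≤ c * d := Nat.mul_pos hc hd
  have h1 : gk (2 * (c * d)) ≤ 4 * ((c : ℝ) * d) ^ (1 / 4 : ℝ) := by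
    have h2 := gk_mul (a := 2) (b := c * d) (by norm_num) (by omega)
    have h3 := gk_le hcd
    rw [gk_two] at h2
    push_cast at h3
    linarith
  refine ⟨h1, ?_⟩
  intro l p l' hl hp hl' h2l h2p h2l'
  have a1 := gk_mul (a := 2 * (c * d)) (b := l * p * l') (by omega)
    (mul_ne_zero (mul_ne_zero hl.ne_zero hp.ne_zero) hl'.ne_zero)
  have a2 := gk_mul (a := l * p) (b := l') (mul_ne_zero hl.ne_zero hp.ne_zero) hl'.ne_zero
  have a3 := gk_mul (a := l) (b := p) hl.ne_zero hp.ne_zero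
  have b1 := gk_odd hl h2l
  have b2 := gk_odd hp h2p
  have b3 := gk_odd hl' h2l'
  have n1 := gk_nn l
  have n2 := gk_nn p
  have n3 := gk_nn l'
  have n4 := gk_nn (l * p)
  have n5 := gk_nn (l * p * l')
  have n6 := gk_nn (2 * (c * d))
  have c1 : gk l * gk p ≤ 3 / 2 * (3 / 2) := mul_le_mul b1 b2 n2 (by norm_num)
  have c2 : gk (l * p) * gk l' ≤ 3 / 2 * (3 / 2) * (3 / 2) :=
    mul_le_mul (a3.trans c1) b3 n3 (by norm_num)
  have c3 : gk (l * p * l') ≤ 27 / 8 := by linarith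
  have n7 : 0 ≤ ((c : ℝ) * d) ^ (1 / 4 : ℝ) := Real.rpow_nonneg (by positivity) _
  have c4 : gk (2 * (c * d)) * gk (l * p * l') ≤ 4 * ((c : ℝ) * d) ^ (1 / 4 : ℝ) * (27 / 8) :=
    mul_le_mul h1 c3 n5 (by positivity)
  linarith

end Pool.Agent.ADG
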