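import Pool.Agent.ADG.St4

/-!
# Project ADG, part 4, module GRT: the additive form of (GRP) for `n = 1 mod 4`
-/

set_option autoImplicit false

namespace Pool.Agent.ADG

open Finset Pool.Agent.ADS

namespace GRTm

/-- the product of the quadratic characters -/
lemma prod_char {l r : ℕ} [Fact l.Prime] (s : Fin r → ℕ) (hs : ∀ i, ((s i : ℕ) : ZMod l) ≠ 0) :
    open Classical in
    quadraticChar (ZMod l) (∏ i, ((s i : ℕ) : ZMod l)) =
      (-1) ^ (univ.filter (fun i => ¬ IsSquare ((s i : ℕ) : ZMod l))).card := by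
  classical
  rw [map_prod]
  have h1 : ∀ i, quadraticChar (ZMod l) ((s i : ℕ) : ZMod l) =
      if ¬ IsSquare ((s i : ℕ) : ZMod l) then -1 else 1 := by
    intro i
    by_cases h : IsSquare ((s i : ℕ) : ZMod l)
    · rw [if_neg (not_not.2 h)]
      exact (quadraticChar_one_iff_isSquare (hs i)).2 h
    · rw [if_pos h]
      exact quadraticChar_neg_one_iff_not_isSquare.2 h
  rw [Finset.prod_congr rfl (fun i _ => h1 i), Finset.prod_ite, Finset.prod_const,
    Finset.prod_const, one_pow, mul_one]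

lemma sum_th {l r : ℕ} (s : Fin r → ℕ) :
    open Classical in
    ∑ i, th l (s i) =
      ((univ.filter (fun i => ¬ IsSquare ((s i : ℕ) : ZMod l))).card : ℚ) := by
  classical
  have h1 : ∀ i, th l (s i) = if ¬ IsSquare ((s i : ℕ) : ZMod l) then (1 : ℚ) else 0 := by
    intro i
    unfold th
    by_cases h : IsSquare ((s i : ℕ) : ZMod l)
    · rw [if_pos h, if_neg (not_not.2 h)]
    · rw [if_neg h, if_pos h]
  rw [Finset.sum_congr rfl (fun i _ => h1 i), Finset.sum_boole]

end GRTm

open GRTm in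
theorem GRT_thm (h1 : Stmt_GRP) (h2 : Stmt_INV) (h3 : Stmt_SY2) (h4 : Stmt_DCL) : Stmt_GRT := by
  classical
  intro G _ _ n N D hD hn l hl hodd H
  obtain ⟨r, x, m, hx, hm, hsum, hsq⟩ := h1 G n N D hD H
  obtain ⟨heven, hsq'⟩ := hsq l hl hodd
  have hdc := (h4 G N H).1 r x hx
  obtain ⟨-, -, hinv, -⟩ := h2 G n N D hD
  have hdvd : l ∣ n := by
    by_contra hcon
    rw [Nat.factorization_eq_zero_of_not_dvd hcon] at hodd
    exact absurd hodd (by decide)
  constructor
  · have h5 := hdc (fun _ => 1) (fun _ _ _ _ _ => rfl)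
    rw [h5]
    obtain ⟨k, hk⟩ := heven
    refine ⟨(k : ℤ), ?_⟩
    rw [Finset.sum_const, Finset.card_univ, Fintype.card_fin, nsmul_eq_mul, mul_one]
    have h6 : (H.index : ℚ) + r = k + k := by exact_mod_cast hk
    push_cast
    linarith
  · have h5 := hdc (fun y => th l (sta N H y)) (fun a ha k hk y => by
      show th l (sta N H (a * y * k)) = th l (sta N H y)
      rw [hinv H y a ha k hk])
    rw [h5, sum_th (fun i => sta N H (x i))]
    have hfl : Fact l.Prime := ⟨hl⟩
    have hl4 : l % 4 = 1 := by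
      rcases (h3 G n N D hD l hl hodd).1 (Or.inl hn) with h6 | h6
      · rw [h6] at hdvd
        omega
      · exact h6
    have hns : ∀ i, ((sta N H (x i) : ℕ) : ZMod l) ≠ 0 := by
      intro i h0
      rw [ZMod.natCast_eq_zero_iff] at h0
      have h6 : l ∣ n - 1 := by
        rw [← hm i]
        exact Dvd.dvd.mul_right h0 _
      have h7 : l ∣ n - (n - 1) := Nat.dvd_sub hdvd h6
      have h8 : n - (n - 1) = 1 := by omega
      rw [h8, Nat.dvd_one] at h7
      exact hl.one_lt.ne' h7
    have hneg : IsSquare (-1 : ZMod l) := ZMod.exists_sq_eq_neg_one_iff.2 (by omega)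
    have hprod : (∏ i, ((sta N H (x i) : ℕ) : ZMod l)) ≠ 0 :=
      Finset.prod_ne_zero_iff.2 fun i _ => hns i
    have hsq2 : IsSquare (∏ i, ((sta N H (x i) : ℕ) : ZMod l)) := by
      have h6 : IsSquare ((-1 : ZMod l) ^ ((H.index + r) / 2)) := hneg.pow _
      have h7 := h6.mul hsq'
      rw [← mul_assoc, ← mul_pow] at h7
      rw [show (-1 : ZMod l) * -1 = 1 by ring, one_pow, one_mul] at h7
      exact h7
    have h8 := (quadraticChar_one_iff_isSquare hprod).2 hsq2
    rw [prod_char (fun i => sta N H (x i)) hns] at h8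
    have h9 := (neg_one_pow_eq_one_iff_even (R := ℤ) (by norm_num)).1 h8
    obtain ⟨k, hk⟩ := h9
    refine ⟨(k : ℤ), ?_⟩
    have h10 : ∀ c : ℕ, c = k + k → (c : ℚ) = 2 * ((k : ℤ) : ℚ) := by
      intro c hc
      rw [hc]
      push_cast
      ring
    refine h10 _ ?_
    convert hk

end Pool.Agent.ADG
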