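import Pool.Agent.ADG.St3

/-!
# ADG: the lower bounds for the sieve sums in part 3 (helper37)
-/

set_option autoImplicit false

namespace Pool.Agent.ADG

open Finset

namespace LBBm

theorem fac_ge {q : ℕ} (hq : q.Prime) : 1 ≤ (1 - (1 : ℝ) / q)⁻¹ := by
  have h1 : (2 : ℝ) ≤ q := by exact_mod_cast hq.two_le
  have h2 : (1 : ℝ) / q ≤ 1 / 2 := one_div_le_one_div_of_le (by norm_num) h1
  have h3 : (0 : ℝ) ≤ 1 / q := by positivity
  rw [one_le_inv₀ (by linarith)]
  linarith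

theorem EP_ge {A : Finset ℕ} (hA : ∀ q ∈ A, q.Prime) : 1 ≤ EP A := by
  unfold EP
  refine Finset.prod_induction _ (fun x : ℝ => 1 ≤ x) (fun a b ha hb => ?_) le_rfl
    (fun q hq => fac_ge (hA q hq))
  nlinarith

theorem EP_mono {A B : Finset ℕ} (h : A ⊆ B) (hB : ∀ q ∈ B, q.Prime) : EP A ≤ EP B := by
  classical
  have h1 : EP B = EP (B \ A) * EP A := by
    unfold EP
    exact (Finset.prod_sdiff h).symm
  have h2 : 1 ≤ EP (B \ A) := EP_ge (fun q hq => hB q (Finset.mem_sdiff.1 hq).1)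
  have h3 : 1 ≤ EP A := EP_ge (fun q hq => hB q (h hq))
  rw [h1]
  nlinarith

theorem EP_union {A B : Finset ℕ} (hA : ∀ q ∈ A, q.Prime) (hB : ∀ q ∈ B, q.Prime) :
    EP (A ∪ B) ≤ EP A * EP B := by
  classical
  have h1 : EP (A ∪ B) * EP (A ∩ B) = EP A * EP B := by
    unfold EP
    exact Finset.prod_union_inter
  have h2 : 1 ≤ EP (A ∩ B) := EP_ge (fun q hq => hA q (Finset.mem_inter.1 hq).1)
  have h3 : 1 ≤ EP (A ∪ B) := EP_ge (fun q hq => by
    rcases Finset.mem_union.1 hq with h | h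
    · exact hA q h
    · exact hB q h)
  rw [← h1]
  nlinarith

theorem core (h1 : Stmt_RSU)
    (h21 : ∀ (A : Finset ℕ) (z : ℕ), (∀ q ∈ A, q.Prime) → RSm A z ≤ EP A)
    {C D θ : ℝ} (hC : 1 ≤ C) (hD : 1 ≤ D) (hθ0 : 0 ≤ θ) (hθ1 : θ ≤ 1)
    (h24 : ∀ a z : ℕ, 2 ≤ a → a ≤ z →
      EP ((Ioc a z).filter Nat.Prime) ≤ C * (Real.log z / Real.log a))
    {w y z k : ℕ} {χ χ' : ℕ → ℝ} (hy : 2 ≤ y) (hyw : y ≤ w) (hwz : w ≤ z) (hk : 1 ≤ k)
    (hA : (4 * w ^ 2) ^ 8 < z → ∀ A : Finset ℕ,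
      (∀ q, q ∈ A ↔ q ∈ Ioc ((4 * w ^ 2) ^ 8) z ∧ (q.Prime ∧ χ q = 1 ∧ χ' q = 1)) →
      EP A ≤ D * (Real.log z / Real.log (((4 * w ^ 2) ^ 8 : ℕ) : ℝ)) ^ (1 - θ)) :
    1 / (32 * C * D) * Real.log y * (Real.log z / Real.log w) ^ θ ≤
      gk k * RSm (Good y ((4 * w ^ 2) ^ 8) z k χ χ') z := by
  classical
  obtain ⟨hsub, hmono, hone, hlog, hb, C0, hC0, hT, hA0⟩ := h1
  set Q : ℕ := (4 * w ^ 2) ^ 8 with hQdef
  have hw2 : 2 ≤ w := hy.trans hyw
  have hz2 : 2 ≤ z := hw2.trans hwz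
  have hwQ : w ≤ Q := by
    have h1 : w ≤ 4 * w ^ 2 := by nlinarith
    exact h1.trans (Nat.le_self_pow (by norm_num) _)
  have hLy : 0 < Real.log y := Real.log_pos (by exact_mod_cast (by omega : 1 < y))
  have hLw : 0 < Real.log w := Real.log_pos (by exact_mod_cast (by omega : 1 < w))
  have hLz : 0 < Real.log z := Real.log_pos (by exact_mod_cast (by omega : 1 < z))
  have hLwz : Real.log w ≤ Real.log z :=
    Real.log_le_log (by exact_mod_cast (by omega : 0 < w)) (by exact_mod_cast hwz)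
  have hLwQ : Real.log w ≤ Real.log (Q : ℝ) :=
    Real.log_le_log (by exact_mod_cast (by omega : 0 < w)) (by exact_mod_cast hwQ)
  have hLQ : 0 < Real.log (Q : ℝ) := hLw.trans_le hLwQ
  have hLQ32 : Real.log (Q : ℝ) ≤ 32 * Real.log w := by
    have hw0 : (0 : ℝ) < w := by exact_mod_cast (by omega : 0 < w)
    have h1 : (Q : ℝ) = (4 * (w : ℝ) ^ 2) ^ 8 := by
      rw [hQdef]
      push_cast
      ring
    have h2 : Real.log (4 : ℝ) = 2 * Real.log 2 := by
      rw [show (4 : ℝ) = 2 ^ 2 by norm_num, Real.log_pow]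
      norm_num
    have h3 : Real.log 2 ≤ Real.log w :=
      Real.log_le_log (by norm_num) (by exact_mod_cast hw2)
    rw [h1, Real.log_pow, Real.log_mul (by norm_num) (by positivity), Real.log_pow, h2]
    push_cast
    linarith
  set P : Finset ℕ := Good y Q z k χ χ' with hPdef
  have hP : ∀ q, q ∈ P ↔ q ∈ Icc 1 z ∧ (q.Prime ∧ ¬ q ∣ k ∧
      (q ≤ y ∨ (Q < q ∧ ¬ (χ q = 1 ∧ χ' q = 1)))) := by
    intro q
    rw [hPdef]
    unfold Good
    exact Finset.mem_filter
  let P' : Finset ℕ := (Icc 1 z).filter (fun q => q.Prime ∧ q ∉ P)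
  let A1 : Finset ℕ := (Ioc y (min Q z)).filter Nat.Prime
  let A2 : Finset ℕ := (Ioc Q z).filter (fun q => q.Prime ∧ χ q = 1 ∧ χ' q = 1)
  have hA1p : ∀ q ∈ A1, q.Prime := fun q hq => (Finset.mem_filter.1 hq).2
  have hA2p : ∀ q ∈ A2, q.Prime := fun q hq => (Finset.mem_filter.1 hq).2.1
  have hKp : ∀ q ∈ k.primeFactors, q.Prime := fun q hq => Nat.prime_of_mem_primeFactors hq
  have hP'p : ∀ q ∈ P', q.Prime := fun q hq => (Finset.mem_filter.1 hq).2.1
  have hcov : Real.log z ≤ RSm P z * RSm P' z := hlog P P' z (by omega) (fun q hq hqz => by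
    rw [Finset.mem_union]
    by_cases h : q ∈ P
    · exact Or.inl h
    · exact Or.inr (Finset.mem_filter.2 ⟨Finset.mem_Icc.2 ⟨hq.one_le, hqz⟩, hq, h⟩))
  have hsubset : P' ⊆ k.primeFactors ∪ (A1 ∪ A2) := by
    intro q hq
    obtain ⟨hqI, hqp, hqP⟩ := Finset.mem_filter.1 hq
    have hqz := (Finset.mem_Icc.1 hqI).2
    rw [hP] at hqP
    simp only [Finset.mem_union]
    by_cases h1 : q ∣ k
    · exact Or.inl (Nat.mem_primeFactors.2 ⟨hqp, h1, by omega⟩)
    have h4 : ¬ (q ≤ y ∨ (Q < q ∧ ¬ (χ q = 1 ∧ χ' q = 1))) := fun h => hqP ⟨hqI, hqp, h1, h⟩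
    obtain ⟨h5, h6⟩ := not_or.1 h4
    by_cases h7 : Q < q
    · have h8 : χ q = 1 ∧ χ' q = 1 := by
        by_contra h
        exact h6 ⟨h7, h⟩
      exact Or.inr (Or.inr (Finset.mem_filter.2 ⟨Finset.mem_Ioc.2 ⟨h7, hqz⟩, hqp, h8⟩))
    · exact Or.inr (Or.inl (Finset.mem_filter.2
        ⟨Finset.mem_Ioc.2 ⟨not_le.1 h5, le_min (not_lt.1 h7) hqz⟩, hqp⟩))
  have hP0 : 0 ≤ RSm P z := zero_le_one.trans (hone P z (by omega))
  have hg : 1 ≤ gk k := EP_ge hKp
  have hE1 : 1 ≤ EP A1 := EP_ge hA1p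
  have hE2 : 1 ≤ EP A2 := EP_ge hA2p
  have hA12p : ∀ q ∈ A1 ∪ A2, q.Prime := fun q hq => by
    rcases Finset.mem_union.1 hq with h | h
    · exact hA1p q h
    · exact hA2p q h
  have hEP' : EP P' ≤ gk k * (EP A1 * EP A2) := by
    refine (EP_mono hsubset (fun q hq => ?_)).trans ?_
    · rcases Finset.mem_union.1 hq with h | h
      · exact hKp q h
      · exact hA12p q h
    · refine (EP_union hKp hA12p).trans ?_
      exact mul_le_mul_of_nonneg_left (EP_union hA1p hA2p) (zero_le_one.trans hg)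
  have hmain : Real.log z ≤ (gk k * RSm P z) * (EP A1 * EP A2) := by
    calc Real.log z ≤ RSm P z * RSm P' z := hcov
      _ ≤ RSm P z * (gk k * (EP A1 * EP A2)) :=
        mul_le_mul_of_nonneg_left ((h21 P' z hP'p).trans hEP') hP0
      _ = (gk k * RSm P z) * (EP A1 * EP A2) := by ring
  have hgP : 0 ≤ gk k * RSm P z := mul_nonneg (zero_le_one.trans hg) hP0
  set t : ℝ := Real.log z / Real.log w with ht
  have ht1 : 1 ≤ t := (one_le_div hLw).2 hLwz
  have ht0 : 0 < t := by linarith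
  have h32 : (32 : ℝ) ^ θ ≤ 32 := by
    calc (32 : ℝ) ^ θ ≤ (32 : ℝ) ^ (1 : ℝ) :=
          Real.rpow_le_rpow_of_exponent_le (by norm_num) hθ1
      _ = 32 := Real.rpow_one _
  by_cases hQz : Q < z
  · -- the case `Q < z`
    have hmin : min Q z = Q := min_eq_left hQz.le
    have hA1 : EP A1 ≤ C * (Real.log (Q : ℝ) / Real.log y) := by
      have := h24 y Q hy (hyw.trans hwQ)
      show EP ((Ioc y (min Q z)).filter Nat.Prime) ≤ _
      rw [hmin]
      exact this
    have hA2 : EP A2 ≤ D * (Real.log z / Real.log (Q : ℝ)) ^ (1 - θ) :=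
      hA hQz A2 (fun q => Finset.mem_filter)
    set s : ℝ := Real.log z / Real.log (Q : ℝ) with hs
    have hs0 : 0 < s := div_pos hLz hLQ
    have hsθ : s ^ θ * s ^ (1 - θ) = s := by
      rw [← Real.rpow_add hs0]
      simp
    have hs1 : 0 < s ^ (1 - θ) := Real.rpow_pos_of_pos hs0 _
    have hst : t ≤ 32 * s := by
      rw [ht, hs, div_le_iff₀ hLw]
      have h1 : 32 * (Real.log z / Real.log (Q : ℝ)) * Real.log w =
          Real.log z * (32 * Real.log w) / Real.log (Q : ℝ) := by ring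
      rw [h1, le_div_iff₀ hLQ]
      exact mul_le_mul_of_nonneg_left hLQ32 hLz.le
    have hstθ : t ^ θ ≤ 32 * s ^ θ := by
      calc t ^ θ ≤ (32 * s) ^ θ := Real.rpow_le_rpow ht0.le hst hθ0
        _ = 32 ^ θ * s ^ θ := Real.mul_rpow (by norm_num) hs0.le
        _ ≤ 32 * s ^ θ := mul_le_mul_of_nonneg_right h32 (Real.rpow_nonneg hs0.le _)
    let R : ℝ := (C * (Real.log (Q : ℝ) / Real.log y)) * (D * s ^ (1 - θ))
    have hR : 0 < R := by
      show 0 < (C * (Real.log (Q : ℝ) / Real.log y)) * (D * s ^ (1 - θ))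
      positivity
    have h5 : EP A1 * EP A2 ≤ R :=
      mul_le_mul hA1 hA2 (zero_le_one.trans hE2) (by positivity)
    have h6 : Real.log z ≤ (gk k * RSm P z) * R :=
      hmain.trans (mul_le_mul_of_nonneg_left h5 hgP)
    refine le_of_mul_le_mul_right ?_ hR
    refine le_trans ?_ h6
    calc 1 / (32 * C * D) * Real.log y * t ^ θ * R
        ≤ 1 / (32 * C * D) * Real.log y * (32 * s ^ θ) * R := by
          refine mul_le_mul_of_nonneg_right ?_ hR.le
          exact mul_le_mul_of_nonneg_left hstθ (by positivity)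
      _ = Real.log (Q : ℝ) * (s ^ θ * s ^ (1 - θ)) := by
          show 1 / (32 * C * D) * Real.log y * (32 * s ^ θ) *
            ((C * (Real.log (Q : ℝ) / Real.log y)) * (D * s ^ (1 - θ))) = _
          have hC' : C ≠ 0 := by positivity
          have hD' : D ≠ 0 := by positivity
          field_simp
      _ = Real.log z := by
          rw [hsθ, hs]
          field_simp
  · -- the case `z ≤ Q`
    have hQz' : z ≤ Q := not_lt.1 hQz
    have hmin : min Q z = z := min_eq_right hQz'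
    have hA1 : EP A1 ≤ C * (Real.log z / Real.log y) := by
      have := h24 y z hy (hyw.trans hwz)
      show EP ((Ioc y (min Q z)).filter Nat.Prime) ≤ _
      rw [hmin]
      exact this
    have hA2e : A2 = ∅ := by
      refine Finset.eq_empty_of_forall_notMem (fun q hq => ?_)
      have h := Finset.mem_Ioc.1 (Finset.mem_filter.1 hq).1
      omega
    have hA2 : EP A2 = 1 := by
      rw [hA2e]
      unfold EP
      simp
    have hLzQ : Real.log z ≤ Real.log (Q : ℝ) :=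
      Real.log_le_log (by exact_mod_cast (by omega : 0 < z)) (by exact_mod_cast hQz')
    have ht32 : t ≤ 32 := by
      rw [ht, div_le_iff₀ hLw]
      linarith
    have htθ : t ^ θ ≤ 32 := (Real.rpow_le_rpow ht0.le ht32 hθ0).trans h32
    have h6 : Real.log z ≤ (gk k * RSm P z) * (C * (Real.log z / Real.log y)) := by
      refine hmain.trans (mul_le_mul_of_nonneg_left ?_ hgP)
      rw [hA2, mul_one]
      exact hA1
    have hR : 0 < C * (Real.log z / Real.log y) := by positivity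
    refine le_of_mul_le_mul_right ?_ hR
    refine le_trans ?_ h6
    calc 1 / (32 * C * D) * Real.log y * t ^ θ * (C * (Real.log z / Real.log y))
        ≤ 1 / (32 * C * D) * Real.log y * 32 * (C * (Real.log z / Real.log y)) := by
          refine mul_le_mul_of_nonneg_right ?_ hR.le
          exact mul_le_mul_of_nonneg_left htθ (by positivity)
      _ = Real.log z / D := by
          have hC' : C ≠ 0 := by positivity
          have hD' : D ≠ 0 := by positivity
          field_simp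
      _ ≤ Real.log z := div_le_self hLz.le hD

end LBBm

open LBBm in
theorem LBB_thm (h1 : Stmt_RSU) (h2 : Stmt_EPP) (h3 : Stmt_RO2) (h4 : Stmt_RO4) : Stmt_LBB := by
  classical
  obtain ⟨h21, C, hC, _, _, h24⟩ := h2
  obtain ⟨D2, hD2, hro2⟩ := h3
  obtain ⟨D4, hD4, hro4⟩ := h4
  have hD : 1 ≤ 1 + D2 + D4 := by linarith
  refine ⟨1 / (32 * C * (1 + D2 + D4)), by positivity, ?_, ?_⟩
  · intro m χ hχ w y z k hm hmw hy hyw hwz hk
    refine core h1 h21 hC hD (by norm_num) (by norm_num) (fun a z ha haz => (h24 a z ha haz).1)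
      hy hyw hwz hk ?_
    intro hQz A hA
    have hm8 : m ^ 8 ≤ (4 * w ^ 2) ^ 8 := Nat.pow_le_pow_left hmw 8
    have h := hro2 m χ hχ ((4 * w ^ 2) ^ 8) z hm hm8 hQz
    have hAe : A = (Ioc ((4 * w ^ 2) ^ 8) z).filter (fun q => q.Prime ∧ χ q = 1) := by
      ext q
      rw [hA, Finset.mem_filter]
      tauto
    rw [hAe]
    have h' : EP ((Ioc ((4 * w ^ 2) ^ 8) z).filter (fun q => q.Prime ∧ χ q = 1)) ≤
        D2 * (Real.log z / Real.log (((4 * w ^ 2) ^ 8 : ℕ) : ℝ)) ^ (1 / 2 : ℝ) := by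
      convert h using 3
    refine h'.trans ?_
    have e1 : (1 : ℝ) - 1 / 2 = 1 / 2 := by norm_num
    rw [e1]
    refine mul_le_mul_of_nonneg_right (by linarith) (Real.rpow_nonneg ?_ _)
    exact div_nonneg (Real.log_natCast_nonneg _) (Real.log_natCast_nonneg _)
  · intro m m' m'' χ χ' hχ hχ' hχ'' w y z k hm hm' hm'' hmw hmw' hmw'' hne hy hyw hwz hk
    refine core h1 h21 hC hD (by norm_num) (by norm_num) (fun a z ha haz => (h24 a z ha haz).1)
      hy hyw hwz hk ?_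
    intro hQz A hA
    have h := hro4 m m' m'' χ χ' hχ hχ' hχ'' ((4 * w ^ 2) ^ 8) z hm hm' hm''
      (Nat.pow_le_pow_left hmw 8) (Nat.pow_le_pow_left hmw' 8) (Nat.pow_le_pow_left hmw'' 8)
      hQz hne
    have hAe : A = (Ioc ((4 * w ^ 2) ^ 8) z).filter
        (fun q => q.Prime ∧ χ q = 1 ∧ χ' q = 1) := by
      ext q
      rw [hA, Finset.mem_filter]
    rw [hAe]
    have h' : EP ((Ioc ((4 * w ^ 2) ^ 8) z).filter (fun q => q.Prime ∧ χ q = 1 ∧ χ' q = 1)) ≤
        D4 * (Real.log z / Real.log (((4 * w ^ 2) ^ 8 : ℕ) : ℝ)) ^ (1 / 4 : ℝ) := by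
      convert h using 3
    refine h'.trans ?_
    have e1 : (1 : ℝ) - 3 / 4 = 1 / 4 := by norm_num
    rw [e1]
    refine mul_le_mul_of_nonneg_right (by linarith) (Real.rpow_nonneg ?_ _)
    exact div_nonneg (Real.log_natCast_nonneg _) (Real.log_natCast_nonneg _)

end Pool.Agent.ADG
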