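import Pool.Agent.ADG.St4

/-! # Project ADG, module ADG_MST: existence of the data `PD` and of complements -/

set_option autoImplicit false

namespace Pool.Agent.ADG

open Finset Pool.Agent.ADS

namespace MSTx

/-- the kernel of `g ↦ α(g)^k` -/
def KR {M C : Type} [Group M] [CommGroup C] (α : M →* C) (k : ℕ) : Subgroup M :=
  ((powMonoidHom k).comp α).ker

lemma mem_KR {M C : Type} [Group M] [CommGroup C] (α : M →* C) (k : ℕ) (g : M) :
    g ∈ KR α k ↔ α g ^ k = 1 := Iff.rfl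

lemma card_eq {M C : Type} [Group M] [Group C] [Finite M] (β : M →* C) :
    Nat.card M = Nat.card β.range * Nat.card β.ker := by
  rw [← β.ker.card_mul_index, Subgroup.index_ker, mul_comm]

lemma odd_idx {M C : Type} [Group M] [Finite M] [CommGroup C] [Finite C] (α : M →* C)
    (k o : ℕ) (hC : Nat.card C = k * o) (ho : Odd o) :
    ∃ a, Odd a ∧ Nat.card M = a * Nat.card (KR α k) := by
  refine ⟨_, ?_, card_eq ((powMonoidHom k).comp α)⟩
  rw [← Nat.not_even_iff_odd, even_iff_two_dvd]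
  intro h2
  haveI : Fact (Nat.Prime 2) := ⟨Nat.prime_two⟩
  obtain ⟨y, hy⟩ := exists_prime_orderOf_dvd_card' (G := ((powMonoidHom k).comp α).range) 2 h2
  obtain ⟨x, hx⟩ := y.2
  have h3 : y ^ o = 1 := by
    apply Subtype.ext
    rw [SubmonoidClass.coe_pow, ← hx]
    show (α x ^ k) ^ o = 1
    rw [← pow_mul, ← hC]
    exact pow_card_eq_one'
  have h4 : 2 ∣ o := by
    rw [← hy]
    exact orderOf_dvd_of_pow_eq_one h3
  exact (Nat.not_even_iff_odd.2 ho) (even_iff_two_dvd.2 h4)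

lemma idx_two {M C : Type} [Group M] [Finite M] [CommGroup C] [Finite C] (α : M →* C)
    (k : ℕ) (c : C) (hc : ∀ x : C, x ^ 2 = 1 → x = 1 ∨ x = c) :
    Nat.card (KR α (k * 2)) = Nat.card (KR α k) ∨
      Nat.card (KR α (k * 2)) = 2 * Nat.card (KR α k) := by
  let χ : KR α (k * 2) →* C := ((powMonoidHom k).comp α).comp (KR α (k * 2)).subtype
  have hle : KR α k ≤ KR α (k * 2) := by
    intro g hg
    rw [mem_KR] at hg ⊢
    rw [pow_mul, hg, one_pow]
  have h1 : χ.ker = (KR α k).subgroupOf (KR α (k * 2)) := by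
    ext g
    rw [MonoidHom.mem_ker, Subgroup.mem_subgroupOf, mem_KR]
    exact Iff.rfl
  have h2 : Nat.card χ.ker = Nat.card (KR α k) := by
    rw [h1]
    exact Nat.card_congr (Subgroup.subgroupOfEquivOfLe hle).toEquiv
  have h3 := card_eq χ
  rw [h2] at h3
  have h4 : Nat.card χ.range ≤ 2 := by
    classical
    have h5 : (χ.range : Set C) ⊆ (({1, c} : Finset C) : Set C) := by
      rintro _ ⟨g, rfl⟩
      have h6 : χ g ^ 2 = 1 := by
        show (α g.1 ^ k) ^ 2 = 1
        rw [← pow_mul]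
        exact (mem_KR α _ _).1 g.2
      rcases hc _ h6 with h | h
      · rw [h]; simp
      · rw [h]; simp
    have h7 : Nat.card χ.range ≤ Nat.card (({1, c} : Finset C) : Set C) :=
      Nat.card_mono (Finset.finite_toSet _) h5
    refine h7.trans ?_
    rw [Nat.card_coe_set_eq, Set.ncard_coe_finset]
    exact Finset.card_le_two
  have h5 : 0 < Nat.card χ.range := Nat.card_pos
  have h6 : Nat.card χ.range = 1 ∨ Nat.card χ.range = 2 := by omega
  rcases h6 with h | h
  · left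
    rw [h3, h, one_mul]
  · right
    rw [h3, h]

/-- complements -/
lemma compl {G : Type} [Group G] [Finite G] (P B : Subgroup G) (p : ℕ) (hp : p.Prime)
    (hP : Nat.card P = p) (hPB : P ≤ B) (hB : B ≤ Subgroup.normalizer (P : Set G))
    (hG : ¬ p ^ 2 ∣ Nat.card G) :
    ∃ Y : Subgroup G, Y ≤ B ∧ Nat.card B = p * Nat.card Y ∧ ¬ p ∣ Nat.card Y := by
  haveI : (P.subgroupOf B).Normal := (Subgroup.normal_subgroupOf_iff_le_normalizer hPB).2 hB
  have h1 : Nat.card (P.subgroupOf B) = p := by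
    rw [← hP]
    exact Nat.card_congr (Subgroup.subgroupOfEquivOfLe hPB).toEquiv
  have h2 : Nat.card (P.subgroupOf B) * (P.subgroupOf B).index = Nat.card B :=
    Subgroup.card_mul_index _
  have h3 : ¬ p ∣ (P.subgroupOf B).index := by
    intro h
    apply hG
    refine dvd_trans ?_ (Subgroup.card_subgroup_dvd_card B)
    rw [← h2, h1, pow_two]
    exact mul_dvd_mul_left p h
  have h4 : Nat.Coprime (Nat.card (P.subgroupOf B)) (P.subgroupOf B).index := by
    rw [h1]
    exact (Nat.Prime.coprime_iff_not_dvd hp).2 h3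
  obtain ⟨Y, hY⟩ := Subgroup.exists_right_complement'_of_coprime h4
  have h5 : Nat.card (P.subgroupOf B) * Nat.card Y = Nat.card B := hY.card_mul_card
  have h6 : Nat.card (Y.map B.subtype) = Nat.card Y :=
    (Nat.card_congr (Subgroup.equivMapOfInjective Y B.subtype B.subtype_injective).toEquiv).symm
  refine ⟨Y.map B.subtype, Subgroup.map_subtype_le Y, ?_, ?_⟩
  · rw [h6, ← h5, h1]
  · rw [h6]
    intro h
    apply hG
    refine dvd_trans ?_ (Subgroup.card_subgroup_dvd_card B)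
    rw [← h5, h1, pow_two]
    exact mul_dvd_mul_left p h

end MSTx

open MSTx

/-- (MST) Existence of the data and of complements. -/
theorem MST_thm : Stmt_MST := by
  intro G _ _ n N D hD p hp hp2 hfac
  haveI := Fact.mk hp
  have hn2 : 2 ≤ n := hD.two_le
  have hcN : Nat.card N = n - 1 := hD.card_subgroup
  have hcG : Nat.card G = n ^ 2 - 1 := hD.card_group
  have hn1 : n - 1 ≠ 0 := by omega
  have hp3 : 3 ≤ p := by
    have := hp.two_le
    omega
  have hdvd : p ∣ n - 1 := by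
    by_contra h
    rw [Nat.factorization_eq_zero_of_not_dvd h] at hfac
    omega
  have hnsq : ¬ p ^ 2 ∣ n - 1 := by
    intro h
    have := (hp.pow_dvd_iff_le_factorization hn1).1 h
    omega
  have hG2 : ¬ p ^ 2 ∣ Nat.card G := by
    intro h
    have h1 : n ^ 2 - 1 = (n - 1) * (n + 1) := by
      obtain ⟨m, rfl⟩ : ∃ m, n = m + 1 := ⟨n - 1, by omega⟩
      rw [Nat.add_sub_cancel]
      have : (m + 1) ^ 2 = m * (m + 1 + 1) + 1 := by ring
      omega
    rw [hcG, h1] at h
    have h2 : ¬ p ∣ n + 1 := by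
      intro h3
      have h4 : p ∣ (n + 1) - (n - 1) := Nat.dvd_sub h3 hdvd
      have h5 : (n + 1) - (n - 1) = 2 := by omega
      rw [h5] at h4
      have := Nat.le_of_dvd (by norm_num) h4
      omega
    have h3 : Nat.Coprime (p ^ 2) (n + 1) :=
      Nat.Coprime.pow_left 2 ((Nat.Prime.coprime_iff_not_dvd hp).2 h2)
    exact hnsq (h3.dvd_of_dvd_mul_right h)
  -- the group P
  obtain ⟨y0, hy0⟩ := exists_prime_orderOf_dvd_card' (G := N) p (by rw [hcN]; exact hdvd)
  obtain ⟨P, hPdef⟩ : ∃ P : Subgroup G, P = Subgroup.zpowers (y0 : G) := ⟨_, rfl⟩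
  have hPc : Nat.card P = p := by
    rw [hPdef, Nat.card_zpowers, ← hy0]
    exact Subgroup.orderOf_coe y0
  have hPN : P ≤ N := by
    rw [hPdef, Subgroup.zpowers_le]
    exact y0.2
  haveI hPcyc : IsCyclic P := isCyclic_of_prime_card hPc
  have hPcomm : ∀ a ∈ P, ∀ b ∈ P, a * b = b * a := by
    intro a ha b hb
    letI := IsCyclic.commGroup (α := P)
    exact congrArg Subtype.val (mul_comm (⟨a, ha⟩ : P) ⟨b, hb⟩)
  obtain ⟨M, hM⟩ : ∃ M : Subgroup G, M = Subgroup.normalizer (P : Set G) := ⟨_, rfl⟩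
  have hmM : ∀ g, g ∈ M ↔ ∀ k, k ∈ P ↔ g * k * g⁻¹ ∈ P := by
    intro g
    rw [hM]
    exact Subgroup.mem_normalizer_iff
  have hPM : P ≤ M := by
    rw [hM]
    exact Subgroup.le_normalizer
  -- the number v
  have hp1 : p - 1 ≠ 0 := by omega
  have h2p : 2 ∣ p - 1 := by
    have := hp.odd_of_ne_two hp2
    obtain ⟨k, hk⟩ := this
    exact ⟨k, by omega⟩
  have hf2 : 1 ≤ (p - 1).factorization 2 :=
    (Nat.prime_two.dvd_iff_one_le_factorization hp1).1 h2p
  obtain ⟨v, hv⟩ : ∃ v, (p - 1).factorization 2 = v + 1 := ⟨_, (Nat.sub_add_cancel hf2).symm⟩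
  obtain ⟨o, hoC, hoo⟩ : ∃ o, p - 1 = 2 ^ (v + 1) * o ∧ Odd o := by
    refine ⟨(p - 1) / 2 ^ (p - 1).factorization 2, ?_, ?_⟩
    · rw [← hv, Nat.ordProj_mul_ordCompl_eq_self]
    · rw [← Nat.not_even_iff_odd, even_iff_two_dvd]
      exact Nat.not_dvd_ordCompl Nat.prime_two hp1
  -- the homomorphism
  haveI hQn : (P.subgroupOf M).Normal :=
    (Subgroup.normal_subgroupOf_iff_le_normalizer hPM).2 (le_of_eq hM)
  have hQc : Nat.card (P.subgroupOf M) = p := by
    rw [← hPc]
    exact Nat.card_congr (Subgroup.subgroupOfEquivOfLe hPM).toEquiv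
  haveI hQcyc : IsCyclic (P.subgroupOf M) := isCyclic_of_prime_card hQc
  let α : M →* (ZMod (Nat.card (P.subgroupOf M)))ˣ :=
    ((IsCyclic.mulAutMulEquiv (P.subgroupOf M)).toMonoidHom).comp MulAut.conjNormal
  have hα : ∀ g : M, α g = 1 ↔ ∀ u ∈ P, (g : G) * u = u * g := by
    intro g
    have h1 : α g = 1 ↔ (MulAut.conjNormal g : MulAut (P.subgroupOf M)) = 1 := by
      show (IsCyclic.mulAutMulEquiv (P.subgroupOf M)) (MulAut.conjNormal g) = 1 ↔ _
      exact map_eq_one_iff _ (IsCyclic.mulAutMulEquiv (P.subgroupOf M)).injective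
    rw [h1]
    constructor
    · intro h u hu
      have h2 := congrArg (fun f : MulAut (P.subgroupOf M) =>
        ((f ⟨⟨u, hPM hu⟩, hu⟩ : P.subgroupOf M) : M)) h
      simp only [MulAut.conjNormal_apply, MulAut.one_apply] at h2
      have h3 : (g : G) * u * (g : G)⁻¹ = u := congrArg Subtype.val h2
      rw [mul_inv_eq_iff_eq_mul] at h3
      exact h3
    · intro h
      ext q
      have h2 : (g : G) * ((q : M) : G) = ((q : M) : G) * g := h _ q.2
      rw [MulAut.conjNormal_apply, MulAut.one_apply]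
      show (g : G) * ((q : M) : G) * (g : G)⁻¹ = ((q : M) : G)
      rw [h2]; group
  have hCc : Nat.card (ZMod (Nat.card (P.subgroupOf M)))ˣ = p - 1 := by
    rw [hQc, Nat.card_eq_fintype_card, ZMod.card_units]
  haveI hQne : NeZero (Nat.card (P.subgroupOf M)) := ⟨by rw [hQc]; exact hp.ne_zero⟩
  have hroots : ∀ x : (ZMod (Nat.card (P.subgroupOf M)))ˣ, x ^ 2 = 1 → x = 1 ∨ x = -1 := by
    haveI : Fact (Nat.card (P.subgroupOf M)).Prime := ⟨by rw [hQc]; exact hp⟩
    intro x hx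
    have h1 : ((x : ZMod (Nat.card (P.subgroupOf M)))) ^ 2 = 1 := by
      rw [← Units.val_pow_eq_pow_val, hx, Units.val_one]
    rw [pow_two] at h1
    rcases mul_self_eq_one_iff.1 h1 with h | h
    · exact Or.inl (Units.ext h)
    · exact Or.inr (Units.ext h)
  have hpow : ∀ (k : ℕ) (g : G) (hg : g ∈ M), (⟨g, hg⟩ : M) ∈ KR α k ↔
      ∀ u ∈ P, g ^ k * u = u * g ^ k := by
    intro k g hg
    rw [mem_KR, ← map_pow, hα]
    exact Iff.rfl
  have hmem : ∀ (k : ℕ) (g : G), g ∈ (KR α k).map M.subtype ↔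
      g ∈ M ∧ ∀ u ∈ P, g ^ k * u = u * g ^ k := by
    intro k g
    rw [Subgroup.mem_map]
    constructor
    · rintro ⟨⟨g', hg'⟩, h1, rfl⟩
      exact ⟨hg', (hpow k g' hg').1 h1⟩
    · rintro ⟨h1, h2⟩
      exact ⟨⟨g, h1⟩, (hpow k g h1).2 h2, rfl⟩
  have hcard : ∀ k : ℕ, Nat.card ((KR α k).map M.subtype) = Nat.card (KR α k) := by
    intro k
    exact (Nat.card_congr
      (Subgroup.equivMapOfInjective (KR α k) M.subtype M.subtype_injective).toEquiv).symm
  have hPk : ∀ k : ℕ, P ≤ (KR α k).map M.subtype := by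
    intro k g hg
    rw [hmem]
    exact ⟨hPM hg, fun u hu => hPcomm _ (P.pow_mem hg k) _ hu⟩
  have hkM : ∀ k : ℕ, (KR α k).map M.subtype ≤ Subgroup.normalizer (P : Set G) := by
    intro k
    rw [← hM]
    exact Subgroup.map_subtype_le _
  obtain ⟨Y, hY1, hY2, hY3⟩ := compl P ((KR α (2 ^ (v + 1))).map M.subtype) p hp hPc (hPk _)
    (hkM _) hG2
  obtain ⟨Y', hY1', hY2', hY3'⟩ := compl P ((KR α (2 ^ v)).map M.subtype) p hp hPc (hPk _)
    (hkM _) hG2
  refine ⟨P, M, (KR α (2 ^ (v + 1))).map M.subtype, (KR α (2 ^ v)).map M.subtype, Y, Y', v,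
    ⟨hp, hPc, hPN, by rw [hcN]; exact hnsq, hv, hmM, hmem _, hmem _, ?_, ?_⟩,
    hY1, hY2, hY3, hY1', hY2', hY3'⟩
  · rw [hcard]
    exact odd_idx α (2 ^ (v + 1)) o (by rw [hCc, hoC]) hoo
  · rw [hcard, hcard]
    exact idx_two α (2 ^ v) (-1) hroots

end Pool.Agent.ADG
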