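import Pool.Agent.ADG.St3

/-!
# Project ADG part 3, module PI2 (helper58): the sieve for fixed smallest primes `l < l' < p`, `l`, `l'` primes of `n`, `p` prime of `n - 1`
-/

set_option autoImplicit false

namespace Pool.Agent.ADG

open Finset Pool.Agent.ADS

namespace PI2m

/-- a prime dividing `n` whose square does not divide `n` has exponent one -/
lemma fac_one {n q : ℕ} (hn : n ≠ 0) (hq : q.Prime) (h1 : q ∣ n) (h2 : ¬ q ^ 2 ∣ n) :
    n.factorization q = 1 := by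
  have ha : 1 ≤ n.factorization q := (hq.dvd_iff_one_le_factorization hn).1 h1
  have hb : ¬ 2 ≤ n.factorization q := fun h => h2 ((hq.pow_dvd_iff_le_factorization hn).2 h)
  omega

/-- two elements with the same divisibilities are congruent -/
lemma cong {c d l l' p n n0 : ℕ} (hl : l.Prime) (hl' : l'.Prime) (hp : p.Prime)
    (hll' : l ≠ l') (hlc : ¬ l ∣ c * d) (hlc' : ¬ l' ∣ c * d) (hpc : ¬ p ∣ c * d)
    (hn : 2 ≤ n) (hn0 : 2 ≤ n0) (h1 : c ^ 2 ∣ n) (h2 : d ^ 2 ∣ n - 1) (h3 : l ∣ n) (h4 : l' ∣ n)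
    (h5 : p ∣ n - 1) (k1 : c ^ 2 ∣ n0) (k2 : d ^ 2 ∣ n0 - 1) (k3 : l ∣ n0) (k4 : l' ∣ n0)
    (k5 : p ∣ n0 - 1) : n ≡ n0 [MOD (c ^ 2 * (l * l')) * (d ^ 2 * p)] := by
  have e1 : Nat.Coprime l l' := (Nat.coprime_primes hl hl').2 hll'
  have e2 : Nat.Coprime (c ^ 2) l :=
    Nat.Coprime.pow_left 2 ((hl.coprime_iff_not_dvd).2 fun h => hlc (h.mul_right d)).symm
  have e3 : Nat.Coprime (c ^ 2) l' :=
    Nat.Coprime.pow_left 2 ((hl'.coprime_iff_not_dvd).2 fun h => hlc' (h.mul_right d)).symm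
  have e4 : Nat.Coprime (c ^ 2) (l * l') := Nat.Coprime.mul_right e2 e3
  have e5 : Nat.Coprime (d ^ 2) p :=
    Nat.Coprime.pow_left 2 ((hp.coprime_iff_not_dvd).2 fun h => hpc (h.mul_left c)).symm
  have a1 : c ^ 2 * (l * l') ∣ n := e4.mul_dvd_of_dvd_of_dvd h1 (e1.mul_dvd_of_dvd_of_dvd h3 h4)
  have a2 : c ^ 2 * (l * l') ∣ n0 := e4.mul_dvd_of_dvd_of_dvd k1 (e1.mul_dvd_of_dvd_of_dvd k3 k4)
  have b1 : d ^ 2 * p ∣ n - 1 := e5.mul_dvd_of_dvd_of_dvd h2 h5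
  have b2 : d ^ 2 * p ∣ n0 - 1 := e5.mul_dvd_of_dvd_of_dvd k2 k5
  have hcop : Nat.Coprime (c ^ 2 * (l * l')) (d ^ 2 * p) := by
    refine Nat.Coprime.coprime_dvd_left a2 (Nat.Coprime.coprime_dvd_right b2 ?_)
    have : Nat.Coprime (n0 - 1 + 1) (n0 - 1) := by simp
    rwa [Nat.sub_add_cancel (by omega)] at this
  refine (Nat.modEq_and_modEq_iff_modEq_mul hcop).1 ⟨?_, ?_⟩
  · exact ((Nat.modEq_zero_iff_dvd).2 a1).trans ((Nat.modEq_zero_iff_dvd).2 a2).symm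
  · exact ((Nat.modEq_iff_dvd' (by omega)).2 b1).symm.trans
      ((Nat.modEq_iff_dvd' (by omega)).2 b2)

end PI2m

open Classical in
theorem PI2_thm (h1 : Stmt_S2V) (h2 : Stmt_GKB) (h3 : Stmt_LBB) (h4 : Stmt_RCY) : Stmt_PI2 := by
  obtain ⟨b, hb, hA, hB⟩ := h3
  obtain ⟨χ, ψ, hR⟩ := h4
  refine ⟨196 / b ^ 2, by positivity, ?_⟩
  intro X z c d l l' p hc hd hlp hlp' hll' hl'p
  obtain ⟨hl, hp, hl2, hp2, hlz, hpz, hnlp, hlc, hpc⟩ := hlp
  obtain ⟨hl', -, hl2', -, hlz', -, hnlp', hlc', -⟩ := hlp'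
  have hl22 : 2 ≤ l := hl.two_le
  have hl'2 : 2 ≤ l' := hl'.two_le
  have hl'3 : 2 < l' := lt_of_le_of_ne hl'2 (Ne.symm hl2')
  have hp3 : 2 < p := by omega
  have hlogl : 0 < Real.log l' := Real.log_pos (by exact_mod_cast (by omega : 1 < l'))
  have hlogp : 0 < Real.log p := Real.log_pos (by exact_mod_cast (by omega : 1 < p))
  have hlogz : 0 < Real.log z := Real.log_pos (by exact_mod_cast (by omega : 1 < z))
  have hlR : (0:ℝ) < l := by exact_mod_cast hl.pos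
  have hlR' : (0:ℝ) < l' := by exact_mod_cast hl'.pos
  have hpR : (0:ℝ) < p := by exact_mod_cast hp.pos
  have hcR : (0:ℝ) < c := by exact_mod_cast hc
  have hdR : (0:ℝ) < d := by exact_mod_cast hd
  rcases (T2 X c d l l' p).eq_empty_or_nonempty with hE | ⟨n0, hn0⟩
  · rw [hE, Finset.card_empty, Nat.cast_zero]
    positivity
  -- the sets
  set Q := (4 * p ^ 2) ^ 8 with hQdef
  set k := 2 * (c * d) * (l * p * l') with hk
  have hk1 : 1 ≤ k := by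
    have : 0 < k := by
      have := hl.pos; have := hl'.pos; have := hp.pos
      positivity
    exact this
  have hnd : ∀ q : ℕ, q.Prime → ¬ q ∣ k → q ≠ 2 ∧ q ≠ l ∧ q ≠ l' ∧ q ≠ p ∧ ¬ q ∣ c * d := by
    intro q _ hqk
    refine ⟨?_, ?_, ?_, ?_, ?_⟩
    · rintro rfl; exact hqk (by rw [hk, mul_assoc]; exact Dvd.intro _ rfl)
    · rintro rfl; exact hqk (by rw [hk]; exact Dvd.dvd.mul_left (by rw [mul_assoc]; exact Dvd.intro _ rfl) _)
    · rintro rfl; exact hqk (by rw [hk]; exact Dvd.dvd.mul_left (Dvd.intro_left _ rfl) _)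
    · rintro rfl; exact hqk (by
        rw [hk]; exact Dvd.dvd.mul_left (Dvd.dvd.mul_right (Dvd.intro_left _ rfl) _) _)
    · intro h; exact hqk (by rw [hk]; exact Dvd.dvd.mul_right (Dvd.dvd.mul_left h _) _)
  obtain ⟨hχ, -, hχq, -, -, -⟩ := hR p hp hp2
  obtain ⟨-, hψ, -, hψq, hψ0, hψψ⟩ := hR l hl hl2
  obtain ⟨-, hψ', -, hψq', hψ0', -⟩ := hR l' hl' hl2'
  have hpp : p ≤ p ^ 2 := by nlinarith
  have hlp2 : l ≤ p ^ 2 := by omega
  have hlp2' : l' ≤ p ^ 2 := by omega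
  have hllp : l * l' ≤ p ^ 2 := by nlinarith
  have hQp : p < Q := by
    rw [hQdef]
    have h41 : 1 ≤ 4 * p ^ 2 := by nlinarith
    calc p < 4 * p ^ 2 := by nlinarith
      _ ≤ (4 * p ^ 2) ^ 8 := Nat.le_self_pow (by norm_num) _
  have hR1 := hA (4 * p) (χ p) hχ p l' z k (by omega) (by omega) hl'2 (by omega) hpz hk1
  have hR2 := hB (4 * l) (4 * l') (4 * (l * l')) (ψ l) (ψ l') hψ hψ'
    (hψψ l' hl' hl2' (by omega)).2 p p z k (by omega) (by omega)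
    (by have := Nat.mul_pos hl.pos hl'.pos; omega) (by omega) (by omega) (by omega)
    (fun q hq hQq => ⟨(hψ0 q hq (by omega) (by omega)).2, (hψ0' q hq (by omega) (by omega)).2⟩)
    (by omega) le_rfl hpz hk1
  rw [← hQdef] at hR1 hR2
  set P1 := Good l' Q z k (χ p) (χ p) with hP1
  set P2 := Good p Q z k (ψ l) (ψ l') with hP2
  have hmem1 : ∀ q ∈ P1, q.Prime ∧ ¬ q ∣ k ∧ (q ≤ l' ∨ (Q < q ∧ ¬ (χ p q = 1 ∧ χ p q = 1))) := by
    intro q hq
    rw [hP1, Good, Finset.mem_filter] at hq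
    exact hq.2
  have hmem2 : ∀ q ∈ P2, q.Prime ∧ ¬ q ∣ k ∧ (q ≤ p ∨ (Q < q ∧ ¬ (ψ l q = 1 ∧ ψ l' q = 1))) := by
    intro q hq
    rw [hP2, Good, Finset.mem_filter] at hq
    exact hq.2
  have hT : ∀ n ∈ T2 X c d l l' p, 2 ≤ n ∧ n ≤ X ∧ Base c d n ∧ l ∣ n ∧ l' ∣ n ∧ p ∣ n - 1 ∧
      (∀ q : ℕ, q.Prime → q ≤ l' → ¬ q ∣ k → ¬ q ∣ n) ∧
      ∀ q : ℕ, q.Prime → q ≤ p → ¬ q ∣ k → ¬ q ∣ n - 1 := by
    intro n hn
    rw [T2, Finset.mem_filter, Finset.mem_Icc] at hn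
    exact ⟨hn.1.1, hn.1.2, hn.2⟩
  obtain ⟨m2, mX, ⟨mQ, mc, md, mB⟩, ml, ml', mp, -, -⟩ := hT n0 hn0
  have hmain := h1 X z ((c ^ 2 * (l * l')) * (d ^ 2 * p)) n0 P1 P2 (by omega)
    (by have := hl.pos; have := hl'.pos; have := hp.pos; positivity) (by
      intro q hq
      have hq' : q.Prime ∧ ¬ q ∣ k := by
        rcases Finset.mem_union.1 hq with hq | hq
        · exact ⟨(hmem1 q hq).1, (hmem1 q hq).2.1⟩
        · exact ⟨(hmem2 q hq).1, (hmem2 q hq).2.1⟩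
      obtain ⟨ha, hb'⟩ := hq'
      obtain ⟨c1, c2, c3, c4, c5⟩ := hnd q ha hb'
      refine ⟨ha, c1, fun h => ?_⟩
      rcases (ha.dvd_mul).1 h with h | h
      · rcases (ha.dvd_mul).1 h with h | h
        · exact c5 ((ha.dvd_of_dvd_pow h).mul_right d)
        · rcases (ha.dvd_mul).1 h with h | h
          · exact c2 ((Nat.prime_dvd_prime_iff_eq ha hl).1 h)
          · exact c3 ((Nat.prime_dvd_prime_iff_eq ha hl').1 h)
      · rcases (ha.dvd_mul).1 h with h | h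
        · exact c5 ((ha.dvd_of_dvd_pow h).mul_left c)
        · exact c4 ((Nat.prime_dvd_prime_iff_eq ha hp).1 h)) (T2 X c d l l' p) (by
      intro n hn
      obtain ⟨n2, nX, ⟨nQ, nc, nd, nB⟩, nl, nl', np, n3, n4⟩ := hT n hn
      refine ⟨by omega, nX, ?_, ?_, ?_⟩
      · exact PI2m.cong hl hl' hp (by omega) hlc hlc' hpc n2 m2 nc nd nl nl' np mc md ml ml' mp
      · intro q hq hqn
        obtain ⟨q1, q2, q3⟩ := hmem1 q hq
        obtain ⟨c1, c2, c3, c4, c5⟩ := hnd q q1 q2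
        rcases q3 with h | ⟨-, h⟩
        · exact n3 q q1 h q2 hqn
        · have hsq : χ p q = 1 := by
            rw [← hχq q q1 c4]
            refine nQ q p q1 hp c1 hp2 ?_ ?_
            · rw [PI2m.fac_one (by omega) q1 hqn (nB q q1 c5).1]; exact odd_one
            · exact PI2m.fac_one (by omega) hp np (nB p hp hpc).2
          exact h ⟨hsq, hsq⟩
      · intro q hq hqn
        obtain ⟨q1, q2, q3⟩ := hmem2 q hq
        obtain ⟨c1, c2, c3, c4, c5⟩ := hnd q q1 q2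
        rcases q3 with h | ⟨-, h⟩
        · exact n4 q q1 h q2 hqn
        · have hqf : (n - 1).factorization q = 1 :=
            PI2m.fac_one (by omega) q1 hqn (nB q q1 c5).2
          refine h ⟨?_, ?_⟩
          · rw [← hψq q q1 c1 c2]
            refine nQ l q hl q1 hl2 c1 ?_ hqf
            rw [PI2m.fac_one (by omega) hl nl (nB l hl hlc).1]; exact odd_one
          · rw [← hψq' q q1 c1 c3]
            refine nQ l' q hl' q1 hl2' c1 ?_ hqf
            rw [PI2m.fac_one (by omega) hl' nl' (nB l' hl' hlc').1]; exact odd_one)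
  refine le_trans hmain (add_le_add ?_ le_rfl)
  -- the lower bound for the product
  have hG : gk k ≤ 14 * ((c : ℝ) * d) ^ (1 / 4 : ℝ) :=
    (h2 c d hc hd).2 l p l' hl hp hl' hl2 hp2 hl2'
  set A1 := b * Real.log l' * (Real.log z / Real.log p) ^ (1 / 2 : ℝ) with hA1
  set A2 := b * Real.log p * (Real.log z / Real.log p) ^ (3 / 4 : ℝ) with hA2
  have hA1p : 0 < A1 := by positivity
  have hA2p : 0 < A2 := by positivity
  have hRS1 : 0 ≤ RSm P1 z := by rw [RSm]; positivity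
  have hRS2 : 0 ≤ RSm P2 z := by rw [RSm]; positivity
  have hE1 : A1 ≤ 14 * ((c : ℝ) * d) ^ (1 / 4 : ℝ) * RSm P1 z :=
    hR1.trans (mul_le_mul_of_nonneg_right hG hRS1)
  have hE2 : A2 ≤ 14 * ((c : ℝ) * d) ^ (1 / 4 : ℝ) * RSm P2 z :=
    hR2.trans (mul_le_mul_of_nonneg_right hG hRS2)
  have hcd : (0:ℝ) < (c : ℝ) * d := by positivity
  have hcd4 : ((c : ℝ) * d) ^ (1 / 4 : ℝ) * ((c : ℝ) * d) ^ (1 / 4 : ℝ) =
      ((c : ℝ) * d) ^ (1 / 2 : ℝ) := by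
    rw [← Real.rpow_add hcd]; norm_num
  have hprod : A1 * A2 ≤ 196 * ((c : ℝ) * d) ^ (1 / 2 : ℝ) * (RSm P1 z * RSm P2 z) := by
    refine (mul_le_mul hE1 hE2 hA2p.le (hA1p.le.trans hE1)).trans (le_of_eq ?_)
    rw [← hcd4]; ring
  have hval : A1 * A2 = b ^ 2 * (Real.log l' * (Real.log z) ^ (5 / 4 : ℝ)) /
      (Real.log p) ^ (1 / 4 : ℝ) := by
    have e1 : (Real.log z / Real.log p) ^ (1 / 2 : ℝ) * (Real.log z / Real.log p) ^ (3 / 4 : ℝ) =
        (Real.log z) ^ (5 / 4 : ℝ) / (Real.log p) ^ (5 / 4 : ℝ) := by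
      rw [← Real.rpow_add (by positivity), Real.div_rpow hlogz.le hlogp.le]
      norm_num
    have e2 : (Real.log p) ^ (5 / 4 : ℝ) = Real.log p * (Real.log p) ^ (1 / 4 : ℝ) := by
      have : (5 / 4 : ℝ) = 1 + 1 / 4 := by norm_num
      rw [this, Real.rpow_add hlogp, Real.rpow_one]
    have e3 : A1 * A2 = b ^ 2 * Real.log l' * Real.log p *
        ((Real.log z / Real.log p) ^ (1 / 2 : ℝ) * (Real.log z / Real.log p) ^ (3 / 4 : ℝ)) := by
      rw [hA1, hA2]; ring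
    have hp4 : 0 < (Real.log p) ^ (1 / 4 : ℝ) := Real.rpow_pos_of_pos hlogp _
    rw [e3, e1, e2]
    field_simp
  have hV : 0 < A1 * A2 := mul_pos hA1p hA2p
  have hcd2 : 0 < ((c : ℝ) * d) ^ (1 / 2 : ℝ) := Real.rpow_pos_of_pos hcd _
  have hp4 : 0 < (Real.log p) ^ (1 / 4 : ℝ) := Real.rpow_pos_of_pos hlogp _
  have hz4 : 0 < (Real.log z) ^ (5 / 4 : ℝ) := Real.rpow_pos_of_pos hlogz _
  have hlow : A1 * A2 / (196 * ((c : ℝ) * d) ^ (1 / 2 : ℝ)) ≤ RSm P1 z * RSm P2 z := by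
    rw [div_le_iff₀ (by positivity)]
    linarith
  have hMpos : (0:ℝ) < (((c ^ 2 * (l * l')) * (d ^ 2 * p) : ℕ) : ℝ) := by
    push_cast; positivity
  calc (X : ℝ) / (((c ^ 2 * (l * l')) * (d ^ 2 * p) : ℕ) : ℝ) / (RSm P1 z * RSm P2 z)
      ≤ (X : ℝ) / (((c ^ 2 * (l * l')) * (d ^ 2 * p) : ℕ) : ℝ) /
        (A1 * A2 / (196 * ((c : ℝ) * d) ^ (1 / 2 : ℝ))) := by
        apply div_le_div_of_nonneg_left (by positivity) (by positivity) hlow
    _ = 196 / b ^ 2 * X * ((c : ℝ) * d) ^ (1 / 2 : ℝ) * (Real.log p) ^ (1 / 4 : ℝ) /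
      ((c : ℝ) ^ 2 * d ^ 2 * (l * l' * p * Real.log l' * (Real.log z) ^ (5 / 4 : ℝ))) := by
        rw [hval]
        push_cast
        field_simp

end Pool.Agent.ADG
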