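import Pool.Agent.ADG.St3

/-!
# Project ADG part 3, module PI3: the sieve for the two smallest primes of `n - 1` and the smallest prime of `n`
-/

set_option autoImplicit false

namespace Pool.Agent.ADG

open Finset Pool.Agent.ADS

namespace PI3m

/-- a prime dividing `n` whose square does not divide `n` has exponent one -/
lemma fac_one {n q : ℕ} (hn : n ≠ 0) (hq : q.Prime) (h1 : q ∣ n) (h2 : ¬ q ^ 2 ∣ n) :
    n.factorization q = 1 := by
  have ha : 1 ≤ n.factorization q := (hq.dvd_iff_one_le_factorization hn).1 h1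
  have hb : ¬ 2 ≤ n.factorization q := fun h => h2 ((hq.pow_dvd_iff_le_factorization hn).2 h)
  omega

lemma gk_nonneg (k : ℕ) : 0 ≤ gk k := by
  unfold gk EP
  apply Finset.prod_nonneg
  intro q hq
  have h1 : q.Prime := Nat.prime_of_mem_primeFactors hq
  have h2 : (1 : ℝ) ≤ q := by exact_mod_cast h1.one_lt.le
  have h3 : (1 : ℝ) / q ≤ 1 := by
    rw [div_le_one (by linarith)]
    exact h2
  exact inv_nonneg.2 (by linarith)

lemma RSm_nonneg (P : Finset ℕ) (z : ℕ) : 0 ≤ RSm P z := by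
  unfold RSm
  apply Finset.sum_nonneg
  intro m _
  positivity

end PI3m

open PI3m in
theorem PI3_thm (h1 : Stmt_S2V) (h2 : Stmt_GKB) (h3 : Stmt_LBB) (h4 : Stmt_RCY) : Stmt_PI3 := by
  obtain ⟨c0, hc0, hL1, hL2⟩ := h3
  obtain ⟨χ, ψ, hχψ⟩ := h4
  refine ⟨196 / c0 ^ 2, by positivity, ?_⟩
  intro X z c d p p' l hc hd hok hok' hpp' hp'l
  obtain ⟨hl, hp, hl2, hp2, hlz, hpz, hlp, hlcd, hpcd⟩ := hok
  obtain ⟨-, hp', -, hp'2, -, hp'z, hlp', -, hp'cd⟩ := hok'
  have hz1 : 1 ≤ z := le_trans hl.one_lt.le hlz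
  have hlogp' : 0 < Real.log p' := Real.log_pos (by exact_mod_cast hp'.one_lt)
  have hlogl : 0 < Real.log l := Real.log_pos (by exact_mod_cast hl.one_lt)
  have hlogz : 0 < Real.log z := Real.log_pos (by
    have := hl.one_lt
    exact_mod_cast (by omega : 1 < z))
  have hcR : (0 : ℝ) < c := by exact_mod_cast hc
  have hdR : (0 : ℝ) < d := by exact_mod_cast hd
  have hlR : (0 : ℝ) < l := by exact_mod_cast hl.pos
  have hpR : (0 : ℝ) < p := by exact_mod_cast hp.pos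
  have hp'R : (0 : ℝ) < p' := by exact_mod_cast hp'.pos
  rcases (T3 X c d p p' l).eq_empty_or_nonempty with hemp | ⟨n0, hn0⟩
  · rw [hemp, Finset.card_empty, Nat.cast_zero]
    positivity
  -- the characters
  obtain ⟨rcp, -, sqp, -, -, prp⟩ := hχψ p hp hp2
  obtain ⟨rcp', -, sqp', -, nzp', -⟩ := hχψ p' hp' hp'2
  obtain ⟨-, rcl, -, sql, nzl, -⟩ := hχψ l hl hl2
  obtain ⟨-, -, -, -, nzp, -⟩ := hχψ p hp hp2
  have hpr := (prp p' hp' hp'2 (by omega)).1
  set k : ℕ := 2 * (c * d) * (p * l * p') with hk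
  have hk1 : 1 ≤ k := by
    have : 0 < k := by
      rw [hk]
      have := hp.pos
      have := hl.pos
      have := hp'.pos
      positivity
    exact this
  set Q : ℕ := (4 * l ^ 2) ^ 8 with hQ
  have hlQ : l ≤ Q := by
    have h5 : l ≤ 4 * l ^ 2 := by nlinarith [hl.pos]
    exact h5.trans (Nat.le_self_pow (by norm_num) _)
  set P1 := Good l Q z k (χ p) (χ p') with hP1
  set P2 := Good p' Q z k (ψ l) (ψ l) with hP2
  have hA : c0 * Real.log l * (Real.log z / Real.log l) ^ (3 / 4 : ℝ) ≤ gk k * RSm P1 z := by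
    refine hL2 (4 * p) (4 * p') (4 * (p * p')) (χ p) (χ p') rcp rcp' hpr l l z k ?_ ?_ ?_ ?_ ?_ ?_
      ?_ hl.two_le le_rfl hlz hk1
    · have := hp.two_le
      omega
    · have := hp'.two_le
      omega
    · have h5 : 0 < p * p' := Nat.mul_pos hp.pos hp'.pos
      omega
    · nlinarith [hp.pos, hl.pos]
    · nlinarith [hp'.pos, hl.pos]
    · have h5 : p * p' ≤ l * l := Nat.mul_le_mul (by omega) (by omega)
      nlinarith
    · intro q hq hQq
      have h6 : l < q := lt_of_le_of_lt hlQ hQq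
      have h7 := hl.two_le
      exact ⟨(nzp q hq (by omega) (by omega)).1, (nzp' q hq (by omega) (by omega)).1⟩
  have hB : c0 * Real.log p' * (Real.log z / Real.log l) ^ (1 / 2 : ℝ) ≤ gk k * RSm P2 z := by
    refine hL1 (4 * l) (ψ l) rcl l p' z k ?_ ?_ hp'.two_le hp'l.le hlz hk1
    · have := hl.two_le
      omega
    · nlinarith [hl.pos]
  -- the sieve
  have hnk : ∀ q : ℕ, ¬ q ∣ k → ¬ q ∣ 2 ∧ ¬ q ∣ c ∧ ¬ q ∣ d ∧ ¬ q ∣ c * d ∧ ¬ q ∣ p ∧ ¬ q ∣ p' ∧
      ¬ q ∣ l := by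
    intro q hq
    refine ⟨fun h => hq ?_, fun h => hq ?_, fun h => hq ?_, fun h => hq ?_, fun h => hq ?_,
      fun h => hq ?_, fun h => hq ?_⟩
    · exact (h.mul_right _).mul_right _
    · exact (((h.mul_right d).mul_left 2)).mul_right _
    · exact (((h.mul_left c).mul_left 2)).mul_right _
    · exact (h.mul_left 2).mul_right _
    · exact ((h.mul_right l).mul_right p').mul_left _
    · exact (h.mul_left (p * l)).mul_left _
    · exact ((h.mul_left p).mul_right p').mul_left _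
  have hmem : ∀ n ∈ T3 X c d p p' l, 2 ≤ n ∧ n ≤ X ∧ Base c d n ∧ l ∣ n ∧ p ∣ n - 1 ∧ p' ∣ n - 1 ∧
      (∀ q : ℕ, q.Prime → q ≤ l → ¬ q ∣ k → ¬ q ∣ n) ∧
      ∀ q : ℕ, q.Prime → q ≤ p' → ¬ q ∣ k → ¬ q ∣ n - 1 := by
    intro n hn
    simp only [T3, Finset.mem_filter, Finset.mem_Icc] at hn
    exact ⟨hn.1.1, hn.1.2, hn.2.1, hn.2.2.1, hn.2.2.2.1, hn.2.2.2.2.1, hn.2.2.2.2.2.1,
      hn.2.2.2.2.2.2⟩
  obtain ⟨hn02, -, ⟨-, hc2, hd2, -⟩, hln0, hpn0, hp'n0, -, -⟩ := hmem n0 hn0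
  have hcop01 : Nat.Coprime n0 (n0 - 1) := by
    have h5 : n0 = (n0 - 1) + 1 := by omega
    conv_lhs => rw [h5]
    exact (Nat.coprime_self_add_left.2 (Nat.coprime_one_left _))
  have hcd : Nat.Coprime (c ^ 2) (d ^ 2) := Nat.Coprime.of_dvd hc2 hd2 hcop01
  have ncop : ∀ q : ℕ, q.Prime → ¬ q ∣ c * d → Nat.Coprime (c ^ 2 * d ^ 2) q := by
    intro q hq hqcd
    refine Nat.Coprime.symm ((Nat.Prime.coprime_iff_not_dvd hq).2 ?_)
    intro h
    rcases (hq.dvd_mul).1 h with h | h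
    · exact hqcd ((hq.dvd_of_dvd_pow h).mul_right d)
    · exact hqcd ((hq.dvd_of_dvd_pow h).mul_left c)
  have e1 : Nat.Coprime (c ^ 2 * d ^ 2) p := ncop p hp hpcd
  have e2 : Nat.Coprime (c ^ 2 * d ^ 2) p' := ncop p' hp' hp'cd
  have e3 : Nat.Coprime (c ^ 2 * d ^ 2) l := ncop l hl hlcd
  have e4 : Nat.Coprime p p' := (Nat.coprime_primes hp hp').2 (by omega)
  have e5 : Nat.Coprime p l := (Nat.coprime_primes hp hl).2 (by omega)
  have e6 : Nat.Coprime p' l := (Nat.coprime_primes hp' hl).2 (by omega)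
  set M : ℕ := c ^ 2 * d ^ 2 * (p * p' * l) with hM
  have hMpos : 0 < M := by
    rw [hM]
    have := hp.pos
    have := hl.pos
    have := hp'.pos
    positivity
  have hcong : ∀ n ∈ T3 X c d p p' l, n ≡ n0 [MOD M] := by
    intro n hn
    obtain ⟨hn2, -, ⟨-, hc2', hd2', -⟩, hln, hpn, hp'n, -, -⟩ := hmem n hn
    have z1 : n ≡ n0 [MOD c ^ 2] :=
      ((Nat.modEq_zero_iff_dvd).2 hc2').trans ((Nat.modEq_zero_iff_dvd).2 hc2).symm
    have z2 : n ≡ n0 [MOD l] :=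
      ((Nat.modEq_zero_iff_dvd).2 hln).trans ((Nat.modEq_zero_iff_dvd).2 hln0).symm
    have o : ∀ m a : ℕ, 2 ≤ a → m ∣ a - 1 → a ≡ 1 [MOD m] := fun m a ha h =>
      ((Nat.modEq_iff_dvd' (by omega)).2 h).symm
    have z3 : n ≡ n0 [MOD d ^ 2] := (o _ n hn2 hd2').trans (o _ n0 hn02 hd2).symm
    have z4 : n ≡ n0 [MOD p] := (o _ n hn2 hpn).trans (o _ n0 hn02 hpn0).symm
    have z5 : n ≡ n0 [MOD p'] := (o _ n hn2 hp'n).trans (o _ n0 hn02 hp'n0).symm
    have y1 : n ≡ n0 [MOD c ^ 2 * d ^ 2] := (Nat.modEq_and_modEq_iff_modEq_mul hcd).1 ⟨z1, z3⟩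
    have y2 : n ≡ n0 [MOD p * p'] := (Nat.modEq_and_modEq_iff_modEq_mul e4).1 ⟨z4, z5⟩
    have y3 : n ≡ n0 [MOD p * p' * l] :=
      (Nat.modEq_and_modEq_iff_modEq_mul (Nat.Coprime.mul_left e5 e6)).1 ⟨y2, z2⟩
    exact (Nat.modEq_and_modEq_iff_modEq_mul
      (Nat.Coprime.mul_right (Nat.Coprime.mul_right e1 e2) e3)).1 ⟨y1, y3⟩
  have hmain := h1 X z M n0 P1 P2 hz1 hMpos (by
      intro q hq
      have hq' : q.Prime ∧ ¬ q ∣ k := by
        rw [Finset.mem_union] at hq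
        rcases hq with hq | hq
        · simp only [hP1, Good, Finset.mem_filter, Finset.mem_Icc] at hq
          exact ⟨hq.2.1, hq.2.2.1⟩
        · simp only [hP2, Good, Finset.mem_filter, Finset.mem_Icc] at hq
          exact ⟨hq.2.1, hq.2.2.1⟩
      obtain ⟨hqp, hqk⟩ := hq'
      obtain ⟨a2, ac, ad, acd, ap, ap', al⟩ := hnk q hqk
      refine ⟨hqp, ?_, ?_⟩
      · rintro rfl
        exact a2 (dvd_refl _)
      · intro h
        rw [hM] at h
        rcases (hqp.dvd_mul).1 h with h | h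
        · rcases (hqp.dvd_mul).1 h with h | h
          · exact ac (hqp.dvd_of_dvd_pow h)
          · exact ad (hqp.dvd_of_dvd_pow h)
        · rcases (hqp.dvd_mul).1 h with h | h
          · rcases (hqp.dvd_mul).1 h with h | h
            · exact ap h
            · exact ap' h
          · exact al h) (T3 X c d p p' l) (by
      intro n hn
      obtain ⟨hn2, hnX, ⟨hQR, -, -, hsqf⟩, hln, hpn, hp'n, hn1, hn3⟩ := hmem n hn
      refine ⟨by omega, hnX, hcong n hn, ?_, ?_⟩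
      · intro q hq hqn
        simp only [hP1, Good, Finset.mem_filter, Finset.mem_Icc] at hq
        obtain ⟨-, hqp, hqk, hor⟩ := hq
        obtain ⟨a2, ac, ad, acd, ap, ap', al⟩ := hnk q hqk
        have hq2 : q ≠ 2 := by
          rintro rfl
          exact a2 (dvd_refl _)
        have hqp1 : q ≠ p := by
          rintro rfl
          exact ap (dvd_refl _)
        have hqp2 : q ≠ p' := by
          rintro rfl
          exact ap' (dvd_refl _)
        rcases hor with h | ⟨-, h⟩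
        · exact hn1 q hqp h hqk hqn
        · apply h
          have hodd : Odd (n.factorization q) := by
            rw [fac_one (by omega) hqp hqn (hsqf q hqp acd).1]
            exact odd_one
          refine ⟨(sqp q hqp hqp1).1 ?_, (sqp' q hqp hqp2).1 ?_⟩
          · exact hQR q p hqp hp hq2 hp2 hodd (fac_one (by omega) hp hpn (hsqf p hp hpcd).2)
          · exact hQR q p' hqp hp' hq2 hp'2 hodd (fac_one (by omega) hp' hp'n (hsqf p' hp' hp'cd).2)
      · intro q hq hqn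
        simp only [hP2, Good, Finset.mem_filter, Finset.mem_Icc] at hq
        obtain ⟨-, hqp, hqk, hor⟩ := hq
        obtain ⟨a2, ac, ad, acd, ap, ap', al⟩ := hnk q hqk
        have hq2 : q ≠ 2 := by
          rintro rfl
          exact a2 (dvd_refl _)
        have hql : q ≠ l := by
          rintro rfl
          exact al (dvd_refl _)
        rcases hor with h | ⟨-, h⟩
        · exact hn3 q hqp h hqk hqn
        · have h5 : ψ l q = 1 := by
            refine (sql q hqp hq2 hql).1 ?_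
            refine hQR l q hl hqp hl2 hq2 ?_ (fac_one (by omega) hqp hqn (hsqf q hqp acd).2)
            rw [fac_one (by omega) hl hln (hsqf l hl hlcd).1]
            exact odd_one
          exact h ⟨h5, h5⟩)
  -- the bound
  have hg := (h2 c d hc hd).2 p l p' hp hl hp' hp2 hl2 hp'2
  rw [← hk] at hg
  have hcd0 : (0 : ℝ) < (c : ℝ) * d := mul_pos hcR hdR
  have hG : gk k ^ 2 ≤ 196 * ((c : ℝ) * d) ^ (1 / 2 : ℝ) := by
    have h5 : gk k ^ 2 ≤ (14 * ((c : ℝ) * d) ^ (1 / 4 : ℝ)) ^ 2 :=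
      pow_le_pow_left₀ (gk_nonneg k) hg 2
    have h6 : (((c : ℝ) * d) ^ (1 / 4 : ℝ)) ^ 2 = ((c : ℝ) * d) ^ (1 / 2 : ℝ) := by
      rw [← Real.rpow_natCast, ← Real.rpow_mul hcd0.le]
      norm_num
    rw [mul_pow, h6] at h5
    linarith
  have hR1 := RSm_nonneg P1 z
  have hR2 := RSm_nonneg P2 z
  have hA0 : 0 < c0 * Real.log l * (Real.log z / Real.log l) ^ (3 / 4 : ℝ) := by positivity
  have hB0 : 0 < c0 * Real.log p' * (Real.log z / Real.log l) ^ (1 / 2 : ℝ) := by positivity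
  have hzl : 0 < Real.log z / Real.log l := by positivity
  have e54 : (Real.log z / Real.log l) ^ (3 / 4 : ℝ) * (Real.log z / Real.log l) ^ (1 / 2 : ℝ) =
      (Real.log z) ^ (5 / 4 : ℝ) / ((Real.log l) ^ (1 / 4 : ℝ) * Real.log l) := by
    rw [← Real.rpow_add hzl, Real.div_rpow hlogz.le hlogl.le]
    have h7 : (Real.log l) ^ (1 / 4 : ℝ) * Real.log l = (Real.log l) ^ (5 / 4 : ℝ) := by
      nth_rw 2 [← Real.rpow_one (Real.log l)]
      rw [← Real.rpow_add hlogl]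
      norm_num
    rw [h7]
    norm_num
  have hl4 : 0 < (Real.log l) ^ (1 / 4 : ℝ) := Real.rpow_pos_of_pos hlogl _
  have hz5 : 0 < (Real.log z) ^ (5 / 4 : ℝ) := Real.rpow_pos_of_pos hlogz _
  have hcd2 : 0 < ((c : ℝ) * d) ^ (1 / 2 : ℝ) := Real.rpow_pos_of_pos hcd0 _
  have hlow : c0 ^ 2 * (Real.log p' * (Real.log z) ^ (5 / 4 : ℝ)) / (Real.log l) ^ (1 / 4 : ℝ) ≤
      196 * ((c : ℝ) * d) ^ (1 / 2 : ℝ) * (RSm P1 z * RSm P2 z) := by
    have h5 := mul_le_mul hA hB hB0.le (le_trans hA0.le hA)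
    have h6 : c0 * Real.log l * (Real.log z / Real.log l) ^ (3 / 4 : ℝ) *
        (c0 * Real.log p' * (Real.log z / Real.log l) ^ (1 / 2 : ℝ)) =
        c0 ^ 2 * (Real.log p' * (Real.log z) ^ (5 / 4 : ℝ)) / (Real.log l) ^ (1 / 4 : ℝ) := by
      have h7 : c0 * Real.log l * (Real.log z / Real.log l) ^ (3 / 4 : ℝ) *
        (c0 * Real.log p' * (Real.log z / Real.log l) ^ (1 / 2 : ℝ)) =
        c0 ^ 2 * (Real.log l * Real.log p') * ((Real.log z / Real.log l) ^ (3 / 4 : ℝ) *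
          (Real.log z / Real.log l) ^ (1 / 2 : ℝ)) := by ring
      rw [h7, e54]
      field_simp
    rw [h6] at h5
    refine h5.trans ?_
    have h8 : gk k * RSm P1 z * (gk k * RSm P2 z) = gk k ^ 2 * (RSm P1 z * RSm P2 z) := by ring
    rw [h8]
    exact mul_le_mul_of_nonneg_right hG (mul_nonneg hR1 hR2)
  have hlow' : c0 ^ 2 * (Real.log p' * (Real.log z) ^ (5 / 4 : ℝ)) / (Real.log l) ^ (1 / 4 : ℝ) /
      (196 * ((c : ℝ) * d) ^ (1 / 2 : ℝ)) ≤ RSm P1 z * RSm P2 z := by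
    rw [div_le_iff₀ (by positivity)]
    linarith
  have hlow0 : 0 < c0 ^ 2 * (Real.log p' * (Real.log z) ^ (5 / 4 : ℝ)) /
      (Real.log l) ^ (1 / 4 : ℝ) / (196 * ((c : ℝ) * d) ^ (1 / 2 : ℝ)) := by positivity
  refine le_trans hmain (add_le_add ?_ le_rfl)
  calc (X : ℝ) / (M : ℝ) / (RSm P1 z * RSm P2 z)
      ≤ (X : ℝ) / (M : ℝ) / (c0 ^ 2 * (Real.log p' * (Real.log z) ^ (5 / 4 : ℝ)) /
      (Real.log l) ^ (1 / 4 : ℝ) / (196 * ((c : ℝ) * d) ^ (1 / 2 : ℝ))) := by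
        gcongr
    _ = 196 / c0 ^ 2 * X * ((c : ℝ) * d) ^ (1 / 2 : ℝ) * (Real.log l) ^ (1 / 4 : ℝ) /
      ((c : ℝ) ^ 2 * d ^ 2 * (p * p' * l * Real.log p' * (Real.log z) ^ (5 / 4 : ℝ))) := by
        rw [hM]
        push_cast
        field_simp

end Pool.Agent.ADG
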