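import Pool.Agent.ADG.St3
import Pool.Agent.ADS.EV5

/-!
# ADG, module PSS: sums over primes
-/

set_option autoImplicit false

namespace Pool.Agent.ADG

open Finset

namespace PSSm

/-- the block `(2^m, 2^(m+1)]` -/
noncomputable def blk (m : ℕ) : Finset ℕ := (Ioc (2 ^ m) (2 ^ (m + 1))).filter Nat.Prime

theorem blk_inv (m : ℕ) (hm : 1 ≤ m) : ∑ w ∈ blk m, (1 : ℝ) / w ≤ 4 / m := by
  have hl2 : 0 < Real.log 2 := Real.log_pos (by norm_num)
  have hm0 : (0 : ℝ) < m := by exact_mod_cast hm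
  have h2m : (0 : ℝ) < 2 ^ m := by positivity
  have h1 : ∀ w ∈ blk m, (1 : ℝ) / w ≤ 1 / (2 ^ m * (m * Real.log 2)) * Real.log w := by
    intro w hw
    unfold blk at hw
    rw [mem_filter, mem_Ioc] at hw
    obtain ⟨⟨hw1, hw2⟩, hw3⟩ := hw
    have hwr : (2 : ℝ) ^ m ≤ w := by exact_mod_cast hw1.le
    have hw0 : (0 : ℝ) < w := lt_of_lt_of_le h2m hwr
    have hlog : m * Real.log 2 ≤ Real.log w := by
      rw [← Real.log_pow]
      exact Real.log_le_log h2m hwr
    have hml : 0 < m * Real.log 2 := by positivity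
    have hlw : 0 < Real.log w := lt_of_lt_of_le hml hlog
    have e1 : 1 / (w : ℝ) = 1 / (w * Real.log w) * Real.log w := by
      field_simp
    rw [e1]
    refine mul_le_mul_of_nonneg_right ?_ hlw.le
    refine one_div_le_one_div_of_le (by positivity) ?_
    exact mul_le_mul hwr hlog hml.le hw0.le
  have h2 : ∑ w ∈ blk m, Real.log w ≤ Real.log 4 * 2 ^ (m + 1) := by
    have h := Pool.Agent.ADS.EV5.theta_bound (2 ^ (m + 1))
    push_cast at h
    refine le_trans ?_ h
    refine Finset.sum_le_sum_of_subset_of_nonneg ?_ ?_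
    · intro w hw
      unfold blk at hw
      rw [mem_filter, mem_Ioc] at hw
      rw [mem_filter, mem_Icc]
      exact ⟨⟨hw.2.one_lt.le, hw.1.2⟩, hw.2⟩
    · intro w hw _
      rw [mem_filter] at hw
      exact Real.log_nonneg (by exact_mod_cast hw.2.one_lt.le)
  calc ∑ w ∈ blk m, (1 : ℝ) / w
      ≤ ∑ w ∈ blk m, 1 / (2 ^ m * (m * Real.log 2)) * Real.log w :=
        Finset.sum_le_sum h1
    _ = 1 / (2 ^ m * (m * Real.log 2)) * ∑ w ∈ blk m, Real.log w := by
        rw [Finset.mul_sum]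
    _ ≤ 1 / (2 ^ m * (m * Real.log 2)) * (Real.log 4 * 2 ^ (m + 1)) :=
        mul_le_mul_of_nonneg_left h2 (by positivity)
    _ = 4 / m := by
        have e4 : Real.log 4 = 2 * Real.log 2 := by
          rw [show (4 : ℝ) = 2 ^ 2 by norm_num, Real.log_pow]
          norm_num
        rw [e4]
        field_simp
        ring

/-- the first term -/
noncomputable def g (w : ℕ) : ℝ := 1 / (w * Real.sqrt (Real.log w))

/-- the second term -/
noncomputable def f (w : ℕ) : ℝ := (Real.log w) ^ (1 / 4 : ℝ) / w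

theorem g_nonneg (w : ℕ) : 0 ≤ g w := by
  unfold g
  positivity

theorem f_nonneg (w : ℕ) : 0 ≤ f w := by
  unfold f
  have : 0 ≤ Real.log w := Real.log_natCast_nonneg w
  positivity

theorem blk_g (m : ℕ) (hm : 1 ≤ m) :
    ∑ w ∈ blk m, g w ≤ 1 / Real.sqrt (m * Real.log 2) * (4 / m) := by
  have hl2 : 0 < Real.log 2 := Real.log_pos (by norm_num)
  have hm0 : (0 : ℝ) < m := by exact_mod_cast hm
  have h1 : ∀ w ∈ blk m, g w ≤ 1 / Real.sqrt (m * Real.log 2) * (1 / w) := by
    intro w hw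
    unfold blk at hw
    rw [mem_filter, mem_Ioc] at hw
    obtain ⟨⟨hw1, hw2⟩, hw3⟩ := hw
    have hwr : (2 : ℝ) ^ m ≤ w := by exact_mod_cast hw1.le
    have hw0 : (0 : ℝ) < w := lt_of_lt_of_le (by positivity) hwr
    have hlog : m * Real.log 2 ≤ Real.log w := by
      rw [← Real.log_pow]
      exact Real.log_le_log (by positivity) hwr
    have hml : 0 < m * Real.log 2 := by positivity
    unfold g
    rw [mul_comm (w : ℝ), one_div_mul_one_div]
    refine one_div_le_one_div_of_le ?_ ?_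
    · have := Real.sqrt_pos.2 hml
      positivity
    · exact mul_le_mul_of_nonneg_right (Real.sqrt_le_sqrt hlog) hw0.le
  calc ∑ w ∈ blk m, g w ≤ ∑ w ∈ blk m, 1 / Real.sqrt (m * Real.log 2) * (1 / w) :=
        Finset.sum_le_sum h1
    _ = 1 / Real.sqrt (m * Real.log 2) * ∑ w ∈ blk m, (1 : ℝ) / w := by rw [Finset.mul_sum]
    _ ≤ _ := mul_le_mul_of_nonneg_left (blk_inv m hm) (by positivity)

theorem blk_f (m : ℕ) (hm : 1 ≤ m) :
    ∑ w ∈ blk m, f w ≤ ((m + 1 : ℕ) : ℝ) ^ (1 / 4 : ℝ) * (4 / m) := by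
  have hl2 : 0 < Real.log 2 := Real.log_pos (by norm_num)
  have hl21 : Real.log 2 ≤ 1 := by
    have := Real.log_two_lt_d9
    linarith
  have hm0 : (0 : ℝ) < m := by exact_mod_cast hm
  have h1 : ∀ w ∈ blk m, f w ≤ ((m + 1 : ℕ) : ℝ) ^ (1 / 4 : ℝ) * (1 / w) := by
    intro w hw
    unfold blk at hw
    rw [mem_filter, mem_Ioc] at hw
    obtain ⟨⟨hw1, hw2⟩, hw3⟩ := hw
    have hw0 : (0 : ℝ) < w := by exact_mod_cast hw3.pos
    have hwr : (w : ℝ) ≤ 2 ^ (m + 1) := by exact_mod_cast hw2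
    have hlog : Real.log w ≤ ((m + 1 : ℕ) : ℝ) := by
      calc Real.log w ≤ Real.log (2 ^ (m + 1)) := Real.log_le_log hw0 hwr
        _ = ((m + 1 : ℕ) : ℝ) * Real.log 2 := by rw [Real.log_pow]
        _ ≤ ((m + 1 : ℕ) : ℝ) * 1 := by
            refine mul_le_mul_of_nonneg_left hl21 (by positivity)
        _ = _ := mul_one _
    unfold f
    rw [div_eq_mul_one_div]
    refine mul_le_mul_of_nonneg_right ?_ (by positivity)
    exact Real.rpow_le_rpow (Real.log_natCast_nonneg w) hlog (by norm_num)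
  calc ∑ w ∈ blk m, f w ≤ ∑ w ∈ blk m, ((m + 1 : ℕ) : ℝ) ^ (1 / 4 : ℝ) * (1 / w) :=
        Finset.sum_le_sum h1
    _ = ((m + 1 : ℕ) : ℝ) ^ (1 / 4 : ℝ) * ∑ w ∈ blk m, (1 : ℝ) / w := by rw [Finset.mul_sum]
    _ ≤ _ := mul_le_mul_of_nonneg_left (blk_inv m hm) (by positivity)

/-- summation over the blocks -/
theorem tele (h : ℕ → ℝ) (hn : ∀ w, 0 ≤ h w) (F : ℕ → ℝ) (h2 : h 2 ≤ F 1)
    (hs : ∀ m : ℕ, 1 ≤ m → ∑ w ∈ blk m, h w ≤ F (m + 1) - F m) (m : ℕ) (hm : 1 ≤ m) :
    ∑ w ∈ (Icc 1 (2 ^ m)).filter Nat.Prime, h w ≤ F m := by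
  induction m, hm using Nat.le_induction with
  | base =>
    have e : (Icc 1 (2 ^ 1)).filter Nat.Prime = {2} := by decide
    rw [e, Finset.sum_singleton]
    exact h2
  | succ m hm ih =>
    have hsplit : (Icc 1 (2 ^ (m + 1))).filter Nat.Prime =
        (Icc 1 (2 ^ m)).filter Nat.Prime ∪ blk m := by
      have h2 : 2 ^ m ≤ 2 ^ (m + 1) := Nat.pow_le_pow_right (by norm_num) (by omega)
      ext w
      unfold blk
      simp only [mem_union, mem_filter, mem_Icc, mem_Ioc]
      constructor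
      · rintro ⟨⟨h3, h4⟩, h5⟩
        rcases Nat.lt_or_ge (2 ^ m) w with h | h
        · exact Or.inr ⟨⟨h, h4⟩, h5⟩
        · exact Or.inl ⟨⟨h3, h⟩, h5⟩
      · rintro (⟨⟨h3, h4⟩, h5⟩ | ⟨⟨h3, h4⟩, h5⟩)
        · exact ⟨⟨h3, h4.trans h2⟩, h5⟩
        · exact ⟨⟨h5.one_lt.le, h4⟩, h5⟩
    have hU : ∑ w ∈ (Icc 1 (2 ^ (m + 1))).filter Nat.Prime, h w ≤
        ∑ w ∈ (Icc 1 (2 ^ m)).filter Nat.Prime, h w + ∑ w ∈ blk m, h w := by
      rw [hsplit]
      have := Finset.sum_union_inter (s₁ := (Icc 1 (2 ^ m)).filter Nat.Prime)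
        (s₂ := blk m) (f := h)
      have h0 : 0 ≤ ∑ w ∈ ((Icc 1 (2 ^ m)).filter Nat.Prime) ∩ blk m, h w :=
        Finset.sum_nonneg fun w _ => hn w
      linarith
    have := hs m hm
    linarith

theorem below (h : ℕ → ℝ) (hn : ∀ w, 0 ≤ h w) (z : ℕ) :
    ∑ w ∈ (Icc 1 z).filter Nat.Prime, h w ≤
      ∑ w ∈ (Icc 1 (2 ^ (Nat.log 2 z + 1))).filter Nat.Prime, h w := by
  have hz : z < 2 ^ (Nat.log 2 z + 1) := Nat.lt_pow_succ_log_self (by norm_num) z
  refine Finset.sum_le_sum_of_subset_of_nonneg ?_ fun w _ _ => hn w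
  intro w hw
  rw [mem_filter, mem_Icc] at hw ⊢
  exact ⟨⟨hw.1.1, hw.1.2.trans hz.le⟩, hw.2⟩

theorem sumg (z : ℕ) : ∑ w ∈ (Icc 1 z).filter Nat.Prime, g w ≤ 17 / Real.sqrt (Real.log 2) := by
  have hl2 : 0 < Real.log 2 := Real.log_pos (by norm_num)
  have hsq : 0 < Real.sqrt (Real.log 2) := Real.sqrt_pos.2 hl2
  refine (below g g_nonneg z).trans ?_
  have h := tele g g_nonneg (fun m => 1 / Real.sqrt (Real.log 2) * (17 - 16 / Real.sqrt m))
    (by
      unfold g
      simp only [Nat.cast_one, Real.sqrt_one]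
      have e : (1 : ℝ) / (((2 : ℕ) : ℝ) * Real.sqrt (Real.log ((2 : ℕ) : ℝ))) =
          1 / Real.sqrt (Real.log 2) * (1 / 2) := by
        push_cast
        field_simp
      rw [e]
      refine mul_le_mul_of_nonneg_left (by norm_num) (by positivity))
    (by
      intro m hm
      have hm0 : (0 : ℝ) < m := by exact_mod_cast hm
      have hm1 : (1 : ℝ) ≤ m := by exact_mod_cast hm
      refine (blk_g m hm).trans ?_
      rw [Real.sqrt_mul hm0.le]
      set a := Real.sqrt m with ha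
      set b := Real.sqrt ((m + 1 : ℕ) : ℝ) with hb
      have ha0 : 0 < a := Real.sqrt_pos.2 hm0
      have ha2 : a ^ 2 = m := Real.sq_sqrt hm0.le
      have hb2 : b ^ 2 = m + 1 := by
        rw [hb, Real.sq_sqrt (by positivity)]
        push_cast
        ring
      have hb0 : 0 < b := Real.sqrt_pos.2 (by positivity)
      have hab : a ≤ b := Real.sqrt_le_sqrt (by push_cast; linarith)
      have hb2a : b ≤ 2 * a := by nlinarith
      have key : 1 / a * (4 / m) ≤ 16 / a - 16 / b := by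
        have e1 : 16 / a - 16 / b = 16 * (b - a) / (a * b) := by
          field_simp
        have e2 : (b - a) * (b + a) = 1 := by nlinarith
        have e3 : 16 * (b - a) / (a * b) = 16 / (a * b * (b + a)) := by
          rw [div_eq_div_iff (by positivity) (by positivity)]
          calc 16 * (b - a) * (a * b * (b + a)) = 16 * ((b - a) * (b + a)) * (a * b) := by ring
            _ = 16 * (a * b) := by rw [e2]; ring
        rw [e1, e3, ← ha2, div_mul_div_comm, one_mul, div_le_div_iff₀ (by positivity) (by positivity)]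
        have h1 : a * b * (b + a) ≤ a * (2 * a) * (2 * a + a) := by
          refine mul_le_mul (mul_le_mul_of_nonneg_left hb2a ha0.le) (by linarith) (by positivity)
            (by positivity)
        have h2 : b * (b + a) ≤ 4 * a ^ 2 := by nlinarith
        nlinarith
      have e : 1 / Real.sqrt (Real.log 2) * (17 - 16 / b) - 1 / Real.sqrt (Real.log 2) * (17 - 16 / a)
          = 1 / Real.sqrt (Real.log 2) * (16 / a - 16 / b) := by ring
      show _ ≤ 1 / Real.sqrt (Real.log 2) * (17 - 16 / b) -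
        1 / Real.sqrt (Real.log 2) * (17 - 16 / a)
      rw [e]
      have e' : 1 / (a * Real.sqrt (Real.log 2)) * (4 / m) =
          1 / Real.sqrt (Real.log 2) * (1 / a * (4 / m)) := by
        field_simp
      rw [e']
      exact mul_le_mul_of_nonneg_left key (by positivity))
    (Nat.log 2 z + 1) (by omega)
  refine h.trans ?_
  have h3 : 0 ≤ 16 / Real.sqrt ((Nat.log 2 z + 1 : ℕ) : ℝ) := by positivity
  calc 1 / Real.sqrt (Real.log 2) * (17 - 16 / Real.sqrt ((Nat.log 2 z + 1 : ℕ) : ℝ))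
      ≤ 1 / Real.sqrt (Real.log 2) * 17 :=
        mul_le_mul_of_nonneg_left (by linarith) (by positivity)
    _ = _ := by ring

theorem sumf (z : ℕ) (hz : 2 ≤ z) : ∑ w ∈ (Icc 1 z).filter Nat.Prime, f w ≤
    64 * (Real.log z) ^ (1 / 4 : ℝ) := by
  have hl2 : (0.6931471803 : ℝ) < Real.log 2 := Real.log_two_gt_d9
  have hl21 : Real.log 2 < 0.6931471808 := Real.log_two_lt_d9
  have hzl : 0 < Real.log z := Real.log_pos (by exact_mod_cast hz)
  refine (below f f_nonneg z).trans ?_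
  have h := tele f f_nonneg (fun m => 32 * (m : ℝ) ^ (1 / 4 : ℝ))
    (by
      unfold f
      simp only [Nat.cast_one, Real.one_rpow]
      have h1 : (Real.log ((2 : ℕ) : ℝ)) ^ (1 / 4 : ℝ) ≤ 1 := by
        refine Real.rpow_le_one (Real.log_natCast_nonneg 2) ?_ (by norm_num)
        push_cast
        linarith
      push_cast at h1 ⊢
      linarith)
    (by
      intro m hm
      have hm0 : (0 : ℝ) < m := by exact_mod_cast hm
      have hm1 : (1 : ℝ) ≤ m := by exact_mod_cast hm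
      refine (blk_f m hm).trans ?_
      set y := (m : ℝ) ^ (1 / 4 : ℝ) with hy
      set x := ((m + 1 : ℕ) : ℝ) ^ (1 / 4 : ℝ) with hx
      have hy4 : y ^ 4 = m := by
        rw [hy, ← Real.rpow_natCast, ← Real.rpow_mul hm0.le]
        norm_num
      have hx4 : x ^ 4 = m + 1 := by
        rw [hx, ← Real.rpow_natCast, ← Real.rpow_mul (by positivity)]
        norm_num
      have hy0 : 0 < y := Real.rpow_pos_of_pos hm0 _
      have hx0 : 0 < x := Real.rpow_pos_of_pos (by positivity) _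
      have hxy : y ≤ x := Real.rpow_le_rpow hm0.le (by push_cast; linarith) (by norm_num)
      show x * (4 / m) ≤ 32 * x - 32 * y
      have h1 : 1 ≤ (x - y) * (4 * x ^ 3) := by
        have e : (x - y) * (x ^ 3 + x ^ 2 * y + x * y ^ 2 + y ^ 3) = 1 := by
          calc (x - y) * (x ^ 3 + x ^ 2 * y + x * y ^ 2 + y ^ 3) = x ^ 4 - y ^ 4 := by ring
            _ = 1 := by rw [hx4, hy4]; ring
        rw [← e]
        refine mul_le_mul_of_nonneg_left ?_ (by linarith)
        have a1 : x ^ 2 * y ≤ x ^ 2 * x := mul_le_mul_of_nonneg_left hxy (by positivity)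
        have a2 : y ^ 2 ≤ x ^ 2 := pow_le_pow_left₀ hy0.le hxy 2
        have a3 : y ^ 3 ≤ x ^ 3 := pow_le_pow_left₀ hy0.le hxy 3
        nlinarith
      have h2 : x ^ 4 ≤ 2 * m := by rw [hx4]; linarith
      rw [mul_div_assoc', div_le_iff₀ hm0]
      have h3 : 4 * x ≤ 4 * x * ((x - y) * (4 * x ^ 3)) := le_mul_of_one_le_right (by positivity) h1
      have h4 : 4 * x * ((x - y) * (4 * x ^ 3)) = 16 * (x - y) * x ^ 4 := by ring
      have h5 : 16 * (x - y) * x ^ 4 ≤ 16 * (x - y) * (2 * m) :=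
        mul_le_mul_of_nonneg_left h2 (by linarith)
      nlinarith)
    (Nat.log 2 z + 1) (by omega)
  refine h.trans ?_
  have hlog : ((Nat.log 2 z + 1 : ℕ) : ℝ) ≤ 16 * Real.log z := by
    have h1 : (2 : ℝ) ^ (Nat.log 2 z) ≤ z := by
      exact_mod_cast Nat.pow_log_le_self 2 (by omega)
    have h2 : (Nat.log 2 z : ℝ) * Real.log 2 ≤ Real.log z := by
      rw [← Real.log_pow]
      exact Real.log_le_log (by positivity) h1
    have h3 : Real.log 2 ≤ Real.log z := Real.log_le_log (by norm_num) (by exact_mod_cast hz)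
    have h4 : (0 : ℝ) ≤ Nat.log 2 z := by positivity
    push_cast
    nlinarith
  have h16 : (16 : ℝ) ^ (1 / 4 : ℝ) = 2 := by
    rw [show (16 : ℝ) = 2 ^ (4 : ℝ) by norm_num, ← Real.rpow_mul (by norm_num)]
    norm_num
  calc 32 * ((Nat.log 2 z + 1 : ℕ) : ℝ) ^ (1 / 4 : ℝ) ≤ 32 * (16 * Real.log z) ^ (1 / 4 : ℝ) :=
        mul_le_mul_of_nonneg_left (Real.rpow_le_rpow (by positivity) hlog (by norm_num))
          (by norm_num)
    _ = 64 * (Real.log z) ^ (1 / 4 : ℝ) := by
        rw [Real.mul_rpow (by norm_num) hzl.le, h16]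
        ring

theorem gg (l p q : ℕ) (hl : l.Prime) (hp : p.Prime) (h1 : l ≤ q) (h2 : p ≤ q) :
    1 / ((l : ℝ) * p * Real.log q) ≤ g l * g p := by
  have hl0 : (0 : ℝ) < l := by exact_mod_cast hl.pos
  have hp0 : (0 : ℝ) < p := by exact_mod_cast hp.pos
  have hll : 0 < Real.log l := Real.log_pos (by exact_mod_cast hl.one_lt)
  have hlp : 0 < Real.log p := Real.log_pos (by exact_mod_cast hp.one_lt)
  have hlq : Real.log l ≤ Real.log q := Real.log_le_log hl0 (by exact_mod_cast h1)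
  have hpq : Real.log p ≤ Real.log q := Real.log_le_log hp0 (by exact_mod_cast h2)
  have h3 : Real.sqrt (Real.log l) * Real.sqrt (Real.log p) ≤ Real.log q := by
    have a1 := Real.sqrt_le_sqrt hlq
    have a2 := Real.sqrt_le_sqrt hpq
    have a3 : Real.sqrt (Real.log q) * Real.sqrt (Real.log q) = Real.log q :=
      Real.mul_self_sqrt (hll.le.trans hlq)
    rw [← a3]
    exact mul_le_mul a1 a2 (Real.sqrt_nonneg _) (Real.sqrt_nonneg _)
  have h4 := Real.sqrt_pos.2 hll
  have h5 := Real.sqrt_pos.2 hlp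
  unfold g
  rw [one_div_mul_one_div]
  refine one_div_le_one_div_of_le (by positivity) ?_
  calc (l : ℝ) * Real.sqrt (Real.log l) * (p * Real.sqrt (Real.log p))
      = l * p * (Real.sqrt (Real.log l) * Real.sqrt (Real.log p)) := by ring
    _ ≤ l * p * Real.log q := mul_le_mul_of_nonneg_left h3 (by positivity)

end PSSm

theorem PSS_thm : Stmt_PSS := by
  have hl2 : 0 < Real.log 2 := Real.log_pos (by norm_num)
  have hsq : 0 < Real.sqrt (Real.log 2) := Real.sqrt_pos.2 hl2
  set K := 17 / Real.sqrt (Real.log 2) with hK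
  have hK0 : 0 < K := by positivity
  refine ⟨64 * K ^ 2, by positivity, fun z hz => ?_⟩
  set S := (Icc 1 z).filter Nat.Prime with hS
  have hg := PSSm.sumg z
  have hf := PSSm.sumf z hz
  have hgn : 0 ≤ ∑ w ∈ S, PSSm.g w := Finset.sum_nonneg fun w _ => PSSm.g_nonneg w
  have hfn : 0 ≤ ∑ w ∈ S, PSSm.f w := Finset.sum_nonneg fun w _ => PSSm.f_nonneg w
  have hgg : (∑ w ∈ S, PSSm.g w) * ∑ w ∈ S, PSSm.g w ≤ K ^ 2 := by
    rw [pow_two]
    exact mul_le_mul hg hg hgn hK0.le
  constructor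
  · calc ∑ l ∈ S, ∑ p ∈ S, (if l = p then (0 : ℝ) else 1 / (l * p * Real.log (max l p : ℕ)))
        ≤ ∑ l ∈ S, ∑ p ∈ S, PSSm.g l * PSSm.g p := by
          refine Finset.sum_le_sum fun l hl => Finset.sum_le_sum fun p hp => ?_
          rw [hS, mem_filter] at hl hp
          split_ifs with h
          · exact mul_nonneg (PSSm.g_nonneg l) (PSSm.g_nonneg p)
          · exact PSSm.gg l p (max l p) hl.2 hp.2 (le_max_left _ _) (le_max_right _ _)
      _ = (∑ w ∈ S, PSSm.g w) * ∑ w ∈ S, PSSm.g w := by rw [Finset.sum_mul_sum]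
      _ ≤ K ^ 2 := hgg
      _ ≤ 64 * K ^ 2 := by nlinarith [sq_nonneg K]
  · calc ∑ l ∈ S, ∑ l' ∈ S, ∑ p ∈ S,
          (if l < l' then (Real.log p) ^ (1 / 4 : ℝ) / (l * l' * p * Real.log l') else (0 : ℝ))
        ≤ ∑ l ∈ S, ∑ l' ∈ S, ∑ p ∈ S, PSSm.g l * PSSm.g l' * PSSm.f p := by
          refine Finset.sum_le_sum fun l hl => Finset.sum_le_sum fun l' hl' =>
            Finset.sum_le_sum fun p hp => ?_
          rw [hS, mem_filter] at hl hl' hp
          split_ifs with h
          · have h1 := PSSm.gg l l' l' hl.2 hl'.2 h.le le_rfl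
            have h2 : (Real.log p) ^ (1 / 4 : ℝ) / ((l : ℝ) * l' * p * Real.log l') =
                1 / ((l : ℝ) * l' * Real.log l') * PSSm.f p := by
              unfold PSSm.f
              rw [div_mul_div_comm, one_mul]
              congr 1
              ring
            rw [h2]
            exact mul_le_mul_of_nonneg_right h1 (PSSm.f_nonneg p)
          · exact mul_nonneg (mul_nonneg (PSSm.g_nonneg l) (PSSm.g_nonneg l')) (PSSm.f_nonneg p)
      _ = ((∑ w ∈ S, PSSm.g w) * ∑ w ∈ S, PSSm.g w) * ∑ w ∈ S, PSSm.f w := by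
          rw [Finset.sum_mul_sum, Finset.sum_mul]
          refine Finset.sum_congr rfl fun l _ => ?_
          rw [Finset.sum_mul]
          refine Finset.sum_congr rfl fun l' _ => ?_
          rw [Finset.mul_sum]
      _ ≤ K ^ 2 * (64 * (Real.log z) ^ (1 / 4 : ℝ)) :=
          mul_le_mul hgg hf hfn (by positivity)
      _ = 64 * K ^ 2 * (Real.log z) ^ (1 / 4 : ℝ) := by ring

end Pool.Agent.ADG
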