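import Pool.Agent.ADG.St4

/-!
# ADG, module PXU: the square condition for `n = 1 mod 4` (helper30)
-/

set_option autoImplicit false

namespace Pool.Agent.ADG

open Finset Pool.Agent.ADS

namespace PXU

section dcl
variable {G : Type} [Group G] [Fintype G]

lemma dc_add (N H : Subgroup G) (f g : G → ℚ) :
    dc N H (fun x => f x + g x) = dc N H f + dc N H g := by
  unfold dc
  rw [← add_div, ← Finset.sum_add_distrib]
  congr 1
  exact Finset.sum_congr rfl fun x _ => by ring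

lemma dc_mul (N H : Subgroup G) (c : ℚ) (f : G → ℚ) :
    dc N H (fun x => c * f x) = c * dc N H f := by
  unfold dc
  rw [← mul_div_assoc, Finset.mul_sum]
  congr 1
  exact Finset.sum_congr rfl fun x _ => by ring

lemma dc_congr {N H : Subgroup G} {f g : G → ℚ} (h : ∀ x, f x = g x) :
    dc N H f = dc N H g := by
  have : f = g := funext h
  rw [this]

lemma dc_index {N A A' : Subgroup G} (hc : Nat.card A = 2 * Nat.card A') (f g : G → ℚ)
    (h : ∀ x, 2 * (f x * sta N A' x) = g x * sta N A x) : dc N A' f = dc N A g := by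
  unfold dc
  have h1 : ∑ x, g x * sta N A x = 2 * ∑ x, f x * sta N A' x := by
    rw [Finset.mul_sum]
    exact Finset.sum_congr rfl fun x _ => (h x).symm
  rw [h1, hc]
  push_cast
  have hN : (Nat.card N : ℚ) ≠ 0 := by exact_mod_cast Nat.card_pos.ne'
  have hA : (Nat.card A' : ℚ) ≠ 0 := by exact_mod_cast Nat.card_pos.ne'
  field_simp

end dcl

open Classical in
/-- `th` with integer values -/
noncomputable def thZ (l s : ℕ) : ℤ := if IsSquare ((s : ℕ) : ZMod l) then 0 else 1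

lemma th_eq (l s : ℕ) : th l s = (thZ l s : ℚ) := by
  unfold th thZ
  split_ifs <;> simp

lemma thZ_char {l : ℕ} [Fact l.Prime] (a : ℕ) (ha : (a : ZMod l) ≠ 0) :
    1 - 2 * thZ l a = quadraticChar (ZMod l) (a : ZMod l) := by
  unfold thZ
  split_ifs with h
  · rw [(quadraticChar_one_iff_isSquare ha).2 h]
    norm_num
  · rw [quadraticChar_neg_one_iff_not_isSquare.2 h]
    norm_num

lemma thZ_mul {l : ℕ} [Fact l.Prime] (a b : ℕ) (ha : (a : ZMod l) ≠ 0) (hb : (b : ZMod l) ≠ 0) :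
    thZ l (a * b) = thZ l a + thZ l b - 2 * (thZ l a * thZ l b) := by
  have hab : ((a * b : ℕ) : ZMod l) ≠ 0 := by
    rw [Nat.cast_mul]
    exact mul_ne_zero ha hb
  have h1 := thZ_char a ha
  have h2 := thZ_char b hb
  have h3 := thZ_char (a * b) hab
  rw [Nat.cast_mul, map_mul, ← h1, ← h2] at h3
  have h4 : 1 - 2 * thZ l (a * b) = 1 - 2 * thZ l a - 2 * thZ l b + 4 * (thZ l a * thZ l b) := by
    rw [h3]
    ring
  linarith

section grp
variable {G : Type} [Group G]

lemma sta_pos [Finite G] (N H : Subgroup G) (x : G) : 0 < sta N H x := by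
  unfold sta
  have : Nonempty {k : G // k ∈ H ∧ x * k * x⁻¹ ∈ N} :=
    ⟨⟨1, H.one_mem, by simp⟩⟩
  exact Nat.card_pos

lemma conj_mem_iff (N : Subgroup G) {a : G} (ha : a ∈ N) (z : G) : a * z * a⁻¹ ∈ N ↔ z ∈ N := by
  rw [N.mul_mem_cancel_right (N.inv_mem ha), N.mul_mem_cancel_left ha]

lemma shape (a y k u : G) : (a * y * k) * u * (a * y * k)⁻¹ = a * (y * (k * u * k⁻¹) * y⁻¹) * a⁻¹ := by
  group

variable {N P M : Subgroup G}

lemma conjP (hM : ∀ g, g ∈ M ↔ ∀ k, k ∈ P ↔ g * k * g⁻¹ ∈ P) {k : G} (hk : k ∈ M) {u : G}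
    (hu : u ∈ P) : k * u * k⁻¹ ∈ P := ((hM k).1 hk u).1 hu

lemma T_inv (hM : ∀ g, g ∈ M ↔ ∀ k, k ∈ P ↔ g * k * g⁻¹ ∈ P) {a k : G} (ha : a ∈ N)
    (hk : k ∈ M) (y : G) :
    (∀ u ∈ P, (a * y * k) * u * (a * y * k)⁻¹ ∈ N) ↔ ∀ u ∈ P, y * u * y⁻¹ ∈ N := by
  constructor
  · intro h u hu
    have h1 : k⁻¹ * u * k ∈ P := by
      have := conjP hM (M.inv_mem hk) hu
      rwa [inv_inv] at this
    have h2 := h _ h1
    rw [shape, conj_mem_iff N ha] at h2
    have h3 : k * (k⁻¹ * u * k) * k⁻¹ = u := by group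
    rwa [h3] at h2
  · intro h u hu
    rw [shape, conj_mem_iff N ha]
    exact h _ (conjP hM hk hu)

lemma comm_conj (hM : ∀ g, g ∈ M ↔ ∀ k, k ∈ P ↔ g * k * g⁻¹ ∈ P) {k g : G} (hk : k ∈ M) :
    (∀ u ∈ P, g * u = u * g) ↔ ∀ u ∈ P, (k * g * k⁻¹) * u = u * (k * g * k⁻¹) := by
  constructor
  · intro h u hu
    have h1 : k⁻¹ * u * k ∈ P := by
      have := conjP hM (M.inv_mem hk) hu
      rwa [inv_inv] at this
    have h2 := h _ h1
    calc k * g * k⁻¹ * u = k * (g * (k⁻¹ * u * k)) * k⁻¹ := by group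
      _ = k * ((k⁻¹ * u * k) * g) * k⁻¹ := by rw [h2]
      _ = u * (k * g * k⁻¹) := by group
  · intro h u hu
    have h2 := h _ (conjP hM hk hu)
    calc g * u = k⁻¹ * ((k * g * k⁻¹) * (k * u * k⁻¹)) * k := by group
      _ = k⁻¹ * ((k * u * k⁻¹) * (k * g * k⁻¹)) * k := by rw [h2]
      _ = u * g := by group

lemma cen_inv {H : Subgroup G} (hM : ∀ g, g ∈ M ↔ ∀ k, k ∈ P ↔ g * k * g⁻¹ ∈ P) (hHM : H ≤ M)
    {a k : G} (ha : a ∈ N) (hk : k ∈ H) (y : G) : cen N P H (a * y * k) = cen N P H y := by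
  unfold cen
  refine Nat.card_congr (Equiv.subtypeEquiv (MulAut.conj k).toEquiv fun g => ?_)
  have e : (MulAut.conj k).toEquiv g = k * g * k⁻¹ := rfl
  rw [e, shape, conj_mem_iff N ha, ← comm_conj hM (hHM hk)]
  have h1 : k * g * k⁻¹ ∈ H ↔ g ∈ H := conj_mem_iff H hk g
  rw [h1]

end grp

end PXU

open Classical PXU in
theorem PXU_main (h1 : Stmt_DCL) (h2 : Stmt_GRT) (h3 : Stmt_RSM) (h4 : Stmt_MST) (h5 : Stmt_TVL)
    (h6 : Stmt_TCT) (h8 : Stmt_INV) {G : Type} [Group G] [Fintype G] (n : ℕ) (N : Subgroup G)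
    (D : Finset G) (hD : IsAffineDifferenceSet n N D) (hn : n % 4 = 1) (p : ℕ) (hp : p.Prime)
    (hp2 : p ≠ 2) (hnp : (n - 1).factorization p = 1) (l : ℕ) (hl : l.Prime)
    (hodd : Odd (n.factorization l)) (hl2 : l ≠ 2) : IsSquare ((p : ℕ) : ZMod l) := by
  by_contra hns
  have := Fact.mk hl
  obtain ⟨P, M, A, A', Y, Y', v, hPD, hYA, hAY, hpY, hYA', hAY', hpY'⟩ :=
    h4 G n N D hD p hp hp2 hnp
  obtain ⟨-, hdiv, hstaN, -⟩ := h8 G n N D hD
  have hln : l ∣ n := by
    rcases hodd with ⟨k, hk⟩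
    exact Nat.dvd_of_factorization_pos (by omega)
  have hn2 := hD.two_le
  -- the subgroups
  have hAM : A ≤ M := fun g hg => ((hPD.mem_A g).1 hg).1
  have hA'M : A' ≤ M := fun g hg => ((hPD.mem_A' g).1 hg).1
  have hA'A : A' ≤ A := by
    intro g hg
    obtain ⟨g1, g2⟩ := (hPD.mem_A' g).1 hg
    refine (hPD.mem_A g).2 ⟨g1, fun u hu => ?_⟩
    have h9 := g2 u hu
    have e : g ^ 2 ^ (v + 1) = g ^ 2 ^ v * g ^ 2 ^ v := by
      rw [← pow_add]
      congr 1
      ring
    rw [e, mul_assoc, h9, ← mul_assoc, h9, mul_assoc]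
  have hPA' : P ≤ A' := by
    have := Fact.mk hp
    have hcyc : IsCyclic P := isCyclic_of_prime_card hPD.card_P
    have hcomm : ∀ u ∈ P, ∀ w ∈ P, u * w = w * u := by
      intro u hu w hw
      obtain ⟨z, hz⟩ := hcyc.exists_generator
      obtain ⟨i, hi⟩ := Subgroup.mem_zpowers_iff.1 (hz ⟨u, hu⟩)
      obtain ⟨j, hj⟩ := Subgroup.mem_zpowers_iff.1 (hz ⟨w, hw⟩)
      have h9 : (⟨u, hu⟩ : P) * ⟨w, hw⟩ = ⟨w, hw⟩ * ⟨u, hu⟩ := by
        rw [← hi, ← hj, ← zpow_add, ← zpow_add, add_comm]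
      exact congrArg Subtype.val h9
    intro g hg
    refine (hPD.mem_A' g).2 ⟨(hPD.mem_M g).2 fun k => (conj_mem_iff P hg k).symm, fun u hu => ?_⟩
    exact hcomm _ (P.pow_mem hg _) u hu
  have hPA : P ≤ A := hPA'.trans hA'A
  -- the numbers
  obtain ⟨m, hm⟩ : 2 ^ (v + 1) ∣ p - 1 := by
    rw [← hPD.two]
    exact Nat.ordProj_dvd _ _
  have hmodd : Odd m := by
    rw [← Nat.not_even_iff_odd]
    rintro ⟨b, hb⟩
    have h9 : 2 ^ (v + 2) ∣ p - 1 := ⟨b, by rw [hm, hb]; ring⟩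
    have h10 : p - 1 ≠ 0 := by have := hp.two_le; omega
    have h11 := (Nat.prime_two.pow_dvd_iff_le_factorization h10).1 h9
    rw [hPD.two] at h11
    omega
  obtain ⟨m', hm'⟩ := hmodd
  have hcast : ((p - 1 : ℕ) : ℚ) = (p : ℚ) - 1 := by
    rw [Nat.cast_sub hp.one_lt.le]
    simp
  have hcen0 : ∀ (H : Subgroup G) (x : G) (j : ℕ), sta N H x = cen N P H x * j →
      ((cen N P H x : ℕ) : ZMod l) ≠ 0 := by
    intro H x j hj h0
    rw [ZMod.natCast_eq_zero_iff] at h0
    have h9 : l ∣ n - 1 := by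
      rw [← hD.card_subgroup]
      exact (h0.trans ⟨j, hj⟩).trans (hdiv H x).2
    have h10 : l ∣ n - (n - 1) := Nat.dvd_sub hln h9
    have h11 : n - (n - 1) = 1 := by omega
    rw [h11] at h10
    exact hl.one_lt.ne' (Nat.dvd_one.1 h10)
  have h20 : ((2 ^ v : ℕ) : ZMod l) ≠ 0 := by
    intro h0
    rw [ZMod.natCast_eq_zero_iff] at h0
    exact hl2 ((Nat.prime_dvd_prime_iff_eq hl Nat.prime_two).1 (hl.dvd_of_dvd_pow h0))
  set e : Subgroup G → G → ℕ := fun H x => (p - 1) * cen N P H x / (2 * sta N H x) with he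
  have hratio : ∀ (H : Subgroup G) (x : G), (∃ j ≤ v, sta N H x = cen N P H x * 2 ^ j) →
      ((p : ℚ) - 1) * cen N P H x / sta N H x = 2 * (e H x : ℚ) := by
    rintro H x ⟨j, hjv, hj⟩
    have hs := sta_pos N H x
    have h9 : 2 * sta N H x ∣ (p - 1) * cen N P H x := by
      refine ⟨2 ^ (v - j) * m, ?_⟩
      have h10 : 2 ^ (v + 1) = 2 * 2 ^ j * 2 ^ (v - j) := by
        rw [mul_assoc, ← pow_add, Nat.add_sub_cancel' hjv]
        ring
      rw [hm, hj, h10]
      ring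
    have h10 : 2 * sta N H x * e H x = (p - 1) * cen N P H x := Nat.mul_div_cancel' h9
    have h11 : (2 : ℚ) * sta N H x * e H x = ((p : ℚ) - 1) * cen N P H x := by
      rw [← hcast]
      exact_mod_cast h10
    have h12 : (sta N H x : ℚ) ≠ 0 := by exact_mod_cast hs.ne'
    rw [← h11]
    field_simp
  have heinv : ∀ H : Subgroup G, H ≤ M → ∀ a ∈ N, ∀ k ∈ H, ∀ y, e H (a * y * k) = e H y := by
    intro H hHM a ha k hk y
    simp only [he]
    rw [cen_inv hPD.mem_M hHM ha hk y, hstaN H y a ha k hk]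
  have hTinv : ∀ H : Subgroup G, H ≤ M → ∀ a ∈ N, ∀ k ∈ H, ∀ y : G,
      (∀ u ∈ P, (a * y * k) * u * (a * y * k)⁻¹ ∈ N) ↔ ∀ u ∈ P, y * u * y⁻¹ ∈ N :=
    fun H hHM a ha k hk y => T_inv hPD.mem_M ha (hHM hk) y
  obtain ⟨⟨a, haodd, ha⟩, halt⟩ := h6 G N P M A A' p v hPD
  rcases halt with ⟨a', ha'odd, ha'⟩ | ⟨hcard, hTW⟩
  · -- first alternative
    obtain ⟨k, hk⟩ := h3 G n N D hD hn l hl hodd P A' Y' p hp hns hPD.card_P hPA' hYA'
      (fun h hh u hu => conjP hPD.mem_M (hA'M hh) hu) hAY' hpY'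
    obtain ⟨k', hk'⟩ := (h1 G N A').2
      (fun x => if ∀ u ∈ P, x * u * x⁻¹ ∈ N then 0 else (e A' x : ℤ) * thZ l (cen N P A' x)) (by
        intro b hb c hc y
        simp only [hTinv A' hA'M b hb c hc y, heinv A' hA'M b hb c hc y,
          cen_inv hPD.mem_M hA'M hb hc y])
    have hsum : dc N A' (fun x => if ∀ u ∈ P, x * u * x⁻¹ ∈ N then 1 else
        ((p : ℚ) - 1) * cen N P A' x / sta N A' x * th l (cen N P A' x)) = a' + 2 * k' := by
      rw [← ha', ← hk', ← dc_mul, ← dc_add]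
      refine dc_congr fun x => ?_
      by_cases hT : ∀ u ∈ P, x * u * x⁻¹ ∈ N
      · simp only [if_pos hT]
        simp
      · simp only [if_neg hT]
        rw [hratio A' x (h5 G N P M A A' p v hPD x).1, th_eq]
        push_cast
        ring
    rw [hsum] at hk
    have hk'' : (a' : ℤ) + 2 * k' = 2 * k := by exact_mod_cast hk
    obtain ⟨b, hb⟩ := ha'odd
    omega
  · -- second alternative
    have hWinv : ∀ b ∈ N, ∀ c ∈ A, ∀ y : G,
        (∀ k ∈ A, (b * y * c) * k * (b * y * c)⁻¹ ∈ N → k ∈ A') ↔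
          ∀ k ∈ A, y * k * y⁻¹ ∈ N → k ∈ A' := by
      intro b hb c hc y
      have hconjA' : ∀ k, k ∈ A' ↔ c * k * c⁻¹ ∈ A' := by
        intro k
        rw [hPD.mem_A', hPD.mem_A', conj_mem_iff M (hAM hc), conj_pow,
          ← comm_conj hPD.mem_M (hAM hc)]
      constructor
      · intro h k hk hky
        have h9 : c⁻¹ * k * c ∈ A := A.mul_mem (A.mul_mem (A.inv_mem hc) hk) hc
        have h10 := h _ h9 (by
          rw [shape, conj_mem_iff N hb]
          have : c * (c⁻¹ * k * c) * c⁻¹ = k := by group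
          rwa [this])
        rw [hconjA'] at h10
        have : c * (c⁻¹ * k * c) * c⁻¹ = k := by group
        rwa [this] at h10
      · intro h k hk hky
        rw [shape, conj_mem_iff N hb] at hky
        rw [hconjA']
        exact h _ ((conj_mem_iff A hc k).2 hk) hky
    have htv := h5 G N P M A A' p v hPD
    -- the relation for `A`
    obtain ⟨k, hk⟩ := h3 G n N D hD hn l hl hodd P A Y p hp hns hPD.card_P hPA hYA
      (fun h hh u hu => conjP hPD.mem_M (hAM hh) hu) hAY hpY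
    obtain ⟨g0, hg0⟩ := (h1 G N A).2
      (fun x => if ∀ u ∈ P, x * u * x⁻¹ ∈ N then 0 else
        if ∀ k ∈ A, x * k * x⁻¹ ∈ N → k ∈ A' then (e A x : ℤ) * thZ l (cen N P A x) else
          (m' : ℤ) * thZ l (cen N P A x)) (by
        intro b hb c hc y
        simp only [hTinv A hAM b hb c hc y, heinv A hAM b hb c hc y,
          cen_inv hPD.mem_M hAM hb hc y, hWinv b hb c hc y])
    obtain ⟨w0, hw0⟩ := (h1 G N A).2
      (fun x => if ∀ k ∈ A, x * k * x⁻¹ ∈ N → k ∈ A' then 0 else thZ l (cen N P A x)) (by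
        intro b hb c hc y
        simp only [cen_inv hPD.mem_M hAM hb hc y, hWinv b hb c hc y])
    obtain ⟨z1, hz1⟩ := (h1 G N A).2
      (fun x => if ∀ k ∈ A, x * k * x⁻¹ ∈ N → k ∈ A' then 0 else 1) (by
        intro b hb c hc y
        simp only [hWinv b hb c hc y])
    obtain ⟨zc, hzc⟩ := (h1 G N A).2
      (fun x => if ∀ k ∈ A, x * k * x⁻¹ ∈ N → k ∈ A' then 1 else 0) (by
        intro b hb c hc y
        simp only [hWinv b hb c hc y])
    obtain ⟨yc, hyc⟩ := (h1 G N A).2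
      (fun x => if ∀ k ∈ A, x * k * x⁻¹ ∈ N → k ∈ A' then thZ l (sta N A x) else 0) (by
        intro b hb c hc y
        simp only [hWinv b hb c hc y, hstaN A y b hb c hc])
    have hsum : dc N A (fun x => if ∀ u ∈ P, x * u * x⁻¹ ∈ N then 1 else
        ((p : ℚ) - 1) * cen N P A x / sta N A x * th l (cen N P A x)) = a + w0 + 2 * g0 := by
      rw [← ha, ← hw0, ← hg0, ← dc_mul, ← dc_add, ← dc_add]
      refine dc_congr fun x => ?_
      by_cases hT : ∀ u ∈ P, x * u * x⁻¹ ∈ N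
      · have hW := hTW x hT
        simp only [if_pos hT, if_pos hW]
        simp
      · by_cases hW : ∀ k ∈ A, x * k * x⁻¹ ∈ N → k ∈ A'
        · simp only [if_neg hT, if_pos hW]
          rw [hratio A x ((htv x).2.1 hW).2, th_eq]
          push_cast
          ring
        · simp only [if_neg hT, if_neg hW]
          have h9 := ((htv x).2.2 hW).1
          have h10 : ((p : ℚ) - 1) * cen N P A x / sta N A x = 1 + 2 * m' := by
            have hs : (sta N A x : ℚ) ≠ 0 := by exact_mod_cast (sta_pos N A x).ne'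
            rw [div_eq_iff hs, h9, ← hcast, hm, hm']
            push_cast
            ring
          rw [h10, th_eq]
          push_cast
          ring
    rw [hsum] at hk
    have hk3 : (a : ℤ) + w0 + 2 * g0 = 2 * k := by exact_mod_cast hk
    -- the parity for `A'`
    obtain ⟨⟨k1, hk1⟩, k2, hk2⟩ := h2 G n N D hD hn l hl hodd A'
    have hind : A'.index = 2 * A.index := by
      have e1 := A.index_mul_card
      have e2 := A'.index_mul_card
      have e3 : A'.index * Nat.card A' = (2 * A.index) * Nat.card A' := by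
        rw [e2, ← e1, hcard]
        ring
      exact Nat.eq_of_mul_eq_mul_right Nat.card_pos e3
    have hd1 : dc N A' (fun _ => 1) = z1 + 2 * zc := by
      rw [← hz1, ← hzc, ← dc_mul, ← dc_add]
      refine dc_index hcard _ _ fun x => ?_
      by_cases hW : ∀ k ∈ A, x * k * x⁻¹ ∈ N → k ∈ A'
      · simp only [if_pos hW]
        rw [((htv x).2.1 hW).1]
        push_cast
        ring
      · simp only [if_neg hW]
        have h9 : (sta N A x : ℚ) = 2 * sta N A' x := by exact_mod_cast ((htv x).2.2 hW).2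
        rw [h9]
        push_cast
        ring
    rw [hd1, hind] at hk1
    have hk4 : z1 + 2 * zc + 2 * A.index = 2 * k1 := by exact_mod_cast hk1
    have hd2 : dc N A' (fun x => th l (sta N A' x)) =
        (w0 + (thZ l (2 ^ v) : ℚ) * z1 + (-2 * (thZ l (2 ^ v) : ℚ)) * w0) + 2 * yc := by
      rw [← hw0, ← hz1, ← hyc, ← dc_mul, ← dc_mul, ← dc_mul, ← dc_add, ← dc_add, ← dc_add]
      refine dc_index hcard _ _ fun x => ?_
      by_cases hW : ∀ k ∈ A, x * k * x⁻¹ ∈ N → k ∈ A'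
      · simp only [if_pos hW]
        rw [((htv x).2.1 hW).1, th_eq]
        push_cast
        ring
      · simp only [if_neg hW]
        have h9 : (sta N A x : ℚ) = 2 * sta N A' x := by exact_mod_cast ((htv x).2.2 hW).2
        have h10 : sta N A' x = cen N P A x * 2 ^ v := by
          have e1 := ((htv x).2.2 hW).1
          have e2 := ((htv x).2.2 hW).2
          rw [pow_succ] at e1
          have e3 : 2 * sta N A' x = 2 * (cen N P A x * 2 ^ v) := by
            rw [← e2, e1]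
            ring
          omega
        rw [th_eq, h9]
        have h11 : thZ l (sta N A' x) = thZ l (cen N P A x) + thZ l (2 ^ v) -
            2 * (thZ l (cen N P A x) * thZ l (2 ^ v)) := by
          rw [h10]
          exact thZ_mul _ _ (hcen0 A x _ ((htv x).2.2 hW).1) h20
        rw [h11]
        push_cast
        ring
    rw [hd2] at hk2
    have hk5 : w0 + thZ l (2 ^ v) * z1 + (-2 * thZ l (2 ^ v)) * w0 + 2 * yc = 2 * k2 := by
      exact_mod_cast hk2
    obtain ⟨b, hb⟩ := haodd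
    have hz : z1 = 2 * (k1 - zc - A.index) := by linarith
    have hw : w0 = 2 * (k2 - yc - thZ l (2 ^ v) * (k1 - zc - A.index) + thZ l (2 ^ v) * w0) := by
      rw [hz] at hk5
      linarith
    have hfin : (a : ℤ) = 2 * (k - g0 -
        (k2 - yc - thZ l (2 ^ v) * (k1 - zc - A.index) + thZ l (2 ^ v) * w0)) := by
      linarith
    omega

theorem PXU_thm (h1 : Stmt_DCL) (h2 : Stmt_GRT) (h3 : Stmt_RSM) (h4 : Stmt_MST) (h5 : Stmt_TVL)
    (h6 : Stmt_TCT) (h7 : Stmt_SY2) (h8 : Stmt_INV) : Stmt_PXU := by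
  intro G _ _ n N D hD hn p hp hp2 hnp l hl hodd
  have := Fintype.ofFinite G
  have := Fact.mk hl
  have := Fact.mk hp
  have hln : l ∣ n := by
    rcases hodd with ⟨k, hk⟩
    exact Nat.dvd_of_factorization_pos (by omega)
  have hl2 : l ≠ 2 := by
    intro h
    rw [h] at hln
    omega
  have hl4 : l % 4 = 1 := ((h7 G n N D hD l hl hodd).1 (Or.inl hn)).resolve_left hl2
  have hsq := PXU_main h1 h2 h3 h4 h5 h6 h8 n N D hD hn p hp hp2 hnp l hl hodd hl2
  exact (ZMod.exists_sq_eq_prime_iff_of_mod_four_eq_one hl4 hp2).1 hsq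

end Pool.Agent.ADG
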