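import Pool.Agent.ADG.St3

/-!
# Module QSM of project ADG, part 3 (MP_43d07b_co): the final sum (helper13)

The proof follows the doc string of `Stmt_QSM`.
-/

set_option autoImplicit false

namespace Pool.Agent.ADG

namespace QSMm

open Finset

/-- the weight of `(c, d)` -/
noncomputable def wt (c d : ℕ) : ℝ := ((c : ℝ) * d) ^ (1 / 2 : ℝ) / ((c : ℝ) ^ 2 * d ^ 2)

lemma wt_nonneg (c d : ℕ) : 0 ≤ wt c d := by
  unfold wt
  positivity

lemma wt_eq (c d : ℕ) : wt c d = (Real.sqrt c / (c : ℝ) ^ 2) * (Real.sqrt d / (d : ℝ) ^ 2) := by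
  unfold wt
  rw [← Real.sqrt_eq_rpow, Real.sqrt_mul (Nat.cast_nonneg c)]
  by_cases hc : (c : ℝ) = 0
  · simp [hc]
  by_cases hd : (d : ℝ) = 0
  · simp [hd]
  field_simp

lemma sum_sqrt (n : ℕ) (hn : 1 ≤ n) :
    ∑ c ∈ Icc 1 n, Real.sqrt c / (c : ℝ) ^ 2 ≤ 3 - 2 / Real.sqrt n := by
  induction n, hn using Nat.le_induction with
  | base => simp; norm_num
  | succ n hn ih =>
    rw [Finset.sum_Icc_succ_top (by omega)]
    have hn0 : (0 : ℝ) < n := by exact_mod_cast hn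
    set s := Real.sqrt (n : ℝ) with hs
    set t := Real.sqrt ((n + 1 : ℕ) : ℝ) with ht
    have hs0 : 0 < s := Real.sqrt_pos.2 hn0
    have ht0 : 0 < t := Real.sqrt_pos.2 (by positivity)
    have hs2 : s ^ 2 = n := Real.sq_sqrt hn0.le
    have ht2 : t ^ 2 = n + 1 := by
      have := Real.sq_sqrt (show (0 : ℝ) ≤ ((n + 1 : ℕ) : ℝ) by positivity)
      rw [← ht] at this
      rw [this]
      push_cast
      ring
    have hst : s ≤ t := Real.sqrt_le_sqrt (by push_cast; linarith)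
    have hcast : (((n + 1 : ℕ) : ℝ)) = t ^ 2 := by rw [ht2]; push_cast; ring
    rw [hcast]
    have key : t / (t ^ 2) ^ 2 ≤ 2 / s - 2 / t := by
      have e1 : t / (t ^ 2) ^ 2 = 1 / t ^ 3 := by
        field_simp
      have e2 : 2 / s - 2 / t = 2 * (t ^ 2 - s ^ 2) / (s * t * (t + s)) := by
        field_simp
        ring
      have e3 : t ^ 2 - s ^ 2 = 1 := by rw [ht2, hs2]; ring
      rw [e1, e2, e3, div_le_div_iff₀ (by positivity) (by positivity)]
      have h1 : s * t ≤ t * t := mul_le_mul_of_nonneg_right hst ht0.le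
      have h2 : s * t * (t + s) ≤ t * t * (2 * t) := by
        apply mul_le_mul h1 (by linarith) (by positivity) (by positivity)
      nlinarith
    linarith

lemma sum_sqrt_le (n : ℕ) : ∑ c ∈ Icc 1 n, Real.sqrt c / (c : ℝ) ^ 2 ≤ 3 := by
  rcases Nat.eq_zero_or_pos n with h | h
  · subst h; simp
  · have h1 := sum_sqrt n h
    have h2 : 0 ≤ 2 / Real.sqrt n := by positivity
    linarith

lemma sum_wt (L : ℕ) : ∑ c ∈ Icc 1 L, ∑ d ∈ Icc 1 L, wt c d ≤ 9 := by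
  have e : ∑ c ∈ Icc 1 L, ∑ d ∈ Icc 1 L, wt c d =
      (∑ c ∈ Icc 1 L, Real.sqrt c / (c : ℝ) ^ 2) * (∑ d ∈ Icc 1 L, Real.sqrt d / (d : ℝ) ^ 2) := by
    rw [Finset.sum_mul_sum]
    refine sum_congr rfl fun c _ => sum_congr rfl fun d _ => wt_eq c d
  rw [e]
  have h := sum_sqrt_le L
  have h0 : 0 ≤ ∑ c ∈ Icc 1 L, Real.sqrt c / (c : ℝ) ^ 2 := by positivity
  nlinarith

/-- multiples of `c^2` -/
lemma card_mult (X c : ℕ) :
    (((Icc 2 X).filter (fun n => c ^ 2 ∣ n)).card : ℝ) ≤ X * ((c : ℝ) ^ 2)⁻¹ := by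
  have h1 : ((Icc 2 X).filter (fun n => c ^ 2 ∣ n)).card ≤ X / c ^ 2 := by
    rw [← Nat.Ioc_filter_dvd_card_eq_div]
    apply card_le_card
    intro n hn
    rw [mem_filter, mem_Icc] at hn
    rw [mem_filter, mem_Ioc]
    exact ⟨⟨by omega, hn.1.2⟩, hn.2⟩
  calc (((Icc 2 X).filter (fun n => c ^ 2 ∣ n)).card : ℝ) ≤ ((X / c ^ 2 : ℕ) : ℝ) := by
        exact_mod_cast h1
    _ ≤ (X : ℝ) / ((c ^ 2 : ℕ) : ℝ) := Nat.cast_div_le
    _ = X * ((c : ℝ) ^ 2)⁻¹ := by push_cast; rw [div_eq_mul_inv]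

/-- `d^2 ∣ n - 1` -/
lemma card_mult' (X d : ℕ) :
    (((Icc 2 X).filter (fun n => d ^ 2 ∣ n - 1)).card : ℝ) ≤ X * ((d : ℝ) ^ 2)⁻¹ := by
  have h1 : ((Icc 2 X).filter (fun n => d ^ 2 ∣ n - 1)).card ≤ X / d ^ 2 := by
    rw [← Nat.Ioc_filter_dvd_card_eq_div]
    apply card_le_card_of_injOn (fun n => n - 1)
    · intro n hn
      rw [mem_coe, mem_filter, mem_Icc] at hn
      rw [mem_coe, mem_filter, mem_Ioc]
      refine ⟨⟨?_, ?_⟩, hn.2⟩
      · show 0 < n - 1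
        omega
      · show n - 1 ≤ X
        omega
    · intro a ha b hb hab
      rw [mem_coe, mem_filter, mem_Icc] at ha hb
      have : a - 1 = b - 1 := hab
      omega
  calc (((Icc 2 X).filter (fun n => d ^ 2 ∣ n - 1)).card : ℝ) ≤ ((X / d ^ 2 : ℕ) : ℝ) := by
        exact_mod_cast h1
    _ ≤ (X : ℝ) / ((d ^ 2 : ℕ) : ℝ) := Nat.cast_div_le
    _ = X * ((d : ℝ) ^ 2)⁻¹ := by push_cast; rw [div_eq_mul_inv]

lemma tail (X L : ℕ) (hL : 1 ≤ L) (hLX : L ≤ X) :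
    ∑ c ∈ Ioc L X, (X : ℝ) * ((c : ℝ) ^ 2)⁻¹ ≤ X / L := by
  rw [← mul_sum, div_eq_mul_inv]
  apply mul_le_mul_of_nonneg_left _ (Nat.cast_nonneg X)
  have h := sum_Ioc_inv_sq_le_sub (α := ℝ) (k := L) (n := X) (by omega) hLX
  have h2 : (0 : ℝ) ≤ (X : ℝ)⁻¹ := by positivity
  linarith

/-- the choice of the parameters -/
lemma params (X : ℕ) (ℓ : ℝ) (hℓ : ℓ = Real.log X) (hX : 1 ≤ X) (h1 : (10 : ℝ) ^ 7 ≤ ℓ) :
    1 ≤ ⌊ℓ⌋₊ ∧ ⌊ℓ⌋₊ ≤ X ∧ 2 ≤ ⌊Real.exp (ℓ / 60)⌋₊ ∧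
    ℓ / 120 ≤ Real.log (⌊Real.exp (ℓ / 60)⌋₊ : ℕ) ∧
    ℓ / 2 ≤ (⌊ℓ⌋₊ : ℕ) ∧
    ((⌊ℓ⌋₊ : ℕ) : ℝ) ^ 2 * ((⌊Real.exp (ℓ / 60)⌋₊ : ℕ) : ℝ) ^ 15 ≤ X / ℓ := by
  have hℓ0 : (0 : ℝ) < ℓ := by linarith
  have hXpos : (0 : ℝ) < (X : ℝ) := by exact_mod_cast hX
  have hXe : (X : ℝ) = Real.exp ℓ := by rw [hℓ, Real.exp_log hXpos]
  set u : ℝ := Real.exp (ℓ / 60) with hu
  have hu0 : 0 < u := Real.exp_pos _
  have hf1 : ((⌊ℓ⌋₊ : ℕ) : ℝ) ≤ ℓ := Nat.floor_le hℓ0.le
  have hf2 : ℓ < (⌊ℓ⌋₊ : ℕ) + 1 := Nat.lt_floor_add_one _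
  have hz1 : ((⌊u⌋₊ : ℕ) : ℝ) ≤ u := Nat.floor_le hu0.le
  have hz2 : u < (⌊u⌋₊ : ℕ) + 1 := Nat.lt_floor_add_one _
  have hbig : (4 : ℝ) ≤ u := by
    have := Real.add_one_le_exp (ℓ / 60)
    linarith
  refine ⟨?_, ?_, ?_, ?_, ?_, ?_⟩
  · apply Nat.le_floor
    push_cast
    linarith
  · have : ((⌊ℓ⌋₊ : ℕ) : ℝ) ≤ (X : ℝ) := by
      have := Real.add_one_le_exp ℓ
      rw [hXe]
      linarith
    exact_mod_cast this
  · apply Nat.le_floor
    push_cast
    linarith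
  · have hv : Real.exp (ℓ / 120) ≤ (⌊u⌋₊ : ℕ) := by
      have h1 : u = Real.exp (ℓ / 120) * Real.exp (ℓ / 120) := by
        rw [hu, ← Real.exp_add]; congr 1; ring
      have h2 : ℓ / 120 + 1 ≤ Real.exp (ℓ / 120) := Real.add_one_le_exp _
      have h3 : (2 : ℝ) ≤ Real.exp (ℓ / 120) := by linarith
      nlinarith
    calc ℓ / 120 = Real.log (Real.exp (ℓ / 120)) := by rw [Real.log_exp]
      _ ≤ Real.log (⌊u⌋₊ : ℕ) := Real.log_le_log (Real.exp_pos _) hv
  · linarith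
  · rw [le_div_iff₀ hℓ0, hXe]
    have h2 : ((⌊u⌋₊ : ℕ) : ℝ) ^ 15 ≤ u ^ 15 := pow_le_pow_left₀ (Nat.cast_nonneg _) hz1 15
    have h3 : u ^ 15 = Real.exp (15 * (ℓ / 60)) := by
      rw [hu, ← Real.exp_nat_mul]; norm_num
    have h4 : ((⌊ℓ⌋₊ : ℕ) : ℝ) ^ 2 ≤ ℓ ^ 2 := pow_le_pow_left₀ (Nat.cast_nonneg _) hf1 2
    have h5 : ℓ ^ 3 ≤ Real.exp (45 * (ℓ / 60)) := by
      have h := Real.pow_div_factorial_le_exp (45 * (ℓ / 60)) (by positivity) 4
      have hf : ((Nat.factorial 4 : ℕ) : ℝ) = 24 := by norm_num [Nat.factorial]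
      rw [hf] at h
      have h6 : ℓ ^ 3 ≤ (45 * (ℓ / 60)) ^ 4 / 24 := by
        have e : (45 * (ℓ / 60)) ^ 4 / 24 = ℓ ^ 3 * (ℓ * (81 / 6144)) := by ring
        rw [e]
        have h7 : (1 : ℝ) ≤ ℓ * (81 / 6144) := by nlinarith
        have h8 : 0 < ℓ ^ 3 := by positivity
        nlinarith
      linarith
    calc ((⌊ℓ⌋₊ : ℕ) : ℝ) ^ 2 * ((⌊u⌋₊ : ℕ) : ℝ) ^ 15 * ℓ
        ≤ ℓ ^ 2 * u ^ 15 * ℓ := by
          apply mul_le_mul_of_nonneg_right _ hℓ0.le
          exact mul_le_mul h4 h2 (by positivity) (by positivity)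
      _ = ℓ ^ 3 * u ^ 15 := by ring
      _ ≤ Real.exp (45 * (ℓ / 60)) * Real.exp (15 * (ℓ / 60)) := by
          rw [h3]
          exact mul_le_mul_of_nonneg_right h5 (Real.exp_pos _).le
      _ = Real.exp ℓ := by rw [← Real.exp_add]; congr 1; ring

open Classical in
/-- the sets `T1` -/
noncomputable def F1 (X z c d l p : ℕ) : Finset ℕ := if OK1 z c d l p then T1 X c d l p else ∅

open Classical in
/-- the sets `T2` -/
noncomputable def F2 (X z c d l l' p : ℕ) : Finset ℕ :=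
  if OK1 z c d l p ∧ OK1 z c d l' p ∧ l < l' ∧ l' < p then T2 X c d l l' p else ∅

open Classical in
/-- the sets `T3` -/
noncomputable def F3 (X z c d p p' l : ℕ) : Finset ℕ :=
  if OK1 z c d l p ∧ OK1 z c d l p' ∧ p < p' ∧ p' < l then T3 X c d p p' l else ∅

/-- all sets for `(c, d)` -/
noncomputable def G (X z c d : ℕ) : Finset ℕ :=
  (T0 X z c d ∪ ((Icc 1 z).filter Nat.Prime).biUnion fun l =>
    ((Icc 1 z).filter Nat.Prime).biUnion fun p => F1 X z c d l p) ∪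
  ((((Icc 1 z).filter Nat.Prime).biUnion fun l => ((Icc 1 z).filter Nat.Prime).biUnion fun l' =>
    ((Icc 1 z).filter Nat.Prime).biUnion fun p => F2 X z c d l l' p) ∪
  ((Icc 1 z).filter Nat.Prime).biUnion fun l => ((Icc 1 z).filter Nat.Prime).biUnion fun l' =>
    ((Icc 1 z).filter Nat.Prime).biUnion fun p => F3 X z c d l l' p)

lemma mem_P {z c d l p : ℕ} (h : OK1 z c d l p) :
    l ∈ (Icc 1 z).filter Nat.Prime ∧ p ∈ (Icc 1 z).filter Nat.Prime := by
  obtain ⟨h1, h2, h3, h4, h5, h6, -⟩ := h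
  exact ⟨mem_filter.2 ⟨mem_Icc.2 ⟨h1.one_lt.le, h5⟩, h1⟩,
    mem_filter.2 ⟨mem_Icc.2 ⟨h2.one_lt.le, h6⟩, h2⟩⟩

lemma card_P (z : ℕ) : (((Icc 1 z).filter Nat.Prime).card : ℝ) ≤ z := by
  have : ((Icc 1 z).filter Nat.Prime).card ≤ z := by
    calc ((Icc 1 z).filter Nat.Prime).card ≤ (Icc 1 z).card := card_filter_le _ _
      _ = z := by rw [Nat.card_Icc]; omega
  exact_mod_cast this

/-- a double sum with error -/
lemma two (P : Finset ℕ) (z : ℝ) (hP : (P.card : ℝ) ≤ z) (F : ℕ → ℕ → Finset ℕ) (K e : ℝ)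
    (he : 0 ≤ e) (a : ℕ → ℕ → ℝ)
    (h : ∀ l ∈ P, ∀ p ∈ P, ((F l p).card : ℝ) ≤ K * a l p + e) :
    ((P.biUnion fun l => P.biUnion fun p => F l p).card : ℝ) ≤
      K * (∑ l ∈ P, ∑ p ∈ P, a l p) + z ^ 2 * e := by
  have hz0 : 0 ≤ z := le_trans (Nat.cast_nonneg _) hP
  have s1 : ((P.biUnion (fun l => P.biUnion (fun p => F l p))).card : ℝ) ≤
      ∑ l ∈ P, ∑ p ∈ P, ((F l p).card : ℝ) := by
    have t1 : (P.biUnion (fun l => P.biUnion (fun p => F l p))).card ≤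
        ∑ l ∈ P, ∑ p ∈ P, (F l p).card := by
      refine card_biUnion_le.trans (sum_le_sum fun l _ => card_biUnion_le)
    exact_mod_cast t1
  refine s1.trans ?_
  calc ∑ l ∈ P, ∑ p ∈ P, ((F l p).card : ℝ)
      ≤ ∑ l ∈ P, ∑ p ∈ P, (K * a l p + e) := sum_le_sum fun l hl => sum_le_sum fun p hp => h l hl p hp
    _ = K * (∑ l ∈ P, ∑ p ∈ P, a l p) + (P.card : ℝ) * ((P.card : ℝ) * e) := by
        simp only [sum_add_distrib, sum_const, nsmul_eq_mul, mul_sum]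
    _ ≤ K * (∑ l ∈ P, ∑ p ∈ P, a l p) + z ^ 2 * e := by
        have : (P.card : ℝ) * ((P.card : ℝ) * e) ≤ z * (z * e) := by
          apply mul_le_mul hP _ (by positivity) hz0
          exact mul_le_mul_of_nonneg_right hP he
        nlinarith

/-- a triple sum with error -/
lemma three (P : Finset ℕ) (z : ℝ) (hP : (P.card : ℝ) ≤ z) (F : ℕ → ℕ → ℕ → Finset ℕ) (K e : ℝ)
    (he : 0 ≤ e) (a : ℕ → ℕ → ℕ → ℝ)
    (h : ∀ l ∈ P, ∀ m ∈ P, ∀ p ∈ P, ((F l m p).card : ℝ) ≤ K * a l m p + e) :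
    ((P.biUnion fun l => P.biUnion fun m => P.biUnion fun p => F l m p).card : ℝ) ≤
      K * (∑ l ∈ P, ∑ m ∈ P, ∑ p ∈ P, a l m p) + z ^ 3 * e := by
  have hz0 : 0 ≤ z := le_trans (Nat.cast_nonneg _) hP
  have s1 : ((P.biUnion fun l => P.biUnion fun m => P.biUnion fun p => F l m p).card : ℝ) ≤
      ∑ l ∈ P, ((P.biUnion fun m => P.biUnion fun p => F l m p).card : ℝ) := by
    exact_mod_cast card_biUnion_le
  refine s1.trans ?_
  calc ∑ l ∈ P, ((P.biUnion fun m => P.biUnion fun p => F l m p).card : ℝ)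
      ≤ ∑ l ∈ P, (K * (∑ m ∈ P, ∑ p ∈ P, a l m p) + z ^ 2 * e) :=
        sum_le_sum fun l hl => two P z hP (F l) K e he (a l) (h l hl)
    _ = K * (∑ l ∈ P, ∑ m ∈ P, ∑ p ∈ P, a l m p) + (P.card : ℝ) * (z ^ 2 * e) := by
        simp only [sum_add_distrib, sum_const, nsmul_eq_mul, mul_sum]
    _ ≤ K * (∑ l ∈ P, ∑ m ∈ P, ∑ p ∈ P, a l m p) + z ^ 3 * e := by
        have : (P.card : ℝ) * (z ^ 2 * e) ≤ z * (z ^ 2 * e) :=
          mul_le_mul_of_nonneg_right hP (by positivity)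
        nlinarith

/-- the count for one pair `(c, d)` -/
lemma one_pair {C0 C1 C2 C3 CS : ℝ} (hC0 : 0 < C0) (hC1 : 0 < C1) (hC2 : 0 < C2) (hC3 : 0 < C3)
    {X z : ℕ} (hz : 2 ≤ z) {c d : ℕ} (hc : 1 ≤ c) (hd : 1 ≤ d)
    (h0 : ((T0 X z c d).card : ℝ) ≤
      C0 * X * ((c : ℝ) * d) ^ (1 / 4 : ℝ) / ((c : ℝ) ^ 2 * d ^ 2 * Real.log z) + 2 * (z : ℝ) ^ 12)
    (h1 : ∀ l p : ℕ, OK1 z c d l p → ((T1 X c d l p).card : ℝ) ≤
      C1 * X * ((c : ℝ) * d) ^ (1 / 2 : ℝ) /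
      ((c : ℝ) ^ 2 * d ^ 2 * (l * p * Real.log (max l p : ℕ) * Real.log z)) + (z : ℝ) ^ 12)
    (h2 : ∀ l l' p : ℕ, OK1 z c d l p → OK1 z c d l' p → l < l' → l' < p →
      ((T2 X c d l l' p).card : ℝ) ≤
        C2 * X * ((c : ℝ) * d) ^ (1 / 2 : ℝ) * (Real.log p) ^ (1 / 4 : ℝ) /
        ((c : ℝ) ^ 2 * d ^ 2 * (l * l' * p * Real.log l' * (Real.log z) ^ (5 / 4 : ℝ))) +
        (z : ℝ) ^ 12)
    (h3 : ∀ p p' l : ℕ, OK1 z c d l p → OK1 z c d l p' → p < p' → p' < l →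
      ((T3 X c d p p' l).card : ℝ) ≤
        C3 * X * ((c : ℝ) * d) ^ (1 / 2 : ℝ) * (Real.log l) ^ (1 / 4 : ℝ) /
        ((c : ℝ) ^ 2 * d ^ 2 * (p * p' * l * Real.log p' * (Real.log z) ^ (5 / 4 : ℝ))) +
        (z : ℝ) ^ 12)
    (hS1 : ∑ l ∈ (Icc 1 z).filter Nat.Prime, ∑ p ∈ (Icc 1 z).filter Nat.Prime,
      (if l = p then (0 : ℝ) else 1 / (l * p * Real.log (max l p : ℕ))) ≤ CS)
    (hS2 : ∑ l ∈ (Icc 1 z).filter Nat.Prime, ∑ l' ∈ (Icc 1 z).filter Nat.Prime,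
      ∑ p ∈ (Icc 1 z).filter Nat.Prime,
      (if l < l' then (Real.log p) ^ (1 / 4 : ℝ) / (l * l' * p * Real.log l') else (0 : ℝ)) ≤
      CS * (Real.log z) ^ (1 / 4 : ℝ)) :
    ((G X z c d).card : ℝ) ≤
      (C0 + C1 * CS + C2 * CS + C3 * CS) * (X / Real.log z) * wt c d + 5 * (z : ℝ) ^ 15 := by
  classical
  set P := (Icc 1 z).filter Nat.Prime with hP
  have hPc : (P.card : ℝ) ≤ z := card_P z
  have hc0 : (0 : ℝ) < c := by exact_mod_cast hc
  have hd0 : (0 : ℝ) < d := by exact_mod_cast hd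
  have hz1 : (1 : ℝ) < z := by exact_mod_cast (by omega : 1 < z)
  have hlz : 0 < Real.log z := Real.log_pos hz1
  have hcd1 : (1 : ℝ) ≤ (c : ℝ) * d := by
    have : 1 ≤ c * d := Nat.mul_pos hc hd
    exact_mod_cast this
  have hX0 : (0 : ℝ) ≤ X := Nat.cast_nonneg X
  have hP1 : ∀ l ∈ P, l.Prime := fun l hl => (mem_filter.1 hl).2
  have hp0 : ∀ l : ℕ, l.Prime → (0 : ℝ) < l := fun l hl => by exact_mod_cast hl.pos
  have hpl : ∀ l : ℕ, l.Prime → (0 : ℝ) < Real.log l := fun l hl =>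
    Real.log_pos (by exact_mod_cast hl.one_lt)
  set w : ℝ := ((c : ℝ) * d) ^ (1 / 2 : ℝ) with hw
  have hw0 : 0 < w := by rw [hw]; positivity
  have hwt : wt c d = w / ((c : ℝ) ^ 2 * d ^ 2) := rfl
  have h54 : (Real.log z) ^ (5 / 4 : ℝ) = Real.log z * (Real.log z) ^ (1 / 4 : ℝ) := by
    rw [show (5 / 4 : ℝ) = 1 + 1 / 4 by norm_num, Real.rpow_add hlz, Real.rpow_one]
  set t : ℝ := (Real.log z) ^ (1 / 4 : ℝ) with ht
  have ht0 : 0 < t := Real.rpow_pos_of_pos hlz _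
  -- T0
  have b0 : ((T0 X z c d).card : ℝ) ≤ C0 * (X / Real.log z) * wt c d + 2 * (z : ℝ) ^ 12 := by
    refine h0.trans ?_
    have e1 : ((c : ℝ) * d) ^ (1 / 4 : ℝ) ≤ w :=
      Real.rpow_le_rpow_of_exponent_le hcd1 (by norm_num)
    have e2 : C0 * X * ((c : ℝ) * d) ^ (1 / 4 : ℝ) / ((c : ℝ) ^ 2 * d ^ 2 * Real.log z) ≤
        C0 * X * w / ((c : ℝ) ^ 2 * d ^ 2 * Real.log z) := by
      apply div_le_div_of_nonneg_right _ (by positivity)
      exact mul_le_mul_of_nonneg_left e1 (by positivity)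
    have e3 : C0 * X * w / ((c : ℝ) ^ 2 * d ^ 2 * Real.log z) =
        C0 * (X / Real.log z) * wt c d := by
      rw [hwt]
      field_simp
    linarith
  -- T1
  have b1 : (((P.biUnion fun l => P.biUnion fun p => F1 X z c d l p)).card : ℝ) ≤
      C1 * CS * (X / Real.log z) * wt c d + (z : ℝ) ^ 14 := by
    have hb := two P z hPc (F1 X z c d) (C1 * (X / Real.log z) * wt c d) ((z : ℝ) ^ 12)
      (by positivity)
      (fun l p => if l = p then (0 : ℝ) else 1 / (l * p * Real.log (max l p : ℕ))) (by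
      intro l hl p hp
      have hmax : 0 < Real.log (max l p : ℕ) := by
        apply Real.log_pos
        have : 1 < max l p := lt_max_of_lt_left (hP1 l hl).one_lt
        exact_mod_cast this
      have hl0 := hp0 l (hP1 l hl)
      have hq0 := hp0 p (hP1 p hp)
      have hwn := wt_nonneg c d
      by_cases hok : OK1 z c d l p
      · have hne : l ≠ p := hok.2.2.2.2.2.2.1
        have e := h1 l p hok
        rw [F1, if_pos hok, if_neg hne]
        refine e.trans (le_of_eq ?_)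
        rw [hwt]
        field_simp
      · rw [F1, if_neg hok, card_empty, Nat.cast_zero]
        apply add_nonneg _ (by positivity)
        apply mul_nonneg (by positivity)
        split_ifs
        · exact le_refl _
        · positivity)
    refine hb.trans ?_
    have hwn := wt_nonneg c d
    have e1 : C1 * (X / Real.log z) * wt c d * (∑ l ∈ P, ∑ p ∈ P,
        (if l = p then (0 : ℝ) else 1 / (l * p * Real.log (max l p : ℕ)))) ≤
        C1 * (X / Real.log z) * wt c d * CS :=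
      mul_le_mul_of_nonneg_left hS1 (by positivity)
    have e2 : (z : ℝ) ^ 2 * (z : ℝ) ^ 12 = (z : ℝ) ^ 14 := by ring
    nlinarith
  -- T2
  have b2 : (((P.biUnion fun l => P.biUnion fun l' => P.biUnion fun p =>
      F2 X z c d l l' p)).card : ℝ) ≤
      C2 * CS * (X / Real.log z) * wt c d + (z : ℝ) ^ 15 := by
    have hwn := wt_nonneg c d
    have hb := three P z hPc (F2 X z c d) (C2 * (X / (Real.log z * t)) * wt c d) ((z : ℝ) ^ 12)
      (by positivity)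
      (fun l l' p => if l < l' then (Real.log p) ^ (1 / 4 : ℝ) / (l * l' * p * Real.log l')
        else (0 : ℝ)) (by
      intro l hl l' hl' p hp
      have hl0 := hp0 l (hP1 l hl)
      have hl0' := hp0 l' (hP1 l' hl')
      have hq0 := hp0 p (hP1 p hp)
      have hll := hpl l' (hP1 l' hl')
      have hlp := hpl p (hP1 p hp)
      by_cases hok : OK1 z c d l p ∧ OK1 z c d l' p ∧ l < l' ∧ l' < p
      · have e := h2 l l' p hok.1 hok.2.1 hok.2.2.1 hok.2.2.2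
        rw [F2, if_pos hok, if_pos hok.2.2.1]
        refine e.trans (le_of_eq ?_)
        rw [hwt, h54]
        field_simp
      · rw [F2, if_neg hok, card_empty, Nat.cast_zero]
        apply add_nonneg _ (by positivity)
        apply mul_nonneg (by positivity)
        split_ifs
        · positivity
        · exact le_refl _)
    refine hb.trans ?_
    have e1 := mul_le_mul_of_nonneg_left hS2
      (show 0 ≤ C2 * (X / (Real.log z * t)) * wt c d by positivity)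
    have e2 : (z : ℝ) ^ 3 * (z : ℝ) ^ 12 = (z : ℝ) ^ 15 := by ring
    have e3 : C2 * (X / (Real.log z * t)) * wt c d * (CS * t) =
        C2 * CS * (X / Real.log z) * wt c d := by
      field_simp
    rw [e3] at e1
    rw [e2]
    linarith
  -- T3
  have b3 : (((P.biUnion fun l => P.biUnion fun l' => P.biUnion fun p =>
      F3 X z c d l l' p)).card : ℝ) ≤
      C3 * CS * (X / Real.log z) * wt c d + (z : ℝ) ^ 15 := by
    have hwn := wt_nonneg c d
    have hb := three P z hPc (F3 X z c d) (C3 * (X / (Real.log z * t)) * wt c d) ((z : ℝ) ^ 12)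
      (by positivity)
      (fun l l' p => if l < l' then (Real.log p) ^ (1 / 4 : ℝ) / (l * l' * p * Real.log l')
        else (0 : ℝ)) (by
      intro l hl l' hl' p hp
      have hl0 := hp0 l (hP1 l hl)
      have hl0' := hp0 l' (hP1 l' hl')
      have hq0 := hp0 p (hP1 p hp)
      have hll := hpl l' (hP1 l' hl')
      have hlp := hpl p (hP1 p hp)
      by_cases hok : OK1 z c d p l ∧ OK1 z c d p l' ∧ l < l' ∧ l' < p
      · have e := h3 l l' p hok.1 hok.2.1 hok.2.2.1 hok.2.2.2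
        rw [F3, if_pos hok, if_pos hok.2.2.1]
        refine e.trans (le_of_eq ?_)
        rw [hwt, h54]
        field_simp
      · rw [F3, if_neg hok, card_empty, Nat.cast_zero]
        apply add_nonneg _ (by positivity)
        apply mul_nonneg (by positivity)
        split_ifs
        · positivity
        · exact le_refl _)
    refine hb.trans ?_
    have e1 := mul_le_mul_of_nonneg_left hS2
      (show 0 ≤ C3 * (X / (Real.log z * t)) * wt c d by positivity)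
    have e2 : (z : ℝ) ^ 3 * (z : ℝ) ^ 12 = (z : ℝ) ^ 15 := by ring
    have e3 : C3 * (X / (Real.log z * t)) * wt c d * (CS * t) =
        C3 * CS * (X / Real.log z) * wt c d := by
      field_simp
    rw [e3] at e1
    rw [e2]
    linarith
  have hcard : ((G X z c d).card : ℝ) ≤ (T0 X z c d).card +
      (P.biUnion fun l => P.biUnion fun p => F1 X z c d l p).card +
      ((P.biUnion fun l => P.biUnion fun l' => P.biUnion fun p => F2 X z c d l l' p).card +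
      (P.biUnion fun l => P.biUnion fun l' => P.biUnion fun p => F3 X z c d l l' p).card) := by
    have t : (G X z c d).card ≤ (T0 X z c d).card +
      (P.biUnion fun l => P.biUnion fun p => F1 X z c d l p).card +
      ((P.biUnion fun l => P.biUnion fun l' => P.biUnion fun p => F2 X z c d l l' p).card +
      (P.biUnion fun l => P.biUnion fun l' => P.biUnion fun p => F3 X z c d l l' p).card) := by
      unfold G
      refine (card_union_le _ _).trans (add_le_add (card_union_le _ _) (card_union_le _ _))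
    exact_mod_cast t
  have z12 : (z : ℝ) ^ 12 ≤ (z : ℝ) ^ 15 := pow_le_pow_right₀ hz1.le (by norm_num)
  have z14 : (z : ℝ) ^ 14 ≤ (z : ℝ) ^ 15 := pow_le_pow_right₀ hz1.le (by norm_num)
  have hfin : (C0 + C1 * CS + C2 * CS + C3 * CS) * (X / Real.log z) * wt c d =
      C0 * (X / Real.log z) * wt c d + C1 * CS * (X / Real.log z) * wt c d +
      (C2 * CS * (X / Real.log z) * wt c d + C3 * CS * (X / Real.log z) * wt c d) := by ring
  rw [hfin]
  linarith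

open Classical in
/-- the cover -/
lemma cover (h : Stmt_QPT) (X z L : ℕ) :
    (Icc 2 X).filter (fun n => QRC n) ⊆
    (((Ioc L X).biUnion fun c => (Icc 2 X).filter (fun n => c ^ 2 ∣ n)) ∪
      ((Ioc L X).biUnion fun d => (Icc 2 X).filter (fun n => d ^ 2 ∣ n - 1))) ∪
    (Icc 1 L).biUnion fun c => (Icc 1 L).biUnion fun d => G X z c d := by
  classical
  intro n hn
  rw [mem_filter, mem_Icc] at hn
  obtain ⟨⟨hn2, hnX⟩, hq⟩ := hn
  obtain ⟨c, d, hc, hd, hcn, hdn, hcase⟩ := h X z L n hn2 hnX hq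
  have hle : ∀ a m : ℕ, 1 ≤ m → a ^ 2 ∣ m → a ≤ m := by
    intro a m hm ha
    have h1 := Nat.le_of_dvd (by omega) ha
    nlinarith
  rcases hcase with h1 | h1 | ⟨hcL, hdL, h1⟩
  · refine mem_union_left _ (mem_union_left _ (mem_biUnion.2 ⟨c, ?_, ?_⟩))
    · exact mem_Ioc.2 ⟨h1, (hle c n (by omega) hcn).trans hnX⟩
    · exact mem_filter.2 ⟨mem_Icc.2 ⟨hn2, hnX⟩, hcn⟩
  · refine mem_union_left _ (mem_union_right _ (mem_biUnion.2 ⟨d, ?_, ?_⟩))
    · refine mem_Ioc.2 ⟨h1, ?_⟩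
      have := hle d (n - 1) (by omega) hdn
      omega
    · exact mem_filter.2 ⟨mem_Icc.2 ⟨hn2, hnX⟩, hdn⟩
  · refine mem_union_right _ (mem_biUnion.2 ⟨c, mem_Icc.2 ⟨hc, hcL⟩,
      mem_biUnion.2 ⟨d, mem_Icc.2 ⟨hd, hdL⟩, ?_⟩⟩)
    unfold G
    rcases h1 with h1 | ⟨l, p, hok, h1⟩ | ⟨l, l', p, hok, hok', h2, h3, h1⟩ |
      ⟨p, p', l, hok, hok', h2, h3, h1⟩
    · exact mem_union_left _ (mem_union_left _ h1)
    · refine mem_union_left _ (mem_union_right _ (mem_biUnion.2 ⟨l, (mem_P hok).1,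
        mem_biUnion.2 ⟨p, (mem_P hok).2, ?_⟩⟩))
      rw [F1, if_pos hok]
      exact h1
    · refine mem_union_right _ (mem_union_left _ (mem_biUnion.2 ⟨l, (mem_P hok).1,
        mem_biUnion.2 ⟨l', (mem_P hok').1, mem_biUnion.2 ⟨p, (mem_P hok).2, ?_⟩⟩⟩))
      rw [F2, if_pos ⟨hok, hok', h2, h3⟩]
      exact h1
    · refine mem_union_right _ (mem_union_right _ (mem_biUnion.2 ⟨p, (mem_P hok).2,
        mem_biUnion.2 ⟨p', (mem_P hok').2, mem_biUnion.2 ⟨l, (mem_P hok).1, ?_⟩⟩⟩))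
      rw [F3, if_pos ⟨hok, hok', h2, h3⟩]
      exact h1

end QSMm

open Finset QSMm in
/-- (QSM) -/
theorem QSM_thm (h1 : Stmt_QPT) (h2 : Stmt_CS0) (h3 : Stmt_PI1) (h4 : Stmt_PI2) (h5 : Stmt_PI3)
    (h6 : Stmt_PSS) : Stmt_QSM := by
  classical
  obtain ⟨C0, hC0, h2⟩ := h2
  obtain ⟨C1, hC1, h3⟩ := h3
  obtain ⟨C2, hC2, h4⟩ := h4
  obtain ⟨C3, hC3, h5⟩ := h5
  obtain ⟨CS, hCS, h6⟩ := h6
  set K : ℝ := C0 + C1 * CS + C2 * CS + C3 * CS with hK
  have hK0 : 0 < K := by positivity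
  set C : ℝ := 10 ^ 7 + 9 + 1080 * K with hC
  refine ⟨C, by positivity, ?_⟩
  intro X hX
  have hX1 : (1 : ℝ) < (X : ℝ) := by exact_mod_cast (by omega : 1 < X)
  have hXpos : (0 : ℝ) < (X : ℝ) := by linarith
  set ℓ : ℝ := Real.log X with hℓ
  have hℓpos : 0 < ℓ := Real.log_pos hX1
  have hgoal : C * X / ℓ = C * (X / ℓ) := by ring
  rw [hgoal]
  by_cases hcase : (10 : ℝ) ^ 7 ≤ ℓ
  · obtain ⟨p1, p2, p3, p4, p5, p6⟩ := params X ℓ hℓ (by omega) hcase
    set L := ⌊ℓ⌋₊ with hL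
    set z := ⌊Real.exp (ℓ / 60)⌋₊ with hz
    have hLpos : (0 : ℝ) < L := by exact_mod_cast (by omega : 0 < L)
    have hlz : 0 < Real.log z := by
      have : 0 < ℓ / 120 := by positivity
      linarith
    obtain ⟨hS1, hS2⟩ := h6 z p3
    have hpair : ∀ c ∈ Icc 1 L, ∀ d ∈ Icc 1 L, ((G X z c d).card : ℝ) ≤
        K * (X / Real.log z) * wt c d + 5 * (z : ℝ) ^ 15 := by
      intro c hc d hd
      rw [mem_Icc] at hc hd
      exact one_pair hC0 hC1 hC2 hC3 p3 hc.1 hd.1 (h2 X z c d p3 hc.1 hd.1)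
        (fun l p => h3 X z c d l p hc.1 hd.1) (fun l l' p => h4 X z c d l l' p hc.1 hd.1)
        (fun p p' l => h5 X z c d p p' l hc.1 hd.1) hS1 hS2
    have hI : ((Icc 1 L).card : ℝ) ≤ L := by
      rw [Nat.card_Icc]
      simp
    have hU := two (Icc 1 L) L hI (fun c d => G X z c d) (K * (X / Real.log z))
      (5 * (z : ℝ) ^ 15) (by positivity) wt hpair
    have hW : K * (X / Real.log z) * (∑ c ∈ Icc 1 L, ∑ d ∈ Icc 1 L, wt c d) ≤
        1080 * K * (X / ℓ) := by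
      have e1 : K * (X / Real.log z) * (∑ c ∈ Icc 1 L, ∑ d ∈ Icc 1 L, wt c d) ≤
          K * (X / Real.log z) * 9 := mul_le_mul_of_nonneg_left (sum_wt L) (by positivity)
      have e2 : 1 / Real.log z ≤ 120 / ℓ := by
        rw [div_le_div_iff₀ hlz hℓpos]
        linarith
      calc K * (X / Real.log z) * (∑ c ∈ Icc 1 L, ∑ d ∈ Icc 1 L, wt c d)
          ≤ K * (X / Real.log z) * 9 := e1
        _ = K * X * 9 * (1 / Real.log z) := by ring
        _ ≤ K * X * 9 * (120 / ℓ) := mul_le_mul_of_nonneg_left e2 (by positivity)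
        _ = 1080 * K * (X / ℓ) := by ring
    have hE : (L : ℝ) ^ 2 * (5 * (z : ℝ) ^ 15) ≤ 5 * (X / ℓ) := by
      have : (L : ℝ) ^ 2 * (5 * (z : ℝ) ^ 15) = 5 * ((L : ℝ) ^ 2 * (z : ℝ) ^ 15) := by ring
      rw [this]
      linarith
    -- the multiples of squares
    have hA1 : ((((Ioc L X).biUnion fun c => (Icc 2 X).filter (fun n => c ^ 2 ∣ n))).card : ℝ) ≤
        X / L := by
      refine le_trans ?_ (tail X L p1 p2)
      calc ((((Ioc L X).biUnion fun c => (Icc 2 X).filter (fun n => c ^ 2 ∣ n))).card : ℝ)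
          ≤ ∑ c ∈ Ioc L X, (((Icc 2 X).filter (fun n => c ^ 2 ∣ n)).card : ℝ) := by
            exact_mod_cast card_biUnion_le
        _ ≤ _ := sum_le_sum fun c _ => card_mult X c
    have hA2 : ((((Ioc L X).biUnion fun d => (Icc 2 X).filter (fun n => d ^ 2 ∣ n - 1))).card : ℝ) ≤
        X / L := by
      refine le_trans ?_ (tail X L p1 p2)
      calc ((((Ioc L X).biUnion fun d => (Icc 2 X).filter (fun n => d ^ 2 ∣ n - 1))).card : ℝ)
          ≤ ∑ d ∈ Ioc L X, (((Icc 2 X).filter (fun n => d ^ 2 ∣ n - 1)).card : ℝ) := by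
            exact_mod_cast card_biUnion_le
        _ ≤ _ := sum_le_sum fun d _ => card_mult' X d
    have hXL : (X : ℝ) / L ≤ 2 * (X / ℓ) := by
      have e : 2 * ((X : ℝ) / ℓ) = X / (ℓ / 2) := by field_simp
      rw [e]
      exact div_le_div_of_nonneg_left hXpos.le (by positivity) p5
    have hcov := cover h1 X z L
    have hcard : ((((Icc 2 X).filter (fun n => QRC n))).card : ℝ) ≤
        (((Ioc L X).biUnion fun c => (Icc 2 X).filter (fun n => c ^ 2 ∣ n)).card : ℝ) +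
        ((Ioc L X).biUnion fun d => (Icc 2 X).filter (fun n => d ^ 2 ∣ n - 1)).card +
        ((Icc 1 L).biUnion fun c => (Icc 1 L).biUnion fun d => G X z c d).card := by
      have t := (card_le_card hcov).trans ((card_union_le _ _).trans
        (add_le_add (card_union_le _ _) le_rfl))
      exact_mod_cast t
    have hfin : C * ((X : ℝ) / ℓ) = 10 ^ 7 * (X / ℓ) + 9 * (X / ℓ) + 1080 * K * (X / ℓ) := by
      rw [hC]; ring
    have hpos : 0 ≤ (X : ℝ) / ℓ := by positivity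
    rw [hfin]
    have hU' : ((((Icc 1 L).biUnion fun c => (Icc 1 L).biUnion fun d => G X z c d)).card : ℝ) ≤
      K * (X / Real.log z) * (∑ c ∈ Icc 1 L, ∑ d ∈ Icc 1 L, wt c d) +
        (L : ℝ) ^ 2 * (5 * (z : ℝ) ^ 15) := hU
    linarith
  · rw [not_le] at hcase
    have hc : (((Icc 2 X).filter (fun n => QRC n)).card : ℝ) ≤ X := by
      have : ((Icc 2 X).filter (fun n => QRC n)).card ≤ X := by
        calc ((Icc 2 X).filter (fun n => QRC n)).card ≤ (Icc 2 X).card := card_filter_le _ _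
          _ ≤ X := by rw [Nat.card_Icc]; omega
      exact_mod_cast this
    refine hc.trans ?_
    have e1 : (X : ℝ) = ℓ * (X / ℓ) := by field_simp
    calc (X : ℝ) = ℓ * (X / ℓ) := e1
      _ ≤ C * (X / ℓ) := by
          apply mul_le_mul_of_nonneg_right _ (by positivity)
          rw [hC]
          linarith

end Pool.Agent.ADG
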