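import Pool.Agent.ADG.St3

/-!
Module ADG_RCY of MP_43d07b_co (helper50): the characters `χ p`, `ψ l` and their products.
-/

set_option autoImplicit false

namespace Pool.Agent.ADG

open Finset Pool.Agent.ADS

namespace RCYa

/-- `(n/p)` -/
noncomputable def qc (p n : ℕ) : ℝ := ((jacobiSym (n : ℤ) p : ℤ) : ℝ)

/-- `χ₄(n)` if `p = 3 mod 4`, otherwise `1` -/
noncomputable def x4 (p n : ℕ) : ℝ :=
  if p % 4 = 3 then ((ZMod.χ₄ (n : ZMod 4) : ℤ) : ℝ) else 1

lemma qc_eq (p n : ℕ) [Fact p.Prime] :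
    qc p n = ((quadraticChar (ZMod p) (n : ZMod p) : ℤ) : ℝ) := by
  unfold qc
  rw [← jacobiSym.legendreSym.to_jacobiSym, legendreSym, Int.cast_natCast]

lemma qc_mul (p a b : ℕ) : qc p (a * b) = qc p a * qc p b := by
  unfold qc
  push_cast
  rw [jacobiSym.mul_left]
  push_cast
  rfl

lemma qc_one (p : ℕ) : qc p 1 = 1 := by
  unfold qc
  rw [Nat.cast_one, jacobiSym.one_left]
  simp

lemma qc_val (p n : ℕ) : qc p n = 0 ∨ qc p n = 1 ∨ qc p n = -1 := by
  unfold qc
  rcases jacobiSym.trichotomy (n : ℤ) p with h | h | h <;> rw [h] <;> simp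

lemma qc_per (p n : ℕ) : qc p (n + p) = qc p n := by
  unfold qc
  rw [jacobiSym.mod_left, jacobiSym.mod_left (n : ℤ)]
  push_cast
  rw [Int.add_emod_right]

lemma x4_mul (p a b : ℕ) : x4 p (a * b) = x4 p a * x4 p b := by
  unfold x4
  split_ifs
  · push_cast
    rw [map_mul]
    push_cast
    rfl
  · rw [one_mul]

lemma x4_one (p : ℕ) : x4 p 1 = 1 := by
  unfold x4
  split_ifs
  · simp
  · rfl

lemma x4_val (p n : ℕ) : x4 p n = 0 ∨ x4 p n = 1 ∨ x4 p n = -1 := by
  unfold x4
  split_ifs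
  · have h : ∀ x : ZMod 4, ZMod.χ₄ x = 0 ∨ ZMod.χ₄ x = 1 ∨ ZMod.χ₄ x = -1 := by decide
    rcases h (n : ZMod 4) with h | h | h <;> rw [h] <;> simp
  · exact Or.inr (Or.inl rfl)

lemma x4_per (p n : ℕ) : x4 p (n + 4) = x4 p n := by
  unfold x4
  have h : ((n + 4 : ℕ) : ZMod 4) = (n : ZMod 4) := by
    push_cast
    have : (4 : ZMod 4) = 0 := by decide
    rw [this, add_zero]
  rw [h]

lemma x4_ne (p n : ℕ) (hn : n % 2 = 1) : x4 p n ≠ 0 := by
  unfold x4
  split_ifs
  · rw [ZMod.χ₄_eq_neg_one_pow hn]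
    push_cast
    exact pow_ne_zero _ (by norm_num)
  · exact one_ne_zero

/-- blocks -/
lemma split (f : ℕ → ℝ) (b m : ℕ) :
    ∑ i ∈ range (m * b), f i = ∑ j ∈ range m, ∑ r ∈ range b, f (j * b + r) := by
  induction m with
  | zero => simp
  | succ m ih => rw [Nat.succ_mul, Finset.sum_range_add, ih, Finset.sum_range_succ]

/-- sum over a progression with `p` terms -/
lemma sum_prog (p : ℕ) [hp : Fact p.Prime] (hp2 : p ≠ 2) (b c : ℕ) (hb : Nat.Coprime b p) :
    ∑ j ∈ range p, qc p (c + j * b) = 0 := by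
  have hR : ringChar (ZMod p) ≠ 2 := by
    rw [ZMod.ringChar_zmod_n]
    exact hp2
  have h0 := quadraticChar_sum_zero hR
  have hz : (((∑ x : ZMod p, quadraticChar (ZMod p) x) : ℤ) : ℝ) = 0 := by rw [h0]; simp
  rw [← hz]
  push_cast
  have hu : ((b : ZMod p)) * ((b : ZMod p))⁻¹ = 1 := ZMod.coe_mul_inv_eq_one b hb
  refine Finset.sum_nbij' (fun i => ((c + i * b : ℕ) : ZMod p))
    (fun x => ((x - c) * (b : ZMod p)⁻¹).val) ?_ ?_ ?_ ?_ ?_
  · intro i _
    exact Finset.mem_univ _
  · intro x _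
    rw [Finset.mem_range]
    exact ZMod.val_lt _
  · intro i hi
    rw [Finset.mem_range] at hi
    have : (((c + i * b : ℕ) : ZMod p) - (c : ZMod p)) * (b : ZMod p)⁻¹ = (i : ZMod p) := by
      push_cast
      linear_combination (i : ZMod p) * hu
    rw [this]
    exact ZMod.val_cast_of_lt hi
  · intro x _
    push_cast
    rw [ZMod.natCast_zmod_val]
    linear_combination (x - c) * hu
  · intro i _
    exact qc_eq p _

/-- the sum of a product over a block -/
lemma sum_prod (p b : ℕ) [hp : Fact p.Prime] (hp2 : p ≠ 2) (hb : Nat.Coprime b p) (h : ℕ → ℝ)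
    (hh : ∀ n, h (n + b) = h n) (c : ℕ) :
    ∑ i ∈ range (p * b), qc p (c + i) * h (c + i) = 0 := by
  rw [split, Finset.sum_comm]
  refine Finset.sum_eq_zero fun r _ => ?_
  have hper : ∀ j : ℕ, h (c + (j * b + r)) = h (c + r) := by
    intro j
    induction j with
    | zero => rw [zero_mul, zero_add]
    | succ j ih =>
      have e : c + ((j + 1) * b + r) = (c + (j * b + r)) + b := by ring
      rw [e, hh, ih]
  have h1 := sum_prog p hp2 b (c + r) hb
  calc ∑ j ∈ range p, qc p (c + (j * b + r)) * h (c + (j * b + r))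
      = ∑ j ∈ range p, qc p (c + r + j * b) * h (c + r) := by
        refine Finset.sum_congr rfl fun j _ => ?_
        rw [hper j]
        congr 2
        ring
    _ = 0 := by rw [← Finset.sum_mul, h1, zero_mul]

lemma sum_four (f : ℕ → ℝ) (b c : ℕ) (h : ∀ c, ∑ i ∈ range b, f (c + i) = 0) :
    ∑ i ∈ range (4 * b), f (c + i) = 0 := by
  rw [split (fun i => f (c + i)) b 4]
  refine Finset.sum_eq_zero fun j _ => ?_
  rw [← h (c + j * b)]
  refine Finset.sum_congr rfl fun r _ => ?_
  rw [add_assoc]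

lemma mul_val {x y : ℝ} (hx : x = 0 ∨ x = 1 ∨ x = -1) (hy : y = 0 ∨ y = 1 ∨ y = -1) :
    x * y = 0 ∨ x * y = 1 ∨ x * y = -1 := by
  rcases hx with rfl | rfl | rfl <;> rcases hy with rfl | rfl | rfl <;> simp

lemma odd_of {q : ℕ} (hq : q.Prime) (h : q ≠ 2) : q % 2 = 1 := by
  rcases hq.eq_two_or_odd with h1 | h1
  · exact absurd h1 h
  · exact h1

lemma cast_ne {p q : ℕ} (hp : p.Prime) (hq : q.Prime) (h : q ≠ p) : ((q : ℕ) : ZMod p) ≠ 0 := by
  intro h0
  rw [ZMod.natCast_eq_zero_iff] at h0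
  exact h ((Nat.prime_dvd_prime_iff_eq hp hq).1 h0).symm

end RCYa

open RCYa in
theorem RCY_thm : Stmt_RCY := by
  refine ⟨qc, fun p n => qc p n * x4 p n, ?_⟩
  intro p hp hp2
  haveI : Fact p.Prime := ⟨hp⟩
  have hpos : 0 < p := hp.pos
  have hpodd := odd_of hp hp2
  have hc4 : Nat.Coprime 4 p := by
    have h2 : Nat.Coprime 2 p := (Nat.coprime_primes Nat.prime_two hp).2 (Ne.symm hp2)
    have h4 : (4 : ℕ) = 2 ^ 2 := by norm_num
    rw [h4]
    exact h2.pow_left 2
  have hqne : ∀ q : ℕ, q.Prime → q ≠ p → qc p q ≠ 0 := by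
    intro q hq hqp h0
    rw [qc_eq] at h0
    have h1 : quadraticChar (ZMod p) (q : ZMod p) = 0 := by exact_mod_cast h0
    rw [quadraticChar_eq_zero_iff] at h1
    exact cast_ne hp hq hqp h1
  refine ⟨⟨by positivity, qc_one p, qc_mul p, qc_val p, fun c => ?_⟩, ⟨by positivity, ?_, ?_, ?_,
    fun c => ?_⟩, ?_, ?_, ?_, ?_⟩
  · refine sum_four (qc p) p c fun c => ?_
    have h := sum_prog p hp2 1 c (Nat.coprime_one_left p)
    simpa using h
  · show qc p 1 * x4 p 1 = 1
    rw [qc_one, x4_one, one_mul]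
  · intro a b
    show qc p (a * b) * x4 p (a * b) = (qc p a * x4 p a) * (qc p b * x4 p b)
    rw [qc_mul, x4_mul]
    ring
  · intro a
    exact mul_val (qc_val p a) (x4_val p a)
  · have h := sum_prod p 4 hp2 hc4 (x4 p) (x4_per p) c
    rw [mul_comm p 4] at h
    exact h
  · intro q hq hqp
    rw [qc_eq, ← quadraticChar_one_iff_isSquare (cast_ne hp hq hqp)]
    constructor
    · intro h
      rw [h]
      simp
    · intro h
      exact_mod_cast h
  · intro q hq hq2 hqp
    haveI : Fact q.Prime := ⟨hq⟩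
    have hqodd := odd_of hq hq2
    have h1 : ((p : ℤ) : ZMod q) ≠ 0 := by
      rw [Int.cast_natCast]
      exact cast_ne hq hp (Ne.symm hqp)
    have h2 := legendreSym.eq_one_iff q h1
    rw [Int.cast_natCast] at h2
    rw [← h2]
    have h3 : legendreSym q p = (-1) ^ (p / 2 * (q / 2)) * legendreSym p q :=
      legendreSym.quadratic_reciprocity' hp2 hq2
    have h4 : qc p q = ((legendreSym p q : ℤ) : ℝ) := by
      unfold qc
      rw [← jacobiSym.legendreSym.to_jacobiSym]
    have h5 : x4 p q = (((-1) ^ (p / 2 * (q / 2)) : ℤ) : ℝ) := by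
      unfold x4
      split_ifs with h6
      · rw [ZMod.χ₄_eq_neg_one_pow hqodd, pow_mul]
        have h7 : Odd (p / 2) := by
          rw [Nat.odd_iff]
          omega
        rw [h7.neg_one_pow]
      · have h7 : Even (p / 2) := by
          rw [Nat.even_iff]
          omega
        rw [pow_mul, h7.neg_one_pow, one_pow]
        simp
    show legendreSym q p = 1 ↔ qc p q * x4 p q = 1
    rw [h4, h5, h3, mul_comm (((legendreSym p q : ℤ) : ℝ))]
    constructor
    · intro h
      exact_mod_cast h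
    · intro h
      exact_mod_cast h
  · intro q hq hq2 hqp
    exact ⟨hqne q hq hqp, mul_ne_zero (hqne q hq hqp) (x4_ne p q (odd_of hq hq2))⟩
  · intro p' hp' hp2' hpp
    haveI : Fact p'.Prime := ⟨hp'⟩
    have hpos' : 0 < p' := hp'.pos
    have hcop : Nat.Coprime p' p := (Nat.coprime_primes hp' hp).2 hpp
    refine ⟨⟨by positivity, ?_, ?_, ?_, fun c => ?_⟩, ⟨by positivity, ?_, ?_, ?_, fun c => ?_⟩⟩
    · show qc p 1 * qc p' 1 = 1
      rw [qc_one, qc_one, one_mul]
    · intro a b
      show qc p (a * b) * qc p' (a * b) = (qc p a * qc p' a) * (qc p b * qc p' b)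
      rw [qc_mul, qc_mul]
      ring
    · intro a
      exact mul_val (qc_val p a) (qc_val p' a)
    · exact sum_four (fun n => qc p n * qc p' n) (p * p') c
        (fun c => sum_prod p p' hp2 hcop (qc p') (qc_per p') c)
    · show (qc p 1 * x4 p 1) * (qc p' 1 * x4 p' 1) = 1
      rw [qc_one, qc_one, x4_one, x4_one]
      norm_num
    · intro a b
      show (qc p (a * b) * x4 p (a * b)) * (qc p' (a * b) * x4 p' (a * b)) =
        ((qc p a * x4 p a) * (qc p' a * x4 p' a)) * ((qc p b * x4 p b) * (qc p' b * x4 p' b))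
      rw [qc_mul, qc_mul, x4_mul, x4_mul]
      ring
    · intro a
      exact mul_val (mul_val (qc_val p a) (x4_val p a)) (mul_val (qc_val p' a) (x4_val p' a))
    · have hper : ∀ n, x4 p (n + 4 * p') * (qc p' (n + 4 * p') * x4 p' (n + 4 * p')) =
          x4 p n * (qc p' n * x4 p' n) := by
        intro n
        have a1 : ∀ r k : ℕ, x4 r (n + 4 * k) = x4 r n := by
          intro r k
          induction k with
          | zero => rw [mul_zero, add_zero]
          | succ k ih =>
            have e : n + 4 * (k + 1) = (n + 4 * k) + 4 := by ring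
            rw [e, x4_per, ih]
        have a2 : ∀ k : ℕ, qc p' (n + k * p') = qc p' n := by
          intro k
          induction k with
          | zero => rw [zero_mul, add_zero]
          | succ k ih =>
            have e : n + (k + 1) * p' = (n + k * p') + p' := by ring
            rw [e, qc_per, ih]
        rw [a1, a1, a2]
      have h := sum_prod p (4 * p') hp2 (Nat.Coprime.mul_left hc4 hcop)
        (fun n => x4 p n * (qc p' n * x4 p' n)) hper c
      have e : p * (4 * p') = 4 * (p * p') := by ring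
      rw [e] at h
      rw [← h]
      refine Finset.sum_congr rfl fun i _ => ?_
      ring

end Pool.Agent.ADG
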