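import Pool.Agent.ADG.St3

/-!
# Project ADG part 3, module RO4 (helper31): products over the primes with given character values
-/

set_option autoImplicit false

namespace Pool.Agent.ADG

open Finset Pool.Agent.ADS

namespace RO4m

lemma EP_split (A B D : Finset ℕ) (h : ∀ q, q ∈ A ↔ (q ∈ B ∨ q ∈ D))
    (hd : ∀ q, q ∈ B → q ∉ D) : EP A = EP B * EP D := by
  classical
  have hA : A = B ∪ D := by
    ext q
    rw [Finset.mem_union]
    exact h q
  have hdis : Disjoint B D := Finset.disjoint_left.2 (fun q hq => hd q hq)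
  unfold EP
  rw [hA, Finset.prod_union hdis]

lemma EP_nonneg (A : Finset ℕ) (h : ∀ q ∈ A, q.Prime) : 0 ≤ EP A := by
  unfold EP
  apply Finset.prod_nonneg
  intro q hq
  have h2 : (2 : ℝ) ≤ q := by exact_mod_cast (h q hq).two_le
  have : (1 : ℝ) / q ≤ 1 / 2 := by
    apply one_div_le_one_div_of_le <;> linarith
  apply inv_nonneg.2
  linarith

/-- the classical steps with real numbers -/
lemma final {e a b d all t C1 C2 : ℝ} (he : 0 ≤ e) (ha : 0 ≤ a) (hb : 0 ≤ b) (hd : 0 ≤ d)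
    (hall : all = e * a * b * d) (ht : 0 < t) (hC1 : 0 < C1) (hC2 : 0 < C2)
    (h1 : e * a ≤ C1 * t ^ (1 / 2 : ℝ)) (h2 : e * b ≤ C1 * t ^ (1 / 2 : ℝ))
    (h3 : e * d ≤ C1 * t ^ (1 / 2 : ℝ)) (h4 : t ≤ C2 * all) :
    e ≤ Real.sqrt (C2 * C1 ^ 3) * t ^ (1 / 4 : ℝ) := by
  have hs : 0 < t ^ (1 / 2 : ℝ) := Real.rpow_pos_of_pos ht _
  have hu : 0 < t ^ (1 / 4 : ℝ) := Real.rpow_pos_of_pos ht _
  have hss : t ^ (1 / 2 : ℝ) * t ^ (1 / 2 : ℝ) = t := by
    rw [← Real.rpow_add ht]; norm_num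
  have huu : t ^ (1 / 4 : ℝ) * t ^ (1 / 4 : ℝ) = t ^ (1 / 2 : ℝ) := by
    rw [← Real.rpow_add ht]; norm_num
  set s := t ^ (1 / 2 : ℝ) with hsdef
  set u := t ^ (1 / 4 : ℝ) with hudef
  have h12 : (e * a) * (e * b) ≤ (C1 * s) * (C1 * s) :=
    mul_le_mul h1 h2 (by positivity) (by positivity)
  have h123 : (e * a) * (e * b) * (e * d) ≤ (C1 * s) * (C1 * s) * (C1 * s) :=
    mul_le_mul h12 h3 (by positivity) (by positivity)
  have h5 : e ^ 2 * t ≤ C2 * ((C1 * s) * (C1 * s) * (C1 * s)) := by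
    calc e ^ 2 * t ≤ e ^ 2 * (C2 * all) := mul_le_mul_of_nonneg_left h4 (by positivity)
      _ = C2 * ((e * a) * (e * b) * (e * d)) := by rw [hall]; ring
      _ ≤ C2 * ((C1 * s) * (C1 * s) * (C1 * s)) := mul_le_mul_of_nonneg_left h123 hC2.le
  have h6 : e ^ 2 ≤ C2 * C1 ^ 3 * s := by
    have h7 : e ^ 2 * t ≤ (C2 * C1 ^ 3 * s) * t := by
      calc e ^ 2 * t ≤ C2 * ((C1 * s) * (C1 * s) * (C1 * s)) := h5
        _ = (C2 * C1 ^ 3 * s) * (s * s) := by ring
        _ = (C2 * C1 ^ 3 * s) * t := by rw [hss]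
    exact le_of_mul_le_mul_right h7 ht
  have hK : 0 ≤ C2 * C1 ^ 3 := by positivity
  apply le_of_sq_le_sq _ (by positivity)
  rw [mul_pow, Real.sq_sqrt hK]
  calc e ^ 2 ≤ C2 * C1 ^ 3 * s := h6
    _ = C2 * C1 ^ 3 * u ^ 2 := by rw [← huu]; ring

end RO4m

open Classical in
theorem RO2_thm (h1 : Stmt_ROU2) (h2 : Stmt_EPP) : Stmt_RO2 := by
  obtain ⟨C1, hC1, hR⟩ := h1
  obtain ⟨-, C2, hC2, hE, -, -⟩ := h2
  refine ⟨2 * C1 * C2, by positivity, ?_⟩
  intro m χ hχ Q z hm hmQ hQz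
  have hQ2 : 2 ≤ Q := by
    have : 2 ^ 8 ≤ m ^ 8 := Nat.pow_le_pow_left hm 8
    omega
  have hlogQ : 0 < Real.log Q := Real.log_pos (by exact_mod_cast (by omega : 1 < Q))
  have hQz' : Real.log Q ≤ Real.log z :=
    Real.log_le_log (by exact_mod_cast (by omega : 0 < Q)) (by exact_mod_cast hQz.le)
  have ht : 1 ≤ Real.log z / Real.log Q := (one_le_div hlogQ).2 hQz'
  set A := (Ioc Q z).filter (fun q => q.Prime ∧ χ q = 1) with hA
  have hE' : EP A ≤ C2 * RSm A z := hE A z (by omega) (fun q hq => by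
    simp only [hA, Finset.mem_filter, Finset.mem_Ioc] at hq
    exact ⟨hq.2.1, hq.1.2⟩)
  have hR' : RSm A z ≤ C1 * Real.sqrt (1 + Real.log z / Real.log Q) := by
    unfold RSm
    refine hR m χ hχ Q z hm hmQ (by omega) _ ?_
    intro k hk
    simp only [Finset.mem_filter, Finset.mem_Icc] at hk
    refine ⟨hk.1.1, hk.1.2, fun q hq hqk => ?_⟩
    have := hk.2 q hq hqk
    simp only [hA, Finset.mem_filter, Finset.mem_Ioc] at this
    exact ⟨this.1.1, this.2.2⟩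
  have hsq : Real.sqrt (1 + Real.log z / Real.log Q) ≤
      2 * (Real.log z / Real.log Q) ^ (1 / 2 : ℝ) := by
    rw [← Real.sqrt_eq_rpow]
    have h4 : Real.sqrt (1 + Real.log z / Real.log Q) ≤
        Real.sqrt (2 ^ 2 * (Real.log z / Real.log Q)) := Real.sqrt_le_sqrt (by linarith)
    rw [Real.sqrt_mul (by norm_num), Real.sqrt_sq (by norm_num)] at h4
    exact h4
  calc EP A ≤ C2 * RSm A z := hE'
    _ ≤ C2 * (C1 * Real.sqrt (1 + Real.log z / Real.log Q)) := by gcongr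
    _ ≤ C2 * (C1 * (2 * (Real.log z / Real.log Q) ^ (1 / 2 : ℝ))) := by gcongr
    _ = 2 * C1 * C2 * (Real.log z / Real.log Q) ^ (1 / 2 : ℝ) := by ring

open Classical in
theorem RO4_thm (h1 : Stmt_EPP) (h2 : Stmt_RO2) : Stmt_RO4 := by
  obtain ⟨-, C2, hC2, -, -, hI⟩ := h1
  obtain ⟨C1, hC1, hO⟩ := h2
  refine ⟨Real.sqrt (C2 * C1 ^ 3), Real.sqrt_pos.2 (by positivity), ?_⟩
  intro m m' m'' χ χ' hχ hχ' hχχ Q z hm hm' hm'' hmQ hm'Q hm''Q hQz hne
  have hQ2 : 2 ≤ Q := by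
    have : 2 ^ 8 ≤ m ^ 8 := Nat.pow_le_pow_left hm 8
    omega
  have hlogQ : 0 < Real.log Q := Real.log_pos (by exact_mod_cast (by omega : 1 < Q))
  have hlogz : 0 < Real.log z := Real.log_pos (by exact_mod_cast (by omega : 1 < z))
  have k1 := hO m χ hχ Q z hm hmQ hQz
  have k2 := hO m' χ' hχ' Q z hm' hm'Q hQz
  have k3 := hO m'' (fun n => χ n * χ' n) hχχ Q z hm'' hm''Q hQz
  have k4 := (hI Q z hQ2 hQz.le).2
  have hv : ∀ q : ℕ, q.Prime → Q < q → χ q = 1 ∨ χ q = -1 := fun q hq hQq => by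
    rcases hχ.val q with h | h | h
    · exact absurd h (hne q hq hQq).1
    · exact Or.inl h
    · exact Or.inr h
  have hv' : ∀ q : ℕ, q.Prime → Q < q → χ' q = 1 ∨ χ' q = -1 := fun q hq hQq => by
    rcases hχ'.val q with h | h | h
    · exact absurd h (hne q hq hQq).2
    · exact Or.inl h
    · exact Or.inr h
  have hone : (1 : ℝ) ≠ -1 := by norm_num
  have s1 : EP ((Ioc Q z).filter (fun q => q.Prime ∧ χ q = 1)) =
      EP ((Ioc Q z).filter (fun q => q.Prime ∧ χ q = 1 ∧ χ' q = 1)) *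
      EP ((Ioc Q z).filter (fun q => q.Prime ∧ χ q = 1 ∧ χ' q = -1)) := by
    apply RO4m.EP_split
    · intro q
      simp only [Finset.mem_filter, Finset.mem_Ioc]
      constructor
      · rintro ⟨hI1, hp, ha⟩
        rcases hv' q hp hI1.1 with h | h
        · exact Or.inl ⟨hI1, hp, ha, h⟩
        · exact Or.inr ⟨hI1, hp, ha, h⟩
      · rintro (⟨hI1, hp, ha, -⟩ | ⟨hI1, hp, ha, -⟩) <;> exact ⟨hI1, hp, ha⟩
    · intro q
      simp only [Finset.mem_filter, Finset.mem_Ioc]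
      rintro ⟨-, -, -, h⟩ ⟨-, -, -, h'⟩
      exact hone (h.symm.trans h')
  have s2 : EP ((Ioc Q z).filter (fun q => q.Prime ∧ χ' q = 1)) =
      EP ((Ioc Q z).filter (fun q => q.Prime ∧ χ q = 1 ∧ χ' q = 1)) *
      EP ((Ioc Q z).filter (fun q => q.Prime ∧ χ q = -1 ∧ χ' q = 1)) := by
    apply RO4m.EP_split
    · intro q
      simp only [Finset.mem_filter, Finset.mem_Ioc]
      constructor
      · rintro ⟨hI1, hp, ha⟩
        rcases hv q hp hI1.1 with h | h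
        · exact Or.inl ⟨hI1, hp, h, ha⟩
        · exact Or.inr ⟨hI1, hp, h, ha⟩
      · rintro (⟨hI1, hp, -, ha⟩ | ⟨hI1, hp, -, ha⟩) <;> exact ⟨hI1, hp, ha⟩
    · intro q
      simp only [Finset.mem_filter, Finset.mem_Ioc]
      rintro ⟨-, -, h, -⟩ ⟨-, -, h', -⟩
      exact hone (h.symm.trans h')
  have s3 : EP ((Ioc Q z).filter (fun q => q.Prime ∧ (fun n => χ n * χ' n) q = 1)) =
      EP ((Ioc Q z).filter (fun q => q.Prime ∧ χ q = 1 ∧ χ' q = 1)) *
      EP ((Ioc Q z).filter (fun q => q.Prime ∧ χ q = -1 ∧ χ' q = -1)) := by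
    apply RO4m.EP_split
    · intro q
      simp only [Finset.mem_filter, Finset.mem_Ioc]
      constructor
      · rintro ⟨hI1, hp, ha⟩
        rcases hv q hp hI1.1 with h | h
        · rw [h, one_mul] at ha
          exact Or.inl ⟨hI1, hp, h, ha⟩
        · rw [h] at ha
          exact Or.inr ⟨hI1, hp, h, by linarith⟩
      · rintro (⟨hI1, hp, ha, hb⟩ | ⟨hI1, hp, ha, hb⟩)
        · exact ⟨hI1, hp, by rw [ha, hb]; norm_num⟩
        · exact ⟨hI1, hp, by rw [ha, hb]; norm_num⟩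
    · intro q
      simp only [Finset.mem_filter, Finset.mem_Ioc]
      rintro ⟨-, -, h, -⟩ ⟨-, -, h', -⟩
      exact hone (h.symm.trans h')
  have s4 : EP ((Ioc Q z).filter Nat.Prime) =
      EP ((Ioc Q z).filter (fun q => q.Prime ∧ χ q = 1)) *
      EP ((Ioc Q z).filter (fun q => q.Prime ∧ χ q = -1)) := by
    apply RO4m.EP_split
    · intro q
      simp only [Finset.mem_filter, Finset.mem_Ioc]
      constructor
      · rintro ⟨hI1, hp⟩
        rcases hv q hp hI1.1 with h | h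
        · exact Or.inl ⟨hI1, hp, h⟩
        · exact Or.inr ⟨hI1, hp, h⟩
      · rintro (⟨hI1, hp, -⟩ | ⟨hI1, hp, -⟩) <;> exact ⟨hI1, hp⟩
    · intro q
      simp only [Finset.mem_filter, Finset.mem_Ioc]
      rintro ⟨-, -, h⟩ ⟨-, -, h'⟩
      exact hone (h.symm.trans h')
  have s5 : EP ((Ioc Q z).filter (fun q => q.Prime ∧ χ q = -1)) =
      EP ((Ioc Q z).filter (fun q => q.Prime ∧ χ q = -1 ∧ χ' q = 1)) *
      EP ((Ioc Q z).filter (fun q => q.Prime ∧ χ q = -1 ∧ χ' q = -1)) := by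
    apply RO4m.EP_split
    · intro q
      simp only [Finset.mem_filter, Finset.mem_Ioc]
      constructor
      · rintro ⟨hI1, hp, ha⟩
        rcases hv' q hp hI1.1 with h | h
        · exact Or.inl ⟨hI1, hp, ha, h⟩
        · exact Or.inr ⟨hI1, hp, ha, h⟩
      · rintro (⟨hI1, hp, ha, -⟩ | ⟨hI1, hp, ha, -⟩) <;> exact ⟨hI1, hp, ha⟩
    · intro q
      simp only [Finset.mem_filter, Finset.mem_Ioc]
      rintro ⟨-, -, -, h⟩ ⟨-, -, -, h'⟩
      exact hone (h.symm.trans h')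
  rw [s1] at k1
  rw [s2] at k2
  rw [s3] at k3
  refine RO4m.final (RO4m.EP_nonneg _ ?_) (RO4m.EP_nonneg _ ?_) (RO4m.EP_nonneg _ ?_)
    (RO4m.EP_nonneg _ ?_) ?_ (div_pos hlogz hlogQ) hC1 (by linarith) k1 k2 k3 k4
  · intro q hq; exact (Finset.mem_filter.1 hq).2.1
  · intro q hq; exact (Finset.mem_filter.1 hq).2.1
  · intro q hq; exact (Finset.mem_filter.1 hq).2.1
  · intro q hq; exact (Finset.mem_filter.1 hq).2.1
  · rw [s4, s1, s5]; ring

end Pool.Agent.ADG
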