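import Pool.Agent.ADG.St3

/-!
# ROU: the reciprocal sum over rough integers all of whose primes have character `1` (helper53)

Module ADG_ROU of MP_43d07b_co.
-/

set_option autoImplicit false

namespace Pool.Agent.ADG

open Finset

namespace ROUm

/-- the initial sums of `cf χ n / n` -/
noncomputable def F (χ : ℕ → ℝ) (M : ℕ) : ℝ := ∑ n ∈ Ioc 0 M, cf χ n / n

open Classical in
/-- the integers up to `K` without prime factors `≤ Q` -/
noncomputable def Rs (Q K : ℕ) : Finset ℕ :=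
  (Ioc 0 K).filter (fun k => ∀ q : ℕ, q.Prime → q ∣ k → Q < q)

theorem cf_one {m : ℕ} {χ : ℕ → ℝ} (h : RC m χ) : cf χ 1 = 1 := by
  simp [cf, h.one]

theorem F_add (χ : ℕ → ℝ) {A B : ℕ} (h : A ≤ B) :
    F χ B = F χ A + ∑ n ∈ Ioc A B, cf χ n / n := by
  unfold F
  rw [Finset.sum_Ioc_consecutive _ (Nat.zero_le A) h]

theorem F_nonneg {m : ℕ} {χ : ℕ → ℝ} (h1 : Stmt_CFP) (h : RC m χ) (M : ℕ) : 0 ≤ F χ M :=
  Finset.sum_nonneg fun n _ => div_nonneg ((h1 m χ h).1 n) (by positivity)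

theorem one_le_F {m : ℕ} {χ : ℕ → ℝ} (h1 : Stmt_CFP) (h : RC m χ) {M : ℕ} (hM : 1 ≤ M) :
    1 ≤ F χ M := by
  have hs : (1 : ℕ) ∈ Ioc 0 M := by
    rw [mem_Ioc]
    omega
  have h2 := Finset.single_le_sum (f := fun n : ℕ => cf χ n / n)
    (fun n _ => div_nonneg ((h1 m χ h).1 n) (by positivity)) hs
  simp only [cf_one h, Nat.cast_one, div_one] at h2
  exact h2

theorem sq_le {m : ℕ} {χ : ℕ → ℝ} (h1 : Stmt_CFP) (h : RC m χ) (Q N : ℕ) (S : Finset ℕ)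
    (hS : ∀ k ∈ S, 1 ≤ k ∧ k ≤ N ∧ ∀ q : ℕ, q.Prime → q ∣ k → Q < q ∧ χ q = 1) :
    (∑ n ∈ S, (1 : ℝ) / n) ^ 2 ≤ ∑ k ∈ Rs Q (N ^ 2), cf χ k / k := by
  classical
  rw [sq, Finset.sum_mul_sum, ← Finset.sum_product']
  have hmaps : ∀ x ∈ S ×ˢ S, x.1 * x.2 ∈ Rs Q (N ^ 2) := by
    rintro ⟨a, b⟩ hab
    rw [mem_product] at hab
    obtain ⟨h2, h3, h4⟩ := hS a hab.1
    obtain ⟨h5, h6, h7⟩ := hS b hab.2
    rw [Rs, mem_filter, mem_Ioc]
    refine ⟨⟨Nat.mul_pos h2 h5, ?_⟩, ?_⟩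
    · rw [sq]
      exact Nat.mul_le_mul h3 h6
    · intro q hq hd
      rcases (Nat.Prime.dvd_mul hq).1 hd with h8 | h8
      · exact (h4 q hq h8).1
      · exact (h7 q hq h8).1
  rw [← Finset.sum_fiberwise_of_maps_to hmaps]
  refine Finset.sum_le_sum fun k hk => ?_
  have hk0 : k ≠ 0 := by
    rw [Rs, mem_filter, mem_Ioc] at hk
    omega
  have e : ∑ x ∈ (S ×ˢ S).filter (fun x => x.1 * x.2 = k), (1 : ℝ) / x.1 * (1 / x.2) =
      (((S ×ˢ S).filter (fun x => x.1 * x.2 = k)).card : ℝ) / k := by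
    rw [Finset.card_eq_sum_ones, Nat.cast_sum, Finset.sum_div]
    refine Finset.sum_congr rfl fun x hx => ?_
    rw [mem_filter] at hx
    rw [← hx.2]
    push_cast
    rw [one_div_mul_one_div]
  rw [e]
  refine div_le_div_of_nonneg_right ?_ (by positivity)
  rcases Finset.eq_empty_or_nonempty ((S ×ˢ S).filter (fun x => x.1 * x.2 = k)) with h2 | ⟨x, hx⟩
  · rw [h2]
    simpa using (h1 m χ h).1 k
  · have hk1 : ∀ q : ℕ, q.Prime → q ∣ k → χ q = 1 := by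
      intro q hq hqk
      rw [mem_filter, mem_product] at hx
      rw [← hx.2] at hqk
      rcases (Nat.Prime.dvd_mul hq).1 hqk with h8 | h8
      · exact ((hS _ hx.1.1).2.2 q hq h8).2
      · exact ((hS _ hx.1.2).2.2 q hq h8).2
    rw [(h1 m χ h).2.2 k hk0 hk1]
    have hc : ((S ×ˢ S).filter (fun x => x.1 * x.2 = k)).card ≤ k.divisors.card := by
      refine Finset.card_le_card_of_injOn (fun x => x.1) ?_ ?_
      · intro y hy
        rw [Finset.mem_coe, mem_filter] at hy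
        rw [Finset.mem_coe, Nat.mem_divisors]
        exact ⟨⟨y.2, hy.2.symm⟩, hk0⟩
      · intro y hy y' hy' hyy
        rw [Finset.mem_coe, mem_filter] at hy hy'
        have h3 : y.1 ≠ 0 := by
          intro h4
          apply hk0
          rw [← hy.2, h4, zero_mul]
        have h5 : y.1 * y.2 = y.1 * y'.2 := by
          rw [hy.2, ← hy'.2]
          congr 1
          exact hyy.symm
        have h6 := Nat.eq_of_mul_eq_mul_left (Nat.pos_of_ne_zero h3) h5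
        exact Prod.ext hyy h6
    exact_mod_cast hc

theorem coprime_of {Q a k : ℕ} (ha0 : 0 < a) (ha : a ≤ Q)
    (hk : ∀ q : ℕ, q.Prime → q ∣ k → Q < q) : Nat.Coprime a k := by
  by_contra hc
  obtain ⟨q, hq, h1, h2⟩ := Nat.Prime.not_coprime_iff_dvd.1 hc
  have h3 := hk q hq h2
  have h4 := Nat.le_of_dvd ha0 h1
  omega

theorem mul_le {m : ℕ} {χ : ℕ → ℝ} (h1 : Stmt_CFP) (h : RC m χ) (Q K : ℕ) :
    F χ Q * ∑ k ∈ Rs Q K, cf χ k / k ≤ F χ (Q * K) := by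
  classical
  unfold F
  rw [Finset.sum_mul_sum, ← Finset.sum_product']
  have hinj : Set.InjOn (fun x : ℕ × ℕ => x.1 * x.2) (Ioc 0 Q ×ˢ Rs Q K : Finset (ℕ × ℕ)) := by
    rintro ⟨a, k⟩ hx ⟨a', k'⟩ hx' hxx
    rw [Finset.mem_coe, mem_product, mem_Ioc, Rs, mem_filter, mem_Ioc] at hx hx'
    obtain ⟨⟨ha0, ha⟩, ⟨hk0, -⟩, hk⟩ := hx
    obtain ⟨⟨ha0', ha'⟩, ⟨hk0', -⟩, hk'⟩ := hx'
    simp only at ha0 ha hk0 hk ha0' ha' hk0' hk' hxx
    have h2 : a ∣ a' := by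
      have h3 : a ∣ a' * k' := ⟨k, hxx.symm⟩
      exact (coprime_of ha0 ha hk').dvd_of_dvd_mul_right h3
    have h4 : a' ∣ a := by
      have h3 : a' ∣ a * k := ⟨k', hxx⟩
      exact (coprime_of ha0' ha' hk).dvd_of_dvd_mul_right h3
    have h5 : a = a' := Nat.dvd_antisymm h2 h4
    subst h5
    have h6 := Nat.eq_of_mul_eq_mul_left ha0 hxx
    rw [h6]
  calc ∑ x ∈ Ioc 0 Q ×ˢ Rs Q K, cf χ x.1 / x.1 * (cf χ x.2 / x.2)
      = ∑ x ∈ Ioc 0 Q ×ˢ Rs Q K, cf χ (x.1 * x.2) / ((x.1 * x.2 : ℕ) : ℝ) := by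
        refine Finset.sum_congr rfl fun x hx => ?_
        rw [mem_product, mem_Ioc, Rs, mem_filter, mem_Ioc] at hx
        obtain ⟨⟨ha0, ha⟩, -, hk⟩ := hx
        rw [(h1 m χ h).2.1 x.1 x.2 (coprime_of ha0 ha hk)]
        push_cast
        rw [div_mul_div_comm]
    _ = ∑ n ∈ (Ioc 0 Q ×ˢ Rs Q K).image (fun x : ℕ × ℕ => x.1 * x.2), cf χ n / n :=
        (Finset.sum_image (f := fun n : ℕ => cf χ n / n) hinj).symm
    _ ≤ ∑ n ∈ Ioc 0 (Q * K), cf χ n / n := by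
        refine Finset.sum_le_sum_of_subset_of_nonneg ?_ ?_
        · intro n hn
          rw [mem_image] at hn
          obtain ⟨x, hx, rfl⟩ := hn
          rw [mem_product, mem_Ioc, Rs, mem_filter, mem_Ioc] at hx
          rw [mem_Ioc]
          exact ⟨Nat.mul_pos hx.1.1 hx.2.1.1, Nat.mul_le_mul hx.1.2 hx.2.1.2⟩
        · intro n _ _
          exact div_nonneg ((h1 m χ h).1 n) (by positivity)

/-- the eighth root -/
def rt (Q : ℕ) : ℕ := Nat.sqrt (Nat.sqrt (Nat.sqrt Q))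

theorem rt_pow (Q : ℕ) : rt Q ^ 8 ≤ Q := by
  have h1 := Nat.sqrt_le' Q
  have h2 := Nat.sqrt_le' (Nat.sqrt Q)
  have h3 := Nat.sqrt_le' (Nat.sqrt (Nat.sqrt Q))
  calc rt Q ^ 8 = ((rt Q ^ 2) ^ 2) ^ 2 := by ring
    _ ≤ (Nat.sqrt (Nat.sqrt Q) ^ 2) ^ 2 := by
        exact Nat.pow_le_pow_left (Nat.pow_le_pow_left h3 2) 2
    _ ≤ (Nat.sqrt Q) ^ 2 := Nat.pow_le_pow_left h2 2
    _ ≤ Q := h1

theorem lt_rt_pow (Q : ℕ) : Q < (rt Q + 1) ^ 8 := by
  have h1 := Nat.lt_succ_sqrt' Q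
  have h2 := Nat.lt_succ_sqrt' (Nat.sqrt Q)
  have h3 := Nat.lt_succ_sqrt' (Nat.sqrt (Nat.sqrt Q))
  rw [Nat.succ_eq_add_one] at h1 h2 h3
  calc Q < (Nat.sqrt Q + 1) ^ 2 := h1
    _ ≤ ((Nat.sqrt (Nat.sqrt Q) + 1) ^ 2) ^ 2 := Nat.pow_le_pow_left h2 2
    _ ≤ (((rt Q + 1) ^ 2) ^ 2) ^ 2 := Nat.pow_le_pow_left (Nat.pow_le_pow_left h3 2) 2
    _ = (rt Q + 1) ^ 8 := by ring

theorem le_rt {m Q : ℕ} (h : m ^ 8 ≤ Q) : m ≤ rt Q := by
  by_contra hc
  push Not at hc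
  have h1 := lt_rt_pow Q
  have h2 : (rt Q + 1) ^ 8 ≤ m ^ 8 := Nat.pow_le_pow_left hc 8
  omega

end ROUm

open ROUm in
/-- Module ADG_ROU, the form without a condition on the size of `N`. -/
theorem ROU2_thm (h1 : Stmt_CFP) (h2 : Stmt_CAB) : Stmt_ROU2 := by
  obtain ⟨C, hC, hcab⟩ := h2
  refine ⟨Real.sqrt (4 + 56 * C), Real.sqrt_pos.2 (by positivity), ?_⟩
  intro m χ h Q N hm hQ hN S hS
  set K := rt Q with hK
  have hmK : m ≤ K := le_rt hQ
  have hK2 : 2 ≤ K := hm.trans hmK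
  have hK8 : K ^ 8 ≤ Q := rt_pow Q
  have hQK : Q < (K + 1) ^ 8 := lt_rt_pow Q
  have hKr : (2 : ℝ) ≤ K := by exact_mod_cast hK2
  have hmr : (m : ℝ) ≤ K := by exact_mod_cast hmK
  have hm0 : (0 : ℝ) ≤ m := by positivity
  have hQ256 : 256 ≤ Q := by
    calc 256 = 2 ^ 8 := by norm_num
      _ ≤ K ^ 8 := Nat.pow_le_pow_left hK2 8
      _ ≤ Q := hK8
  have hQr : (256 : ℝ) ≤ Q := by exact_mod_cast hQ256
  have hlQ : 0 < Real.log Q := Real.log_pos (by linarith)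
  have hNr : (2 : ℝ) ≤ N := by exact_mod_cast hN
  have hlN : 0 < Real.log N := Real.log_pos (by linarith)
  -- `log Q ≤ 8 K`
  have hlQK : Real.log Q ≤ 8 * K := by
    have h3 : (Q : ℝ) ≤ ((K : ℝ) + 1) ^ 8 := by exact_mod_cast hQK.le
    have h4 : Real.log Q ≤ Real.log (((K : ℝ) + 1) ^ 8) := Real.log_le_log (by linarith) h3
    rw [Real.log_pow] at h4
    have h5 : Real.log ((K : ℝ) + 1) ≤ (K : ℝ) + 1 - 1 := Real.log_le_sub_one_of_pos (by linarith)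
    push_cast at h4
    linarith
  have hK2Q : K ^ 2 ≤ Q := (Nat.pow_le_pow_right (by omega) (by norm_num)).trans hK8
  have hK4Q : K ^ 4 ≤ Q := (Nat.pow_le_pow_right (by omega) (by norm_num)).trans hK8
  have hK24 : K ^ 2 ≤ K ^ 4 := Nat.pow_le_pow_right (by omega) (by norm_num)
  have hK1 : 1 ≤ K ^ 2 := Nat.one_le_pow _ _ (by omega)
  set L := ∑ d ∈ Icc 1 (K ^ 2), χ d / d with hL
  have hQN : Q ≤ Q * N ^ 2 := Nat.le_mul_of_pos_right Q (by positivity)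
  have c1 := hcab m χ h Q (Q * N ^ 2) (K ^ 2) hK1 hK2Q hQN
  have c2 := hcab m χ h (K ^ 4) Q (K ^ 2) hK1 hK24 hK4Q
  rw [← hL] at c1 c2
  have hK2pos : (0 : ℝ) < (K : ℝ) ^ 2 := by positivity
  have hQpos : (0 : ℝ) < Q := by linarith
  have hlogN2 : Real.log (((Q * N ^ 2 : ℕ) : ℝ) / Q) = 2 * Real.log N := by
    push_cast
    rw [mul_div_assoc, mul_comm, div_mul_cancel₀ _ hQpos.ne', Real.log_pow]
    push_cast
    ring
  have hlogQN : Real.log (((Q * N ^ 2 : ℕ) : ℝ)) = Real.log Q + 2 * Real.log N := by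
    push_cast
    rw [Real.log_mul hQpos.ne' (by positivity), Real.log_pow]
    push_cast
    ring
  have hlogK4 : Real.log Q / 2 ≤ Real.log ((Q : ℝ) / ((K ^ 4 : ℕ) : ℝ)) := by
    have h3 : (K : ℝ) ^ 8 ≤ Q := by exact_mod_cast hK8
    have h4 : Real.log ((K : ℝ) ^ 8) ≤ Real.log Q := Real.log_le_log (by positivity) h3
    rw [Real.log_pow] at h4
    push_cast at h4 ⊢
    rw [Real.log_div hQpos.ne' (by positivity), Real.log_pow]
    push_cast
    linarith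
  have e1 : ((K ^ 2 : ℕ) : ℝ) / Q ≤ 1 := by
    rw [div_le_one hQpos]
    exact_mod_cast hK2Q
  have e2 : ((K ^ 2 : ℕ) : ℝ) / ((K ^ 4 : ℕ) : ℝ) ≤ 1 := by
    rw [div_le_one (by positivity)]
    exact_mod_cast hK24
  have e3 : (m : ℝ) * (1 + Real.log Q) / ((K ^ 2 : ℕ) : ℝ) ≤ 9 := by
    rw [div_le_iff₀ (by positivity)]
    push_cast
    calc (m : ℝ) * (1 + Real.log Q) ≤ K * (1 + 8 * K) :=
          mul_le_mul hmr (by linarith) (by linarith) (by linarith)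
      _ ≤ 9 * (K : ℝ) ^ 2 := by nlinarith
  have hKinv : 1 / (K : ℝ) ≤ 8 / Real.log Q := by
    rw [div_le_div_iff₀ (by linarith) hlQ]
    linarith
  have e4 : (m : ℝ) * (1 + (Real.log Q + 2 * Real.log N)) / ((K ^ 2 : ℕ) : ℝ) ≤
      9 + 16 * (Real.log N / Real.log Q) := by
    have h3 : (m : ℝ) * (1 + (Real.log Q + 2 * Real.log N)) / ((K ^ 2 : ℕ) : ℝ) =
        (m : ℝ) * (1 + Real.log Q) / ((K ^ 2 : ℕ) : ℝ) +
        (m : ℝ) * (2 * Real.log N) / ((K ^ 2 : ℕ) : ℝ) := by ring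
    have h4 : (m : ℝ) * (2 * Real.log N) / ((K ^ 2 : ℕ) : ℝ) ≤ 16 * (Real.log N / Real.log Q) := by
      calc (m : ℝ) * (2 * Real.log N) / ((K ^ 2 : ℕ) : ℝ)
          ≤ (K : ℝ) * (2 * Real.log N) / ((K ^ 2 : ℕ) : ℝ) := by
            refine div_le_div_of_nonneg_right ?_ (by positivity)
            exact mul_le_mul_of_nonneg_right hmr (by linarith)
        _ = 2 * Real.log N * (1 / (K : ℝ)) := by
            push_cast
            field_simp
        _ ≤ 2 * Real.log N * (8 / Real.log Q) := mul_le_mul_of_nonneg_left hKinv (by linarith)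
        _ = 16 * (Real.log N / Real.log Q) := by ring
    rw [h3]
    linarith
  set ρ := Real.log N / Real.log Q with hρ
  have hρ0 : 0 < ρ := div_pos hlN hlQ
  have hFQ := one_le_F h1 h (M := Q) (by omega)
  have hF4 := F_nonneg h1 h (K ^ 4)
  have f1 := F_add χ hQN
  have f2 := F_add χ hK4Q
  rw [hlogN2, hlogQN] at c1
  have c1' := (abs_le.1 c1).2
  have c2' := (abs_le.1 c2).1
  have g1 : F χ (Q * N ^ 2) ≤ F χ Q + L * (2 * Real.log N) + C * (10 + 16 * ρ) := by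
    have h3 : C * (((K ^ 2 : ℕ) : ℝ) / Q + (m : ℝ) * (1 + (Real.log Q + 2 * Real.log N)) /
        ((K ^ 2 : ℕ) : ℝ)) ≤ C * (10 + 16 * ρ) := mul_le_mul_of_nonneg_left (by linarith) hC.le
    rw [f1]
    linarith
  have g2 : L * Real.log ((Q : ℝ) / ((K ^ 4 : ℕ) : ℝ)) - 10 * C ≤ F χ Q := by
    have h3 : C * (((K ^ 2 : ℕ) : ℝ) / ((K ^ 4 : ℕ) : ℝ) + (m : ℝ) * (1 + Real.log Q) /
        ((K ^ 2 : ℕ) : ℝ)) ≤ C * 10 := mul_le_mul_of_nonneg_left (by linarith) hC.le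
    rw [f2]
    linarith
  have g3 : L * (2 * Real.log N) ≤ 4 * (1 + 10 * C) * F χ Q * ρ := by
    rcases le_or_gt 0 L with hL0 | hL0
    · have h3 : L * (Real.log Q / 2) ≤ (1 + 10 * C) * F χ Q := by
        have h4 : L * (Real.log Q / 2) ≤ L * Real.log ((Q : ℝ) / ((K ^ 4 : ℕ) : ℝ)) :=
          mul_le_mul_of_nonneg_left hlogK4 hL0
        nlinarith
      have h5 : L * (2 * Real.log N) = L * (Real.log Q / 2) * (4 * ρ) := by
        rw [hρ]
        field_simp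
        norm_num
      rw [h5]
      calc L * (Real.log Q / 2) * (4 * ρ) ≤ (1 + 10 * C) * F χ Q * (4 * ρ) :=
            mul_le_mul_of_nonneg_right h3 (by positivity)
        _ = _ := by ring
    · have h3 : L * (2 * Real.log N) ≤ 0 := mul_nonpos_of_nonpos_of_nonneg hL0.le (by linarith)
      have h4 : 0 ≤ 4 * (1 + 10 * C) * F χ Q * ρ := by
        have : 0 ≤ F χ Q := by linarith
        positivity
      linarith
  have g4 : F χ (Q * N ^ 2) ≤ F χ Q * ((4 + 56 * C) * (1 + ρ)) := by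
    have h3 : C * (10 + 16 * ρ) ≤ F χ Q * (C * (10 + 16 * ρ)) :=
      le_mul_of_one_le_left (by positivity) hFQ
    have h4 : F χ Q + 4 * (1 + 10 * C) * F χ Q * ρ + F χ Q * (C * (10 + 16 * ρ)) ≤
        F χ Q * ((4 + 56 * C) * (1 + ρ)) := by
      have h5 : F χ Q * ((4 + 56 * C) * (1 + ρ)) -
          (F χ Q + 4 * (1 + 10 * C) * F χ Q * ρ + F χ Q * (C * (10 + 16 * ρ))) =
          F χ Q * (3 + 46 * C) := by ring
      have h6 : 0 ≤ F χ Q * (3 + 46 * C) := mul_nonneg (by linarith) (by linarith)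
      linarith
    linarith
  have g5 := mul_le h1 h Q (N ^ 2)
  have g6 := sq_le h1 h Q N S hS
  have g7 : ∑ k ∈ Rs Q (N ^ 2), cf χ k / k ≤ (4 + 56 * C) * (1 + ρ) :=
    le_of_mul_le_mul_left (g5.trans g4) (by linarith)
  rw [← Real.sqrt_mul (by positivity)]
  exact Real.le_sqrt_of_sq_le (g6.trans g7)

/-- Module ADG_ROU. -/
theorem ROU_thm (h1 : Stmt_CFP) (h2 : Stmt_CAB) : Stmt_ROU := by
  obtain ⟨C, hC, h⟩ := ROU2_thm h1 h2
  exact ⟨C, hC, fun m χ hχ Q N hm hQ hN _ S hS => h m χ hχ Q N hm hQ hN S hS⟩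

end Pool.Agent.ADG
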