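import Pool.Agent.ADG.St4

/-!
# ADG, part 4: RSM, the relation (R) (helper90)
-/

set_option autoImplicit false

namespace Pool.Agent.ADG

open Finset Pool.Agent.ADS

private theorem rsm_T_iff {G : Type} [Group G] {N P H : Subgroup G}
    (hn : ∀ h ∈ H, ∀ u ∈ P, h * u * h⁻¹ ∈ P) {a k x : G} (ha : a ∈ N) (hk : k ∈ H) :
    (∀ u ∈ P, (a * x * k) * u * (a * x * k)⁻¹ ∈ N) ↔ ∀ u ∈ P, x * u * x⁻¹ ∈ N := by
  constructor
  · intro h u hu
    have h1 := h (k⁻¹ * u * k⁻¹⁻¹) (hn k⁻¹ (H.inv_mem hk) u hu)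
    have h2 : (a * x * k) * (k⁻¹ * u * k⁻¹⁻¹) * (a * x * k)⁻¹ = a * (x * u * x⁻¹) * a⁻¹ := by group
    rw [h2] at h1
    have h3 := N.mul_mem (N.mul_mem (N.inv_mem ha) h1) ha
    have h4 : a⁻¹ * (a * (x * u * x⁻¹) * a⁻¹) * a = x * u * x⁻¹ := by group
    rwa [h4] at h3
  · intro h u hu
    have h1 := h (k * u * k⁻¹) (hn k hk u hu)
    have h2 : (a * x * k) * u * (a * x * k)⁻¹ = a * (x * (k * u * k⁻¹) * x⁻¹) * a⁻¹ := by group
    rw [h2]
    exact N.mul_mem (N.mul_mem ha h1) (N.inv_mem ha)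

private theorem rsm_th {l : ℕ} (hl : l.Prime) {p s : ℕ} (hp : ¬ IsSquare ((p : ℕ) : ZMod l))
    (hs : ((s : ℕ) : ZMod l) ≠ 0) : th l (p * s) = 1 - th l s := by
  have := Fact.mk hl
  classical
  have h0 := quadraticChar_neg_one_iff_not_isSquare.2 hp
  have hm : quadraticChar (ZMod l) ((p * s : ℕ) : ZMod l) =
      - quadraticChar (ZMod l) ((s : ℕ) : ZMod l) := by
    rw [Nat.cast_mul, map_mul, h0]; ring
  unfold th
  by_cases h : IsSquare ((s : ℕ) : ZMod l)
  · have h1 := (quadraticChar_one_iff_isSquare hs).2 h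
    rw [h1] at hm
    have h2 := quadraticChar_neg_one_iff_not_isSquare.1 hm
    rw [if_neg h2, if_pos h]; norm_num
  · have h1 := quadraticChar_neg_one_iff_not_isSquare.2 h
    rw [h1] at hm
    have h2 : IsSquare ((p * s : ℕ) : ZMod l) := by
      by_contra h3
      have := quadraticChar_neg_one_iff_not_isSquare.2 h3
      rw [this] at hm
      norm_num at hm
    rw [if_pos h2, if_neg h]; norm_num

private theorem rsm_avg {G : Type} [Group G] [Fintype G] (P : Subgroup G) (p : ℕ)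
    (hP : Nat.card P = p) (T : G → Prop) [DecidablePred T] [DecidablePred fun u : G => u ∈ P]
    (hT : ∀ x, ∀ u ∈ P, (T (x * u) ↔ T x)) (f : G → ℚ) :
    (p : ℚ) * ∑ x ∈ univ.filter (fun x => ¬ T x), f x =
      ∑ x ∈ univ.filter (fun x => ¬ T x), ∑ u ∈ univ.filter (fun u : G => u ∈ P), f (x * u) := by
  rw [Finset.sum_comm]
  have h1 : ∀ u ∈ univ.filter (fun u : G => u ∈ P),
      ∑ x ∈ univ.filter (fun x => ¬ T x), f (x * u) = ∑ x ∈ univ.filter (fun x => ¬ T x), f x := by
    intro u hu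
    have hu' := (mem_filter.1 hu).2
    refine Finset.sum_equiv (Equiv.mulRight u) ?_ ?_
    · intro x; simp [hT x u hu']
    · intro x _; rfl
  rw [Finset.sum_congr rfl h1, Finset.sum_const, nsmul_eq_mul]
  congr 1
  rw [← hP, Nat.card_eq_fintype_card, Fintype.card_subtype]

theorem RSM_thm (h1 : Stmt_DCL) (h2 : Stmt_GRT) (h3 : Stmt_RTL) (h4 : Stmt_INV) : Stmt_RSM := by
  classical
  intro G _ _ n N D hD hn4 l hl hodd P H Y p hp hsq hcP hPH hYH hnorm hcH hpY
  obtain ⟨_, inv2, inv3, _⟩ := h4 G n N D hD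
  obtain ⟨_, k2, hk2⟩ := h2 G n N D hD hn4 l hl hodd H
  obtain ⟨_, k1, hk1⟩ := h2 G n N D hD hn4 l hl hodd Y
  obtain ⟨r1, r2⟩ := h3 G N P H Y p hp hcP hPH hYH hnorm hcH hpY
  -- positivity
  have hN0 : (0 : ℚ) < Nat.card N := by
    have : 0 < Nat.card N := Nat.card_pos
    exact_mod_cast this
  have hH0 : (0 : ℚ) < Nat.card H := by
    have : 0 < Nat.card H := Nat.card_pos
    exact_mod_cast this
  have hY0 : (0 : ℚ) < Nat.card Y := by
    have : 0 < Nat.card Y := Nat.card_pos
    exact_mod_cast this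
  have hp0 : (0 : ℚ) < p := by exact_mod_cast hp.pos
  have hcH' : (Nat.card H : ℚ) = p * Nat.card Y := by exact_mod_cast hcH
  have hsta : ∀ x, (0 : ℚ) < sta N H x := by
    intro x
    have : 0 < sta N H x := Nat.pos_of_dvd_of_pos (inv2 H x).1 Nat.card_pos
    exact_mod_cast this
  -- the element `s_Y` is not zero modulo `l`
  have hln : l ∣ n := by
    rcases hodd with ⟨j, hj⟩
    by_contra h
    rw [Nat.factorization_eq_zero_of_not_dvd h] at hj
    omega
  have hne : ∀ x, ((sta N Y x : ℕ) : ZMod l) ≠ 0 := by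
    intro x h
    rw [ZMod.natCast_eq_zero_iff] at h
    have h5 : l ∣ n - 1 := hD.card_subgroup ▸ h.trans (inv2 Y x).2
    have h6 : l ∣ 1 := by
      have h7 := (Nat.dvd_sub hln h5)
      have h8 : n - (n - 1) = 1 := by have := hD.two_le; omega
      rwa [h8] at h7
    exact hl.one_lt.ne' (Nat.dvd_one.1 h6)
  set T : G → Prop := fun x => ∀ u ∈ P, x * u * x⁻¹ ∈ N with hTdef
  have hTinv : ∀ a ∈ N, ∀ k ∈ H, ∀ y, (T (a * y * k) ↔ T y) := fun a ha k hk y =>
    rsm_T_iff hnorm ha hk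
  have hTu : ∀ x, ∀ u ∈ P, (T (x * u) ↔ T x) := by
    intro x u hu
    have := hTinv 1 N.one_mem u (hPH hu) x
    rwa [one_mul] at this
  -- the integer `k3`
  obtain ⟨k3, hk3⟩ := (h1 G N H).2 (fun x => if T x then 0 else
      (if IsSquare ((sta N H x : ℕ) : ZMod l) then 0 else 1)) (by
    intro a ha k hk y
    have e1 := inv3 H y a ha k hk
    have e2 := hTinv a ha k hk y
    simp only [e1, e2])
  have hk3' : (∑ x : G, (if T x then 0 else th l (sta N H x)) * (sta N H x : ℚ)) =
      k3 * (Nat.card N * Nat.card H) := by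
    rw [dc, div_eq_iff (by positivity)] at hk3
    rw [← hk3]
    refine Finset.sum_congr rfl fun x _ => ?_
    congr 1
    unfold th
    split_ifs <;> norm_num
  rw [dc, div_eq_iff (by positivity)] at hk1 hk2
  -- the sum over `Y`
  have hsplit : ∀ f : G → ℚ, ∑ x : G, f x =
      ∑ x ∈ univ.filter (fun x => T x), f x + ∑ x ∈ univ.filter (fun x => ¬ T x), f x :=
    fun f => (Finset.sum_filter_add_sum_filter_not univ (fun x => T x) f).symm
  have hTc : (p : ℚ) * ∑ x ∈ univ.filter (fun x => ¬ T x), th l (sta N Y x) * (sta N Y x : ℚ) =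
      ∑ x ∈ univ.filter (fun x => ¬ T x), (th l (sta N H x) * (sta N H x : ℚ) +
        ((p : ℚ) - 1) * (th l (cen N P H x) * (cen N P H x : ℚ))) := by
    rw [rsm_avg P p hcP T hTu]
    refine Finset.sum_congr rfl fun x hx => ?_
    have hx' := (mem_filter.1 hx).2
    have := (r2 x hx').2 (fun s => th l s * (s : ℚ))
    convert this using 2
  have hTT : (p : ℚ) * ∑ x ∈ univ.filter (fun x => T x), th l (sta N Y x) * (sta N Y x : ℚ) =
      ∑ x ∈ univ.filter (fun x => T x), (1 - th l (sta N H x)) * (sta N H x : ℚ) := by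
    rw [Finset.mul_sum]
    refine Finset.sum_congr rfl fun x hx => ?_
    have hx' := (mem_filter.1 hx).2
    have e1 := r1 x hx'
    rw [e1, rsm_th hl hsq (hne x)]
    push_cast
    ring
  have hmain : (∑ x : G, (if T x then 1 else
      ((p : ℚ) - 1) * cen N P H x / sta N H x * th l (cen N P H x)) * (sta N H x : ℚ)) =
      2 * ((k1 : ℚ) + k2 - k3) * (Nat.card N * Nat.card H) := by
    have e1 := hsplit (fun x => th l (sta N Y x) * (sta N Y x : ℚ))
    have e2 := hsplit (fun x => th l (sta N H x) * (sta N H x : ℚ))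
    have e3 := hsplit (fun x => (if T x then 0 else th l (sta N H x)) * (sta N H x : ℚ))
    have e4 := hsplit (fun x => (if T x then 1 else
      ((p : ℚ) - 1) * cen N P H x / sta N H x * th l (cen N P H x)) * (sta N H x : ℚ))
    have f3 : ∑ x ∈ univ.filter (fun x => T x),
        (if T x then 0 else th l (sta N H x)) * (sta N H x : ℚ) = 0 :=
      Finset.sum_eq_zero fun x hx => by rw [if_pos (mem_filter.1 hx).2, zero_mul]
    have f3' : ∑ x ∈ univ.filter (fun x => ¬ T x),
        (if T x then 0 else th l (sta N H x)) * (sta N H x : ℚ) =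
        ∑ x ∈ univ.filter (fun x => ¬ T x), th l (sta N H x) * (sta N H x : ℚ) :=
      Finset.sum_congr rfl fun x hx => by rw [if_neg (mem_filter.1 hx).2]
    have f4 : ∑ x ∈ univ.filter (fun x => T x), (if T x then 1 else
        ((p : ℚ) - 1) * cen N P H x / sta N H x * th l (cen N P H x)) * (sta N H x : ℚ) =
        ∑ x ∈ univ.filter (fun x => T x), (sta N H x : ℚ) :=
      Finset.sum_congr rfl fun x hx => by rw [if_pos (mem_filter.1 hx).2, one_mul]
    have f4' : ∑ x ∈ univ.filter (fun x => ¬ T x), (if T x then 1 else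
        ((p : ℚ) - 1) * cen N P H x / sta N H x * th l (cen N P H x)) * (sta N H x : ℚ) =
        ∑ x ∈ univ.filter (fun x => ¬ T x),
          ((p : ℚ) - 1) * (th l (cen N P H x) * (cen N P H x : ℚ)) :=
      Finset.sum_congr rfl fun x hx => by
        rw [if_neg (mem_filter.1 hx).2]
        have := (hsta x).ne'
        field_simp
    have g1 : ∑ x ∈ univ.filter (fun x => T x), (1 - th l (sta N H x)) * (sta N H x : ℚ) =
        ∑ x ∈ univ.filter (fun x => T x), (sta N H x : ℚ) -
        ∑ x ∈ univ.filter (fun x => T x), th l (sta N H x) * (sta N H x : ℚ) := by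
      rw [← Finset.sum_sub_distrib]
      exact Finset.sum_congr rfl fun x _ => by ring
    rw [Finset.sum_add_distrib] at hTc
    have e1' : (p : ℚ) * ∑ x : G, th l (sta N Y x) * (sta N Y x : ℚ) =
        2 * k1 * (Nat.card N * Nat.card H) := by
      rw [hk1, hcH']; ring
    rw [e1, mul_add, hTT, g1, hTc] at e1'
    rw [e2] at hk2
    rw [e3, f3, f3'] at hk3'
    rw [e4, f4, f4']
    linarith
  refine ⟨k1 + k2 - k3, ?_⟩
  rw [dc, div_eq_iff (by positivity)]
  have := hmain
  push_cast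
  rw [← this]

end Pool.Agent.ADG
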