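import Pool.Agent.ADG.EPP
import Pool.Agent.Lib_helper29.SW.M0

/-!
# ADG: facts on the reciprocal sums `RSm` (helper70)
-/

set_option autoImplicit false

namespace Pool.Agent.ADG

open Finset

namespace RSUm

/-- the part of `m` composed of the primes with the property `s` -/
def prt (s : ℕ → Prop) [DecidablePred s] (m : ℕ) : ℕ :=
  ∏ p ∈ m.primeFactors.filter s, p ^ m.factorization p

theorem prt_mul (s : ℕ → Prop) [DecidablePred s] {m : ℕ} (hm : m ≠ 0) :
    prt s m * prt (fun p => ¬ s p) m = m := by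
  unfold prt
  rw [prod_filter_mul_prod_filter_not]
  exact Nat.prod_factorization_pow_eq_self hm

theorem prt_pos (s : ℕ → Prop) [DecidablePred s] (m : ℕ) : 0 < prt s m :=
  prod_pos fun _ hp => pow_pos (Nat.prime_of_mem_primeFactors (mem_filter.1 hp).1).pos _

theorem prt_prime {s : ℕ → Prop} [DecidablePred s] {m p : ℕ} (hp : p.Prime) (h : p ∣ prt s m) :
    s p ∧ p ∣ m := by
  unfold prt at h
  obtain ⟨q, hq, hpq⟩ := (hp.prime.dvd_finsetProd_iff _).1 h
  obtain ⟨h1, h2⟩ := mem_filter.1 hq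
  have h3 := hp.dvd_of_dvd_pow hpq
  have h4 := (Nat.prime_dvd_prime_iff_eq hp (Nat.prime_of_mem_primeFactors h1)).1 h3
  subst h4
  exact ⟨h2, Nat.dvd_of_mem_primeFactors h1⟩

theorem sub (A B : Finset ℕ) (z : ℕ) : RSm (A ∪ B) z ≤ RSm A z * RSm B z := by
  classical
  unfold RSm
  rw [sum_mul_sum, ← sum_product']
  set S := (Icc 1 z).filter (fun m => ∀ p : ℕ, p.Prime → p ∣ m → p ∈ A ∪ B) with hS
  set SA := (Icc 1 z).filter (fun m => ∀ p : ℕ, p.Prime → p ∣ m → p ∈ A) with hSA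
  set SB := (Icc 1 z).filter (fun m => ∀ p : ℕ, p.Prime → p ∣ m → p ∈ B) with hSB
  have hm0 : ∀ m ∈ S, m ≠ 0 := by
    intro m hm
    have := (mem_Icc.1 (mem_filter.1 hm).1).1
    omega
  have h1 : ∑ m ∈ S, (1 : ℝ) / m = ∑ m ∈ S, (1 : ℝ) / (prt (· ∈ A) m : ℕ) *
      (1 / (prt (fun p => ¬ p ∈ A) m : ℕ)) := by
    refine sum_congr rfl fun m hm => ?_
    have h2 := prt_mul (· ∈ A) (hm0 m hm)
    have h3 : (m : ℝ) = (prt (· ∈ A) m : ℕ) * (prt (fun p => ¬ p ∈ A) m : ℕ) := by
      exact_mod_cast h2.symm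
    rw [one_div_mul_one_div, ← h3]
  rw [h1]
  have hinj : Set.InjOn (fun m => (prt (· ∈ A) m, prt (fun p => ¬ p ∈ A) m)) (S : Set ℕ) := by
    intro a ha b hb hab
    have h2 := prt_mul (· ∈ A) (hm0 a ha)
    have h3 := prt_mul (· ∈ A) (hm0 b hb)
    simp only [Prod.mk.injEq] at hab
    rw [← h2, ← h3, hab.1, hab.2]
  have h4 : ∑ m ∈ S, (1 : ℝ) / (prt (· ∈ A) m : ℕ) * (1 / (prt (fun p => ¬ p ∈ A) m : ℕ)) =
      ∑ x ∈ S.image (fun m => (prt (· ∈ A) m, prt (fun p => ¬ p ∈ A) m)),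
        (1 : ℝ) / x.1 * (1 / x.2) := by
    rw [sum_image hinj]
  rw [h4]
  refine sum_le_sum_of_subset_of_nonneg ?_ fun _ _ _ => by positivity
  intro x hx
  obtain ⟨m, hm, rfl⟩ := mem_image.1 hx
  obtain ⟨h5, h6⟩ := mem_filter.1 hm
  obtain ⟨h7, h8⟩ := mem_Icc.1 h5
  have h2 := prt_mul (· ∈ A) (hm0 m hm)
  have hd1 : prt (· ∈ A) m ∣ m := Dvd.intro _ h2
  have hd2 : prt (fun p => ¬ p ∈ A) m ∣ m := Dvd.intro_left _ h2
  rw [mem_product]
  constructor
  · rw [hSA, mem_filter, mem_Icc]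
    exact ⟨⟨prt_pos _ _, (Nat.le_of_dvd (by omega) hd1).trans h8⟩, fun p hp hpm =>
      (prt_prime hp hpm).1⟩
  · rw [hSB, mem_filter, mem_Icc]
    refine ⟨⟨prt_pos _ _, (Nat.le_of_dvd (by omega) hd2).trans h8⟩, fun p hp hpm => ?_⟩
    have h9 := prt_prime hp hpm
    exact (mem_union.1 (h6 p hp h9.2)).resolve_left h9.1

theorem mono (A B : Finset ℕ) (z : ℕ) (h : A ⊆ B) : RSm A z ≤ RSm B z := by
  classical
  unfold RSm
  refine sum_le_sum_of_subset_of_nonneg ?_ fun _ _ _ => by positivity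
  intro m hm
  obtain ⟨h1, h2⟩ := mem_filter.1 hm
  exact mem_filter.2 ⟨h1, fun p hp hpm => h (h2 p hp hpm)⟩

theorem one_le (A : Finset ℕ) (z : ℕ) (hz : 1 ≤ z) : 1 ≤ RSm A z := by
  classical
  unfold RSm
  have h1 : 1 ∈ (Icc 1 z).filter (fun m => ∀ p : ℕ, p.Prime → p ∣ m → p ∈ A) := by
    rw [mem_filter, mem_Icc]
    exact ⟨⟨le_rfl, hz⟩, fun p hp hp1 => absurd (Nat.dvd_one.1 hp1) hp.one_lt.ne'⟩
  have h2 := single_le_sum (f := fun m : ℕ => (1 : ℝ) / m) (fun _ _ => by positivity) h1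
  simpa using h2

theorem log_le (A B : Finset ℕ) (z : ℕ) (hz : 1 ≤ z)
    (h : ∀ q : ℕ, q.Prime → q ≤ z → q ∈ A ∪ B) : Real.log z ≤ RSm A z * RSm B z := by
  classical
  refine le_trans ?_ (sub A B z)
  have e : RSm (A ∪ B) z = ∑ m ∈ Icc 1 z, (1 : ℝ) / m := by
    unfold RSm
    congr 1
    ext m
    rw [mem_filter, mem_Icc]
    exact ⟨fun h => h.1, fun h' => ⟨h', fun p hp hpm =>
      h p hp ((Nat.le_of_dvd (by omega) hpm).trans h'.2)⟩⟩
  rw [e]
  have h1 := log_add_one_le_harmonic z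
  have h2 : ((harmonic z : ℚ) : ℝ) = ∑ m ∈ Icc 1 z, (1 : ℝ) / m := by
    rw [harmonic_eq_sum_Icc]
    push_cast
    simp
  rw [h2] at h1
  refine le_trans ?_ h1
  refine Real.log_le_log (by exact_mod_cast hz) ?_
  push_cast
  linarith

theorem le_EP (A : Finset ℕ) (z : ℕ) : (∀ q ∈ A, q.Prime) → RSm A z ≤ EP A := by
  classical
  induction A using Finset.induction_on with
  | empty =>
    intro _
    simpa [EP] using EPPm.RSm_empty z
  | insert q A hqA ih =>
    intro hA
    have hq := hA q (mem_insert_self _ _)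
    have ih' := ih fun p hp => hA p (mem_insert_of_mem hp)
    have e1 : EP (insert q A) = (1 - (1 : ℝ) / q)⁻¹ * EP A := by
      unfold EP
      rw [prod_insert hqA]
    rw [e1, insert_eq]
    refine (sub {q} A z).trans ?_
    have h0 : 0 ≤ RSm A z := by
      unfold RSm
      exact sum_nonneg fun _ _ => by positivity
    exact mul_le_mul (EPPm.RSm_single hq z) ih' h0 (zero_le_one.trans (EPPm.fac_ge_one hq))

end RSUm

open RSUm

theorem RSU_thm : Stmt_RSU := by
  classical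
  obtain ⟨C, hC, hM⟩ := Pool.Agent.Lib_helper29.SW.mertens
  have hl2 : 0 < Real.log 2 := Real.log_pos (by norm_num)
  set K : ℝ := Real.exp (C / Real.log 2 + 2) with hK
  have hK0 : 0 < K := Real.exp_pos _
  -- primes in an interval
  have hI : ∀ a Q z : ℕ, 2 ≤ a → a ≤ Q →
      RSm ((Icc a Q).filter Nat.Prime) z ≤ K * (Real.log Q / Real.log a) := by
    intro a Q z ha haQ
    have hla : 0 < Real.log a := Real.log_pos (by exact_mod_cast (by omega : 1 < a))
    have hlQ : 0 < Real.log Q := Real.log_pos (by exact_mod_cast (by omega : 1 < Q))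
    have h1 := le_EP ((Icc a Q).filter Nat.Prime) z fun q hq => (mem_filter.1 hq).2
    have h2 := EPPm.EP_le_exp (A := (Icc a Q).filter Nat.Prime) fun q hq => (mem_filter.1 hq).2
    refine h1.trans (h2.trans ?_)
    have h3 := (abs_le.1 (hM a Q (by exact_mod_cast ha) (by exact_mod_cast haQ))).2
    have h4 : ∑ q ∈ (Icc a Q).filter Nat.Prime, (1 : ℝ) / q ≤
        ∑ p ∈ Pool.Agent.Lib_helper72.AS.PI a Q, (1 : ℝ) / p + 1 := by
      have h5 : (Icc a Q).filter Nat.Prime ⊆ insert a (Pool.Agent.Lib_helper72.AS.PI a Q) := by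
        intro q hq
        obtain ⟨h6, h7⟩ := mem_filter.1 hq
        obtain ⟨h8, h9⟩ := mem_Icc.1 h6
        rcases h8.eq_or_lt with h10 | h10
        · exact mem_insert.2 (Or.inl h10.symm)
        · refine mem_insert_of_mem ((Pool.Agent.Lib_helper72.AS.mem_PI (by positivity)).2
            ⟨h7, by exact_mod_cast h10, by exact_mod_cast h9⟩)
      refine (sum_le_sum_of_subset_of_nonneg h5 fun _ _ _ => by positivity).trans ?_
      have ha1 : (1 : ℝ) / a ≤ 1 := by
        rw [div_le_one (by positivity)]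
        exact_mod_cast (by omega : 1 ≤ a)
      by_cases hm : a ∈ Pool.Agent.Lib_helper72.AS.PI a Q
      · rw [insert_eq_of_mem hm]
        linarith
      · rw [sum_insert hm]
        linarith
    have h6 : C / Real.log a ≤ C / Real.log 2 :=
      div_le_div_of_nonneg_left hC.le hl2 (Real.log_le_log (by norm_num) (by exact_mod_cast ha))
    have e1 : K * (Real.log Q / Real.log a) =
        Real.exp (C / Real.log 2 + 2 + (Real.log (Real.log Q) - Real.log (Real.log a))) := by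
      rw [Real.exp_add, Real.exp_sub, Real.exp_log hlQ, Real.exp_log hla]
    rw [e1, Real.exp_le_exp]
    linarith
  refine ⟨sub, mono, one_le, log_le, ?_, K / Real.log 2 + K, by positivity, ?_, ?_⟩
  · intro b z hb
    refine (EPPm.RSm_single hb z).trans ?_
    have h2 : (2 : ℝ) ≤ b := by exact_mod_cast hb.two_le
    have h3 : (1 : ℝ) / b ≤ 1 / 2 := one_div_le_one_div_of_le (by norm_num) h2
    rw [inv_le_comm₀ (by linarith) (by norm_num)]
    linarith
  · intro T z hT
    have h1 := hI 2 T z le_rfl hT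
    have e : (Icc 1 T).filter Nat.Prime = (Icc 2 T).filter Nat.Prime := by
      ext q
      simp only [mem_filter, mem_Icc]
      exact ⟨fun h => ⟨⟨h.2.two_le, h.1.2⟩, h.2⟩, fun h => ⟨⟨by omega, h.1.2⟩, h.2⟩⟩
    rw [e]
    have hlT : 0 ≤ Real.log T := Real.log_nonneg (by exact_mod_cast (by omega : 1 ≤ T))
    refine h1.trans ?_
    have e2 : (K / Real.log 2 + K) * Real.log T = K * (Real.log T / Real.log 2) + K * Real.log T := by
      ring
    rw [e2]
    push_cast
    have := mul_nonneg hK0.le hlT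
    linarith
  · intro a Q z ha haQ
    have h1 := hI a Q z ha haQ
    have hla : 0 ≤ Real.log a := Real.log_nonneg (by exact_mod_cast (by omega : 1 ≤ a))
    have hlQ : 0 ≤ Real.log Q := Real.log_nonneg (by exact_mod_cast (by omega : 1 ≤ Q))
    refine h1.trans (mul_le_mul_of_nonneg_right ?_ (div_nonneg hlQ hla))
    have : 0 ≤ K / Real.log 2 := by positivity
    linarith

end Pool.Agent.ADG
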