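import Pool.Agent.ADG.St4

/-!
# ADG, module RTL (helper91): stabilizers in `H = P Y` and in the complement `Y`
-/

set_option autoImplicit false
set_option linter.unusedSectionVars false
set_option linter.style.haveILetI false

namespace Pool.Agent.ADG

open Finset Pool.Agent.ADS

namespace RTL

variable {G : Type} [Group G] [Fintype G]

/-- a group of prime order is generated by every nontrivial element -/
private lemma gen (P : Subgroup G) (p : ℕ) (hp : p.Prime) (hP : Nat.card P = p) {d : G}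
    (hd : d ∈ P) (hd1 : d ≠ 1) {u : G} (hu : u ∈ P) : ∃ n : ℤ, d ^ n = u := by
  haveI := Fact.mk hp
  have h := mem_zpowers_of_prime_card (G := P) (p := p) hP (g := ⟨d, hd⟩) (g' := ⟨u, hu⟩) (by
    intro h
    exact hd1 (by simpa using congrArg Subtype.val h))
  obtain ⟨n, hn⟩ := Subgroup.mem_zpowers_iff.mp h
  exact ⟨n, by simpa using congrArg Subtype.val hn⟩

private lemma comm (P : Subgroup G) (p : ℕ) (hp : p.Prime) (hP : Nat.card P = p) {u v : G}
    (hu : u ∈ P) (hv : v ∈ P) : u * v = v * u := by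
  by_cases h : u = 1
  · subst h
    simp
  · obtain ⟨n, rfl⟩ := gen P p hp hP hu h hv
    exact ((Commute.refl u).zpow_right n).eq

private lemma inf_bot (P Y : Subgroup G) (p : ℕ) (hp : p.Prime) (hP : Nat.card P = p)
    (hY : ¬ p ∣ Nat.card Y) {k : G} (h1 : k ∈ P) (h2 : k ∈ Y) : k = 1 := by
  have h : P ⊓ Y = ⊥ := (Subgroup.disjoint_of_coprime_natCard (by
    rw [hP]
    exact (Nat.Prime.coprime_iff_not_dvd hp).mpr hY)).eq_bot
  have h3 : k ∈ P ⊓ Y := ⟨h1, h2⟩
  rw [h] at h3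
  exact Subgroup.mem_bot.mp h3

private lemma factor (P H Y : Subgroup G) (p : ℕ) (hp : p.Prime) (hP : Nat.card P = p)
    (hPH : P ≤ H) (hYH : Y ≤ H) (hc : Nat.card H = p * Nat.card Y) (hY : ¬ p ∣ Nat.card Y)
    {h : G} (hh : h ∈ H) : ∃ π ∈ P, ∃ b ∈ Y, h = π * b := by
  let f : P × Y → H := fun q => ⟨q.1 * q.2, H.mul_mem (hPH q.1.2) (hYH q.2.2)⟩
  have hf : Function.Injective f := by
    rintro ⟨a, b⟩ ⟨c, d⟩ e
    have e1 : (a : G) * b = c * d := congrArg Subtype.val e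
    have e2 : (c : G)⁻¹ * a = d * (b : G)⁻¹ := by
      rw [inv_mul_eq_iff_eq_mul, ← mul_assoc, ← e1]
      group
    have e3 : (c : G)⁻¹ * a = 1 :=
      inf_bot P Y p hp hP hY (P.mul_mem (P.inv_mem c.2) a.2)
        (e2 ▸ Y.mul_mem d.2 (Y.inv_mem b.2))
    have e4 : (c : G) = a := inv_mul_eq_one.mp e3
    have e5 : (d : G) = b := by
      rw [e3] at e2
      exact (mul_inv_eq_one.mp e2.symm)
    ext
    · exact e4.symm
    · exact e5.symm
  have hb : Function.Bijective f := hf.bijective_of_nat_card_le (by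
    rw [Nat.card_prod, hP, hc])
  obtain ⟨⟨a, b⟩, e⟩ := hb.2 ⟨h, hh⟩
  exact ⟨a, a.2, b, b.2, (congrArg Subtype.val e).symm⟩

/-- the stabilizer as a subgroup -/
private def St (N H : Subgroup G) (x : G) : Subgroup G :=
  H ⊓ N.comap (MulAut.conj x).toMonoidHom

private lemma mem_St (N H : Subgroup G) (x k : G) : k ∈ St N H x ↔ k ∈ H ∧ x * k * x⁻¹ ∈ N := by
  simp [St, Subgroup.mem_inf]

private lemma sta_eq (N H : Subgroup G) (x : G) : sta N H x = Nat.card (St N H x) := by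
  unfold sta
  exact Nat.card_congr (Equiv.subtypeEquivRight fun k => (mem_St N H x k).symm)

private def Ce (N P H : Subgroup G) (x : G) : Subgroup G := St N H x ⊓ Subgroup.centralizer P

private lemma mem_Ce (N P H : Subgroup G) (x k : G) :
    k ∈ Ce N P H x ↔ k ∈ St N H x ∧ ∀ u ∈ P, k * u = u * k := by
  simp only [Ce, Subgroup.mem_inf, Subgroup.mem_centralizer_iff, SetLike.mem_coe]
  constructor
  · rintro ⟨h1, h2⟩
    exact ⟨h1, fun u hu => (h2 u hu).symm⟩
  · rintro ⟨h1, h2⟩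
    exact ⟨h1, fun u hu => (h2 u hu).symm⟩

private lemma cen_eq (N P H : Subgroup G) (x : G) : cen N P H x = Nat.card (Ce N P H x) := by
  unfold cen
  refine Nat.card_congr (Equiv.subtypeEquivRight fun k => ?_)
  rw [mem_Ce, mem_St]
  tauto

/-- the elements of the stabilizer which `u` moves into `Y` -/
private def Gd (N H Y : Subgroup G) (x u : G) : Subgroup G :=
  St N H x ⊓ Y.comap (MulAut.conj u⁻¹).toMonoidHom

private lemma mem_Gd (N H Y : Subgroup G) (x u k : G) :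
    k ∈ Gd N H Y x u ↔ k ∈ St N H x ∧ u⁻¹ * k * u ∈ Y := by
  simp [Gd, Subgroup.mem_inf]

private lemma sta_mul (N H Y : Subgroup G) (x u : G) (hYH : Y ≤ H) (hu : u ∈ H) :
    sta N Y (x * u) = Nat.card (Gd N H Y x u) := by
  unfold sta
  refine Nat.card_congr
    { toFun := fun k => ⟨u * k.1 * u⁻¹, ?_⟩
      invFun := fun k => ⟨u⁻¹ * k.1 * u, ?_⟩
      left_inv := fun k => ?_
      right_inv := fun k => ?_ }
  · obtain ⟨k, hk1, hk2⟩ := k
    rw [mem_Gd, mem_St]
    refine ⟨⟨H.mul_mem (H.mul_mem hu (hYH hk1)) (H.inv_mem hu), ?_⟩, ?_⟩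
    · have : x * (u * k * u⁻¹) * x⁻¹ = x * u * k * (x * u)⁻¹ := by group
      rw [this]
      exact hk2
    · have : u⁻¹ * (u * k * u⁻¹) * u = k := by group
      rw [this]
      exact hk1
  · obtain ⟨k, hk⟩ := k
    rw [mem_Gd, mem_St] at hk
    refine ⟨hk.2, ?_⟩
    have : x * u * (u⁻¹ * k * u) * (x * u)⁻¹ = x * k * x⁻¹ := by group
    rw [this]
    exact hk.1.2
  · apply Subtype.ext
    simp only
    group
  · apply Subtype.ext
    simp only
    group

/-- if `P` is in the stabilizer -/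
private lemma part_one (N P H Y : Subgroup G) (p : ℕ) (hp : p.Prime) (hP : Nat.card P = p)
    (hPH : P ≤ H) (hYH : Y ≤ H) (hc : Nat.card H = p * Nat.card Y) (hY : ¬ p ∣ Nat.card Y)
    (x : G) (hx : ∀ u ∈ P, x * u * x⁻¹ ∈ N) : sta N H x = p * sta N Y x := by
  rw [sta_eq, sta_eq, ← hP, ← Nat.card_prod]
  symm
  have hPS : ∀ u ∈ P, u ∈ St N H x := fun u hu => (mem_St N H x u).mpr ⟨hPH hu, hx u hu⟩
  have hYS : ∀ k ∈ St N Y x, k ∈ St N H x := fun k hk => by
    rw [mem_St] at hk ⊢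
    exact ⟨hYH hk.1, hk.2⟩
  let f : P × St N Y x → St N H x :=
    fun q => ⟨q.1 * q.2, (St N H x).mul_mem (hPS _ q.1.2) (hYS _ q.2.2)⟩
  refine Nat.card_congr (Equiv.ofBijective f ⟨?_, ?_⟩)
  · rintro ⟨a, b⟩ ⟨c, d⟩ e
    have e1 : (a : G) * b = c * d := congrArg Subtype.val e
    have e2 : (c : G)⁻¹ * a = d * (b : G)⁻¹ := by
      rw [inv_mul_eq_iff_eq_mul, ← mul_assoc, ← e1]
      group
    have hb := ((mem_St N Y x b).mp b.2).1
    have hd := ((mem_St N Y x d).mp d.2).1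
    have e3 : (c : G)⁻¹ * a = 1 :=
      inf_bot P Y p hp hP hY (P.mul_mem (P.inv_mem c.2) a.2)
        (e2 ▸ Y.mul_mem hd (Y.inv_mem hb))
    have e4 : (c : G) = a := inv_mul_eq_one.mp e3
    have e5 : (d : G) = b := by
      rw [e3] at e2
      exact (mul_inv_eq_one.mp e2.symm)
    ext
    · exact e4.symm
    · exact e5.symm
  · rintro ⟨h, hh⟩
    have hh' := (mem_St N H x h).mp hh
    obtain ⟨π, hπ, b, hb, rfl⟩ := factor P H Y p hp hP hPH hYH hc hY hh'.1
    have hbS : b ∈ St N Y x := by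
      rw [mem_St]
      refine ⟨hb, ?_⟩
      have h1 : x * b * x⁻¹ = (x * π * x⁻¹)⁻¹ * (x * (π * b) * x⁻¹) := by group
      rw [h1]
      exact N.mul_mem (N.inv_mem (hx π hπ)) hh'.2
    exact ⟨(⟨π, hπ⟩, ⟨b, hbS⟩), rfl⟩

/-- `P` meets the stabilizer trivially -/
private lemma meet_one (N P H : Subgroup G) (p : ℕ) (hp : p.Prime) (hP : Nat.card P = p)
    (x : G) (hx : ¬ ∀ u ∈ P, x * u * x⁻¹ ∈ N) {k : G} (h1 : k ∈ P) (h2 : k ∈ St N H x) :
    k = 1 := by
  by_contra hk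
  apply hx
  intro u hu
  obtain ⟨n, rfl⟩ := gen P p hp hP h1 hk hu
  exact ((mem_St N H x _).mp ((St N H x).zpow_mem h2 n)).2

/-- the centralizing elements of the stabilizer are in `Y` -/
private lemma cen_mem (N P H Y : Subgroup G) (p : ℕ) (hp : p.Prime) (hP : Nat.card P = p)
    (hPH : P ≤ H) (hYH : Y ≤ H) (hc : Nat.card H = p * Nat.card Y) (hY : ¬ p ∣ Nat.card Y)
    (x : G) (hx : ¬ ∀ u ∈ P, x * u * x⁻¹ ∈ N) {d : G} (hd : d ∈ Ce N P H x) : d ∈ Y := by
  obtain ⟨hd1, hd2⟩ := (mem_Ce N P H x d).mp hd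
  have hdH := ((mem_St N H x d).mp hd1).1
  obtain ⟨π, hπ, b, hb, e⟩ := factor P H Y p hp hP hPH hYH hc hY hdH
  have hcm : Commute π b := by
    have h1 : b = π⁻¹ * d := by rw [e]; group
    have h2 : Commute π d := (hd2 π hπ).symm
    rw [h1]
    exact ((Commute.refl π).inv_right).mul_right h2
  have hbm : b ^ Nat.card Y = 1 := by
    have h1 : (⟨b, hb⟩ : Y) ^ Nat.card Y = 1 := pow_card_eq_one'
    exact congrArg Subtype.val h1
  have hpm : d ^ Nat.card Y = π ^ Nat.card Y := by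
    rw [e, hcm.mul_pow, hbm, mul_one]
  have h3 : π ^ Nat.card Y = 1 :=
    meet_one N P H p hp hP x hx (P.pow_mem hπ _) (hpm ▸ (St N H x).pow_mem hd1 _)
  have h4 : π ^ p = 1 := by
    have h1 : (⟨π, hπ⟩ : P) ^ Nat.card P = 1 := pow_card_eq_one'
    rw [hP] at h1
    simpa using congrArg Subtype.val h1
  have h5 : π = 1 := by
    have h6 := orderOf_dvd_of_pow_eq_one h3
    have h7 := orderOf_dvd_of_pow_eq_one h4
    rcases (Nat.dvd_prime hp).mp h7 with h8 | h8
    · exact orderOf_eq_one_iff.mp h8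
    · rw [h8] at h6
      exact absurd h6 hY
  rw [e, h5, one_mul]
  exact hb

private lemma cen_le (N P H Y : Subgroup G) (p : ℕ) (hp : p.Prime) (hP : Nat.card P = p)
    (hPH : P ≤ H) (hYH : Y ≤ H) (hc : Nat.card H = p * Nat.card Y) (hY : ¬ p ∣ Nat.card Y)
    (x : G) (hx : ¬ ∀ u ∈ P, x * u * x⁻¹ ∈ N) (u : G) (hu : u ∈ P) :
    Ce N P H x ≤ Gd N H Y x u := by
  intro d hd
  rw [mem_Gd]
  obtain ⟨hd1, hd2⟩ := (mem_Ce N P H x d).mp hd
  refine ⟨hd1, ?_⟩
  rw [mul_assoc, hd2 u hu]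
  have h : u⁻¹ * (u * d) = d := by group
  rw [h]
  exact cen_mem N P H Y p hp hP hPH hYH hc hY x hx hd

/-- a fixed point of a noncentralizing element is trivial -/
private lemma fixed_one (P : Subgroup G) (p : ℕ) (hp : p.Prime) (hP : Nat.card P = p) {b : G}
    (hb : ¬ ∀ u ∈ P, b * u = u * b) {w : G} (hw : w ∈ P) (h : b * w = w * b) : w = 1 := by
  by_contra hk
  apply hb
  intro u hu
  obtain ⟨n, rfl⟩ := gen P p hp hP hw hk hu
  exact ((show Commute b w from h).zpow_right n).eq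

/-- the twisted map is injective -/
private lemma tau_inj (P : Subgroup G) (p : ℕ) (hp : p.Prime) (hP : Nat.card P = p)
    {b : G} (hb : ¬ ∀ u ∈ P, b * u = u * b) {u v : G} (hu : u ∈ P) (hv : v ∈ P)
    (h : u * (b * u⁻¹ * b⁻¹) = v * (b * v⁻¹ * b⁻¹)) : u = v := by
  have hw : v⁻¹ * u ∈ P := P.mul_mem (P.inv_mem hv) hu
  have h1 : v⁻¹ * u = (b * v⁻¹ * b⁻¹) * (b * u⁻¹ * b⁻¹)⁻¹ := by
    rw [eq_mul_inv_iff_mul_eq, mul_assoc, h]
    group
  have h2 : (b * v⁻¹ * b⁻¹) * (b * u⁻¹ * b⁻¹)⁻¹ = b * (v⁻¹ * u) * b⁻¹ := by group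
  rw [h2] at h1
  have h3 : b * (v⁻¹ * u) = (v⁻¹ * u) * b := by
    calc b * (v⁻¹ * u) = b * (v⁻¹ * u) * b⁻¹ * b := by group
      _ = (v⁻¹ * u) * b := by rw [← h1]
  have h4 := fixed_one P p hp hP hb hw h3
  exact (inv_mul_eq_one.mp h4).symm

/-- when `u` moves `d = π b` into `Y` -/
private lemma good_iff (P H Y : Subgroup G) (p : ℕ) (hp : p.Prime) (hP : Nat.card P = p)
    (hY : ¬ p ∣ Nat.card Y)
    (hn : ∀ h ∈ H, ∀ u ∈ P, h * u * h⁻¹ ∈ P) {π b u : G} (hπ : π ∈ P) (hb : b ∈ Y) (hbH : b ∈ H)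
    (hu : u ∈ P) : u⁻¹ * (π * b) * u ∈ Y ↔ π = u * (b * u⁻¹ * b⁻¹) := by
  have h1 : u⁻¹ * (π * b) * u = (u⁻¹ * π * (b * u * b⁻¹)) * b := by group
  constructor
  · intro h
    rw [h1] at h
    have h2 : u⁻¹ * π * (b * u * b⁻¹) ∈ Y := by
      have := Y.mul_mem h (Y.inv_mem hb)
      rwa [mul_inv_cancel_right] at this
    have h3 : u⁻¹ * π * (b * u * b⁻¹) ∈ P :=
      P.mul_mem (P.mul_mem (P.inv_mem hu) hπ) (hn b hbH u hu)
    have h4 := inf_bot P Y p hp hP hY h3 h2
    have h5 : π = u * (b * u * b⁻¹)⁻¹ := by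
      rw [eq_mul_inv_iff_mul_eq]
      rw [mul_assoc, inv_mul_eq_one] at h4
      exact h4.symm
    rw [h5]
    group
  · intro h
    have h2 : u⁻¹ * (π * b) * u = b := by
      rw [h]
      group
    rw [h2]
    exact hb

/-- existence and uniqueness of the good `u` -/
private lemma good_unique (N P H Y : Subgroup G) (p : ℕ) (hp : p.Prime) (hP : Nat.card P = p)
    (hPH : P ≤ H) (hYH : Y ≤ H) (hn : ∀ h ∈ H, ∀ u ∈ P, h * u * h⁻¹ ∈ P)
    (hc : Nat.card H = p * Nat.card Y) (hY : ¬ p ∣ Nat.card Y)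
    (x : G) {d : G} (hd : d ∈ St N H x) (hdc : d ∉ Ce N P H x) :
    ∃ u ∈ P, d ∈ Gd N H Y x u ∧ ∀ v ∈ P, d ∈ Gd N H Y x v → v = u := by
  have hdH := ((mem_St N H x d).mp hd).1
  obtain ⟨π, hπ, b, hb, e⟩ := factor P H Y p hp hP hPH hYH hc hY hdH
  have hbH := hYH hb
  have hb1 : ¬ ∀ u ∈ P, b * u = u * b := by
    intro h
    apply hdc
    rw [mem_Ce]
    refine ⟨hd, fun u hu => ?_⟩
    have h1 : Commute π u := comm P p hp hP hπ hu
    have h2 : Commute b u := h u hu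
    rw [e]
    exact (h1.mul_left h2).eq
  let f : P → P := fun u => ⟨u * (b * (u : G)⁻¹ * b⁻¹),
    P.mul_mem u.2 (hn b hbH _ (P.inv_mem u.2))⟩
  have hf : Function.Injective f := by
    intro u v h
    apply Subtype.ext
    exact tau_inj P p hp hP hb1 u.2 v.2 (congrArg Subtype.val h)
  have hf2 : Function.Surjective f := Finite.surjective_of_injective hf
  obtain ⟨u, hu⟩ := hf2 ⟨π, hπ⟩
  have hu' : π = u * (b * (u : G)⁻¹ * b⁻¹) := (congrArg Subtype.val hu).symm
  refine ⟨u, u.2, ?_, ?_⟩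
  · rw [mem_Gd]
    refine ⟨hd, ?_⟩
    rw [e, good_iff P H Y p hp hP hY hn hπ hb hbH u.2]
    exact hu'
  · intro v hv hdv
    rw [mem_Gd] at hdv
    have h1 := hdv.2
    rw [e, good_iff P H Y p hp hP hY hn hπ hb hbH hv] at h1
    exact tau_inj P p hp hP hb1 hv u.2 (h1.symm.trans hu')

/-- the stabilizer modulo the centralizer is cyclic of order dividing `p - 1` -/
private lemma cyc (N P H : Subgroup G) (p : ℕ) (hp : p.Prime) (hP : Nat.card P = p)
    (hn : ∀ h ∈ H, ∀ u ∈ P, h * u * h⁻¹ ∈ P) (x : G) :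
    (∃ t, t ∣ p - 1 ∧ Nat.card (St N H x) = Nat.card (Ce N P H x) * t) ∧
    ∃ d ∈ St N H x, ∀ k ∈ St N H x, ∃ n : ℤ, (d ^ n)⁻¹ * k ∈ Ce N P H x := by
  have := Fact.mk hp
  have hle : St N H x ≤ Subgroup.normalizer (P : Set G) := by
    intro k hk
    have hkH := ((mem_St N H x k).mp hk).1
    rw [Subgroup.mem_normalizer_iff]
    intro u
    constructor
    · intro hu
      exact hn k hkH u hu
    · intro hu
      have h1 := hn k⁻¹ (H.inv_mem hkH) _ hu
      have h2 : k⁻¹ * (k * u * k⁻¹) * k⁻¹⁻¹ = u := by group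
      rwa [h2] at h1
  let α : St N H x →* MulAut P := P.normalizerMonoidHom.comp (Subgroup.inclusion hle)
  have hcyc : IsCyclic P := isCyclic_of_prime_card hP
  have hcard : Nat.card (MulAut P) = p - 1 := by
    rw [Nat.card_congr (IsCyclic.mulAutMulEquiv P).toEquiv, hP, Nat.card_eq_fintype_card,
      ZMod.card_units_eq_totient, Nat.totient_prime hp]
  have hker : ∀ k : St N H x, k ∈ α.ker ↔ (k : G) ∈ Ce N P H x := by
    intro k
    rw [mem_Ce, MonoidHom.mem_ker]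
    constructor
    · intro h
      refine ⟨k.2, fun u hu => ?_⟩
      have h1 := congrArg (fun a : MulAut P => ((a ⟨u, hu⟩ : P) : G)) h
      have h2 : (k : G) * u * (k : G)⁻¹ = u := h1
      calc (k : G) * u = (k : G) * u * (k : G)⁻¹ * k := by group
        _ = u * k := by rw [h2]
    · rintro ⟨-, h⟩
      ext u
      have h2 : (k : G) * u * (k : G)⁻¹ = u := by
        rw [h u u.2]
        group
      exact h2
  have hkc : Nat.card α.ker = Nat.card (Ce N P H x) := by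
    have hCS : ∀ k ∈ Ce N P H x, k ∈ St N H x := fun k hk => ((mem_Ce N P H x k).mp hk).1
    refine Nat.card_congr
      { toFun := fun k => ⟨k.1, (hker k.1).mp k.2⟩
        invFun := fun k => ⟨⟨k.1, hCS _ k.2⟩, (hker _).mpr k.2⟩
        left_inv := fun k => rfl
        right_inv := fun k => rfl }
  constructor
  · refine ⟨Nat.card α.range, ?_, ?_⟩
    · rw [← hcard]
      exact Subgroup.card_subgroup_dvd_card _
    · rw [← hkc, ← Subgroup.index_ker, Subgroup.card_mul_index]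
  · have hcyc2 : IsCyclic (MulAut P) := by
      have h1 : IsCyclic (ZMod (Nat.card P))ˣ := by
        rw [hP]
        infer_instance
      exact isCyclic_of_surjective (IsCyclic.mulAutMulEquiv P).symm
        (IsCyclic.mulAutMulEquiv P).symm.surjective
    have hcyc3 : IsCyclic α.range := inferInstance
    obtain ⟨⟨a, d, ha⟩, hgen⟩ := hcyc3.exists_generator
    refine ⟨d, d.2, fun k hk => ?_⟩
    obtain ⟨n, hn1⟩ := Subgroup.mem_zpowers_iff.mp (hgen ⟨α ⟨k, hk⟩, ⟨k, hk⟩, rfl⟩)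
    have hn2 : a ^ n = α ⟨k, hk⟩ := by simpa using congrArg Subtype.val hn1
    refine ⟨n, ?_⟩
    have h1 : (d ^ n)⁻¹ * ⟨k, hk⟩ ∈ α.ker := by
      rw [MonoidHom.mem_ker, map_mul, map_inv, map_zpow, ha, hn2, inv_mul_cancel]
    have h2 := (hker _).mp h1
    simpa using h2

end RTL

open RTL in
open Classical in
/-- RTL. -/
theorem RTL_thm : Stmt_RTL := by
  intro G _ _ N P H Y p hp hP hPH hYH hn hc hY
  refine ⟨fun x hx => part_one N P H Y p hp hP hPH hYH hc hY x hx, fun x hx => ?_⟩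
  obtain ⟨⟨t, ht, hst⟩, d, hd, hgen⟩ := cyc N P H p hp hP hn x
  refine ⟨⟨t, ht, by rw [sta_eq, cen_eq, hst]⟩, fun g => ?_⟩
  have hcf : ((univ.filter (fun u : G => u ∈ P)).card : ℚ) = p := by
    rw [← hP, Nat.card_eq_fintype_card, Fintype.card_subtype]
  have hG : ∀ u ∈ P, sta N Y (x * u) = Nat.card (Gd N H Y x u) :=
    fun u hu => sta_mul N H Y x u hYH (hPH hu)
  have hle : ∀ u ∈ P, Ce N P H x ≤ Gd N H Y x u :=
    fun u hu => cen_le N P H Y p hp hP hPH hYH hc hY x hx u hu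
  have hGS : ∀ u, Gd N H Y x u ≤ St N H x := fun u k hk => ((mem_Gd N H Y x u k).mp hk).1
  rw [sta_eq, cen_eq]
  by_cases hd1 : d ∈ Ce N P H x
  · have hSC : St N H x = Ce N P H x := by
      apply le_antisymm
      · intro k hk
        obtain ⟨n, h⟩ := hgen k hk
        have h2 := (Ce N P H x).mul_mem ((Ce N P H x).zpow_mem hd1 n) h
        rwa [mul_inv_cancel_left] at h2
      · intro k hk
        exact ((mem_Ce N P H x k).mp hk).1
    have h1 : ∀ u ∈ univ.filter (fun u : G => u ∈ P),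
        g (sta N Y (x * u)) = g (Nat.card (Ce N P H x)) := by
      intro u hu
      have hu' : u ∈ P := by simpa using hu
      rw [hG u hu']
      have : Gd N H Y x u = Ce N P H x := le_antisymm (hSC ▸ hGS u) (hle u hu')
      rw [this]
    rw [Finset.sum_congr rfl h1, Finset.sum_const, nsmul_eq_mul, hcf, hSC]
    ring
  · obtain ⟨u₁, hu₁, hdu, -⟩ :=
      good_unique N P H Y p hp hP hPH hYH hn hc hY x hd hd1
    have hfull : Gd N H Y x u₁ = St N H x := by
      apply le_antisymm (hGS u₁)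
      intro k hk
      obtain ⟨n, h⟩ := hgen k hk
      have h2 := (Gd N H Y x u₁).mul_mem ((Gd N H Y x u₁).zpow_mem hdu n) (hle u₁ hu₁ h)
      rwa [mul_inv_cancel_left] at h2
    have hoth : ∀ u ∈ P, u ≠ u₁ → Gd N H Y x u = Ce N P H x := by
      intro u hu hne
      apply le_antisymm _ (hle u hu)
      intro k hk
      by_contra hkc
      obtain ⟨w, -, -, hw⟩ :=
        good_unique N P H Y p hp hP hPH hYH hn hc hY x (hGS u hk) hkc
      exact hne ((hw u hu hk).trans (hw u₁ hu₁ (hfull ▸ hGS u hk)).symm)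
    have h1 : ∀ u ∈ univ.filter (fun u : G => u ∈ P), g (sta N Y (x * u)) =
        (if u = u₁ then g (Nat.card (St N H x)) - g (Nat.card (Ce N P H x)) else 0) +
          g (Nat.card (Ce N P H x)) := by
      intro u hu
      have hu' : u ∈ P := by simpa using hu
      rw [hG u hu']
      by_cases h : u = u₁
      · rw [if_pos h, h, hfull]
        ring
      · rw [if_neg h, hoth u hu' h]
        ring
    rw [Finset.sum_congr rfl h1, Finset.sum_add_distrib, Finset.sum_const, nsmul_eq_mul, hcf,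
      Finset.sum_ite_eq', if_pos (by simpa using hu₁)]
    ring

end Pool.Agent.ADG
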