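import Pool.Agent.ADG.St2
import Pool.Agent.ADS.EV23
import Pool.Agent.Lib_helper72.AP.FormSieve

/-!
Module ADG_S2V of MP_43d07b_co: Selberg's sieve with up to two residue classes per prime.
-/

set_option autoImplicit false

namespace Pool.Agent.ADG

namespace S2Vm

open Finset ArithmeticFunction BoundingSieve
open Pool.Agent.Lib_helper72.AP (Cong rhoF nuG nuG_apply nuG_mult rhoF_le)

/-- the excluded classes -/
def bad (P1 P2 : Finset ℕ) (q x : ℕ) : Prop :=
  (q ∈ P1 ∧ x ≡ 0 [MOD q]) ∨ (q ∈ P2 ∧ x ≡ 1 [MOD q])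

open Classical in
/-- the product of the primes for which `x` is in an excluded class -/
noncomputable def FF (P1 P2 : Finset ℕ) (x : ℕ) : ℕ :=
  ∏ q ∈ (P1 ∪ P2).filter (fun q => bad P1 P2 q x), q

theorem bad_mem {P1 P2 : Finset ℕ} {q x : ℕ} (h : bad P1 P2 q x) : q ∈ P1 ∪ P2 := by
  rw [mem_union]
  rcases h with h | h
  · exact Or.inl h.1
  · exact Or.inr h.1

theorem bad_congr {P1 P2 : Finset ℕ} {q a b : ℕ} (h : a ≡ b [MOD q]) :
    bad P1 P2 q a ↔ bad P1 P2 q b := by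
  unfold bad
  constructor
  · rintro (⟨h1, h2⟩ | ⟨h1, h2⟩)
    · exact Or.inl ⟨h1, h.symm.trans h2⟩
    · exact Or.inr ⟨h1, h.symm.trans h2⟩
  · rintro (⟨h1, h2⟩ | ⟨h1, h2⟩)
    · exact Or.inl ⟨h1, h.trans h2⟩
    · exact Or.inr ⟨h1, h.trans h2⟩

theorem dvd_FF {P1 P2 : Finset ℕ} (hP : ∀ q ∈ P1 ∪ P2, q.Prime) (d x : ℕ) :
    d ∣ FF P1 P2 x ↔ Squarefree d ∧ ∀ q : ℕ, q.Prime → q ∣ d → bad P1 P2 q x := by
  classical
  have hP' : ∀ q ∈ (P1 ∪ P2).filter (fun q => bad P1 P2 q x), q.Prime :=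
    fun q hq => hP q (mem_filter.1 hq).1
  have hsq : Squarefree (FF P1 P2 x) := by
    unfold FF
    exact ADS.EV23m.sqf_prod _ hP'
  constructor
  · intro h
    refine ⟨Squarefree.squarefree_of_dvd h hsq, fun q hq hqd => ?_⟩
    have h1 := ADS.EV23m.dvd_prod _ hP' hq (hqd.trans h)
    exact (mem_filter.1 h1).2
  · rintro ⟨h1, h2⟩
    rw [← Nat.prod_primeFactors_of_squarefree h1]
    unfold FF
    apply Finset.prod_dvd_prod_of_subset
    intro q hq
    have h3 := h2 q (Nat.prime_of_mem_primeFactors hq) (Nat.dvd_of_mem_primeFactors hq)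
    rw [mem_filter]
    exact ⟨bad_mem h3, h3⟩

theorem cong_FF {P1 P2 : Finset ℕ} (hP : ∀ q ∈ P1 ∪ P2, q.Prime) :
    Cong (fun n => (FF P1 P2 n : ℤ)) := by
  intro d a b hab
  simp only [Int.natCast_dvd_natCast]
  rw [dvd_FF hP, dvd_FF hP]
  refine and_congr_right fun _ => ?_
  refine forall_congr' fun q => forall_congr' fun _ => forall_congr' fun hqd => ?_
  exact bad_congr (hab.of_dvd hqd)

/-- the number of classes -/
def nn (P1 P2 : Finset ℕ) (q : ℕ) : ℕ := (if q ∈ P1 then 1 else 0) + (if q ∈ P2 then 1 else 0)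

theorem rho_prime {P1 P2 : Finset ℕ} (hP : ∀ q ∈ P1 ∪ P2, q.Prime) {q : ℕ} (hq : q.Prime) :
    rhoF (fun n => (FF P1 P2 n : ℤ)) q = nn P1 P2 q := by
  classical
  have e : (range q).filter (fun n => (q : ℤ) ∣ (FF P1 P2 n : ℤ)) =
      (if q ∈ P1 then {0} else ∅) ∪ (if q ∈ P2 then {1} else ∅) := by
    ext n
    rw [mem_filter, mem_range, Int.natCast_dvd_natCast, dvd_FF hP, mem_union]
    have h1 : (∀ p : ℕ, p.Prime → p ∣ q → bad P1 P2 p n) ↔ bad P1 P2 q n := by
      constructor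
      · intro h
        exact h q hq dvd_rfl
      · intro h p hp hpq
        rwa [(Nat.prime_dvd_prime_iff_eq hp hq).1 hpq]
    rw [h1]
    have hlt := hq.one_lt
    constructor
    · rintro ⟨h2, _, h3⟩
      rcases h3 with ⟨h4, h5⟩ | ⟨h4, h5⟩
      · left
        rw [if_pos h4, mem_singleton]
        have : n % q = 0 % q := h5
        rwa [Nat.mod_eq_of_lt h2, Nat.zero_mod] at this
      · right
        rw [if_pos h4, mem_singleton]
        have : n % q = 1 % q := h5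
        rwa [Nat.mod_eq_of_lt h2, Nat.mod_eq_of_lt hlt] at this
    · rintro (h | h)
      · by_cases h4 : q ∈ P1
        · rw [if_pos h4, mem_singleton] at h
          rw [h]
          exact ⟨by omega, hq.prime.squarefree, Or.inl ⟨h4, rfl⟩⟩
        · rw [if_neg h4] at h
          simp at h
      · by_cases h4 : q ∈ P2
        · rw [if_pos h4, mem_singleton] at h
          rw [h]
          exact ⟨by omega, hq.prime.squarefree, Or.inr ⟨h4, rfl⟩⟩
        · rw [if_neg h4] at h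
          simp at h
  unfold rhoF nn
  rw [e]
  by_cases h1 : q ∈ P1 <;> by_cases h2 : q ∈ P2 <;> simp [h1, h2]

theorem nn_le (P1 P2 : Finset ℕ) (q : ℕ) : nn P1 P2 q ≤ 2 := by
  unfold nn
  split_ifs <;> omega

theorem one_le_nn {P1 P2 : Finset ℕ} {q : ℕ} (h : q ∈ P1 ∪ P2) : 1 ≤ nn P1 P2 q := by
  unfold nn
  rw [mem_union] at h
  split_ifs <;> first | omega | tauto

/-- The count in a progression. -/
theorem count_FF {P1 P2 : Finset ℕ} (hP : ∀ q ∈ P1 ∪ P2, q.Prime) (M a Y d : ℕ) (hM : 0 < M)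
    (hd : 0 < d) (hc : Nat.Coprime M d) :
    |((((Icc 1 Y).filter (fun x => x ≡ a [MOD M])).filter
        (fun x => d ∣ FF P1 P2 x)).card : ℝ) -
      nuG (fun n => (FF P1 P2 n : ℤ)) d * ((Y : ℝ) / M)| ≤
      rhoF (fun n => (FF P1 P2 n : ℤ)) d := by
  classical
  set R := (range d).filter (fun n => (d : ℤ) ∣ (FF P1 P2 n : ℤ)) with hR
  have hmaps : ∀ x ∈ ((Icc 1 Y).filter (fun x => x ≡ a [MOD M])).filter
        (fun x => d ∣ FF P1 P2 x), x % d ∈ R := by
    intro x hx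
    rw [mem_filter] at hx
    rw [hR, mem_filter, mem_range]
    refine ⟨Nat.mod_lt _ hd, ?_⟩
    have h1 : (d : ℤ) ∣ (FF P1 P2 x : ℤ) := Int.natCast_dvd_natCast.2 hx.2
    exact (cong_FF hP d _ _ (Nat.mod_modEq x d)).2 h1
  rw [card_eq_sum_card_fiberwise hmaps]
  have hfib : ∀ r ∈ R, (((((Icc 1 Y).filter (fun x => x ≡ a [MOD M])).filter
        (fun x => d ∣ FF P1 P2 x)).filter (fun x => x % d = r)).card : ℝ) =
      (((Icc 1 Y).filter (fun x => x ≡ a [MOD M] ∧ x ≡ r [MOD d])).card : ℝ) := by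
    intro r hr
    rw [hR, mem_filter, mem_range] at hr
    congr 2
    ext x
    simp only [mem_filter]
    constructor
    · rintro ⟨⟨⟨h1, h2⟩, _⟩, h4⟩
      refine ⟨h1, h2, ?_⟩
      change x % d = r % d
      rw [h4, Nat.mod_eq_of_lt hr.1]
    · rintro ⟨h1, h2, h3⟩
      refine ⟨⟨⟨h1, h2⟩, ?_⟩, ?_⟩
      · have h4 : (d : ℤ) ∣ (FF P1 P2 x : ℤ) := (cong_FF hP d _ _ h3).2 hr.2
        exact Int.natCast_dvd_natCast.1 h4
      · have h4 : x % d = r % d := h3
        rw [h4, Nat.mod_eq_of_lt hr.1]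
  push_cast
  rw [sum_congr rfl hfib]
  have hone : ∀ r ∈ R, |(((Icc 1 Y).filter (fun x => x ≡ a [MOD M] ∧ x ≡ r [MOD d])).card : ℝ) -
      (Y : ℝ) / ((M : ℝ) * d)| ≤ 1 := by
    intro r _
    obtain ⟨v, hv1, hv2⟩ := Nat.chineseRemainder hc a r
    have e : (Icc 1 Y).filter (fun x => x ≡ a [MOD M] ∧ x ≡ r [MOD d]) =
        (Icc 1 Y).filter (fun x => x ≡ v [MOD (M * d)]) := by
      ext x
      rw [mem_filter, mem_filter, ← Nat.modEq_and_modEq_iff_modEq_mul hc]
      refine and_congr_right fun _ => and_congr ?_ ?_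
      · exact ⟨fun h => h.trans hv1.symm, fun h => h.trans hv1⟩
      · exact ⟨fun h => h.trans hv2.symm, fun h => h.trans hv2⟩
    have h := ADS.EV23m.count_class (M * d) v Y (Nat.mul_pos hM hd)
    rw [e]
    push_cast at h
    exact h
  have hcard : (rhoF (fun n => (FF P1 P2 n : ℤ)) d : ℝ) = ∑ _r ∈ R, (1 : ℝ) := by
    rw [sum_const, nsmul_eq_mul, mul_one]
    rfl
  have hmain : nuG (fun n => (FF P1 P2 n : ℤ)) d * ((Y : ℝ) / M) =
      ∑ _r ∈ R, (Y : ℝ) / ((M : ℝ) * d) := by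
    rw [nuG_apply, hcard, sum_const, sum_const, nsmul_eq_mul, nsmul_eq_mul, mul_one]
    have h1 : (M : ℝ) ≠ 0 := by positivity
    have h2 : (d : ℝ) ≠ 0 := by positivity
    field_simp
  rw [hmain, ← sum_sub_distrib]
  refine (abs_sum_le_sum_abs _ _).trans ?_
  rw [hcard]
  exact sum_le_sum hone

/-- The sieve. -/
noncomputable def sv2 (M a Y : ℕ) (P1 P2 : Finset ℕ) (hP : ∀ q ∈ P1 ∪ P2, q.Prime ∧ q ≠ 2) :
    BoundingSieve where
  support := ((Icc 1 Y).filter (fun x => x ≡ a [MOD M])).image (FF P1 P2)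
  prodPrimes := ∏ p ∈ P1 ∪ P2, p
  prodPrimes_squarefree := ADS.EV23m.sqf_prod _ (fun q hq => (hP q hq).1)
  weights := fun v =>
    ((((Icc 1 Y).filter (fun x => x ≡ a [MOD M])).filter (fun x => FF P1 P2 x = v)).card : ℝ)
  weights_nonneg := fun _ => Nat.cast_nonneg _
  totalMass := (Y : ℝ) / M
  nu := nuG (fun n => (FF P1 P2 n : ℤ))
  nu_mult := nuG_mult (cong_FF (fun q hq => (hP q hq).1))
  nu_pos_of_prime := by
    intro p hp hpd
    have hm := ADS.EV23m.dvd_prod _ (fun q hq => (hP q hq).1) hp hpd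
    rw [nuG_apply, rho_prime (fun q hq => (hP q hq).1) hp]
    have h1 : 0 < nn P1 P2 p := one_le_nn hm
    have h2 := hp.pos
    positivity
  nu_lt_one_of_prime := by
    intro p hp hpd
    have hm := ADS.EV23m.dvd_prod _ (fun q hq => (hP q hq).1) hp hpd
    rw [nuG_apply, rho_prime (fun q hq => (hP q hq).1) hp, div_lt_one (by exact_mod_cast hp.pos)]
    have h1 := nn_le P1 P2 p
    have h2 := hp.two_le
    have h3 := (hP p hm).2
    exact_mod_cast (show nn P1 P2 p < p by omega)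

theorem fiber_sum (T : Finset ℕ) (F : ℕ → ℕ) (q : ℕ → Prop) [DecidablePred q] :
    ∑ v ∈ T.image F, (if q v then ((T.filter (fun n => F n = v)).card : ℝ) else 0) =
      ((T.filter (fun n => q (F n))).card : ℝ) := by
  classical
  have e : ((T.filter (fun n => q (F n))).card : ℝ) =
      ∑ n ∈ T, if q (F n) then (1 : ℝ) else 0 := by
    rw [← Finset.sum_filter]
    simp
  rw [e]
  have hmaps : ∀ n ∈ T, F n ∈ T.image F := fun n hn => mem_image_of_mem _ hn
  rw [← Finset.sum_fiberwise_of_maps_to hmaps]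
  apply Finset.sum_congr rfl
  intro v _
  have e2 : ∀ n ∈ T.filter (fun n => F n = v),
      (if q (F n) then (1 : ℝ) else 0) = if q v then 1 else 0 := by
    intro n hn
    rw [(mem_filter.1 hn).2]
  rw [Finset.sum_congr rfl e2, Finset.sum_const, nsmul_eq_mul]
  split_ifs <;> simp

open Classical in
/-- the indicator of the integers with all prime factors in `P` -/
noncomputable def uu (P : Finset ℕ) : ArithmeticFunction ℝ :=
  ⟨fun n => if n ≠ 0 ∧ ∀ p : ℕ, p.Prime → p ∣ n → p ∈ P then 1 else 0, by simp⟩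

open Classical in
theorem uu_apply (P : Finset ℕ) (n : ℕ) :
    uu P n = if n ≠ 0 ∧ ∀ p : ℕ, p.Prime → p ∣ n → p ∈ P then 1 else 0 := rfl

theorem uu_nonneg (P : Finset ℕ) (n : ℕ) : 0 ≤ uu P n := by
  classical
  rw [uu_apply]; split_ifs <;> norm_num

theorem uu_mult (P : Finset ℕ) : (uu P).IsMultiplicative := by
  classical
  constructor
  · rw [uu_apply, if_pos]
    refine ⟨one_ne_zero, fun p hp h => ?_⟩
    exact absurd (Nat.dvd_one.1 h) hp.one_lt.ne'
  · intro m n _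
    rw [uu_apply, uu_apply, uu_apply]
    by_cases h1 : m = 0
    · simp [h1]
    by_cases h2 : n = 0
    · simp [h2]
    by_cases h3 : ∀ p : ℕ, p.Prime → p ∣ m → p ∈ P
    · by_cases h4 : ∀ p : ℕ, p.Prime → p ∣ n → p ∈ P
      · have h5 : m * n ≠ 0 ∧ ∀ p : ℕ, p.Prime → p ∣ m * n → p ∈ P := by
          refine ⟨Nat.mul_ne_zero h1 h2, fun p hp hpd => ?_⟩
          rcases (hp.dvd_mul).1 hpd with h | h
          · exact h3 p hp h
          · exact h4 p hp h
        rw [if_pos h5, if_pos ⟨h1, h3⟩, if_pos ⟨h2, h4⟩, mul_one]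
      · rw [if_neg (fun hx => h4 hx.2 : ¬ (n ≠ 0 ∧ ∀ p : ℕ, p.Prime → p ∣ n → p ∈ P)), mul_zero,
          if_neg]
        intro hx
        exact h4 fun p hp hpn => hx.2 p hp (hpn.mul_left m)
    · rw [if_neg (fun hx => h3 hx.2 : ¬ (m ≠ 0 ∧ ∀ p : ℕ, p.Prime → p ∣ m → p ∈ P)), zero_mul,
        if_neg]
      intro hx
      exact h3 fun p hp hpm => hx.2 p hp (hpm.mul_right n)

theorem uu_pow (P : Finset ℕ) {p : ℕ} (hp : p.Prime) (b : ℕ) :
    uu P (p ^ b) = if b = 0 ∨ p ∈ P then 1 else 0 := by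
  classical
  rw [uu_apply]
  congr 1
  apply propext
  constructor
  · rintro ⟨_, h⟩
    by_cases hb : b = 0
    · exact Or.inl hb
    · exact Or.inr (h p hp (dvd_pow_self p hb))
  · rintro (h | h)
    · rw [h, pow_zero]
      exact ⟨one_ne_zero, fun q hq hq1 => absurd (Nat.dvd_one.1 hq1) hq.one_lt.ne'⟩
    · refine ⟨pow_ne_zero _ hp.ne_zero, fun q hq hqd => ?_⟩
      rw [(Nat.prime_dvd_prime_iff_eq hq hp).1 (hq.dvd_of_dvd_pow hqd)]
      exact h

/-- the convolution -/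
noncomputable def gg (P1 P2 : Finset ℕ) : ArithmeticFunction ℝ := uu P1 * uu P2

theorem gg_mult (P1 P2 : Finset ℕ) : (gg P1 P2).IsMultiplicative := (uu_mult P1).mul (uu_mult P2)

theorem gg_apply (P1 P2 : Finset ℕ) (n : ℕ) :
    gg P1 P2 n = ∑ x ∈ n.divisorsAntidiagonal, uu P1 x.1 * uu P2 x.2 := by
  rw [gg, ArithmeticFunction.mul_apply]

theorem gg_nonneg (P1 P2 : Finset ℕ) (n : ℕ) : 0 ≤ gg P1 P2 n := by
  rw [gg_apply]
  exact sum_nonneg fun x _ => mul_nonneg (uu_nonneg _ _) (uu_nonneg _ _)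

theorem gg_pow (P1 P2 : Finset ℕ) {p : ℕ} (hp : p.Prime) (a : ℕ) :
    gg P1 P2 (p ^ a) = ∑ b ∈ range (a + 1),
      (if b = 0 ∨ p ∈ P1 then (1 : ℝ) else 0) * (if a - b = 0 ∨ p ∈ P2 then 1 else 0) := by
  rw [gg_apply, Nat.sum_divisorsAntidiagonal (fun i j => uu P1 i * uu P2 j),
    Nat.divisors_prime_pow hp, Finset.sum_map]
  refine sum_congr rfl fun b hb => ?_
  rw [mem_range] at hb
  simp only [Function.Embedding.coeFn_mk]
  rw [Nat.pow_div (by omega) hp.pos, uu_pow P1 hp, uu_pow P2 hp]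

theorem gg_pow_le (P1 P2 : Finset ℕ) {p : ℕ} (hp : p.Prime) {a : ℕ} (ha : 1 ≤ a) :
    gg P1 P2 (p ^ a) ≤ (nn P1 P2 p : ℝ) ^ a := by
  rw [gg_pow P1 P2 hp]
  unfold nn
  by_cases h1 : p ∈ P1 <;> by_cases h2 : p ∈ P2
  · have e : ∀ b ∈ range (a + 1), (if b = 0 ∨ p ∈ P1 then (1 : ℝ) else 0) *
        (if a - b = 0 ∨ p ∈ P2 then 1 else 0) = 1 := by
      intro b _
      rw [if_pos (Or.inr h1), if_pos (Or.inr h2), mul_one]
    rw [sum_congr rfl e]
    simp only [sum_const, card_range, nsmul_eq_mul, mul_one, h1, h2, if_true]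
    have : a + 1 ≤ 2 ^ a := Nat.lt_two_pow_self
    exact_mod_cast this
  · have e : ∑ b ∈ range (a + 1), (if b = 0 ∨ p ∈ P1 then (1 : ℝ) else 0) *
        (if a - b = 0 ∨ p ∈ P2 then 1 else 0) = 1 := by
      rw [sum_eq_single a]
      · rw [if_pos (Or.inr h1), if_pos (Or.inl (Nat.sub_self a)), mul_one]
      · intro b hb hba
        rw [mem_range] at hb
        rw [if_neg (c := a - b = 0 ∨ p ∈ P2), mul_zero]
        rintro (h | h)
        · omega
        · exact h2 h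
      · intro h
        exact absurd (mem_range.2 (Nat.lt_succ_self a)) h
    rw [e]
    simp [h1, h2]
  · have e : ∑ b ∈ range (a + 1), (if b = 0 ∨ p ∈ P1 then (1 : ℝ) else 0) *
        (if a - b = 0 ∨ p ∈ P2 then 1 else 0) = 1 := by
      rw [sum_eq_single 0]
      · rw [if_pos (Or.inl rfl), if_pos (Or.inr h2), mul_one]
      · intro b hb hb0
        rw [if_neg (c := b = 0 ∨ p ∈ P1), zero_mul]
        rintro (h | h)
        · exact hb0 h
        · exact h1 h
      · intro h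
        exact absurd (mem_range.2 (Nat.succ_pos a)) h
    rw [e]
    simp [h1, h2]
  · have e : ∑ b ∈ range (a + 1), (if b = 0 ∨ p ∈ P1 then (1 : ℝ) else 0) *
        (if a - b = 0 ∨ p ∈ P2 then 1 else 0) = 0 := by
      apply sum_eq_zero
      intro b hb
      rw [mem_range] at hb
      by_cases hb0 : b = 0
      · rw [if_neg (c := a - b = 0 ∨ p ∈ P2), mul_zero]
        rintro (h | h)
        · omega
        · exact h2 h
      · rw [if_neg (c := b = 0 ∨ p ∈ P1), zero_mul]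
        rintro (h | h)
        · exact hb0 h
        · exact h1 h
    rw [e]
    simp [h1, h2, show a ≠ 0 by omega]

theorem gg_div_eq_prod (P1 P2 : Finset ℕ) {m : ℕ} (hm : m ≠ 0) :
    gg P1 P2 m / m = ∏ p ∈ m.primeFactors,
      (gg P1 P2 (p ^ m.factorization p) / (p : ℝ) ^ m.factorization p) := by
  rw [Finset.prod_div_distrib]
  congr 1
  · rw [(gg_mult P1 P2).multiplicative_factorization _ hm, Finsupp.prod, Nat.support_factorization]
  · conv_lhs => rw [← Nat.prod_factorization_pow_eq_self hm]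
    rw [Finsupp.prod, Nat.support_factorization]
    push_cast
    rfl

theorem RSm_eq (P : Finset ℕ) (z : ℕ) : RSm P z = ∑ m ∈ Icc 1 z, uu P m / m := by
  classical
  rw [RSm, sum_filter]
  refine sum_congr rfl fun m hm => ?_
  rw [mem_Icc] at hm
  rw [uu_apply]
  by_cases h : ∀ p : ℕ, p.Prime → p ∣ m → p ∈ P
  · rw [if_pos h, if_pos ⟨by omega, h⟩]
  · rw [if_neg h, if_neg (fun hx => h hx.2), zero_div]

theorem one_le_RSm (P : Finset ℕ) {z : ℕ} (hz : 1 ≤ z) : 1 ≤ RSm P z := by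
  classical
  have h1 : (1 : ℕ) ∈ (Icc 1 z).filter (fun m => ∀ p : ℕ, p.Prime → p ∣ m → p ∈ P) := by
    rw [mem_filter, mem_Icc]
    refine ⟨⟨le_rfl, hz⟩, fun p hp h => ?_⟩
    exact absurd (Nat.dvd_one.1 h) hp.one_lt.ne'
  have h2 := Finset.single_le_sum (f := fun m : ℕ => (1 : ℝ) / m) (fun i _ => by positivity) h1
  simpa [RSm] using h2

theorem prod_le (P1 P2 : Finset ℕ) (z : ℕ) :
    RSm P1 z * RSm P2 z ≤ ∑ m ∈ Icc 1 (z * z), gg P1 P2 m / m := by
  classical
  rw [RSm_eq, RSm_eq, Finset.sum_mul_sum, ← Finset.sum_product']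
  have hmaps : ∀ x ∈ Icc 1 z ×ˢ Icc 1 z, x.1 * x.2 ∈ Icc 1 (z * z) := by
    intro x hx
    rw [mem_product, mem_Icc, mem_Icc] at hx
    rw [mem_Icc]
    exact ⟨Nat.mul_pos hx.1.1 hx.2.1, Nat.mul_le_mul hx.1.2 hx.2.2⟩
  rw [← Finset.sum_fiberwise_of_maps_to hmaps]
  apply Finset.sum_le_sum
  intro m hm
  rw [mem_Icc] at hm
  have hm0 : m ≠ 0 := by omega
  rw [gg_apply, Finset.sum_div]
  calc ∑ x ∈ (Icc 1 z ×ˢ Icc 1 z).filter (fun x => x.1 * x.2 = m),
        uu P1 x.1 / x.1 * (uu P2 x.2 / x.2)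
      = ∑ x ∈ (Icc 1 z ×ˢ Icc 1 z).filter (fun x => x.1 * x.2 = m),
          uu P1 x.1 * uu P2 x.2 / m := by
        apply Finset.sum_congr rfl
        intro x hx
        rw [mem_filter, mem_product, mem_Icc, mem_Icc] at hx
        have e : (m : ℝ) = x.1 * x.2 := by rw [← hx.2]; push_cast; rfl
        rw [e]
        have h1 : (x.1 : ℝ) ≠ 0 := by
          have := hx.1.1.1
          positivity
        have h2 : (x.2 : ℝ) ≠ 0 := by
          have := hx.1.2.1
          positivity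
        field_simp
    _ ≤ ∑ x ∈ m.divisorsAntidiagonal, uu P1 x.1 * uu P2 x.2 / m := by
        apply Finset.sum_le_sum_of_subset_of_nonneg
        · intro x hx
          rw [mem_filter] at hx
          rw [Nat.mem_divisorsAntidiagonal]
          exact ⟨hx.2, hm0⟩
        · intro x _ _
          exact div_nonneg (mul_nonneg (uu_nonneg _ _) (uu_nonneg _ _)) (Nat.cast_nonneg _)

/-- the local factor -/
noncomputable def lf (P1 P2 : Finset ℕ) (p : ℕ) : ℝ :=
  if p ∈ P1 ∪ P2 then (nn P1 P2 p : ℝ) / p * (1 - (nn P1 P2 p : ℝ) / p)⁻¹ else 0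

theorem local_le {P1 P2 : Finset ℕ} (hP : ∀ q ∈ P1 ∪ P2, q.Prime ∧ q ≠ 2) {p : ℕ} (hp : p.Prime)
    (z : ℕ) : ∑ a ∈ Icc 1 z, gg P1 P2 (p ^ a) / (p : ℝ) ^ a ≤ lf P1 P2 p := by
  have h1 : ∀ a ∈ Icc 1 z, gg P1 P2 (p ^ a) / (p : ℝ) ^ a ≤ ((nn P1 P2 p : ℝ) / p) ^ a := by
    intro a ha
    rw [mem_Icc] at ha
    rw [div_pow]
    exact div_le_div_of_nonneg_right (gg_pow_le P1 P2 hp ha.1) (by positivity)
  refine (sum_le_sum h1).trans ?_
  unfold lf
  by_cases hm : p ∈ P1 ∪ P2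
  · rw [if_pos hm, ← div_eq_mul_inv]
    have h2 := nn_le P1 P2 p
    have h3 := hp.two_le
    have h4 := (hP p hm).2
    apply Lib_helper72.AP.sum_geom_le (by positivity)
    rw [div_lt_one (by exact_mod_cast hp.pos)]
    exact_mod_cast (show nn P1 P2 p < p by omega)
  · rw [if_neg hm]
    have h0 : nn P1 P2 p = 0 := by
      rw [mem_union] at hm
      push Not at hm
      unfold nn
      rw [if_neg hm.1, if_neg hm.2]
    apply le_of_eq
    apply sum_eq_zero
    intro a ha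
    rw [mem_Icc] at ha
    rw [h0, Nat.cast_zero, zero_div, zero_pow (by omega)]

theorem lower (M a Y : ℕ) (P1 P2 : Finset ℕ) (hP : ∀ q ∈ P1 ∪ P2, q.Prime ∧ q ≠ 2) (z : ℕ) :
    RSm P1 z * RSm P2 z ≤ Lib_helper72.AP.selS (sv2 M a Y P1 P2 hP) (z * z) := by
  classical
  have hP' : ∀ q ∈ P1 ∪ P2, q.Prime := fun q hq => (hP q hq).1
  refine (prod_le P1 P2 z).trans ?_
  have hset : Lib_helper72.AP.selD (sv2 M a Y P1 P2 hP) (z * z) =
      ((Icc 1 (z * z)).filter Squarefree).filter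
        (fun m => ∀ p : ℕ, p.Prime → p ∣ m → p ∈ P1 ∪ P2) := by
    ext l
    rw [Lib_helper72.AP.mem_selD, mem_filter, mem_filter, mem_Icc]
    change l ∣ ∏ p ∈ P1 ∪ P2, p ∧ l ≤ z * z ↔ _
    constructor
    · rintro ⟨h1, h2⟩
      have h3 := (ADS.EV23m.sqf_prod _ hP').ne_zero
      exact ⟨⟨⟨Nat.pos_of_ne_zero (ne_zero_of_dvd_ne_zero h3 h1), h2⟩,
        Squarefree.squarefree_of_dvd h1 (ADS.EV23m.sqf_prod _ hP')⟩,
        fun p hp hpl => ADS.EV23m.dvd_prod _ hP' hp (hpl.trans h1)⟩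
    · rintro ⟨⟨⟨_, h2⟩, h3⟩, h4⟩
      refine ⟨?_, h2⟩
      rw [← Nat.prod_primeFactors_of_squarefree h3]
      apply Finset.prod_dvd_prod_of_subset
      intro p hp
      exact h4 p (Nat.prime_of_mem_primeFactors hp) (Nat.dvd_of_mem_primeFactors hp)
  have hg : ∀ l ∈ Lib_helper72.AP.selD (sv2 M a Y P1 P2 hP) (z * z),
      (sv2 M a Y P1 P2 hP).selbergTerms l = ∏ p ∈ l.primeFactors, lf P1 P2 p := by
    intro l hl
    have hl1 := (Lib_helper72.AP.mem_selD.1 hl).1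
    rw [selbergTerms_apply, ← prod_primeFactors_nu hl1, ← Finset.prod_mul_distrib]
    refine prod_congr rfl fun p hp => ?_
    have hp1 := Nat.prime_of_mem_primeFactors hp
    have hm : p ∈ P1 ∪ P2 := ADS.EV23m.dvd_prod _ hP' hp1 ((Nat.dvd_of_mem_primeFactors hp).trans hl1)
    change nuG (fun n => (FF P1 P2 n : ℤ)) p * (1 - nuG (fun n => (FF P1 P2 n : ℤ)) p)⁻¹ = _
    rw [nuG_apply, rho_prime hP' hp1]
    unfold lf
    rw [if_pos hm]
  have key := Lib_helper72.AP.sum_fiber_radical (z * z)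
    (fun p k => gg P1 P2 (p ^ k) / (p : ℝ) ^ k) (lf P1 P2)
    (fun p k => div_nonneg (gg_nonneg _ _ _) (by positivity))
    (fun p hp _ => local_le hP hp (z * z))
  refine le_trans (le_of_eq ?_) (key.trans (le_of_eq ?_))
  · refine sum_congr rfl fun m hm => ?_
    rw [mem_Icc] at hm
    exact gg_div_eq_prod P1 P2 (by omega)
  · rw [Lib_helper72.AP.selS, sum_congr rfl hg, hset,
      sum_filter (s := (Icc 1 (z * z)).filter Squarefree)]
    refine sum_congr rfl fun m hm => ?_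
    rw [mem_filter, mem_Icc] at hm
    by_cases h : ∀ p : ℕ, p.Prime → p ∣ m → p ∈ P1 ∪ P2
    · rw [if_pos h]
    · rw [if_neg h]
      push Not at h
      obtain ⟨p, hp, hpm, hpP⟩ := h
      apply prod_eq_zero (i := p)
      · rw [Nat.mem_primeFactors]
        exact ⟨hp, hpm, by omega⟩
      · unfold lf
        rw [if_neg hpP]

end S2Vm

open Finset S2Vm BoundingSieve in
theorem S2V_thm : Stmt_S2V := by
  classical
  intro Y z M a P1 P2 hz hM hP0 S hS
  have hP : ∀ q ∈ P1 ∪ P2, q.Prime ∧ q ≠ 2 := fun q hq => ⟨(hP0 q hq).1, (hP0 q hq).2.1⟩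
  have hP' : ∀ q ∈ P1 ∪ P2, q.Prime := fun q hq => (hP q hq).1
  have hcop : ∀ d, d ∣ (sv2 M a Y P1 P2 hP).prodPrimes → Nat.Coprime M d := by
    intro d hd
    rw [Nat.coprime_comm]
    refine Nat.Coprime.coprime_dvd_left hd ?_
    change Nat.Coprime (∏ p ∈ P1 ∪ P2, p) M
    exact Nat.Coprime.prod_left fun p hp => ((hP' p hp).coprime_iff_not_dvd).2 (hP0 p hp).2.2
  have hpos : ∀ d, d ∣ (sv2 M a Y P1 P2 hP).prodPrimes → 0 < d := fun d hd =>
    Nat.pos_of_ne_zero (ne_zero_of_dvd_ne_zero prodPrimes_ne_zero hd)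
  have hzz : 1 ≤ z * z := Nat.mul_pos hz hz
  have h := Lib_helper72.AP.siftedSum_le_selberg (s := sv2 M a Y P1 P2 hP) (z := z * z) hzz
    (by
      intro d hd
      have hd0 := hpos d hd
      have hsq : Squarefree d := squarefree_of_dvd_prodPrimes hd
      have e1 : ((d : ℕ) : ℝ)⁻¹ ≤ (sv2 M a Y P1 P2 hP).nu d := by
        rw [← prod_primeFactors_nu hd]
        have e2 : ((d : ℕ) : ℝ)⁻¹ = ∏ p ∈ d.primeFactors, ((p : ℕ) : ℝ)⁻¹ := by
          rw [prod_inv_distrib]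
          congr 1
          conv_lhs => rw [← Nat.prod_primeFactors_of_squarefree hsq]
          push_cast
          rfl
        rw [e2]
        apply prod_le_prod
        · intro p _
          positivity
        · intro p hp
          have hp1 := Nat.prime_of_mem_primeFactors hp
          have hm : p ∈ P1 ∪ P2 :=
            ADS.EV23m.dvd_prod _ hP' hp1 ((Nat.dvd_of_mem_primeFactors hp).trans hd)
          change _ ≤ Lib_helper72.AP.nuG (fun n => (FF P1 P2 n : ℤ)) p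
          rw [Lib_helper72.AP.nuG_apply, rho_prime hP' hp1, inv_eq_one_div]
          apply div_le_div_of_nonneg_right _ (Nat.cast_nonneg _)
          exact_mod_cast one_le_nn hm
      have hdr : (0 : ℝ) < d := by exact_mod_cast hd0
      rw [inv_le_comm₀ (lt_of_lt_of_le (by positivity) e1) hdr]
      exact e1)
    (by
      intro d hd
      have e1 : (sv2 M a Y P1 P2 hP).rem d =
          ((((Icc 1 Y).filter (fun x => x ≡ a [MOD M])).filter
            (fun x => d ∣ FF P1 P2 x)).card : ℝ) -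
            Lib_helper72.AP.nuG (fun n => (FF P1 P2 n : ℤ)) d * ((Y : ℝ) / M) := by
        rw [BoundingSieve.rem, BoundingSieve.multSum]
        have e2 := fiber_sum ((Icc 1 Y).filter (fun x => x ≡ a [MOD M])) (FF P1 P2)
          (fun v => d ∣ v)
        rw [← e2]
        rfl
      rw [e1]
      refine (count_FF hP' M a Y d hM (hpos d hd) (hcop d hd)).trans ?_
      exact_mod_cast Lib_helper72.AP.rhoF_le _ d)
  have hlow := lower M a Y P1 P2 hP z
  have h1 := one_le_RSm P1 hz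
  have h2 := one_le_RSm P2 hz
  have htm : (sv2 M a Y P1 P2 hP).totalMass = (Y : ℝ) / M := rfl
  rw [htm] at h
  have hRR : 0 < RSm P1 z * RSm P2 z := by positivity
  have hmain : (Y : ℝ) / M / Lib_helper72.AP.selS (sv2 M a Y P1 P2 hP) (z * z) ≤
      (Y : ℝ) / M / (RSm P1 z * RSm P2 z) :=
    div_le_div_of_nonneg_left (by positivity) hRR hlow
  have hs : (sv2 M a Y P1 P2 hP).siftedSum =
      ((((Icc 1 Y).filter (fun x => x ≡ a [MOD M])).filter
        (fun x => Nat.Coprime (∏ p ∈ P1 ∪ P2, p) (FF P1 P2 x))).card : ℝ) :=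
    fiber_sum ((Icc 1 Y).filter (fun x => x ≡ a [MOD M])) (FF P1 P2)
      (fun v => Nat.Coprime (∏ p ∈ P1 ∪ P2, p) v)
  have hsub : S ⊆ ((Icc 1 Y).filter (fun x => x ≡ a [MOD M])).filter
        (fun x => Nat.Coprime (∏ p ∈ P1 ∪ P2, p) (FF P1 P2 x)) := by
    intro x hx
    obtain ⟨hx1, hx2, hx3, hx4, hx5⟩ := hS x hx
    rw [mem_filter, mem_filter, mem_Icc]
    refine ⟨⟨⟨hx1, hx2⟩, hx3⟩, ?_⟩
    apply Nat.Coprime.prod_left
    intro q hq
    rw [(hP' q hq).coprime_iff_not_dvd]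
    intro hqd
    have hb := ((dvd_FF hP' q x).1 hqd).2 q (hP' q hq) dvd_rfl
    rcases hb with ⟨h3, h4⟩ | ⟨h3, h4⟩
    · exact hx4 q h3 ((Nat.modEq_zero_iff_dvd).1 h4)
    · exact hx5 q h3 ((Nat.modEq_iff_dvd' hx1).1 h4.symm)
  have hcard : (S.card : ℝ) ≤ (sv2 M a Y P1 P2 hP).siftedSum := by
    rw [hs]
    exact_mod_cast card_le_card hsub
  have hz12 : (((z * z : ℕ) : ℝ)) ^ 6 = (z : ℝ) ^ 12 := by
    push_cast
    ring
  rw [hz12] at h
  linarith

end Pool.Agent.ADG
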