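import Pool.Agent.ADG.St4
import Pool.Agent.ADG.PFX

/-!
# ADG: the orbits in Fix(P) (helper65)
-/

set_option autoImplicit false

namespace Pool.Agent.ADG

open Finset Pool.Agent.ADS

namespace TCTa

variable {G : Type} [Group G]

lemma card_rel [Finite G] (A K : Subgroup G) :
    Nat.card K = A.relIndex K * Nat.card (A ⊓ K : Subgroup G) := by
  have h1 := (A.subgroupOf K).card_mul_index
  have h2 : Nat.card (A.subgroupOf K) = Nat.card (A ⊓ K : Subgroup G) := by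
    rw [← Subgroup.inf_subgroupOf_right]
    exact Nat.card_congr (Subgroup.subgroupOfEquivOfLe inf_le_right).toEquiv
  rw [h2] at h1
  rw [← h1, Subgroup.relIndex, mul_comm]

lemma rel_dvd (A K M : Subgroup G) (hKM : K ≤ M)
    (hn : ∀ m ∈ M, ∀ k ∈ A, m * k * m⁻¹ ∈ A) : A.relIndex K ∣ A.relIndex M := by
  have : (A.subgroupOf M).Normal := ⟨fun k hk m => by
    rw [Subgroup.mem_subgroupOf] at hk ⊢
    exact hn m m.2 k hk⟩
  have h := Subgroup.relIndex_dvd_index_of_normal (A.subgroupOf M) (K.subgroupOf M)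
  rwa [Subgroup.relIndex_subgroupOf hKM] at h

/-- the stabilizers of the points of `T` -/
lemma sta_T [Finite G] {N M B : Subgroup G} (hn : ∀ m ∈ M, ∀ k ∈ B, m * k * m⁻¹ ∈ B)
    {x : G} (hx : ∃ a ∈ N, ∃ m ∈ M, x = a * 1 * m) :
    sta N B x = Nat.card (N ⊓ B : Subgroup G) := by
  obtain ⟨a, ha, m, hm, rfl⟩ := hx
  unfold sta
  have e1 : ∀ k : G, a * 1 * m * k * (a * 1 * m)⁻¹ ∈ N ↔ m * k * m⁻¹ ∈ N := by
    intro k
    have : a * 1 * m * k * (a * 1 * m)⁻¹ = a * (m * k * m⁻¹) * a⁻¹ := by group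
    rw [this]
    constructor
    · intro h
      have h2 := mul_mem (mul_mem (inv_mem ha) h) ha
      have : a⁻¹ * (a * (m * k * m⁻¹) * a⁻¹) * a = m * k * m⁻¹ := by group
      rwa [this] at h2
    · intro h
      exact mul_mem (mul_mem ha h) (inv_mem ha)
  refine Nat.card_congr ⟨fun k => ⟨m * k.1 * m⁻¹, Subgroup.mem_inf.2
    ⟨(e1 _).1 k.2.2, hn m hm _ k.2.1⟩⟩, fun k => ⟨m⁻¹ * k.1 * m, ?_, ?_⟩, ?_, ?_⟩
  · have := hn m⁻¹ (inv_mem hm) _ (Subgroup.mem_inf.1 k.2).2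
    rwa [inv_inv] at this
  · rw [e1]
    have : m * (m⁻¹ * (k : G) * m) * m⁻¹ = k := by group
    rw [this]
    exact (Subgroup.mem_inf.1 k.2).1
  · rintro ⟨k, hk⟩
    apply Subtype.ext
    show m⁻¹ * (m * k * m⁻¹) * m = k
    group
  · rintro ⟨k, hk⟩
    apply Subtype.ext
    show m * (m⁻¹ * k * m) * m⁻¹ = k
    group

open Classical in
/-- the number of the orbits in `T` -/
lemma dc_T [Fintype G] {N P M B : Subgroup G} {p : ℕ} (hp : p.Prime) (hP : Nat.card P = p)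
    (hPN : P ≤ N) (hfac : (Nat.card N).factorization p = 1)
    (hM : M = Subgroup.normalizer (P : Set G))
    (hn : ∀ m ∈ M, ∀ k ∈ B, m * k * m⁻¹ ∈ B) :
    dc N B (fun x => if ∀ u ∈ P, x * u * x⁻¹ ∈ N then 1 else 0) *
      (Nat.card B * Nat.card (N ⊓ M : Subgroup G)) =
      Nat.card M * Nat.card (N ⊓ B : Subgroup G) := by
  set T : Set G := {g | ∀ k ∈ P, g * k * g⁻¹ ∈ N} with hT
  have hTM : ∀ g, g ∈ T ↔ ∃ a ∈ N, ∃ m ∈ M, g = a * 1 * m := by
    intro g
    rw [hT, Set.mem_ofPred_eq, PFXa.mem_NM hp hP hPN hfac g, hM]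
  have h2 := PFXa.cnt N M (fun _ : Fin 1 => (1 : G)) (fun _ => True)
    (Nat.card (N ⊓ M : Subgroup G)) T (by
      intro g
      rw [hTM]
      constructor
      · rintro ⟨a, ha, m, hm, h⟩
        exact ⟨0, trivial, a, ha, m, hm, h⟩
      · rintro ⟨_, _, a, ha, m, hm, h⟩
        exact ⟨a, ha, m, hm, h⟩)
    (fun _ i j _ _ => Subsingleton.elim i j) (fun i _ => PFXa.sta_one N M)
  have h3 : Nat.card {i : Fin 1 // True} = 1 := by simp
  rw [h3, one_mul] at h2
  have h4 : ∑ x : G, (if ∀ u ∈ P, x * u * x⁻¹ ∈ N then (1 : ℚ) else 0) * sta N B x =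
      Nat.card T * Nat.card (N ⊓ B : Subgroup G) := by
    have h5 : ∀ x : G, (if ∀ u ∈ P, x * u * x⁻¹ ∈ N then (1 : ℚ) else 0) * sta N B x =
        if x ∈ T then (Nat.card (N ⊓ B : Subgroup G) : ℚ) else 0 := by
      intro x
      by_cases hx : ∀ u ∈ P, x * u * x⁻¹ ∈ N
      · rw [if_pos hx, if_pos (show x ∈ T from hx), one_mul, sta_T hn ((hTM x).1 hx)]
      · rw [if_neg hx, if_neg (show x ∉ T from hx), zero_mul]
    rw [sum_congr rfl (fun x _ => h5 x), ← sum_filter, sum_const, nsmul_eq_mul,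
      Nat.card_eq_fintype_card (α := T), Fintype.card_subtype]
  have h6 : ((Nat.card N * Nat.card M : ℕ) : ℚ) =
      ((Nat.card T * Nat.card (N ⊓ M : Subgroup G) : ℕ) : ℚ) := by rw [h2]
  push_cast at h6
  have hN0 : (Nat.card N : ℚ) ≠ 0 := by
    have : 0 < Nat.card N := Nat.card_pos
    positivity
  have hB0 : (Nat.card B : ℚ) ≠ 0 := by
    have : 0 < Nat.card B := Nat.card_pos
    positivity
  unfold dc
  rw [h4, div_mul_eq_mul_div, div_eq_iff (mul_ne_zero hN0 hB0)]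
  calc (Nat.card T : ℚ) * (Nat.card (N ⊓ B : Subgroup G)) *
        (Nat.card B * (Nat.card (N ⊓ M : Subgroup G)))
      = (Nat.card T * (Nat.card (N ⊓ M : Subgroup G))) *
        ((Nat.card (N ⊓ B : Subgroup G)) * Nat.card B) := by ring
    _ = _ := by rw [← h6]; ring

end TCTa

open Classical TCTa in
/-- **TCT** -/
theorem TCT_thm : Stmt_TCT := by
  intro G _ _ N P M A A' p v h
  have hM : M = Subgroup.normalizer (P : Set G) := by
    ext g
    rw [h.mem_M g, Subgroup.mem_normalizer_iff]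
  have hconj : ∀ m ∈ M, ∀ u ∈ P, m⁻¹ * u * m ∈ P := by
    intro m hm u hu
    have h1 := ((h.mem_M m).1 hm (m⁻¹ * u * m)).2
    apply h1
    have : m * (m⁻¹ * u * m) * m⁻¹ = u := by group
    rwa [this]
  have hstab : ∀ (e : ℕ) (m : G), m ∈ M → ∀ k : G, (∀ u ∈ P, k ^ e * u = u * k ^ e) →
      ∀ u ∈ P, (m * k * m⁻¹) ^ e * u = u * (m * k * m⁻¹) ^ e := by
    intro e m hm k hk u hu
    have h1 := hk _ (hconj m hm u hu)
    have h2 : (m * k * m⁻¹) ^ e = m * k ^ e * m⁻¹ := by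
      rw [conj_pow]
    rw [h2]
    calc m * k ^ e * m⁻¹ * u = m * (k ^ e * (m⁻¹ * u * m)) * m⁻¹ := by group
      _ = m * ((m⁻¹ * u * m) * k ^ e) * m⁻¹ := by rw [h1]
      _ = u * (m * k ^ e * m⁻¹) := by group
  have hAM : A ≤ M := fun g hg => ((h.mem_A g).1 hg).1
  have hA'M : A' ≤ M := fun g hg => ((h.mem_A' g).1 hg).1
  have hnA : ∀ m ∈ M, ∀ k ∈ A, m * k * m⁻¹ ∈ A := by
    intro m hm k hk
    obtain ⟨h1, h2⟩ := (h.mem_A k).1 hk
    exact (h.mem_A _).2 ⟨mul_mem (mul_mem hm h1) (inv_mem hm), hstab _ m hm k h2⟩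
  have hnA' : ∀ m ∈ M, ∀ k ∈ A', m * k * m⁻¹ ∈ A' := by
    intro m hm k hk
    obtain ⟨h1, h2⟩ := (h.mem_A' k).1 hk
    exact (h.mem_A' _).2 ⟨mul_mem (mul_mem hm h1) (inv_mem hm), hstab _ m hm k h2⟩
  have hA'A : A' ≤ A := by
    intro g hg
    obtain ⟨h1, h2⟩ := (h.mem_A' g).1 hg
    refine (h.mem_A g).2 ⟨h1, fun u hu => ?_⟩
    have h3 := h2 u hu
    rw [pow_succ, pow_mul, sq, mul_assoc, h3, ← mul_assoc, h3, mul_assoc]
  have hfac : (Nat.card N).factorization p = 1 := by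
    have h1 : p ∣ Nat.card N := by
      have := Subgroup.card_dvd_of_le h.le_N
      rwa [h.card_P] at this
    have hN0 : Nat.card N ≠ 0 := Nat.card_pos.ne'
    have h2 : 1 ≤ (Nat.card N).factorization p :=
      (h.prime.dvd_iff_one_le_factorization hN0).1 h1
    have h3 : ¬ 2 ≤ (Nat.card N).factorization p := fun h4 =>
      h.not_sq ((h.prime.pow_dvd_iff_le_factorization hN0).2 h4)
    omega
  have dA := dc_T h.prime h.card_P h.le_N hfac hM hnA
  have dA' := dc_T h.prime h.card_P h.le_N hfac hM hnA'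
  have hNM0 : (Nat.card (N ⊓ M : Subgroup G) : ℚ) ≠ 0 := by
    have : 0 < Nat.card (N ⊓ M : Subgroup G) := Nat.card_pos
    positivity
  have hA0 : (Nat.card A : ℚ) ≠ 0 := by
    have : 0 < Nat.card A := Nat.card_pos
    positivity
  -- the case `A`
  obtain ⟨o, ho, hMo⟩ := h.odd_index
  have hoA : A.relIndex M = o := by
    have h1 := card_rel A M
    rw [inf_eq_left.2 hAM, hMo] at h1
    exact (Nat.eq_of_mul_eq_mul_right Nat.card_pos h1).symm
  obtain ⟨a, ha⟩ := rel_dvd A (N ⊓ M) M inf_le_right hnA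
  rw [hoA] at ha
  have hao : Odd a := by
    rw [ha] at ho
    exact (Nat.odd_mul.1 ho).2
  have hNA : (A ⊓ (N ⊓ M) : Subgroup G) = N ⊓ A := by
    ext g
    simp only [Subgroup.mem_inf]
    exact ⟨fun hg => ⟨hg.2.1, hg.1⟩, fun hg => ⟨hg.2, hg.1, hAM hg.2⟩⟩
  have hcNM := card_rel A (N ⊓ M)
  rw [hNA] at hcNM
  have hmain : dc N A (fun x => if ∀ u ∈ P, x * u * x⁻¹ ∈ N then 1 else 0) = a := by
    apply mul_right_cancel₀ (mul_ne_zero hA0 hNM0)
    rw [dA, hMo, hcNM]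
    nth_rewrite 1 [ha]
    push_cast
    ring
  refine ⟨⟨a, hao, hmain⟩, ?_⟩
  rcases h.index_two with h2 | h2
  · left
    have h3 : A' = A := Subgroup.eq_of_le_of_card_ge hA'A h2.le
    rw [h3]
    exact ⟨a, hao, hmain⟩
  · by_cases h3 : (N ⊓ A : Subgroup G) ≤ A'
    · right
      refine ⟨h2, fun x hx k hk hxk => ?_⟩
      rw [PFXa.mem_NM h.prime h.card_P h.le_N hfac x, ← hM] at hx
      obtain ⟨b, hb, m, hm, rfl⟩ := hx
      have h4 : m * k * m⁻¹ ∈ N := by
        have h5 := mul_mem (mul_mem (inv_mem hb) hxk) hb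
        have : b⁻¹ * (b * 1 * m * k * (b * 1 * m)⁻¹) * b = m * k * m⁻¹ := by group
        rwa [this] at h5
      have h5 : m * k * m⁻¹ ∈ A' := h3 (Subgroup.mem_inf.2 ⟨h4, hnA m hm k hk⟩)
      have h6 := hnA' m⁻¹ (inv_mem hm) _ h5
      have : m⁻¹ * (m * k * m⁻¹) * m⁻¹⁻¹ = k := by group
      rwa [this] at h6
    · left
      refine ⟨a, hao, ?_⟩
      have h4 : A'.relIndex A = 2 := by
        have h5 := card_rel A' A
        rw [inf_eq_left.2 hA'A, h2] at h5
        exact (Nat.eq_of_mul_eq_mul_right Nat.card_pos h5).symm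
      have h5 := rel_dvd A' (N ⊓ A) A inf_le_right (fun m hm => hnA' m (hAM hm))
      rw [h4] at h5
      have h6 : A'.relIndex (N ⊓ A) = 2 := by
        rcases (Nat.dvd_prime Nat.prime_two).1 h5 with h7 | h7
        · exact absurd (Subgroup.relIndex_eq_one.1 h7) h3
        · exact h7
      have h7 := card_rel A' (N ⊓ A)
      have hNA' : (A' ⊓ (N ⊓ A) : Subgroup G) = N ⊓ A' := by
        ext g
        simp only [Subgroup.mem_inf]
        exact ⟨fun hg => ⟨hg.2.1, hg.1⟩, fun hg => ⟨hg.2, hg.1, hA'A hg.2⟩⟩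
      rw [hNA', h6] at h7
      rw [← hmain]
      have hA'0 : (Nat.card A' : ℚ) ≠ 0 := by
        have : 0 < Nat.card A' := Nat.card_pos
        positivity
      apply mul_right_cancel₀ (mul_ne_zero hA0 hNM0)
      rw [dA, h7, h2]
      push_cast
      have := dA'
      linear_combination 2 * this

end Pool.Agent.ADG
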