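import Pool.Agent.ADG.St4

/-!
# ADG part 4, module TVL (helper89): the numbers `t`
-/

set_option autoImplicit false

namespace Pool.Agent.ADG

open Finset Pool.Agent.ADS

namespace TVL

variable {G : Type} [Group G]

/-- the subgroup `B ∩ x⁻¹ N x` -/
def DD (N B : Subgroup G) (x : G) : Subgroup G :=
  B ⊓ N.comap (MulAut.conj x).toMonoidHom

theorem mem_DD (N B : Subgroup G) (x k : G) : k ∈ DD N B x ↔ k ∈ B ∧ x * k * x⁻¹ ∈ N := Iff.rfl

theorem card_DD (N B : Subgroup G) (x : G) : Nat.card (DD N B x) = sta N B x :=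
  Nat.card_congr (Equiv.subtypeEquivRight fun k => mem_DD N B x k)

/-- the action on `P` -/
def chi (P N B : Subgroup G) (x : G) (hB : B ≤ Subgroup.normalizer (P : Set G)) :
    DD N B x →* MulAut P :=
  P.normalizerMonoidHom.comp (Subgroup.inclusion (inf_le_left.trans hB))

theorem chi_eq_one (P N B : Subgroup G) (x : G) (hB : B ≤ Subgroup.normalizer (P : Set G))
    (k : DD N B x) : chi P N B x hB k = 1 ↔ ∀ u ∈ P, (k : G) * u = u * k := by
  have h1 : ∀ u : P, ((chi P N B x hB k u : P) : G) = (k : G) * u * (k : G)⁻¹ := fun u => rfl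
  constructor
  · intro h u hu
    have h2 := h1 ⟨u, hu⟩
    rw [h] at h2
    have h3 : u = (k : G) * u * (k : G)⁻¹ := h2
    exact (eq_mul_inv_iff_mul_eq.1 h3).symm
  · intro h
    ext u
    rw [h1 u, h u u.2]
    simp

theorem card_ker (P N B : Subgroup G) (x : G) (hB : B ≤ Subgroup.normalizer (P : Set G)) :
    Nat.card (chi P N B x hB).ker = cen N P B x := by
  refine Nat.card_congr ⟨fun k => ⟨k.1.1, k.1.2.1, k.1.2.2, ?_⟩,
    fun k => ⟨⟨k.1, k.2.1, k.2.2.1⟩, ?_⟩, fun _ => rfl, fun _ => rfl⟩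
  · exact (chi_eq_one P N B x hB k.1).1 k.2
  · exact (chi_eq_one P N B x hB _).2 k.2.2.2

theorem sta_eq (P N B : Subgroup G) (x : G) (hB : B ≤ Subgroup.normalizer (P : Set G)) :
    sta N B x = cen N P B x * Nat.card (chi P N B x hB).range := by
  rw [← card_DD, ← card_ker P N B x hB, ← Subgroup.index_ker, Subgroup.card_mul_index]

variable [Finite G]

theorem cyc (P : Subgroup G) (p : ℕ) (hp : p.Prime) (hP : Nat.card P = p) :
    IsCyclic (MulAut P) := by
  haveI : Fact p.Prime := ⟨hp⟩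
  haveI : IsCyclic P := isCyclic_of_prime_card hP
  have e := IsCyclic.mulAutMulEquiv P
  rw [hP] at e
  exact isCyclic_of_injective e.toMonoidHom e.injective

theorem gen (P N B : Subgroup G) (x : G) (hB : B ≤ Subgroup.normalizer (P : Set G)) (p : ℕ)
    (hp : p.Prime) (hP : Nat.card P = p) :
    ∃ d : DD N B x, orderOf (chi P N B x hB d) = Nat.card (chi P N B x hB).range := by
  haveI := cyc P p hp hP
  obtain ⟨g, hg⟩ := IsCyclic.exists_ofOrder_eq_natCard (α := (chi P N B x hB).range)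
  obtain ⟨d, hd⟩ := g.2
  refine ⟨d, ?_⟩
  rw [hd, ← hg, Subgroup.orderOf_coe]

theorem dvd_of (P N B : Subgroup G) (x : G) (hB : B ≤ Subgroup.normalizer (P : Set G)) (p : ℕ)
    (hp : p.Prime) (hP : Nat.card P = p) (m : ℕ)
    (hm : ∀ k ∈ B, x * k * x⁻¹ ∈ N → ∀ u ∈ P, k ^ m * u = u * k ^ m) :
    Nat.card (chi P N B x hB).range ∣ m := by
  obtain ⟨d, hd⟩ := gen P N B x hB p hp hP
  rw [← hd]
  apply orderOf_dvd_of_pow_eq_one
  rw [← map_pow, chi_eq_one]
  exact hm d.1 d.2.1 d.2.2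

theorem order_dvd (P N B : Subgroup G) (x : G) (hB : B ≤ Subgroup.normalizer (P : Set G))
    (d : DD N B x) : orderOf (chi P N B x hB d) ∣ Nat.card (chi P N B x hB).range := by
  have h := orderOf_dvd_natCard (⟨chi P N B x hB d, ⟨d, rfl⟩⟩ : (chi P N B x hB).range)
  rwa [← Subgroup.orderOf_coe] at h

end TVL

open TVL in
theorem TVL_thm : Stmt_TVL := by
  intro G _ _ N P M A A' p v hD x
  have hMn : ∀ g, g ∈ M → g ∈ Subgroup.normalizer (P : Set G) := fun g hg =>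
    Subgroup.mem_normalizer_iff.2 ((hD.mem_M g).1 hg)
  have hA : A ≤ Subgroup.normalizer (P : Set G) := fun g hg => hMn g ((hD.mem_A g).1 hg).1
  have hA' : A' ≤ Subgroup.normalizer (P : Set G) := fun g hg => hMn g ((hD.mem_A' g).1 hg).1
  have hAA : A' ≤ A := by
    intro g hg
    obtain ⟨h1, h2⟩ := (hD.mem_A' g).1 hg
    refine (hD.mem_A g).2 ⟨h1, fun u hu => ?_⟩
    have h3 := h2 u hu
    rw [pow_succ, pow_mul, pow_two]
    rw [mul_assoc, h3, ← mul_assoc, h3, mul_assoc]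
  have hcen : cen N P A' x = cen N P A x := by
    refine Nat.card_congr (Equiv.subtypeEquivRight fun k => ⟨fun h => ⟨hAA h.1, h.2⟩, fun h => ?_⟩)
    refine ⟨(hD.mem_A' k).2 ⟨((hD.mem_A k).1 h.1).1, fun u hu => ?_⟩, h.2⟩
    have h3 : Commute k u := h.2.2 u hu
    exact (h3.pow_left _).eq
  have e' := sta_eq P N A' x hA'
  have e := sta_eq P N A x hA
  have d' : Nat.card (chi P N A' x hA').range ∣ 2 ^ v :=
    dvd_of P N A' x hA' p hD.prime hD.card_P _ fun k hk _ => ((hD.mem_A' k).1 hk).2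
  have d : Nat.card (chi P N A x hA).range ∣ 2 ^ (v + 1) :=
    dvd_of P N A x hA p hD.prime hD.card_P _ fun k hk _ => ((hD.mem_A k).1 hk).2
  refine ⟨?_, ?_, ?_⟩
  · obtain ⟨j, hj, h⟩ := (Nat.dvd_prime_pow Nat.prime_two).1 d'
    exact ⟨j, hj, by rw [e', h]⟩
  · intro hall
    refine ⟨Nat.card_congr (Equiv.subtypeEquivRight fun k =>
      ⟨fun h => ⟨hAA h.1, h.2⟩, fun h => ⟨hall k h.1 h.2, h.2⟩⟩), ?_⟩
    have d2 : Nat.card (chi P N A x hA).range ∣ 2 ^ v :=
      dvd_of P N A x hA p hD.prime hD.card_P _ fun k hk hx => ((hD.mem_A' k).1 (hall k hk hx)).2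
    obtain ⟨j, hj, h⟩ := (Nat.dvd_prime_pow Nat.prime_two).1 d2
    exact ⟨j, hj, by rw [e, h]⟩
  · intro hn
    push_neg at hn
    obtain ⟨g, hgA, hgx, hgn⟩ := hn
    have h1 : orderOf (chi P N A x hA ⟨g, hgA, hgx⟩) = 2 ^ (v + 1) := by
      refine orderOf_eq_prime_pow (fun hc => hgn ?_) ?_
      · rw [← map_pow, chi_eq_one] at hc
        exact (hD.mem_A' g).2 ⟨((hD.mem_A g).1 hgA).1, hc⟩
      · rw [← map_pow, chi_eq_one]
        exact ((hD.mem_A g).1 hgA).2
    have h2 : Nat.card (chi P N A x hA).range = 2 ^ (v + 1) :=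
      Nat.dvd_antisymm d (h1 ▸ order_dvd P N A x hA ⟨g, hgA, hgx⟩)
    have hg2 : g ^ 2 ∈ A' := by
      refine (hD.mem_A' _).2 ⟨M.pow_mem ((hD.mem_A g).1 hgA).1 2, ?_⟩
      rw [← pow_mul, ← pow_succ']
      exact ((hD.mem_A g).1 hgA).2
    have hgx2 : x * g ^ 2 * x⁻¹ ∈ N := by
      have := N.pow_mem hgx 2
      rwa [conj_pow] at this
    have h3 : 2 ^ v ∣ orderOf (chi P N A' x hA' ⟨g ^ 2, hg2, hgx2⟩) := by
      have h4 : orderOf ((chi P N A x hA ⟨g, hgA, hgx⟩) ^ 2) = 2 ^ v := by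
        rw [orderOf_pow, h1, pow_succ]
        simp
      have h5 : chi P N A' x hA' ⟨g ^ 2, hg2, hgx2⟩ = (chi P N A x hA ⟨g, hgA, hgx⟩) ^ 2 := by
        rw [← map_pow]
        rfl
      rw [h5, h4]
    have h6 : Nat.card (chi P N A' x hA').range = 2 ^ v :=
      Nat.dvd_antisymm d' (h3.trans (order_dvd P N A' x hA' _))
    refine ⟨by rw [e, h2], ?_⟩
    rw [e, e', h2, h6, hcen, pow_succ]
    ring

end Pool.Agent.ADG
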