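import Pool.Agent.ADG.All1
import Pool.Agent.ADG.EPX
import Pool.Agent.ADG.S2V
import Pool.Agent.ADG.RSU
import Pool.Agent.ADG.CFP
import Pool.Agent.ADG.CAB
import Pool.Agent.ADG.ROU
import Pool.Agent.ADG.RCY
import Pool.Agent.ADG.EPP
import Pool.Agent.ADG.RO4
import Pool.Agent.ADG.GKB
import Pool.Agent.ADG.LBB
import Pool.Agent.ADG.CS0
import Pool.Agent.ADG.PI1
import Pool.Agent.ADG.PI2
import Pool.Agent.ADG.PI3
import Pool.Agent.ADG.PSS
import Pool.Agent.ADG.QPT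
import Pool.Agent.ADG.QSM
import Pool.Agent.ADG.DCL
import Pool.Agent.ADG.GRT
import Pool.Agent.ADG.RTL
import Pool.Agent.ADG.RSM
import Pool.Agent.ADG.MST
import Pool.Agent.ADG.TVL
import Pool.Agent.ADG.TCT
import Pool.Agent.ADG.PXU
import Pool.Agent.ADG.FIN4

/-! Project ADG (MP_43d07b_co), parts 3 and 4: assembly (helper96). -/

set_option autoImplicit false

namespace Pool.Agent.ADG

theorem EPX_all : Stmt_EPX := EPX_thm GRP_all INV_thm

theorem EPP_all : Stmt_EPP := EPP_thm RSU_thm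

theorem RO2_all : Stmt_RO2 := RO2_thm (ROU2_thm CFP_thm CAB_thm) EPP_all

theorem RO4_all : Stmt_RO4 := RO4_thm EPP_all RO2_all

theorem LBB_all : Stmt_LBB := LBB_thm RSU_thm EPP_all RO2_all RO4_all

theorem QSM_all : Stmt_QSM :=
  QSM_thm QPT_thm (CS0_thm S2V_thm RSU_thm EPP_all GKB_thm)
    (PI1_thm S2V_thm GKB_thm LBB_all RCY_thm) (PI2_thm S2V_thm GKB_thm LBB_all RCY_thm)
    (PI3_thm S2V_thm GKB_thm LBB_all RCY_thm) PSS_thm

theorem main3 : MainStatement3 := FIN3_thm EPX_all PXT_all QSM_all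

theorem GRT_all : Stmt_GRT := GRT_thm GRP_all INV_thm SY2_all DCL_thm

theorem RSM_all : Stmt_RSM := RSM_thm DCL_thm GRT_all RTL_thm INV_thm

theorem PXU_all : Stmt_PXU := PXU_thm DCL_thm GRT_all RSM_all MST_thm TVL_thm TCT_thm SY2_all INV_thm

theorem main4 : MainStatement4 := FIN4_thm EPX_all PXT_all PXU_all QSM_all

end Pool.Agent.ADG
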