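import Pool.Agent.ADG.St5
import Pool.Agent.ADG.FIN4

/-!
# ADG, module FIN5 (helper96): assembly of part 5
-/

set_option autoImplicit false

namespace Pool.Agent.ADG

open Finset Pool.Agent.ADS

theorem FIN5_thm (h1 : MainStatement) (h2 : ∀ n : ℕ, AnyOrder n → QRC n) (h3 : Stmt_SM5) :
    Stmt_FIN5 := by
  classical
  obtain ⟨C, hC, hcount⟩ := h3
  refine ⟨4 * C, fun x hx => ?_⟩
  have hx0 : (0 : ℝ) ≤ x := by linarith
  set X := ⌊x⌋₊ with hX
  have hX2 : 2 ≤ X := Nat.le_floor (by exact_mod_cast hx)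
  have hXx : (X : ℝ) ≤ x := Nat.floor_le hx0
  have hxX : x < X + 1 := Nat.lt_floor_add_one x
  have hX2' : (2 : ℝ) ≤ X := by exact_mod_cast hX2
  have hcond : ∀ n : ℕ, AnyOrder n → Cond n := by
    intro n hn l hl hodd
    have h := h1.1 n hn l hl hodd
    exact ⟨h.1, h.2.1, h.2.2.1⟩
  have hsub : {n : ℕ | (n : ℝ) ≤ x ∧ n % 4 ≠ 0 ∧ AnyOrder n ∧ ¬ Form5 n}.ncard ≤
      ((Icc 2 X).filter (fun n => n % 4 ≠ 0 ∧ QRC n ∧ Cond n ∧ ¬ Form5 n)).card := by
    rw [← Set.ncard_coe_finset]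
    refine Set.ncard_le_ncard ?_ (Finset.finite_toSet _)
    rintro n ⟨hnx, hn4, hN, hF⟩
    have h4 : n ≤ X := Nat.le_floor hnx
    have h5 : 2 ≤ n := by
      obtain ⟨G, iG, N, D, hD⟩ := hN
      exact hD.two_le
    rw [Finset.mem_coe, Finset.mem_filter, Finset.mem_Icc]
    exact ⟨⟨h5, h4⟩, hn4, h2 n hN, hcond n hN, hF⟩
  have h5 := hcount X hX2
  have hlX : 0 < Real.log X := Real.log_pos (by linarith)
  have hlx : 0 < Real.log x := Real.log_pos (by linarith)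
  have hlog : Real.log x ≤ 2 * Real.log X := by
    have h6 : x ≤ (X : ℝ) ^ 2 := by nlinarith
    have h7 := Real.log_le_log (by linarith) h6
    rw [Real.log_pow] at h7
    exact_mod_cast h7
  have hpow : Real.log x ^ (13 / 12 : ℝ) ≤ 4 * Real.log X ^ (13 / 12 : ℝ) := by
    calc Real.log x ^ (13 / 12 : ℝ) ≤ (2 * Real.log X) ^ (13 / 12 : ℝ) :=
          Real.rpow_le_rpow hlx.le hlog (by norm_num)
      _ = 2 ^ (13 / 12 : ℝ) * Real.log X ^ (13 / 12 : ℝ) :=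
          Real.mul_rpow (by norm_num) hlX.le
      _ ≤ 4 * Real.log X ^ (13 / 12 : ℝ) := by
          have h8 : (2 : ℝ) ^ (13 / 12 : ℝ) ≤ 2 ^ (2 : ℝ) :=
            Real.rpow_le_rpow_of_exponent_le (by norm_num) (by norm_num)
          have h9 : (2 : ℝ) ^ (2 : ℝ) = 4 := by
            rw [Real.rpow_two]
            norm_num
          rw [h9] at h8
          exact mul_le_mul_of_nonneg_right h8 (Real.rpow_nonneg hlX.le _)
  have hpX : 0 < Real.log X ^ (13 / 12 : ℝ) := Real.rpow_pos_of_pos hlX _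
  have hpx : 0 < Real.log x ^ (13 / 12 : ℝ) := Real.rpow_pos_of_pos hlx _
  calc ({n : ℕ | (n : ℝ) ≤ x ∧ n % 4 ≠ 0 ∧ AnyOrder n ∧ ¬ Form5 n}.ncard : ℝ)
      ≤ (((Icc 2 X).filter (fun n => n % 4 ≠ 0 ∧ QRC n ∧ Cond n ∧ ¬ Form5 n)).card : ℝ) := by
        exact_mod_cast hsub
    _ ≤ C * X / Real.log X ^ (13 / 12 : ℝ) := h5
    _ ≤ 4 * C * x / Real.log x ^ (13 / 12 : ℝ) := by
      rw [div_le_div_iff₀ hpX hpx]
      calc C * X * Real.log x ^ (13 / 12 : ℝ) ≤ C * x * (4 * Real.log X ^ (13 / 12 : ℝ)) := by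
            refine mul_le_mul (mul_le_mul_of_nonneg_left hXx hC.le) hpow hpx.le (by positivity)
        _ = 4 * C * x * Real.log X ^ (13 / 12 : ℝ) := by ring

end Pool.Agent.ADG
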