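import Pool.Agent.ADG.St5
import Pool.Agent.ADG.LBB

/-!
# ADG: the lower bounds (LB3) and (LB4) of part 5 (helper89)
-/

set_option autoImplicit false

namespace Pool.Agent.ADG

open Finset

namespace LB3m

open LBBm

/-- one character modulo 8 on an interval -/
theorem one_char (h3 : Stmt_RO2) : ∃ K : ℝ, 1 ≤ K ∧ ∀ κ : ℕ → ℝ, RC 8 κ →
    ∀ y z : ℕ, 2 ≤ y → y ≤ z → ∀ A : Finset ℕ,
      (∀ q ∈ A, q ∈ Ioc y z ∧ q.Prime ∧ κ q = 1) →
      EP A ≤ K * (Real.log z / Real.log y) ^ (1 / 2 : ℝ) := by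
  classical
  obtain ⟨D, hD, hro⟩ := h3
  set B : Finset ℕ := (Icc 1 (8 ^ 8)).filter Nat.Prime with hB
  have hBp : ∀ q ∈ B, q.Prime := fun q hq => (Finset.mem_filter.1 hq).2
  have hB1 : 1 ≤ EP B := EP_ge hBp
  have hlog : ∀ n : ℕ, 2 ≤ n → 0 < Real.log n := fun n hn =>
    Real.log_pos (by exact_mod_cast (by omega : 1 < n))
  have key : ∀ κ : ℕ → ℝ, RC 8 κ → ∀ Q z : ℕ, 8 ^ 8 ≤ Q → Q ≤ z →
      EP ((Ioc Q z).filter (fun q => q.Prime ∧ κ q = 1)) ≤
        (1 + D) * (Real.log z / Real.log Q) ^ (1 / 2 : ℝ) := by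
    intro κ hκ Q z hQ hQz
    have hQ2 : 2 ≤ Q := le_trans (by norm_num) hQ
    rcases lt_or_eq_of_le hQz with h | h
    · have h' : EP ((Ioc Q z).filter (fun q => q.Prime ∧ κ q = 1)) ≤
          D * (Real.log z / Real.log Q) ^ (1 / 2 : ℝ) := by
        have := hro 8 κ hκ Q z (by norm_num) hQ h
        convert this using 3
      refine h'.trans (mul_le_mul_of_nonneg_right (by linarith) (Real.rpow_nonneg ?_ _))
      exact div_nonneg (Real.log_natCast_nonneg _) (Real.log_natCast_nonneg _)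
    · subst h
      rw [Finset.Ioc_self, Finset.filter_empty, div_self (hlog Q hQ2).ne', Real.one_rpow]
      have : EP ∅ = 1 := by
        unfold EP
        simp
      rw [this]
      linarith
  refine ⟨EP B * (1 + D), by nlinarith, ?_⟩
  intro κ hκ y z hy hyz A hA
  have hLy := hlog y hy
  have hLz := hlog z (hy.trans hyz)
  have hLyz : Real.log y ≤ Real.log z :=
    Real.log_le_log (by exact_mod_cast (by omega : 0 < y)) (by exact_mod_cast hyz)
  have hone : 1 ≤ (Real.log z / Real.log y) ^ (1 / 2 : ℝ) :=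
    Real.one_le_rpow ((one_le_div hLy).2 hLyz) (by norm_num)
  have hAp : ∀ q ∈ A, q.Prime := fun q hq => (hA q hq).2.1
  by_cases hz : max y (8 ^ 8) ≤ z
  · set Q := max y (8 ^ 8) with hQ
    have hQ8 : 8 ^ 8 ≤ Q := le_max_right _ _
    have hyQ : y ≤ Q := le_max_left _ _
    have hLyQ : Real.log y ≤ Real.log (Q : ℝ) :=
      Real.log_le_log (by exact_mod_cast (by omega : 0 < y)) (by exact_mod_cast hyQ)
    have hLQ : 0 < Real.log (Q : ℝ) := hLy.trans_le hLyQ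
    have hEp : ∀ q ∈ (Ioc Q z).filter (fun q => q.Prime ∧ κ q = 1), q.Prime :=
      fun q hq => (Finset.mem_filter.1 hq).2.1
    have hsub : A ⊆ B ∪ (Ioc Q z).filter (fun q => q.Prime ∧ κ q = 1) := by
      intro q hq
      obtain ⟨h1, h2, h3⟩ := hA q hq
      have h1' := Finset.mem_Ioc.1 h1
      rw [Finset.mem_union]
      by_cases h : Q < q
      · exact Or.inr (Finset.mem_filter.2 ⟨Finset.mem_Ioc.2 ⟨h, h1'.2⟩, h2, h3⟩)
      · have h4 : q ≤ 8 ^ 8 := by
          by_contra h5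
          have : Q < q := max_lt h1'.1 (not_le.1 h5)
          exact h this
        exact Or.inl (Finset.mem_filter.2 ⟨Finset.mem_Icc.2 ⟨h2.one_le, h4⟩, h2⟩)
    have h1 : EP A ≤ EP B * EP ((Ioc Q z).filter (fun q => q.Prime ∧ κ q = 1)) :=
      (EP_mono hsub (fun q hq => by
        rcases Finset.mem_union.1 hq with h | h
        · exact hBp q h
        · exact hEp q h)).trans (EP_union hBp hEp)
    have h2 := key κ hκ Q z hQ8 hz
    have h3 : (Real.log z / Real.log (Q : ℝ)) ^ (1 / 2 : ℝ) ≤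
        (Real.log z / Real.log y) ^ (1 / 2 : ℝ) := by
      refine Real.rpow_le_rpow (div_nonneg hLz.le hLQ.le) ?_ (by norm_num)
      exact div_le_div_of_nonneg_left hLz.le hLy hLyQ
    have hB0 : 0 ≤ EP B := zero_le_one.trans hB1
    calc EP A ≤ EP B * EP ((Ioc Q z).filter (fun q => q.Prime ∧ κ q = 1)) := h1
      _ ≤ EP B * ((1 + D) * (Real.log z / Real.log (Q : ℝ)) ^ (1 / 2 : ℝ)) :=
        mul_le_mul_of_nonneg_left h2 hB0
      _ ≤ EP B * ((1 + D) * (Real.log z / Real.log y) ^ (1 / 2 : ℝ)) :=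
        mul_le_mul_of_nonneg_left (mul_le_mul_of_nonneg_left h3 (by linarith)) hB0
      _ = EP B * (1 + D) * (Real.log z / Real.log y) ^ (1 / 2 : ℝ) := by ring
  · have hz8 : z ≤ 8 ^ 8 := by
      have h1 : z < max y (8 ^ 8) := not_le.1 hz
      rcases lt_max_iff.1 h1 with h | h
      · omega
      · exact h.le
    have hsub : A ⊆ B := by
      intro q hq
      obtain ⟨h1, h2, h3⟩ := hA q hq
      have h1' := Finset.mem_Ioc.1 h1
      exact Finset.mem_filter.2 ⟨Finset.mem_Icc.2 ⟨h2.one_le, h1'.2.trans hz8⟩, h2⟩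
    have h1 : EP A ≤ EP B := EP_mono hsub hBp
    have hK : EP B ≤ EP B * (1 + D) := by nlinarith
    have hK0 : 0 ≤ EP B * (1 + D) := by nlinarith
    calc EP A ≤ EP B * (1 + D) := h1.trans hK
      _ = EP B * (1 + D) * 1 := by ring
      _ ≤ EP B * (1 + D) * (Real.log z / Real.log y) ^ (1 / 2 : ℝ) :=
        mul_le_mul_of_nonneg_left hone hK0

/-- the covering argument -/
theorem cover (h1 : Stmt_RSU)
    (h21 : ∀ (A : Finset ℕ) (z : ℕ), (∀ q ∈ A, q.Prime) → RSm A z ≤ EP A)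
    {P A : Finset ℕ} {z k : ℕ} (hz : 1 ≤ z) (hk : 1 ≤ k) (hAp : ∀ q ∈ A, q.Prime)
    (hcov : ∀ q : ℕ, q.Prime → q ≤ z → ¬ q ∣ k → q ∉ P → q ∈ A) :
    Real.log z ≤ (gk k * RSm P z) * EP A := by
  classical
  obtain ⟨hsub, hmono, hone, hlog, hb, C0, hC0, hT, hA0⟩ := h1
  let P' : Finset ℕ := (Icc 1 z).filter (fun q => q.Prime ∧ q ∉ P)
  have hKp : ∀ q ∈ k.primeFactors, q.Prime := fun q hq => Nat.prime_of_mem_primeFactors hq
  have hP'p : ∀ q ∈ P', q.Prime := fun q hq => (Finset.mem_filter.1 hq).2.1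
  have hcov' : Real.log z ≤ RSm P z * RSm P' z := hlog P P' z hz (fun q hq hqz => by
    rw [Finset.mem_union]
    by_cases h : q ∈ P
    · exact Or.inl h
    · exact Or.inr (Finset.mem_filter.2 ⟨Finset.mem_Icc.2 ⟨hq.one_le, hqz⟩, hq, h⟩))
  have hsubset : P' ⊆ k.primeFactors ∪ A := by
    intro q hq
    obtain ⟨hqI, hqp, hqP⟩ := Finset.mem_filter.1 hq
    have hqz := (Finset.mem_Icc.1 hqI).2
    rw [Finset.mem_union]
    by_cases h1 : q ∣ k
    · exact Or.inl (Nat.mem_primeFactors.2 ⟨hqp, h1, by omega⟩)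
    · exact Or.inr (hcov q hqp hqz h1 hqP)
  have hP0 : 0 ≤ RSm P z := zero_le_one.trans (hone P z hz)
  have hEP' : EP P' ≤ gk k * EP A := by
    refine (EP_mono hsubset (fun q hq => ?_)).trans (EP_union hKp hAp)
    rcases Finset.mem_union.1 hq with h | h
    · exact hKp q h
    · exact hAp q h
  calc Real.log z ≤ RSm P z * RSm P' z := hcov'
    _ ≤ RSm P z * (gk k * EP A) := mul_le_mul_of_nonneg_left ((h21 P' z hP'p).trans hEP') hP0
    _ = (gk k * RSm P z) * EP A := by ring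

end LB3m

open LBBm LB3m in
theorem LB4_thm (h1 : Stmt_RSU) (h2 : Stmt_EPP) (h3 : Stmt_RO2) : Stmt_LB4 := by
  classical
  obtain ⟨h21, -⟩ := h2
  obtain ⟨K, hK, hone⟩ := one_char h3
  refine ⟨1 / K, by positivity, ?_⟩
  intro κ hκ y z k hy hyz hk
  have hLy : 0 < Real.log y := Real.log_pos (by exact_mod_cast (by omega : 1 < y))
  have hLz : 0 < Real.log z := Real.log_pos (by exact_mod_cast (by omega : 1 < z))
  set A : Finset ℕ := (Ioc y z).filter (fun q => q.Prime ∧ κ q = 1) with hA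
  have hAp : ∀ q ∈ A, q.Prime := fun q hq => (Finset.mem_filter.1 hq).2.1
  have hEA : EP A ≤ K * (Real.log z / Real.log y) ^ (1 / 2 : ℝ) :=
    hone κ hκ y z hy hyz A (fun q hq => Finset.mem_filter.1 hq)
  have hmain : Real.log z ≤ (gk k * RSm (G2 y z k κ) z) * EP A := by
    refine cover h1 h21 (by omega) hk hAp ?_
    intro q hq hqz hqk hqP
    have h4 : ¬ (q ≤ y ∨ κ q ≠ 1) := by
      intro h
      apply hqP
      unfold G2
      exact Finset.mem_filter.2 ⟨Finset.mem_Icc.2 ⟨hq.one_le, hqz⟩, hq, hqk, h⟩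
    obtain ⟨h5, h6⟩ := not_or.1 h4
    exact Finset.mem_filter.2 ⟨Finset.mem_Ioc.2 ⟨not_le.1 h5, hqz⟩, hq, not_not.1 h6⟩
  have hg : 1 ≤ gk k := EP_ge (fun q hq => Nat.prime_of_mem_primeFactors hq)
  have hP0 : 0 ≤ RSm (G2 y z k κ) z := zero_le_one.trans (h1.2.2.1 _ z (by omega))
  have hgP : 0 ≤ gk k * RSm (G2 y z k κ) z := mul_nonneg (zero_le_one.trans hg) hP0
  have hR : 0 < K * (Real.log z / Real.log y) ^ (1 / 2 : ℝ) :=
    mul_pos (by linarith) (Real.rpow_pos_of_pos (div_pos hLz hLy) _)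
  refine le_of_mul_le_mul_right ?_ hR
  refine le_trans ?_ (hmain.trans (mul_le_mul_of_nonneg_left hEA hgP))
  have e1 : (Real.log z * Real.log y) ^ (1 / 2 : ℝ) *
      (Real.log z / Real.log y) ^ (1 / 2 : ℝ) = Real.log z := by
    rw [← Real.mul_rpow (mul_nonneg hLz.le hLy.le) (div_nonneg hLz.le hLy.le)]
    have : Real.log z * Real.log y * (Real.log z / Real.log y) = Real.log z ^ (2 : ℕ) := by
      field_simp
    rw [this, ← Real.sqrt_eq_rpow, Real.sqrt_sq hLz.le]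
  have hK0 : K ≠ 0 := by positivity
  have : 1 / K * (Real.log z * Real.log y) ^ (1 / 2 : ℝ) *
      (K * (Real.log z / Real.log y) ^ (1 / 2 : ℝ)) = Real.log z := by
    calc 1 / K * (Real.log z * Real.log y) ^ (1 / 2 : ℝ) *
        (K * (Real.log z / Real.log y) ^ (1 / 2 : ℝ))
        = (1 / K * K) * ((Real.log z * Real.log y) ^ (1 / 2 : ℝ) *
          (Real.log z / Real.log y) ^ (1 / 2 : ℝ)) := by ring
      _ = Real.log z := by rw [e1, one_div, inv_mul_cancel₀ hK0, one_mul]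
  exact this.le

open LBBm LB3m in
theorem LB3_thm (h1 : Stmt_RSU) (h2 : Stmt_EPP) (h3 : Stmt_RO2) (h4 : Stmt_RO4) :
    Stmt_LB3 := by
  classical
  obtain ⟨h21, -⟩ := h2
  obtain ⟨K, hK, hone⟩ := one_char h3
  obtain ⟨D4, hD4, hro4⟩ := h4
  have hD : 1 ≤ 1 + D4 := by linarith
  refine ⟨1 / (32 * (4 * K) * (1 + D4)), by positivity, ?_⟩
  intro m m'' κ χ hκ hχ hκχ w z k hm hm'' hmw hmw'' hne hw hwz hk
  set Q : ℕ := (4 * w ^ 2) ^ 8 with hQdef
  have h4w : 8 ≤ 4 * w ^ 2 := by nlinarith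
  have hwQ : w ≤ Q := by
    have h1 : w ≤ 4 * w ^ 2 := by nlinarith
    exact h1.trans (Nat.le_self_pow (by norm_num) _)
  have hLw : 0 < Real.log w := Real.log_pos (by exact_mod_cast (by omega : 1 < w))
  have hLz : 0 < Real.log z := Real.log_pos (by exact_mod_cast (by omega : 1 < z))
  have hLwz : Real.log w ≤ Real.log z :=
    Real.log_le_log (by exact_mod_cast (by omega : 0 < w)) (by exact_mod_cast hwz)
  have hLwQ : Real.log w ≤ Real.log (Q : ℝ) :=
    Real.log_le_log (by exact_mod_cast (by omega : 0 < w)) (by exact_mod_cast hwQ)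
  have hLQ : 0 < Real.log (Q : ℝ) := hLw.trans_le hLwQ
  have hLQ32 : Real.log (Q : ℝ) ≤ 32 * Real.log w := by
    have hw0 : (0 : ℝ) < w := by exact_mod_cast (by omega : 0 < w)
    have h1 : (Q : ℝ) = (4 * (w : ℝ) ^ 2) ^ 8 := by
      rw [hQdef]
      push_cast
      ring
    have h2 : Real.log (4 : ℝ) = 2 * Real.log 2 := by
      rw [show (4 : ℝ) = 2 ^ 2 by norm_num, Real.log_pow]
      norm_num
    have h3 : Real.log 2 ≤ Real.log w :=
      Real.log_le_log (by norm_num) (by exact_mod_cast hw)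
    rw [h1, Real.log_pow, Real.log_mul (by norm_num) (by positivity), Real.log_pow, h2]
    push_cast
    linarith
  -- the first set
  have hfirst : ∀ Y : ℕ, 2 ≤ Y → EP ((Icc 1 Y).filter (fun q => q.Prime ∧ κ q = 1)) ≤
      4 * K * (Real.log Y) ^ (1 / 2 : ℝ) := by
    intro Y hY
    have hLY : 0 < Real.log Y := Real.log_pos (by exact_mod_cast (by omega : 1 < Y))
    have hp1 : ∀ q ∈ ({2} : Finset ℕ), q.Prime := fun q hq => by
      rw [Finset.mem_singleton.1 hq]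
      exact Nat.prime_two
    have hp2 : ∀ q ∈ (Ioc 2 Y).filter (fun q => q.Prime ∧ κ q = 1), q.Prime :=
      fun q hq => (Finset.mem_filter.1 hq).2.1
    have hsub : (Icc 1 Y).filter (fun q => q.Prime ∧ κ q = 1) ⊆
        {2} ∪ (Ioc 2 Y).filter (fun q => q.Prime ∧ κ q = 1) := by
      intro q hq
      obtain ⟨h1, h2, h3⟩ := Finset.mem_filter.1 hq
      rw [Finset.mem_union, Finset.mem_singleton]
      rcases Nat.lt_or_ge 2 q with h | h
      · exact Or.inr (Finset.mem_filter.2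
          ⟨Finset.mem_Ioc.2 ⟨h, (Finset.mem_Icc.1 h1).2⟩, h2, h3⟩)
      · exact Or.inl (le_antisymm h h2.two_le)
    have h1 : EP ((Icc 1 Y).filter (fun q => q.Prime ∧ κ q = 1)) ≤
        EP {2} * EP ((Ioc 2 Y).filter (fun q => q.Prime ∧ κ q = 1)) :=
      (EP_mono hsub (fun q hq => by
        rcases Finset.mem_union.1 hq with h | h
        · exact hp1 q h
        · exact hp2 q h)).trans (EP_union hp1 hp2)
    have h2 : EP {2} = 2 := by
      unfold EP
      rw [Finset.prod_singleton]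
      norm_num
    have h3 := hone κ hκ 2 Y le_rfl hY _ (fun q hq => Finset.mem_filter.1 hq)
    have hl2 : (1 / 2 : ℝ) ≤ Real.log 2 := by
      have := Real.log_two_gt_d9
      linarith
    have h5 : (Real.log Y / Real.log ((2 : ℕ) : ℝ)) ^ (1 / 2 : ℝ) ≤
        2 * (Real.log Y) ^ (1 / 2 : ℝ) := by
      have h6 : Real.log Y / Real.log ((2 : ℕ) : ℝ) ≤ 4 * Real.log Y := by
        push_cast
        rw [div_le_iff₀ (by linarith)]
        nlinarith
      calc (Real.log Y / Real.log ((2 : ℕ) : ℝ)) ^ (1 / 2 : ℝ)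
          ≤ (4 * Real.log Y) ^ (1 / 2 : ℝ) := by
            refine Real.rpow_le_rpow (div_nonneg hLY.le ?_) h6 (by norm_num)
            push_cast
            linarith
        _ = (4 : ℝ) ^ (1 / 2 : ℝ) * (Real.log Y) ^ (1 / 2 : ℝ) :=
            Real.mul_rpow (by norm_num) hLY.le
        _ = 2 * (Real.log Y) ^ (1 / 2 : ℝ) := by
            have : (4 : ℝ) ^ (1 / 2 : ℝ) = 2 := by
              rw [show (4 : ℝ) = 2 ^ (2 : ℕ) by norm_num, ← Real.sqrt_eq_rpow,
                Real.sqrt_sq (by norm_num)]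
            rw [this]
    rw [h2] at h1
    calc EP ((Icc 1 Y).filter (fun q => q.Prime ∧ κ q = 1))
        ≤ 2 * EP ((Ioc 2 Y).filter (fun q => q.Prime ∧ κ q = 1)) := h1
      _ ≤ 2 * (K * (Real.log Y / Real.log ((2 : ℕ) : ℝ)) ^ (1 / 2 : ℝ)) :=
        mul_le_mul_of_nonneg_left h3 (by norm_num)
      _ ≤ 2 * (K * (2 * (Real.log Y) ^ (1 / 2 : ℝ))) :=
        mul_le_mul_of_nonneg_left (mul_le_mul_of_nonneg_left h5 (by linarith)) (by norm_num)
      _ = 4 * K * (Real.log Y) ^ (1 / 2 : ℝ) := by ring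
  let A1 : Finset ℕ := (Icc 1 (min Q z)).filter (fun q => q.Prime ∧ κ q = 1)
  let A2 : Finset ℕ := (Ioc Q z).filter (fun q => q.Prime ∧ κ q = 1 ∧ χ q = 1)
  have hA1p : ∀ q ∈ A1, q.Prime := fun q hq => (Finset.mem_filter.1 hq).2.1
  have hA2p : ∀ q ∈ A2, q.Prime := fun q hq => (Finset.mem_filter.1 hq).2.1
  have hA12p : ∀ q ∈ A1 ∪ A2, q.Prime := fun q hq => by
    rcases Finset.mem_union.1 hq with h | h
    · exact hA1p q h
    · exact hA2p q h
  have hmain0 : Real.log z ≤ (gk k * RSm (G1 Q z k κ χ) z) * EP (A1 ∪ A2) := by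
    refine cover h1 h21 (by omega) hk hA12p ?_
    intro q hq hqz hqk hqP
    have h4 : ¬ (κ q ≠ 1 ∨ (Q < q ∧ χ q ≠ 1)) := by
      intro h
      apply hqP
      unfold G1
      exact Finset.mem_filter.2 ⟨Finset.mem_Icc.2 ⟨hq.one_le, hqz⟩, hq, hqk, h⟩
    obtain ⟨h5, h6⟩ := not_or.1 h4
    have h5' : κ q = 1 := not_not.1 h5
    rw [Finset.mem_union]
    by_cases h7 : Q < q
    · have h8 : χ q = 1 := by
        by_contra h
        exact h6 ⟨h7, h⟩
      exact Or.inr (Finset.mem_filter.2 ⟨Finset.mem_Ioc.2 ⟨h7, hqz⟩, hq, h5', h8⟩)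
    · exact Or.inl (Finset.mem_filter.2
        ⟨Finset.mem_Icc.2 ⟨hq.one_le, le_min (not_lt.1 h7) hqz⟩, hq, h5'⟩)
  have hg : 1 ≤ gk k := EP_ge (fun q hq => Nat.prime_of_mem_primeFactors hq)
  have hP0 : 0 ≤ RSm (G1 Q z k κ χ) z := zero_le_one.trans (h1.2.2.1 _ z (by omega))
  have hgP : 0 ≤ gk k * RSm (G1 Q z k κ χ) z := mul_nonneg (zero_le_one.trans hg) hP0
  have hmain : Real.log z ≤ (gk k * RSm (G1 Q z k κ χ) z) * (EP A1 * EP A2) :=
    hmain0.trans (mul_le_mul_of_nonneg_left (EP_union hA1p hA2p) hgP)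
  have hE1 : 1 ≤ EP A1 := EP_ge hA1p
  have hE2 : 1 ≤ EP A2 := EP_ge hA2p
  set t : ℝ := Real.log z / Real.log w with ht
  have ht1 : 1 ≤ t := (one_le_div hLw).2 hLwz
  have ht0 : 0 < t := by linarith
  have h32 : (32 : ℝ) ^ (1 / 4 : ℝ) ≤ 32 := by
    calc (32 : ℝ) ^ (1 / 4 : ℝ) ≤ (32 : ℝ) ^ (1 : ℝ) :=
          Real.rpow_le_rpow_of_exponent_le (by norm_num) (by norm_num)
      _ = 32 := Real.rpow_one _
  have hzhalf : 0 < (Real.log z) ^ (1 / 2 : ℝ) := Real.rpow_pos_of_pos hLz _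
  have hzz : (Real.log z) ^ (1 / 2 : ℝ) * (Real.log z) ^ (1 / 2 : ℝ) = Real.log z := by
    rw [← Real.rpow_add hLz]
    norm_num
  have hK0 : K ≠ 0 := by positivity
  have hD0 : (1 + D4) ≠ 0 := by positivity
  by_cases hQz : Q < z
  · -- the case `Q < z`
    have hmin : min Q z = Q := min_eq_left hQz.le
    have hA1 : EP A1 ≤ 4 * K * (Real.log (Q : ℝ)) ^ (1 / 2 : ℝ) := by
      have := hfirst Q (by omega)
      show EP ((Icc 1 (min Q z)).filter (fun q => q.Prime ∧ κ q = 1)) ≤ _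
      rw [hmin]
      exact this
    have hA2 : EP A2 ≤ (1 + D4) * (Real.log z / Real.log (Q : ℝ)) ^ (1 / 4 : ℝ) := by
      have h := hro4 8 m m'' κ χ hκ hχ hκχ Q z (by norm_num) hm hm''
        (Nat.pow_le_pow_left h4w 8) (Nat.pow_le_pow_left hmw 8) (Nat.pow_le_pow_left hmw'' 8)
        hQz hne
      have h' : EP A2 ≤ D4 * (Real.log z / Real.log (Q : ℝ)) ^ (1 / 4 : ℝ) := by
        convert h using 3
      refine h'.trans (mul_le_mul_of_nonneg_right (by linarith) (Real.rpow_nonneg ?_ _))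
      exact div_nonneg hLz.le hLQ.le
    set s : ℝ := Real.log z / Real.log (Q : ℝ) with hs
    have hs0 : 0 < s := div_pos hLz hLQ
    have hs4 : 0 < s ^ (1 / 4 : ℝ) := Real.rpow_pos_of_pos hs0 _
    have hsθ : s ^ (1 / 4 : ℝ) * s ^ (1 / 4 : ℝ) = s ^ (1 / 2 : ℝ) := by
      rw [← Real.rpow_add hs0]
      norm_num
    have hQs : (Real.log (Q : ℝ)) ^ (1 / 2 : ℝ) * s ^ (1 / 2 : ℝ) =
        (Real.log z) ^ (1 / 2 : ℝ) := by
      rw [← Real.mul_rpow hLQ.le hs0.le]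
      congr 1
      rw [hs]
      field_simp
    have hst : t ≤ 32 * s := by
      rw [ht, hs, div_le_iff₀ hLw]
      have h1 : 32 * (Real.log z / Real.log (Q : ℝ)) * Real.log w =
          Real.log z * (32 * Real.log w) / Real.log (Q : ℝ) := by ring
      rw [h1, le_div_iff₀ hLQ]
      exact mul_le_mul_of_nonneg_left hLQ32 hLz.le
    have hstθ : t ^ (1 / 4 : ℝ) ≤ 32 * s ^ (1 / 4 : ℝ) := by
      calc t ^ (1 / 4 : ℝ) ≤ (32 * s) ^ (1 / 4 : ℝ) :=
            Real.rpow_le_rpow ht0.le hst (by norm_num)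
        _ = 32 ^ (1 / 4 : ℝ) * s ^ (1 / 4 : ℝ) := Real.mul_rpow (by norm_num) hs0.le
        _ ≤ 32 * s ^ (1 / 4 : ℝ) := mul_le_mul_of_nonneg_right h32 hs4.le
    have hQh : 0 < (Real.log (Q : ℝ)) ^ (1 / 2 : ℝ) := Real.rpow_pos_of_pos hLQ _
    have hR : 0 < (4 * K * (Real.log (Q : ℝ)) ^ (1 / 2 : ℝ)) *
        ((1 + D4) * s ^ (1 / 4 : ℝ)) := by positivity
    have h5 : EP A1 * EP A2 ≤ (4 * K * (Real.log (Q : ℝ)) ^ (1 / 2 : ℝ)) *
        ((1 + D4) * s ^ (1 / 4 : ℝ)) :=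
      mul_le_mul hA1 hA2 (zero_le_one.trans hE2) (by positivity)
    refine le_of_mul_le_mul_right ?_ hR
    refine le_trans ?_ (hmain.trans (mul_le_mul_of_nonneg_left h5 hgP))
    calc 1 / (32 * (4 * K) * (1 + D4)) * (Real.log z) ^ (1 / 2 : ℝ) * t ^ (1 / 4 : ℝ) *
          ((4 * K * (Real.log (Q : ℝ)) ^ (1 / 2 : ℝ)) * ((1 + D4) * s ^ (1 / 4 : ℝ)))
        ≤ 1 / (32 * (4 * K) * (1 + D4)) * (Real.log z) ^ (1 / 2 : ℝ) *
          (32 * s ^ (1 / 4 : ℝ)) *
          ((4 * K * (Real.log (Q : ℝ)) ^ (1 / 2 : ℝ)) * ((1 + D4) * s ^ (1 / 4 : ℝ))) := by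
          refine mul_le_mul_of_nonneg_right ?_ hR.le
          exact mul_le_mul_of_nonneg_left hstθ (by positivity)
      _ = (Real.log z) ^ (1 / 2 : ℝ) * ((Real.log (Q : ℝ)) ^ (1 / 2 : ℝ) *
          (s ^ (1 / 4 : ℝ) * s ^ (1 / 4 : ℝ))) := by
          field_simp
      _ = Real.log z := by rw [hsθ, hQs, hzz]
  · -- the case `z ≤ Q`
    have hQz' : z ≤ Q := not_lt.1 hQz
    have hmin : min Q z = z := min_eq_right hQz'
    have hA1 : EP A1 ≤ 4 * K * (Real.log z) ^ (1 / 2 : ℝ) := by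
      have := hfirst z (by omega)
      show EP ((Icc 1 (min Q z)).filter (fun q => q.Prime ∧ κ q = 1)) ≤ _
      rw [hmin]
      exact this
    have hA2e : A2 = ∅ := by
      refine Finset.eq_empty_of_forall_notMem (fun q hq => ?_)
      have h := Finset.mem_Ioc.1 (Finset.mem_filter.1 hq).1
      omega
    have hA2 : EP A2 = 1 := by
      rw [hA2e]
      unfold EP
      simp
    have hLzQ : Real.log z ≤ Real.log (Q : ℝ) :=
      Real.log_le_log (by exact_mod_cast (by omega : 0 < z)) (by exact_mod_cast hQz')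
    have ht32 : t ≤ 32 := by
      rw [ht, div_le_iff₀ hLw]
      linarith
    have htθ : t ^ (1 / 4 : ℝ) ≤ 32 := (Real.rpow_le_rpow ht0.le ht32 (by norm_num)).trans h32
    have h6 : Real.log z ≤ (gk k * RSm (G1 Q z k κ χ) z) *
        (4 * K * (Real.log z) ^ (1 / 2 : ℝ)) := by
      refine hmain.trans (mul_le_mul_of_nonneg_left ?_ hgP)
      rw [hA2, mul_one]
      exact hA1
    have hR : 0 < 4 * K * (Real.log z) ^ (1 / 2 : ℝ) := by positivity
    refine le_of_mul_le_mul_right ?_ hR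
    refine le_trans ?_ h6
    calc 1 / (32 * (4 * K) * (1 + D4)) * (Real.log z) ^ (1 / 2 : ℝ) * t ^ (1 / 4 : ℝ) *
          (4 * K * (Real.log z) ^ (1 / 2 : ℝ))
        ≤ 1 / (32 * (4 * K) * (1 + D4)) * (Real.log z) ^ (1 / 2 : ℝ) * 32 *
          (4 * K * (Real.log z) ^ (1 / 2 : ℝ)) := by
          refine mul_le_mul_of_nonneg_right ?_ hR.le
          exact mul_le_mul_of_nonneg_left htθ (by positivity)
      _ = ((Real.log z) ^ (1 / 2 : ℝ) * (Real.log z) ^ (1 / 2 : ℝ)) / (1 + D4) := by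
          field_simp
      _ = Real.log z / (1 + D4) := by rw [hzz]
      _ ≤ Real.log z := div_le_self hLz.le hD

end Pool.Agent.ADG
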