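import Pool.Agent.ADG.St5

/-!
# ADG: (LB5), a lower bound for the sieve sums in part 5 (helper83)
-/

set_option autoImplicit false

namespace Pool.Agent.ADG

open Finset

namespace LB5m

theorem fac_ge {q : ℕ} (hq : q.Prime) : 1 ≤ (1 - (1 : ℝ) / q)⁻¹ := by
  have h1 : (2 : ℝ) ≤ q := by exact_mod_cast hq.two_le
  have h2 : (1 : ℝ) / q ≤ 1 / 2 := one_div_le_one_div_of_le (by norm_num) h1
  have h3 : (0 : ℝ) ≤ 1 / q := by positivity
  rw [one_le_inv₀ (by linarith)]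
  linarith

theorem EP_ge {A : Finset ℕ} (hA : ∀ q ∈ A, q.Prime) : 1 ≤ EP A := by
  unfold EP
  refine Finset.prod_induction _ (fun x : ℝ => 1 ≤ x) (fun a b ha hb => ?_) le_rfl
    (fun q hq => fac_ge (hA q hq))
  nlinarith

theorem EP_mono {A B : Finset ℕ} (h : A ⊆ B) (hB : ∀ q ∈ B, q.Prime) : EP A ≤ EP B := by
  classical
  have h1 : EP B = EP (B \ A) * EP A := by
    unfold EP
    exact (Finset.prod_sdiff h).symm
  have h2 : 1 ≤ EP (B \ A) := EP_ge (fun q hq => hB q (Finset.mem_sdiff.1 hq).1)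
  have h3 : 1 ≤ EP A := EP_ge (fun q hq => hB q (h hq))
  rw [h1]
  nlinarith

theorem EP_union {A B : Finset ℕ} (hA : ∀ q ∈ A, q.Prime) (hB : ∀ q ∈ B, q.Prime) :
    EP (A ∪ B) ≤ EP A * EP B := by
  classical
  have h1 : EP (A ∪ B) * EP (A ∩ B) = EP A * EP B := by
    unfold EP
    exact Finset.prod_union_inter
  have h2 : 1 ≤ EP (A ∩ B) := EP_ge (fun q hq => hA q (Finset.mem_inter.1 hq).1)
  have h3 : 1 ≤ EP (A ∪ B) := EP_ge (fun q hq => by
    rcases Finset.mem_union.1 hq with h | h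
    · exact hA q h
    · exact hB q h)
  rw [← h1]
  nlinarith

/-- `EP A ≤ exp(Σ (1/q + (1/(q-1) - 1/q)))` -/
theorem EP_le_exp {A : Finset ℕ} (hA : ∀ q ∈ A, q.Prime) :
    EP A ≤ Real.exp (∑ q ∈ A, (1 : ℝ) / q + ∑ q ∈ A, ((1 : ℝ) / ((q : ℝ) - 1) - 1 / q)) := by
  rw [← Finset.sum_add_distrib, Real.exp_sum]
  unfold EP
  refine Finset.prod_le_prod (fun q hq => zero_le_one.trans (fac_ge (hA q hq))) (fun q hq => ?_)
  have h1 : (2 : ℝ) ≤ q := by exact_mod_cast (hA q hq).two_le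
  have h2 : (1 - (1 : ℝ) / q)⁻¹ = 1 / ((q : ℝ) - 1) + 1 := by
    have h3 : (q : ℝ) ≠ 0 := by positivity
    have h4 : (q : ℝ) - 1 ≠ 0 := by linarith
    field_simp
    ring
  have h5 : (1 : ℝ) / q + (1 / ((q : ℝ) - 1) - 1 / q) = 1 / ((q : ℝ) - 1) := by ring
  rw [h2, h5]
  exact Real.add_one_le_exp _

/-- `exp(Σ 1/q) ≤ EP A` -/
theorem exp_le_EP {A : Finset ℕ} (hA : ∀ q ∈ A, q.Prime) :
    Real.exp (∑ q ∈ A, (1 : ℝ) / q) ≤ EP A := by
  rw [Real.exp_sum]
  unfold EP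
  refine Finset.prod_le_prod (fun q _ => (Real.exp_pos _).le) (fun q hq => ?_)
  have h1 : (2 : ℝ) ≤ q := by exact_mod_cast (hA q hq).two_le
  have h2 : (1 : ℝ) / q ≤ 1 / 2 := one_div_le_one_div_of_le (by norm_num) h1
  have h3 : 1 - (1 : ℝ) / q ≤ Real.exp (-(1 / q)) := by
    have := Real.add_one_le_exp (-((1 : ℝ) / q))
    linarith
  have h4 : 0 < 1 - (1 : ℝ) / q := by linarith
  have h5 := inv_anti₀ h4 h3
  rwa [← Real.exp_neg, neg_neg] at h5

theorem tele (T V : ℕ) (hTV : T ≤ V) :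
    ∑ q ∈ Ioc T V, ((1 : ℝ) / ((q : ℝ) - 1) - 1 / q) = 1 / T - 1 / V := by
  induction V, hTV using Nat.le_induction with
  | base => simp
  | succ n hn ih =>
    rw [Finset.sum_Ioc_succ_top (by omega), ih]
    push_cast
    have h1 : ((n : ℝ) + 1 - 1) = n := by ring
    rw [h1]
    ring

theorem EPB {T V : ℕ} (hT : 2 ≤ T) (hTV : T ≤ V) {ψ : ℕ → ℝ}
    (hval : ∀ a : ℕ, ψ a = 0 ∨ ψ a = 1 ∨ ψ a = -1)
    (hne : ∀ q : ℕ, q.Prime → T < q → q ≤ V → ψ q ≠ 0)
    (hsum : ∑ q ∈ (Ioc T V).filter Nat.Prime, ψ q / q ≤ 1) {C : ℝ} (hC : 1 ≤ C)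
    (h24 : EP ((Ioc T V).filter Nat.Prime) ≤ C * (Real.log V / Real.log T))
    {B : Finset ℕ} (hB : ∀ q, q ∈ B ↔ q ∈ Ioc T V ∧ q.Prime ∧ ψ q = 1) :
    EP B ≤ Real.exp (3 / 2) * (C * √(Real.log V / Real.log T)) := by
  classical
  have hLT : 0 < Real.log T := Real.log_pos (by exact_mod_cast (by omega : 1 < T))
  have hLV : 0 < Real.log V := Real.log_pos (by exact_mod_cast (by omega : 1 < V))
  have hBp : ∀ q ∈ B, q.Prime := fun q hq => ((hB q).1 hq).2.1
  have hDp : ∀ q ∈ (Ioc T V).filter Nat.Prime, q.Prime := fun q hq => (Finset.mem_filter.1 hq).2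
  have hBsub : B ⊆ (Ioc T V).filter Nat.Prime := fun q hq =>
    Finset.mem_filter.2 ⟨((hB q).1 hq).1, ((hB q).1 hq).2.1⟩
  have hBsub' : B ⊆ Ioc T V := fun q hq => ((hB q).1 hq).1
  set σ : ℝ := ∑ q ∈ (Ioc T V).filter Nat.Prime, (1 : ℝ) / q with hσ
  -- the sum over `B`
  have e1 : ∑ q ∈ B, (1 : ℝ) / q = ∑ q ∈ (Ioc T V).filter Nat.Prime, (1 + ψ q) / 2 * (1 / q) := by
    rw [← Finset.sum_subset hBsub]
    · refine Finset.sum_congr rfl (fun q hq => ?_)
      rw [((hB q).1 hq).2.2]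
      ring
    · intro q hq hqB
      obtain ⟨hqI, hqp⟩ := Finset.mem_filter.1 hq
      obtain ⟨h1, h2⟩ := Finset.mem_Ioc.1 hqI
      have h3 : ψ q = -1 := by
        rcases hval q with h | h | h
        · exact absurd h (hne q hqp h1 h2)
        · exact absurd ((hB q).2 ⟨hqI, hqp, h⟩) hqB
        · exact h
      rw [h3]
      ring
  have e2 : ∑ q ∈ B, (1 : ℝ) / q ≤ σ / 2 + 1 / 2 := by
    have e3 : ∑ q ∈ B, (1 : ℝ) / q =
        σ / 2 + (∑ q ∈ (Ioc T V).filter Nat.Prime, ψ q / q) / 2 := by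
      rw [e1, hσ, Finset.sum_div, Finset.sum_div, ← Finset.sum_add_distrib]
      refine Finset.sum_congr rfl (fun q _ => ?_)
      ring
    rw [e3]
    linarith
  have e4 : ∑ q ∈ B, ((1 : ℝ) / ((q : ℝ) - 1) - 1 / q) ≤ 1 := by
    have h1 : ∑ q ∈ B, ((1 : ℝ) / ((q : ℝ) - 1) - 1 / q) ≤
        ∑ q ∈ Ioc T V, ((1 : ℝ) / ((q : ℝ) - 1) - 1 / q) := by
      refine Finset.sum_le_sum_of_subset_of_nonneg hBsub' (fun q hq _ => ?_)
      have h2 := (Finset.mem_Ioc.1 hq).1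
      have h3 : (1 : ℝ) < q := by exact_mod_cast (by omega : 1 < q)
      have h4 : (1 : ℝ) / q ≤ 1 / ((q : ℝ) - 1) :=
        one_div_le_one_div_of_le (by linarith) (by linarith)
      linarith
    rw [tele T V hTV] at h1
    have h5 : (1 : ℝ) / T ≤ 1 := by
      rw [div_le_one (by exact_mod_cast (by omega : 0 < T))]
      exact_mod_cast (by omega : 1 ≤ T)
    have h6 : (0 : ℝ) ≤ 1 / V := by positivity
    linarith
  have e5 : EP B ≤ Real.exp (3 / 2) * Real.exp (σ / 2) := by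
    refine (EP_le_exp hBp).trans ?_
    rw [← Real.exp_add]
    apply Real.exp_le_exp.2
    linarith
  have e6 : Real.exp (σ / 2) ≤ C * √(Real.log V / Real.log T) := by
    have h1 : Real.exp (σ / 2) ^ 2 = Real.exp σ := by
      rw [← Real.exp_nat_mul]
      congr 1
      push_cast
      ring
    have h2 : Real.exp σ ≤ C * (Real.log V / Real.log T) := (exp_le_EP hDp).trans h24
    have h3 : 0 ≤ Real.log V / Real.log T := (div_pos hLV hLT).le
    have h4 : (C * √(Real.log V / Real.log T)) ^ 2 = C ^ 2 * (Real.log V / Real.log T) := by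
      rw [mul_pow, Real.sq_sqrt h3]
    have h5 : C * (Real.log V / Real.log T) ≤ C ^ 2 * (Real.log V / Real.log T) := by
      refine mul_le_mul_of_nonneg_right ?_ h3
      nlinarith
    refine le_of_sq_le_sq ?_ (by positivity)
    rw [h1, h4]
    exact h2.trans h5
  exact e5.trans (mul_le_mul_of_nonneg_left e6 (Real.exp_pos _).le)

theorem cov (hlog : ∀ (A B : Finset ℕ) (z : ℕ), 1 ≤ z →
      (∀ q : ℕ, q.Prime → q ≤ z → q ∈ A ∪ B) → Real.log z ≤ RSm A z * RSm B z)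
    (hone : ∀ (P : Finset ℕ) (z : ℕ), 1 ≤ z → 1 ≤ RSm P z)
    (h21 : ∀ (A : Finset ℕ) (z : ℕ), (∀ q ∈ A, q.Prime) → RSm A z ≤ EP A)
    {z k T : ℕ} (hz : 1 ≤ z) (hk : 1 ≤ k) {e0 eB e3 e4 : ℝ}
    (h23 : EP ((Icc 1 T).filter Nat.Prime) ≤ e0) (P B A3 A4 : Finset ℕ)
    (hBp : ∀ q ∈ B, q.Prime) (h3p : ∀ q ∈ A3, q.Prime) (h4p : ∀ q ∈ A4, q.Prime)
    (hcov : ∀ q : ℕ, q.Prime → q ≤ z → q ∉ P → q ∣ k ∨ q ≤ T ∨ q ∈ B ∨ q ∈ A3 ∨ q ∈ A4)
    (hEB : EP B ≤ eB) (hE3 : EP A3 ≤ e3) (hE4 : EP A4 ≤ e4) :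
    Real.log z ≤ gk k * RSm P z * (e0 * (eB * (e3 * e4))) := by
  classical
  let P' : Finset ℕ := (Icc 1 z).filter (fun q => q.Prime ∧ q ∉ P)
  let A0 : Finset ℕ := (Icc 1 T).filter Nat.Prime
  have hA0p : ∀ q ∈ A0, q.Prime := fun q hq => (Finset.mem_filter.1 hq).2
  have hKp : ∀ q ∈ k.primeFactors, q.Prime := fun q hq => Nat.prime_of_mem_primeFactors hq
  have hP'p : ∀ q ∈ P', q.Prime := fun q hq => (Finset.mem_filter.1 hq).2.1
  have hc : Real.log z ≤ RSm P z * RSm P' z := hlog P P' z hz (fun q hq hqz => by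
    rw [Finset.mem_union]
    by_cases h : q ∈ P
    · exact Or.inl h
    · exact Or.inr (Finset.mem_filter.2 ⟨Finset.mem_Icc.2 ⟨hq.one_le, hqz⟩, hq, h⟩))
  have hsubset : P' ⊆ k.primeFactors ∪ (A0 ∪ (B ∪ (A3 ∪ A4))) := by
    intro q hq
    obtain ⟨hqI, hqp, hqP⟩ := Finset.mem_filter.1 hq
    have hqz := (Finset.mem_Icc.1 hqI).2
    simp only [Finset.mem_union]
    rcases hcov q hqp hqz hqP with h | h | h | h | h
    · exact Or.inl (Nat.mem_primeFactors.2 ⟨hqp, h, by omega⟩)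
    · exact Or.inr (Or.inl (Finset.mem_filter.2 ⟨Finset.mem_Icc.2 ⟨hqp.one_le, h⟩, hqp⟩))
    · exact Or.inr (Or.inr (Or.inl h))
    · exact Or.inr (Or.inr (Or.inr (Or.inl h)))
    · exact Or.inr (Or.inr (Or.inr (Or.inr h)))
  have u1 : ∀ q ∈ A3 ∪ A4, q.Prime := fun q hq => by
    rcases Finset.mem_union.1 hq with h | h
    · exact h3p q h
    · exact h4p q h
  have u2 : ∀ q ∈ B ∪ (A3 ∪ A4), q.Prime := fun q hq => by
    rcases Finset.mem_union.1 hq with h | h
    · exact hBp q h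
    · exact u1 q h
  have u3 : ∀ q ∈ A0 ∪ (B ∪ (A3 ∪ A4)), q.Prime := fun q hq => by
    rcases Finset.mem_union.1 hq with h | h
    · exact hA0p q h
    · exact u2 q h
  have hg : 1 ≤ gk k := EP_ge hKp
  have o0 : 1 ≤ EP A0 := EP_ge hA0p
  have oB : 1 ≤ EP B := EP_ge hBp
  have o3 : 1 ≤ EP A3 := EP_ge h3p
  have o4 : 1 ≤ EP A4 := EP_ge h4p
  have v1 : EP (A3 ∪ A4) ≤ e3 * e4 :=
    (EP_union h3p h4p).trans (mul_le_mul hE3 hE4 (by linarith) (by linarith))
  have w1 : 1 ≤ EP (A3 ∪ A4) := EP_ge u1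
  have v2 : EP (B ∪ (A3 ∪ A4)) ≤ eB * (e3 * e4) :=
    (EP_union hBp u1).trans (mul_le_mul hEB v1 (by linarith) (by linarith))
  have w2 : 1 ≤ EP (B ∪ (A3 ∪ A4)) := EP_ge u2
  have v3 : EP (A0 ∪ (B ∪ (A3 ∪ A4))) ≤ e0 * (eB * (e3 * e4)) :=
    (EP_union hA0p u2).trans (mul_le_mul h23 v2 (by linarith) (o0.trans h23 |>.trans' zero_le_one))
  have v4 : EP P' ≤ gk k * (e0 * (eB * (e3 * e4))) := by
    refine (EP_mono hsubset (fun q hq => ?_)).trans ?_
    · rcases Finset.mem_union.1 hq with h | h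
      · exact hKp q h
      · exact u3 q h
    · exact (EP_union hKp u3).trans
        (mul_le_mul_of_nonneg_left v3 (zero_le_one.trans (EP_ge hKp)))
  have hP0 : 0 ≤ RSm P z := zero_le_one.trans (hone P z hz)
  calc Real.log z ≤ RSm P z * RSm P' z := hc
    _ ≤ RSm P z * (gk k * (e0 * (eB * (e3 * e4)))) :=
      mul_le_mul_of_nonneg_left ((h21 P' z hP'p).trans v4) hP0
    _ = _ := by ring

/-- final algebra, first form -/
theorem alg1 {K C a b Lz s G : ℝ} (hK : 0 < K) (hC : 1 ≤ C) (ha : 0 < a) (hb : 0 < b)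
    (hLz : 0 < Lz) (hs : 0 < s) (hss : s ^ 2 = b / a)
    (h : Lz ≤ G * (C * a * (K * (C * s) * (C * (Lz / b) * 1)))) :
    s ≤ K * C ^ 3 * G := by
  have hb' : b = s ^ 2 * a := by rw [hss]; field_simp
  have h1 : G * (C * a * (K * (C * s) * (C * (Lz / b) * 1))) = (K * C ^ 3 * G) * (Lz / s) := by
    rw [hb']
    field_simp
  rw [h1] at h
  have h2 : s * (Lz / s) = Lz := by field_simp
  have h3 : s * (Lz / s) ≤ (K * C ^ 3 * G) * (Lz / s) := by rw [h2]; exact h
  exact le_of_mul_le_mul_right h3 (div_pos hLz hs)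

/-- final algebra, second form -/
theorem alg2 {K C D a b LQ Lz s u G : ℝ} (hK : 0 < K) (hC : 1 ≤ C) (ha : 0 < a) (hb : 0 < b)
    (hLQ : 0 < LQ) (hs : 0 < s) (hss : s ^ 2 = b / a) (hu : 0 < u) (huu : u ^ 2 = Lz / LQ)
    (h : Lz ≤ G * (C * a * (K * (C * s) * (C * (LQ / b) * (D * u))))) :
    s * u ≤ K * C ^ 3 * D * G := by
  have hb' : b = s ^ 2 * a := by rw [hss]; field_simp
  have hz' : Lz = u ^ 2 * LQ := by rw [huu]; field_simp
  have h1 : G * (C * a * (K * (C * s) * (C * (LQ / b) * (D * u)))) =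
      (K * C ^ 3 * D * G) * (LQ * u / s) := by
    rw [hb']
    field_simp
  rw [h1] at h
  have h2 : (s * u) * (LQ * u / s) = Lz := by
    rw [hz']
    field_simp
  have h3 : (s * u) * (LQ * u / s) ≤ (K * C ^ 3 * D * G) * (LQ * u / s) := by rw [h2]; exact h
  exact le_of_mul_le_mul_right h3 (by positivity)

end LB5m

open LB5m in
theorem LB5_thm (h1 : Stmt_RSU) (h2 : Stmt_EPP) (h3 : Stmt_RO2) : Stmt_LB5 := by
  classical
  obtain ⟨hsub, hmono, hone, hlog, hb, C0, hC0, hT0, hA0⟩ := h1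
  obtain ⟨h21, C, hC, _, h23, h24⟩ := h2
  obtain ⟨D, hD, hro2⟩ := h3
  set K : ℝ := Real.exp (3 / 2) with hK
  have hK0 : 0 < K := Real.exp_pos _
  have hC0' : 0 < C := by linarith
  refine ⟨1 / (6 * (K * C ^ 3 * (1 + D))), by positivity, ?_⟩
  intro m ψ hψ T V w z k hT hTV hVz hk hne hsum
  have hV2 : 2 ≤ V := hT.trans hTV
  have hz2 : 2 ≤ z := hV2.trans hVz
  have hLT : 0 < Real.log T := Real.log_pos (by exact_mod_cast (by omega : 1 < T))
  have hLV : 0 < Real.log V := Real.log_pos (by exact_mod_cast (by omega : 1 < V))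
  have hLz : 0 < Real.log z := Real.log_pos (by exact_mod_cast (by omega : 1 < z))
  let B : Finset ℕ := (Ioc T V).filter (fun q => q.Prime ∧ ψ q = 1)
  have hBm : ∀ q, q ∈ B ↔ q ∈ Ioc T V ∧ q.Prime ∧ ψ q = 1 := fun q => Finset.mem_filter
  have hBp : ∀ q ∈ B, q.Prime := fun q hq => ((hBm q).1 hq).2.1
  have hEB := EPB hT hTV hψ.val hne hsum hC (h24 T V hT hTV).1 hBm
  set s : ℝ := √(Real.log V / Real.log T) with hs
  have hs0 : 0 < s := Real.sqrt_pos.2 (div_pos hLV hLT)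
  have hss : s ^ 2 = Real.log V / Real.log T := Real.sq_sqrt (div_pos hLV hLT).le
  have hg1 : ∀ P : Finset ℕ, 0 ≤ gk k * RSm P z := fun P =>
    mul_nonneg (zero_le_one.trans (EP_ge (fun q hq => Nat.prime_of_mem_primeFactors hq)))
      (zero_le_one.trans (hone P z (by omega)))
  -- the first form, for all `Q ≥ z`
  have first : ∀ Q : ℕ, z ≤ Q → s ≤ K * C ^ 3 * (gk k * RSm (G3 T V Q z k ψ) z) := by
    intro Q hQ
    have h := cov hlog hone h21 (z := z) (k := k) (T := T) (by omega) hk (h23 T hT)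
      (G3 T V Q z k ψ) B ((Ioc V z).filter Nat.Prime) ∅ hBp
      (fun q hq => (Finset.mem_filter.1 hq).2) (by simp)
      (fun q hqp hqz hqP => by
        by_cases c1 : q ∣ k
        · exact Or.inl c1
        by_cases c2 : q ≤ T
        · exact Or.inr (Or.inl c2)
        by_cases c3 : q ≤ V
        · have c4 : ψ q = 1 := by
            by_contra c5
            apply hqP
            unfold G3
            exact Finset.mem_filter.2 ⟨Finset.mem_Icc.2 ⟨hqp.one_le, hqz⟩, hqp, c1, c5,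
              Or.inl ⟨not_le.1 c2, c3⟩⟩
          exact Or.inr (Or.inr (Or.inl ((hBm q).2
            ⟨Finset.mem_Ioc.2 ⟨not_le.1 c2, c3⟩, hqp, c4⟩)))
        · exact Or.inr (Or.inr (Or.inr (Or.inl (Finset.mem_filter.2
            ⟨Finset.mem_Ioc.2 ⟨not_le.1 c3, hqz⟩, hqp⟩)))))
      hEB (h24 V z hV2 hVz).1 (show EP ∅ ≤ 1 by unfold EP; simp)
    exact alg1 hK0 hC hLT hLV hLz hs0 hss h
  have hkey : ∀ x G : ℝ, 0 ≤ G → x ≤ 6 * (K * C ^ 3 * (1 + D) * G) →
      1 / (6 * (K * C ^ 3 * (1 + D))) * x ≤ G := by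
    intro x G _ hx
    have hp : 0 < 6 * (K * C ^ 3 * (1 + D)) := by positivity
    rw [one_div, inv_mul_le_iff₀ hp]
    linarith
  have hKC : 0 < K * C ^ 3 := by positivity
  constructor
  · rw [← Real.sqrt_eq_rpow, ← hs]
    refine hkey _ _ (hg1 _) ?_
    have h := first z le_rfl
    have h' : 0 ≤ K * C ^ 3 * (gk k * RSm (G3 T V z z k ψ) z) := mul_nonneg hKC.le (hg1 _)
    nlinarith [mul_nonneg hD.le h']
  · intro hm hmw hVw hwz
    have hw2 : 2 ≤ w := hV2.trans hVw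
    have hLw : 0 < Real.log w := Real.log_pos (by exact_mod_cast (by omega : 1 < w))
    set Q : ℕ := (4 * w ^ 2) ^ 8 with hQdef
    have hwQ : w ≤ Q := by
      have h1 : w ≤ 4 * w ^ 2 := by nlinarith
      exact h1.trans (Nat.le_self_pow (by norm_num) _)
    have hLwQ : Real.log w ≤ Real.log (Q : ℝ) :=
      Real.log_le_log (by exact_mod_cast (by omega : 0 < w)) (by exact_mod_cast hwQ)
    have hLQ : 0 < Real.log (Q : ℝ) := hLw.trans_le hLwQ
    have hLQ32 : Real.log (Q : ℝ) ≤ 32 * Real.log w := by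
      have hw0 : (0 : ℝ) < w := by exact_mod_cast (by omega : 0 < w)
      have h1 : (Q : ℝ) = (4 * (w : ℝ) ^ 2) ^ 8 := by
        rw [hQdef]
        push_cast
        ring
      have h2 : Real.log (4 : ℝ) = 2 * Real.log 2 := by
        rw [show (4 : ℝ) = 2 ^ 2 by norm_num, Real.log_pow]
        norm_num
      have h3 : Real.log 2 ≤ Real.log w :=
        Real.log_le_log (by norm_num) (by exact_mod_cast hw2)
      rw [h1, Real.log_pow, Real.log_mul (by norm_num) (by positivity), Real.log_pow, h2]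
      push_cast
      linarith
    rw [← Real.sqrt_eq_rpow]
    have hsq : √(Real.log V / Real.log T * (Real.log z / Real.log w)) =
        s * √(Real.log z / Real.log w) := by
      rw [hs, Real.sqrt_mul (div_pos hLV hLT).le]
    rw [hsq]
    refine hkey _ _ (hg1 _) ?_
    by_cases hQz : Q < z
    · -- `Q < z`
      let A4 : Finset ℕ := (Ioc Q z).filter (fun q => q.Prime ∧ ψ q = 1)
      have hm8 : m ^ 8 ≤ Q := Nat.pow_le_pow_left hmw 8
      have hE4 : EP A4 ≤ D * √(Real.log z / Real.log (Q : ℝ)) := by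
        have h := hro2 m ψ hψ Q z hm hm8 hQz
        rw [← Real.sqrt_eq_rpow] at h
        have hAe : A4 = (Ioc Q z).filter (fun q => q.Prime ∧ ψ q = 1) := rfl
        refine le_trans (le_of_eq ?_) h
        congr 1
      set u : ℝ := √(Real.log z / Real.log (Q : ℝ)) with hu
      have hu0 : 0 < u := Real.sqrt_pos.2 (div_pos hLz hLQ)
      have huu : u ^ 2 = Real.log z / Real.log (Q : ℝ) := Real.sq_sqrt (div_pos hLz hLQ).le
      have h := cov hlog hone h21 (z := z) (k := k) (T := T) (by omega) hk (h23 T hT)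
        (G3 T V Q z k ψ) B ((Ioc V Q).filter Nat.Prime) A4 hBp
        (fun q hq => (Finset.mem_filter.1 hq).2) (fun q hq => (Finset.mem_filter.1 hq).2.1)
        (fun q hqp hqz hqP => by
          by_cases c1 : q ∣ k
          · exact Or.inl c1
          by_cases c2 : q ≤ T
          · exact Or.inr (Or.inl c2)
          have c0 : ((T < q ∧ q ≤ V) ∨ Q < q) → ψ q = 1 := by
            intro c6
            by_contra c5
            apply hqP
            unfold G3
            exact Finset.mem_filter.2 ⟨Finset.mem_Icc.2 ⟨hqp.one_le, hqz⟩, hqp, c1, c5, c6⟩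
          by_cases c3 : q ≤ V
          · exact Or.inr (Or.inr (Or.inl ((hBm q).2
              ⟨Finset.mem_Ioc.2 ⟨not_le.1 c2, c3⟩, hqp, c0 (Or.inl ⟨not_le.1 c2, c3⟩)⟩)))
          by_cases c7 : q ≤ Q
          · exact Or.inr (Or.inr (Or.inr (Or.inl (Finset.mem_filter.2
              ⟨Finset.mem_Ioc.2 ⟨not_le.1 c3, c7⟩, hqp⟩))))
          · exact Or.inr (Or.inr (Or.inr (Or.inr (Finset.mem_filter.2
              ⟨Finset.mem_Ioc.2 ⟨not_le.1 c7, hqz⟩, hqp, c0 (Or.inr (not_le.1 c7))⟩)))))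
        hEB (h24 V Q hV2 (hVw.trans hwQ)).1 hE4
      have h' := alg2 hK0 hC hLT hLV hLQ hs0 hss hu0 huu h
      have hvu : √(Real.log z / Real.log w) ≤ 6 * u := by
        refine Real.sqrt_le_iff.2 ⟨by positivity, ?_⟩
        rw [mul_pow, huu, div_le_iff₀ hLw]
        have h1 : (6 : ℝ) ^ 2 * (Real.log z / Real.log (Q : ℝ)) * Real.log w =
            Real.log z * (36 * Real.log w) / Real.log (Q : ℝ) := by ring
        rw [h1, le_div_iff₀ hLQ]
        exact mul_le_mul_of_nonneg_left (by linarith) hLz.le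
      have h5 : s * √(Real.log z / Real.log w) ≤ 6 * (s * u) := by
        calc s * √(Real.log z / Real.log w) ≤ s * (6 * u) :=
              mul_le_mul_of_nonneg_left hvu hs0.le
          _ = _ := by ring
      have h6 : 0 ≤ K * C ^ 3 * (gk k * RSm (G3 T V Q z k ψ) z) := mul_nonneg hKC.le (hg1 _)
      have h7 : K * C ^ 3 * D * (gk k * RSm (G3 T V Q z k ψ) z) ≤
          K * C ^ 3 * (1 + D) * (gk k * RSm (G3 T V Q z k ψ) z) := by
        have e : K * C ^ 3 * (1 + D) * (gk k * RSm (G3 T V Q z k ψ) z) =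
            K * C ^ 3 * D * (gk k * RSm (G3 T V Q z k ψ) z) +
              K * C ^ 3 * (gk k * RSm (G3 T V Q z k ψ) z) := by ring
        rw [e]
        linarith
      linarith
    · -- `z ≤ Q`
      have hzQ : z ≤ Q := not_lt.1 hQz
      have hLzQ : Real.log z ≤ Real.log (Q : ℝ) :=
        Real.log_le_log (by exact_mod_cast (by omega : 0 < z)) (by exact_mod_cast hzQ)
      have h := first Q hzQ
      have hv : √(Real.log z / Real.log w) ≤ 6 := by
        refine Real.sqrt_le_iff.2 ⟨by norm_num, ?_⟩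
        rw [div_le_iff₀ hLw]
        linarith
      have h5 : s * √(Real.log z / Real.log w) ≤ 6 * s := by
        calc s * √(Real.log z / Real.log w) ≤ s * 6 :=
              mul_le_mul_of_nonneg_left hv hs0.le
          _ = _ := by ring
      have h6 : 0 ≤ D * (K * C ^ 3 * (gk k * RSm (G3 T V Q z k ψ) z)) :=
        mul_nonneg hD.le (mul_nonneg hKC.le (hg1 _))
      have e : K * C ^ 3 * (1 + D) * (gk k * RSm (G3 T V Q z k ψ) z) =
          D * (K * C ^ 3 * (gk k * RSm (G3 T V Q z k ψ) z)) +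
            K * C ^ 3 * (gk k * RSm (G3 T V Q z k ψ) z) := by ring
      rw [e]
      linarith

end Pool.Agent.ADG
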