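import Pool.Agent.ADG.St5

/-! (PT5) The partition into the sets TA, TB, TC (module of project ADG, part 5) (helper9). -/

set_option autoImplicit false

namespace Pool.Agent.ADG

open Finset Pool.Agent.ADS

namespace PT5m

lemma not_sq (b a n q : ℕ) (h : b ^ 2 * a = n) (ha : Squarefree a) (hq : q.Prime)
    (hb : ¬ q ∣ b) : ¬ q ^ 2 ∣ n := by
  intro hd
  rw [← h] at hd
  have hc : Nat.Coprime (q ^ 2) (b ^ 2) :=
    Nat.Coprime.pow 2 2 ((Nat.Prime.coprime_iff_not_dvd hq).2 hb)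
  have h1 : q ^ 2 ∣ a := hc.dvd_of_dvd_mul_left hd
  have h2 : q * q ∣ a := by rwa [← sq]
  have := ha q h2
  exact hq.one_lt.ne' (Nat.isUnit_iff.1 this)

/-- a squarefree number without odd prime factors is `1` or `2` -/
lemma one_or_two (a : ℕ) (ha : Squarefree a) (h : ∀ q : ℕ, q.Prime → q ∣ a → q = 2) :
    a = 1 ∨ a = 2 := by
  have ha0 : a ≠ 0 := ha.ne_zero
  have h1 := Nat.eq_prime_pow_of_unique_prime_dvd (p := 2) ha0 (fun {d} hd hda => h d hd hda)
  set k := a.primeFactorsList.length with hk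
  rcases Nat.lt_or_ge k 2 with h2 | h2
  · interval_cases k
    · left; simpa using h1
    · right; simpa using h1
  · exfalso
    have h3 : 2 * 2 ∣ a := by
      rw [h1]
      have : (2 : ℕ) * 2 = 2 ^ 2 := by norm_num
      rw [this]
      exact pow_dvd_pow 2 h2
    have := ha 2 h3
    exact absurd (Nat.isUnit_iff.1 this) (by norm_num)

end PT5m

open PT5m in
theorem PT5_thm : Stmt_PT5 := by
  classical
  intro X W L n hn2 hnX _hn4 hQ hCond hForm
  obtain ⟨a, c, hc, ha⟩ := Nat.sq_mul_squarefree n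
  obtain ⟨b, d, hd, hb⟩ := Nat.sq_mul_squarefree (n - 1)
  have hc1 : 1 ≤ c := by
    rcases Nat.eq_zero_or_pos c with h | h
    · subst h; simp at hc; omega
    · exact h
  have hd1 : 1 ≤ d := by
    rcases Nat.eq_zero_or_pos d with h | h
    · subst h; simp at hd; omega
    · exact h
  have hcn : c ^ 2 ∣ n := ⟨a, hc.symm⟩
  have hdn : d ^ 2 ∣ n - 1 := ⟨b, hd.symm⟩
  refine ⟨c, d, hc1, hd1, hcn, hdn, ?_⟩
  by_cases hLc : L < c
  · exact Or.inl hLc
  by_cases hLd : L < d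
  · exact Or.inr (Or.inl hLd)
  refine Or.inr (Or.inr ⟨not_lt.1 hLc, not_lt.1 hLd, ?_⟩)
  have hBase : Base5 c d (n % 8) n := by
    refine ⟨hQ, hCond, rfl, hcn, hdn, ?_⟩
    intro q hq hqcd
    refine ⟨not_sq c a n q hc ha hq ?_, not_sq d b (n - 1) q hd hb hq ?_⟩
    · intro h; exact hqcd (h.mul_right d)
    · intro h; exact hqcd (h.mul_left c)
  have hmem : n ∈ Icc 2 X := mem_Icc.2 ⟨hn2, hnX⟩
  have ha0 : a ≠ 0 := ha.ne_zero
  by_cases hO : ∃ q, q.Prime ∧ q ≠ 2 ∧ q ∣ a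
  swap
  · rcases one_or_two a ha (fun q hq hqa => by
      by_contra h; exact hO ⟨q, hq, h, hqa⟩) with h | h
    · left
      rw [h, mul_one] at hc
      exact hc.symm
    · right; left
      rw [h, mul_comm] at hc
      exact hc.symm
  obtain ⟨l, ⟨hlp, hl2, hla⟩, hlmin⟩ : ∃ l, (l.Prime ∧ l ≠ 2 ∧ l ∣ a) ∧
      ∀ q, (q.Prime ∧ q ≠ 2 ∧ q ∣ a) → l ≤ q :=
    ⟨Nat.find hO, Nat.find_spec hO, fun q hq => Nat.find_min' hO hq⟩
  obtain ⟨a', ha'⟩ := hla
  have hsq' : Squarefree a' := ha.squarefree_of_dvd ⟨l, by rw [ha']; ring⟩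
  -- a second odd prime factor
  obtain ⟨l', hl'p, hl'2, hl'a⟩ : ∃ q, q.Prime ∧ q ≠ 2 ∧ q ∣ a' := by
    by_contra hcon
    rcases one_or_two a' hsq' (fun q hq hqa => by
      by_contra h; exact hcon ⟨q, hq, h, hqa⟩) with h | h
    · refine hForm ⟨l, c, hlp, Or.inl ?_⟩
      rw [← hc, ha', h]; ring
    · refine hForm ⟨l, c, hlp, Or.inr ?_⟩
      rw [← hc, ha', h]; ring
  have hll : l * l' ∣ a := by rw [ha']; exact mul_dvd_mul_left l hl'a
  have hne : l' ≠ l := by
    intro h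
    rw [h] at hll
    exact hlp.one_lt.ne' (Nat.isUnit_iff.1 (ha l hll))
  have hlt : l ≤ l' := hlmin l' ⟨hl'p, hl'2, dvd_trans (Dvd.intro_left _ rfl) hll⟩
  have hcl : c ^ 2 * l ∣ n := by
    rw [← hc, ha']
    exact mul_dvd_mul_left _ (Dvd.intro _ rfl)
  have hla : l ∣ a := ⟨a', ha'⟩
  have hodd : Odd (n.factorization l) := by
    have h1 : n.factorization l = 2 * c.factorization l + a.factorization l := by
      rw [← hc, Nat.factorization_mul (pow_ne_zero 2 (by omega)) ha0, Nat.factorization_pow]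
      simp
    have h2 : a.factorization l = 1 := by
      have h3 : a.factorization l ≤ 1 := ha.natFactorization_le_one l
      have h4 : 0 < a.factorization l := hlp.factorization_pos_of_dvd ha0 hla
      omega
    rw [h1, h2]
    exact ⟨_, rfl⟩
  right; right
  by_cases hlW : l ≤ W
  · by_cases hp : ∃ p, p.Prime ∧ p ≤ W ∧ ¬ p ∣ 2 * (c * d) ∧ p ∣ n - 1
    · obtain ⟨p, hpp, hpW, hpk, hpn⟩ := hp
      left
      refine ⟨l, p, hlp, hpp, hl2, ?_, ?_, hlW, hpW, ?_⟩
      · intro h; exact hpk (h ▸ Dvd.intro _ rfl)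
      · intro h; exact hpk (h.mul_left 2)
      · exact mem_filter.2 ⟨hmem, hBase, hcl, hodd, hpn⟩
    · right; left
      refine ⟨l, hlp, hl2, hlW, mem_filter.2 ⟨hmem, hBase, hcl, hodd, ?_⟩⟩
      intro q hq hqW hqk hqn
      exact hp ⟨q, hq, hqW, hqk, hqn⟩
  · right; right
    refine ⟨l, hlp, hl2, not_le.1 hlW, ?_, mem_filter.2 ⟨hmem, hBase, hcl, hodd, ?_⟩⟩
    · have h1 : l * l' ≤ a := Nat.le_of_dvd (Nat.pos_of_ne_zero ha0) hll
      have h2 : a ≤ n := by
        rw [← hc]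
        exact Nat.le_mul_of_pos_left _ (by positivity)
      calc l ^ 2 = l * l := sq l
        _ ≤ l * l' := Nat.mul_le_mul_left l hlt
        _ ≤ X := h1.trans (h2.trans hnX)
    · intro q hq hql hqk hqn
      have hqc : ¬ q ∣ c := fun h => hqk ((h.mul_right d).mul_left 2)
      have hq2 : q ≠ 2 := fun h => hqk (h ▸ Dvd.intro _ rfl)
      have hqa : q ∣ a := by
        rw [← hc] at hqn
        rcases (Nat.Prime.dvd_mul hq).1 hqn with h | h
        · exact absurd (hq.dvd_of_dvd_pow h) hqc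
        · exact h
      exact absurd (hlmin q ⟨hq, hq2, hqa⟩) (not_le.2 hql)

end Pool.Agent.ADG
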