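import Pool.Agent.ADG.St5
import Pool.Agent.ADG.RCY

/-!
Module ADG_RCK of MP_43d07b_co (helper81): the characters `κ r` modulo 8 and their products with
`χ p`; `χ`, `ψ` as in `Pool/Agent/ADG/RCY.lean`.
-/

set_option autoImplicit false

namespace Pool.Agent.ADG

open Finset Pool.Agent.ADS

namespace RCKa

open RCYa

/-- the character `κ r` modulo 8 -/
noncomputable def kap (r n : ℕ) : ℝ :=
  if r = 3 then ((ZMod.χ₈' (n : ZMod 8) : ℤ) : ℝ)
  else if r = 7 then ((ZMod.χ₈ (n : ZMod 8) : ℤ) : ℝ)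
  else ((ZMod.χ₄ (n : ZMod 4) : ℤ) : ℝ)

lemma kap_one (r : ℕ) : kap r 1 = 1 := by
  unfold kap
  split_ifs <;> simp

lemma kap_mul (r a b : ℕ) : kap r (a * b) = kap r a * kap r b := by
  unfold kap
  split_ifs <;> (push_cast; rw [map_mul]; push_cast; rfl)

lemma cast_val (x : ℤ) (h : x = 0 ∨ x = 1 ∨ x = -1) :
    (x : ℝ) = 0 ∨ (x : ℝ) = 1 ∨ (x : ℝ) = -1 := by
  rcases h with h | h | h <;> rw [h] <;> simp

lemma kap_val (r n : ℕ) : kap r n = 0 ∨ kap r n = 1 ∨ kap r n = -1 := by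
  have h1 : ∀ x : ZMod 8, ZMod.χ₈' x = 0 ∨ ZMod.χ₈' x = 1 ∨ ZMod.χ₈' x = -1 := by decide
  have h2 : ∀ x : ZMod 8, ZMod.χ₈ x = 0 ∨ ZMod.χ₈ x = 1 ∨ ZMod.χ₈ x = -1 := by decide
  have h3 : ∀ x : ZMod 4, ZMod.χ₄ x = 0 ∨ ZMod.χ₄ x = 1 ∨ ZMod.χ₄ x = -1 := by decide
  unfold kap
  split_ifs
  · exact cast_val _ (h1 _)
  · exact cast_val _ (h2 _)
  · exact cast_val _ (h3 _)

lemma kap_per (r n : ℕ) : kap r (n + 8) = kap r n := by
  have h8 : ((n + 8 : ℕ) : ZMod 8) = (n : ZMod 8) := by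
    push_cast
    have : (8 : ZMod 8) = 0 := by decide
    rw [this, add_zero]
  have h4 : ((n + 8 : ℕ) : ZMod 4) = (n : ZMod 4) := by
    push_cast
    have : (8 : ZMod 4) = 0 := by decide
    rw [this, add_zero]
  unfold kap
  rw [h8, h4]

lemma kap_block (r a : ℕ) : ∑ i ∈ range 8, kap r (a + i) = 0 := by
  have h1 : ∀ x : ZMod 8, ZMod.χ₈' x + ZMod.χ₈' (x + 1) + ZMod.χ₈' (x + 2) + ZMod.χ₈' (x + 3) +
      ZMod.χ₈' (x + 4) + ZMod.χ₈' (x + 5) + ZMod.χ₈' (x + 6) + ZMod.χ₈' (x + 7) = 0 := by decide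
  have h2 : ∀ x : ZMod 8, ZMod.χ₈ x + ZMod.χ₈ (x + 1) + ZMod.χ₈ (x + 2) + ZMod.χ₈ (x + 3) +
      ZMod.χ₈ (x + 4) + ZMod.χ₈ (x + 5) + ZMod.χ₈ (x + 6) + ZMod.χ₈ (x + 7) = 0 := by decide
  have h3 : ∀ x : ZMod 4, ZMod.χ₄ x + ZMod.χ₄ (x + 1) + ZMod.χ₄ (x + 2) + ZMod.χ₄ (x + 3) +
      ZMod.χ₄ (x + 4) + ZMod.χ₄ (x + 5) + ZMod.χ₄ (x + 6) + ZMod.χ₄ (x + 7) = 0 := by decide
  simp only [sum_range_succ, sum_range_zero, zero_add, add_zero]
  unfold kap
  split_ifs
  · have h := h1 (a : ZMod 8)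
    push_cast
    exact_mod_cast h
  · have h := h2 (a : ZMod 8)
    push_cast
    exact_mod_cast h
  · have h := h3 (a : ZMod 4)
    push_cast
    exact_mod_cast h

lemma kap_cast8 (q : ℕ) : (q : ZMod 8) = ((q % 8 : ℕ) : ZMod 8) := by
  rw [ZMod.natCast_mod]

lemma kap_cast4 (q : ℕ) : (q : ZMod 4) = ((q % 4 : ℕ) : ZMod 4) := by
  rw [ZMod.natCast_mod]

lemma kap_ne (r q : ℕ) (hq : q % 2 = 1) : kap r q ≠ 0 := by
  have h8 : q % 8 = 1 ∨ q % 8 = 3 ∨ q % 8 = 5 ∨ q % 8 = 7 := by omega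
  have h4 : q % 4 = 1 ∨ q % 4 = 3 := by omega
  unfold kap
  rw [kap_cast8, kap_cast4]
  split_ifs
  · rcases h8 with h | h | h | h <;> rw [h] <;> (rw [Int.cast_ne_zero]; decide)
  · rcases h8 with h | h | h | h <;> rw [h] <;> (rw [Int.cast_ne_zero]; decide)
  · rcases h4 with h | h <;> rw [h] <;> (rw [Int.cast_ne_zero]; decide)

lemma kap_cond (r n q : ℕ) (hr : r % 4 ≠ 0) (hn : n % 8 = r) (hc : Cond n) (hq : q.Prime)
    (hq2 : q ≠ 2) (ho : Odd (n.factorization q)) : kap r q = 1 := by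
  obtain ⟨h1, h3, h7⟩ := hc q hq ho
  have hcast : ∀ x : ℤ, x = 1 → (x : ℝ) = 1 := by
    intro x hx
    rw [hx, Int.cast_one]
  unfold kap
  rw [kap_cast8, kap_cast4]
  split_ifs with e1 e2
  · refine hcast _ ?_
    rcases h3 (by omega) with h | h <;> rw [h] <;> decide
  · refine hcast _ ?_
    rcases h7 (by omega) with h | h <;> rw [h] <;> decide
  · refine hcast _ ?_
    rcases h1 (by omega) with h | h
    · exact absurd h hq2
    · rw [h]
      decide

end RCKa

open RCYa RCKa in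
theorem RCK_thm : Stmt_RCK := by
  refine ⟨kap, qc, fun p n => qc p n * x4 p n, ?_, ?_⟩
  · intro r _ hr
    refine ⟨⟨by norm_num, kap_one r, kap_mul r, kap_val r, kap_block r⟩,
      fun q hq hq2 => kap_ne r q (odd_of hq hq2),
      fun n hn hc q hq hq2 ho => kap_cond r n q hr hn hc hq hq2 ho, ?_⟩
    intro p hp hp2
    haveI : Fact p.Prime := ⟨hp⟩
    have hpos : 0 < p := hp.pos
    have hc8 : Nat.Coprime 8 p := by
      have h2 : Nat.Coprime 2 p := (Nat.coprime_primes Nat.prime_two hp).2 (Ne.symm hp2)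
      have h8 : (8 : ℕ) = 2 ^ 3 := by norm_num
      rw [h8]
      exact h2.pow_left 3
    refine ⟨by positivity, ?_, ?_, ?_, fun c => ?_⟩
    · show kap r 1 * qc p 1 = 1
      rw [kap_one, qc_one, one_mul]
    · intro a b
      show kap r (a * b) * qc p (a * b) = (kap r a * qc p a) * (kap r b * qc p b)
      rw [kap_mul, qc_mul]
      ring
    · intro a
      exact mul_val (kap_val r a) (qc_val p a)
    · have h := sum_prod p 8 hp2 hc8 (kap r) (kap_per r) c
      rw [mul_comm p 8] at h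
      rw [← h]
      refine Finset.sum_congr rfl fun i _ => ?_
      ring
  · intro p hp hp2
    haveI : Fact p.Prime := ⟨hp⟩
    have hpos : 0 < p := hp.pos
    have hpodd := odd_of hp hp2
    have hc4 : Nat.Coprime 4 p := by
      have h2 : Nat.Coprime 2 p := (Nat.coprime_primes Nat.prime_two hp).2 (Ne.symm hp2)
      have h4 : (4 : ℕ) = 2 ^ 2 := by norm_num
      rw [h4]
      exact h2.pow_left 2
    have hqne : ∀ q : ℕ, q.Prime → q ≠ p → qc p q ≠ 0 := by
      intro q hq hqp h0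
      rw [qc_eq] at h0
      have h1 : quadraticChar (ZMod p) (q : ZMod p) = 0 := by exact_mod_cast h0
      rw [quadraticChar_eq_zero_iff] at h1
      exact cast_ne hp hq hqp h1
    refine ⟨⟨by positivity, qc_one p, qc_mul p, qc_val p, fun c => ?_⟩, ⟨by positivity, ?_, ?_, ?_,
      fun c => ?_⟩, ?_, ?_, ?_⟩
    · refine sum_four (qc p) p c fun c => ?_
      have h := sum_prog p hp2 1 c (Nat.coprime_one_left p)
      simpa using h
    · show qc p 1 * x4 p 1 = 1
      rw [qc_one, x4_one, one_mul]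
    · intro a b
      show qc p (a * b) * x4 p (a * b) = (qc p a * x4 p a) * (qc p b * x4 p b)
      rw [qc_mul, x4_mul]
      ring
    · intro a
      exact mul_val (qc_val p a) (x4_val p a)
    · have h := sum_prod p 4 hp2 hc4 (x4 p) (x4_per p) c
      rw [mul_comm p 4] at h
      exact h
    · intro q hq hqp
      rw [qc_eq, ← quadraticChar_one_iff_isSquare (cast_ne hp hq hqp)]
      constructor
      · intro h
        rw [h]
        simp
      · intro h
        exact_mod_cast h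
    · intro q hq hq2 hqp
      haveI : Fact q.Prime := ⟨hq⟩
      have hqodd := odd_of hq hq2
      have h1 : ((p : ℤ) : ZMod q) ≠ 0 := by
        rw [Int.cast_natCast]
        exact cast_ne hq hp (Ne.symm hqp)
      have h2 := legendreSym.eq_one_iff q h1
      rw [Int.cast_natCast] at h2
      rw [← h2]
      have h3 : legendreSym q p = (-1) ^ (p / 2 * (q / 2)) * legendreSym p q :=
        legendreSym.quadratic_reciprocity' hp2 hq2
      have h4 : qc p q = ((legendreSym p q : ℤ) : ℝ) := by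
        unfold qc
        rw [← jacobiSym.legendreSym.to_jacobiSym]
      have h5 : x4 p q = (((-1) ^ (p / 2 * (q / 2)) : ℤ) : ℝ) := by
        unfold x4
        split_ifs with h6
        · rw [ZMod.χ₄_eq_neg_one_pow hqodd, pow_mul]
          have h7 : Odd (p / 2) := by
            rw [Nat.odd_iff]
            omega
          rw [h7.neg_one_pow]
        · have h7 : Even (p / 2) := by
            rw [Nat.even_iff]
            omega
          rw [pow_mul, h7.neg_one_pow, one_pow]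
          simp
      show legendreSym q p = 1 ↔ qc p q * x4 p q = 1
      rw [h4, h5, h3, mul_comm (((legendreSym p q : ℤ) : ℝ))]
      constructor
      · intro h
        exact_mod_cast h
      · intro h
        exact_mod_cast h
    · intro q hq hq2 hqp
      exact ⟨hqne q hq hqp, mul_ne_zero (hqne q hq hqp) (x4_ne p q (odd_of hq hq2))⟩

end Pool.Agent.ADG
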