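import Pool.Agent.ADG.St2
import Pool.Agent.ADS.EV5
import Pool.Agent.Lib_helper10.Erdos460.Mertens2

/-!
# ADG, module PSM: a double sum over primes
-/

set_option autoImplicit false

namespace Pool.Agent.ADG

open Finset

namespace PSMm

/-- the term -/
noncomputable def g (w : ℕ) : ℝ := 1 / (w * Real.log w)

theorem g_nonneg (w : ℕ) : 0 ≤ g w := by
  unfold g
  have : 0 ≤ Real.log w := Real.log_natCast_nonneg w
  positivity

theorem blk_bound (m : ℕ) (hm : 1 ≤ m) :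
    ∑ w ∈ Pool.Agent.ADS.EV5.blk m, g w ≤ 4 / (Real.log 2 * (m : ℝ) ^ 2) := by
  have hl2 : 0 < Real.log 2 := Real.log_pos (by norm_num)
  have hm0 : (0 : ℝ) < m := by exact_mod_cast hm
  have h2m : (0 : ℝ) < 2 ^ m := by positivity
  have h1 : ∀ w ∈ Pool.Agent.ADS.EV5.blk m, g w ≤ 1 / (2 ^ m * (m * Real.log 2) ^ 2) * Real.log w := by
    intro w hw
    unfold Pool.Agent.ADS.EV5.blk at hw
    rw [mem_filter, mem_Ioc] at hw
    obtain ⟨⟨hw1, hw2⟩, hw3⟩ := hw
    have hwr : (2 : ℝ) ^ m ≤ w := by exact_mod_cast hw1.le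
    have hw0 : (0 : ℝ) < w := lt_of_lt_of_le h2m hwr
    have hlog : m * Real.log 2 ≤ Real.log w := by
      rw [← Real.log_pow]
      exact Real.log_le_log h2m hwr
    have hml : 0 < m * Real.log 2 := by positivity
    have hlw : 0 < Real.log w := lt_of_lt_of_le hml hlog
    unfold g
    have e1 : 1 / ((w : ℝ) * Real.log w) = 1 / (w * Real.log w ^ 2) * Real.log w := by
      field_simp
    rw [e1]
    refine mul_le_mul_of_nonneg_right ?_ hlw.le
    refine one_div_le_one_div_of_le (by positivity) ?_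
    exact mul_le_mul hwr (pow_le_pow_left₀ hml.le hlog 2) (by positivity) hw0.le
  have h2 : ∑ w ∈ Pool.Agent.ADS.EV5.blk m, Real.log w ≤ Real.log 4 * 2 ^ (m + 1) := by
    have h := Pool.Agent.ADS.EV5.theta_bound (2 ^ (m + 1))
    push_cast at h
    refine le_trans ?_ h
    refine Finset.sum_le_sum_of_subset_of_nonneg ?_ ?_
    · intro w hw
      unfold Pool.Agent.ADS.EV5.blk at hw
      rw [mem_filter, mem_Ioc] at hw
      rw [mem_filter, mem_Icc]
      exact ⟨⟨hw.2.one_lt.le, hw.1.2⟩, hw.2⟩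
    · intro w hw _
      rw [mem_filter] at hw
      exact Real.log_nonneg (by exact_mod_cast hw.2.one_lt.le)
  calc ∑ w ∈ Pool.Agent.ADS.EV5.blk m, g w
      ≤ ∑ w ∈ Pool.Agent.ADS.EV5.blk m, 1 / (2 ^ m * (m * Real.log 2) ^ 2) * Real.log w :=
        Finset.sum_le_sum h1
    _ = 1 / (2 ^ m * (m * Real.log 2) ^ 2) * ∑ w ∈ Pool.Agent.ADS.EV5.blk m, Real.log w := by
        rw [Finset.mul_sum]
    _ ≤ 1 / (2 ^ m * (m * Real.log 2) ^ 2) * (Real.log 4 * 2 ^ (m + 1)) :=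
        mul_le_mul_of_nonneg_left h2 (by positivity)
    _ = 4 / (Real.log 2 * (m : ℝ) ^ 2) := by
        have e4 : Real.log 4 = 2 * Real.log 2 := by
          rw [show (4 : ℝ) = 2 ^ 2 by norm_num, Real.log_pow]
          norm_num
        rw [e4]
        field_simp
        ring

theorem pow_bound (m : ℕ) (hm : 1 ≤ m) :
    ∑ w ∈ (Icc 1 (2 ^ m)).filter Nat.Prime, g w ≤
      1 / (2 * Real.log 2) + 8 / Real.log 2 * (1 - 1 / m) := by
  have hl2 : 0 < Real.log 2 := Real.log_pos (by norm_num)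
  induction m, hm using Nat.le_induction with
  | base =>
    have h : (Icc 1 (2 ^ 1)).filter Nat.Prime = {2} := by decide
    rw [h, Finset.sum_singleton]
    unfold g
    norm_num
  | succ m hm ih =>
    have hm0 : (0 : ℝ) < m := by exact_mod_cast hm
    have hm1 : (1 : ℝ) ≤ m := by exact_mod_cast hm
    have hsplit : (Icc 1 (2 ^ (m + 1))).filter Nat.Prime =
        (Icc 1 (2 ^ m)).filter Nat.Prime ∪ Pool.Agent.ADS.EV5.blk m := by
      have h2 : 2 ^ m ≤ 2 ^ (m + 1) := Nat.pow_le_pow_right (by norm_num) (by omega)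
      ext w
      unfold Pool.Agent.ADS.EV5.blk
      simp only [mem_union, mem_filter, mem_Icc, mem_Ioc]
      constructor
      · rintro ⟨⟨h3, h4⟩, h5⟩
        rcases Nat.lt_or_ge (2 ^ m) w with h | h
        · exact Or.inr ⟨⟨h, h4⟩, h5⟩
        · exact Or.inl ⟨⟨h3, h⟩, h5⟩
      · rintro (⟨⟨h3, h4⟩, h5⟩ | ⟨⟨h3, h4⟩, h5⟩)
        · exact ⟨⟨h3, h4.trans h2⟩, h5⟩
        · exact ⟨⟨h5.one_lt.le, h4⟩, h5⟩
    have hU : ∑ w ∈ (Icc 1 (2 ^ (m + 1))).filter Nat.Prime, g w ≤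
        ∑ w ∈ (Icc 1 (2 ^ m)).filter Nat.Prime, g w +
          ∑ w ∈ Pool.Agent.ADS.EV5.blk m, g w := by
      rw [hsplit]
      have := Finset.sum_union_inter (s₁ := (Icc 1 (2 ^ m)).filter Nat.Prime)
        (s₂ := Pool.Agent.ADS.EV5.blk m) (f := g)
      have h0 : 0 ≤ ∑ w ∈ ((Icc 1 (2 ^ m)).filter Nat.Prime) ∩ Pool.Agent.ADS.EV5.blk m, g w :=
        Finset.sum_nonneg fun w _ => g_nonneg w
      linarith
    have hb := blk_bound m hm
    have key : 4 / (Real.log 2 * (m : ℝ) ^ 2) ≤ 8 / Real.log 2 * (1 / m - 1 / (m + 1)) := by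
      have e : (1 : ℝ) / m - 1 / (m + 1) = 1 / (m * (m + 1)) := by
        field_simp
        ring
      rw [e, div_mul_div_comm, mul_one, div_le_div_iff₀ (by positivity) (by positivity)]
      nlinarith [mul_pos hl2 hm0, mul_pos (mul_pos hl2 hm0) hm0]
    have e2 : ((m + 1 : ℕ) : ℝ) = m + 1 := by push_cast; ring
    rw [e2]
    have e3 : 8 / Real.log 2 * (1 - 1 / ((m : ℝ) + 1)) =
        8 / Real.log 2 * (1 - 1 / m) + 8 / Real.log 2 * (1 / m - 1 / (m + 1)) := by ring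
    rw [e3]
    linarith

/-- `Σ_(q ≤ z) 1/(q log q)` is bounded -/
theorem sumA (z : ℕ) : ∑ w ∈ (Icc 1 z).filter Nat.Prime, g w ≤ 9 / Real.log 2 := by
  have hl2 : 0 < Real.log 2 := Real.log_pos (by norm_num)
  have hz : z < 2 ^ (Nat.log 2 z + 1) := Nat.lt_pow_succ_log_self (by norm_num) z
  have h1 : ∑ w ∈ (Icc 1 z).filter Nat.Prime, g w ≤
      ∑ w ∈ (Icc 1 (2 ^ (Nat.log 2 z + 1))).filter Nat.Prime, g w := by
    refine Finset.sum_le_sum_of_subset_of_nonneg ?_ fun w _ _ => g_nonneg w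
    intro w hw
    rw [mem_filter, mem_Icc] at hw ⊢
    exact ⟨⟨hw.1.1, hw.1.2.trans hz.le⟩, hw.2⟩
  have h2 := pow_bound (Nat.log 2 z + 1) (by omega)
  have h3 : 0 ≤ 1 / ((Nat.log 2 z + 1 : ℕ) : ℝ) := by positivity
  have h4 : 8 / Real.log 2 * (1 - 1 / ((Nat.log 2 z + 1 : ℕ) : ℝ)) ≤ 8 / Real.log 2 := by
    have : 0 ≤ 8 / Real.log 2 := by positivity
    nlinarith
  have h5 : 1 / (2 * Real.log 2) ≤ 1 / Real.log 2 :=
    one_div_le_one_div_of_le hl2 (by linarith)
  have e : 9 / Real.log 2 = 1 / Real.log 2 + 8 / Real.log 2 := by ring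
  rw [e]
  linarith

theorem loglog16 (z : ℕ) (hz : 16 ≤ z) : 1 / 2 ≤ Real.log (Real.log z) := by
  have hl2 : (0.6931471803 : ℝ) < Real.log 2 := Real.log_two_gt_d9
  have h1 : Real.log 16 ≤ Real.log z := Real.log_le_log (by norm_num) (by exact_mod_cast hz)
  have h2 : Real.log 16 = 4 * Real.log 2 := by
    rw [show (16 : ℝ) = 2 ^ 4 by norm_num, Real.log_pow]
    norm_num
  have h3 : (2 : ℝ) ≤ Real.log z := by linarith
  have h4 : Real.log 2 ≤ Real.log (Real.log z) := Real.log_le_log (by norm_num) h3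
  linarith

/-- `Σ_(q ≤ z) 1/q = O(log log z)` -/
theorem sumB : ∃ C : ℝ, 0 < C ∧ ∀ z : ℕ, 16 ≤ z →
    ∑ p ∈ (Icc 1 z).filter Nat.Prime, (1 : ℝ) / p ≤ C * Real.log (Real.log z) := by
  obtain ⟨M, C, hC0, hM⟩ := Pool.Agent.Lib_helper10.Erdos460.mertens_second
  refine ⟨1 + 2 * (|M| + C), by positivity, fun z hz => ?_⟩
  have h1 := hM z (by omega)
  have h2 := loglog16 z hz
  have hlz : 1 ≤ Real.log z := by
    have hl2 : (0.6931471803 : ℝ) < Real.log 2 := Real.log_two_gt_d9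
    have h1 : Real.log 16 ≤ Real.log z := Real.log_le_log (by norm_num) (by exact_mod_cast hz)
    have h2 : Real.log 16 = 4 * Real.log 2 := by
      rw [show (16 : ℝ) = 2 ^ 4 by norm_num, Real.log_pow]
      norm_num
    linarith
  have h3 : C / Real.log z ≤ C := div_le_self hC0 hlz
  have h4 : (Icc 1 z).filter Nat.Prime = Nat.primesLE z := by
    ext p
    rw [mem_filter, mem_Icc, Nat.mem_primesLE]
    constructor
    · rintro ⟨⟨_, h⟩, hp⟩
      exact ⟨h, hp⟩
    · rintro ⟨h, hp⟩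
      exact ⟨⟨hp.one_lt.le, h⟩, hp⟩
  rw [h4]
  have h5 := (abs_le.1 h1).2
  have h6 : M ≤ |M| := le_abs_self M
  have h7 : 0 ≤ |M| := abs_nonneg M
  nlinarith

end PSMm

theorem PSM_thm : Stmt_PSM := by
  obtain ⟨C, hC0, hB⟩ := PSMm.sumB
  have hl2 : 0 < Real.log 2 := Real.log_pos (by norm_num)
  refine ⟨2 * (9 / Real.log 2) * C, by positivity, fun z hz => ?_⟩
  set S := (Icc 1 z).filter Nat.Prime with hS
  have hA := PSMm.sumA z
  have hB' := hB z hz
  have hAn : 0 ≤ ∑ w ∈ S, PSMm.g w := Finset.sum_nonneg fun w _ => PSMm.g_nonneg w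
  have hBn : 0 ≤ ∑ p ∈ S, (1 : ℝ) / p := Finset.sum_nonneg fun w _ => by positivity
  have hterm : ∀ l ∈ S, ∀ p ∈ S,
      (if l = p then (0 : ℝ) else 1 / (l * p * Real.log (min l p : ℕ))) ≤
        PSMm.g l * (1 / p) + (1 / l) * PSMm.g p := by
    intro l hl p hp
    rw [hS, mem_filter] at hl hp
    have hl0 : (0 : ℝ) < l := by exact_mod_cast hl.2.pos
    have hp0 : (0 : ℝ) < p := by exact_mod_cast hp.2.pos
    have hll : 0 < Real.log l := Real.log_pos (by exact_mod_cast hl.2.one_lt)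
    have hlp : 0 < Real.log p := Real.log_pos (by exact_mod_cast hp.2.one_lt)
    have h1 : 0 ≤ PSMm.g l * (1 / p) := mul_nonneg (PSMm.g_nonneg l) (by positivity)
    have h2 : 0 ≤ (1 / (l : ℝ)) * PSMm.g p := mul_nonneg (by positivity) (PSMm.g_nonneg p)
    have e1 : PSMm.g l * (1 / p) = 1 / (l * p * Real.log l) := by
      unfold PSMm.g
      field_simp
    have e2 : (1 / (l : ℝ)) * PSMm.g p = 1 / (l * p * Real.log p) := by
      unfold PSMm.g
      field_simp
    split_ifs with h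
    · linarith
    · rcases le_total l p with hle | hle
      · rw [min_eq_left hle]
        linarith
      · rw [min_eq_right hle]
        linarith
  calc ∑ l ∈ S, ∑ p ∈ S, (if l = p then (0 : ℝ) else 1 / (l * p * Real.log (min l p : ℕ)))
      ≤ ∑ l ∈ S, ∑ p ∈ S, (PSMm.g l * (1 / p) + (1 / l) * PSMm.g p) :=
        Finset.sum_le_sum fun l hl => Finset.sum_le_sum fun p hp => hterm l hl p hp
    _ = 2 * ((∑ w ∈ S, PSMm.g w) * ∑ p ∈ S, (1 : ℝ) / p) := by
        have h3 : ∀ l ∈ S, ∑ p ∈ S, (PSMm.g l * (1 / p) + (1 / l) * PSMm.g p) =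
            PSMm.g l * (∑ p ∈ S, (1 : ℝ) / p) + (1 / l) * ∑ p ∈ S, PSMm.g p := by
          intro l _
          rw [Finset.sum_add_distrib, Finset.mul_sum, Finset.mul_sum]
        rw [Finset.sum_congr rfl h3, Finset.sum_add_distrib, ← Finset.sum_mul, ← Finset.sum_mul]
        ring
    _ ≤ 2 * ((9 / Real.log 2) * (C * Real.log (Real.log z))) := by
        have h4 : (∑ w ∈ S, PSMm.g w) * ∑ p ∈ S, (1 : ℝ) / p ≤
            (9 / Real.log 2) * (C * Real.log (Real.log z)) :=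
          mul_le_mul hA hB' hBn (by positivity)
        linarith
    _ = 2 * (9 / Real.log 2) * C * Real.log (Real.log z) := by ring

end Pool.Agent.ADG
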