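import Pool.Agent.ADG.St5
import Pool.Agent.ADG.QSM
import Pool.Agent.ADG.PSM

/-!
# Module SM5 of project ADG, part 5 (MP_43d07b_co): the count

The proof follows the doc string of `Stmt_SM5`.
-/

set_option autoImplicit false

namespace Pool.Agent.ADG

namespace SM5m

open Finset

lemma exp_ge (s : ℝ) (hs : 400 ≤ s) : s ^ 10 ≤ Real.exp s := by
  have h1 : s / 20 ≤ Real.exp (s / 20) := by
    have := Real.add_one_le_exp (s / 20)
    linarith
  have h2 : Real.exp s = Real.exp (s / 20) ^ 20 := by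
    rw [← Real.exp_nat_mul]
    congr 1
    push_cast
    ring
  have h3 : s ≤ (s / 20) ^ 2 := by nlinarith
  calc s ^ 10 ≤ ((s / 20) ^ 2) ^ 10 := pow_le_pow_left₀ (by linarith) h3 10
    _ = (s / 20) ^ 20 := by ring
    _ ≤ Real.exp (s / 20) ^ 20 := pow_le_pow_left₀ (by linarith) h1 20
    _ = Real.exp s := h2.symm

/-- the choice of the parameters -/
lemma params (X : ℕ) (ℓ s : ℝ) (hℓ : ℓ = Real.log X) (hX : 1 ≤ X) (hs : 400 ≤ s)
    (hsl : s ^ 5 = ℓ) :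
    2 ≤ ⌊ℓ ^ 2⌋₊ ∧ ⌊ℓ ^ 2⌋₊ ≤ ⌊Real.exp s⌋₊ ∧ ⌊Real.exp s⌋₊ ^ 4 ≤ ⌊Real.exp (ℓ / 60)⌋₊ ∧
    ⌊ℓ ^ 2⌋₊ ≤ X ∧
    ℓ ^ 2 / 2 ≤ (⌊ℓ ^ 2⌋₊ : ℕ) ∧ ((⌊ℓ ^ 2⌋₊ : ℕ) : ℝ) ≤ ℓ ^ 2 ∧
    s / 2 ≤ Real.log (⌊Real.exp s⌋₊ : ℕ) ∧ Real.log (⌊Real.exp s⌋₊ : ℕ) ≤ s ∧
    ℓ / 120 ≤ Real.log (⌊Real.exp (ℓ / 60)⌋₊ : ℕ) ∧
    ((⌊Real.exp (ℓ / 60)⌋₊ : ℕ) : ℝ) ^ 12 ≤ Real.exp (ℓ / 5) ∧
    (((⌊Real.exp s⌋₊ ^ 4 : ℕ) : ℕ) : ℝ) ^ 2 ≤ Real.exp (ℓ / 2) ∧
    (Nat.sqrt X : ℝ) ≤ Real.exp (ℓ / 2) := by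
  have hXpos : (0 : ℝ) < (X : ℝ) := by exact_mod_cast hX
  have hXe : (X : ℝ) = Real.exp ℓ := by rw [hℓ, Real.exp_log hXpos]
  have hs0 : (0 : ℝ) < s := by linarith
  have h4 : (400 : ℝ) ^ 4 ≤ s ^ 4 := pow_le_pow_left₀ (by norm_num) hs 4
  have hℓs : (400 : ℝ) ^ 4 * s ≤ ℓ := by
    rw [← hsl]
    have : s ^ 5 = s ^ 4 * s := by ring
    rw [this]
    exact mul_le_mul_of_nonneg_right h4 hs0.le
  have hℓbig : (10 : ℝ) ^ 6 ≤ ℓ := by nlinarith
  have hℓ0 : (0 : ℝ) < ℓ := by linarith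
  have hl2 : (2 : ℝ) ≤ ℓ ^ 2 := by nlinarith
  have hf1 : ((⌊ℓ ^ 2⌋₊ : ℕ) : ℝ) ≤ ℓ ^ 2 := Nat.floor_le (by positivity)
  have hf2 : ℓ ^ 2 < (⌊ℓ ^ 2⌋₊ : ℕ) + 1 := Nat.lt_floor_add_one _
  have hV1 : ((⌊Real.exp s⌋₊ : ℕ) : ℝ) ≤ Real.exp s := Nat.floor_le (Real.exp_pos _).le
  have hV2 : Real.exp s < (⌊Real.exp s⌋₊ : ℕ) + 1 := Nat.lt_floor_add_one _
  have hz1 : ((⌊Real.exp (ℓ / 60)⌋₊ : ℕ) : ℝ) ≤ Real.exp (ℓ / 60) := Nat.floor_le (Real.exp_pos _).le
  have hz2 : Real.exp (ℓ / 60) < (⌊Real.exp (ℓ / 60)⌋₊ : ℕ) + 1 := Nat.lt_floor_add_one _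
  have hes := exp_ge s hs
  have hl2s : ℓ ^ 2 = s ^ 10 := by rw [← hsl]; ring
  have hhalf : ∀ a : ℝ, 4 ≤ a → ∀ n : ℕ, Real.exp a < (n : ℝ) + 1 → a / 2 ≤ Real.log n := by
    intro a ha n hn
    have e1 : Real.exp a = Real.exp (a / 2) * Real.exp (a / 2) := by
      rw [← Real.exp_add]; congr 1; ring
    have e2 : a / 2 + 1 ≤ Real.exp (a / 2) := Real.add_one_le_exp _
    have e3 : Real.exp (a / 2) ≤ n := by nlinarith
    calc a / 2 = Real.log (Real.exp (a / 2)) := by rw [Real.log_exp]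
      _ ≤ Real.log n := Real.log_le_log (Real.exp_pos _) e3
  have hVpow : ∀ k : ℕ, ((⌊Real.exp s⌋₊ : ℕ) : ℝ) ^ k ≤ Real.exp (k * s) := by
    intro k
    rw [Real.exp_nat_mul]
    exact pow_le_pow_left₀ (Nat.cast_nonneg _) hV1 k
  refine ⟨?_, ?_, ?_, ?_, ?_, hf1, ?_, ?_, ?_, ?_, ?_, ?_⟩
  · apply Nat.le_floor
    push_cast
    exact hl2
  · apply Nat.floor_le_floor
    rw [hl2s]
    exact hes
  · apply Nat.le_floor
    push_cast
    refine (hVpow 4).trans (Real.exp_le_exp.2 ?_)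
    push_cast
    linarith
  · have : ((⌊ℓ ^ 2⌋₊ : ℕ) : ℝ) ≤ (X : ℝ) := by
      rw [hXe]
      have h5 : Real.exp s ≤ Real.exp ℓ := Real.exp_le_exp.2 (by linarith)
      linarith
    exact_mod_cast this
  · linarith
  · exact hhalf s (by linarith) _ hV2
  · have hVpos : (0 : ℝ) < (⌊Real.exp s⌋₊ : ℕ) := by
      have : (1 : ℝ) ≤ s ^ 10 := one_le_pow₀ (by linarith)
      have h6 : (400 : ℝ) ≤ s ^ 10 := by
        calc (400 : ℝ) ≤ s := hs
          _ = s ^ 1 := by ring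
          _ ≤ s ^ 10 := pow_le_pow_right₀ (by linarith) (by norm_num)
      linarith
    calc Real.log (⌊Real.exp s⌋₊ : ℕ) ≤ Real.log (Real.exp s) := Real.log_le_log hVpos hV1
      _ = s := Real.log_exp s
  · have := hhalf (ℓ / 60) (by linarith) _ hz2
    linarith
  · calc ((⌊Real.exp (ℓ / 60)⌋₊ : ℕ) : ℝ) ^ 12 ≤ Real.exp (ℓ / 60) ^ 12 :=
        pow_le_pow_left₀ (Nat.cast_nonneg _) hz1 12
      _ = Real.exp (ℓ / 5) := by
        rw [← Real.exp_nat_mul]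
        congr 1
        push_cast
        ring
  · have e : (((⌊Real.exp s⌋₊ ^ 4 : ℕ) : ℕ) : ℝ) ^ 2 = ((⌊Real.exp s⌋₊ : ℕ) : ℝ) ^ 8 := by
      push_cast
      ring
    rw [e]
    refine (hVpow 8).trans (Real.exp_le_exp.2 ?_)
    push_cast
    linarith
  · have h7 : (Nat.sqrt X : ℝ) ^ 2 ≤ X := by exact_mod_cast Nat.sqrt_le' X
    have h8 : Real.exp (ℓ / 2) ^ 2 = X := by
      rw [hXe, ← Real.exp_nat_mul]
      congr 1
      push_cast
      ring
    have h9 : 0 < Real.exp (ℓ / 2) := Real.exp_pos _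
    nlinarith [Nat.cast_nonneg (α := ℝ) (Nat.sqrt X)]


/-- the primes up to `N` -/
noncomputable def PP (N : ℕ) : Finset ℕ := (Icc 1 N).filter Nat.Prime

lemma card_PP (N : ℕ) : ((PP N).card : ℝ) ≤ N := by
  have : (PP N).card ≤ N := by
    calc (PP N).card ≤ (Icc 1 N).card := card_filter_le _ _
      _ = N := by rw [Nat.card_Icc]; omega
  exact_mod_cast this

/-- the primes between `W` and `√X` -/
noncomputable def PC (X W : ℕ) : Finset ℕ :=
  (Ioc W (Nat.sqrt X)).filter (fun l => l.Prime ∧ l ≠ 2)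

lemma card_PC (X W : ℕ) : ((PC X W).card : ℝ) ≤ Nat.sqrt X := by
  have : (PC X W).card ≤ Nat.sqrt X := by
    calc (PC X W).card ≤ (Ioc W (Nat.sqrt X)).card := card_filter_le _ _
      _ ≤ Nat.sqrt X := by rw [Nat.card_Ioc]; omega
  exact_mod_cast this

open Classical in
/-- the sets `TA` -/
noncomputable def FA (X c d r l p : ℕ) : Finset ℕ :=
  if l ≠ 2 ∧ p ≠ 2 ∧ ¬ p ∣ c * d then TA X c d r l p else ∅

open Classical in
/-- the sets `TB` -/
noncomputable def FB (X W c d r l : ℕ) : Finset ℕ := if l ≠ 2 then TB X W c d r l else ∅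

/-- all sets for `(c, d, r)` -/
noncomputable def G (X W c d r : ℕ) : Finset ℕ :=
  (((PP W).biUnion fun l => (PP W).biUnion fun p => FA X c d r l p) ∪
    (PP W).biUnion fun l => FB X W c d r l) ∪
  (PC X W).biUnion fun l => TC X c d r l

/-- a sum with error -/
lemma one (P : Finset ℕ) (N : ℝ) (hP : (P.card : ℝ) ≤ N) (F : ℕ → Finset ℕ) (e : ℝ)
    (he : 0 ≤ e) (a : ℕ → ℝ) (h : ∀ l ∈ P, ((F l).card : ℝ) ≤ a l + e) :
    ((P.biUnion F).card : ℝ) ≤ ∑ l ∈ P, a l + N * e := by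
  calc ((P.biUnion F).card : ℝ) ≤ ∑ l ∈ P, ((F l).card : ℝ) := by exact_mod_cast card_biUnion_le
    _ ≤ ∑ l ∈ P, (a l + e) := sum_le_sum h
    _ = ∑ l ∈ P, a l + (P.card : ℝ) * e := by rw [sum_add_distrib, sum_const, nsmul_eq_mul]
    _ ≤ ∑ l ∈ P, a l + N * e := by
      have := mul_le_mul_of_nonneg_right hP he
      linarith

/-- the count for one triple `(c, d, r)` -/
lemma one_triple {CA CB CC : ℝ} (hCA : 0 < CA) (hCB : 0 < CB) (hCC : 0 < CC)
    {X z W T V c d r : ℕ} (hc : 1 ≤ c) (hd : 1 ≤ d) (hT : 2 ≤ T) (hTV : T ≤ V) (hW : W = V ^ 4)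
    (hWz : W ≤ z)
    (h2 : ∀ l p : ℕ, l.Prime → p.Prime → l ≠ 2 → p ≠ 2 → ¬ p ∣ c * d → l ≤ z → p ≤ z →
      ((TA X c d r l p).card : ℝ) ≤
        CA * X * ((c : ℝ) * d) ^ (1 / 2 : ℝ) * (Real.log (max l p : ℕ)) ^ (3 / 4 : ℝ) /
          ((c : ℝ) ^ 2 * d ^ 2 * (l * p * (Real.log z) ^ (5 / 4 : ℝ))) + (z : ℝ) ^ 12)
    (h3 : ∀ l : ℕ, l.Prime → l ≠ 2 → l ≤ W →
      ((TB X W c d r l).card : ℝ) ≤
        CB * X * ((c : ℝ) * d) ^ (1 / 2 : ℝ) /
          ((c : ℝ) ^ 2 * d ^ 2 * (l * (Real.log W) ^ (1 / 2 : ℝ) * Real.log z)) + (z : ℝ) ^ 12)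
    (h4 : ∀ l : ℕ, l.Prime → l ≠ 2 →
      ((TC X c d r l).card : ℝ) ≤
        CC * X * ((c : ℝ) * d) ^ (1 / 2 : ℝ) / ((c : ℝ) ^ 2 * d ^ 2 * (l * Real.log z)) +
          (z : ℝ) ^ 12 ∧
      (V < l → SS T V l ≤ 1 →
      ((TC X c d r l).card : ℝ) ≤
        CC * X * ((c : ℝ) * d) ^ (1 / 2 : ℝ) * (Real.log T) ^ (1 / 2 : ℝ) /
          ((c : ℝ) ^ 2 * d ^ 2 * (l * (Real.log V) ^ (1 / 2 : ℝ) * Real.log z)) + (z : ℝ) ^ 12))
    {S S2 : ℝ} (hS0 : 0 ≤ S)
    (hS : ∑ q ∈ PP W, (1 : ℝ) / q ≤ S) (hSC : ∑ q ∈ PC X W, (1 : ℝ) / q ≤ S)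
    (hS2 : ∑ l ∈ (Ioc (V ^ 4) (Nat.sqrt X)).filter (fun l => l.Prime ∧ 1 < SS T V l),
      (1 : ℝ) / l ≤ S2) :
    ((G X W c d r).card : ℝ) ≤
      (CA * ((Real.log W) ^ (3 / 4 : ℝ) / (Real.log z) ^ (5 / 4 : ℝ) * S ^ 2) +
        CB * (1 / ((Real.log W) ^ (1 / 2 : ℝ) * Real.log z) * S) +
        CC * ((Real.log T) ^ (1 / 2 : ℝ) / ((Real.log V) ^ (1 / 2 : ℝ) * Real.log z) * S +
          1 / Real.log z * S2)) * X * QSMm.wt c d +
      ((W : ℝ) ^ 2 + W + Nat.sqrt X) * (z : ℝ) ^ 12 := by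
  classical
  have hc0 : (0 : ℝ) < c := by exact_mod_cast hc
  have hd0 : (0 : ℝ) < d := by exact_mod_cast hd
  have hV2 : 2 ≤ V := hT.trans hTV
  have hVW : V < W := by
    rw [hW]
    calc V = V ^ 1 := (pow_one V).symm
      _ < V ^ 4 := Nat.pow_lt_pow_right (by omega) (by norm_num)
  have hlog : ∀ n : ℕ, 2 ≤ n → 0 < Real.log n := fun n hn =>
    Real.log_pos (by exact_mod_cast (by omega : 1 < n))
  have hlT := hlog T hT
  have hlV := hlog V hV2
  have hlW := hlog W (by omega)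
  have hlz := hlog z (by omega)
  have hX0 : (0 : ℝ) ≤ X := Nat.cast_nonneg X
  have hz0 : (0 : ℝ) ≤ (z : ℝ) ^ 12 := by positivity
  have hwn := QSMm.wt_nonneg c d
  set w : ℝ := ((c : ℝ) * d) ^ (1 / 2 : ℝ) with hw
  have hw0 : 0 < w := by rw [hw]; positivity
  have hwt : QSMm.wt c d = w / ((c : ℝ) ^ 2 * d ^ 2) := rfl
  set x1 : ℝ := (Real.log W) ^ (3 / 4 : ℝ) with hx1
  set x2 : ℝ := (Real.log z) ^ (5 / 4 : ℝ) with hx2
  set x3 : ℝ := (Real.log W) ^ (1 / 2 : ℝ) with hx3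
  set x4 : ℝ := (Real.log T) ^ (1 / 2 : ℝ) with hx4
  set x5 : ℝ := (Real.log V) ^ (1 / 2 : ℝ) with hx5
  have k1 : 0 < x1 := Real.rpow_pos_of_pos hlW _
  have k2 : 0 < x2 := Real.rpow_pos_of_pos hlz _
  have k3 : 0 < x3 := Real.rpow_pos_of_pos hlW _
  have k4 : 0 < x4 := Real.rpow_pos_of_pos hlT _
  have k5 : 0 < x5 := Real.rpow_pos_of_pos hlV _
  have hPP : ∀ l ∈ PP W, l.Prime ∧ l ≤ W := fun l hl => by
    unfold PP at hl
    rw [mem_filter, mem_Icc] at hl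
    exact ⟨hl.2, hl.1.2⟩
  -- A
  have bA : (((PP W).biUnion fun l => (PP W).biUnion fun p => FA X c d r l p).card : ℝ) ≤
      CA * (x1 / x2 * S ^ 2) * X * QSMm.wt c d + (W : ℝ) ^ 2 * (z : ℝ) ^ 12 := by
    have hb := QSMm.two (PP W) W (card_PP W) (FA X c d r) (CA * (x1 / x2) * X * QSMm.wt c d)
      ((z : ℝ) ^ 12) hz0 (fun l p => 1 / (l : ℝ) * (1 / p)) (by
      intro l hl p hp
      obtain ⟨hl1, hl2⟩ := hPP l hl
      obtain ⟨hp1, hp2⟩ := hPP p hp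
      have hl0 : (0 : ℝ) < l := by exact_mod_cast hl1.pos
      have hp0 : (0 : ℝ) < p := by exact_mod_cast hp1.pos
      unfold FA
      split_ifs with hif
      · refine (h2 l p hl1 hp1 hif.1 hif.2.1 hif.2.2 (hl2.trans hWz) (hp2.trans hWz)).trans ?_
        have hmax : max l p ≤ W := max_le hl2 hp2
        have hmax2 : 2 ≤ max l p := hl1.two_le.trans (le_max_left _ _)
        have hm1 : (Real.log (max l p : ℕ)) ^ (3 / 4 : ℝ) ≤ x1 := by
          apply Real.rpow_le_rpow (hlog _ hmax2).le _ (by norm_num)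
          exact Real.log_le_log (by exact_mod_cast (by omega : 0 < max l p))
            (by exact_mod_cast hmax)
        have e1 : CA * X * w * (Real.log (max l p : ℕ)) ^ (3 / 4 : ℝ) /
            ((c : ℝ) ^ 2 * d ^ 2 * (l * p * x2)) ≤
            CA * X * w * x1 / ((c : ℝ) ^ 2 * d ^ 2 * (l * p * x2)) := by
          apply div_le_div_of_nonneg_right _ (by positivity)
          exact mul_le_mul_of_nonneg_left hm1 (by positivity)
        have e2 : CA * X * w * x1 / ((c : ℝ) ^ 2 * d ^ 2 * (l * p * x2)) =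
            CA * (x1 / x2) * X * QSMm.wt c d * (1 / (l : ℝ) * (1 / p)) := by
          rw [hwt]
          field_simp
        linarith
      · rw [card_empty, Nat.cast_zero]
        positivity)
    have e1 : ∑ l ∈ PP W, ∑ p ∈ PP W, 1 / (l : ℝ) * (1 / p) =
        (∑ l ∈ PP W, 1 / (l : ℝ)) * ∑ p ∈ PP W, 1 / (p : ℝ) := by rw [Finset.sum_mul_sum]
    have e0 : 0 ≤ ∑ l ∈ PP W, 1 / (l : ℝ) := by positivity
    have e2 : (∑ l ∈ PP W, 1 / (l : ℝ)) * ∑ p ∈ PP W, 1 / (p : ℝ) ≤ S ^ 2 := by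
      rw [sq]
      exact mul_le_mul hS hS e0 hS0
    refine hb.trans ?_
    have e3 : CA * (x1 / x2) * X * QSMm.wt c d * (∑ l ∈ PP W, ∑ p ∈ PP W, 1 / (l : ℝ) * (1 / p)) ≤
        CA * (x1 / x2) * X * QSMm.wt c d * S ^ 2 := by
      rw [e1]
      exact mul_le_mul_of_nonneg_left e2 (by positivity)
    have e4 : CA * (x1 / x2 * S ^ 2) * X * QSMm.wt c d =
        CA * (x1 / x2) * X * QSMm.wt c d * S ^ 2 := by ring
    linarith
  -- B
  have bB : (((PP W).biUnion fun l => FB X W c d r l).card : ℝ) ≤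
      CB * (1 / (x3 * Real.log z) * S) * X * QSMm.wt c d + W * (z : ℝ) ^ 12 := by
    have hb := one (PP W) W (card_PP W) (FB X W c d r) ((z : ℝ) ^ 12) hz0
      (fun l => CB * (1 / (x3 * Real.log z)) * X * QSMm.wt c d * (1 / (l : ℝ))) (by
      intro l hl
      obtain ⟨hl1, hl2⟩ := hPP l hl
      have hl0 : (0 : ℝ) < l := by exact_mod_cast hl1.pos
      unfold FB
      split_ifs with hif
      · refine (h3 l hl1 hif hl2).trans (le_of_eq ?_)
        rw [hwt]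
        field_simp
      · rw [card_empty, Nat.cast_zero]
        positivity)
    rw [← mul_sum] at hb
    refine hb.trans ?_
    have e3 : CB * (1 / (x3 * Real.log z)) * X * QSMm.wt c d * (∑ l ∈ PP W, 1 / (l : ℝ)) ≤
        CB * (1 / (x3 * Real.log z)) * X * QSMm.wt c d * S :=
      mul_le_mul_of_nonneg_left hS (by positivity)
    have e4 : CB * (1 / (x3 * Real.log z) * S) * X * QSMm.wt c d =
        CB * (1 / (x3 * Real.log z)) * X * QSMm.wt c d * S := by ring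
    linarith
  -- C
  have bC : (((PC X W).biUnion fun l => TC X c d r l).card : ℝ) ≤
      CC * (x4 / (x5 * Real.log z) * S + 1 / Real.log z * S2) * X * QSMm.wt c d +
        Nat.sqrt X * (z : ℝ) ^ 12 := by
    have hb := one (PC X W) (Nat.sqrt X) (card_PC X W) (TC X c d r) ((z : ℝ) ^ 12) hz0
      (fun l => CC * (x4 / (x5 * Real.log z)) * X * QSMm.wt c d * (1 / (l : ℝ)) +
        if 1 < SS T V l then CC * (1 / Real.log z) * X * QSMm.wt c d * (1 / (l : ℝ)) else 0) (by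
      intro l hl
      unfold PC at hl
      rw [mem_filter, mem_Ioc] at hl
      obtain ⟨⟨hl3, hl4⟩, hl1, hl2⟩ := hl
      have hl0 : (0 : ℝ) < l := by exact_mod_cast hl1.pos
      split_ifs with hif
      · refine ((h4 l hl1 hl2).1).trans ?_
        have e1 : CC * X * w / ((c : ℝ) ^ 2 * d ^ 2 * (l * Real.log z)) =
            CC * (1 / Real.log z) * X * QSMm.wt c d * (1 / (l : ℝ)) := by
          rw [hwt]
          field_simp
        rw [e1]
        have e2 : 0 ≤ CC * (x4 / (x5 * Real.log z)) * X * QSMm.wt c d * (1 / (l : ℝ)) := by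
          positivity
        linarith
      · refine ((h4 l hl1 hl2).2 (by omega) (not_lt.1 hif)).trans (le_of_eq ?_)
        rw [hwt, add_zero]
        field_simp)
    refine hb.trans ?_
    rw [sum_add_distrib, ← mul_sum]
    have e5 : ∑ l ∈ PC X W,
        (if 1 < SS T V l then CC * (1 / Real.log z) * X * QSMm.wt c d * (1 / (l : ℝ)) else 0) ≤
        CC * (1 / Real.log z) * X * QSMm.wt c d * S2 := by
      rw [← sum_filter, ← mul_sum]
      apply mul_le_mul_of_nonneg_left _ (by positivity)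
      refine le_trans (sum_le_sum_of_subset_of_nonneg ?_ ?_) hS2
      · intro l hl
        unfold PC at hl
        rw [mem_filter, mem_filter, mem_Ioc] at hl
        rw [mem_filter, mem_Ioc, ← hW]
        exact ⟨hl.1.1, hl.1.2.1, hl.2⟩
      · intro l _ _
        positivity
    have e3 : CC * (x4 / (x5 * Real.log z)) * X * QSMm.wt c d * (∑ l ∈ PC X W, 1 / (l : ℝ)) ≤
        CC * (x4 / (x5 * Real.log z)) * X * QSMm.wt c d * S :=
      mul_le_mul_of_nonneg_left hSC (by positivity)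
    have e4 : CC * (x4 / (x5 * Real.log z) * S + 1 / Real.log z * S2) * X * QSMm.wt c d =
        CC * (x4 / (x5 * Real.log z)) * X * QSMm.wt c d * S +
        CC * (1 / Real.log z) * X * QSMm.wt c d * S2 := by ring
    linarith
  have hcard : ((G X W c d r).card : ℝ) ≤
      ((PP W).biUnion fun l => (PP W).biUnion fun p => FA X c d r l p).card +
      ((PP W).biUnion fun l => FB X W c d r l).card +
      ((PC X W).biUnion fun l => TC X c d r l).card := by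
    have t : (G X W c d r).card ≤
      ((PP W).biUnion fun l => (PP W).biUnion fun p => FA X c d r l p).card +
      ((PP W).biUnion fun l => FB X W c d r l).card +
      ((PC X W).biUnion fun l => TC X c d r l).card := by
      unfold G
      exact (card_union_le _ _).trans (add_le_add (card_union_le _ _) le_rfl)
    exact_mod_cast t
  refine hcard.trans ((add_le_add (add_le_add bA bB) bC).trans (le_of_eq ?_))
  ring


lemma loglog (ℓ : ℝ) (hℓ : 1 ≤ ℓ) :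
    Real.log ℓ ^ 2 * ℓ ^ (-(11 / 10) : ℝ) ≤ 14400 * ℓ ^ (-(13 / 12) : ℝ) := by
  have h0 : (0 : ℝ) < ℓ := by linarith
  have h1 : Real.log ℓ ≤ 120 * ℓ ^ (1 / 120 : ℝ) := by
    have := Real.log_le_rpow_div h0.le (show (0 : ℝ) < 1 / 120 by norm_num)
    linarith
  have h2 : 0 ≤ Real.log ℓ := Real.log_nonneg hℓ
  have h3 : (ℓ ^ (1 / 120 : ℝ)) ^ 2 = ℓ ^ (1 / 60 : ℝ) := by
    rw [← Real.rpow_natCast, ← Real.rpow_mul h0.le]
    norm_num
  have h4 : Real.log ℓ ^ 2 ≤ 14400 * ℓ ^ (1 / 60 : ℝ) := by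
    calc Real.log ℓ ^ 2 ≤ (120 * ℓ ^ (1 / 120 : ℝ)) ^ 2 := pow_le_pow_left₀ h2 h1 2
      _ = 14400 * (ℓ ^ (1 / 120 : ℝ)) ^ 2 := by ring
      _ = _ := by rw [h3]
  have h5 : ℓ ^ (1 / 60 : ℝ) * ℓ ^ (-(11 / 10) : ℝ) = ℓ ^ (-(13 / 12) : ℝ) := by
    rw [← Real.rpow_add h0]
    norm_num
  calc Real.log ℓ ^ 2 * ℓ ^ (-(11 / 10) : ℝ) ≤
      14400 * ℓ ^ (1 / 60 : ℝ) * ℓ ^ (-(11 / 10) : ℝ) :=
        mul_le_mul_of_nonneg_right h4 (Real.rpow_nonneg h0.le _)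
    _ = 14400 * (ℓ ^ (1 / 60 : ℝ) * ℓ ^ (-(11 / 10) : ℝ)) := by ring
    _ = _ := by rw [h5]

lemma delta (ℓ : ℝ) (hℓ : 1 ≤ ℓ) : 1 / ℓ ^ 2 ≤ ℓ ^ (-(13 / 12) : ℝ) := by
  have h0 : (0 : ℝ) < ℓ := by linarith
  have e : 1 / ℓ ^ 2 = ℓ ^ (-2 : ℝ) := by
    rw [Real.rpow_neg h0.le, one_div]
    norm_num
  rw [e]
  exact Real.rpow_le_rpow_of_exponent_le hℓ (by norm_num)

/-- the numbers -/
lemma nums (ℓ s lV lW lz lT : ℝ) (hs : 400 ≤ s) (hsl : s ^ 5 = ℓ) (hV1 : s / 2 ≤ lV)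
    (hV2 : lV ≤ s) (hW : lW = 4 * lV) (hz : ℓ / 120 ≤ lz) (hT0 : 0 ≤ lT)
    (hT : lT ≤ 2 * Real.log ℓ) :
    lW ^ (3 / 4 : ℝ) / lz ^ (5 / 4 : ℝ) ≤ 57600 * ℓ ^ (-(11 / 10) : ℝ) ∧
    1 / (lW ^ (1 / 2 : ℝ) * lz) ≤ 120 * ℓ ^ (-(11 / 10) : ℝ) ∧
    lT ^ (1 / 2 : ℝ) / (lV ^ (1 / 2 : ℝ) * lz) ≤ 480 * Real.log ℓ * ℓ ^ (-(11 / 10) : ℝ) ∧
    1 ≤ Real.log ℓ ∧ 10 ^ 6 ≤ ℓ := by
  have hs0 : (0 : ℝ) < s := by linarith
  have h4 : (400 : ℝ) ^ 4 ≤ s ^ 4 := pow_le_pow_left₀ (by norm_num) hs 4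
  have hℓs : (400 : ℝ) ^ 4 * s ≤ ℓ := by
    rw [← hsl]
    have : s ^ 5 = s ^ 4 * s := by ring
    rw [this]
    exact mul_le_mul_of_nonneg_right h4 hs0.le
  have hℓbig : (10 : ℝ) ^ 6 ≤ ℓ := by nlinarith
  have hℓ0 : (0 : ℝ) < ℓ := by linarith
  have hu : 1 ≤ Real.log ℓ := by
    rw [Real.le_log_iff_exp_le hℓ0]
    have := Real.exp_one_lt_d9
    linarith
  have hlz : 0 < lz := by
    have : 0 < ℓ / 120 := by positivity
    linarith
  have hsq : ∀ a b : ℝ, 5 * b = a → s ^ a = ℓ ^ b := by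
    intro a b hab
    rw [← hsl, ← Real.rpow_natCast, ← Real.rpow_mul hs0.le]
    congr 1
    push_cast
    linarith
  have q1 : lW ^ (3 / 4 : ℝ) ≤ 4 * ℓ ^ (3 / 20 : ℝ) := by
    calc lW ^ (3 / 4 : ℝ) ≤ (4 * s) ^ (3 / 4 : ℝ) :=
          Real.rpow_le_rpow (by linarith) (by linarith) (by norm_num)
      _ = 4 ^ (3 / 4 : ℝ) * s ^ (3 / 4 : ℝ) := Real.mul_rpow (by norm_num) hs0.le
      _ ≤ 4 * s ^ (3 / 4 : ℝ) := by
          apply mul_le_mul_of_nonneg_right _ (Real.rpow_nonneg hs0.le _)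
          calc (4 : ℝ) ^ (3 / 4 : ℝ) ≤ 4 ^ (1 : ℝ) :=
                Real.rpow_le_rpow_of_exponent_le (by norm_num) (by norm_num)
            _ = 4 := Real.rpow_one 4
      _ = _ := by rw [hsq (3 / 4) (3 / 20) (by norm_num)]
  have q2 : ℓ ^ (5 / 4 : ℝ) / 14400 ≤ lz ^ (5 / 4 : ℝ) := by
    calc ℓ ^ (5 / 4 : ℝ) / 14400 ≤ ℓ ^ (5 / 4 : ℝ) / 120 ^ (5 / 4 : ℝ) := by
          apply div_le_div_of_nonneg_left (Real.rpow_nonneg hℓ0.le _)
            (Real.rpow_pos_of_pos (by norm_num) _)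
          calc (120 : ℝ) ^ (5 / 4 : ℝ) ≤ 120 ^ (2 : ℝ) :=
                Real.rpow_le_rpow_of_exponent_le (by norm_num) (by norm_num)
            _ = 14400 := by norm_num
      _ = (ℓ / 120) ^ (5 / 4 : ℝ) := (Real.div_rpow hℓ0.le (by norm_num) _).symm
      _ ≤ _ := Real.rpow_le_rpow (by positivity) hz (by norm_num)
  have q3 : ℓ ^ (1 / 10 : ℝ) ≤ lW ^ (1 / 2 : ℝ) := by
    rw [← hsq (1 / 2) (1 / 10) (by norm_num)]
    exact Real.rpow_le_rpow hs0.le (by linarith) (by norm_num)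
  have q4 : ℓ ^ (1 / 10 : ℝ) / 2 ≤ lV ^ (1 / 2 : ℝ) := by
    rw [← hsq (1 / 2) (1 / 10) (by norm_num)]
    calc s ^ (1 / 2 : ℝ) / 2 ≤ s ^ (1 / 2 : ℝ) / 2 ^ (1 / 2 : ℝ) := by
          apply div_le_div_of_nonneg_left (Real.rpow_nonneg hs0.le _)
            (Real.rpow_pos_of_pos (by norm_num) _)
          calc (2 : ℝ) ^ (1 / 2 : ℝ) ≤ 2 ^ (1 : ℝ) :=
                Real.rpow_le_rpow_of_exponent_le (by norm_num) (by norm_num)
            _ = 2 := Real.rpow_one 2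
      _ = (s / 2) ^ (1 / 2 : ℝ) := (Real.div_rpow hs0.le (by norm_num) _).symm
      _ ≤ _ := Real.rpow_le_rpow (by positivity) hV1 (by norm_num)
  have q5 : lT ^ (1 / 2 : ℝ) ≤ 2 * Real.log ℓ := by
    calc lT ^ (1 / 2 : ℝ) ≤ (2 * Real.log ℓ) ^ (1 / 2 : ℝ) :=
          Real.rpow_le_rpow hT0 hT (by norm_num)
      _ ≤ (2 * Real.log ℓ) ^ (1 : ℝ) :=
          Real.rpow_le_rpow_of_exponent_le (by linarith) (by norm_num)
      _ = _ := Real.rpow_one _
  have hp1 : 0 < ℓ ^ (3 / 20 : ℝ) := Real.rpow_pos_of_pos hℓ0 _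
  have hp2 : 0 < ℓ ^ (5 / 4 : ℝ) := Real.rpow_pos_of_pos hℓ0 _
  have hp3 : 0 < ℓ ^ (1 / 10 : ℝ) := Real.rpow_pos_of_pos hℓ0 _
  have hp4 : 0 < ℓ ^ (-(11 / 10) : ℝ) := Real.rpow_pos_of_pos hℓ0 _
  have e1 : ℓ ^ (3 / 20 : ℝ) = ℓ ^ (5 / 4 : ℝ) * ℓ ^ (-(11 / 10) : ℝ) := by
    rw [← Real.rpow_add hℓ0]
    norm_num
  have e2 : ℓ ^ (1 / 10 : ℝ) * ℓ * ℓ ^ (-(11 / 10) : ℝ) = 1 := by
    have : ℓ ^ (1 / 10 : ℝ) * ℓ = ℓ ^ (11 / 10 : ℝ) := by
      nth_rewrite 2 [← Real.rpow_one ℓ]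
      rw [← Real.rpow_add hℓ0]
      norm_num
    rw [this, ← Real.rpow_add hℓ0]
    norm_num
  refine ⟨?_, ?_, ?_, hu, hℓbig⟩
  · calc lW ^ (3 / 4 : ℝ) / lz ^ (5 / 4 : ℝ) ≤
        (4 * ℓ ^ (3 / 20 : ℝ)) / (ℓ ^ (5 / 4 : ℝ) / 14400) :=
          div_le_div₀ (by positivity) q1 (by positivity) q2
      _ = _ := by
        rw [e1]
        field_simp
        norm_num
  · rw [div_le_iff₀ (by
      have : 0 < lW ^ (1 / 2 : ℝ) := lt_of_lt_of_le hp3 q3
      positivity)]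
    have h5 : ℓ ^ (1 / 10 : ℝ) * (ℓ / 120) ≤ lW ^ (1 / 2 : ℝ) * lz :=
      mul_le_mul q3 hz (by positivity) (le_trans hp3.le q3)
    calc (1 : ℝ) = 120 * ℓ ^ (-(11 / 10) : ℝ) * (ℓ ^ (1 / 10 : ℝ) * (ℓ / 120)) := by
          linarith
      _ ≤ _ := mul_le_mul_of_nonneg_left h5 (by positivity)
  · rw [div_le_iff₀ (by
      have : 0 < lV ^ (1 / 2 : ℝ) := lt_of_lt_of_le (by positivity) q4
      positivity)]
    have h5 : (ℓ ^ (1 / 10 : ℝ) / 2) * (ℓ / 120) ≤ lV ^ (1 / 2 : ℝ) * lz :=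
      mul_le_mul q4 hz (by positivity) (le_trans (by positivity) q4)
    calc lT ^ (1 / 2 : ℝ) ≤ 2 * Real.log ℓ := q5
      _ = 480 * Real.log ℓ * ℓ ^ (-(11 / 10) : ℝ) * ((ℓ ^ (1 / 10 : ℝ) / 2) * (ℓ / 120)) := by
          have : 480 * Real.log ℓ * ℓ ^ (-(11 / 10) : ℝ) * ((ℓ ^ (1 / 10 : ℝ) / 2) * (ℓ / 120)) =
            2 * Real.log ℓ * (ℓ ^ (1 / 10 : ℝ) * ℓ * ℓ ^ (-(11 / 10) : ℝ)) := by ring
          rw [this, e2, mul_one]
      _ ≤ _ := mul_le_mul_of_nonneg_left h5 (by positivity)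

lemma aux1 (L ℓ T : ℝ) (h1 : L ≤ ℓ) (h2 : 1 ≤ ℓ) (h3 : ℓ ^ 2 / 2 ≤ T) :
    (1 + L) * ℓ ≤ 4 * T := by nlinarith

lemma aux2 (ℓ T V : ℝ) (h1 : 2 ≤ ℓ) (h2 : ℓ ^ 2 / 2 ≤ T) (h3 : T ≤ V) : ℓ ≤ V ^ 2 := by
  have h4 : ℓ ≤ V := by nlinarith
  nlinarith

lemma aux3 (u η : ℝ) (hu : 1 ≤ u) (hη : 0 ≤ η) : u * η ≤ u ^ 2 * η := by
  apply mul_le_mul_of_nonneg_right _ hη
  nlinarith

lemma aux4 (w : ℝ) (h : 1 ≤ w) : w ≤ w ^ 2 := by nlinarith

open Classical in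
/-- the cover -/
lemma cover (h : Stmt_PT5) (X W L : ℕ) :
    (Icc 2 X).filter (fun n => n % 4 ≠ 0 ∧ QRC n ∧ Cond n ∧ ¬ Form5 n) ⊆
    ((((Ioc L X).biUnion fun c => (Icc 2 X).filter (fun n => c ^ 2 ∣ n)) ∪
      ((Ioc L X).biUnion fun d => (Icc 2 X).filter (fun n => d ^ 2 ∣ n - 1))) ∪
      ((Icc 1 L).image (fun c => c ^ 2) ∪ (Icc 1 L).image (fun c => 2 * c ^ 2))) ∪
    (Icc 1 L).biUnion fun c => (Icc 1 L).biUnion fun d =>
      ((range 8).filter (fun r => r % 4 ≠ 0)).biUnion fun r => G X W c d r := by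
  classical
  intro n hn
  rw [mem_filter, mem_Icc] at hn
  obtain ⟨⟨hn2, hnX⟩, hn4, hq, hcond, hform⟩ := hn
  obtain ⟨c, d, hc, hd, hcn, hdn, hcase⟩ := h X W L n hn2 hnX hn4 hq hcond hform
  have hle : ∀ a m : ℕ, 1 ≤ m → a ^ 2 ∣ m → a ≤ m := by
    intro a m hm ha
    have h1 := Nat.le_of_dvd (by omega) ha
    nlinarith
  rcases hcase with h1 | h1 | ⟨hcL, hdL, h1⟩
  · refine mem_union_left _ (mem_union_left _ (mem_union_left _ (mem_biUnion.2 ⟨c, ?_, ?_⟩)))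
    · exact mem_Ioc.2 ⟨h1, (hle c n (by omega) hcn).trans hnX⟩
    · exact mem_filter.2 ⟨mem_Icc.2 ⟨hn2, hnX⟩, hcn⟩
  · refine mem_union_left _ (mem_union_left _ (mem_union_right _ (mem_biUnion.2 ⟨d, ?_, ?_⟩)))
    · refine mem_Ioc.2 ⟨h1, ?_⟩
      have := hle d (n - 1) (by omega) hdn
      omega
    · exact mem_filter.2 ⟨mem_Icc.2 ⟨hn2, hnX⟩, hdn⟩
  · rcases h1 with h1 | h1 | h1
    · exact mem_union_left _ (mem_union_right _ (mem_union_left _
        (mem_image.2 ⟨c, mem_Icc.2 ⟨hc, hcL⟩, h1.symm⟩)))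
    · exact mem_union_left _ (mem_union_right _ (mem_union_right _
        (mem_image.2 ⟨c, mem_Icc.2 ⟨hc, hcL⟩, h1.symm⟩)))
    · refine mem_union_right _ (mem_biUnion.2 ⟨c, mem_Icc.2 ⟨hc, hcL⟩,
        mem_biUnion.2 ⟨d, mem_Icc.2 ⟨hd, hdL⟩, mem_biUnion.2 ⟨n % 8, ?_, ?_⟩⟩⟩)
      · rw [mem_filter, mem_range]
        exact ⟨by omega, by omega⟩
      · unfold G
        rcases h1 with ⟨l, p, hl, hp, hl2, hp2, hpcd, hlW, hpW, h1⟩ | ⟨l, hl, hl2, hlW, h1⟩ |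
          ⟨l, hl, hl2, hlW, hlX, h1⟩
        · refine mem_union_left _ (mem_union_left _ (mem_biUnion.2 ⟨l, ?_,
            mem_biUnion.2 ⟨p, ?_, ?_⟩⟩))
          · exact mem_filter.2 ⟨mem_Icc.2 ⟨hl.one_lt.le, hlW⟩, hl⟩
          · exact mem_filter.2 ⟨mem_Icc.2 ⟨hp.one_lt.le, hpW⟩, hp⟩
          · rw [FA, if_pos ⟨hl2, hp2, hpcd⟩]
            exact h1
        · refine mem_union_left _ (mem_union_right _ (mem_biUnion.2 ⟨l, ?_, ?_⟩))
          · exact mem_filter.2 ⟨mem_Icc.2 ⟨hl.one_lt.le, hlW⟩, hl⟩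
          · rw [FB, if_pos hl2]
            exact h1
        · refine mem_union_right _ (mem_biUnion.2 ⟨l, ?_, h1⟩)
          refine mem_filter.2 ⟨mem_Ioc.2 ⟨hlW, ?_⟩, hl, hl2⟩
          rw [Nat.le_sqrt']
          exact hlX

end SM5m

open Finset SM5m in
/-- (SM5) -/
theorem SM5_thm (h1 : Stmt_PT5) (h2 : Stmt_TAC) (h3 : Stmt_TBC) (h4 : Stmt_TCC)
    (h5 : Stmt_SMO) : Stmt_SM5 := by
  classical
  obtain ⟨CA, hCA, h2⟩ := h2
  obtain ⟨CB, hCB, h3⟩ := h3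
  obtain ⟨CC, hCC, h4⟩ := h4
  obtain ⟨CS, hCS, h5⟩ := h5
  obtain ⟨CM, hCM, hM⟩ := PSMm.sumB
  set K : ℝ := CA * (57600 * 14400 * CM ^ 2) + CB * (120 * 14400 * CM) +
    CC * (480 * 14400 * CM + 600 * CS) with hK
  have hK0 : 0 < K := by positivity
  set C0 : ℝ := ((400 : ℝ) ^ 5) ^ (13 / 12 : ℝ) with hC0
  have hC00 : 0 < C0 := Real.rpow_pos_of_pos (by positivity) _
  set C : ℝ := C0 + 72 * K + 24 * 10 ^ 6 + 52 with hC
  refine ⟨C, by positivity, ?_⟩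
  intro X hX
  have hX1 : (1 : ℝ) < (X : ℝ) := by exact_mod_cast (by omega : 1 < X)
  have hXpos : (0 : ℝ) < (X : ℝ) := by linarith
  set ℓ : ℝ := Real.log X with hℓ
  have hℓpos : 0 < ℓ := Real.log_pos hX1
  set δ : ℝ := ℓ ^ (-(13 / 12) : ℝ) with hδ
  have hδ0 : 0 < δ := Real.rpow_pos_of_pos hℓpos _
  have hgoal : C * X / ℓ ^ (13 / 12 : ℝ) = C * (X * δ) := by
    rw [hδ, Real.rpow_neg hℓpos.le]
    ring
  rw [hgoal]
  by_cases hcase : (400 : ℝ) ^ 5 ≤ ℓ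
  · set s : ℝ := ℓ ^ (1 / 5 : ℝ) with hs
    have hs5 : s ^ 5 = ℓ := by
      rw [hs, ← Real.rpow_natCast, ← Real.rpow_mul hℓpos.le]
      norm_num
    have hs0 : 0 ≤ s := Real.rpow_nonneg hℓpos.le _
    have hs400 : 400 ≤ s := by
      rw [← hs5] at hcase
      exact (pow_le_pow_iff_left₀ (by norm_num) hs0 (by norm_num)).1 hcase
    obtain ⟨p1, p2, p3, p4, p5, p6, p7, p8, p9, p10, p11, p12⟩ :=
      params X ℓ s hℓ (by omega) hs400 hs5
    set T := ⌊ℓ ^ 2⌋₊ with hT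
    set V := ⌊Real.exp s⌋₊ with hV
    set z := ⌊Real.exp (ℓ / 60)⌋₊ with hz
    set W := V ^ 4 with hW
    have hTpos : (0 : ℝ) < T := by exact_mod_cast (by omega : 0 < T)
    have hVpos : (0 : ℝ) < V := by exact_mod_cast (by omega : 0 < V)
    have hlW : Real.log W = 4 * Real.log V := by
      rw [hW]
      push_cast
      rw [Real.log_pow]
      norm_num
    have hlT0 : 0 ≤ Real.log T := Real.log_natCast_nonneg T
    have hlT : Real.log T ≤ 2 * Real.log ℓ := by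
      calc Real.log T ≤ Real.log (ℓ ^ 2) := Real.log_le_log hTpos p6
        _ = 2 * Real.log ℓ := by rw [Real.log_pow]; norm_num
    obtain ⟨n1, n2, n3, n4, n5⟩ := nums ℓ s (Real.log V) (Real.log W) (Real.log z) (Real.log T)
      hs400 hs5 p7 p8 hlW p9 hlT0 hlT
    have hℓ1 : 1 ≤ ℓ := by linarith
    have m1 := loglog ℓ hℓ1
    have m2 := delta ℓ hℓ1
    rw [← hδ] at m1 m2
    set η : ℝ := ℓ ^ (-(11 / 10) : ℝ) with hη
    have hη0 : 0 < η := Real.rpow_pos_of_pos hℓpos _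
    set u : ℝ := Real.log ℓ with hu
    have hlz : 0 < Real.log z := by
      have : 0 < ℓ / 120 := by positivity
      linarith
    have hXe : (X : ℝ) = Real.exp ℓ := by rw [hℓ, Real.exp_log hXpos]
    -- sums over primes
    have hX16 : 16 ≤ X := by
      have : (16 : ℝ) ≤ X := by
        rw [hXe]
        have := Real.add_one_le_exp ℓ
        linarith
      exact_mod_cast this
    have hzX : z ≤ X := by
      have h6 : (z : ℝ) ≤ Real.exp (ℓ / 60) := Nat.floor_le (Real.exp_pos _).le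
      have h7 : Real.exp (ℓ / 60) ≤ Real.exp ℓ := Real.exp_le_exp.2 (by linarith)
      have : (z : ℝ) ≤ X := by rw [hXe]; linarith
      exact_mod_cast this
    have hSX := hM X hX16
    rw [← hℓ, ← hu] at hSX
    have hSW : ∑ q ∈ PP W, (1 : ℝ) / q ≤ CM * u := by
      refine le_trans (sum_le_sum_of_subset_of_nonneg ?_ ?_) hSX
      · intro q hq
        unfold PP at hq
        rw [mem_filter, mem_Icc] at hq ⊢
        exact ⟨⟨hq.1.1, hq.1.2.trans (p3.trans hzX)⟩, hq.2⟩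
      · intro q _ _
        positivity
    have hSC : ∑ q ∈ PC X W, (1 : ℝ) / q ≤ CM * u := by
      refine le_trans (sum_le_sum_of_subset_of_nonneg ?_ ?_) hSX
      · intro q hq
        unfold PC at hq
        rw [mem_filter, mem_Ioc] at hq
        rw [mem_filter, mem_Icc]
        exact ⟨⟨hq.2.1.one_lt.le, hq.1.2.trans (Nat.sqrt_le_self X)⟩, hq.2.1⟩
      · intro q _ _
        positivity
    have hsq1 : 1 ≤ Nat.sqrt X := by
      rw [Nat.le_sqrt']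
      omega
    have hS2 := h5 T V (Nat.sqrt X) p1 p2 hsq1
    have hS2' : CS * ((1 + Real.log (Nat.sqrt X : ℕ)) / T + 1 / (V : ℝ) ^ 2) ≤ CS * (5 / ℓ) := by
      apply mul_le_mul_of_nonneg_left _ hCS.le
      have e1 : Real.log (Nat.sqrt X : ℕ) ≤ ℓ := by
        rw [hℓ]
        exact Real.log_le_log (by exact_mod_cast hsq1) (by exact_mod_cast Nat.sqrt_le_self X)
      have e2 : (1 + Real.log (Nat.sqrt X : ℕ)) / T ≤ 4 / ℓ := by
        rw [div_le_div_iff₀ hTpos hℓpos]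
        exact aux1 _ _ _ e1 hℓ1 p5
      have e3 : 1 / (V : ℝ) ^ 2 ≤ 1 / ℓ := by
        apply one_div_le_one_div_of_le hℓpos
        have e4 : (T : ℝ) ≤ V := by exact_mod_cast p2
        exact aux2 ℓ T V (by linarith) p5 e4
      have e6 : 5 / ℓ = 4 / ℓ + 1 / ℓ := by ring
      rw [e6]
      linarith
    have r1 : CA * ((Real.log W) ^ (3 / 4 : ℝ) / (Real.log z) ^ (5 / 4 : ℝ) * (CM * u) ^ 2) ≤
        CA * (57600 * 14400 * CM ^ 2) * δ := by
      rw [mul_assoc]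
      apply mul_le_mul_of_nonneg_left _ hCA.le
      calc (Real.log W) ^ (3 / 4 : ℝ) / (Real.log z) ^ (5 / 4 : ℝ) * (CM * u) ^ 2
          ≤ (57600 * η) * (CM * u) ^ 2 := mul_le_mul_of_nonneg_right n1 (by positivity)
        _ = 57600 * CM ^ 2 * (u ^ 2 * η) := by ring
        _ ≤ 57600 * CM ^ 2 * (14400 * δ) := mul_le_mul_of_nonneg_left m1 (by positivity)
        _ = _ := by ring
    have huη : u * η ≤ u ^ 2 * η := aux3 u η n4 hη0.le
    have r2 : CB * (1 / ((Real.log W) ^ (1 / 2 : ℝ) * Real.log z) * (CM * u)) ≤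
        CB * (120 * 14400 * CM) * δ := by
      rw [mul_assoc]
      apply mul_le_mul_of_nonneg_left _ hCB.le
      calc 1 / ((Real.log W) ^ (1 / 2 : ℝ) * Real.log z) * (CM * u)
          ≤ (120 * η) * (CM * u) := mul_le_mul_of_nonneg_right n2 (by positivity)
        _ = 120 * CM * (u * η) := by ring
        _ ≤ 120 * CM * (14400 * δ) :=
          mul_le_mul_of_nonneg_left (huη.trans m1) (by positivity)
        _ = _ := by ring
    have r3 : CC * ((Real.log T) ^ (1 / 2 : ℝ) / ((Real.log V) ^ (1 / 2 : ℝ) * Real.log z) *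
        (CM * u) + 1 / Real.log z * (CS * (5 / ℓ))) ≤
        CC * (480 * 14400 * CM + 600 * CS) * δ := by
      rw [mul_assoc]
      apply mul_le_mul_of_nonneg_left _ hCC.le
      have t1 : (Real.log T) ^ (1 / 2 : ℝ) / ((Real.log V) ^ (1 / 2 : ℝ) * Real.log z) *
          (CM * u) ≤ 480 * 14400 * CM * δ := by
        calc _ ≤ (480 * u * η) * (CM * u) := mul_le_mul_of_nonneg_right n3 (by positivity)
          _ = 480 * CM * (u ^ 2 * η) := by ring
          _ ≤ 480 * CM * (14400 * δ) := mul_le_mul_of_nonneg_left m1 (by positivity)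
          _ = _ := by ring
      have t2 : 1 / Real.log z * (CS * (5 / ℓ)) ≤ 600 * CS * δ := by
        have t3 : 1 / Real.log z ≤ 120 / ℓ := by
          rw [div_le_div_iff₀ hlz hℓpos]
          linarith
        calc 1 / Real.log z * (CS * (5 / ℓ)) ≤ 120 / ℓ * (CS * (5 / ℓ)) :=
              mul_le_mul_of_nonneg_right t3 (by positivity)
          _ = 600 * CS * (1 / ℓ ^ 2) := by
              field_simp
              norm_num
          _ ≤ _ := mul_le_mul_of_nonneg_left m2 (by positivity)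
      calc _ ≤ 480 * 14400 * CM * δ + 600 * CS * δ := add_le_add t1 t2
        _ = _ := by ring
    set E : ℝ := ((W : ℝ) ^ 2 + W + Nat.sqrt X) * (z : ℝ) ^ 12 with hE
    have hE0 : 0 ≤ E := by positivity
    have htrip : ∀ c : ℕ, 1 ≤ c → ∀ d : ℕ, 1 ≤ d → ∀ r ∈ (range 8).filter (fun r => r % 4 ≠ 0),
        ((SM5m.G X W c d r).card : ℝ) ≤ K * δ * X * QSMm.wt c d + E := by
      intro c hc d hd r hr
      rw [mem_filter, mem_range] at hr
      have hb := one_triple hCA hCB hCC (X := X) (z := z) (W := W) (T := T) (V := V) (c := c)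
        (d := d) (r := r) hc hd p1 p2 hW p3
        (fun l p => h2 X z c d r l p hc hd hr.1 hr.2)
        (fun l hl hl2 hlW => h3 X z W c d r l hc hd hr.1 hr.2 hl hl2 hlW p3)
        (fun l hl hl2 => by
          have h6 := h4 X z c d r l hc hd hr.1 hr.2 hl hl2 (by
            have : 2 ≤ T := p1
            have h7 : V ≤ W := Nat.le_self_pow (by norm_num) V
            omega)
          refine ⟨h6.1, fun hVl hSS => h6.2 T V p1 p2 ?_ hVl hSS⟩
          have h7 : V ≤ W := Nat.le_self_pow (by norm_num) V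
          omega)
        (S := CM * u) (S2 := CS * (5 / ℓ)) (by positivity) hSW hSC (hS2.trans hS2')
      refine hb.trans ?_
      rw [← hE]
      have hsum : CA * ((Real.log W) ^ (3 / 4 : ℝ) / (Real.log z) ^ (5 / 4 : ℝ) * (CM * u) ^ 2) +
          CB * (1 / ((Real.log W) ^ (1 / 2 : ℝ) * Real.log z) * (CM * u)) +
          CC * ((Real.log T) ^ (1 / 2 : ℝ) / ((Real.log V) ^ (1 / 2 : ℝ) * Real.log z) *
          (CM * u) + 1 / Real.log z * (CS * (5 / ℓ))) ≤ K * δ := by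
        calc _ ≤ CA * (57600 * 14400 * CM ^ 2) * δ + CB * (120 * 14400 * CM) * δ +
              CC * (480 * 14400 * CM + 600 * CS) * δ := add_le_add (add_le_add r1 r2) r3
          _ = _ := by rw [hK]; ring
      have hwn := QSMm.wt_nonneg c d
      have := mul_le_mul_of_nonneg_right (mul_le_mul_of_nonneg_right hsum hXpos.le) hwn
      linarith
    have hpair : ∀ c ∈ Icc 1 T, ∀ d ∈ Icc 1 T,
        ((((range 8).filter (fun r => r % 4 ≠ 0)).biUnion fun r => SM5m.G X W c d r).card : ℝ) ≤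
        8 * K * δ * X * QSMm.wt c d + 8 * E := by
      intro c hc d hd
      rw [mem_Icc] at hc hd
      have hcard8 : ((((range 8).filter (fun r => r % 4 ≠ 0)).card : ℕ) : ℝ) ≤ 8 := by
        have : ((range 8).filter (fun r => r % 4 ≠ 0)).card ≤ 8 := by decide
        exact_mod_cast this
      have hwn := QSMm.wt_nonneg c d
      have hb := one ((range 8).filter (fun r => r % 4 ≠ 0)) 8 hcard8 (SM5m.G X W c d) E hE0
        (fun _ => K * δ * X * QSMm.wt c d) (fun r hr => htrip c hc.1 d hd.1 r hr)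
      rw [sum_const, nsmul_eq_mul] at hb
      have h8 : ((((range 8).filter (fun r => r % 4 ≠ 0)).card : ℕ) : ℝ) *
          (K * δ * X * QSMm.wt c d) ≤ 8 * (K * δ * X * QSMm.wt c d) :=
        mul_le_mul_of_nonneg_right hcard8 (by positivity)
      linarith
    have hI : ((Icc 1 T).card : ℝ) ≤ T := by
      rw [Nat.card_Icc]
      simp
    have hU := QSMm.two (Icc 1 T) T hI
      (fun c d => ((range 8).filter (fun r => r % 4 ≠ 0)).biUnion fun r => SM5m.G X W c d r)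
      (8 * K * δ * X) (8 * E) (by positivity) QSMm.wt hpair
    have hWt : 8 * K * δ * X * (∑ c ∈ Icc 1 T, ∑ d ∈ Icc 1 T, QSMm.wt c d) ≤
        72 * K * (X * δ) := by
      have e1 := mul_le_mul_of_nonneg_left (QSMm.sum_wt T)
        (show 0 ≤ 8 * K * δ * X by positivity)
      linarith
    -- the error
    have hEb : (T : ℝ) ^ 2 * (8 * E) ≤ 24 * 10 ^ 6 * (X * δ) := by
      have hW1 : (W : ℝ) ≤ (W : ℝ) ^ 2 := by
        have : (1 : ℝ) ≤ W := by
          have : 1 ≤ W := Nat.one_le_pow _ _ (by omega)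
          exact_mod_cast this
        exact aux4 _ this
      have e1 : E ≤ 3 * (Real.exp (ℓ / 2) * Real.exp (ℓ / 5)) := by
        have e2 : (W : ℝ) ^ 2 + W + Nat.sqrt X ≤ 3 * Real.exp (ℓ / 2) := by linarith
        calc E ≤ (3 * Real.exp (ℓ / 2)) * Real.exp (ℓ / 5) :=
              mul_le_mul e2 p10 (by positivity) (by positivity)
          _ = _ := by ring
      have e3 : (T : ℝ) ^ 2 ≤ ℓ ^ 4 := by
        calc (T : ℝ) ^ 2 ≤ (ℓ ^ 2) ^ 2 := pow_le_pow_left₀ hTpos.le p6 2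
          _ = ℓ ^ 4 := by ring
      have e4 : ℓ ^ 6 ≤ 10 ^ 6 * Real.exp (3 * ℓ / 10) := by
        have h := Real.pow_div_factorial_le_exp (3 * ℓ / 10) (by positivity) 6
        have hf : ((Nat.factorial 6 : ℕ) : ℝ) = 720 := by norm_num [Nat.factorial]
        rw [hf] at h
        have h6 : ℓ ^ 6 ≤ 10 ^ 6 * ((3 * ℓ / 10) ^ 6 / 720) := by
          have e : 10 ^ 6 * ((3 * ℓ / 10) ^ 6 / 720) = ℓ ^ 6 * (729 / 720) := by ring
          rw [e]
          have : 0 < ℓ ^ 6 := by positivity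
          nlinarith
        linarith
      have e5 : Real.exp (ℓ / 2) * Real.exp (ℓ / 5) * Real.exp (3 * ℓ / 10) = X := by
        rw [hXe, ← Real.exp_add, ← Real.exp_add]
        congr 1
        ring
      have e6 : 0 < Real.exp (ℓ / 2) * Real.exp (ℓ / 5) := by positivity
      calc (T : ℝ) ^ 2 * (8 * E) ≤
          ℓ ^ 4 * (8 * (3 * (Real.exp (ℓ / 2) * Real.exp (ℓ / 5)))) :=
            mul_le_mul e3 (by linarith) (by positivity) (by positivity)
        _ = 24 * (Real.exp (ℓ / 2) * Real.exp (ℓ / 5)) * (ℓ ^ 6 * (1 / ℓ ^ 2)) := by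
            field_simp
            norm_num
        _ ≤ 24 * (Real.exp (ℓ / 2) * Real.exp (ℓ / 5)) *
            (10 ^ 6 * Real.exp (3 * ℓ / 10) * δ) := by
            apply mul_le_mul_of_nonneg_left _ (by positivity)
            exact mul_le_mul e4 m2 (by positivity) (by positivity)
        _ = 24 * 10 ^ 6 * ((Real.exp (ℓ / 2) * Real.exp (ℓ / 5) * Real.exp (3 * ℓ / 10)) * δ) := by
            ring
        _ = _ := by rw [e5]
    -- the multiples of squares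
    have hA1 : ((((Ioc T X).biUnion fun c => (Icc 2 X).filter (fun n => c ^ 2 ∣ n))).card : ℝ) ≤
        X / T := by
      refine le_trans ?_ (QSMm.tail X T (by omega) p4)
      calc ((((Ioc T X).biUnion fun c => (Icc 2 X).filter (fun n => c ^ 2 ∣ n))).card : ℝ)
          ≤ ∑ c ∈ Ioc T X, (((Icc 2 X).filter (fun n => c ^ 2 ∣ n)).card : ℝ) := by
            exact_mod_cast card_biUnion_le
        _ ≤ _ := sum_le_sum fun c _ => QSMm.card_mult X c
    have hA2 : ((((Ioc T X).biUnion fun d => (Icc 2 X).filter (fun n => d ^ 2 ∣ n - 1))).card : ℝ) ≤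
        X / T := by
      refine le_trans ?_ (QSMm.tail X T (by omega) p4)
      calc ((((Ioc T X).biUnion fun d => (Icc 2 X).filter (fun n => d ^ 2 ∣ n - 1))).card : ℝ)
          ≤ ∑ d ∈ Ioc T X, (((Icc 2 X).filter (fun n => d ^ 2 ∣ n - 1)).card : ℝ) := by
            exact_mod_cast card_biUnion_le
        _ ≤ _ := sum_le_sum fun d _ => QSMm.card_mult' X d
    have hXT : (X : ℝ) / T ≤ 2 * (X * δ) := by
      calc (X : ℝ) / T ≤ X / (ℓ ^ 2 / 2) :=
            div_le_div_of_nonneg_left hXpos.le (by positivity) p5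
        _ = 2 * (X * (1 / ℓ ^ 2)) := by field_simp
        _ ≤ 2 * (X * δ) := by
            have := mul_le_mul_of_nonneg_left m2 hXpos.le
            linarith
    have hT48 : 2 * (T : ℝ) ≤ 48 * (X * δ) := by
      have e4 : ℓ ^ 4 ≤ 24 * X := by
        have h := Real.pow_div_factorial_le_exp ℓ hℓpos.le 4
        have hf : ((Nat.factorial 4 : ℕ) : ℝ) = 24 := by norm_num [Nat.factorial]
        rw [hf, ← hXe] at h
        linarith
      calc 2 * (T : ℝ) ≤ 2 * ℓ ^ 2 := by linarith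
        _ = 2 * (ℓ ^ 4 * (1 / ℓ ^ 2)) := by field_simp
        _ ≤ 2 * (24 * X * δ) := by
            have := mul_le_mul e4 m2 (by positivity) (by positivity)
            linarith
        _ = _ := by ring
    have hB1 : ((((Icc 1 T).image (fun c => c ^ 2)).card : ℕ) : ℝ) ≤ T := by
      have : ((Icc 1 T).image (fun c => c ^ 2)).card ≤ T := by
        refine card_image_le.trans ?_
        rw [Nat.card_Icc]
        omega
      exact_mod_cast this
    have hB2 : ((((Icc 1 T).image (fun c => 2 * c ^ 2)).card : ℕ) : ℝ) ≤ T := by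
      have : ((Icc 1 T).image (fun c => 2 * c ^ 2)).card ≤ T := by
        refine card_image_le.trans ?_
        rw [Nat.card_Icc]
        omega
      exact_mod_cast this
    have hcov := SM5m.cover h1 X W T
    have hcard : ((((Icc 2 X).filter
        (fun n => n % 4 ≠ 0 ∧ QRC n ∧ Cond n ∧ ¬ Form5 n))).card : ℝ) ≤
        (((Ioc T X).biUnion fun c => (Icc 2 X).filter (fun n => c ^ 2 ∣ n)).card : ℝ) +
        ((Ioc T X).biUnion fun d => (Icc 2 X).filter (fun n => d ^ 2 ∣ n - 1)).card +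
        (((Icc 1 T).image (fun c => c ^ 2)).card + ((Icc 1 T).image (fun c => 2 * c ^ 2)).card) +
        ((Icc 1 T).biUnion fun c => (Icc 1 T).biUnion fun d =>
          ((range 8).filter (fun r => r % 4 ≠ 0)).biUnion fun r => SM5m.G X W c d r).card := by
      have t := (card_le_card hcov).trans ((card_union_le _ _).trans
        (add_le_add ((card_union_le _ _).trans
          (add_le_add (card_union_le _ _) (card_union_le _ _))) le_rfl))
      exact_mod_cast t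
    have hfin : C * ((X : ℝ) * δ) = C0 * (X * δ) + 72 * K * (X * δ) +
        24 * 10 ^ 6 * (X * δ) + 52 * (X * δ) := by
      rw [hC]; ring
    have hpos : 0 ≤ C0 * ((X : ℝ) * δ) := by positivity
    rw [hfin]
    have hU' : ((((Icc 1 T).biUnion fun c => (Icc 1 T).biUnion fun d =>
        ((range 8).filter (fun r => r % 4 ≠ 0)).biUnion fun r => SM5m.G X W c d r)).card : ℝ) ≤
      8 * K * δ * X * (∑ c ∈ Icc 1 T, ∑ d ∈ Icc 1 T, QSMm.wt c d) +
        (T : ℝ) ^ 2 * (8 * E) := hU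
    linarith
  · rw [not_le] at hcase
    have hc : (((Icc 2 X).filter
        (fun n => n % 4 ≠ 0 ∧ QRC n ∧ Cond n ∧ ¬ Form5 n)).card : ℝ) ≤ X := by
      have : ((Icc 2 X).filter
          (fun n => n % 4 ≠ 0 ∧ QRC n ∧ Cond n ∧ ¬ Form5 n)).card ≤ X := by
        calc ((Icc 2 X).filter
            (fun n => n % 4 ≠ 0 ∧ QRC n ∧ Cond n ∧ ¬ Form5 n)).card ≤ (Icc 2 X).card :=
              card_filter_le _ _
          _ ≤ X := by rw [Nat.card_Icc]; omega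
      exact_mod_cast this
    refine hc.trans ?_
    have e0 : ℓ ^ (13 / 12 : ℝ) * δ = 1 := by
      rw [hδ, ← Real.rpow_add hℓpos]
      norm_num
    have e1 : ℓ ^ (13 / 12 : ℝ) ≤ C0 := Real.rpow_le_rpow hℓpos.le hcase.le (by norm_num)
    calc (X : ℝ) = ℓ ^ (13 / 12 : ℝ) * (X * δ) := by
          have : ℓ ^ (13 / 12 : ℝ) * (X * δ) = X * (ℓ ^ (13 / 12 : ℝ) * δ) := by ring
          rw [this, e0, mul_one]
      _ ≤ C * (X * δ) := by
          apply mul_le_mul_of_nonneg_right _ (by positivity)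
          rw [hC]
          linarith

end Pool.Agent.ADG
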