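import Pool.Agent.ADG.St5

/-!
# Project ADG part 5, module SMO (helper54): the second moment of `Σ (l/q)/q`
-/

set_option autoImplicit false

namespace Pool.Agent.ADG

open Finset Pool.Agent.ADS

namespace SMOm

lemma abs_le_one {m : ℕ} {χ : ℕ → ℝ} (h : RC m χ) (n : ℕ) : |χ n| ≤ 1 := by
  rcases h.val n with h1 | h1 | h1 <;> rw [h1] <;> simp

/-- sums over consecutive integers -/
lemma psum_le {m : ℕ} {χ : ℕ → ℝ} (h : RC m χ) (a : ℕ) :
    ∀ N : ℕ, |∑ i ∈ range N, χ (a + i)| ≤ m := by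
  intro N
  induction N using Nat.strong_induction_on with
  | _ N ih =>
    by_cases hN : N < m
    · calc |∑ i ∈ range N, χ (a + i)| ≤ ∑ i ∈ range N, |χ (a + i)| :=
            Finset.abs_sum_le_sum_abs _ _
        _ ≤ ∑ _i ∈ range N, (1 : ℝ) := Finset.sum_le_sum fun i _ => abs_le_one h _
        _ = N := by simp
        _ ≤ m := by exact_mod_cast hN.le
    · push Not at hN
      obtain ⟨M, rfl⟩ := Nat.exists_eq_add_of_le' hN
      have hm0 : 0 < m := h.pos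
      rw [Finset.sum_range_add]
      have hb := h.block (a + M)
      simp_rw [add_assoc] at hb
      rw [hb, add_zero]
      exact ih M (by omega)

/-- Abel summation -/
lemma abel (f w : ℕ → ℝ) (m : ℝ) (hw : Antitone w) (hw0 : ∀ n, 0 ≤ w n)
    (hf : ∀ n, |∑ i ∈ range n, f i| ≤ m) (n : ℕ) : |∑ i ∈ range n, f i * w i| ≤ m * w 0 := by
  have key : ∀ n, |∑ i ∈ range n, f i * w i - (∑ i ∈ range n, f i) * w n| ≤ m * (w 0 - w n) := by
    intro n
    induction n with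
    | zero => simp
    | succ n ih =>
      have e : ∑ i ∈ range (n + 1), f i * w i - (∑ i ∈ range (n + 1), f i) * w (n + 1) =
          (∑ i ∈ range n, f i * w i - (∑ i ∈ range n, f i) * w n) +
            (∑ i ∈ range (n + 1), f i) * (w n - w (n + 1)) := by
        rw [sum_range_succ, sum_range_succ]; ring
      rw [e]
      have h1 : 0 ≤ w n - w (n + 1) := sub_nonneg.2 (hw (Nat.le_succ n))
      calc _ ≤ |∑ i ∈ range n, f i * w i - (∑ i ∈ range n, f i) * w n| +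
            |(∑ i ∈ range (n + 1), f i) * (w n - w (n + 1))| := abs_add_le _ _
        _ ≤ m * (w 0 - w n) + m * (w n - w (n + 1)) := by
            apply add_le_add ih
            rw [abs_mul, abs_of_nonneg h1]
            exact mul_le_mul_of_nonneg_right (hf _) h1
        _ = m * (w 0 - w (n + 1)) := by ring
  have h1 := key n
  have h2 : |(∑ i ∈ range n, f i) * w n| ≤ m * w n := by
    rw [abs_mul, abs_of_nonneg (hw0 n)]
    exact mul_le_mul_of_nonneg_right (hf _) (hw0 n)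
  calc |∑ i ∈ range n, f i * w i|
      = |(∑ i ∈ range n, f i * w i - (∑ i ∈ range n, f i) * w n) + (∑ i ∈ range n, f i) * w n| := by
        congr 1; ring
    _ ≤ |∑ i ∈ range n, f i * w i - (∑ i ∈ range n, f i) * w n| + |(∑ i ∈ range n, f i) * w n| :=
        abs_add_le _ _
    _ ≤ m * (w 0 - w n) + m * w n := add_le_add h1 h2
    _ = m * w 0 := by ring

/-- weighted sums of a character -/
lemma tail_le {m : ℕ} {f : ℕ → ℝ} (h : RC m f) (A Y : ℕ) :
    ∑ k ∈ Ioc A Y, f k / k ≤ m / ((A : ℝ) + 1) := by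
  have e : Ioc A Y = Ico (A + 1) (Y + 1) := by
    ext i; simp only [mem_Ioc, mem_Ico]; omega
  rw [e, sum_Ico_eq_sum_range]
  have hw : Antitone (fun i : ℕ => (1 : ℝ) / ((A + 1 + i : ℕ) : ℝ)) := by
    intro i j hij
    apply one_div_le_one_div_of_le
    · positivity
    · exact_mod_cast (by omega)
  have h1 := abel (fun i => f (A + 1 + i)) (fun i : ℕ => (1 : ℝ) / ((A + 1 + i : ℕ) : ℝ)) m hw
    (fun n => by positivity) (fun n => psum_le h (A + 1) n) (Y + 1 - (A + 1))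
  have h2 := (le_abs_self _).trans h1
  have e2 : (m : ℝ) * ((1 : ℝ) / ((A + 1 + 0 : ℕ) : ℝ)) = m / ((A : ℝ) + 1) := by
    push_cast; rw [add_zero]; ring
  rw [e2] at h2
  refine le_trans (le_of_eq ?_) h2
  apply sum_congr rfl
  intro i _
  ring

/-- the harmonic sum -/
lemma harm_le (A Y : ℕ) : ∑ k ∈ Ioc A Y, (1 : ℝ) / k ≤ 1 + Real.log Y := by
  have h1 := harmonic_le_one_add_log Y
  rw [harmonic_eq_sum_Icc] at h1
  push_cast at h1
  refine le_trans ?_ h1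
  have hs : Ioc A Y ⊆ Icc 1 Y := by
    intro i; simp only [mem_Ioc, mem_Icc]; omega
  calc ∑ k ∈ Ioc A Y, (1 : ℝ) / k ≤ ∑ k ∈ Icc 1 Y, (1 : ℝ) / k :=
        sum_le_sum_of_subset_of_nonneg hs (fun _ _ _ => by positivity)
    _ = ∑ k ∈ Icc 1 Y, ((k : ℝ))⁻¹ := by simp only [one_div]

end SMOm

open Classical in
theorem SMO_thm (h : Stmt_RCY) : Stmt_SMO := by
  obtain ⟨χ, ψ, hcp⟩ := h
  refine ⟨4, by norm_num, ?_⟩
  intro T V Y hT hTV hY
  set Q := (Ioc T V).filter Nat.Prime with hQ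
  have hQm : ∀ q ∈ Q, q.Prime ∧ q ≠ 2 ∧ T < q ∧ q ≤ V := by
    intro q hq
    rw [hQ, mem_filter, mem_Ioc] at hq
    exact ⟨hq.2, by omega, hq.1.1, hq.1.2⟩
  have hV4 : V ≤ V ^ 4 := by
    calc V = V ^ 1 := (pow_one V).symm
      _ ≤ V ^ 4 := Nat.pow_le_pow_right (by omega) (by norm_num)
  have hVpos : (0 : ℝ) < V := by exact_mod_cast (by omega : 0 < V)
  have hTpos : (0 : ℝ) < T := by exact_mod_cast (by omega : 0 < T)
  have hlog : 0 ≤ 1 + Real.log Y := by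
    have := Real.log_nonneg (by exact_mod_cast hY : (1 : ℝ) ≤ Y)
    linarith
  -- the sums are sums of characters
  have hSS : ∀ l ∈ Ioc (V ^ 4) Y, l.Prime → SS T V l = ∑ q ∈ Q, χ q l / q := by
    intro l hl hlp
    rw [mem_Ioc] at hl
    rw [SS]
    apply sum_congr rfl
    intro q hq
    obtain ⟨q1, q2, q3, q4⟩ := hQm q hq
    obtain ⟨c1, -, c3, -, c5, -⟩ := hcp q q1 q2
    have hne : l ≠ q := by omega
    have h3 := c3 l hlp hne
    have h5 := (c5 l hlp (by omega) hne).1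
    congr 1
    by_cases hs : IsSquare ((l : ℕ) : ZMod q)
    · rw [if_pos hs, h3.1 hs]
    · rw [if_neg hs]
      rcases c1.val l with h6 | h6 | h6
      · exact absurd h6 h5
      · exact absurd (h3.2 h6) hs
      · exact h6.symm
  -- second moment
  have h1 : ∑ l ∈ (Ioc (V ^ 4) Y).filter (fun l => l.Prime ∧ 1 < SS T V l), (1 : ℝ) / l ≤
      ∑ k ∈ Ioc (V ^ 4) Y, (1 : ℝ) / k * (∑ q ∈ Q, χ q k / q) ^ 2 := by
    rw [sum_filter]
    apply sum_le_sum
    intro l hl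
    split_ifs with hc
    · rw [hSS l hl hc.1] at hc
      have h2 : (1 : ℝ) ≤ (∑ q ∈ Q, χ q l / q) ^ 2 := by nlinarith [hc.2]
      calc (1 : ℝ) / l = (1 : ℝ) / l * 1 := (mul_one _).symm
        _ ≤ _ := mul_le_mul_of_nonneg_left h2 (by positivity)
    · positivity
  have h2 : ∑ k ∈ Ioc (V ^ 4) Y, (1 : ℝ) / k * (∑ q ∈ Q, χ q k / q) ^ 2 =
      ∑ q ∈ Q, ∑ q' ∈ Q, (1 : ℝ) / (q * q') * ∑ k ∈ Ioc (V ^ 4) Y, χ q k * χ q' k / k := by
    have e : ∀ k ∈ Ioc (V ^ 4) Y, (1 : ℝ) / k * (∑ q ∈ Q, χ q k / q) ^ 2 =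
        ∑ q ∈ Q, ∑ q' ∈ Q, (1 : ℝ) / (q * q') * (χ q k * χ q' k / k) := by
      intro k _
      rw [sq, sum_mul_sum, mul_sum]
      apply sum_congr rfl
      intro q _
      rw [mul_sum]
      apply sum_congr rfl
      intro q' _
      rw [one_div_mul_eq_div, div_mul_div_comm, one_div_mul_eq_div, div_div, div_div, mul_comm (k : ℝ)]
    rw [sum_congr rfl e, sum_comm]
    apply sum_congr rfl
    intro q _
    rw [sum_comm]
    apply sum_congr rfl
    intro q' _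
    rw [mul_sum]
  have h3 : ∀ q ∈ Q, ∀ q' ∈ Q,
      (1 : ℝ) / (q * q') * ∑ k ∈ Ioc (V ^ 4) Y, χ q k * χ q' k / k ≤
        (if q = q' then ((q : ℝ) ^ 2)⁻¹ * (1 + Real.log Y) else 0) + 4 / (V : ℝ) ^ 4 := by
    intro q hq q' hq'
    obtain ⟨q1, q2, q3, q4⟩ := hQm q hq
    obtain ⟨r1, r2, r3, r4⟩ := hQm q' hq'
    have hqp : (0 : ℝ) < q := by exact_mod_cast q1.pos
    have hrp : (0 : ℝ) < q' := by exact_mod_cast r1.pos
    obtain ⟨c1, -, c3, -, c5, c6⟩ := hcp q q1 q2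
    by_cases hqq : q = q'
    · subst hqq
      rw [if_pos rfl]
      have h4 : ∑ k ∈ Ioc (V ^ 4) Y, χ q k * χ q k / k ≤ ∑ k ∈ Ioc (V ^ 4) Y, (1 : ℝ) / k := by
        apply sum_le_sum
        intro k _
        apply div_le_div_of_nonneg_right _ (by positivity)
        rcases c1.val k with h6 | h6 | h6 <;> rw [h6] <;> norm_num
      have h5 := h4.trans (SMOm.harm_le (V ^ 4) Y)
      have h6 : (0 : ℝ) ≤ 4 / (V : ℝ) ^ 4 := by positivity
      calc (1 : ℝ) / (q * q) * ∑ k ∈ Ioc (V ^ 4) Y, χ q k * χ q k / k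
          ≤ (1 : ℝ) / (q * q) * (1 + Real.log Y) := mul_le_mul_of_nonneg_left h5 (by positivity)
        _ = ((q : ℝ) ^ 2)⁻¹ * (1 + Real.log Y) := by rw [one_div, sq]
        _ ≤ _ := by linarith
    · rw [if_neg hqq, zero_add]
      have h4 := SMOm.tail_le (c6 q' r1 r2 (Ne.symm hqq)).1 (V ^ 4) Y
      calc (1 : ℝ) / (q * q') * ∑ k ∈ Ioc (V ^ 4) Y, χ q k * χ q' k / k
          ≤ (1 : ℝ) / (q * q') * (((4 * (q * q') : ℕ) : ℝ) / (((V ^ 4 : ℕ) : ℝ) + 1)) :=
            mul_le_mul_of_nonneg_left h4 (by positivity)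
        _ = 4 / ((V : ℝ) ^ 4 + 1) := by
            push_cast
            field_simp
        _ ≤ 4 / (V : ℝ) ^ 4 := by
            apply div_le_div_of_nonneg_left (by norm_num) (by positivity)
            linarith
  have h4 : ∑ q ∈ Q, ∑ q' ∈ Q, (1 : ℝ) / (q * q') * ∑ k ∈ Ioc (V ^ 4) Y, χ q k * χ q' k / k ≤
      ∑ q ∈ Q, (((q : ℝ) ^ 2)⁻¹ * (1 + Real.log Y) + Q.card * (4 / (V : ℝ) ^ 4)) := by
    apply sum_le_sum
    intro q hq
    refine (sum_le_sum (h3 q hq)).trans (le_of_eq ?_)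
    rw [sum_add_distrib, sum_ite_eq, if_pos hq, sum_const, nsmul_eq_mul]
  have hcard : (Q.card : ℝ) ≤ V := by
    have : Q.card ≤ V := by
      calc Q.card ≤ (Ioc T V).card := card_filter_le _ _
        _ = V - T := by simp
        _ ≤ V := Nat.sub_le _ _
    exact_mod_cast this
  have hsq : ∑ q ∈ Q, ((q : ℝ) ^ 2)⁻¹ ≤ 1 / T := by
    calc ∑ q ∈ Q, ((q : ℝ) ^ 2)⁻¹ ≤ ∑ q ∈ Ioc T V, ((q : ℝ) ^ 2)⁻¹ :=
          sum_le_sum_of_subset_of_nonneg (filter_subset _ _) (fun _ _ _ => by positivity)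
      _ ≤ (T : ℝ)⁻¹ - (V : ℝ)⁻¹ := sum_Ioc_inv_sq_le_sub (by omega) hTV
      _ ≤ 1 / T := by
          rw [one_div]
          have : (0 : ℝ) ≤ (V : ℝ)⁻¹ := by positivity
          linarith
  have h5 : ∑ q ∈ Q, (((q : ℝ) ^ 2)⁻¹ * (1 + Real.log Y) + Q.card * (4 / (V : ℝ) ^ 4)) ≤
      (1 + Real.log Y) / T + 4 * (1 / (V : ℝ) ^ 2) := by
    rw [sum_add_distrib, ← sum_mul, sum_const, nsmul_eq_mul]
    apply add_le_add
    · calc (∑ q ∈ Q, ((q : ℝ) ^ 2)⁻¹) * (1 + Real.log Y) ≤ 1 / T * (1 + Real.log Y) :=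
            mul_le_mul_of_nonneg_right hsq hlog
        _ = (1 + Real.log Y) / T := by ring
    · calc (Q.card : ℝ) * (Q.card * (4 / (V : ℝ) ^ 4)) ≤ V * (V * (4 / (V : ℝ) ^ 4)) := by
            apply mul_le_mul hcard _ (by positivity) hVpos.le
            exact mul_le_mul_of_nonneg_right hcard (by positivity)
        _ = 4 * (1 / (V : ℝ) ^ 2) := by
            field_simp
  have h6 : 0 ≤ (1 + Real.log Y) / T := div_nonneg hlog hTpos.le
  calc _ ≤ _ := h1
    _ = _ := h2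
    _ ≤ _ := h4
    _ ≤ _ := h5
    _ ≤ 4 * ((1 + Real.log Y) / T + 1 / (V : ℝ) ^ 2) := by linarith

end Pool.Agent.ADG
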