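import Pool.Agent.ADG.St5

/-!
# Project ADG part 5, module TAC (helper43): case (A)
-/

set_option autoImplicit false

namespace Pool.Agent.ADG

open Finset Pool.Agent.ADS

namespace TACm

/-- a prime dividing `n` whose square does not divide `n` has exponent one -/
lemma fac_one {n q : ℕ} (hn : n ≠ 0) (hq : q.Prime) (h1 : q ∣ n) (h2 : ¬ q ^ 2 ∣ n) :
    n.factorization q = 1 := by
  have ha : 1 ≤ n.factorization q := (hq.dvd_iff_one_le_factorization hn).1 h1
  have hb : ¬ 2 ≤ n.factorization q := fun h => h2 ((hq.pow_dvd_iff_le_factorization hn).2 h)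
  omega

/-- two integers with `A ∣ n`, `B ∣ n - 1` are congruent modulo `A B` -/
lemma cong {A B n n0 : ℕ} (hn : 2 ≤ n) (hn0 : 2 ≤ n0)
    (a1 : A ∣ n) (b1 : B ∣ n - 1) (a2 : A ∣ n0) (b2 : B ∣ n0 - 1) :
    n ≡ n0 [MOD A * B] := by
  have hcop0 : Nat.Coprime n0 (n0 - 1) := by
    have h : Nat.Coprime (n0 - 1 + 1) (n0 - 1) := by
      rw [Nat.coprime_self_add_left]
      exact Nat.coprime_one_left _
    have e : n0 - 1 + 1 = n0 := by omega
    rwa [e] at h
  have hcop : Nat.Coprime A B := Nat.Coprime.of_dvd a2 b2 hcop0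
  rw [← Nat.modEq_and_modEq_iff_modEq_mul hcop]
  constructor
  · exact ((Nat.modEq_zero_iff_dvd).2 a1).trans ((Nat.modEq_zero_iff_dvd).2 a2).symm
  · have e1 : 1 ≡ n [MOD B] := (Nat.modEq_iff_dvd' (by omega)).2 b1
    have e2 : 1 ≡ n0 [MOD B] := (Nat.modEq_iff_dvd' (by omega)).2 b2
    exact e1.symm.trans e2

/-- `d^2 p ∣ m` for a prime `p` not dividing `d` -/
lemma dvd_sq_mul {d p m : ℕ} (hp : p.Prime) (hpd : ¬ p ∣ d) (h2 : d ^ 2 ∣ m) (h4 : p ∣ m) :
    d ^ 2 * p ∣ m := by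
  have c2 : Nat.Coprime (d ^ 2) p := by
    apply Nat.Coprime.pow_left
    exact ((Nat.Prime.coprime_iff_not_dvd hp).2 hpd).symm
  exact Nat.Coprime.mul_dvd_of_dvd_of_dvd c2 h2 h4

end TACm

open Classical in
theorem TAC_thm (h1 : Stmt_S2V) (h2 : Stmt_GKB) (h3 : Stmt_LBB) (h4 : Stmt_LB3)
    (h5 : Stmt_RCK) : Stmt_TAC := by
  obtain ⟨κ, χ, ψ, hκ, hcp⟩ := h5
  obtain ⟨c1, hc1, hL, -⟩ := h3
  obtain ⟨c0, hc0, hL3⟩ := h4
  have hlog2 : 0 < Real.log 2 := Real.log_pos (by norm_num)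
  refine ⟨196 / (c0 * c1 * Real.log 2), by positivity, ?_⟩
  intro X z c d r l p hc hd hr8 hr4 hl hp hl2 hp2 hpcd hlz hpz
  obtain ⟨hκ8, hκ0, hκC, hκχ⟩ := hκ r hr8 hr4
  have hz2 : 2 ≤ z := le_trans hl.two_le hlz
  have hw2 : 2 ≤ max l p := le_trans hl.two_le (le_max_left _ _)
  have hwz : max l p ≤ z := max_le hlz hpz
  have hlogz : 0 < Real.log z := Real.log_pos (by exact_mod_cast (by omega : 1 < z))
  have hlogw : 0 < Real.log ((max l p : ℕ) : ℝ) :=
    Real.log_pos (by exact_mod_cast (by omega : 1 < max l p))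
  have hcR : (0:ℝ) < c := by exact_mod_cast hc
  have hdR : (0:ℝ) < d := by exact_mod_cast hd
  have hlR : (0:ℝ) < l := by exact_mod_cast hl.pos
  have hpR : (0:ℝ) < p := by exact_mod_cast hp.pos
  have hpd : ¬ p ∣ d := fun h => hpcd (h.mul_left c)
  rcases (TA X c d r l p).eq_empty_or_nonempty with hem | ⟨n0, hn0⟩
  · rw [hem, Finset.card_empty, Nat.cast_zero]
    positivity
  have hmem : ∀ n ∈ TA X c d r l p, 2 ≤ n ∧ n ≤ X ∧ Base5 c d r n ∧ c ^ 2 * l ∣ n ∧
      Odd (n.factorization l) ∧ p ∣ n - 1 := by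
    intro n hn
    simp only [TA, Finset.mem_filter, Finset.mem_Icc] at hn
    exact ⟨hn.1.1, hn.1.2, hn.2.1, hn.2.2.1, hn.2.2.2.1, hn.2.2.2.2⟩
  obtain ⟨hn02, -, hB0, hln0, -, hpn0⟩ := hmem n0 hn0
  obtain ⟨-, -, -, kc0, kd0, -⟩ := hB0
  set k := 2 * (c * d) * (l * p * l) with hk
  have hkpos : 1 ≤ k := by
    have hl' := hl.pos
    have hp' := hp.pos
    exact Nat.succ_le_of_lt (by rw [hk]; positivity)
  set w := max l p with hw
  set P1 := G1 ((4 * w ^ 2) ^ 8) z k (κ r) (χ p) with hP1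
  set P2 := Good 2 ((4 * w ^ 2) ^ 8) z k (ψ l) (ψ l) with hP2
  have hqk : ∀ q : ℕ, q ∈ P1 ∪ P2 → q.Prime ∧ ¬ q ∣ k := by
    intro q hq
    rw [Finset.mem_union] at hq
    rcases hq with hq | hq
    · simp only [hP1, G1, Finset.mem_filter] at hq
      exact ⟨hq.2.1, hq.2.2.1⟩
    · simp only [hP2, Good, Finset.mem_filter] at hq
      exact ⟨hq.2.1, hq.2.2.1⟩
  have hparts : ∀ q : ℕ, ¬ q ∣ k → ¬ q ∣ 2 ∧ ¬ q ∣ c * d ∧ ¬ q ∣ l ∧ ¬ q ∣ p := by
    intro q h
    refine ⟨fun h' => h ?_, fun h' => h ?_, fun h' => h ?_, fun h' => h ?_⟩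
    · exact (h'.mul_right _).mul_right _
    · exact (h'.mul_left _).mul_right _
    · exact (h'.mul_left (l * p)).mul_left _
    · exact ((h'.mul_left l).mul_right l).mul_left _
  obtain ⟨hχ, -, hχq, -, hχ0⟩ := hcp p hp hp2
  obtain ⟨-, hψ, -, hψq, -⟩ := hcp l hl hl2
  have hpw : p ≤ w := le_max_right _ _
  have hlw : l ≤ w := le_max_left _ _
  have hp3 : 3 ≤ p := by
    have := hp.two_le
    omega
  have hw3 : 3 ≤ w := le_trans hp3 hpw
  have hQw : w < (4 * w ^ 2) ^ 8 := by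
    have e1 : 1 ≤ 4 * w ^ 2 := by nlinarith
    have e2 : 4 * w ^ 2 ≤ (4 * w ^ 2) ^ 8 := Nat.le_self_pow (by norm_num) _
    nlinarith
  have hR1 := hL3 (4 * p) (8 * p) (κ r) (χ p) hκ8 hχ (hκχ p hp hp2) w z k (by omega) (by omega)
    (by nlinarith) (by nlinarith) (by
      intro q hq hqQ
      have hq2 : q ≠ 2 := by omega
      have hqp : q ≠ p := by omega
      exact ⟨hκ0 q hq hq2, (hχ0 q hq hq2 hqp).1⟩) hw2 hwz hkpos
  have hR2 := hL (4 * l) (ψ l) hψ w 2 z k (by have := hl.pos; omega) (by nlinarith) le_rfl hw2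
    hwz hkpos
  rw [← hP1] at hR1
  rw [← hP2] at hR2
  have hMpos : 0 < (c ^ 2 * l) * (d ^ 2 * p) := by
    have hl' := hl.pos
    have hp' := hp.pos
    positivity
  have hmain := h1 X z ((c ^ 2 * l) * (d ^ 2 * p)) n0 P1 P2 (by omega) hMpos (by
      intro q hq
      obtain ⟨hqp, hqk'⟩ := hqk q hq
      obtain ⟨g1, g2, g3, g4⟩ := hparts q hqk'
      refine ⟨hqp, ?_, ?_⟩
      · rintro rfl
        exact g1 (dvd_refl 2)
      · intro h
        rcases (hqp.dvd_mul).1 h with h | h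
        · rcases (hqp.dvd_mul).1 h with h | h
          · exact g2 ((hqp.dvd_of_dvd_pow h).mul_right d)
          · exact g3 h
        · rcases (hqp.dvd_mul).1 h with h | h
          · exact g2 ((hqp.dvd_of_dvd_pow h).mul_left c)
          · exact g4 h) (TA X c d r l p) (by
      intro n hn
      obtain ⟨hn2, hnX, hB, hln, hodd, hpn⟩ := hmem n hn
      obtain ⟨hQ, hC, hnr, hcn, hdn, hsf⟩ := hB
      refine ⟨by omega, hnX, ?_, ?_, ?_⟩
      · exact TACm.cong hn2 hn02 hln (TACm.dvd_sq_mul hp hpd hdn hpn) hln0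
          (TACm.dvd_sq_mul hp hpd kd0 hpn0)
      · intro q hq hqn
        simp only [hP1, G1, Finset.mem_filter] at hq
        obtain ⟨-, hqp, hqk', hor⟩ := hq
        obtain ⟨g1, g2, g3, g4⟩ := hparts q hqk'
        have hq2 : q ≠ 2 := by
          rintro rfl
          exact g1 (dvd_refl 2)
        have hqodd : Odd (n.factorization q) := by
          rw [TACm.fac_one (by omega) hqp hqn (hsf q hqp g2).1]
          exact odd_one
        rcases hor with h | ⟨-, h⟩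
        · exact h (hκC n hnr hC q hqp hq2 hqodd)
        · have hqpne : q ≠ p := by
            rintro rfl
            exact g4 (dvd_refl _)
          have hs : IsSquare ((q : ℕ) : ZMod p) := by
            refine hQ q p hqp hp hq2 hp2 hqodd ?_
            exact TACm.fac_one (by omega) hp hpn (hsf p hp hpcd).2
          exact h ((hχq q hqp hqpne).1 hs)
      · intro q hq hqn
        simp only [hP2, Good, Finset.mem_filter] at hq
        obtain ⟨-, hqp, hqk', hor⟩ := hq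
        obtain ⟨g1, g2, g3, g4⟩ := hparts q hqk'
        have hq2 : q ≠ 2 := by
          rintro rfl
          exact g1 (dvd_refl 2)
        rcases hor with h | ⟨-, h⟩
        · exact hq2 (le_antisymm h hqp.two_le)
        · have hqlne : q ≠ l := by
            rintro rfl
            exact g3 (dvd_refl _)
          have hs : IsSquare ((l : ℕ) : ZMod q) := by
            refine hQ l q hl hqp hl2 hq2 hodd ?_
            exact TACm.fac_one (by omega) hqp hqn (hsf q hqp g2).2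
          have h' := (hψq q hqp hq2 hqlne).1 hs
          exact h ⟨h', h'⟩)
  set R1 := RSm P1 z
  set R2 := RSm P2 z
  set g := gk k with hg
  have hgk := (h2 c d hc hd).2 l p l hl hp hl hl2 hp2 hl2
  rw [← hk, ← hg] at hgk
  set s := ((c : ℝ) * d) ^ (1 / 4 : ℝ) with hs
  have hspos : 0 < s := by positivity
  have hss : s ^ 2 = ((c : ℝ) * d) ^ (1 / 2 : ℝ) := by
    rw [hs, ← Real.rpow_natCast, ← Real.rpow_mul (by positivity)]
    norm_num
  set u := (Real.log z) ^ (5 / 4 : ℝ) with hu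
  set v := (Real.log (w : ℝ)) ^ (3 / 4 : ℝ) with hv
  have hupos : 0 < u := by positivity
  have hvpos : 0 < v := by positivity
  have huv : (Real.log z) ^ (1 / 2 : ℝ) * (Real.log z / Real.log (w : ℝ)) ^ (1 / 4 : ℝ) *
      (Real.log z / Real.log (w : ℝ)) ^ (1 / 2 : ℝ) = u / v := by
    rw [mul_assoc, ← Real.rpow_add (by positivity), Real.div_rpow hlogz.le hlogw.le,
      ← mul_div_assoc, ← Real.rpow_add hlogz, hu, hv]
    norm_num
  have hA : 0 < c0 * (Real.log z) ^ (1 / 2 : ℝ) *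
      (Real.log z / Real.log (w : ℝ)) ^ (1 / 4 : ℝ) := by positivity
  have hA2 : 0 < c1 * Real.log (2 : ℕ) * (Real.log z / Real.log (w : ℝ)) ^ (1 / 2 : ℝ) := by
    have : 0 < Real.log ((2 : ℕ) : ℝ) := by exact_mod_cast hlog2
    positivity
  have hprod : c0 * c1 * Real.log 2 * (u / v) ≤ g ^ 2 * (R1 * R2) := by
    have hmul := mul_le_mul hR1 hR2 hA2.le (le_trans hA.le hR1)
    calc c0 * c1 * Real.log 2 * (u / v)
        = c0 * (Real.log z) ^ (1 / 2 : ℝ) * (Real.log z / Real.log (w : ℝ)) ^ (1 / 4 : ℝ) *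
          (c1 * Real.log (2 : ℕ) * (Real.log z / Real.log (w : ℝ)) ^ (1 / 2 : ℝ)) := by
          rw [← huv]
          push_cast
          ring
      _ ≤ g * R1 * (g * R2) := hmul
      _ = g ^ 2 * (R1 * R2) := by ring
  have hRR : 0 ≤ R1 * R2 := by
    by_contra hneg
    rw [not_le] at hneg
    have h5 : 0 < c0 * c1 * Real.log 2 * (u / v) := by positivity
    nlinarith [sq_nonneg g]
  have hg0 : 0 ≤ g := by
    rw [hg]
    unfold gk EP
    apply Finset.prod_nonneg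
    intro q hq
    have hq1 : (1 : ℝ) ≤ q := by exact_mod_cast (Nat.prime_of_mem_primeFactors hq).one_lt.le
    apply inv_nonneg.2
    have : (1 : ℝ) / q ≤ 1 := by
      rw [div_le_one (by linarith)]
      exact hq1
    linarith
  have hgg : g ^ 2 ≤ 196 * ((c : ℝ) * d) ^ (1 / 2 : ℝ) := by
    rw [← hss]
    calc g ^ 2 ≤ (14 * s) ^ 2 := by gcongr
      _ = 196 * s ^ 2 := by ring
  have hlow : c0 * c1 * Real.log 2 * (u / v) / (196 * ((c : ℝ) * d) ^ (1 / 2 : ℝ)) ≤
      R1 * R2 := by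
    rw [div_le_iff₀ (by positivity)]
    calc c0 * c1 * Real.log 2 * (u / v) ≤ g ^ 2 * (R1 * R2) := hprod
      _ ≤ (196 * ((c : ℝ) * d) ^ (1 / 2 : ℝ)) * (R1 * R2) := by gcongr
      _ = R1 * R2 * (196 * ((c : ℝ) * d) ^ (1 / 2 : ℝ)) := by ring
  have hlowpos : 0 < c0 * c1 * Real.log 2 * (u / v) / (196 * ((c : ℝ) * d) ^ (1 / 2 : ℝ)) := by
    positivity
  refine le_trans hmain (add_le_add ?_ le_rfl)
  calc (X : ℝ) / (((c ^ 2 * l) * (d ^ 2 * p) : ℕ) : ℝ) / (R1 * R2)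
      ≤ (X : ℝ) / (((c ^ 2 * l) * (d ^ 2 * p) : ℕ) : ℝ) /
        (c0 * c1 * Real.log 2 * (u / v) / (196 * ((c : ℝ) * d) ^ (1 / 2 : ℝ))) := by
        gcongr
    _ = 196 / (c0 * c1 * Real.log 2) * X * ((c : ℝ) * d) ^ (1 / 2 : ℝ) * v /
      ((c : ℝ) ^ 2 * d ^ 2 * (l * p * u)) := by
        push_cast
        field_simp

end Pool.Agent.ADG
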