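import Pool.Agent.ADG.St5

/-!
# Project ADG part 5, module TCC: a large smallest prime
-/

set_option autoImplicit false

namespace Pool.Agent.ADG

open Finset Pool.Agent.ADS

namespace TCCm

/-- a prime dividing `n` whose square does not divide `n` has exponent one -/
lemma fac_one {n q : ℕ} (hn : n ≠ 0) (hq : q.Prime) (h1 : q ∣ n) (h2 : ¬ q ^ 2 ∣ n) :
    n.factorization q = 1 := by
  have ha : 1 ≤ n.factorization q := (hq.dvd_iff_one_le_factorization hn).1 h1
  have hb : ¬ 2 ≤ n.factorization q := fun h => h2 ((hq.pow_dvd_iff_le_factorization hn).2 h)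
  omega

/-- two integers with `a ∣ n`, `b ∣ n - 1` are congruent -/
lemma cong {a b n n0 : ℕ} (hn : 2 ≤ n) (hn0 : 2 ≤ n0)
    (a1 : a ∣ n) (b1 : b ∣ n - 1) (a2 : a ∣ n0) (b2 : b ∣ n0 - 1) :
    n ≡ n0 [MOD a * b] := by
  have hcop0 : Nat.Coprime n0 (n0 - 1) := by
    have h : Nat.Coprime (n0 - 1 + 1) (n0 - 1) := by
      rw [Nat.coprime_self_add_left]
      exact Nat.coprime_one_left _
    have e : n0 - 1 + 1 = n0 := by omega
    rwa [e] at h
  have hcop : Nat.Coprime a b := Nat.Coprime.of_dvd a2 b2 hcop0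
  rw [← Nat.modEq_and_modEq_iff_modEq_mul hcop]
  constructor
  · exact ((Nat.modEq_zero_iff_dvd).2 a1).trans ((Nat.modEq_zero_iff_dvd).2 a2).symm
  · have e1 : 1 ≡ n [MOD b] := (Nat.modEq_iff_dvd' (by omega)).2 b1
    have e2 : 1 ≡ n0 [MOD b] := (Nat.modEq_iff_dvd' (by omega)).2 b2
    exact e1.symm.trans e2

lemma gk_ge_one (k : ℕ) : 1 ≤ gk k := by
  unfold gk EP
  have : ∏ q ∈ k.primeFactors, (1 : ℝ) ≤ ∏ q ∈ k.primeFactors, (1 - (1 : ℝ) / q)⁻¹ := by
    refine Finset.prod_le_prod (fun _ _ => zero_le_one) ?_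
    intro q hq
    have hq2 : (2 : ℝ) ≤ q := by exact_mod_cast (Nat.prime_of_mem_primeFactors hq).two_le
    have h1 : (1 : ℝ) / q ≤ 1 / 2 := one_div_le_one_div_of_le (by norm_num) hq2
    have h2 : (0 : ℝ) ≤ 1 / q := by positivity
    exact (one_le_inv₀ (by linarith)).2 (by linarith)
  simpa using this

lemma RSm_ge_one (P : Finset ℕ) {z : ℕ} (hz : 1 ≤ z) : 1 ≤ RSm P z := by
  classical
  unfold RSm
  have hm : (1 : ℕ) ∈ (Icc 1 z).filter (fun m => ∀ p : ℕ, p.Prime → p ∣ m → p ∈ P) := by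
    refine Finset.mem_filter.2 ⟨Finset.mem_Icc.2 ⟨le_rfl, hz⟩, ?_⟩
    intro p hp h
    exact absurd (Nat.dvd_one.1 h) hp.one_lt.ne'
  have h2 := Finset.single_le_sum (f := fun m : ℕ => (1 : ℝ) / m)
    (fun i _ => by positivity) hm
  simpa using h2

open Classical in
lemma core (h1 : Stmt_S2V) (h2 : Stmt_GKB) {κ ψ : ℕ → ℝ} {X z c d r l : ℕ} (hc : 1 ≤ c)
    (hd : 1 ≤ d) (hl : l.Prime) (hl2 : l ≠ 2) (hz : 2 ≤ z)
    (hκ : ∀ n : ℕ, n % 8 = r → Cond n → ∀ q : ℕ, q.Prime → q ≠ 2 → Odd (n.factorization q) →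
      κ q = 1)
    (hψ : ∀ q : ℕ, q.Prime → q ≠ 2 → q ≠ l → (IsSquare ((l : ℕ) : ZMod q) ↔ ψ q = 1))
    (P2 : Finset ℕ)
    (hP2 : ∀ q ∈ P2, q.Prime ∧ ¬ q ∣ 2 * (c * d) * (l * l * l) ∧ ψ q ≠ 1) (A : ℝ)
    (hA : 0 < A) (hAR : A ≤ gk (2 * (c * d) * (l * l * l)) *
      RSm (G2 (min l z) z (2 * (c * d) * (l * l * l)) κ) z *
      (gk (2 * (c * d) * (l * l * l)) * RSm P2 z)) :
    ((TC X c d r l).card : ℝ) ≤
      196 * X * ((c : ℝ) * d) ^ (1 / 2 : ℝ) / ((c : ℝ) ^ 2 * d ^ 2 * (l * A)) + (z : ℝ) ^ 12 := by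
  have hcR : (0:ℝ) < c := by exact_mod_cast hc
  have hdR : (0:ℝ) < d := by exact_mod_cast hd
  have hlR : (0:ℝ) < l := by exact_mod_cast hl.pos
  rcases (TC X c d r l).eq_empty_or_nonempty with hem | ⟨n0, hn0⟩
  · rw [hem, Finset.card_empty, Nat.cast_zero]
    positivity
  have hmem : ∀ n ∈ TC X c d r l, 2 ≤ n ∧ n ≤ X ∧ Base5 c d r n ∧ c ^ 2 * l ∣ n ∧
      Odd (n.factorization l) ∧
      ∀ q : ℕ, q.Prime → q < l → ¬ q ∣ 2 * (c * d) → ¬ q ∣ n := by
    intro n hn
    simp only [TC, Finset.mem_filter, Finset.mem_Icc] at hn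
    exact ⟨hn.1.1, hn.1.2, hn.2.1, hn.2.2.1, hn.2.2.2.1, hn.2.2.2.2⟩
  obtain ⟨hn02, -, hB0, hcl0, -, -⟩ := hmem n0 hn0
  obtain ⟨-, -, -, -, kd0, -⟩ := hB0
  set k := 2 * (c * d) * (l * l * l) with hk
  have hkpos : 1 ≤ k := by
    have hl' := hl.pos
    exact Nat.succ_le_of_lt (by rw [hk]; positivity)
  set P1 := G2 (min l z) z k κ with hP1
  have hqk : ∀ q : ℕ, q ∈ P1 ∪ P2 → q.Prime ∧ ¬ q ∣ k := by
    intro q hq
    rw [Finset.mem_union] at hq
    rcases hq with hq | hq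
    · simp only [hP1, G2, Finset.mem_filter] at hq
      exact ⟨hq.2.1, hq.2.2.1⟩
    · exact ⟨(hP2 q hq).1, (hP2 q hq).2.1⟩
  have hparts : ∀ q : ℕ, ¬ q ∣ k → ¬ q ∣ 2 ∧ ¬ q ∣ c * d ∧ ¬ q ∣ l := by
    intro q h
    refine ⟨fun h' => h ?_, fun h' => h ?_, fun h' => h ?_⟩
    · exact (h'.mul_right _).mul_right _
    · exact (h'.mul_left _).mul_right _
    · exact (h'.mul_left (l * l)).mul_left _
  have hMpos : 0 < (c ^ 2 * l) * d ^ 2 := by
    have hl' := hl.pos
    positivity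
  have hmain := h1 X z ((c ^ 2 * l) * d ^ 2) n0 P1 P2 (by omega) hMpos (by
      intro q hq
      obtain ⟨hqp, hqk'⟩ := hqk q hq
      obtain ⟨g1, g2, g3⟩ := hparts q hqk'
      refine ⟨hqp, ?_, ?_⟩
      · rintro rfl
        exact g1 (dvd_refl 2)
      · intro h
        rcases (hqp.dvd_mul).1 h with h | h
        · rcases (hqp.dvd_mul).1 h with h | h
          · exact g2 ((hqp.dvd_of_dvd_pow h).mul_right d)
          · exact g3 h
        · exact g2 ((hqp.dvd_of_dvd_pow h).mul_left c)) (TC X c d r l) (by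
      intro n hn
      obtain ⟨hn2, hnX, hB, hcl, hodd, hno⟩ := hmem n hn
      obtain ⟨hQ, hC, hr, hcn, hdn, hsf⟩ := hB
      refine ⟨by omega, hnX, ?_, ?_, ?_⟩
      · exact cong hn2 hn02 hcl hdn hcl0 kd0
      · intro q hq hqn
        simp only [hP1, G2, Finset.mem_filter] at hq
        obtain ⟨-, hqp, hqk', hor⟩ := hq
        obtain ⟨g1, g2, g3⟩ := hparts q hqk'
        rcases hor with h | h
        · have hql : q ≠ l := by
            rintro rfl
            exact g3 (dvd_refl _)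
          have hlt : q < l := lt_of_le_of_ne (h.trans (min_le_left _ _)) hql
          refine hno q hqp hlt ?_ hqn
          intro h'
          rcases (hqp.dvd_mul).1 h' with h' | h'
          · exact g1 h'
          · exact g2 h'
        · have hq2 : q ≠ 2 := by
            rintro rfl
            exact g1 (dvd_refl 2)
          refine h (hκ n hr hC q hqp hq2 ?_)
          rw [fac_one (by omega) hqp hqn (hsf q hqp g2).1]
          exact odd_one
      · intro q hq hqn
        obtain ⟨hqp, hqk', hne⟩ := hP2 q hq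
        obtain ⟨g1, g2, g3⟩ := hparts q hqk'
        have hq2 : q ≠ 2 := by
          rintro rfl
          exact g1 (dvd_refl 2)
        have hqlne : q ≠ l := by
          rintro rfl
          exact g3 (dvd_refl _)
        have hs : IsSquare ((l : ℕ) : ZMod q) := by
          refine hQ l q hl hqp hl2 hq2 hodd ?_
          exact fac_one (by omega) hqp hqn (hsf q hqp g2).2
        exact hne ((hψ q hqp hq2 hqlne).1 hs))
  set R1 := RSm P1 z
  set R2 := RSm P2 z
  set g := gk k with hg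
  have hgk := (h2 c d hc hd).2 l l l hl hl hl hl2 hl2 hl2
  rw [← hk, ← hg] at hgk
  set s := ((c : ℝ) * d) ^ (1 / 4 : ℝ) with hs
  have hspos : 0 < s := by positivity
  have hss : s ^ 2 = ((c : ℝ) * d) ^ (1 / 2 : ℝ) := by
    rw [hs, ← Real.rpow_natCast, ← Real.rpow_mul (by positivity)]
    norm_num
  have hR1 : 1 ≤ R1 := RSm_ge_one _ (by omega)
  have hR2 : 1 ≤ R2 := RSm_ge_one _ (by omega)
  have hg0 : 1 ≤ g := gk_ge_one k
  have hRR : 0 < R1 * R2 := by positivity
  have hprod : A ≤ g ^ 2 * (R1 * R2) := by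
    calc A ≤ g * R1 * (g * R2) := hAR
      _ = g ^ 2 * (R1 * R2) := by ring
  have hgg : g ^ 2 ≤ 196 * ((c : ℝ) * d) ^ (1 / 2 : ℝ) := by
    rw [← hss]
    calc g ^ 2 ≤ (14 * s) ^ 2 := by gcongr
      _ = 196 * s ^ 2 := by ring
  have hlow : A / (196 * ((c : ℝ) * d) ^ (1 / 2 : ℝ)) ≤ R1 * R2 := by
    rw [div_le_iff₀ (by positivity)]
    calc A ≤ g ^ 2 * (R1 * R2) := hprod
      _ ≤ (196 * ((c : ℝ) * d) ^ (1 / 2 : ℝ)) * (R1 * R2) := by gcongr
      _ = R1 * R2 * (196 * ((c : ℝ) * d) ^ (1 / 2 : ℝ)) := by ring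
  have hlowpos : 0 < A / (196 * ((c : ℝ) * d) ^ (1 / 2 : ℝ)) := by positivity
  refine le_trans hmain (add_le_add ?_ le_rfl)
  calc (X : ℝ) / (((c ^ 2 * l) * d ^ 2 : ℕ) : ℝ) / (R1 * R2)
      ≤ (X : ℝ) / (((c ^ 2 * l) * d ^ 2 : ℕ) : ℝ) /
        (A / (196 * ((c : ℝ) * d) ^ (1 / 2 : ℝ))) := by
        gcongr
    _ = 196 * X * ((c : ℝ) * d) ^ (1 / 2 : ℝ) / ((c : ℝ) ^ 2 * d ^ 2 * (l * A)) := by
        push_cast
        field_simp

end TCCm

open Classical in
theorem TCC_thm (h1 : Stmt_S2V) (h2 : Stmt_GKB) (h3 : Stmt_LBB) (h4 : Stmt_LB4)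
    (h5 : Stmt_LB5) (h6 : Stmt_RCK) : Stmt_TCC := by
  obtain ⟨κ, χ, ψ, hκ, hcp⟩ := h6
  obtain ⟨c3, hc3, hL3, -⟩ := h3
  obtain ⟨c4, hc4, hL4⟩ := h4
  obtain ⟨c5, hc5, hL5⟩ := h5
  have hlog2 : 0 < Real.log 2 := Real.log_pos (by norm_num)
  refine ⟨196 / (c4 * (c3 * Real.log 2)) + 196 / c4 + 196 / (c4 * c5), by positivity, ?_⟩
  set C := 196 / (c4 * (c3 * Real.log 2)) + 196 / c4 + 196 / (c4 * c5) with hC
  have hC1 : 196 / (c4 * (c3 * Real.log 2)) ≤ C := by
    have i1 : 0 < 196 / c4 := by positivity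
    have i2 : 0 < 196 / (c4 * c5) := by positivity
    rw [hC]; linarith
  have hC2 : 196 / c4 ≤ C := by
    have i1 : 0 < 196 / (c4 * (c3 * Real.log 2)) := by positivity
    have i2 : 0 < 196 / (c4 * c5) := by positivity
    rw [hC]; linarith
  have hC3 : 196 / (c4 * c5) ≤ C := by
    have i1 : 0 < 196 / (c4 * (c3 * Real.log 2)) := by positivity
    have i2 : 0 < 196 / c4 := by positivity
    rw [hC]; linarith
  intro X z c d r l hc hd hr8 hr4 hl hl2 hz
  obtain ⟨hκ8, -, hκc, -⟩ := hκ r hr8 hr4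
  obtain ⟨-, hψ, -, hψq, hψ0⟩ := hcp l hl hl2
  have hcR : (0:ℝ) < c := by exact_mod_cast hc
  have hdR : (0:ℝ) < d := by exact_mod_cast hd
  have hlR : (0:ℝ) < l := by exact_mod_cast hl.pos
  have hlogz : 0 < Real.log z := Real.log_pos (by exact_mod_cast (by omega : 1 < z))
  have hlogl : 0 < Real.log l := Real.log_pos (by exact_mod_cast hl.one_lt)
  set k := 2 * (c * d) * (l * l * l) with hk
  have hkpos : 1 ≤ k := by
    have hl' := hl.pos
    exact Nat.succ_le_of_lt (by rw [hk]; positivity)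
  have h2k : 2 ∣ k := by rw [hk, mul_assoc, mul_assoc]; exact Dvd.intro _ rfl
  have hR1 := hL4 (κ r) hκ8 (min l z) z k (le_min hl.two_le hz) (min_le_right _ _) hkpos
  have hcore := fun (P2 : Finset ℕ) (hP2) (A : ℝ) (hA) (hAR) =>
    TCCm.core h1 h2 (κ := κ r) (ψ := ψ l) (X := X) (z := z) (c := c) (d := d) (r := r) (l := l)
      hc hd hl hl2 hz hκc hψq P2 hP2 A hA hAR
  have hg1 : 1 ≤ gk k := TCCm.gk_ge_one k
  have h4l : 4 * l ≤ 4 * l ^ 2 := by nlinarith [hl.pos]
  have h24l : 2 ≤ 4 * l := by have := hl.pos; omega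
  set M : ℝ := (c : ℝ) ^ 2 * d ^ 2 * l with hM
  have hMpos : 0 < M := by positivity
  set S : ℝ := X * ((c : ℝ) * d) ^ (1 / 2 : ℝ) with hS
  have hS0 : 0 ≤ S := by positivity
  -- from the core bound to the statement
  have hfin : ∀ (a B : ℝ), 0 < a → 0 < B → 196 / a ≤ C →
      ((TC X c d r l).card : ℝ) ≤ 196 * X * ((c : ℝ) * d) ^ (1 / 2 : ℝ) /
        ((c : ℝ) ^ 2 * d ^ 2 * (l * (a * B))) + (z : ℝ) ^ 12 →
      ((TC X c d r l).card : ℝ) ≤ C * S / (M * B) + (z : ℝ) ^ 12 := by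
    intro a B ha hB hCa h
    refine h.trans (add_le_add ?_ le_rfl)
    have e : 196 * X * ((c : ℝ) * d) ^ (1 / 2 : ℝ) / ((c : ℝ) ^ 2 * d ^ 2 * (l * (a * B))) =
        (196 / a) * S / (M * B) := by
      rw [hS, hM]
      field_simp
    rw [e]
    gcongr
  constructor
  · have goal_eq : C * X * ((c : ℝ) * d) ^ (1 / 2 : ℝ) /
        ((c : ℝ) ^ 2 * d ^ 2 * (l * Real.log z)) = C * S / (M * Real.log z) := by
      rw [hS, hM]
      ring_nf
    rw [goal_eq]
    rcases le_or_gt l z with hlz | hlz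
    · have hR2 := hL3 (4 * l) (ψ l) hψ l 2 z k h24l h4l le_rfl hl.two_le hlz hkpos
      refine hfin (c4 * (c3 * Real.log 2)) (Real.log z) (by positivity) hlogz hC1 ?_
      refine hcore (Good 2 ((4 * l ^ 2) ^ 8) z k (ψ l) (ψ l)) ?_ _ (by positivity) ?_
      · intro q hq
        simp only [Good, Finset.mem_filter] at hq
        obtain ⟨-, hqp, hqk', hor⟩ := hq
        refine ⟨hqp, hqk', ?_⟩
        rcases hor with h | ⟨-, h⟩
        · exfalso
          have : q = 2 := le_antisymm h hqp.two_le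
          exact hqk' (this ▸ h2k)
        · exact fun h' => h ⟨h', h'⟩
      · rw [min_eq_left hlz] at hR1 ⊢
        have hmul := mul_le_mul hR1 hR2 (by positivity) (le_trans (by positivity) hR1)
        refine le_trans (le_of_eq ?_) hmul
        have e1 : (Real.log z * Real.log l) ^ (1 / 2 : ℝ) *
            (Real.log z / Real.log l) ^ (1 / 2 : ℝ) = Real.log z := by
          rw [← Real.mul_rpow (by positivity) (by positivity)]
          have : Real.log z * Real.log l * (Real.log z / Real.log l) = Real.log z ^ (2 : ℝ) := by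
            rw [Real.rpow_two]
            field_simp
          rw [this, ← Real.rpow_mul hlogz.le]
          norm_num
        push_cast
        calc c4 * (c3 * Real.log 2) * Real.log z
            = c4 * (c3 * Real.log 2) * ((Real.log z * Real.log l) ^ (1 / 2 : ℝ) *
            (Real.log z / Real.log l) ^ (1 / 2 : ℝ)) := by rw [e1]
          _ = _ := by ring
    · refine hfin c4 (Real.log z) hc4 hlogz hC2 ?_
      refine hcore ∅ (by simp) _ (by positivity) ?_
      rw [min_eq_right hlz.le] at hR1 ⊢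
      have hR2 : 1 ≤ gk k * RSm ∅ z := by
        have := TCCm.RSm_ge_one ∅ (z := z) (by omega)
        nlinarith
      have e1 : (Real.log z * Real.log z) ^ (1 / 2 : ℝ) = Real.log z := by
        rw [← sq, ← Real.sqrt_eq_rpow, Real.sqrt_sq hlogz.le]
      rw [e1] at hR1
      calc c4 * Real.log z ≤ gk k * RSm (G2 z z k (κ r)) z := hR1
        _ = gk k * RSm (G2 z z k (κ r)) z * 1 := by ring
        _ ≤ _ := by
          refine mul_le_mul_of_nonneg_left hR2 (le_trans (by positivity) hR1)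
  · intro T V hT hTV hVz hVl hSS
    have hlogT : 0 < Real.log T := Real.log_pos (by exact_mod_cast (by omega : 1 < T))
    have hlogV : 0 < Real.log V := Real.log_pos (by exact_mod_cast (by omega : 1 < V))
    have hne : ∀ q : ℕ, q.Prime → T < q → q ≤ V → ψ l q ≠ 0 := by
      intro q hqp hq1 hq2
      exact (hψ0 q hqp (by omega) (by omega)).2
    have hsum : ∑ q ∈ (Ioc T V).filter Nat.Prime, ψ l q / q ≤ 1 := by
      refine le_trans (le_of_eq ?_) hSS
      unfold SS
      refine Finset.sum_congr rfl ?_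
      intro q hq
      rw [Finset.mem_filter, Finset.mem_Ioc] at hq
      obtain ⟨⟨hq1, hq2⟩, hqp⟩ := hq
      congr 1
      have hiff := hψq q hqp (by omega) (by omega)
      split_ifs with h
      · exact hiff.1 h
      · rcases hψ.val q with h' | h' | h'
        · exact absurd h' (hne q hqp hq1 hq2)
        · exact absurd (hiff.2 h') h
        · exact h'
    obtain ⟨hA1, hA2⟩ := hL5 (4 * l) (ψ l) hψ T V l z k hT hTV hVz hkpos hne hsum
    have goal_eq : C * X * ((c : ℝ) * d) ^ (1 / 2 : ℝ) * (Real.log T) ^ (1 / 2 : ℝ) /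
        ((c : ℝ) ^ 2 * d ^ 2 * (l * (Real.log V) ^ (1 / 2 : ℝ) * Real.log z)) =
        C * S / (M * (Real.log z * (Real.log V / Real.log T) ^ (1 / 2 : ℝ))) := by
      rw [hS, hM, Real.div_rpow hlogV.le hlogT.le]
      have i1 : 0 < (Real.log V) ^ (1 / 2 : ℝ) := by positivity
      have i2 : 0 < (Real.log T) ^ (1 / 2 : ℝ) := by positivity
      field_simp
    rw [goal_eq]
    refine hfin (c4 * c5) (Real.log z * (Real.log V / Real.log T) ^ (1 / 2 : ℝ)) (by positivity)
      (by positivity) hC3 ?_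
    rcases le_or_gt l z with hlz | hlz
    · have hR2 := hA2 h24l h4l hVl.le hlz
      refine hcore (G3 T V ((4 * l ^ 2) ^ 8) z k (ψ l)) ?_ _ (by positivity) ?_
      · intro q hq
        simp only [G3, Finset.mem_filter] at hq
        exact ⟨hq.2.1, hq.2.2.1, hq.2.2.2.1⟩
      · rw [min_eq_left hlz] at hR1 ⊢
        have hmul := mul_le_mul hR1 hR2 (by positivity) (le_trans (by positivity) hR1)
        refine le_trans (le_of_eq ?_) hmul
        have e1 : (Real.log z * Real.log l) ^ (1 / 2 : ℝ) *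
            (Real.log V / Real.log T * (Real.log z / Real.log l)) ^ (1 / 2 : ℝ) =
            Real.log z * (Real.log V / Real.log T) ^ (1 / 2 : ℝ) := by
          rw [← Real.mul_rpow (by positivity) (by positivity)]
          have : Real.log z * Real.log l * (Real.log V / Real.log T *
              (Real.log z / Real.log l)) =
              Real.log z ^ (2 : ℝ) * (Real.log V / Real.log T) := by
            rw [Real.rpow_two]
            field_simp
          rw [this, Real.mul_rpow (by positivity) (by positivity), ← Real.rpow_mul hlogz.le]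
          norm_num
        calc c4 * c5 * (Real.log z * (Real.log V / Real.log T) ^ (1 / 2 : ℝ))
            = c4 * c5 * ((Real.log z * Real.log l) ^ (1 / 2 : ℝ) *
            (Real.log V / Real.log T * (Real.log z / Real.log l)) ^ (1 / 2 : ℝ)) := by rw [e1]
          _ = _ := by ring
    · refine hcore (G3 T V z z k (ψ l)) ?_ _ (by positivity) ?_
      · intro q hq
        simp only [G3, Finset.mem_filter] at hq
        exact ⟨hq.2.1, hq.2.2.1, hq.2.2.2.1⟩
      · rw [min_eq_right hlz.le] at hR1 ⊢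
        have e1 : (Real.log z * Real.log z) ^ (1 / 2 : ℝ) = Real.log z := by
          rw [← sq, ← Real.sqrt_eq_rpow, Real.sqrt_sq hlogz.le]
        rw [e1] at hR1
        have hmul := mul_le_mul hR1 hA1 (by positivity) (le_trans (by positivity) hR1)
        refine le_trans (le_of_eq ?_) hmul
        ring

end Pool.Agent.ADG
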