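import Pool.Agent.ADG.All4
import Pool.Agent.ADG.RCK
import Pool.Agent.ADG.LB3
import Pool.Agent.ADG.LB5
import Pool.Agent.ADG.SMO
import Pool.Agent.ADG.TAC
import Pool.Agent.ADG.TBC
import Pool.Agent.ADG.TCC
import Pool.Agent.ADG.PT5
import Pool.Agent.ADG.SM5
import Pool.Agent.ADG.FIN5

/-! Project ADG (MP_43d07b_co), part 5: assembly (helper96). -/

set_option autoImplicit false

namespace Pool.Agent.ADG

theorem LB3_all : Stmt_LB3 := LB3_thm RSU_thm EPP_all RO2_all RO4_all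

theorem LB4_all : Stmt_LB4 := LB4_thm RSU_thm EPP_all RO2_all

theorem LB5_all : Stmt_LB5 := LB5_thm RSU_thm EPP_all RO2_all

theorem SM5_all : Stmt_SM5 :=
  SM5_thm PT5_thm (TAC_thm S2V_thm GKB_thm LBB_all LB3_all RCK_thm)
    (TBC_thm S2V_thm GKB_thm LBB_all LB4_all RCK_thm)
    (TCC_thm S2V_thm GKB_thm LBB_all LB4_all LB5_all RCK_thm) (SMO_thm RCY_thm)

theorem main5 : MainStatement5 := FIN5_thm main1 main4.1 SM5_all

end Pool.Agent.ADG
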