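import Pool.Agent.ADG.St6
import Pool.Agent.ADG.DCL

/-!
# ADG, module BAS (helper33): the whole space of the invariant functions
-/

set_option autoImplicit false

namespace Pool.Agent.ADG

open Finset Pool.Agent.ADS

namespace BAS

section Cosets

variable {G : Type} [Group G] (N' H : Subgroup G)

/-- `g` is in the double coset of `x` -/
def InD (x g : G) : Prop := ∃ a ∈ N', ∃ k ∈ H, g = a * x * k

theorem inD_left {x g a : G} (ha : a ∈ N') : InD N' H x (a * g) ↔ InD N' H x g := by
  constructor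
  · rintro ⟨b, hb, k, hk, h⟩
    refine ⟨a⁻¹ * b, mul_mem (inv_mem ha) hb, k, hk, ?_⟩
    rw [show g = a⁻¹ * (a * g) by group, h]
    group
  · rintro ⟨b, hb, k, hk, h⟩
    exact ⟨a * b, mul_mem ha hb, k, hk, by rw [h]; group⟩

theorem inD_right {x g k : G} (hk : k ∈ H) : InD N' H x (g * k) ↔ InD N' H x g := by
  constructor
  · rintro ⟨b, hb, k', hk', h⟩
    refine ⟨b, hb, k' * k⁻¹, mul_mem hk' (inv_mem hk), ?_⟩
    rw [show g = (g * k) * k⁻¹ by group, h]
    group
  · rintro ⟨b, hb, k', hk', h⟩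
    exact ⟨b, hb, k' * k, mul_mem hk' hk, by rw [h]; group⟩

end Cosets

section Bad

variable {G : Type} [Group G] {p l : ℕ} [NeZero p] {P H Y : Subgroup G} {u : G}
  {α : G → ZMod p}

omit [NeZero p] in
/-- `H` normalizes `P` -/
theorem normal (hD : HD P H Y u p l α) {h v : G} (hh : h ∈ H) (hv : v ∈ P) :
    h * v * h⁻¹ ∈ P := by
  obtain ⟨k, rfl⟩ := (hD.mem_P v).1 hv
  rw [hD.mem_P]
  refine ⟨(α h).val * k, ?_⟩
  rw [← conj_pow, hD.act h hh, ← pow_mul]

omit [NeZero p] in
theorem bad_const (hD : HD P H Y u p l α) (N' : Subgroup G) {x g : G} (hg : InD N' H x g) :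
    (∀ v ∈ P, g * v * g⁻¹ ∈ N') ↔ ∀ v ∈ P, x * v * x⁻¹ ∈ N' := by
  obtain ⟨a, ha, k, hk, rfl⟩ := hg
  constructor
  · intro h v hv
    have h1 := h (k⁻¹ * v * k⁻¹⁻¹) (normal hD (inv_mem hk) hv)
    have h2 : x * v * x⁻¹ = a⁻¹ * (a * x * k * (k⁻¹ * v * k⁻¹⁻¹) * (a * x * k)⁻¹) * a := by
      group
    rw [h2]
    exact mul_mem (mul_mem (inv_mem ha) h1) ha
  · intro h v hv
    have h1 := h (k * v * k⁻¹) (normal hD hk hv)
    have h2 : a * x * k * v * (a * x * k)⁻¹ = a * (x * (k * v * k⁻¹) * x⁻¹) * a⁻¹ := by group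
    rw [h2]
    exact mul_mem (mul_mem ha h1) (inv_mem ha)

end Bad

section Space

variable {G : Type} [Group G] [Fintype G] {p l : ℕ} [NeZero p]

/-- the submodule of the invariant functions -/
def sub (N' Y : Subgroup G) (u : G) (e : ZMod p → ZMod l) :
    Submodule (ZMod l) (G → ZMod l) where
  carrier := {x | InU N' Y u e x}
  add_mem' := by
    rintro x y ⟨hx1, hx2, hx3⟩ ⟨hy1, hy2, hy3⟩
    refine ⟨fun a ha g => ?_, fun a ha g => ?_, fun g => ?_⟩
    · rw [Pi.add_apply, Pi.add_apply, hx1 a ha, hy1 a ha]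
    · rw [Pi.add_apply, Pi.add_apply, hx2 a ha, hy2 a ha]
    · simp only [Pi.add_apply, mul_add]
      rw [Finset.sum_add_distrib, hx3, hy3]
  zero_mem' := by
    refine ⟨fun a ha g => rfl, fun a ha g => rfl, fun g => ?_⟩
    simp
  smul_mem' := by
    rintro c x ⟨hx1, hx2, hx3⟩
    refine ⟨fun a ha g => ?_, fun a ha g => ?_, fun g => ?_⟩
    · rw [Pi.smul_apply, Pi.smul_apply, hx1 a ha]
    · rw [Pi.smul_apply, Pi.smul_apply, hx2 a ha]
    · simp only [Pi.smul_apply, smul_eq_mul]
      rw [← hx3 g, Finset.mul_sum]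
      exact Finset.sum_congr rfl fun v _ => by ring

open Classical in
/-- the restriction to a double coset -/
noncomputable def res (N' H : Subgroup G) (x0 : G) (x : G → ZMod l) : G → ZMod l :=
  fun g => if InD N' H x0 g then x g else 0

theorem res_inU (N' H Y : Subgroup G) (u : G) (e : ZMod p → ZMod l) (hY : Y ≤ H)
    (hu : u ∈ H) (x0 : G) (x : G → ZMod l) (hx : InU N' Y u e x) :
    InU N' Y u e (res N' H x0 x) := by
  classical
  obtain ⟨hx1, hx2, hx3⟩ := hx
  refine ⟨fun a ha g => ?_, fun a ha g => ?_, fun g => ?_⟩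
  · unfold res
    rw [if_congr (inD_left N' H ha) rfl rfl, hx1 a ha]
  · unfold res
    rw [if_congr (inD_right N' H (hY ha)) rfl rfl, hx2 a ha]
  · unfold res
    have h1 : ∀ v : ZMod p, InD N' H x0 (g * u ^ v.val) ↔ InD N' H x0 g := fun v =>
      inD_right N' H (pow_mem hu _)
    by_cases hg : InD N' H x0 g
    · rw [if_pos hg, ← hx3 g]
      exact Finset.sum_congr rfl fun v _ => by rw [if_pos ((h1 v).2 hg)]
    · rw [if_neg hg]
      refine Finset.sum_eq_zero fun v _ => ?_
      rw [if_neg (fun h => hg ((h1 v).1 h)), mul_zero]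

end Space

/-- the determinant of a block diagonal matrix -/
theorem det_block {J : Type} [Fintype J] [DecidableEq J] {m : J → ℕ} {R : Type} [CommRing R]
    (M : ∀ i, Matrix (Fin (m i)) (Fin (m i)) R) :
    (Matrix.blockDiagonal' M).det = ∏ i, (M i).det := by
  let _ : LinearOrder J := LinearOrder.lift' (Fintype.equivFin J) (Fintype.equivFin J).injective
  have h : (Matrix.blockDiagonal' M).BlockTriangular Sigma.fst := by
    rintro ⟨i, j⟩ ⟨i', j'⟩ hlt
    exact Matrix.blockDiagonal'_apply_ne _ _ _ (ne_of_gt hlt)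
  rw [h.det_fintype]
  refine Finset.prod_congr rfl fun k _ => ?_
  rw [← Matrix.det_submatrix_equiv_self (Equiv.sigmaSubtype (β := fun i => Fin (m i)) k).symm]
  congr 1
  ext j j'
  exact Matrix.blockDiagonal'_apply_eq M k j j'

/-- a product of nonsquares -/
theorem prod_nonsq (l : ℕ) [Fact l.Prime] (hl2 : l ≠ 2) {J : Type} [Fintype J]
    (d : J → ZMod l) (hd : ∀ i, ¬ IsSquare (d i)) :
    (∏ i, d i) ≠ 0 ∧ (IsSquare (∏ i, d i) ↔ Even (Fintype.card J)) := by
  classical
  have hchar : ringChar (ZMod l) ≠ 2 := by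
    rw [ZMod.ringChar_zmod_n]
    exact hl2
  have h0 : ∀ i, d i ≠ 0 := by
    intro i h
    apply hd i
    rw [h]
    exact ⟨0, by simp⟩
  have hne : (∏ i, d i) ≠ 0 := Finset.prod_ne_zero_iff.2 fun i _ => h0 i
  refine ⟨hne, ?_⟩
  rw [← quadraticChar_one_iff_isSquare hne, map_prod]
  have h1 : ∀ i, quadraticChar (ZMod l) (d i) = -1 := fun i =>
    quadraticChar_neg_one_iff_not_isSquare.2 (hd i)
  rw [Finset.prod_congr rfl fun i _ => h1 i, Finset.prod_const, Finset.card_univ]
  constructor
  · intro h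
    by_contra hodd
    rw [Nat.not_even_iff_odd] at hodd
    rw [hodd.neg_one_pow] at h
    norm_num at h
  · intro h
    exact h.neg_one_pow

end BAS

open BAS in
theorem BAS_thm (h1 : Stmt_ONE) (h2 : Stmt_DCL) : Stmt_BAS := by
  classical
  intro G _ _ p l _ N' P H Y u α e hl hl2 hD hE hcard
  have : Fact l.Prime := ⟨hl⟩
  obtain ⟨R, x, hx⟩ := DCLa.reps N' H
  have hx' : ∀ g : G, ∃! i, InD N' H (x i) g := hx
  have huP : u ∈ P := (hD.mem_P u).2 ⟨1, (pow_one u).symm⟩
  have huH : u ∈ H := hD.P_le huP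
  set J : Type := {i : Fin R // ¬ ∀ v ∈ P, x i * v * (x i)⁻¹ ∈ N'} with hJ
  choose m b h4 hLI hsp hns using fun i : J =>
    h1 G p l N' P H Y u α e hl hl2 hD hE hcard (x i.1) i.2
  have hmem : ∀ (i : J) (j : Fin (m i)), InU N' Y u e (b i j) ∧
      ∀ g', b i j g' ≠ 0 → InD N' H (x i.1) g' := fun i j =>
    (hsp i (b i j)).1 (Submodule.subset_span ⟨j, rfl⟩)
  let B : (Σ i : J, Fin (m i)) → G → ZMod l := fun s => b s.1 s.2
  let E : (Σ i : J, Fin (m i)) ≃ Fin (Fintype.card (Σ i : J, Fin (m i))) := Fintype.equivFin _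
  let M : ∀ i : J, Matrix (Fin (m i)) (Fin (m i)) (ZMod l) := fun i =>
    Matrix.of fun j k => ∑ g, b i j g * b i k g
  have hgram : Matrix.of (fun s t : (Σ i : J, Fin (m i)) => ∑ g, B s g * B t g) =
      Matrix.blockDiagonal' M := by
    ext ⟨i, j⟩ ⟨i', j'⟩
    by_cases hii : i = i'
    · subst hii
      rw [Matrix.blockDiagonal'_apply_eq]
      rfl
    · rw [Matrix.blockDiagonal'_apply_ne _ _ _ hii]
      change ∑ g, b i j g * b i' j' g = 0
      refine Finset.sum_eq_zero fun g _ => ?_
      by_contra hne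
      have a1 := (hmem i j).2 g (left_ne_zero_of_mul hne)
      have a2 := (hmem i' j').2 g (right_ne_zero_of_mul hne)
      exact hii (Subtype.ext ((hx' g).unique a1 a2))
  have hdet : Matrix.det (Matrix.of fun i j : Fin (Fintype.card (Σ i : J, Fin (m i))) =>
      ∑ g, B (E.symm i) g * B (E.symm j) g) = ∏ i : J, (M i).det := by
    have e1 : (Matrix.of fun i j : Fin (Fintype.card (Σ i : J, Fin (m i))) =>
        ∑ g, B (E.symm i) g * B (E.symm j) g) =
        (Matrix.of (fun s t : (Σ i : J, Fin (m i)) => ∑ g, B s g * B t g)).submatrix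
          E.symm E.symm := by
      ext i j
      rfl
    rw [e1, Matrix.det_submatrix_equiv_self, hgram, det_block]
  have hprod := prod_nonsq l hl2 (fun i : J => (M i).det) (fun i => hns i)
  have hInv : ∀ a ∈ N', ∀ k ∈ H, ∀ y : G,
      (if ∀ v ∈ P, a * y * k * v * (a * y * k)⁻¹ ∈ N' then (0 : ℚ) else 1) =
        if ∀ v ∈ P, y * v * y⁻¹ ∈ N' then 0 else 1 := by
    intro a ha k hk y
    exact if_congr (bad_const hD N' ⟨a, ha, k, hk, rfl⟩) rfl rfl
  refine ⟨Fintype.card J, Fintype.card (Σ i : J, Fin (m i)), fun i => B (E.symm i), ?_, ?_, ?_,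
    ?_, ?_, ?_⟩
  · rw [(h2 G N' H).1 R x hx (fun x => if ∀ v ∈ P, x * v * x⁻¹ ∈ N' then (0 : ℚ) else 1) hInv]
    have e1 : ∀ i : Fin R, (if ∀ v ∈ P, x i * v * (x i)⁻¹ ∈ N' then (0 : ℚ) else 1) =
        if ¬ ∀ v ∈ P, x i * v * (x i)⁻¹ ∈ N' then (1 : ℚ) else 0 := by
      intro i
      by_cases h : ∀ v ∈ P, x i * v * (x i)⁻¹ ∈ N'
      · rw [if_pos h, if_neg (not_not.2 h)]
      · rw [if_neg h, if_pos h]
    rw [Finset.sum_congr rfl fun i _ => e1 i, Finset.sum_boole, Fintype.card_subtype]
  · rw [Fintype.card_sigma]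
    refine Finset.dvd_sum fun i _ => ?_
    rw [Fintype.card_fin]
    exact h4 i
  · rw [Fintype.linearIndependent_iff]
    intro c hc i
    have hd : Matrix.det (Matrix.of fun i j : Fin (Fintype.card (Σ i : J, Fin (m i))) =>
      ∑ g, B (E.symm i) g * B (E.symm j) g) ≠ 0 := by
      rw [hdet]
      exact hprod.1
    have h5 : Matrix.vecMul c (Matrix.of fun i j : Fin (Fintype.card (Σ i : J, Fin (m i))) =>
      ∑ g, B (E.symm i) g * B (E.symm j) g) = 0 := by
      funext j
      change ∑ i, c i * ∑ g, B (E.symm i) g * B (E.symm j) g = 0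
      have e2 : ∑ i, c i * ∑ g, B (E.symm i) g * B (E.symm j) g =
          ∑ g, (∑ i, c i • B (E.symm i)) g * B (E.symm j) g := by
        simp only [Finset.mul_sum]
        rw [Finset.sum_comm]
        refine Finset.sum_congr rfl fun g _ => ?_
        rw [Finset.sum_apply, Finset.sum_mul]
        refine Finset.sum_congr rfl fun i _ => ?_
        rw [Pi.smul_apply, smul_eq_mul, mul_assoc]
      rw [e2, hc]
      simp
    have h6 := Matrix.eq_zero_of_vecMul_eq_zero hd h5
    exact congrFun h6 i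
  · intro y
    constructor
    · intro hy
      have hle : Submodule.span (ZMod l) (Set.range fun i => B (E.symm i)) ≤
          sub N' Y u e := by
        rw [Submodule.span_le]
        rintro _ ⟨i, rfl⟩
        exact (hmem _ _).1
      exact hle hy
    · intro hy
      have e1 : y = ∑ i : Fin R, res N' H (x i) y := by
        funext g
        rw [Finset.sum_apply]
        obtain ⟨i, hi, hun⟩ := hx' g
        rw [Finset.sum_eq_single i]
        · change y g = if InD N' H (x i) g then y g else 0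
          rw [if_pos hi]
        · intro j _ hj
          change (if InD N' H (x j) g then y g else 0) = 0
          rw [if_neg fun h => hj (hun j h)]
        · intro h
          exact absurd (Finset.mem_univ i) h
      rw [e1]
      refine Submodule.sum_mem _ fun i _ => ?_
      have hr := res_inU N' H Y u e hD.Y_le huH (x i) y hy
      by_cases hb : ∀ v ∈ P, x i * v * (x i)⁻¹ ∈ N'
      · have e2 : res N' H (x i) y = 0 := by
          funext g
          change (if InD N' H (x i) g then y g else 0) = 0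
          by_cases hg : InD N' H (x i) g
          · rw [if_pos hg]
            have hbg := (bad_const hD N' hg).2 hb
            have e3 : ∀ v : ZMod p, y (g * u ^ v.val) = y g := by
              intro v
              have h7 : g * u ^ v.val = (g * u ^ v.val * g⁻¹) * g := by group
              rw [h7]
              exact hy.1 _ (hbg _ (pow_mem huP _)) g
            rw [← hy.2.2 g, Finset.sum_congr rfl fun v _ => by rw [e3 v], ← Finset.sum_mul,
              hE.zero, zero_mul]
          · rw [if_neg hg]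
        rw [e2]
        exact Submodule.zero_mem _
      · have h7 : res N' H (x i) y ∈ Submodule.span (ZMod l) (Set.range (b ⟨i, hb⟩)) := by
          rw [hsp]
          refine ⟨hr, fun g' hg' => ?_⟩
          by_contra hcon
          apply hg'
          have hcon' : ¬ InD N' H (x i) g' := hcon
          change (if InD N' H (x i) g' then y g' else 0) = 0
          rw [if_neg hcon']
        refine Submodule.span_mono ?_ h7
        rintro _ ⟨j, rfl⟩
        refine ⟨E ⟨⟨i, hb⟩, j⟩, ?_⟩
        change B (E.symm (E ⟨⟨i, hb⟩, j⟩)) = _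
        rw [Equiv.symm_apply_apply]
  · rw [hdet]
    exact hprod.1
  · rw [hdet]
    exact hprod.2

end Pool.Agent.ADG
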