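import Pool.Agent.ADG.St6

/-!
# ADG, module CTA: the parity of the number of orbits in `Fix(P)` (helper20)
-/

set_option autoImplicit false
set_option linter.unusedSectionVars false

namespace Pool.Agent.ADG

open Finset Pool.Agent.ADS

namespace CTAx

section Alg

variable {G : Type} [Group G] [Fintype G] {l : ℕ} [Fact l.Prime] {m1 m2 : ℕ}
  (b1 : Fin m1 → G → ZMod l) (b2 : Fin m2 → G → ZMod l)

/-- The Gram matrix. -/
def gram {m : ℕ} (b : Fin m → G → ZMod l) : Matrix (Fin m) (Fin m) (ZMod l) :=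
  Matrix.of fun i j => ∑ x, b i x * b j x

theorem gram_symm {m : ℕ} (b : Fin m → G → ZMod l) : (gram b).transpose = gram b := by
  ext i j
  simp only [gram, Matrix.transpose_apply, Matrix.of_apply]
  exact Finset.sum_congr rfl fun x _ => mul_comm _ _

/-- The pair of the linear combinations. -/
def phi : ((Fin m1 ⊕ Fin m2) → ZMod l) →ₗ[ZMod l] ((G → ZMod l) × (G → ZMod l)) where
  toFun v := (∑ i, v (Sum.inl i) • b1 i, ∑ j, v (Sum.inr j) • b2 j)
  map_add' v w := by
    simp only [Pi.add_apply, add_smul, Finset.sum_add_distrib, Prod.mk_add_mk]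
  map_smul' c v := by
    simp only [Pi.smul_apply, smul_eq_mul, mul_smul, Finset.smul_sum, RingHom.id_apply,
      Prod.smul_mk]

theorem phi_fst (v : (Fin m1 ⊕ Fin m2) → ZMod l) : (phi b1 b2 v).1 = ∑ i, v (Sum.inl i) • b1 i :=
  rfl

theorem phi_snd (v : (Fin m1 ⊕ Fin m2) → ZMod l) : (phi b1 b2 v).2 = ∑ i, v (Sum.inr i) • b2 i :=
  rfl

/-- The bilinear form of the linear combinations. -/
theorem form_comb {m : ℕ} (b : Fin m → G → ZMod l) (v w : Fin m → ZMod l) :
    ∑ g, (∑ i, v i • b i) g * (∑ j, w j • b j) g = ∑ i, ∑ j, v i * gram b i j * w j := by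
  simp only [Finset.sum_apply, Pi.smul_apply, smul_eq_mul, gram, Matrix.of_apply]
  have h1 : ∀ g : G, (∑ i, v i * b i g) * (∑ j, w j * b j g) =
      ∑ i, ∑ j, v i * (b i g * b j g) * w j := by
    intro g
    rw [Finset.sum_mul_sum]
    refine Finset.sum_congr rfl fun i _ => Finset.sum_congr rfl fun j _ => ?_
    ring
  rw [Finset.sum_congr rfl fun g _ => h1 g, Finset.sum_comm]
  refine Finset.sum_congr rfl fun i _ => ?_
  rw [Finset.sum_comm]
  refine Finset.sum_congr rfl fun j _ => ?_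
  rw [Finset.mul_sum, Finset.sum_mul]

theorem form_phi (v w : (Fin m1 ⊕ Fin m2) → ZMod l) :
    ∑ i, ∑ j, v i * (Matrix.fromBlocks (gram b1) 0 0 (-gram b2)) i j * w j =
      ∑ g, (phi b1 b2 v).1 g * (phi b1 b2 w).1 g - ∑ g, (phi b1 b2 v).2 g * (phi b1 b2 w).2 g := by
  rw [phi_fst, phi_fst, phi_snd, phi_snd, form_comb b1 (fun i => v (Sum.inl i)),
    form_comb b2 (fun i => v (Sum.inr i))]
  simp only [Fintype.sum_sum_type, Matrix.fromBlocks_apply₁₁, Matrix.fromBlocks_apply₁₂,
    Matrix.fromBlocks_apply₂₁, Matrix.fromBlocks_apply₂₂, Matrix.zero_apply, mul_zero, zero_mul,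
    Finset.sum_const_zero, add_zero, zero_add, Matrix.neg_apply, mul_neg, neg_mul,
    Finset.sum_neg_distrib, sub_eq_add_neg]

theorem isSquare_iff {a b : ZMod l} (ha : a ≠ 0) (hb : b ≠ 0) (h : IsSquare (a * b)) :
    IsSquare a ↔ IsSquare b := by
  obtain ⟨c, hc⟩ := h
  constructor
  · rintro ⟨s, hs⟩
    have hs0 : s ≠ 0 := by
      rintro rfl
      exact ha (by rw [hs, zero_mul])
    refine ⟨c / s, ?_⟩
    have h1 : s * s * b = c * c := by rw [← hs, hc]
    field_simp
    linear_combination h1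
  · rintro ⟨s, hs⟩
    have hs0 : s ≠ 0 := by
      rintro rfl
      exact hb (by rw [hs, zero_mul])
    refine ⟨c / s, ?_⟩
    have h1 : a * (s * s) = c * c := by rw [← hs, hc]
    field_simp
    linear_combination h1

end Alg

section Sums

variable {G : Type} [Group G] [Fintype G]

theorem sta_bot (H : Subgroup G) (x : G) : sta (⊥ : Subgroup G) H x = 1 := by
  unfold sta
  rw [Nat.card_eq_one_iff_unique]
  constructor
  · constructor
    rintro ⟨a, _, ha⟩ ⟨b, _, hb⟩
    rw [Subgroup.mem_bot] at ha hb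
    have ha' : a = 1 := by
      have := congrArg (fun t => x⁻¹ * t * x) ha
      simpa [mul_assoc] using this
    have hb' : b = 1 := by
      have := congrArg (fun t => x⁻¹ * t * x) hb
      simpa [mul_assoc] using this
    exact Subtype.ext (ha'.trans hb'.symm)
  · exact ⟨⟨1, H.one_mem, by simp⟩⟩

theorem dc_bot (H : Subgroup G) : dc (⊥ : Subgroup G) H (fun _ => 1) = (H.index : ℚ) := by
  unfold dc
  simp only [sta_bot, Nat.cast_one, mul_one, Finset.sum_const, Finset.card_univ, nsmul_eq_mul]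
  have h1 : Nat.card (⊥ : Subgroup G) = 1 := Subgroup.card_bot
  rw [h1]
  have h2 := H.index_mul_card
  have h3 : (0 : ℚ) < Nat.card H := by exact_mod_cast Nat.card_pos
  rw [← Nat.card_eq_fintype_card, ← h2]
  push_cast
  field_simp

theorem dc_add (N H : Subgroup G) (f g : G → ℚ) :
    dc N H (fun x => f x + g x) = dc N H f + dc N H g := by
  unfold dc
  rw [← add_div, ← Finset.sum_add_distrib]
  congr 1
  exact Finset.sum_congr rfl fun x _ => by ring

end Sums

end CTAx

open CTAx in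
theorem CTA_thm (hGRM : Stmt_GRM) (hLGR : Stmt_LGR) (hPCE : Stmt_PCE) (hOPR : Stmt_OPR)
    (hBAS : Stmt_BAS) (hGRP : Stmt_GRP) (hDCL : Stmt_DCL) : Stmt_CTA := by
  intro G _ _ n N D hD l hl hl2 hodd p _ P H Y u α hp2 hlp hHD
  classical
  have : Fact l.Prime := ⟨hl⟩
  -- arithmetic
  have h4 : 4 ∣ orderOf (l : ZMod p) := by
    obtain ⟨κ, hκ, _⟩ := hHD.two
    exact (Dvd.intro_left (2 ^ κ) (by ring)).trans hκ
  have hln : l ∣ n := by
    by_contra hcon
    rw [Nat.factorization_eq_zero_of_not_dvd hcon] at hodd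
    exact absurd hodd (by decide)
  have hlG : ¬ l ∣ Nat.card G := by
    rw [hD.card_group]
    intro h
    have h2 := hD.two_le
    have h1 : l ∣ n ^ 2 := hln.trans (Dvd.intro_left n (by ring))
    have h3 : 1 ≤ n ^ 2 := Nat.one_le_pow _ _ (by omega)
    have h5 := (Nat.dvd_sub h1 h)
    rw [show n ^ 2 - (n ^ 2 - 1) = 1 by omega] at h5
    exact hl.one_lt.ne' (Nat.dvd_one.1 h5)
  obtain ⟨e, he⟩ := hPCE p l hHD.prime hl hp2 hl2 hlp h4
  -- the two spaces
  obtain ⟨r1, m1, b1, hr1, hm1, _, hs1, hd1, hq1⟩ :=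
    hBAS G p l ⊥ P H Y u α e hl hl2 hHD he hlG
  obtain ⟨r2, m2, b2, hr2, hm2, _, hs2, hd2, hq2⟩ :=
    hBAS G p l N P H Y u α e hl hl2 hHD he hlG
  obtain ⟨C, hC1, hC2, hC3, hC4⟩ := hLGR G n N D hD l hl hodd
  obtain ⟨o1, o2, o3, o4⟩ := hOPR G p l P H Y u α e hl hHD he hlG
  have hmem1 : ∀ v : (Fin m1 ⊕ Fin m2) → ZMod l,
      (phi b1 b2 v).1 ∈ Submodule.span (ZMod l) (Set.range b1) := by
    intro v
    rw [phi_fst]
    exact Submodule.sum_mem _ fun i _ =>
      Submodule.smul_mem _ _ (Submodule.subset_span (Set.mem_range_self i))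
  have hmem2 : ∀ v : (Fin m1 ⊕ Fin m2) → ZMod l,
      (phi b1 b2 v).2 ∈ Submodule.span (ZMod l) (Set.range b2) := by
    intro v
    rw [phi_snd]
    exact Submodule.sum_mem _ fun i _ =>
      Submodule.smul_mem _ _ (Submodule.subset_span (Set.mem_range_self i))
  -- the projection of an element of `C`
  have hpC : ∀ w ∈ C, (pj Y u e w.1, pj Y u e w.2) ∈ C := by
    intro w hw
    have h1 : (pj Y u e w.1, pj Y u e w.2) = (Nat.card Y : ZMod l)⁻¹ •
        ∑ y ∈ univ.filter (fun y : G => y ∈ Y), ∑ v : ZMod p,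
          e v • (((fun g => w.1 (g * (u ^ v.val * y))), (fun g => w.2 (g * (u ^ v.val * y)))) :
            (G → ZMod l) × (G → ZMod l)) := by
      apply Prod.ext
      · funext g
        simp only [pj, Prod.smul_fst, Prod.fst_sum, Pi.smul_apply, Finset.sum_apply, smul_eq_mul,
          mul_assoc]
      · funext g
        simp only [pj, Prod.smul_snd, Prod.snd_sum, Pi.smul_apply, Finset.sum_apply, smul_eq_mul,
          mul_assoc]
    rw [h1]
    refine Submodule.smul_mem _ _ (Submodule.sum_mem _ fun y _ => Submodule.sum_mem _ fun v _ =>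
      Submodule.smul_mem _ _ (hC3 w hw _))
  have hex : ∀ w ∈ C, ∃ w' : (Fin m1 ⊕ Fin m2) → ZMod l,
      phi b1 b2 w' = (pj Y u e w.1, pj Y u e w.2) := by
    intro w hw
    have h1 : pj Y u e w.1 ∈ Submodule.span (ZMod l) (Set.range b1) := (hs1 _).2 (o1 w.1)
    have h2 : pj Y u e w.2 ∈ Submodule.span (ZMod l) (Set.range b2) := by
      refine (hs2 _).2 ⟨o3 N w.2 (hC1 w hw), (o1 w.2).2⟩
    rw [Submodule.mem_span_range_iff_exists_fun] at h1 h2
    obtain ⟨c1, hc1⟩ := h1
    obtain ⟨c2, hc2⟩ := h2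
    refine ⟨Sum.elim c1 c2, Prod.ext ?_ ?_⟩
    · rw [phi_fst]
      exact hc1
    · rw [phi_snd]
      exact hc2
  -- the determinant
  have hsq : IsSquare (Matrix.det (gram b1) * Matrix.det (gram b2)) := by
    obtain ⟨c1, rfl⟩ := hm1
    obtain ⟨c2, rfl⟩ := hm2
    have hdet : (Matrix.fromBlocks (gram b1) 0 0 (-gram b2)).det =
        Matrix.det (gram b1) * Matrix.det (gram b2) := by
      rw [Matrix.det_fromBlocks_zero₂₁, Matrix.det_neg, Fintype.card_fin]
      have : (-1 : ZMod l) ^ (4 * c2) = 1 := by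
        rw [pow_mul, show ((-1 : ZMod l)) ^ 4 = 1 by norm_num, one_pow]
      rw [this, one_mul]
    have h := hGRM (ZMod l) (Fin (4 * c1) ⊕ Fin (4 * c2))
      (Matrix.fromBlocks (gram b1) 0 0 (-gram b2)) (C.comap (phi b1 b2)) (by
        rw [hdet]
        exact mul_ne_zero hd1 hd2) (by
        rw [Matrix.fromBlocks_transpose, Matrix.transpose_neg, gram_symm, gram_symm]
        simp) (by
        intro v
        constructor
        · intro hv w hw
          rw [form_phi, sub_eq_zero]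
          exact hC2 _ hv _ hw
        · intro hv
          refine hC4 _ (fun a ha g => ((hs2 _).1 (hmem2 v)).1 a ha g) fun w hw => ?_
          obtain ⟨w', hw'⟩ := hex w hw
          have h1 := hv w' (by
            rw [Submodule.mem_comap, hw']
            exact hpC w hw)
          rw [form_phi, hw', sub_eq_zero] at h1
          have h2 : ∑ g, (phi b1 b2 v).1 g * pj Y u e w.1 g = ∑ g, (phi b1 b2 v).1 g * w.1 g := by
            rw [← o4, o2 _ ((hs1 _).1 (hmem1 v))]
          have h3 : ∑ g, (phi b1 b2 v).2 g * pj Y u e w.2 g = ∑ g, (phi b1 b2 v).2 g * w.2 g := by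
            have h4 : InU ⊥ Y u e (phi b1 b2 v).2 :=
              ⟨fun a ha g => by rw [Subgroup.mem_bot.1 ha, one_mul], ((hs2 _).1 (hmem2 v)).2⟩
            rw [← o4, o2 _ h4]
          rw [← h2, ← h3]
          exact h1)
    have h5 := h.2
    rw [hdet, Fintype.card_sum, Fintype.card_fin, Fintype.card_fin,
      show (4 * c1 + 4 * c2) / 2 = 2 * (c1 + c2) by omega, pow_mul,
      show ((-1 : ZMod l)) ^ 2 = 1 by norm_num, one_pow, one_mul] at h5
    exact h5
  have hpar : Even r1 ↔ Even r2 := by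
    rw [← hq1, ← hq2]
    exact isSquare_iff hd1 hd2 hsq
  -- `r1` is the index
  have hu1 : u ≠ 1 := by
    rintro rfl
    have := hHD.ord_u
    rw [orderOf_one] at this
    exact hHD.prime.one_lt.ne this
  have huP : u ∈ P := (hHD.mem_P u).2 ⟨1, (pow_one u).symm⟩
  have hidx : (r1 : ℚ) = (H.index : ℚ) := by
    rw [← hr1, ← dc_bot H]
    congr 1
    funext x
    rw [if_neg]
    intro hcon
    have h1 := hcon u huP
    rw [Subgroup.mem_bot] at h1
    apply hu1
    have := congrArg (fun t => x⁻¹ * t * x) h1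
    simpa [mul_assoc] using this
  have hidx' : r1 = H.index := by exact_mod_cast hidx
  -- the number of double cosets
  obtain ⟨r, x, _, hx, _, _, hev⟩ := hGRP G n N D hD H
  have hev' := (hev l hl hodd).1
  have hr : dc N H (fun _ => 1) = r := by
    rw [(hDCL G N H).1 r x hx (fun _ => 1) (fun _ _ _ _ _ => rfl)]
    simp
  have hsum : dc N H (fun _ => 1) = r2 +
      dc N H (fun x => if ∀ v ∈ P, x * v * x⁻¹ ∈ N then 1 else 0) := by
    rw [← hr2, ← dc_add]
    congr 1
    funext x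
    split_ifs <;> norm_num
  have hgoal : dc N H (fun x => if ∀ v ∈ P, x * v * x⁻¹ ∈ N then 1 else 0) = (r : ℚ) - r2 := by
    rw [← hr, hsum]
    ring
  rw [hgoal]
  have hr12 : Even ((r : ℤ) - r2) := by
    rw [Int.even_sub]
    rw [← hidx'] at hev'
    have h1 : (Even r1 ↔ Even r) := Nat.even_add.1 hev'
    have h2 : Even r ↔ Even r2 := h1.symm.trans hpar
    simpa using h2
  obtain ⟨k, hk⟩ := hr12
  refine ⟨k, ?_⟩
  have h7 : ((r : ℚ)) - r2 = (((r : ℤ) - r2 : ℤ) : ℚ) := by push_cast; ring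
  rw [h7, hk]
  push_cast
  ring

end Pool.Agent.ADG
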