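import Pool.Agent.ADG.St6

/-! # Project ADG, module CTW: the order of `l` modulo `p` (helper22) -/

set_option autoImplicit false

namespace Pool.Agent.ADG

open Finset Pool.Agent.ADS

namespace CTWa

/-- conjugation by powers -/
lemma conj_pow_eq {G : Type} [Group G] {p : ℕ} [NeZero p] {u h : G} (hu : orderOf u = p)
    {a : ZMod p} (ha : h * u * h⁻¹ = u ^ a.val) (j : ℕ) :
    h ^ j * u * (h ^ j)⁻¹ = u ^ (a ^ j).val := by
  induction j with
  | zero =>
    rw [pow_zero, pow_zero, one_mul, inv_one, mul_one]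
    nth_rewrite 1 [← pow_one u]
    rw [pow_inj_mod, hu, ← ZMod.natCast_eq_natCast_iff', ZMod.natCast_zmod_val, Nat.cast_one]
  | succ j ih =>
    have e : h ^ (j + 1) * u * (h ^ (j + 1))⁻¹ = h * (h ^ j * u * (h ^ j)⁻¹) * h⁻¹ := by
      rw [pow_succ']
      group
    rw [e, ih, ← conj_pow, ha, ← pow_mul, pow_inj_mod, hu, ← ZMod.natCast_eq_natCast_iff',
      ZMod.natCast_zmod_val, Nat.cast_mul, ZMod.natCast_zmod_val, ZMod.natCast_zmod_val, pow_succ']

lemma pow_eq_one_of_comm {G : Type} [Group G] {p : ℕ} [NeZero p] {u h : G} (hu : orderOf u = p)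
    {a : ZMod p} (ha : h * u * h⁻¹ = u ^ a.val) (j : ℕ) (hj : h ^ j * u = u * h ^ j) :
    a ^ j = 1 := by
  have h1 := conj_pow_eq hu ha j
  rw [hj, mul_inv_cancel_right] at h1
  nth_rewrite 1 [← pow_one u] at h1
  rw [pow_inj_mod, hu, ← ZMod.natCast_eq_natCast_iff', ZMod.natCast_zmod_val, Nat.cast_one] at h1
  exact h1.symm

end CTWa

theorem CTW_thm (hCTA : Stmt_CTA) (hMST : Stmt_MST) (hTCT : Stmt_TCT) : Stmt_CTW := by
  intro G _ _ n N D hD p hp hp2 hnp l hl hl2 hodd hdvd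
  have := Fintype.ofFinite G
  have : NeZero p := ⟨hp.ne_zero⟩
  have := Fact.mk hp
  obtain ⟨P, M, A, A', Y, Y', v, hPD, hYA, hAY, hpY, -, -, -⟩ := hMST G n N D hD p hp hp2 hnp
  have hn2 := hD.two_le
  have hln : l ∣ n := by
    rcases hodd with ⟨k, hk⟩
    exact Nat.dvd_of_factorization_pos (by omega)
  have hpn : p ∣ n - 1 := Nat.dvd_of_factorization_pos (by omega)
  have hlp : l ≠ p := by
    rintro rfl
    have h1 : l ∣ n - (n - 1) := Nat.dvd_sub hln hpn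
    have h2 : n - (n - 1) = 1 := by omega
    rw [h2] at h1
    exact hl.one_lt.ne' (Nat.dvd_one.1 h1)
  -- a generator of `P`
  have hcyc : IsCyclic P := isCyclic_of_prime_card hPD.card_P
  obtain ⟨⟨u, huP⟩, hu⟩ := hcyc.exists_generator
  have hord : orderOf u = p := by
    have h1 := orderOf_eq_card_of_forall_mem_zpowers hu
    rw [hPD.card_P, Subgroup.orderOf_mk] at h1
    exact h1
  have hmemP : ∀ g, g ∈ P ↔ ∃ k : ℕ, g = u ^ k := by
    intro g
    constructor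
    · intro hg
      have h1 := hu ⟨g, hg⟩
      rw [← mem_powers_iff_mem_zpowers] at h1
      obtain ⟨k, hk⟩ := h1
      exact ⟨k, (congrArg Subtype.val hk).symm⟩
    · rintro ⟨k, rfl⟩
      exact P.pow_mem huP k
  have hcomm : ∀ x ∈ P, ∀ w ∈ P, x * w = w * x := by
    intro x hx w hw
    obtain ⟨i, rfl⟩ := (hmemP x).1 hx
    obtain ⟨j, rfl⟩ := (hmemP w).1 hw
    rw [← pow_add, ← pow_add, add_comm]
  have hPA : P ≤ A := by
    intro g hg
    refine (hPD.mem_A g).2 ⟨(hPD.mem_M g).2 fun k => ?_, fun w hw => hcomm _ (P.pow_mem hg _) w hw⟩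
    rw [P.mul_mem_cancel_right (P.inv_mem hg), P.mul_mem_cancel_left hg]
  -- the action
  have hα : ∀ h : G, h ∈ A → ∃ a : ZMod p, h * u * h⁻¹ = u ^ a.val := by
    intro h hh
    have h1 : h * u * h⁻¹ ∈ P := ((hPD.mem_M h).1 ((hPD.mem_A h).1 hh).1 u).1 huP
    obtain ⟨k, hk⟩ := (hmemP _).1 h1
    refine ⟨(k : ZMod p), ?_⟩
    rw [hk, pow_inj_mod, hord, ZMod.val_natCast, Nat.mod_mod]
  choose! α hα using hα
  have htwo : ∀ h ∈ A, α h ^ 2 ^ ((n ^ 2 - 1).factorization 2) = 1 := by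
    intro h hh
    have h1 : α h ^ 2 ^ (v + 1) = 1 :=
      CTWa.pow_eq_one_of_comm hord (hα h hh) _ (((hPD.mem_A h).1 hh).2 u huP)
    have h2 : α h ^ (n ^ 2 - 1) = 1 := by
      refine CTWa.pow_eq_one_of_comm hord (hα h hh) _ ?_
      rw [← hD.card_group, pow_card_eq_one', one_mul, mul_one]
    obtain ⟨j, -, hj⟩ := (Nat.dvd_prime_pow Nat.prime_two).1 (orderOf_dvd_of_pow_eq_one h1)
    have h3 : 2 ^ j ∣ n ^ 2 - 1 := hj ▸ orderOf_dvd_of_pow_eq_one h2
    have h4 : n ^ 2 - 1 ≠ 0 := by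
      have : 2 ^ 2 ≤ n ^ 2 := Nat.pow_le_pow_left hn2 2
      omega
    have h5 := (Nat.prime_two.pow_dvd_iff_le_factorization h4).1 h3
    refine orderOf_dvd_iff_pow_eq_one.1 ?_
    rw [hj]
    exact pow_dvd_pow 2 h5
  have hHD : HD P A Y u p l α :=
    { prime := hp
      card_P := hPD.card_P
      ord_u := hord
      mem_P := hmemP
      P_le := hPA
      Y_le := hYA
      card_H := hAY
      cop := hpY
      act := hα
      two := ⟨_, hdvd, htwo⟩ }
  obtain ⟨k, hk⟩ := hCTA G n N D hD l hl hl2 hodd p P A Y u α hp2 hlp hHD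
  obtain ⟨⟨a, haodd, ha⟩, -⟩ := hTCT G N P M A A' p v hPD
  rw [ha] at hk
  have h1 : (a : ℤ) = 2 * k := by exact_mod_cast hk
  obtain ⟨b, hb⟩ := haodd
  omega

end Pool.Agent.ADG
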