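import Pool.Agent.ADG.St6

/-!
# Project ADG, part 6, module DR1

The sum of the reciprocals of the primes in an invertible residue class diverges (strong form of
Dirichlet's theorem), from the lower bound of the L-series of the von Mangoldt function in Mathlib.
-/

set_option autoImplicit false

namespace Pool.Agent.ADG

open Finset ArithmeticFunction

private lemma dr1_prime_term (x : ℝ) (hx : 1 < x) (n : ℕ) (hn : n.Prime) :
    Real.log n / (n : ℝ) ^ x ≤ 1 / (x - 1) * (1 / n) := by
  have hn0 : (0 : ℝ) < n := by exact_mod_cast hn.pos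
  have h1 : Real.log n ≤ (n : ℝ) ^ (x - 1) / (x - 1) :=
    Real.log_le_rpow_div hn0.le (by linarith)
  have h2 : (n : ℝ) ^ x = (n : ℝ) ^ (x - 1) * n := by
    rw [← Real.rpow_add_one hn0.ne']
    congr 1
    ring
  have h3 : (0 : ℝ) < (n : ℝ) ^ (x - 1) := Real.rpow_pos_of_pos hn0 _
  rw [h2, div_le_iff₀ (by positivity)]
  calc Real.log n ≤ (n : ℝ) ^ (x - 1) / (x - 1) := h1
    _ = 1 / (x - 1) * (1 / n) * ((n : ℝ) ^ (x - 1) * n) := by
        field_simp

private lemma dr1_small_term (x : ℝ) (hx : 1 < x) (n : ℕ) (hn : n.Prime) :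
    Real.log n / (n : ℝ) ^ x ≤ 1 := by
  have hn1 : (1 : ℝ) ≤ n := by exact_mod_cast hn.one_lt.le
  have h1 : Real.log n ≤ n := (Real.log_le_sub_one_of_pos (by linarith)).trans (by linarith)
  have h2 : (n : ℝ) ≤ (n : ℝ) ^ x := by
    conv_lhs => rw [← Real.rpow_one (n : ℝ)]
    exact Real.rpow_le_rpow_of_exponent_le hn1 hx.le
  rw [div_le_one (by positivity)]
  exact h1.trans h2

theorem DR1_thm : Stmt_DR1 := by
  intro m a hm ha hs
  haveI : NeZero m := ⟨hm.ne'⟩
  have hu : IsUnit ((a : ℕ) : ZMod m) := (ZMod.isUnit_iff_coprime a m).mpr ha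
  obtain ⟨C, hC⟩ := vonMangoldt.LSeries_residueClass_lower_bound hu
  set c : ℝ := ((m.totient : ℕ) : ℝ)⁻¹ with hc
  have hc0 : 0 < c := inv_pos.mpr (by exact_mod_cast Nat.totient_pos.mpr hm)
  set f : ℕ → ℝ := fun q => if q.Prime ∧ q ≡ a [MOD m] then (1 : ℝ) / q else 0 with hf
  have hf0 : ∀ n, 0 ≤ f n := by
    intro n
    simp only [hf]
    split_ifs <;> positivity
  obtain ⟨S, hS⟩ := summable_iff_vanishing_norm.mp hs (c / 2) (by positivity)
  set g : ℕ → ℝ := fun n =>
    (if n.Prime then 0 else vonMangoldt.residueClass ((a : ℕ) : ZMod m) n) / n with hg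
  have hgs : Summable g := vonMangoldt.summable_residueClass_non_primes_div _
  have hg0 : ∀ n, 0 ≤ g n := by
    intro n
    simp only [hg]
    split_ifs
    · simp
    · exact div_nonneg (vonMangoldt.residueClass_nonneg _ n) n.cast_nonneg
  set B : ℝ := ∑' n, g n with hB
  have key : ∀ x : ℝ, x ∈ Set.Ioc (1 : ℝ) 2 →
      c / (x - 1) - C ≤ B + S.card + 1 / (x - 1) * (c / 2) := by
    intro x hx
    refine (hC hx).trans ?_
    have hx1 : 1 < x := hx.1
    have hxp : 0 < 1 / (x - 1) := by
      have : 0 < x - 1 := by linarith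
      positivity
    have hterm : ∀ n : ℕ, vonMangoldt.residueClass ((a : ℕ) : ZMod m) n / (n : ℝ) ^ x ≤
        g n + (if n ∈ S then (1 : ℝ) else 0) + 1 / (x - 1) * (if n ∈ S then 0 else f n) := by
      intro n
      have hA : (0 : ℝ) ≤ (if n ∈ S then (1 : ℝ) else 0) := by split_ifs <;> norm_num
      have hD : (0 : ℝ) ≤ 1 / (x - 1) * (if n ∈ S then 0 else f n) := by
        refine mul_nonneg hxp.le ?_
        split_ifs
        · exact le_rfl
        · exact hf0 n
      by_cases hp : n.Prime
      · have hgn : g n = 0 := by simp [hg, hp]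
        by_cases hr : ((n : ℕ) : ZMod m) = ((a : ℕ) : ZMod m)
        · have hmod : n ≡ a [MOD m] := (ZMod.natCast_eq_natCast_iff n a m).mp hr
          have hres : vonMangoldt.residueClass ((a : ℕ) : ZMod m) n = Real.log n := by
            rw [vonMangoldt.residueClass, Set.indicator_of_mem (by exact hr)]
            exact vonMangoldt_apply_prime hp
          rw [hres, hgn]
          by_cases hnS : n ∈ S
          · have := dr1_small_term x hx1 n hp
            simp only [hnS, if_true]
            linarith
          · have := dr1_prime_term x hx1 n hp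
            have hfn : f n = 1 / n := by simp [hf, hp, hmod]
            simp only [hnS, if_false, hfn]
            linarith
        · have hres : vonMangoldt.residueClass ((a : ℕ) : ZMod m) n = 0 := by
            rw [vonMangoldt.residueClass, Set.indicator_of_notMem (by exact hr)]
          rw [hres, zero_div, hgn]
          linarith
      · have hle : vonMangoldt.residueClass ((a : ℕ) : ZMod m) n / (n : ℝ) ^ x ≤ g n := by
          simp only [hg, hp, if_false]
          rcases n.eq_zero_or_pos with rfl | hn
          · simp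
          · have hn1 : (1 : ℝ) ≤ n := by exact_mod_cast hn
            refine div_le_div_of_nonneg_left (vonMangoldt.residueClass_nonneg _ _)
              (by linarith) ?_
            conv_lhs => rw [← Real.rpow_one (n : ℝ)]
            exact Real.rpow_le_rpow_of_exponent_le hn1 hx1.le
        linarith
    refine Real.tsum_le_of_sum_range_le (fun n => ?_) (fun k => ?_)
    · exact div_nonneg (vonMangoldt.residueClass_nonneg _ n) (by positivity)
    · refine (Finset.sum_le_sum (fun n _ => hterm n)).trans ?_
      rw [Finset.sum_add_distrib, Finset.sum_add_distrib, ← Finset.mul_sum]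
      have h1 : ∑ n ∈ range k, g n ≤ B := hgs.sum_le_tsum _ (fun n _ => hg0 n)
      have h2 : ∑ n ∈ range k, (if n ∈ S then (1 : ℝ) else 0) ≤ S.card := by
        rw [← Finset.sum_filter, Finset.sum_const, nsmul_eq_mul, mul_one]
        exact_mod_cast Finset.card_le_card (fun n hn => (Finset.mem_filter.mp hn).2)
      have h3 : ∑ n ∈ range k, (if n ∈ S then 0 else f n) ≤ c / 2 := by
        have e : ∑ n ∈ range k, (if n ∈ S then 0 else f n) = ∑ n ∈ range k \ S, f n := by
          rw [Finset.sdiff_eq_filter, Finset.sum_filter]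
          refine Finset.sum_congr rfl (fun n _ => ?_)
          by_cases h : n ∈ S <;> simp [h]
        rw [e]
        exact (le_abs_self _).trans
          (le_of_lt (by simpa [Real.norm_eq_abs] using hS (range k \ S) Finset.sdiff_disjoint))
      have h4 := mul_le_mul_of_nonneg_left h3 hxp.le
      linarith
  -- choose `x` close to `1`
  set K : ℝ := max 1 (B + S.card + C) with hK
  have hK1 : 1 ≤ K := le_max_left _ _
  set d : ℝ := min 1 (c / (4 * K)) with hd
  have hd0 : 0 < d := lt_min one_pos (by positivity)
  have hd1 : d ≤ 1 := min_le_left _ _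
  have hk := key (1 + d) ⟨by linarith, by linarith⟩
  have hsub : (1 : ℝ) + d - 1 = d := by ring
  rw [hsub] at hk
  have h5 : c / d - 1 / d * (c / 2) = (c / 2) / d := by
    field_simp
    ring
  have h6 : (c / 2) / d ≤ K := by
    have : (c / 2) / d ≤ B + S.card + C := by linarith
    exact this.trans (le_max_right _ _)
  have h7 : c / 2 ≤ K * d := (div_le_iff₀ hd0).mp h6
  have h8 : K * d ≤ K * (c / (4 * K)) := by
    apply mul_le_mul_of_nonneg_left (min_le_right _ _) (by linarith)
  have h9 : K * (c / (4 * K)) = c / 4 := by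
    field_simp
  linarith

end Pool.Agent.ADG
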