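import Pool.Agent.ADG.St6

/-!
# ADG, module DR2: primes modulo which `s ^ 2` has order divisible by a high power of `2` (helper7)
-/

set_option autoImplicit false

namespace Pool.Agent.ADG

open NumberTheorySymbols

private theorem dr2_root (s : ℕ) (hs : Odd s) (h1 : 1 < s) :
    ∃ b j : ℕ, s = b ^ 2 ^ j ∧ 1 < b ∧ Odd b ∧ ¬ IsSquare b := by
  induction s using Nat.strong_induction_on with
  | _ s ih =>
    by_cases hsq : IsSquare s
    · obtain ⟨t, ht⟩ := hsq
      have h2 : 1 < t := by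
        by_contra hc
        have : t * t ≤ 1 := by nlinarith
        omega
      have h3 : t < s := by nlinarith
      have h4 : Odd t := by
        rw [ht] at hs
        exact (Nat.odd_mul.1 hs).1
      obtain ⟨b, j, hb, hb1, hb2, hb3⟩ := ih t h3 h4 h2
      refine ⟨b, j + 1, ?_, hb1, hb2, hb3⟩
      rw [ht, hb, pow_succ, mul_comm (2 ^ j) 2, pow_mul', sq]
    · exact ⟨s, 0, by simp, h1, hs, hsq⟩

private theorem dr2_odd_exp (b : ℕ) (h0 : b ≠ 0) (hb : ¬ IsSquare b) :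
    ∃ w : ℕ, w.Prime ∧ Odd (b.factorization w) := by
  by_contra hc
  push Not at hc
  apply hb
  refine ⟨b.factorization.prod fun w e => w ^ (e / 2), ?_⟩
  conv_lhs => rw [← Nat.prod_factorization_pow_eq_self h0]
  rw [← Finsupp.prod_mul]
  refine Finsupp.prod_congr ?_
  intro w hw
  have h1 : w.Prime := Nat.prime_of_mem_primeFactors (by simpa using hw)
  have h2 := hc w h1
  rw [Nat.not_odd_iff_even] at h2
  rw [← pow_add]
  congr 1
  obtain ⟨r, hr⟩ := h2
  omega

private theorem dr2_dvd (o h e : ℕ) (h1 : o ∣ 2 * h) (h2 : ¬ o ∣ h) (h3 : 2 ^ e ∣ 2 * h) :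
    2 ^ e ∣ o := by
  obtain ⟨c, hc⟩ := h1
  have h4 : Odd c := by
    rw [← Nat.not_even_iff_odd]
    rintro ⟨d, hd⟩
    apply h2
    refine ⟨d, ?_⟩
    have : 2 * h = 2 * (o * d) := by rw [hc, hd]; ring
    omega
  rw [hc] at h3
  have h5 : Nat.Coprime (2 ^ e) c := Nat.Coprime.pow_left _ (Nat.coprime_two_left.2 h4)
  exact h5.dvd_of_dvd_mul_right h3

theorem DR2_thm : Stmt_DR2 := by
  intro s K hs h1
  obtain ⟨b, j, hb, hb1, hbo, hbs⟩ := dr2_root s hs h1
  obtain ⟨w, hw, hwo⟩ := dr2_odd_exp b (by omega) hbs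
  have hw0 : b.factorization w ≠ 0 := by
    intro h0
    rw [h0] at hwo
    exact absurd hwo (by decide)
  have hwd : w ∣ b := Nat.dvd_of_factorization_pos hw0
  have hw2 : w ≠ 2 := by
    rintro rfl
    exact absurd (even_iff_two_dvd.2 hwd) (Nat.not_even_iff_odd.2 hbo)
  have hwodd : Odd w := hw.odd_of_ne_two hw2
  obtain ⟨b', hb', hcop⟩ : ∃ b' : ℕ, b = w ^ b.factorization w * b' ∧ Nat.Coprime w b' :=
    ⟨b / w ^ b.factorization w, (Nat.ordProj_mul_ordCompl_eq_self b w).symm,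
      Nat.coprime_ordCompl hw (by omega)⟩
  have hFw : Fact w.Prime := ⟨hw⟩
  -- a nonresidue
  obtain ⟨x, hx⟩ : ∃ x : ZMod w, ¬ IsSquare x := by
    have hc : ringChar (ZMod w) ≠ 2 := by
      rw [ZMod.ringChar_zmod_n]
      exact hw2
    exact FiniteField.exists_nonsquare hc
  have hx0 : x ≠ 0 := by
    rintro rfl
    exact hx ⟨0, by simp⟩
  obtain ⟨n, hn⟩ : ∃ n : ℕ, (n : ZMod w) = x := ⟨x.val, ZMod.natCast_zmod_val x⟩
  set M := 2 ^ (K + j + 3) * b' with hM
  have hcopM : Nat.Coprime M w := by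
    apply Nat.Coprime.mul_left
    · exact Nat.Coprime.pow_left _ (Nat.coprime_two_left.2 hwodd)
    · exact hcop.symm
  obtain ⟨a, ha1, ha2⟩ := Nat.chineseRemainder hcopM 1 n
  have hjw : J((a : ℤ) | w) = -1 := by
    rw [← jacobiSym.legendreSym.to_jacobiSym]
    have h2 : ((a : ℤ) : ZMod w) = x := by
      have h3 : (a : ZMod w) = (n : ZMod w) := (ZMod.natCast_eq_natCast_iff _ _ _).2 ha2
      rw [← hn]
      exact_mod_cast h3
    rw [legendreSym.eq_neg_one_iff, h2]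
    exact hx
  have hjb : J((a : ℤ) | b) = -1 := by
    rw [hb', jacobiSym.mul_right', jacobiSym.pow_right, hjw, hwo.neg_one_pow]
    · have h2 : J((a : ℤ) | b') = J((1 : ℤ) | b') := by
        apply jacobiSym.mod_left'
        have h3 : a ≡ 1 [MOD b'] := ha1.of_mul_left _
        have h4 : ((a : ℕ) : ℤ) ≡ ((1 : ℕ) : ℤ) [ZMOD ((b' : ℕ) : ℤ)] := Int.natCast_modEq_iff.2 h3
        exact h4
      rw [h2, jacobiSym.one_left]
      norm_num
    · exact pow_ne_zero _ hw.ne_zero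
    · rintro rfl
      omega
  have hb0 : 0 < b := by omega
  have hcopab : Nat.Coprime a b := by
    have h2 : J((a : ℤ) | b) ≠ 0 := by rw [hjb]; norm_num
    by_contra hc
    apply h2
    have : NeZero b := ⟨by omega⟩
    rw [jacobiSym.eq_zero_iff_not_coprime]
    intro h3
    exact hc (by simpa using h3)
  have ha4 : a ≡ 1 [MOD 2 ^ (K + j + 3)] := ha1.of_mul_right _
  have haodd : Odd a := by
    have h2 : a ≡ 1 [MOD 2] := ha4.of_dvd (dvd_pow_self 2 (by omega))
    rw [Nat.odd_iff]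
    exact h2
  refine ⟨2 ^ (K + j + 3) * b, a, by positivity, ?_, ?_⟩
  · apply Nat.Coprime.mul_right
    · exact Nat.Coprime.pow_right _ (Nat.coprime_two_right.2 haodd)
    · exact hcopab
  intro p hp hpa
  have hpb : p ≡ a [MOD b] := hpa.of_mul_left _
  have hp2k : p ≡ 1 [MOD 2 ^ (K + j + 3)] := (hpa.of_mul_right _).trans ha4
  have hp4 : p % 4 = 1 := by
    have h2 : p ≡ 1 [MOD 4] := hp2k.of_dvd (by
      have : (4 : ℕ) = 2 ^ 2 := by norm_num
      rw [this]
      exact pow_dvd_pow 2 (by omega))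
    exact h2
  have hFp : Fact p.Prime := ⟨hp⟩
  have hcoppb : Nat.Coprime p b := by
    unfold Nat.Coprime
    rw [hpb.gcd_eq]
    exact hcopab
  have hjp : J((b : ℤ) | p) = -1 := by
    rw [← jacobiSym.quadratic_reciprocity_one_mod_four hp4 hbo, ← hjb]
    apply jacobiSym.mod_left'
    have h4 : ((p : ℕ) : ℤ) ≡ ((a : ℕ) : ℤ) [ZMOD ((b : ℕ) : ℤ)] := Int.natCast_modEq_iff.2 hpb
    exact h4
  have hpow : (b : ZMod p) ^ (p / 2) = -1 := by
    rw [← jacobiSym.legendreSym.to_jacobiSym] at hjp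
    have h2 := legendreSym.eq_pow p (b : ℤ)
    rw [hjp] at h2
    simpa using h2.symm
  have hp2 : p ≠ 2 := by
    rintro rfl
    omega
  refine ⟨hp2, ?_, ?_⟩
  · intro hd
    rw [hb] at hd
    have h2 := hp.dvd_of_dvd_pow hd
    have h3 : p ∣ 1 := by
      have h4 := Nat.dvd_gcd (dvd_refl p) h2
      rwa [hcoppb] at h4
    exact hp.one_lt.ne' (Nat.dvd_one.1 h3)
  intro q hq
  have hb0' : (b : ZMod p) ≠ 0 := by
    intro h0
    rw [ZMod.natCast_eq_zero_iff] at h0
    have h4 := Nat.dvd_gcd (dvd_refl p) h0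
    rw [hcoppb] at h4
    exact hp.one_lt.ne' (Nat.dvd_one.1 h4)
  have hpo : p % 2 = 1 := by omega
  have h2h : 2 * (p / 2) = p - 1 := by omega
  have ho1 : orderOf (b : ZMod p) ∣ 2 * (p / 2) := by
    rw [h2h]
    exact orderOf_dvd_of_pow_eq_one (ZMod.pow_card_sub_one_eq_one hb0')
  have ho2 : ¬ orderOf (b : ZMod p) ∣ p / 2 := by
    intro hd
    have h3 := orderOf_dvd_iff_pow_eq_one.1 hd
    rw [hpow] at h3
    have h4 : (2 : ZMod p) = 0 := by
      have h5 : (2 : ZMod p) = 1 - (-1) := by ring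
      rw [h5, h3, sub_self]
    have h6 : ((2 : ℕ) : ZMod p) = 0 := by exact_mod_cast h4
    rw [ZMod.natCast_eq_zero_iff] at h6
    exact hp2 ((Nat.prime_dvd_prime_iff_eq hp Nat.prime_two).1 h6)
  have ho3 : 2 ^ (K + j + 3) ∣ 2 * (p / 2) := by
    rw [h2h]
    exact (Nat.modEq_iff_dvd' hp.one_lt.le).1 hp2k.symm
  have ho := dr2_dvd _ _ _ ho1 ho2 ho3
  have hs2 : (s : ZMod p) ^ 2 = (b : ZMod p) ^ 2 ^ (j + 1) := by
    rw [hb]
    push_cast
    rw [← pow_mul, pow_succ]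
  have hord : orderOf (q : ZMod p) = orderOf ((b : ZMod p) ^ 2 ^ (j + 1)) := by
    rw [← hs2]
    have h3 : (q : ZMod p) * (s : ZMod p) ^ 2 = 1 := by
      have h4 := (ZMod.natCast_eq_natCast_iff _ _ _).2 hq
      push_cast at h4
      exact h4
    apply Nat.dvd_antisymm
    · apply orderOf_dvd_of_pow_eq_one
      have h5 : (q : ZMod p) ^ orderOf ((s : ZMod p) ^ 2) * ((s : ZMod p) ^ 2) ^ orderOf ((s : ZMod p) ^ 2) = 1 := by
        rw [← mul_pow, h3, one_pow]
      rw [pow_orderOf_eq_one, mul_one] at h5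
      exact h5
    · apply orderOf_dvd_of_pow_eq_one
      have h5 : (q : ZMod p) ^ orderOf (q : ZMod p) * ((s : ZMod p) ^ 2) ^ orderOf (q : ZMod p) = 1 := by
        rw [← mul_pow, h3, one_pow]
      rw [pow_orderOf_eq_one, one_mul] at h5
      exact h5
  rw [hord]
  have h6 : 2 ^ (j + 1) ∣ orderOf (b : ZMod p) := (pow_dvd_pow 2 (by omega)).trans ho
  rw [orderOf_pow' _ (by positivity), Nat.gcd_eq_right h6]
  rw [Nat.dvd_div_iff_mul_dvd h6, ← pow_add]
  exact (pow_dvd_pow 2 (by omega)).trans ho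

end Pool.Agent.ADG
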