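import Pool.Agent.ADG.St6
import Pool.Agent.ADG.FIN4

/-!
# ADG, module FIN6 (helper54): assembly of part 6
-/

set_option autoImplicit false

namespace Pool.Agent.ADG

open Finset Pool.Agent.ADS

theorem FIN6.small (C ε : ℝ) (hε : 0 < ε) : ∃ x₁ : ℝ, 2 ≤ x₁ ∧ ∀ x : ℝ, x₁ ≤ x →
    C * x / (Real.log x) ^ (13 / 12 : ℝ) ≤ ε * x / Real.log x := by
  set B : ℝ := (|C| + 1) / ε with hB
  have hB0 : 0 < B := by positivity
  refine ⟨max 2 (Real.exp (B ^ (12 : ℝ))), le_max_left _ _, fun x hx => ?_⟩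
  have hx2 : 2 ≤ x := (le_max_left _ _).trans hx
  have hx0 : 0 < x := by linarith
  have hlx : 0 < Real.log x := Real.log_pos (by linarith)
  have h1 : B ^ (12 : ℝ) ≤ Real.log x := by
    rw [Real.le_log_iff_exp_le hx0]
    exact (le_max_right _ _).trans hx
  have h2 : B ≤ (Real.log x) ^ (1 / 12 : ℝ) := by
    have h3 := Real.rpow_le_rpow (by positivity) h1 (show (0 : ℝ) ≤ 1 / 12 by norm_num)
    rw [← Real.rpow_mul hB0.le] at h3
    norm_num at h3 ⊢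
    exact h3
  have h4 : (Real.log x) ^ (13 / 12 : ℝ) = (Real.log x) ^ (1 / 12 : ℝ) * Real.log x := by
    rw [show (13 / 12 : ℝ) = 1 / 12 + 1 by norm_num, Real.rpow_add hlx, Real.rpow_one]
  rw [h4, div_le_div_iff₀ (by positivity) hlx]
  have h5 : C ≤ ε * (Real.log x) ^ (1 / 12 : ℝ) := by
    have h6 : ε * B = |C| + 1 := by
      rw [hB]
      field_simp
    have h7 : ε * B ≤ ε * (Real.log x) ^ (1 / 12 : ℝ) := mul_le_mul_of_nonneg_left h2 hε.le
    have h8 := le_abs_self C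
    linarith
  calc C * x * Real.log x ≤ (ε * (Real.log x) ^ (1 / 12 : ℝ)) * x * Real.log x := by
        gcongr
    _ = ε * x * ((Real.log x) ^ (1 / 12 : ℝ) * Real.log x) := by ring

theorem FIN6_thm (h1 : Stmt_FIN5) (h2 : Stmt_EPX) (h3 : Stmt_PXT) (h4 : Stmt_PXU) (h5 : Stmt_CTW)
    (h6 : Stmt_SM6) : Stmt_FIN6 := by
  classical
  intro ε hε
  obtain ⟨C, hC⟩ := h1
  obtain ⟨x₁, hx₁, hsm⟩ := FIN6.small C (ε / 2) (by positivity)
  obtain ⟨X₀, hX₀⟩ := h6 (ε / 4) (by positivity)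
  refine ⟨max x₁ (X₀ + 1), fun x hx => ?_⟩
  have hx1 : x₁ ≤ x := (le_max_left _ _).trans hx
  have hxX0 : (X₀ : ℝ) + 1 ≤ x := (le_max_right _ _).trans hx
  have hx2 : 2 ≤ x := hx₁.trans hx1
  have hx0 : (0 : ℝ) ≤ x := by linarith
  set X := ⌊x⌋₊ with hX
  have hX2 : 2 ≤ X := Nat.le_floor (by exact_mod_cast hx2)
  have hXX : X₀ ≤ X := Nat.le_floor (by linarith)
  have hXx : (X : ℝ) ≤ x := Nat.floor_le hx0
  have hxX : x < X + 1 := Nat.lt_floor_add_one x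
  have hX2' : (2 : ℝ) ≤ X := by exact_mod_cast hX2
  have hlX : 0 < Real.log X := Real.log_pos (by linarith)
  have hlx : 0 < Real.log x := Real.log_pos (by linarith)
  set S1 : Set ℕ := {n : ℕ | (n : ℝ) ≤ x ∧ n % 4 ≠ 0 ∧ AnyOrder n ∧ ¬ Form5 n} with hS1
  set S2 : Finset ℕ :=
    (Icc 2 X).filter (fun n => n % 4 ≠ 0 ∧ QRC n ∧ CTC n ∧ Form5 n ∧ ¬ n.Prime) with hS2
  have hfin1 : S1.Finite := by
    refine (Finset.finite_toSet (Finset.range (X + 1))).subset ?_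
    intro n hn
    have h1 : n ≤ X := Nat.le_floor hn.1
    rw [Finset.mem_coe, Finset.mem_range]
    omega
  have hsub : {n : ℕ | (n : ℝ) ≤ x ∧ n % 4 ≠ 0 ∧ AnyOrder n ∧ ¬ n.Prime} ⊆ S1 ∪ (S2 : Set ℕ) := by
    rintro n ⟨hnx, hn4, hN, hnp⟩
    by_cases hf : Form5 n
    · refine Or.inr ?_
      have hq := FIN4.qrc h2 h3 h4 hN
      have hc : CTC n := by
        obtain ⟨G, iG, N, D, hD⟩ := hN
        have hfin : Finite G := FIN4.fin_of hD
        intro p l hp hp2 hpn hl hl2 hodd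
        exact h5 G n N D hD p hp hp2 hpn l hl hl2 hodd
      obtain ⟨G, iG, N, D, hD⟩ := hN
      have h7 : n ≤ X := Nat.le_floor hnx
      rw [Finset.mem_coe, hS2, Finset.mem_filter, Finset.mem_Icc]
      exact ⟨⟨hD.two_le, h7⟩, hn4, hq, hc, hf, hnp⟩
    · exact Or.inl ⟨hnx, hn4, hN, hf⟩
  have hcard : ({n : ℕ | (n : ℝ) ≤ x ∧ n % 4 ≠ 0 ∧ AnyOrder n ∧ ¬ n.Prime}.ncard : ℝ) ≤
      (S1.ncard : ℝ) + (S2.card : ℝ) := by
    have e1 : {n : ℕ | (n : ℝ) ≤ x ∧ n % 4 ≠ 0 ∧ AnyOrder n ∧ ¬ n.Prime}.ncard ≤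
        S1.ncard + S2.card := by
      refine (Set.ncard_le_ncard hsub (hfin1.union (Finset.finite_toSet S2))).trans ?_
      refine (Set.ncard_union_le _ _).trans ?_
      rw [Set.ncard_coe_finset]
    exact_mod_cast e1
  have hlog : Real.log x ≤ 2 * Real.log X := by
    have h6 : x ≤ (X : ℝ) ^ 2 := by nlinarith
    have h7 := Real.log_le_log (by linarith) h6
    rw [Real.log_pow] at h7
    exact_mod_cast h7
  have hb1 : (S1.ncard : ℝ) ≤ ε / 2 * x / Real.log x := (hC x hx2).trans (hsm x hx1)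
  have hb2 : (S2.card : ℝ) ≤ ε / 2 * x / Real.log x := by
    refine (hX₀ X hXX).trans ?_
    rw [div_le_div_iff₀ hlX hlx]
    calc ε / 4 * X * Real.log x ≤ ε / 4 * x * (2 * Real.log X) := by
          refine mul_le_mul (mul_le_mul_of_nonneg_left hXx (by positivity)) hlog hlx.le
            (by positivity)
      _ = ε / 2 * x * Real.log X := by ring
  calc ({n : ℕ | (n : ℝ) ≤ x ∧ n % 4 ≠ 0 ∧ AnyOrder n ∧ ¬ n.Prime}.ncard : ℝ)
      ≤ (S1.ncard : ℝ) + (S2.card : ℝ) := hcard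
    _ ≤ ε / 2 * x / Real.log x + ε / 2 * x / Real.log x := add_le_add hb1 hb2
    _ = ε * x / Real.log x := by ring

end Pool.Agent.ADG
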