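import Pool.Agent.ADG.St6

set_option autoImplicit false

namespace Pool.Agent.ADG

open Finset Matrix

/-- A matrix with independent rows has a right inverse. -/
theorem FRG_rinv {F ι κ : Type} [Field F] [Fintype ι] [Fintype κ] [DecidableEq κ]
    (B : Matrix κ ι F) (h : LinearIndependent F B.row) : ∃ W : Matrix ι κ F, B * W = 1 := by
  classical
  have hinj : Function.Injective B.vecMul := Matrix.vecMul_injective_iff.2 h
  have hker : LinearMap.ker B.vecMulLinear = ⊥ := LinearMap.ker_eq_bot.2 hinj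
  obtain ⟨g, hg⟩ := LinearMap.exists_leftInverse_of_injective B.vecMulLinear hker
  refine ⟨Matrix.of fun u k => g (Pi.single u 1) k, ?_⟩
  ext i k
  have h1 : g (B.row i) = Pi.single i 1 := by
    have h2 := LinearMap.congr_fun hg (Pi.single i 1)
    simpa [Matrix.vecMulLinear_apply] using h2
  have h3 : B.row i = ∑ u, B i u • (Pi.single u (1 : F) : ι → F) := by
    ext u
    simp [Finset.sum_apply, Pi.single_apply]
  rw [Matrix.mul_apply]
  have h4 : (∑ u, B i u * g (Pi.single u 1) k) = g (B.row i) k := by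
    conv_rhs => rw [h3]
    simp [map_sum, Finset.sum_apply]
  simp only [Matrix.of_apply]
  rw [h4, h1, Matrix.one_apply, Pi.single_apply]
  simp [eq_comm]

/-- Discriminants and the Frobenius map. -/
theorem FRG_thm : Stmt_FRG := by
  intro l hl K ι κ _ _ _ _ _ β φ σ τ c hl2 hβ hspan hfrob hσ hgram hc hτ heven
  classical
  have hlp : l.Prime := hl.out
  have hch : CharP K l := charP_of_injective_algebraMap (algebraMap (ZMod l) K).injective l
  have hec : ExpChar K l := ExpChar.prime hlp
  -- the matrix Xi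
  have hx : ∀ i, ∃ ξ : κ → K, ∑ x, ξ x • φ x = fun u => algebraMap (ZMod l) K (β i u) := by
    intro i
    exact (Submodule.mem_span_range_iff_exists_fun K).1 (hspan i)
  choose ξ hξ using hx
  set Ξ : Matrix κ κ K := Matrix.of ξ with hΞ
  set Φ : Matrix κ ι K := Matrix.of φ with hΦ
  set B : Matrix κ ι (ZMod l) := Matrix.of β with hB
  set B' : Matrix κ ι K := B.map (algebraMap (ZMod l) K) with hB'
  have hfac : Ξ * Φ = B' := by
    ext i u
    have h := congrFun (hξ i) u
    simp only [Finset.sum_apply, Pi.smul_apply, smul_eq_mul] at h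
    rw [Matrix.mul_apply]
    exact h
  -- a right inverse of B
  obtain ⟨W, hW⟩ : ∃ W : Matrix ι κ (ZMod l), B * W = 1 := FRG_rinv B hβ
  set W' : Matrix ι κ K := W.map (algebraMap (ZMod l) K) with hW'
  have hBW : B' * W' = 1 := by
    rw [hB', hW', ← Matrix.map_mul, hW]
    exact Matrix.map_one _ (map_zero _) (map_one _)
  have hΞ1 : Ξ * (Φ * W') = 1 := by rw [← Matrix.mul_assoc, hfac, hBW]
  have hΞ2 : (Φ * W') * Ξ = 1 := mul_eq_one_comm.1 hΞ1
  have huniq : ∀ A : Matrix κ κ K, A * Φ = B' → A = Ξ := by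
    intro A hA
    calc A = A * ((Φ * W') * Ξ) := by rw [hΞ2, Matrix.mul_one]
      _ = (A * Φ) * W' * Ξ := by simp only [Matrix.mul_assoc]
      _ = Ξ := by rw [hA, hBW, Matrix.one_mul]
  have hdet : Ξ.det ≠ 0 := by
    intro h0
    have h := congrArg Matrix.det hΞ1
    rw [Matrix.det_mul, h0, zero_mul, Matrix.det_one] at h
    exact zero_ne_one h
  -- Frobenius
  have hA : (Matrix.of fun i y => (Ξ i (σ.symm y)) ^ l) = Ξ := by
    apply huniq
    ext i u
    rw [Matrix.mul_apply]
    have h1 : B' i u ^ l = B' i u := by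
      rw [hB', Matrix.map_apply, ← map_pow, ZMod.pow_card]
    have h2 : B' i u = ∑ x, Ξ i x * Φ x u := by rw [← hfac, Matrix.mul_apply]
    rw [← h1, h2, ← frobenius_def, map_sum]
    simp only [map_mul, frobenius_def]
    rw [← Equiv.sum_comp σ]
    apply Finset.sum_congr rfl
    intro x _
    simp only [Matrix.of_apply, Equiv.symm_apply_apply]
    rw [hΦ]
    simp only [Matrix.of_apply]
    rw [← hfrob x u]
  have hdfrob : Ξ.det = - Ξ.det ^ l := by
    have h1 : (Matrix.of fun i y => (Ξ i (σ.symm y)) ^ l)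
        = ((frobenius K l).mapMatrix Ξ).submatrix id σ.symm := by
      ext i y
      simp [frobenius_def]
    have h2 := congrArg Matrix.det hA
    rw [h1, Matrix.det_permute', ← RingHom.map_det, frobenius_def, Equiv.Perm.sign_symm, hσ] at h2
    have h3 : (-1 : K) * Ξ.det ^ l = Ξ.det := by simpa using h2
    linear_combination -h3
  -- the Gram determinant
  obtain ⟨k, hk⟩ := heven
  have hG : algebraMap (ZMod l) K (Matrix.det (Matrix.of fun i j => ∑ u, β i u * β j u))
      = Ξ.det ^ 2 * (algebraMap (ZMod l) K c ^ k) ^ 2 := by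
    have h1 : (Matrix.of fun i j => ∑ u, β i u * β j u) = B * Bᵀ := by
      ext i j
      simp [Matrix.mul_apply, hB]
    have h2 : (algebraMap (ZMod l) K).mapMatrix (B * Bᵀ) = Ξ * (Φ * Φᵀ) * Ξᵀ := by
      rw [RingHom.mapMatrix_apply, Matrix.map_mul, Matrix.transpose_map, ← hB', ← hfac,
        Matrix.transpose_mul]
      simp only [Matrix.mul_assoc]
    have h3 : Φ * Φᵀ = (algebraMap (ZMod l) K c) • (τ.toPEquiv.toMatrix : Matrix κ κ K) := by
      ext x y
      rw [Matrix.mul_apply]
      have h4 := hgram x y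
      simp only [hΦ, Matrix.transpose_apply, Matrix.of_apply, Matrix.smul_apply, smul_eq_mul,
        PEquiv.toMatrix_apply, Equiv.toPEquiv_apply]
      rw [h4]
      by_cases hy : y = τ x
      · simp [hy]
      · have hy' : ¬ (τ x = y) := fun h => hy h.symm
        simp [hy, hy']
    rw [h1, RingHom.map_det, h2, h3, Matrix.det_mul, Matrix.det_mul, Matrix.det_transpose,
      Matrix.det_smul, Matrix.det_permutation, hτ, hk]
    push_cast
    ring
  rintro ⟨s, hs⟩
  rw [hs, map_mul] at hG
  set d : K := Ξ.det with hd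
  set C : K := algebraMap (ZMod l) K c ^ k with hC
  set S : K := algebraMap (ZMod l) K s with hS
  have hC0 : C ≠ 0 := by
    rw [hC]
    apply pow_ne_zero
    intro h0
    exact hc ((map_eq_zero _).1 h0)
  have hCl : C ^ l = C := by
    rw [hC, ← map_pow, ← map_pow, ZMod.pow_card]
  have hSl : S ^ l = S := by
    rw [hS, ← map_pow, ZMod.pow_card]
  have hsq : (d * C) ^ 2 = S ^ 2 := by rw [mul_pow, ← hG, sq]
  have hdC : (d * C) ^ l = d * C := by
    rcases sq_eq_sq_iff_eq_or_eq_neg.1 hsq with h | h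
    · rw [h, hSl]
    · rw [h, ← frobenius_def, map_neg, frobenius_def, hSl]
  have hdl : d ^ l = d := by
    rw [mul_pow, hCl] at hdC
    exact mul_right_cancel₀ hC0 hdC
  rw [hdl] at hdfrob
  have h2d : (2 : K) * d = 0 := by linear_combination hdfrob
  rcases mul_eq_zero.1 h2d with h | h
  · have h2 : ((2 : ℕ) : K) = 0 := by exact_mod_cast h
    have h3 : l ∣ 2 := (CharP.cast_eq_zero_iff K l 2).1 h2
    have h4 : l ≤ 2 := Nat.le_of_dvd (by norm_num) h3
    have h5 : 2 ≤ l := hlp.two_le
    exact hl2 (le_antisymm h4 h5)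
  · exact hdet h

end Pool.Agent.ADG
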