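import Pool.Agent.ADG.St6

/-!
# Project ADG, part 6, module FX1 (helper83)

The numbers `n = q s^2` with a fixed odd `s > 1` which satisfy the order condition.
-/

set_option autoImplicit false

namespace Pool.Agent.ADG

open Finset Pool.Agent.ADS

/-- `1 ≤ δ X / log X` for large `X` -/
theorem fx1_large (δ : ℝ) (hδ : 0 < δ) : ∃ X₀ : ℕ, ∀ X : ℕ, X₀ ≤ X →
    (1 : ℝ) ≤ δ * X / Real.log X := by
  obtain ⟨X₁, hX₁⟩ := exists_nat_gt ((2 / δ) ^ 2)
  refine ⟨max X₁ 2, fun X hX => ?_⟩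
  have h1 : X₁ ≤ X := le_trans (le_max_left _ _) hX
  have h2 : 2 ≤ X := le_trans (le_max_right _ _) hX
  have h1' : (X₁ : ℝ) ≤ X := by exact_mod_cast h1
  have h2' : (2 : ℝ) ≤ X := by exact_mod_cast h2
  have hlog : 0 < Real.log X := Real.log_pos (by linarith)
  rw [le_div_iff₀ hlog, one_mul]
  have hX0 : (0 : ℝ) ≤ X := by linarith
  have hsq : Real.sqrt X * Real.sqrt X = X := Real.mul_self_sqrt hX0
  have hs0 : 0 < Real.sqrt X := Real.sqrt_pos.mpr (by linarith)
  have hl : Real.log X ≤ 2 * Real.sqrt X := by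
    have h3 : Real.log X = 2 * Real.log (Real.sqrt X) := by
      rw [Real.log_sqrt hX0]; ring
    have h4 := Real.log_le_sub_one_of_pos hs0
    rw [h3]; linarith
  have h5 : 2 / δ ≤ Real.sqrt X := by
    apply Real.le_sqrt_of_sq_le
    linarith
  have h6 : 2 ≤ δ * Real.sqrt X := by
    rw [div_le_iff₀ hδ] at h5
    linarith
  calc Real.log X ≤ 2 * Real.sqrt X := hl
    _ ≤ (δ * Real.sqrt X) * Real.sqrt X := mul_le_mul_of_nonneg_right h6 hs0.le
    _ = δ * X := by rw [mul_assoc, hsq]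

open Classical in
/-- Module FX1. -/
theorem FX1_thm (hDR1 : Stmt_DR1) (hDR2 : Stmt_DR2) (hGEN : Stmt_GEN) (hV2T : Stmt_V2T) :
    Stmt_FX1 := by
  intro s hs hs1 ε hε
  have hA : Odd (s ^ 2) := hs.pow
  have hA0 : 0 < s ^ 2 := by positivity
  obtain ⟨C, hC, hV⟩ := hV2T (s ^ 2) hA
  obtain ⟨k, hk⟩ : ∃ k : ℕ, C / 2 ^ k ≤ ε / 2 := by
    obtain ⟨k, hk⟩ := exists_pow_lt_of_lt_one (show 0 < ε / (2 * C) by positivity)
      (show (1 / 2 : ℝ) < 1 by norm_num)
    refine ⟨k, ?_⟩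
    have h2 : (0 : ℝ) < 2 ^ k := by positivity
    have h3 : (1 / 2 : ℝ) ^ k = 1 / 2 ^ k := by rw [one_div_pow]
    rw [h3] at hk
    have h4 : C * (1 / 2 ^ k) < C * (ε / (2 * C)) := mul_lt_mul_of_pos_left hk hC
    have h5 : C * (ε / (2 * C)) = ε / 2 := by field_simp
    rw [h5] at h4
    have h6 : C * (1 / 2 ^ k) = C / 2 ^ k := by ring
    rw [h6] at h4
    exact h4.le
  obtain ⟨X₁, hX₁⟩ := hV k
  obtain ⟨m, a, hm, hcop, hp⟩ := hDR2 s (k + 1) hs hs1
  obtain ⟨X₂, hX₂⟩ := hGEN (s ^ 2) {p : ℕ | p.Prime ∧ p ≡ a [MOD m]} hA0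
    (by
      intro p hpS
      obtain ⟨h1, h2, -⟩ := hp p hpS.1 hpS.2
      exact ⟨hpS.1, h1, fun h3 => h2 (hpS.1.dvd_of_dvd_pow h3)⟩)
    (by
      intro hsum
      apply hDR1 m a hm hcop
      refine (summable_congr (fun q => ?_)).mp hsum
      by_cases hq : q.Prime ∧ q ≡ a [MOD m]
      · have hq' : q ∈ {p : ℕ | p.Prime ∧ p ≡ a [MOD m]} := hq
        rw [if_pos hq', if_pos hq]
      · have hq' : ¬ q ∈ {p : ℕ | p.Prime ∧ p ≡ a [MOD m]} := hq
        rw [if_neg hq', if_neg hq]) (ε / 4) (by positivity)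
  obtain ⟨X₃, hX₃⟩ := fx1_large (ε / 4) (by positivity)
  refine ⟨max X₁ (max X₂ (max X₃ 2)), fun X hX => ?_⟩
  have hXa : X₁ ≤ X := le_trans (le_max_left _ _) hX
  have hXb : X₂ ≤ X := le_trans (le_trans (le_max_left _ _) (le_max_right _ _)) hX
  have hXc : X₃ ≤ X := le_trans (le_trans (le_trans (le_max_left _ _) (le_max_right _ _))
    (le_max_right _ _)) hX
  have hXd : 2 ≤ X := le_trans (le_trans (le_trans (le_max_right _ _) (le_max_right _ _))
    (le_max_right _ _)) hX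
  have hXd' : (2 : ℝ) ≤ X := by exact_mod_cast hXd
  have hlog : 0 < Real.log X := Real.log_pos (by linarith)
  have b1 := hX₁ X hXa
  have b2 := hX₂ X hXb
  have b3 := hX₃ X hXc
  have hsub : ((Icc 2 X).filter (fun n => (∃ q : ℕ, q.Prime ∧ n = q * s ^ 2) ∧ CTC n)) ⊆
      ((Icc 2 X).filter (fun n => (∃ q : ℕ, q.Prime ∧ n = s ^ 2 * q) ∧ 2 ^ k ∣ n ^ 2 - 1)) ∪
      (((Icc 2 X).filter (fun n => (∃ q : ℕ, q.Prime ∧ n = s ^ 2 * q) ∧
        ∀ p ∈ {p : ℕ | p.Prime ∧ p ≡ a [MOD m]}, (n - 1).factorization p ≠ 1)) ∪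
        {2 * s ^ 2}) := by
    intro n hn
    obtain ⟨hn1, ⟨q, hq, hnq⟩, hct⟩ := Finset.mem_filter.mp hn
    have hn2 : 2 ≤ n := (Finset.mem_Icc.mp hn1).1
    rw [Finset.mem_union, Finset.mem_union, Finset.mem_filter, Finset.mem_filter,
      Finset.mem_singleton]
    by_cases hd : 2 ^ k ∣ n ^ 2 - 1
    · exact Or.inl ⟨hn1, ⟨q, hq, by rw [hnq, mul_comm]⟩, hd⟩
    · right
      by_cases hq2 : q = 2
      · right; rw [hnq, hq2]
      · left
        refine ⟨hn1, ⟨q, hq, by rw [hnq, mul_comm]⟩, ?_⟩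
        intro p hpS hf
        obtain ⟨h1, h2, h3⟩ := hp p hpS.1 hpS.2
        have hpd : p ∣ n - 1 := by
          apply Nat.dvd_of_factorization_pos
          rw [hf]; exact one_ne_zero
        have hmod : q * s ^ 2 ≡ 1 [MOD p] := by
          rw [← hnq]
          exact ((Nat.modEq_iff_dvd' (by omega)).mpr hpd).symm
        have hord := h3 q hmod
        have hodd : Odd (n.factorization q) := by
          rw [hnq, Nat.factorization_mul hq.ne_zero (by positivity), Finsupp.add_apply,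
            hq.factorization_self, Nat.factorization_pow, Finsupp.smul_apply, smul_eq_mul]
          exact ⟨s.factorization q, by ring⟩
        have hnot := hct p q hpS.1 h1 hf hq hq2 hodd
        apply hnot
        have hne : n ^ 2 - 1 ≠ 0 := by
          have : 2 ^ 2 ≤ n ^ 2 := Nat.pow_le_pow_left hn2 2
          omega
        have hlt : (n ^ 2 - 1).factorization 2 < k := by
          by_contra hge
          exact hd ((Nat.prime_two.pow_dvd_iff_le_factorization hne).mpr (not_lt.mp hge))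
        exact dvd_trans (pow_dvd_pow 2 (by omega)) hord
  have hcard := le_trans (Finset.card_le_card hsub) (le_trans (Finset.card_union_le _ _)
    (Nat.add_le_add_left (Finset.card_union_le _ _) _))
  rw [Finset.card_singleton] at hcard
  have hcard' : (((Icc 2 X).filter (fun n => (∃ q : ℕ, q.Prime ∧ n = q * s ^ 2) ∧
      CTC n)).card : ℝ) ≤
      (((Icc 2 X).filter (fun n => (∃ q : ℕ, q.Prime ∧ n = s ^ 2 * q) ∧
        2 ^ k ∣ n ^ 2 - 1)).card : ℝ) +
      ((((Icc 2 X).filter (fun n => (∃ q : ℕ, q.Prime ∧ n = s ^ 2 * q) ∧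
        ∀ p ∈ {p : ℕ | p.Prime ∧ p ≡ a [MOD m]}, (n - 1).factorization p ≠ 1)).card : ℝ) +
        1) := by exact_mod_cast hcard
  have h7 : C / 2 ^ k * X / Real.log X ≤ ε / 2 * X / Real.log X := by
    apply div_le_div_of_nonneg_right _ hlog.le
    exact mul_le_mul_of_nonneg_right hk (by linarith)
  have h8 : ε * X / Real.log X = ε / 2 * X / Real.log X +
      (ε / 4 * X / Real.log X + ε / 4 * X / Real.log X) := by ring
  rw [h8]
  linarith

end Pool.Agent.ADG
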