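import Pool.Agent.ADG.St6

/-!
# FX2: the numbers `n = 2 q s²`, `s` fixed
-/

set_option autoImplicit false

namespace Pool.Agent.ADG

open Finset

namespace FX2

/-- the primes `3 mod 8` that do not divide `s` -/
def S (s : ℕ) : Set ℕ := {p : ℕ | p.Prime ∧ p ≡ 3 [MOD 8] ∧ ¬ p ∣ s}

theorem not_summable (hDR1 : Stmt_DR1) {s : ℕ} (hs : 0 < s) :
    ¬ Summable (fun p : ℕ => open Classical in if p ∈ S s then (1 : ℝ) / p else 0) := by
  classical
  intro h
  refine hDR1 8 3 (by norm_num) (by decide) ?_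
  have h1 : Summable (fun p : ℕ => if p.Prime ∧ p ∣ s then (1 : ℝ) / p else 0) := by
    refine summable_of_hasFiniteSupport ((Set.finite_Icc 0 s).subset ?_)
    intro p hp
    rw [Function.mem_support] at hp
    by_cases h2 : p.Prime ∧ p ∣ s
    · exact ⟨Nat.zero_le _, Nat.le_of_dvd hs h2.2⟩
    · exact absurd (if_neg h2) hp
  refine Summable.of_nonneg_of_le (fun p => ?_) (fun p => ?_) (h.add h1)
  · split_ifs
    · positivity
    · exact le_refl _
  · have hp0 : (0 : ℝ) ≤ 1 / (p : ℝ) := by positivity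
    by_cases h2 : p.Prime ∧ p ≡ 3 [MOD 8]
    · rw [if_pos h2]
      by_cases h3 : p ∣ s
      · rw [if_pos (⟨h2.1, h3⟩ : p.Prime ∧ p ∣ s)]
        have h4 : (0 : ℝ) ≤ (if p ∈ S s then (1 : ℝ) / p else 0) := by
          split_ifs
          · exact hp0
          · exact le_refl _
        linarith
      · have h5 : p ∈ S s := ⟨h2.1, h2.2, h3⟩
        rw [if_pos h5, if_neg (fun h6 => h3 h6.2), add_zero]
    · rw [if_neg h2]
      refine add_nonneg ?_ ?_
      · split_ifs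
        · exact hp0
        · exact le_refl _
      · split_ifs
        · exact hp0
        · exact le_refl _

theorem key {s q p n : ℕ} (hs : 0 < s) (hq : q.Prime) (hq2 : q ≠ 2) (hn : n = 2 * q * s ^ 2)
    (hR : QRC n) (hp : p ∈ S s) (hf : (n - 1).factorization p = 1) : False := by
  obtain ⟨hpp, hp8, -⟩ := hp
  have hp8' : p % 8 = 3 := hp8
  have hp2 : p ≠ 2 := by
    rintro rfl
    omega
  have : Fact p.Prime := ⟨hpp⟩
  have hodd : Odd (n.factorization q) := by
    have h1 : n.factorization q = 1 + 2 * s.factorization q := by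
      rw [hn, Nat.factorization_mul (mul_ne_zero two_ne_zero hq.ne_zero) (pow_ne_zero 2 hs.ne'),
        Nat.factorization_mul two_ne_zero hq.ne_zero, Nat.factorization_pow]
      simp only [Finsupp.add_apply, Finsupp.smul_apply, smul_eq_mul]
      rw [Nat.Prime.factorization_self hq, Nat.Prime.factorization Nat.prime_two,
        Finsupp.single_eq_of_ne hq2]
    rw [h1]
    exact ⟨s.factorization q, by ring⟩
  have hsq := hR q p hq hpp hq2 hp2 hodd hf
  have hn1 : 1 ≤ n := by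
    rw [hn]
    have := hq.pos
    exact Nat.succ_le_of_lt (by positivity)
  have hdvd : p ∣ n - 1 := by
    by_contra h0
    rw [Nat.factorization_eq_zero_of_not_dvd h0] at hf
    omega
  have h1 : ((n - 1 : ℕ) : ZMod p) = 0 := (ZMod.natCast_eq_zero_iff _ _).2 hdvd
  have h2 : ((n : ℕ) : ZMod p) = 1 := by
    have h3 : n = (n - 1) + 1 := by omega
    rw [h3, Nat.cast_add, h1, Nat.cast_one, zero_add]
  rw [hn] at h2
  push_cast at h2
  obtain ⟨t, ht⟩ := hsq
  rw [ht] at h2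
  have h4 : (2 : ZMod p) * (t * s) ^ 2 = 1 := by
    rw [← h2]
    ring
  have h5 : (t * s : ZMod p) ≠ 0 := by
    intro h0
    rw [h0] at h4
    simp at h4
  have h6 : IsSquare (2 : ZMod p) := by
    refine ⟨(t * s)⁻¹, ?_⟩
    have h7 : (2 : ZMod p) = ((t * s) ^ 2)⁻¹ := eq_inv_of_mul_eq_one_left h4
    rw [h7, sq, mul_inv]
  rcases (ZMod.exists_sq_eq_two_iff hp2).1 h6 with h7 | h7 <;> omega

theorem ev (ε : ℝ) (hε : 0 < ε) : ∃ X₁ : ℕ, ∀ X : ℕ, X₁ ≤ X → 2 ≤ X →
    1 ≤ ε * X / Real.log X := by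
  have h1 := (Real.isLittleO_log_id_atTop.def hε)
  have h2 := (tendsto_natCast_atTop_atTop (R := ℝ)).eventually h1
  rw [Filter.eventually_atTop] at h2
  obtain ⟨X₁, hX₁⟩ := h2
  refine ⟨X₁, fun X hX h2X => ?_⟩
  have h3 := hX₁ X hX
  have h4 : (2 : ℝ) ≤ X := by exact_mod_cast h2X
  have h5 : 0 < Real.log X := Real.log_pos (by linarith)
  rw [Real.norm_of_nonneg h5.le, id, Real.norm_of_nonneg (by linarith)] at h3
  rw [le_div_iff₀ h5, one_mul]
  exact h3

end FX2

open FX2 in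
open Classical in
/-- (FX2) `n = 2 q s^2`, `s` fixed. -/
theorem FX2_thm (hDR1 : Stmt_DR1) (hGEN : Stmt_GEN) : Stmt_FX2 := by
  intro s hs ε hε
  have hs0 : 0 < s := by
    rcases hs with ⟨k, hk⟩
    omega
  obtain ⟨X₀, hX₀⟩ := hGEN (2 * s ^ 2) (S s) (by positivity)
    (fun p hp => by
      obtain ⟨hpp, hp8, hps⟩ := hp
      have hp8' : p % 8 = 3 := hp8
      have hp2 : p ≠ 2 := by
        rintro rfl
        omega
      refine ⟨hpp, hp2, fun h0 => ?_⟩
      rcases hpp.dvd_mul.1 h0 with h1 | h1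
      · exact hp2 ((Nat.prime_dvd_prime_iff_eq hpp Nat.prime_two).1 h1)
      · exact hps (hpp.dvd_of_dvd_pow h1))
    (not_summable hDR1 hs0) (ε / 2) (by linarith)
  obtain ⟨X₁, hX₁⟩ := ev (ε / 2) (by linarith)
  refine ⟨max X₀ (max X₁ 2), fun X hX => ?_⟩
  have hX0 : X₀ ≤ X := le_trans (le_max_left _ _) hX
  have hX1 : X₁ ≤ X := le_trans (le_trans (le_max_left _ _) (le_max_right _ _)) hX
  have hX2 : 2 ≤ X := le_trans (le_trans (le_max_right _ _) (le_max_right _ _)) hX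
  have h1 := hX₀ X hX0
  have h2 := hX₁ X hX1 hX2
  have hsub : (Icc 2 X).filter (fun n => (∃ q : ℕ, q.Prime ∧ n = 2 * q * s ^ 2) ∧ QRC n) ⊆
      insert (4 * s ^ 2) ((Icc 2 X).filter (fun n => (∃ q : ℕ, q.Prime ∧ n = 2 * s ^ 2 * q) ∧
        ∀ p ∈ S s, (n - 1).factorization p ≠ 1)) := by
    intro n hn
    rw [mem_filter] at hn
    obtain ⟨hn1, ⟨q, hq, hnq⟩, hR⟩ := hn
    rw [mem_insert]
    by_cases hq2 : q = 2
    · left
      rw [hnq, hq2]
    · right
      rw [mem_filter]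
      exact ⟨hn1, ⟨q, hq, by rw [hnq]; ring⟩, fun p hp hf => key hs0 hq hq2 hnq hR hp hf⟩
  have h3 := (card_le_card hsub).trans (card_insert_le _ _)
  have h4 : ((((Icc 2 X).filter (fun n => (∃ q : ℕ, q.Prime ∧ n = 2 * q * s ^ 2) ∧
      QRC n)).card : ℕ) : ℝ) ≤ (((Icc 2 X).filter (fun n => (∃ q : ℕ, q.Prime ∧
        n = 2 * s ^ 2 * q) ∧ ∀ p ∈ S s, (n - 1).factorization p ≠ 1)).card : ℝ) + 1 := by
    exact_mod_cast h3
  have h5 : ε * X / Real.log X = ε / 2 * X / Real.log X + ε / 2 * X / Real.log X := by ring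
  rw [h5]
  linarith

end Pool.Agent.ADG
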