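import Pool.Agent.ADG.V2T

/-!
# GEN: the numbers `n = A q` such that no prime of a set `S` with divergent sum of reciprocals
divides `n - 1` exactly once (module of helper5)
-/

set_option autoImplicit false

namespace Pool.Agent.ADG

open Finset Pool.Agent.ADS

namespace GENx

open Classical in
lemma div_ex (S : Set ℕ) (hns : ¬ Summable (fun p : ℕ => if p ∈ S then (1 : ℝ) / p else 0))
    (w : ℕ) (R : ℝ) : ∃ y : ℕ, w ≤ y ∧ R ≤ ∑ p ∈ (Ioc w y).filter (fun p => p ∈ S), (1 : ℝ) / p := by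
  have hf : ∀ n : ℕ, 0 ≤ (if n ∈ S then (1 : ℝ) / n else 0) := by
    intro n
    split_ifs
    · positivity
    · exact le_rfl
  have h1 := (not_summable_iff_tendsto_nat_atTop_of_nonneg hf).1 hns
  obtain ⟨n, hn1, hn2⟩ := ((Filter.tendsto_atTop.1 h1
    (R + ∑ i ∈ range (w + 1), (if i ∈ S then (1 : ℝ) / i else 0))).and
      (Filter.eventually_ge_atTop (w + 1))).exists
  refine ⟨n - 1, by omega, ?_⟩
  have h2 : Ioc w (n - 1) = Ico (w + 1) n := by
    ext a
    rw [mem_Ioc, mem_Ico]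
    omega
  rw [sum_filter, h2]
  have h3 := Finset.sum_range_add_sum_Ico (fun i : ℕ => if i ∈ S then (1 : ℝ) / i else 0) hn2
  linarith

open Classical in
lemma rsm_ge (P : Finset ℕ) (z : ℕ) (hP : ∀ p ∈ P, p.Prime ∧ p ≤ z) :
    ∑ p ∈ P, (1 : ℝ) / p ≤ RSm P z := by
  unfold RSm
  refine sum_le_sum_of_subset_of_nonneg ?_ (fun i _ _ => by positivity)
  intro p hp
  obtain ⟨h1, h2⟩ := hP p hp
  rw [mem_filter, mem_Icc]
  refine ⟨⟨h1.one_le, h2⟩, fun q hq hqp => ?_⟩
  rw [(Nat.prime_dvd_prime_iff_eq hq h1).1 hqp]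
  exact hp

open Classical in
lemma cls (h1 : Stmt_S2V) (h2 : Stmt_RSU) (X z M B c : ℕ) (P2 : Finset ℕ) (hz : 2 ≤ z)
    (hM : 0 < M) (hB : 0 < B) (hMB : ∀ q : ℕ, q.Prime → q ∣ 2 * M → q ∣ B)
    (hBc : B.primeFactors.card ≤ c)
    (hP2 : ∀ q ∈ P2, q.Prime ∧ q ≠ 2 ∧ ¬ q ∣ M) (S : Finset ℕ)
    (hS : ∀ x ∈ S, 1 ≤ x ∧ x ≤ X ∧ (∀ q : ℕ, q.Prime → q ≤ z → ¬ q ∣ B → ¬ q ∣ x) ∧
      ∀ q ∈ P2, ¬ q ∣ x - 1)
    (hc : ∀ x ∈ S, ∀ y ∈ S, x ≡ y [MOD M]) (r : ℝ) (hr0 : 0 < r) (hr : r ≤ RSm P2 z) :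
    (S.card : ℝ) ≤ X / M * 2 ^ (c + 1) / (Real.log z * r) + (z : ℝ) ^ 12 := by
  have hz1 : 1 ≤ z := by omega
  have hlz : 0 < Real.log z := Real.log_pos (by exact_mod_cast (by omega : 1 < z))
  rcases S.eq_empty_or_nonempty with rfl | ⟨a, ha⟩
  · rw [Finset.card_empty, Nat.cast_zero]
    positivity
  · set P1 : Finset ℕ := (Icc 1 z).filter (fun q => q.Prime ∧ ¬ q ∣ B) with hP1
    have key := h1 X z M a P1 P2 hz1 hM (by
      intro q hq
      rw [Finset.mem_union] at hq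
      rcases hq with hq | hq
      · rw [hP1, Finset.mem_filter] at hq
        obtain ⟨-, hq, hq2⟩ := hq
        refine ⟨hq, ?_, fun h4 => hq2 (hMB q hq (h4.mul_left 2))⟩
        rintro rfl
        exact hq2 (hMB 2 hq ⟨M, rfl⟩)
      · exact hP2 q hq) S (by
      intro x hx
      obtain ⟨h3, h4, h5, h6⟩ := hS x hx
      refine ⟨h3, h4, hc x hx a ha, ?_, h6⟩
      intro q hq
      rw [hP1, Finset.mem_filter, Finset.mem_Icc] at hq
      exact h5 q hq.2.1 hq.1.2 hq.2.2)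
    have hP1p : 1 ≤ RSm P1 z := h2.2.2.1 P1 z hz1
    have hlog : Real.log z ≤ RSm P1 z * RSm B.primeFactors z := by
      refine h2.2.2.2.1 P1 _ z hz1 ?_
      intro q hq hqz
      rw [Finset.mem_union]
      by_cases h3 : q ∣ B
      · right
        rw [Nat.mem_primeFactors]
        exact ⟨hq, h3, hB.ne'⟩
      · left
        rw [hP1, Finset.mem_filter, Finset.mem_Icc]
        exact ⟨⟨hq.one_le, hqz⟩, hq, h3⟩
    have hBK : RSm B.primeFactors z ≤ 2 ^ (c + 1) :=
      (V2Tx.rsm_prod h2 _ (fun b hb => Nat.prime_of_mem_primeFactors hb) z hz1).trans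
        (pow_le_pow_right₀ (by norm_num) (by omega))
    set K : ℝ := 2 ^ (c + 1) with hK
    have hK0 : 0 < K := by positivity
    have hlow : Real.log z * r ≤ (RSm P1 z * RSm P2 z) * K := by
      calc Real.log z * r ≤ (RSm P1 z * RSm B.primeFactors z) * RSm P2 z :=
            mul_le_mul hlog hr hr0.le (le_trans hlz.le hlog)
        _ = (RSm P1 z * RSm P2 z) * RSm B.primeFactors z := by ring
        _ ≤ (RSm P1 z * RSm P2 z) * K := by
          refine mul_le_mul_of_nonneg_left hBK ?_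
          have : 0 < RSm P2 z := lt_of_lt_of_le hr0 hr
          positivity
    have hR : 0 < RSm P1 z * RSm P2 z := by
      have : 0 < RSm P2 z := lt_of_lt_of_le hr0 hr
      positivity
    refine key.trans ?_
    have h9 : (X : ℝ) / M / (RSm P1 z * RSm P2 z) ≤ X / M * K / (Real.log z * r) := by
      rw [div_le_div_iff₀ hR (by positivity), mul_assoc]
      refine mul_le_mul_of_nonneg_left ?_ (by positivity)
      rw [mul_comm K]
      exact hlow
    linarith

end GENx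

open Classical GENx in
theorem GEN_thm (h1 : Stmt_S2V) (h2 : Stmt_RSU) : Stmt_GEN := by
  intro A S hA hS hns ε hε
  set c : ℕ := (2 * A).primeFactors.card + 1 with hc
  set K : ℝ := 2 ^ (c + 1) with hK
  have hK0 : 0 < K := by positivity
  -- the parameters `w0`, `y`
  obtain ⟨w, hw⟩ := exists_nat_ge (480 * K / ε)
  have hw0 : 0 < (w : ℝ) := lt_of_lt_of_le (by positivity) hw
  have hw1 : 0 < w := by exact_mod_cast hw0
  obtain ⟨y, hwy, hy⟩ := div_ex S hns w (480 * K / ε)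
  set P2 : Finset ℕ := (Ioc w y).filter (fun p => p ∈ S) with hP2
  have hP2S : ∀ p ∈ P2, p.Prime ∧ p ≠ 2 ∧ ¬ p ∣ A := by
    intro p hp
    rw [hP2, mem_filter] at hp
    exact hS p hp.2
  have hlit := (isLittleO_log_rpow_atTop (by norm_num : (0 : ℝ) < 4 / 5)).bound
    (by positivity : (0 : ℝ) < ε / (2 * (y + 2)))
  obtain ⟨T, hT⟩ := Filter.eventually_atTop.1 hlit
  refine ⟨max (max (2 ^ 120) ((y + 1) ^ 120)) ⌈T⌉₊, fun X hX => ?_⟩
  have hX1 : 2 ^ 120 ≤ X := (le_max_left _ _).trans ((le_max_left _ _).trans hX)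
  have hX3 : (y + 1) ^ 120 ≤ X := (le_max_right _ _).trans ((le_max_left _ _).trans hX)
  have hX2 : T ≤ (X : ℝ) := by
    have h3 : ⌈T⌉₊ ≤ X := (le_max_right _ _).trans hX
    exact (Nat.le_ceil T).trans (by exact_mod_cast h3)
  have hXr : (2 : ℝ) ^ 120 ≤ (X : ℝ) := by exact_mod_cast hX1
  have hXr3 : ((y : ℝ) + 1) ^ 120 ≤ (X : ℝ) := by exact_mod_cast hX3
  have hXpos : (0 : ℝ) < X := lt_of_lt_of_le (by positivity) hXr
  set v : ℝ := (X : ℝ) ^ (1 / 120 : ℝ) with hv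
  have hroot : ∀ b : ℝ, 0 ≤ b → b ^ 120 ≤ (X : ℝ) → b ≤ v := by
    intro b hb hbX
    have h3 : (b ^ (120 : ℕ)) ^ (1 / 120 : ℝ) = b := by
      rw [← Real.rpow_natCast, ← Real.rpow_mul hb]
      norm_num
    calc b = (b ^ (120 : ℕ)) ^ (1 / 120 : ℝ) := h3.symm
      _ ≤ v := Real.rpow_le_rpow (by positivity) hbX (by norm_num)
  have hv2 : 2 ≤ v := hroot 2 (by norm_num) hXr
  have hvy : (y : ℝ) + 1 ≤ v := hroot _ (by positivity) hXr3
  clear hXr3 hX3
  set z : ℕ := ⌊v ^ 2⌋₊ with hz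
  have hzle : (z : ℝ) ≤ v ^ 2 := Nat.floor_le (by positivity)
  have hzge : v ≤ (z : ℝ) := by
    have h3 : v ^ 2 < z + 1 := Nat.lt_floor_add_one _
    have h4 : 2 * v ≤ v * v := mul_le_mul_of_nonneg_right hv2 (by linarith)
    rw [sq] at h3
    linarith
  have hz2 : 2 ≤ z := by
    have h3 : (2 : ℝ) ≤ z := hv2.trans hzge
    exact_mod_cast h3
  have hyz : y ≤ z := by
    have h3 : (y : ℝ) ≤ z := by linarith
    exact_mod_cast h3
  have hlogv : Real.log X = 120 * Real.log v := by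
    rw [hv, Real.log_rpow hXpos]
    ring
  have hlogz : Real.log X ≤ 120 * Real.log z := by
    rw [hlogv]
    have h3 : Real.log v ≤ Real.log z := Real.log_le_log (by linarith) hzge
    linarith
  have hlX : 0 < Real.log X := Real.log_pos (by
    have : (1 : ℝ) < 2 ^ 120 := by norm_num
    linarith)
  have hlz : 0 < Real.log z := by linarith
  have hv24 : v ^ 24 = (X : ℝ) ^ (1 / 5 : ℝ) := by
    rw [hv, ← Real.rpow_natCast, ← Real.rpow_mul hXpos.le]
    norm_num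
  have hz12 : (z : ℝ) ^ 12 ≤ v ^ 24 := by
    calc (z : ℝ) ^ 12 ≤ (v ^ 2) ^ 12 := pow_le_pow_left₀ (Nat.cast_nonneg z) hzle 12
      _ = v ^ 24 := by ring
  have hz1' : (z : ℝ) ≤ v ^ 24 := by
    calc (z : ℝ) ≤ v ^ 2 := hzle
      _ ≤ v ^ 24 := pow_le_pow_right₀ (by linarith) (by norm_num)
  have hinv : 1 / Real.log z ≤ 120 / Real.log X := by
    rw [div_le_div_iff₀ hlz hlX]
    linarith
  -- the parts
  set W := (Icc 2 X).filter (fun n => (∃ q : ℕ, q.Prime ∧ n = A * q) ∧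
    ∀ p ∈ S, (n - 1).factorization p ≠ 1) with hW
  set S0 := (Icc 1 z).image (fun q => A * q) with hS0
  set S1 := W.filter (fun n => n ∉ S0 ∧ ∀ p ∈ P2, ¬ p ∣ n - 1) with hS1
  set Sp : ℕ → Finset ℕ := fun p => W.filter (fun n => n ∉ S0 ∧ p ^ 2 ∣ n - 1) with hSp
  have hcov : W ⊆ S0 ∪ (S1 ∪ P2.biUnion Sp) := by
    intro n hn
    rw [Finset.mem_union, Finset.mem_union, Finset.mem_biUnion]
    by_cases h0 : n ∈ S0
    · exact Or.inl h0
    · right
      by_cases h3 : ∀ p ∈ P2, ¬ p ∣ n - 1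
      · left
        rw [hS1, Finset.mem_filter]
        exact ⟨hn, h0, h3⟩
      · right
        push Not at h3
        obtain ⟨p, hp, hpn⟩ := h3
        refine ⟨p, hp, ?_⟩
        rw [hSp, Finset.mem_filter]
        refine ⟨hn, h0, ?_⟩
        rw [hW, Finset.mem_filter, Finset.mem_Icc] at hn
        have hpp := (hP2S p hp).1
        have hpS : p ∈ S := by
          rw [hP2, mem_filter] at hp
          exact hp.2
        have h4 := hn.2.2 p hpS
        have hn1 : n - 1 ≠ 0 := by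
          have := hn.1.1
          omega
        have h5 : 1 ≤ (n - 1).factorization p :=
          (hpp.dvd_iff_one_le_factorization hn1).1 hpn
        exact (hpp.pow_dvd_iff_le_factorization hn1).2 (by omega)
  have hnd : ∀ B : ℕ, A ∣ B → ∀ n ∈ W, n ∉ S0 → 1 ≤ n ∧ n ≤ X ∧
      ∀ q : ℕ, q.Prime → q ≤ z → ¬ q ∣ B → ¬ q ∣ n := by
    intro B hAB n hn h0
    rw [hW, Finset.mem_filter, Finset.mem_Icc] at hn
    obtain ⟨⟨hn1, hn2⟩, ⟨q0, hq0, rfl⟩, -⟩ := hn
    refine ⟨by omega, hn2, fun q hq hqz hqA hqn => ?_⟩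
    rcases hq.dvd_mul.1 hqn with h3 | h3
    · exact hqA (h3.trans hAB)
    · have h4 : q = q0 := (Nat.prime_dvd_prime_iff_eq hq hq0).1 h3
      subst h4
      apply h0
      rw [hS0, Finset.mem_image]
      exact ⟨q, Finset.mem_Icc.2 ⟨hq.one_le, hqz⟩, rfl⟩
  have hmodA : ∀ n ∈ W, n ≡ 0 [MOD A] := by
    intro n hn
    rw [hW, Finset.mem_filter] at hn
    obtain ⟨-, ⟨q0, -, rfl⟩, -⟩ := hn
    exact (Nat.modEq_zero_iff_dvd).2 ⟨q0, rfl⟩
  -- the first part
  have hr1 : 480 * K / ε ≤ RSm P2 z := by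
    refine hy.trans (rsm_ge P2 z ?_)
    intro p hp
    refine ⟨(hP2S p hp).1, ?_⟩
    rw [hP2, mem_filter, mem_Ioc] at hp
    omega
  have hb1 : (S1.card : ℝ) ≤ X / A * K / (Real.log z * (480 * K / ε)) + (z : ℝ) ^ 12 := by
    refine cls h1 h2 X z A (2 * A) c P2 hz2 hA (by positivity) (fun q _ h => h) (by omega)
      hP2S S1 ?_ ?_ _ (by positivity) hr1
    · intro x hx
      rw [hS1, Finset.mem_filter] at hx
      obtain ⟨h3, h4, h5⟩ := hnd (2 * A) ⟨2, by ring⟩ x hx.1 hx.2.1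
      exact ⟨h3, h4, h5, hx.2.2⟩
    · intro x hx x' hx'
      rw [hS1, Finset.mem_filter] at hx hx'
      exact (hmodA x hx.1).trans (hmodA x' hx'.1).symm
  have hA1 : (1 : ℝ) ≤ A := by exact_mod_cast hA
  have hb1' : (S1.card : ℝ) ≤ ε / 4 * X / Real.log X + v ^ 24 := by
    have h3 : (X : ℝ) / A * K / (Real.log z * (480 * K / ε)) ≤ ε / 4 * X / Real.log X := by
      have h4 : (X : ℝ) / A ≤ X := div_le_self hXpos.le hA1
      calc (X : ℝ) / A * K / (Real.log z * (480 * K / ε))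
          = (X : ℝ) / A * (ε / 480) * (1 / Real.log z) := by field_simp
        _ ≤ X * (ε / 480) * (120 / Real.log X) := by
          refine mul_le_mul ?_ hinv (by positivity) (by positivity)
          exact mul_le_mul_of_nonneg_right h4 (by positivity)
        _ = ε / 4 * X / Real.log X := by ring
    linarith
  -- the second part
  have hb2 : ∀ p ∈ P2, ((Sp p).card : ℝ) ≤
      120 * K * X / Real.log X * ((p : ℝ) ^ 2)⁻¹ + v ^ 24 := by
    intro p hp
    obtain ⟨hpp, hp2, hpA⟩ := hP2S p hp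
    have hcop : Nat.Coprime A (p ^ 2) :=
      (Nat.Coprime.pow_left 2 ((Nat.Prime.coprime_iff_not_dvd hpp).2 hpA)).symm
    have hppos : 0 < p := hpp.pos
    have h3 : ((Sp p).card : ℝ) ≤ X / ((A * p ^ 2 : ℕ) : ℝ) * K / (Real.log z * 1) +
        (z : ℝ) ^ 12 := by
      refine cls h1 h2 X z (A * p ^ 2) (2 * A * p) c ∅ hz2 (by positivity) (by positivity) ?_ ?_
        (by simp) (Sp p) ?_ ?_ 1 one_pos (h2.2.2.1 ∅ z (by omega))
      · intro q hq h
        rcases hq.dvd_mul.1 h with h4 | h4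
        · exact h4.trans ⟨A * p, by ring⟩
        · rcases hq.dvd_mul.1 h4 with h5 | h5
          · exact h5.trans ⟨2 * p, by ring⟩
          · exact (hq.dvd_of_dvd_pow h5).trans ⟨2 * A, by ring⟩
      · rw [Nat.primeFactors_mul (by positivity) (by omega)]
        refine (Finset.card_union_le _ _).trans ?_
        rw [Nat.Prime.primeFactors hpp, Finset.card_singleton]
      · intro x hx
        rw [hSp, Finset.mem_filter] at hx
        obtain ⟨h3, h4, h5⟩ := hnd (2 * A * p) ⟨2 * p, by ring⟩ x hx.1 hx.2.1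
        exact ⟨h3, h4, h5, by simp⟩
      · intro x hx x' hx'
        rw [hSp, Finset.mem_filter] at hx hx'
        rw [← Nat.modEq_and_modEq_iff_modEq_mul hcop]
        refine ⟨(hmodA x hx.1).trans (hmodA x' hx'.1).symm, ?_⟩
        have h3 : ∀ w : ℕ, 1 ≤ w → p ^ 2 ∣ w - 1 → w ≡ 1 [MOD p ^ 2] := by
          intro w hw h4
          exact ((Nat.modEq_iff_dvd' hw).2 h4).symm
        exact (h3 x (hnd A dvd_rfl x hx.1 hx.2.1).1 hx.2.2).trans
          (h3 x' (hnd A dvd_rfl x' hx'.1 hx'.2.1).1 hx'.2.2).symm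
    refine h3.trans (add_le_add ?_ hz12)
    have hp0 : (0 : ℝ) < p := by exact_mod_cast hppos
    have h4 : (X : ℝ) / ((A * p ^ 2 : ℕ) : ℝ) ≤ X * ((p : ℝ) ^ 2)⁻¹ := by
      push_cast
      rw [← div_eq_mul_inv]
      refine div_le_div_of_nonneg_left hXpos.le (by positivity) ?_
      exact le_mul_of_one_le_left (by positivity) hA1
    calc (X : ℝ) / ((A * p ^ 2 : ℕ) : ℝ) * K / (Real.log z * 1)
        = (X : ℝ) / ((A * p ^ 2 : ℕ) : ℝ) * K * (1 / Real.log z) := by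
          rw [mul_one]
          ring
      _ ≤ (X * ((p : ℝ) ^ 2)⁻¹) * K * (120 / Real.log X) := by
          refine mul_le_mul (mul_le_mul_of_nonneg_right h4 hK0.le) hinv (by positivity)
            (by positivity)
      _ = 120 * K * X / Real.log X * ((p : ℝ) ^ 2)⁻¹ := by ring
  have hsq : ∑ p ∈ P2, ((p : ℝ) ^ 2)⁻¹ ≤ (w : ℝ)⁻¹ := by
    have h3 : ∑ p ∈ P2, ((p : ℝ) ^ 2)⁻¹ ≤ ∑ p ∈ Ioc w y, ((p : ℝ) ^ 2)⁻¹ := by
      refine sum_le_sum_of_subset_of_nonneg ?_ (fun i _ _ => by positivity)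
      rw [hP2]
      exact filter_subset _ _
    have h4 := sum_Ioc_inv_sq_le_sub (α := ℝ) hw1.ne' hwy
    have h5 : (0 : ℝ) ≤ (y : ℝ)⁻¹ := by positivity
    linarith
  have hP2c : (P2.card : ℝ) ≤ y := by
    have h3 : P2.card ≤ y := by
      rw [hP2]
      refine (card_filter_le _ _).trans ?_
      rw [Nat.card_Ioc]
      omega
    exact_mod_cast h3
  have hb2' : ((P2.biUnion Sp).card : ℝ) ≤ ε / 4 * X / Real.log X + y * v ^ 24 := by
    have h3 : ((P2.biUnion Sp).card : ℝ) ≤ ∑ p ∈ P2, ((Sp p).card : ℝ) := by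
      exact_mod_cast Finset.card_biUnion_le
    refine h3.trans ((Finset.sum_le_sum hb2).trans ?_)
    rw [Finset.sum_add_distrib, ← Finset.mul_sum, Finset.sum_const, nsmul_eq_mul]
    have h4 : 120 * K * X / Real.log X * ∑ p ∈ P2, ((p : ℝ) ^ 2)⁻¹ ≤ ε / 4 * X / Real.log X := by
      have h5 : (w : ℝ)⁻¹ ≤ ε / (480 * K) := by
        rw [inv_eq_one_div, div_le_div_iff₀ hw0 (by positivity)]
        rw [div_le_iff₀ hε] at hw
        linarith
      calc 120 * K * X / Real.log X * ∑ p ∈ P2, ((p : ℝ) ^ 2)⁻¹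
          ≤ 120 * K * X / Real.log X * (ε / (480 * K)) :=
            mul_le_mul_of_nonneg_left (hsq.trans h5) (by positivity)
        _ = ε / 4 * X / Real.log X := by
            field_simp
            ring
    have h6 : (P2.card : ℝ) * v ^ 24 ≤ y * v ^ 24 :=
      mul_le_mul_of_nonneg_right hP2c (by positivity)
    linarith
  have hb0 : (S0.card : ℝ) ≤ v ^ 24 := by
    have h3 : S0.card ≤ z := by
      refine Finset.card_image_le.trans ?_
      rw [Nat.card_Icc]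
      omega
    refine le_trans ?_ hz1'
    exact_mod_cast h3
  have hcard : (W.card : ℝ) ≤ S0.card + (S1.card + (P2.biUnion Sp).card) := by
    have h3 : W.card ≤ S0.card + (S1.card + (P2.biUnion Sp).card) :=
      (Finset.card_le_card hcov).trans ((Finset.card_union_le _ _).trans
        (Nat.add_le_add_left (Finset.card_union_le _ _) _))
    exact_mod_cast h3
  have hsmall : (y + 2) * v ^ 24 ≤ ε / 2 * X / Real.log X := by
    have h3 := hT X hX2
    rw [Real.norm_of_nonneg hlX.le, Real.norm_of_nonneg (by positivity)] at h3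
    rw [le_div_iff₀ hlX, hv24]
    have h4 : (X : ℝ) ^ (1 / 5 : ℝ) * (X : ℝ) ^ (4 / 5 : ℝ) = X := by
      rw [← Real.rpow_add hXpos]
      norm_num
    calc (y + 2) * (X : ℝ) ^ (1 / 5 : ℝ) * Real.log X ≤
        (y + 2) * (X : ℝ) ^ (1 / 5 : ℝ) * (ε / (2 * (y + 2)) * (X : ℝ) ^ (4 / 5 : ℝ)) :=
          mul_le_mul_of_nonneg_left h3 (by positivity)
      _ = ε / 2 * ((X : ℝ) ^ (1 / 5 : ℝ) * (X : ℝ) ^ (4 / 5 : ℝ)) := by
          field_simp
      _ = ε / 2 * X := by rw [h4]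
  have hfin : ε * X / Real.log X =
      ε / 4 * X / Real.log X + ε / 4 * X / Real.log X + ε / 2 * X / Real.log X := by
    ring
  rw [hfin]
  linarith

end Pool.Agent.ADG
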