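import Pool.Agent.ADG.St

set_option autoImplicit false

namespace Pool.Agent.ADG

open Finset Matrix

/-- The determinant of the block matrix with a zero square corner. -/
theorem LAG_det {F κ : Type} [Field F] [Fintype κ] [DecidableEq κ] (B C : Matrix κ κ F) :
    (fromBlocks 0 B Bᵀ C).det = (-1) ^ Fintype.card κ * B.det ^ 2 := by
  have h1 : fromBlocks 0 B Bᵀ C
      = fromBlocks B 0 C Bᵀ * fromBlocks (0 : Matrix κ κ F) (1 : Matrix κ κ F) (1 : Matrix κ κ F)
        (0 : Matrix κ κ F) := by
    rw [fromBlocks_multiply]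
    simp
  have h2 : (fromBlocks (0 : Matrix κ κ F) (1 : Matrix κ κ F) (1 : Matrix κ κ F)
        (0 : Matrix κ κ F)) * (fromBlocks (1 : Matrix κ κ F) (0 : Matrix κ κ F)
        (1 : Matrix κ κ F) (1 : Matrix κ κ F))
      = fromBlocks (1 : Matrix κ κ F) (1 : Matrix κ κ F) (1 : Matrix κ κ F)
        (0 : Matrix κ κ F) := by
    rw [fromBlocks_multiply]
    simp
  have h3 : (fromBlocks (0 : Matrix κ κ F) (1 : Matrix κ κ F) (1 : Matrix κ κ F)
        (0 : Matrix κ κ F)).det = (-1) ^ Fintype.card κ := by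
    have h4 := congrArg Matrix.det h2
    rw [det_mul, det_fromBlocks_zero₁₂, det_one, mul_one, mul_one, det_fromBlocks_one₁₁] at h4
    rw [h4]
    rw [mul_one, zero_sub, det_neg, det_one, mul_one]
  rw [h1, det_mul, det_fromBlocks_zero₁₂, det_transpose, h3]
  ring

/-- The extension of an independent family to a basis, as a matrix. -/
theorem LAG_ext {F ι κ : Type} [Field F] [Fintype ι] [Fintype κ] (v : κ → ι → F)
    (hv : LinearIndependent F v) :
    ∃ (κ' : Type) (_ : Fintype κ') (P : Matrix (κ ⊕ κ') ι F),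
      LinearIndependent F P.row ∧ (∀ a, P (Sum.inl a) = v a) ∧
        Fintype.card κ + Fintype.card κ' = Fintype.card ι := by
  classical
  let Bb := Module.Basis.sumExtend hv
  haveI h2 : Fintype (Module.Basis.sumExtendIndex hv) :=
    @Fintype.ofInjective _ _ (FiniteDimensional.fintypeBasisIndex Bb)
      (Sum.inr : _ → κ ⊕ Module.Basis.sumExtendIndex hv) Sum.inr_injective
  refine ⟨Module.Basis.sumExtendIndex hv, h2, fun k => Bb k, Bb.linearIndependent, ?_, ?_⟩
  · intro a
    show (Module.Basis.sumExtend hv) (Sum.inl a) = v a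
    unfold Module.Basis.sumExtend
    simp only [Module.Basis.coe_reindex, Function.comp, Module.Basis.extend_apply_self,
      Equiv.symm_symm]
    rfl
  · have h3 := Module.finrank_eq_nat_card_basis Bb
    rw [Module.finrank_fintype_fun_eq_card] at h3
    rw [← Fintype.card_sum, ← Nat.card_eq_fintype_card]
    exact h3.symm

/-- LAG. -/
theorem LAG_thm : Stmt_LAG := by
  intro F _ ι κ _ _ q v hq hv hb
  classical
  obtain ⟨κ', hκ', P, hP, hPv, hcard⟩ := LAG_ext v hv
  -- the Gram matrix
  have hcard2 : Fintype.card (κ ⊕ κ') = Fintype.card ι := by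
    rw [Fintype.card_sum, hcard]
  let g : κ ⊕ κ' ≃ ι := Fintype.equivOfCardEq hcard2
  let P' : Matrix (κ ⊕ κ') (κ ⊕ κ') F := P.submatrix id g
  have hP' : P'.det ≠ 0 := by
    have h1 : LinearIndependent F P'.row := by
      have h2 : P'.row = (LinearEquiv.funCongrLeft F F g) ∘ P.row := by
        funext k
        rfl
      rw [h2]
      exact hP.map' _ (LinearEquiv.ker _)
    have h3 := linearIndependent_rows_iff_isUnit.1 h1
    exact ((Matrix.isUnit_iff_isUnit_det _).1 h3).ne_zero
  let M : Matrix (κ ⊕ κ') (κ ⊕ κ') F := P' * diagonal (q ∘ g) * P'ᵀ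
  have hMdet : M.det = P'.det ^ 2 * ∏ i, q i := by
    show (P' * diagonal (q ∘ g) * P'ᵀ).det = _
    rw [det_mul, det_mul, det_transpose, det_diagonal]
    have h1 : ∏ i, (q ∘ g) i = ∏ i, q i := Equiv.prod_comp g q
    rw [h1]
    ring
  have hMne : M.det ≠ 0 := by
    rw [hMdet]
    exact mul_ne_zero (pow_ne_zero _ hP') (Finset.prod_ne_zero_iff.2 fun i _ => hq i)
  have hMentry : ∀ k k', M k k' = ∑ i, q i * P k i * P k' i := by
    intro k k'
    show (P' * diagonal (q ∘ g) * P'ᵀ) k k' = _
    rw [Matrix.mul_apply]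
    rw [← Equiv.sum_comp g]
    refine Finset.sum_congr rfl fun i _ => ?_
    rw [Matrix.mul_diagonal, Matrix.transpose_apply]
    show P k (g i) * q (g i) * P k' (g i) = _
    ring
  have hMsymm : Mᵀ = M := by
    ext k k'
    rw [transpose_apply, hMentry, hMentry]
    refine Finset.sum_congr rfl fun i _ => ?_
    ring
  have hM0 : M.toBlocks₁₁ = 0 := by
    ext a b
    show M (Sum.inl a) (Sum.inl b) = 0
    rw [hMentry, hPv, hPv]
    exact hb a b
  have hM21 : M.toBlocks₂₁ = M.toBlocks₁₂ᵀ := by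
    ext a b
    show M (Sum.inr a) (Sum.inl b) = M (Sum.inl b) (Sum.inr a)
    rw [hMentry, hMentry]
    refine Finset.sum_congr rfl fun i _ => ?_
    ring
  have hMblock : M = fromBlocks 0 M.toBlocks₁₂ M.toBlocks₁₂ᵀ M.toBlocks₂₂ := by
    rw [← hM0, ← hM21, fromBlocks_toBlocks]
  have hunit : IsUnit M := (Matrix.isUnit_iff_isUnit_det _).2 (isUnit_iff_ne_zero.2 hMne)
  -- independence of the rows of the block
  have hrow : LinearIndependent F M.toBlocks₁₂.row := by
    have h1 : LinearIndependent F (fun a : κ => M.row (Sum.inl a)) :=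
      (linearIndependent_rows_iff_isUnit.2 hunit).comp _ Sum.inl_injective
    rw [Fintype.linearIndependent_iff] at h1 ⊢
    intro c hc
    apply h1 c
    funext k
    rw [Finset.sum_apply]
    rcases k with b | b
    · show ∑ a, c a * M (Sum.inl a) (Sum.inl b) = 0
      refine Finset.sum_eq_zero fun a _ => ?_
      have h2 : M (Sum.inl a) (Sum.inl b) = 0 := by
        have := congrFun (congrFun hM0 a) b
        exact this
      rw [h2, mul_zero]
    · have h2 := congrFun hc b
      rw [Finset.sum_apply] at h2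
      exact h2
  have hle : Fintype.card κ ≤ Fintype.card κ' := by
    have h1 := hrow.fintype_card_le_finrank
    rwa [Module.finrank_fintype_fun_eq_card] at h1
  refine ⟨by omega, ?_⟩
  intro h2s
  have hcc : Fintype.card κ = Fintype.card κ' := by omega
  let e : κ ≃ κ' := Fintype.equivOfCardEq hcc
  let E : κ ⊕ κ ≃ κ ⊕ κ' := Equiv.sumCongr (Equiv.refl κ) e
  let B : Matrix κ κ F := M.toBlocks₁₂.submatrix id e
  let C : Matrix κ κ F := M.toBlocks₂₂.submatrix e e
  have hME : M.submatrix E E = fromBlocks 0 B Bᵀ C := by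
    ext k k'
    rcases k with a | a <;> rcases k' with b | b
    · exact congrFun (congrFun hM0 a) b
    · rfl
    · exact congrFun (congrFun hM21 (e a)) b
    · rfl
  have hdet2 : M.det = (-1) ^ Fintype.card κ * B.det ^ 2 := by
    rw [← Matrix.det_submatrix_equiv_self E M, hME, LAG_det]
  refine ⟨B.det / P'.det, ?_⟩
  have h1 : P'.det ^ 2 * ∏ i, q i = (-1) ^ Fintype.card κ * B.det ^ 2 := by
    rw [← hMdet, hdet2]
  have h2 : ((-1 : F) ^ Fintype.card κ) * (-1) ^ Fintype.card κ = 1 := by
    rw [← mul_pow]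
    simp
  rw [div_mul_div_comm, eq_div_iff (mul_ne_zero hP' hP')]
  calc (-1) ^ Fintype.card κ * (∏ i, q i) * (P'.det * P'.det)
      = (-1) ^ Fintype.card κ * (P'.det ^ 2 * ∏ i, q i) := by ring
    _ = (-1) ^ Fintype.card κ * ((-1) ^ Fintype.card κ * B.det ^ 2) := by rw [h1]
    _ = ((-1 : F) ^ Fintype.card κ * (-1) ^ Fintype.card κ) * B.det ^ 2 := by ring
    _ = B.det * B.det := by rw [h2]; ring

end Pool.Agent.ADG

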