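import Pool.Agent.ADG.St6
import Pool.Agent.ADG.LAG

/-!
# ADG part 6: self-dual subspaces for a symmetric Gram matrix (GRM)
-/

set_option autoImplicit false

namespace Pool.Agent.ADG

open Finset Matrix

/-- a subspace which contains its orthogonal has at least half the dimension -/
theorem GRM_half {F ι κ : Type} [Field F] [Fintype ι] [Fintype κ] (M : Matrix ι ι F)
    (L : Submodule F (ι → F)) (bs : Module.Basis κ F L)
    (hL : ∀ v : ι → F, v ∈ L ↔ ∀ w ∈ L, ∑ i, ∑ j, v i * M i j * w j = 0) :
    Fintype.card ι ≤ 2 * Fintype.card κ := by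
  classical
  let N : Matrix κ ι F := Matrix.of fun a i => ∑ j, M i j * (bs a : ι → F) j
  have hker : LinearMap.ker N.mulVecLin ≤ L := by
    intro x hx
    rw [LinearMap.mem_ker] at hx
    have hx' : ∀ a, ∑ i, ∑ j, x i * M i j * (bs a : ι → F) j = 0 := by
      intro a
      have h1 := congrFun hx a
      have h2 : N.mulVecLin x a = ∑ i, (∑ j, M i j * (bs a : ι → F) j) * x i := rfl
      rw [h2] at h1
      rw [← show (∑ i, (∑ j, M i j * (bs a : ι → F) j) * x i) = 0 from h1]
      refine Finset.sum_congr rfl fun i _ => ?_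
      rw [Finset.sum_mul]
      refine Finset.sum_congr rfl fun j _ => ?_
      ring
    rw [hL]
    intro w hw
    have h1 := bs.sum_repr ⟨w, hw⟩
    have h2 : w = ∑ a, bs.repr ⟨w, hw⟩ a • (bs a : ι → F) := by
      have h3 := congrArg (fun z : L => (z : ι → F)) h1
      simp only [AddSubmonoidClass.coe_finsetSum, SetLike.val_smul] at h3
      exact h3.symm
    have h4 : ∀ j, w j = ∑ a, bs.repr ⟨w, hw⟩ a * (bs a : ι → F) j := by
      intro j
      have h5 := congrFun h2 j
      rw [Finset.sum_apply] at h5
      exact h5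
    calc ∑ i, ∑ j, x i * M i j * w j
        = ∑ i, ∑ j, ∑ a, bs.repr ⟨w, hw⟩ a * (x i * M i j * (bs a : ι → F) j) := by
          refine Finset.sum_congr rfl fun i _ => Finset.sum_congr rfl fun j _ => ?_
          rw [h4 j, Finset.mul_sum]
          refine Finset.sum_congr rfl fun a _ => ?_
          ring
      _ = ∑ a, bs.repr ⟨w, hw⟩ a * ∑ i, ∑ j, x i * M i j * (bs a : ι → F) j := by
          simp_rw [Finset.mul_sum]
          rw [Finset.sum_comm' (t' := univ) (s' := fun _ => univ) (by simp)]
          rw [Finset.sum_comm]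
          conv_rhs => rw [Finset.sum_comm]
          have hsc : ∀ f : ι → ι → κ → F, ∑ y, ∑ x, ∑ a, f x y a = ∑ x, ∑ a, ∑ y, f x y a := by
            intro f
            rw [Finset.sum_comm]
            exact Finset.sum_congr rfl fun i _ => Finset.sum_comm
          first
            | exact hsc _
            | (refine Finset.sum_congr rfl fun i _ => ?_
               exact Finset.sum_comm)
      _ = 0 := by
          refine Finset.sum_eq_zero fun a _ => ?_
          rw [hx' a, mul_zero]
  have h1 := LinearMap.finrank_range_add_finrank_ker N.mulVecLin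
  rw [Module.finrank_fintype_fun_eq_card] at h1
  have h2 : Module.finrank F (LinearMap.range N.mulVecLin) ≤ Fintype.card κ := by
    have := Submodule.finrank_le (LinearMap.range N.mulVecLin)
    rwa [Module.finrank_fintype_fun_eq_card] at this
  have h3 : Module.finrank F (LinearMap.ker N.mulVecLin) ≤ Fintype.card κ := by
    have := Submodule.finrank_mono hker
    rwa [Module.finrank_eq_card_basis bs] at this
  omega

/-- GRM. -/
theorem GRM_thm : Stmt_GRM := by
  intro F ι _ _ _ M0 L hM0 hMt hL
  classical
  let bs := Module.finBasis F L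
  have hn2 := GRM_half M0 L bs hL
  let v : Fin (Module.finrank F L) → ι → F := fun a => (bs a : ι → F)
  have hv : LinearIndependent F v := bs.linearIndependent.map' L.subtype (Submodule.ker_subtype L)
  have hb : ∀ a b, ∑ i, ∑ j, v a i * M0 i j * v b j = 0 := fun a b =>
    (hL _).1 (bs a).2 _ (bs b).2
  obtain ⟨κ', hκ', P, hP, hPv, hcard⟩ := LAG_ext v hv
  have hcard2 : Fintype.card (Fin (Module.finrank F L) ⊕ κ') = Fintype.card ι := by
    rw [Fintype.card_sum, hcard]
  let g : Fin (Module.finrank F L) ⊕ κ' ≃ ι := Fintype.equivOfCardEq hcard2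
  let P' : Matrix (Fin (Module.finrank F L) ⊕ κ') (Fin (Module.finrank F L) ⊕ κ') F :=
    P.submatrix id g
  have hP' : P'.det ≠ 0 := by
    have h1 : LinearIndependent F P'.row := by
      have h2 : P'.row = (LinearEquiv.funCongrLeft F F g) ∘ P.row := by
        funext k
        rfl
      rw [h2]
      exact hP.map' _ (LinearEquiv.ker _)
    have h3 := linearIndependent_rows_iff_isUnit.1 h1
    exact ((Matrix.isUnit_iff_isUnit_det _).1 h3).ne_zero
  let M : Matrix (Fin (Module.finrank F L) ⊕ κ') (Fin (Module.finrank F L) ⊕ κ') F :=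
    P' * M0.submatrix g g * P'ᵀ
  have hMdet : M.det = P'.det ^ 2 * M0.det := by
    show (P' * M0.submatrix g g * P'ᵀ).det = _
    rw [det_mul, det_mul, det_transpose, det_submatrix_equiv_self]
    ring
  have hMne : M.det ≠ 0 := by
    rw [hMdet]
    exact mul_ne_zero (pow_ne_zero _ hP') hM0
  have hMentry : ∀ k k', M k k' = ∑ i, ∑ j, P k i * M0 i j * P k' j := by
    intro k k'
    show (P' * M0.submatrix g g * P'ᵀ) k k' = _
    rw [Matrix.mul_apply]
    have h1 : ∀ j, (P' * M0.submatrix g g) k j * P'ᵀ j k'
        = ∑ i, P k i * M0 i (g j) * P k' (g j) := by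
      intro j
      rw [Matrix.mul_apply, Finset.sum_mul, ← Equiv.sum_comp g]
      refine Finset.sum_congr rfl fun i _ => ?_
      rfl
    simp_rw [h1]
    rw [Equiv.sum_comp g (fun j => ∑ i, P k i * M0 i j * P k' j), Finset.sum_comm]
  have hMsymm : ∀ k k', M k k' = M k' k := by
    intro k k'
    rw [hMentry, hMentry, Finset.sum_comm]
    refine Finset.sum_congr rfl fun i _ => Finset.sum_congr rfl fun j _ => ?_
    have h1 : M0 j i = M0 i j := congrFun (congrFun hMt i) j
    rw [h1]
    ring
  have hM0' : M.toBlocks₁₁ = 0 := by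
    ext a b
    show M (Sum.inl a) (Sum.inl b) = 0
    rw [hMentry, hPv, hPv]
    exact hb a b
  have hM21 : M.toBlocks₂₁ = M.toBlocks₁₂ᵀ := by
    ext a b
    show M (Sum.inr a) (Sum.inl b) = M (Sum.inl b) (Sum.inr a)
    exact hMsymm _ _
  have hunit : IsUnit M := (Matrix.isUnit_iff_isUnit_det _).2 (isUnit_iff_ne_zero.2 hMne)
  -- independence of the rows of the block
  have hrow : LinearIndependent F M.toBlocks₁₂.row := by
    have h1 : LinearIndependent F (fun a : Fin (Module.finrank F L) => M.row (Sum.inl a)) :=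
      (linearIndependent_rows_iff_isUnit.2 hunit).comp _ Sum.inl_injective
    rw [Fintype.linearIndependent_iff] at h1 ⊢
    intro c hc
    apply h1 c
    funext k
    rw [Finset.sum_apply]
    rcases k with b | b
    · show ∑ a, c a * M (Sum.inl a) (Sum.inl b) = 0
      refine Finset.sum_eq_zero fun a _ => ?_
      have h2 : M (Sum.inl a) (Sum.inl b) = 0 := by
        have := congrFun (congrFun hM0' a) b
        exact this
      rw [h2, mul_zero]
    · have h2 := congrFun hc b
      rw [Finset.sum_apply] at h2
      exact h2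
  have hle : Fintype.card (Fin (Module.finrank F L)) ≤ Fintype.card κ' := by
    have h1 := hrow.fintype_card_le_finrank
    rwa [Module.finrank_fintype_fun_eq_card] at h1
  have hcc : Fintype.card (Fin (Module.finrank F L)) = Fintype.card κ' := by omega
  have hn : Fintype.card ι = 2 * Fintype.card (Fin (Module.finrank F L)) := by omega
  refine ⟨⟨Fintype.card (Fin (Module.finrank F L)), by omega⟩, ?_⟩
  have hdiv : Fintype.card ι / 2 = Fintype.card (Fin (Module.finrank F L)) := by omega
  rw [hdiv]
  let e : Fin (Module.finrank F L) ≃ κ' := Fintype.equivOfCardEq hcc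
  let E : Fin (Module.finrank F L) ⊕ Fin (Module.finrank F L) ≃
      Fin (Module.finrank F L) ⊕ κ' := Equiv.sumCongr (Equiv.refl _) e
  let B : Matrix (Fin (Module.finrank F L)) (Fin (Module.finrank F L)) F :=
    M.toBlocks₁₂.submatrix id e
  let C : Matrix (Fin (Module.finrank F L)) (Fin (Module.finrank F L)) F :=
    M.toBlocks₂₂.submatrix e e
  have hME : M.submatrix E E = fromBlocks 0 B Bᵀ C := by
    ext k k'
    rcases k with a | a <;> rcases k' with b | b
    · exact congrFun (congrFun hM0' a) b
    · rfl
    · exact congrFun (congrFun hM21 (e a)) b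
    · rfl
  have hdet2 : M.det = (-1) ^ Fintype.card (Fin (Module.finrank F L)) * B.det ^ 2 := by
    rw [← Matrix.det_submatrix_equiv_self E M, hME, LAG_det]
  refine ⟨B.det / P'.det, ?_⟩
  have h1 : P'.det ^ 2 * M0.det
      = (-1) ^ Fintype.card (Fin (Module.finrank F L)) * B.det ^ 2 := by
    rw [← hMdet, hdet2]
  have h2 : ((-1 : F) ^ Fintype.card (Fin (Module.finrank F L))) *
      (-1) ^ Fintype.card (Fin (Module.finrank F L)) = 1 := by
    rw [← mul_pow]
    simp
  rw [div_mul_div_comm, eq_div_iff (mul_ne_zero hP' hP')]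
  calc (-1) ^ Fintype.card (Fin (Module.finrank F L)) * M0.det * (P'.det * P'.det)
      = (-1) ^ Fintype.card (Fin (Module.finrank F L)) * (P'.det ^ 2 * M0.det) := by ring
    _ = (-1) ^ Fintype.card (Fin (Module.finrank F L)) *
        ((-1) ^ Fintype.card (Fin (Module.finrank F L)) * B.det ^ 2) := by rw [h1]
    _ = ((-1 : F) ^ Fintype.card (Fin (Module.finrank F L)) *
        (-1) ^ Fintype.card (Fin (Module.finrank F L))) * B.det ^ 2 := by ring
    _ = B.det * B.det := by rw [h2]; ring

end Pool.Agent.ADG
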