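import Pool.Agent.ADG.St6
import Pool.Agent.ADG.MAT

/-!
# Project ADG, module LGR (helper50): the self-dual code
-/

set_option autoImplicit false

namespace Pool.Agent.ADG

open Finset Matrix Pool.Agent.ADS

namespace LGRa

open MATx

section
variable {I J B : Type} [Fintype I] [Fintype J] [Fintype B] [DecidableEq I] [DecidableEq B]

lemma sb_add (β : I → B) (x y : I → ℤ) (b : B) : sb β (x + y) b = sb β x b + sb β y b := by
  unfold sb
  rw [← Finset.sum_add_distrib]
  refine Finset.sum_congr rfl fun i _ => ?_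
  split_ifs <;> simp

lemma sb_smul (β : I → B) (c : ℤ) (x : I → ℤ) (b : B) : sb β (c • x) b = c * sb β x b := by
  unfold sb
  rw [Finset.mul_sum]
  refine Finset.sum_congr rfl fun i _ => ?_
  split_ifs <;> simp

lemma sb_zero (β : I → B) (b : B) : sb β (0 : I → ℤ) b = 0 := by
  unfold sb
  simp

/-- products of elements of `V` -/
lemma starV {β : I → B} {A : Matrix I J ℤ} {n h : ℕ} {s : B → ℕ}
    (hA : ∀ i i', (A * A.transpose) i i' = (if i = i' then (n : ℤ) else 0) + h -
      (if β i = β i' then (s (β i) : ℤ) else 0)) {x : I → ℤ} (hx : ∀ b, sb β x b = 0)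
    (x' : I → ℤ) : ∑ j, (Aᵀ *ᵥ x) j * (Aᵀ *ᵥ x') j = n * ∑ i, x i * x' i := by
  have h0 : ∑ i, x i = 0 := by
    rw [← sb_sum β x]
    exact Finset.sum_eq_zero fun b _ => hx b
  rw [star β A n h s hA, h0]
  have : ∑ b, (s b : ℤ) * sb β x b * sb β x' b = 0 :=
    Finset.sum_eq_zero fun b _ => by rw [hx b]; ring
  rw [this]
  ring

/-- the elements of the first family are orthogonal modulo `l` -/
lemma iso {β : I → B} {A : Matrix I J ℤ} {n h l : ℕ} {s : B → ℕ} (hl : l.Prime) {j n' : ℕ}
    (hn' : n = l ^ (2 * j + 1) * n') (hln' : ¬ l ∣ n')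
    (hA : ∀ i i', (A * A.transpose) i i' = (if i = i' then (n : ℤ) else 0) + h -
      (if β i = β i' then (s (β i) : ℤ) else 0)) {x x' : I → ℤ} (hx : ∀ b, sb β x b = 0)
    {z z' : J → ℤ} (hz : Aᵀ *ᵥ x = (l : ℤ) ^ (j + 1) • z)
    (hz' : Aᵀ *ᵥ x' = (l : ℤ) ^ (j + 1) • z') :
    ∑ i, ((x i : ℤ) : ZMod l) * ((x' i : ℤ) : ZMod l) = 0 := by
  have hl0 : (l : ℤ) ≠ 0 := by exact_mod_cast hl.ne_zero
  have h1 := starV hA hx x'
  rw [hz, hz'] at h1
  have h2 : (l : ℤ) ∣ ∑ i, x i * x' i := by
    have h3 : (n' : ℤ) * ∑ i, x i * x' i = l * ∑ j, z j * z' j := by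
      have h4 : (l : ℤ) ^ (2 * j + 1) * ((n' : ℤ) * ∑ i, x i * x' i) =
          (l : ℤ) ^ (2 * j + 1) * (l * ∑ j, z j * z' j) := by
        have h5 : ∑ k, ((l : ℤ) ^ (j + 1) • z) k * ((l : ℤ) ^ (j + 1) • z') k =
            (l : ℤ) ^ (2 * j + 1) * (l * ∑ j, z j * z' j) := by
          rw [← mul_assoc, Finset.mul_sum]
          refine Finset.sum_congr rfl fun k _ => ?_
          simp only [Pi.smul_apply, smul_eq_mul]
          ring
        rw [← h5, h1, hn']
        push_cast
        ring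
      exact mul_left_cancel₀ (pow_ne_zero _ hl0) h4
    have h6 : (l : ℤ) ∣ (n' : ℤ) * ∑ i, x i * x' i := ⟨_, h3⟩
    rcases (Nat.prime_iff_prime_int.1 hl).dvd_or_dvd h6 with h7 | h7
    · exact absurd (Int.natCast_dvd_natCast.1 h7) hln'
    · exact h7
  have h3 := (CharP.intCast_eq_zero_iff (ZMod l) l _).2 h2
  push_cast at h3
  exact h3

/-- the first family of (MAT) -/
theorem family (hL : Stmt_LAG) (hT : Stmt_LAT) (hR : Stmt_RKV)
    (β : I → B) (A : Matrix I J ℤ) (n h l : ℕ) (s : B → ℕ) (hβ : Function.Surjective β)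
    (hl : l.Prime) (hodd : Odd (n.factorization l)) (hIJ : Fintype.card I = Fintype.card J)
    (hu : h * Fintype.card I + 1 = n ^ 2) (hs : ∀ b, s b * #{i | β i = b} + 1 = n)
    (hA : ∀ i i', (A * A.transpose) i i' = (if i = i' then (n : ℤ) else 0) + h -
      (if β i = β i' then (s (β i) : ℤ) else 0)) (hrow : ∀ i, ∑ j, A i j = n) :
    ∃ (j n' u1 : ℕ) (x : Fin u1 → I → ℤ), n = l ^ (2 * j + 1) * n' ∧ ¬ l ∣ n' ∧
      (∀ a b, sb β (x a) b = 0) ∧ (∀ a, ∃ z : J → ℤ, Aᵀ *ᵥ x a = (l : ℤ) ^ (j + 1) • z) ∧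
      LinearIndependent (ZMod l) (fun a i => ((x a i : ℤ) : ZMod l)) ∧
      (∀ b, (#{i | β i = b} : ZMod l) ≠ 0) ∧
      2 * (u1 + Fintype.card B) = Fintype.card I + Fintype.card B := by
  haveI : Fact l.Prime := ⟨hl⟩
  obtain ⟨j, hj⟩ := hodd
  obtain ⟨n', hn'⟩ : ∃ n', n = l ^ (2 * j + 1) * n' := by
    have := Nat.ordProj_dvd n l
    rw [hj] at this
    exact this
  have hn0 : n ≠ 0 := by
    rintro rfl
    simp at hj
  have hln' : ¬ l ∣ n' := by
    intro hd
    have h1 : l ^ (2 * j + 1 + 1) ∣ n := by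
      rw [hn', pow_succ]
      exact Nat.mul_dvd_mul_left _ hd
    have h2 := (hl.pow_dvd_iff_le_factorization hn0).1 h1
    omega
  have hl0 : (l : ℤ) ≠ 0 := by exact_mod_cast hl.ne_zero
  have hnF : (n : ZMod l) = 0 := by
    rw [ZMod.natCast_eq_zero_iff, hn']
    exact Dvd.dvd.mul_right (dvd_pow_self _ (by omega)) _
  -- the lattice
  let V : Submodule ℤ (I → ℤ) :=
    { carrier := {x | ∀ b, sb β x b = 0}
      add_mem' := by
        intro x y hx hy b
        rw [sb_add, hx b, hy b, add_zero]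
      zero_mem' := sb_zero β
      smul_mem' := by
        intro c x hx b
        rw [sb_smul, hx b, mul_zero] }
  have hV : ∀ x, x ∈ V ↔ ∀ b, sb β x b = 0 := fun x => Iff.rfl
  have hrk := hR I B β hβ V (by
    intro x
    rw [hV]
    refine forall_congr' fun b => ?_
    unfold sb
    rw [Finset.sum_filter])
  obtain ⟨u1, u2, x, x', y, hu12, hx, hxz, hxi, hx', hxy, hyi⟩ := hT I J l hl j
    (Matrix.mulVecLin Aᵀ) V (by
      intro x hx b
      have h1 := hx b
      rw [sb_smul] at h1
      exact (mul_eq_zero.1 h1).resolve_left hl0)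
  simp only [Matrix.mulVecLin_apply] at hxz hxy
  have hsum0 : ∀ x ∈ V, ∑ i, x i = 0 := by
    intro x hx
    rw [← sb_sum β x]
    exact Finset.sum_eq_zero fun b _ => hx b
  have hstarV : ∀ x ∈ V, ∀ x' : I → ℤ, ∑ j, (Aᵀ *ᵥ x) j * (Aᵀ *ᵥ x') j = n * ∑ i, x i * x' i :=
    fun x hx x' => starV hA hx x'
  have hmF : ∀ b, (s b : ZMod l) * (#{i | β i = b} : ZMod l) = -1 := by
    intro b
    have h1 := congrArg (Nat.cast : ℕ → ZMod l) (hs b)
    push_cast at h1
    rw [hnF] at h1
    linear_combination h1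
  have hm0 : ∀ b, (#{i | β i = b} : ZMod l) ≠ 0 := by
    intro b hb
    have h1 := hmF b
    rw [hb, mul_zero] at h1
    exact neg_ne_zero.2 one_ne_zero h1.symm
  -- the first family
  have hE1 := ext hL (F := ZMod l) (ι := I) (fun a i => ((x a i : ℤ) : ZMod l)) hxi
    (fun b i => ((ind β b i : ℤ) : ZMod l)) (fun b => (#{i | β i = b} : ZMod l)) hm0 (by
      intro a a'
      obtain ⟨z, hz⟩ := hxz a
      obtain ⟨z', hz'⟩ := hxz a'
      exact iso hl hn' hln' hA (hx a) hz hz') (by
      intro a b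
      have h1 : ∑ i, x a i * ind β b i = 0 := by
        rw [← hx a b]
        unfold sb ind
        refine Finset.sum_congr rfl fun i _ => ?_
        split_ifs <;> simp
      have h2 := congrArg (Int.cast : ℤ → ZMod l) h1
      push_cast at h2
      exact h2) (by
      intro b c
      have h1 := congrArg (Int.cast : ℤ → ZMod l) (ind_ind β b c)
      push_cast at h1
      exact h1)
  -- the second family
  have hE2 := ext hL (F := ZMod l) (ι := J) (fun a i => ((y a i : ℤ) : ZMod l)) hyi
    (fun b k => (((Aᵀ *ᵥ ind β b) k - h * #{i | β i = b} : ℤ) : ZMod l))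
    (fun b => (#{i | β i = b} : ZMod l)) hm0 (by
      intro a a'
      have h1 := hstarV (x' a) (hx' a) (x' a')
      rw [hxy, hxy] at h1
      have h2 : ∑ k, y a k * y a' k = l * (n' * ∑ i, x' a i * x' a' i) := by
        have h4 : (l : ℤ) ^ (2 * j) * ∑ k, y a k * y a' k =
            (l : ℤ) ^ (2 * j) * (l * (n' * ∑ i, x' a i * x' a' i)) := by
          have h5 : ∑ k, ((l : ℤ) ^ j • y a) k * ((l : ℤ) ^ j • y a') k =
              (l : ℤ) ^ (2 * j) * ∑ k, y a k * y a' k := by
            rw [Finset.mul_sum]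
            refine Finset.sum_congr rfl fun k _ => ?_
            simp only [Pi.smul_apply, smul_eq_mul]
            ring
          rw [← h5, h1, hn']
          push_cast
          ring
        exact mul_left_cancel₀ (pow_ne_zero _ hl0) h4
      have h3 := congrArg (Int.cast : ℤ → ZMod l) h2
      push_cast at h3
      rw [h3, ZMod.natCast_self, zero_mul]) (by
      intro a b
      have h1 : ∑ k, y a k * (Aᵀ *ᵥ ind β b) k = 0 := by
        have h2 := hstarV (x' a) (hx' a) (ind β b)
        have h3 : ∑ i, x' a i * ind β b i = 0 := by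
          rw [← hx' a b]
          unfold sb ind
          refine Finset.sum_congr rfl fun i _ => ?_
          split_ifs <;> simp
        rw [h3, mul_zero, hxy] at h2
        have h4 : (l : ℤ) ^ j * ∑ k, y a k * (Aᵀ *ᵥ ind β b) k = 0 := by
          rw [← h2, Finset.mul_sum]
          refine Finset.sum_congr rfl fun k _ => ?_
          simp only [Pi.smul_apply, smul_eq_mul]
          ring
        exact (mul_eq_zero.1 h4).resolve_left (pow_ne_zero _ hl0)
      have h5 : ∑ k, y a k = 0 := by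
        have h2 := sum_col A n hrow (x' a)
        rw [hsum0 _ (hx' a), mul_zero, hxy] at h2
        have h4 : (l : ℤ) ^ j * ∑ k, y a k = 0 := by
          rw [← h2, Finset.mul_sum]
          exact Finset.sum_congr rfl fun k _ => rfl
        exact (mul_eq_zero.1 h4).resolve_left (pow_ne_zero _ hl0)
      have h6 : ∑ k, y a k * ((Aᵀ *ᵥ ind β b) k - h * #{i | β i = b}) = 0 := by
        simp_rw [mul_sub, Finset.sum_sub_distrib, ← Finset.sum_mul, h1, h5]
        ring
      have h7 := congrArg (Int.cast : ℤ → ZMod l) h6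
      rw [Int.cast_sum] at h7
      simp_rw [Int.cast_mul] at h7
      rw [h7]
      simp) (by
      intro b c
      have h1 := star β A n h s hA (ind β b) (ind β c)
      rw [ind_ind, sum_ind, sum_ind] at h1
      have h2 : ∑ d, (s d : ℤ) * sb β (ind β b) d * sb β (ind β c) d =
          if b = c then (s b : ℤ) * #{i | β i = b} * #{i | β i = b} else 0 := by
        simp_rw [sb_ind]
        by_cases hbc : b = c
        · subst hbc
          rw [if_pos rfl, Finset.sum_eq_single b]
          · rw [if_pos rfl]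
          · intro d _ hd
            rw [if_neg (Ne.symm hd)]
            ring
          · intro h'
            exact absurd (Finset.mem_univ b) h'
        · rw [if_neg hbc]
          refine Finset.sum_eq_zero fun d _ => ?_
          by_cases hd : b = d
          · have : ¬ c = d := fun h' => hbc (hd.trans h'.symm)
            rw [if_neg this]
            ring
          · rw [if_neg hd]
            ring
      rw [h2] at h1
      have hsz : (s b : ℤ) * #{i | β i = b} + 1 = n := by exact_mod_cast hs b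
      have huz : (h : ℤ) * Fintype.card J + 1 = n ^ 2 := by
        rw [← hIJ]
        exact_mod_cast hu
      have h3 : ∑ k, ((Aᵀ *ᵥ ind β b) k - h * #{i | β i = b}) *
          ((Aᵀ *ᵥ ind β c) k - h * #{i | β i = c}) =
          (if b = c then (#{i | β i = b} : ℤ) else 0) +
            n * ((n - 2) * (h * #{i | β i = b} * #{i | β i = c})) := by
        have e1 : ∀ k, ((Aᵀ *ᵥ ind β b) k - h * #{i | β i = b}) *
            ((Aᵀ *ᵥ ind β c) k - h * #{i | β i = c}) =
            (Aᵀ *ᵥ ind β b) k * (Aᵀ *ᵥ ind β c) k - (Aᵀ *ᵥ ind β b) k * (h * #{i | β i = c}) -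
            (Aᵀ *ᵥ ind β c) k * (h * #{i | β i = b}) +
            (h * #{i | β i = b}) * (h * #{i | β i = c}) := by
          intro k
          ring
        simp_rw [e1, Finset.sum_add_distrib, Finset.sum_sub_distrib, ← Finset.sum_mul,
          sum_col A n hrow, sum_ind, h1, Finset.sum_const, Finset.card_univ, nsmul_eq_mul]
        by_cases hbc : b = c
        · subst hbc
          simp only [if_true]
          linear_combination -(#{i | β i = b} : ℤ) * hsz +
            (h : ℤ) * #{i | β i = b} * #{i | β i = b} * huz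
        · simp only [hbc, if_false]
          linear_combination (h : ℤ) * #{i | β i = b} * #{i | β i = c} * huz
      have h4 := congrArg (Int.cast : ℤ → ZMod l) h3
      rw [Int.cast_sum] at h4
      simp_rw [Int.cast_mul] at h4
      rw [h4]
      push_cast
      rw [hnF]
      ring)
  rw [Fintype.card_fin] at hE1 hE2
  have hu1 : 2 * (u1 + Fintype.card B) = Fintype.card I + Fintype.card B := by
    have h1 := hE1.1
    have h2 := hE2.1
    omega
  exact ⟨j, n', u1, x, hn', hln', hx, hxz, hxi, hm0, hu1⟩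

/-- orthogonality to the family and to the indicators of the blocks -/
theorem perp {F : Type} [Field F] {u1 : ℕ} (x : Fin u1 → I → F) (w : B → I → F) (m : B → F)
    (hm : ∀ b, m b ≠ 0) (hx : LinearIndependent F x) (h1 : ∀ a a', ∑ i, x a i * x a' i = 0)
    (h2 : ∀ a b, ∑ i, x a i * w b i = 0)
    (h3 : ∀ b c, ∑ i, w b i * w c i = if b = c then m b else 0)
    (hd : 2 * (u1 + Fintype.card B) = Fintype.card I + Fintype.card B) (y : I → F)
    (hy1 : ∀ a, ∑ i, x a i * y i = 0) (hy2 : ∀ b, ∑ i, w b i * y i = 0) :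
    y ∈ Submodule.span F (Set.range x) := by
  let M : Matrix (Fin u1 ⊕ B) I F := Matrix.of (Sum.elim x w)
  have hM : LinearIndependent F M.row := by
    rw [Fintype.linearIndependent_iff]
    intro g hg
    have hg' : ∀ i, (∑ a, g (Sum.inl a) * x a i) + ∑ b, g (Sum.inr b) * w b i = 0 := by
      intro i
      have h := congrFun hg i
      rw [Finset.sum_apply, Fintype.sum_sum_type] at h
      exact h
    have hB : ∀ c, g (Sum.inr c) = 0 := by
      intro c
      have h4 : ∑ i, ((∑ a, g (Sum.inl a) * x a i) + ∑ b, g (Sum.inr b) * w b i) * w c i = 0 :=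
        Finset.sum_eq_zero fun i _ => by rw [hg' i, zero_mul]
      have h5 : ∑ i, ((∑ a, g (Sum.inl a) * x a i) + ∑ b, g (Sum.inr b) * w b i) * w c i =
          ∑ a, g (Sum.inl a) * ∑ i, x a i * w c i +
            ∑ b, g (Sum.inr b) * ∑ i, w b i * w c i := by
        simp_rw [add_mul, Finset.sum_add_distrib, Finset.sum_mul, Finset.mul_sum]
        congr 1
        · rw [Finset.sum_comm]
          exact Finset.sum_congr rfl fun a _ => Finset.sum_congr rfl fun i _ => by ring
        · rw [Finset.sum_comm]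
          exact Finset.sum_congr rfl fun a _ => Finset.sum_congr rfl fun i _ => by ring
      rw [h5] at h4
      simp_rw [h2, h3] at h4
      simp only [mul_zero, Finset.sum_const_zero, zero_add, mul_ite, Finset.sum_ite_eq',
        Finset.mem_univ, if_true] at h4
      exact (mul_eq_zero.1 h4).resolve_right (hm c)
    have hA : ∀ a, g (Sum.inl a) = 0 := by
      rw [Fintype.linearIndependent_iff] at hx
      refine hx (fun a => g (Sum.inl a)) ?_
      funext i
      have h4 := hg' i
      simp only [hB, zero_mul, Finset.sum_const_zero, add_zero] at h4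
      rw [Finset.sum_apply]
      exact h4
    rintro (a | b)
    · exact hA a
    · exact hB b
  have hrank := hM.rank_matrix
  have hker := LinearMap.finrank_range_add_finrank_ker M.mulVecLin
  rw [← Matrix.rank, hrank, Module.finrank_fintype_fun_eq_card, Fintype.card_sum,
    Fintype.card_fin] at hker
  have hsp : Submodule.span F (Set.range x) ≤ LinearMap.ker M.mulVecLin := by
    rw [Submodule.span_le]
    rintro _ ⟨a, rfl⟩
    rw [SetLike.mem_coe, LinearMap.mem_ker, Matrix.mulVecLin_apply]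
    funext k
    rcases k with a' | b
    · exact h1 a' a
    · change ∑ i, w b i * x a i = 0
      rw [← h2 a b]
      exact Finset.sum_congr rfl fun i _ => mul_comm _ _
  have hfin : Module.finrank F (Submodule.span F (Set.range x)) = u1 := by
    rw [finrank_span_eq_card hx, Fintype.card_fin]
  have heq : Submodule.span F (Set.range x) = LinearMap.ker M.mulVecLin :=
    Submodule.eq_of_le_of_finrank_eq hsp (by rw [hfin]; omega)
  rw [heq, LinearMap.mem_ker, Matrix.mulVecLin_apply]
  funext k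
  rcases k with a | b
  · exact hy1 a
  · exact hy2 b

end

section
variable {G B : Type} [Group G] [Fintype G] [Fintype B] [DecidableEq G] [DecidableEq B]

open Classical in
/-- the incidence matrix -/
noncomputable def Am (D : Finset G) : Matrix G G ℤ :=
  Matrix.of fun x y => if x * y⁻¹ ∈ D then 1 else 0

lemma Am_row (D : Finset G) (x : G) : ∑ y, Am D x y = D.card := by
  classical
  unfold Am
  simp only [Matrix.of_apply]
  rw [Finset.sum_boole]
  norm_cast
  apply Finset.card_bij (fun g _ => x * g⁻¹)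
  · intro g hg
    simpa using hg
  · intro g _ g' _ h
    exact inv_injective (mul_left_cancel h)
  · intro d hd
    refine ⟨d⁻¹ * x, ?_, ?_⟩
    · simp [hd]
    · simp

lemma Am_gram {n : ℕ} {N : Subgroup G} {D : Finset G} (hD : IsAffineDifferenceSet n N D)
    {β : G → B} (hβ : ∀ x y, β x = β y ↔ x * y⁻¹ ∈ N) (x x' : G) :
    (Am D * (Am D).transpose) x x' = (if x = x' then (n : ℤ) else 0) + (1 : ℕ) -
      (if β x = β x' then ((1 : ℕ) : ℤ) else 0) := by
  classical
  have h0 : (Am D * (Am D).transpose) x x' = (#{g : G | g ∈ D ∧ x' * x⁻¹ * g ∈ D} : ℕ) := by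
    rw [Matrix.mul_apply]
    simp only [Am, Matrix.transpose_apply, Matrix.of_apply]
    rw [Finset.card_filter]
    push_cast
    apply Fintype.sum_equiv ((Equiv.inv G).trans (Equiv.mulLeft x))
    intro y
    have e1 : ((Equiv.inv G).trans (Equiv.mulLeft x)) y = x * y⁻¹ := rfl
    rw [e1]
    have e2 : x' * x⁻¹ * (x * y⁻¹) = x' * y⁻¹ := by group
    rw [e2]
    by_cases h1 : x * y⁻¹ ∈ D <;> by_cases h2 : x' * y⁻¹ ∈ D <;> simp [h1, h2]
  rw [h0]
  have hc : x' * x⁻¹ ∈ N ↔ β x = β x' := by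
    rw [hβ, ← N.inv_mem_iff]
    simp
  by_cases ht : x = x'
  · subst ht
    rw [if_pos rfl, if_pos rfl]
    have : ({g : G | g ∈ D ∧ x * x⁻¹ * g ∈ D} : Finset G) = D := by
      ext g
      simp
    rw [this, hD.card_set]
    push_cast
    ring
  · rw [if_neg ht]
    have ht1 : x' * x⁻¹ ≠ 1 := fun h => ht (mul_inv_eq_one.1 h).symm
    by_cases hN : x' * x⁻¹ ∈ N
    · rw [if_pos (hc.1 hN)]
      have : ({g : G | g ∈ D ∧ x' * x⁻¹ * g ∈ D} : Finset G) = ∅ := by
        rw [Finset.filter_eq_empty_iff]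
        rintro g - ⟨h1, h2⟩
        exact hD.ne_of_mem _ hN ht1 _ h2 _ h1 (by simp)
      rw [this]
      simp
    · rw [if_neg (fun h => hN (hc.2 h))]
      have : #{g : G | g ∈ D ∧ x' * x⁻¹ * g ∈ D} = 1 := by
        rw [Finset.card_eq_one]
        obtain ⟨d, ⟨hd1, hd2, hd3⟩, hu⟩ := hD.existsUnique_of_notMem _ hN
        refine ⟨d.2, ?_⟩
        ext g
        simp only [Finset.mem_filter, Finset.mem_univ, true_and, Finset.mem_singleton]
        constructor
        · rintro ⟨h1, h2⟩
          have := hu (x' * x⁻¹ * g, g) ⟨h2, h1, by simp⟩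
          rw [← this]
        · rintro rfl
          refine ⟨hd2, ?_⟩
          rw [← hd3]
          simpa using hd1
      rw [this]
      simp

lemma block_card {N : Subgroup G} {β : G → B} (hβ : ∀ x y, β x = β y ↔ x * y⁻¹ ∈ N)
    (hsurj : Function.Surjective β) (b : B) : #{i | β i = b} = Nat.card N := by
  classical
  obtain ⟨g, rfl⟩ := hsurj b
  have : Fintype N := Fintype.ofFinite N
  rw [Nat.card_eq_fintype_card, ← Finset.card_univ]
  symm
  apply Finset.card_bij (fun (a : N) _ => (a : G) * g)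
  · intro a _
    rw [Finset.mem_filter]
    refine ⟨Finset.mem_univ _, ?_⟩
    rw [hβ, mul_inv_cancel_right]
    exact a.2
  · intro a _ a' _ h
    exact Subtype.ext (mul_right_cancel h)
  · intro i hi
    rw [Finset.mem_filter, hβ] at hi
    exact ⟨⟨_, hi.2⟩, Finset.mem_univ _, by simp⟩

/-- `Σ x f = 0` for `x` with block sums zero and invariant `f` -/
lemma sum_inv {l : ℕ} {N : Subgroup G} {β : G → B} (hβ : ∀ x y, β x = β y ↔ x * y⁻¹ ∈ N)
    {x : G → ℤ} (hx : ∀ b, sb β x b = 0) {f : G → ZMod l} (hf : ∀ a ∈ N, ∀ g, f (a * g) = f g) :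
    ∑ g, ((x g : ℤ) : ZMod l) * f g = 0 := by
  have hfβ : ∀ g g', β g = β g' → f g = f g' := by
    intro g g' h
    have h1 := hf _ ((hβ g g').1 h) g'
    rw [inv_mul_cancel_right] at h1
    exact h1
  have hF : ∃ F : B → ZMod l, ∀ g, f g = F (β g) := by
    classical
    refine ⟨fun b => if h : ∃ g, β g = b then f h.choose else 0, fun g => ?_⟩
    have h : ∃ g', β g' = β g := ⟨g, rfl⟩
    show f g = (if h : ∃ g', β g' = β g then f h.choose else 0)
    rw [dif_pos h]
    exact hfβ _ _ h.choose_spec.symm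
  obtain ⟨F, hF⟩ := hF
  have h1 : ∀ g, ((x g : ℤ) : ZMod l) * f g =
      ∑ b, F b * (((if β g = b then x g else 0 : ℤ) : ZMod l)) := by
    intro g
    rw [Finset.sum_eq_single (β g), if_pos rfl, hF, mul_comm]
    · intro b _ hb
      rw [if_neg (Ne.symm hb), Int.cast_zero, mul_zero]
    · intro h
      exact absurd (Finset.mem_univ _) h
  rw [Finset.sum_congr rfl fun g _ => h1 g, Finset.sum_comm]
  refine Finset.sum_eq_zero fun b _ => ?_
  rw [← Finset.mul_sum, ← Int.cast_sum]
  have h2 := hx b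
  unfold sb at h2
  rw [h2, Int.cast_zero, mul_zero]

lemma sb_trans {N : Subgroup G} {β : G → B} (hβ : ∀ x y, β x = β y ↔ x * y⁻¹ ∈ N)
    (hsurj : Function.Surjective β) {x : G → ℤ} (hx : ∀ b, sb β x b = 0) (k : G) (b : B) :
    sb β (fun g => x (g * k)) b = 0 := by
  obtain ⟨g0, rfl⟩ := hsurj b
  rw [← hx (β (g0 * k))]
  unfold sb
  apply Fintype.sum_equiv (Equiv.mulRight k)
  intro g
  have h1 : β g = β g0 ↔ β (g * k) = β (g0 * k) := by
    rw [hβ, hβ]
    have : g * k * (g0 * k)⁻¹ = g * g0⁻¹ := by group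
    rw [this]
  show (if β g = β g0 then x (g * k) else 0) = (if β (g * k) = β (g0 * k) then x (g * k) else 0)
  by_cases h2 : β g = β g0
  · rw [if_pos h2, if_pos (h1.1 h2)]
  · rw [if_neg h2, if_neg (fun h => h2 (h1.2 h))]

lemma Am_trans (D : Finset G) (x : G → ℤ) (k : G) :
    (Am D)ᵀ *ᵥ (fun g => x (g * k)) = fun y => ((Am D)ᵀ *ᵥ x) (y * k) := by
  classical
  funext y
  simp only [Matrix.mulVec, dotProduct, Matrix.transpose_apply, Am, Matrix.of_apply]
  apply Fintype.sum_equiv (Equiv.mulRight k)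
  intro g
  have : g * k * (y * k)⁻¹ = g * y⁻¹ := by group
  simp only [Equiv.coe_mulRight, this]

/-- the reductions of the elements of `V1` -/
def W (D : Finset G) (β : G → B) (l j : ℕ) : Submodule (ZMod l) (G → ZMod l) where
  carrier := {y | ∃ x : G → ℤ, (∀ b, sb β x b = 0) ∧
    (∃ z : G → ℤ, (Am D)ᵀ *ᵥ x = (l : ℤ) ^ (j + 1) • z) ∧ ∀ g, y g = ((x g : ℤ) : ZMod l)}
  add_mem' := by
    rintro y y' ⟨x, h1, ⟨z, h2⟩, h3⟩ ⟨x', h1', ⟨z', h2'⟩, h3'⟩
    refine ⟨x + x', fun b => by rw [sb_add, h1, h1', add_zero], ⟨z + z', ?_⟩, fun g => ?_⟩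
    · rw [Matrix.mulVec_add, h2, h2', smul_add]
    · rw [Pi.add_apply, Pi.add_apply, h3, h3', Int.cast_add]
  zero_mem' := ⟨0, sb_zero β, ⟨0, by rw [Matrix.mulVec_zero, smul_zero]⟩, fun g => by simp⟩
  smul_mem' := by
    rintro c y ⟨x, h1, ⟨z, h2⟩, h3⟩
    obtain ⟨m, rfl⟩ := ZMod.intCast_surjective c
    refine ⟨m • x, fun b => by rw [sb_smul, h1, mul_zero], ⟨m • z, ?_⟩, fun g => ?_⟩
    · rw [Matrix.mulVec_smul, h2, smul_comm]
    · rw [Pi.smul_apply, Pi.smul_apply, h3, smul_eq_mul, smul_eq_mul, Int.cast_mul]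

/-- the code -/
def Cd (N : Subgroup G) (D : Finset G) (β : G → B) (l j : ℕ) :
    Submodule (ZMod l) ((G → ZMod l) × (G → ZMod l)) where
  carrier := {z | (∀ a ∈ N, ∀ g, z.2 (a * g) = z.2 g) ∧ z.1 - z.2 ∈ W D β l j}
  add_mem' := by
    rintro z z' ⟨h1, h2⟩ ⟨h1', h2'⟩
    refine ⟨fun a ha g => ?_, ?_⟩
    · rw [Prod.snd_add, Pi.add_apply, Pi.add_apply, h1 a ha, h1' a ha]
    · have := add_mem h2 h2'
      rwa [Prod.fst_add, Prod.snd_add, add_sub_add_comm]
  zero_mem' := ⟨fun _ _ _ => rfl, by rw [Prod.fst_zero, Prod.snd_zero, sub_zero]; exact zero_mem _⟩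
  smul_mem' := by
    rintro c z ⟨h1, h2⟩
    refine ⟨fun a ha g => ?_, ?_⟩
    · rw [Prod.smul_snd, Pi.smul_apply, Pi.smul_apply, h1 a ha]
    · have := Submodule.smul_mem _ c h2
      rwa [Prod.smul_fst, Prod.smul_snd, ← smul_sub]

theorem main (hL : Stmt_LAG) (hT : Stmt_LAT) (hR : Stmt_RKV) {n : ℕ} {N : Subgroup G}
    {D : Finset G} (hD : IsAffineDifferenceSet n N D) {β : G → B}
    (hβ : ∀ x y, β x = β y ↔ x * y⁻¹ ∈ N) (hsurj : Function.Surjective β) {l : ℕ}
    (hl : l.Prime) (hodd : Odd (n.factorization l)) :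
    ∃ C : Submodule (ZMod l) ((G → ZMod l) × (G → ZMod l)),
    (∀ z ∈ C, ∀ a ∈ N, ∀ g, z.2 (a * g) = z.2 g) ∧
    (∀ z ∈ C, ∀ w ∈ C, ∑ g, z.1 g * w.1 g = ∑ g, z.2 g * w.2 g) ∧
    (∀ z ∈ C, ∀ k : G, ((fun g => z.1 (g * k)), (fun g => z.2 (g * k))) ∈ C) ∧
    ∀ z : (G → ZMod l) × (G → ZMod l), (∀ a ∈ N, ∀ g, z.2 (a * g) = z.2 g) →
      (∀ w ∈ C, ∑ g, z.1 g * w.1 g = ∑ g, z.2 g * w.2 g) → z ∈ C := by
  haveI : Fact l.Prime := ⟨hl⟩
  have h2 := hD.two_le
  have hA := fun x x' => Am_gram hD hβ x x'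
  obtain ⟨j, n', u1, x, hn', hln', hx, hxz, hxi, hm0, hu1⟩ := family hL hT hR β (Am D) n 1 l
    (fun _ => 1) hsurj hl hodd rfl (by
      have h1 := hD.card_group
      rw [Nat.card_eq_fintype_card] at h1
      have : 1 ≤ n ^ 2 := Nat.one_le_pow _ _ (by omega)
      omega) (by
      intro b
      rw [block_card hβ hsurj b, hD.card_subgroup]
      omega) hA (by
      intro i
      rw [Am_row, hD.card_set])
  have hiso : ∀ y ∈ W D β l j, ∀ y' ∈ W D β l j, ∑ g, y g * y' g = 0 := by
    rintro y ⟨a, h1, ⟨z, h2⟩, h3⟩ y' ⟨a', h1', ⟨z', h2'⟩, h3'⟩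
    rw [Finset.sum_congr rfl fun g _ => by rw [h3 g, h3' g]]
    exact iso (h := 1) (s := fun _ => 1) hl hn' hln' hA h1 h2 h2'
  have hinv : ∀ y ∈ W D β l j, ∀ f : G → ZMod l, (∀ a ∈ N, ∀ g, f (a * g) = f g) →
      ∑ g, y g * f g = 0 := by
    rintro y ⟨a, h1, ⟨z, h2⟩, h3⟩ f hf
    rw [Finset.sum_congr rfl fun g _ => by rw [h3 g]]
    exact sum_inv hβ h1 hf
  have hxW : ∀ a, (fun i => ((x a i : ℤ) : ZMod l)) ∈ W D β l j :=
    fun a => ⟨x a, hx a, hxz a, fun g => rfl⟩
  refine ⟨Cd N D β l j, fun z hz => hz.1, ?_, ?_, ?_⟩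
  · intro z hz w hw
    have e1 : ∀ g, z.1 g * w.1 g = (z.1 - z.2) g * (w.1 - w.2) g + (z.1 - z.2) g * w.2 g +
        (w.1 - w.2) g * z.2 g + z.2 g * w.2 g := by
      intro g
      simp only [Pi.sub_apply]
      ring
    rw [Finset.sum_congr rfl fun g _ => e1 g, Finset.sum_add_distrib, Finset.sum_add_distrib,
      Finset.sum_add_distrib, hiso _ hz.2 _ hw.2, hinv _ hz.2 _ hw.1, hinv _ hw.2 _ hz.1]
    ring
  · rintro z ⟨hz1, y, h1, ⟨t, h2⟩, h3⟩ k
    refine ⟨fun a ha g => ?_, fun g => y (g * k), sb_trans hβ hsurj h1 k,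
      ⟨fun g => t (g * k), ?_⟩, fun g => ?_⟩
    · change z.2 (a * g * k) = z.2 (g * k)
      rw [mul_assoc, hz1 a ha]
    · rw [Am_trans, h2]
      rfl
    · exact h3 (g * k)
  · intro z hz1 hz2
    refine ⟨hz1, ?_⟩
    have hsp := perp (F := ZMod l) (fun a i => ((x a i : ℤ) : ZMod l))
      (fun b i => ((ind β b i : ℤ) : ZMod l)) (fun b => (#{i | β i = b} : ZMod l)) hm0 hxi
      (fun a a' => hiso _ (hxW a) _ (hxW a')) (by
        intro a b
        refine hinv _ (hxW a) _ ?_
        intro c hc g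
        have h4 : β (c * g) = β g := by
          rw [hβ, mul_inv_cancel_right]
          exact hc
        simp only [ind, h4]) (by
        intro b c
        have h1 := congrArg (Int.cast : ℤ → ZMod l) (ind_ind β b c)
        push_cast at h1
        exact h1) hu1 (z.1 - z.2) (by
        intro a
        have h4 := hz2 ((fun i => ((x a i : ℤ) : ZMod l)), 0) ⟨fun _ _ _ => rfl, by
          rw [sub_zero]
          exact hxW a⟩
        simp only [Pi.zero_apply, mul_zero, Finset.sum_const_zero] at h4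
        have h5 := hinv _ (hxW a) z.2 hz1
        simp only [Pi.sub_apply, mul_sub, Finset.sum_sub_distrib]
        rw [h5, sub_zero, ← h4]
        exact Finset.sum_congr rfl fun g _ => mul_comm _ _) (by
        intro b
        have hbinv : ∀ c ∈ N, ∀ g, ((ind β b (c * g) : ℤ) : ZMod l) = ((ind β b g : ℤ) : ZMod l) := by
          intro c hc g
          have h4 : β (c * g) = β g := by
            rw [hβ, mul_inv_cancel_right]
            exact hc
          simp only [ind, h4]
        have h4 := hz2 ((fun i => ((ind β b i : ℤ) : ZMod l)), (fun i => ((ind β b i : ℤ) : ZMod l)))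
          ⟨hbinv, by
            rw [sub_self]
            exact zero_mem _⟩
        simp only [Pi.sub_apply, mul_sub, Finset.sum_sub_distrib]
        rw [sub_eq_zero]
        rw [Finset.sum_congr rfl fun g _ => mul_comm _ _, h4]
        exact Finset.sum_congr rfl fun g _ => mul_comm _ _)
    have hle : Submodule.span (ZMod l) (Set.range fun a i => ((x a i : ℤ) : ZMod l)) ≤
        W D β l j := by
      rw [Submodule.span_le]
      rintro _ ⟨a, rfl⟩
      exact hxW a
    exact hle hsp

end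

end LGRa

theorem LGR_thm (hL : Stmt_LAG) (hT : Stmt_LAT) (hR : Stmt_RKV) : Stmt_LGR := by
  classical
  intro G _ _ n N D hD l hl hodd
  let _ : Fintype (Quotient (QuotientGroup.rightRel N)) := Fintype.ofFinite _
  refine LGRa.main hL hT hR hD (β := (Quotient.mk (QuotientGroup.rightRel N) :
    G → Quotient (QuotientGroup.rightRel N))) ?_ Quotient.mk_surjective hl hodd
  intro x y
  rw [Quotient.eq, QuotientGroup.rightRel_apply, ← N.inv_mem_iff]
  simp

end Pool.Agent.ADG
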