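import Pool.Agent.ADG.St6

/-!
# ADG, module ONE (helper81): one double coset

The space of the functions in `InU` supported on one double coset `N' g H`: a basis and the Gram determinant.
-/

set_option autoImplicit false
set_option linter.unusedSectionVars false

namespace Pool.Agent.ADG

open Finset Pool.Agent.ADS

namespace ONE

variable {G : Type} [Group G] [Fintype G]

/-- every element of `H = P Y` is `π b` -/
private lemma factor (P H Y : Subgroup G) (p : ℕ) (hp : p.Prime) (hP : Nat.card P = p)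
    (hPH : P ≤ H) (hYH : Y ≤ H) (hc : Nat.card H = p * Nat.card Y) (hY : ¬ p ∣ Nat.card Y)
    {h : G} (hh : h ∈ H) : ∃ π ∈ P, ∃ b ∈ Y, h = π * b := by
  have hbot : P ⊓ Y = ⊥ := (Subgroup.disjoint_of_coprime_natCard (by
    rw [hP]
    exact (Nat.Prime.coprime_iff_not_dvd hp).mpr hY)).eq_bot
  let f : P × Y → H := fun q => ⟨q.1 * q.2, H.mul_mem (hPH q.1.2) (hYH q.2.2)⟩
  have hf : Function.Injective f := by
    rintro ⟨a, b⟩ ⟨c, d⟩ e
    have e1 : (a : G) * b = c * d := congrArg Subtype.val e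
    have e2 : (c : G)⁻¹ * a = d * (b : G)⁻¹ := by
      rw [inv_mul_eq_iff_eq_mul, ← mul_assoc, ← e1]
      group
    have e3 : (c : G)⁻¹ * a = 1 := by
      have h3 : (c : G)⁻¹ * a ∈ P ⊓ Y :=
        ⟨P.mul_mem (P.inv_mem c.2) a.2, e2 ▸ Y.mul_mem d.2 (Y.inv_mem b.2)⟩
      rw [hbot] at h3
      exact Subgroup.mem_bot.mp h3
    have e4 : (c : G) = a := inv_mul_eq_one.mp e3
    have e5 : (d : G) = b := by
      rw [e3] at e2
      exact (mul_inv_eq_one.mp e2.symm)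
    ext
    · exact e4.symm
    · exact e5.symm
  have hb : Function.Bijective f := hf.bijective_of_nat_card_le (by
    rw [Nat.card_prod, hP, hc])
  obtain ⟨⟨a, b⟩, e⟩ := hb.2 ⟨h, hh⟩
  exact ⟨a, a.2, b, b.2, (congrArg Subtype.val e).symm⟩

open Classical in
/-- the stabilizer count: every element of the double coset `N' g H` is `a g h` in `|D|` ways -/
private lemma fiber (N' H : Subgroup G) (g x : G) (hx : ∃ a ∈ N', ∃ k ∈ H, x = a * g * k) :
    (univ.filter (fun q : N' × H => (q.1 : G) * g * q.2 = x)).card = sta N' H g := by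
  obtain ⟨a0, ha0, h0, hh0, rfl⟩ := hx
  rw [sta, ← Fintype.card_subtype, ← Nat.card_eq_fintype_card]
  refine Nat.card_congr ⟨fun q => ⟨q.1.2 * h0⁻¹, H.mul_mem q.1.2.2 (H.inv_mem hh0), ?_⟩,
    fun d => ⟨(⟨a0 * (g * d.1 * g⁻¹)⁻¹, N'.mul_mem ha0 (N'.inv_mem d.2.2)⟩,
      ⟨d.1 * h0, H.mul_mem d.2.1 hh0⟩), ?_⟩, ?_, ?_⟩
  · obtain ⟨⟨⟨a, ha⟩, ⟨h, hh⟩⟩, hq⟩ := q
    have h1 : a * g * h = a0 * g * h0 := hq
    have h2 : g * (h * h0⁻¹) * g⁻¹ = a⁻¹ * a0 := by
      have h3 : h = g⁻¹ * a⁻¹ * (a0 * g * h0) := by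
        rw [← h1]
        group
      rw [h3]
      group
    show g * (h * h0⁻¹) * g⁻¹ ∈ N'
    rw [h2]
    exact N'.mul_mem (N'.inv_mem ha) ha0
  · show a0 * (g * d.1 * g⁻¹)⁻¹ * g * (d.1 * h0) = a0 * g * h0
    group
  · rintro ⟨⟨⟨a, ha⟩, ⟨h, hh⟩⟩, hq⟩
    have h1 : a * g * h = a0 * g * h0 := hq
    have h2 : a = a0 * (g * (h * h0⁻¹) * g⁻¹)⁻¹ := by
      have h3 : a = a0 * g * h0 * h⁻¹ * g⁻¹ := by
        rw [← h1]
        group
      rw [h3]
      group
    apply Subtype.ext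
    refine Prod.ext (Subtype.ext ?_) (Subtype.ext ?_)
    · exact h2.symm
    · show h * h0⁻¹ * h0 = h
      group
  · rintro ⟨d, hd⟩
    apply Subtype.ext
    show d * h0 * h0⁻¹ = d
    group

open Classical in
/-- sums over the group and sums over `N' × H` -/
private lemma sum_cos {F : Type} [Field F] (N' H : Subgroup G) (g : G) (f : G → F)
    (hf : ∀ x, f x ≠ 0 → ∃ a ∈ N', ∃ k ∈ H, x = a * g * k) :
    (sta N' H g : F) * ∑ x, f x = ∑ q : N' × H, f ((q.1 : G) * g * q.2) := by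
  rw [← Finset.sum_fiberwise_of_maps_to (s := univ) (t := univ)
    (g := fun q : N' × H => (q.1 : G) * g * q.2) (fun _ _ => mem_univ _), mul_sum]
  refine sum_congr rfl fun x _ => ?_
  have h1 : ∑ q ∈ univ.filter (fun q : N' × H => (q.1 : G) * g * q.2 = x),
      f ((q.1 : G) * g * q.2) =
      ∑ q ∈ univ.filter (fun q : N' × H => (q.1 : G) * g * q.2 = x), f x :=
    sum_congr rfl fun q hq => by rw [(mem_filter.mp hq).2]
  rw [h1, sum_const, nsmul_eq_mul]
  by_cases h0 : f x = 0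
  · rw [h0, mul_zero, mul_zero]
  · rw [fiber N' H g x (hf x h0)]

/-! ### the action -/

section act

variable {P H Y : Subgroup G} {u : G} {p l : ℕ} [NeZero p] {α : G → ZMod p}

private lemma pow_mod (hu : orderOf u = p) {a b : ℕ} (h : (a : ZMod p) = b) : u ^ a = u ^ b := by
  rw [pow_eq_pow_iff_modEq, hu]
  exact (ZMod.natCast_eq_natCast_iff a b p).mp h

private lemma pow_cast (hu : orderOf u = p) (a : ℕ) : u ^ ((a : ZMod p)).val = u ^ a :=
  pow_mod hu (by rw [ZMod.natCast_zmod_val])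

private lemma cast_inj (hu : orderOf u = p) {a b : ZMod p} (h : u ^ a.val = u ^ b.val) : a = b := by
  rw [pow_eq_pow_iff_modEq, hu] at h
  have h1 := (ZMod.natCast_eq_natCast_iff a.val b.val p).mpr h
  rwa [ZMod.natCast_zmod_val, ZMod.natCast_zmod_val] at h1

private lemma pow_add' (hu : orderOf u = p) (a b : ZMod p) :
    u ^ (a + b).val = u ^ a.val * u ^ b.val := by
  rw [← pow_add]
  exact pow_mod hu (by push_cast; simp only [ZMod.natCast_zmod_val])

private lemma conj_pow' (h : HD P H Y u p l α) {d : G} (hd : d ∈ H) (k : ZMod p) :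
    d * u ^ k.val * d⁻¹ = u ^ (α d * k).val := by
  have h1 : d * u ^ k.val * d⁻¹ = (d * u * d⁻¹) ^ k.val := (conj_pow).symm
  rw [h1, h.act d hd, ← pow_mul]
  exact pow_mod h.ord_u (by push_cast; simp only [ZMod.natCast_zmod_val])

private lemma alpha_mul (h : HD P H Y u p l α) {c d : G} (hc : c ∈ H) (hd : d ∈ H) :
    α (c * d) = α c * α d := by
  apply cast_inj h.ord_u
  rw [← h.act _ (H.mul_mem hc hd)]
  have h1 : c * d * u * (c * d)⁻¹ = c * (d * u * d⁻¹) * c⁻¹ := by group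
  rw [h1, h.act d hd, conj_pow' h hc]

private lemma alpha_one (h : HD P H Y u p l α) : α 1 = 1 := by
  have h2 : Fact (1 < p) := ⟨h.prime.one_lt⟩
  apply cast_inj h.ord_u
  rw [← h.act _ H.one_mem, ZMod.val_one]
  group

private lemma alpha_inv (h : HD P H Y u p l α) {c : G} (hc : c ∈ H) : α c⁻¹ * α c = 1 := by
  rw [← alpha_mul h (H.inv_mem hc) hc, inv_mul_cancel, alpha_one h]

/-- the unit `α d` -/
private def au (h : HD P H Y u p l α) (d : G) (hd : d ∈ H) : (ZMod p)ˣ where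
  val := α d
  inv := α d⁻¹
  val_inv := by rw [mul_comm]; exact alpha_inv h hd
  inv_val := alpha_inv h hd

/-- the image of `D` -/
private def TT (h : HD P H Y u p l α) (N' : Subgroup G) (g : G) : Subgroup (ZMod p)ˣ where
  carrier := {c | ∃ d ∈ H, g * d * g⁻¹ ∈ N' ∧ (c : ZMod p) = α d}
  mul_mem' := by
    rintro a b ⟨d, hd, h1, h2⟩ ⟨d', hd', h1', h2'⟩
    refine ⟨d * d', H.mul_mem hd hd', ?_, ?_⟩
    · have h3 : g * (d * d') * g⁻¹ = (g * d * g⁻¹) * (g * d' * g⁻¹) := by group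
      rw [h3]
      exact N'.mul_mem h1 h1'
    · rw [Units.val_mul, h2, h2', alpha_mul h hd hd']
  one_mem' := ⟨1, H.one_mem, by simp, by rw [Units.val_one, alpha_one h]⟩
  inv_mem' := by
    rintro a ⟨d, hd, h1, h2⟩
    refine ⟨d⁻¹, H.inv_mem hd, ?_, ?_⟩
    · have h3 : g * d⁻¹ * g⁻¹ = (g * d * g⁻¹)⁻¹ := by group
      rw [h3]
      exact N'.inv_mem h1
    · have h4 : a = au h d hd := Units.ext h2
      rw [h4]
      rfl

private lemma mem_TT (h : HD P H Y u p l α) (N' : Subgroup G) (g : G) (c : (ZMod p)ˣ) :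
    c ∈ TT h N' g ↔ ∃ d ∈ H, g * d * g⁻¹ ∈ N' ∧ (c : ZMod p) = α d := Iff.rfl

private lemma TT_card (h : HD P H Y u p l α) (N' : Subgroup G) (g : G) :
    (∃ j, Nat.card (TT h N' g) = 2 ^ j) ∧ 4 * Nat.card (TT h N' g) ∣ orderOf (l : ZMod p) := by
  obtain ⟨κ, hκ, hα⟩ := h.two
  have : Fact p.Prime := ⟨h.prime⟩
  have : IsCyclic (TT h N' g) := Subgroup.isCyclic _
  have h1 : Nat.card (TT h N' g) ∣ 2 ^ κ := by
    rw [← IsCyclic.exponent_eq_card]
    refine Monoid.exponent_dvd_of_forall_pow_eq_one ?_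
    rintro ⟨c, d, hd, _, hc⟩
    apply Subtype.ext
    apply Units.ext
    simp only [Subgroup.coe_pow, Units.val_pow_eq_pow_val, Subgroup.coe_one, Units.val_one]
    rw [hc, hα d hd]
  refine ⟨?_, ?_⟩
  · obtain ⟨j, _, hj⟩ := (Nat.dvd_prime_pow Nat.prime_two).mp h1
    exact ⟨j, hj⟩
  · refine Dvd.dvd.trans ?_ hκ
    rw [pow_add, mul_comm]
    exact Nat.mul_dvd_mul h1 (by norm_num)

private lemma inf_one (h : HD P H Y u p l α) {k : G} (h1 : k ∈ P) (h2 : k ∈ Y) : k = 1 := by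
  have h4 : P ⊓ Y = ⊥ := (Subgroup.disjoint_of_coprime_natCard (by
    rw [h.card_P]
    exact (Nat.Prime.coprime_iff_not_dvd h.prime).mpr h.cop)).eq_bot
  have h3 : k ∈ P ⊓ Y := ⟨h1, h2⟩
  rw [h4] at h3
  exact Subgroup.mem_bot.mp h3

private lemma mem_P' (h : HD P H Y u p l α) (k : ℕ) : u ^ k ∈ P := (h.mem_P _).mpr ⟨k, rfl⟩

private lemma hfac (h : HD P H Y u p l α) {x : G} (hx : x ∈ H) :
    ∃ k : ZMod p, ∃ y ∈ Y, x = u ^ k.val * y := by
  obtain ⟨π, hπ, y, hy, rfl⟩ := factor P H Y p h.prime h.card_P h.P_le h.Y_le h.card_H h.cop hx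
  obtain ⟨k, rfl⟩ := (h.mem_P _).mp hπ
  exact ⟨(k : ZMod p), y, hy, by rw [pow_cast h.ord_u]⟩

/-- `x` is in the double coset -/
private def IC (N' Y : Subgroup G) (g u : G) (p : ℕ) (x : G) : Prop :=
  ∃ k : ZMod p, ∃ a ∈ N', ∃ y ∈ Y, x = a * g * (u ^ k.val * y)

open Classical in
/-- the extension of a function on `ZMod p` to the double coset -/
private noncomputable def liftf (N' Y : Subgroup G) (g u : G) (p : ℕ) (F : Type) [Field F]
    (φ : ZMod p → F) (x : G) : F :=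
  if hx : IC N' Y g u p x then φ hx.choose else 0

private lemma liftf_pos (N' Y : Subgroup G) (g u : G) (p : ℕ) (F : Type) [Field F]
    (φ : ZMod p → F) (x : G) (hx : IC N' Y g u p x) :
    liftf N' Y g u p F φ x = φ hx.choose := dif_pos hx

private lemma liftf_neg (N' Y : Subgroup G) (g u : G) (p : ℕ) (F : Type) [Field F]
    (φ : ZMod p → F) (x : G) (hx : ¬ IC N' Y g u p x) : liftf N' Y g u p F φ x = 0 := dif_neg hx

/-- the linear map -/
private noncomputable def lift (N' Y : Subgroup G) (g u : G) (p : ℕ) (F : Type) [Field F] :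
    (ZMod p → F) →ₗ[F] (G → F) where
  toFun φ := liftf N' Y g u p F φ
  map_add' φ ψ := by
    funext x
    show _ = liftf N' Y g u p F φ x + liftf N' Y g u p F ψ x
    by_cases hx : IC N' Y g u p x
    · rw [liftf_pos _ _ _ _ _ _ _ _ hx, liftf_pos _ _ _ _ _ _ _ _ hx,
        liftf_pos _ _ _ _ _ _ _ _ hx]
      rfl
    · rw [liftf_neg _ _ _ _ _ _ _ _ hx, liftf_neg _ _ _ _ _ _ _ _ hx,
        liftf_neg _ _ _ _ _ _ _ _ hx, add_zero]
  map_smul' c φ := by
    funext x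
    show _ = c * liftf N' Y g u p F φ x
    by_cases hx : IC N' Y g u p x
    · rw [liftf_pos _ _ _ _ _ _ _ _ hx, liftf_pos _ _ _ _ _ _ _ _ hx]
      rfl
    · rw [liftf_neg _ _ _ _ _ _ _ _ hx, liftf_neg _ _ _ _ _ _ _ _ hx, mul_zero]

private lemma lift_eq (N' Y : Subgroup G) (g u : G) (p : ℕ) (F : Type) [Field F] (φ : ZMod p → F)
    (x : G) : lift N' Y g u p F φ x = liftf N' Y g u p F φ x := rfl

private lemma lift_ne (N' Y : Subgroup G) (g u : G) (p : ℕ) (F : Type) [Field F] (φ : ZMod p → F)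
    (x : G) (h : lift N' Y g u p F φ x ≠ 0) : IC N' Y g u p x := by
  by_contra hx
  exact h (liftf_neg _ _ _ _ _ _ _ _ hx)

private lemma lift_mul (N' Y : Subgroup G) (g u : G) (p : ℕ) (F : Type) [Field F]
    (φ ψ : ZMod p → F) (x : G) :
    lift N' Y g u p F φ x * lift N' Y g u p F ψ x = lift N' Y g u p F (fun k => φ k * ψ k) x := by
  rw [lift_eq, lift_eq, lift_eq]
  by_cases hx : IC N' Y g u p x
  · rw [liftf_pos _ _ _ _ _ _ _ _ hx, liftf_pos _ _ _ _ _ _ _ _ hx,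
        liftf_pos _ _ _ _ _ _ _ _ hx]
  · rw [liftf_neg _ _ _ _ _ _ _ _ hx, liftf_neg _ _ _ _ _ _ _ _ hx,
        liftf_neg _ _ _ _ _ _ _ _ hx, mul_zero]

private lemma move (h : HD P H Y u p l α) {d : G} (hd : d ∈ H) (k : ZMod p) :
    d * u ^ k.val = u ^ (α d * k).val * d := by
  rw [← conj_pow' h hd]
  group

private lemma lift_apply (h : HD P H Y u p l α) (N' : Subgroup G) (g : G)
    (hD : ∀ d ∈ H, g * d * g⁻¹ ∈ N' → d ∈ Y) (F : Type) [Field F] (φ : ZMod p → F)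
    (hφ : ∀ c ∈ TT h N' g, ∀ v, φ ((c : ZMod p) * v) = φ v) (k : ZMod p) {a y : G} (ha : a ∈ N')
    (hy : y ∈ Y) : lift N' Y g u p F φ (a * g * (u ^ k.val * y)) = φ k := by
  have hx : IC N' Y g u p (a * g * (u ^ k.val * y)) := ⟨k, a, ha, y, hy, rfl⟩
  have h0 : lift N' Y g u p F φ (a * g * (u ^ k.val * y)) = φ hx.choose :=
    liftf_pos _ _ _ _ _ _ _ _ hx
  rw [h0]
  obtain ⟨a', ha', y', hy', he⟩ := hx.choose_spec
  set k' := hx.choose with hk'
  have hH : u ^ k'.val * y' ∈ H := H.mul_mem (h.P_le (mem_P' h _)) (h.Y_le hy')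
  have hH2 : u ^ k.val * y ∈ H := H.mul_mem (h.P_le (mem_P' h _)) (h.Y_le hy)
  have hdH : u ^ k'.val * y' * (u ^ k.val * y)⁻¹ ∈ H := H.mul_mem hH (H.inv_mem hH2)
  have hdN : g * (u ^ k'.val * y' * (u ^ k.val * y)⁻¹) * g⁻¹ ∈ N' := by
    have h2 : u ^ k'.val * y' = g⁻¹ * a'⁻¹ * (a * g * (u ^ k.val * y)) := by
      rw [he]
      group
    have h3 : g * (u ^ k'.val * y' * (u ^ k.val * y)⁻¹) * g⁻¹ = a'⁻¹ * a := by
      rw [h2]
      group
    rw [h3]
    exact N'.mul_mem (N'.inv_mem ha') ha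
  obtain ⟨d, hd⟩ : ∃ d, d = u ^ k'.val * y' * (u ^ k.val * y)⁻¹ := ⟨_, rfl⟩
  rw [← hd] at hdH hdN
  have hdY := hD d hdH hdN
  have h4 : u ^ k'.val * y' = u ^ (α d * k).val * d * y := by
    rw [← move h hdH, hd]
    group
  have h5 : (u ^ (α d * k).val)⁻¹ * u ^ k'.val = d * y * y'⁻¹ := by
    have h6 : u ^ k'.val = u ^ (α d * k).val * d * y * y'⁻¹ := by
      rw [← h4]
      group
    rw [h6]
    group
  have h7 : (u ^ (α d * k).val)⁻¹ * u ^ k'.val = 1 :=
    inf_one h (P.mul_mem (P.inv_mem (mem_P' h _)) (mem_P' h _))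
      (h5 ▸ Y.mul_mem (Y.mul_mem hdY hy) (Y.inv_mem hy'))
  have h8 : k' = α d * k := (cast_inj h.ord_u (inv_mul_eq_one.mp h7)).symm
  rw [h8]
  exact hφ (au h d hdH) ((mem_TT h N' g _).mpr ⟨d, hdH, hdN, rfl⟩) k

/-- the replacement of `g` -/
private lemma exists_g (hRTL : Stmt_RTL) (h : HD P H Y u p l α) (N' : Subgroup G) (g : G)
    (hg : ¬ (∀ v ∈ P, g * v * g⁻¹ ∈ N')) :
    ∃ v ∈ P, ∀ d ∈ H, (g * v) * d * (g * v)⁻¹ ∈ N' → d ∈ Y := by
  classical
  have hn : ∀ k ∈ H, ∀ v ∈ P, k * v * k⁻¹ ∈ P := by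
    intro k hk v hv
    obtain ⟨n, rfl⟩ := (h.mem_P _).mp hv
    rw [← pow_cast h.ord_u n, conj_pow' h hk]
    exact mem_P' h _
  have h1 := (hRTL G N' P H Y p h.prime h.card_P h.P_le h.Y_le hn h.card_H h.cop).2 g hg
  have h2 := h1.2 (fun s => if s = sta N' H g then 1 else 0)
  have h3 : ∃ v ∈ P, sta N' Y (g * v) = sta N' H g := by
    by_contra hcon
    push Not at hcon
    rw [sum_eq_zero (fun v hv => if_neg (hcon v (mem_filter.mp hv).2))] at h2
    rw [if_pos rfl] at h2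
    have h4 : (0 : ℚ) ≤ ((p : ℚ) - 1) * (if cen N' P H g = sta N' H g then 1 else 0) := by
      have h5 : (1 : ℚ) ≤ p := by exact_mod_cast h.prime.one_lt.le
      refine mul_nonneg (by linarith) ?_
      split_ifs <;> norm_num
    linarith
  obtain ⟨v, hv, hs⟩ := h3
  refine ⟨v, hv, ?_⟩
  have h6 : sta N' H g = sta N' H (g * v) := by
    unfold sta
    refine Nat.card_congr ⟨fun k => ⟨v⁻¹ * k.1 * v, ?_, ?_⟩, fun k => ⟨v * k.1 * v⁻¹, ?_, ?_⟩,
      ?_, ?_⟩
    · exact H.mul_mem (H.mul_mem (H.inv_mem (h.P_le hv)) k.2.1) (h.P_le hv)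
    · have h7 : g * v * (v⁻¹ * k.1 * v) * (g * v)⁻¹ = g * k.1 * g⁻¹ := by group
      rw [h7]
      exact k.2.2
    · exact H.mul_mem (H.mul_mem (h.P_le hv) k.2.1) (H.inv_mem (h.P_le hv))
    · have h7 : g * (v * k.1 * v⁻¹) * g⁻¹ = g * v * k.1 * (g * v)⁻¹ := by group
      rw [h7]
      exact k.2.2
    · intro k
      apply Subtype.ext
      show v * (v⁻¹ * k.1 * v) * v⁻¹ = k.1
      group
    · intro k
      apply Subtype.ext
      show v⁻¹ * (v * k.1 * v⁻¹) * v = k.1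
      group
  rw [h6] at hs
  intro d hd hdN
  by_contra hdY
  have h8 : sta N' Y (g * v) < sta N' H (g * v) := by
    unfold sta
    rw [Nat.card_eq_fintype_card, Nat.card_eq_fintype_card]
    refine Fintype.card_lt_of_injective_of_notMem
      (fun k : {k : G // k ∈ Y ∧ g * v * k * (g * v)⁻¹ ∈ N'} =>
        (⟨k.1, h.Y_le k.2.1, k.2.2⟩ : {k : G // k ∈ H ∧ g * v * k * (g * v)⁻¹ ∈ N'}))
      (fun a b hab => Subtype.ext (Subtype.mk.inj hab)) (b := ⟨d, hd, hdN⟩) ?_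
    rintro ⟨k, hk⟩
    apply hdY
    have h9 : k.1 = d := congrArg Subtype.val hk
    rw [← h9]
    exact k.2.1
  omega

private lemma IC_iff (h : HD P H Y u p l α) (N' : Subgroup G) (g x : G) :
    IC N' Y g u p x ↔ ∃ a ∈ N', ∃ k ∈ H, x = a * g * k := by
  constructor
  · rintro ⟨k, a, ha, y, hy, rfl⟩
    exact ⟨a, ha, _, H.mul_mem (h.P_le (mem_P' h _)) (h.Y_le hy), rfl⟩
  · rintro ⟨a, ha, k, hk, rfl⟩
    obtain ⟨k', y, hy, rfl⟩ := hfac h hk
    exact ⟨k', a, ha, y, hy, rfl⟩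

private lemma IC_left (h : HD P H Y u p l α) (N' : Subgroup G) (g x : G) {a : G} (ha : a ∈ N') :
    IC N' Y g u p (a * x) ↔ IC N' Y g u p x := by
  rw [IC_iff h, IC_iff h]
  constructor
  · rintro ⟨a', ha', k, hk, he⟩
    exact ⟨a⁻¹ * a', N'.mul_mem (N'.inv_mem ha) ha', k, hk, by
      have h1 : x = a⁻¹ * (a * x) := by group
      rw [h1, he]
      group⟩
  · rintro ⟨a', ha', k, hk, rfl⟩
    exact ⟨a * a', N'.mul_mem ha ha', k, hk, by group⟩

private lemma IC_right (h : HD P H Y u p l α) (N' : Subgroup G) (g x : G) {k : G} (hk : k ∈ H) :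
    IC N' Y g u p (x * k) ↔ IC N' Y g u p x := by
  rw [IC_iff h, IC_iff h]
  constructor
  · rintro ⟨a', ha', k', hk', he⟩
    exact ⟨a', ha', k' * k⁻¹, H.mul_mem hk' (H.inv_mem hk), by
      have h1 : x = x * k * k⁻¹ := by group
      rw [h1, he]
      group⟩
  · rintro ⟨a', ha', k', hk', rfl⟩
    exact ⟨a', ha', k' * k, H.mul_mem hk' hk, by group⟩

private lemma alpha_ord (h : HD P H Y u p l α) {d : G} (hd : d ∈ H) :
    α d ^ orderOf (l : ZMod p) = 1 := by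
  obtain ⟨κ, hκ, hα⟩ := h.two
  obtain ⟨c, hc⟩ := (dvd_trans (pow_dvd_pow 2 (by omega : κ ≤ κ + 2)) hκ : 2 ^ κ ∣ _)
  rw [hc, pow_mul, hα d hd, one_pow]

private lemma sum_alpha (h : HD P H Y u p l α) (e : ZMod p → ZMod l) (hPce : Pce p l e) {d : G}
    (hd : d ∈ H) (f : ZMod p → ZMod l) :
    ∑ v, e v * f (α d * v) = ∑ v, e v * f v := by
  rw [← Equiv.sum_comp (Units.mulLeft (au h d hd)) (fun v => e v * f v)]
  refine sum_congr rfl fun v _ => ?_
  have h1 : (Units.mulLeft (au h d hd)) v = α d * v := rfl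
  rw [h1, hPce.inv _ _ (alpha_ord h hd)]

private lemma lift_InU (h : HD P H Y u p l α) (N' : Subgroup G) (g : G) [Fact l.Prime]
    (hD : ∀ d ∈ H, g * d * g⁻¹ ∈ N' → d ∈ Y) (e : ZMod p → ZMod l) (hPce : Pce p l e)
    (φ : ZMod p → ZMod l) (hφ : ∀ c ∈ TT h N' g, ∀ v, φ ((c : ZMod p) * v) = φ v)
    (hc : ∀ k, ∑ v, e v * φ (k + v) = φ k) :
    InU N' Y u e (lift N' Y g u p (ZMod l) φ) := by
  refine ⟨?_, ?_, ?_⟩
  · intro a ha x
    by_cases hx : IC N' Y g u p x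
    · obtain ⟨k, a', ha', y, hy, rfl⟩ := hx
      have h1 : a * (a' * g * (u ^ k.val * y)) = a * a' * g * (u ^ k.val * y) := by group
      rw [h1, lift_apply h N' g hD _ φ hφ k (N'.mul_mem ha ha') hy,
        lift_apply h N' g hD _ φ hφ k ha' hy]
    · rw [lift_eq, lift_eq, liftf_neg _ _ _ _ _ _ _ _ hx,
        liftf_neg _ _ _ _ _ _ _ _ (fun h' => hx ((IC_left h N' g x ha).mp h'))]
  · intro y0 hy0 x
    by_cases hx : IC N' Y g u p x
    · obtain ⟨k, a', ha', y, hy, rfl⟩ := hx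
      have h1 : a' * g * (u ^ k.val * y) * y0 = a' * g * (u ^ k.val * (y * y0)) := by group
      rw [h1, lift_apply h N' g hD _ φ hφ k ha' (Y.mul_mem hy hy0),
        lift_apply h N' g hD _ φ hφ k ha' hy]
    · rw [lift_eq, lift_eq, liftf_neg _ _ _ _ _ _ _ _ hx,
        liftf_neg _ _ _ _ _ _ _ _ (fun h' => hx ((IC_right h N' g x (h.Y_le hy0)).mp h'))]
  · intro x
    by_cases hx : IC N' Y g u p x
    · obtain ⟨k, a', ha', y, hy, rfl⟩ := hx
      rw [lift_apply h N' g hD _ φ hφ k ha' hy]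
      have h1 : ∀ v : ZMod p, lift N' Y g u p (ZMod l) φ
          (a' * g * (u ^ k.val * y) * u ^ v.val) = φ (k + α y * v) := by
        intro v
        have h2 : a' * g * (u ^ k.val * y) * u ^ v.val =
            a' * g * (u ^ (k + α y * v).val * y) := by
          have h3 := move h (h.Y_le hy) v
          calc a' * g * (u ^ k.val * y) * u ^ v.val
              = a' * g * u ^ k.val * (y * u ^ v.val) := by group
            _ = a' * g * (u ^ k.val * u ^ (α y * v).val * y) := by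
                rw [h3]
                group
            _ = _ := by rw [← pow_add' h.ord_u]
        rw [h2, lift_apply h N' g hD _ φ hφ _ ha' hy]
      rw [sum_congr rfl fun v _ => by rw [h1 v], sum_alpha h e hPce (h.Y_le hy) (fun w => φ (k + w))]
      exact hc k
    · rw [lift_eq, liftf_neg _ _ _ _ _ _ _ _ hx]
      refine sum_eq_zero fun v _ => ?_
      rw [lift_eq, liftf_neg _ _ _ _ _ _ _ _
        (fun h' => hx ((IC_right h N' g x (h.P_le (mem_P' h v.val))).mp h')), mul_zero]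

private lemma InU_lift (h : HD P H Y u p l α) (N' : Subgroup G) (g : G) [Fact l.Prime]
    (hD : ∀ d ∈ H, g * d * g⁻¹ ∈ N' → d ∈ Y) (e : ZMod p → ZMod l)
    (x : G → ZMod l) (hx : InU N' Y u e x) (hs : ∀ g', x g' ≠ 0 → IC N' Y g u p g') :
    ∃ φ : ZMod p → ZMod l, (∀ c ∈ TT h N' g, ∀ v, φ ((c : ZMod p) * v) = φ v) ∧
      (∀ k, ∑ v, e v * φ (k + v) = φ k) ∧ lift N' Y g u p (ZMod l) φ = x := by
  have hT : ∀ c ∈ TT h N' g, ∀ v : ZMod p, x (g * u ^ ((c : ZMod p) * v).val) =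
      x (g * u ^ v.val) := by
    rintro c ⟨d, hd, hdN, hcd⟩ v
    have hdY := hD d hd hdN
    rw [hcd]
    have h1 : g * u ^ (α d * v).val = (g * d * g⁻¹) * (g * u ^ v.val) * d⁻¹ := by
      rw [← conj_pow' h hd]
      group
    rw [h1, hx.2.1 _ (Y.inv_mem hdY), hx.1 _ hdN]
  refine ⟨fun k => x (g * u ^ k.val), hT, ?_, ?_⟩
  · intro k
    show ∑ v, e v * x (g * u ^ (k + v).val) = x (g * u ^ k.val)
    rw [← hx.2.2 (g * u ^ k.val)]
    refine sum_congr rfl fun v _ => ?_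
    rw [pow_add' h.ord_u, mul_assoc]
  · funext g'
    by_cases hg' : IC N' Y g u p g'
    · obtain ⟨k, a', ha', y, hy, rfl⟩ := hg'
      rw [lift_apply h N' g hD _ _ hT k ha' hy]
      show x (g * u ^ k.val) = _
      have h1 : a' * g * (u ^ k.val * y) = a' * (g * u ^ k.val) * y := by group
      rw [h1, hx.2.1 _ hy, hx.1 _ ha']
    · rw [lift_eq, liftf_neg _ _ _ _ _ _ _ _ hg']
      by_contra hne
      exact hg' (hs g' (Ne.symm hne))

open Classical in
private lemma lift_sum (h : HD P H Y u p l α) (N' : Subgroup G) (g : G) [Fact l.Prime]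
    (hD : ∀ d ∈ H, g * d * g⁻¹ ∈ N' → d ∈ Y) (φ : ZMod p → ZMod l)
    (hφ : ∀ c ∈ TT h N' g, ∀ v, φ ((c : ZMod p) * v) = φ v) :
    (sta N' H g : ZMod l) * ∑ x, lift N' Y g u p (ZMod l) φ x =
      ((Nat.card N' : ZMod l) * (Nat.card Y : ZMod l)) * ∑ k, φ k := by
  rw [sum_cos N' H g _ (fun x hx => (IC_iff h N' g x).mp (lift_ne _ _ _ _ _ _ _ _ hx))]
  have h1 : Function.Bijective (fun q : N' × ZMod p × Y =>
      ((q.1, ⟨u ^ q.2.1.val * q.2.2, H.mul_mem (h.P_le (mem_P' h _)) (h.Y_le q.2.2.2)⟩) :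
        N' × H)) := by
    constructor
    · rintro ⟨a, k, y⟩ ⟨a', k', y'⟩ hq
      have e1 : a = a' := congrArg Prod.fst hq
      have e2 : u ^ k.val * (y : G) = u ^ k'.val * (y' : G) :=
        congrArg Subtype.val (congrArg Prod.snd hq)
      have e3 : (u ^ k.val)⁻¹ * u ^ k'.val = (y : G) * (y' : G)⁻¹ := by
        have h6 : u ^ k'.val = u ^ k.val * (y : G) * (y' : G)⁻¹ := by
          rw [e2]
          group
        rw [h6]
        group
      have e4 : (u ^ k.val)⁻¹ * u ^ k'.val = 1 :=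
        inf_one h (P.mul_mem (P.inv_mem (mem_P' h _)) (mem_P' h _))
          (e3 ▸ Y.mul_mem y.2 (Y.inv_mem y'.2))
      have e5 : k = k' := cast_inj h.ord_u (inv_mul_eq_one.mp e4)
      have e6 : (y : G) = y' := by
        rw [e4] at e3
        exact mul_inv_eq_one.mp e3.symm
      subst e1 e5
      have e7 : y = y' := Subtype.ext e6
      rw [e7]
    · rintro ⟨a, ⟨k, hk⟩⟩
      obtain ⟨k', y, hy, rfl⟩ := hfac h hk
      exact ⟨(a, k', ⟨y, hy⟩), rfl⟩
  rw [← Equiv.sum_comp (Equiv.ofBijective _ h1)]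
  have h2 : ∀ q : N' × ZMod p × Y, lift N' Y g u p (ZMod l) φ
      ((((Equiv.ofBijective _ h1) q).1 : G) * g * (((Equiv.ofBijective _ h1) q).2 : G)) =
      φ q.2.1 := by
    rintro ⟨a, k, y⟩
    exact lift_apply h N' g hD _ φ hφ k a.2 y.2
  rw [sum_congr rfl fun q _ => h2 q, Fintype.sum_prod_type]
  simp only [Fintype.sum_prod_type, sum_const, card_univ, nsmul_eq_mul, ← mul_sum]
  rw [Nat.card_eq_fintype_card, Nat.card_eq_fintype_card, mul_assoc]

end act

end ONE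

open ONE in
theorem ONE_thm (hRTL : Stmt_RTL) : Stmt_ONE := by
  classical
  intro G _ _ p l _ N' P H Y u α e hl hl2 h hPce hlG g0 hg0
  have : Fact l.Prime := ⟨hl⟩
  obtain ⟨v, hv, hD⟩ := exists_g hRTL h N' g0 hg0
  set g := g0 * v with hg
  have hcos : ∀ x : G, IC N' Y g u p x ↔ ∃ a ∈ N', ∃ k ∈ H, x = a * g0 * k := by
    intro x
    rw [IC_iff h]
    constructor
    · rintro ⟨a, ha, k, hk, rfl⟩
      exact ⟨a, ha, v * k, H.mul_mem (h.P_le hv) hk, by rw [hg]; group⟩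
    · rintro ⟨a, ha, k, hk, rfl⟩
      exact ⟨a, ha, v⁻¹ * k, H.mul_mem (H.inv_mem (h.P_le hv)) hk, by rw [hg]; group⟩
  obtain ⟨hT1, hT2⟩ := TT_card h N' g
  obtain ⟨m, β, hm, hβ, hspan, hdet⟩ := hPce.piece (TT h N' g) hT1 hT2
  have hβ1 : ∀ i, (∀ c ∈ TT h N' g, ∀ v, β i ((c : ZMod p) * v) = β i v) ∧
      ∀ k, ∑ v, e v * β i (k + v) = β i k := fun i =>
    (hspan (β i)).mp (Submodule.subset_span ⟨i, rfl⟩)
  refine ⟨m, fun i => lift N' Y g u p (ZMod l) (β i), hm, ?_, ?_, ?_⟩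
  · refine LinearIndependent.map hβ (f := lift N' Y g u p (ZMod l)) ?_
    rw [Submodule.disjoint_def]
    intro φ hφ hk
    have hφ1 := (hspan φ).mp hφ
    rw [LinearMap.mem_ker] at hk
    funext k
    rw [← lift_apply h N' g hD (ZMod l) φ hφ1.1 k N'.one_mem Y.one_mem, hk]
    rfl
  · intro x
    have hr : Set.range (fun i => lift N' Y g u p (ZMod l) (β i)) =
        (lift N' Y g u p (ZMod l)) '' Set.range β := by
      rw [← Set.range_comp]
      rfl
    rw [hr, ← Submodule.map_span, Submodule.mem_map]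
    constructor
    · rintro ⟨φ, hφ, rfl⟩
      have hφ1 := (hspan φ).mp hφ
      exact ⟨lift_InU h N' g hD e hPce φ hφ1.1 hφ1.2, fun g' hg' =>
        (hcos g').mp (lift_ne _ _ _ _ _ _ _ _ hg')⟩
    · rintro ⟨hx, hs⟩
      obtain ⟨φ, h1, h2, h3⟩ := InU_lift h N' g hD e x hx (fun g' hg' => (hcos g').mpr (hs g' hg'))
      exact ⟨φ, (hspan φ).mpr ⟨h1, h2⟩, h3⟩
  · intro hsq
    apply hdet
    have hne : ((Nat.card N' : ZMod l) * (Nat.card Y : ZMod l)) ≠ 0 := by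
      refine mul_ne_zero ?_ ?_ <;>
      · rw [Ne, ZMod.natCast_eq_zero_iff]
        exact fun h' => hlG (h'.trans (Subgroup.card_subgroup_dvd_card _))
    have hG : (sta N' H g : ZMod l) • (Matrix.of fun i j =>
        ∑ x, lift N' Y g u p (ZMod l) (β i) x * lift N' Y g u p (ZMod l) (β j) x) =
        ((Nat.card N' : ZMod l) * (Nat.card Y : ZMod l)) •
          (Matrix.of fun i j => ∑ u, β i u * β j u) := by
      ext i j
      simp only [Matrix.smul_apply, Matrix.of_apply, smul_eq_mul]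
      rw [sum_congr rfl fun x _ => lift_mul _ _ _ _ _ _ _ _ _]
      refine lift_sum h N' g hD _ ?_
      intro c hc w
      show β i _ * β j _ = _
      rw [(hβ1 i).1 c hc, (hβ1 j).1 c hc]
    have hdd := congrArg Matrix.det hG
    rw [Matrix.det_smul, Matrix.det_smul, Fintype.card_fin] at hdd
    obtain ⟨r, hr⟩ := hsq
    obtain ⟨q, rfl⟩ := hm
    rw [hr] at hdd
    obtain ⟨A, hA⟩ : ∃ A, A = ((Nat.card N' : ZMod l) * (Nat.card Y : ZMod l)) ^ (2 * q) :=
      ⟨_, rfl⟩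
    have hne2 : A ≠ 0 := hA ▸ pow_ne_zero (2 * q) hne
    refine ⟨(sta N' H g : ZMod l) ^ (2 * q) * r * A⁻¹, ?_⟩
    have h4 : ((Nat.card N' : ZMod l) * (Nat.card Y : ZMod l)) ^ (4 * q) = A * A := by
      rw [hA]
      ring
    have h5 : (sta N' H g : ZMod l) ^ (4 * q) =
        (sta N' H g : ZMod l) ^ (2 * q) * (sta N' H g : ZMod l) ^ (2 * q) := by
      ring
    rw [h4, h5] at hdd
    have h6 : ∀ Z : ZMod l, A * A * Z = A * A * ((sta N' H g : ZMod l) ^ (2 * q) * r * A⁻¹ *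
        ((sta N' H g : ZMod l) ^ (2 * q) * r * A⁻¹)) → Z = (sta N' H g : ZMod l) ^ (2 * q) * r *
        A⁻¹ * ((sta N' H g : ZMod l) ^ (2 * q) * r * A⁻¹) := fun Z hZ =>
      mul_left_cancel₀ (mul_ne_zero hne2 hne2) hZ
    apply h6
    rw [← hdd]
    field_simp

end Pool.Agent.ADG
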