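import Pool.Agent.ADG.St6

/-!
# ADG, module OPR: the projection `pj` (right multiplication by the idempotent) (helper27)
-/

set_option autoImplicit false
set_option linter.unusedSectionVars false

namespace Pool.Agent.ADG

open Finset Pool.Agent.ADS

namespace OPRx

variable {G : Type} [Group G] {p l : ℕ} [NeZero p] {P H Y : Subgroup G} {u : G} {α : G → ZMod p}
  {e : ZMod p → ZMod l}

/-- powers of `u` with exponents in `ZMod p` -/
theorem pow_val_eq (hu : orderOf u = p) {v : ZMod p} {k : ℕ} (h : v = (k : ZMod p)) :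
    u ^ v.val = u ^ k := by
  rw [h, ZMod.val_natCast, ← hu, pow_mod_orderOf]

theorem pow_add (hu : orderOf u = p) (v w : ZMod p) : u ^ (v + w).val = u ^ v.val * u ^ w.val := by
  rw [← _root_.pow_add]
  apply pow_val_eq hu
  rw [Nat.cast_add, ZMod.natCast_zmod_val, ZMod.natCast_zmod_val]

theorem pow_zero' (hu : orderOf u = p) : u ^ (0 : ZMod p).val = 1 := by
  have := pow_val_eq hu (v := 0) (k := 0) (by simp)
  rw [this, pow_zero]

theorem pow_neg (hu : orderOf u = p) (v : ZMod p) : u ^ (-v).val = (u ^ v.val)⁻¹ := by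
  rw [eq_inv_iff_mul_eq_one, ← pow_add hu, neg_add_cancel, pow_zero' hu]

theorem conj (h : HD P H Y u p l α) {y : G} (hy : y ∈ H) (v : ZMod p) :
    y * u ^ v.val = u ^ (α y * v).val * y := by
  have h1 : u ^ (α y * v).val = u ^ ((α y).val * v.val) := by
    apply pow_val_eq h.ord_u
    rw [Nat.cast_mul, ZMod.natCast_zmod_val, ZMod.natCast_zmod_val]
  rw [h1, pow_mul, ← h.act y hy]
  have h2 : (y * u * y⁻¹) ^ v.val = y * u ^ v.val * y⁻¹ := by
    rw [conj_pow]
  rw [h2, inv_mul_cancel_right]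

theorem al_pow (h : HD P H Y u p l α) {y : G} (hy : y ∈ H) :
    α y ^ orderOf (l : ZMod p) = 1 := by
  obtain ⟨κ, hκ, hα⟩ := h.two
  obtain ⟨c, hc⟩ := (pow_dvd_pow 2 (show κ ≤ κ + 2 by omega)).trans hκ
  rw [hc, pow_mul, hα y hy, one_pow]

theorem al_unit (h : HD P H Y u p l α) {y : G} (hy : y ∈ H) : IsUnit (α y) := by
  obtain ⟨κ, hκ, hα⟩ := h.two
  exact IsUnit.of_pow_eq_one (hα y hy) (by positivity)

theorem e_al (h : HD P H Y u p l α) (he : Pce p l e) {y : G} (hy : y ∈ H) (v : ZMod p) :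
    e (α y * v) = e v := he.inv _ _ (al_pow h hy)

theorem e_neg (h : HD P H Y u p l α) (he : Pce p l e) (v : ZMod p) : e (-v) = e v := by
  obtain ⟨κ, hκ, hα⟩ := h.two
  have h2 : 2 ∣ orderOf (l : ZMod p) :=
    (dvd_pow_self 2 (show κ + 2 ≠ 0 by omega)).trans hκ
  have h3 := he.inv (-1) v (Even.neg_one_pow (even_iff_two_dvd.2 h2))
  rw [neg_one_mul] at h3
  exact h3

/-- the multiplication by `α y` is a bijection of `ZMod p` -/
theorem sum_al (h : HD P H Y u p l α) {y : G} (hy : y ∈ H) (f : ZMod p → ZMod l) :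
    ∑ v, f (α y * v) = ∑ v, f v := by
  obtain ⟨c, hc⟩ := al_unit h hy
  refine Fintype.sum_bijective (fun v => α y * v) ?_ _ _ fun v => rfl
  rw [← hc]
  exact (Units.mulLeft c).bijective

theorem sum_neg (f : ZMod p → ZMod l) : ∑ v, f (-v) = ∑ v, f v :=
  Fintype.sum_bijective (fun v => -v) neg_bijective _ _ fun _ => rfl

/-- translations -/
theorem sum_add (w : ZMod p) (f : ZMod p → ZMod l) : ∑ v, f (w + v) = ∑ v, f v :=
  Fintype.sum_bijective (fun v => w + v) (AddGroup.addLeft_bijective w) _ _ fun _ => rfl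

theorem sum_right [Fintype G] (w : G) (f : G → ZMod l) : ∑ g, f (g * w) = ∑ g, f g :=
  Fintype.sum_bijective (fun g => g * w) (Group.mulRight_bijective w) _ _ fun _ => rfl

open Classical in
theorem sum_mul_Y [Fintype G] {y0 : G} (hy : y0 ∈ Y) (f : G → ZMod l) :
    ∑ y ∈ univ.filter (fun y : G => y ∈ Y), f (y0 * y) =
      ∑ y ∈ univ.filter (fun y : G => y ∈ Y), f y := by
  refine Finset.sum_bij (fun y _ => y0 * y) ?_ ?_ ?_ ?_
  · intro y h
    rw [mem_filter] at h ⊢
    exact ⟨mem_univ _, Y.mul_mem hy h.2⟩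
  · intro a _ b _ h
    exact mul_left_cancel h
  · intro b hb
    rw [mem_filter] at hb
    refine ⟨y0⁻¹ * b, ?_, by rw [mul_inv_cancel_left]⟩
    rw [mem_filter]
    exact ⟨mem_univ _, Y.mul_mem (Y.inv_mem hy) hb.2⟩
  · intro a _
    rfl

open Classical in
theorem sum_inv_Y [Fintype G] (f : G → ZMod l) :
    ∑ y ∈ univ.filter (fun y : G => y ∈ Y), f y⁻¹ =
      ∑ y ∈ univ.filter (fun y : G => y ∈ Y), f y := by
  refine Finset.sum_bij (fun y _ => y⁻¹) ?_ ?_ ?_ ?_
  · intro y h
    rw [mem_filter] at h ⊢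
    exact ⟨mem_univ _, Y.inv_mem h.2⟩
  · intro a _ b _ h
    exact inv_injective h
  · intro b hb
    rw [mem_filter] at hb
    refine ⟨b⁻¹, ?_, inv_inv b⟩
    rw [mem_filter]
    exact ⟨mem_univ _, Y.inv_mem hb.2⟩
  · intro a _
    rfl

end OPRx

open OPRx in
open Classical in
theorem OPR_thm : Stmt_OPR := by
  intro G _ _ p l _ P H Y u α e hl h he hG
  have hu := h.ord_u
  have hYH := h.Y_le
  have hYc : (Nat.card Y : ZMod l) ≠ 0 := by
    have : Fact l.Prime := ⟨hl⟩
    intro h0
    rw [ZMod.natCast_eq_zero_iff] at h0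
    exact hG (h0.trans (Subgroup.card_subgroup_dvd_card Y))
  refine ⟨?_, ?_, ?_, ?_⟩
  · intro x
    refine ⟨?_, ?_, ?_⟩
    · intro a ha g
      rw [Subgroup.mem_bot.1 ha, one_mul]
    · intro y0 hy0 g
      unfold pj
      congr 1
      rw [← sum_mul_Y hy0 (fun y => ∑ v : ZMod p, e v * x (g * u ^ v.val * y))]
      apply sum_congr rfl
      intro y _
      have h1 := sum_al h (hYH hy0) (fun v => e v * x (g * u ^ v.val * (y0 * y)))
      rw [← h1]
      apply sum_congr rfl
      intro v _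
      rw [e_al h he (hYH hy0), mul_assoc g y0, conj h (hYH hy0) v]
      simp only [mul_assoc]
    · intro g
      unfold pj
      have h1 : ∀ w : ZMod p, e w * ((Nat.card Y : ZMod l)⁻¹ *
          ∑ y ∈ univ.filter (fun y : G => y ∈ Y),
            ∑ v : ZMod p, e v * x (g * u ^ w.val * u ^ v.val * y)) =
          (Nat.card Y : ZMod l)⁻¹ * ∑ y ∈ univ.filter (fun y : G => y ∈ Y),
            ∑ s : ZMod p, (e w * e (s - w)) * x (g * u ^ s.val * y) := by
        intro w
        rw [mul_left_comm, mul_sum]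
        congr 1
        apply sum_congr rfl
        intro y _
        rw [mul_sum]
        rw [← sum_add w (fun s : ZMod p => (e w * e (s - w)) * x (g * u ^ s.val * y))]
        apply sum_congr rfl
        intro v _
        rw [add_sub_cancel_left, pow_add hu, mul_assoc (e w), ← mul_assoc g]
      rw [sum_congr rfl fun w _ => h1 w, ← mul_sum]
      congr 1
      rw [sum_comm]
      apply sum_congr rfl
      intro y _
      rw [sum_comm]
      apply sum_congr rfl
      intro s _
      rw [← sum_mul, he.idem s]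
  · intro x hx
    obtain ⟨h1, h2, h3⟩ := hx
    funext g
    unfold pj
    have h4 : ∀ y ∈ univ.filter (fun y : G => y ∈ Y),
        ∑ v : ZMod p, e v * x (g * u ^ v.val * y) = x g := by
      intro y hy
      rw [mem_filter] at hy
      rw [← h3 g]
      apply sum_congr rfl
      intro v _
      rw [h2 y hy.2]
    rw [sum_congr rfl h4, sum_const, nsmul_eq_mul]
    have h5 : #(univ.filter (fun y : G => y ∈ Y)) = Nat.card Y := by
      rw [Nat.card_eq_fintype_card, ← Fintype.card_subtype]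
    have : Fact l.Prime := ⟨hl⟩
    rw [h5, ← mul_assoc, inv_mul_cancel₀ hYc, one_mul]
  · intro N' x hx a ha g
    unfold pj
    congr 1
    apply sum_congr rfl
    intro y _
    apply sum_congr rfl
    intro v _
    rw [mul_assoc a, mul_assoc a, hx a ha]
  · intro x x'
    unfold pj
    have h1 : ∀ (f f' : G → ZMod l), ∑ g, ((Nat.card Y : ZMod l)⁻¹ *
        ∑ y ∈ univ.filter (fun y : G => y ∈ Y), ∑ v : ZMod p, e v * f (g * u ^ v.val * y)) *
          f' g = (Nat.card Y : ZMod l)⁻¹ * ∑ y ∈ univ.filter (fun y : G => y ∈ Y),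
            ∑ v : ZMod p, e v * ∑ g, f (g * u ^ v.val * y) * f' g := by
      intro f f'
      simp only [mul_assoc, ← mul_sum]
      congr 1
      simp only [sum_mul, mul_sum, mul_assoc]
      rw [sum_comm]
      apply sum_congr rfl
      intro y _
      rw [sum_comm]
    have h2 : ∑ g, x g * ((Nat.card Y : ZMod l)⁻¹ *
        ∑ y ∈ univ.filter (fun y : G => y ∈ Y), ∑ v : ZMod p, e v * x' (g * u ^ v.val * y)) =
        ∑ g, ((Nat.card Y : ZMod l)⁻¹ *
        ∑ y ∈ univ.filter (fun y : G => y ∈ Y), ∑ v : ZMod p, e v * x' (g * u ^ v.val * y)) *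
          x g := by
      apply sum_congr rfl
      intro g _
      rw [mul_comm]
    rw [h2, h1, h1]
    congr 1
    rw [← sum_inv_Y (fun y => ∑ v : ZMod p, e v * ∑ g, x' (g * u ^ v.val * y) * x g)]
    apply sum_congr rfl
    intro y hy
    rw [mem_filter] at hy
    have hy' : y⁻¹ ∈ H := H.inv_mem (hYH hy.2)
    rw [← sum_al h hy' (fun v : ZMod p => e v * ∑ g, x' (g * u ^ v.val * y⁻¹) * x g),
      ← sum_neg (fun v : ZMod p => e (α y⁻¹ * v) * ∑ g, x' (g * u ^ (α y⁻¹ * v).val * y⁻¹) * x g)]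
    apply sum_congr rfl
    intro v _
    rw [e_al h he hy', e_neg h he]
    congr 1
    rw [← sum_right (u ^ v.val * y) (fun g => x' (g * u ^ (α y⁻¹ * -v).val * y⁻¹) * x g)]
    apply sum_congr rfl
    intro g _
    rw [mul_comm (x' _)]
    have h3 : g * (u ^ v.val * y) * u ^ (α y⁻¹ * -v).val * y⁻¹ = g := by
      rw [mul_assoc _ (u ^ (α y⁻¹ * -v).val), ← conj h hy' (-v), pow_neg hu]
      group
    rw [h3, ← mul_assoc]

end Pool.Agent.ADG
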