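import Pool.Agent.ADG.St6

/-! (PCE) The idempotent of an `⟨l⟩`-orbit of characters of `ℤ/p` and the discriminants of its pieces. -/

set_option autoImplicit false
set_option linter.unusedSectionVars false

namespace Pool.Agent.ADG.PCEx

open Finset

/-! ## 1. Groups -/

theorem mem_of_pow {U : Type} [CommGroup U] [Finite U] [IsCyclic U] (T : Subgroup U) (x : U)
    (h : x ^ Nat.card T = 1) : x ∈ T := by
  classical
  have := Fintype.ofFinite U
  have h1 : (univ.filter fun a : U => a ^ Nat.card T = 1).card ≤ Nat.card T :=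
    IsCyclic.card_pow_eq_one_le Nat.card_pos
  have h2 : univ.filter (fun a : U => a ∈ T) ⊆ univ.filter fun a : U => a ^ Nat.card T = 1 := by
    intro a ha
    simp only [mem_filter, mem_univ, true_and] at ha ⊢
    have := pow_card_eq_one' (G := T) (x := ⟨a, ha⟩)
    exact congrArg (Subtype.val) this
  have h3 : (univ.filter (fun a : U => a ∈ T)).card = Nat.card T := by
    rw [Nat.card_eq_fintype_card, ← Fintype.card_subtype]
  have h4 := Finset.eq_of_subset_of_card_le h2 (by rw [h3]; exact h1)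
  have h5 : x ∈ univ.filter fun a : U => a ^ Nat.card T = 1 :=
    mem_filter.2 ⟨mem_univ _, h⟩
  rw [← h4] at h5
  simpa using h5

section basics

variable {p l : ℕ} [NeZero p] [Fact p.Prime] [Fact l.Prime] {K : Type} [Field K]
  [Algebra (ZMod l) K] (ψ : AddChar (ZMod p) K)

/-- the idempotent over the algebraic closure -/
noncomputable def eK (o : ℕ) (u : ZMod p) : K :=
  (p : K)⁻¹ * ∑ c ∈ univ.filter (fun c : ZMod p => c ^ o = 1), ψ (c * u)

theorem ne_zero_of_pow {o : ℕ} (ho : 0 < o) {c : ZMod p} (hc : c ^ o = 1) : c ≠ 0 := by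
  rintro rfl
  rw [zero_pow ho.ne'] at hc
  exact zero_ne_one hc

theorem eK_inv {o : ℕ} (ho : 0 < o) (c u : ZMod p) (hc : c ^ o = 1) :
    eK ψ o (c * u) = eK ψ o u := by
  have hc0 := ne_zero_of_pow ho hc
  unfold eK
  congr 1
  refine Finset.sum_nbij' (fun x => x * c) (fun x => x * c⁻¹) ?_ ?_ ?_ ?_ ?_
  · intro a ha
    simp only [mem_filter, mem_univ, true_and] at ha ⊢
    rw [mul_pow, ha, hc, one_mul]
  · intro a ha
    simp only [mem_filter, mem_univ, true_and] at ha ⊢
    rw [mul_pow, ha, inv_pow, hc, inv_one, one_mul]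
  · intro a _
    rw [mul_assoc, mul_inv_cancel₀ hc0, mul_one]
  · intro a _
    rw [mul_assoc, inv_mul_cancel₀ hc0, mul_one]
  · intro a _
    rw [mul_assoc]

theorem eK_pair (hψ : ψ.IsPrimitive) (hpK : (p : K) ≠ 0) (o : ℕ) (a : ZMod p) :
    ∑ v, eK ψ o v * ψ (a * v) = if (-a) ^ o = 1 then 1 else 0 := by
  classical
  have h1 : ∀ v, eK ψ o v * ψ (a * v) =
      (p : K)⁻¹ * ∑ c ∈ univ.filter (fun c : ZMod p => c ^ o = 1), ψ (v * (c + a)) := by
    intro v
    unfold eK
    rw [mul_assoc, Finset.sum_mul]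
    congr 1
    refine Finset.sum_congr rfl fun c _ => ?_
    rw [← AddChar.map_add_eq_mul]
    congr 1
    ring
  rw [Finset.sum_congr rfl fun v _ => h1 v, ← Finset.mul_sum, Finset.sum_comm]
  have h2 : ∀ c : ZMod p, ∑ v, ψ (v * (c + a)) = if c = -a then (p : K) else 0 := by
    intro c
    rw [AddChar.sum_mulShift _ hψ, ZMod.card]
    have : c + a = 0 ↔ c = -a := by constructor <;> intro h <;> linear_combination h
    simp only [this, Nat.cast_ite, Nat.cast_zero]
  rw [Finset.sum_congr rfl fun c _ => h2 c, Finset.sum_ite_eq']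
  simp only [mem_filter, mem_univ, true_and]
  split_ifs
  · exact inv_mul_cancel₀ hpK
  · exact mul_zero _

theorem eK_conv (hψ : ψ.IsPrimitive) (hpK : (p : K) ≠ 0) (o : ℕ) (a u : ZMod p)
    (ha : (-a) ^ o = 1) : ∑ v, eK ψ o v * ψ (a * (u + v)) = ψ (a * u) := by
  have h1 : ∀ v, eK ψ o v * ψ (a * (u + v)) = ψ (a * u) * (eK ψ o v * ψ (a * v)) := by
    intro v
    rw [mul_add, AddChar.map_add_eq_mul]
    ring
  rw [Finset.sum_congr rfl fun v _ => h1 v, ← Finset.mul_sum, eK_pair ψ hψ hpK, if_pos ha, mul_one]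

theorem eK_idem (hψ : ψ.IsPrimitive) (hpK : (p : K) ≠ 0) (o : ℕ) (u : ZMod p) :
    ∑ v, eK ψ o v * eK ψ o (u - v) = eK ψ o u := by
  have h1 : ∀ v, eK ψ o v * eK ψ o (u - v) =
      (p : K)⁻¹ * ∑ c ∈ univ.filter (fun c : ZMod p => c ^ o = 1),
        ψ (c * u) * (eK ψ o v * ψ (-c * v)) := by
    intro v
    conv_lhs => rw [eK.eq_def ψ o (u - v)]
    rw [mul_left_comm, Finset.mul_sum]
    congr 1
    refine Finset.sum_congr rfl fun c _ => ?_
    rw [mul_sub, sub_eq_add_neg, AddChar.map_add_eq_mul, neg_mul]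
    ring
  rw [Finset.sum_congr rfl fun v _ => h1 v, ← Finset.mul_sum, Finset.sum_comm, eK]
  congr 1
  refine Finset.sum_congr rfl fun c hc => ?_
  simp only [mem_filter, mem_univ, true_and] at hc
  rw [← Finset.mul_sum, eK_pair ψ hψ hpK, neg_neg, if_pos hc, mul_one]

theorem eK_zero (hψ : ψ.IsPrimitive) (hpK : (p : K) ≠ 0) {o : ℕ} (ho : 0 < o) :
    ∑ v, eK ψ o v = 0 := by
  have := eK_pair ψ hψ hpK o 0
  simp only [zero_mul, AddChar.map_zero_eq_one, mul_one, neg_zero, zero_pow ho.ne',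
    zero_ne_one, if_false] at this
  exact this

theorem charK : CharP K l := by
  exact charP_of_injective_algebraMap (algebraMap (ZMod l) K).injective l

theorem psi_pow (x : ZMod p) : ψ x ^ l = ψ ((l : ZMod p) * x) := by
  rw [← AddChar.map_nsmul_eq_pow, nsmul_eq_mul]

theorem eK_frob {o : ℕ} (ho : 0 < o) (hlo : (l : ZMod p) ^ o = 1) (u : ZMod p) :
    eK ψ o u ^ l = eK ψ o u := by
  have : CharP K l := charK (l := l)
  have : ExpChar K l := ExpChar.prime Fact.out
  conv_rhs => rw [← eK_inv ψ ho (l : ZMod p) u hlo]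
  unfold eK
  rw [mul_pow, sum_pow_char]
  congr 1
  · have : ((p : ZMod l)⁻¹) ^ l = (p : ZMod l)⁻¹ := ZMod.pow_card _
    have h2 := congrArg (algebraMap (ZMod l) K) this
    rw [map_pow, map_inv₀, map_natCast] at h2
    exact h2
  · refine Finset.sum_congr rfl fun c _ => ?_
    rw [psi_pow]
    congr 1
    ring

theorem exists_of_frob (x : K) (h : x ^ l = x) : ∃ y : ZMod l, algebraMap (ZMod l) K y = x := by
  have : CharP K l := charK (l := l)
  have h1 := (Subfield.mem_bot_iff_pow_eq_self K l).2 h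
  obtain ⟨n, hn⟩ := (mem_bot_iff_intCast l K).1 h1
  exact ⟨(n : ZMod l), by rw [map_intCast]; exact hn⟩

/-! ## 2. The pieces -/

open Classical in
/-- the sums over `l^n T` -/
noncomputable def Ph (l : ℕ) (T : Subgroup (ZMod p)ˣ) (n : ℕ) (u : ZMod p) : K :=
  ∑ c : T, ψ ((l : ZMod p) ^ n * ((c : (ZMod p)ˣ) : ZMod p) * u)

theorem Ph_frob (T : Subgroup (ZMod p)ˣ) (n : ℕ) (u : ZMod p) :
    Ph ψ l T n u ^ l = Ph ψ l T (n + 1) u := by
  have : CharP K l := charK (l := l)
  have : ExpChar K l := ExpChar.prime Fact.out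
  unfold Ph
  rw [sum_pow_char]
  refine Finset.sum_congr rfl fun c _ => ?_
  rw [psi_pow]
  congr 1
  ring

theorem Ph_mul (T : Subgroup (ZMod p)ˣ) (n : ℕ) (c : (ZMod p)ˣ) (hc : c ∈ T) (u : ZMod p) :
    Ph ψ l T n ((c : ZMod p) * u) = Ph ψ l T n u := by
  classical
  unfold Ph
  refine Fintype.sum_equiv (Equiv.mulRight (⟨c, hc⟩ : T)) _ _ fun x => ?_
  simp only [Equiv.coe_mulRight, Subgroup.coe_mul, Units.val_mul]
  congr 1
  ring

theorem Ph_shift (T : Subgroup (ZMod p)ˣ) (n k : ℕ) (c : (ZMod p)ˣ) (hc : c ∈ T)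
    (hk : (c : ZMod p) = (l : ZMod p) ^ k) (u : ZMod p) :
    Ph ψ l T (n + k) u = Ph ψ l T n u := by
  classical
  unfold Ph
  refine Fintype.sum_equiv (Equiv.mulRight (⟨c, hc⟩ : T)) _ _ fun x => ?_
  simp only [Equiv.coe_mulRight, Subgroup.coe_mul, Units.val_mul, hk]
  congr 1
  ring

theorem Ph_conv (hψ : ψ.IsPrimitive) (hpK : (p : K) ≠ 0) (o : ℕ) (T : Subgroup (ZMod p)ˣ) (n : ℕ)
    (h : ∀ c ∈ T, (-((l : ZMod p) ^ n * (c : ZMod p))) ^ o = 1) (u : ZMod p) :
    ∑ v, eK ψ o v * Ph ψ l T n (u + v) = Ph ψ l T n u := by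
  unfold Ph
  simp only [Finset.mul_sum]
  rw [Finset.sum_comm]
  refine Finset.sum_congr rfl fun c _ => ?_
  exact eK_conv ψ hψ hpK o _ u (h c c.2)

open Classical in
theorem Ph_gram (hψ : ψ.IsPrimitive) (T : Subgroup (ZMod p)ˣ) (i k : ℕ) (lu : (ZMod p)ˣ)
    (hlu : (lu : ZMod p) = (l : ZMod p)) :
    ∑ u, Ph ψ l T i u * Ph ψ l T k u =
      if -(lu ^ i * (lu ^ k)⁻¹) ∈ T then ((p * Nat.card T : ℕ) : K) else 0 := by
  have h1 : ∀ u, Ph ψ l T i u * Ph ψ l T k u = ∑ c : T, ∑ d : T,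
      ψ (u * ((l : ZMod p) ^ i * ((c : (ZMod p)ˣ) : ZMod p) +
        (l : ZMod p) ^ k * ((d : (ZMod p)ˣ) : ZMod p))) := by
    intro u
    unfold Ph
    rw [Finset.sum_mul_sum]
    refine Finset.sum_congr rfl fun c _ => Finset.sum_congr rfl fun d _ => ?_
    rw [← AddChar.map_add_eq_mul]
    congr 1
    ring
  rw [Finset.sum_congr rfl fun u _ => h1 u, Finset.sum_comm]
  have h2 : ∀ c : T, ∑ u : ZMod p, ∑ d : T,
      ψ (u * ((l : ZMod p) ^ i * ((c : (ZMod p)ˣ) : ZMod p) +
        (l : ZMod p) ^ k * ((d : (ZMod p)ˣ) : ZMod p))) =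
      if -(lu ^ i * (lu ^ k)⁻¹) ∈ T then (p : K) else 0 := by
    intro c
    rw [Finset.sum_comm]
    have h3 : ∀ d : T, ∑ u : ZMod p, ψ (u * ((l : ZMod p) ^ i * ((c : (ZMod p)ˣ) : ZMod p) +
        (l : ZMod p) ^ k * ((d : (ZMod p)ˣ) : ZMod p))) =
        if (d : (ZMod p)ˣ) = -(lu ^ i * (lu ^ k)⁻¹) * c then (p : K) else 0 := by
      intro d
      rw [AddChar.sum_mulShift _ hψ, ZMod.card]
      have : (l : ZMod p) ^ i * ((c : (ZMod p)ˣ) : ZMod p) +
        (l : ZMod p) ^ k * ((d : (ZMod p)ˣ) : ZMod p) = 0 ↔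
          (d : (ZMod p)ˣ) = -(lu ^ i * (lu ^ k)⁻¹) * c := by
        rw [← hlu, ← Units.val_pow_eq_pow_val, ← Units.val_pow_eq_pow_val, ← Units.val_mul,
          ← Units.val_mul, add_eq_zero_iff_neg_eq, ← Units.val_neg, Units.val_inj]
        constructor
        · intro h
          have h' : (d : (ZMod p)ˣ) = (lu ^ k)⁻¹ * (lu ^ k * d) := by group
          rw [h', ← h, neg_mul, mul_neg]
          congr 1
          rw [mul_comm (lu ^ i) (lu ^ k)⁻¹, mul_assoc]
        · intro h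
          rw [h, neg_mul, mul_neg]
          congr 1
          rw [mul_comm (lu ^ i) (lu ^ k)⁻¹, mul_assoc, mul_inv_cancel_left]
      simp only [this, Nat.cast_ite, Nat.cast_zero]
    rw [Finset.sum_congr rfl fun d _ => h3 d]
    by_cases hz : -(lu ^ i * (lu ^ k)⁻¹) ∈ T
    · rw [if_pos hz]
      rw [Finset.sum_eq_single (⟨-(lu ^ i * (lu ^ k)⁻¹), hz⟩ * c)]
      · simp
      · intro d _ hd
        rw [if_neg]
        intro h
        apply hd
        exact Subtype.ext h
      · intro h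
        exact absurd (mem_univ _) h
    · rw [if_neg hz]
      refine Finset.sum_eq_zero fun d _ => ?_
      rw [if_neg]
      intro h
      apply hz
      have : -(lu ^ i * (lu ^ k)⁻¹) = (d : (ZMod p)ˣ) * (c : (ZMod p)ˣ)⁻¹ := by
        rw [h]; group
      rw [this]
      exact T.mul_mem d.2 (T.inv_mem c.2)
  rw [Finset.sum_congr rfl fun c _ => h2 c]
  rw [Finset.sum_const, card_univ, ← Nat.card_eq_fintype_card]
  split_ifs
  · rw [nsmul_eq_mul]; push_cast; ring
  · rw [nsmul_zero]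

end basics

/-! ## 3. The space over `ZMod l` -/

section space

variable {p l : ℕ} [NeZero p] [Fact p.Prime] [Fact l.Prime]

/-- the space of a piece -/
def W (T : Subgroup (ZMod p)ˣ) (e : ZMod p → ZMod l) : Submodule (ZMod l) (ZMod p → ZMod l) where
  carrier := {φ | (∀ c ∈ T, ∀ u, φ ((c : ZMod p) * u) = φ u) ∧ ∀ u, ∑ v, e v * φ (u + v) = φ u}
  add_mem' := by
    rintro a b ⟨ha1, ha2⟩ ⟨hb1, hb2⟩
    refine ⟨fun c hc u => ?_, fun u => ?_⟩
    · rw [Pi.add_apply, Pi.add_apply, ha1 c hc, hb1 c hc]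
    · simp only [Pi.add_apply, mul_add]
      rw [Finset.sum_add_distrib, ha2, hb2]
  zero_mem' := by
    refine ⟨fun c hc u => rfl, fun u => ?_⟩
    simp
  smul_mem' := by
    rintro k a ⟨ha1, ha2⟩
    refine ⟨fun c hc u => ?_, fun u => ?_⟩
    · rw [Pi.smul_apply, Pi.smul_apply, ha1 c hc]
    · simp only [Pi.smul_apply, smul_eq_mul]
      rw [← ha2 u, Finset.mul_sum]
      refine Finset.sum_congr rfl fun v _ => ?_
      ring

theorem mem_W (T : Subgroup (ZMod p)ˣ) (e : ZMod p → ZMod l) (φ : ZMod p → ZMod l) :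
    φ ∈ W T e ↔ (∀ c ∈ T, ∀ u, φ ((c : ZMod p) * u) = φ u) ∧ ∀ u, ∑ v, e v * φ (u + v) = φ u :=
  Iff.rfl

open Classical in
/-- the columns of the projection -/
noncomputable def Gw (T : Subgroup (ZMod p)ˣ) (e : ZMod p → ZMod l) (w u : ZMod p) : ZMod l :=
  ∑ c : T, e (w - ((c : (ZMod p)ˣ) : ZMod p) * u)

theorem Gw_mem (T : Subgroup (ZMod p)ˣ) (e : ZMod p → ZMod l)
    (hinv : ∀ c ∈ T, ∀ u, e ((c : ZMod p) * u) = e u)
    (hid : ∀ u, ∑ v, e v * e (u - v) = e u) (w : ZMod p) : Gw T e w ∈ W T e := by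
  classical
  rw [mem_W]
  constructor
  · intro c hc u
    unfold Gw
    refine Fintype.sum_equiv (Equiv.mulRight (⟨c, hc⟩ : T)) _ _ fun x => ?_
    simp only [Equiv.coe_mulRight, Subgroup.coe_mul, Units.val_mul]
    congr 1
    ring
  · intro u
    unfold Gw
    simp only [Finset.mul_sum]
    rw [Finset.sum_comm]
    refine Finset.sum_congr rfl fun c _ => ?_
    rw [← hid]
    refine Fintype.sum_equiv (Units.mulLeft (c : (ZMod p)ˣ)) _ _ fun x => ?_
    rw [Units.mulLeft_apply, hinv c c.2]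
    congr 2
    ring

theorem map_span {K : Type} [Field K] [Algebra (ZMod l) K] {ι : Type}
    (β : ι → ZMod p → ZMod l) (f : ZMod p → ZMod l)
    (hf : f ∈ Submodule.span (ZMod l) (Set.range β)) :
    (fun u => algebraMap (ZMod l) K (f u)) ∈
      Submodule.span K (Set.range fun i u => algebraMap (ZMod l) K (β i u)) := by
  induction hf using Submodule.span_induction with
  | mem x hx =>
    obtain ⟨i, rfl⟩ := hx
    exact Submodule.subset_span ⟨i, rfl⟩
  | zero =>
    have : (fun u => algebraMap (ZMod l) K ((0 : ZMod p → ZMod l) u)) = 0 := by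
      funext u; simp
    rw [this]
    exact Submodule.zero_mem _
  | add x y _ _ hx hy =>
    have : (fun u => algebraMap (ZMod l) K ((x + y) u)) =
      (fun u => algebraMap (ZMod l) K (x u)) + fun u => algebraMap (ZMod l) K (y u) := by
      funext u; simp
    rw [this]
    exact Submodule.add_mem _ hx hy
  | smul a x _ hx =>
    have : (fun u => algebraMap (ZMod l) K ((a • x) u)) =
      (algebraMap (ZMod l) K a) • fun u => algebraMap (ZMod l) K (x u) := by
      funext u; simp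
    rw [this]
    exact Submodule.smul_mem _ _ hx

end space

theorem rot_val (m n : ℕ) (x : Fin (m + 1)) :
    (((finRotate (m + 1)) ^ n) x).val = (x.val + n) % (m + 1) := by
  induction n with
  | zero => simp [Nat.mod_eq_of_lt x.2]
  | succ n ih =>
    rw [pow_succ', Equiv.Perm.mul_apply, finRotate_apply, Fin.val_add, ih, Fin.val_one',
      ← Nat.add_mod, add_assoc]

/-! ## 4. The main theorem -/

section main

variable {p l : ℕ} [NeZero p] [Fact p.Prime] [Fact l.Prime] {K : Type} [Field K]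
  [Algebra (ZMod l) K] (ψ : AddChar (ZMod p) K)

/-- membership of the powers of `l` in `T` -/
theorem pow_mem_iff (lu : (ZMod p)ˣ) (T : Subgroup (ZMod p)ˣ) (t m : ℕ) (ht : Nat.card T = t)
    (ht0 : 0 < t) (hmt : orderOf lu = m * t) (j : ℕ) : lu ^ j ∈ T ↔ m ∣ j := by
  constructor
  · intro h
    have h1 : (lu ^ j) ^ t = 1 := by
      have := pow_card_eq_one' (G := T) (x := ⟨lu ^ j, h⟩)
      have h2 := congrArg (Subtype.val) this
      rw [ht] at h2
      exact h2
    rw [← pow_mul] at h1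
    have h2 := orderOf_dvd_of_pow_eq_one h1
    rw [hmt] at h2
    exact Nat.dvd_of_mul_dvd_mul_right ht0 h2
  · rintro ⟨k, rfl⟩
    apply mem_of_pow
    rw [ht, ← pow_mul, mul_right_comm, ← hmt, pow_mul, pow_orderOf_eq_one, one_pow]

theorem neg_one_eq (lu : (ZMod p)ˣ) (o : ℕ) (ho : orderOf lu = o) (h2 : 2 ∣ o) (h0 : 0 < o) :
    (-1 : (ZMod p)ˣ) = lu ^ (o / 2) := by
  have h1 : (lu ^ (o / 2)) ^ 2 = 1 := by
    rw [← pow_mul, Nat.div_mul_cancel h2, ← ho, pow_orderOf_eq_one]
  have h3 : lu ^ (o / 2) ≠ 1 := by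
    intro h
    have h4 := orderOf_dvd_of_pow_eq_one h
    rw [ho] at h4
    have := Nat.le_of_dvd (by omega) h4
    omega
  have h5 : ((lu ^ (o / 2) : (ZMod p)ˣ) : ZMod p) ^ 2 = 1 := by
    rw [← Units.val_pow_eq_pow_val, h1, Units.val_one]
  rcases sq_eq_one_iff.1 h5 with h | h
  · exact absurd (Units.ext h) h3
  · exact (Units.ext (by rw [h, Units.val_neg, Units.val_one])).symm

theorem pow_index (lu : (ZMod p)ˣ) (o : ℕ) (ho : orderOf lu = o) (c : ZMod p) (h0 : 0 < o)
    (hc : c ^ o = 1) : ∃ n : ℕ, c = (lu : ZMod p) ^ n := by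
  have hc0 := ne_zero_of_pow h0 hc
  have h1 : Units.mk0 c hc0 ∈ Subgroup.zpowers lu := by
    apply mem_of_pow
    rw [Nat.card_zpowers, ho]
    apply Units.ext
    rw [Units.val_pow_eq_pow_val, Units.val_mk0, hc, Units.val_one]
  rw [← mem_powers_iff_mem_zpowers] at h1
  obtain ⟨n, hn⟩ := h1
  refine ⟨n, ?_⟩
  have := congrArg (Units.val) hn
  simp only [Units.val_pow_eq_pow_val, Units.val_mk0] at this
  exact this.symm

/-- (expansion) An element of the space is a combination of the sums `Ph`. -/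
theorem expand (T : Subgroup (ZMod p)ˣ) (o : ℕ)
    (ht0 : ((Nat.card T : ℕ) : K) ≠ 0) (F : ZMod p → K)
    (hT : ∀ c ∈ T, ∀ u, F ((c : ZMod p) * u) = F u)
    (hF : ∀ u, ∑ v, eK ψ o v * F (u + v) = F u)
    (V : Submodule K (ZMod p → K))
    (hV : ∀ c : ZMod p, c ^ o = 1 → ∃ n : ℕ, -c = (l : ZMod p) ^ n ∧ Ph ψ l T n ∈ V) :
    F ∈ V := by
  classical
  have h1 : ∀ u, F u = ∑ c ∈ univ.filter (fun c : ZMod p => c ^ o = 1),
      ((p : K)⁻¹ * ∑ w, ψ (c * w) * F w) * ψ (-c * u) := by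
    intro u
    conv_lhs => rw [← hF u]
    unfold eK
    have h2 : ∀ v, (p : K)⁻¹ * (∑ c ∈ univ.filter (fun c : ZMod p => c ^ o = 1), ψ (c * v)) *
        F (u + v) = ∑ c ∈ univ.filter (fun c : ZMod p => c ^ o = 1),
          (p : K)⁻¹ * (ψ (c * v) * F (u + v)) := by
      intro v
      rw [mul_assoc, Finset.sum_mul, Finset.mul_sum]
    rw [Finset.sum_congr rfl fun v _ => h2 v, Finset.sum_comm]
    refine Finset.sum_congr rfl fun c _ => ?_
    rw [← Finset.mul_sum, mul_assoc, Finset.sum_mul]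
    congr 1
    refine Fintype.sum_equiv (Equiv.addLeft u) _ _ fun v => ?_
    rw [Equiv.coe_addLeft, mul_right_comm, ← AddChar.map_add_eq_mul]
    congr 2
    ring
  have h3 : ∀ u, ((Nat.card T : ℕ) : K) * F u =
      ∑ c ∈ univ.filter (fun c : ZMod p => c ^ o = 1),
      ((p : K)⁻¹ * ∑ w, ψ (c * w) * F w) *
        ∑ d : T, ψ (-c * (((d : (ZMod p)ˣ) : ZMod p) * u)) := by
    intro u
    have h4 : ∑ d : T, F (((d : (ZMod p)ˣ) : ZMod p) * u) = ((Nat.card T : ℕ) : K) * F u := by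
      rw [Finset.sum_congr rfl fun (d : T) _ => hT d d.2 u, Finset.sum_const, card_univ,
        ← Nat.card_eq_fintype_card, nsmul_eq_mul]
    rw [← h4, Finset.sum_congr rfl fun (d : T) _ => h1 (((d : (ZMod p)ˣ) : ZMod p) * u),
      Finset.sum_comm]
    refine Finset.sum_congr rfl fun c _ => ?_
    exact (Finset.mul_sum _ _ _).symm
  have h5 : F = ((Nat.card T : ℕ) : K)⁻¹ • ∑ c ∈ univ.filter (fun c : ZMod p => c ^ o = 1),
      ((p : K)⁻¹ * ∑ w, ψ (c * w) * F w) •
        (fun u => ∑ d : T, ψ (-c * (((d : (ZMod p)ˣ) : ZMod p) * u))) := by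
    funext u
    rw [Pi.smul_apply, Finset.sum_apply]
    simp only [Pi.smul_apply, smul_eq_mul]
    rw [← h3 u, inv_mul_cancel_left₀ ht0]
  rw [h5]
  refine Submodule.smul_mem _ _ (Submodule.sum_mem _ fun c hc => Submodule.smul_mem _ _ ?_)
  simp only [mem_filter, mem_univ, true_and] at hc
  obtain ⟨n, hn, hPn⟩ := hV c hc
  have h6 : (fun u => ∑ d : T, ψ (-c * (((d : (ZMod p)ˣ) : ZMod p) * u))) = Ph ψ l T n := by
    funext u
    unfold Ph
    refine Finset.sum_congr rfl fun d _ => ?_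
    rw [hn]
    congr 1
    ring
  rw [h6]
  exact hPn

/-- the discriminant of a basis of the space of a piece -/
theorem piece (hFRG : Stmt_FRG) (hψ : ψ.IsPrimitive) (hl2 : l ≠ 2) (hlp : l ≠ p) (o : ℕ)
    (lu : (ZMod p)ˣ) (hlu : (lu : ZMod p) = (l : ZMod p)) (ho : orderOf lu = o) (h0 : 0 < o)
    (h4 : 4 ∣ o) (e : ZMod p → ZMod l) (he : ∀ u, algebraMap (ZMod l) K (e u) = eK ψ o u)
    (hinv : ∀ c u : ZMod p, c ^ o = 1 → e (c * u) = e u)
    (hid : ∀ u, ∑ v, e v * e (u - v) = e u)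
    (T : Subgroup (ZMod p)ˣ) (hT2 : ∃ j, Nat.card T = 2 ^ j) (hT4 : 4 * Nat.card T ∣ o) :
    ∃ (m : ℕ) (β : Fin m → ZMod p → ZMod l), 4 ∣ m ∧ LinearIndependent (ZMod l) β ∧
      (∀ φ : ZMod p → ZMod l, φ ∈ Submodule.span (ZMod l) (Set.range β) ↔
        (∀ c ∈ T, ∀ u, φ ((c : ZMod p) * u) = φ u) ∧ ∀ u, ∑ v, e v * φ (u + v) = φ u) ∧
      ¬ IsSquare (Matrix.det (Matrix.of fun i j => ∑ u, β i u * β j u)) := by
  classical
  have hcK : CharP K l := charK (l := l)
  have hlP : l.Prime := Fact.out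
  have hpP : p.Prime := Fact.out
  have hpl : (p : ZMod l) ≠ 0 := by
    intro h
    rw [ZMod.natCast_eq_zero_iff] at h
    exact hlp ((Nat.prime_dvd_prime_iff_eq hlP hpP).1 h)
  have hpK : (p : K) ≠ 0 := by
    intro h
    apply hpl
    apply (algebraMap (ZMod l) K).injective
    rw [map_natCast, map_zero, h]
  obtain ⟨t, ht⟩ : ∃ t, Nat.card T = t := ⟨_, rfl⟩
  have ht0 : 0 < t := by rw [← ht]; exact Nat.card_pos
  have htl : (t : ZMod l) ≠ 0 := by
    obtain ⟨j, hj⟩ := hT2
    rw [← ht, hj]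
    intro h
    rw [ZMod.natCast_eq_zero_iff] at h
    exact hl2 ((Nat.prime_dvd_prime_iff_eq hlP Nat.prime_two).1 (hlP.dvd_of_dvd_pow h))
  have htK : ((Nat.card T : ℕ) : K) ≠ 0 := by
    rw [ht]
    intro h
    apply htl
    apply (algebraMap (ZMod l) K).injective
    rw [map_natCast, map_zero, h]
  obtain ⟨r, hr⟩ := hT4
  rw [ht] at hr
  obtain ⟨m', hm'⟩ : ∃ m', 4 * r = m' + 1 := by
    refine ⟨4 * r - 1, ?_⟩
    have : 0 < r := by
      rcases Nat.eq_zero_or_pos r with h | h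
      · subst h; omega
      · exact h
    omega
  have hmt : orderOf lu = (m' + 1) * t := by
    rw [ho, hr, ← hm']; ring
  have hmT := pow_mem_iff lu T t (m' + 1) ht ht0 hmt
  have hneg := neg_one_eq lu o ho (Dvd.dvd.trans (by norm_num) h4) h0
  have hlo : (l : ZMod p) ^ o = 1 := by
    rw [← hlu, ← Units.val_pow_eq_pow_val, ← ho, pow_orderOf_eq_one, Units.val_one]
  have heven : Even o := by
    obtain ⟨k, hk⟩ := h4
    exact ⟨2 * k, by omega⟩
  have hTo : ∀ c ∈ T, ((c : (ZMod p)ˣ) : ZMod p) ^ o = 1 := by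
    intro c hc
    have h1 : c ^ t = 1 := by
      have := pow_card_eq_one' (G := T) (x := ⟨c, hc⟩)
      have h2 := congrArg (Subtype.val) this
      rw [ht] at h2
      exact h2
    have h2 : o = t * (4 * r) := by rw [hr]; ring
    rw [← Units.val_pow_eq_pow_val, h2, pow_mul, h1, one_pow, Units.val_one]
  -- the family over `K`
  have hmod : ∀ n, Ph ψ l T (n % (m' + 1)) = Ph ψ l T n := by
    intro n
    funext u
    have h1 := Ph_shift ψ (l := l) T (n % (m' + 1)) ((m' + 1) * (n / (m' + 1)))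
      (lu ^ ((m' + 1) * (n / (m' + 1)))) ((hmT _).2 (Dvd.intro _ rfl))
      (by rw [Units.val_pow_eq_pow_val, hlu]) u
    rw [Nat.mod_add_div] at h1
    exact h1.symm
  have hPconv : ∀ n u, ∑ v, eK ψ o v * Ph ψ l T n (u + v) = Ph ψ l T n u := by
    intro n u
    refine Ph_conv ψ hψ hpK o T n ?_ u
    intro c hc
    rw [heven.neg_pow, mul_pow, hTo c hc, mul_one, ← pow_mul, mul_comm, pow_mul, hlo, one_pow]
  obtain ⟨φ, hφ⟩ : ∃ φ : Fin (m' + 1) → ZMod p → K, ∀ x, φ x = Ph ψ l T x.val := ⟨_, fun _ => rfl⟩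
  -- the permutations
  obtain ⟨σ, hσ⟩ : ∃ σ : Equiv.Perm (Fin (m' + 1)), σ = finRotate (m' + 1) := ⟨_, rfl⟩
  have hcond : ∀ x y : Fin (m' + 1), (-(lu ^ x.val * (lu ^ y.val)⁻¹) ∈ T ↔
      y = (σ ^ (o / 2)) x) := by
    intro x y
    have h1 : -(lu ^ x.val * (lu ^ y.val)⁻¹) ∈ T ↔
        lu ^ ((m' + 1) - y.val + (x.val + o / 2)) ∈ T := by
      have h2 : lu ^ ((m' + 1) - y.val + (x.val + o / 2)) =
          lu ^ (m' + 1) * -(lu ^ x.val * (lu ^ y.val)⁻¹) := by
        have h3 : lu ^ ((m' + 1) - y.val + (x.val + o / 2)) * lu ^ y.val =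
            lu ^ (m' + 1) * (lu ^ x.val * lu ^ (o / 2)) := by
          rw [← pow_add, ← pow_add, ← pow_add]
          congr 1
          have := y.2
          omega
        rw [← hneg] at h3
        rw [eq_mul_inv_of_mul_eq h3, mul_neg, mul_one, mul_neg, neg_mul, mul_neg, mul_assoc]
      rw [h2]
      constructor
      · intro h
        exact T.mul_mem ((hmT _).2 (dvd_refl _)) h
      · intro h
        exact (T.mul_mem_cancel_left ((hmT _).2 (dvd_refl _))).1 h
    rw [h1, hmT, Fin.ext_iff, hσ, rot_val]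
    have hy := y.2
    have hy' : y.val = y.val % (m' + 1) := (Nat.mod_eq_of_lt hy).symm
    constructor
    · rintro ⟨k, hk⟩
      have h5 : x.val + o / 2 + (m' + 1) = y.val + (m' + 1) * k := by omega
      have h6 : (x.val + o / 2 + (m' + 1)) % (m' + 1) = (y.val + (m' + 1) * k) % (m' + 1) := by
        rw [h5]
      rw [Nat.add_mod_right, Nat.add_mul_mod_self_left] at h6
      rw [h6, ← hy']
    · intro h
      have h5 := Nat.mod_add_div (x.val + o / 2) (m' + 1)
      rw [← h] at h5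
      refine ⟨1 + (x.val + o / 2) / (m' + 1), ?_⟩
      rw [mul_add, mul_one]
      omega
  have hgram : ∀ x y, ∑ u, φ x u * φ y u =
      if y = (σ ^ (o / 2)) x then algebraMap (ZMod l) K ((p * t : ℕ) : ZMod l) else 0 := by
    intro x y
    rw [hφ, hφ, Ph_gram ψ hψ T x.val y.val lu hlu, map_natCast, ht]
    simp only [hcond]
  have hc0 : ((p * t : ℕ) : ZMod l) ≠ 0 := by
    push_cast
    exact mul_ne_zero hpl htl
  have hindφ : LinearIndependent K φ := by
    rw [Fintype.linearIndependent_iff]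
    intro g hg y
    have h1 : ∑ u, (∑ x, g x • φ x) u * φ ((σ ^ (o / 2)) y) u = 0 := by
      rw [hg]
      simp
    have h2 : ∑ u, (∑ x, g x • φ x) u * φ ((σ ^ (o / 2)) y) u =
        g y * algebraMap (ZMod l) K ((p * t : ℕ) : ZMod l) := by
      have h3 : ∀ u, (∑ x, g x • φ x) u * φ ((σ ^ (o / 2)) y) u =
          ∑ x, g x * (φ x u * φ ((σ ^ (o / 2)) y) u) := by
        intro u
        rw [Finset.sum_apply, Finset.sum_mul]
        refine Finset.sum_congr rfl fun x _ => ?_
        rw [Pi.smul_apply, smul_eq_mul, mul_assoc]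
      rw [Finset.sum_congr rfl fun u _ => h3 u, Finset.sum_comm, Finset.sum_eq_single y]
      · rw [← Finset.mul_sum, hgram, if_pos rfl]
      · intro x _ hxy
        rw [← Finset.mul_sum, hgram, if_neg, mul_zero]
        intro h
        exact hxy ((Equiv.injective _ h).symm)
      · intro h
        exact absurd (mem_univ _) h
    rw [h2] at h1
    rcases mul_eq_zero.1 h1 with h | h
    · exact h
    · exfalso
      apply hc0
      apply (algebraMap (ZMod l) K).injective
      rw [h, map_zero]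
  -- elements of the space
  have hWspan : ∀ f ∈ W T e, (fun u => algebraMap (ZMod l) K (f u)) ∈
      Submodule.span K (Set.range φ) := by
    intro f hf
    rw [mem_W] at hf
    refine expand (l := l) ψ T o htK (fun u => algebraMap (ZMod l) K (f u))
      (fun c hc u => by rw [hf.1 c hc u]) (fun u => ?_) _ ?_
    · conv_rhs => rw [← hf.2 u, map_sum]
      refine Finset.sum_congr rfl fun v _ => ?_
      rw [map_mul, he]
    · intro c hc
      obtain ⟨n, hn⟩ := pow_index lu o ho (-c) h0 (by rw [heven.neg_pow, hc])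
      rw [hlu] at hn
      refine ⟨n, hn, Submodule.subset_span ⟨⟨n % (m' + 1), Nat.mod_lt _ (by omega)⟩, ?_⟩⟩
      rw [hφ]
      exact hmod n
  have hφspan : ∀ (ι : Type) (β : ι → ZMod p → ZMod l),
      Submodule.span (ZMod l) (Set.range β) = W T e → ∀ x, φ x ∈
        Submodule.span K (Set.range fun i u => algebraMap (ZMod l) K (β i u)) := by
    intro ι β hβ x
    have h1 : φ x = ((Nat.card T : ℕ) : K)⁻¹ • ∑ w, φ x w •
        (fun u => algebraMap (ZMod l) K (Gw T e w u)) := by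
      funext u
      rw [Pi.smul_apply, Finset.sum_apply]
      simp only [Pi.smul_apply, smul_eq_mul]
      unfold Gw
      simp only [map_sum, he, Finset.mul_sum]
      rw [Finset.sum_comm]
      have h2 : ∀ c : T, ∑ w, ((Nat.card T : ℕ) : K)⁻¹ *
          (φ x w * eK ψ o (w - ((c : (ZMod p)ˣ) : ZMod p) * u)) =
            ((Nat.card T : ℕ) : K)⁻¹ * φ x u := by
        intro c
        rw [← Finset.mul_sum]
        congr 1
        have h3 : φ x u = φ x (((c : (ZMod p)ˣ) : ZMod p) * u) := by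
          rw [hφ, Ph_mul ψ T _ _ c.2]
        conv_rhs => rw [h3, hφ, ← hPconv]
        symm
        refine Fintype.sum_equiv (Equiv.addLeft (((c : (ZMod p)ˣ) : ZMod p) * u)) _ _ fun v => ?_
        rw [Equiv.coe_addLeft, hφ, add_sub_cancel_left, mul_comm]
      rw [Finset.sum_congr rfl fun c _ => h2 c, Finset.sum_const, card_univ,
        ← Nat.card_eq_fintype_card, nsmul_eq_mul, mul_inv_cancel_left₀ htK]
    rw [h1]
    refine Submodule.smul_mem _ _ (Submodule.sum_mem _ fun w _ => Submodule.smul_mem _ _ ?_)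
    have h4 := Gw_mem T e (fun c hc u => hinv _ u (hTo c hc)) hid w
    rw [← hβ] at h4
    exact map_span (K := K) β _ h4
  -- the basis
  have key : ∀ (n : ℕ) (β : Fin n → ZMod p → ZMod l), LinearIndependent (ZMod l) β →
      Submodule.span (ZMod l) (Set.range β) = W T e →
      4 ∣ n ∧ ¬ IsSquare (Matrix.det (Matrix.of fun i j => ∑ u, β i u * β j u)) := by
    intro n β hβ hs
    have h1 : LinearIndependent K (fun i => (fun u => algebraMap (ZMod l) K (β i u))) :=
      (linearIndependent_algebraMap_comp_iff (R := ZMod l) (S := K) (v := β)).2 hβ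
    have hβW : ∀ i, β i ∈ W T e := by
      intro i
      rw [← hs]
      exact Submodule.subset_span ⟨i, rfl⟩
    have h2 : Submodule.span K (Set.range φ) =
        Submodule.span K (Set.range fun i u => algebraMap (ZMod l) K (β i u)) := by
      apply le_antisymm
      · rw [Submodule.span_le]
        rintro _ ⟨x, rfl⟩
        exact hφspan _ β hs x
      · rw [Submodule.span_le]
        rintro _ ⟨i, rfl⟩
        exact hWspan _ (hβW i)
    have h3 : n = m' + 1 := by
      have h4 := finrank_span_eq_card hindφ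
      have h5 := finrank_span_eq_card h1
      rw [h2] at h4
      rw [h4] at h5
      simpa using h5.symm
    subst h3
    refine ⟨⟨r, hm'.symm⟩, ?_⟩
    refine hFRG l K (ZMod p) (Fin (m' + 1)) β φ σ (σ ^ (o / 2)) ((p * t : ℕ) : ZMod l) hl2 hβ
      (fun i => hWspan _ (hβW i)) ?_ ?_ hgram hc0 ?_ ?_
    · intro x u
      rw [hφ, hφ, Ph_frob, hσ, finRotate_apply, ← hmod (x.val + 1), Fin.val_add, Fin.val_one',
        Nat.add_mod_mod]
    · rw [hσ, sign_finRotate]
      have : Odd (m' + 1 - 1) := ⟨2 * r - 1, by omega⟩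
      rw [this.neg_one_pow]
    · rw [map_pow, hσ, sign_finRotate]
      have : Even (o / 2) := by
        obtain ⟨k, hk⟩ := h4
        exact ⟨k, by omega⟩
      rw [← pow_mul, mul_comm, pow_mul, this.neg_one_pow, one_pow]
    · rw [Fintype.card_fin, ← hm']
      exact ⟨2 * r, by ring⟩
  let b := Module.finBasis (ZMod l) (W T e)
  have hb1 : LinearIndependent (ZMod l) (fun i => ((b i : W T e) : ZMod p → ZMod l)) := by
    have := b.linearIndependent.map' (W T e).subtype (Submodule.ker_subtype _)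
    exact this
  have hb2 : Submodule.span (ZMod l)
      (Set.range (fun i => ((b i : W T e) : ZMod p → ZMod l))) = W T e := by
    have h1 := b.span_eq
    have h2 := congrArg (Submodule.map (W T e).subtype) h1
    rw [Submodule.map_span, Submodule.map_top, Submodule.range_subtype, ← Set.range_comp] at h2
    exact h2
  obtain ⟨hk1, hk2⟩ := key _ _ hb1 hb2
  refine ⟨_, _, hk1, hb1, fun f => ?_, hk2⟩
  rw [hb2, mem_W]

end main

end Pool.Agent.ADG.PCEx

namespace Pool.Agent.ADG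

theorem PCE_thm (hFRG : Stmt_FRG) : Stmt_PCE := by
  intro p l _ hp hl hp2 hl2 hlp h4
  have := Fact.mk hp
  have := Fact.mk hl
  have hcK : CharP (AlgebraicClosure (ZMod l)) l := PCEx.charK (l := l)
  have hpl : (p : ZMod l) ≠ 0 := by
    intro h
    rw [ZMod.natCast_eq_zero_iff] at h
    exact hlp ((Nat.prime_dvd_prime_iff_eq hl hp).1 h)
  have hlpz : (l : ZMod p) ≠ 0 := by
    intro h
    rw [ZMod.natCast_eq_zero_iff] at h
    exact hlp ((Nat.prime_dvd_prime_iff_eq hp hl).1 h).symm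
  have hpK : (p : AlgebraicClosure (ZMod l)) ≠ 0 := by
    intro h
    apply hpl
    apply (algebraMap (ZMod l) (AlgebraicClosure (ZMod l))).injective
    rw [map_natCast, map_zero, h]
  have : NeZero (p : AlgebraicClosure (ZMod l)) := ⟨hpK⟩
  obtain ⟨ζ, hζ⟩ := HasEnoughRootsOfUnity.exists_primitiveRoot (AlgebraicClosure (ZMod l)) p
  have hψ := AddChar.zmodChar_primitive_of_primitive_root p hζ
  generalize AddChar.zmodChar p ((IsPrimitiveRoot.iff_def ζ p).mp hζ).left = ψ at hψ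
  obtain ⟨lu, hlu⟩ : ∃ lu : (ZMod p)ˣ, (lu : ZMod p) = (l : ZMod p) := ⟨Units.mk0 _ hlpz, rfl⟩
  have ho : orderOf lu = orderOf (l : ZMod p) := by
    rw [← hlu, orderOf_units]
  have h0 : 0 < orderOf (l : ZMod p) := by
    rw [← ho]
    exact orderOf_pos lu
  have hlo : (l : ZMod p) ^ orderOf (l : ZMod p) = 1 := pow_orderOf_eq_one _
  have h1 : ∀ u, ∃ x : ZMod l, algebraMap (ZMod l) (AlgebraicClosure (ZMod l)) x =
      PCEx.eK ψ (orderOf (l : ZMod p)) u := fun u =>
    PCEx.exists_of_frob _ (PCEx.eK_frob ψ h0 hlo u)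
  choose e he using h1
  have hinj := (algebraMap (ZMod l) (AlgebraicClosure (ZMod l))).injective
  have hinv : ∀ c u : ZMod p, c ^ orderOf (l : ZMod p) = 1 → e (c * u) = e u := by
    intro c u hc
    apply hinj
    rw [he, he, PCEx.eK_inv ψ h0 c u hc]
  have hid : ∀ u, ∑ v, e v * e (u - v) = e u := by
    intro u
    apply hinj
    rw [map_sum, he, ← PCEx.eK_idem ψ hψ hpK]
    refine Finset.sum_congr rfl fun v _ => ?_
    rw [map_mul, he, he]
  refine ⟨e, hinv, hid, ?_, ?_⟩
  · apply hinj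
    rw [map_sum, map_zero, ← PCEx.eK_zero ψ hψ hpK h0]
    refine Finset.sum_congr rfl fun v _ => ?_
    rw [he]
  · intro T hT2 hT4
    exact PCEx.piece ψ hFRG hψ hl2 hlp _ lu hlu ho h0 h4 e he hinv hid T hT2 hT4

end Pool.Agent.ADG
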