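import Pool.Agent.ADG.St6

/-!
# ADG, module TAI: the numbers `q s ^ 2`, `2 q s ^ 2` with `s > S` (helper19)
-/

set_option autoImplicit false

namespace Pool.Agent.ADG

open Finset

namespace TAI

/-- the primes up to `Y` -/
def P (Y : ℕ) : Finset ℕ := (Icc 1 Y).filter Nat.Prime

theorem card_P_le (Y : ℕ) : (P Y).card ≤ Y := by
  refine (card_filter_le _ _).trans ?_
  rw [Nat.card_Icc]; omega

theorem card_P_eq (Y : ℕ) : (P Y).card = Nat.primeCounting Y := by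
  rw [Nat.primeCounting, Nat.primeCounting', Nat.count_eq_card_filter_range]
  refine congrArg Finset.card ?_
  ext w
  simp only [P, mem_filter, mem_Icc, mem_range]
  constructor
  · rintro ⟨⟨h1, h2⟩, h3⟩
    exact ⟨by omega, h3⟩
  · rintro ⟨h1, h3⟩
    exact ⟨⟨h3.pos, by omega⟩, h3⟩

/-- Chebyshev -/
theorem cheb : ∃ x₀ : ℝ, 2 ≤ x₀ ∧ ∀ x : ℝ, x₀ ≤ x →
    (Nat.primeCounting ⌊x⌋₊ : ℝ) ≤ 3 * x / Real.log x := by
  have h := Chebyshev.eventually_primeCounting_le (ε := 1) one_pos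
  rw [Filter.eventually_atTop] at h
  obtain ⟨a, ha⟩ := h
  refine ⟨max a 2, le_max_right _ _, fun x hx => (ha x ((le_max_left _ _).trans hx)).trans ?_⟩
  have h2 : (2 : ℝ) ≤ x := (le_max_right _ _).trans hx
  have h3 : 0 < Real.log x := Real.log_pos (by linarith)
  have h4 : Real.log 4 ≤ 2 := by
    have h5 : (4 : ℝ) = 2 ^ 2 := by norm_num
    rw [h5, Real.log_pow]
    have := Real.log_two_lt_d9
    push_cast
    linarith
  have h6 : (Real.log 4 + 1) * x ≤ 3 * x := by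
    refine mul_le_mul_of_nonneg_right (by linarith) (by linarith)
  exact div_le_div_of_nonneg_right h6 h3.le

/-- the small `s` -/
theorem small {x₀ : ℝ} (h0 : 2 ≤ x₀) (hx₀ : ∀ x : ℝ, x₀ ≤ x →
    (Nat.primeCounting ⌊x⌋₊ : ℝ) ≤ 3 * x / Real.log x) {X s : ℕ} (hs : 1 ≤ s) (hsX : s ^ 4 ≤ X)
    (hX : x₀ ^ 2 ≤ X) :
    ((P (X / s ^ 2)).card : ℝ) ≤ 6 * X / Real.log X * ((s : ℝ) ^ 2)⁻¹ := by
  have hs0 : (0 : ℝ) < (s : ℝ) ^ 2 := by
    have : (0 : ℝ) < s := by exact_mod_cast hs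
    positivity
  have hX4 : (4 : ℝ) ≤ X := by nlinarith
  have hXp : (0 : ℝ) < X := by linarith
  have e1 : ⌊(X : ℝ) / ((s ^ 2 : ℕ) : ℝ)⌋₊ = X / s ^ 2 := Nat.floor_div_eq_div X (s ^ 2)
  have e2 : ((s ^ 2 : ℕ) : ℝ) = (s : ℝ) ^ 2 := by push_cast; ring
  have h1 : Real.sqrt X ≤ X / (s : ℝ) ^ 2 := by
    rw [le_div_iff₀ hs0]
    have h2 : (s : ℝ) ^ 2 ≤ Real.sqrt X := by
      refine Real.le_sqrt_of_sq_le ?_
      have : ((s ^ 4 : ℕ) : ℝ) ≤ X := by exact_mod_cast hsX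
      push_cast at this
      calc ((s : ℝ) ^ 2) ^ 2 = (s : ℝ) ^ 4 := by ring
        _ ≤ (X : ℝ) := this
    calc Real.sqrt X * (s : ℝ) ^ 2 ≤ Real.sqrt X * Real.sqrt X :=
          mul_le_mul_of_nonneg_left h2 (Real.sqrt_nonneg _)
      _ = X := Real.mul_self_sqrt hXp.le
  have h3 : x₀ ≤ Real.sqrt X := Real.le_sqrt_of_sq_le hX
  have h4 := hx₀ _ (h3.trans h1)
  rw [← e2, e1, ← card_P_eq] at h4
  refine h4.trans ?_
  rw [e2]
  have hsq : 1 < Real.sqrt X := by linarith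
  have h5 : Real.log X / 2 ≤ Real.log (X / (s : ℝ) ^ 2) := by
    rw [← Real.log_sqrt hXp.le]
    exact Real.log_le_log (by linarith) h1
  have h6 : 0 < Real.log X := Real.log_pos (by linarith)
  calc 3 * ((X : ℝ) / (s : ℝ) ^ 2) / Real.log (X / (s : ℝ) ^ 2)
      ≤ 3 * ((X : ℝ) / (s : ℝ) ^ 2) / (Real.log X / 2) :=
        div_le_div_of_nonneg_left (by positivity) (by positivity) h5
    _ = 6 * X / Real.log X * ((s : ℝ) ^ 2)⁻¹ := by
        field_simp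
        norm_num

/-- the sum over `s` -/
theorem sum_le {x₀ : ℝ} (h0 : 2 ≤ x₀) (hx₀ : ∀ x : ℝ, x₀ ≤ x →
    (Nat.primeCounting ⌊x⌋₊ : ℝ) ≤ 3 * x / Real.log x) {X S R : ℕ} (hS : 1 ≤ S) (hSX : S ≤ X)
    (hR : 1 ≤ R) (hRX : R ≤ X) (hR4 : R ^ 4 ≤ X) (hX : x₀ ^ 2 ≤ X) :
    ∑ s ∈ Ioc S X, ((P (X / s ^ 2)).card : ℝ) ≤
      6 * X / Real.log X * (S : ℝ)⁻¹ + X * (R : ℝ)⁻¹ := by
  have hX4 : (4 : ℝ) ≤ X := by nlinarith
  have h6 : 0 < Real.log X := Real.log_pos (by linarith)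
  have hpt : ∀ s ∈ Ioc S X, ((P (X / s ^ 2)).card : ℝ) ≤
      6 * X / Real.log X * ((s : ℝ) ^ 2)⁻¹ + if R < s then X * ((s : ℝ) ^ 2)⁻¹ else 0 := by
    intro s hs
    rw [mem_Ioc] at hs
    have hs1 : 1 ≤ s := by omega
    have hs0 : (0 : ℝ) < s := by exact_mod_cast hs1
    split_ifs with h
    · have h1 : ((P (X / s ^ 2)).card : ℝ) ≤ ((X / s ^ 2 : ℕ) : ℝ) := by
        exact_mod_cast card_P_le _
      have h2 : ((X / s ^ 2 : ℕ) : ℝ) ≤ (X : ℝ) / ((s ^ 2 : ℕ) : ℝ) := Nat.cast_div_le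
      have h3 : (X : ℝ) / ((s ^ 2 : ℕ) : ℝ) = X * ((s : ℝ) ^ 2)⁻¹ := by
        push_cast
        rw [div_eq_mul_inv]
      have h4 : 0 ≤ 6 * X / Real.log X * ((s : ℝ) ^ 2)⁻¹ := by positivity
      linarith
    · rw [add_zero]
      refine small h0 hx₀ hs1 ?_ hX
      exact (Nat.pow_le_pow_left (not_lt.mp h) 4).trans hR4
  refine (sum_le_sum hpt).trans ?_
  rw [sum_add_distrib, ← mul_sum]
  refine add_le_add ?_ ?_
  · refine mul_le_mul_of_nonneg_left ?_ (by positivity)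
    refine (sum_Ioc_inv_sq_le_sub (by omega) hSX).trans ?_
    have : (0 : ℝ) ≤ (X : ℝ)⁻¹ := by positivity
    linarith
  · rw [← sum_filter, ← mul_sum]
    refine mul_le_mul_of_nonneg_left ?_ (by positivity)
    refine (sum_le_sum_of_subset_of_nonneg (t := Ioc R X) ?_ ?_).trans
      ((sum_Ioc_inv_sq_le_sub (by omega) hRX).trans ?_)
    · intro s hs
      rw [mem_filter, mem_Ioc] at hs
      rw [mem_Ioc]
      exact ⟨hs.2, hs.1.2⟩
    · intro s _ _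
      positivity
    · have : (0 : ℝ) ≤ (X : ℝ)⁻¹ := by positivity
      linarith

open Classical in
/-- the count by `s` -/
theorem card_le (X S : ℕ) :
    ((Icc 2 X).filter (fun n => ∃ q s : ℕ, q.Prime ∧ S < s ∧
      (n = q * s ^ 2 ∨ n = 2 * q * s ^ 2))).card ≤
      2 * ∑ s ∈ Ioc S X, (P (X / s ^ 2)).card := by
  have hsub : (Icc 2 X).filter (fun n => ∃ q s : ℕ, q.Prime ∧ S < s ∧
      (n = q * s ^ 2 ∨ n = 2 * q * s ^ 2)) ⊆
      (Ioc S X).biUnion (fun s => (P (X / s ^ 2)).image (fun q => q * s ^ 2) ∪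
        (P (X / s ^ 2)).image (fun q => 2 * q * s ^ 2)) := by
    intro n hn
    rw [mem_filter, mem_Icc] at hn
    obtain ⟨⟨h2, hX⟩, q, s, hq, hs, hqs⟩ := hn
    have hs1 : 1 ≤ s := by omega
    have hs2 : 0 < s ^ 2 := by positivity
    have hle : q * s ^ 2 ≤ X := by
      rcases hqs with h | h
      · omega
      · have : q * s ^ 2 ≤ 2 * q * s ^ 2 := by
          refine Nat.mul_le_mul_right _ (by omega)
        omega
    have hqm : q ∈ P (X / s ^ 2) := by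
      rw [P, mem_filter, mem_Icc]
      exact ⟨⟨hq.pos, (Nat.le_div_iff_mul_le hs2).mpr hle⟩, hq⟩
    rw [mem_biUnion]
    refine ⟨s, ?_, ?_⟩
    · rw [mem_Ioc]
      refine ⟨hs, ?_⟩
      calc s ≤ s ^ 2 := by nlinarith
        _ = 1 * s ^ 2 := (one_mul _).symm
        _ ≤ q * s ^ 2 := Nat.mul_le_mul_right _ hq.pos
        _ ≤ X := hle
    · rw [mem_union, mem_image, mem_image]
      rcases hqs with h | h
      · exact Or.inl ⟨q, hqm, h.symm⟩
      · exact Or.inr ⟨q, hqm, h.symm⟩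
  refine (card_le_card hsub).trans (card_biUnion_le.trans ?_)
  rw [mul_sum]
  refine sum_le_sum fun s _ => ?_
  refine (card_union_le _ _).trans ?_
  have h1 : ((P (X / s ^ 2)).image (fun q => q * s ^ 2)).card ≤ (P (X / s ^ 2)).card :=
    card_image_le
  have h2 : ((P (X / s ^ 2)).image (fun q => 2 * q * s ^ 2)).card ≤ (P (X / s ^ 2)).card :=
    card_image_le
  omega

end TAI

open TAI in
open Classical in
theorem TAI_thm : Stmt_TAI := by
  obtain ⟨x₀, h0, hx₀⟩ := cheb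
  refine ⟨13, by norm_num, ?_⟩
  intro S hS
  refine ⟨max ⌈x₀ ^ 2⌉₊ ((512 * S ^ 2) ^ 4), ?_⟩
  intro X hXX
  have hX1 : x₀ ^ 2 ≤ X := (Nat.le_ceil _).trans (by exact_mod_cast (le_max_left _ _).trans hXX)
  have hX2 : (512 * S ^ 2) ^ 4 ≤ X := (le_max_right _ _).trans hXX
  set R : ℕ := Nat.sqrt (Nat.sqrt X) with hRdef
  have hRle : 512 * S ^ 2 ≤ R := by
    rw [hRdef, Nat.le_sqrt', Nat.le_sqrt']
    calc ((512 * S ^ 2) ^ 2) ^ 2 = (512 * S ^ 2) ^ 4 := by ring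
      _ ≤ X := hX2
  have hS2 : 1 ≤ S ^ 2 := Nat.one_le_pow _ _ hS
  have hR1 : 1 ≤ R := by omega
  have hR4 : R ^ 4 ≤ X := by
    have h1 : R ^ 2 ≤ Nat.sqrt X := Nat.sqrt_le' _
    calc R ^ 4 = (R ^ 2) ^ 2 := by ring
      _ ≤ (Nat.sqrt X) ^ 2 := Nat.pow_le_pow_left h1 2
      _ ≤ X := Nat.sqrt_le' _
  have hRX : R ≤ X := (Nat.sqrt_le_self _).trans (Nat.sqrt_le_self _)
  have hSR : S ≤ R := by nlinarith
  have hXR : X < (R + 1) ^ 4 := by
    have h1 : Nat.sqrt X < (R + 1) ^ 2 := Nat.lt_succ_sqrt' _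
    have h2 : X < (Nat.sqrt X + 1) ^ 2 := Nat.lt_succ_sqrt' _
    calc X < (Nat.sqrt X + 1) ^ 2 := h2
      _ ≤ ((R + 1) ^ 2) ^ 2 := Nat.pow_le_pow_left h1 2
      _ = (R + 1) ^ 4 := by ring
  have hX4 : (4 : ℝ) ≤ X := by nlinarith
  have hXp : (0 : ℝ) < X := by linarith
  have hlog : 0 < Real.log X := Real.log_pos (by linarith)
  have hS0 : (0 : ℝ) < S := by exact_mod_cast hS
  have hR0 : (0 : ℝ) < R := by exact_mod_cast hR1
  -- `2 S log X ≤ R`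
  have hkey : 2 * S * Real.log X ≤ R := by
    have h1 : Real.log X ≤ 4 * Real.log (R + 1) := by
      have h2 : (X : ℝ) ≤ ((R : ℝ) + 1) ^ 4 := by exact_mod_cast hXR.le
      calc Real.log X ≤ Real.log (((R : ℝ) + 1) ^ 4) := Real.log_le_log hXp h2
        _ = 4 * Real.log (R + 1) := by rw [Real.log_pow]; push_cast; ring
    have h3 : Real.log ((R : ℝ) + 1) ≤ 2 * Real.sqrt ((R : ℝ) + 1) := by
      have h4 : Real.log (Real.sqrt ((R : ℝ) + 1)) = Real.log ((R : ℝ) + 1) / 2 :=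
        Real.log_sqrt (by positivity)
      have h5 : Real.log (Real.sqrt ((R : ℝ) + 1)) ≤ Real.sqrt ((R : ℝ) + 1) - 1 :=
        Real.log_le_sub_one_of_pos (Real.sqrt_pos.mpr (by positivity))
      linarith
    have h6 : 16 * S * Real.sqrt ((R : ℝ) + 1) ≤ R := by
      have h7 : 256 * (S : ℝ) ^ 2 * (R + 1) ≤ (R : ℝ) ^ 2 := by
        have h8 : (512 * (S : ℝ) ^ 2) ≤ R := by exact_mod_cast hRle
        have h9 : (1 : ℝ) ≤ R := by exact_mod_cast hR1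
        have h10 : (0 : ℝ) < (S : ℝ) ^ 2 := by positivity
        nlinarith
      have h11 : (16 * S * Real.sqrt ((R : ℝ) + 1)) ^ 2 ≤ (R : ℝ) ^ 2 := by
        calc (16 * S * Real.sqrt ((R : ℝ) + 1)) ^ 2
            = 256 * (S : ℝ) ^ 2 * (Real.sqrt ((R : ℝ) + 1) ^ 2) := by ring
          _ = 256 * (S : ℝ) ^ 2 * (R + 1) := by rw [Real.sq_sqrt (by positivity)]
          _ ≤ (R : ℝ) ^ 2 := h7
      exact (sq_le_sq₀ (by positivity) hR0.le).mp h11
    nlinarith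
  have hsum := sum_le h0 hx₀ hS (hSR.trans hRX) hR1 hRX hR4 hX1
  have hcard : (((Icc 2 X).filter (fun n => ∃ q s : ℕ, q.Prime ∧ S < s ∧
      (n = q * s ^ 2 ∨ n = 2 * q * s ^ 2))).card : ℝ) ≤
      2 * ∑ s ∈ Ioc S X, ((P (X / s ^ 2)).card : ℝ) := by
    exact_mod_cast card_le X S
  refine hcard.trans ?_
  have hR' : (X : ℝ) * (R : ℝ)⁻¹ ≤ X / Real.log X * (S : ℝ)⁻¹ / 2 := by
    rw [div_mul_eq_mul_div, div_div, ← div_eq_mul_inv, ← div_eq_mul_inv, div_div,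
      div_le_div_iff_of_pos_left hXp hR0 (by positivity)]
    linarith
  calc 2 * ∑ s ∈ Ioc S X, ((P (X / s ^ 2)).card : ℝ)
      ≤ 2 * (6 * X / Real.log X * (S : ℝ)⁻¹ + X / Real.log X * (S : ℝ)⁻¹ / 2) := by
        linarith
    _ = 13 / S * X / Real.log X := by
        field_simp
        norm_num

end Pool.Agent.ADG
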