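import Pool.Agent.ADG.St6

/-!
# V2T: the numbers `n = A q` with `n^2 = 1` modulo a high power of `2`
-/

set_option autoImplicit false

namespace Pool.Agent.ADG

open Finset Pool.Agent.ADS

namespace V2Tx

lemma split (k n : ℕ) (h : 2 ^ k ∣ n ^ 2 - 1) (hn : 2 ≤ n) :
    2 ^ (k - 1) ∣ n - 1 ∨ 2 ^ (k - 1) ∣ n + 1 := by
  rcases Nat.lt_or_ge k 2 with hk | hk
  · left
    have h0 : k - 1 = 0 := by omega
    rw [h0, pow_zero]
    exact one_dvd _
  · obtain ⟨j, rfl⟩ : ∃ j, k = j + 2 := ⟨k - 2, by omega⟩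
    have h4 : 4 ∣ n ^ 2 - 1 := by
      refine Dvd.dvd.trans ?_ h
      exact ⟨2 ^ j, by ring⟩
    have hodd : n % 2 = 1 := by
      by_contra h0
      obtain ⟨c, rfl⟩ : ∃ c, n = 2 * c := ⟨n / 2, by omega⟩
      have h5 : (2 * c) ^ 2 = 4 * c ^ 2 := by ring
      rw [h5] at h4
      have h6 : 0 < c ^ 2 := by
        have : 0 < c := by omega
        positivity
      omega
    obtain ⟨m, rfl⟩ : ∃ m, n = 2 * m + 1 := ⟨n / 2, by omega⟩
    have e1 : (2 * m + 1) ^ 2 - 1 = 4 * (m * (m + 1)) := by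
      have h5 : (2 * m + 1) ^ 2 = 4 * (m * (m + 1)) + 1 := by ring
      omega
    have h5 : 2 ^ j ∣ m * (m + 1) := by
      rw [e1] at h
      have h6 : 4 * 2 ^ j ∣ 4 * (m * (m + 1)) := by
        have h7 : 4 * 2 ^ j = 2 ^ (j + 2) := by ring
        rw [h7]
        exact h
      exact Nat.dvd_of_mul_dvd_mul_left (by norm_num) h6
    have h2 : Prime 2 := Nat.prime_two.prime
    have h8 : j + 2 - 1 = j + 1 := by omega
    rw [h8]
    by_cases hm : 2 ∣ m
    · left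
      have h9 : ¬ 2 ∣ m + 1 := by omega
      have h10 := h2.pow_dvd_of_dvd_mul_right j h9 h5
      obtain ⟨t, ht⟩ := h10
      refine ⟨t, ?_⟩
      rw [Nat.add_sub_cancel, pow_succ]
      nlinarith [ht]
    · right
      have h10 := h2.pow_dvd_of_dvd_mul_left j hm h5
      obtain ⟨t, ht⟩ := h10
      refine ⟨t, ?_⟩
      rw [pow_succ]
      nlinarith [ht]

lemma rsm_prod (h2 : Stmt_RSU) (B : Finset ℕ) (hB : ∀ b ∈ B, b.Prime) (z : ℕ) (hz : 1 ≤ z) :
    RSm B z ≤ 2 ^ (B.card + 1) := by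
  obtain ⟨hun, hmono, hone, -, hsing, -⟩ := h2
  classical
  induction B using Finset.induction_on with
  | empty =>
    have h1 := (hmono ∅ {2} z (Finset.empty_subset _)).trans (hsing 2 z Nat.prime_two)
    simpa using h1
  | insert b B hb ih =>
    have h1 := ih (fun c hc => hB c (Finset.mem_insert_of_mem hc))
    have h3 := hsing b z (hB b (Finset.mem_insert_self b B))
    have h4 := hun {b} B z
    have h5 : insert b B = {b} ∪ B := rfl
    rw [Finset.card_insert_of_notMem hb, h5]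
    have h6 : (0 : ℝ) ≤ RSm B z := le_trans zero_le_one (hone B z hz)
    calc RSm ({b} ∪ B) z ≤ RSm {b} z * RSm B z := h4
      _ ≤ 2 * 2 ^ (B.card + 1) := mul_le_mul h3 h1 h6 (by norm_num)
      _ = 2 ^ (B.card + 1 + 1) := by ring

open Classical in
lemma class_bound (h1 : Stmt_S2V) (h2 : Stmt_RSU) (A k X z : ℕ) (hA : Odd A) (hz : 2 ≤ z)
    (S : Finset ℕ)
    (hS : ∀ x ∈ S, 1 ≤ x ∧ x ≤ X ∧ ∀ q : ℕ, q.Prime → q ≤ z → ¬ q ∣ 2 * A → ¬ q ∣ x)
    (hc : ∀ x ∈ S, ∀ y ∈ S, x ≡ y [MOD A * 2 ^ (k - 1)]) :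
    (S.card : ℝ) ≤
      2 * X / 2 ^ k * 2 ^ ((2 * A).primeFactors.card + 1) / Real.log z + (z : ℝ) ^ 12 := by
  have hA0 : 0 < A := hA.pos
  have hz1 : 1 ≤ z := by omega
  have hlz : 0 < Real.log z := Real.log_pos (by exact_mod_cast (by omega : 1 < z))
  rcases S.eq_empty_or_nonempty with rfl | ⟨a, ha⟩
  · rw [Finset.card_empty, Nat.cast_zero]
    positivity
  · set P1 : Finset ℕ := (Icc 1 z).filter (fun q => q.Prime ∧ ¬ q ∣ 2 * A) with hP1
    have hM : 0 < A * 2 ^ (k - 1) := by positivity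
    have key := h1 X z (A * 2 ^ (k - 1)) a P1 ∅ hz1 hM (by
      intro q hq
      rw [Finset.union_empty, hP1, Finset.mem_filter] at hq
      obtain ⟨-, hq, hq2⟩ := hq
      have h3 : q ≠ 2 := by
        rintro rfl
        exact hq2 ⟨A, rfl⟩
      refine ⟨hq, h3, fun h4 => ?_⟩
      rcases hq.dvd_mul.1 h4 with h5 | h5
      · exact hq2 (h5.mul_left 2)
      · exact h3 ((Nat.prime_dvd_prime_iff_eq hq Nat.prime_two).1 (hq.dvd_of_dvd_pow h5))) S (by
      intro x hx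
      obtain ⟨h3, h4, h5⟩ := hS x hx
      refine ⟨h3, h4, hc x hx a ha, ?_, by simp⟩
      intro q hq
      rw [hP1, Finset.mem_filter, Finset.mem_Icc] at hq
      exact h5 q hq.2.1 hq.1.2 hq.2.2)
    have hemp : 1 ≤ RSm ∅ z := h2.2.2.1 ∅ z hz1
    have hP1p : 1 ≤ RSm P1 z := h2.2.2.1 P1 z hz1
    have hlog : Real.log z ≤ RSm P1 z * RSm (2 * A).primeFactors z := by
      refine h2.2.2.2.1 P1 _ z hz1 ?_
      intro q hq hqz
      rw [Finset.mem_union]
      by_cases h3 : q ∣ 2 * A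
      · right
        rw [Nat.mem_primeFactors]
        exact ⟨hq, h3, by positivity⟩
      · left
        rw [hP1, Finset.mem_filter, Finset.mem_Icc]
        exact ⟨⟨hq.one_le, hqz⟩, hq, h3⟩
    have hB : RSm (2 * A).primeFactors z ≤ 2 ^ ((2 * A).primeFactors.card + 1) :=
      rsm_prod h2 _ (fun b hb => Nat.prime_of_mem_primeFactors hb) z hz1
    set K : ℝ := 2 ^ ((2 * A).primeFactors.card + 1) with hK
    have hK0 : 0 < K := by positivity
    have hlow : Real.log z ≤ (RSm P1 z * RSm ∅ z) * K := by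
      calc Real.log z ≤ RSm P1 z * RSm (2 * A).primeFactors z := hlog
        _ ≤ RSm P1 z * K := mul_le_mul_of_nonneg_left hB (by linarith)
        _ ≤ (RSm P1 z * RSm ∅ z) * K := by
          refine mul_le_mul_of_nonneg_right ?_ hK0.le
          nlinarith
    have hR : 0 < RSm P1 z * RSm ∅ z := by positivity
    have hXM : (X : ℝ) / ((A * 2 ^ (k - 1) : ℕ) : ℝ) ≤ 2 * X / 2 ^ k := by
      have hA1 : (1 : ℝ) ≤ A := by exact_mod_cast hA0
      have h3 : (2 : ℝ) ^ k ≤ 2 * 2 ^ (k - 1) := by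
        rcases Nat.eq_zero_or_pos k with rfl | hk
        · norm_num
        · obtain ⟨j, rfl⟩ : ∃ j, k = j + 1 := ⟨k - 1, by omega⟩
          rw [Nat.add_sub_cancel, pow_succ]
          linarith
      have h4 : (0 : ℝ) < 2 ^ (k - 1) := by positivity
      have h5 : (0 : ℝ) < (A : ℝ) * 2 ^ (k - 1) := by positivity
      push_cast
      rw [div_le_div_iff₀ h5 (by positivity)]
      have h6 : (0 : ℝ) ≤ X := Nat.cast_nonneg X
      have h7 : (2 : ℝ) ^ (k - 1) ≤ A * 2 ^ (k - 1) := by nlinarith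
      calc (X : ℝ) * 2 ^ k ≤ X * (2 * 2 ^ (k - 1)) := mul_le_mul_of_nonneg_left h3 h6
        _ ≤ X * (2 * (A * 2 ^ (k - 1))) := mul_le_mul_of_nonneg_left (by linarith) h6
        _ = 2 * X * (A * 2 ^ (k - 1)) := by ring
    refine key.trans ?_
    have h9 : (X : ℝ) / ((A * 2 ^ (k - 1) : ℕ) : ℝ) / (RSm P1 z * RSm ∅ z) ≤
        2 * X / 2 ^ k * K / Real.log z := by
      calc (X : ℝ) / ((A * 2 ^ (k - 1) : ℕ) : ℝ) / (RSm P1 z * RSm ∅ z) ≤
          (2 * X / 2 ^ k) / (RSm P1 z * RSm ∅ z) := div_le_div_of_nonneg_right hXM hR.le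
        _ ≤ 2 * X / 2 ^ k * K / Real.log z := by
          rw [div_le_div_iff₀ hR hlz, mul_assoc]
          refine mul_le_mul_of_nonneg_left ?_ (by positivity)
          rw [mul_comm K]
          exact hlow
    linarith

end V2Tx

open Classical V2Tx in
theorem V2T_thm (h1 : Stmt_S2V) (h2 : Stmt_RSU) : Stmt_V2T := by
  intro A hA
  have hA0 : 0 < A := hA.pos
  set K : ℝ := 2 ^ ((2 * A).primeFactors.card + 1) with hK
  have hK0 : 0 < K := by positivity
  refine ⟨480 * K + 1, by positivity, fun k => ?_⟩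
  have hlit := (isLittleO_log_rpow_atTop (by norm_num : (0 : ℝ) < 4 / 5)).bound
    (by positivity : (0 : ℝ) < 1 / (3 * 2 ^ k))
  obtain ⟨T, hT⟩ := Filter.eventually_atTop.1 hlit
  refine ⟨max (2 ^ 120) ⌈T⌉₊, fun X hX => ?_⟩
  have hX1 : 2 ^ 120 ≤ X := (le_max_left _ _).trans hX
  have hX2 : T ≤ (X : ℝ) := by
    have h3 : ⌈T⌉₊ ≤ X := (le_max_right _ _).trans hX
    exact (Nat.le_ceil T).trans (by exact_mod_cast h3)
  have hXr : (2 : ℝ) ^ 120 ≤ (X : ℝ) := by exact_mod_cast hX1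
  have hXpos : (0 : ℝ) < X := lt_of_lt_of_le (by positivity) hXr
  set y : ℝ := (X : ℝ) ^ (1 / 120 : ℝ) with hy
  have hy2 : 2 ≤ y := by
    have h3 : ((2 : ℝ) ^ (120 : ℕ)) ^ (1 / 120 : ℝ) = 2 := by
      rw [← Real.rpow_natCast, ← Real.rpow_mul (by norm_num)]
      norm_num
    calc (2 : ℝ) = ((2 : ℝ) ^ (120 : ℕ)) ^ (1 / 120 : ℝ) := h3.symm
      _ ≤ y := Real.rpow_le_rpow (by positivity) hXr (by norm_num)
  have hyy : (X : ℝ) ^ (1 / 60 : ℝ) = y ^ 2 := by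
    rw [hy, ← Real.rpow_natCast, ← Real.rpow_mul hXpos.le]
    norm_num
  set z : ℕ := ⌊y ^ 2⌋₊ with hz
  have hzle : (z : ℝ) ≤ y ^ 2 := Nat.floor_le (by positivity)
  have hzge : y ≤ (z : ℝ) := by
    have h3 : y ^ 2 < z + 1 := Nat.lt_floor_add_one _
    nlinarith
  have hz2 : 2 ≤ z := by
    have h3 : (2 : ℝ) ≤ z := hy2.trans hzge
    exact_mod_cast h3
  have hlogy : Real.log X = 120 * Real.log y := by
    rw [hy, Real.log_rpow hXpos]
    ring
  have hlogz : Real.log X ≤ 120 * Real.log z := by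
    rw [hlogy]
    have h3 : Real.log y ≤ Real.log z := Real.log_le_log (by linarith) hzge
    linarith
  have hlX : 0 < Real.log X := Real.log_pos (by
    have : (1 : ℝ) < 2 ^ 120 := by norm_num
    linarith)
  have hlz : 0 < Real.log z := by linarith
  have hy15 : y ^ 24 = (X : ℝ) ^ (1 / 5 : ℝ) := by
    rw [hy, ← Real.rpow_natCast, ← Real.rpow_mul hXpos.le]
    norm_num
  have hz12 : (z : ℝ) ^ 12 ≤ y ^ 24 := by
    calc (z : ℝ) ^ 12 ≤ (y ^ 2) ^ 12 := pow_le_pow_left₀ (Nat.cast_nonneg z) hzle 12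
      _ = y ^ 24 := by ring
  have hz1' : (z : ℝ) ≤ y ^ 24 := by
    calc (z : ℝ) ≤ y ^ 2 := hzle
      _ ≤ y ^ 24 := pow_le_pow_right₀ (by linarith) (by norm_num)
  -- the three parts
  set W := (Icc 2 X).filter (fun n => (∃ q : ℕ, q.Prime ∧ n = A * q) ∧ 2 ^ k ∣ n ^ 2 - 1) with hW
  set S0 := (Icc 1 z).image (fun q => A * q) with hS0
  set S1 := W.filter (fun n => n ∉ S0 ∧ 2 ^ (k - 1) ∣ n - 1) with hS1
  set S2 := W.filter (fun n => n ∉ S0 ∧ 2 ^ (k - 1) ∣ n + 1) with hS2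
  have hcov : W ⊆ S0 ∪ (S1 ∪ S2) := by
    intro n hn
    rw [Finset.mem_union, Finset.mem_union]
    by_cases h0 : n ∈ S0
    · exact Or.inl h0
    · right
      have hn' := hn
      rw [hW, Finset.mem_filter, Finset.mem_Icc] at hn'
      rcases split k n hn'.2.2 hn'.1.1 with h3 | h3
      · left
        rw [hS1, Finset.mem_filter]
        exact ⟨hn, h0, h3⟩
      · right
        rw [hS2, Finset.mem_filter]
        exact ⟨hn, h0, h3⟩
  have hnd : ∀ n ∈ W, n ∉ S0 → 1 ≤ n ∧ n ≤ X ∧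
      ∀ q : ℕ, q.Prime → q ≤ z → ¬ q ∣ 2 * A → ¬ q ∣ n := by
    intro n hn h0
    rw [hW, Finset.mem_filter, Finset.mem_Icc] at hn
    obtain ⟨⟨hn1, hn2⟩, ⟨q0, hq0, rfl⟩, -⟩ := hn
    refine ⟨by omega, hn2, fun q hq hqz hqA hqn => ?_⟩
    rcases hq.dvd_mul.1 hqn with h3 | h3
    · exact hqA (h3.mul_left 2)
    · have h4 : q = q0 := (Nat.prime_dvd_prime_iff_eq hq hq0).1 h3
      subst h4
      apply h0
      rw [hS0, Finset.mem_image]
      exact ⟨q, Finset.mem_Icc.2 ⟨hq.one_le, hqz⟩, rfl⟩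
  have hcop : Nat.Coprime A (2 ^ (k - 1)) := by
    exact Nat.Coprime.pow_right _ (Nat.coprime_two_right.2 hA)
  have hmodA : ∀ n ∈ W, n ≡ 0 [MOD A] := by
    intro n hn
    rw [hW, Finset.mem_filter] at hn
    obtain ⟨-, ⟨q0, -, rfl⟩, -⟩ := hn
    exact (Nat.modEq_zero_iff_dvd).2 ⟨q0, rfl⟩
  have hb1 := class_bound h1 h2 A k X z hA hz2 S1 (by
    intro x hx
    rw [hS1, Finset.mem_filter] at hx
    exact hnd x hx.1 hx.2.1) (by
    intro x hx x' hx'
    rw [hS1, Finset.mem_filter] at hx hx'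
    rw [← Nat.modEq_and_modEq_iff_modEq_mul hcop]
    refine ⟨(hmodA x hx.1).trans (hmodA x' hx'.1).symm, ?_⟩
    have h3 : ∀ w : ℕ, 1 ≤ w → 2 ^ (k - 1) ∣ w - 1 → w ≡ 1 [MOD 2 ^ (k - 1)] := by
      intro w hw h4
      exact ((Nat.modEq_iff_dvd' hw).2 h4).symm
    exact (h3 x (hnd x hx.1 hx.2.1).1 hx.2.2).trans (h3 x' (hnd x' hx'.1 hx'.2.1).1 hx'.2.2).symm)
  have hb2 := class_bound h1 h2 A k X z hA hz2 S2 (by
    intro x hx
    rw [hS2, Finset.mem_filter] at hx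
    exact hnd x hx.1 hx.2.1) (by
    intro x hx x' hx'
    rw [hS2, Finset.mem_filter] at hx hx'
    rw [← Nat.modEq_and_modEq_iff_modEq_mul hcop]
    refine ⟨(hmodA x hx.1).trans (hmodA x' hx'.1).symm, ?_⟩
    have h3 : ∀ w : ℕ, 2 ^ (k - 1) ∣ w + 1 → w + 1 ≡ 0 [MOD 2 ^ (k - 1)] := by
      intro w h4
      exact (Nat.modEq_zero_iff_dvd).2 h4
    exact Nat.ModEq.add_right_cancel' 1 ((h3 x hx.2.2).trans (h3 x' hx'.2.2).symm))
  have hb0 : (S0.card : ℝ) ≤ z := by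
    have h3 : S0.card ≤ z := by
      refine Finset.card_image_le.trans ?_
      rw [Nat.card_Icc]
      omega
    exact_mod_cast h3
  have hcard : (W.card : ℝ) ≤ S0.card + (S1.card + S2.card) := by
    have h3 : W.card ≤ S0.card + (S1.card + S2.card) :=
      (Finset.card_le_card hcov).trans ((Finset.card_union_le _ _).trans
        (Nat.add_le_add_left (Finset.card_union_le _ _) _))
    exact_mod_cast h3
  have hmain : 2 * (X : ℝ) / 2 ^ k * K / Real.log z ≤ 240 * K / 2 ^ k * X / Real.log X := by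
    rw [div_le_div_iff₀ hlz hlX]
    have h3 : 0 ≤ 2 * (X : ℝ) / 2 ^ k * K := by positivity
    calc 2 * (X : ℝ) / 2 ^ k * K * Real.log X ≤ 2 * (X : ℝ) / 2 ^ k * K * (120 * Real.log z) :=
          mul_le_mul_of_nonneg_left hlogz h3
      _ = 240 * K / 2 ^ k * X * Real.log z := by ring
  have hsmall : 3 * y ^ 24 ≤ 1 / 2 ^ k * X / Real.log X := by
    have h3 := hT X hX2
    rw [Real.norm_of_nonneg hlX.le, Real.norm_of_nonneg (by positivity)] at h3
    rw [le_div_iff₀ hlX, hy15]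
    have h4 : (X : ℝ) ^ (1 / 5 : ℝ) * (X : ℝ) ^ (4 / 5 : ℝ) = X := by
      rw [← Real.rpow_add hXpos]
      norm_num
    have h5 : (0 : ℝ) ≤ (X : ℝ) ^ (1 / 5 : ℝ) := by positivity
    calc 3 * (X : ℝ) ^ (1 / 5 : ℝ) * Real.log X ≤
        3 * (X : ℝ) ^ (1 / 5 : ℝ) * (1 / (3 * 2 ^ k) * (X : ℝ) ^ (4 / 5 : ℝ)) :=
          mul_le_mul_of_nonneg_left h3 (by positivity)
      _ = 1 / 2 ^ k * ((X : ℝ) ^ (1 / 5 : ℝ) * (X : ℝ) ^ (4 / 5 : ℝ)) := by
          field_simp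
      _ = 1 / 2 ^ k * X := by rw [h4]
  have hfin : (480 * K + 1) / 2 ^ k * X / Real.log X =
      2 * (240 * K / 2 ^ k * X / Real.log X) + 1 / 2 ^ k * X / Real.log X := by
    field_simp
    ring
  rw [hfin]
  linarith

end Pool.Agent.ADG
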