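import Pool.Agent.ADG.All5
import Pool.Agent.ADG.GRM
import Pool.Agent.ADG.LGR
import Pool.Agent.ADG.FRG
import Pool.Agent.ADG.PCE
import Pool.Agent.ADG.OPR
import Pool.Agent.ADG.ONE
import Pool.Agent.ADG.BAS
import Pool.Agent.ADG.CTA
import Pool.Agent.ADG.CTW
import Pool.Agent.ADG.DR1
import Pool.Agent.ADG.DR2
import Pool.Agent.ADG.GEN
import Pool.Agent.ADG.V2T
import Pool.Agent.ADG.TAI
import Pool.Agent.ADG.FX1
import Pool.Agent.ADG.FX2
import Pool.Agent.ADG.SM6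
import Pool.Agent.ADG.FIN6

/-! Project ADG (MP_43d07b_co), part 6: assembly (helper33). -/

set_option autoImplicit false

namespace Pool.Agent.ADG

theorem LGR_all : Stmt_LGR := LGR_thm LAG_thm LAT_thm RKV_thm

theorem PCE_all : Stmt_PCE := PCE_thm FRG_thm

theorem BAS_all : Stmt_BAS := BAS_thm (ONE_thm RTL_thm) DCL_thm

theorem CTA_all : Stmt_CTA := CTA_thm GRM_thm LGR_all PCE_all OPR_thm BAS_all GRP_all DCL_thm

theorem CTW_all : Stmt_CTW := CTW_thm CTA_all MST_thm TCT_thm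

theorem GEN_all : Stmt_GEN := GEN_thm S2V_thm RSU_thm

theorem V2T_all : Stmt_V2T := V2T_thm S2V_thm RSU_thm

theorem SM6_all : Stmt_SM6 :=
  SM6_thm (FX1_thm DR1_thm DR2_thm GEN_all V2T_all) (FX2_thm DR1_thm GEN_all) TAI_thm

theorem main6 : MainStatement6 := FIN6_thm main5 EPX_all PXT_all PXU_all CTW_all SM6_all

end Pool.Agent.ADG
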