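import Pool.Agent.ADG.St7

/-!
# ADG, module DR3: primes modulo which `s ^ 2` has even order
-/

set_option autoImplicit false

namespace Pool.Agent.ADG

open NumberTheorySymbols

namespace DR3

theorem root (s : ℕ) (h1 : 1 < s) :
    ∃ b j : ℕ, s = b ^ 2 ^ j ∧ 1 < b ∧ ¬ IsSquare b := by
  induction s using Nat.strong_induction_on with
  | _ s ih =>
    by_cases hsq : IsSquare s
    · obtain ⟨t, ht⟩ := hsq
      have h2 : 1 < t := by
        by_contra hc
        have : t * t ≤ 1 := by nlinarith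
        omega
      have h3 : t < s := by nlinarith
      obtain ⟨b, j, hb, hb1, hb3⟩ := ih t h3 h2
      refine ⟨b, j + 1, ?_, hb1, hb3⟩
      rw [ht, hb, pow_succ, mul_comm (2 ^ j) 2, pow_mul', sq]
    · exact ⟨s, 0, by simp, h1, hsq⟩

theorem odd_exp (b : ℕ) (h0 : b ≠ 0) (hb : ¬ IsSquare b) :
    ∃ w : ℕ, w.Prime ∧ Odd (b.factorization w) := by
  by_contra hc
  push Not at hc
  apply hb
  refine ⟨b.factorization.prod fun w e => w ^ (e / 2), ?_⟩
  conv_lhs => rw [← Nat.prod_factorization_pow_eq_self h0]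
  rw [← Finsupp.prod_mul]
  refine Finsupp.prod_congr ?_
  intro w hw
  have h1 : w.Prime := Nat.prime_of_mem_primeFactors (by simpa using hw)
  have h2 := hc w h1
  rw [Nat.not_odd_iff_even] at h2
  rw [← pow_add]
  congr 1
  obtain ⟨r, hr⟩ := h2
  omega

theorem dvd2 (o h e : ℕ) (h1 : o ∣ 2 * h) (h2 : ¬ o ∣ h) (h3 : 2 ^ e ∣ 2 * h) :
    2 ^ e ∣ o := by
  obtain ⟨c, hc⟩ := h1
  have h4 : Odd c := by
    rw [← Nat.not_even_iff_odd]
    rintro ⟨d, hd⟩
    apply h2
    refine ⟨d, ?_⟩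
    have : 2 * h = 2 * (o * d) := by rw [hc, hd]; ring
    omega
  rw [hc] at h3
  have h5 : Nat.Coprime (2 ^ e) c := Nat.Coprime.pow_left _ (Nat.coprime_two_left.2 h4)
  exact h5.dvd_of_dvd_mul_right h3

theorem dvd4 (o h e : ℕ) (h1 : o ∣ 4 * h) (h2 : ¬ o ∣ h) (h3 : 2 ^ (e + 1) ∣ 4 * h) :
    2 ^ e ∣ o := by
  by_cases h4 : o ∣ 2 * h
  · refine dvd2 o h e h4 h2 ?_
    rw [pow_succ'] at h3
    have h5 : 2 * 2 ^ e ∣ 2 * (2 * h) := by
      have : 4 * h = 2 * (2 * h) := by ring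
      rwa [this] at h3
    exact Nat.dvd_of_mul_dvd_mul_left two_pos h5
  · have h5 := dvd2 o (2 * h) (e + 1) (by
      have : 2 * (2 * h) = 4 * h := by ring
      rwa [this]) h4 (by
      have : 2 * (2 * h) = 4 * h := by ring
      rwa [this])
    exact (pow_dvd_pow 2 (by omega)).trans h5

/-- the order of `s ^ 2` is even if the order of `b` is divisible by a large power of `2` -/
theorem ord (p s b j : ℕ) (hs : s = b ^ 2 ^ j) (ho : 2 ^ (j + 2) ∣ orderOf (b : ZMod p)) :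
    Even (orderOf ((s : ZMod p) ^ 2)) := by
  have hs2 : (s : ZMod p) ^ 2 = (b : ZMod p) ^ 2 ^ (j + 1) := by
    rw [hs]
    push_cast
    rw [← pow_mul, pow_succ]
  have h6 : 2 ^ (j + 1) ∣ orderOf (b : ZMod p) := (pow_dvd_pow 2 (by omega)).trans ho
  rw [hs2, orderOf_pow' _ (by positivity), Nat.gcd_eq_right h6, even_iff_two_dvd,
    Nat.dvd_div_iff_mul_dvd h6, ← pow_succ]
  exact ho

/-- a set containing almost all elements of a large set is large -/
theorem trans (s : ℕ) (hs : 0 < s) (T S : ℕ → Prop) {_ : DecidablePred T} {_ : DecidablePred S}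
    (h : ∀ p, T p → ¬ p ∣ 2 * s → S p)
    (hT : ¬ Summable (fun p : ℕ => if T p then (1 : ℝ) / p else 0)) :
    ¬ Summable (fun p : ℕ => if S p then (1 : ℝ) / p else 0) := by
  intro hS
  apply hT
  have h1 : Summable (fun p : ℕ => if p ∣ 2 * s then (1 : ℝ) / p else 0) := by
    refine summable_of_hasFiniteSupport ?_
    refine (Finset.finite_toSet (Finset.range (2 * s + 1))).subset ?_
    intro p hp
    rw [Function.mem_support] at hp
    by_cases hd : p ∣ 2 * s
    · rw [Finset.coe_range, Set.mem_Iio]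
      have := Nat.le_of_dvd (by omega) hd
      omega
    · rw [if_neg hd] at hp
      exact absurd rfl hp
  refine Summable.of_nonneg_of_le (fun p => ?_) (fun p => ?_) (hS.add h1)
  · split_ifs <;> positivity
  · by_cases hTp : T p
    · rw [if_pos hTp]
      by_cases hd : p ∣ 2 * s
      · rw [if_pos hd]
        have : (0 : ℝ) ≤ if S p then (1 : ℝ) / p else 0 := by split_ifs <;> positivity
        linarith
      · rw [if_pos (h p hTp hd), if_neg hd, add_zero]
    · rw [if_neg hTp]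
      have h2 : (0 : ℝ) ≤ if S p then (1 : ℝ) / p else 0 := by split_ifs <;> positivity
      have h3 : (0 : ℝ) ≤ if p ∣ 2 * s then (1 : ℝ) / p else 0 := by split_ifs <;> positivity
      linarith

/-- `(2/p) = 1` -/
theorem two (p : ℕ) (hp8 : p % 8 = 1) : J((2 : ℤ) | p) = 1 := by
  rw [jacobiSym.at_two (Nat.odd_iff.2 (by omega)), ZMod.χ₈_nat_mod_eight, hp8]
  decide

/-- reciprocity for an odd number -/
theorem recip (p c a : ℕ) (hp4 : p % 4 = 1) (hc : Odd c) (hpa : p ≡ a [MOD c]) :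
    J((c : ℤ) | p) = J((a : ℤ) | c) := by
  rw [← jacobiSym.quadratic_reciprocity_one_mod_four hp4 hc]
  apply jacobiSym.mod_left'
  exact Int.natCast_modEq_iff.2 hpa

/-- a number with trivial power residue symbol is a fourth power -/
theorem fourth (p h : ℕ) (hp : p.Prime) (hh : p - 1 = 4 * h) (x : ZMod p) (hx : x ^ h = 1)
    (hx0 : x ≠ 0) : ∃ y : ZMod p, y ^ 4 = x := by
  have hFp : Fact p.Prime := ⟨hp⟩
  obtain ⟨g, hg⟩ := IsCyclic.exists_generator (α := (ZMod p)ˣ)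
  have hog : orderOf g = 4 * h := by
    rw [← hh, ← ZMod.card_units p]
    exact orderOf_eq_card_of_forall_mem_zpowers hg |>.trans (Nat.card_eq_fintype_card)
  obtain ⟨k, hk⟩ := (Submonoid.mem_powers_iff _ _).1
    ((mem_powers_iff_mem_zpowers (x := g) (y := Units.mk0 x hx0)).2 (hg _))
  have hk1 : g ^ (k * h) = 1 := by
    rw [pow_mul, hk]
    ext
    rw [Units.val_pow_eq_pow_val, Units.val_mk0, hx, Units.val_one]
  have hk2 : 4 * h ∣ k * h := by
    rw [← hog]
    exact orderOf_dvd_of_pow_eq_one hk1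
  have hh0 : 0 < h := by
    by_contra hc
    have h0 : h = 0 := by omega
    rw [h0] at hh
    have := hp.two_le
    have : p = 1 := by omega
    have h2 := hp.two_le
    omega
  obtain ⟨m, rfl⟩ : 4 ∣ k := Nat.dvd_of_mul_dvd_mul_right hh0 hk2
  refine ⟨((g ^ m : (ZMod p)ˣ) : ZMod p), ?_⟩
  rw [← Units.val_pow_eq_pow_val, ← pow_mul, mul_comm m 4, hk, Units.val_mk0]

/-- case 1 -/
theorem case1 (s b j w : ℕ) (hs : s = b ^ 2 ^ j) (hb1 : 1 < b) (hw : w.Prime) (hw2 : w ≠ 2)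
    (hwo : Odd (b.factorization w)) : ∃ m a : ℕ, 0 < m ∧ a.Coprime m ∧
      ∀ p : ℕ, p.Prime → p ≡ a [MOD m] → ¬ p ∣ 2 * s → Even (orderOf ((s : ZMod p) ^ 2)) := by
  have hb0 : b ≠ 0 := by omega
  have hw0 : b.factorization w ≠ 0 := by
    intro h0
    rw [h0] at hwo
    exact absurd hwo (by decide)
  have hwodd : Odd w := hw.odd_of_ne_two hw2
  -- the odd part
  obtain ⟨c, hc, hcodd⟩ : ∃ c : ℕ, b = 2 ^ b.factorization 2 * c ∧ Odd c := by
    refine ⟨b / 2 ^ b.factorization 2, (Nat.ordProj_mul_ordCompl_eq_self b 2).symm, ?_⟩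
    exact Nat.coprime_two_left.1 (Nat.coprime_ordCompl Nat.prime_two hb0)
  have hc0 : c ≠ 0 := by
    rintro rfl
    exact absurd hcodd (by decide)
  have hfc : c.factorization w = b.factorization w := by
    conv_rhs => rw [hc]
    rw [Nat.factorization_mul (by positivity) hc0, Nat.factorization_pow, Finsupp.add_apply,
      Finsupp.smul_apply, Nat.Prime.factorization Nat.prime_two,
      Finsupp.single_eq_of_ne (by exact hw2)]
    simp
  obtain ⟨b', hb', hcop⟩ : ∃ b' : ℕ, c = w ^ b.factorization w * b' ∧ Nat.Coprime w b' := by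
    rw [← hfc]
    exact ⟨c / w ^ c.factorization w, (Nat.ordProj_mul_ordCompl_eq_self c w).symm,
      Nat.coprime_ordCompl hw hc0⟩
  have hb'0 : b' ≠ 0 := by
    rintro rfl
    rw [mul_zero] at hb'
    exact hc0 hb'
  have hFw : Fact w.Prime := ⟨hw⟩
  obtain ⟨x, hx⟩ : ∃ x : ZMod w, ¬ IsSquare x := by
    have hc : ringChar (ZMod w) ≠ 2 := by
      rw [ZMod.ringChar_zmod_n]
      exact hw2
    exact FiniteField.exists_nonsquare hc
  obtain ⟨n, hn⟩ : ∃ n : ℕ, (n : ZMod w) = x := ⟨x.val, ZMod.natCast_zmod_val x⟩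
  have hcopM : Nat.Coprime (2 ^ (j + 3) * b') w := by
    apply Nat.Coprime.mul_left
    · exact Nat.Coprime.pow_left _ (Nat.coprime_two_left.2 hwodd)
    · exact hcop.symm
  obtain ⟨a, ha1, ha2⟩ := Nat.chineseRemainder hcopM 1 n
  have hjw : J((a : ℤ) | w) = -1 := by
    rw [← jacobiSym.legendreSym.to_jacobiSym]
    have h2 : ((a : ℤ) : ZMod w) = x := by
      have h3 : (a : ZMod w) = (n : ZMod w) := (ZMod.natCast_eq_natCast_iff _ _ _).2 ha2
      rw [← hn]
      exact_mod_cast h3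
    rw [legendreSym.eq_neg_one_iff, h2]
    exact hx
  have hjc : J((a : ℤ) | c) = -1 := by
    rw [hb', jacobiSym.mul_right', jacobiSym.pow_right, hjw, hwo.neg_one_pow]
    · have h2 : J((a : ℤ) | b') = J((1 : ℤ) | b') := by
        apply jacobiSym.mod_left'
        have h3 : a ≡ 1 [MOD b'] := ha1.of_mul_left _
        have h4 : ((a : ℕ) : ℤ) ≡ ((1 : ℕ) : ℤ) [ZMOD ((b' : ℕ) : ℤ)] := Int.natCast_modEq_iff.2 h3
        exact h4
      rw [h2, jacobiSym.one_left]
      norm_num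
    · exact pow_ne_zero _ hw.ne_zero
    · exact hb'0
  have hcopac : Nat.Coprime a c := by
    have h2 : J((a : ℤ) | c) ≠ 0 := by rw [hjc]; norm_num
    by_contra hcc
    apply h2
    have : NeZero c := ⟨hc0⟩
    rw [jacobiSym.eq_zero_iff_not_coprime]
    intro h3
    exact hcc (by simpa using h3)
  have ha4 : a ≡ 1 [MOD 2 ^ (j + 3)] := ha1.of_mul_right _
  have haodd : Odd a := by
    have h2 : a ≡ 1 [MOD 2] := ha4.of_dvd (dvd_pow_self 2 (by omega))
    rw [Nat.odd_iff]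
    exact h2
  refine ⟨2 ^ (j + 3) * c, a, by positivity, ?_, ?_⟩
  · apply Nat.Coprime.mul_right
    · exact Nat.Coprime.pow_right _ (Nat.coprime_two_right.2 haodd)
    · exact hcopac
  intro p hp hpa hps
  have hpc : p ≡ a [MOD c] := hpa.of_mul_left _
  have hp2k : p ≡ 1 [MOD 2 ^ (j + 3)] := (hpa.of_mul_right _).trans ha4
  have hp8 : p % 8 = 1 := by
    have h2 : p ≡ 1 [MOD 8] := hp2k.of_dvd (by
      have : (8 : ℕ) = 2 ^ 3 := by norm_num
      rw [this]
      exact pow_dvd_pow 2 (by omega))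
    exact h2
  have hFp : Fact p.Prime := ⟨hp⟩
  have hjp : J((b : ℤ) | p) = -1 := by
    rw [hc]
    push_cast
    rw [jacobiSym.mul_left, jacobiSym.pow_left, two p hp8, one_pow, one_mul,
      recip p c a (by omega) hcodd hpc, hjc]
  have hpow : (b : ZMod p) ^ (p / 2) = -1 := by
    rw [← jacobiSym.legendreSym.to_jacobiSym] at hjp
    have h2 := legendreSym.eq_pow p (b : ℤ)
    rw [hjp] at h2
    simpa using h2.symm
  have hp2 : p ≠ 2 := by
    rintro rfl
    omega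
  have hb0' : (b : ZMod p) ≠ 0 := by
    intro h0
    rw [ZMod.natCast_eq_zero_iff] at h0
    exact hps (dvd_mul_of_dvd_right (by rw [hs]; exact dvd_pow h0 (by positivity)) 2)
  have h2h : 2 * (p / 2) = p - 1 := by omega
  have ho1 : orderOf (b : ZMod p) ∣ 2 * (p / 2) := by
    rw [h2h]
    exact orderOf_dvd_of_pow_eq_one (ZMod.pow_card_sub_one_eq_one hb0')
  have ho2 : ¬ orderOf (b : ZMod p) ∣ p / 2 := by
    intro hd
    have h3 := orderOf_dvd_iff_pow_eq_one.1 hd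
    rw [hpow] at h3
    have h4 : (2 : ZMod p) = 0 := by
      have h5 : (2 : ZMod p) = 1 - (-1) := by ring
      rw [h5, h3, sub_self]
    have h6 : ((2 : ℕ) : ZMod p) = 0 := by exact_mod_cast h4
    rw [ZMod.natCast_eq_zero_iff] at h6
    exact hp2 ((Nat.prime_dvd_prime_iff_eq hp Nat.prime_two).1 h6)
  have ho3 : 2 ^ (j + 3) ∣ 2 * (p / 2) := by
    rw [h2h]
    exact (Nat.modEq_iff_dvd' hp.one_lt.le).1 hp2k.symm
  exact ord p s b j hs ((pow_dvd_pow 2 (by omega)).trans (dvd2 _ _ _ ho1 ho2 ho3))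

/-- case 2 -/
theorem case2 (s b j e : ℕ) (hs : s = b ^ 2 ^ j) (he : b = 2 * e ^ 2) (he0 : 0 < e) (p : ℕ)
    (hp : p.Prime) (hpa : p ≡ 1 [MOD 2 ^ (j + 6) * e]) (hps : ¬ p ∣ 2 * s)
    (hx : ¬ ∃ x : ZMod p, x ^ 4 = 2) : Even (orderOf ((s : ZMod p) ^ 2)) := by
  have hp2k : p ≡ 1 [MOD 2 ^ (j + 6)] := hpa.of_mul_right _
  have hpe : p ≡ 1 [MOD e] := hpa.of_mul_left _
  have hp8 : p % 8 = 1 := by
    have h2 : p ≡ 1 [MOD 8] := hp2k.of_dvd (by
      have : (8 : ℕ) = 2 ^ 3 := by norm_num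
      rw [this]
      exact pow_dvd_pow 2 (by omega))
    exact h2
  have hFp : Fact p.Prime := ⟨hp⟩
  have hb0' : (b : ZMod p) ≠ 0 := by
    intro h0
    rw [ZMod.natCast_eq_zero_iff] at h0
    exact hps (dvd_mul_of_dvd_right (by rw [hs]; exact dvd_pow h0 (by positivity)) 2)
  have hje : J((e : ℤ) | p) = 1 := by
    obtain ⟨c, hc, hcodd⟩ : ∃ c : ℕ, e = 2 ^ e.factorization 2 * c ∧ Odd c := by
      refine ⟨e / 2 ^ e.factorization 2, (Nat.ordProj_mul_ordCompl_eq_self e 2).symm, ?_⟩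
      exact Nat.coprime_two_left.1 (Nat.coprime_ordCompl Nat.prime_two he0.ne')
    have hpc : p ≡ 1 [MOD c] := hpe.of_dvd (by rw [hc]; exact dvd_mul_left _ _)
    rw [hc]
    push_cast
    rw [jacobiSym.mul_left, jacobiSym.pow_left, two p hp8, one_pow, one_mul,
      recip p c 1 (by omega) hcodd hpc]
    push_cast
    exact jacobiSym.one_left c
  have hpow : (e : ZMod p) ^ (p / 2) = 1 := by
    rw [← jacobiSym.legendreSym.to_jacobiSym] at hje
    have h2 := legendreSym.eq_pow p (e : ℤ)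
    rw [hje] at h2
    simpa using h2.symm
  obtain ⟨h, hh⟩ : ∃ h : ℕ, p - 1 = 4 * h := ⟨(p - 1) / 4, by omega⟩
  have hp2h : p / 2 = 2 * h := by omega
  have hbh : (b : ZMod p) ^ h = 2 ^ h := by
    rw [he]
    push_cast
    rw [mul_pow, ← pow_mul, ← hp2h, hpow, mul_one]
  have h20 : (2 : ZMod p) ≠ 0 := by
    intro h0
    have h6 : ((2 : ℕ) : ZMod p) = 0 := by exact_mod_cast h0
    rw [ZMod.natCast_eq_zero_iff] at h6
    exact hps (dvd_mul_of_dvd_left h6 s)
  have ho1 : orderOf (b : ZMod p) ∣ 4 * h := by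
    rw [← hh]
    exact orderOf_dvd_of_pow_eq_one (ZMod.pow_card_sub_one_eq_one hb0')
  have ho2 : ¬ orderOf (b : ZMod p) ∣ h := by
    intro hd
    have h3 := orderOf_dvd_iff_pow_eq_one.1 hd
    rw [hbh] at h3
    exact hx (fourth p h hp hh 2 h3 h20)
  have ho3 : 2 ^ (j + 6) ∣ 4 * h := by
    rw [← hh]
    exact (Nat.modEq_iff_dvd' hp.one_lt.le).1 hp2k.symm
  exact ord p s b j hs ((pow_dvd_pow 2 (by omega)).trans (dvd4 _ _ (j + 5) ho1 ho2 ho3))

/-- in the second case `b = 2 e ^ 2` -/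
theorem form (b : ℕ) (hb1 : 1 < b) (hb : ¬ IsSquare b)
    (h : ∀ w : ℕ, w.Prime → w ≠ 2 → Even (b.factorization w)) :
    ∃ e : ℕ, 0 < e ∧ b = 2 * e ^ 2 := by
  have hb0 : b ≠ 0 := by omega
  obtain ⟨c, hc, hcodd⟩ : ∃ c : ℕ, b = 2 ^ b.factorization 2 * c ∧ Odd c := by
    refine ⟨b / 2 ^ b.factorization 2, (Nat.ordProj_mul_ordCompl_eq_self b 2).symm, ?_⟩
    exact Nat.coprime_two_left.1 (Nat.coprime_ordCompl Nat.prime_two hb0)
  have hc0 : c ≠ 0 := by
    rintro rfl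
    exact absurd hcodd (by decide)
  have hcs : IsSquare c := by
    by_contra hcs
    obtain ⟨w, hw, hwo⟩ := odd_exp c hc0 hcs
    have hw0 : c.factorization w ≠ 0 := by
      intro h0
      rw [h0] at hwo
      exact absurd hwo (by decide)
    have hwd : w ∣ c := Nat.dvd_of_factorization_pos hw0
    have hw2 : w ≠ 2 := by
      rintro rfl
      exact absurd (even_iff_two_dvd.2 hwd) (Nat.not_even_iff_odd.2 hcodd)
    have hfc : c.factorization w = b.factorization w := by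
      conv_rhs => rw [hc]
      rw [Nat.factorization_mul (by positivity) hc0, Nat.factorization_pow, Finsupp.add_apply,
        Finsupp.smul_apply, Nat.Prime.factorization Nat.prime_two,
        Finsupp.single_eq_of_ne (by exact hw2)]
      simp
    rw [hfc] at hwo
    exact absurd (h w hw hw2) (Nat.not_even_iff_odd.2 hwo)
  obtain ⟨t, ht⟩ := hcs
  have ht0 : t ≠ 0 := by
    rintro rfl
    exact hc0 ht
  rcases Nat.even_or_odd (b.factorization 2) with h2 | h2
  · exfalso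
    obtain ⟨r, hr⟩ := h2
    apply hb
    refine ⟨2 ^ r * t, ?_⟩
    rw [hc, ht, hr, pow_add]
    ring
  · obtain ⟨r, hr⟩ := h2
    refine ⟨2 ^ r * t, by positivity, ?_⟩
    rw [hr, ht] at hc
    rw [hc, pow_add, pow_mul']
    ring

end DR3

theorem DR3_thm (h1 : Stmt_DR1) (h2 : Stmt_QRT) : Stmt_DR3 := by
  classical
  intro s hs
  have hs0 : 0 < s := by omega
  obtain ⟨b, j, hb, hb1, hbs⟩ := DR3.root s hs
  have key : ∀ p : ℕ, p.Prime → ¬ p ∣ 2 * s → p.Prime ∧ p ≠ 2 ∧ ¬ p ∣ s := by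
    intro p hp hd
    refine ⟨hp, ?_, fun h => hd (dvd_mul_of_dvd_right h 2)⟩
    rintro rfl
    exact hd (dvd_mul_right 2 s)
  refine ⟨{p | (p.Prime ∧ p ≠ 2 ∧ ¬ p ∣ s) ∧ Even (orderOf ((s : ZMod p) ^ 2))},
    fun p hp => hp.1, ?_, fun p hp => hp.2⟩
  by_cases hcase : ∃ w : ℕ, w.Prime ∧ w ≠ 2 ∧ Odd (b.factorization w)
  · obtain ⟨w, hw, hw2, hwo⟩ := hcase
    obtain ⟨m, a, hm, ha, hma⟩ := DR3.case1 s b j w hb hb1 hw hw2 hwo
    exact DR3.trans s hs0 (fun p => p.Prime ∧ p ≡ a [MOD m]) _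
      (fun p hp hd => ⟨key p hp.1 hd, hma p hp.1 hp.2 hd⟩) (h1 m a hm ha)
  · obtain ⟨e, he0, he⟩ := DR3.form b hb1 hbs (fun w hw hw2 => by
      rw [← Nat.not_odd_iff_even]
      exact fun ho => hcase ⟨w, hw, hw2, ho⟩)
    have h3 := h2 (2 ^ (j + 6) * e) (by positivity)
    exact DR3.trans s hs0
      (fun p => p.Prime ∧ p ≡ 1 [MOD 2 ^ (j + 6) * e] ∧ ¬ ∃ x : ZMod p, x ^ 4 = 2) _
      (fun p hp hd => ⟨key p hp.1 hd, DR3.case2 s b j e hb he he0 p hp.1 hp.2.1 hd hp.2.2⟩) h3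

end Pool.Agent.ADG
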