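import Pool.Agent.ADG.St7

/-!
# Module EUL of project ADG, part 7 (MP_43d07b_co): upper bound from the Euler product (helper85)

The proof follows the doc string of `Stmt_EUL`.
-/

set_option autoImplicit false

namespace Pool.Agent.ADG

namespace EULm

open Finset Filter Topology ArithmeticFunction

open scoped ArithmeticFunction.zeta ArithmeticFunction.sigma

/-- the sum of `d(n) n^(-s)` converges -/
lemma summable_div (s : ℝ) (hs : 1 < s) :
    Summable (fun n : ℕ => (n.divisors.card : ℝ) * (n : ℝ) ^ (-s)) := by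
  have hs' : 1 < ((s : ℝ) : ℂ).re := by simpa using hs
  have h1 := LSeriesSummable_zeta_iff.2 hs'
  have h2 := ArithmeticFunction.LSeriesSummable_mul (f := (ζ : ArithmeticFunction ℂ))
    (g := (ζ : ArithmeticFunction ℂ)) (by simpa using h1) (by simpa using h1)
  have h3 : ∀ n : ℕ, ((ζ : ArithmeticFunction ℂ) * (ζ : ArithmeticFunction ℂ)) n =
      (n.divisors.card : ℂ) := by
    intro n
    rw [coe_zeta_mul_apply]
    have h4 : ∀ i ∈ n.divisors, ((ζ : ArithmeticFunction ℂ)) i = 1 := by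
      intro i hi
      rw [natCoe_apply, zeta_apply, if_neg (Nat.pos_of_mem_divisors hi).ne']
      simp
    rw [sum_congr rfl h4]
    simp
  have h5 := h2.norm
  refine h5.congr fun n => ?_
  rw [LSeries.norm_term_eq]
  by_cases hn : n = 0
  · rw [if_pos hn, hn]
    simp
  · rw [if_neg hn, h3, Real.rpow_neg (Nat.cast_nonneg n)]
    simp [div_eq_mul_inv]

/-- one linear factor -/
lemma lin (w : ℂ) (hw : ‖w‖ < 1) : Real.exp (w.re - ‖w‖ ^ 2 / 2) ≤ ‖(1 - w)⁻¹‖ := by
  have h1 : ‖1 - w‖ ^ 2 = 1 - 2 * w.re + ‖w‖ ^ 2 := by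
    rw [← Complex.normSq_eq_norm_sq, ← Complex.normSq_eq_norm_sq, Complex.normSq_sub]
    simp
    ring
  have h2 : 0 < ‖1 - w‖ := by
    rw [norm_pos_iff]
    intro h
    have h3 : w = 1 := (sub_eq_zero.1 h).symm
    rw [h3, norm_one] at hw
    exact lt_irrefl _ hw
  have h3 : ‖1 - w‖ ^ 2 ≤ Real.exp (-(w.re - ‖w‖ ^ 2 / 2)) ^ 2 := by
    rw [← Real.exp_nat_mul, h1]
    have := Real.add_one_le_exp (((2 : ℕ) : ℝ) * -(w.re - ‖w‖ ^ 2 / 2))
    push_cast at this ⊢
    linarith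
  have h4 : ‖1 - w‖ ≤ Real.exp (-(w.re - ‖w‖ ^ 2 / 2)) :=
    (pow_le_pow_iff_left₀ h2.le (Real.exp_pos _).le (by norm_num)).1 h3
  rw [norm_inv, ← neg_neg (w.re - ‖w‖ ^ 2 / 2), Real.exp_neg]
  exact inv_anti₀ h2 h4

/-- the local factor -/
lemma loc (α β : ℂ) (hα : ‖α‖ ≤ 1) (hβ : ‖β‖ ≤ 1) (x : ℝ) (hx0 : 0 ≤ x) (hx : x < 1) :
    Real.exp ((α + β).re * x - x ^ 2) ≤
      ‖∑' e : ℕ, (∑ j ∈ range (e + 1), α ^ j * β ^ (e - j)) * (x : ℂ) ^ e‖ := by
  have hn : ∀ a : ℂ, ‖a‖ ≤ 1 → ‖a * x‖ ≤ x := by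
    intro a ha
    rw [norm_mul, Complex.norm_real, Real.norm_of_nonneg hx0]
    nlinarith
  have ha := hn α hα
  have hb := hn β hβ
  have hsa : Summable fun k : ℕ => ‖(α * x) ^ k‖ :=
    summable_norm_geometric_of_norm_lt_one (ha.trans_lt hx)
  have hsb : Summable fun k : ℕ => ‖(β * x) ^ k‖ :=
    summable_norm_geometric_of_norm_lt_one (hb.trans_lt hx)
  have h1 := tsum_mul_tsum_eq_tsum_sum_range_of_summable_norm hsa hsb
  rw [tsum_geometric_of_norm_lt_one (ha.trans_lt hx),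
    tsum_geometric_of_norm_lt_one (hb.trans_lt hx)] at h1
  have h2 : ∀ e : ℕ, ∑ k ∈ range (e + 1), (α * x) ^ k * (β * x) ^ (e - k) =
      (∑ j ∈ range (e + 1), α ^ j * β ^ (e - j)) * (x : ℂ) ^ e := by
    intro e
    rw [sum_mul]
    refine sum_congr rfl fun j hj => ?_
    rw [mem_range] at hj
    rw [mul_pow, mul_pow]
    have h3 : (x : ℂ) ^ e = (x : ℂ) ^ j * (x : ℂ) ^ (e - j) := by
      rw [← pow_add]
      congr 1
      omega
    rw [h3]
    ring
  simp only [h2] at h1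
  rw [← h1, norm_mul]
  have h3 := lin (α * x) (ha.trans_lt hx)
  have h4 := lin (β * x) (hb.trans_lt hx)
  have h5 : (α * (x : ℂ)).re = α.re * x := by simp
  have h6 : (β * (x : ℂ)).re = β.re * x := by simp
  have h7 : Real.exp ((α + β).re * x - x ^ 2) ≤
      Real.exp ((α * (x : ℂ)).re - ‖α * (x : ℂ)‖ ^ 2 / 2) *
      Real.exp ((β * (x : ℂ)).re - ‖β * (x : ℂ)‖ ^ 2 / 2) := by
    rw [← Real.exp_add, Real.exp_le_exp, h5, h6, Complex.add_re]
    have h8 : ‖α * (x : ℂ)‖ ^ 2 ≤ x ^ 2 := pow_le_pow_left₀ (norm_nonneg _) ha 2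
    have h9 : ‖β * (x : ℂ)‖ ^ 2 ≤ x ^ 2 := pow_le_pow_left₀ (norm_nonneg _) hb 2
    linarith
  exact h7.trans (mul_le_mul h3 h4 (Real.exp_pos _).le (norm_nonneg _))

end EULm

open Finset Filter Topology EULm in
/-- (EUL) -/
theorem EUL_thm : Stmt_EUL := by
  classical
  intro f hf1 hmul hdiv hloc C hC
  have hB : Summable (fun n : ℕ => 1 / (n : ℝ) ^ 2) := Real.summable_one_div_nat_pow.2 (by norm_num)
  refine ⟨Real.log C + ∑' n : ℕ, 1 / (n : ℝ) ^ 2, fun s hs1 hs2 => ?_⟩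
  set B : ℝ := ∑' n : ℕ, 1 / (n : ℝ) ^ 2 with hBdef
  set g : ℕ → ℂ := fun n => f n * (((n : ℝ) ^ (-s) : ℝ) : ℂ) with hg
  have hs0 : -s ≠ 0 := by linarith
  have hg0 : g 0 = 0 := by
    simp only [hg, Nat.cast_zero]
    rw [Real.zero_rpow hs0]
    simp
  have hg1 : g 1 = 1 := by simp [hg, hf1]
  have hgmul : ∀ {m n : ℕ}, m.Coprime n → g (m * n) = g m * g n := by
    intro m n hmn
    simp only [hg]
    rw [hmul m n hmn, Nat.cast_mul, Real.mul_rpow (Nat.cast_nonneg _) (Nat.cast_nonneg _)]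
    push_cast
    ring
  have hgn : ∀ n : ℕ, ‖g n‖ ≤ (n.divisors.card : ℝ) * (n : ℝ) ^ (-s) := by
    intro n
    rcases Nat.eq_zero_or_pos n with hn | hn
    · rw [hn, hg0]
      simp
    · have h0 : 0 ≤ (n : ℝ) ^ (-s) := Real.rpow_nonneg (Nat.cast_nonneg _) _
      simp only [hg]
      rw [norm_mul, Complex.norm_real, Real.norm_of_nonneg h0]
      exact mul_le_mul_of_nonneg_right (hdiv n hn) h0
  have hgsum : Summable (fun n => ‖g n‖) :=
    Summable.of_nonneg_of_le (fun n => norm_nonneg _) hgn (summable_div s hs1)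
  have hprod := EulerProduct.eulerProduct hg1 hgmul hgsum hg0
  -- the values at primes
  set a : ℕ → ℝ := fun p => (f p).re * (p : ℝ) ^ (-s) with ha
  have hfac : ∀ p : ℕ, p.Prime →
      Real.exp (a p - 1 / (p : ℝ) ^ 2) ≤ ‖∑' e : ℕ, g (p ^ e)‖ := by
    intro p hp
    obtain ⟨α, β, hα, hβ, h⟩ := hloc p hp
    have hp0 : (0 : ℝ) < p := by exact_mod_cast hp.pos
    have hp1 : (1 : ℝ) < p := by exact_mod_cast hp.one_lt
    set x : ℝ := (p : ℝ) ^ (-s) with hx
    have hx0 : 0 < x := Real.rpow_pos_of_pos hp0 _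
    have hxle : x ≤ (p : ℝ)⁻¹ := by
      rw [hx, ← Real.rpow_neg_one]
      exact Real.rpow_le_rpow_of_exponent_le hp1.le (by linarith)
    have hxlt : x < 1 := hxle.trans_lt (inv_lt_one_of_one_lt₀ hp1)
    have h1 := loc α β hα hβ x hx0.le hxlt
    have h2 : ∀ e : ℕ, g (p ^ e) =
        (∑ j ∈ range (e + 1), α ^ j * β ^ (e - j)) * (x : ℂ) ^ e := by
      intro e
      simp only [hg]
      rw [h e]
      congr 1
      have h3 : (((p ^ e : ℕ) : ℝ)) ^ (-s) = x ^ e := by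
        rw [hx, ← Real.rpow_natCast, ← Real.rpow_mul hp0.le, mul_comm, Real.rpow_mul hp0.le,
          Real.rpow_natCast]
        push_cast
        rfl
      rw [h3]
      push_cast
      rfl
    simp only [h2]
    refine le_trans ?_ h1
    rw [Real.exp_le_exp]
    have h4 : f p = α + β := by
      have := h 1
      rw [pow_one, sum_range_succ, sum_range_one] at this
      simp only [pow_zero, one_mul, Nat.sub_zero, pow_one, Nat.sub_self, mul_one] at this
      rw [this]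
      ring
    have h5 : x ^ 2 ≤ 1 / (p : ℝ) ^ 2 := by
      calc x ^ 2 ≤ ((p : ℝ)⁻¹) ^ 2 := pow_le_pow_left₀ hx0.le hxle 2
        _ = _ := by rw [inv_pow, one_div]
    simp only [ha]
    rw [h4]
    linarith
  -- finite products
  have hpart : ∀ n : ℕ, Real.exp (∑ p ∈ Nat.primesBelow n, a p - B) ≤
      ‖∏ p ∈ Nat.primesBelow n, ∑' e : ℕ, g (p ^ e)‖ := by
    intro n
    rw [norm_prod]
    have h1 : ∏ p ∈ Nat.primesBelow n, Real.exp (a p - 1 / (p : ℝ) ^ 2) ≤
        ∏ p ∈ Nat.primesBelow n, ‖∑' e : ℕ, g (p ^ e)‖ :=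
      prod_le_prod (fun p _ => (Real.exp_pos _).le)
        (fun p hp => hfac p (Nat.prime_of_mem_primesBelow hp))
    refine le_trans ?_ h1
    rw [← Real.exp_sum, Real.exp_le_exp, sum_sub_distrib]
    have h2 : ∑ p ∈ Nat.primesBelow n, 1 / (p : ℝ) ^ 2 ≤ B :=
      hB.sum_le_tsum _ (fun p _ => by positivity)
    linarith
  -- the sum over the primes
  have hasum : Summable (fun p : Nat.Primes => a p) := by
    have h1 : Summable (fun p : Nat.Primes => 2 * ((p : ℕ) : ℝ) ^ (-s)) :=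
      (Nat.Primes.summable_rpow.2 (by linarith)).mul_left 2
    refine Summable.of_norm_bounded h1 fun p => ?_
    simp only [ha]
    have h0 : 0 ≤ ((p : ℕ) : ℝ) ^ (-s) := Real.rpow_nonneg (Nat.cast_nonneg _) _
    rw [norm_mul, Real.norm_of_nonneg h0]
    apply mul_le_mul_of_nonneg_right _ h0
    refine (Complex.abs_re_le_norm _).trans ((hdiv p p.2.one_lt.le).trans ?_)
    rw [Nat.Prime.divisors p.2, card_pair p.2.one_lt.ne]
    norm_num
  have hlim : Tendsto (fun n : ℕ => ∑ p ∈ Nat.primesBelow n, a p) atTop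
      (𝓝 (∑' p : Nat.Primes, a p)) := by
    have h1 := hasum.hasSum
    have h2 : HasSum (Set.indicator {p : ℕ | p.Prime} a) (∑' p : Nat.Primes, a p) :=
      hasSum_subtype_iff_indicator.1 h1
    have h3 := h2.tendsto_sum_nat
    refine h3.congr fun n => ?_
    rw [Nat.primesBelow, sum_filter]
    exact sum_congr rfl fun p _ => by
      rw [Set.indicator_apply]
      rfl
  have h1 : Real.exp (∑' p : Nat.Primes, a p - B) ≤ ‖∑' n, g n‖ := by
    refine le_of_tendsto_of_tendsto' ?_ hprod.norm hpart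
    exact (Real.continuous_exp.tendsto _).comp (hlim.sub_const B)
  have h2 : Real.exp (∑' p : Nat.Primes, a p - B) ≤ C := h1.trans (hC s hs1 hs2)
  have hC0 : 0 < C := lt_of_lt_of_le (Real.exp_pos _) h2
  have h3 := (Real.le_log_iff_exp_le hC0).2 h2
  have h4 : ∑' p : Nat.Primes, (f p).re * ((p : ℕ) : ℝ) ^ (-s) = ∑' p : Nat.Primes, a p := rfl
  rw [h4]
  linarith

end Pool.Agent.ADG
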