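import Pool.Agent.ADG.St7

/-!
# Project ADG, part 7, module FE1 (helper9)

The numbers `n = q s^2` with a fixed `s > 1` which satisfy the odd order condition.
-/

set_option autoImplicit false

namespace Pool.Agent.ADG

open Finset Pool.Agent.ADS

/-- `q s^2 = 1` modulo `p`: `q` has the order of `s^2` -/
theorem fe1_order {p q s : ℕ} (h : q * s ^ 2 ≡ 1 [MOD p]) :
    orderOf (q : ZMod p) = orderOf ((s : ZMod p) ^ 2) := by
  have h1 : (q : ZMod p) * (s : ZMod p) ^ 2 = 1 := by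
    have h2 := (ZMod.natCast_eq_natCast_iff (q * s ^ 2) 1 p).mpr h
    push_cast at h2
    exact h2
  have h2 : (s : ZMod p) ^ 2 * (q : ZMod p) = 1 := by rw [mul_comm]; exact h1
  let u : (ZMod p)ˣ := ⟨(q : ZMod p), (s : ZMod p) ^ 2, h1, h2⟩
  have h3 : (u : ZMod p) = (q : ZMod p) := rfl
  have h4 : ((u⁻¹ : (ZMod p)ˣ) : ZMod p) = (s : ZMod p) ^ 2 := rfl
  rw [← h3, ← h4, orderOf_units, orderOf_units, orderOf_inv]

open Classical in
/-- Module FE1. -/
theorem FE1_thm (h1 : Stmt_DR3) (h2 : Stmt_GEN) : Stmt_FE1 := by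
  intro s hs ε hε
  have hA0 : 0 < s ^ 2 := by positivity
  obtain ⟨S, hS1, hS2, hS3⟩ := h1 s hs
  obtain ⟨X₁, hX₁⟩ := h2 (s ^ 2) S hA0
    (by
      intro p hpS
      obtain ⟨ha, hb, hc⟩ := hS1 p hpS
      exact ⟨ha, hb, fun h3 => hc (ha.dvd_of_dvd_pow h3)⟩) hS2 ε hε
  refine ⟨X₁, fun X hX => le_trans ?_ (hX₁ X hX)⟩
  have hsub : ((Icc 2 X).filter (fun n => (∃ q : ℕ, q.Prime ∧ n = q * s ^ 2) ∧ OddCond n)) ⊆
      ((Icc 2 X).filter (fun n => (∃ q : ℕ, q.Prime ∧ n = s ^ 2 * q) ∧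
        ∀ p ∈ S, (n - 1).factorization p ≠ 1)) := by
    intro n hn
    obtain ⟨hn1, ⟨q, hq, hnq⟩, hct⟩ := Finset.mem_filter.mp hn
    have hn2 : 2 ≤ n := (Finset.mem_Icc.mp hn1).1
    rw [Finset.mem_filter]
    refine ⟨hn1, ⟨q, hq, by rw [hnq, mul_comm]⟩, ?_⟩
    intro p hpS hf
    obtain ⟨hpp, -, -⟩ := hS1 p hpS
    have hpd : p ∣ n - 1 := by
      apply Nat.dvd_of_factorization_pos
      rw [hf]; exact one_ne_zero
    have hmod : q * s ^ 2 ≡ 1 [MOD p] := by
      rw [← hnq]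
      exact ((Nat.modEq_iff_dvd' (by omega)).mpr hpd).symm
    have hodd : Odd (n.factorization q) := by
      rw [hnq, Nat.factorization_mul hq.ne_zero (by positivity), Finsupp.add_apply,
        hq.factorization_self, Nat.factorization_pow, Finsupp.smul_apply, smul_eq_mul]
      exact ⟨s.factorization q, by ring⟩
    have hord := hct q p hq hpp hodd hpd
    rw [fe1_order hmod] at hord
    exact (Nat.not_even_iff_odd.mpr hord) (hS3 p hpS)
  exact_mod_cast Finset.card_le_card hsub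

end Pool.Agent.ADG
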