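import Pool.Agent.ADG.St7
import Pool.Agent.ADG.FX2

/-! (FE2) The numbers `n = 2 q s^2` (module of project ADG, part 7) (helper96, after FX2.lean). -/

set_option autoImplicit false

namespace Pool.Agent.ADG

open Finset Pool.Agent.ADS

namespace FE2m

theorem key {s q p n : ℕ} (hs : 0 < s) (hq : q.Prime) (hq2 : q ≠ 2) (hn : n = 2 * q * s ^ 2)
    (hR : OddCond n) (hp : p ∈ FX2.S s) (hf : (n - 1).factorization p = 1) : False := by
  obtain ⟨hpp, hp8, -⟩ := hp
  have hp8' : p % 8 = 3 := hp8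
  have hp2 : p ≠ 2 := by
    rintro rfl
    omega
  have : Fact p.Prime := ⟨hpp⟩
  have hodd : Odd (n.factorization 2) := by
    have h1 : n.factorization 2 = 1 + 2 * s.factorization 2 := by
      rw [hn, Nat.factorization_mul (mul_ne_zero two_ne_zero hq.ne_zero) (pow_ne_zero 2 hs.ne'),
        Nat.factorization_mul two_ne_zero hq.ne_zero, Nat.factorization_pow]
      simp only [Finsupp.add_apply, Finsupp.smul_apply, smul_eq_mul]
      rw [Nat.Prime.factorization_self Nat.prime_two, Nat.Prime.factorization hq,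
        Finsupp.single_eq_of_ne (Ne.symm hq2)]
      omega
    rw [h1]
    exact ⟨s.factorization 2, by ring⟩
  have hdvd : p ∣ n - 1 := by
    by_contra h0
    rw [Nat.factorization_eq_zero_of_not_dvd h0] at hf
    omega
  obtain ⟨k, hk⟩ := hR 2 p Nat.prime_two hpp hodd hdvd
  have h6 : IsSquare (2 : ZMod p) := by
    refine ⟨(2 : ZMod p) ^ (k + 1), ?_⟩
    have h7 : ((2 : ℕ) : ZMod p) ^ (2 * k + 1) = 1 := by
      rw [← hk]
      exact pow_orderOf_eq_one _
    push_cast at h7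
    calc (2 : ZMod p) = 2 ^ (2 * k + 1) * 2 := by rw [h7, one_mul]
      _ = 2 ^ (k + 1) * 2 ^ (k + 1) := by rw [← pow_succ, ← pow_add]; congr 1; ring
  rcases (ZMod.exists_sq_eq_two_iff hp2).1 h6 with h7 | h7 <;> omega

end FE2m

open FX2 in
open Classical in
/-- (FE2) `n = 2 q s^2`, `s` fixed. -/
theorem FE2_thm (hDR1 : Stmt_DR1) (hGEN : Stmt_GEN) : Stmt_FE2 := by
  intro s hs ε hε
  have hs0 : 0 < s := hs
  obtain ⟨X₀, hX₀⟩ := hGEN (2 * s ^ 2) (S s) (by positivity)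
    (fun p hp => by
      obtain ⟨hpp, hp8, hps⟩ := hp
      have hp8' : p % 8 = 3 := hp8
      have hp2 : p ≠ 2 := by
        rintro rfl
        omega
      refine ⟨hpp, hp2, fun h0 => ?_⟩
      rcases hpp.dvd_mul.1 h0 with h1 | h1
      · exact hp2 ((Nat.prime_dvd_prime_iff_eq hpp Nat.prime_two).1 h1)
      · exact hps (hpp.dvd_of_dvd_pow h1))
    (not_summable hDR1 hs0) (ε / 2) (by linarith)
  obtain ⟨X₁, hX₁⟩ := ev (ε / 2) (by linarith)
  refine ⟨max X₀ (max X₁ 2), fun X hX => ?_⟩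
  have hX0 : X₀ ≤ X := le_trans (le_max_left _ _) hX
  have hX1 : X₁ ≤ X := le_trans (le_trans (le_max_left _ _) (le_max_right _ _)) hX
  have hX2 : 2 ≤ X := le_trans (le_trans (le_max_right _ _) (le_max_right _ _)) hX
  have h1 := hX₀ X hX0
  have h2 := hX₁ X hX1 hX2
  have hsub : (Icc 2 X).filter (fun n => (∃ q : ℕ, q.Prime ∧ n = 2 * q * s ^ 2) ∧ OddCond n) ⊆
      insert (4 * s ^ 2) ((Icc 2 X).filter (fun n => (∃ q : ℕ, q.Prime ∧ n = 2 * s ^ 2 * q) ∧
        ∀ p ∈ S s, (n - 1).factorization p ≠ 1)) := by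
    intro n hn
    rw [mem_filter] at hn
    obtain ⟨hn1, ⟨q, hq, hnq⟩, hR⟩ := hn
    rw [mem_insert]
    by_cases hq2 : q = 2
    · left
      rw [hnq, hq2]
    · right
      rw [mem_filter]
      exact ⟨hn1, ⟨q, hq, by rw [hnq]; ring⟩, fun p hp hf => FE2m.key hs0 hq hq2 hnq hR hp hf⟩
  have h3 := (card_le_card hsub).trans (card_insert_le _ _)
  have h4 : ((((Icc 2 X).filter (fun n => (∃ q : ℕ, q.Prime ∧ n = 2 * q * s ^ 2) ∧
      OddCond n)).card : ℕ) : ℝ) ≤ (((Icc 2 X).filter (fun n => (∃ q : ℕ, q.Prime ∧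
        n = 2 * s ^ 2 * q) ∧ ∀ p ∈ S s, (n - 1).factorization p ≠ 1)).card : ℝ) + 1 := by
    exact_mod_cast h3
  have h5 : ε * X / Real.log X = ε / 2 * X / Real.log X + ε / 2 * X / Real.log X := by ring
  rw [h5]
  linarith

end Pool.Agent.ADG
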