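import Pool.Agent.ADG.St7
import Pool.Agent.ADS.EVA

/-!
# ADG, module FIN7 (helper96): assembly of part 7
-/

set_option autoImplicit false

namespace Pool.Agent.ADG

open Finset Pool.Agent.ADS

theorem FIN7.small (C ε : ℝ) (hε : 0 < ε) : ∃ x₁ : ℝ, 2 ≤ x₁ ∧ ∀ x : ℝ, x₁ ≤ x →
    C * x / (Real.log x) ^ (16 / 15 : ℝ) ≤ ε * x / Real.log x := by
  set B : ℝ := (|C| + 1) / ε with hB
  have hB0 : 0 < B := by positivity
  refine ⟨max 2 (Real.exp (B ^ (15 : ℝ))), le_max_left _ _, fun x hx => ?_⟩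
  have hx2 : 2 ≤ x := (le_max_left _ _).trans hx
  have hx0 : 0 < x := by linarith
  have hlx : 0 < Real.log x := Real.log_pos (by linarith)
  have h1 : B ^ (15 : ℝ) ≤ Real.log x := by
    rw [Real.le_log_iff_exp_le hx0]
    exact (le_max_right _ _).trans hx
  have h2 : B ≤ (Real.log x) ^ (1 / 15 : ℝ) := by
    have h3 := Real.rpow_le_rpow (by positivity) h1 (show (0 : ℝ) ≤ 1 / 15 by norm_num)
    rw [← Real.rpow_mul hB0.le] at h3
    norm_num at h3 ⊢
    exact h3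
  have h4 : (Real.log x) ^ (16 / 15 : ℝ) = (Real.log x) ^ (1 / 15 : ℝ) * Real.log x := by
    rw [show (16 / 15 : ℝ) = 1 / 15 + 1 by norm_num, Real.rpow_add hlx, Real.rpow_one]
  rw [h4, div_le_div_iff₀ (by positivity) hlx]
  have h5 : C ≤ ε * (Real.log x) ^ (1 / 15 : ℝ) := by
    have h6 : ε * B = |C| + 1 := by
      rw [hB]
      field_simp
    have h7 : ε * B ≤ ε * (Real.log x) ^ (1 / 15 : ℝ) := mul_le_mul_of_nonneg_left h2 hε.le
    have h8 := le_abs_self C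
    linarith
  calc C * x * Real.log x ≤ (ε * (Real.log x) ^ (1 / 15 : ℝ)) * x * Real.log x := by
        gcongr
    _ = ε * x * ((Real.log x) ^ (1 / 15 : ℝ) * Real.log x) := by ring

theorem FIN7_thm (h1 : MainStatement6) (h2 : Stmt_SM7) (h3 : Stmt_SM8) : MainStatement7 := by
  classical
  intro ε hε
  obtain ⟨x₂, hx₂⟩ := h1 (ε / 4) (by positivity)
  obtain ⟨C, hC0, hC⟩ := h2
  obtain ⟨x₁, hx₁, hsm⟩ := FIN7.small C (ε / 8) (by positivity)
  obtain ⟨X₀, hX₀⟩ := h3 (ε / 8) (by positivity)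
  refine ⟨max (max x₁ x₂) (max (X₀ + 1) (x₁ + 1)), fun x hx => ?_⟩
  have hx1 : x₁ ≤ x := (le_max_left _ _).trans ((le_max_left _ _).trans hx)
  have hx12 : x₂ ≤ x := (le_max_right _ _).trans ((le_max_left _ _).trans hx)
  have hxX0 : (X₀ : ℝ) + 1 ≤ x := (le_max_left _ _).trans ((le_max_right _ _).trans hx)
  have hxx1 : x₁ + 1 ≤ x := (le_max_right _ _).trans ((le_max_right _ _).trans hx)
  have hx2 : 2 ≤ x := hx₁.trans hx1
  have hx0 : (0 : ℝ) ≤ x := by linarith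
  set X := ⌊x⌋₊ with hX
  have hX2 : 2 ≤ X := Nat.le_floor (by exact_mod_cast hx2)
  have hXX : X₀ ≤ X := Nat.le_floor (by linarith)
  have hXx : (X : ℝ) ≤ x := Nat.floor_le hx0
  have hxX : x < X + 1 := Nat.lt_floor_add_one x
  have hX2' : (2 : ℝ) ≤ X := by exact_mod_cast hX2
  have hlX : 0 < Real.log X := Real.log_pos (by linarith)
  have hlx : 0 < Real.log x := Real.log_pos (by linarith)
  set S0 : Set ℕ := {n : ℕ | (n : ℝ) ≤ x ∧ n % 4 ≠ 0 ∧ AnyOrder n ∧ ¬ n.Prime} with hS0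
  set S7 : Finset ℕ :=
    (Icc 2 X).filter (fun n => Even n ∧ SqCond n ∧ ¬ (n - 1).Prime ∧ ¬ Form5 n) with hS7
  set S8 : Finset ℕ := (Icc 2 X).filter (fun n => 4 ∣ n ∧ OddCond n ∧ Form5 n) with hS8
  have hfin0 : S0.Finite := by
    refine (Finset.finite_toSet (Finset.range (X + 1))).subset ?_
    intro n hn
    have h1 : n ≤ X := Nat.le_floor hn.1
    rw [Finset.mem_coe, Finset.mem_range]
    omega
  have hsub : {n : ℕ | (n : ℝ) ≤ x ∧ Order7 n ∧ ¬ n.Prime ∧ ¬ (4 ∣ n ∧ (n - 1).Prime)} ⊆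
      S0 ∪ ((S7 ∪ S8 : Finset ℕ) : Set ℕ) := by
    rintro n ⟨hnx, ⟨G, iG, N, D, hD, hsol⟩, hnp, hn1⟩
    have h7 : n ≤ X := Nat.le_floor hnx
    by_cases h4 : 4 ∣ n
    · refine Or.inr ?_
      have hev : Even n := even_iff_two_dvd.2 (dvd_trans (by norm_num) h4)
      have hSO : SolvOrder n := ⟨G, iG, hsol h4, N, D, hD⟩
      obtain ⟨hOC, hSC⟩ := EVA_thm n hev hSO
      rw [Finset.coe_union]
      by_cases hf : Form5 n
      · refine Or.inr ?_
        rw [Finset.mem_coe, hS8, Finset.mem_filter, Finset.mem_Icc]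
        exact ⟨⟨hD.two_le, h7⟩, h4, hOC, hf⟩
      · refine Or.inl ?_
        rw [Finset.mem_coe, hS7, Finset.mem_filter, Finset.mem_Icc]
        exact ⟨⟨hD.two_le, h7⟩, hev, hSC, fun h => hn1 ⟨h4, h⟩, hf⟩
    · refine Or.inl ⟨hnx, ?_, ⟨G, iG, N, D, hD⟩, hnp⟩
      omega
  have hcard : ({n : ℕ | (n : ℝ) ≤ x ∧ Order7 n ∧ ¬ n.Prime ∧ ¬ (4 ∣ n ∧ (n - 1).Prime)}.ncard : ℝ) ≤
      (S0.ncard : ℝ) + ((S7.card : ℝ) + (S8.card : ℝ)) := by
    have e1 : {n : ℕ | (n : ℝ) ≤ x ∧ Order7 n ∧ ¬ n.Prime ∧ ¬ (4 ∣ n ∧ (n - 1).Prime)}.ncard ≤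
        S0.ncard + (S7.card + S8.card) := by
      refine (Set.ncard_le_ncard hsub (hfin0.union (Finset.finite_toSet _))).trans ?_
      refine (Set.ncard_union_le _ _).trans ?_
      rw [Set.ncard_coe_finset]
      exact Nat.add_le_add_left (Finset.card_union_le _ _) _
    exact_mod_cast e1
  have hlog : Real.log x ≤ 2 * Real.log X := by
    have h6 : x ≤ (X : ℝ) ^ 2 := by nlinarith
    have h7 := Real.log_le_log (by linarith) h6
    rw [Real.log_pow] at h7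
    exact_mod_cast h7
  have hXb : ε / 8 * X / Real.log X ≤ ε / 4 * x / Real.log x := by
    rw [div_le_div_iff₀ hlX hlx]
    calc ε / 8 * X * Real.log x ≤ ε / 8 * x * (2 * Real.log X) := by
          refine mul_le_mul (mul_le_mul_of_nonneg_left hXx (by positivity)) hlog hlx.le
            (by positivity)
      _ = ε / 4 * x * Real.log X := by ring
  have hb0 : (S0.ncard : ℝ) ≤ ε / 4 * x / Real.log x := hx₂ x hx12
  have hb7 : (S7.card : ℝ) ≤ ε / 4 * x / Real.log x :=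
    (hC X hX2).trans ((hsm X (by linarith)).trans hXb)
  have hb8 : (S8.card : ℝ) ≤ ε / 4 * x / Real.log x := (hX₀ X hXX).trans hXb
  have hpos : 0 ≤ ε / 4 * x / Real.log x := by positivity
  calc ({n : ℕ | (n : ℝ) ≤ x ∧ Order7 n ∧ ¬ n.Prime ∧ ¬ (4 ∣ n ∧ (n - 1).Prime)}.ncard : ℝ)
      ≤ (S0.ncard : ℝ) + ((S7.card : ℝ) + (S8.card : ℝ)) := hcard
    _ ≤ ε / 4 * x / Real.log x + (ε / 4 * x / Real.log x + ε / 4 * x / Real.log x) := by
        linarith
    _ ≤ ε * x / Real.log x := by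
        have : ε * x / Real.log x = 4 * (ε / 4 * x / Real.log x) := by ring
        rw [this]
        linarith

end Pool.Agent.ADG
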