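import Pool.Agent.ADG.St7

/-!
# ADG, module LBD (helper33): the twisted sums of the quartic symbol of `2` are bounded
-/

set_option autoImplicit false

namespace Pool.Agent.ADG

open Finset

namespace LBD

theorem sum_range_zmod (m : ℕ) [NeZero m] (g : ℕ → ℂ) :
    ∑ i ∈ range m, g i = ∑ u : ZMod m, g u.val := by
  refine Finset.sum_nbij' (fun i => (i : ZMod m)) (fun u => u.val) ?_ ?_ ?_ ?_ ?_
  · intro i _
    exact Finset.mem_univ _
  · intro u _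
    exact Finset.mem_range.2 (ZMod.val_lt u)
  · intro i hi
    exact ZMod.val_natCast_of_lt (Finset.mem_range.1 hi)
  · intro u _
    exact ZMod.natCast_zmod_val u
  · intro i hi
    rw [ZMod.val_natCast_of_lt (Finset.mem_range.1 hi)]

/-- a function with two periods `m` depends only on the residue classes -/
theorem per_cast (m : ℕ) [NeZero m] (F : ℤ → ℤ → ℂ)
    (h : ∀ a b, F (a + m) b = F a b ∧ F a (b + m) = F a b) (a b : ℤ) :
    F (((a : ZMod m).val : ℕ) : ℤ) (((b : ZMod m).val : ℕ) : ℤ) = F a b := by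
  have h1 : ∀ b, Function.Periodic (fun a => F a b) (m : ℤ) := fun b a => (h a b).1
  have h2 : ∀ a, Function.Periodic (fun b => F a b) (m : ℤ) := fun a b => (h a b).2
  have e1 : ∀ c : ℤ, ∃ k : ℤ, c = (((c : ZMod m).val : ℕ) : ℤ) + k * m := by
    intro c
    have h3 : ((((c : ZMod m).val : ℕ) : ℤ) : ZMod m) = ((c : ℤ) : ZMod m) := by
      push_cast
      exact ZMod.natCast_zmod_val _
    rw [ZMod.intCast_eq_intCast_iff_dvd_sub] at h3
    obtain ⟨k, hk⟩ := h3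
    exact ⟨k, by linarith⟩
  obtain ⟨k, hk⟩ := e1 a
  obtain ⟨l, hl⟩ := e1 b
  have h3 : F a b = F (((a : ZMod m).val : ℕ) : ℤ) b := by
    conv_lhs => rw [hk]
    exact ((h1 b).int_mul k) _
  have h4 : F (((a : ZMod m).val : ℕ) : ℤ) b =
      F (((a : ZMod m).val : ℕ) : ℤ) (((b : ZMod m).val : ℕ) : ℤ) := by
    conv_lhs => rw [hl]
    exact ((h2 _).int_mul l) _
  rw [h3, h4]

/-- the sum over a period is `0` if multiplication by `c + d i`, of norm `1`, changes the sign -/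
theorem sum_zero (m : ℕ) [NeZero m] (F : ℤ → ℤ → ℂ)
    (h : ∀ a b, F (a + m) b = F a b ∧ F a (b + m) = F a b) (c d : ℤ)
    (hcd : ((c ^ 2 + d ^ 2 : ℤ) : ZMod m) = 1)
    (hF : ∀ a b, F (c * a - d * b) (d * a + c * b) = -F a b) :
    ∑ i ∈ range m, ∑ j ∈ range m, F i j = 0 := by
  have hcd' : (c : ZMod m) ^ 2 + (d : ZMod m) ^ 2 = 1 := by
    rw [← hcd]
    push_cast
    ring
  let G : ZMod m × ZMod m → ℂ := fun p => F ((p.1.val : ℕ) : ℤ) ((p.2.val : ℕ) : ℤ)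
  have e1 : ∑ i ∈ range m, ∑ j ∈ range m, F i j = ∑ p : ZMod m × ZMod m, G p := by
    rw [sum_range_zmod m (fun i => ∑ j ∈ range m, F i j), Fintype.sum_prod_type]
    refine Finset.sum_congr rfl fun u _ => ?_
    rw [sum_range_zmod m (fun j => F (u.val : ℕ) j)]
  let E : ZMod m × ZMod m ≃ ZMod m × ZMod m :=
    { toFun := fun p => (c * p.1 - d * p.2, d * p.1 + c * p.2)
      invFun := fun p => (c * p.1 + d * p.2, -d * p.1 + c * p.2)
      left_inv := by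
        rintro ⟨u, v⟩
        refine Prod.ext ?_ ?_
        · change (c : ZMod m) * (c * u - d * v) + d * (d * u + c * v) = u
          linear_combination u * hcd'
        · change -(d : ZMod m) * (c * u - d * v) + c * (d * u + c * v) = v
          linear_combination v * hcd'
      right_inv := by
        rintro ⟨u, v⟩
        refine Prod.ext ?_ ?_
        · change (c : ZMod m) * (c * u + d * v) - d * (-d * u + c * v) = u
          linear_combination u * hcd'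
        · change (d : ZMod m) * (c * u + d * v) + c * (-d * u + c * v) = v
          linear_combination v * hcd' }
  have e2 : ∑ p : ZMod m × ZMod m, G p = ∑ p : ZMod m × ZMod m, G (E p) := (E.sum_comp G).symm
  have e3 : ∀ p : ZMod m × ZMod m, G (E p) = -G p := by
    rintro ⟨u, v⟩
    have h1 : (((u.val : ℕ) : ℤ) : ZMod m) = u := by
      push_cast
      exact ZMod.natCast_zmod_val u
    have h2 : (((v.val : ℕ) : ℤ) : ZMod m) = v := by
      push_cast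
      exact ZMod.natCast_zmod_val v
    have h3 : E (u, v) = (((c * (u.val : ℕ) - d * (v.val : ℕ) : ℤ) : ZMod m),
        ((d * (u.val : ℕ) + c * (v.val : ℕ) : ℤ) : ZMod m)) := by
      refine Prod.ext ?_ ?_
      · change (c : ZMod m) * u - d * v = _
        rw [Int.cast_sub, Int.cast_mul, Int.cast_mul, h1, h2]
      · change (d : ZMod m) * u + c * v = _
        rw [Int.cast_add, Int.cast_mul, Int.cast_mul, h1, h2]
    rw [h3]
    change F _ _ = -F _ _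
    rw [per_cast m F h, hF]
  rw [e1]
  have e4 : ∑ p : ZMod m × ZMod m, G p = -∑ p : ZMod m × ZMod m, G p := by
    conv_lhs => rw [e2]
    rw [Finset.sum_congr rfl fun p _ => e3 p, Finset.sum_neg_distrib]
  exact self_eq_neg.1 e4

/-- the element `t γ²` -/
theorem exists_gamma (h : Stmt_RHO) (M : ℕ) (hM : M ≠ 0) : ∃ g : GaussianInt,
    rho g = -1 ∧ ((g.re ^ 2 + g.im ^ 2 : ℤ) : ZMod (8 * M)) = 1 := by
  obtain ⟨hmul, -, -, -, -, -, -, -, hodd, h4⟩ := h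
  obtain ⟨k, M1, hM1, hk⟩ := Nat.exists_eq_two_pow_mul_odd hM
  have hcop : Nat.Coprime (1 + 4 * M1 ^ 2) (8 * M) := by
    rw [hk, show 8 * (2 ^ k * M1) = 2 ^ (k + 3) * M1 by ring]
    refine Nat.Coprime.mul_right ?_ ?_
    · refine Nat.Coprime.pow_right _ ?_
      rw [Nat.coprime_two_right]
      exact ⟨2 * M1 ^ 2, by ring⟩
    · rw [show 1 + 4 * M1 ^ 2 = 1 + M1 * (4 * M1) by ring]
      simp
  set N : ℕ := 1 + 4 * M1 ^ 2 with hN
  have h1 : (N : ZMod (8 * M)) * (N : ZMod (8 * M))⁻¹ = 1 := ZMod.coe_mul_inv_eq_one N hcop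
  have : NeZero (8 * M) := ⟨by omega⟩
  set t : ℕ := ((N : ZMod (8 * M))⁻¹).val with ht
  have h2 : (N : ZMod (8 * M)) * (t : ZMod (8 * M)) = 1 := by
    rw [ht, ZMod.natCast_zmod_val]
    exact h1
  have h3 : N * t ≡ 1 [MOD 8 * M] := by
    rw [← ZMod.natCast_eq_natCast_iff]
    push_cast
    exact h2
  have h5 : t % 2 = 1 := by
    have h6 : N * t ≡ 1 [MOD 2] := h3.of_dvd (by omega)
    have h7 : N * t % 2 = 1 := h6
    rw [Nat.mul_mod] at h7
    rcases Nat.mod_two_eq_zero_or_one t with h8 | h8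
    · rw [h8] at h7
      simp at h7
    · exact h8
  let γ : GaussianInt := ⟨1, 2 * (M1 : ℤ)⟩
  have hγ : rho γ ^ 2 = -1 := by
    apply h4 1 (2 * (M1 : ℤ)) rfl
    obtain ⟨r, hr⟩ := hM1
    omega
  have ht1 : rho (((t : ℤ) : GaussianInt)) = 1 := hodd (t : ℤ) (by omega)
  refine ⟨((t : ℤ) : GaussianInt) * (γ * γ), ?_, ?_⟩
  · rw [hmul, hmul, ht1, one_mul, ← pow_two, hγ]
  · have e1 : (((t : ℤ) : GaussianInt) * (γ * γ)).re ^ 2 +
        (((t : ℤ) : GaussianInt) * (γ * γ)).im ^ 2 = ((N : ℤ) * t) ^ 2 := by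
      have g1 : (γ * γ).re = 1 - 4 * (M1 : ℤ) ^ 2 := by
        rw [Zsqrtd.re_mul]
        simp only [γ]
        ring
      have g2 : (γ * γ).im = 4 * (M1 : ℤ) := by
        rw [Zsqrtd.im_mul]
        simp only [γ]
        ring
      have g3 : (((t : ℤ) : GaussianInt) * (γ * γ)).re = t * (1 - 4 * (M1 : ℤ) ^ 2) := by
        rw [Zsqrtd.re_mul, g1, g2, Zsqrtd.re_intCast, Zsqrtd.im_intCast]
        ring
      have g4 : (((t : ℤ) : GaussianInt) * (γ * γ)).im = t * (4 * (M1 : ℤ)) := by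
        rw [Zsqrtd.im_mul, g1, g2, Zsqrtd.re_intCast, Zsqrtd.im_intCast]
        ring
      rw [g3, g4, hN]
      push_cast
      ring
    rw [e1]
    have e2 : (((N : ℤ) * t : ℤ) : ZMod (8 * M)) = 1 := by
      push_cast
      exact h2
    rw [Int.cast_pow, e2, one_pow]

section Sum

variable (M : ℕ) [NeZero M] (ψ : DirichletCharacter ℂ M)

/-- the function summed over the lattice -/
noncomputable def FF (a b : ℤ) : ℂ := rho ⟨a, b⟩ * ψ ((a ^ 2 + b ^ 2 : ℤ) : ZMod M)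

omit [NeZero M] in
theorem FF_per (h : Stmt_RHO) (a b : ℤ) :
    FF M ψ (a + (8 * M : ℕ)) b = FF M ψ a b ∧ FF M ψ a (b + (8 * M : ℕ)) = FF M ψ a b := by
  obtain ⟨-, -, -, -, -, -, -, h8, -, -⟩ := h
  have hM : ((M : ℕ) : ZMod M) = 0 := ZMod.natCast_self M
  constructor
  · unfold FF
    have e1 : (⟨a + (8 * M : ℕ), b⟩ : GaussianInt) = ⟨a, b⟩ + 8 * ⟨(M : ℤ), 0⟩ := by
      ext
      · simp
      · simp
    rw [e1, h8]
    congr 2
    push_cast
    rw [hM]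
    ring
  · unfold FF
    have e1 : (⟨a, b + (8 * M : ℕ)⟩ : GaussianInt) = ⟨a, b⟩ + 8 * ⟨0, (M : ℤ)⟩ := by
      ext
      · simp
      · simp
    rw [e1, h8]
    congr 2
    push_cast
    rw [hM]
    ring

omit [NeZero M] in
theorem FF_norm (h : Stmt_RHO) (a b : ℤ) : ‖FF M ψ a b‖ ≤ 1 := by
  obtain ⟨-, -, h3, -⟩ := h
  unfold FF
  rw [norm_mul]
  exact mul_le_one₀ (h3 _) (norm_nonneg _) (DirichletCharacter.norm_le_one ψ _)

theorem FF_sum (h : Stmt_RHO) :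
    ∑ i ∈ range (8 * M), ∑ j ∈ range (8 * M), FF M ψ i j = 0 := by
  obtain ⟨g, hg1, hg2⟩ := exists_gamma h M (NeZero.ne M)
  have : NeZero (8 * M) := ⟨mul_ne_zero (by norm_num) (NeZero.ne M)⟩
  refine sum_zero (8 * M) (FF M ψ) (FF_per M ψ h) g.re g.im hg2 fun a b => ?_
  unfold FF
  have e1 : (⟨g.re * a - g.im * b, g.im * a + g.re * b⟩ : GaussianInt) = g * ⟨a, b⟩ := by
    apply Zsqrtd.ext
    · rw [Zsqrtd.re_mul]
      ring
    · rw [Zsqrtd.im_mul]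
      ring
  have e2 : ((g.re ^ 2 + g.im ^ 2 : ℤ) : ZMod M) = 1 := by
    have h1 : ((g.re ^ 2 + g.im ^ 2 : ℤ) : ZMod (8 * M)) = ((1 : ℤ) : ZMod (8 * M)) := by
      rw [hg2, Int.cast_one]
    rw [ZMod.intCast_eq_intCast_iff_dvd_sub] at h1
    have h2 : ((M : ℕ) : ℤ) ∣ 1 - (g.re ^ 2 + g.im ^ 2) := by
      refine dvd_trans ?_ h1
      push_cast
      exact Dvd.intro_left 8 rfl
    rw [← ZMod.intCast_eq_intCast_iff_dvd_sub] at h2
    rw [h2, Int.cast_one]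
  have e3 : (((g.re * a - g.im * b) ^ 2 + (g.im * a + g.re * b) ^ 2 : ℤ) : ZMod M) =
      ((a ^ 2 + b ^ 2 : ℤ) : ZMod M) := by
    have e4 : (g.re * a - g.im * b) ^ 2 + (g.im * a + g.re * b) ^ 2 =
        (g.re ^ 2 + g.im ^ 2) * (a ^ 2 + b ^ 2) := by ring
    rw [e4, Int.cast_mul, e2, one_mul]
  rw [e1, e3, h.1, hg1]
  ring

omit [NeZero M] in
/-- grouping by the norm -/
theorem group (s : ℝ)
    (hS : Summable (fun z : ℤ × ℤ => FF M ψ z.1 z.2 *
      (((z.1 : ℝ) ^ 2 + (z.2 : ℝ) ^ 2) ^ (-s) : ℝ))) :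
    ∑' n : ℕ, rr n * ψ (n : ZMod M) * (((n : ℝ) ^ (-s) : ℝ) : ℂ) =
      (1 / 4 : ℂ) * ∑' z : ℤ × ℤ, FF M ψ z.1 z.2 *
        (((z.1 : ℝ) ^ 2 + (z.2 : ℝ) ^ 2) ^ (-s) : ℝ) := by
  classical
  have h1 := hS.hasSum.tsum_fiberwise (fun z : ℤ × ℤ => (z.1 ^ 2 + z.2 ^ 2).toNat)
  rw [← h1.tsum_eq, ← tsum_mul_left]
  refine tsum_congr fun n => ?_
  rw [tsum_subtype ((fun z : ℤ × ℤ => (z.1 ^ 2 + z.2 ^ 2).toNat) ⁻¹' {n})
    (fun z : ℤ × ℤ => FF M ψ z.1 z.2 * (((z.1 : ℝ) ^ 2 + (z.2 : ℝ) ^ 2) ^ (-s) : ℝ))]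
  have hiff : ∀ z : ℤ × ℤ, z ∈ ((fun z : ℤ × ℤ => (z.1 ^ 2 + z.2 ^ 2).toNat) ⁻¹' {n}) ↔
      z.1 ^ 2 + z.2 ^ 2 = n := by
    intro z
    rw [Set.mem_preimage, Set.mem_singleton_iff]
    have h2 : 0 ≤ z.1 ^ 2 + z.2 ^ 2 := by positivity
    omega
  rw [tsum_eq_sum (s := Icc (-(n : ℤ)) n ×ˢ Icc (-(n : ℤ)) n)]
  · rw [Finset.sum_product]
    unfold rr
    rw [mul_assoc, mul_assoc]
    congr 1
    rw [Finset.sum_mul]
    refine Finset.sum_congr rfl fun a _ => ?_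
    rw [Finset.sum_mul]
    refine Finset.sum_congr rfl fun b _ => ?_
    by_cases hab : a ^ 2 + b ^ 2 = (n : ℤ)
    · rw [if_pos hab, Set.indicator_of_mem ((hiff (a, b)).2 hab)]
      change rho ⟨a, b⟩ * (ψ (n : ZMod M) * (((n : ℝ) ^ (-s) : ℝ) : ℂ)) =
        rho ⟨a, b⟩ * ψ ((a ^ 2 + b ^ 2 : ℤ) : ZMod M) *
          ((((a : ℝ) ^ 2 + (b : ℝ) ^ 2) ^ (-s) : ℝ) : ℂ)
      have e1 : (a : ℝ) ^ 2 + (b : ℝ) ^ 2 = n := by exact_mod_cast hab
      rw [hab, e1, Int.cast_natCast, mul_assoc]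
    · rw [if_neg hab, Set.indicator_of_notMem (fun h => hab ((hiff (a, b)).1 h)), zero_mul]
  · intro z hz
    apply Set.indicator_of_notMem
    intro h2
    apply hz
    rw [hiff] at h2
    have b1 : z.1 ^ 2 ≤ n := by nlinarith [sq_nonneg z.2]
    have b2 : z.2 ^ 2 ≤ n := by nlinarith [sq_nonneg z.1]
    have key : ∀ x : ℤ, x ^ 2 ≤ n → x ∈ Icc (-(n : ℤ)) n := by
      intro x hx
      rw [Finset.mem_Icc]
      constructor <;> nlinarith [sq_nonneg (x - 1), sq_nonneg (x + 1), sq_nonneg x]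
    rw [Finset.mem_product]
    exact ⟨key _ b1, key _ b2⟩

end Sum

end LBD

open LBD in
theorem LBD_thm (h1 : Stmt_RHO) (h2 : Stmt_LSB) : Stmt_LBD := by
  intro M _ ψ
  obtain ⟨C, hC⟩ := h2 (8 * M) (FF M ψ) (Nat.mul_pos (by norm_num) (NeZero.pos M))
    (FF_norm M ψ h1) (FF_per M ψ h1) (FF_sum M ψ h1)
  refine ⟨1 / 4 * C, fun s hs hs2 => ?_⟩
  obtain ⟨hS, hb⟩ := hC s hs hs2
  rw [group M ψ s hS, norm_mul]
  have e1 : ‖(1 / 4 : ℂ)‖ = 1 / 4 := by norm_num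
  rw [e1]
  exact mul_le_mul_of_nonneg_left hb (by norm_num)

end Pool.Agent.ADG
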