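import Pool.Agent.ADG.St7

/-!
# ADG, module LSB (helper33): sums of periodic functions with sum 0 over the lattice of dimension 2
-/

set_option autoImplicit false

namespace Pool.Agent.ADG

open Finset

namespace LSB

/-- `(a² + b²)^(-s)` -/
noncomputable def gg (s : ℝ) (a b : ℤ) : ℝ := ((a : ℝ) ^ 2 + (b : ℝ) ^ 2) ^ (-s)

theorem gg_nonneg (s : ℝ) (a b : ℤ) : 0 ≤ gg s a b := Real.rpow_nonneg (by positivity) _

theorem gg_zero (s : ℝ) (hs : 1 < s) : gg s 0 0 = 0 := by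
  unfold gg
  simp only [Int.cast_zero]
  norm_num
  exact Real.zero_rpow (by linarith)

theorem norm_le_sq (z : ℤ × ℤ) : ‖z‖ ^ 2 ≤ (z.1 : ℝ) ^ 2 + (z.2 : ℝ) ^ 2 := by
  obtain ⟨a, b⟩ := z
  rw [Prod.norm_def]
  simp only [Int.norm_eq_abs]
  rcases le_total |(a : ℝ)| |(b : ℝ)| with h | h
  · rw [max_eq_right h, sq_abs]
    nlinarith [sq_nonneg (a : ℝ)]
  · rw [max_eq_left h, sq_abs]
    nlinarith [sq_nonneg (b : ℝ)]

theorem one_le_norm {z : ℤ × ℤ} (hz : z ≠ 0) : 1 ≤ ‖z‖ := by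
  obtain ⟨a, b⟩ := z
  rw [Prod.norm_def]
  by_cases ha : a = 0
  · have hb : b ≠ 0 := by
      rintro rfl
      exact hz (by rw [ha]; rfl)
    refine le_trans ?_ (le_max_right _ _)
    rw [Int.norm_eq_abs]
    have := Int.one_le_abs hb
    exact_mod_cast this
  · refine le_trans ?_ (le_max_left _ _)
    rw [Int.norm_eq_abs]
    have := Int.one_le_abs ha
    exact_mod_cast this

theorem gg_le_one (s : ℝ) (hs : 1 < s) (a b : ℤ) : gg s a b ≤ 1 := by
  by_cases h : (a, b) = (0 : ℤ × ℤ)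
  · have h1 : a = 0 := congrArg Prod.fst h
    have h2 : b = 0 := congrArg Prod.snd h
    rw [h1, h2, gg_zero s hs]
    exact zero_le_one
  · have h1 := one_le_norm h
    have h2 := norm_le_sq (a, b)
    refine Real.rpow_le_one_of_one_le_of_nonpos ?_ (by linarith)
    exact le_trans (by nlinarith) h2

theorem summable_norm {k : ℝ} (hk : 2 < k) : Summable (fun z : ℤ × ℤ => ‖z‖ ^ (-k)) := by
  have h1 := EisensteinSeries.summable_one_div_norm_rpow hk
  rw [← (finTwoArrowEquiv ℤ).symm.summable_iff] at h1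
  refine h1.congr fun z => ?_
  obtain ⟨a, b⟩ := z
  simp only [Function.comp_apply, finTwoArrowEquiv_symm_apply]
  congr 1
  rw [Prod.norm_def, EisensteinSeries.norm_eq_max_natAbs]
  simp only [Matrix.cons_val_zero, Matrix.cons_val_one, Int.norm_eq_abs]
  rw [Nat.cast_max, Nat.cast_natAbs, Nat.cast_natAbs]
  push_cast
  rfl

theorem summable_gg (s : ℝ) (hs : 1 < s) : Summable (fun z : ℤ × ℤ => gg s z.1 z.2) := by
  refine Summable.of_nonneg_of_le (fun z => gg_nonneg s _ _) (fun z => ?_)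
    (summable_norm (k := 2 * s) (by linarith))
  by_cases h : z = 0
  · rw [h]
    change gg s 0 0 ≤ _
    rw [gg_zero s hs]
    exact Real.rpow_nonneg (norm_nonneg _) _
  · have h1 := one_le_norm h
    have h2 := norm_le_sq z
    have h3 : ‖z‖ ^ (-(2 * s)) = (‖z‖ ^ 2) ^ (-s) := by
      rw [← Real.rpow_natCast, ← Real.rpow_mul (norm_nonneg _)]
      congr 1
      push_cast
      ring
    rw [h3]
    exact Real.rpow_le_rpow_of_nonpos (by positivity) h2 (by linarith)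

/-- the mean value theorem -/
theorem mvt (s : ℝ) (hs : 1 < s) (hs2 : s ≤ 2) (A u v : ℝ) (hA : 1 ≤ A) (hu : A ≤ u)
    (hv : A ≤ v) : |u ^ (-s) - v ^ (-s)| ≤ 2 * A ^ (-2 : ℝ) * |u - v| := by
  have h := Convex.norm_image_sub_le_of_norm_hasDerivWithin_le (𝕜 := ℝ) (f := fun t : ℝ => t ^ (-s))
    (f' := fun t : ℝ => -s * t ^ (-s - 1)) (s := Set.Ici A) (x := v) (y := u)
    (C := 2 * A ^ (-2 : ℝ)) ?_ ?_ (convex_Ici A) hv hu
  · simpa [Real.norm_eq_abs] using h
  · intro x hx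
    have hx' : A ≤ x := hx
    exact (Real.hasDerivAt_rpow_const (Or.inl (by linarith : x ≠ 0) : x ≠ 0 ∨ 1 ≤ -s)).hasDerivWithinAt
  · intro x hx
    have hx' : A ≤ x := hx
    have hx0 : 0 < x := by linarith
    rw [norm_mul, Real.norm_eq_abs, Real.norm_eq_abs, abs_neg, abs_of_pos (by linarith : 0 < s),
      abs_of_nonneg (Real.rpow_nonneg hx0.le _)]
    have h1 : x ^ (-s - 1) ≤ x ^ (-2 : ℝ) :=
      Real.rpow_le_rpow_of_exponent_le (by linarith) (by linarith)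
    have h2 : x ^ (-2 : ℝ) ≤ A ^ (-2 : ℝ) :=
      Real.rpow_le_rpow_of_nonpos (by linarith) hx' (by norm_num)
    exact mul_le_mul hs2 (h1.trans h2) (Real.rpow_nonneg hx0.le _) (by norm_num)

/-- lower bound for the square of one coordinate -/
theorem coord (m k : ℝ) (x i : ℝ) (hm : 0 < m) (hk : 2 ≤ k) (hx : |x| = k) (hi : 0 ≤ i)
    (him : i ≤ m) : (m * k / 2) ^ 2 ≤ (x * m + i) ^ 2 := by
  have h1 : m * k - m ≤ |x * m + i| := by
    have h2 : |x * m| ≤ |x * m + i| + |i| := by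
      have h3 := abs_sub (x * m + i) i
      rwa [add_sub_cancel_right] at h3
    rw [abs_mul, hx, abs_of_pos hm, abs_of_nonneg hi] at h2
    nlinarith
  have h2 : m * k / 2 ≤ |x * m + i| := by nlinarith
  rw [← sq_abs (x * m + i)]
  exact pow_le_pow_left₀ (by positivity) h2 2

/-- the difference in a block -/
theorem diff (s : ℝ) (hs : 1 < s) (hs2 : s ≤ 2) (m : ℕ) (hm : 0 < m) (x y : ℤ) (i j : ℕ)
    (hi : i < m) (hj : j < m) :
    |gg s (x * m + i) (y * m + j) - gg s (x * m) (y * m)| ≤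
      192 * ‖(x, y)‖ ^ (-3 : ℝ) + if (x, y) = (0 : ℤ × ℤ) then 1 else 0 := by
  have g0 := gg_nonneg s (x * m + i) (y * m + j)
  have g1 := gg_le_one s hs (x * m + i) (y * m + j)
  have g2 := gg_nonneg s (x * m) (y * m)
  have g3 := gg_le_one s hs (x * m) (y * m)
  have g4 : |gg s (x * m + i) (y * m + j) - gg s (x * m) (y * m)| ≤ 1 := by
    rw [abs_le]
    constructor <;> linarith
  by_cases h : (x, y) = (0 : ℤ × ℤ)
  · rw [if_pos h]
    have : 0 ≤ ‖(x, y)‖ ^ (-3 : ℝ) := Real.rpow_nonneg (norm_nonneg _) _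
    linarith
  · rw [if_neg h, add_zero]
    have hk1 := one_le_norm h
    set k := ‖(x, y)‖ with hk
    rcases le_total k 2 with hk2 | hk2
    · have h1 : (2 : ℝ) ^ (-3 : ℝ) ≤ k ^ (-3 : ℝ) :=
        Real.rpow_le_rpow_of_nonpos (by linarith) hk2 (by norm_num)
      have h2 : (2 : ℝ) ^ (-3 : ℝ) = 1 / 8 := by
        rw [Real.rpow_neg (by norm_num)]
        norm_num
      rw [h2] at h1
      linarith
    · have hm' : (1 : ℝ) ≤ m := by exact_mod_cast hm
      have hxk : |(x : ℝ)| ≤ k := by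
        rw [hk, Prod.norm_def]
        exact le_trans (by rw [Int.norm_eq_abs]) (le_max_left _ _)
      have hyk : |(y : ℝ)| ≤ k := by
        rw [hk, Prod.norm_def]
        exact le_trans (by rw [Int.norm_eq_abs]) (le_max_right _ _)
      have hxy : |(x : ℝ)| = k ∨ |(y : ℝ)| = k := by
        rw [hk, Prod.norm_def]
        simp only [Int.norm_eq_abs]
        rcases le_total |(x : ℝ)| |(y : ℝ)| with h' | h'
        · right
          rw [max_eq_right h']
        · left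
          rw [max_eq_left h']
      have hi0 : (0 : ℝ) ≤ i := Nat.cast_nonneg i
      have hj0 : (0 : ℝ) ≤ j := Nat.cast_nonneg j
      have him : (i : ℝ) ≤ m := by exact_mod_cast hi.le
      have hjm : (j : ℝ) ≤ m := by exact_mod_cast hj.le
      have hA : ∀ i' j' : ℝ, 0 ≤ i' → i' ≤ m → 0 ≤ j' → j' ≤ m →
          (m * k / 2) ^ 2 ≤ ((x : ℝ) * m + i') ^ 2 + ((y : ℝ) * m + j') ^ 2 := by
        intro i' j' h1 h2 h3 h4
        rcases hxy with h5 | h5
        · have := coord m k x i' (by linarith) hk2 h5 h1 h2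
          nlinarith [sq_nonneg ((y : ℝ) * m + j')]
        · have := coord m k y j' (by linarith) hk2 h5 h3 h4
          nlinarith [sq_nonneg ((x : ℝ) * m + i')]
      have hA1 : 1 ≤ ((m : ℝ) * k / 2) ^ 2 := by
        have : 1 ≤ (m : ℝ) * k / 2 := by nlinarith
        nlinarith
      have e1 : gg s (x * m + i) (y * m + j) =
          (((x : ℝ) * m + i) ^ 2 + ((y : ℝ) * m + j) ^ 2) ^ (-s) := by
        unfold gg
        push_cast
        rfl
      have e2 : gg s (x * m) (y * m) =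
          (((x : ℝ) * m + 0) ^ 2 + ((y : ℝ) * m + 0) ^ 2) ^ (-s) := by
        unfold gg
        push_cast
        rw [add_zero, add_zero]
      have h1 := mvt s hs hs2 ((m * k / 2) ^ 2) _ _ hA1 (hA i j hi0 him hj0 hjm)
        (hA 0 0 le_rfl (by linarith) le_rfl (by linarith))
      rw [← e1, ← e2] at h1
      refine h1.trans ?_
      have h2 : |((x : ℝ) * m + i) ^ 2 + ((y : ℝ) * m + j) ^ 2 -
          (((x : ℝ) * m + 0) ^ 2 + ((y : ℝ) * m + 0) ^ 2)| ≤ 5 * (m : ℝ) ^ 2 * k := by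
        have e3 : ((x : ℝ) * m + i) ^ 2 + ((y : ℝ) * m + j) ^ 2 -
            (((x : ℝ) * m + 0) ^ 2 + ((y : ℝ) * m + 0) ^ 2) =
            (x * (2 * m * i) + y * (2 * m * j)) + (i ^ 2 + j ^ 2) := by ring
        rw [e3]
        have a1 : |(x : ℝ) * (2 * m * i)| ≤ k * (2 * m * m) := by
          rw [abs_mul, abs_of_nonneg (by positivity : (0 : ℝ) ≤ 2 * m * i)]
          exact mul_le_mul hxk (by nlinarith) (by positivity) (by linarith)
        have a2 : |(y : ℝ) * (2 * m * j)| ≤ k * (2 * m * m) := by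
          rw [abs_mul, abs_of_nonneg (by positivity : (0 : ℝ) ≤ 2 * m * j)]
          exact mul_le_mul hyk (by nlinarith) (by positivity) (by linarith)
        have a3 : |(i : ℝ) ^ 2 + (j : ℝ) ^ 2| ≤ 2 * (m : ℝ) ^ 2 := by
          rw [abs_of_nonneg (by positivity)]
          have b1 : (i : ℝ) ^ 2 ≤ (m : ℝ) ^ 2 := pow_le_pow_left₀ hi0 him 2
          have b2 : (j : ℝ) ^ 2 ≤ (m : ℝ) ^ 2 := pow_le_pow_left₀ hj0 hjm 2
          linarith
        have a4 := abs_add_le ((x : ℝ) * (2 * m * i)) (y * (2 * m * j))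
        have a5 := abs_add_le ((x : ℝ) * (2 * m * i) + y * (2 * m * j)) ((i : ℝ) ^ 2 + (j : ℝ) ^ 2)
        have a6 : 2 * (m : ℝ) ^ 2 ≤ (m : ℝ) ^ 2 * k := by
          have := mul_le_mul_of_nonneg_left hk2 (sq_nonneg (m : ℝ))
          linarith
        have a7 : k * (2 * m * m) = 2 * ((m : ℝ) ^ 2 * k) := by ring
        have a8 : 5 * (m : ℝ) ^ 2 * k = 5 * ((m : ℝ) ^ 2 * k) := by ring
        rw [a8]
        rw [a7] at a1 a2
        linarith
      have hk0 : 0 < k := by linarith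
      have hm0 : (0 : ℝ) < m := by linarith
      have h3 : (((m : ℝ) * k / 2) ^ 2) ^ (-2 : ℝ) = 16 / (m ^ 4 * k ^ 4) := by
        rw [Real.rpow_neg (by positivity), show (2 : ℝ) = ((2 : ℕ) : ℝ) by norm_num,
          Real.rpow_natCast]
        field_simp
        ring
      have h4 : k ^ (-3 : ℝ) = 1 / k ^ 3 := by
        rw [Real.rpow_neg hk0.le, show (3 : ℝ) = ((3 : ℕ) : ℝ) by norm_num, Real.rpow_natCast,
          one_div]
      rw [h3, h4]
      calc 2 * (16 / ((m : ℝ) ^ 4 * k ^ 4)) * _ ≤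
          2 * (16 / ((m : ℝ) ^ 4 * k ^ 4)) * (5 * (m : ℝ) ^ 2 * k) :=
            mul_le_mul_of_nonneg_left h2 (by positivity)
        _ = 160 / (m ^ 2 * k ^ 3) := by
            field_simp
            ring
        _ ≤ 192 * (1 / k ^ 3) := by
            rw [mul_one_div, div_le_div_iff₀ (by positivity) (by positivity)]
            have : (1 : ℝ) ≤ (m : ℝ) ^ 2 := by nlinarith
            have h5 : 0 < k ^ 3 := by positivity
            nlinarith

theorem per (m : ℕ) (F : ℤ → ℤ → ℂ) (h : ∀ a b, F (a + m) b = F a b ∧ F a (b + m) = F a b)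
    (x y i j : ℤ) : F (x * m + i) (y * m + j) = F i j := by
  have h1 : ∀ b, Function.Periodic (fun a => F a b) (m : ℤ) := fun b a => (h a b).1
  have h2 : ∀ a, Function.Periodic (fun b => F a b) (m : ℤ) := fun a b => (h a b).2
  have h3 : F (x * m + i) (y * m + j) = F i (y * m + j) := by
    rw [add_comm (x * (m : ℤ))]
    exact ((h1 (y * m + j)).int_mul x) i
  rw [h3, add_comm (y * (m : ℤ))]
  exact ((h2 i).int_mul y) j

end LSB

open LSB in
theorem LSB_thm : Stmt_LSB := by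
  intro m F hm hF hper hsum
  have : NeZero m := ⟨hm.ne'⟩
  have hB : Summable (fun z : ℤ × ℤ => (m : ℝ) ^ 2 * (192 * ‖z‖ ^ (-3 : ℝ) +
      if z = (0 : ℤ × ℤ) then 1 else 0)) := by
    refine Summable.mul_left _ (Summable.add ?_ ?_)
    · exact (summable_norm (k := 3) (by norm_num)).mul_left 192
    · refine summable_of_ne_finset_zero (s := {0}) fun z hz => ?_
      rw [Finset.mem_singleton] at hz
      rw [if_neg hz]
  refine ⟨∑' z : ℤ × ℤ, (m : ℝ) ^ 2 * (192 * ‖z‖ ^ (-3 : ℝ) +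
      if z = (0 : ℤ × ℤ) then 1 else 0), fun s hs hs2 => ?_⟩
  have hS : Summable (fun z : ℤ × ℤ => F z.1 z.2 *
      (((z.1 : ℝ) ^ 2 + (z.2 : ℝ) ^ 2) ^ (-s) : ℝ)) := by
    refine Summable.of_norm_bounded (g := fun z : ℤ × ℤ => gg s z.1 z.2) (summable_gg s hs)
      fun z => ?_
    change ‖F z.1 z.2 * ((gg s z.1 z.2 : ℝ) : ℂ)‖ ≤ gg s z.1 z.2
    rw [norm_mul, Complex.norm_real, Real.norm_eq_abs, abs_of_nonneg (gg_nonneg s z.1 z.2)]
    calc ‖F z.1 z.2‖ * gg s z.1 z.2 ≤ 1 * gg s z.1 z.2 :=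
          mul_le_mul_of_nonneg_right (hF _ _) (gg_nonneg s _ _)
      _ = gg s z.1 z.2 := one_mul _
  refine ⟨hS, ?_⟩
  let E : ℤ × ℤ ≃ (ℤ × ℤ) × (Fin m × Fin m) :=
    ((Int.divModEquiv m).prodCongr (Int.divModEquiv m)).trans (Equiv.prodProdProdComm _ _ _ _)
  have hE : ∀ (x y : ℤ) (i j : Fin m), E.symm ((x, y), (i, j)) =
      (x * m + (i : ℕ), y * m + (j : ℕ)) := fun x y i j => rfl
  have hS' : Summable (fun p : (ℤ × ℤ) × (Fin m × Fin m) => F (E.symm p).1 (E.symm p).2 *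
      ((gg s (E.symm p).1 (E.symm p).2 : ℝ) : ℂ)) := E.symm.summable_iff.2 hS
  have e1 : ∑' z : ℤ × ℤ, F z.1 z.2 * (((z.1 : ℝ) ^ 2 + (z.2 : ℝ) ^ 2) ^ (-s) : ℝ) =
      ∑' z : ℤ × ℤ, ∑ p : Fin m × Fin m, F (E.symm (z, p)).1 (E.symm (z, p)).2 *
        ((gg s (E.symm (z, p)).1 (E.symm (z, p)).2 : ℝ) : ℂ) := by
    rw [← E.symm.tsum_eq]
    change ∑' p : (ℤ × ℤ) × (Fin m × Fin m), F (E.symm p).1 (E.symm p).2 *
      ((gg s (E.symm p).1 (E.symm p).2 : ℝ) : ℂ) = _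
    rw [hS'.tsum_prod]
    refine tsum_congr fun z => ?_
    rw [tsum_fintype]
  rw [e1]
  refine tsum_of_norm_bounded hB.hasSum fun z => ?_
  obtain ⟨x, y⟩ := z
  have hsum' : ∑ p : Fin m × Fin m, F (p.1 : ℕ) (p.2 : ℕ) = 0 := by
    rw [Fintype.sum_prod_type]
    rw [← hsum, ← Fin.sum_univ_eq_sum_range (fun i => ∑ j ∈ range m, F i j) m]
    refine Finset.sum_congr rfl fun i _ => ?_
    rw [← Fin.sum_univ_eq_sum_range (fun j => F (i : ℕ) j) m]
  have e2 : ∑ p : Fin m × Fin m, F (E.symm ((x, y), p)).1 (E.symm ((x, y), p)).2 *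
        ((gg s (E.symm ((x, y), p)).1 (E.symm ((x, y), p)).2 : ℝ) : ℂ) =
      ∑ p : Fin m × Fin m, F (p.1 : ℕ) (p.2 : ℕ) *
        ((gg s (x * m + (p.1 : ℕ)) (y * m + (p.2 : ℕ)) - gg s (x * m) (y * m) : ℝ) : ℂ) := by
    have e3 : ∀ p : Fin m × Fin m, F (p.1 : ℕ) (p.2 : ℕ) *
        ((gg s (x * m + (p.1 : ℕ)) (y * m + (p.2 : ℕ)) - gg s (x * m) (y * m) : ℝ) : ℂ) =
        F (p.1 : ℕ) (p.2 : ℕ) * ((gg s (x * m + (p.1 : ℕ)) (y * m + (p.2 : ℕ)) : ℝ) : ℂ) -
          F (p.1 : ℕ) (p.2 : ℕ) * ((gg s (x * m) (y * m) : ℝ) : ℂ) := by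
      intro p
      push_cast
      ring
    simp only [e3]
    rw [Finset.sum_sub_distrib, ← Finset.sum_mul, hsum', zero_mul, sub_zero]
    refine Finset.sum_congr rfl fun p _ => ?_
    obtain ⟨i, j⟩ := p
    rw [hE]
    rw [per m F hper]
  rw [e2]
  refine (norm_sum_le _ _).trans ?_
  have hD : ∀ p ∈ (Finset.univ : Finset (Fin m × Fin m)), ‖F (p.1 : ℕ) (p.2 : ℕ) *
        ((gg s (x * m + (p.1 : ℕ)) (y * m + (p.2 : ℕ)) - gg s (x * m) (y * m) : ℝ) : ℂ)‖ ≤
      192 * ‖(x, y)‖ ^ (-3 : ℝ) + if (x, y) = (0 : ℤ × ℤ) then 1 else 0 := by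
    rintro ⟨i, j⟩ -
    rw [norm_mul, Complex.norm_real, Real.norm_eq_abs]
    have h1 := diff s hs hs2 m hm x y i j i.2 j.2
    calc _ ≤ 1 * |gg s (x * m + (i : ℕ)) (y * m + (j : ℕ)) - gg s (x * m) (y * m)| :=
          mul_le_mul_of_nonneg_right (hF _ _) (abs_nonneg _)
      _ ≤ _ := by
          rw [one_mul]
          exact h1
  refine (Finset.sum_le_card_nsmul _ _ _ hD).trans ?_
  rw [Finset.card_univ, Fintype.card_prod, Fintype.card_fin, nsmul_eq_mul]
  apply le_of_eq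
  push_cast
  ring

end Pool.Agent.ADG
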