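import Pool.Agent.ADG.St7
import Pool.Agent.ADG.PSM

/-! (PS7) Sums over primes (module of project ADG, part 7) (helper96). -/

set_option autoImplicit false

namespace Pool.Agent.ADG

open Finset

namespace PS7m

theorem tail (a M : ℕ) (ha : 1 ≤ a) (hM : a ≤ M) :
    ∑ w ∈ (Ioc (2 ^ a) (2 ^ M)).filter Nat.Prime, PSMm.g w ≤
      8 / Real.log 2 * (1 / a - 1 / M) := by
  have hl2 : 0 < Real.log 2 := Real.log_pos (by norm_num)
  induction M, hM using Nat.le_induction with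
  | base => simp
  | succ m hm ih =>
    have hm1' : 1 ≤ m := ha.trans hm
    have hm0 : (0 : ℝ) < m := by exact_mod_cast hm1'
    have hm1 : (1 : ℝ) ≤ m := by exact_mod_cast hm1'
    have hsplit : (Ioc (2 ^ a) (2 ^ (m + 1))).filter Nat.Prime =
        (Ioc (2 ^ a) (2 ^ m)).filter Nat.Prime ∪ Pool.Agent.ADS.EV5.blk m := by
      have h2 : 2 ^ m ≤ 2 ^ (m + 1) := Nat.pow_le_pow_right (by norm_num) (by omega)
      have h3 : 2 ^ a ≤ 2 ^ m := Nat.pow_le_pow_right (by norm_num) hm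
      ext w
      unfold Pool.Agent.ADS.EV5.blk
      simp only [mem_union, mem_filter, mem_Ioc]
      constructor
      · rintro ⟨⟨h3, h4⟩, h5⟩
        rcases Nat.lt_or_ge (2 ^ m) w with h | h
        · exact Or.inr ⟨⟨h, h4⟩, h5⟩
        · exact Or.inl ⟨⟨h3, h⟩, h5⟩
      · rintro (⟨⟨h3, h4⟩, h5⟩ | ⟨⟨h6, h4⟩, h5⟩)
        · exact ⟨⟨h3, h4.trans h2⟩, h5⟩
        · exact ⟨⟨lt_of_le_of_lt h3 h6, h4⟩, h5⟩
    have hU : ∑ w ∈ (Ioc (2 ^ a) (2 ^ (m + 1))).filter Nat.Prime, PSMm.g w ≤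
        ∑ w ∈ (Ioc (2 ^ a) (2 ^ m)).filter Nat.Prime, PSMm.g w +
          ∑ w ∈ Pool.Agent.ADS.EV5.blk m, PSMm.g w := by
      rw [hsplit]
      have := Finset.sum_union_inter (s₁ := (Ioc (2 ^ a) (2 ^ m)).filter Nat.Prime)
        (s₂ := Pool.Agent.ADS.EV5.blk m) (f := PSMm.g)
      have h0 : 0 ≤ ∑ w ∈ ((Ioc (2 ^ a) (2 ^ m)).filter Nat.Prime) ∩ Pool.Agent.ADS.EV5.blk m,
          PSMm.g w :=
        Finset.sum_nonneg fun w _ => PSMm.g_nonneg w
      linarith
    have hb := PSMm.blk_bound m hm1'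
    have key : 4 / (Real.log 2 * (m : ℝ) ^ 2) ≤ 8 / Real.log 2 * (1 / m - 1 / (m + 1)) := by
      have e : (1 : ℝ) / m - 1 / (m + 1) = 1 / (m * (m + 1)) := by
        field_simp
        ring
      rw [e, div_mul_div_comm, mul_one, div_le_div_iff₀ (by positivity) (by positivity)]
      nlinarith [mul_pos hl2 hm0, mul_pos (mul_pos hl2 hm0) hm0]
    have e2 : ((m + 1 : ℕ) : ℝ) = m + 1 := by push_cast; ring
    rw [e2]
    have e3 : 8 / Real.log 2 * (1 / (a : ℝ) - 1 / ((m : ℝ) + 1)) =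
        8 / Real.log 2 * (1 / a - 1 / m) + 8 / Real.log 2 * (1 / m - 1 / (m + 1)) := by ring
    rw [e3]
    linarith

theorem tail2 (W z : ℕ) (hW : 2 ≤ W) :
    ∑ w ∈ (Ioc W z).filter Nat.Prime, PSMm.g w ≤ 16 / Real.log W := by
  have hl2 : 0 < Real.log 2 := Real.log_pos (by norm_num)
  have hlW : 0 < Real.log W := Real.log_pos (by exact_mod_cast hW)
  set a := Nat.log 2 W with ha
  have ha1 : 1 ≤ a := Nat.log_pos (by norm_num) hW
  have haW : 2 ^ a ≤ W := Nat.pow_log_le_self 2 (by omega)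
  have hWa : W < 2 ^ (a + 1) := Nat.lt_pow_succ_log_self (by norm_num) W
  set M := max a (Nat.log 2 z + 1) with hM
  have hzM : z ≤ 2 ^ M :=
    (Nat.lt_pow_succ_log_self (by norm_num) z).le.trans
      (Nat.pow_le_pow_right (by norm_num) (le_max_right _ _))
  have h1 : ∑ w ∈ (Ioc W z).filter Nat.Prime, PSMm.g w ≤
      ∑ w ∈ (Ioc (2 ^ a) (2 ^ M)).filter Nat.Prime, PSMm.g w := by
    refine Finset.sum_le_sum_of_subset_of_nonneg ?_ fun w _ _ => PSMm.g_nonneg w
    intro w hw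
    rw [mem_filter, mem_Ioc] at hw ⊢
    exact ⟨⟨lt_of_le_of_lt haW hw.1.1, hw.1.2.trans hzM⟩, hw.2⟩
  have h2 := tail a M ha1 (le_max_left _ _)
  have ha0 : (0 : ℝ) < a := by exact_mod_cast ha1
  have ha1' : (1 : ℝ) ≤ a := by exact_mod_cast ha1
  have h3 : (0 : ℝ) ≤ 1 / (M : ℝ) := by positivity
  have h4 : 8 / Real.log 2 * (1 / (a : ℝ) - 1 / M) ≤ 8 / Real.log 2 * (1 / a) :=
    mul_le_mul_of_nonneg_left (by linarith) (by positivity)
  have h5 : Real.log W ≤ (a + 1) * Real.log 2 := by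
    have : Real.log W ≤ Real.log ((2 : ℝ) ^ (a + 1)) :=
      Real.log_le_log (by exact_mod_cast (by omega : 0 < W)) (by exact_mod_cast hWa.le)
    rw [Real.log_pow] at this
    push_cast at this
    exact this
  have h6 : 8 / Real.log 2 * (1 / (a : ℝ)) ≤ 16 / Real.log W := by
    rw [div_mul_div_comm, mul_one, div_le_div_iff₀ (by positivity) hlW]
    nlinarith [mul_pos hl2 ha0]
  linarith

end PS7m

theorem PS7_thm : Stmt_PS7 := by
  obtain ⟨C, hC0, hB⟩ := PSMm.sumB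
  have hl2 : 0 < Real.log 2 := Real.log_pos (by norm_num)
  refine ⟨32 * C, by positivity, fun W z hW hz => ?_⟩
  have hlW : 0 < Real.log W := Real.log_pos (by exact_mod_cast hW)
  set S := (Ioc W z).filter Nat.Prime with hS
  have hA := PS7m.tail2 W z hW
  have hB1 := hB z hz
  have hB' : ∑ p ∈ S, (1 : ℝ) / p ≤ C * Real.log (Real.log z) := by
    refine le_trans ?_ hB1
    refine Finset.sum_le_sum_of_subset_of_nonneg ?_ fun w _ _ => by positivity
    intro w hw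
    rw [hS, mem_filter, mem_Ioc] at hw
    rw [mem_filter, mem_Icc]
    exact ⟨⟨hw.2.one_lt.le, hw.1.2⟩, hw.2⟩
  have hAn : 0 ≤ ∑ w ∈ S, PSMm.g w := Finset.sum_nonneg fun w _ => PSMm.g_nonneg w
  have hBn : 0 ≤ ∑ p ∈ S, (1 : ℝ) / p := Finset.sum_nonneg fun w _ => by positivity
  have hterm : ∀ l ∈ S, ∀ p ∈ S,
      1 / ((l : ℝ) * p * Real.log (min l p : ℕ)) ≤
        PSMm.g l * (1 / p) + (1 / l) * PSMm.g p := by
    intro l hl p hp
    rw [hS, mem_filter] at hl hp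
    have hl0 : (0 : ℝ) < l := by exact_mod_cast hl.2.pos
    have hp0 : (0 : ℝ) < p := by exact_mod_cast hp.2.pos
    have hll : 0 < Real.log l := Real.log_pos (by exact_mod_cast hl.2.one_lt)
    have hlp : 0 < Real.log p := Real.log_pos (by exact_mod_cast hp.2.one_lt)
    have h1 : 0 ≤ PSMm.g l * (1 / p) := mul_nonneg (PSMm.g_nonneg l) (by positivity)
    have h2 : 0 ≤ (1 / (l : ℝ)) * PSMm.g p := mul_nonneg (by positivity) (PSMm.g_nonneg p)
    have e1 : PSMm.g l * (1 / p) = 1 / (l * p * Real.log l) := by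
      unfold PSMm.g
      field_simp
    have e2 : (1 / (l : ℝ)) * PSMm.g p = 1 / (l * p * Real.log p) := by
      unfold PSMm.g
      field_simp
    rcases le_total l p with hle | hle
    · rw [min_eq_left hle]
      linarith
    · rw [min_eq_right hle]
      linarith
  calc ∑ l ∈ S, ∑ p ∈ S, 1 / ((l : ℝ) * p * Real.log (min l p : ℕ))
      ≤ ∑ l ∈ S, ∑ p ∈ S, (PSMm.g l * (1 / p) + (1 / l) * PSMm.g p) :=
        Finset.sum_le_sum fun l hl => Finset.sum_le_sum fun p hp => hterm l hl p hp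
    _ = 2 * ((∑ w ∈ S, PSMm.g w) * ∑ p ∈ S, (1 : ℝ) / p) := by
        have h3 : ∀ l ∈ S, ∑ p ∈ S, (PSMm.g l * (1 / p) + (1 / l) * PSMm.g p) =
            PSMm.g l * (∑ p ∈ S, (1 : ℝ) / p) + (1 / l) * ∑ p ∈ S, PSMm.g p := by
          intro l _
          rw [Finset.sum_add_distrib, Finset.mul_sum, Finset.mul_sum]
        rw [Finset.sum_congr rfl h3, Finset.sum_add_distrib, ← Finset.sum_mul, ← Finset.sum_mul]
        ring
    _ ≤ 2 * ((16 / Real.log W) * (C * Real.log (Real.log z))) := by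
        have h4 : (∑ w ∈ S, PSMm.g w) * ∑ p ∈ S, (1 : ℝ) / p ≤
            (16 / Real.log W) * (C * Real.log (Real.log z)) :=
          mul_le_mul hA hB' hBn (by positivity)
        linarith
    _ = 32 * C * Real.log (Real.log z) / Real.log W := by ring

end Pool.Agent.ADG
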