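import Pool.Agent.ADG.St7
import Pool.Agent.ADG.PT5

/-! (PT7) The partition for even `n` (module of project ADG, part 7) (helper96, after helper9). -/

set_option autoImplicit false

namespace Pool.Agent.ADG

open Finset Pool.Agent.ADS

open PT5m in
theorem PT7_thm : Stmt_PT7 := by
  classical
  intro X z W L n hWz hmem hev hCond hnp hForm
  obtain ⟨hn2, hnX⟩ := mem_Icc.1 hmem
  obtain ⟨a, c, hc, ha⟩ := Nat.sq_mul_squarefree n
  have hc1 : 1 ≤ c := by
    rcases Nat.eq_zero_or_pos c with h | h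
    · subst h; simp at hc; omega
    · exact h
  have hcn : c ^ 2 ∣ n := ⟨a, hc.symm⟩
  refine ⟨c, hc1, hcn, ?_⟩
  by_cases hLc : L < c
  · exact Or.inl hLc
  refine Or.inr ⟨not_lt.1 hLc, ?_⟩
  have ha0 : a ≠ 0 := ha.ne_zero
  by_cases hO : ∃ q, q.Prime ∧ q ≠ 2 ∧ q ∣ a
  swap
  · rcases one_or_two a ha (fun q hq hqa => by
      by_contra h; exact hO ⟨q, hq, h, hqa⟩) with h | h
    · left
      rw [h, mul_one] at hc
      exact hc.symm
    · right; left
      rw [h, mul_comm] at hc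
      exact hc.symm
  obtain ⟨l, ⟨hlp, hl2, hla⟩, hlmin⟩ : ∃ l, (l.Prime ∧ l ≠ 2 ∧ l ∣ a) ∧
      ∀ q, (q.Prime ∧ q ≠ 2 ∧ q ∣ a) → l ≤ q :=
    ⟨Nat.find hO, Nat.find_spec hO, fun q hq => Nat.find_min' hO hq⟩
  obtain ⟨a', ha'⟩ := hla
  have hsq' : Squarefree a' := ha.squarefree_of_dvd ⟨l, by rw [ha']; ring⟩
  -- a second odd prime factor
  obtain ⟨l', hl'p, hl'2, hl'a⟩ : ∃ q, q.Prime ∧ q ≠ 2 ∧ q ∣ a' := by
    by_contra hcon
    rcases one_or_two a' hsq' (fun q hq hqa => by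
      by_contra h; exact hcon ⟨q, hq, h, hqa⟩) with h | h
    · refine hForm ⟨l, c, hlp, Or.inl ?_⟩
      rw [← hc, ha', h]; ring
    · refine hForm ⟨l, c, hlp, Or.inr ?_⟩
      rw [← hc, ha', h]; ring
  have hll : l * l' ∣ a := by rw [ha']; exact mul_dvd_mul_left l hl'a
  have hlt : l ≤ l' := hlmin l' ⟨hl'p, hl'2, dvd_trans (Dvd.intro_left _ rfl) hll⟩
  have hcl : c ^ 2 * l ∣ n := by
    rw [← hc, ha']
    exact mul_dvd_mul_left _ (Dvd.intro _ rfl)
  have hla : l ∣ a := ⟨a', ha'⟩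
  have hoddq : ∀ q : ℕ, q.Prime → q ∣ a → Odd (n.factorization q) := by
    intro q hq hqa
    have h1 : n.factorization q = 2 * c.factorization q + a.factorization q := by
      rw [← hc, Nat.factorization_mul (pow_ne_zero 2 (by omega)) ha0, Nat.factorization_pow]
      simp
    have h2 : a.factorization q = 1 := by
      have h3 : a.factorization q ≤ 1 := ha.natFactorization_le_one q
      have h4 : 0 < a.factorization q := hq.factorization_pos_of_dvd ha0 hqa
      omega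
    rw [h1, h2]
    exact ⟨_, rfl⟩
  have hodd := hoddq l hlp hla
  have hlX : l ^ 2 ≤ X := by
    have h1 : l * l' ≤ a := Nat.le_of_dvd (Nat.pos_of_ne_zero ha0) hll
    have h2 : a ≤ n := by
      rw [← hc]
      exact Nat.le_mul_of_pos_left _ (by positivity)
    calc l ^ 2 = l * l := sq l
      _ ≤ l * l' := Nat.mul_le_mul_left l hlt
      _ ≤ X := h1.trans (h2.trans hnX)
  -- the smallest prime factor of `n - 1`
  have hn3 : 3 ≤ n := by
    by_contra h
    have : n = 2 := by omega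
    exact hForm ⟨2, 1, Nat.prime_two, Or.inl (by rw [this]; norm_num)⟩
  have hn1 : n - 1 ≠ 1 := by omega
  have hpp : (n - 1).minFac.Prime := Nat.minFac_prime hn1
  have hpd : (n - 1).minFac ∣ n - 1 := Nat.minFac_dvd _
  have hpmin : ∀ q : ℕ, q.Prime → q ∣ n - 1 → (n - 1).minFac ≤ q := fun q hq hqd =>
    Nat.minFac_le_of_dvd hq.two_le hqd
  have hpX : (n - 1).minFac ^ 2 ≤ X := by
    have := Nat.minFac_sq_le_self (n := n - 1) (by omega) hnp
    omega
  set p := (n - 1).minFac with hpdef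
  have hp2 : p ≠ 2 := by
    intro h
    rw [h] at hpd
    have h2n : 2 ∣ n := hev.two_dvd
    omega
  have hodd1 : ∀ q : ℕ, q.Prime → q ∣ n - 1 → q ≠ 2 := by
    intro q hq hqd h
    rw [h] at hqd
    have h2n : 2 ∣ n := hev.two_dvd
    omega
  have hCo : Co c l p n := by
    refine ⟨hCond, hcl, hodd, hpd, ?_⟩
    intro q hq hqc
    exact not_sq c a n q hc ha hq hqc
  have hql : ∀ q : ℕ, q.Prime → q < l → ¬ q ∣ 2 * c → ¬ q ∣ n := by
    intro q hq hql hqk hqn
    have hqc : ¬ q ∣ c := fun h => hqk (h.mul_left 2)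
    have hq2 : q ≠ 2 := fun h => hqk (h ▸ Dvd.intro _ rfl)
    have hqa : q ∣ a := by
      rw [← hc] at hqn
      rcases (Nat.Prime.dvd_mul hq).1 hqn with h | h
      · exact absurd (hq.dvd_of_dvd_pow h) hqc
      · exact h
    exact absurd (hlmin q ⟨hq, hq2, hqa⟩) (not_le.2 hql)
  have hqp : ∀ q : ℕ, q.Prime → q < p → ¬ q ∣ 2 * c → ¬ q ∣ n - 1 := by
    intro q hq hqp _ hqn
    exact absurd (hpmin q hq hqn) (not_le.2 hqp)
  right; right
  by_cases hlW : l ≤ W
  · by_cases hpW : p ≤ W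
    · right
      refine ⟨l, p, hlp, hpp, hl2, hp2, hlX, hpX, Or.inl ⟨hlW, hpW, ?_⟩⟩
      by_cases h1 : ∃ p', p'.Prime ∧ p' ≠ p ∧ p' ≤ W ∧ p' ∣ n - 1
      · obtain ⟨p', hp'p, hp'ne, hp'W, hp'd⟩ := h1
        left
        exact ⟨p', hp'p, hodd1 p' hp'p hp'd, hp'ne, hp'W, mem_filter.2 ⟨hmem, hCo, hp'd⟩⟩
      by_cases h2 : ∃ q, q.Prime ∧ q ≠ 2 ∧ q ≠ l ∧ q ≤ W ∧ q ∣ a
      · obtain ⟨q, hqp', hq2, hqne, hqW, hqa⟩ := h2
        right; left
        refine ⟨q, hqp', hq2, hqne, hqW, mem_filter.2 ⟨hmem, hCo, ?_, hoddq q hqp' hqa⟩⟩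
        have h3 : l * q ∣ a :=
          Nat.Coprime.mul_dvd_of_dvd_of_dvd
            ((Nat.coprime_primes hlp hqp').2 (Ne.symm hqne)) hla hqa
        rw [← hc]
        exact mul_dvd_mul_left _ h3
      · right; right
        refine mem_filter.2 ⟨hmem, hCo, ?_⟩
        intro q hq hqW hqk
        have hqc : ¬ q ∣ c := fun h => hqk ((h.mul_left 2).mul_right _)
        have hq2 : q ≠ 2 := by
          rintro rfl
          exact hqk ((Dvd.intro _ rfl : 2 ∣ 2 * c).mul_right _)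
        have hql' : q ≠ l := by
          intro h
          rw [h] at hqk
          exact hqk ((Dvd.intro _ rfl : l ∣ l * p).mul_left _)
        have hqp' : q ≠ p := by
          intro h
          rw [h] at hqk
          exact hqk ((Dvd.intro_left _ rfl : p ∣ l * p).mul_left _)
        refine ⟨fun hqn => ?_, fun hqn => ?_⟩
        · have hqa : q ∣ a := by
            rw [← hc] at hqn
            rcases (Nat.Prime.dvd_mul hq).1 hqn with h | h
            · exact absurd (hq.dvd_of_dvd_pow h) hqc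
            · exact h
          exact h2 ⟨q, hq, hq2, hql', hqW, hqa⟩
        · exact h1 ⟨q, hq, hqp', hqW, hqn⟩
    · right
      exact ⟨l, p, hlp, hpp, hl2, hp2, hlX, hpX, Or.inr (Or.inr (Or.inl ⟨hlW, not_le.1 hpW,
        mem_filter.2 ⟨hmem, hCo, hqp⟩⟩))⟩
  · by_cases hpW : p ≤ W
    · right
      exact ⟨l, p, hlp, hpp, hl2, hp2, hlX, hpX, Or.inr (Or.inl ⟨not_le.1 hlW, hpW,
        mem_filter.2 ⟨hmem, hCo, hql⟩⟩)⟩
    · by_cases hlz : l ≤ z
      · by_cases hpz : p ≤ z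
        · right
          exact ⟨l, p, hlp, hpp, hl2, hp2, hlX, hpX, Or.inr (Or.inr (Or.inr ⟨not_le.1 hlW, hlz,
            not_le.1 hpW, hpz, mem_filter.2 ⟨hmem, hCo, hql, hqp⟩⟩))⟩
        · left
          refine mem_filter.2 ⟨hmem, hcn, Or.inr ⟨?_, ?_⟩⟩
          · intro q hq hqW hqk
            exact hql q hq (lt_of_le_of_lt hqW (not_le.1 hlW)) hqk
          · intro q hq hqz hqk
            exact hqp q hq (lt_of_le_of_lt hqz (not_le.1 hpz)) hqk
      · left
        refine mem_filter.2 ⟨hmem, hcn, Or.inl ⟨?_, ?_⟩⟩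
        · intro q hq hqz hqk
          exact hql q hq (lt_of_le_of_lt hqz (not_le.1 hlz)) hqk
        · intro q hq hqW hqk
          exact hqp q hq (lt_of_le_of_lt hqW (not_le.1 hpW)) hqk

end Pool.Agent.ADG
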