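import Pool.Agent.ADG.St7
import Mathlib.NumberTheory.LegendreSymbol.JacobiSymbol

/-! (QR1) The quartic character of `2` (module of project ADG, part 7) (helper96). -/

set_option autoImplicit false

namespace Pool.Agent.ADG

open Finset

namespace QR1m

open NumberTheorySymbols ZMod

theorem fourth (p : ℕ) [Fact p.Prime] (m : ℕ) (hm : p - 1 = 4 * m) (u : (ZMod p)ˣ) :
    (∃ x : ZMod p, x ^ 4 = u) ↔ u ^ m = 1 := by
  have hp : p.Prime := Fact.out
  have hp2 := hp.two_le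
  have hm0 : 0 < m := by omega
  constructor
  · rintro ⟨x, hx⟩
    have hx0 : x ≠ 0 := by
      rintro rfl
      have : (u : ZMod p) = 0 := by rw [← hx]; norm_num
      exact u.ne_zero this
    have e : (Units.mk0 x hx0) ^ 4 = u := by
      ext
      simpa using hx
    rw [← e, ← pow_mul, ← hm]
    exact ZMod.units_pow_card_sub_one_eq_one p _
  · intro h
    obtain ⟨g, hg⟩ := IsCyclic.exists_generator (α := (ZMod p)ˣ)
    obtain ⟨k, hk⟩ := Subgroup.mem_zpowers_iff.1 (hg u)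
    have ho : orderOf g = p - 1 := by
      rw [orderOf_eq_card_of_forall_mem_zpowers hg, Nat.card_eq_fintype_card, ZMod.card_units]
    have h1 : g ^ (k * m) = 1 := by
      rw [zpow_mul, hk, zpow_natCast, h]
    rw [← orderOf_dvd_iff_zpow_eq_one, ho, hm] at h1
    have h2 : (4 : ℤ) ∣ k := by
      push_cast at h1
      have hm' : (m : ℤ) ≠ 0 := by exact_mod_cast hm0.ne'
      exact (mul_dvd_mul_iff_right hm').1 h1
    obtain ⟨j, rfl⟩ := h2
    refine ⟨((g ^ j : (ZMod p)ˣ) : ZMod p), ?_⟩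
    rw [← hk, ← Units.val_pow_eq_pow_val, ← zpow_natCast, ← zpow_mul]
    congr 2
    push_cast
    ring

theorem cop (p A B : ℕ) (hp : p.Prime) (hAB : A ^ 2 + B ^ 2 = p) : Nat.Coprime A B := by
  have h1 : (Nat.gcd A B) ^ 2 ∣ p := by
    rw [← hAB]
    exact dvd_add (pow_dvd_pow_of_dvd (Nat.gcd_dvd_left A B) 2)
      (pow_dvd_pow_of_dvd (Nat.gcd_dvd_right A B) 2)
  rcases (Nat.dvd_prime hp).1 h1 with h | h
  · have h2 : Nat.gcd A B = 1 ∨ 2 = 0 := Nat.pow_eq_one.1 h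
    exact h2.resolve_right (by norm_num)
  · exfalso
    rw [← h] at hp
    exact Nat.Prime.not_prime_pow le_rfl hp

theorem jA (p A B : ℕ) (hp : p.Prime) (h8 : p % 8 = 1) (hAB : A ^ 2 + B ^ 2 = p) (hA : A % 2 = 1) :
    J((A : ℤ) | p) = 1 := by
  have hc := cop p A B hp hAB
  have h1 : J((p : ℤ) | A) = J((A : ℤ) | p) :=
    jacobiSym.quadratic_reciprocity_one_mod_four (by omega) (Nat.odd_iff.2 hA)
  rw [← h1]
  have h2 : J((p : ℤ) | A) = J((B : ℤ) ^ 2 | A) := by
    refine jacobiSym.mod_left' ?_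
    rw [← hAB]
    push_cast
    rw [pow_two (A : ℤ)]
    simp
  rw [h2]
  exact jacobiSym.sq_one' (by rw [Int.gcd_natCast_natCast]; exact hc.symm)

theorem jAB (p A B : ℕ) (hp : p.Prime) (h8 : p % 8 = 1) (hAB : A ^ 2 + B ^ 2 = p) (hA : A % 2 = 1)
    (hB : 4 ∣ B) : J(((A + B : ℕ) : ℤ) | p) = J(2 | A + B) := by
  have hc := cop p A B hp hAB
  have hodd : (A + B) % 2 = 1 := by omega
  have h1 : J((p : ℤ) | A + B) = J(((A + B : ℕ) : ℤ) | p) :=
    jacobiSym.quadratic_reciprocity_one_mod_four (by omega) (Nat.odd_iff.2 hodd)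
  rw [← h1]
  have h2 : J(2 * (p : ℤ) | A + B) = J(((A : ℤ) - B) ^ 2 | A + B) := by
    refine jacobiSym.mod_left' ?_
    rw [← hAB]
    push_cast
    have e : 2 * ((A : ℤ) ^ 2 + B ^ 2) = (A - B) ^ 2 + (A + B) * (A + B) := by ring
    rw [e]
    simp
  have hcop : ((A : ℤ) - B).gcd ((A + B : ℕ) : ℤ) = 1 := by
    have hc' : IsCoprime (A : ℤ) (B : ℤ) := Nat.isCoprime_iff_coprime.2 hc
    rw [← Int.isCoprime_iff_gcd_eq_one]
    have hc2 : IsCoprime (2 : ℤ) ((A + B : ℕ) : ℤ) := by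
      rw [Int.isCoprime_iff_gcd_eq_one]
      have : Nat.Coprime 2 (A + B) := (Nat.coprime_two_left).2 (Nat.odd_iff.2 hodd)
      exact_mod_cast this
    have hc3 : IsCoprime (B : ℤ) ((A + B : ℕ) : ℤ) := by
      push_cast
      have := hc'.symm.add_mul_left_right 1
      simpa using this
    have hc4 : IsCoprime (-(2 * B) : ℤ) ((A + B : ℕ) : ℤ) := (hc2.mul_left hc3).neg_left
    have e : ((A : ℤ) - B) = -(2 * B) + ((A + B : ℕ) : ℤ) * 1 := by push_cast; ring
    rw [e]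
    exact hc4.add_mul_left_left 1
  rw [jacobiSym.sq_one' hcop, jacobiSym.mul_left] at h2
  exact (Int.eq_of_mul_eq_one h2).symm

theorem nz (p k : ℕ) (h1 : 0 < k) (h2 : k < p) : (k : ZMod p) ≠ 0 := by
  intro h
  rw [ZMod.natCast_eq_zero_iff] at h
  exact absurd (Nat.le_of_dvd h1 h) (by omega)

theorem main (p A B t : ℕ) [Fact p.Prime] (ht : p = 8 * t + 1) (hAB : A ^ 2 + B ^ 2 = p)
    (hA : A % 2 = 1) (hB : 4 ∣ B) :
    (2 : ZMod p) ^ (2 * t) = ((J(2 | A + B) * (-1) ^ t : ℤ) : ZMod p) := by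
  have hp : p.Prime := Fact.out
  have h8 : p % 8 = 1 := by omega
  have hA1 : (A : ZMod p) ^ (p / 2) = 1 := by
    have h1 := legendreSym.eq_pow p (A : ℤ)
    rw [jacobiSym.legendreSym.to_jacobiSym, jA p A B hp h8 hAB hA] at h1
    push_cast at h1
    exact h1.symm
  have hAB1 : ((A : ZMod p) + B) ^ (p / 2) = (J(2 | A + B) : ZMod p) := by
    have h1 := legendreSym.eq_pow p ((A + B : ℕ) : ℤ)
    rw [jacobiSym.legendreSym.to_jacobiSym, jAB p A B hp h8 hAB hA hB] at h1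
    push_cast at h1
    exact h1.symm
  have h2 : p / 2 = 4 * t := by omega
  rw [h2] at hA1 hAB1
  have hz : (A : ZMod p) ^ 2 + B ^ 2 = 0 := by
    have : ((A ^ 2 + B ^ 2 : ℕ) : ZMod p) = 0 := by rw [hAB]; exact ZMod.natCast_self p
    push_cast at this
    exact this
  have e1 : ((A : ZMod p) + B) ^ 2 = 2 * (A * B) := by
    linear_combination hz
  have e2 : ((A : ZMod p) * B) ^ 2 = -1 * A ^ 4 := by
    linear_combination (A : ZMod p) ^ 2 * hz
  have e3 : ((A : ZMod p) + B) ^ (4 * t) = 2 ^ (2 * t) * (-1) ^ t := by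
    calc ((A : ZMod p) + B) ^ (4 * t) = (((A : ZMod p) + B) ^ 2) ^ (2 * t) := by
          rw [← pow_mul]; congr 1; ring
      _ = 2 ^ (2 * t) * (((A : ZMod p) * B) ^ 2) ^ t := by
          rw [e1, mul_pow, pow_mul ((A : ZMod p) * B) 2 t]
      _ = 2 ^ (2 * t) * ((-1) ^ t * A ^ (4 * t)) := by
          rw [e2, mul_pow, ← pow_mul]
      _ = _ := by rw [hA1, mul_one]
  rw [hAB1] at e3
  push_cast
  rw [e3, mul_assoc, ← mul_pow]
  norm_num

theorem eight (p A B : ℕ) [Fact p.Prime] (h8 : p % 8 = 1) (hAB : A ^ 2 + B ^ 2 = p)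
    (hA : A % 2 = 1) (hB : 4 ∣ B) : ((2 : ZMod p) ^ ((p - 1) / 4) = 1 ↔ 8 ∣ B) := by
  have hp : p.Prime := Fact.out
  obtain ⟨t, ht⟩ : ∃ t, p = 8 * t + 1 := ⟨p / 8, by omega⟩
  have h1 := main p A B t ht hAB hA hB
  have h2 : (p - 1) / 4 = 2 * t := by omega
  rw [h2, h1]
  have hodd : Odd (A + B) := Nat.odd_iff.2 (by omega)
  rw [jacobiSym.at_two hodd, ZMod.χ₈_nat_eq_if_mod_eight]
  have hp3 : 2 < p := by
    have := hp.two_le
    omega
  have hne : ((-1 : ℤ) : ZMod p) ≠ 1 := by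
    intro h
    have h3 : ((2 : ℕ) : ZMod p) = 0 := by
      push_cast at h ⊢
      linear_combination -h
    exact nz p 2 (by norm_num) hp3 h3
  -- reduction modulo 16
  have h16 : p % 16 = (A % 16) ^ 2 % 16 := by
    obtain ⟨b, rfl⟩ := hB
    have e : (4 * b) ^ 2 = 16 * b ^ 2 := by ring
    rw [← hAB, e, Nat.add_mul_mod_self_left, Nat.pow_mod]
  have hA16 : A % 16 < 16 := Nat.mod_lt _ (by norm_num)
  have hcase : (t % 2 = 0 ∧ (A % 8 = 1 ∨ A % 8 = 7)) ∨ (t % 2 = 1 ∧ (A % 8 = 3 ∨ A % 8 = 5)) := by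
    have hA2 : A % 16 % 2 = 1 := by omega
    generalize hr : A % 16 = r at *
    interval_cases r <;> simp at h16 hA2 <;> omega
  have hnotdvd : ¬ (A + B) % 2 = 0 := by omega
  rw [if_neg hnotdvd]
  rcases hcase with ⟨ht2, hA8⟩ | ⟨ht2, hA8⟩
  · have e : (-1 : ℤ) ^ t = 1 := (Nat.even_iff.2 ht2).neg_one_pow
    rw [e, mul_one]
    split_ifs with h
    · simp only [Int.cast_one, true_iff]
      omega
    · constructor
      · intro h'; exact absurd h' hne
      · intro h'; omega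
  · have e : (-1 : ℤ) ^ t = -1 := (Nat.odd_iff.2 ht2).neg_one_pow
    rw [e]
    split_ifs with h
    · rw [one_mul]
      constructor
      · intro h'; exact absurd h' hne
      · intro h'; omega
    · norm_num
      omega

end QR1m

open QR1m in
theorem QR1_thm : Stmt_QR1 := by
  intro p a b hp h8 hab hb
  have : Fact p.Prime := ⟨hp⟩
  have hp2 := hp.two_le
  have hAB : a.natAbs ^ 2 + b.natAbs ^ 2 = p := by
    zify
    rw [sq_abs, sq_abs]
    exact hab
  have hb2 : b.natAbs % 2 = 0 := by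
    have := hb.two_dvd
    omega
  have hA : a.natAbs % 2 = 1 := by
    rcases Nat.mod_two_eq_zero_or_one a.natAbs with h | h
    · exfalso
      have h1 : 2 ∣ p := by
        rw [← hAB]
        exact dvd_add (dvd_pow (Nat.dvd_of_mod_eq_zero h) (by norm_num))
          (dvd_pow (Nat.dvd_of_mod_eq_zero hb2) (by norm_num))
      omega
    · exact h
  have hB : 4 ∣ b.natAbs := by
    have h1 : (a.natAbs ^ 2) % 8 = 1 := by
      have h3 : a.natAbs % 8 < 8 := Nat.mod_lt _ (by norm_num)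
      have h4 : a.natAbs % 8 % 2 = 1 := by omega
      rw [Nat.pow_mod]
      generalize a.natAbs % 8 = r at *
      interval_cases r <;> simp at h4 ⊢
    have h2 : (b.natAbs ^ 2) % 8 = 0 := by omega
    have h3 : b.natAbs % 8 < 8 := Nat.mod_lt _ (by norm_num)
    rw [Nat.pow_mod] at h2
    have h5 : b.natAbs % 8 = 0 ∨ b.natAbs % 8 = 4 := by
      generalize b.natAbs % 8 = r at *
      interval_cases r <;> simp at h2 ⊢
    omega
  have h4 : p - 1 = 4 * ((p - 1) / 4) := by omega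
  have h2ne : (2 : ZMod p) ≠ 0 := by
    have := nz p 2 (by norm_num) (by omega)
    exact_mod_cast this
  have hf := fourth p ((p - 1) / 4) h4 (Units.mk0 2 h2ne)
  have he := eight p a.natAbs b.natAbs h8 hAB hA hB
  have e1 : (Units.mk0 (2 : ZMod p) h2ne) ^ ((p - 1) / 4) = 1 ↔ (2 : ZMod p) ^ ((p - 1) / 4) = 1 := by
    rw [← Units.val_eq_one]
    simp
  rw [e1, he] at hf
  simp only [Units.val_mk0] at hf
  rw [hf]
  omega

end Pool.Agent.ADG
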