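import Pool.Agent.ADG.St7
import Mathlib.NumberTheory.DirichletCharacter.Orthogonality
import Mathlib.NumberTheory.SumPrimeReciprocals

/-! (QRT) Primes `p = 1 mod M` modulo which `2` is not a fourth power (module of project ADG, part 7) (helper96). -/

set_option autoImplicit false

namespace Pool.Agent.ADG

open Finset

namespace QRTm

theorem twist (h1 : Stmt_RRM) (h2 : Stmt_EUL) (h3 : Stmt_LBD) (M : ℕ) [NeZero M]
    (ψ : DirichletCharacter ℂ M) : ∃ C : ℝ, ∀ s : ℝ, 1 < s → s ≤ 2 →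
    ∑' p : Nat.Primes, (rr p * ψ ((p : ℕ) : ZMod M)).re * ((p : ℕ) : ℝ) ^ (-s) ≤ C := by
  obtain ⟨r1, rm, rd, rl, -, -⟩ := h1
  obtain ⟨C, hC⟩ := h3 M ψ
  refine h2 (fun n => rr n * ψ (n : ZMod M)) ?_ ?_ ?_ ?_ C hC
  · simp [r1]
  · intro a b hab
    simp only [rm a b hab, Nat.cast_mul, map_mul]
    ring
  · intro n hn
    have h4 : ‖ψ (n : ZMod M)‖ ≤ 1 := ψ.norm_le_one _
    calc ‖rr n * ψ (n : ZMod M)‖ = ‖rr n‖ * ‖ψ (n : ZMod M)‖ := norm_mul _ _
      _ ≤ ‖rr n‖ * 1 := mul_le_mul_of_nonneg_left h4 (norm_nonneg _)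
      _ ≤ n.divisors.card := by rw [mul_one]; exact rd n hn
  · intro p hp
    obtain ⟨α, β, hα, hβ, hk⟩ := rl p hp
    have h4 : ‖ψ (p : ZMod M)‖ ≤ 1 := ψ.norm_le_one _
    refine ⟨α * ψ (p : ZMod M), β * ψ (p : ZMod M), ?_, ?_, ?_⟩
    · rw [norm_mul]
      exact mul_le_one₀ hα (norm_nonneg _) h4
    · rw [norm_mul]
      exact mul_le_one₀ hβ (norm_nonneg _) h4
    · intro k
      simp only [hk k, Nat.cast_pow, map_pow, Finset.sum_mul]
      refine Finset.sum_congr rfl fun j hj => ?_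
      have hjk : j + (k - j) = k := by
        rw [Finset.mem_range] at hj
        omega
      rw [mul_pow, mul_pow]
      calc α ^ j * β ^ (k - j) * ψ (p : ZMod M) ^ k
          = α ^ j * β ^ (k - j) * ψ (p : ZMod M) ^ (j + (k - j)) := by rw [hjk]
        _ = α ^ j * ψ (p : ZMod M) ^ j * (β ^ (k - j) * ψ (p : ZMod M) ^ (k - j)) := by
            rw [pow_add]; ring

theorem sump (s : ℝ) (hs : 1 < s) : Summable (fun p : Nat.Primes => ((p : ℕ) : ℝ) ^ (-s)) :=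
  Nat.Primes.summable_rpow.2 (by linarith)

theorem rr_le (h1 : Stmt_RRM) (p : ℕ) (hp : p.Prime) : ‖rr p‖ ≤ 2 := by
  have h := h1.2.2.1 p hp.one_lt.le
  rw [hp.divisors, Finset.card_pair hp.one_lt.ne] at h
  exact_mod_cast h

theorem res (h1 : Stmt_RRM) (h2 : Stmt_EUL) (h3 : Stmt_LBD) (M : ℕ) [NeZero M] :
    ∃ C : ℝ, ∀ s : ℝ, 1 < s → s ≤ 2 →
    ∑' p : Nat.Primes, (if ((p : ℕ) : ZMod M) = 1 then (M.totient : ℝ) else 0) * (rr p).re *
      ((p : ℕ) : ℝ) ^ (-s) ≤ C := by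
  choose C hC using fun ψ : DirichletCharacter ℂ M => twist h1 h2 h3 M ψ
  refine ⟨∑ ψ, C ψ, fun s hs hs2 => ?_⟩
  have hsum : ∀ ψ : DirichletCharacter ℂ M, Summable
      (fun p : Nat.Primes => (rr p * ψ ((p : ℕ) : ZMod M)).re * ((p : ℕ) : ℝ) ^ (-s)) := by
    intro ψ
    refine Summable.of_norm_bounded ((sump s hs).mul_left 2) fun p => ?_
    have hp0 : (0 : ℝ) ≤ ((p : ℕ) : ℝ) ^ (-s) := by positivity
    rw [norm_mul, Real.norm_of_nonneg hp0]
    refine mul_le_mul_of_nonneg_right ?_ hp0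
    calc ‖(rr p * ψ ((p : ℕ) : ZMod M)).re‖ ≤ ‖rr p * ψ ((p : ℕ) : ZMod M)‖ :=
          Complex.abs_re_le_norm _
      _ = ‖rr p‖ * ‖ψ ((p : ℕ) : ZMod M)‖ := norm_mul _ _
      _ ≤ 2 * 1 := mul_le_mul (rr_le h1 p p.2) (ψ.norm_le_one _) (norm_nonneg _) (by norm_num)
      _ = 2 := by norm_num
  calc ∑' p : Nat.Primes, (if ((p : ℕ) : ZMod M) = 1 then (M.totient : ℝ) else 0) * (rr p).re *
        ((p : ℕ) : ℝ) ^ (-s)
      = ∑' p : Nat.Primes, ∑ ψ : DirichletCharacter ℂ M,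
          (rr p * ψ ((p : ℕ) : ZMod M)).re * ((p : ℕ) : ℝ) ^ (-s) := by
        refine tsum_congr fun p => ?_
        rw [← Finset.sum_mul]
        congr 1
        have e : ∑ ψ : DirichletCharacter ℂ M, (rr p * ψ ((p : ℕ) : ZMod M)).re =
            (rr p * ∑ ψ : DirichletCharacter ℂ M, ψ ((p : ℕ) : ZMod M)).re := by
          rw [Finset.mul_sum, Complex.re_sum]
        rw [e, DirichletCharacter.sum_characters_eq]
        split_ifs with h
        · rw [mul_comm]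
          simp
        · simp
    _ = ∑ ψ : DirichletCharacter ℂ M, ∑' p : Nat.Primes,
          (rr p * ψ ((p : ℕ) : ZMod M)).re * ((p : ℕ) : ℝ) ^ (-s) :=
        Summable.tsum_finsetSum fun ψ _ => hsum ψ
    _ ≤ ∑ ψ, C ψ := Finset.sum_le_sum fun ψ _ => hC ψ s hs hs2

open Classical in
/-- the indicator of the residue class -/
noncomputable def A (M : ℕ) (p : ℕ) : ℝ := if (p : ZMod M) = 1 then 1 else 0

open Classical in
/-- the indicator of the bad primes -/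
noncomputable def B (M : ℕ) (p : ℕ) : ℝ :=
  if (p : ZMod M) = 1 ∧ ¬ ∃ x : ZMod p, x ^ 4 = 2 then 1 else 0

theorem A_nn (M p : ℕ) : 0 ≤ A M p := by unfold A; split_ifs <;> norm_num
theorem A_le (M p : ℕ) : A M p ≤ 1 := by unfold A; split_ifs <;> norm_num
theorem B_nn (M p : ℕ) : 0 ≤ B M p := by unfold B; split_ifs <;> norm_num
theorem B_le (M p : ℕ) : B M p ≤ 1 := by unfold B; split_ifs <;> norm_num

theorem term (h1 : Stmt_RRM) (M p : ℕ) (h8 : 8 ∣ M) (hp : p.Prime) (c : ℝ) :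
    (if (p : ZMod M) = 1 then c else 0) * (rr p).re = 2 * c * A M p - 4 * c * B M p := by
  unfold A B
  by_cases h : (p : ZMod M) = 1
  · have hp8 : p % 8 = 1 := by
      have h2 : ((p : ℕ) : ZMod M) = ((1 : ℕ) : ZMod M) := by rw [h, Nat.cast_one]
      rw [ZMod.natCast_eq_natCast_iff] at h2
      exact h2.of_dvd h8
    obtain ⟨h3, h4⟩ := h1.2.2.2.2.2 p hp hp8
    by_cases h5 : ∃ x : ZMod p, x ^ 4 = 2
    · rw [if_pos h, if_pos h, if_neg (fun h6 => h6.2 h5), h3 h5]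
      simp
      ring
    · rw [if_pos h, if_pos h, if_pos ⟨h, h5⟩, h4 h5]
      simp
      ring
  · rw [if_neg h, if_neg h, if_neg (fun h6 => h h6.1)]
    ring

theorem sumA (M : ℕ) (s : ℝ) (hs : 1 < s) :
    Summable (fun p : Nat.Primes => A M p * ((p : ℕ) : ℝ) ^ (-s)) := by
  refine Summable.of_nonneg_of_le (fun p => mul_nonneg (A_nn M p) (by positivity)) (fun p => ?_)
    (sump s hs)
  exact mul_le_of_le_one_left (by positivity) (A_le M p)

theorem sumB (M : ℕ) (s : ℝ) (hs : 1 < s) :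
    Summable (fun p : Nat.Primes => B M p * ((p : ℕ) : ℝ) ^ (-s)) := by
  refine Summable.of_nonneg_of_le (fun p => mul_nonneg (B_nn M p) (by positivity)) (fun p => ?_)
    (sump s hs)
  exact mul_le_of_le_one_left (by positivity) (B_le M p)

theorem bdd (h1 : Stmt_RRM) (h2 : Stmt_EUL) (h3 : Stmt_LBD) (M : ℕ) [NeZero M] (h8 : 8 ∣ M)
    (hB : Summable (fun p : Nat.Primes => B M p * (1 / ((p : ℕ) : ℝ)))) :
    ∃ K : ℝ, ∀ s : ℝ, 1 < s → s ≤ 2 →
      ∑' p : Nat.Primes, A M p * ((p : ℕ) : ℝ) ^ (-s) ≤ K := by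
  obtain ⟨C, hC⟩ := res h1 h2 h3 M
  set c : ℝ := (M.totient : ℝ) with hc
  have hc0 : 0 < c := by
    rw [hc]
    exact_mod_cast Nat.totient_pos.2 (NeZero.pos M)
  set K₀ := ∑' p : Nat.Primes, B M p * (1 / ((p : ℕ) : ℝ)) with hK0
  refine ⟨(C + 4 * c * K₀) / (2 * c), fun s hs hs2 => ?_⟩
  have h4 := hC s hs hs2
  have e1 : ∑' p : Nat.Primes, (if ((p : ℕ) : ZMod M) = 1 then c else 0) * (rr p).re *
      ((p : ℕ) : ℝ) ^ (-s) = 2 * c * ∑' p : Nat.Primes, A M p * ((p : ℕ) : ℝ) ^ (-s) -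
        4 * c * ∑' p : Nat.Primes, B M p * ((p : ℕ) : ℝ) ^ (-s) := by
    rw [← tsum_mul_left, ← tsum_mul_left, ← Summable.tsum_sub]
    · refine tsum_congr fun p => ?_
      rw [term h1 M p h8 p.2 c]
      ring
    · exact (sumA M s hs).mul_left _
    · exact (sumB M s hs).mul_left _
  rw [e1] at h4
  have h5 : ∑' p : Nat.Primes, B M p * ((p : ℕ) : ℝ) ^ (-s) ≤ K₀ := by
    refine Summable.tsum_le_tsum (fun p => ?_) (sumB M s hs) hB
    refine mul_le_mul_of_nonneg_left ?_ (B_nn M p)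
    have hp1 : (1 : ℝ) ≤ ((p : ℕ) : ℝ) := by exact_mod_cast p.2.one_lt.le
    rw [one_div, ← Real.rpow_neg_one]
    exact Real.rpow_le_rpow_of_exponent_le hp1 (by linarith)
  rw [le_div_iff₀ (by positivity)]
  have h6 : 4 * c * ∑' p : Nat.Primes, B M p * ((p : ℕ) : ℝ) ^ (-s) ≤ 4 * c * K₀ :=
    mul_le_mul_of_nonneg_left h5 (by positivity)
  linarith

theorem lim (M : ℕ) (K : ℝ) (h : ∀ s : ℝ, 1 < s → s ≤ 2 →
      ∑' p : Nat.Primes, A M p * ((p : ℕ) : ℝ) ^ (-s) ≤ K) :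
    Summable (fun p : Nat.Primes => A M p * (1 / ((p : ℕ) : ℝ))) := by
  refine summable_of_sum_le (c := K) (fun p => mul_nonneg (A_nn M p) (by positivity)) fun T => ?_
  have h1 : Filter.Tendsto (fun s : ℝ => ∑ p ∈ T, A M p * ((p : ℕ) : ℝ) ^ (-s))
      (nhdsWithin 1 (Set.Ioi 1)) (nhds (∑ p ∈ T, A M p * ((p : ℕ) : ℝ) ^ (-(1 : ℝ)))) := by
    refine Filter.Tendsto.mono_left ?_ nhdsWithin_le_nhds
    refine tendsto_finsetSum _ fun p _ => Filter.Tendsto.const_mul _ ?_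
    have hp0 : (0 : ℝ) < ((p : ℕ) : ℝ) := by exact_mod_cast p.2.pos
    have hcont : Continuous (fun s : ℝ => ((p : ℕ) : ℝ) ^ (-s)) :=
      continuous_const.rpow continuous_neg (fun _ => Or.inl hp0.ne')
    exact hcont.tendsto 1
  have h2 : ∀ᶠ s : ℝ in nhdsWithin 1 (Set.Ioi 1),
      ∑ p ∈ T, A M p * ((p : ℕ) : ℝ) ^ (-s) ≤ K := by
    filter_upwards [Ioc_mem_nhdsGT (show (1 : ℝ) < 2 by norm_num)] with s hs
    refine le_trans ?_ (h s hs.1 hs.2)
    exact Summable.sum_le_tsum T (fun p _ => mul_nonneg (A_nn M p) (by positivity))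
      (sumA M s hs.1)
  have h3 := le_of_tendsto h1 h2
  refine le_trans (le_of_eq ?_) h3
  refine Finset.sum_congr rfl fun p _ => ?_
  rw [Real.rpow_neg_one, one_div]

end QRTm

open QRTm in
open Classical in
theorem QRT_thm (h1 : Stmt_RRM) (h2 : Stmt_EUL) (h3 : Stmt_LBD) (h4 : Stmt_DR1) : Stmt_QRT := by
  intro M hM hS
  have : NeZero (8 * M) := ⟨by omega⟩
  have hB : Summable (fun p : Nat.Primes => B (8 * M) p * (1 / ((p : ℕ) : ℝ))) := by
    have h5 : Summable (fun p : Nat.Primes => (if (p : ℕ).Prime ∧ (p : ℕ) ≡ 1 [MOD M] ∧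
        ¬ ∃ x : ZMod (p : ℕ), x ^ 4 = 2 then (1 : ℝ) / (p : ℕ) else 0)) :=
      hS.comp_injective Nat.Primes.coe_nat_injective
    refine Summable.of_nonneg_of_le (fun p => mul_nonneg (B_nn _ p) (by positivity))
      (fun p => ?_) h5
    unfold B
    by_cases h6 : ((p : ℕ) : ZMod (8 * M)) = 1 ∧ ¬ ∃ x : ZMod (p : ℕ), x ^ 4 = 2
    · have h7 : (p : ℕ) ≡ 1 [MOD M] := by
        have h8 : ((p : ℕ) : ZMod (8 * M)) = ((1 : ℕ) : ZMod (8 * M)) := by
          rw [h6.1, Nat.cast_one]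
        rw [ZMod.natCast_eq_natCast_iff] at h8
        exact h8.of_dvd (Dvd.intro_left _ rfl)
      rw [if_pos h6, if_pos ⟨p.2, h7, h6.2⟩, one_mul]
    · rw [if_neg h6, zero_mul]
      split_ifs
      · positivity
      · exact le_rfl
  obtain ⟨K, hK⟩ := bdd h1 h2 h3 (8 * M) (Dvd.intro _ rfl) hB
  have hA := lim (8 * M) K hK
  refine h4 (8 * M) 1 (by omega) (Nat.coprime_one_left _) ?_
  have h5 := (summable_subtype_iff_indicator (s := {p : ℕ | p.Prime})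
    (f := fun p : ℕ => A (8 * M) p * (1 / (p : ℝ)))).1 hA
  refine h5.congr fun p => ?_
  unfold A
  by_cases hp : p.Prime
  · rw [Set.indicator_of_mem (show p ∈ {p : ℕ | p.Prime} from hp)]
    have e : (p : ZMod (8 * M)) = 1 ↔ p ≡ 1 [MOD 8 * M] := by
      rw [← ZMod.natCast_eq_natCast_iff, Nat.cast_one]
    by_cases h6 : p ≡ 1 [MOD 8 * M]
    · rw [if_pos (e.2 h6), if_pos ⟨hp, h6⟩, one_mul]
    · rw [if_neg (fun h => h6 (e.1 h)), if_neg (fun h => h6 h.2), zero_mul]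
  · rw [Set.indicator_of_notMem (show p ∉ {p : ℕ | p.Prime} from hp), if_neg (fun h => hp h.1)]

end Pool.Agent.ADG
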