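import Pool.Agent.ADG.St7

/-!
# Module RRM of project ADG, part 7 (MP_43d07b_co): the coefficients `rr` (helper85)

The proof follows the doc string of `Stmt_RRM`: unique factorization in the Gaussian integers.
-/

set_option autoImplicit false

namespace Pool.Agent.ADG

namespace RRMm

open Finset

/-- the Gaussian integers of norm `n` -/
noncomputable def S (n : ℕ) : Finset GaussianInt :=
  (((Icc (-(n : ℤ)) n) ×ˢ (Icc (-(n : ℤ)) n)).filter
    (fun x => x.1 ^ 2 + x.2 ^ 2 = (n : ℤ))).image (fun x => (⟨x.1, x.2⟩ : GaussianInt))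

lemma norm_eq (z : GaussianInt) : z.norm = z.re ^ 2 + z.im ^ 2 := by
  rw [Zsqrtd.norm_def]
  ring

lemma mem_S {n : ℕ} {z : GaussianInt} : z ∈ S n ↔ z.norm = n := by
  unfold S
  rw [mem_image]
  constructor
  · rintro ⟨x, hx, rfl⟩
    rw [mem_filter] at hx
    rw [norm_eq]
    exact hx.2
  · intro h
    rw [norm_eq] at h
    refine ⟨(z.re, z.im), ?_, rfl⟩
    rw [mem_filter, mem_product, mem_Icc, mem_Icc]
    have h1 : ∀ a b : ℤ, a ^ 2 + b ^ 2 = n → -(n : ℤ) ≤ a ∧ a ≤ n := by
      intro a b hab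
      constructor <;> nlinarith [sq_nonneg b, sq_nonneg (a - 1), sq_nonneg (a + 1), sq_nonneg a]
    refine ⟨⟨h1 _ _ h, h1 z.im z.re (by rw [add_comm]; exact h)⟩, h⟩

lemma rr_eq (n : ℕ) : rr n = (1 / 4 : ℂ) * ∑ z ∈ S n, rho z := by
  classical
  unfold rr S
  congr 1
  rw [sum_image, sum_filter, sum_product]
  intro x _ y _ hxy
  have h1 := congrArg Zsqrtd.re hxy
  have h2 := congrArg Zsqrtd.im hxy
  exact Prod.ext h1 h2

lemma mem_U {z : GaussianInt} : z ∈ S 1 ↔ IsUnit z := by
  rw [mem_S, Nat.cast_one]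
  exact Zsqrtd.norm_eq_one_iff' (by norm_num) z

lemma card_U : (S 1).card = 4 := by decide

lemma star_unit {u : GaussianInt} (hu : u ∈ S 1) : u * star u = 1 := by
  rw [← Zsqrtd.norm_eq_mul_conj, mem_S.1 hu]
  simp

lemma star_mem {n : ℕ} {z : GaussianInt} (hz : z ∈ S n) : star z ∈ S n := by
  rw [mem_S] at hz ⊢
  rw [Zsqrtd.norm_conj, hz]

lemma mul_mem {m n : ℕ} {z w : GaussianInt} (hz : z ∈ S m) (hw : w ∈ S n) : z * w ∈ S (m * n) := by
  rw [mem_S] at hz hw ⊢
  rw [Zsqrtd.norm_mul, hz, hw]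
  push_cast
  ring

lemma ne_zero {n : ℕ} (hn : 1 ≤ n) {z : GaussianInt} (hz : z ∈ S n) : z ≠ 0 := by
  rintro rfl
  rw [mem_S, Zsqrtd.norm_zero] at hz
  have : (n : ℤ) ≠ 0 := by exact_mod_cast (by omega : n ≠ 0)
  exact this hz.symm

/-- the gcd of `v` and `m` has norm `m` -/
lemma exists_gcd {m n : ℕ} (hm : 1 ≤ m) (hmn : m.Coprime n) {v : GaussianInt}
    (hv : v ∈ S (m * n)) :
    ∃ g w : GaussianInt, g ∈ S m ∧ w ∈ S n ∧ v = g * w ∧
      ∀ z : GaussianInt, z ∈ S m → z ∣ v → ∃ u ∈ S 1, z = u * g := by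
  have hv' := mem_S.1 hv
  set g : GaussianInt := EuclideanDomain.gcd v ((m : ℕ) : GaussianInt) with hg
  have hgv : g ∣ v := EuclideanDomain.gcd_dvd_left _ _
  have hgm : g ∣ ((m : ℕ) : GaussianInt) := EuclideanDomain.gcd_dvd_right _ _
  have hab := EuclideanDomain.gcd_eq_gcd_ab v ((m : ℕ) : GaussianInt)
  rw [← hg] at hab
  set a := EuclideanDomain.gcdA v ((m : ℕ) : GaussianInt)
  set b := EuclideanDomain.gcdB v ((m : ℕ) : GaussianInt)
  have h1 : ((m : ℤ)) ∣ g.norm := by
    rw [← Zsqrtd.intCast_dvd_intCast (d := -1), Zsqrtd.norm_eq_mul_conj, hab, star_add, star_mul,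
      star_mul]
    have h2 : (v * star v : GaussianInt) = ((m : ℕ) : GaussianInt) * ((n : ℕ) : GaussianInt) := by
      rw [← Zsqrtd.norm_eq_mul_conj, hv']
      push_cast
      ring
    have h3 : star ((m : ℕ) : GaussianInt) = ((m : ℕ) : GaussianInt) := by simp
    rw [h3]
    refine ⟨((n : ℕ) : GaussianInt) * (a * star a) + v * a * star b + b * (star a * star v) +
      ((m : ℕ) : GaussianInt) * (b * star b), ?_⟩
    have e : (v * a + ((m : ℕ) : GaussianInt) * b) * (star a * star v +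
        star b * ((m : ℕ) : GaussianInt)) =
        (v * star v) * (a * star a) + ((m : ℕ) : GaussianInt) * (v * a * star b +
        b * (star a * star v) + ((m : ℕ) : GaussianInt) * (b * star b)) := by ring
    rw [e, h2]
    push_cast
    ring
  have h2 : g.norm ∣ (m : ℤ) * n := by
    obtain ⟨c, hc⟩ := hgv
    refine ⟨c.norm, ?_⟩
    rw [← Zsqrtd.norm_mul, ← hc, hv']
    push_cast
    ring
  have h3 : g.norm ∣ (m : ℤ) * m := by
    obtain ⟨c, hc⟩ := hgm
    refine ⟨c.norm, ?_⟩
    rw [← Zsqrtd.norm_mul, ← hc, Zsqrtd.norm_natCast]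
  have hcop : IsCoprime (m : ℤ) n := Nat.isCoprime_iff_coprime.2 hmn
  obtain ⟨x, y, hxy⟩ := hcop
  have h4 : g.norm ∣ (m : ℤ) := by
    have : (m : ℤ) = (m * m) * x + (m * n) * y := by linear_combination (-(m : ℤ)) * hxy
    rw [this]
    exact dvd_add (h3.mul_right _) (h2.mul_right _)
  have hgn : g.norm = m :=
    Int.dvd_antisymm (GaussianInt.norm_nonneg g) (by positivity) h4 h1
  have hgS : g ∈ S m := mem_S.2 hgn
  obtain ⟨w, hw⟩ := hgv
  have hwn : w ∈ S n := by
    rw [mem_S]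
    have h5 := hv'
    rw [hw, Zsqrtd.norm_mul, hgn] at h5
    have hm0 : (m : ℤ) ≠ 0 := by exact_mod_cast (by omega : m ≠ 0)
    push_cast at h5
    exact mul_left_cancel₀ hm0 h5
  refine ⟨g, w, hgS, hwn, hw, fun z hz hzv => ?_⟩
  have hzm : z ∣ ((m : ℕ) : GaussianInt) := by
    refine ⟨star z, ?_⟩
    rw [← Zsqrtd.norm_eq_mul_conj, mem_S.1 hz]
    simp
  have hzg : z ∣ g := EuclideanDomain.dvd_gcd hzv hzm
  obtain ⟨t, ht⟩ := hzg
  have htn : t ∈ S 1 := by
    rw [mem_S]
    have h5 := hgn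
    rw [ht, Zsqrtd.norm_mul, mem_S.1 hz] at h5
    have hm0 : (m : ℤ) ≠ 0 := by exact_mod_cast (by omega : m ≠ 0)
    have h6 : (m : ℤ) * t.norm = m * 1 := by rw [h5, mul_one]
    simpa using mul_left_cancel₀ hm0 h6
  refine ⟨star t, star_mem htn, ?_⟩
  rw [ht]
  have h7 := star_unit htn
  calc z = z * (t * star t) := by rw [h7, mul_one]
    _ = star t * (z * t) := by ring

lemma card_fiber {m n : ℕ} (hm : 1 ≤ m) (hmn : m.Coprime n) {v : GaussianInt}
    (hv : v ∈ S (m * n)) :
    (((S m) ×ˢ (S n)).filter (fun x => x.1 * x.2 = v)).card = 4 := by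
  classical
  obtain ⟨g, w, hg, hw, hgw, huniq⟩ := exists_gcd hm hmn hv
  rw [← card_U]
  symm
  refine card_bij (fun u _ => (u * g, star u * w)) ?_ ?_ ?_
  · intro u hu
    rw [mem_filter, mem_product]
    refine ⟨⟨?_, ?_⟩, ?_⟩
    · have := mul_mem hu hg
      rwa [one_mul] at this
    · have := mul_mem (star_mem hu) hw
      rwa [one_mul] at this
    · have h7 := star_unit hu
      calc u * g * (star u * w) = (u * star u) * (g * w) := by ring
        _ = v := by rw [h7, one_mul, hgw]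
  · intro u _ u' _ h
    have h1 : u * g = u' * g := congrArg Prod.fst h
    exact mul_right_cancel₀ (ne_zero hm hg) h1
  · rintro ⟨z, y⟩ hzy
    rw [mem_filter, mem_product] at hzy
    obtain ⟨⟨hz, hy⟩, hzyv⟩ := hzy
    simp only at hz hy hzyv
    obtain ⟨u, hu, hzu⟩ := huniq z hz ⟨y, hzyv.symm⟩
    refine ⟨u, hu, ?_⟩
    rw [Prod.mk.injEq]
    refine ⟨hzu.symm, ?_⟩
    have h7 := star_unit hu
    have h8 : g * (star u * w) = g * y := by
      calc g * (star u * w) = star u * (g * w) := by ring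
        _ = star u * (u * g * y) := by rw [← hgw, ← hzyv, hzu]
        _ = (u * star u) * (g * y) := by ring
        _ = g * y := by rw [h7, one_mul]
    exact mul_left_cancel₀ (ne_zero hm hg) h8

lemma rr_mul (hmul : ∀ z w : GaussianInt, rho (z * w) = rho z * rho w) {m n : ℕ} (hm : 1 ≤ m)
    (hmn : m.Coprime n) : rr (m * n) = rr m * rr n := by
  classical
  have h1 : ∑ x ∈ (S m) ×ˢ (S n), rho (x.1 * x.2) = 4 * ∑ v ∈ S (m * n), rho v := by
    rw [← sum_fiberwise_of_maps_to (g := fun x : GaussianInt × GaussianInt => x.1 * x.2)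
      (t := S (m * n)) (fun x hx => mul_mem (mem_product.1 hx).1 (mem_product.1 hx).2), mul_sum]
    refine sum_congr rfl fun v hv => ?_
    have h2 : ∑ x ∈ ((S m) ×ˢ (S n)).filter (fun x => x.1 * x.2 = v), rho (x.1 * x.2) =
        ∑ x ∈ ((S m) ×ˢ (S n)).filter (fun x => x.1 * x.2 = v), rho v :=
      sum_congr rfl fun x hx => by rw [(mem_filter.1 hx).2]
    rw [h2, sum_const, card_fiber hm hmn hv, nsmul_eq_mul]
    norm_num
  have h2 : ∑ x ∈ (S m) ×ˢ (S n), rho (x.1 * x.2) = (∑ z ∈ S m, rho z) * ∑ w ∈ S n, rho w := by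
    rw [sum_mul_sum, sum_product]
    exact sum_congr rfl fun z _ => sum_congr rfl fun w _ => hmul z w
  rw [rr_eq, rr_eq, rr_eq]
  rw [h2] at h1
  linear_combination (-(1 / 16 : ℂ)) * h1

lemma prime_of_norm {p : ℕ} (hp : p.Prime) {z : GaussianInt} (hz : z ∈ S p) : Prime z := by
  have h0 : z.norm.natAbs = p := by rw [mem_S.1 hz]; simp
  apply Irreducible.prime
  constructor
  · intro hu
    have := Zsqrtd.norm_eq_one_iff.2 hu
    rw [h0] at this
    exact hp.one_lt.ne' this
  · intro a b hab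
    have h1 : a.norm.natAbs * b.norm.natAbs = p := by
      rw [← Int.natAbs_mul, ← Zsqrtd.norm_mul, ← hab, h0]
    rcases (Nat.dvd_prime hp).1 ⟨_, h1.symm⟩ with h2 | h2
    · exact Or.inl (Zsqrtd.norm_eq_one_iff.1 h2)
    · right
      rw [h2] at h1
      exact Zsqrtd.norm_eq_one_iff.1 (Nat.eq_of_mul_eq_mul_left hp.pos (by rw [h1, mul_one]))

lemma cancel {p k : ℕ} (hp : 1 ≤ p) {z w : GaussianInt} (hz : z ∈ S p)
    (hzw : z * w ∈ S (p ^ (k + 1))) : w ∈ S (p ^ k) := by
  rw [mem_S] at hz hzw ⊢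
  rw [Zsqrtd.norm_mul, hz] at hzw
  have hp0 : (p : ℤ) ≠ 0 := by exact_mod_cast (by omega : p ≠ 0)
  have h1 : (p : ℤ) * w.norm = p * ((p ^ k : ℕ) : ℤ) := by
    rw [hzw]
    push_cast
    ring
  exact mul_left_cancel₀ hp0 h1

lemma exists_split {p : ℕ} (hp : p.Prime) {π : GaussianInt} (hπ : π ∈ S p) (k : ℕ) :
    ∀ z ∈ S (p ^ k), ∃ u ∈ S 1, ∃ j ∈ range (k + 1), u * π ^ j * (star π) ^ (k - j) = z := by
  induction k with
  | zero =>
    intro z hz
    exact ⟨z, by simpa using hz, 0, by simp, by simp⟩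
  | succ k ih =>
    intro z hz
    have hpr := prime_of_norm hp hπ
    have h1 : π ∣ z * star z := by
      rw [← Zsqrtd.norm_eq_mul_conj, mem_S.1 hz]
      have h2 : π ∣ ((p : ℕ) : GaussianInt) := by
        refine ⟨star π, ?_⟩
        rw [← Zsqrtd.norm_eq_mul_conj, mem_S.1 hπ]
        simp
      refine h2.trans ?_
      push_cast
      exact dvd_pow_self _ (by omega)
    rcases hpr.dvd_or_dvd h1 with h2 | h2
    · obtain ⟨w, rfl⟩ := h2
      obtain ⟨u, hu, j, hj, hw⟩ := ih w (cancel hp.one_lt.le hπ hz)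
      rw [mem_range] at hj
      refine ⟨u, hu, j + 1, mem_range.2 (by omega), ?_⟩
      rw [← hw, show k + 1 - (j + 1) = k - j by omega]
      ring
    · obtain ⟨w, hw⟩ := h2
      have hz2 : z = star π * star w := by
        rw [← star_star z, hw, star_mul, mul_comm]
      rw [hz2] at hz
      obtain ⟨u, hu, j, hj, hw⟩ := ih (star w) (cancel hp.one_lt.le (star_mem hπ) hz)
      rw [mem_range] at hj
      refine ⟨u, hu, j, mem_range.2 (by omega), ?_⟩
      rw [hz2, ← hw, show k + 1 - j = (k - j) + 1 by omega]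
      ring

lemma inj_aux {p : ℕ} (hp : p.Prime) {π : GaussianInt} (hπ : π ∈ S p) (hne : ¬ π ∣ star π)
    {k : ℕ} {u u' : GaussianInt} (hu : u ∈ S 1) {j j' : ℕ} (hjj : j < j')
    (h : u * π ^ j * (star π) ^ (k - j) = u' * π ^ j' * (star π) ^ (k - j')) : False := by
  have hpr := prime_of_norm hp hπ
  have h1 : π ^ j * (u * (star π) ^ (k - j)) =
      π ^ j * (π * (u' * π ^ (j' - j - 1) * (star π) ^ (k - j'))) := by
    calc π ^ j * (u * (star π) ^ (k - j)) = u * π ^ j * (star π) ^ (k - j) := by ring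
      _ = u' * π ^ j' * (star π) ^ (k - j') := h
      _ = u' * π ^ (j + (1 + (j' - j - 1))) * (star π) ^ (k - j') := by
          rw [show j + (1 + (j' - j - 1)) = j' by omega]
      _ = _ := by
          rw [pow_add, pow_add]
          ring
  have h2 := mul_left_cancel₀ (pow_ne_zero j hpr.ne_zero) h1
  have h3 : π ∣ u * (star π) ^ (k - j) := ⟨_, h2⟩
  rcases hpr.dvd_or_dvd h3 with h4 | h4
  · exact hpr.not_isUnit (isUnit_of_dvd_unit h4 (mem_U.1 hu))
  · exact hne (hpr.dvd_of_dvd_pow h4)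

lemma rr_split (hmul : ∀ z w : GaussianInt, rho (z * w) = rho z * rho w) (hone : rho 1 = 1)
    (hunit : ∀ z : GaussianInt, IsUnit z → rho z = 1)
    {p : ℕ} (hp : p.Prime) {π : GaussianInt} (hπ : π ∈ S p) (hne : ¬ π ∣ star π) (k : ℕ) :
    rr (p ^ k) = ∑ j ∈ range (k + 1), rho π ^ j * rho (star π) ^ (k - j) := by
  classical
  have hpow : ∀ (z : GaussianInt) (m : ℕ), rho (z ^ m) = rho z ^ m := by
    intro z m
    induction m with
    | zero => simp [hone]
    | succ m ih => rw [pow_succ, pow_succ, hmul, ih]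
  have hpr := prime_of_norm hp hπ
  have hpr' := prime_of_norm hp (star_mem hπ)
  have h1 : ∑ z ∈ S (p ^ k), rho z =
      ∑ x ∈ (S 1) ×ˢ (range (k + 1)), rho (x.1 * π ^ x.2 * (star π) ^ (k - x.2)) := by
    symm
    refine sum_bij (fun x _ => x.1 * π ^ x.2 * (star π) ^ (k - x.2)) ?_ ?_ ?_ ?_
    · rintro ⟨u, j⟩ hx
      rw [mem_product, mem_range] at hx
      obtain ⟨hu, hj⟩ := hx
      simp only at hu hj ⊢
      rw [mem_S, Zsqrtd.norm_mul, Zsqrtd.norm_mul, mem_S.1 hu]
      have hn : ∀ (z : GaussianInt) (m : ℕ), z ∈ S p → (z ^ m).norm = (p : ℤ) ^ m := by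
        intro z m hz
        induction m with
        | zero => simp
        | succ m ih => rw [pow_succ, Zsqrtd.norm_mul, ih, mem_S.1 hz, pow_succ]
      rw [hn _ _ hπ, hn _ _ (star_mem hπ)]
      push_cast
      rw [one_mul, ← pow_add, show j + (k - j) = k by omega]
    · rintro ⟨u, j⟩ hx ⟨u', j'⟩ hx' h
      rw [mem_product, mem_range] at hx hx'
      simp only at h hx hx'
      rcases lt_trichotomy j j' with hlt | heq | hgt
      · exact (inj_aux hp hπ hne hx.1 hlt h).elim
      · subst heq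
        have h2 := mul_right_cancel₀ (pow_ne_zero _ hpr'.ne_zero) h
        have h3 := mul_right_cancel₀ (pow_ne_zero _ hpr.ne_zero) h2
        rw [h3]
      · exact (inj_aux hp hπ hne hx'.1 hgt h.symm).elim
    · intro z hz
      obtain ⟨u, hu, j, hj, h⟩ := exists_split hp hπ k z hz
      exact ⟨(u, j), mem_product.2 ⟨hu, hj⟩, h⟩
    · intro x _
      rfl
  have h2 : ∑ x ∈ (S 1) ×ˢ (range (k + 1)), rho (x.1 * π ^ x.2 * (star π) ^ (k - x.2)) =
      4 * ∑ j ∈ range (k + 1), rho π ^ j * rho (star π) ^ (k - j) := by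
    rw [sum_product]
    have h3 : ∀ u ∈ S 1, ∑ j ∈ range (k + 1), rho (u * π ^ j * (star π) ^ (k - j)) =
        ∑ j ∈ range (k + 1), rho π ^ j * rho (star π) ^ (k - j) := by
      intro u hu
      refine sum_congr rfl fun j _ => ?_
      rw [hmul, hmul, hpow, hpow, hunit u (mem_U.1 hu), one_mul]
    rw [sum_congr rfl h3, sum_const, card_U, nsmul_eq_mul]
    norm_num
  rw [rr_eq, h1, h2]
  ring

lemma rr_one (hunit : ∀ z : GaussianInt, IsUnit z → rho z = 1) : rr 1 = 1 := by
  rw [rr_eq, sum_congr rfl (fun z hz => hunit z (mem_U.1 hz)), sum_const, card_U, nsmul_eq_mul]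
  norm_num

lemma rr_even (heven : ∀ z : GaussianInt, z.norm % 2 = 0 → rho z = 0) {n : ℕ} (hn : n % 2 = 0) :
    rr n = 0 := by
  rw [rr_eq, sum_eq_zero, mul_zero]
  intro z hz
  apply heven
  rw [mem_S.1 hz]
  omega

lemma S_inert {p : ℕ} (hp3 : p % 4 = 3) : S p = ∅ := by
  rw [eq_empty_iff_forall_notMem]
  intro z hz
  rw [mem_S, norm_eq] at hz
  have h1 : ∀ a : ℤ, a ^ 2 % 4 = 0 ∨ a ^ 2 % 4 = 1 := by
    intro a
    have h2 : a % 4 = 0 ∨ a % 4 = 1 ∨ a % 4 = 2 ∨ a % 4 = 3 := by omega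
    rw [pow_two, Int.mul_emod]
    rcases h2 with h2 | h2 | h2 | h2 <;> rw [h2] <;> norm_num
  have h2 := h1 z.re
  have h3 := h1 z.im
  have h4 : (p : ℤ) % 4 = 3 := by omega
  omega

lemma rr_inert (hmul : ∀ z w : GaussianInt, rho (z * w) = rho z * rho w)
    (hodd : ∀ a : ℤ, a % 2 = 1 → rho (a : GaussianInt) = 1)
    {p : ℕ} (hp : p.Prime) (hp3 : p % 4 = 3) (k : ℕ) : rr (p ^ (k + 2)) = rr (p ^ k) := by
  classical
  have hF : Fact p.Prime := ⟨hp⟩
  have hpr : Prime ((p : ℕ) : GaussianInt) :=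
    GaussianInt.prime_of_nat_prime_of_mod_four_eq_three p hp3
  have hrp : rho ((p : ℕ) : GaussianInt) = 1 := by
    have := hodd (p : ℤ) (by omega)
    simpa using this
  have hp0 : ((p : ℕ) : GaussianInt) ≠ 0 := hpr.ne_zero
  have h1 : ∑ z ∈ S (p ^ (k + 2)), rho z = ∑ z ∈ S (p ^ k), rho z := by
    symm
    refine sum_bij (fun z _ => ((p : ℕ) : GaussianInt) * z) ?_ ?_ ?_ ?_
    · intro z hz
      rw [mem_S] at hz ⊢
      rw [Zsqrtd.norm_mul, hz, Zsqrtd.norm_natCast]
      push_cast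
      ring
    · intro z _ w _ h
      exact mul_left_cancel₀ hp0 h
    · intro z hz
      have h2 : ((p : ℕ) : GaussianInt) ∣ z * star z := by
        rw [← Zsqrtd.norm_eq_mul_conj, mem_S.1 hz]
        push_cast
        exact dvd_pow_self _ (by omega)
      have h3 : ((p : ℕ) : GaussianInt) ∣ z := by
        rcases hpr.dvd_or_dvd h2 with h3 | h3
        · exact h3
        · obtain ⟨w, hw⟩ := h3
          refine ⟨star w, ?_⟩
          rw [← star_star z, hw, star_mul, mul_comm]
          congr 1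
      obtain ⟨w, rfl⟩ := h3
      refine ⟨w, ?_, rfl⟩
      rw [mem_S] at hz ⊢
      rw [Zsqrtd.norm_mul, Zsqrtd.norm_natCast] at hz
      have hpz : ((p : ℤ) * p) ≠ 0 := by
        have : (p : ℤ) ≠ 0 := by exact_mod_cast hp.ne_zero
        exact mul_ne_zero this this
      apply mul_left_cancel₀ hpz
      rw [hz]
      push_cast
      ring
    · intro z _
      rw [hmul, hrp, one_mul]
  rw [rr_eq, rr_eq, h1]

/-- a Gaussian integer of norm `p`, with even imaginary part -/
lemma exists_pi {p : ℕ} (hp : p.Prime) (hp1 : p % 4 = 1) :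
    ∃ a b : ℤ, a ^ 2 + b ^ 2 = p ∧ a % 2 = 1 ∧ b % 2 = 0 ∧ (⟨a, b⟩ : GaussianInt) ∈ S p ∧
      ¬ (⟨a, b⟩ : GaussianInt) ∣ star (⟨a, b⟩ : GaussianInt) := by
  have hF : Fact p.Prime := ⟨hp⟩
  obtain ⟨a, b, hab⟩ := Nat.Prime.sq_add_sq (p := p) (by omega)
  have hex : ∃ a b : ℤ, a ^ 2 + b ^ 2 = p ∧ a % 2 = 1 ∧ b % 2 = 0 := by
    have h1 : (a : ℤ) ^ 2 + (b : ℤ) ^ 2 = p := by exact_mod_cast hab
    have hsq : ∀ x : ℤ, x ^ 2 % 2 = x % 2 := by
      intro x
      have h2 : x % 2 = 0 ∨ x % 2 = 1 := by omega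
      rw [pow_two, Int.mul_emod]
      rcases h2 with h2 | h2 <;> rw [h2] <;> norm_num
    have h2 := hsq a
    have h3 := hsq b
    have h4 : (p : ℤ) % 2 = 1 := by omega
    rcases (by omega : (a : ℤ) % 2 = 0 ∨ (a : ℤ) % 2 = 1) with h5 | h5
    · exact ⟨b, a, by rw [add_comm]; exact h1, by omega, h5⟩
    · exact ⟨a, b, h1, h5, by omega⟩
  obtain ⟨a, b, hab, ha, hb⟩ := hex
  have hS : (⟨a, b⟩ : GaussianInt) ∈ S p := by
    rw [mem_S, norm_eq]
    exact hab
  refine ⟨a, b, hab, ha, hb, hS, fun hdvd => ?_⟩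
  have h1 : (⟨a, b⟩ : GaussianInt) ∣ (((2 * a : ℤ)) : GaussianInt) := by
    have h2 : (((2 * a : ℤ)) : GaussianInt) = ⟨a, b⟩ + star ⟨a, b⟩ := by
      rw [Zsqrtd.star_mk, Zsqrtd.add_def]
      rw [Zsqrtd.intCast_val]
      congr 1
      · ring
      · ring
    rw [h2]
    exact dvd_add dvd_rfl hdvd
  obtain ⟨c, hc⟩ := h1
  have h2 : (p : ℤ) ∣ (2 * a) * (2 * a) := by
    refine ⟨c.norm, ?_⟩
    have h3 := congrArg Zsqrtd.norm hc
    rw [Zsqrtd.norm_intCast, Zsqrtd.norm_mul, mem_S.1 hS] at h3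
    exact h3
  have hpz : Prime (p : ℤ) := Nat.prime_iff_prime_int.1 hp
  have h3 : (p : ℤ) ∣ 2 * a := by
    rcases hpz.dvd_or_dvd h2 with h3 | h3 <;> exact h3
  have h4 : (p : ℤ) ∣ a := by
    rcases hpz.dvd_or_dvd h3 with h4 | h4
    · exfalso
      have h5 := Int.le_of_dvd (by norm_num) h4
      have h6 := hp.two_le
      omega
    · exact h4
  obtain ⟨t, ht⟩ := h4
  have ht0 : t ≠ 0 := by
    rintro rfl
    omega
  have hp2 : (2 : ℤ) ≤ p := by exact_mod_cast hp.two_le
  have ht1 : 1 ≤ t ^ 2 := by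
    have : 0 < t ^ 2 := by positivity
    omega
  have h5 : (p : ℤ) ^ 2 * t ^ 2 + b ^ 2 = p := by
    rw [← hab, ht]
    ring_nf
    have h6 := hab
    rw [ht] at h6
    nlinarith
  nlinarith [sq_nonneg b]

end RRMm

open RRMm in
/-- (RRM) -/
theorem RRM_thm (h1 : Stmt_RHO) (h2 : Stmt_QR1) : Stmt_RRM := by
  classical
  obtain ⟨hmul, hone, hle, hnorm, heven, hunit, hstar, -, hodd, h4⟩ := h1
  have hrr1 : rr 1 = 1 := rr_one hunit
  -- the local factors
  have hloc : ∀ p : ℕ, p.Prime → ∃ α β : ℂ, ‖α‖ ≤ 1 ∧ ‖β‖ ≤ 1 ∧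
      ∀ k : ℕ, rr (p ^ k) = ∑ j ∈ Finset.range (k + 1), α ^ j * β ^ (k - j) := by
    intro p hp
    rcases hp.eq_two_or_odd with h2' | hodd'
    · subst h2'
      refine ⟨0, 0, by simp, by simp, fun k => ?_⟩
      rcases Nat.eq_zero_or_pos k with hk | hk
      · subst hk
        simp [hrr1]
      · rw [rr_even heven (by
          obtain ⟨m, rfl⟩ := Nat.exists_eq_succ_of_ne_zero (by omega : k ≠ 0)
          rw [Nat.succ_eq_add_one, pow_succ]
          omega)]
        symm
        refine Finset.sum_eq_zero fun j _ => ?_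
        rcases Nat.eq_zero_or_pos j with hj | hj
        · subst hj
          rw [Nat.sub_zero, zero_pow (by omega : k ≠ 0), mul_zero]
        · rw [zero_pow (by omega : j ≠ 0), zero_mul]
    · rcases (by omega : p % 4 = 1 ∨ p % 4 = 3) with hp4 | hp4
      · obtain ⟨a, b, -, -, -, hπ, hne⟩ := exists_pi hp hp4
        exact ⟨rho ⟨a, b⟩, rho (star ⟨a, b⟩), hle _, hle _,
          rr_split hmul hone hunit hp hπ hne⟩
      · refine ⟨1, -1, by simp, by simp, fun k => ?_⟩
        have hf : ∀ k : ℕ, ∑ j ∈ Finset.range (k + 1), (1 : ℂ) ^ j * (-1) ^ (k - j) =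
            if Even (k + 1) then 0 else 1 := by
          intro k
          rw [← neg_one_geom_sum]
          rw [← Finset.sum_range_reflect]
          refine Finset.sum_congr rfl fun j hj => ?_
          rw [Finset.mem_range] at hj
          rw [one_pow, one_mul]
          congr 1
          omega
        rw [hf]
        have hk : ∀ k : ℕ, rr (p ^ k) = if Even (k + 1) then 0 else 1 := by
          intro k
          induction k using Nat.strong_induction_on with
          | _ k ih =>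
            rcases k with _ | _ | k
            · simp [hrr1]
            · rw [rr_eq, zero_add, pow_one, S_inert hp4]
              simp
            · rw [rr_inert hmul hodd hp hp4, ih k (by omega)]
              have : Even (k + 1 + 1 + 1) ↔ Even (k + 1) := by
                rw [show k + 1 + 1 + 1 = (k + 1) + 2 by ring, Nat.even_add]
                simp
              simp only [this]
        exact hk k
  have hmul' : ∀ a b : ℕ, a.Coprime b → rr (a * b) = rr a * rr b := by
    intro a b hab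
    rcases Nat.eq_zero_or_pos a with ha | ha
    · subst ha
      rw [Nat.coprime_zero_left] at hab
      rw [hab, hrr1, mul_one, mul_one]
    · exact rr_mul hmul ha hab
  refine ⟨hrr1, hmul', ?_, hloc, ?_, ?_⟩
  · intro n
    induction n using Nat.recOnPosPrimePosCoprime with
    | prime_pow p k hp _ =>
      intro _
      obtain ⟨α, β, hα, hβ, h⟩ := hloc p hp
      rw [h k, Nat.divisors_prime_pow hp, Finset.card_map, Finset.card_range]
      refine (norm_sum_le _ _).trans ?_
      calc ∑ j ∈ Finset.range (k + 1), ‖α ^ j * β ^ (k - j)‖ ≤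
          ∑ j ∈ Finset.range (k + 1), (1 : ℝ) := by
            refine Finset.sum_le_sum fun j _ => ?_
            rw [norm_mul, norm_pow, norm_pow]
            exact mul_le_one₀ (pow_le_one₀ (norm_nonneg _) hα) (by positivity)
              (pow_le_one₀ (norm_nonneg _) hβ)
        _ = ((k + 1 : ℕ) : ℝ) := by simp
    | zero => intro h; omega
    | one =>
      intro _
      rw [hrr1]
      simp
    | coprime a b ha hb hab iha ihb =>
      intro _
      rw [hmul' a b hab, norm_mul, hab.card_divisors_mul]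
      push_cast
      exact mul_le_mul (iha (by omega)) (ihb (by omega)) (norm_nonneg _) (by positivity)
  · intro p hp hp8
    rcases hp.eq_two_or_odd with h2' | hodd'
    · subst h2'
      exact rr_even heven (by norm_num)
    · rcases (by omega : p % 4 = 1 ∨ p % 4 = 3) with hp4 | hp4
      · obtain ⟨a, b, hab, ha, hb, hπ, hne⟩ := exists_pi hp hp4
        have hk := rr_split hmul hone hunit hp hπ hne 1
        rw [pow_one, Finset.sum_range_succ, Finset.sum_range_one] at hk
        simp only [pow_zero, one_mul, Nat.sub_zero, pow_one, Nat.sub_self, mul_one] at hk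
        rw [hk, hstar]
        have hb4 : b % 4 = 2 := by
          by_contra hcon
          have hb4 : b % 4 = 0 := by omega
          obtain ⟨t, ht⟩ : ∃ t, b = 4 * t := ⟨b / 4, by omega⟩
          obtain ⟨s, hs⟩ : ∃ s, a = 2 * s + 1 := ⟨a / 2, by omega⟩
          rw [ht, hs] at hab
          have h5 : ∃ r, s * (s + 1) = 2 * r := by
            obtain ⟨r, hr⟩ := Int.even_mul_succ_self s
            exact ⟨r, by rw [hr]; ring⟩
          obtain ⟨r, hr⟩ := h5
          have h6 : (p : ℤ) = 8 * (r + 2 * t ^ 2) + 1 := by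
            rw [← hab]
            linear_combination 4 * hr
          omega
        have h5 := h4 a b ha hb4
        set α := rho ⟨a, b⟩ with hα
        have h6 : ‖α‖ = 1 := by
          apply hnorm
          rw [norm_eq]
          show (a ^ 2 + b ^ 2) % 2 = 1
          rw [hab]
          omega
        have h7 : α * star α = 1 := by
          have h8 : α * (starRingEnd ℂ) α = (Complex.normSq α : ℂ) := Complex.mul_conj α
          rw [Complex.normSq_eq_norm_sq, h6] at h8
          rw [Complex.star_def]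
          rw [h8]
          norm_num
        have hα0 : α ≠ 0 := by
          intro h0
          rw [h0, norm_zero] at h6
          norm_num at h6
        have h8 : α * (star α + α) = 0 := by
          rw [mul_add, h7]
          linear_combination h5
        rcases mul_eq_zero.1 h8 with h9 | h9
        · exact absurd h9 hα0
        · exact h9
      · rw [rr_eq, S_inert hp4]
        simp
  · intro p hp hp8
    obtain ⟨a, b, hab, ha, hb, hπ, hne⟩ := exists_pi hp (by omega)
    have hk := rr_split hmul hone hunit hp hπ hne 1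
    rw [pow_one, Finset.sum_range_succ, Finset.sum_range_one] at hk
    simp only [pow_zero, one_mul, Nat.sub_zero, pow_one, Nat.sub_self, mul_one] at hk
    rw [hk, hstar]
    have hb4 : b % 4 = 0 := by
      by_contra hcon
      have hb4 : b % 4 = 2 := by omega
      obtain ⟨t, ht⟩ : ∃ t, b = 4 * t + 2 := ⟨b / 4, by omega⟩
      obtain ⟨s, hs⟩ : ∃ s, a = 2 * s + 1 := ⟨a / 2, by omega⟩
      rw [ht, hs] at hab
      have h5 : ∃ r, s * (s + 1) = 2 * r := by
        obtain ⟨r, hr⟩ := Int.even_mul_succ_self s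
        exact ⟨r, by rw [hr]; ring⟩
      obtain ⟨r, hr⟩ := h5
      have h6 : (p : ℤ) = 8 * (r + 2 * t ^ 2 + 2 * t) + 5 := by
        rw [← hab]
        linear_combination 4 * hr
      omega
    obtain ⟨t, ht⟩ : ∃ t, b = 4 * t := ⟨b / 4, by omega⟩
    have hρ : rho ⟨a, b⟩ = (-1) ^ (a * t) := by
      unfold rho
      rw [if_pos ⟨ha, hb⟩]
      have h5 : a * b / 2 = 2 * (a * t) := by
        rw [ht]
        have : a * (4 * t) = 2 * (2 * (a * t)) := by ring
        rw [this]
        omega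
      show Complex.I ^ (a * b / 2) = _
      rw [h5, zpow_mul]
      norm_num
    have hQ := h2 p a b hp hp8 hab ⟨b / 2, by omega⟩
    constructor
    · intro hx
      have h8 := hQ.1 hx
      have ht2 : Even t := ⟨t / 2, by omega⟩
      have h9 : rho ⟨a, b⟩ = 1 := by
        rw [hρ]
        exact Even.neg_one_zpow (ht2.mul_left a)
      rw [h9]
      norm_num
    · intro hx
      have h8 : ¬ (8 ∣ b) := fun h => hx (hQ.2 h)
      have ht2 : Odd t := ⟨t / 2, by omega⟩
      have ha2 : Odd a := ⟨a / 2, by omega⟩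
      have h9 : rho ⟨a, b⟩ = -1 := by
        rw [hρ]
        exact Odd.neg_one_zpow (ha2.mul ht2)
      rw [h9]
      norm_num

end Pool.Agent.ADG
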