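import Pool.Agent.ADG.St7

/-!
# Project ADG part 7, module SG (helper96): the sieve, general form
-/

set_option autoImplicit false

namespace Pool.Agent.ADG

open Finset Pool.Agent.ADS

theorem SG_thm (h : Stmt_S2V) : Stmt_SG := by
  intro X z c e f k P1 P2 S R1 R2 g hz hc he hf hk hP h2k hcef hS hR1 hR2 hL1 hL2 hg
  have hcR : (0:ℝ) < c := by exact_mod_cast hc
  have heR : (0:ℝ) < e := by exact_mod_cast he
  have hfR : (0:ℝ) < f := by exact_mod_cast hf
  have hz12 : (0:ℝ) ≤ (z:ℝ) ^ 12 := by positivity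
  rcases S.eq_empty_or_nonempty with rfl | ⟨n0, hn0⟩
  · rw [Finset.card_empty, Nat.cast_zero]
    have : 0 ≤ g ^ 2 * X / ((c : ℝ) ^ 2 * (e * f) * (R1 * R2)) := by positivity
    linarith
  obtain ⟨hn02, -, ha0, hb0, -, -⟩ := hS n0 hn0
  have hMpos : 0 < c ^ 2 * e * f := by positivity
  have hcop : ∀ n, n ∈ S → Nat.Coprime n (n - 1) := by
    intro n hn
    have hn2 := (hS n hn).1
    have h1 : Nat.Coprime (n - 1 + 1) (n - 1) := by
      rw [Nat.coprime_self_add_left]
      exact Nat.coprime_one_left _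
    have e1 : n - 1 + 1 = n := by omega
    rwa [e1] at h1
  have hcop2 : Nat.Coprime (c ^ 2 * e) f := Nat.Coprime.of_dvd ha0 hb0 (hcop n0 hn0)
  have hmain := h X z (c ^ 2 * e * f) n0 P1 P2 hz hMpos (by
    intro q hq
    obtain ⟨hqp, hqk⟩ := hP q hq
    refine ⟨hqp, ?_, ?_⟩
    · rintro rfl
      exact hqk h2k
    · intro hd
      apply hqk
      apply hcef q hqp
      rcases hqp.dvd_mul.1 hd with hd | hd
      · rcases hqp.dvd_mul.1 hd with hd | hd
        · exact ((hqp.dvd_of_dvd_pow hd).mul_right e).mul_right f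
        · exact (hd.mul_left c).mul_right f
      · exact hd.mul_left (c * e)) S (by
    intro n hn
    obtain ⟨hn2, hnX, ha, hb, h1, h2⟩ := hS n hn
    refine ⟨by omega, hnX, ?_, h1, h2⟩
    rw [← Nat.modEq_and_modEq_iff_modEq_mul hcop2]
    constructor
    · exact ((Nat.modEq_zero_iff_dvd).2 ha).trans ((Nat.modEq_zero_iff_dvd).2 ha0).symm
    · have e1 : 1 ≡ n [MOD f] := (Nat.modEq_iff_dvd' (by omega)).2 hb
      have e2 : 1 ≡ n0 [MOD f] := (Nat.modEq_iff_dvd' (by omega)).2 hb0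
      exact e1.symm.trans e2)
  refine hmain.trans ?_
  have hgk : 0 < gk k := by
    unfold gk EP
    apply Finset.prod_pos
    intro q hq
    have hq2 : (2:ℝ) ≤ q := by exact_mod_cast (Nat.prime_of_mem_primeFactors hq).two_le
    have : (1:ℝ) / q ≤ 1 / 2 := by
      apply one_div_le_one_div_of_le (by norm_num) hq2
    have : (0:ℝ) < 1 - 1 / q := by linarith
    positivity
  have hr1 : 0 < RSm P1 z := by
    by_contra hcon
    push Not at hcon
    have : gk k * RSm P1 z ≤ 0 := mul_nonpos_of_nonneg_of_nonpos hgk.le hcon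
    linarith
  have hr2 : 0 < RSm P2 z := by
    by_contra hcon
    push Not at hcon
    have : gk k * RSm P2 z ≤ 0 := mul_nonpos_of_nonneg_of_nonpos hgk.le hcon
    linarith
  have hkey : R1 * R2 ≤ g ^ 2 * (RSm P1 z * RSm P2 z) := by
    calc R1 * R2 ≤ (gk k * RSm P1 z) * (gk k * RSm P2 z) :=
          mul_le_mul hL1 hL2 hR2.le (by positivity)
      _ = gk k ^ 2 * (RSm P1 z * RSm P2 z) := by ring
      _ ≤ g ^ 2 * (RSm P1 z * RSm P2 z) := by
          apply mul_le_mul_of_nonneg_right _ (by positivity)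
          exact pow_le_pow_left₀ hgk.le hg 2
  have hfin : (X : ℝ) / ((c ^ 2 * e * f : ℕ) : ℝ) / (RSm P1 z * RSm P2 z) ≤
      g ^ 2 * X / ((c : ℝ) ^ 2 * (e * f) * (R1 * R2)) := by
    push_cast
    rw [div_div, div_le_div_iff₀ (by positivity) (by positivity)]
    calc (X : ℝ) * ((c : ℝ) ^ 2 * (e * f) * (R1 * R2))
        = (X * ((c : ℝ) ^ 2 * (e * f))) * (R1 * R2) := by ring
      _ ≤ (X * ((c : ℝ) ^ 2 * (e * f))) * (g ^ 2 * (RSm P1 z * RSm P2 z)) :=
          mul_le_mul_of_nonneg_left hkey (by positivity)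
      _ = g ^ 2 * X * ((c : ℝ) ^ 2 * e * f * (RSm P1 z * RSm P2 z)) := by ring
  linarith

end Pool.Agent.ADG
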