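import Pool.Agent.ADG.St7
import Pool.Agent.ADG.QSM
import Pool.Agent.ADG.PSM

/-!
# Module SM7 of project ADG, part 7 (MP_43d07b_co): the count (helper85)

The proof follows the doc string of `Stmt_SM7`.
-/

set_option autoImplicit false

namespace Pool.Agent.ADG

namespace SM7m

open Finset

lemma exp_ge (s : ℝ) (hs : 800 ≤ s) : s ^ 14 ≤ Real.exp s := by
  have h1 : s / 28 ≤ Real.exp (s / 28) := by
    have := Real.add_one_le_exp (s / 28)
    linarith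
  have h2 : Real.exp s = Real.exp (s / 28) ^ 28 := by
    rw [← Real.exp_nat_mul]
    congr 1
    push_cast
    ring
  have h3 : s ≤ (s / 28) ^ 2 := by nlinarith
  calc s ^ 14 ≤ ((s / 28) ^ 2) ^ 14 := pow_le_pow_left₀ (by linarith) h3 14
    _ = (s / 28) ^ 28 := by ring
    _ ≤ Real.exp (s / 28) ^ 28 := pow_le_pow_left₀ (by linarith) h1 28
    _ = Real.exp s := h2.symm

lemma big (ℓ s : ℝ) (hs : 800 ≤ s) (hsl : s ^ 7 = ℓ) :
    10 ^ 6 ≤ ℓ ∧ 10 ^ 6 * s ≤ ℓ ∧ 0 < ℓ := by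
  have hs0 : (0 : ℝ) < s := by linarith
  have h4 : (800 : ℝ) ^ 6 ≤ s ^ 6 := pow_le_pow_left₀ (by norm_num) hs 6
  have hℓs : (800 : ℝ) ^ 6 * s ≤ ℓ := by
    rw [← hsl]
    have : s ^ 7 = s ^ 6 * s := by ring
    rw [this]
    exact mul_le_mul_of_nonneg_right h4 hs0.le
  have h5 : (10 : ℝ) ^ 6 * s ≤ ℓ := by
    refine le_trans (mul_le_mul_of_nonneg_right ?_ hs0.le) hℓs
    norm_num
  refine ⟨?_, h5, ?_⟩ <;> nlinarith

/-- the choice of the parameters -/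
lemma params (X : ℕ) (ℓ s : ℝ) (hℓ : ℓ = Real.log X) (hX : 1 ≤ X) (hs : 800 ≤ s)
    (hsl : s ^ 7 = ℓ) :
    2 ≤ ⌊ℓ ^ 2⌋₊ ∧ ⌊ℓ ^ 2⌋₊ ≤ ⌊Real.exp s⌋₊ ∧ ⌊Real.exp s⌋₊ ^ 4 ≤ ⌊Real.exp (ℓ / 60)⌋₊ ∧
    ⌊ℓ ^ 2⌋₊ ≤ X ∧
    ℓ ^ 2 / 2 ≤ (⌊ℓ ^ 2⌋₊ : ℕ) ∧ ((⌊ℓ ^ 2⌋₊ : ℕ) : ℝ) ≤ ℓ ^ 2 ∧
    s / 2 ≤ Real.log (⌊Real.exp s⌋₊ : ℕ) ∧ Real.log (⌊Real.exp s⌋₊ : ℕ) ≤ s ∧
    ℓ / 120 ≤ Real.log (⌊Real.exp (ℓ / 60)⌋₊ : ℕ) ∧
    ((⌊Real.exp (ℓ / 60)⌋₊ : ℕ) : ℝ) ^ 12 ≤ Real.exp (ℓ / 5) ∧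
    ((⌊Real.exp (ℓ / 60)⌋₊ : ℕ) : ℝ) ≤ Real.exp (ℓ / 60) ∧
    (Nat.sqrt X : ℝ) ≤ Real.exp (ℓ / 2) := by
  have hXpos : (0 : ℝ) < (X : ℝ) := by exact_mod_cast hX
  have hXe : (X : ℝ) = Real.exp ℓ := by rw [hℓ, Real.exp_log hXpos]
  have hs0 : (0 : ℝ) < s := by linarith
  obtain ⟨hℓbig, hℓs, hℓ0⟩ := big ℓ s hs hsl
  have hl2 : (2 : ℝ) ≤ ℓ ^ 2 := by nlinarith
  have hf1 : ((⌊ℓ ^ 2⌋₊ : ℕ) : ℝ) ≤ ℓ ^ 2 := Nat.floor_le (by positivity)
  have hf2 : ℓ ^ 2 < (⌊ℓ ^ 2⌋₊ : ℕ) + 1 := Nat.lt_floor_add_one _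
  have hV1 : ((⌊Real.exp s⌋₊ : ℕ) : ℝ) ≤ Real.exp s := Nat.floor_le (Real.exp_pos _).le
  have hV2 : Real.exp s < (⌊Real.exp s⌋₊ : ℕ) + 1 := Nat.lt_floor_add_one _
  have hz1 : ((⌊Real.exp (ℓ / 60)⌋₊ : ℕ) : ℝ) ≤ Real.exp (ℓ / 60) := Nat.floor_le (Real.exp_pos _).le
  have hz2 : Real.exp (ℓ / 60) < (⌊Real.exp (ℓ / 60)⌋₊ : ℕ) + 1 := Nat.lt_floor_add_one _
  have hes := exp_ge s hs
  have hl2s : ℓ ^ 2 = s ^ 14 := by rw [← hsl]; ring
  have hhalf : ∀ a : ℝ, 4 ≤ a → ∀ n : ℕ, Real.exp a < (n : ℝ) + 1 → a / 2 ≤ Real.log n := by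
    intro a ha n hn
    have e1 : Real.exp a = Real.exp (a / 2) * Real.exp (a / 2) := by
      rw [← Real.exp_add]; congr 1; ring
    have e2 : a / 2 + 1 ≤ Real.exp (a / 2) := Real.add_one_le_exp _
    have e3 : Real.exp (a / 2) ≤ n := by nlinarith
    calc a / 2 = Real.log (Real.exp (a / 2)) := by rw [Real.log_exp]
      _ ≤ Real.log n := Real.log_le_log (Real.exp_pos _) e3
  refine ⟨?_, ?_, ?_, ?_, ?_, hf1, ?_, ?_, ?_, ?_, hz1, ?_⟩
  · apply Nat.le_floor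
    push_cast
    exact hl2
  · apply Nat.floor_le_floor
    rw [hl2s]
    exact hes
  · apply Nat.le_floor
    push_cast
    have : ((⌊Real.exp s⌋₊ : ℕ) : ℝ) ^ 4 ≤ Real.exp (4 * s) := by
      have e : Real.exp (4 * s) = Real.exp s ^ 4 := by
        rw [← Real.exp_nat_mul]
        norm_num
      rw [e]
      exact pow_le_pow_left₀ (Nat.cast_nonneg _) hV1 4
    refine this.trans (Real.exp_le_exp.2 ?_)
    linarith
  · have : ((⌊ℓ ^ 2⌋₊ : ℕ) : ℝ) ≤ (X : ℝ) := by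
      rw [hXe]
      have h5 : Real.exp s ≤ Real.exp ℓ := Real.exp_le_exp.2 (by linarith)
      linarith
    exact_mod_cast this
  · linarith
  · exact hhalf s (by linarith) _ hV2
  · have hVpos : (0 : ℝ) < (⌊Real.exp s⌋₊ : ℕ) := by
      have h6 : (800 : ℝ) ≤ s ^ 14 := by
        calc (800 : ℝ) ≤ s := hs
          _ = s ^ 1 := by ring
          _ ≤ s ^ 14 := pow_le_pow_right₀ (by linarith) (by norm_num)
      linarith
    calc Real.log (⌊Real.exp s⌋₊ : ℕ) ≤ Real.log (Real.exp s) := Real.log_le_log hVpos hV1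
      _ = s := Real.log_exp s
  · have := hhalf (ℓ / 60) (by linarith) _ hz2
    linarith
  · calc ((⌊Real.exp (ℓ / 60)⌋₊ : ℕ) : ℝ) ^ 12 ≤ Real.exp (ℓ / 60) ^ 12 :=
        pow_le_pow_left₀ (Nat.cast_nonneg _) hz1 12
      _ = Real.exp (ℓ / 5) := by
        rw [← Real.exp_nat_mul]
        congr 1
        push_cast
        ring
  · have h7 : (Nat.sqrt X : ℝ) ^ 2 ≤ X := by exact_mod_cast Nat.sqrt_le' X
    have h8 : Real.exp (ℓ / 2) ^ 2 = X := by
      rw [hXe, ← Real.exp_nat_mul]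
      congr 1
      push_cast
      ring
    have h9 : 0 < Real.exp (ℓ / 2) := Real.exp_pos _
    nlinarith [Nat.cast_nonneg (α := ℝ) (Nat.sqrt X)]

/-- the weight of `c` -/
noncomputable def wt (c : ℕ) : ℝ := (c : ℝ) ^ (1 / 2 : ℝ) / (c : ℝ) ^ 2

lemma wt_nonneg (c : ℕ) : 0 ≤ wt c := by
  unfold wt
  positivity

lemma sum_wt (L : ℕ) : ∑ c ∈ Icc 1 L, wt c ≤ 3 := by
  have e : ∑ c ∈ Icc 1 L, wt c = ∑ c ∈ Icc 1 L, Real.sqrt c / (c : ℝ) ^ 2 := by
    refine sum_congr rfl fun c _ => ?_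
    unfold wt
    rw [Real.sqrt_eq_rpow]
  rw [e]
  exact QSMm.sum_sqrt_le L

/-- the odd primes up to `N` -/
noncomputable def PP (N : ℕ) : Finset ℕ := (Icc 1 N).filter (fun l => l.Prime ∧ l ≠ 2)

lemma mem_PP {N l : ℕ} : l ∈ PP N ↔ l.Prime ∧ l ≠ 2 ∧ l ≤ N := by
  unfold PP
  rw [mem_filter, mem_Icc]
  exact ⟨fun h => ⟨h.2.1, h.2.2, h.1.2⟩, fun h => ⟨⟨h.1.one_lt.le, h.2.2⟩, h.1, h.2.1⟩⟩

lemma card_PP (N : ℕ) : ((PP N).card : ℝ) ≤ N := by
  have : (PP N).card ≤ N := by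
    calc (PP N).card ≤ (Icc 1 N).card := card_filter_le _ _
      _ = N := by rw [Nat.card_Icc]; omega
  exact_mod_cast this

/-- the odd primes between `W` and `√X` -/
noncomputable def PC (X W : ℕ) : Finset ℕ :=
  (Ioc W (Nat.sqrt X)).filter (fun l => l.Prime ∧ l ≠ 2)

lemma mem_PC {X W l : ℕ} : l ∈ PC X W ↔ l.Prime ∧ l ≠ 2 ∧ W < l ∧ l ^ 2 ≤ X := by
  unfold PC
  rw [mem_filter, mem_Ioc, Nat.le_sqrt']
  tauto

lemma card_PC (X W : ℕ) : ((PC X W).card : ℝ) ≤ Nat.sqrt X := by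
  have : (PC X W).card ≤ Nat.sqrt X := by
    calc (PC X W).card ≤ (Ioc W (Nat.sqrt X)).card := card_filter_le _ _
      _ ≤ Nat.sqrt X := by rw [Nat.card_Ioc]; omega
  exact_mod_cast this

/-- the primes between `W` and `z` -/
noncomputable def PR (W z : ℕ) : Finset ℕ := (Ioc W z).filter Nat.Prime

lemma card_PR (W z : ℕ) : ((PR W z).card : ℝ) ≤ z := by
  have : (PR W z).card ≤ z := by
    calc (PR W z).card ≤ (Ioc W z).card := card_filter_le _ _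
      _ ≤ z := by rw [Nat.card_Ioc]; omega
  exact_mod_cast this

/-- a sum with error -/
lemma one (P : Finset ℕ) (N : ℝ) (hP : (P.card : ℝ) ≤ N) (F : ℕ → Finset ℕ) (e : ℝ)
    (he : 0 ≤ e) (a : ℕ → ℝ) (h : ∀ l ∈ P, ((F l).card : ℝ) ≤ a l + e) :
    ((P.biUnion F).card : ℝ) ≤ ∑ l ∈ P, a l + N * e := by
  calc ((P.biUnion F).card : ℝ) ≤ ∑ l ∈ P, ((F l).card : ℝ) := by exact_mod_cast card_biUnion_le
    _ ≤ ∑ l ∈ P, (a l + e) := sum_le_sum h
    _ = ∑ l ∈ P, a l + (P.card : ℝ) * e := by rw [sum_add_distrib, sum_const, nsmul_eq_mul]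
    _ ≤ ∑ l ∈ P, a l + N * e := by
      have := mul_le_mul_of_nonneg_right hP he
      linarith

/-- a double sum with error -/
lemma two (P Q : Finset ℕ) (A B : ℝ) (hP : (P.card : ℝ) ≤ A) (hQ : (Q.card : ℝ) ≤ B)
    (F : ℕ → ℕ → Finset ℕ) (e : ℝ) (he : 0 ≤ e) (a b : ℕ → ℝ) (ha : ∀ l, 0 ≤ a l)
    {SA SB : ℝ} (hSA : ∑ l ∈ P, a l ≤ SA) (hSB : ∑ p ∈ Q, b p ≤ SB) (hSB0 : 0 ≤ SB)
    (h : ∀ l ∈ P, ∀ p ∈ Q, ((F l p).card : ℝ) ≤ a l * b p + e) :
    ((P.biUnion fun l => Q.biUnion fun p => F l p).card : ℝ) ≤ SA * SB + A * B * e := by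
  have hB0 : 0 ≤ B := le_trans (Nat.cast_nonneg _) hQ
  have h1 := one P A hP (fun l => Q.biUnion fun p => F l p) (B * e) (by positivity)
    (fun l => a l * SB) (fun l hl => by
    have h2 := one Q B hQ (F l) e he (fun p => a l * b p) (h l hl)
    rw [← mul_sum] at h2
    have h3 := mul_le_mul_of_nonneg_left hSB (ha l)
    linarith)
  rw [← sum_mul] at h1
  have h4 := mul_le_mul_of_nonneg_right hSA hSB0
  have h5 : A * B * e = A * (B * e) := by ring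
  rw [h5]
  linarith

/-- a triple sum with error -/
lemma three (P : Finset ℕ) (A : ℝ) (hP : (P.card : ℝ) ≤ A)
    (F : ℕ → ℕ → ℕ → Finset ℕ) (K e S : ℝ) (hK : 0 ≤ K) (he : 0 ≤ e)
    (hS : ∑ l ∈ P, (1 : ℝ) / l ≤ S)
    (h : ∀ l ∈ P, ∀ m ∈ P, ∀ p ∈ P, ((F l m p).card : ℝ) ≤
      K * (1 / (l : ℝ) * (1 / m) * (1 / p)) + e) :
    ((P.biUnion fun l => P.biUnion fun m => P.biUnion fun p => F l m p).card : ℝ) ≤
      K * S ^ 3 + A ^ 3 * e := by
  have hA0 : 0 ≤ A := le_trans (Nat.cast_nonneg _) hP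
  have hS0 : 0 ≤ S := le_trans (sum_nonneg fun l _ => by positivity) hS
  have h1 := one P A hP (fun l => P.biUnion fun m => P.biUnion fun p => F l m p) (A * A * e)
    (by positivity) (fun l => (K * S * S) * (1 / (l : ℝ))) (fun l hl => by
    have h2 := two P P A A hP hP (F l) e he (fun m => K * (1 / (l : ℝ)) * (1 / m))
      (fun p => 1 / (p : ℝ)) (fun m => by positivity) (SA := K * (1 / (l : ℝ)) * S) (SB := S)
      (by rw [← mul_sum]; exact mul_le_mul_of_nonneg_left hS (by positivity)) hS hS0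
      (fun m hm p hp => by
        refine (h l hl m hm p hp).trans (le_of_eq ?_)
        ring)
    refine h2.trans (le_of_eq ?_)
    ring)
  rw [← mul_sum] at h1
  have h4 := mul_le_mul_of_nonneg_left hS (show 0 ≤ K * S * S by positivity)
  have h5 : A ^ 3 * e = A * (A * A * e) := by ring
  have h6 : K * S ^ 3 = K * S * S * S := by ring
  rw [h5, h6]
  linarith

open Classical in
noncomputable def GJ (X W c : ℕ) : Finset ℕ := (PP W).biUnion fun l => (PP W).biUnion fun p =>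
  (PP W).biUnion fun p' => if p ≠ p' then TJ X c l p p' else ∅

open Classical in
noncomputable def GK (X W c : ℕ) : Finset ℕ := (PP W).biUnion fun l => (PP W).biUnion fun l' =>
  (PP W).biUnion fun p => if l ≠ l' then TK X c l l' p else ∅

noncomputable def GI (X W c : ℕ) : Finset ℕ := (PP W).biUnion fun l => (PP W).biUnion fun p =>
  TI X W c l p

noncomputable def GF (X W c : ℕ) : Finset ℕ := (PC X W).biUnion fun l => (PP W).biUnion fun p =>
  TF X c l p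

noncomputable def GG (X W c : ℕ) : Finset ℕ := (PC X W).biUnion fun p => (PP W).biUnion fun l =>
  TG X c l p

noncomputable def GH (X z W c : ℕ) : Finset ℕ := (PR W z).biUnion fun l =>
  (PR W z).biUnion fun p => TH X c l p

/-- all sets for `c` -/
noncomputable def G (X z W c : ℕ) : Finset ℕ :=
  TU X z W c ∪ (GJ X W c ∪ (GK X W c ∪ (GI X W c ∪ (GF X W c ∪ (GG X W c ∪ GH X z W c)))))

lemma bJ {C : ℝ} (hC : 0 < C) {X z W c : ℕ} (hc : 1 ≤ c) (hlW : 0 ≤ Real.log W)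
    (hlz : 0 < Real.log z) (hJ : ∀ l p p' : ℕ, l.Prime → p.Prime →
      p'.Prime → l ≠ 2 → p ≠ 2 → p' ≠ 2 → p ≠ p' → l ≤ W → p ≤ W → p' ≤ W →
      ((TJ X c l p p').card : ℝ) ≤
        C * X * (c : ℝ) ^ (1 / 2 : ℝ) * (Real.log W) ^ (5 / 4 : ℝ) /
          ((c : ℝ) ^ 2 * (l * p * p' * (Real.log z) ^ (5 / 4 : ℝ))) + (z : ℝ) ^ 12)
    {S : ℝ} (hS : ∑ q ∈ PP W, (1 : ℝ) / q ≤ S) :
    ((GJ X W c).card : ℝ) ≤
      C * ((Real.log W) ^ (5 / 4 : ℝ) / (Real.log z) ^ (5 / 4 : ℝ) * S ^ 3) * X * wt c +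
        (W : ℝ) ^ 3 * (z : ℝ) ^ 12 := by
  classical
  set x1 : ℝ := (Real.log W) ^ (5 / 4 : ℝ) with hx1
  set x2 : ℝ := (Real.log z) ^ (5 / 4 : ℝ) with hx2
  have k1 : 0 ≤ x1 := Real.rpow_nonneg hlW _
  have k2 : 0 < x2 := Real.rpow_pos_of_pos hlz _
  have hwn := wt_nonneg c
  have hc0 : (0 : ℝ) < c := by exact_mod_cast hc
  have hb := three (PP W) W (card_PP W) (fun l p p' => if p ≠ p' then TJ X c l p p' else ∅)
    (C * (x1 / x2) * X * wt c) ((z : ℝ) ^ 12) S (by positivity) (by positivity) hS (by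
    intro l hl p hp p' hp'
    obtain ⟨hl1, hl2, hl3⟩ := mem_PP.1 hl
    obtain ⟨hp1, hp2, hp3⟩ := mem_PP.1 hp
    obtain ⟨hq1, hq2, hq3⟩ := mem_PP.1 hp'
    have hl0 : (0 : ℝ) < l := by exact_mod_cast hl1.pos
    have hp0 : (0 : ℝ) < p := by exact_mod_cast hp1.pos
    have hq0 : (0 : ℝ) < p' := by exact_mod_cast hq1.pos
    split_ifs with hif
    · refine (hJ l p p' hl1 hp1 hq1 hl2 hp2 hq2 hif hl3 hp3 hq3).trans (le_of_eq ?_)
      unfold wt
      field_simp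
    · rw [card_empty, Nat.cast_zero]
      positivity)
  refine hb.trans (le_of_eq ?_)
  ring

lemma bK {C : ℝ} (hC : 0 < C) {X z W c : ℕ} (hc : 1 ≤ c) (hlW : 0 ≤ Real.log W)
    (hlz : 0 < Real.log z) (hK : ∀ l l' p : ℕ, l.Prime → l'.Prime →
      p.Prime → l ≠ 2 → l' ≠ 2 → p ≠ 2 → l ≠ l' → l ≤ W → l' ≤ W → p ≤ W →
      ((TK X c l l' p).card : ℝ) ≤
        C * X * (c : ℝ) ^ (1 / 2 : ℝ) * (Real.log W) ^ (5 / 4 : ℝ) /
          ((c : ℝ) ^ 2 * (l * l' * p * (Real.log z) ^ (5 / 4 : ℝ))) + (z : ℝ) ^ 12)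
    {S : ℝ} (hS : ∑ q ∈ PP W, (1 : ℝ) / q ≤ S) :
    ((GK X W c).card : ℝ) ≤
      C * ((Real.log W) ^ (5 / 4 : ℝ) / (Real.log z) ^ (5 / 4 : ℝ) * S ^ 3) * X * wt c +
        (W : ℝ) ^ 3 * (z : ℝ) ^ 12 := by
  classical
  set x1 : ℝ := (Real.log W) ^ (5 / 4 : ℝ) with hx1
  set x2 : ℝ := (Real.log z) ^ (5 / 4 : ℝ) with hx2
  have k1 : 0 ≤ x1 := Real.rpow_nonneg hlW _
  have k2 : 0 < x2 := Real.rpow_pos_of_pos hlz _
  have hwn := wt_nonneg c
  have hc0 : (0 : ℝ) < c := by exact_mod_cast hc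
  have hb := three (PP W) W (card_PP W) (fun l l' p => if l ≠ l' then TK X c l l' p else ∅)
    (C * (x1 / x2) * X * wt c) ((z : ℝ) ^ 12) S (by positivity) (by positivity) hS (by
    intro l hl p hp p' hp'
    obtain ⟨hl1, hl2, hl3⟩ := mem_PP.1 hl
    obtain ⟨hp1, hp2, hp3⟩ := mem_PP.1 hp
    obtain ⟨hq1, hq2, hq3⟩ := mem_PP.1 hp'
    have hl0 : (0 : ℝ) < l := by exact_mod_cast hl1.pos
    have hp0 : (0 : ℝ) < p := by exact_mod_cast hp1.pos
    have hq0 : (0 : ℝ) < p' := by exact_mod_cast hq1.pos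
    split_ifs with hif
    · refine (hK l p p' hl1 hp1 hq1 hl2 hp2 hq2 hif hl3 hp3 hq3).trans (le_of_eq ?_)
      unfold wt
      field_simp
    · rw [card_empty, Nat.cast_zero]
      positivity)
  refine hb.trans (le_of_eq ?_)
  ring

lemma bI {C : ℝ} (hC : 0 < C) {X z W c : ℕ} (hc : 1 ≤ c) (hlW : 0 < Real.log W)
    (hlz : 0 < Real.log z) (hI : ∀ l p : ℕ, l.Prime → p.Prime →
      l ≠ 2 → p ≠ 2 → l ≤ W → p ≤ W →
      ((TI X W c l p).card : ℝ) ≤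
        C * X * (c : ℝ) ^ (1 / 2 : ℝ) / ((c : ℝ) ^ 2 * (l * p * Real.log W * Real.log z)) +
          (z : ℝ) ^ 12)
    {S : ℝ} (hS : ∑ q ∈ PP W, (1 : ℝ) / q ≤ S) :
    ((GI X W c).card : ℝ) ≤
      C * (1 / (Real.log W * Real.log z) * S ^ 2) * X * wt c + (W : ℝ) ^ 2 * (z : ℝ) ^ 12 := by
  classical
  have hwn := wt_nonneg c
  have hc0 : (0 : ℝ) < c := by exact_mod_cast hc
  have hS0 : 0 ≤ S := le_trans (sum_nonneg fun l _ => by positivity) hS
  have hb := two (PP W) (PP W) W W (card_PP W) (card_PP W) (TI X W c) ((z : ℝ) ^ 12)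
    (by positivity) (fun l => (C * (1 / (Real.log W * Real.log z)) * X * wt c) * (1 / (l : ℝ)))
    (fun p => 1 / (p : ℝ)) (fun l => by positivity)
    (SA := (C * (1 / (Real.log W * Real.log z)) * X * wt c) * S) (SB := S)
    (by rw [← mul_sum]; exact mul_le_mul_of_nonneg_left hS (by positivity)) hS hS0 (by
    intro l hl p hp
    obtain ⟨hl1, hl2, hl3⟩ := mem_PP.1 hl
    obtain ⟨hp1, hp2, hp3⟩ := mem_PP.1 hp
    have hl0 : (0 : ℝ) < l := by exact_mod_cast hl1.pos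
    have hp0 : (0 : ℝ) < p := by exact_mod_cast hp1.pos
    refine (hI l p hl1 hp1 hl2 hp2 hl3 hp3).trans (le_of_eq ?_)
    unfold wt
    field_simp)
  refine hb.trans (le_of_eq ?_)
  ring

lemma bF {C : ℝ} (hC : 0 < C) {X z W T V c : ℕ} (hc : 1 ≤ c) (hT : 2 ≤ T) (hTV : T ≤ V)
    (hW : W = V ^ 4) (hWz : W ≤ z) (A : ℕ → ℕ → Finset ℕ) (σ : ℕ → ℝ)
    (hA : ∀ l p : ℕ, l.Prime → p.Prime → l ≠ 2 → p ≠ 2 → p < l → p ≤ z →
      ((A l p).card : ℝ) ≤
        C * X * (c : ℝ) ^ (1 / 2 : ℝ) / ((c : ℝ) ^ 2 * (l * p * Real.log z)) + (z : ℝ) ^ 12 ∧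
      (V < l → σ l ≤ 1 → ((A l p).card : ℝ) ≤
        C * X * (c : ℝ) ^ (1 / 2 : ℝ) * (Real.log T) ^ (1 / 2 : ℝ) /
          ((c : ℝ) ^ 2 * (l * p * (Real.log V) ^ (1 / 2 : ℝ) * Real.log z)) + (z : ℝ) ^ 12))
    {S S2 : ℝ} (hS : ∑ q ∈ PP W, (1 : ℝ) / q ≤ S) (hSC : ∑ q ∈ PC X W, (1 : ℝ) / q ≤ S)
    (hS2 : ∑ l ∈ (Ioc (V ^ 4) (Nat.sqrt X)).filter (fun l => l.Prime ∧ 1 < σ l),
      (1 : ℝ) / l ≤ S2) :
    ((((PC X W).biUnion fun l => (PP W).biUnion fun p => A l p).card : ℕ) : ℝ) ≤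
      C * (((Real.log T) ^ (1 / 2 : ℝ) / ((Real.log V) ^ (1 / 2 : ℝ) * Real.log z) * S +
          1 / Real.log z * S2) * S) * X * wt c +
        Nat.sqrt X * W * (z : ℝ) ^ 12 := by
  classical
  have hV2 : 2 ≤ V := hT.trans hTV
  have hVW : V < W := by
    rw [hW]
    calc V = V ^ 1 := (pow_one V).symm
      _ < V ^ 4 := Nat.pow_lt_pow_right (by omega) (by norm_num)
  have hlog : ∀ n : ℕ, 2 ≤ n → 0 < Real.log n := fun n hn =>
    Real.log_pos (by exact_mod_cast (by omega : 1 < n))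
  have hlT := hlog T hT
  have hlV := hlog V hV2
  have hlz := hlog z (by omega)
  have hwn := wt_nonneg c
  have hc0 : (0 : ℝ) < c := by exact_mod_cast hc
  have hS0 : 0 ≤ S := le_trans (sum_nonneg fun l _ => by positivity) hS
  set x4 : ℝ := (Real.log T) ^ (1 / 2 : ℝ) with hx4
  set x5 : ℝ := (Real.log V) ^ (1 / 2 : ℝ) with hx5
  have k4 : 0 < x4 := Real.rpow_pos_of_pos hlT _
  have k5 : 0 < x5 := Real.rpow_pos_of_pos hlV _
  have hsum : ∑ l ∈ PC X W, (C * (x4 / (x5 * Real.log z)) * X * wt c * (1 / (l : ℝ)) +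
      if 1 < σ l then C * (1 / Real.log z) * X * wt c * (1 / (l : ℝ)) else 0) ≤
      C * (x4 / (x5 * Real.log z) * S + 1 / Real.log z * S2) * X * wt c := by
    rw [sum_add_distrib, ← mul_sum]
    have e5 : ∑ l ∈ PC X W,
        (if 1 < σ l then C * (1 / Real.log z) * X * wt c * (1 / (l : ℝ)) else 0) ≤
        C * (1 / Real.log z) * X * wt c * S2 := by
      rw [← sum_filter, ← mul_sum]
      apply mul_le_mul_of_nonneg_left _ (by positivity)
      refine le_trans (sum_le_sum_of_subset_of_nonneg ?_ ?_) hS2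
      · intro l hl
        unfold PC at hl
        rw [mem_filter, mem_filter, mem_Ioc] at hl
        rw [mem_filter, mem_Ioc, ← hW]
        exact ⟨hl.1.1, hl.1.2.1, hl.2⟩
      · intro l _ _
        positivity
    have e3 : C * (x4 / (x5 * Real.log z)) * X * wt c * (∑ l ∈ PC X W, 1 / (l : ℝ)) ≤
        C * (x4 / (x5 * Real.log z)) * X * wt c * S :=
      mul_le_mul_of_nonneg_left hSC (by positivity)
    have e4 : C * (x4 / (x5 * Real.log z) * S + 1 / Real.log z * S2) * X * wt c =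
        C * (x4 / (x5 * Real.log z)) * X * wt c * S +
        C * (1 / Real.log z) * X * wt c * S2 := by ring
    linarith
  have hb := two (PC X W) (PP W) (Nat.sqrt X) W (card_PC X W) (card_PP W) A ((z : ℝ) ^ 12)
    (by positivity) (fun l => C * (x4 / (x5 * Real.log z)) * X * wt c * (1 / (l : ℝ)) +
      if 1 < σ l then C * (1 / Real.log z) * X * wt c * (1 / (l : ℝ)) else 0)
    (fun p => 1 / (p : ℝ)) (fun l => by
      have e1 : 0 ≤ C * (x4 / (x5 * Real.log z)) * X * wt c * (1 / (l : ℝ)) := by positivity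
      have e2 : 0 ≤ (if 1 < σ l then C * (1 / Real.log z) * X * wt c * (1 / (l : ℝ)) else 0) := by
        split_ifs
        · positivity
        · exact le_rfl
      exact add_nonneg e1 e2) hsum hS hS0 (by
    intro l hl p hp
    obtain ⟨hl1, hl2, hl3, hl4⟩ := mem_PC.1 hl
    obtain ⟨hp1, hp2, hp3⟩ := mem_PP.1 hp
    have hl0 : (0 : ℝ) < l := by exact_mod_cast hl1.pos
    have hp0 : (0 : ℝ) < p := by exact_mod_cast hp1.pos
    have hA' := hA l p hl1 hp1 hl2 hp2 (by omega) (by omega)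
    split_ifs with hif
    · refine hA'.1.trans ?_
      have e1 : C * X * (c : ℝ) ^ (1 / 2 : ℝ) / ((c : ℝ) ^ 2 * (l * p * Real.log z)) =
          C * (1 / Real.log z) * X * wt c * (1 / (l : ℝ)) * (1 / (p : ℝ)) := by
        unfold wt
        field_simp
      rw [e1, add_mul]
      have e2 : 0 ≤ C * (x4 / (x5 * Real.log z)) * X * wt c * (1 / (l : ℝ)) * (1 / (p : ℝ)) := by
        positivity
      linarith
    · refine (hA'.2 (by omega) (not_lt.1 hif)).trans (le_of_eq ?_)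
      rw [add_zero]
      unfold wt
      field_simp)
  refine hb.trans (le_of_eq ?_)
  ring

lemma bH {C : ℝ} (hC : 0 < C) {X z W c : ℕ} (hc : 1 ≤ c) (hW2 : 2 ≤ W)
    (hlz : 0 < Real.log z) (hH : ∀ l p : ℕ, l.Prime → p.Prime →
      l ≠ 2 → p ≠ 2 → l ≤ z → p ≤ z →
      ((TH X c l p).card : ℝ) ≤
        C * X * (c : ℝ) ^ (1 / 2 : ℝ) /
          ((c : ℝ) ^ 2 * (l * p * Real.log (min l p : ℕ) * Real.log z)) + (z : ℝ) ^ 12)
    {PS : ℝ} (hPS : ∑ l ∈ (Ioc W z).filter Nat.Prime, ∑ p ∈ (Ioc W z).filter Nat.Prime,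
      1 / ((l : ℝ) * p * Real.log (min l p : ℕ)) ≤ PS) :
    ((GH X z W c).card : ℝ) ≤
      C * (1 / Real.log z * PS) * X * wt c + (z : ℝ) ^ 2 * (z : ℝ) ^ 12 := by
  classical
  have hwn := wt_nonneg c
  have hc0 : (0 : ℝ) < c := by exact_mod_cast hc
  have hb := QSMm.two (PR W z) z (card_PR W z) (TH X c) (C * (1 / Real.log z) * X * wt c)
    ((z : ℝ) ^ 12) (by positivity) (fun l p => 1 / ((l : ℝ) * p * Real.log (min l p : ℕ))) (by
    intro l hl p hp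
    unfold PR at hl hp
    rw [mem_filter, mem_Ioc] at hl hp
    obtain ⟨⟨hl3, hl4⟩, hl1⟩ := hl
    obtain ⟨⟨hp3, hp4⟩, hp1⟩ := hp
    have hl0 : (0 : ℝ) < l := by exact_mod_cast hl1.pos
    have hp0 : (0 : ℝ) < p := by exact_mod_cast hp1.pos
    have hm : 2 ≤ min l p := le_min hl1.two_le hp1.two_le
    have hm0 : 0 < Real.log (min l p : ℕ) :=
      Real.log_pos (by exact_mod_cast (by omega : 1 < min l p))
    refine (hH l p hl1 hp1 (by omega) (by omega) hl4 hp4).trans (le_of_eq ?_)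
    unfold wt
    set m : ℝ := Real.log (min l p : ℕ) with hm'
    field_simp)
  have h2 := mul_le_mul_of_nonneg_left hPS
    (show 0 ≤ C * (1 / Real.log z) * X * wt c by positivity)
  have e : C * (1 / Real.log z * PS) * X * wt c = C * (1 / Real.log z) * X * wt c * PS := by ring
  rw [e]
  unfold GH
  unfold PR at hb ⊢
  linarith

lemma loglog (ℓ : ℝ) (hℓ : 1 ≤ ℓ) :
    Real.log ℓ ^ 3 * ℓ ^ (-(15 / 14) : ℝ) ≤ 250047000 * ℓ ^ (-(16 / 15) : ℝ) := by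
  have h0 : (0 : ℝ) < ℓ := by linarith
  have h1 : Real.log ℓ ≤ 630 * ℓ ^ (1 / 630 : ℝ) := by
    have := Real.log_le_rpow_div h0.le (show (0 : ℝ) < 1 / 630 by norm_num)
    linarith
  have h2 : 0 ≤ Real.log ℓ := Real.log_nonneg hℓ
  have h3 : (ℓ ^ (1 / 630 : ℝ)) ^ 3 = ℓ ^ (1 / 210 : ℝ) := by
    rw [← Real.rpow_natCast, ← Real.rpow_mul h0.le]
    norm_num
  have h4 : Real.log ℓ ^ 3 ≤ 250047000 * ℓ ^ (1 / 210 : ℝ) := by
    calc Real.log ℓ ^ 3 ≤ (630 * ℓ ^ (1 / 630 : ℝ)) ^ 3 := pow_le_pow_left₀ h2 h1 3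
      _ = 250047000 * (ℓ ^ (1 / 630 : ℝ)) ^ 3 := by ring
      _ = _ := by rw [h3]
  have h5 : ℓ ^ (1 / 210 : ℝ) * ℓ ^ (-(15 / 14) : ℝ) = ℓ ^ (-(16 / 15) : ℝ) := by
    rw [← Real.rpow_add h0]
    norm_num
  calc Real.log ℓ ^ 3 * ℓ ^ (-(15 / 14) : ℝ) ≤
      250047000 * ℓ ^ (1 / 210 : ℝ) * ℓ ^ (-(15 / 14) : ℝ) :=
        mul_le_mul_of_nonneg_right h4 (Real.rpow_nonneg h0.le _)
    _ = 250047000 * (ℓ ^ (1 / 210 : ℝ) * ℓ ^ (-(15 / 14) : ℝ)) := by ring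
    _ = _ := by rw [h5]

lemma delta (ℓ : ℝ) (hℓ : 1 ≤ ℓ) (a : ℝ) (ha : a ≤ 2) : 1 / ℓ ^ 2 ≤ ℓ ^ (-a : ℝ) := by
  have h0 : (0 : ℝ) < ℓ := by linarith
  have e : 1 / ℓ ^ 2 = ℓ ^ (-2 : ℝ) := by
    rw [Real.rpow_neg h0.le, one_div]
    norm_num
  rw [e]
  exact Real.rpow_le_rpow_of_exponent_le hℓ (by linarith)

/-- the numbers -/
lemma nums (ℓ s lV lW lz lT : ℝ) (hs : 800 ≤ s) (hsl : s ^ 7 = ℓ) (hV1 : s / 2 ≤ lV)
    (hV2 : lV ≤ s) (hW : lW = 4 * lV) (hz : ℓ / 120 ≤ lz) (hT0 : 0 ≤ lT)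
    (hT : lT ≤ 2 * Real.log ℓ) :
    lW ^ (5 / 4 : ℝ) / lz ^ (5 / 4 : ℝ) ≤ 230400 * ℓ ^ (-(15 / 14) : ℝ) ∧
    1 / (lW * lz) ≤ 60 * ℓ ^ (-(15 / 14) : ℝ) ∧
    lT ^ (1 / 2 : ℝ) / (lV ^ (1 / 2 : ℝ) * lz) ≤ 480 * Real.log ℓ * ℓ ^ (-(15 / 14) : ℝ) ∧
    1 ≤ Real.log ℓ := by
  have hs0 : (0 : ℝ) < s := by linarith
  obtain ⟨hℓbig, hℓs, hℓ0⟩ := big ℓ s hs hsl
  have hu : 1 ≤ Real.log ℓ := by
    rw [Real.le_log_iff_exp_le hℓ0]
    have := Real.exp_one_lt_d9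
    linarith
  have hlz : 0 < lz := by
    have : 0 < ℓ / 120 := by positivity
    linarith
  have hsq : ∀ a b : ℝ, 7 * b = a → s ^ a = ℓ ^ b := by
    intro a b hab
    rw [← hsl, ← Real.rpow_natCast, ← Real.rpow_mul hs0.le]
    congr 1
    push_cast
    linarith
  have q1 : lW ^ (5 / 4 : ℝ) ≤ 16 * ℓ ^ (5 / 28 : ℝ) := by
    calc lW ^ (5 / 4 : ℝ) ≤ (4 * s) ^ (5 / 4 : ℝ) :=
          Real.rpow_le_rpow (by linarith) (by linarith) (by norm_num)
      _ = 4 ^ (5 / 4 : ℝ) * s ^ (5 / 4 : ℝ) := Real.mul_rpow (by norm_num) hs0.le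
      _ ≤ 16 * s ^ (5 / 4 : ℝ) := by
          apply mul_le_mul_of_nonneg_right _ (Real.rpow_nonneg hs0.le _)
          calc (4 : ℝ) ^ (5 / 4 : ℝ) ≤ 4 ^ (2 : ℝ) :=
                Real.rpow_le_rpow_of_exponent_le (by norm_num) (by norm_num)
            _ = 16 := by norm_num
      _ = _ := by rw [hsq (5 / 4) (5 / 28) (by norm_num)]
  have q2 : ℓ ^ (5 / 4 : ℝ) / 14400 ≤ lz ^ (5 / 4 : ℝ) := by
    calc ℓ ^ (5 / 4 : ℝ) / 14400 ≤ ℓ ^ (5 / 4 : ℝ) / 120 ^ (5 / 4 : ℝ) := by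
          apply div_le_div_of_nonneg_left (Real.rpow_nonneg hℓ0.le _)
            (Real.rpow_pos_of_pos (by norm_num) _)
          calc (120 : ℝ) ^ (5 / 4 : ℝ) ≤ 120 ^ (2 : ℝ) :=
                Real.rpow_le_rpow_of_exponent_le (by norm_num) (by norm_num)
            _ = 14400 := by norm_num
      _ = (ℓ / 120) ^ (5 / 4 : ℝ) := (Real.div_rpow hℓ0.le (by norm_num) _).symm
      _ ≤ _ := Real.rpow_le_rpow (by positivity) hz (by norm_num)
  have q3 : 2 * ℓ ^ (1 / 14 : ℝ) ≤ lW := by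
    have h1 : ℓ ^ (1 / 14 : ℝ) ≤ ℓ ^ (1 / 7 : ℝ) :=
      Real.rpow_le_rpow_of_exponent_le (by linarith) (by norm_num)
    have h2 : ℓ ^ (1 / 7 : ℝ) = s := by
      rw [← hsq 1 (1 / 7) (by norm_num), Real.rpow_one]
    linarith
  have q4 : ℓ ^ (1 / 14 : ℝ) / 2 ≤ lV ^ (1 / 2 : ℝ) := by
    rw [← hsq (1 / 2) (1 / 14) (by norm_num)]
    calc s ^ (1 / 2 : ℝ) / 2 ≤ s ^ (1 / 2 : ℝ) / 2 ^ (1 / 2 : ℝ) := by
          apply div_le_div_of_nonneg_left (Real.rpow_nonneg hs0.le _)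
            (Real.rpow_pos_of_pos (by norm_num) _)
          calc (2 : ℝ) ^ (1 / 2 : ℝ) ≤ 2 ^ (1 : ℝ) :=
                Real.rpow_le_rpow_of_exponent_le (by norm_num) (by norm_num)
            _ = 2 := Real.rpow_one 2
      _ = (s / 2) ^ (1 / 2 : ℝ) := (Real.div_rpow hs0.le (by norm_num) _).symm
      _ ≤ _ := Real.rpow_le_rpow (by positivity) hV1 (by norm_num)
  have q5 : lT ^ (1 / 2 : ℝ) ≤ 2 * Real.log ℓ := by
    calc lT ^ (1 / 2 : ℝ) ≤ (2 * Real.log ℓ) ^ (1 / 2 : ℝ) :=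
          Real.rpow_le_rpow hT0 hT (by norm_num)
      _ ≤ (2 * Real.log ℓ) ^ (1 : ℝ) :=
          Real.rpow_le_rpow_of_exponent_le (by linarith) (by norm_num)
      _ = _ := Real.rpow_one _
  have hp1 : 0 < ℓ ^ (5 / 28 : ℝ) := Real.rpow_pos_of_pos hℓ0 _
  have hp2 : 0 < ℓ ^ (5 / 4 : ℝ) := Real.rpow_pos_of_pos hℓ0 _
  have hp3 : 0 < ℓ ^ (1 / 14 : ℝ) := Real.rpow_pos_of_pos hℓ0 _
  have hp4 : 0 < ℓ ^ (-(15 / 14) : ℝ) := Real.rpow_pos_of_pos hℓ0 _
  have e1 : ℓ ^ (5 / 28 : ℝ) = ℓ ^ (5 / 4 : ℝ) * ℓ ^ (-(15 / 14) : ℝ) := by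
    rw [← Real.rpow_add hℓ0]
    norm_num
  have e2 : ℓ ^ (1 / 14 : ℝ) * ℓ * ℓ ^ (-(15 / 14) : ℝ) = 1 := by
    have : ℓ ^ (1 / 14 : ℝ) * ℓ = ℓ ^ (15 / 14 : ℝ) := by
      nth_rewrite 2 [← Real.rpow_one ℓ]
      rw [← Real.rpow_add hℓ0]
      norm_num
    rw [this, ← Real.rpow_add hℓ0]
    norm_num
  refine ⟨?_, ?_, ?_, hu⟩
  · calc lW ^ (5 / 4 : ℝ) / lz ^ (5 / 4 : ℝ) ≤
        (16 * ℓ ^ (5 / 28 : ℝ)) / (ℓ ^ (5 / 4 : ℝ) / 14400) :=
          div_le_div₀ (by positivity) q1 (by positivity) q2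
      _ = _ := by
        rw [e1]
        field_simp
        norm_num
  · rw [div_le_iff₀ (by
      have : 0 < lW := lt_of_lt_of_le (by positivity) q3
      positivity)]
    have h5 : (2 * ℓ ^ (1 / 14 : ℝ)) * (ℓ / 120) ≤ lW * lz :=
      mul_le_mul q3 hz (by positivity) (le_trans (by positivity) q3)
    calc (1 : ℝ) = 60 * ℓ ^ (-(15 / 14) : ℝ) * ((2 * ℓ ^ (1 / 14 : ℝ)) * (ℓ / 120)) := by
          linarith
      _ ≤ _ := mul_le_mul_of_nonneg_left h5 (by positivity)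
  · rw [div_le_iff₀ (by
      have : 0 < lV ^ (1 / 2 : ℝ) := lt_of_lt_of_le (by positivity) q4
      positivity)]
    have h5 : (ℓ ^ (1 / 14 : ℝ) / 2) * (ℓ / 120) ≤ lV ^ (1 / 2 : ℝ) * lz :=
      mul_le_mul q4 hz (by positivity) (le_trans (by positivity) q4)
    calc lT ^ (1 / 2 : ℝ) ≤ 2 * Real.log ℓ := q5
      _ = 480 * Real.log ℓ * ℓ ^ (-(15 / 14) : ℝ) * ((ℓ ^ (1 / 14 : ℝ) / 2) * (ℓ / 120)) := by
          have : 480 * Real.log ℓ * ℓ ^ (-(15 / 14) : ℝ) * ((ℓ ^ (1 / 14 : ℝ) / 2) * (ℓ / 120)) =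
            2 * Real.log ℓ * (ℓ ^ (1 / 14 : ℝ) * ℓ * ℓ ^ (-(15 / 14) : ℝ)) := by ring
          rw [this, e2, mul_one]
      _ ≤ _ := mul_le_mul_of_nonneg_left h5 (by positivity)

lemma aux1 (L ℓ T : ℝ) (h1 : L ≤ ℓ) (h2 : 1 ≤ ℓ) (h3 : ℓ ^ 2 / 2 ≤ T) :
    (1 + L) * ℓ ≤ 4 * T := by nlinarith

lemma aux2 (ℓ T V : ℝ) (h1 : 2 ≤ ℓ) (h2 : ℓ ^ 2 / 2 ≤ T) (h3 : T ≤ V) : ℓ ≤ V ^ 2 := by
  have h4 : ℓ ≤ V := by nlinarith
  nlinarith

lemma aux3 (u η : ℝ) (hu : 1 ≤ u) (hη : 0 ≤ η) :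
    η ≤ u ^ 3 * η ∧ u * η ≤ u ^ 3 * η ∧ u ^ 2 * η ≤ u ^ 3 * η := by
  have h2 : 1 ≤ u ^ 2 := one_le_pow₀ hu
  have h3 : u ^ 3 = u ^ 2 * u := by ring
  refine ⟨?_, ?_, ?_⟩
  · have : 1 ≤ u ^ 3 := one_le_pow₀ hu
    nlinarith
  · apply mul_le_mul_of_nonneg_right _ hη
    rw [h3]
    nlinarith
  · apply mul_le_mul_of_nonneg_right _ hη
    rw [h3]
    nlinarith

open Classical in
/-- the cover -/
lemma cover (h : Stmt_PT7) (X z W L : ℕ) (hWz : W ≤ z) :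
    (Icc 2 X).filter (fun n => Even n ∧ Pool.Agent.ADS.SqCond n ∧ ¬ (n - 1).Prime ∧ ¬ Form5 n) ⊆
    (((Ioc L X).biUnion fun c => (Icc 2 X).filter (fun n => c ^ 2 ∣ n)) ∪
      ((Icc 1 L).image (fun c => c ^ 2) ∪ (Icc 1 L).image (fun c => 2 * c ^ 2))) ∪
    (Icc 1 L).biUnion fun c => G X z W c := by
  classical
  intro n hn
  rw [mem_filter] at hn
  obtain ⟨hnX', hn4, hq, hprime, hform⟩ := hn
  obtain ⟨c, hc, hcn, hcase⟩ := h X z W L n hWz hnX' hn4 hq hprime hform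
  obtain ⟨hn2, hnX⟩ := mem_Icc.1 hnX'
  have hle : ∀ a m : ℕ, 1 ≤ m → a ^ 2 ∣ m → a ≤ m := by
    intro a m hm ha
    have h1 := Nat.le_of_dvd (by omega) ha
    nlinarith
  rcases hcase with h1 | ⟨hcL, h1⟩
  · refine mem_union_left _ (mem_union_left _ (mem_biUnion.2 ⟨c, ?_, ?_⟩))
    · exact mem_Ioc.2 ⟨h1, (hle c n (by omega) hcn).trans hnX⟩
    · exact mem_filter.2 ⟨mem_Icc.2 ⟨hn2, hnX⟩, hcn⟩
  · rcases h1 with h1 | h1 | h1 | h1
    · exact mem_union_left _ (mem_union_right _ (mem_union_left _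
        (mem_image.2 ⟨c, mem_Icc.2 ⟨hc, hcL⟩, h1.symm⟩)))
    · exact mem_union_left _ (mem_union_right _ (mem_union_right _
        (mem_image.2 ⟨c, mem_Icc.2 ⟨hc, hcL⟩, h1.symm⟩)))
    · exact mem_union_right _ (mem_biUnion.2 ⟨c, mem_Icc.2 ⟨hc, hcL⟩, mem_union_left _ h1⟩)
    · refine mem_union_right _ (mem_biUnion.2 ⟨c, mem_Icc.2 ⟨hc, hcL⟩, mem_union_right _ ?_⟩)
      obtain ⟨l, p, hl, hp, hl2, hp2, hlX, hpX, h1⟩ := h1
      rcases h1 with ⟨hlW, hpW, h1⟩ | ⟨hlW, hpW, h1⟩ | ⟨hlW, hpW, h1⟩ | ⟨hlW, hlz, hpW, hpz, h1⟩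
      · rcases h1 with ⟨p', hq1, hq2, hq3, hq4, h1⟩ | ⟨l', hq1, hq2, hq3, hq4, h1⟩ | h1
        · refine mem_union_left _ (mem_biUnion.2 ⟨l, mem_PP.2 ⟨hl, hl2, hlW⟩,
            mem_biUnion.2 ⟨p, mem_PP.2 ⟨hp, hp2, hpW⟩, mem_biUnion.2 ⟨p', mem_PP.2
              ⟨hq1, hq2, hq4⟩, ?_⟩⟩⟩)
          rw [if_pos (Ne.symm hq3)]
          exact h1
        · refine mem_union_right _ (mem_union_left _ (mem_biUnion.2 ⟨l, mem_PP.2 ⟨hl, hl2, hlW⟩,
            mem_biUnion.2 ⟨l', mem_PP.2 ⟨hq1, hq2, hq4⟩, mem_biUnion.2 ⟨p, mem_PP.2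
              ⟨hp, hp2, hpW⟩, ?_⟩⟩⟩))
          rw [if_pos (Ne.symm hq3)]
          exact h1
        · exact mem_union_right _ (mem_union_right _ (mem_union_left _ (mem_biUnion.2
            ⟨l, mem_PP.2 ⟨hl, hl2, hlW⟩, mem_biUnion.2 ⟨p, mem_PP.2 ⟨hp, hp2, hpW⟩, h1⟩⟩)))
      · exact mem_union_right _ (mem_union_right _ (mem_union_right _ (mem_union_left _
          (mem_biUnion.2 ⟨l, mem_PC.2 ⟨hl, hl2, hlW, hlX⟩, mem_biUnion.2 ⟨p, mem_PP.2
            ⟨hp, hp2, hpW⟩, h1⟩⟩))))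
      · exact mem_union_right _ (mem_union_right _ (mem_union_right _ (mem_union_right _
          (mem_union_left _ (mem_biUnion.2 ⟨p, mem_PC.2 ⟨hp, hp2, hpW, hpX⟩, mem_biUnion.2
            ⟨l, mem_PP.2 ⟨hl, hl2, hlW⟩, h1⟩⟩)))))
      · exact mem_union_right _ (mem_union_right _ (mem_union_right _ (mem_union_right _
          (mem_union_right _ (mem_biUnion.2 ⟨l, mem_filter.2 ⟨mem_Ioc.2 ⟨hlW, hlz⟩, hl⟩,
            mem_biUnion.2 ⟨p, mem_filter.2 ⟨mem_Ioc.2 ⟨hpW, hpz⟩, hp⟩, h1⟩⟩)))))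

lemma card_G (X z W c : ℕ) : ((G X z W c).card : ℝ) ≤
    (TU X z W c).card + ((GJ X W c).card + ((GK X W c).card + ((GI X W c).card +
      ((GF X W c).card + ((GG X W c).card + (GH X z W c).card))))) := by
  have t : (G X z W c).card ≤
      (TU X z W c).card + ((GJ X W c).card + ((GK X W c).card + ((GI X W c).card +
      ((GF X W c).card + ((GG X W c).card + (GH X z W c).card))))) := by
    unfold G
    exact (card_union_le _ _).trans (add_le_add le_rfl ((card_union_le _ _).trans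
      (add_le_add le_rfl ((card_union_le _ _).trans (add_le_add le_rfl ((card_union_le _ _).trans
        (add_le_add le_rfl ((card_union_le _ _).trans (add_le_add le_rfl
          (card_union_le _ _))))))))))
  exact_mod_cast t

lemma err (ℓ X T W z q E δ : ℝ) (hℓpos : 0 < ℓ) (hXpos : 0 < X) (hXe : X = Real.exp ℓ)
    (hδ0 : 0 < δ) (hW0 : 0 ≤ W) (hWz' : W ≤ z) (p11 : z ≤ Real.exp (ℓ / 60))
    (p12 : q ≤ Real.exp (ℓ / 2)) (p10 : z ^ 12 ≤ Real.exp (ℓ / 5)) (p6 : T ≤ ℓ ^ 2)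
    (m2 : 1 / ℓ ^ 2 ≤ δ) (hE0 : 0 ≤ E) (hE : E = (2 * W ^ 3 + W ^ 2 + 2 * (q * W) + z ^ 2 + 2) * z ^ 12) :
    T * E ≤ 30000 * (X * δ) := by
  have hz0 : 0 ≤ z := hW0.trans hWz'
  have hWe : W ≤ Real.exp (ℓ / 60) := hWz'.trans p11
  have hee : ∀ (a : ℝ) (k : ℕ), 0 ≤ a → a ≤ Real.exp (ℓ / 60) → (k : ℝ) ≤ 31 →
      a ^ k ≤ Real.exp (31 * ℓ / 60) := by
    intro a k ha0 ha hk
    calc a ^ k ≤ Real.exp (ℓ / 60) ^ k := pow_le_pow_left₀ ha0 ha k
      _ = Real.exp (k * (ℓ / 60)) := by rw [Real.exp_nat_mul]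
      _ ≤ _ := Real.exp_le_exp.2 (by nlinarith)
  have f1 := hee W 3 hW0 hWe (by norm_num)
  have f2 := hee W 2 hW0 hWe (by norm_num)
  have f3 := hee z 2 hz0 p11 (by norm_num)
  have f4 : q * W ≤ Real.exp (31 * ℓ / 60) := by
    calc q * W ≤ Real.exp (ℓ / 2) * Real.exp (ℓ / 60) :=
          mul_le_mul p12 hWe hW0 (Real.exp_pos _).le
      _ = _ := by rw [← Real.exp_add]; congr 1; ring
  have f5 : (1 : ℝ) ≤ Real.exp (31 * ℓ / 60) := Real.one_le_exp (by positivity)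
  have e1 : E ≤ 8 * (Real.exp (31 * ℓ / 60) * Real.exp (ℓ / 5)) := by
    have e2 : 2 * W ^ 3 + W ^ 2 + 2 * (q * W) + z ^ 2 + 2 ≤
        8 * Real.exp (31 * ℓ / 60) := by linarith
    rw [hE]
    calc _ ≤ (8 * Real.exp (31 * ℓ / 60)) * Real.exp (ℓ / 5) :=
          mul_le_mul e2 p10 (by positivity) (by positivity)
      _ = _ := by ring
  have e4 : ℓ ^ 4 ≤ 3725 * Real.exp (17 * ℓ / 60) := by
    have h := Real.pow_div_factorial_le_exp (17 * ℓ / 60) (by positivity) 4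
    have hf : ((Nat.factorial 4 : ℕ) : ℝ) = 24 := by norm_num [Nat.factorial]
    rw [hf] at h
    have h6 : ℓ ^ 4 ≤ 3725 * ((17 * ℓ / 60) ^ 4 / 24) := by
      have e : 3725 * ((17 * ℓ / 60) ^ 4 / 24) = ℓ ^ 4 * (3725 * 83521 / (12960000 * 24)) := by
        ring
      rw [e]
      have : 0 < ℓ ^ 4 := by positivity
      nlinarith
    linarith
  have e5 : Real.exp (31 * ℓ / 60) * Real.exp (ℓ / 5) * Real.exp (17 * ℓ / 60) = X := by
    rw [hXe, ← Real.exp_add, ← Real.exp_add]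
    congr 1
    ring
  have e6 : 0 < Real.exp (31 * ℓ / 60) * Real.exp (ℓ / 5) := by positivity
  calc T * E ≤ ℓ ^ 2 * (8 * (Real.exp (31 * ℓ / 60) * Real.exp (ℓ / 5))) :=
        mul_le_mul p6 e1 hE0 (by positivity)
    _ = 8 * (Real.exp (31 * ℓ / 60) * Real.exp (ℓ / 5)) * (ℓ ^ 4 * (1 / ℓ ^ 2)) := by
        field_simp
    _ ≤ 8 * (Real.exp (31 * ℓ / 60) * Real.exp (ℓ / 5)) *
        (3725 * Real.exp (17 * ℓ / 60) * δ) := by
        apply mul_le_mul_of_nonneg_left _ (by positivity)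
        exact mul_le_mul e4 m2 (by positivity) (by positivity)
    _ = 29800 * ((Real.exp (31 * ℓ / 60) * Real.exp (ℓ / 5) * Real.exp (17 * ℓ / 60)) * δ) := by
        ring
    _ = 29800 * (X * δ) := by rw [e5]
    _ ≤ _ := by
        have : 0 ≤ X * δ := by positivity
        linarith

end SM7m

open Finset SM7m in
/-- (SM7) -/
theorem SM7_thm (h1 : Stmt_PT7) (h2 : Stmt_TJC) (h3 : Stmt_TKC) (h4 : Stmt_TIC) (h5 : Stmt_TFC)
    (h6 : Stmt_TGC) (h7 : Stmt_THC) (h8 : Stmt_TUC) (h9 : Stmt_SMO) (h10 : Stmt_SMP)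
    (h11 : Stmt_PS7) : Stmt_SM7 := by
  classical
  obtain ⟨CJ, hCJ, h2⟩ := h2
  obtain ⟨CK, hCK, h3⟩ := h3
  obtain ⟨CI, hCI, h4⟩ := h4
  obtain ⟨CF, hCF, h5⟩ := h5
  obtain ⟨CG, hCG, h6⟩ := h6
  obtain ⟨CH, hCH, h7⟩ := h7
  obtain ⟨CU, hCU, h8⟩ := h8
  obtain ⟨CS, hCS, h9⟩ := h9
  obtain ⟨CR, hCR, h10⟩ := h10
  obtain ⟨CP, hCP, h11⟩ := h11
  obtain ⟨CM, hCM, hM⟩ := PSMm.sumB
  set K : ℝ := CJ * (230400 * CM ^ 3) + CK * (230400 * CM ^ 3) + CI * (60 * CM ^ 2) +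
    CF * (480 * CM ^ 2 + 600 * CS * CM) + CG * (480 * CM ^ 2 + 600 * CR * CM) +
    CH * (60 * CP) + CU * 60 with hK
  have hK0 : 0 < K := by positivity
  set C0 : ℝ := ((800 : ℝ) ^ 7) ^ (16 / 15 : ℝ) with hC0
  have hC00 : 0 < C0 := Real.rpow_pos_of_pos (by positivity) _
  set C : ℝ := C0 + 3 * K * 250047000 + 30000 + 52 with hC
  refine ⟨C, by positivity, ?_⟩
  intro X hX
  have hX1 : (1 : ℝ) < (X : ℝ) := by exact_mod_cast (by omega : 1 < X)
  have hXpos : (0 : ℝ) < (X : ℝ) := by linarith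
  set ℓ : ℝ := Real.log X with hℓ
  have hℓpos : 0 < ℓ := Real.log_pos hX1
  set δ : ℝ := ℓ ^ (-(16 / 15) : ℝ) with hδ
  have hδ0 : 0 < δ := Real.rpow_pos_of_pos hℓpos _
  have hgoal : C * X / ℓ ^ (16 / 15 : ℝ) = C * (X * δ) := by
    rw [hδ, Real.rpow_neg hℓpos.le]
    ring
  rw [hgoal]
  by_cases hcase : (800 : ℝ) ^ 7 ≤ ℓ
  · set s : ℝ := ℓ ^ (1 / 7 : ℝ) with hs
    have hs7 : s ^ 7 = ℓ := by
      rw [hs, ← Real.rpow_natCast, ← Real.rpow_mul hℓpos.le]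
      norm_num
    have hs0 : 0 ≤ s := Real.rpow_nonneg hℓpos.le _
    have hs800 : 800 ≤ s := by
      rw [← hs7] at hcase
      exact (pow_le_pow_iff_left₀ (by norm_num) hs0 (by norm_num)).1 hcase
    obtain ⟨p1, p2, p3, p4, p5, p6, p7, p8, p9, p10, p11, p12⟩ :=
      params X ℓ s hℓ (by omega) hs800 hs7
    obtain ⟨n5, -, -⟩ := big ℓ s hs800 hs7
    set T := ⌊ℓ ^ 2⌋₊ with hT
    set V := ⌊Real.exp s⌋₊ with hV
    set z := ⌊Real.exp (ℓ / 60)⌋₊ with hz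
    set W := V ^ 4 with hW
    have hV2 : 2 ≤ V := p1.trans p2
    have hW16 : 16 ≤ W := by
      calc 16 = 2 ^ 4 := by norm_num
        _ ≤ V ^ 4 := Nat.pow_le_pow_left hV2 4
    have hVW : V ≤ W := Nat.le_self_pow (by norm_num) V
    have hVz : V ≤ z := hVW.trans p3
    have hTpos : (0 : ℝ) < T := by exact_mod_cast (by omega : 0 < T)
    have hVpos : (0 : ℝ) < V := by exact_mod_cast (by omega : 0 < V)
    have hlW : Real.log W = 4 * Real.log V := by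
      rw [hW]
      push_cast
      rw [Real.log_pow]
      norm_num
    have hlT0 : 0 ≤ Real.log T := Real.log_natCast_nonneg T
    have hlT : Real.log T ≤ 2 * Real.log ℓ := by
      calc Real.log T ≤ Real.log (ℓ ^ 2) := Real.log_le_log hTpos p6
        _ = 2 * Real.log ℓ := by rw [Real.log_pow]; norm_num
    obtain ⟨n1, n2, n3, n4⟩ := nums ℓ s (Real.log V) (Real.log W) (Real.log z) (Real.log T)
      hs800 hs7 p7 p8 hlW p9 hlT0 hlT
    have hℓ1 : 1 ≤ ℓ := by linarith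
    have m1 := loglog ℓ hℓ1
    have m2 := delta ℓ hℓ1 (16 / 15) (by norm_num)
    have m3 := delta ℓ hℓ1 (15 / 14) (by norm_num)
    rw [← hδ] at m1 m2
    set η : ℝ := ℓ ^ (-(15 / 14) : ℝ) with hη
    have hη0 : 0 < η := Real.rpow_pos_of_pos hℓpos _
    set u : ℝ := Real.log ℓ with hu
    obtain ⟨w1, w2, w3⟩ := aux3 u η n4 hη0.le
    set D : ℝ := u ^ 3 * η with hD
    have hD0 : 0 < D := by positivity
    have hlz : 0 < Real.log z := by
      have : 0 < ℓ / 120 := by positivity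
      linarith
    have hlWpos : 0 < Real.log W := by linarith
    have hXe : (X : ℝ) = Real.exp ℓ := by rw [hℓ, Real.exp_log hXpos]
    -- sums over primes
    have hX16 : 16 ≤ X := by
      have : (16 : ℝ) ≤ X := by
        rw [hXe]
        have := Real.add_one_le_exp ℓ
        linarith
      exact_mod_cast this
    have hzX : z ≤ X := by
      have h7 : Real.exp (ℓ / 60) ≤ Real.exp ℓ := Real.exp_le_exp.2 (by linarith)
      have : (z : ℝ) ≤ X := by rw [hXe]; linarith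
      exact_mod_cast this
    have hSX := hM X hX16
    rw [← hℓ, ← hu] at hSX
    have hSW : ∑ q ∈ PP W, (1 : ℝ) / q ≤ CM * u := by
      refine le_trans (sum_le_sum_of_subset_of_nonneg ?_ ?_) hSX
      · intro q hq
        obtain ⟨hq1, -, hq3⟩ := mem_PP.1 hq
        rw [mem_filter, mem_Icc]
        exact ⟨⟨hq1.one_lt.le, hq3.trans (p3.trans hzX)⟩, hq1⟩
      · intro q _ _
        positivity
    have hSC : ∑ q ∈ PC X W, (1 : ℝ) / q ≤ CM * u := by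
      refine le_trans (sum_le_sum_of_subset_of_nonneg ?_ ?_) hSX
      · intro q hq
        unfold PC at hq
        rw [mem_filter, mem_Ioc] at hq
        rw [mem_filter, mem_Icc]
        exact ⟨⟨hq.2.1.one_lt.le, hq.1.2.trans (Nat.sqrt_le_self X)⟩, hq.2.1⟩
      · intro q _ _
        positivity
    have hsq1 : 1 ≤ Nat.sqrt X := by
      rw [Nat.le_sqrt']
      omega
    have hmom : ∀ B : ℝ, 0 < B →
        B * ((1 + Real.log (Nat.sqrt X : ℕ)) / T + 1 / (V : ℝ) ^ 2) ≤ B * (5 / ℓ) := by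
      intro B hB
      apply mul_le_mul_of_nonneg_left _ hB.le
      have e1 : Real.log (Nat.sqrt X : ℕ) ≤ ℓ := by
        rw [hℓ]
        exact Real.log_le_log (by exact_mod_cast hsq1) (by exact_mod_cast Nat.sqrt_le_self X)
      have e2 : (1 + Real.log (Nat.sqrt X : ℕ)) / T ≤ 4 / ℓ := by
        rw [div_le_div_iff₀ hTpos hℓpos]
        exact aux1 _ _ _ e1 hℓ1 p5
      have e3 : 1 / (V : ℝ) ^ 2 ≤ 1 / ℓ := by
        apply one_div_le_one_div_of_le hℓpos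
        have e4 : (T : ℝ) ≤ V := by exact_mod_cast p2
        exact aux2 ℓ T V (by linarith) p5 e4
      have e6 : 5 / ℓ = 4 / ℓ + 1 / ℓ := by ring
      rw [e6]
      linarith
    have hS2 := (h9 T V (Nat.sqrt X) p1 p2 hsq1).trans (hmom CS hCS)
    have hS3 := (h10 T V (Nat.sqrt X) p1 p2 hsq1).trans (hmom CR hCR)
    have hz16 : 16 ≤ z := hW16.trans p3
    have hPS := h11 W z (by omega) hz16
    -- the numerical bounds
    have rJ : ∀ B : ℝ, 0 < B → B * ((Real.log W) ^ (5 / 4 : ℝ) / (Real.log z) ^ (5 / 4 : ℝ) *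
        (CM * u) ^ 3) ≤ B * (230400 * CM ^ 3) * D := by
      intro B hB
      rw [mul_assoc]
      apply mul_le_mul_of_nonneg_left _ hB.le
      calc (Real.log W) ^ (5 / 4 : ℝ) / (Real.log z) ^ (5 / 4 : ℝ) * (CM * u) ^ 3
          ≤ (230400 * η) * (CM * u) ^ 3 := mul_le_mul_of_nonneg_right n1 (by positivity)
        _ = 230400 * CM ^ 3 * D := by rw [hD]; ring
    have rI : CI * (1 / (Real.log W * Real.log z) * (CM * u) ^ 2) ≤ CI * (60 * CM ^ 2) * D := by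
      rw [mul_assoc]
      apply mul_le_mul_of_nonneg_left _ hCI.le
      calc 1 / (Real.log W * Real.log z) * (CM * u) ^ 2
          ≤ (60 * η) * (CM * u) ^ 2 := mul_le_mul_of_nonneg_right n2 (by positivity)
        _ = 60 * CM ^ 2 * (u ^ 2 * η) := by ring
        _ ≤ 60 * CM ^ 2 * D := mul_le_mul_of_nonneg_left w3 (by positivity)
    have rF : ∀ B R : ℝ, 0 < B → 0 < R → B * (((Real.log T) ^ (1 / 2 : ℝ) /
        ((Real.log V) ^ (1 / 2 : ℝ) * Real.log z) * (CM * u) + 1 / Real.log z * (R * (5 / ℓ))) *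
        (CM * u)) ≤ B * (480 * CM ^ 2 + 600 * R * CM) * D := by
      intro B R hB hR
      rw [mul_assoc]
      apply mul_le_mul_of_nonneg_left _ hB.le
      have t1 : (Real.log T) ^ (1 / 2 : ℝ) / ((Real.log V) ^ (1 / 2 : ℝ) * Real.log z) *
          (CM * u) ≤ 480 * CM * (u ^ 2 * η) := by
        calc _ ≤ (480 * u * η) * (CM * u) := mul_le_mul_of_nonneg_right n3 (by positivity)
          _ = 480 * CM * (u ^ 2 * η) := by ring
      have t2 : 1 / Real.log z * (R * (5 / ℓ)) ≤ 600 * R * η := by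
        have t3 : 1 / Real.log z ≤ 120 / ℓ := by
          rw [div_le_div_iff₀ hlz hℓpos]
          linarith
        calc 1 / Real.log z * (R * (5 / ℓ)) ≤ 120 / ℓ * (R * (5 / ℓ)) :=
              mul_le_mul_of_nonneg_right t3 (by positivity)
          _ = 600 * R * (1 / ℓ ^ 2) := by
              field_simp
              norm_num
          _ ≤ _ := mul_le_mul_of_nonneg_left m3 (by positivity)
      calc _ ≤ (480 * CM * (u ^ 2 * η) + 600 * R * η) * (CM * u) :=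
            mul_le_mul_of_nonneg_right (add_le_add t1 t2) (by positivity)
        _ = 480 * CM ^ 2 * D + 600 * R * CM * (u * η) := by rw [hD]; ring
        _ ≤ 480 * CM ^ 2 * D + 600 * R * CM * D := by
            have := mul_le_mul_of_nonneg_left w2 (show 0 ≤ 600 * R * CM by positivity)
            linarith
        _ = _ := by ring
    have rH : CH * (1 / Real.log z * (CP * Real.log (Real.log z) / Real.log W)) ≤
        CH * (60 * CP) * D := by
      rw [mul_assoc]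
      apply mul_le_mul_of_nonneg_left _ hCH.le
      have t1 : Real.log (Real.log z) ≤ u := by
        rw [hu]
        apply Real.log_le_log hlz
        rw [hℓ]
        exact Real.log_le_log (by exact_mod_cast (by omega : 0 < z)) (by exact_mod_cast hzX)
      calc 1 / Real.log z * (CP * Real.log (Real.log z) / Real.log W) =
            CP * (1 / (Real.log W * Real.log z)) * Real.log (Real.log z) := by
            field_simp
        _ ≤ CP * (1 / (Real.log W * Real.log z)) * u :=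
            mul_le_mul_of_nonneg_left t1 (by positivity)
        _ ≤ CP * (60 * η) * u := by
            apply mul_le_mul_of_nonneg_right _ (by linarith)
            exact mul_le_mul_of_nonneg_left n2 hCP.le
        _ = 60 * CP * (u * η) := by ring
        _ ≤ 60 * CP * D := mul_le_mul_of_nonneg_left w2 (by positivity)
    have rU : CU * (1 / (Real.log W * Real.log z)) ≤ CU * 60 * D := by
      rw [mul_assoc]
      apply mul_le_mul_of_nonneg_left _ hCU.le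
      calc 1 / (Real.log W * Real.log z) ≤ 60 * η := n2
        _ ≤ 60 * D := mul_le_mul_of_nonneg_left w1 (by norm_num)
    set E : ℝ := (2 * (W : ℝ) ^ 3 + (W : ℝ) ^ 2 + 2 * (Nat.sqrt X * W) + (z : ℝ) ^ 2 + 2) *
      (z : ℝ) ^ 12 with hE
    have hE0 : 0 ≤ E := by positivity
    have hcc : ∀ c ∈ Icc 1 T, ((G X z W c).card : ℝ) ≤ K * D * X * wt c + E := by
      intro c hc
      rw [mem_Icc] at hc
      have hc1 := hc.1
      have hc0 : (0 : ℝ) < c := by exact_mod_cast hc1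
      have hwn := wt_nonneg c
      have hXw : 0 ≤ (X : ℝ) * wt c := by positivity
      have bU : ((TU X z W c).card : ℝ) ≤
          CU * (1 / (Real.log W * Real.log z)) * X * wt c + 2 * (z : ℝ) ^ 12 := by
        refine (h8 X z W c hc1 (by omega) p3).trans (le_of_eq ?_)
        unfold wt
        field_simp
      have bJ' := bJ hCJ (X := X) (z := z) (W := W) hc1 hlWpos.le hlz
        (fun l p p' a1 a2 a3 a4 a5 a6 a7 a8 a9 a10 =>
          h2 X z W c l p p' hc1 a1 a2 a3 a4 a5 a6 a7 a8 a9 a10 p3) hSW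
      have bK' := bK hCK (X := X) (z := z) (W := W) hc1 hlWpos.le hlz
        (fun l p p' a1 a2 a3 a4 a5 a6 a7 a8 a9 a10 =>
          h3 X z W c l p p' hc1 a1 a2 a3 a4 a5 a6 a7 a8 a9 a10 p3) hSW
      have bI' := bI hCI (X := X) (z := z) (W := W) hc1 hlWpos hlz
        (fun l p a1 a2 a3 a4 a5 a6 => h4 X z W c l p hc1 a1 a2 a3 a4 a5 a6 p3) hSW
      have bF' := bF hCF (X := X) (z := z) (W := W) hc1 p1 p2 hW p3 (fun l p => TF X c l p)
        (SS T V) (fun l p a1 a2 a3 a4 a5 a6 => by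
          have h := h5 X z c l p hc1 a1 a2 a3 a4 a5 a6
          exact ⟨h.1, fun b1 b2 => h.2 T V p1 p2 hVz b1 b2⟩) hSW hSC hS2
      have bG' := bF hCG (X := X) (z := z) (W := W) hc1 p1 p2 hW p3 (fun p l => TG X c l p)
        (SR T V) (fun p l a1 a2 a3 a4 a5 a6 => by
          have h := h6 X z c l p hc1 a2 a1 a4 a3 a5 a6
          refine ⟨h.1.trans (le_of_eq ?_), fun b1 b2 =>
            (h.2 T V p1 p2 hVz b1 b2).trans (le_of_eq ?_)⟩
          · rw [mul_comm (l : ℝ) p]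
          · rw [mul_comm (l : ℝ) p]) hSW hSC hS3
      have bH' := bH hCH (X := X) (z := z) (W := W) hc1 (by omega) hlz
        (fun l p a1 a2 a3 a4 a5 a6 => h7 X z c l p hc1 a1 a2 a3 a4 a5 a6) hPS
      have hFd : ((GF X W c).card : ℝ) =
        (((PC X W).biUnion fun l => (PP W).biUnion fun p => TF X c l p).card : ℕ) := rfl
      have hGd : ((GG X W c).card : ℝ) =
        (((PC X W).biUnion fun p => (PP W).biUnion fun l => TG X c l p).card : ℕ) := rfl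
      rw [← hFd] at bF'
      rw [← hGd] at bG'
      have cU := mul_le_mul_of_nonneg_right rU hXw
      have cJ := mul_le_mul_of_nonneg_right (rJ CJ hCJ) hXw
      have cK := mul_le_mul_of_nonneg_right (rJ CK hCK) hXw
      have cI := mul_le_mul_of_nonneg_right rI hXw
      have cF := mul_le_mul_of_nonneg_right (rF CF CS hCF hCS) hXw
      have cG := mul_le_mul_of_nonneg_right (rF CG CR hCG hCR) hXw
      have cH := mul_le_mul_of_nonneg_right rH hXw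
      have hcard := card_G X z W c
      rw [mul_assoc _ (X : ℝ) (wt c)] at bU bJ' bK' bI' bF' bG' bH'
      have dU := bU.trans (add_le_add cU le_rfl)
      have dJ := bJ'.trans (add_le_add cJ le_rfl)
      have dK := bK'.trans (add_le_add cK le_rfl)
      have dI := bI'.trans (add_le_add cI le_rfl)
      have dF := bF'.trans (add_le_add cF le_rfl)
      have dG := bG'.trans (add_le_add cG le_rfl)
      have dH := bH'.trans (add_le_add cH le_rfl)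
      refine (hcard.trans (add_le_add dU (add_le_add dJ (add_le_add dK (add_le_add dI
        (add_le_add dF (add_le_add dG dH))))))).trans (le_of_eq ?_)
      rw [hK, hE]
      ring
    have hI : ((Icc 1 T).card : ℝ) ≤ T := by
      rw [Nat.card_Icc]
      simp
    have hU := one (Icc 1 T) T hI (G X z W) E hE0 (fun c => K * D * X * wt c) hcc
    have hWt : ∑ c ∈ Icc 1 T, K * D * X * wt c ≤ 3 * K * 250047000 * (X * δ) := by
      rw [← mul_sum]
      have e1 := mul_le_mul_of_nonneg_left (sum_wt T) (show 0 ≤ K * D * X by positivity)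
      have e2 := mul_le_mul_of_nonneg_left m1 (show 0 ≤ 3 * K * X by positivity)
      calc K * D * X * ∑ c ∈ Icc 1 T, wt c ≤ K * D * X * 3 := e1
        _ = 3 * K * X * D := by ring
        _ ≤ 3 * K * X * (250047000 * δ) := e2
        _ = _ := by ring
    -- the error
    have hEb : (T : ℝ) * E ≤ 30000 * (X * δ) := by
      exact err ℓ X T W z (Nat.sqrt X) E δ hℓpos hXpos hXe hδ0 (Nat.cast_nonneg _)
        (by exact_mod_cast p3) p11 p12 p10 p6 m2 hE0 hE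
    -- the multiples of squares
    have hA1 : ((((Ioc T X).biUnion fun c => (Icc 2 X).filter (fun n => c ^ 2 ∣ n))).card : ℝ) ≤
        X / T := by
      refine le_trans ?_ (QSMm.tail X T (by omega) p4)
      calc ((((Ioc T X).biUnion fun c => (Icc 2 X).filter (fun n => c ^ 2 ∣ n))).card : ℝ)
          ≤ ∑ c ∈ Ioc T X, (((Icc 2 X).filter (fun n => c ^ 2 ∣ n)).card : ℝ) := by
            exact_mod_cast card_biUnion_le
        _ ≤ _ := sum_le_sum fun c _ => QSMm.card_mult X c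
    have hXT : (X : ℝ) / T ≤ 2 * (X * δ) := by
      calc (X : ℝ) / T ≤ X / (ℓ ^ 2 / 2) :=
            div_le_div_of_nonneg_left hXpos.le (by positivity) p5
        _ = 2 * (X * (1 / ℓ ^ 2)) := by field_simp
        _ ≤ 2 * (X * δ) := by
            have := mul_le_mul_of_nonneg_left m2 hXpos.le
            linarith
    have hT48 : 2 * (T : ℝ) ≤ 48 * (X * δ) := by
      have e4 : ℓ ^ 4 ≤ 24 * X := by
        have h := Real.pow_div_factorial_le_exp ℓ hℓpos.le 4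
        have hf : ((Nat.factorial 4 : ℕ) : ℝ) = 24 := by norm_num [Nat.factorial]
        rw [hf, ← hXe] at h
        linarith
      calc 2 * (T : ℝ) ≤ 2 * ℓ ^ 2 := by linarith
        _ = 2 * (ℓ ^ 4 * (1 / ℓ ^ 2)) := by field_simp
        _ ≤ 2 * (24 * X * δ) := by
            have := mul_le_mul e4 m2 (by positivity) (by positivity)
            linarith
        _ = _ := by ring
    have hB1 : ((((Icc 1 T).image (fun c => c ^ 2)).card : ℕ) : ℝ) ≤ T := by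
      have : ((Icc 1 T).image (fun c => c ^ 2)).card ≤ T := by
        refine card_image_le.trans ?_
        rw [Nat.card_Icc]
        omega
      exact_mod_cast this
    have hB2 : ((((Icc 1 T).image (fun c => 2 * c ^ 2)).card : ℕ) : ℝ) ≤ T := by
      have : ((Icc 1 T).image (fun c => 2 * c ^ 2)).card ≤ T := by
        refine card_image_le.trans ?_
        rw [Nat.card_Icc]
        omega
      exact_mod_cast this
    have hcov := SM7m.cover h1 X z W T p3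
    have hcard : ((((Icc 2 X).filter
        (fun n => Even n ∧ Pool.Agent.ADS.SqCond n ∧ ¬ (n - 1).Prime ∧ ¬ Form5 n))).card : ℝ) ≤
        (((Ioc T X).biUnion fun c => (Icc 2 X).filter (fun n => c ^ 2 ∣ n)).card : ℝ) +
        (((Icc 1 T).image (fun c => c ^ 2)).card + ((Icc 1 T).image (fun c => 2 * c ^ 2)).card) +
        ((Icc 1 T).biUnion fun c => G X z W c).card := by
      have t := (card_le_card hcov).trans ((card_union_le _ _).trans
        (add_le_add ((card_union_le _ _).trans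
          (add_le_add le_rfl (card_union_le _ _))) le_rfl))
      exact_mod_cast t
    have hfin : C * ((X : ℝ) * δ) = C0 * (X * δ) + 3 * K * 250047000 * (X * δ) +
        30000 * (X * δ) + 52 * (X * δ) := by
      rw [hC]; ring
    have hpos : 0 ≤ C0 * ((X : ℝ) * δ) := by positivity
    have hpos2 : 0 ≤ (X : ℝ) * δ := by positivity
    rw [hfin]
    have hU' : ((((Icc 1 T).biUnion fun c => G X z W c)).card : ℝ) ≤
      ∑ c ∈ Icc 1 T, K * D * X * wt c + (T : ℝ) * E := hU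
    linarith
  · rw [not_le] at hcase
    have hc : (((Icc 2 X).filter
        (fun n => Even n ∧ Pool.Agent.ADS.SqCond n ∧ ¬ (n - 1).Prime ∧ ¬ Form5 n)).card : ℝ) ≤
        X := by
      have : ((Icc 2 X).filter
          (fun n => Even n ∧ Pool.Agent.ADS.SqCond n ∧ ¬ (n - 1).Prime ∧ ¬ Form5 n)).card ≤ X := by
        calc ((Icc 2 X).filter (fun n => Even n ∧ Pool.Agent.ADS.SqCond n ∧
              ¬ (n - 1).Prime ∧ ¬ Form5 n)).card ≤ (Icc 2 X).card := card_filter_le _ _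
          _ ≤ X := by rw [Nat.card_Icc]; omega
      exact_mod_cast this
    refine hc.trans ?_
    have e0 : ℓ ^ (16 / 15 : ℝ) * δ = 1 := by
      rw [hδ, ← Real.rpow_add hℓpos]
      norm_num
    have e1 : ℓ ^ (16 / 15 : ℝ) ≤ C0 := Real.rpow_le_rpow hℓpos.le hcase.le (by norm_num)
    calc (X : ℝ) = ℓ ^ (16 / 15 : ℝ) * (X * δ) := by
          have : ℓ ^ (16 / 15 : ℝ) * (X * δ) = X * (ℓ ^ (16 / 15 : ℝ) * δ) := by ring
          rw [this, e0, mul_one]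
      _ ≤ C * (X * δ) := by
          apply mul_le_mul_of_nonneg_right _ (by positivity)
          rw [hC]
          have : 0 ≤ 3 * K * 250047000 := by positivity
          linarith

end Pool.Agent.ADG
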