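import Pool.Agent.ADG.St7
import Pool.Agent.ADG.SMO

/-!
# Project ADG part 7, module SMP (helper96): the second moment of `Σ (q/p)/q` (after helper54)
-/

set_option autoImplicit false

namespace Pool.Agent.ADG

open Finset Pool.Agent.ADS

open Classical in
theorem SMP_thm (h : Stmt_RCY) : Stmt_SMP := by
  obtain ⟨χ, ψ, hcp⟩ := h
  refine ⟨4, by norm_num, ?_⟩
  intro T V Y hT hTV hY
  set Q := (Ioc T V).filter Nat.Prime with hQ
  have hQm : ∀ q ∈ Q, q.Prime ∧ q ≠ 2 ∧ T < q ∧ q ≤ V := by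
    intro q hq
    rw [hQ, mem_filter, mem_Ioc] at hq
    exact ⟨hq.2, by omega, hq.1.1, hq.1.2⟩
  have hV4 : V ≤ V ^ 4 := by
    calc V = V ^ 1 := (pow_one V).symm
      _ ≤ V ^ 4 := Nat.pow_le_pow_right (by omega) (by norm_num)
  have hVpos : (0 : ℝ) < V := by exact_mod_cast (by omega : 0 < V)
  have hTpos : (0 : ℝ) < T := by exact_mod_cast (by omega : 0 < T)
  have hlog : 0 ≤ 1 + Real.log Y := by
    have := Real.log_nonneg (by exact_mod_cast hY : (1 : ℝ) ≤ Y)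
    linarith
  -- the sums are sums of characters
  have hSS : ∀ l ∈ Ioc (V ^ 4) Y, l.Prime → SR T V l = ∑ q ∈ Q, ψ q l / q := by
    intro l hl hlp
    rw [mem_Ioc] at hl
    rw [SR]
    apply sum_congr rfl
    intro q hq
    obtain ⟨q1, q2, q3, q4⟩ := hQm q hq
    obtain ⟨-, c1, -, c4, c5, -⟩ := hcp q q1 q2
    have hne : l ≠ q := by omega
    have h3 := c4 l hlp (by omega) hne
    have h5 := (c5 l hlp (by omega) hne).2
    congr 1
    by_cases hs : IsSquare ((q : ℕ) : ZMod l)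
    · rw [if_pos hs, h3.1 hs]
    · rw [if_neg hs]
      rcases c1.val l with h6 | h6 | h6
      · exact absurd h6 h5
      · exact absurd (h3.2 h6) hs
      · exact h6.symm
  -- second moment
  have h1 : ∑ l ∈ (Ioc (V ^ 4) Y).filter (fun l => l.Prime ∧ 1 < SR T V l), (1 : ℝ) / l ≤
      ∑ k ∈ Ioc (V ^ 4) Y, (1 : ℝ) / k * (∑ q ∈ Q, ψ q k / q) ^ 2 := by
    rw [sum_filter]
    apply sum_le_sum
    intro l hl
    split_ifs with hc
    · rw [hSS l hl hc.1] at hc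
      have h2 : (1 : ℝ) ≤ (∑ q ∈ Q, ψ q l / q) ^ 2 := by nlinarith [hc.2]
      calc (1 : ℝ) / l = (1 : ℝ) / l * 1 := (mul_one _).symm
        _ ≤ _ := mul_le_mul_of_nonneg_left h2 (by positivity)
    · positivity
  have h2 : ∑ k ∈ Ioc (V ^ 4) Y, (1 : ℝ) / k * (∑ q ∈ Q, ψ q k / q) ^ 2 =
      ∑ q ∈ Q, ∑ q' ∈ Q, (1 : ℝ) / (q * q') * ∑ k ∈ Ioc (V ^ 4) Y, ψ q k * ψ q' k / k := by
    have e : ∀ k ∈ Ioc (V ^ 4) Y, (1 : ℝ) / k * (∑ q ∈ Q, ψ q k / q) ^ 2 =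
        ∑ q ∈ Q, ∑ q' ∈ Q, (1 : ℝ) / (q * q') * (ψ q k * ψ q' k / k) := by
      intro k _
      rw [sq, sum_mul_sum, mul_sum]
      apply sum_congr rfl
      intro q _
      rw [mul_sum]
      apply sum_congr rfl
      intro q' _
      rw [one_div_mul_eq_div, div_mul_div_comm, one_div_mul_eq_div, div_div, div_div, mul_comm (k : ℝ)]
    rw [sum_congr rfl e, sum_comm]
    apply sum_congr rfl
    intro q _
    rw [sum_comm]
    apply sum_congr rfl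
    intro q' _
    rw [mul_sum]
  have h3 : ∀ q ∈ Q, ∀ q' ∈ Q,
      (1 : ℝ) / (q * q') * ∑ k ∈ Ioc (V ^ 4) Y, ψ q k * ψ q' k / k ≤
        (if q = q' then ((q : ℝ) ^ 2)⁻¹ * (1 + Real.log Y) else 0) + 4 / (V : ℝ) ^ 4 := by
    intro q hq q' hq'
    obtain ⟨q1, q2, q3, q4⟩ := hQm q hq
    obtain ⟨r1, r2, r3, r4⟩ := hQm q' hq'
    have hqp : (0 : ℝ) < q := by exact_mod_cast q1.pos
    have hrp : (0 : ℝ) < q' := by exact_mod_cast r1.pos
    obtain ⟨-, c1, -, -, c5, c6⟩ := hcp q q1 q2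
    by_cases hqq : q = q'
    · subst hqq
      rw [if_pos rfl]
      have h4 : ∑ k ∈ Ioc (V ^ 4) Y, ψ q k * ψ q k / k ≤ ∑ k ∈ Ioc (V ^ 4) Y, (1 : ℝ) / k := by
        apply sum_le_sum
        intro k _
        apply div_le_div_of_nonneg_right _ (by positivity)
        rcases c1.val k with h6 | h6 | h6 <;> rw [h6] <;> norm_num
      have h5 := h4.trans (SMOm.harm_le (V ^ 4) Y)
      have h6 : (0 : ℝ) ≤ 4 / (V : ℝ) ^ 4 := by positivity
      calc (1 : ℝ) / (q * q) * ∑ k ∈ Ioc (V ^ 4) Y, ψ q k * ψ q k / k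
          ≤ (1 : ℝ) / (q * q) * (1 + Real.log Y) := mul_le_mul_of_nonneg_left h5 (by positivity)
        _ = ((q : ℝ) ^ 2)⁻¹ * (1 + Real.log Y) := by rw [one_div, sq]
        _ ≤ _ := by linarith
    · rw [if_neg hqq, zero_add]
      have h4 := SMOm.tail_le (c6 q' r1 r2 (Ne.symm hqq)).2 (V ^ 4) Y
      calc (1 : ℝ) / (q * q') * ∑ k ∈ Ioc (V ^ 4) Y, ψ q k * ψ q' k / k
          ≤ (1 : ℝ) / (q * q') * (((4 * (q * q') : ℕ) : ℝ) / (((V ^ 4 : ℕ) : ℝ) + 1)) :=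
            mul_le_mul_of_nonneg_left h4 (by positivity)
        _ = 4 / ((V : ℝ) ^ 4 + 1) := by
            push_cast
            field_simp
        _ ≤ 4 / (V : ℝ) ^ 4 := by
            apply div_le_div_of_nonneg_left (by norm_num) (by positivity)
            linarith
  have h4 : ∑ q ∈ Q, ∑ q' ∈ Q, (1 : ℝ) / (q * q') * ∑ k ∈ Ioc (V ^ 4) Y, ψ q k * ψ q' k / k ≤
      ∑ q ∈ Q, (((q : ℝ) ^ 2)⁻¹ * (1 + Real.log Y) + Q.card * (4 / (V : ℝ) ^ 4)) := by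
    apply sum_le_sum
    intro q hq
    refine (sum_le_sum (h3 q hq)).trans (le_of_eq ?_)
    rw [sum_add_distrib, sum_ite_eq, if_pos hq, sum_const, nsmul_eq_mul]
  have hcard : (Q.card : ℝ) ≤ V := by
    have : Q.card ≤ V := by
      calc Q.card ≤ (Ioc T V).card := card_filter_le _ _
        _ = V - T := by simp
        _ ≤ V := Nat.sub_le _ _
    exact_mod_cast this
  have hsq : ∑ q ∈ Q, ((q : ℝ) ^ 2)⁻¹ ≤ 1 / T := by
    calc ∑ q ∈ Q, ((q : ℝ) ^ 2)⁻¹ ≤ ∑ q ∈ Ioc T V, ((q : ℝ) ^ 2)⁻¹ :=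
          sum_le_sum_of_subset_of_nonneg (filter_subset _ _) (fun _ _ _ => by positivity)
      _ ≤ (T : ℝ)⁻¹ - (V : ℝ)⁻¹ := sum_Ioc_inv_sq_le_sub (by omega) hTV
      _ ≤ 1 / T := by
          rw [one_div]
          have : (0 : ℝ) ≤ (V : ℝ)⁻¹ := by positivity
          linarith
  have h5 : ∑ q ∈ Q, (((q : ℝ) ^ 2)⁻¹ * (1 + Real.log Y) + Q.card * (4 / (V : ℝ) ^ 4)) ≤
      (1 + Real.log Y) / T + 4 * (1 / (V : ℝ) ^ 2) := by
    rw [sum_add_distrib, ← sum_mul, sum_const, nsmul_eq_mul]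
    apply add_le_add
    · calc (∑ q ∈ Q, ((q : ℝ) ^ 2)⁻¹) * (1 + Real.log Y) ≤ 1 / T * (1 + Real.log Y) :=
            mul_le_mul_of_nonneg_right hsq hlog
        _ = (1 + Real.log Y) / T := by ring
    · calc (Q.card : ℝ) * (Q.card * (4 / (V : ℝ) ^ 4)) ≤ V * (V * (4 / (V : ℝ) ^ 4)) := by
            apply mul_le_mul hcard _ (by positivity) hVpos.le
            exact mul_le_mul_of_nonneg_right hcard (by positivity)
        _ = 4 * (1 / (V : ℝ) ^ 2) := by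
            field_simp
  have h6 : 0 ≤ (1 + Real.log Y) / T := div_nonneg hlog hTpos.le
  calc _ ≤ _ := h1
    _ = _ := h2
    _ ≤ _ := h4
    _ ≤ _ := h5
    _ ≤ 4 * ((1 + Real.log Y) / T + 1 / (V : ℝ) ^ 2) := by linarith

end Pool.Agent.ADG
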