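import Pool.Agent.ADG.S7c
import Pool.Agent.ADG.TCC

/-!
# Project ADG part 7, modules TFC and TGC (helper96)
-/

set_option autoImplicit false

namespace Pool.Agent.ADG

open Finset Pool.Agent.ADS

namespace TFCm

/-- (x y)^(1/2) (x / y)^(1/2) = x -/
lemma e1 {x y : ℝ} (hx : 0 < x) (hy : 0 < y) :
    (x * y) ^ (1 / 2 : ℝ) * (x / y) ^ (1 / 2 : ℝ) = x := by
  rw [← Real.mul_rpow (by positivity) (by positivity)]
  have : x * y * (x / y) = x ^ (2 : ℝ) := by
    rw [Real.rpow_two]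
    field_simp
  rw [this, ← Real.rpow_mul hx.le]
  norm_num

lemma e2 {x : ℝ} (hx : 0 < x) : (x * x) ^ (1 / 2 : ℝ) = x := by
  rw [← sq, ← Real.sqrt_eq_rpow, Real.sqrt_sq hx.le]

/-- the lower bound for the first set, with `w₁ = min w z` -/
lemma lb {c0 : ℝ} (hL : ∀ (m : ℕ) (χ : ℕ → ℝ), RC m χ → ∀ w y z k : ℕ, 2 ≤ m → m ≤ 4 * w ^ 2 →
    2 ≤ y → y ≤ w → w ≤ z → 1 ≤ k →
    c0 * Real.log y * (Real.log z / Real.log w) ^ (1 / 2 : ℝ) ≤
      gk k * RSm (Good y ((4 * w ^ 2) ^ 8) z k χ χ) z) {r : ℕ} {χ : ℕ → ℝ} (hχ : RC (4 * r) χ)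
    {w z k : ℕ} (hr : 2 ≤ r) (hrw : r ≤ w) (hrz : r ≤ z) (hk : 1 ≤ k) :
    c0 * (Real.log z * Real.log (min w z : ℕ)) ^ (1 / 2 : ℝ) ≤
      gk k * RSm (Good (min w z) ((4 * (min w z) ^ 2) ^ 8) z k χ χ) z := by
  have hw2 : 2 ≤ min w z := le_min (hr.trans hrw) (hr.trans hrz)
  have hr1 : r ≤ min w z := le_min hrw hrz
  have h := hL (4 * r) χ hχ (min w z) (min w z) z k (by omega) (by nlinarith) hw2 le_rfl
    (min_le_right _ _) hk
  refine le_trans (le_of_eq ?_) h
  have hlw : 0 < Real.log (min w z : ℕ) := Real.log_pos (by exact_mod_cast (by omega))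
  have hlz : 0 < Real.log z := by
    apply Real.log_pos
    have : 1 < z := by omega
    exact_mod_cast this
  have e := S7.half_sq (x := Real.log (min w z : ℕ)) hlw.le
  rw [Real.mul_rpow hlz.le hlw.le, Real.div_rpow hlz.le hlw.le]
  have i1 : 0 < (Real.log (min w z : ℕ)) ^ (1 / 2 : ℝ) := by positivity
  field_simp
  rw [sq, e]

/-- final form -/
lemma fin {S : Finset ℕ} {C a c X l p z B R : ℝ} (hc : 0 < c) (hl : 0 < l) (hp : 0 < p)
    (hX : 0 ≤ X) (ha : 0 < a) (hB : 0 < B) (hC : 196 / a ≤ C) (hR : R = a * B)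
    (h : (S.card : ℝ) ≤ 196 * c ^ (1 / 2 : ℝ) * X / (c ^ 2 * (l * p) * R) + z) :
    (S.card : ℝ) ≤ C * X * c ^ (1 / 2 : ℝ) / (c ^ 2 * (l * p * B)) + z := by
  refine h.trans (add_le_add ?_ le_rfl)
  subst hR
  have e : 196 * c ^ (1 / 2 : ℝ) * X / (c ^ 2 * (l * p) * (a * B)) =
      (196 / a) * X * c ^ (1 / 2 : ℝ) / (c ^ 2 * (l * p * B)) := by
    field_simp
  rw [e]
  gcongr

end TFCm

open Classical in
theorem TFC_thm (h1 : Stmt_SG) (h2 : Stmt_GKB) (h3 : Stmt_LBB) (h4 : Stmt_LB5) (_h5 : Stmt_RSU)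
    (h6 : Stmt_RCY) : Stmt_TFC := by
  obtain ⟨χ, ψ, hcp⟩ := h6
  obtain ⟨c3, hc3, hL3, -⟩ := h3
  obtain ⟨c5, hc5, hL5⟩ := h4
  have hlog2 : 0 < Real.log (2 : ℕ) := Real.log_pos (by norm_num)
  refine ⟨196 / (c3 * (c3 * Real.log (2 : ℕ))) + 196 / c3 + 196 / (c3 * c5), by positivity, ?_⟩
  set C := 196 / (c3 * (c3 * Real.log (2 : ℕ))) + 196 / c3 + 196 / (c3 * c5) with hC
  have hC1 : 196 / (c3 * (c3 * Real.log (2 : ℕ))) ≤ C := by
    have i1 : 0 < 196 / c3 := by positivity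
    have i2 : 0 < 196 / (c3 * c5) := by positivity
    rw [hC]; linarith
  have hC2 : 196 / c3 ≤ C := by
    have i1 : 0 < 196 / (c3 * (c3 * Real.log (2 : ℕ))) := by positivity
    have i2 : 0 < 196 / (c3 * c5) := by positivity
    rw [hC]; linarith
  have hC3 : 196 / (c3 * c5) ≤ C := by
    have i1 : 0 < 196 / (c3 * (c3 * Real.log (2 : ℕ))) := by positivity
    have i2 : 0 < 196 / c3 := by positivity
    rw [hC]; linarith
  intro X z c l p hc hl hp hl2 hp2 hpl hpz
  obtain ⟨hχ, -, hχq, -, hχ0, -⟩ := hcp p hp hp2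
  obtain ⟨-, hψ, -, hψq, hψ0, -⟩ := hcp l hl hl2
  have hcR : (0:ℝ) < c := by exact_mod_cast hc
  have hlR : (0:ℝ) < l := by exact_mod_cast hl.pos
  have hpR : (0:ℝ) < p := by exact_mod_cast hp.pos
  have hz2 : 2 ≤ z := hp.two_le.trans hpz
  have hlogz : 0 < Real.log z := Real.log_pos (by exact_mod_cast (by omega : 1 < z))
  have hlogl : 0 < Real.log l := Real.log_pos (by exact_mod_cast hl.one_lt)
  set k := 2 * (c * 1) * (l * p * l) with hk
  have hkpos : 1 ≤ k := by
    have hl' := hl.pos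
    have hp' := hp.pos
    exact Nat.succ_le_of_lt (by rw [hk]; positivity)
  have h2k : 2 ∣ k := ⟨c * 1 * (l * p * l), by rw [hk]; ring⟩
  have hR1 := TFCm.lb hL3 hχ (w := l) (z := z) (k := k) hp.two_le hpl.le hpz hkpos
  set P1 := Good (min l z) ((4 * (min l z) ^ 2) ^ 8) z k (χ p) (χ p) with hP1
  set L := Real.log (min l z : ℕ) with hL
  have hLpos : 0 < L := Real.log_pos (by exact_mod_cast (lt_min hl.one_lt (by omega)))
  have hgk : gk k ≤ 14 * (c : ℝ) ^ (1 / 4 : ℝ) := S7.gkb h2 hc hl hp hl hl2 hp2 hl2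
  -- the core
  have core : ∀ (P2 : Finset ℕ) (R2 : ℝ), (∀ q ∈ P2, q.Prime ∧ ¬ q ∣ k ∧ ψ l q ≠ 1) → 0 < R2 →
      R2 ≤ gk k * RSm P2 z → ((TF X c l p).card : ℝ) ≤ 196 * (c : ℝ) ^ (1 / 2 : ℝ) * X /
        ((c : ℝ) ^ 2 * (l * p) * (c3 * (Real.log z * L) ^ (1 / 2 : ℝ) * R2)) + (z : ℝ) ^ 12 := by
    intro P2 R2 hP2 hR2 hR2'
    have hmain := h1 X z c l p k P1 P2 (TF X c l p) _ R2 (14 * (c : ℝ) ^ (1 / 4 : ℝ)) (by omega)
      hc hl.one_lt.le hp.one_lt.le hkpos (by
        intro q hq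
        rw [Finset.mem_union] at hq
        rcases hq with hq | hq
        · simp only [hP1, Good, Finset.mem_filter] at hq
          exact ⟨hq.2.1, hq.2.2.1⟩
        · exact ⟨(hP2 q hq).1, (hP2 q hq).2.1⟩) h2k
      (S7.cef (dvd_mul_right l l) ⟨l * l, by ring⟩) (by
        intro n hn
        simp only [TF, Finset.mem_filter, Finset.mem_Icc] at hn
        obtain ⟨⟨hn2, hnX⟩, ⟨hS, hcl, hodd, hpn, hsf⟩, hno⟩ := hn
        refine ⟨hn2, hnX, hcl, hpn, ?_, ?_⟩
        · intro q hq hqn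
          simp only [hP1, Good, Finset.mem_filter] at hq
          obtain ⟨-, hqp, hqk', hor⟩ := hq
          obtain ⟨g1, g2, g3, g4, g5, g6⟩ := S7.parts hqk'
          rcases hor with h | ⟨-, h⟩
          · refine hno q hqp (lt_of_le_of_ne (h.trans (min_le_left _ _)) ?_) g6 hqn
            rintro rfl
            exact g3 (dvd_refl _)
          · have hqpne : q ≠ p := by
              rintro rfl
              exact g4 (dvd_refl _)
            have h' := (hχq q hqp hqpne).1 (S7.sq1 hS hsf hn2 hqp g2 hqn hp hpn)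
            exact h ⟨h', h'⟩
        · intro q hq hqn
          obtain ⟨hqp, hqk', hne⟩ := hP2 q hq
          obtain ⟨g1, g2, g3, g4, g5, g6⟩ := S7.parts hqk'
          have hq2 : q ≠ 2 := by
            rintro rfl
            exact g1 (dvd_refl 2)
          have hqlne : q ≠ l := by
            rintro rfl
            exact g3 (dvd_refl _)
          exact hne ((hψq q hqp hq2 hqlne).1 (hS l q hl hqp hodd hqn))) (by positivity) hR2
      hR1 hR2' hgk
    rw [S7.gsq] at hmain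
    exact hmain
  have hX0 : (0:ℝ) ≤ X := by positivity
  constructor
  · rcases le_or_gt l z with hlz | hlz
    · have hR2 := hL3 (4 * l) (ψ l) hψ l 2 z k (by have := hl.pos; omega)
        (by nlinarith [hl.pos]) le_rfl hl.two_le hlz hkpos
      have h := core (Good 2 ((4 * l ^ 2) ^ 8) z k (ψ l) (ψ l)) _ (by
        intro q hq
        simp only [Good, Finset.mem_filter] at hq
        obtain ⟨-, hqp, hqk', hor⟩ := hq
        refine ⟨hqp, hqk', ?_⟩
        rcases hor with h | ⟨-, h⟩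
        · exfalso
          have : q = 2 := le_antisymm h hqp.two_le
          exact hqk' (this ▸ h2k)
        · exact fun h' => h ⟨h', h'⟩) (by positivity) hR2
      refine TFCm.fin hcR hlR hpR hX0 (a := c3 * (c3 * Real.log (2 : ℕ))) (by positivity) hlogz
        hC1 ?_ h
      rw [hL, min_eq_left hlz]
      have e := TFCm.e1 hlogz hlogl
      calc _ = c3 * (c3 * Real.log (2 : ℕ)) * ((Real.log z * Real.log l) ^ (1 / 2 : ℝ) *
            (Real.log z / Real.log l) ^ (1 / 2 : ℝ)) := by ring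
        _ = _ := by rw [e]
    · have h := core ∅ 1 (by simp) one_pos (by
        have i1 := TCCm.RSm_ge_one ∅ (z := z) (by omega)
        have i2 := TCCm.gk_ge_one k
        nlinarith)
      refine TFCm.fin hcR hlR hpR hX0 (a := c3) hc3 hlogz hC2 ?_ h
      rw [hL, min_eq_right hlz.le, TFCm.e2 hlogz, mul_one]
  · intro T V hT hTV hVz hVl hSS
    have hlogT : 0 < Real.log T := Real.log_pos (by exact_mod_cast (by omega : 1 < T))
    have hlogV : 0 < Real.log V := Real.log_pos (by exact_mod_cast (by omega : 1 < V))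
    have hne : ∀ q : ℕ, q.Prime → T < q → q ≤ V → ψ l q ≠ 0 := by
      intro q hqp hq1 hq2
      exact (hψ0 q hqp (by omega) (by omega)).2
    have hsum : ∑ q ∈ (Ioc T V).filter Nat.Prime, ψ l q / q ≤ 1 := by
      refine le_trans (le_of_eq ?_) hSS
      unfold SS
      refine Finset.sum_congr rfl ?_
      intro q hq
      rw [Finset.mem_filter, Finset.mem_Ioc] at hq
      obtain ⟨⟨hq1, hq2⟩, hqp⟩ := hq
      congr 1
      have hiff := hψq q hqp (by omega) (by omega)
      split_ifs with h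
      · exact hiff.1 h
      · rcases hψ.val q with h' | h' | h'
        · exact absurd h' (hne q hqp hq1 hq2)
        · exact absurd (hiff.2 h') h
        · exact h'
    obtain ⟨hA1, hA2⟩ := hL5 (4 * l) (ψ l) hψ T V l z k hT hTV hVz hkpos hne hsum
    have goal_eq : C * X * (c : ℝ) ^ (1 / 2 : ℝ) * (Real.log T) ^ (1 / 2 : ℝ) /
        ((c : ℝ) ^ 2 * (l * p * (Real.log V) ^ (1 / 2 : ℝ) * Real.log z)) =
        C * X * (c : ℝ) ^ (1 / 2 : ℝ) / ((c : ℝ) ^ 2 *
          (l * p * (Real.log z * (Real.log V / Real.log T) ^ (1 / 2 : ℝ)))) := by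
      rw [Real.div_rpow hlogV.le hlogT.le]
      have i1 : 0 < (Real.log V) ^ (1 / 2 : ℝ) := by positivity
      have i2 : 0 < (Real.log T) ^ (1 / 2 : ℝ) := by positivity
      field_simp
    rw [goal_eq]
    rcases le_or_gt l z with hlz | hlz
    · have h := core (G3 T V ((4 * l ^ 2) ^ 8) z k (ψ l)) _ (by
        intro q hq
        simp only [G3, Finset.mem_filter] at hq
        exact ⟨hq.2.1, hq.2.2.1, hq.2.2.2.1⟩) (by positivity)
        (hA2 (by have := hl.pos; omega) (by nlinarith [hl.pos]) hVl.le hlz)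
      refine TFCm.fin hcR hlR hpR hX0 (a := c3 * c5) (by positivity) (by positivity) hC3 ?_ h
      rw [hL, min_eq_left hlz]
      have e := TFCm.e1 hlogz hlogl
      rw [Real.mul_rpow (by positivity : (0:ℝ) ≤ Real.log V / Real.log T) (by positivity)]
      calc _ = c3 * c5 * (((Real.log z * Real.log l) ^ (1 / 2 : ℝ) *
            (Real.log z / Real.log l) ^ (1 / 2 : ℝ)) *
            (Real.log V / Real.log T) ^ (1 / 2 : ℝ)) := by ring
        _ = _ := by rw [e]
    · have h := core (G3 T V z z k (ψ l)) _ (by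
        intro q hq
        simp only [G3, Finset.mem_filter] at hq
        exact ⟨hq.2.1, hq.2.2.1, hq.2.2.2.1⟩) (by positivity) hA1
      refine TFCm.fin hcR hlR hpR hX0 (a := c3 * c5) (by positivity) (by positivity) hC3 ?_ h
      rw [hL, min_eq_right hlz.le, TFCm.e2 hlogz]
      ring

end Pool.Agent.ADG
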