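import Pool.Agent.ADG.S7c

/-!
# Project ADG part 7, module THC (helper96)
-/

set_option autoImplicit false

namespace Pool.Agent.ADG

open Finset Pool.Agent.ADS

open Classical in
theorem THC_thm (h1 : Stmt_SG) (h2 : Stmt_GKB) (h3 : Stmt_LBB) (h4 : Stmt_RCY) : Stmt_THC := by
  obtain ⟨χ, ψ, hcp⟩ := h4
  obtain ⟨c0, hc0, hL, -⟩ := h3
  refine ⟨196 / c0 ^ 2, by positivity, ?_⟩
  intro X z c l p hc hl hp hl2 hp2 hlz hpz
  have hz2 : 2 ≤ z := le_trans hl.two_le hlz
  set w := max l p with hw
  have hlw : l ≤ w := le_max_left _ _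
  have hpw : p ≤ w := le_max_right _ _
  have hw2 : 2 ≤ w := le_trans hl.two_le hlw
  have hwz : w ≤ z := max_le hlz hpz
  have hlogz : 0 < Real.log z := Real.log_pos (by exact_mod_cast (by omega : 1 < z))
  have hlogw : 0 < Real.log w := Real.log_pos (by exact_mod_cast (by omega : 1 < w))
  have hlogl : 0 < Real.log l := Real.log_pos (by exact_mod_cast hl.one_lt)
  have hlogp : 0 < Real.log p := Real.log_pos (by exact_mod_cast hp.one_lt)
  have hcR : (0:ℝ) < c := by exact_mod_cast hc
  have hlR : (0:ℝ) < l := by exact_mod_cast hl.pos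
  have hpR : (0:ℝ) < p := by exact_mod_cast hp.pos
  obtain ⟨hχ, -, hχq, -, -, -⟩ := hcp p hp hp2
  obtain ⟨-, hψ, -, hψq, -, -⟩ := hcp l hl hl2
  set k := 2 * (c * 1) * (l * p * l) with hk
  have hkpos : 1 ≤ k := by
    have hl' := hl.pos
    have hp' := hp.pos
    exact Nat.succ_le_of_lt (by rw [hk]; positivity)
  set P1 := Good l ((4 * w ^ 2) ^ 8) z k (χ p) (χ p) with hP1
  set P2 := Good p ((4 * w ^ 2) ^ 8) z k (ψ l) (ψ l) with hP2
  have hR1 := hL (4 * p) (χ p) hχ w l z k (by have := hp.pos; omega) (by nlinarith) hl.two_le hlw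
    hwz hkpos
  have hR2 := hL (4 * l) (ψ l) hψ w p z k (by have := hl.pos; omega) (by nlinarith) hp.two_le hpw
    hwz hkpos
  rw [← hP1] at hR1
  rw [← hP2] at hR2
  have hmain := h1 X z c l p k P1 P2 (TH X c l p) _ _ (14 * (c : ℝ) ^ (1 / 4 : ℝ)) (by omega)
    hc hl.one_lt.le hp.one_lt.le hkpos (by
      intro q hq
      rw [Finset.mem_union] at hq
      rcases hq with hq | hq
      · simp only [hP1, Good, Finset.mem_filter] at hq
        exact ⟨hq.2.1, hq.2.2.1⟩
      · simp only [hP2, Good, Finset.mem_filter] at hq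
        exact ⟨hq.2.1, hq.2.2.1⟩) ⟨c * 1 * (l * p * l), by rw [hk]; ring⟩
    (S7.cef (dvd_mul_right l l) ⟨l * l, by ring⟩) (by
      intro n hn
      simp only [TH, Finset.mem_filter, Finset.mem_Icc] at hn
      obtain ⟨⟨hn2, hnX⟩, ⟨hS, hcl, hodd, hpn, hsf⟩, hno1, hno2⟩ := hn
      refine ⟨hn2, hnX, hcl, hpn, ?_, ?_⟩
      · intro q hq hqn
        simp only [hP1, Good, Finset.mem_filter] at hq
        obtain ⟨-, hqp, hqk', hor⟩ := hq
        obtain ⟨g1, g2, g3, g4, g5, g6⟩ := S7.parts hqk'
        rcases hor with h | ⟨-, h⟩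
        · refine hno1 q hqp (lt_of_le_of_ne h ?_) g6 hqn
          rintro rfl
          exact g3 (dvd_refl _)
        · have hqpne : q ≠ p := by
            rintro rfl
            exact g4 (dvd_refl _)
          have h' := (hχq q hqp hqpne).1 (S7.sq1 hS hsf hn2 hqp g2 hqn hp hpn)
          exact h ⟨h', h'⟩
      · intro q hq hqn
        simp only [hP2, Good, Finset.mem_filter] at hq
        obtain ⟨-, hqp, hqk', hor⟩ := hq
        obtain ⟨g1, g2, g3, g4, g5, g6⟩ := S7.parts hqk'
        rcases hor with h | ⟨-, h⟩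
        · refine hno2 q hqp (lt_of_le_of_ne h ?_) g6 hqn
          rintro rfl
          exact g4 (dvd_refl _)
        · have hq2 : q ≠ 2 := by
            rintro rfl
            exact g1 (dvd_refl 2)
          have hqlne : q ≠ l := by
            rintro rfl
            exact g3 (dvd_refl _)
          have h' := (hψq q hqp hq2 hqlne).1 (hS l q hl hqp hodd hqn)
          exact h ⟨h', h'⟩) (by positivity) (by positivity) hR1 hR2
    (S7.gkb h2 hc hl hp hl hl2 hp2 hl2)
  refine hmain.trans (le_of_eq ?_)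
  rw [S7.gsq]
  congr 1
  have ht := S7.half_sq (x := Real.log z / Real.log w) (by positivity)
  have hml : Real.log l * Real.log p = Real.log (min l p : ℕ) * Real.log w := by
    rcases le_total l p with h | h
    · rw [hw, min_eq_left h, max_eq_right h]
    · rw [hw, min_eq_right h, max_eq_left h, mul_comm]
  have hmin : 0 < Real.log (min l p : ℕ) := by
    apply Real.log_pos
    have := hl.one_lt
    have := hp.one_lt
    exact_mod_cast (by omega : 1 < min l p)
  have e : c0 * Real.log l * (Real.log z / Real.log w) ^ (1 / 2 : ℝ) *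
      (c0 * Real.log p * (Real.log z / Real.log w) ^ (1 / 2 : ℝ)) =
      c0 ^ 2 * (Real.log (min l p : ℕ) * Real.log z) := by
    calc _ = c0 ^ 2 * (Real.log l * Real.log p) * ((Real.log z / Real.log w) ^ (1 / 2 : ℝ) *
          (Real.log z / Real.log w) ^ (1 / 2 : ℝ)) := by ring
      _ = _ := by rw [ht, hml]; field_simp
  rw [e]
  field_simp

end Pool.Agent.ADG
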