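import Pool.Agent.ADG.S7c

/-!
# Project ADG part 7, module TKC (helper96)
-/

set_option autoImplicit false

namespace Pool.Agent.ADG

open Finset Pool.Agent.ADS

open Classical in
theorem TKC_thm (h1 : Stmt_SG) (h2 : Stmt_GKB) (h3 : Stmt_LBB) (h4 : Stmt_RCY) : Stmt_TKC := by
  obtain ⟨χ, ψ, hcp⟩ := h4
  obtain ⟨c0, hc0, hL, hL2⟩ := h3
  have hlog2 : 0 < Real.log (2 : ℕ) := Real.log_pos (by norm_num)
  refine ⟨196 / (c0 ^ 2 * Real.log (2 : ℕ) ^ 2), by positivity, ?_⟩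
  intro X z W c l l' p hc hl hl' hp hl2 hl'2 hp2 hll hlW hl'W hpW hWz
  have hW2 : 2 ≤ W := le_trans hl.two_le hlW
  have hz2 : 2 ≤ z := le_trans hW2 hWz
  have hlogz : 0 < Real.log z := Real.log_pos (by exact_mod_cast (by omega : 1 < z))
  have hlogW : 0 < Real.log W := Real.log_pos (by exact_mod_cast (by omega : 1 < W))
  have hcR : (0:ℝ) < c := by exact_mod_cast hc
  have hlR : (0:ℝ) < l := by exact_mod_cast hl.pos
  have hpR : (0:ℝ) < p := by exact_mod_cast hp.pos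
  have hl'R : (0:ℝ) < l' := by exact_mod_cast hl'.pos
  obtain ⟨hχ, -, hχq, -, -, -⟩ := hcp p hp hp2
  obtain ⟨-, hψ', -, hψ'q, hψ'0, -⟩ := hcp l' hl' hl'2
  obtain ⟨-, hψ, -, hψq, hψ0, hψψ⟩ := hcp l hl hl2
  have hRC := (hψψ l' hl' hl'2 (Ne.symm hll)).2
  set k := 2 * (c * 1) * (l * p * l') with hk
  have hkpos : 1 ≤ k := by
    have hl0 := hl.pos
    have hp0 := hp.pos
    have hl'0 := hl'.pos
    exact Nat.succ_le_of_lt (by rw [hk]; positivity)
  set P1 := Good 2 ((4 * W ^ 2) ^ 8) z k (χ p) (χ p) with hP1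
  set P2 := Good 2 ((4 * W ^ 2) ^ 8) z k (ψ l) (ψ l') with hP2
  have hWQ : W ≤ (4 * W ^ 2) ^ 8 := by
    have e1 : 1 ≤ 4 * W ^ 2 := by nlinarith
    calc W ≤ 4 * W ^ 2 := by nlinarith
      _ ≤ (4 * W ^ 2) ^ 8 := Nat.le_self_pow (by norm_num) _
  have hR2 := hL2 (4 * l) (4 * l') (4 * (l * l')) (ψ l) (ψ l') hψ hψ' hRC W 2 z k
    (by have := hl.pos; omega) (by have := hl'.pos; omega)
    (by have := Nat.mul_pos hl.pos hl'.pos; omega) (by nlinarith) (by nlinarith)
    (by nlinarith [Nat.mul_le_mul hlW hl'W]) (by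
      intro q hq hQ
      have hqW : W < q := lt_of_le_of_lt hWQ hQ
      refine ⟨(hψ0 q hq ?_ ?_).2, (hψ'0 q hq ?_ ?_).2⟩ <;> omega) le_rfl hW2 hWz hkpos
  have hR1 := hL (4 * p) (χ p) hχ W 2 z k (by have := hp.pos; omega) (by nlinarith) le_rfl hW2
    hWz hkpos
  rw [← hP1] at hR1
  rw [← hP2] at hR2
  have hmain := h1 X z c (l * l') p k P1 P2 (TK X c l l' p) _ _ (14 * (c : ℝ) ^ (1 / 4 : ℝ))
    (by omega) hc (Nat.mul_pos hl.pos hl'.pos) hp.one_lt.le hkpos (by
      intro q hq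
      rw [Finset.mem_union] at hq
      rcases hq with hq | hq
      · simp only [hP1, Good, Finset.mem_filter] at hq
        exact ⟨hq.2.1, hq.2.2.1⟩
      · simp only [hP2, Good, Finset.mem_filter] at hq
        exact ⟨hq.2.1, hq.2.2.1⟩) ⟨c * 1 * (l * p * l'), by rw [hk]; ring⟩
    (S7.cef (dvd_refl _) ⟨l * l', by ring⟩) (by
      intro n hn
      simp only [TK, Finset.mem_filter, Finset.mem_Icc] at hn
      obtain ⟨⟨hn2, hnX⟩, ⟨hS, hcl, hodd, hpn, hsf⟩, hcll, hodd'⟩ := hn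
      refine ⟨hn2, hnX, hcll, hpn, ?_, ?_⟩
      · intro q hq hqn
        simp only [hP1, Good, Finset.mem_filter] at hq
        obtain ⟨-, hqp, hqk', hor⟩ := hq
        obtain ⟨g1, g2, g3, g4, g5, g6⟩ := S7.parts hqk'
        rcases hor with h | ⟨-, h⟩
        · apply g1
          have := hqp.two_le
          have e : q = 2 := by omega
          rw [e]
        · have hqpne : q ≠ p := by
            rintro rfl
            exact g4 (dvd_refl _)
          have h' := (hχq q hqp hqpne).1 (S7.sq1 hS hsf hn2 hqp g2 hqn hp hpn)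
          exact h ⟨h', h'⟩
      · intro q hq hqn
        simp only [hP2, Good, Finset.mem_filter] at hq
        obtain ⟨-, hqp, hqk', hor⟩ := hq
        obtain ⟨g1, g2, g3, g4, g5, g6⟩ := S7.parts hqk'
        have hq2 : q ≠ 2 := by
          rintro rfl
          exact g1 (dvd_refl 2)
        rcases hor with h | ⟨-, h⟩
        · have := hqp.two_le
          omega
        · have hqlne : q ≠ l := by
            rintro rfl
            exact g3 (dvd_refl _)
          have hqlne' : q ≠ l' := by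
            rintro rfl
            exact g5 (dvd_refl _)
          exact h ⟨(hψq q hqp hq2 hqlne).1 (hS l q hl hqp hodd hqn),
            (hψ'q q hqp hq2 hqlne').1 (hS l' q hl' hqp hodd' hqn)⟩)
    (by positivity) (by positivity) hR1 hR2
    (S7.gkb h2 hc hl hp hl' hl2 hp2 hl'2)
  refine hmain.trans (le_of_eq ?_)
  rw [S7.gsq]
  congr 1
  have ht : (Real.log z / Real.log W) ^ (1 / 2 : ℝ) * (Real.log z / Real.log W) ^ (3 / 4 : ℝ) =
      (Real.log z) ^ (5 / 4 : ℝ) / (Real.log W) ^ (5 / 4 : ℝ) := by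
    rw [← Real.rpow_add (by positivity), ← Real.div_rpow hlogz.le hlogW.le]
    norm_num
  have e : c0 * Real.log (2 : ℕ) * (Real.log z / Real.log W) ^ (1 / 2 : ℝ) *
      (c0 * Real.log (2 : ℕ) * (Real.log z / Real.log W) ^ (3 / 4 : ℝ)) =
      c0 ^ 2 * Real.log (2 : ℕ) ^ 2 *
        ((Real.log z) ^ (5 / 4 : ℝ) / (Real.log W) ^ (5 / 4 : ℝ)) := by
    rw [← ht]
    ring
  rw [e]
  push_cast
  field_simp

end Pool.Agent.ADG
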