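import Pool.Agent.ADG.S7c
import Pool.Agent.ADG.TCC

/-!
# Project ADG part 7, module TUC (helper96)
-/

set_option autoImplicit false

namespace Pool.Agent.ADG

open Finset Pool.Agent.ADS

namespace TUCm

open Classical in
/-- more terms -/
lemma RSm_le {P : Finset ℕ} {W z : ℕ} (h : W ≤ z) : RSm P W ≤ RSm P z := by
  unfold RSm
  apply Finset.sum_le_sum_of_subset_of_nonneg
  · apply Finset.filter_subset_filter
    exact Finset.Icc_subset_Icc le_rfl h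
  · intro i _ _
    positivity

open Classical in
/-- the lower bound for all primes `≤ W` -/
lemma lb (h3 : Stmt_RSU) (h4 : Stmt_EPP) {W z k : ℕ} (hW : 2 ≤ W) (hWz : W ≤ z) (hk : 1 ≤ k) :
    Real.log W ≤ gk k * RSm ((Icc 1 W).filter (fun q => q.Prime ∧ ¬ q ∣ k)) z := by
  obtain ⟨-, -, -, h, -⟩ := h3
  obtain ⟨hE, -⟩ := h4
  set P := (Icc 1 W).filter (fun q => q.Prime ∧ ¬ q ∣ k) with hP
  have h1 := h P k.primeFactors W (by omega) (by
    intro q hq hqW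
    rw [Finset.mem_union]
    by_cases hd : q ∣ k
    · right
      exact Nat.mem_primeFactors.2 ⟨hq, hd, by omega⟩
    · left
      rw [hP, Finset.mem_filter, Finset.mem_Icc]
      exact ⟨⟨hq.one_lt.le, hqW⟩, hq, hd⟩)
  have h2 : RSm k.primeFactors W ≤ gk k :=
    hE k.primeFactors W (fun q hq => Nat.prime_of_mem_primeFactors hq)
  have h3 : 1 ≤ RSm P W := TCCm.RSm_ge_one P (by omega)
  have h4 : RSm P W ≤ RSm P z := RSm_le hWz
  have h5 : 1 ≤ gk k := TCCm.gk_ge_one k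
  calc Real.log W ≤ RSm P W * RSm k.primeFactors W := h1
    _ ≤ RSm P z * gk k := by
      apply mul_le_mul h4 h2 _ (by linarith)
      have := TCCm.RSm_ge_one k.primeFactors (z := W) (by omega)
      linarith
    _ = gk k * RSm P z := by ring

open Classical in
/-- one half -/
lemma half (h1 : Stmt_SG) (h2 : Stmt_GKB) (h3 : Stmt_RSU) (h4 : Stmt_EPP) {X z c A B : ℕ}
    (hc : 1 ≤ c) (hA : 2 ≤ A) (hAz : A ≤ z) (hB : 2 ≤ B) (hBz : B ≤ z) (S : Finset ℕ)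
    (hS : ∀ n ∈ S, 2 ≤ n ∧ n ≤ X ∧ c ^ 2 ∣ n ∧
      (∀ q : ℕ, q.Prime → q ≤ A → ¬ q ∣ 2 * c → ¬ q ∣ n) ∧
      ∀ q : ℕ, q.Prime → q ≤ B → ¬ q ∣ 2 * c → ¬ q ∣ n - 1) :
    (S.card : ℝ) ≤ 16 * X * (c : ℝ) ^ (1 / 2 : ℝ) /
      ((c : ℝ) ^ 2 * (Real.log A * Real.log B)) + (z : ℝ) ^ 12 := by
  have hcR : (0:ℝ) < c := by exact_mod_cast hc
  set k := 2 * (c * 1) with hk
  have hk2 : k = 2 * c := by rw [hk, mul_one]
  have hkpos : 1 ≤ k := by omega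
  have hlA : 0 < Real.log A := Real.log_pos (by exact_mod_cast (by omega : 1 < A))
  have hlB : 0 < Real.log B := Real.log_pos (by exact_mod_cast (by omega : 1 < B))
  have hg : gk k ≤ 4 * (c : ℝ) ^ (1 / 4 : ℝ) := by
    have h := (h2 c 1 hc le_rfl).1
    have e : (c : ℝ) * ((1 : ℕ) : ℝ) = c := by rw [Nat.cast_one, mul_one]
    rw [e] at h
    exact h
  have hmain := h1 X z c 1 1 k _ _ S (Real.log A) (Real.log B) (4 * (c : ℝ) ^ (1 / 4 : ℝ))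
    (by omega) hc le_rfl le_rfl hkpos (by
      intro q hq
      rw [Finset.mem_union] at hq
      rcases hq with hq | hq
      · exact (Finset.mem_filter.1 hq).2
      · exact (Finset.mem_filter.1 hq).2) ⟨c, hk2⟩ (by
      intro q _ hq
      rw [mul_one, mul_one] at hq
      rw [hk2]
      exact hq.mul_left 2) (by
      intro n hn
      obtain ⟨hn2, hnX, hcn, ha, hb⟩ := hS n hn
      refine ⟨hn2, hnX, by rw [mul_one]; exact hcn, one_dvd _, ?_, ?_⟩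
      · intro q hq
        rw [Finset.mem_filter, Finset.mem_Icc] at hq
        exact ha q hq.2.1 hq.1.2 (by rw [← hk2]; exact hq.2.2)
      · intro q hq
        rw [Finset.mem_filter, Finset.mem_Icc] at hq
        exact hb q hq.2.1 hq.1.2 (by rw [← hk2]; exact hq.2.2)) hlA hlB
    (lb h3 h4 hA hAz hkpos) (lb h3 h4 hB hBz hkpos) hg
  refine hmain.trans (le_of_eq ?_)
  have e : (4 * (c : ℝ) ^ (1 / 4 : ℝ)) ^ 2 = 16 * (c : ℝ) ^ (1 / 2 : ℝ) := by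
    rw [mul_pow, ← Real.rpow_natCast ((c : ℝ) ^ (1 / 4 : ℝ)), ← Real.rpow_mul (by positivity)]
    norm_num
  rw [e]
  push_cast
  congr 1
  ring

end TUCm

open Classical in
theorem TUC_thm (h1 : Stmt_SG) (h2 : Stmt_GKB) (h3 : Stmt_RSU) (h4 : Stmt_EPP) : Stmt_TUC := by
  refine ⟨32, by norm_num, ?_⟩
  intro X z W c hc hW hWz
  have hz : 2 ≤ z := hW.trans hWz
  have ha := TUCm.half (X := X) h1 h2 h3 h4 hc hz le_rfl hW hWz
    ((Icc 2 X).filter (fun n => c ^ 2 ∣ n ∧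
      (∀ q : ℕ, q.Prime → q ≤ z → ¬ q ∣ 2 * c → ¬ q ∣ n) ∧
      ∀ q : ℕ, q.Prime → q ≤ W → ¬ q ∣ 2 * c → ¬ q ∣ n - 1)) (by
      intro n hn
      rw [Finset.mem_filter, Finset.mem_Icc] at hn
      exact ⟨hn.1.1, hn.1.2, hn.2.1, hn.2.2.1, hn.2.2.2⟩)
  have hb := TUCm.half (X := X) h1 h2 h3 h4 hc hW hWz hz le_rfl
    ((Icc 2 X).filter (fun n => c ^ 2 ∣ n ∧
      (∀ q : ℕ, q.Prime → q ≤ W → ¬ q ∣ 2 * c → ¬ q ∣ n) ∧
      ∀ q : ℕ, q.Prime → q ≤ z → ¬ q ∣ 2 * c → ¬ q ∣ n - 1)) (by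
      intro n hn
      rw [Finset.mem_filter, Finset.mem_Icc] at hn
      exact ⟨hn.1.1, hn.1.2, hn.2.1, hn.2.2.1, hn.2.2.2⟩)
  have hsub : TU X z W c ⊆ ((Icc 2 X).filter (fun n => c ^ 2 ∣ n ∧
      (∀ q : ℕ, q.Prime → q ≤ z → ¬ q ∣ 2 * c → ¬ q ∣ n) ∧
      ∀ q : ℕ, q.Prime → q ≤ W → ¬ q ∣ 2 * c → ¬ q ∣ n - 1)) ∪
      ((Icc 2 X).filter (fun n => c ^ 2 ∣ n ∧
      (∀ q : ℕ, q.Prime → q ≤ W → ¬ q ∣ 2 * c → ¬ q ∣ n) ∧
      ∀ q : ℕ, q.Prime → q ≤ z → ¬ q ∣ 2 * c → ¬ q ∣ n - 1)) := by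
    intro n hn
    simp only [TU, Finset.mem_filter] at hn
    rw [Finset.mem_union, Finset.mem_filter, Finset.mem_filter]
    obtain ⟨h5, h6, h7 | h7⟩ := hn
    · exact Or.inl ⟨h5, h6, h7⟩
    · exact Or.inr ⟨h5, h6, h7⟩
  have hcard := (Finset.card_le_card hsub).trans (Finset.card_union_le _ _)
  refine ((Nat.cast_le (α := ℝ)).2 hcard).trans ?_
  rw [Nat.cast_add]
  refine (add_le_add ha hb).trans (le_of_eq ?_)
  ring

end Pool.Agent.ADG
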