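import Pool.Agent.ADG.All5
import Pool.Agent.ADG.DR1
import Pool.Agent.ADG.GEN
import Pool.Agent.ADG.TAI
import Pool.Agent.ADG.SG
import Pool.Agent.ADG.TJC
import Pool.Agent.ADG.TKC
import Pool.Agent.ADG.TIC
import Pool.Agent.ADG.THC
import Pool.Agent.ADG.TFC
import Pool.Agent.ADG.TGC
import Pool.Agent.ADG.TUC
import Pool.Agent.ADG.SMP
import Pool.Agent.ADG.PS7
import Pool.Agent.ADG.PT7
import Pool.Agent.ADG.SM7
import Pool.Agent.ADG.QR1
import Pool.Agent.ADG.RHO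
import Pool.Agent.ADG.LSB
import Pool.Agent.ADG.RRM
import Pool.Agent.ADG.EUL
import Pool.Agent.ADG.LBD
import Pool.Agent.ADG.QRT
import Pool.Agent.ADG.DR3
import Pool.Agent.ADG.FE1
import Pool.Agent.ADG.FE2
import Pool.Agent.ADG.SM8
import Pool.Agent.ADG.FIN7

/-! Project ADG (MP_43d07b_co), part 7: assembly without part 6 (helper96). -/

set_option autoImplicit false

namespace Pool.Agent.ADG

theorem SG_all7 : Stmt_SG := SG_thm S2V_thm

theorem SM7_all : Stmt_SM7 :=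
  SM7_thm PT7_thm (TJC_thm SG_all7 GKB_thm LBB_all RCY_thm) (TKC_thm SG_all7 GKB_thm LBB_all RCY_thm)
    (TIC_thm SG_all7 GKB_thm LBB_all RCY_thm) (TFC_thm SG_all7 GKB_thm LBB_all LB5_all RSU_thm RCY_thm)
    (TGC_thm SG_all7 GKB_thm LBB_all LB5_all RSU_thm RCY_thm)
    (THC_thm SG_all7 GKB_thm LBB_all RCY_thm) (TUC_thm SG_all7 GKB_thm RSU_thm EPP_all)
    (SMO_thm RCY_thm) (SMP_thm RCY_thm) PS7_thm

theorem RRM_all7 : Stmt_RRM := RRM_thm RHO_thm QR1_thm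

theorem QRT_all7 : Stmt_QRT := QRT_thm RRM_all7 EUL_thm (LBD_thm RHO_thm LSB_thm) DR1_thm

theorem DR3_all7 : Stmt_DR3 := DR3_thm DR1_thm QRT_all7

theorem GEN_all7 : Stmt_GEN := GEN_thm S2V_thm RSU_thm

theorem SM8_all : Stmt_SM8 :=
  SM8_thm (FE1_thm DR3_all7 GEN_all7) (FE2_thm DR1_thm GEN_all7) TAI_thm

end Pool.Agent.ADG
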