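import Pool.Agent.ADG.All6
import Pool.Agent.ADG.All7a

/-! Project ADG (MP_43d07b_co), part 7: assembly (helper96). -/

set_option autoImplicit false

namespace Pool.Agent.ADG

theorem main7 : MainStatement7 := FIN7_thm main6 SM7_all SM8_all

end Pool.Agent.ADG
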