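import Mathlib
import Pool.Agent.ADS.Defs

/-!
# Project ADG (MP_43d07b_co): affine difference sets of odd order in ALL groups (architect helper96)

THEOREM. Let `D` be an affine difference set of order `n` in a finite group `G` (any group) relative to a
subgroup `N` (any subgroup), and let `l` be a prime which divides `n` to an odd power.
(a) `n = 1, 2 mod 4`: `l = 2` or `l = 1 mod 4` (Bruck-Ryser).
(b) `n = 3 mod 8`: `l = 1, 3 mod 8`.   (c) `n = 7 mod 8`: `l = 1, 7 mod 8`.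
(d) `n = 3 mod 4`, `p` an odd prime which divides `n - 1` exactly once: `l` is a square modulo `p`.
So at most `C x / sqrt (log x)` odd `n <= x` are orders of affine difference sets in finite groups.

Every `Stmt_X` is the statement of a module, to be proved as `theorem X_thm (h : Stmt_Y) .. : Stmt_X` in
`Pool/Agent/ADG/X.lean`, namespace `Pool.Agent.ADG`, with the hypotheses named after USES (or fewer).
-/

set_option autoImplicit false

namespace Pool.Agent.ADG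

open Finset Pool.Agent.ADS

/-! ## 1. Linear algebra -/

/-- (LAG) Totally isotropic families of a nondegenerate diagonal form; Lagrangian families.

PROOF. The vectors `v a` in `F^ι`, form `b(x, y) = Σ q_i x_i y_i`, nondegenerate (`q_i ≠ 0`). `v a` independent and
`b(v a, v b) = 0`. Let `s = card κ`, `t = card ι`. Extend `v` to a basis of `F^ι` (for example
`LinearIndependent.extend` / `Module.Basis.sumExtend`), so we get an invertible matrix `P` with rows `v a` (`a : κ`) and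
`v' c` (`c : κ'`), `s + card κ' = t`. `M = P diag(q) Pᵀ = fromBlocks 0 B Bᵀ C`, `det M = (det P)^2 ∏ q ≠ 0`. First part: the
rows `κ` of `M` are independent and supported on the columns `κ'`, so `s ≤ card κ' = t - s`. (Another way: the map
`F^ι → F^κ`, `x ↦ (b(v a, x))_a` is surjective because the rows `q_i v_a(i)` are independent; it is `0` on the span of the
`v a`; dimensions: `t - s ≥ s`.) Second part: `card κ' = s`; reindex both by `Fin s`: `fromBlocks 0 B Bᵀ C =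
fromBlocks B 0 C Bᵀ * fromBlocks 0 1 1 0`, and `fromBlocks 0 1 1 0 * fromBlocks 1 0 1 1 = fromBlocks 1 1 1 0` of determinant
`det (0 - 1) = (-1)^s` (`Matrix.det_fromBlocks_one₁₁`), so `det M = (-1)^s (det B)^2` and `(-1)^s ∏ q = (det B / det P)^2`. -/
def Stmt_LAG : Prop := ∀ (F : Type) [Field F] (ι κ : Type) [Fintype ι] [Fintype κ] (q : ι → F)
  (v : κ → ι → F), (∀ i, q i ≠ 0) → LinearIndependent F v →
  (∀ a b, ∑ i, q i * v a i * v b i = 0) →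
  2 * Fintype.card κ ≤ Fintype.card ι ∧
    (2 * Fintype.card κ = Fintype.card ι → IsSquare ((-1) ^ Fintype.card κ * ∏ i, q i))

/-- (LAT) The `l`-adic filtration of a lattice.

PROOF. `Λ = {x ∈ V : S x ∈ l^j ℤ^J}`, a submodule of `ℤ^I`, free of finite rank `d`; `d = rank V` because
`l^j V ≤ Λ ≤ V`. Basis `c_1, .., c_d` of `Λ`, `S c_i = l^j y_i`. The linear map `φ : F_l^d → F_l^J`,
`φ v = Σ v_i (y_i mod l)`; rank-nullity: `dim ker φ + dim range φ = d`. Range: choose `u2 = dim range φ` vectors `v` with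
`φ v` a basis of the range, lift `v` to integers: `x' = Σ v_i c_i ∈ Λ`, `y = Σ v_i y_i`. Kernel: choose a basis of `ker φ`
(`u1` vectors `w`), lift to integers: `x = Σ w_i c_i`, `S x = l^j Σ w_i y_i ∈ l^(j+1) ℤ^J`. Their images modulo `l` are
independent in `F_l^I`: if a combination (with integer coefficients `a_k`) `x = Σ a_k x_k = Σ w_i c_i` is in
`l ℤ^I`, `x = l x'`, then `x' ∈ V` (saturation) and `l S x' = S x = l^j Σ w_i y_i` with `Σ w_i y_i ∈ l ℤ^J` (`w mod l` is in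
`ker φ`), so `S x' ∈ l^j ℤ^J`, `x' ∈ Λ`, `x' = Σ w'_i c_i`, `w = l w'`: `w = 0` modulo `l`, so all `a_k = 0` modulo `l`. -/
def Stmt_LAT : Prop := ∀ (I J : Type) [Fintype I] [Fintype J] (l : ℕ), l.Prime → ∀ (j : ℕ)
  (S : (I → ℤ) →ₗ[ℤ] (J → ℤ)) (V : Submodule ℤ (I → ℤ)), (∀ x, (l : ℤ) • x ∈ V → x ∈ V) →
  ∃ (u1 u2 : ℕ) (x : Fin u1 → I → ℤ) (x' : Fin u2 → I → ℤ) (y : Fin u2 → J → ℤ),
    u1 + u2 = Module.finrank ℤ V ∧ (∀ a, x a ∈ V) ∧
    (∀ a, ∃ z : J → ℤ, S (x a) = (l : ℤ) ^ (j + 1) • z) ∧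
    LinearIndependent (ZMod l) (fun a i => ((x a i : ℤ) : ZMod l)) ∧ (∀ a, x' a ∈ V) ∧
    (∀ a, S (x' a) = (l : ℤ) ^ j • y a) ∧
    LinearIndependent (ZMod l) (fun a i => ((y a i : ℤ) : ZMod l))

/-- (RKV) The rank of the lattice of vectors with block sums `0`.

PROOF. `V` is the kernel of the surjective map `ℤ^I → ℤ^B`, `x ↦ (Σ_(β i = b) x_i)_b` (`β` is surjective), so
`finrank V + card B = card I` (`Submodule.finrank_quotient_add_finrank` or `LinearMap.finrank_range_add_finrank_ker` over `ℤ`). -/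
def Stmt_RKV : Prop := ∀ (I B : Type) [Fintype I] [Fintype B] [DecidableEq B] (β : I → B),
  Function.Surjective β → ∀ V : Submodule ℤ (I → ℤ),
  (∀ x, x ∈ V ↔ ∀ b, ∑ i with β i = b, x i = 0) →
  Module.finrank ℤ V + Fintype.card B = Fintype.card I

/-- (MAT) The matrix theorem (local form of the theorem of Hughes and Dembowski on tactical decompositions).

USES LAG, LAT, RKV. PROOF. Write `u = card I = card J`, `r = card B`, `m b = #{i : β i = b}`, `s b m b = n - 1`, `h u = n^2 - 1`,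
`e = 2 j + 1` the exponent of `l` in `n`, `n = l^e n'`. `⟨ , ⟩` the dot product, `σ` the sum of the coordinates, `σ_b` the sum over
the block `b`, `S x = Aᵀ x`, `V = {x ∈ ℤ^I : σ_b x = 0 for all b}`, saturated, of rank `u - r` (RKV). For all `x, x' ∈ ℤ^I`
(*) `⟨S x, S x'⟩ = ⟨A Aᵀ x, x'⟩ = n ⟨x, x'⟩ + h σ(x) σ(x') - Σ_b s_b σ_b(x) σ_b(x')`, so `⟨S x, S x'⟩ = n ⟨x, x'⟩` if `x ∈ V`.
(LAT) gives `x_a` (`a < u1`) and `x'_a, y_a` (`a < u2`), `u1 + u2 = u - r`.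
First family in `F^(I ⊕ B)`, `F = ZMod l`, `q = 1` on `I` and `q = -m_b` on `B`: the vectors `(x_a, 0)` and `(1_b, ε_b)`, where `1_b` is
the indicator of the block `b` and `ε_b` the standard vector. `q ≠ 0` (`l ∤ m_b`, since `m_b ∣ n - 1`, `l ∣ n`). Isotropic:
`n ⟨x_a, x_a'⟩ = ⟨S x_a, S x_a'⟩ ∈ l^(2j+2) ℤ`, so `l ∣ ⟨x_a, x_a'⟩`; `⟨x_a, 1_b⟩ = σ_b(x_a) = 0`; `⟨1_b, 1_c⟩ - m_b δ_bc = 0`.
Independent: clear (look first at the `B`-coordinates). (LAG): `2 (u1 + r) ≤ u + r`.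
Second family in `F^(J ⊕ B)`, the same `q`: `(y_a, 0)` and `(t_b, ε_b)`, `t_b = S 1_b - h m_b 1_J`. Isotropic:
`l^(2j) ⟨y_a, y_a'⟩ = n ⟨x'_a, x'_a'⟩`, so `l ∣ ⟨y_a, y_a'⟩`. `l^j ⟨y_a, S 1_b⟩ = ⟨S x'_a, S 1_b⟩ = 0` by (*) and
`l^j ⟨y_a, 1_J⟩ = σ(S x'_a) = n σ(x'_a) = 0` (row sums `n`), so `⟨y_a, t_b⟩ = 0`. `⟨S 1_b, S 1_c⟩ = n m_b δ + h m_b m_c - s_b m_b^2 δ =
m_b δ + h m_b m_c`, `⟨S 1_b, 1_J⟩ = n m_b = 0` modulo `l`, `h u = -1` modulo `l`: `⟨t_b, t_c⟩ = m_b δ + h m_b m_c + h^2 u m_b m_c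
= m_b δ` modulo `l`. (LAG): `2 (u2 + r) ≤ u + r`. Sum: `2 (u1 + u2 + 2 r) = 2 (u + r)`, so both are equalities, `u + r = 2 (u1 + r)` is even
and `(-1)^((u+r)/2) ∏ (-m_b)` is a square in `F`; `(-m_b) s_b = 1` in `F`, so `∏ s_b = ∏ (-m_b) (∏ s_b)^2`. -/
def Stmt_MAT : Prop := ∀ (I J B : Type) [Fintype I] [Fintype J] [Fintype B] [DecidableEq I]
  [DecidableEq B] (β : I → B) (A : Matrix I J ℤ) (n h l : ℕ) (s : B → ℕ),
  Function.Surjective β → l.Prime → Odd (n.factorization l) → 2 ≤ n →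
  Fintype.card I = Fintype.card J → h * Fintype.card I + 1 = n ^ 2 →
  (∀ b, s b * #{i | β i = b} + 1 = n) →
  (∀ i i', (A * A.transpose) i i' = (if i = i' then (n : ℤ) else 0) + h -
    (if β i = β i' then (s (β i) : ℤ) else 0)) →
  (∀ i, ∑ j, A i j = n) → (∀ j, ∑ i, A i j = n) →
  Even (Fintype.card I + Fintype.card B) ∧
    IsSquare ((-1) ^ ((Fintype.card I + Fintype.card B) / 2) * ∏ b, (s b : ZMod l))

/-! ## 2. Groups -/

/-- the order of `H ∩ x⁻¹ N x` -/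
noncomputable def sta {G : Type} [Group G] (N H : Subgroup G) (x : G) : ℕ :=
  Nat.card {k : G // k ∈ H ∧ x * k * x⁻¹ ∈ N}

/-- (GRP) The theorem for a subgroup `H`; `x i` are representatives of the double cosets `N x H`.

USES MAT. PROOF. `I = J = G ⧸ H` (classes `x H`), `B = Fin r` = the double cosets `N x H` (for example
`DoubleCoset.Quotient`, `DoubleCoset.rel_iff`, transported to `Fin r`), `β (g H) =` the double coset of `g`. The block of `x_i`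
is `{a x_i H : a ∈ N}`, `a x H = a' x H` iff `a⁻¹ a' ∈ N ∩ x H x⁻¹`, a subgroup of `N` of order `sta N H x`; so
`m_i = |N| / sta`, `sta * m_i = n - 1`, `Σ m_i = [G : H]`. `h = |H|`, `h u = |G| = n^2 - 1`.
`c(x, y) = #{k ∈ H : x k y⁻¹ ∈ D}` depends only on `x H`, `y H`; `A(x H, y H) = c(x, y)`. Row sums:
`Σ_(yH) c(x, y) = (1/h) Σ_(y ∈ G) c(x, y) = (1/h) #{(y, k) : x k y⁻¹ ∈ D} = |D| = n`; column sums the same.
`(A Aᵀ)(x, x') = (1/h) Σ_(y ∈ G) c(x, y) c(x', y) = (1/h) #{(y, k, k') : x k y⁻¹ ∈ D, x' k' y⁻¹ ∈ D}`; put `d = x k y⁻¹`,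
`d' = x' k' y⁻¹`: `y = d⁻¹ x k` and `d' d⁻¹ = x' (k' k⁻¹) x⁻¹`: this is `(1/h) Σ_(k, k') #{(d, d') ∈ D² : d' d⁻¹ = x' k' k⁻¹ x⁻¹} =
Σ_(k ∈ H) #{(d, d') : d' d⁻¹ = x' k x⁻¹}`, and the summand is `n` if `x' k x⁻¹ = 1`, `0` if `x' k x⁻¹ ∈ N`, `≠ 1`, and `1` if
`x' k x⁻¹ ∉ N`: in total `n [x H = x' H] + h - #{k ∈ H : x' k x⁻¹ ∈ N}`, and if `x' = a x k0` (`a ∈ N`, `k0 ∈ H`) then
`x' k x⁻¹ ∈ N` iff `x (k0 k) x⁻¹ ∈ N`: `#{k} = sta N H x`; otherwise it is `0`. -/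
def Stmt_GRP : Prop := ∀ (G : Type) [Group G] [Finite G] (n : ℕ) (N : Subgroup G) (D : Finset G),
  IsAffineDifferenceSet n N D → ∀ H : Subgroup G, ∃ (r : ℕ) (x : Fin r → G) (m : Fin r → ℕ),
    (∀ g : G, ∃! i, ∃ a ∈ N, ∃ k ∈ H, g = a * x i * k) ∧
    (∀ i, sta N H (x i) * m i = n - 1) ∧ ∑ i, m i = H.index ∧
    ∀ l : ℕ, l.Prime → Odd (n.factorization l) → Even (H.index + r) ∧
      IsSquare ((-1) ^ ((H.index + r) / 2) * ∏ i, (sta N H (x i) : ZMod l))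

/-- (INV) Involutions.

PROOF. (1) `g^2 = 1`, `g ∉ N`: `g = d1 d2⁻¹ = g⁻¹ = d2 d1⁻¹`, uniqueness gives `d1 = d2`, `g = 1 ∈ N`, contradiction. (2) `sta` is the order
of the subgroup `H ⊓ x⁻¹ N x` of `H`, isomorphic (conjugation by `x`) to a subgroup of `N`. `sta` is constant on double
cosets. (3) If `2 ∣ |H|` then `H` has an element `k ≠ 1`, `k^2 = 1` (Cauchy) and `x k x⁻¹ ∈ N` by (1): the subgroup has an element of
order `2`, so `2 ∣ sta`; and `sta ∣ |N| = n - 1`, `n - 1 = 2 mod 4`, so `4 ∤ sta`. -/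
def Stmt_INV : Prop := ∀ (G : Type) [Group G] [Finite G] (n : ℕ) (N : Subgroup G) (D : Finset G),
  IsAffineDifferenceSet n N D → (∀ g : G, g * g = 1 → g ∈ N) ∧
    (∀ (H : Subgroup G) (x : G), sta N H x ∣ Nat.card H ∧ sta N H x ∣ Nat.card N) ∧
    (∀ (H : Subgroup G) (x : G), ∀ a ∈ N, ∀ k ∈ H, sta N H (a * x * k) = sta N H x) ∧
    (n % 4 = 3 → ∀ H : Subgroup G, 2 ∣ Nat.card H → ∀ x : G, sta N H x % 4 = 2)

/-- (SY2) The conditions modulo 4 and 8.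

USES GRP, INV. PROOF. (a) (GRP) with `H = ⊥`: `sta = 1`, `m i = n - 1`, `index = n^2 - 1`, so `r (n - 1) = n^2 - 1`, `r = n + 1`, `(u + r)/2 = n (n + 1)/2` is
odd for `n = 1, 2 mod 4`: `-1` is a square modulo `l` (`ZMod.exists_sq_eq_neg_one_iff`). (b), (c): `H` = a Sylow 2-subgroup of `G`, `|H| = 2^a`;
`8 ∣ n^2 - 1`, so `a ≥ 3`. `sta ∣ 2^a` and `sta = 2 mod 4` (INV): `sta = 2`, `m i = (n - 1)/2`, `u = (n^2 - 1)/2^a` is odd,
`r (n - 1)/2 = u`: `r 2^(a-1) = n + 1`, `r` odd, `2^a (u + r) = (n + 1)(n - 1) + 2 (n + 1) = (n + 1)^2`. So `u + r = 2^(a-2) r^2`,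
`(u + r)/2 = 2^(a-3) r^2`. `n = 3 mod 8`: `a = 3` (`n + 1 = 4 r`), the sign is `-1`: `-2^r` and so `-2` is a square modulo `l`
(`ZMod.exists_sq_eq_neg_two_iff`), `l ≠ 2`. `n = 7 mod 8`: `8 ∣ n + 1 = 2^(a-1) r`, `a ≥ 4`, the sign is `1`: `2` is a square modulo
`l` (`ZMod.exists_sq_eq_two_iff`). -/
def Stmt_SY2 : Prop := ∀ (G : Type) [Group G] [Finite G] (n : ℕ) (N : Subgroup G) (D : Finset G),
  IsAffineDifferenceSet n N D → ∀ l : ℕ, l.Prime → Odd (n.factorization l) →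
    (n % 4 = 1 ∨ n % 4 = 2 → l = 2 ∨ l % 4 = 1) ∧ (n % 8 = 3 → l % 8 = 1 ∨ l % 8 = 3) ∧
    (n % 8 = 7 → l % 8 = 1 ∨ l % 8 = 7)

/-- (PNR) The Sylow `p`-subgroup and a 2-subgroup which normalizes it.

USES INV. PROOF. `|G| = n^2 - 1`, `|N| = n - 1`, `gcd(n - 1, n + 1) = 2`: `p` divides `|G|` and `|N|` exactly once. `P ≤ N` a subgroup of order
`p`, a Sylow `p`-subgroup of `N` and of `G`. CLAIM: `|N_G(P)|` is even. Let `K = N.normalCore`; it contains all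
involutions (INV (1), conjugates of involutions are involutions), so `|K| = 2 mod 4` (`G` has even order; `|K| ∣ |N| = 2 mod 4`).
Suppose `|N_G(P)|` is odd. Then `[G : N_G(P)]`, the number of Sylow `p`-subgroups of `G`, is divisible by `8`. If `p ∣ |K|` then `K` contains
a subgroup of order `p`, that is a conjugate of `P`, so `P ≤ K` and all conjugates of `P` are in `K` and are Sylow subgroups of `K`,
conjugate in `K`: their number divides `|K|`, not divisible by `4`: contradiction. So `p ∤ |K|`. `P` acts by conjugation on the Sylow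
2-subgroups of `K` (the subgroups of order 2, that is, on the set of involutions of `G`: all are in `K`); their number divides
`|K|` (index of a normalizer in `K`; all subgroups of order 2 of `K` are conjugate in `K`), so it is prime to `p` and `P` fixes one: an
involution `t` with `g t g⁻¹ = t` for all `g ∈ P`, so `t ∈ N_G(P)`: contradiction. (`Sylow.card_modEq..`, `IsPGroup.card_modEq_card_fixedPoints`,
`card_sylow_dvd_index`.)
`X` a Sylow 2-subgroup of `N_G(P)`, not trivial, `|N_G(P)| = |X| c`, `c` odd. An involution of `N_G(P)` is in `N`, so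
`|N ⊓ N_G(P)|` is even and divides `|N| = 2 mod 4`: it is `2 d`, `d` odd. -/
def Stmt_PNR : Prop := ∀ (G : Type) [Group G] [Finite G] (n : ℕ) (N : Subgroup G) (D : Finset G),
  IsAffineDifferenceSet n N D → n % 4 = 3 → ∀ p : ℕ, p.Prime → p ≠ 2 →
  (n - 1).factorization p = 1 →
  ∃ (P X M : Subgroup G) (b c d : ℕ), Nat.card P = p ∧ P ≤ N ∧
    (∀ g, g ∈ M ↔ ∀ k, k ∈ P ↔ g * k * g⁻¹ ∈ P) ∧ X ≤ M ∧ Nat.card X = 2 ^ b ∧ 1 ≤ b ∧
    Nat.card M = 2 ^ b * c ∧ Odd c ∧ Nat.card (N ⊓ M : Subgroup G) = 2 * d ∧ Odd d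

/-- (PFX) The double cosets of `R = P X` in (PNR).

USES INV. PROOF. `R = P ⊔ X`, `|R| = p 2^b` (`X` normalizes `P`). `sta N R x` divides `p 2^b` and is `2 mod 4`: it is `2` or `2 p`. If it is
`2 p` then `R ∩ x⁻¹ N x` has a subgroup of order `p`; `P` is the only subgroup of order `p` of `R` (normal Sylow subgroup), so
`x P x⁻¹ ≤ N`; conversely clear. Let `T = {x ∈ G : x P x⁻¹ ≤ N}`, a union of double cosets `N x R` (`R ≤ M`); a double coset has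
`|N| |R| / sta` elements, so `|T| = r1 |N| 2^(b-1)`, `r1` the number of `i` with `sta = 2 p`. And `T = N M`: for `x ∈ T` the
groups `P` and `x P x⁻¹` are Sylow `p`-subgroups of `N` (`p` divides `|N|` once), so `a x P x⁻¹ a⁻¹ = P` for an `a ∈ N`, `a x ∈ M`. `|N M| =
|N| |M| / |N ∩ M| = |N| 2^b c / (2 d)`. So `r1 2^(b-1) 2 d = 2^b c`, `r1 d = c` is odd, `r1` is odd. -/
def Stmt_PFX : Prop := ∀ (G : Type) [Group G] [Finite G] (n : ℕ) (N : Subgroup G) (D : Finset G),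
  IsAffineDifferenceSet n N D → n % 4 = 3 → ∀ p : ℕ, p.Prime → p ≠ 2 →
  (n - 1).factorization p = 1 →
  ∀ (P X M : Subgroup G) (b c d : ℕ), Nat.card P = p → P ≤ N →
    (∀ g, g ∈ M ↔ ∀ k, k ∈ P ↔ g * k * g⁻¹ ∈ P) → X ≤ M → Nat.card X = 2 ^ b → 1 ≤ b →
    Nat.card M = 2 ^ b * c → Odd c → Nat.card (N ⊓ M : Subgroup G) = 2 * d → Odd d →
  ∃ R : Subgroup G, Nat.card R = p * 2 ^ b ∧
    (∀ x, sta N R x = 2 ∨ sta N R x = 2 * p) ∧
    ∀ (r : ℕ) (x : Fin r → G), (∀ g : G, ∃! i, ∃ a ∈ N, ∃ k ∈ R, g = a * x i * k) →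
      Odd (#{i | sta N R (x i) = 2 * p})

/-- (PXT) Condition (d).

USES GRP, INV, PNR, PFX. PROOF. `|X| = 2^b`, `b ≥ 1`. (GRP) for `H = X`: all `sta = 2` (INV), `m i = (n - 1)/2`; `u 2^b = n^2 - 1`, `r (n - 1)/2 = u`, so
`r 2^(b-1) = n + 1`; `(-1)^((u + r)/2) 2^r` is a square modulo `l`. (GRP) for `H = R` (PFX), `r1` the number of `i` with `sta = 2 p` and `w` the
number of `i` with `sta = 2`, `r' = r1 + w`, `u' = (n^2 - 1)/(p 2^b)`, so `u = p u'`; `m i = (n - 1)/(2 p)` resp. `(n - 1)/2`: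
`r1 (n - 1)/(2p) + w (n - 1)/2 = u'`; multiply by `p`: `(r1 + p w)(n - 1)/2 = p u' = u`, so `r = r1 + p w`. `(-1)^((u' + r1 + w)/2) 2^(r1 + w) p^(r1)` is
a square modulo `l`. The product: exponent of `2`: `2 r1 + (p + 1) w`, even; `r1` is odd (PFX), so `p^(r1)` is `p` times a square; the sign exponent is
`((p + 1) u' + 2 r1 + (p + 1) w)/2 = ((p + 1)/2)(u' + w) + r1`, and `u' + w = (u' + r1 + w) - r1` is odd, so the sign is `(-1)^((p + 1)/2 + 1) =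
(-1)^((p - 1)/2)`. So `(-1)^((p-1)/2) p` is a square modulo `l`, `l ≠ 2` (`n` is odd), `l ≠ p` (`p ∣ n - 1`), and by quadratic
reciprocity `l` is a square modulo `p` (`legendreSym.quadratic_reciprocity'` or `ZMod.exists_sq_eq_prime_iff_of_mod_four_eq_one/three`). -/
def Stmt_PXT : Prop := ∀ (G : Type) [Group G] [Finite G] (n : ℕ) (N : Subgroup G) (D : Finset G),
  IsAffineDifferenceSet n N D → n % 4 = 3 → ∀ p : ℕ, p.Prime → p ≠ 2 →
  (n - 1).factorization p = 1 → ∀ l : ℕ, l.Prime → Odd (n.factorization l) →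
  IsSquare ((l : ℕ) : ZMod p)

/-! ## 3. The count -/

open Classical in
/-- the integers `1 ≤ n ≤ z` all of whose prime factors `p` have `χ p = 1` -/
noncomputable def Pset (χ : MulChar (ZMod 8) ℤ) (z : ℕ) : Finset ℕ :=
  (Icc 1 z).filter (fun n => ∀ p : ℕ, p.Prime → p ∣ n → χ (p : ZMod 8) = 1)

/-- (CN1) The reciprocal sum.

PROOF. The same as for `Pool/Agent/ADS/EV1.lean` (Legendre symbol modulo `w`; there `Q1`, `sq_le`, `main_sum`): copy it with the character `χ`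
modulo `8` (a fixed modulus, so no `log w`). `A = Σ_(n ∈ Pset) 1/n`, `A^2 ≤ Σ_(k ≤ z^2) (Σ_(d ∣ k) χ(d))/k` as `Σ_(d ∣ k) χ(d) ≥ 0` for all
`k` (`DirichletCharacter.zetaMul_nonneg`, `χ^2 = 1`) and `= τ(k)` if all primes of `k` have `χ = 1`. `= Σ_(d ≤ z^2) (χ(d)/d) H(z^2/d) ≤ (2 + log 8) H(z^2)` by
partial summation. `χ^2 = 1` and `χ ≠ 1` give: values in `{0, 1, -1}`, sum over a period `0`. -/
def Stmt_CN1 : Prop := ∀ χ : MulChar (ZMod 8) ℤ, χ ^ 2 = 1 → χ ≠ 1 → ∃ C : ℝ, 0 < C ∧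
  ∀ z : ℕ, 2 ≤ z → ∑ n ∈ Pset χ z, (1 : ℝ) / n ≤ C * Real.sqrt (Real.log z)

open Classical in
/-- (CN2) The number of squarefree integers in `Pset`.

USES CN1. PROOF. `R(Y)` = the squarefree elements of `Pset χ Y`. `Σ_(r ∈ R(Y)) log r = Σ_r Σ_(p ∣ r) log p ≤ Σ_(r' ∈ R(Y)) Σ_(p ≤ Y/r') log p`
(`r = p r'`, injective `(r, p) ↦ (r', p)`) `≤ log 4 · Y Σ_(r' ∈ R(Y)) 1/r'` (`θ(y) ≤ y log 4`: `Chebyshev.theta_le_log4_mul_x`, or
`primorial_le_4_pow`) `≤ C Y sqrt(log Y)`. And `log r ≥ (1/2) log Y` for `r > sqrt Y`: `(1/2) log Y (|R(Y)| - sqrt Y) ≤ Σ log r`.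
So `|R(Y)| ≤ 2 C Y / sqrt(log Y) + sqrt Y ≤ C' Y / sqrt(log Y)`. -/
def Stmt_CN2 : Prop := ∀ χ : MulChar (ZMod 8) ℤ, χ ^ 2 = 1 → χ ≠ 1 → ∃ C : ℝ, 0 < C ∧
  ∀ Y : ℕ, 2 ≤ Y → (((Pset χ Y).filter Squarefree).card : ℝ) ≤ C * Y / Real.sqrt (Real.log Y)

/-- the conditions (a), (b), (c) -/
def Cond (n : ℕ) : Prop := ∀ l : ℕ, l.Prime → Odd (n.factorization l) →
  (n % 4 = 1 ∨ n % 4 = 2 → l = 2 ∨ l % 4 = 1) ∧ (n % 8 = 3 → l % 8 = 1 ∨ l % 8 = 3) ∧
    (n % 8 = 7 → l % 8 = 1 ∨ l % 8 = 7)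

open Classical in
/-- (CN3) The count.

USES CN2. PROOF. `n` odd, `n = m^2 r` with `r` squarefree (`Nat.sq_mul_squarefree`); every prime `l ∣ r` divides `n` to an odd power. So `r ∈ R_χ(X/m^2)`
with `χ` = the character modulo 8 `l ↦ (-1/l)`, `(-2/l)` or `(2/l)` (values `1` at `{1, 5}`, `{1, 3}`, `{1, 7}`; `ZMod.χ₄` composed with the
reduction or a definition by values, `ZMod.χ₈'`, `ZMod.χ₈`) according to `n = 1 mod 4`, `3 mod 8`, `7 mod 8`. For `m ≤ X^(1/4)`: `|R_χ(X/m^2)| ≤ C (X/m^2)/sqrt((1/2) log X)`, for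
`m > X^(1/4)` trivially `≤ X/m^2`. Sum over `m`: `Σ 1/m^2 ≤ 2`, `Σ_(m > M) 1/m^2 ≤ 1/M`. -/
def Stmt_CN3 : Prop := ∃ C : ℝ, 0 < C ∧ ∀ X : ℕ, 2 ≤ X →
  (((Icc 1 X).filter (fun n => Odd n ∧ Cond n)).card : ℝ) ≤ C * X / Real.sqrt (Real.log X)

/-! ## 4. The main theorem -/

/-- some finite group has an affine difference set of order `n` -/
def AnyOrder (n : ℕ) : Prop :=
  ∃ (G : Type) (_ : Group G) (N : Subgroup G) (D : Finset G), IsAffineDifferenceSet n N D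

/-- The main theorem. -/
def MainStatement : Prop :=
  (∀ n : ℕ, AnyOrder n → ∀ l : ℕ, l.Prime → Odd (n.factorization l) →
    (n % 4 = 1 ∨ n % 4 = 2 → l = 2 ∨ l % 4 = 1) ∧
    (n % 8 = 3 → l % 8 = 1 ∨ l % 8 = 3) ∧
    (n % 8 = 7 → l % 8 = 1 ∨ l % 8 = 7) ∧
    (n % 4 = 3 → ∀ p : ℕ, p.Prime → p ≠ 2 → (n - 1).factorization p = 1 →
      IsSquare ((l : ℕ) : ZMod p))) ∧
  ∃ C : ℝ, ∀ x : ℝ, 2 ≤ x →
    ({n : ℕ | (n : ℝ) ≤ x ∧ Odd n ∧ AnyOrder n}.ncard : ℝ) ≤ C * x / Real.sqrt (Real.log x)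

/-- (FIN) Final assembly.

USES SY2, PXT, CN3. PROOF. `G` is finite because `Nat.card G = n^2 - 1 ≠ 0`. `X = ⌊x⌋`. -/
def Stmt_FIN : Prop := MainStatement

end Pool.Agent.ADG
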