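import Mathlib
import Pool.Agent.ADS.EVA
import Pool.Agent.ADG.St

/-!
# ADG, module EVG (helper96): even orders, all groups

If `D` is an affine difference set of even order `n` in a finite group `G` relative to a subgroup `N`, the prime `l` divides `n` to an odd power and the prime `p` divides `n - 1`, and `p^3` does not divide `n - 1` or `G` is solvable, then `l` has odd order modulo `p`.
-/

set_option autoImplicit false

namespace Pool.Agent.ADG

open Finset Pool.Agent.ADS

namespace EVG

open scoped Pointwise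

/-- the number of Sylow subgroups which contain a given element, when the Sylow subgroups are commutative -/
theorem odd_syl {H : Type*} [Group H] [Finite H] (hH : Odd (Nat.card H)) (p : ℕ) [Fact p.Prime]
    (hc : ∀ Q : Sylow p H, ∀ a ∈ Q, ∀ b ∈ Q, a * b = b * a) (z : H)
    (hz : IsPGroup p (Subgroup.zpowers z)) : Odd (Nat.card {Q : Sylow p H // z ∈ Q}) := by
  obtain ⟨Q0, hQ0⟩ := hz.exists_le_sylow
  have hzQ : z ∈ Q0 := hQ0 (Subgroup.mem_zpowers z)
  set C : Subgroup H := Subgroup.centralizer (Subgroup.zpowers z : Set H) with hC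
  have hle : ∀ Q : Sylow p H, z ∈ Q → (Q : Subgroup H) ≤ C := by
    intro Q hQ a ha
    rw [hC, Subgroup.mem_centralizer_iff]
    intro w hw
    obtain ⟨k, rfl⟩ := Subgroup.mem_zpowers_iff.1 hw
    exact hc Q _ (Q.toSubgroup.zpow_mem hQ k) a ha
  have horb : {Q : Sylow p H | z ∈ Q} = MulAction.orbit C Q0 := by
    ext Q
    constructor
    · intro hQ
      obtain ⟨h, hh⟩ := MulAction.exists_smul_eq C (Q0.subtype (hle Q0 hzQ)) (Q.subtype (hle Q hQ))
      simp_rw [Sylow.smul_subtype, Subgroup.smul_def] at hh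
      exact ⟨h, Sylow.subtype_injective hh⟩
    · rintro ⟨h, rfl⟩
      show z ∈ ((h : H) • Q0 : Sylow p H)
      have e : z = (h : H) * z * (h : H)⁻¹ := by
        have h1 := (Subgroup.mem_centralizer_iff.1 h.2) z (Subgroup.mem_zpowers z)
        rw [← h1, mul_inv_cancel_right]
      rw [e]
      exact ⟨z, hzQ, rfl⟩
  have h1 : Nat.card {Q : Sylow p H // z ∈ Q} = Nat.card (MulAction.orbit C Q0) :=
    Nat.card_congr (Equiv.setCongr horb)
  rw [h1]
  have h2 : Nat.card (MulAction.orbit C Q0) ∣ Nat.card C := by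
    rw [Nat.card_congr (MulAction.orbitEquivQuotientStabilizer C Q0)]
    exact Subgroup.card_quotient_dvd_card _
  exact hH.of_dvd_nat (h2.trans (Subgroup.card_subgroup_dvd_card _))

/-- the number of the products `c m` -/
theorem odd_prod {G : Type*} [Group G] [Finite G] (hG : Odd (Nat.card G)) (C M : Subgroup G) :
    Odd (Nat.card {x : G // ∃ c ∈ C, ∃ m ∈ M, x = c * m}) := by
  let act : MulAction (C × M) G :=
    { smul := fun cm x => (cm.1 : G) * x * (cm.2 : G)⁻¹
      one_smul := by
        intro x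
        show ((1 : C × M).1 : G) * x * ((1 : C × M).2 : G)⁻¹ = x
        simp
      mul_smul := by
        intro a b x
        show ((a * b).1 : G) * x * ((a * b).2 : G)⁻¹ =
          (a.1 : G) * ((b.1 : G) * x * (b.2 : G)⁻¹) * (a.2 : G)⁻¹
        simp [mul_assoc] }
  have horb : {x : G | ∃ c ∈ C, ∃ m ∈ M, x = c * m} = MulAction.orbit (C × M) (1 : G) := by
    ext x
    constructor
    · rintro ⟨c, hc, m, hm, rfl⟩
      refine ⟨(⟨c, hc⟩, ⟨m⁻¹, M.inv_mem hm⟩), ?_⟩
      show c * 1 * (m⁻¹)⁻¹ = c * m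
      simp
    · rintro ⟨⟨c, m⟩, rfl⟩
      refine ⟨c, c.2, (m : G)⁻¹, M.inv_mem m.2, ?_⟩
      show (c : G) * 1 * (m : G)⁻¹ = _
      simp
  have h1 : Nat.card {x : G // ∃ c ∈ C, ∃ m ∈ M, x = c * m} =
      Nat.card (MulAction.orbit (C × M) (1 : G)) :=
    Nat.card_congr (Equiv.setCongr horb)
  rw [h1]
  have h2 : Nat.card (MulAction.orbit (C × M) (1 : G)) ∣ Nat.card (C × M) := by
    rw [Nat.card_congr (MulAction.orbitEquivQuotientStabilizer (C × M) (1 : G))]
    exact Subgroup.card_quotient_dvd_card _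
  refine Odd.of_dvd_nat ?_ h2
  rw [Nat.card_prod]
  exact (hG.of_dvd_nat (Subgroup.card_subgroup_dvd_card _)).mul
    (hG.of_dvd_nat (Subgroup.card_subgroup_dvd_card _))

/-- commutative groups of small order -/
theorem comm_small {Q : Type*} [Group Q] [Finite Q] (p k : ℕ) [Fact p.Prime] (hk : k ≤ 2)
    (hQ : Nat.card Q = p ^ k) (a b : Q) : a * b = b * a := by
  interval_cases k
  · rw [pow_zero] at hQ
    have := (Nat.card_eq_one_iff_unique.1 hQ).1
    exact Subsingleton.elim _ _
  · rw [pow_one] at hQ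
    have h1 : IsCyclic Q := isCyclic_of_prime_card hQ
    exact (IsCyclic.isMulCommutative (α := Q)).is_comm.comm a b
  · exact (IsPGroup.isMulCommutative_of_card_eq_prime_sq hQ).is_comm.comm a b

/-- the parity statement for commutative Sylow subgroups -/
theorem odd_count {G : Type*} [Group G] [Finite G] (hG : Odd (Nat.card G)) (N : Subgroup G)
    (p : ℕ) [Fact p.Prime] (hpN : p ∣ Nat.card N) (hp3 : ¬ p ^ 3 ∣ Nat.card N)
    (hidx : ¬ p ∣ N.index) :
    ∃ b : G, orderOf b = p ∧ Odd (Nat.card {x : G // x⁻¹ * b * x ∈ N}) := by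
  classical
  have hp : p.Prime := Fact.out
  have hNodd : Odd (Nat.card N) := hG.of_dvd_nat (Subgroup.card_subgroup_dvd_card _)
  -- the Sylow subgroups of `N` are commutative
  have hcomm : ∀ Q : Sylow p N, ∀ a ∈ Q, ∀ b ∈ Q, a * b = b * a := by
    intro Q a ha b hb
    obtain ⟨k, hk⟩ := IsPGroup.iff_card.1 Q.isPGroup'
    have hk2 : k ≤ 2 := by
      by_contra h
      apply hp3
      have h1 : p ^ 3 ∣ p ^ k := pow_dvd_pow p (by omega)
      exact (h1.trans (dvd_of_eq hk.symm)).trans (Subgroup.card_subgroup_dvd_card _)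
    have := comm_small (Q := Q) p k hk2 hk ⟨a, ha⟩ ⟨b, hb⟩
    exact congrArg Subtype.val this
  obtain ⟨P⟩ : Nonempty (Sylow p N) := inferInstance
  -- the image of `P` in `G`
  have hPG : IsPGroup p ((P : Subgroup N).map N.subtype) := P.isPGroup'.map _
  have hPidx : ¬ p ∣ ((P : Subgroup N).map N.subtype).index := by
    rw [Subgroup.index_map_subtype]
    intro h
    rcases hp.dvd_mul.1 h with h | h
    · exact P.not_dvd_index h
    · exact hidx h
  set PG : Sylow p G := hPG.toSylow hPidx with hPGdef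
  have memPG : ∀ g : G, g ∈ PG ↔ ∃ h : g ∈ N, (⟨g, h⟩ : N) ∈ P := by
    intro g
    rw [hPGdef, IsPGroup.mem_toSylow, Subgroup.mem_map]
    constructor
    · rintro ⟨y, hy, rfl⟩
      exact ⟨y.2, hy⟩
    · rintro ⟨h, hy⟩
      exact ⟨_, hy, rfl⟩
  have : IsMulCommutative PG := by
    refine ⟨⟨?_⟩⟩
    rintro ⟨a, ha⟩ ⟨b, hb⟩
    obtain ⟨ha1, ha2⟩ := (memPG a).1 ha
    obtain ⟨hb1, hb2⟩ := (memPG b).1 hb
    apply Subtype.ext
    have h5 := hcomm P _ ha2 _ hb2
    exact congrArg (fun z : N => (z : G)) h5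
  -- an element of order `p`
  obtain ⟨b0, hb0⟩ : ∃ b : (P : Subgroup N), orderOf b = p := by
    apply exists_prime_orderOf_dvd_card' p
    have h5 : Nat.card P = p ^ (Nat.card N).factorization p := P.card_eq_multiplicity
    rw [h5]
    apply dvd_pow_self
    have := hp.factorization_pos_of_dvd Nat.card_pos.ne' hpN
    omega
  set b : G := ((b0 : N) : G) with hb
  have hbo : orderOf b = p := by
    rw [hb, Subgroup.orderOf_coe, Subgroup.orderOf_coe]
    exact hb0
  have hbP : b ∈ PG := (memPG b).2 ⟨(b0 : N).2, b0.2⟩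
  refine ⟨b, hbo, ?_⟩
  -- the elements that conjugate `b` into `P`
  have hX : Odd (Nat.card {x : G // x⁻¹ * b * x ∈ PG}) := by
    have h1 := odd_prod hG (Subgroup.centralizer {b}) (Subgroup.normalizer (PG : Set G))
    have h2 : {x : G | x⁻¹ * b * x ∈ PG} =
        {x : G | ∃ c ∈ Subgroup.centralizer {b}, ∃ m ∈ Subgroup.normalizer (PG : Set G),
          x = c * m} := by
      ext x
      constructor
      · intro hx
        obtain ⟨m, hm, he⟩ := PG.conj_eq_normalizer_conj_of_mem b x hbP hx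
        refine ⟨x * m⁻¹, ?_, m, hm, by group⟩
        rw [Subgroup.mem_centralizer_singleton_iff]
        have h3 : b * x = x * (m⁻¹ * b * m) := by rw [← he]; group
        calc x * m⁻¹ * b = (x * (m⁻¹ * b * m)) * m⁻¹ := by group
          _ = b * x * m⁻¹ := by rw [← h3]
          _ = b * (x * m⁻¹) := by group
      · rintro ⟨c, hc, m, hm, rfl⟩
        show (c * m)⁻¹ * b * (c * m) ∈ PG
        rw [Subgroup.mem_centralizer_singleton_iff] at hc
        have h3 : (c * m)⁻¹ * b * (c * m) = m⁻¹ * b * m := by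
          calc (c * m)⁻¹ * b * (c * m) = m⁻¹ * (c⁻¹ * (b * c)) * m := by group
            _ = m⁻¹ * (c⁻¹ * (c * b)) * m := by rw [hc]
            _ = m⁻¹ * b * m := by group
        rw [h3]
        exact (Subgroup.mem_normalizer_iff''.1 hm b).1 hbP
    have h6 : Nat.card {x : G // x⁻¹ * b * x ∈ PG} =
        Nat.card {x : G // ∃ c ∈ Subgroup.centralizer {b},
          ∃ m ∈ Subgroup.normalizer (PG : Set G), x = c * m} :=
      Nat.card_congr (Equiv.setCongr h2)
    rw [h6]
    exact h1
  -- double counting modulo 2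
  have : Fintype G := Fintype.ofFinite G
  have : Fintype (Sylow p N) := Fintype.ofFinite _
  have hpg : ∀ x : G, IsPGroup p (Subgroup.zpowers (x⁻¹ * b * x)) := by
    intro x
    apply IsPGroup.of_card (n := 1)
    rw [Nat.card_zpowers, pow_one, ← hbo]
    have h1 := orderOf_injective (MulAut.conj x⁻¹).toMonoidHom
      (MulAut.conj x⁻¹).injective b
    simpa using h1
  let rel : G → Sylow p N → Prop := fun x Q => ∃ h : x⁻¹ * b * x ∈ N, (⟨_, h⟩ : N) ∈ Q
  have hin : ∀ x : G, (∑ Q : Sylow p N, if rel x Q then (1 : ZMod 2) else 0) =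
      if x⁻¹ * b * x ∈ N then 1 else 0 := by
    intro x
    split_ifs with h
    · have h1 := odd_syl hNodd p hcomm ⟨_, h⟩ (by
        have h2 := hpg x
        have h3 : Nat.card (Subgroup.zpowers (⟨x⁻¹ * b * x, h⟩ : N)) =
            Nat.card (Subgroup.zpowers (x⁻¹ * b * x)) := by
          rw [Nat.card_zpowers, Nat.card_zpowers, Subgroup.orderOf_mk]
        obtain ⟨k, hk⟩ := IsPGroup.iff_card.1 h2
        exact IsPGroup.of_card (n := k) (h3.trans hk))
      rw [Finset.sum_boole]
      have h4 : (univ.filter fun Q : Sylow p N => rel x Q).card =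
          Nat.card {Q : Sylow p N // (⟨_, h⟩ : N) ∈ Q} := by
        rw [Nat.card_eq_fintype_card, Fintype.card_subtype]
        congr 1
        ext Q
        simp only [Finset.mem_filter, Finset.mem_univ, true_and, rel]
        exact ⟨fun h5 => h5.2, fun h5 => ⟨h, h5⟩⟩
      rw [h4]
      exact ZMod.natCast_eq_one_iff_odd.2 h1
    · apply Finset.sum_eq_zero
      intro Q _
      rw [if_neg]
      rintro ⟨h1, _⟩
      exact h h1
  have hout : ∀ Q : Sylow p N, (∑ x : G, if rel x Q then (1 : ZMod 2) else 0) = 1 := by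
    intro Q
    obtain ⟨y, hy⟩ := MulAction.exists_smul_eq N P Q
    rw [Finset.sum_boole]
    have h4 : (univ.filter fun x : G => rel x Q).card =
        Nat.card {x : G // x⁻¹ * b * x ∈ PG} := by
      rw [← Fintype.card_subtype, ← Nat.card_eq_fintype_card]
      apply Nat.card_congr
      refine (Equiv.mulRight (y : G)).subtypeEquiv fun x => ?_
      rw [memPG]
      simp only [Equiv.coe_mulRight, rel]
      rw [← hy]
      have e : (x * (y : G))⁻¹ * b * (x * (y : G)) = (y : G)⁻¹ * (x⁻¹ * b * x) * y := by group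
      constructor
      · rintro ⟨h1, h2⟩
        have h3 : (x * (y : G))⁻¹ * b * (x * (y : G)) ∈ N := by
          rw [e]
          exact N.mul_mem (N.mul_mem (N.inv_mem y.2) h1) y.2
        refine ⟨h3, ?_⟩
        obtain ⟨z, hz, hz2⟩ := h2
        have h5 : (⟨_, h3⟩ : N) = z := by
          apply Subtype.ext
          show (x * (y : G))⁻¹ * b * (x * (y : G)) = z
          rw [e]
          have h6 : (y : G) * z * (y : G)⁻¹ = x⁻¹ * b * x := congrArg Subtype.val hz2
          rw [← h6]
          group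
        rw [h5]
        exact hz
      · rintro ⟨h1, h2⟩
        have h3 : x⁻¹ * b * x ∈ N := by
          have e2 : x⁻¹ * b * x = y * ((x * (y : G))⁻¹ * b * (x * (y : G))) * (y : G)⁻¹ := by
            group
          rw [e2]
          exact N.mul_mem (N.mul_mem y.2 h1) (N.inv_mem y.2)
        refine ⟨h3, ⟨_, h2, ?_⟩⟩
        apply Subtype.ext
        show (y : G) * ((x * (y : G))⁻¹ * b * (x * (y : G))) * (y : G)⁻¹ = x⁻¹ * b * x
        group
    rw [h4]
    exact ZMod.natCast_eq_one_iff_odd.2 hX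
  have hS : Odd (Fintype.card (Sylow p N)) := by
    rw [← Nat.card_eq_fintype_card]
    exact hNodd.of_dvd_nat (P.card_dvd_index.trans (Subgroup.index_dvd_card _))
  have h1 : (∑ x : G, ∑ Q : Sylow p N, if rel x Q then (1 : ZMod 2) else 0) =
      ∑ Q : Sylow p N, ∑ x : G, if rel x Q then (1 : ZMod 2) else 0 := Finset.sum_comm
  simp_rw [hin, hout] at h1
  rw [Finset.sum_boole, Finset.sum_const, Finset.card_univ, nsmul_eq_mul, mul_one,
    ZMod.natCast_eq_one_iff_odd.2 hS, ZMod.natCast_eq_one_iff_odd] at h1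
  rw [Nat.card_eq_fintype_card, Fintype.card_subtype]
  exact h1

end EVG

/-- EVG. Even orders: the prime `l` has odd order modulo `p`. -/
theorem EVG_thm (G : Type) [Group G] [Finite G] (N : Subgroup G)
    (n : ℕ) (D : Finset G) (hD : IsAffineDifferenceSet n N D) (hn : Even n)
    (l p : ℕ) (hl : l.Prime) (hp : p.Prime) (hln : Odd (n.factorization l))
    (hpn : p ∣ n - 1) (hS : ¬ p ^ 3 ∣ n - 1 ∨ Group.IsSolvable G) :
    Odd (orderOf (l : ZMod p)) := by
  rcases hS with hp3 | hS
  swap
  · exact M_EVA.odd_order N n D hD hn l p hl hp hln hpn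
  classical
  have : Fintype G := Fintype.ofFinite G
  have : Fact l.Prime := ⟨hl⟩
  have : Fact p.Prime := ⟨hp⟩
  have h2 := hD.two_le
  have hld : l ∣ n := by
    by_contra h
    rw [Nat.factorization_eq_zero_of_not_dvd h] at hln
    exact absurd hln (by decide)
  have hlp0 : (l : ZMod p) ≠ 0 := by
    intro h
    rw [ZMod.natCast_eq_zero_iff] at h
    have h3 := Nat.dvd_sub (h.trans hld) hpn
    have h4 : n - (n - 1) = 1 := by omega
    rw [h4] at h3
    exact hp.one_lt.ne' (Nat.dvd_one.mp h3)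
  have hfin : IsOfFinOrder (l : ZMod p) :=
    isOfFinOrder_iff_pow_eq_one.mpr ⟨p - 1, Nat.sub_pos_of_lt hp.one_lt,
      ZMod.pow_card_sub_one_eq_one hlp0⟩
  by_contra hodd
  rw [Nat.not_odd_iff_even] at hodd
  obtain ⟨j, hj⟩ := hodd
  have hpos := hfin.orderOf_pos
  have hjpos : 0 < j := by omega
  have hjm1 : (l : ZMod p) ^ j = -1 := by
    have h3 : (l : ZMod p) ^ j * (l : ZMod p) ^ j = 1 := by
      rw [← pow_add, ← hj, pow_orderOf_eq_one]
    rcases mul_self_eq_one_iff.mp h3 with h4 | h4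
    · exfalso
      have h5 := orderOf_dvd_of_pow_eq_one h4
      have h6 := Nat.le_of_dvd hjpos h5
      omega
    · exact h4
  have hnodd : Odd (n - 1) := by
    obtain ⟨t, ht⟩ := hn
    exact ⟨t - 1, by omega⟩
  have hcardG : Nat.card G = (n + 1) * (n - 1) := by
    rw [hD.card_group]
    obtain ⟨a, rfl⟩ : ∃ a, n = a + 1 := ⟨n - 1, by omega⟩
    have : (a + 1) ^ 2 = (a + 1 + 1) * (a + 1 - 1) + 1 := by
      rw [Nat.add_sub_cancel]; ring
    omega
  have hGodd : Odd (Nat.card G) := by
    rw [hcardG]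
    exact (hn.add_one).mul hnodd
  have hidx : N.index = n + 1 := by
    have h3 := N.card_mul_index
    rw [hcardG, hD.card_subgroup, mul_comm (n + 1)] at h3
    exact Nat.eq_of_mul_eq_mul_left (by omega) h3
  have hpidx : ¬ p ∣ N.index := by
    rw [hidx]
    intro h3
    have h4 := Nat.dvd_sub h3 hpn
    have h5 : n + 1 - (n - 1) = 2 := by omega
    rw [h5] at h4
    have h6 : p = 2 := (Nat.prime_dvd_prime_iff_eq hp Nat.prime_two).mp h4
    rw [h6] at hpn
    exact (Nat.not_even_iff_odd.mpr hnodd) (even_iff_two_dvd.mpr hpn)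
  obtain ⟨b, hb, hbodd⟩ := EVG.odd_count hGodd N p (by rw [hD.card_subgroup]; exact hpn)
    (by rw [hD.card_subgroup]; exact hp3) hpidx
  have heven := Pool.Agent.LibH97.AffDiff.even_count N D n h2 hn (M_EVA.count_eq hD)
    hD.card_subgroup l hln p hpn j hjm1 b hb
  exact (Nat.not_even_iff_odd.mpr hbodd) heven

end Pool.Agent.ADG
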