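import Pool.Agent.ADG.St2

/-!
# Project ADG part 2, module PAI (helper31): the sieve for a fixed pair of smallest prime factors
-/

set_option autoImplicit false

namespace Pool.Agent.ADG

open Finset Pool.Agent.ADS

namespace PAIm

/-- a prime dividing `n` whose square does not divide `n` has exponent one -/
lemma fac_one {n q : ℕ} (hn : n ≠ 0) (hq : q.Prime) (h1 : q ∣ n) (h2 : ¬ q ^ 2 ∣ n) :
    n.factorization q = 1 := by
  have ha : 1 ≤ n.factorization q := (hq.dvd_iff_one_le_factorization hn).1 h1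
  have hb : ¬ 2 ≤ n.factorization q := fun h => h2 ((hq.pow_dvd_iff_le_factorization hn).2 h)
  omega

end PAIm

open Classical in
theorem PAI_thm (h1 : Stmt_S2V) (h2 : Stmt_RSL) (h3 : Stmt_RCX) : Stmt_PAI := by
  obtain ⟨c, T1, hc, hR⟩ := h2
  obtain ⟨hx, hy⟩ := h3
  refine ⟨1 / c ^ 2, max T1 2, by positivity, ?_⟩
  intro X T z l p hT hTz hl hp hTl hTp hlz hpz hlp S hS
  have hT1 : T1 ≤ T := le_trans (le_max_left _ _) hT
  have hT2 : 2 ≤ T := le_trans (le_max_right _ _) hT
  have hl2 : l ≠ 2 := by omega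
  have hp2 : p ≠ 2 := by omega
  obtain ⟨χ, hχ, hχq⟩ := hx p hp hp2
  obtain ⟨ψ, hψ, hψq⟩ := hy l hl hl2
  have hTlR : (T : ℝ) < l := by exact_mod_cast hTl
  have hTpR : (T : ℝ) < p := by exact_mod_cast hTp
  have hpz' : p ≤ max l p := le_max_right _ _
  have hlz' : l ≤ max l p := le_max_left _ _
  have hwz : max l p ≤ z := max_le hlz hpz
  have hR1 := hR (4 * p) χ hχ T z l (max l p) l p hT1 hTl hlz' hwz (by omega)
    (by push_cast; have : (0:ℝ) ≤ p := Nat.cast_nonneg p; linarith) hl hp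
  have hR2 := hR (4 * l) ψ hψ T z p (max l p) l p hT1 hTp hpz' hwz (by omega)
    (by push_cast; have : (0:ℝ) ≤ l := Nat.cast_nonneg l; linarith) hl hp
  set P1 := (Icc 1 z).filter (fun q => q.Prime ∧ T < q ∧ q ≠ l ∧ q ≠ p ∧
      (q < l ∨ ((max l p) ^ 9 < q ∧ χ q ≠ 1))) with hP1
  set P2 := (Icc 1 z).filter (fun q => q.Prime ∧ T < q ∧ q ≠ l ∧ q ≠ p ∧
      (q < p ∨ ((max l p) ^ 9 < q ∧ ψ q ≠ 1))) with hP2
  have hcop : Nat.Coprime l p := (Nat.coprime_primes hl hp).2 hlp
  have hsq : ∀ n, (2 ≤ n ∧ n ≤ X ∧ QRC n ∧ l ∣ n ∧ p ∣ n - 1 ∧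
    (∀ q : ℕ, q.Prime → T < q → ¬ q ^ 2 ∣ n ∧ ¬ q ^ 2 ∣ n - 1) ∧
    (∀ q : ℕ, q.Prime → T < q → q < l → ¬ q ∣ n) ∧
    ∀ q : ℕ, q.Prime → T < q → q < p → ¬ q ∣ n - 1) →
    (∀ q ∈ P1, ¬ q ∣ n) ∧ ∀ q ∈ P2, ¬ q ∣ n - 1 := by
    rintro n ⟨hn2, -, hQ, hln, hpn, hsqf, hn1, hn3⟩
    constructor
    · intro q hq hqn
      simp only [hP1, Finset.mem_filter, Finset.mem_Icc] at hq
      obtain ⟨-, hqp, hTq, hql, hqp', hor⟩ := hq
      rcases hor with h | ⟨-, h⟩
      · exact hn1 q hqp hTq h hqn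
      · apply h
        rw [← hχq q hqp hqp']
        refine hQ q p hqp hp (by omega) hp2 ?_ ?_
        · rw [PAIm.fac_one (by omega) hqp hqn (hsqf q hqp hTq).1]; exact odd_one
        · exact PAIm.fac_one (by omega) hp hpn (hsqf p hp hTp).2
    · intro q hq hqn
      simp only [hP2, Finset.mem_filter, Finset.mem_Icc] at hq
      obtain ⟨-, hqp, hTq, hql, hqp', hor⟩ := hq
      rcases hor with h | ⟨-, h⟩
      · exact hn3 q hqp hTq h hqn
      · apply h
        rw [← hψq q hqp (by omega) hql]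
        refine hQ l q hl hqp hl2 (by omega) ?_ ?_
        · rw [PAIm.fac_one (by omega) hl hln (hsqf l hl hTl).1]; exact odd_one
        · exact PAIm.fac_one (by omega) hqp hqn (hsqf q hqp hTq).2
  have hz1 : 1 ≤ z := by omega
  have hmain := h1 X z (l * p) (Nat.chineseRemainder hcop 0 1) P1 P2 hz1
    (Nat.mul_pos hl.pos hp.pos) (by
      intro q hq
      rw [Finset.mem_union] at hq
      have hq' : q.Prime ∧ T < q ∧ q ≠ l ∧ q ≠ p := by
        rcases hq with hq | hq
        · simp only [hP1, Finset.mem_filter, Finset.mem_Icc] at hq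
          exact ⟨hq.2.1, hq.2.2.1, hq.2.2.2.1, hq.2.2.2.2.1⟩
        · simp only [hP2, Finset.mem_filter, Finset.mem_Icc] at hq
          exact ⟨hq.2.1, hq.2.2.1, hq.2.2.2.1, hq.2.2.2.2.1⟩
      obtain ⟨ha, hb, hc', hd⟩ := hq'
      refine ⟨ha, by omega, fun h => ?_⟩
      rcases (ha.dvd_mul).1 h with h | h
      · exact hc' ((Nat.prime_dvd_prime_iff_eq ha hl).1 h)
      · exact hd ((Nat.prime_dvd_prime_iff_eq ha hp).1 h)) S (by
      intro n hn
      have hn' := hS n hn
      obtain ⟨hA, hB⟩ := hsq n hn'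
      obtain ⟨hn2, hnX, hQ, hln, hpn, -⟩ := hn'
      refine ⟨by omega, hnX, ?_, hA, hB⟩
      apply Nat.chineseRemainder_modEq_unique hcop
      · exact (Nat.modEq_zero_iff_dvd).2 hln
      · exact ((Nat.modEq_iff_dvd' (by omega)).2 hpn).symm)
  have hlogT : 0 < Real.log T := Real.log_pos (by exact_mod_cast (by omega : 1 < T))
  have hlogl : 0 < Real.log l := Real.log_pos (by exact_mod_cast hl.one_lt)
  have hlogp : 0 < Real.log p := Real.log_pos (by exact_mod_cast hp.one_lt)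
  have hlogz : 0 < Real.log z := Real.log_pos (by exact_mod_cast (by omega : 1 < z))
  have hlogw : 0 < Real.log ((max l p : ℕ) : ℝ) :=
    Real.log_pos (by exact_mod_cast (by omega : 1 < max l p))
  have hlogm : 0 < Real.log ((min l p : ℕ) : ℝ) := by
    apply Real.log_pos
    have : 1 < min l p := lt_min hl.one_lt hp.one_lt
    exact_mod_cast this
  have hmm : Real.log l * Real.log p =
      Real.log ((min l p : ℕ) : ℝ) * Real.log ((max l p : ℕ) : ℝ) := by
    rcases le_total l p with h | h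
    · rw [min_eq_left h, max_eq_right h]
    · rw [min_eq_right h, max_eq_left h, mul_comm]
  have hprod : c ^ 2 * (Real.log ((min l p : ℕ) : ℝ) * Real.log z / Real.log T ^ 2) ≤
      RSm P1 z * RSm P2 z := by
    have hs0 : 0 ≤ Real.sqrt (Real.log z / Real.log ((max l p : ℕ) : ℝ)) := Real.sqrt_nonneg _
    have hss : Real.sqrt (Real.log z / Real.log ((max l p : ℕ) : ℝ)) *
        Real.sqrt (Real.log z / Real.log ((max l p : ℕ) : ℝ)) =
        Real.log z / Real.log ((max l p : ℕ) : ℝ) := Real.mul_self_sqrt (by positivity)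
    have hA : 0 ≤ c * (Real.log l / Real.log T) *
        Real.sqrt (Real.log z / Real.log ((max l p : ℕ) : ℝ)) := by positivity
    have hB : 0 ≤ c * (Real.log p / Real.log T) *
        Real.sqrt (Real.log z / Real.log ((max l p : ℕ) : ℝ)) := by positivity
    have hmul := mul_le_mul hR1 hR2 hB (le_trans hA hR1)
    refine le_trans (le_of_eq ?_) hmul
    have : c * (Real.log l / Real.log T) *
        Real.sqrt (Real.log z / Real.log ((max l p : ℕ) : ℝ)) *
        (c * (Real.log p / Real.log T) *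
        Real.sqrt (Real.log z / Real.log ((max l p : ℕ) : ℝ))) =
        c ^ 2 * ((Real.log l * Real.log p) / Real.log T ^ 2) *
        (Real.sqrt (Real.log z / Real.log ((max l p : ℕ) : ℝ)) *
        Real.sqrt (Real.log z / Real.log ((max l p : ℕ) : ℝ))) := by
      field_simp
    rw [this, hss, hmm]
    field_simp
  have hlow : 0 < c ^ 2 * (Real.log ((min l p : ℕ) : ℝ) * Real.log z / Real.log T ^ 2) := by
    positivity
  have hlR : (0:ℝ) < l := by exact_mod_cast hl.pos
  have hpR : (0:ℝ) < p := by exact_mod_cast hp.pos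
  refine le_trans hmain (add_le_add ?_ le_rfl)
  calc (X : ℝ) / ((l * p : ℕ) : ℝ) / (RSm P1 z * RSm P2 z)
      ≤ (X : ℝ) / ((l * p : ℕ) : ℝ) /
        (c ^ 2 * (Real.log ((min l p : ℕ) : ℝ) * Real.log z / Real.log T ^ 2)) := by
        gcongr
    _ = 1 / c ^ 2 * X * (Real.log T) ^ 2 /
        (l * p * Real.log ((min l p : ℕ) : ℝ) * Real.log z) := by
        push_cast
        field_simp

end Pool.Agent.ADG
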