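import Pool.Agent.ADG.St3

/-! (QPT) The partition into the sets T0, T1, T2, T3 (module of project ADG, part 3). -/

set_option autoImplicit false

namespace Pool.Agent.ADG

open Finset Pool.Agent.ADS

namespace QPTm

lemma not_sq (b a n q : ℕ) (h : b ^ 2 * a = n) (ha : Squarefree a) (hq : q.Prime)
    (hb : ¬ q ∣ b) : ¬ q ^ 2 ∣ n := by
  intro hd
  rw [← h] at hd
  have hc : Nat.Coprime (q ^ 2) (b ^ 2) :=
    Nat.Coprime.pow 2 2 ((Nat.Prime.coprime_iff_not_dvd hq).2 hb)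
  have h1 : q ^ 2 ∣ a := hc.dvd_of_dvd_mul_left hd
  have h2 : q * q ∣ a := by rwa [← sq]
  have := ha q h2
  exact hq.one_lt.ne' (Nat.isUnit_iff.1 this)

/-- the minimum of a nonempty set of naturals given by a predicate -/
lemma exists_min (P : ℕ → Prop) (h : ∃ q, P q) : ∃ l, P l ∧ ∀ q, P q → l ≤ q := by
  classical
  exact ⟨Nat.find h, Nat.find_spec h, fun q hq => Nat.find_min' h hq⟩

end QPTm

open QPTm in
theorem QPT_thm : Stmt_QPT := by
  classical
  intro X z L n hn2 hnX hQ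
  obtain ⟨a, c, hc, ha⟩ := Nat.sq_mul_squarefree n
  obtain ⟨b, d, hd, hb⟩ := Nat.sq_mul_squarefree (n - 1)
  have hn1 : 1 ≤ n - 1 := by omega
  have hc1 : 1 ≤ c := by
    rcases Nat.eq_zero_or_pos c with h | h
    · subst h; simp at hc; omega
    · exact h
  have hd1 : 1 ≤ d := by
    rcases Nat.eq_zero_or_pos d with h | h
    · subst h; simp at hd; omega
    · exact h
  have hcn : c ^ 2 ∣ n := ⟨a, hc.symm⟩
  have hdn : d ^ 2 ∣ n - 1 := ⟨b, hd.symm⟩
  refine ⟨c, d, hc1, hd1, hcn, hdn, ?_⟩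
  by_cases hLc : L < c
  · exact Or.inl hLc
  by_cases hLd : L < d
  · exact Or.inr (Or.inl hLd)
  refine Or.inr (Or.inr ⟨not_lt.1 hLc, not_lt.1 hLd, ?_⟩)
  have hBase : Base c d n := by
    refine ⟨hQ, hcn, hdn, ?_⟩
    intro q hq hqcd
    refine ⟨not_sq c a n q hc ha hq ?_, not_sq d b (n - 1) q hd hb hq ?_⟩
    · intro h; exact hqcd (h.mul_right d)
    · intro h; exact hqcd (h.mul_left c)
  have hmem : n ∈ Icc 2 X := mem_Icc.2 ⟨hn2, hnX⟩
  -- no common prime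
  have hcop : ∀ q : ℕ, q.Prime → q ∣ n → ¬ q ∣ n - 1 := by
    intro q hq h1 h2
    have h3 : q ∣ n - (n - 1) := Nat.dvd_sub h1 h2
    have h4 : n - (n - 1) = 1 := by omega
    rw [h4] at h3
    exact hq.one_lt.ne' (Nat.dvd_one.1 h3)
  set A : ℕ → Prop := fun q => q.Prime ∧ q ≤ z ∧ ¬ q ∣ 2 * (c * d) ∧ q ∣ n with hA
  set B : ℕ → Prop := fun q => q.Prime ∧ q ≤ z ∧ ¬ q ∣ 2 * (c * d) ∧ q ∣ n - 1 with hB
  by_cases hAe : ∃ q, A q
  swap
  · left
    refine mem_filter.2 ⟨hmem, hBase, Or.inl ?_⟩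
    intro q hq hqz hqk hqn
    exact hAe ⟨q, hq, hqz, hqk, hqn⟩
  by_cases hBe : ∃ q, B q
  swap
  · left
    refine mem_filter.2 ⟨hmem, hBase, Or.inr ?_⟩
    intro q hq hqz hqk hqn
    exact hBe ⟨q, hq, hqz, hqk, hqn⟩
  obtain ⟨l, ⟨hlp, hlz, hlk, hln⟩, hlmin⟩ := exists_min A hAe
  obtain ⟨p, ⟨hpp, hpz, hpk, hpn⟩, hpmin⟩ := exists_min B hBe
  have hok : ∀ l p : ℕ, A l → B p → OK1 z c d l p := by
    intro l p hl hp
    refine ⟨hl.1, hp.1, ?_, ?_, hl.2.1, hp.2.1, ?_, ?_, ?_⟩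
    · intro h; exact hl.2.2.1 (h ▸ Dvd.intro _ rfl)
    · intro h; exact hp.2.2.1 (h ▸ Dvd.intro _ rfl)
    · intro h; exact hcop l hl.1 hl.2.2.2 (h ▸ hp.2.2.2)
    · intro h; exact hl.2.2.1 (h.mul_left 2)
    · intro h; exact hp.2.2.1 (h.mul_left 2)
  have hAl : A l := ⟨hlp, hlz, hlk, hln⟩
  have hBp : B p := ⟨hpp, hpz, hpk, hpn⟩
  have hlnp : l ≠ p := (hok l p hAl hBp).2.2.2.2.2.2.1
  right
  rcases lt_or_gt_of_ne hlnp with hlt | hgt
  · by_cases h2 : ∃ q, A q ∧ q ≠ l ∧ q < p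
    · obtain ⟨l', ⟨hAl', hl'l, hl'p⟩, hl'min⟩ := exists_min (fun q => A q ∧ q ≠ l ∧ q < p) h2
      have hll' : l < l' := lt_of_le_of_ne (hlmin l' hAl') (Ne.symm hl'l)
      right; left
      refine ⟨l, l', p, hok l p hAl hBp, hok l' p hAl' hBp, hll', hl'p, ?_⟩
      refine mem_filter.2 ⟨hmem, hBase, hln, hAl'.2.2.2, hpn, ?_, ?_⟩
      · intro q hq hql' hqk hqn
        have hq1 : ¬ q ∣ 2 * (c * d) := fun h => hqk (h.mul_right _)
        have hq2 : q ≠ l := fun h => hqk (by rw [h]; exact ((Dvd.intro _ rfl : l ∣ l * p).mul_right l').mul_left _)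
        have hq3 : q ≠ l' := fun h => hqk (by rw [h]; exact (Dvd.intro_left _ rfl : l' ∣ l * p * l').mul_left _)
        have := hl'min q ⟨⟨hq, hql'.trans hAl'.2.1, hq1, hqn⟩, hq2, lt_of_le_of_lt hql' hl'p⟩
        exact hq3 (le_antisymm hql' this)
      · intro q hq hqp hqk hqn
        have hq1 : ¬ q ∣ 2 * (c * d) := fun h => hqk (h.mul_right _)
        have hq2 : q ≠ p := fun h => hqk (by rw [h]; exact ((Dvd.intro_left _ rfl : p ∣ l * p).mul_right l').mul_left _)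
        have := hpmin q ⟨hq, hqp.trans hpz, hq1, hqn⟩
        exact hq2 (le_antisymm hqp this)
    · left
      refine ⟨l, p, hok l p hAl hBp, ?_⟩
      refine mem_filter.2 ⟨hmem, hBase, hln, hpn, ?_⟩
      intro q hq hqm hqk
      rw [max_eq_right hlt.le] at hqm
      have hq1 : ¬ q ∣ 2 * (c * d) := fun h => hqk (h.mul_right _)
      have hq2 : q ≠ l := fun h => hqk (by rw [h]; exact ((Dvd.intro _ rfl : l ∣ l * p).mul_right l).mul_left _)
      have hq3 : q ≠ p := fun h => hqk (by rw [h]; exact ((Dvd.intro_left _ rfl : p ∣ l * p).mul_right l).mul_left _)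
      constructor
      · intro hqn
        exact h2 ⟨q, ⟨hq, hqm.trans hpz, hq1, hqn⟩, hq2, lt_of_le_of_ne hqm hq3⟩
      · intro hqn
        have := hpmin q ⟨hq, hqm.trans hpz, hq1, hqn⟩
        exact hq3 (le_antisymm hqm this)
  · by_cases h2 : ∃ q, B q ∧ q ≠ p ∧ q < l
    · obtain ⟨p', ⟨hBp', hp'p, hp'l⟩, hp'min⟩ := exists_min (fun q => B q ∧ q ≠ p ∧ q < l) h2
      have hpp' : p < p' := lt_of_le_of_ne (hpmin p' hBp') (Ne.symm hp'p)
      right; right
      refine ⟨p, p', l, hok l p hAl hBp, hok l p' hAl hBp', hpp', hp'l, ?_⟩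
      refine mem_filter.2 ⟨hmem, hBase, hln, hpn, hBp'.2.2.2, ?_, ?_⟩
      · intro q hq hql hqk hqn
        have hq1 : ¬ q ∣ 2 * (c * d) := fun h => hqk (h.mul_right _)
        have hq2 : q ≠ l := fun h => hqk (by rw [h]; exact ((Dvd.intro_left _ rfl : l ∣ p * l).mul_right p').mul_left _)
        have := hlmin q ⟨hq, hql.trans hlz, hq1, hqn⟩
        exact hq2 (le_antisymm hql this)
      · intro q hq hqp' hqk hqn
        have hq1 : ¬ q ∣ 2 * (c * d) := fun h => hqk (h.mul_right _)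
        have hq2 : q ≠ p := fun h => hqk (by rw [h]; exact ((Dvd.intro _ rfl : p ∣ p * l).mul_right p').mul_left _)
        have hq3 : q ≠ p' := fun h => hqk (by rw [h]; exact (Dvd.intro_left _ rfl : p' ∣ p * l * p').mul_left _)
        have := hp'min q ⟨⟨hq, hqp'.trans hBp'.2.1, hq1, hqn⟩, hq2, lt_of_le_of_lt hqp' hp'l⟩
        exact hq3 (le_antisymm hqp' this)
    · left
      refine ⟨l, p, hok l p hAl hBp, ?_⟩
      refine mem_filter.2 ⟨hmem, hBase, hln, hpn, ?_⟩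
      intro q hq hqm hqk
      rw [max_eq_left (le_of_lt hgt)] at hqm
      have hq1 : ¬ q ∣ 2 * (c * d) := fun h => hqk (h.mul_right _)
      have hq2 : q ≠ l := fun h => hqk (by rw [h]; exact ((Dvd.intro _ rfl : l ∣ l * p).mul_right l).mul_left _)
      have hq3 : q ≠ p := fun h => hqk (by rw [h]; exact ((Dvd.intro_left _ rfl : p ∣ l * p).mul_right l).mul_left _)
      constructor
      · intro hqn
        have := hlmin q ⟨hq, hqm.trans hlz, hq1, hqn⟩
        exact hq2 (le_antisymm hqm this)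
      · intro hqn
        exact h2 ⟨q, ⟨hq, hqm.trans hlz, hq1, hqn⟩, hq3, lt_of_le_of_ne hqm hq2⟩

end Pool.Agent.ADG
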