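import Pool.Agent.ADG.St2

/-!
# Module QRN of project ADG, part 2 (MP_43d07b_co): choice of parameters and the union bound

The proof follows the doc string of `Stmt_QRN`.
-/

set_option autoImplicit false

namespace Pool.Agent.ADG

namespace QRNm

open Finset

/-- the choice of the parameters -/
lemma params (T0 : ℕ) (X : ℕ) (L : ℝ) (hL : L = Real.log X) (hX : 1 ≤ X) (h1 : (T0 : ℝ) + 10 ^ 7 ≤ L) :
    T0 ≤ ⌊L ^ 2⌋₊ ∧ 2 ≤ ⌊L ^ 2⌋₊ ∧ ⌊L ^ 2⌋₊ < ⌊Real.exp (L / 60)⌋₊ ∧ 16 ≤ ⌊Real.exp (L / 60)⌋₊ ∧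
    1 + 4 * Real.log (⌊Real.exp (L / 60)⌋₊ : ℕ) ≤ (⌊L ^ 2⌋₊ : ℕ) ∧
    L / 120 ≤ Real.log (⌊Real.exp (L / 60)⌋₊ : ℕ) ∧
    Real.log (⌊Real.exp (L / 60)⌋₊ : ℕ) ≤ L ∧
    L ^ 2 / 2 ≤ (⌊L ^ 2⌋₊ : ℕ) ∧ ((⌊L ^ 2⌋₊ : ℕ) : ℝ) ≤ L ^ 2 ∧
    ((⌊Real.exp (L / 60)⌋₊ : ℕ) : ℝ) ^ 14 ≤ X / L := by
  have hT0 : (0 : ℝ) ≤ (T0 : ℝ) := Nat.cast_nonneg _
  have hLb : (10 : ℝ) ^ 7 ≤ L := by linarith
  have hL1 : (1 : ℝ) ≤ L := by nlinarith
  have hL0 : (0 : ℝ) < L := by linarith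
  have hXpos : (0 : ℝ) < (X : ℝ) := by exact_mod_cast hX
  have hXe : (X : ℝ) = Real.exp L := by rw [hL, Real.exp_log hXpos]
  set u : ℝ := Real.exp (L / 60) with hu
  have hsq : L ≤ L ^ 2 := by nlinarith
  -- the exponential is large
  have hexp3 : L ^ 2 + 1 + 1 ≤ u := by
    have h := Real.pow_div_factorial_le_exp (L / 60) (by positivity) 3
    have hf : ((Nat.factorial 3 : ℕ) : ℝ) = 6 := by norm_num [Nat.factorial]
    rw [hf] at h
    have h2 : L ^ 2 + 1 + 1 ≤ (L / 60) ^ 3 / 6 := by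
      have h3 : (L / 60) ^ 3 / 6 = L * L ^ 2 / 1296000 := by ring
      rw [h3, le_div_iff₀ (by norm_num)]
      have h4 : (10 : ℝ) ^ 7 * L ^ 2 ≤ L * L ^ 2 := by
        apply mul_le_mul_of_nonneg_right hLb (by positivity)
      nlinarith
    linarith
  have hu0 : 0 < u := Real.exp_pos _
  have hT1 : ((⌊L ^ 2⌋₊ : ℕ) : ℝ) ≤ L ^ 2 := Nat.floor_le (by positivity)
  have hT2 : L ^ 2 < (⌊L ^ 2⌋₊ : ℕ) + 1 := Nat.lt_floor_add_one _
  have hz1 : ((⌊u⌋₊ : ℕ) : ℝ) ≤ u := Nat.floor_le hu0.le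
  have hz2 : u < (⌊u⌋₊ : ℕ) + 1 := Nat.lt_floor_add_one _
  have hz3 : L ^ 2 + 1 < ((⌊u⌋₊ : ℕ) : ℝ) := by linarith
  have hzpos : (0 : ℝ) < ((⌊u⌋₊ : ℕ) : ℝ) := by nlinarith
  have hlogz : Real.log (⌊u⌋₊ : ℕ) ≤ L / 60 := by
    calc Real.log (⌊u⌋₊ : ℕ) ≤ Real.log u := Real.log_le_log hzpos hz1
      _ = L / 60 := by rw [hu, Real.log_exp]
  refine ⟨?_, ?_, ?_, ?_, ?_, ?_, ?_, ?_, hT1, ?_⟩
  · apply Nat.le_floor
    nlinarith
  · apply Nat.le_floor
    push_cast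
    nlinarith
  · have : ((⌊L ^ 2⌋₊ : ℕ) : ℝ) < ((⌊u⌋₊ : ℕ) : ℝ) := by linarith
    exact_mod_cast this
  · have : (16 : ℝ) ≤ ((⌊u⌋₊ : ℕ) : ℝ) := by nlinarith
    exact_mod_cast this
  · nlinarith
  · -- lower bound for log z
    have hv : Real.exp (L / 120) ≤ (⌊u⌋₊ : ℕ) := by
      have h1 : u = Real.exp (L / 120) * Real.exp (L / 120) := by
        rw [hu, ← Real.exp_add]; congr 1; ring
      have h2 : L / 120 + 1 ≤ Real.exp (L / 120) := Real.add_one_le_exp _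
      have h3 : (2 : ℝ) ≤ Real.exp (L / 120) := by nlinarith
      nlinarith
    calc L / 120 = Real.log (Real.exp (L / 120)) := by rw [Real.log_exp]
      _ ≤ Real.log (⌊u⌋₊ : ℕ) := Real.log_le_log (Real.exp_pos _) hv
  · linarith
  · nlinarith
  · -- z^14 ≤ X / L
    rw [le_div_iff₀ hL0, hXe]
    have h1 : ((⌊u⌋₊ : ℕ) : ℝ) ^ 14 ≤ u ^ 14 := pow_le_pow_left₀ hzpos.le hz1 14
    have h2 : u ^ 14 = Real.exp (14 * (L / 60)) := by
      rw [hu, ← Real.exp_nat_mul]; norm_num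
    have h3 : L ≤ Real.exp (46 * (L / 60)) := by
      have h := Real.pow_div_factorial_le_exp (46 * (L / 60)) (by positivity) 2
      have hf : ((Nat.factorial 2 : ℕ) : ℝ) = 2 := by norm_num [Nat.factorial]
      rw [hf] at h
      have h4 : L ≤ (46 * (L / 60)) ^ 2 / 2 := by
        have h5 : (46 * (L / 60)) ^ 2 / 2 = L * (L * (2116 / 7200)) := by ring
        rw [h5]
        have h6 : (1 : ℝ) ≤ L * (2116 / 7200) := by nlinarith
        nlinarith
      linarith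
    calc ((⌊u⌋₊ : ℕ) : ℝ) ^ 14 * L ≤ Real.exp (14 * (L / 60)) * Real.exp (46 * (L / 60)) := by
          rw [← h2]
          exact mul_le_mul h1 h3 hL0.le (by positivity)
      _ = Real.exp L := by rw [← Real.exp_add]; congr 1; ring

/-- the smallest prime in `(T, z]` dividing `m` -/
lemma exists_min (T z m : ℕ) (h : ∃ q : ℕ, q.Prime ∧ T < q ∧ q ≤ z ∧ q ∣ m) :
    ∃ l : ℕ, l.Prime ∧ T < l ∧ l ≤ z ∧ l ∣ m ∧ ∀ q : ℕ, q.Prime → T < q → q < l → ¬ q ∣ m := by
  classical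
  refine ⟨Nat.find h, (Nat.find_spec h).1, (Nat.find_spec h).2.1, (Nat.find_spec h).2.2.1,
    (Nat.find_spec h).2.2.2, ?_⟩
  intro q hq hT hl hd
  exact Nat.find_min h hl ⟨hq, hT, by
    have := (Nat.find_spec h).2.2.1
    omega, hd⟩

open Classical in
/-- the union bound -/
lemma main_bound {C2 C3 C4 : ℝ} (hC3 : 0 < C3)
    (h1 : Stmt_SQE)
    (h2 : ∀ X T z : ℕ, 2 ≤ T → T < z → ∀ S : Finset ℕ,
      (∀ n ∈ S, 2 ≤ n ∧ n ≤ X ∧ ((∀ q : ℕ, q.Prime → T < q → q ≤ z → ¬ q ∣ n) ∨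
        ∀ q : ℕ, q.Prime → T < q → q ≤ z → ¬ q ∣ n - 1)) →
      (S.card : ℝ) ≤ C2 * X * Real.log T / Real.log z + 2 * (z : ℝ) ^ 12)
    {T0 : ℕ}
    (h3 : ∀ X T z l p : ℕ, T0 ≤ T → 1 + 4 * Real.log z ≤ T →
      l.Prime → p.Prime → T < l → T < p → l ≤ z → p ≤ z → l ≠ p → ∀ S : Finset ℕ,
      (∀ n ∈ S, 2 ≤ n ∧ n ≤ X ∧ QRC n ∧ l ∣ n ∧ p ∣ n - 1 ∧
        (∀ q : ℕ, q.Prime → T < q → ¬ q ^ 2 ∣ n ∧ ¬ q ^ 2 ∣ n - 1) ∧
        (∀ q : ℕ, q.Prime → T < q → q < l → ¬ q ∣ n) ∧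
        ∀ q : ℕ, q.Prime → T < q → q < p → ¬ q ∣ n - 1) →
      (S.card : ℝ) ≤ C3 * X * (Real.log T) ^ 2 / (l * p * Real.log (min l p : ℕ) * Real.log z) +
        (z : ℝ) ^ 12)
    (h4 : ∀ z : ℕ, 16 ≤ z →
      ∑ l ∈ (Icc 1 z).filter Nat.Prime, ∑ p ∈ (Icc 1 z).filter Nat.Prime,
        (if l = p then (0 : ℝ) else 1 / (l * p * Real.log (min l p : ℕ))) ≤
        C4 * Real.log (Real.log z))
    (X T z : ℕ) (hT0 : T0 ≤ T) (hT2 : 2 ≤ T) (hTz : T < z) (hz : 16 ≤ z)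
    (hTl : 1 + 4 * Real.log z ≤ T) :
    (((Icc 2 X).filter (fun n => QRC n)).card : ℝ) ≤
      2 * X / T + (C2 * X * Real.log T / Real.log z + 2 * (z : ℝ) ^ 12) +
      (C3 * X * (Real.log T) ^ 2 / Real.log z * (C4 * Real.log (Real.log z)) + (z : ℝ) ^ 14) := by
  set S := (Icc 2 X).filter (fun n => QRC n) with hS
  set A := S.filter (fun n => ∃ q : ℕ, q.Prime ∧ T < q ∧ (q ^ 2 ∣ n ∨ q ^ 2 ∣ n - 1)) with hA
  set B := S.filter (fun n => (∀ q : ℕ, q.Prime → T < q → q ≤ z → ¬ q ∣ n) ∨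
        ∀ q : ℕ, q.Prime → T < q → q ≤ z → ¬ q ∣ n - 1) with hB
  set P := (Icc 1 z).filter Nat.Prime with hP
  set F : ℕ → ℕ → Finset ℕ := fun l p => S.filter (fun n => T < l ∧ T < p ∧ l ≠ p ∧
        l ∣ n ∧ p ∣ n - 1 ∧
        (∀ q : ℕ, q.Prime → T < q → ¬ q ^ 2 ∣ n ∧ ¬ q ^ 2 ∣ n - 1) ∧
        (∀ q : ℕ, q.Prime → T < q → q < l → ¬ q ∣ n) ∧
        ∀ q : ℕ, q.Prime → T < q → q < p → ¬ q ∣ n - 1) with hF
  have hSX : ∀ n ∈ S, 2 ≤ n ∧ n ≤ X ∧ QRC n := by
    intro n hn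
    rw [hS, mem_filter, mem_Icc] at hn
    exact ⟨hn.1.1, hn.1.2, hn.2⟩
  have hcov : S ⊆ (A ∪ B) ∪ P.biUnion (fun l => P.biUnion (fun p => F l p)) := by
    intro n hn
    by_cases ha : ∃ q : ℕ, q.Prime ∧ T < q ∧ (q ^ 2 ∣ n ∨ q ^ 2 ∣ n - 1)
    · exact mem_union_left _ (mem_union_left _ (mem_filter.2 ⟨hn, ha⟩))
    by_cases hb : (∀ q : ℕ, q.Prime → T < q → q ≤ z → ¬ q ∣ n) ∨
        ∀ q : ℕ, q.Prime → T < q → q ≤ z → ¬ q ∣ n - 1
    · exact mem_union_left _ (mem_union_right _ (mem_filter.2 ⟨hn, hb⟩))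
    rw [not_or] at hb
    obtain ⟨hb1, hb2⟩ := hb
    have e1 : ∃ q : ℕ, q.Prime ∧ T < q ∧ q ≤ z ∧ q ∣ n := by
      by_contra hcon
      exact hb1 (fun q hq hTq hqz hd => hcon ⟨q, hq, hTq, hqz, hd⟩)
    have e2 : ∃ q : ℕ, q.Prime ∧ T < q ∧ q ≤ z ∧ q ∣ n - 1 := by
      by_contra hcon
      exact hb2 (fun q hq hTq hqz hd => hcon ⟨q, hq, hTq, hqz, hd⟩)
    obtain ⟨l, hl, hTl', hlz, hld, hlm⟩ := exists_min T z n e1
    obtain ⟨p, hp, hTp, hpz, hpd, hpm⟩ := exists_min T z (n - 1) e2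
    have hn2 := (hSX n hn).1
    have hlp : l ≠ p := by
      rintro rfl
      have h5 : l ∣ n - (n - 1) := Nat.dvd_sub hld hpd
      have h6 : n - (n - 1) = 1 := by omega
      rw [h6] at h5
      exact hl.one_lt.ne' (Nat.dvd_one.1 h5)
    refine mem_union_right _ (mem_biUnion.2 ⟨l, ?_, mem_biUnion.2 ⟨p, ?_, ?_⟩⟩)
    · exact mem_filter.2 ⟨mem_Icc.2 ⟨hl.one_lt.le, hlz⟩, hl⟩
    · exact mem_filter.2 ⟨mem_Icc.2 ⟨hp.one_lt.le, hpz⟩, hp⟩
    · refine mem_filter.2 ⟨hn, hTl', hTp, hlp, hld, hpd, ?_, hlm, hpm⟩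
      intro q hq hTq
      constructor
      · intro hd; exact ha ⟨q, hq, hTq, Or.inl hd⟩
      · intro hd; exact ha ⟨q, hq, hTq, Or.inr hd⟩
  have hA' : (A.card : ℝ) ≤ 2 * X / T := by
    apply h1 X T (by omega) A
    intro n hn
    rw [hA, mem_filter] at hn
    exact ⟨(hSX n hn.1).1, (hSX n hn.1).2.1, hn.2⟩
  have hB' : (B.card : ℝ) ≤ C2 * X * Real.log T / Real.log z + 2 * (z : ℝ) ^ 12 := by
    apply h2 X T z hT2 hTz B
    intro n hn
    rw [hB, mem_filter] at hn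
    exact ⟨(hSX n hn.1).1, (hSX n hn.1).2.1, hn.2⟩
  have hlogz : 0 < Real.log z := Real.log_pos (by exact_mod_cast (by omega : 1 < z))
  set K : ℝ := C3 * X * (Real.log T) ^ 2 / Real.log z with hK
  have hK0 : 0 ≤ K := by positivity
  have hFc : ∀ l ∈ P, ∀ p ∈ P, ((F l p).card : ℝ) ≤
      K * (if l = p then (0 : ℝ) else 1 / (l * p * Real.log (min l p : ℕ))) + (z : ℝ) ^ 12 := by
    intro l hl p hp
    rw [hP, mem_filter, mem_Icc] at hl hp
    by_cases hc : T < l ∧ T < p ∧ l ≠ p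
    · obtain ⟨c1, c2, c3⟩ := hc
      have := h3 X T z l p hT0 hTl hl.2 hp.2 c1 c2 hl.1.2 hp.1.2 c3 (F l p) (by
        intro n hn
        rw [hF, mem_filter] at hn
        obtain ⟨hn1, -, -, -, d1, d2, d3, d4, d5⟩ := hn
        exact ⟨(hSX n hn1).1, (hSX n hn1).2.1, (hSX n hn1).2.2, d1, d2, d3, d4, d5⟩)
      rw [if_neg c3]
      refine this.trans (le_of_eq ?_)
      rw [hK]
      have hmin : (0 : ℝ) < Real.log (min l p : ℕ) := by
        apply Real.log_pos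
        have : 1 < min l p := lt_min hl.2.one_lt hp.2.one_lt
        exact_mod_cast this
      have hl0 : (0 : ℝ) < l := by exact_mod_cast hl.2.pos
      have hp0 : (0 : ℝ) < p := by exact_mod_cast hp.2.pos
      field_simp
    · have hempty : F l p = ∅ := by
        rw [hF]
        apply filter_eq_empty_iff.2
        rintro n - ⟨c1, c2, c3, -⟩
        exact hc ⟨c1, c2, c3⟩
      rw [hempty, card_empty, Nat.cast_zero]
      apply add_nonneg _ (by positivity)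
      apply mul_nonneg hK0
      split_ifs
      · exact le_refl _
      · have hmin : (0 : ℝ) < Real.log (min l p : ℕ) := by
          apply Real.log_pos
          have : 1 < min l p := lt_min hl.2.one_lt hp.2.one_lt
          exact_mod_cast this
        positivity
  have hPc : (P.card : ℝ) ≤ z := by
    have : P.card ≤ z := by
      calc P.card ≤ (Icc 1 z).card := card_filter_le _ _
        _ = z := by rw [Nat.card_Icc]; omega
    exact_mod_cast this
  have hU : ((P.biUnion (fun l => P.biUnion (fun p => F l p))).card : ℝ) ≤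
      K * (C4 * Real.log (Real.log z)) + (z : ℝ) ^ 14 := by
    have s1 : ((P.biUnion (fun l => P.biUnion (fun p => F l p))).card : ℝ) ≤
        ∑ l ∈ P, ∑ p ∈ P, ((F l p).card : ℝ) := by
      have t1 : (P.biUnion (fun l => P.biUnion (fun p => F l p))).card ≤
          ∑ l ∈ P, ∑ p ∈ P, (F l p).card := by
        refine card_biUnion_le.trans (sum_le_sum fun l _ => card_biUnion_le)
      exact_mod_cast t1
    refine s1.trans ?_
    calc ∑ l ∈ P, ∑ p ∈ P, ((F l p).card : ℝ)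
        ≤ ∑ l ∈ P, ∑ p ∈ P, (K * (if l = p then (0 : ℝ) else 1 / (l * p * Real.log (min l p : ℕ)))
            + (z : ℝ) ^ 12) := sum_le_sum fun l hl => sum_le_sum fun p hp => hFc l hl p hp
      _ = K * (∑ l ∈ P, ∑ p ∈ P, (if l = p then (0 : ℝ) else 1 / (l * p * Real.log (min l p : ℕ))))
            + (P.card : ℝ) * ((P.card : ℝ) * (z : ℝ) ^ 12) := by
          simp only [sum_add_distrib, sum_const, nsmul_eq_mul, mul_sum]
      _ ≤ K * (C4 * Real.log (Real.log z)) + (z : ℝ) ^ 14 := by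
          apply add_le_add
          · exact mul_le_mul_of_nonneg_left (h4 z hz) hK0
          · have hz0 : (0 : ℝ) ≤ z := Nat.cast_nonneg _
            calc (P.card : ℝ) * ((P.card : ℝ) * (z : ℝ) ^ 12) ≤ z * (z * (z : ℝ) ^ 12) := by
                  apply mul_le_mul hPc _ (by positivity) hz0
                  exact mul_le_mul_of_nonneg_right hPc (by positivity)
              _ = (z : ℝ) ^ 14 := by ring
  have hcard : (S.card : ℝ) ≤ (A.card : ℝ) + B.card +
      (P.biUnion (fun l => P.biUnion (fun p => F l p))).card := by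
    have t : S.card ≤ A.card + B.card + (P.biUnion (fun l => P.biUnion (fun p => F l p))).card := by
      calc S.card ≤ ((A ∪ B) ∪ P.biUnion (fun l => P.biUnion (fun p => F l p))).card :=
            card_le_card hcov
        _ ≤ (A ∪ B).card + (P.biUnion (fun l => P.biUnion (fun p => F l p))).card :=
            card_union_le _ _
        _ ≤ _ := by
            have := card_union_le A B
            omega
    exact_mod_cast t
  linarith

end QRNm

open Finset QRNm in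
/-- (QRN) -/
theorem QRN_thm (h1 : Stmt_SQE) (h2 : Stmt_RGH) (h3 : Stmt_PAI) (h4 : Stmt_PSM) : Stmt_QRN := by
  classical
  obtain ⟨C2, hC2, h2⟩ := h2
  obtain ⟨C3, T0, hC3, h3⟩ := h3
  obtain ⟨C4, hC4, h4⟩ := h4
  set L0 : ℝ := (T0 : ℝ) + 10 ^ 7 with hL0
  have hL0pos : 0 < L0 := by positivity
  set C : ℝ := L0 + (4 + 240 * C2 + 3 + 480 * C3 * C4) with hC
  refine ⟨C, by positivity, ?_⟩
  intro X hX
  have hX1 : (1 : ℝ) < (X : ℝ) := by exact_mod_cast (by omega : 1 < X)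
  have hXpos : (0 : ℝ) < (X : ℝ) := by linarith
  set L : ℝ := Real.log X with hL
  have hLpos : 0 < L := Real.log_pos hX1
  -- log log X ≥ 1
  have hL16 : Real.log 16 ≤ L := Real.log_le_log (by norm_num) (by exact_mod_cast hX)
  have hlog16 : Real.exp 1 ≤ Real.log 16 := by
    have e1 : Real.log 16 = 4 * Real.log 2 := by
      rw [show (16 : ℝ) = 2 ^ 4 by norm_num, Real.log_pow]; norm_num
    have e2 := Real.log_two_gt_d9
    have e3 := Real.exp_one_lt_d9
    linarith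
  set LL : ℝ := Real.log L with hLL
  have hLL1 : 1 ≤ LL := by
    rw [hLL, Real.le_log_iff_exp_le hLpos]
    linarith
  have hLL3 : 1 ≤ LL ^ 3 := one_le_pow₀ hLL1
  have hXL : 0 < (X : ℝ) / L := by positivity
  have hgoal : C * X * LL ^ 3 / L = C * (X / L) * LL ^ 3 := by ring
  by_cases hcase : L0 ≤ L
  · obtain ⟨p1, p2, p3, p4, p5, p6, p7, p8, p9, p10⟩ := params T0 X L hL (by omega) hcase
    set T := ⌊L ^ 2⌋₊ with hT
    set z := ⌊Real.exp (L / 60)⌋₊ with hz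
    have hmain := main_bound (C2 := C2) hC3 h1 h2 h3 h4 X T z p1 p2 p3 p4 p5
    have hTpos : (0 : ℝ) < T := by exact_mod_cast (by omega : 0 < T)
    have hz16 : (16 : ℝ) ≤ (z : ℝ) := by exact_mod_cast p4
    have hL1 : 1 ≤ L := by nlinarith [Real.add_one_le_exp (1 : ℝ)]
    -- first term
    have t1 : 2 * (X : ℝ) / T ≤ 4 * (X / L) := by
      rw [div_le_iff₀ hTpos]
      have : 4 * ((X : ℝ) / L) * T ≥ 4 * (X / L) * (L ^ 2 / 2) :=
        mul_le_mul_of_nonneg_left p8 (by positivity)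
      have e : 4 * ((X : ℝ) / L) * (L ^ 2 / 2) = 2 * X * L := by field_simp; ring
      nlinarith
    -- logs
    have hlogT : Real.log T ≤ 2 * LL := by
      calc Real.log T ≤ Real.log (L ^ 2) := Real.log_le_log hTpos p9
        _ = 2 * LL := by rw [Real.log_pow, hLL]; norm_num
    have hlogT0 : 0 ≤ Real.log T := Real.log_nonneg (by exact_mod_cast (by omega : 1 ≤ T))
    have hlogz : 0 < Real.log z := by
      have : 0 < L / 120 := by positivity
      linarith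
    have hinv : 1 / Real.log z ≤ 120 / L := by
      rw [div_le_div_iff₀ hlogz hLpos]
      linarith
    have hllz : Real.log (Real.log z) ≤ LL := Real.log_le_log hlogz p7
    have hllz0 : 0 ≤ Real.log (Real.log z) := by
      apply Real.log_nonneg
      have : Real.log 16 ≤ Real.log z := Real.log_le_log (by norm_num) hz16
      have e3 : (1 : ℝ) + 1 ≤ Real.exp 1 := Real.add_one_le_exp 1
      linarith
    -- second term
    have t2 : C2 * X * Real.log T / Real.log z ≤ 240 * C2 * (X / L) * LL := by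
      calc C2 * X * Real.log T / Real.log z = C2 * X * Real.log T * (1 / Real.log z) := by ring
        _ ≤ C2 * X * (2 * LL) * (120 / L) := by
            apply mul_le_mul _ hinv (by positivity) (by positivity)
            exact mul_le_mul_of_nonneg_left hlogT (by positivity)
        _ = 240 * C2 * (X / L) * LL := by ring
    -- powers of z
    have t3 : 2 * (z : ℝ) ^ 12 ≤ 2 * (X / L) := by
      have : (z : ℝ) ^ 12 ≤ (z : ℝ) ^ 14 := pow_le_pow_right₀ (by linarith) (by norm_num)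
      linarith
    -- main term
    have t4 : C3 * X * (Real.log T) ^ 2 / Real.log z * (C4 * Real.log (Real.log z)) ≤
        480 * C3 * C4 * (X / L) * LL ^ 3 := by
      have hsq : (Real.log T) ^ 2 ≤ (2 * LL) ^ 2 := pow_le_pow_left₀ hlogT0 hlogT 2
      calc C3 * X * (Real.log T) ^ 2 / Real.log z * (C4 * Real.log (Real.log z))
          = (C3 * X * (Real.log T) ^ 2) * (1 / Real.log z) * (C4 * Real.log (Real.log z)) := by ring
        _ ≤ (C3 * X * (2 * LL) ^ 2) * (120 / L) * (C4 * LL) := by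
            apply mul_le_mul _ _ (by positivity) (by positivity)
            · apply mul_le_mul _ hinv (by positivity) (by positivity)
              exact mul_le_mul_of_nonneg_left hsq (by positivity)
            · exact mul_le_mul_of_nonneg_left hllz hC4.le
        _ = 480 * C3 * C4 * (X / L) * LL ^ 3 := by ring
    have hLLle : LL ≤ LL ^ 3 := by
      calc LL = LL ^ 1 := (pow_one _).symm
        _ ≤ LL ^ 3 := pow_le_pow_right₀ hLL1 (by norm_num)
    have hsum : (((Icc 2 X).filter (fun n => QRC n)).card : ℝ) ≤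
        (4 + 240 * C2 + 3 + 480 * C3 * C4) * (X / L) * LL ^ 3 := by
      have a1 : 4 * ((X : ℝ) / L) ≤ 4 * (X / L) * LL ^ 3 := by
        have : 0 ≤ 4 * ((X : ℝ) / L) := by positivity
        nlinarith
      have a2 : 240 * C2 * ((X : ℝ) / L) * LL ≤ 240 * C2 * (X / L) * LL ^ 3 :=
        mul_le_mul_of_nonneg_left hLLle (by positivity)
      have a3 : 3 * ((X : ℝ) / L) ≤ 3 * (X / L) * LL ^ 3 := by
        have : 0 ≤ 3 * ((X : ℝ) / L) := by positivity
        nlinarith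
      calc (((Icc 2 X).filter (fun n => QRC n)).card : ℝ) ≤ _ := hmain
        _ ≤ 4 * (X / L) * LL ^ 3 + 240 * C2 * (X / L) * LL ^ 3 + 3 * (X / L) * LL ^ 3 +
            480 * C3 * C4 * (X / L) * LL ^ 3 := by linarith
        _ = _ := by ring
    rw [hgoal]
    refine hsum.trans ?_
    have : (4 + 240 * C2 + 3 + 480 * C3 * C4) * ((X : ℝ) / L) * LL ^ 3 ≤
        C * (X / L) * LL ^ 3 := by
      apply mul_le_mul_of_nonneg_right _ (by positivity)
      apply mul_le_mul_of_nonneg_right _ hXL.le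
      rw [hC]; linarith
    exact this
  · rw [not_le] at hcase
    have hc : (((Icc 2 X).filter (fun n => QRC n)).card : ℝ) ≤ X := by
      have : ((Icc 2 X).filter (fun n => QRC n)).card ≤ X := by
        calc ((Icc 2 X).filter (fun n => QRC n)).card ≤ (Icc 2 X).card := card_filter_le _ _
          _ ≤ X := by rw [Nat.card_Icc]; omega
      exact_mod_cast this
    rw [hgoal]
    refine hc.trans ?_
    have e1 : (X : ℝ) = L * (X / L) * 1 := by field_simp
    calc (X : ℝ) = L * (X / L) * 1 := e1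
      _ ≤ C * (X / L) * LL ^ 3 := by
          apply mul_le_mul _ hLL3 (by norm_num) (by positivity)
          apply mul_le_mul_of_nonneg_right _ hXL.le
          have : 0 ≤ 4 + 240 * C2 + 3 + 480 * C3 * C4 := by positivity
          rw [hC]; linarith

end Pool.Agent.ADG
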