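import Pool.Agent.ADG.St2
import Pool.Agent.ADS.EV1

/-!
# Project ADG, part 2, module RCX: the two real characters
-/

set_option autoImplicit false

namespace Pool.Agent.ADG

open Finset Pool.Agent.ADS

namespace RCXm

open EV1m

/-- a block of `k m` consecutive integers -/
lemma block_mul {f : ℕ → ℝ} {m : ℕ} (h : ∀ a : ℕ, ∑ i ∈ range m, f (a + i) = 0) (k a : ℕ) :
    ∑ i ∈ range (k * m), f (a + i) = 0 := by
  induction k with
  | zero => simp
  | succ k ih =>
    rw [Nat.succ_mul, Finset.sum_range_add, ih, zero_add]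
    have h1 := h (a + k * m)
    simp_rw [add_assoc] at h1
    exact h1

lemma ch_val (w : ℕ) [Fact w.Prime] (n : ℕ) : ch w n = 0 ∨ ch w n = 1 ∨ ch w n = -1 := by
  unfold ch
  by_cases h : (n : ZMod w) = 0
  · left
    rw [h]
    simp
  · right
    rcases quadraticChar_dichotomy h with h1 | h1 <;> rw [h1] <;> simp

lemma rc_ch (w : ℕ) [hw : Fact w.Prime] (h2 : w ≠ 2) : RC (4 * w) (ch w) where
  pos := by
    have := hw.out.pos
    omega
  one := ch_one w
  mul := ch_mul w
  val := ch_val w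
  block := fun a => block_mul (block_sum w h2) 4 a

lemma cast_ne_zero {w q : ℕ} [hw : Fact w.Prime] (hq : q.Prime) (h : q ≠ w) :
    (q : ZMod w) ≠ 0 := by
  intro h0
  rw [ZMod.natCast_eq_zero_iff] at h0
  exact h ((Nat.prime_dvd_prime_iff_eq hw.out hq).1 h0).symm

lemma sq_iff {w q : ℕ} [hw : Fact w.Prime] (hq : q.Prime) (h : q ≠ w) :
    IsSquare ((q : ℕ) : ZMod w) ↔ ch w q = 1 := by
  unfold ch
  rw [← quadraticChar_one_iff_isSquare (cast_ne_zero hq h)]
  exact_mod_cast Iff.rfl

lemma not_sq_iff {w q : ℕ} [hw : Fact w.Prime] (hq : q.Prime) (h : q ≠ w) :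
    ¬ IsSquare ((q : ℕ) : ZMod w) ↔ ch w q = -1 := by
  rw [sq_iff hq h]
  have h0 : ch w q ≠ 0 := by
    unfold ch
    rcases quadraticChar_dichotomy (cast_ne_zero (w := w) hq h) with h1 | h1 <;> rw [h1] <;> simp
  rcases ch_val w q with h1 | h1 | h1
  · exact absurd h1 h0
  · rw [h1]
    norm_num
  · rw [h1]
    norm_num

/-- the character modulo `4` -/
noncomputable def c4 (n : ℕ) : ℝ := ((ZMod.χ₄ (n : ZMod 4) : ℤ) : ℝ)

lemma c4_mul (m n : ℕ) : c4 (m * n) = c4 m * c4 n := by
  unfold c4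
  push_cast
  rw [map_mul]
  push_cast
  rfl

lemma c4_val (n : ℕ) : c4 n = 0 ∨ c4 n = 1 ∨ c4 n = -1 := by
  unfold c4
  have h : ∀ x : ZMod 4, ZMod.χ₄ x = 0 ∨ ZMod.χ₄ x = 1 ∨ ZMod.χ₄ x = -1 := by decide
  rcases h (n : ZMod 4) with h1 | h1 | h1 <;> rw [h1] <;> simp

lemma c4_add (n : ℕ) : c4 (n + 2) = -c4 n := by
  unfold c4
  have h : ∀ x : ZMod 4, ZMod.χ₄ (x + 2) = -ZMod.χ₄ x := by decide
  have h1 := h (n : ZMod 4)
  push_cast
  rw [h1]
  push_cast
  rfl

lemma c4_add_mul (n k : ℕ) : c4 (n + 4 * k) = c4 n := by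
  unfold c4
  have h : ((n + 4 * k : ℕ) : ZMod 4) = (n : ZMod 4) := by
    push_cast
    have : (4 : ZMod 4) = 0 := by decide
    rw [this, zero_mul, add_zero]
  rw [h]

/-- the character for `l = 3` modulo `4` -/
noncomputable def ps (l n : ℕ) [Fact l.Prime] : ℝ := c4 n * ch l n

lemma ps_add (l n : ℕ) [Fact l.Prime] (hl : l % 4 = 3) : ps l (n + 2 * l) = -ps l n := by
  unfold ps
  have h1 : c4 (n + 2 * l) = -c4 n := by
    obtain ⟨k, hk⟩ : ∃ k, l = 4 * k + 3 := ⟨l / 4, by omega⟩
    have h2 : n + 2 * l = (n + 2) + 4 * (2 * k + 1) := by omega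
    rw [h2, c4_add_mul, c4_add]
  have h3 : ch l (n + 2 * l) = ch l n := by
    unfold ch
    have : ((n + 2 * l : ℕ) : ZMod l) = (n : ZMod l) := by
      push_cast
      rw [ZMod.natCast_self, mul_zero, add_zero]
    rw [this]
  rw [h1, h3]
  ring

lemma rc_ps (l : ℕ) [hl0 : Fact l.Prime] (hl : l % 4 = 3) : RC (4 * l) (fun n => ps l n) where
  pos := by
    have := hl0.out.pos
    omega
  one := by
    unfold ps
    rw [ch_one, mul_one]
    unfold c4
    simp
  mul := fun a b => by
    unfold ps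
    rw [c4_mul, ch_mul]
    ring
  val := fun a => by
    unfold ps
    rcases c4_val a with h1 | h1 | h1 <;> rcases ch_val l a with h2 | h2 | h2 <;>
      rw [h1, h2] <;> norm_num
  block := fun a => by
    have h4 : 4 * l = 2 * l + 2 * l := by ring
    rw [h4, Finset.sum_range_add, ← Finset.sum_add_distrib]
    refine Finset.sum_eq_zero fun i _ => ?_
    have h5 : a + (2 * l + i) = (a + i) + 2 * l := by ring
    rw [h5, ps_add l _ hl]
    ring

lemma c4_one {q : ℕ} (h : q % 4 = 1) : c4 q = 1 := by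
  unfold c4
  rw [ZMod.χ₄_nat_one_mod_four h]
  simp

lemma c4_three {q : ℕ} (h : q % 4 = 3) : c4 q = -1 := by
  unfold c4
  rw [ZMod.χ₄_nat_three_mod_four h]
  simp

end RCXm

open RCXm EV1m in
theorem RCX_thm : Stmt_RCX := by
  constructor
  · intro p hp hp2
    have : Fact p.Prime := ⟨hp⟩
    exact ⟨ch p, rc_ch p hp2, fun q hq hqp => sq_iff hq hqp⟩
  · intro l hl hl2
    have : Fact l.Prime := ⟨hl⟩
    have hodd : l % 4 = 1 ∨ l % 4 = 3 := by
      have h1 := hl.eq_two_or_odd
      omega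
    rcases hodd with h1 | h3
    · refine ⟨ch l, rc_ch l hl2, fun q hq hq2 hql => ?_⟩
      have : Fact q.Prime := ⟨hq⟩
      rw [← ZMod.exists_sq_eq_prime_iff_of_mod_four_eq_one h1 hq2]
      exact sq_iff hq hql
    · refine ⟨fun n => ps l n, rc_ps l h3, fun q hq hq2 hql => ?_⟩
      have : Fact q.Prime := ⟨hq⟩
      have hodq : q % 4 = 1 ∨ q % 4 = 3 := by
        have h1 := hq.eq_two_or_odd
        omega
      rcases hodq with hq1 | hq3
      · have h5 : ps l q = ch l q := by
          unfold ps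
          rw [c4_one hq1, one_mul]
        show _ ↔ ps l q = 1
        rw [h5, ZMod.exists_sq_eq_prime_iff_of_mod_four_eq_one hq1 hl2]
        exact sq_iff hq hql
      · have h5 : ps l q = -ch l q := by
          unfold ps
          rw [c4_three hq3]
          ring
        show _ ↔ ps l q = 1
        rw [h5, ZMod.exists_sq_eq_prime_iff_of_mod_four_eq_three hq3 h3 hql, not_sq_iff hq hql]
        constructor
        · intro h
          rw [h]
          norm_num
        · intro h
          linarith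

end Pool.Agent.ADG
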