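import Pool.Agent.ADG.St2

/-!
# Project ADG, part 2, module RGH: `n` or `n - 1` without a prime factor in `(T, z]`
-/

set_option autoImplicit false

namespace Pool.Agent.ADG

open Finset Pool.Agent.ADS

theorem RGH_thm (h1 : Stmt_S2V) (h2 : Stmt_RSU) : Stmt_RGH := by
  classical
  obtain ⟨-, -, hone, hlog, -, C, hC, hsm, -⟩ := h2
  refine ⟨2 * C, by positivity, ?_⟩
  intro X T z hT hTz S hS
  have hz1 : 1 ≤ z := by omega
  set P : Finset ℕ := (Icc 1 z).filter (fun q => q.Prime ∧ T < q) with hP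
  have hPm : ∀ q, q ∈ P ↔ (1 ≤ q ∧ q ≤ z) ∧ q.Prime ∧ T < q := by
    intro q
    rw [hP, mem_filter, mem_Icc]
  have hPc : ∀ q ∈ P, q.Prime ∧ q ≠ 2 ∧ ¬ q ∣ 1 := by
    intro q hq
    obtain ⟨-, hq1, hq2⟩ := (hPm q).1 hq
    exact ⟨hq1, by omega, fun h => hq1.one_lt.ne' (Nat.dvd_one.1 h)⟩
  have hlz : 0 < Real.log z := Real.log_pos (by exact_mod_cast (by omega : 1 < z))
  have hlT : 0 < Real.log T := Real.log_pos (by exact_mod_cast (by omega : 1 < T))
  have hP1 := hone P z hz1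
  have hE1 := hone ∅ z hz1
  have hlow : Real.log z ≤ RSm P z * (C * Real.log T) := by
    refine (hlog P ((Icc 1 T).filter Nat.Prime) z hz1 ?_).trans
      (mul_le_mul_of_nonneg_left (hsm T z hT) (by linarith))
    intro q hq hqz
    rw [mem_union]
    by_cases h : T < q
    · exact Or.inl ((hPm q).2 ⟨⟨hq.one_le, hqz⟩, hq, h⟩)
    · exact Or.inr (mem_filter.2 ⟨mem_Icc.2 ⟨hq.one_le, by omega⟩, hq⟩)
  have hmain : ∀ r : ℝ, RSm P z ≤ r → (X : ℝ) / ((1 : ℕ) : ℝ) / r ≤ C * X * Real.log T / Real.log z := by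
    intro r hr
    have hr0 : 0 < r := by linarith
    rw [Nat.cast_one, div_one, div_le_div_iff₀ hr0 hlz]
    have h3 : Real.log z ≤ r * (C * Real.log T) :=
      hlow.trans (mul_le_mul_of_nonneg_right hr (by positivity))
    have h4 := mul_le_mul_of_nonneg_left h3 (Nat.cast_nonneg (α := ℝ) X)
    linarith
  have hA := h1 X z 1 0 P ∅ hz1 one_pos (by
    intro q hq
    rw [union_empty] at hq
    exact hPc q hq) (S.filter fun n => ∀ q : ℕ, q.Prime → T < q → q ≤ z → ¬ q ∣ n) (by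
    intro x hx
    obtain ⟨hx1, hx2⟩ := mem_filter.1 hx
    obtain ⟨h3, h4, -⟩ := hS x hx1
    refine ⟨by omega, h4, Nat.modEq_one, ?_, ?_⟩
    · intro q hq
      obtain ⟨⟨-, h5⟩, h6, h7⟩ := (hPm q).1 hq
      exact hx2 q h6 h7 h5
    · intro q hq
      exact absurd hq (notMem_empty q))
  have hB := h1 X z 1 0 ∅ P hz1 one_pos (by
    intro q hq
    rw [empty_union] at hq
    exact hPc q hq) (S.filter fun n => ∀ q : ℕ, q.Prime → T < q → q ≤ z → ¬ q ∣ n - 1) (by
    intro x hx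
    obtain ⟨hx1, hx2⟩ := mem_filter.1 hx
    obtain ⟨h3, h4, -⟩ := hS x hx1
    refine ⟨by omega, h4, Nat.modEq_one, ?_, ?_⟩
    · intro q hq
      exact absurd hq (notMem_empty q)
    · intro q hq
      obtain ⟨⟨-, h5⟩, h6, h7⟩ := (hPm q).1 hq
      exact hx2 q h6 h7 h5)
  have hA' := hmain (RSm P z * RSm ∅ z) (le_mul_of_one_le_right (by linarith) hE1)
  have hB' := hmain (RSm ∅ z * RSm P z) (le_mul_of_one_le_left (by linarith) hE1)
  have hcard : (S.card : ℝ) ≤
      ((S.filter fun n => ∀ q : ℕ, q.Prime → T < q → q ≤ z → ¬ q ∣ n).card : ℝ) +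
      ((S.filter fun n => ∀ q : ℕ, q.Prime → T < q → q ≤ z → ¬ q ∣ n - 1).card : ℝ) := by
    have h3 : S ⊆ (S.filter fun n => ∀ q : ℕ, q.Prime → T < q → q ≤ z → ¬ q ∣ n) ∪
        (S.filter fun n => ∀ q : ℕ, q.Prime → T < q → q ≤ z → ¬ q ∣ n - 1) := by
      intro n hn
      rw [mem_union, mem_filter, mem_filter]
      rcases (hS n hn).2.2 with h | h
      · exact Or.inl ⟨hn, h⟩
      · exact Or.inr ⟨hn, h⟩
    exact_mod_cast (card_le_card h3).trans (card_union_le _ _)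
  have h5 : 2 * C * X * Real.log T / Real.log z = C * X * Real.log T / Real.log z +
      C * X * Real.log T / Real.log z := by ring
  rw [h5]
  linarith

end Pool.Agent.ADG
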