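import Pool.Agent.ADG.St7

/-!
# RHO: properties of the quartic symbol of `2` on the Gaussian integers
-/

set_option autoImplicit false

namespace Pool.Agent.ADG

open Finset Pool.Agent.ADS

namespace RHO

theorem I4 : Complex.I ^ (4 : ℤ) = 1 := by
  have h := Complex.I_pow_four
  exact_mod_cast h

theorem zpI {n m : ℤ} (h : (4 : ℤ) ∣ n - m) : Complex.I ^ n = Complex.I ^ m := by
  obtain ⟨k, hk⟩ := h
  have h1 : n = m + 4 * k := by linarith
  rw [h1, zpow_add₀ Complex.I_ne_zero, zpow_mul, I4, one_zpow, mul_one]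

theorem nI (n : ℤ) : ‖Complex.I ^ n‖ = 1 := by
  rw [norm_zpow, Complex.norm_I, one_zpow]

theorem sI (n : ℤ) : star (Complex.I ^ n) = Complex.I ^ (-n) := by
  have h1 : star (Complex.I ^ n) = (star Complex.I) ^ n := by
    change (starRingEnd ℂ) (Complex.I ^ n) = ((starRingEnd ℂ) Complex.I) ^ n
    exact map_zpow₀ (starRingEnd ℂ) _ _
  have h2 : star Complex.I = Complex.I⁻¹ := by
    change (starRingEnd ℂ) Complex.I = _
    rw [Complex.conj_I, Complex.inv_I]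
  rw [h1, h2, inv_zpow, zpow_neg]

theorem oe (a b' : ℤ) (ha : a % 2 = 1) : rho ⟨a, 2 * b'⟩ = Complex.I ^ (a * b') := by
  have h1 : a * (2 * b') / 2 = a * b' := by
    rw [show a * (2 * b') = (a * b') * 2 by ring]
    exact Int.mul_ediv_cancel _ two_ne_zero
  unfold rho
  rw [if_pos ⟨ha, by simp⟩]
  simp only [h1]

theorem eo (a' b : ℤ) (hb : b % 2 = 1) : rho ⟨2 * a', b⟩ = Complex.I ^ (-(a' * b)) := by
  have h1 : 2 * a' * b / 2 = a' * b := by
    rw [show 2 * a' * b = (a' * b) * 2 by ring]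
    exact Int.mul_ediv_cancel _ two_ne_zero
  unfold rho
  have h2 : ¬ ((2 * a') % 2 = 1 ∧ b % 2 = 0) := by omega
  rw [if_neg h2, if_pos ⟨by simp, hb⟩]
  simp only [h1]

theorem same (a b : ℤ) (h : a % 2 = b % 2) : rho ⟨a, b⟩ = 0 := by
  unfold rho
  have h1 : ¬ (a % 2 = 1 ∧ b % 2 = 0) := by omega
  have h2 : ¬ (a % 2 = 0 ∧ b % 2 = 1) := by omega
  rw [if_neg h1, if_neg h2]

/-- the three cases -/
theorem cases (a b : ℤ) : (∃ b', a % 2 = 1 ∧ b = 2 * b') ∨ (∃ a', b % 2 = 1 ∧ a = 2 * a') ∨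
    a % 2 = b % 2 := by
  rcases Int.emod_two_eq_zero_or_one a with h1 | h1 <;>
    rcases Int.emod_two_eq_zero_or_one b with h2 | h2
  · right; right; omega
  · right; left
    exact ⟨a / 2, h2, by omega⟩
  · left
    exact ⟨b / 2, h1, by omega⟩
  · right; right; omega

theorem mul (z w : GaussianInt) : rho (z * w) = rho z * rho w := by
  obtain ⟨a, b⟩ := z
  obtain ⟨c, d⟩ := w
  have hm : (⟨a, b⟩ : GaussianInt) * ⟨c, d⟩ = ⟨a * c - b * d, a * d + b * c⟩ := by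
    apply Zsqrtd.ext
    · simp only [Zsqrtd.re_mul]
      ring
    · simp only [Zsqrtd.im_mul]
  rw [hm]
  rcases cases a b with ⟨b', ha, rfl⟩ | ⟨a', hb, rfl⟩ | h
  · rcases cases c d with ⟨d', hc, rfl⟩ | ⟨c', hd, rfl⟩ | h'
    · have e1 : (⟨a * c - 2 * b' * (2 * d'), a * (2 * d') + 2 * b' * c⟩ : GaussianInt) =
          ⟨a * c - 4 * (b' * d'), 2 * (a * d' + b' * c)⟩ := by
        congr 1 <;> ring
      have e2 : (a * c - 4 * (b' * d')) % 2 = 1 := by
        have h3 : (a * c) % 2 = 1 := by rw [Int.mul_emod, ha, hc]; rfl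
        omega
      rw [e1, oe _ _ e2, oe _ _ ha, oe _ _ hc, ← zpow_add₀ Complex.I_ne_zero]
      obtain ⟨a₁, h3⟩ : ∃ a₁, a = 2 * a₁ + 1 := ⟨a / 2, by omega⟩
      obtain ⟨c₁, h4⟩ : ∃ c₁, c = 2 * c₁ + 1 := ⟨c / 2, by omega⟩
      refine zpI ⟨a₁ * (a₁ + 1) * c * d' + c₁ * (c₁ + 1) * a * b' -
        b' * d' * (a * d' + b' * c), ?_⟩
      rw [h3, h4]
      ring
    · have e1 : (⟨a * (2 * c') - 2 * b' * d, a * d + 2 * b' * (2 * c')⟩ : GaussianInt) =
          ⟨2 * (a * c' - b' * d), a * d + 4 * (b' * c')⟩ := by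
        congr 1 <;> ring
      have e2 : (a * d + 4 * (b' * c')) % 2 = 1 := by
        have h3 : (a * d) % 2 = 1 := by rw [Int.mul_emod, ha, hd]; rfl
        omega
      rw [e1, eo _ _ e2, oe _ _ ha, eo _ _ hd, ← zpow_add₀ Complex.I_ne_zero]
      obtain ⟨a₁, h3⟩ : ∃ a₁, a = 2 * a₁ + 1 := ⟨a / 2, by omega⟩
      obtain ⟨c₁, h4⟩ : ∃ c₁, d = 2 * c₁ + 1 := ⟨d / 2, by omega⟩
      refine zpI ⟨-(a₁ * (a₁ + 1) * c' * d) + c₁ * (c₁ + 1) * a * b' -
        b' * c' * (a * c' - b' * d), ?_⟩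
      rw [h3, h4]
      ring
    · rw [same c d h', mul_zero]
      refine same _ _ ?_
      have h3 : a * c - 2 * b' * d - (a * d + 2 * b' * c) =
          a * (c - d) - 2 * (b' * d + b' * c) := by ring
      obtain ⟨e, he⟩ : ∃ e, c - d = 2 * e := ⟨(c - d) / 2, by omega⟩
      rw [he] at h3
      have h4 : a * c - 2 * b' * d - (a * d + 2 * b' * c) =
          2 * (a * e - (b' * d + b' * c)) := by rw [h3]; ring
      generalize a * c - 2 * b' * d = u at h4 ⊢
      generalize a * d + 2 * b' * c = v at h4 ⊢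
      omega
  · rcases cases c d with ⟨d', hc, rfl⟩ | ⟨c', hd, rfl⟩ | h'
    · have e1 : (⟨2 * a' * c - b * (2 * d'), 2 * a' * (2 * d') + b * c⟩ : GaussianInt) =
          ⟨2 * (a' * c - b * d'), b * c + 4 * (a' * d')⟩ := by
        congr 1 <;> ring
      have e2 : (b * c + 4 * (a' * d')) % 2 = 1 := by
        have h3 : (b * c) % 2 = 1 := by rw [Int.mul_emod, hb, hc]; rfl
        omega
      rw [e1, eo _ _ e2, eo _ _ hb, oe _ _ hc, ← zpow_add₀ Complex.I_ne_zero]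
      obtain ⟨a₁, h3⟩ : ∃ a₁, b = 2 * a₁ + 1 := ⟨b / 2, by omega⟩
      obtain ⟨c₁, h4⟩ : ∃ c₁, c = 2 * c₁ + 1 := ⟨c / 2, by omega⟩
      refine zpI ⟨-(c₁ * (c₁ + 1) * a' * b) + a₁ * (a₁ + 1) * c * d' -
        a' * d' * (a' * c - b * d'), ?_⟩
      rw [h3, h4]
      ring
    · have e1 : (⟨2 * a' * (2 * c') - b * d, 2 * a' * d + b * (2 * c')⟩ : GaussianInt) =
          ⟨4 * (a' * c') - b * d, 2 * (a' * d + b * c')⟩ := by
        congr 1 <;> ring
      have e2 : (4 * (a' * c') - b * d) % 2 = 1 := by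
        have h3 : (b * d) % 2 = 1 := by rw [Int.mul_emod, hb, hd]; rfl
        omega
      rw [e1, oe _ _ e2, eo _ _ hb, eo _ _ hd, ← zpow_add₀ Complex.I_ne_zero]
      obtain ⟨a₁, h3⟩ : ∃ a₁, b = 2 * a₁ + 1 := ⟨b / 2, by omega⟩
      obtain ⟨c₁, h4⟩ : ∃ c₁, d = 2 * c₁ + 1 := ⟨d / 2, by omega⟩
      refine zpI ⟨-(c₁ * (c₁ + 1) * a' * b) - a₁ * (a₁ + 1) * c' * d +
        a' * c' * (a' * d + b * c'), ?_⟩
      rw [h3, h4]
      ring
    · rw [same c d h', mul_zero]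
      refine same _ _ ?_
      have h3 : 2 * a' * c - b * d - (2 * a' * d + b * c) =
          2 * (a' * c - a' * d) - b * (d + c) := by ring
      obtain ⟨e, he⟩ : ∃ e, d + c = 2 * e := ⟨(d + c) / 2, by omega⟩
      rw [he] at h3
      have h4 : 2 * a' * c - b * d - (2 * a' * d + b * c) =
          2 * (a' * c - a' * d - b * e) := by rw [h3]; ring
      generalize 2 * a' * c - b * d = u at h4 ⊢
      generalize 2 * a' * d + b * c = v at h4 ⊢
      omega
  · rw [same a b h, zero_mul]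
    refine same _ _ ?_
    obtain ⟨e, he⟩ : ∃ e, a = b + 2 * e := ⟨(a - b) / 2, by omega⟩
    have h4 : a * c - b * d - (a * d + b * c) = 2 * (e * c - b * d - e * d) := by
      rw [he]
      ring
    generalize a * c - b * d = u at h4 ⊢
    generalize a * d + b * c = v at h4 ⊢
    omega

theorem norm_eq (a b : ℤ) : (⟨a, b⟩ : GaussianInt).norm = a * a + b * b := by
  rw [Zsqrtd.norm_def]
  ring

end RHO

open RHO in
theorem RHO_thm : Stmt_RHO := by
  refine ⟨RHO.mul, ?_, ?_, ?_, ?_, ?_, ?_, ?_, ?_, ?_⟩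
  · have h := oe 1 0 rfl
    have h1 : (1 : GaussianInt) = ⟨1, 2 * 0⟩ := by
      apply Zsqrtd.ext
      · simp
      · simp
    rw [h1, h, mul_zero, zpow_zero]
  · rintro ⟨a, b⟩
    rcases cases a b with ⟨b', ha, rfl⟩ | ⟨a', hb, rfl⟩ | h
    · rw [oe _ _ ha, nI]
    · rw [eo _ _ hb, nI]
    · rw [same a b h, norm_zero]
      exact zero_le_one
  · rintro ⟨a, b⟩ hn
    rcases cases a b with ⟨b', ha, rfl⟩ | ⟨a', hb, rfl⟩ | h
    · rw [oe _ _ ha, nI]
    · rw [eo _ _ hb, nI]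
    · exfalso
      rw [norm_eq, Int.add_emod, Int.mul_emod a a, Int.mul_emod b b, h] at hn
      rcases Int.emod_two_eq_zero_or_one b with h1 | h1
      · rw [h1] at hn
        norm_num at hn
      · rw [h1] at hn
        norm_num at hn
  · rintro ⟨a, b⟩ hn
    refine same a b ?_
    rw [norm_eq, Int.add_emod, Int.mul_emod a a, Int.mul_emod b b] at hn
    rcases Int.emod_two_eq_zero_or_one a with h1 | h1 <;>
      rcases Int.emod_two_eq_zero_or_one b with h2 | h2 <;> rw [h1, h2] at hn ⊢ <;>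
      norm_num at hn
  · rintro ⟨a, b⟩ hu
    have h1 := Zsqrtd.norm_eq_one_iff.2 hu
    rw [norm_eq] at h1
    have h2 : a * a + b * b = 1 := by
      have h3 : 0 ≤ a * a + b * b := add_nonneg (mul_self_nonneg a) (mul_self_nonneg b)
      omega
    have ha : a * a ≤ 1 := by nlinarith [mul_self_nonneg b]
    have hb : b * b ≤ 1 := by nlinarith [mul_self_nonneg a]
    have ha1 : -1 ≤ a := by nlinarith
    have ha2 : a ≤ 1 := by nlinarith
    have hb1 : -1 ≤ b := by nlinarith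
    have hb2 : b ≤ 1 := by nlinarith
    have e1 := oe 1 0 rfl
    have e2 := oe (-1) 0 rfl
    have e3 := eo 0 1 rfl
    have e4 := eo 0 (-1) rfl
    simp at e1 e2 e3 e4
    interval_cases a <;> interval_cases b <;> first | assumption | (exfalso; omega)
  · rintro ⟨a, b⟩
    rw [Zsqrtd.star_mk]
    rcases cases a b with ⟨b', ha, rfl⟩ | ⟨a', hb, rfl⟩ | h
    · have e1 : (-(2 * b')) = 2 * (-b') := by ring
      rw [e1, oe _ _ ha, oe _ _ ha, sI, mul_neg]
    · have e1 : (-b) % 2 = 1 := by omega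
      rw [eo _ _ e1, eo _ _ hb, sI, mul_neg]
    · have e1 : a % 2 = (-b) % 2 := by omega
      rw [same _ _ e1, same _ _ h, star_zero]
  · rintro ⟨a, b⟩ ⟨x, y⟩
    have hm : (⟨a, b⟩ : GaussianInt) + 8 * ⟨x, y⟩ = ⟨a + 8 * x, b + 8 * y⟩ := by
      apply Zsqrtd.ext
      · simp
      · simp
    rw [hm]
    rcases cases a b with ⟨b', ha, rfl⟩ | ⟨a', hb, rfl⟩ | h
    · have e1 : 2 * b' + 8 * y = 2 * (b' + 4 * y) := by ring
      have e2 : (a + 8 * x) % 2 = 1 := by omega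
      rw [e1, oe _ _ e2, oe _ _ ha]
      exact zpI ⟨2 * x * b' + (a + 8 * x) * y, by ring⟩
    · have e1 : 2 * a' + 8 * x = 2 * (a' + 4 * x) := by ring
      have e2 : (b + 8 * y) % 2 = 1 := by omega
      rw [e1, eo _ _ e2, eo _ _ hb]
      exact zpI ⟨-(2 * y * a' + (b + 8 * y) * x), by ring⟩
    · rw [same a b h]
      refine same _ _ ?_
      omega
  · intro a ha
    have h1 : (a : GaussianInt) = ⟨a, 2 * 0⟩ := by
      apply Zsqrtd.ext
      · simp
      · simp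
    rw [h1, oe _ _ ha, mul_zero, zpow_zero]
  · intro a b ha hb
    obtain ⟨k, rfl⟩ : ∃ k, b = 2 * (2 * k + 1) := ⟨b / 4, by omega⟩
    obtain ⟨l, rfl⟩ : ∃ l, a = 2 * l + 1 := ⟨a / 2, by omega⟩
    rw [oe _ _ ha, ← zpow_natCast, ← zpow_mul]
    have h1 : Complex.I ^ (2 : ℤ) = -1 := by
      have h := Complex.I_sq
      exact_mod_cast h
    rw [← h1]
    refine zpI ⟨2 * l * k + l + k, ?_⟩
    push_cast
    ring

end Pool.Agent.ADG
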