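import Pool.Agent.ADG.St2

/-!
# ADG: the lower bound for the sieve sums (helper83)
-/

set_option autoImplicit false

namespace Pool.Agent.ADG

open Finset

theorem RSL_thm (h1 : Stmt_ROU) (h2 : Stmt_RSU) : Stmt_RSL := by
  obtain ⟨C1, hC1, hrou⟩ := h1
  obtain ⟨hsub, hmono, hone, hlog, hb, C2, hC2, hT, hA⟩ := h2
  refine ⟨1 / (72 * C2 ^ 2 * (1 + C1)), 4 ^ 8, by positivity, ?_⟩
  intro m χ hχ T z a w b1 b2 hT0 hTa haw hwz hmw hmz hb1 hb2
  suffices H : ∀ P : Finset ℕ, (∀ q, q ∈ P ↔ q ∈ Icc 1 z ∧ (q.Prime ∧ T < q ∧ q ≠ b1 ∧ q ≠ b2 ∧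
      (q < a ∨ (w ^ 9 < q ∧ χ q ≠ 1)))) →
      1 / (72 * C2 ^ 2 * (1 + C1)) * (Real.log a / Real.log T) *
        Real.sqrt (Real.log z / Real.log w) ≤ RSm P z from H _ (fun q => Finset.mem_filter)
  intro P hP
  classical
  -- sizes
  have hT1 : 65536 ≤ T := le_trans (by norm_num) hT0
  have ha1 : 65536 ≤ a := by omega
  have hw1 : 65536 ≤ w := by omega
  have hz1 : 65536 ≤ z := by omega
  have hLT : 0 < Real.log T := Real.log_pos (by exact_mod_cast (by omega : 1 < T))
  have hLa : 0 < Real.log a := Real.log_pos (by exact_mod_cast (by omega : 1 < a))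
  have hLw : 0 < Real.log w := Real.log_pos (by exact_mod_cast (by omega : 1 < w))
  have hLz : 0 < Real.log z := Real.log_pos (by exact_mod_cast (by omega : 1 < z))
  have hLwz : Real.log w ≤ Real.log z :=
    Real.log_le_log (by exact_mod_cast (by omega : 0 < w)) (by exact_mod_cast hwz)
  have hx1 : 1 ≤ Real.log z / Real.log w := (one_le_div hLw).2 hLwz
  have hs1 : 1 ≤ Real.sqrt (Real.log z / Real.log w) := Real.one_le_sqrt.2 hx1
  -- the sets
  let P' : Finset ℕ := (Icc 1 z).filter (fun q => q.Prime ∧ q ∉ P)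
  let A1 : Finset ℕ := (Icc 1 T).filter Nat.Prime
  let A4 : Finset ℕ := (Icc a (w ^ 9)).filter Nat.Prime
  let P2 : Finset ℕ := (Icc 1 z).filter (fun q => q.Prime ∧ w ^ 9 < q ∧ χ q = 1)
  have hcov : Real.log z ≤ RSm P z * RSm P' z := hlog P P' z (by omega) (fun q hq hqz => by
    rw [Finset.mem_union]
    by_cases h : q ∈ P
    · exact Or.inl h
    · exact Or.inr (Finset.mem_filter.2 ⟨Finset.mem_Icc.2 ⟨hq.one_le, hqz⟩, hq, h⟩))
  have hsubset : P' ⊆ A1 ∪ ({b1} ∪ ({b2} ∪ (A4 ∪ P2))) := by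
    intro q hq
    obtain ⟨hqI, hqp, hqP⟩ := Finset.mem_filter.1 hq
    rw [hP] at hqP
    simp only [Finset.mem_union, Finset.mem_singleton]
    by_cases h1 : q ≤ T
    · exact Or.inl (Finset.mem_filter.2 ⟨Finset.mem_Icc.2 ⟨hqp.one_le, h1⟩, hqp⟩)
    by_cases h2 : q = b1
    · exact Or.inr (Or.inl h2)
    by_cases h3 : q = b2
    · exact Or.inr (Or.inr (Or.inl h3))
    have h4 : ¬ (q < a ∨ (w ^ 9 < q ∧ χ q ≠ 1)) := fun h =>
      hqP ⟨hqI, hqp, not_le.1 h1, h2, h3, h⟩
    obtain ⟨h5, h6⟩ := not_or.1 h4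
    by_cases h7 : w ^ 9 < q
    · have h8 : χ q = 1 := by
        by_contra h
        exact h6 ⟨h7, h⟩
      exact Or.inr (Or.inr (Or.inr (Or.inr (Finset.mem_filter.2 ⟨hqI, hqp, h7, h8⟩))))
    · exact Or.inr (Or.inr (Or.inr (Or.inl (Finset.mem_filter.2
        ⟨Finset.mem_Icc.2 ⟨not_lt.1 h5, not_lt.1 h7⟩, hqp⟩))))
  have hone' : ∀ A : Finset ℕ, 0 ≤ RSm A z := fun A => zero_le_one.trans (hone A z (by omega))
  -- the four bounds
  have e1 : RSm A1 z ≤ C2 * Real.log T := hT T z (by omega)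
  have e2 : RSm {b1} z ≤ 2 := hb b1 z hb1
  have e3 : RSm {b2} z ≤ 2 := hb b2 z hb2
  have e4 : RSm A4 z ≤ C2 * (9 * Real.log w / Real.log a) := by
    have h := hA a (w ^ 9) z (by omega) (haw.trans (Nat.le_self_pow (by norm_num) w))
    rw [Nat.cast_pow, Real.log_pow] at h
    exact_mod_cast h
  have e5 : RSm P2 z ≤ (2 + 2 * C1) * Real.sqrt (Real.log z / Real.log w) := by
    by_cases hQ : w ^ 9 < z
    · have hm2 : 2 ≤ m := by
        have h : (2 : ℝ) ≤ m := by
          have h3 : (1 : ℝ) / 4 ≤ Real.log z := by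
            have h4 : Real.log 2 ≤ Real.log z :=
              Real.log_le_log (by norm_num) (by exact_mod_cast (by omega : 2 ≤ z))
            have h5 := Real.log_two_gt_d9
            linarith
          linarith
        exact_mod_cast h
      have hm8 : m ^ 8 ≤ w ^ 9 := by
        calc m ^ 8 ≤ (4 * w) ^ 8 := Nat.pow_le_pow_left hmw 8
          _ = 65536 * w ^ 8 := by ring
          _ ≤ w * w ^ 8 := Nat.mul_le_mul_right _ hw1
          _ = w ^ 9 := by ring
      have hlogQ : Real.log ((w ^ 9 : ℕ) * (z : ℝ) ^ 2) ≤ 4 * Real.log z := by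
        have hw9 : (0 : ℝ) < ((w ^ 9 : ℕ) : ℝ) := by
          exact_mod_cast Nat.pow_pos (by omega : 0 < w)
        have hz0 : (0 : ℝ) < z := by exact_mod_cast (by omega : 0 < z)
        rw [Real.log_mul hw9.ne' (by positivity), Real.log_pow]
        have h : Real.log ((w ^ 9 : ℕ) : ℝ) ≤ Real.log z :=
          Real.log_le_log hw9 (by exact_mod_cast hQ.le)
        push_cast at h ⊢
        linarith
      have h := hrou m χ hχ (w ^ 9) z hm2 hm8 (by omega) (by linarith)
        ((Icc 1 z).filter (fun k => ∀ p : ℕ, p.Prime → p ∣ k → p ∈ P2)) (fun k hk => by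
          obtain ⟨hk1, hk2⟩ := Finset.mem_filter.1 hk
          obtain ⟨hk3, hk4⟩ := Finset.mem_Icc.1 hk1
          refine ⟨hk3, hk4, fun q hq hqk => ?_⟩
          obtain ⟨_, _, h7, h8⟩ := Finset.mem_filter.1 (hk2 q hq hqk)
          exact ⟨h7, h8⟩)
      have h' : RSm P2 z ≤ C1 * Real.sqrt (1 + Real.log z / Real.log ((w ^ 9 : ℕ) : ℝ)) := by
        unfold RSm
        exact h
      refine h'.trans ?_
      have h9 : Real.log ((w ^ 9 : ℕ) : ℝ) = 9 * Real.log w := by
        rw [Nat.cast_pow, Real.log_pow]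
        norm_num
      rw [h9]
      have h10 : 1 + Real.log z / (9 * Real.log w) ≤ 2 ^ 2 * (Real.log z / Real.log w) := by
        have h11 : Real.log z / (9 * Real.log w) = (Real.log z / Real.log w) / 9 := by
          rw [mul_comm, div_div]
        rw [h11]
        linarith
      have h12 : Real.sqrt (1 + Real.log z / (9 * Real.log w)) ≤
          2 * Real.sqrt (Real.log z / Real.log w) := by
        refine (Real.sqrt_le_sqrt h10).trans ?_
        rw [Real.sqrt_mul (by norm_num), Real.sqrt_sq (by norm_num)]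
      calc C1 * Real.sqrt (1 + Real.log z / (9 * Real.log w))
          ≤ C1 * (2 * Real.sqrt (Real.log z / Real.log w)) :=
            mul_le_mul_of_nonneg_left h12 hC1.le
        _ ≤ (2 + 2 * C1) * Real.sqrt (Real.log z / Real.log w) := by nlinarith
    · have hemp : P2 ⊆ {b1} := by
        intro q hq
        obtain ⟨hqI, _, h7, _⟩ := Finset.mem_filter.1 hq
        have := (Finset.mem_Icc.1 hqI).2
        omega
      refine ((hmono P2 {b1} z hemp).trans e2).trans ?_
      nlinarith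
  -- the product
  have hprod : RSm P' z ≤ (C2 * Real.log T) * (2 * (2 * ((C2 * (9 * Real.log w / Real.log a)) *
      ((2 + 2 * C1) * Real.sqrt (Real.log z / Real.log w))))) := by
    refine (hmono _ _ z hsubset).trans ?_
    refine (hsub _ _ z).trans (mul_le_mul e1 ?_ (hone' _) (by positivity))
    refine (hsub _ _ z).trans (mul_le_mul e2 ?_ (hone' _) (by norm_num))
    refine (hsub _ _ z).trans (mul_le_mul e3 ?_ (hone' _) (by norm_num))
    exact (hsub _ _ z).trans (mul_le_mul e4 e5 (hone' _) (by positivity))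
  set s := Real.sqrt (Real.log z / Real.log w) with hs
  have hss : s ^ 2 = Real.log z / Real.log w := Real.sq_sqrt (by positivity)
  have hs0 : 0 < s := by linarith
  let D : ℝ := 72 * C2 ^ 2 * (1 + C1) * Real.log T * (Real.log w / Real.log a) * s
  have hD : 0 < D := by
    show 0 < 72 * C2 ^ 2 * (1 + C1) * Real.log T * (Real.log w / Real.log a) * s
    positivity
  have hPD : RSm P' z ≤ D := by
    refine hprod.trans (le_of_eq ?_)
    show _ = 72 * C2 ^ 2 * (1 + C1) * Real.log T * (Real.log w / Real.log a) * s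
    ring
  refine le_of_mul_le_mul_right ?_ hD
  calc 1 / (72 * C2 ^ 2 * (1 + C1)) * (Real.log a / Real.log T) * s * D
      = Real.log w * s ^ 2 := by
        show 1 / (72 * C2 ^ 2 * (1 + C1)) * (Real.log a / Real.log T) * s *
          (72 * C2 ^ 2 * (1 + C1) * Real.log T * (Real.log w / Real.log a) * s) = _
        have h72 : (72 * C2 ^ 2 * (1 + C1)) ≠ 0 := by positivity
        field_simp
    _ = Real.log z := by
        rw [hss]
        field_simp
    _ ≤ RSm P z * RSm P' z := hcov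
    _ ≤ RSm P z * D := mul_le_mul_of_nonneg_left hPD (hone' P)

end Pool.Agent.ADG
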