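import Pool.Agent.ADG.St7
import Pool.Agent.ADG.PI1

/-!
# Project ADG part 7, common lemmas for the sieve modules (helper96)
-/

set_option autoImplicit false

namespace Pool.Agent.ADG

open Finset Pool.Agent.ADS

namespace S7

/-- the first square condition -/
lemma sq1 {c n q r : ℕ} (hS : SqCond n) (hsf : ∀ q : ℕ, q.Prime → ¬ q ∣ c → ¬ q ^ 2 ∣ n)
    (hn : 2 ≤ n) (hq : q.Prime) (hqc : ¬ q ∣ c) (hqn : q ∣ n) (hr : r.Prime) (hrn : r ∣ n - 1) :
    IsSquare ((q : ℕ) : ZMod r) := by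
  refine hS q r hq hr ?_ hrn
  rw [PI1m.fac_one (by omega) hq hqn (hsf q hq hqc)]
  exact odd_one

/-- the parts of `k` -/
lemma parts {q c l p l' : ℕ} (h : ¬ q ∣ 2 * (c * 1) * (l * p * l')) :
    ¬ q ∣ 2 ∧ ¬ q ∣ c ∧ ¬ q ∣ l ∧ ¬ q ∣ p ∧ ¬ q ∣ l' ∧ ¬ q ∣ 2 * c := by
  refine ⟨fun h' => h ?_, fun h' => h ?_, fun h' => h ?_, fun h' => h ?_, fun h' => h ?_,
    fun h' => h ?_⟩
  · exact (h'.mul_right _).mul_right _
  · exact ((h'.mul_right 1).mul_left _).mul_right _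
  · exact ((h'.mul_right p).mul_right l').mul_left _
  · exact ((h'.mul_left l).mul_right l').mul_left _
  · exact (h'.mul_left (l * p)).mul_left _
  · rw [mul_one]
    exact h'.mul_right _

/-- the bound for `gk k` -/
lemma gkb (h2 : Stmt_GKB) {c l p l' : ℕ} (hc : 1 ≤ c) (hl : l.Prime) (hp : p.Prime)
    (hl' : l'.Prime) (hl2 : l ≠ 2) (hp2 : p ≠ 2) (hl'2 : l' ≠ 2) :
    gk (2 * (c * 1) * (l * p * l')) ≤ 14 * (c : ℝ) ^ (1 / 4 : ℝ) := by
  have h := (h2 c 1 hc le_rfl).2 l p l' hl hp hl' hl2 hp2 hl'2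
  have e : (c : ℝ) * ((1 : ℕ) : ℝ) = c := by rw [Nat.cast_one, mul_one]
  rw [e] at h
  exact h

lemma gsq {c : ℕ} : (14 * (c : ℝ) ^ (1 / 4 : ℝ)) ^ 2 = 196 * (c : ℝ) ^ (1 / 2 : ℝ) := by
  rw [mul_pow, ← Real.rpow_natCast ((c : ℝ) ^ (1 / 4 : ℝ)), ← Real.rpow_mul (by positivity)]
  norm_num

lemma half_sq {x : ℝ} (hx : 0 ≤ x) : x ^ (1 / 2 : ℝ) * x ^ (1 / 2 : ℝ) = x := by
  rw [← Real.rpow_add_of_nonneg hx (by norm_num) (by norm_num)]
  norm_num

lemma cef {c l p l' e f : ℕ} (he : e ∣ l * l') (hf : f ∣ p * l * l') :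
    ∀ q : ℕ, q.Prime → q ∣ c * e * f → q ∣ 2 * (c * 1) * (l * p * l') := by
  intro q hq hd
  rcases hq.dvd_mul.1 hd with hd | hd
  · rcases hq.dvd_mul.1 hd with hd | hd
    · exact ((hd.mul_right 1).mul_left 2).mul_right _
    · rcases hq.dvd_mul.1 (hd.trans he) with hd | hd
      · exact ((hd.mul_right p).mul_right l').mul_left _
      · exact (hd.mul_left (l * p)).mul_left _
  · rcases hq.dvd_mul.1 (hd.trans hf) with hd | hd
    · rcases hq.dvd_mul.1 hd with hd | hd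
      · exact ((hd.mul_left l).mul_right l').mul_left _
      · exact ((hd.mul_right p).mul_right l').mul_left _
    · exact (hd.mul_left (l * p)).mul_left _

end S7

end Pool.Agent.ADG
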