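import Pool.Agent.ADG.St6

/-!
# Project ADG part 6, module SM6: the sum over `s`
-/

set_option autoImplicit false

namespace Pool.Agent.ADG

open Finset Pool.Agent.ADS

open Classical in
theorem SM6_thm (h1 : Stmt_FX1) (h2 : Stmt_FX2) (h3 : Stmt_TAI) : Stmt_SM6 := by
  intro ε hε
  obtain ⟨C, hC, hT⟩ := h3
  obtain ⟨S, hS⟩ := exists_nat_ge (max 1 (2 * C / ε))
  have hS1 : (1 : ℝ) ≤ S := (le_max_left _ _).trans hS
  have hS1' : 1 ≤ S := by exact_mod_cast hS1
  have hSC : C / S ≤ ε / 2 := by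
    have h4 : 2 * C / ε ≤ S := (le_max_right _ _).trans hS
    rw [div_le_iff₀ hε] at h4
    rw [div_le_div_iff₀ (by linarith) (by norm_num)]
    linarith
  obtain ⟨XT, hXT⟩ := hT S hS1'
  set ε' : ℝ := ε / (4 * (S + 1)) with hε'
  have hε'0 : 0 < ε' := by positivity
  have e1 : ∀ s : ℕ, ∃ X₀ : ℕ, ∀ X : ℕ, X₀ ≤ X → Odd s → 1 < s →
      (((Icc 2 X).filter (fun n => (∃ q : ℕ, q.Prime ∧ n = q * s ^ 2) ∧ CTC n)).card : ℝ) ≤
        ε' * X / Real.log X := by
    intro s
    by_cases hs : Odd s ∧ 1 < s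
    · obtain ⟨X₀, hX₀⟩ := h1 s hs.1 hs.2 ε' hε'0
      exact ⟨X₀, fun X hX _ _ => hX₀ X hX⟩
    · exact ⟨0, fun X _ a b => absurd ⟨a, b⟩ hs⟩
  have e2 : ∀ s : ℕ, ∃ X₀ : ℕ, ∀ X : ℕ, X₀ ≤ X → Odd s →
      (((Icc 2 X).filter (fun n => (∃ q : ℕ, q.Prime ∧ n = 2 * q * s ^ 2) ∧ QRC n)).card : ℝ) ≤
        ε' * X / Real.log X := by
    intro s
    by_cases hs : Odd s
    · obtain ⟨X₀, hX₀⟩ := h2 s hs ε' hε'0
      exact ⟨X₀, fun X hX _ => hX₀ X hX⟩
    · exact ⟨0, fun X _ a => absurd a hs⟩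
  choose f1 hf1 using e1
  choose f2 hf2 using e2
  refine ⟨max (max 2 XT) (max ((range (S + 1)).sup f1) ((range (S + 1)).sup f2)), ?_⟩
  intro X hX
  have hX2 : 2 ≤ X := (le_max_left _ _).trans ((le_max_left _ _).trans hX)
  have hXT' : XT ≤ X := (le_max_right _ _).trans ((le_max_left _ _).trans hX)
  have hX1 : ∀ s ∈ range (S + 1), f1 s ≤ X := fun s hs =>
    (le_sup (f := f1) hs).trans ((le_max_left _ _).trans ((le_max_right _ _).trans hX))
  have hX3 : ∀ s ∈ range (S + 1), f2 s ≤ X := fun s hs =>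
    (le_sup (f := f2) hs).trans ((le_max_right _ _).trans ((le_max_right _ _).trans hX))
  have hlog : 0 < Real.log X := Real.log_pos (by exact_mod_cast (by omega : 1 < X))
  set Q : ℝ := X / Real.log X with hQ
  have hQ0 : 0 ≤ Q := by positivity
  set A : Finset ℕ := (Icc 2 X).filter (fun n => ∃ q s : ℕ, q.Prime ∧ S < s ∧
    (n = q * s ^ 2 ∨ n = 2 * q * s ^ 2)) with hA
  set B : ℕ → Finset ℕ := fun s => if Odd s ∧ 1 < s then
    (Icc 2 X).filter (fun n => (∃ q : ℕ, q.Prime ∧ n = q * s ^ 2) ∧ CTC n) else ∅ with hB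
  set D : ℕ → Finset ℕ := fun s => if Odd s then
    (Icc 2 X).filter (fun n => (∃ q : ℕ, q.Prime ∧ n = 2 * q * s ^ 2) ∧ QRC n) else ∅ with hD
  have hsub : (Icc 2 X).filter (fun n => n % 4 ≠ 0 ∧ QRC n ∧ CTC n ∧ Form5 n ∧ ¬ n.Prime) ⊆
      A ∪ ((range (S + 1)).biUnion B ∪ (range (S + 1)).biUnion D) := by
    intro n hn
    rw [mem_filter] at hn
    obtain ⟨hnI, hn4, hQR, hCT, ⟨q, s, hq, hns⟩, hnp⟩ := hn
    by_cases hs : S < s
    · exact mem_union_left _ (mem_filter.2 ⟨hnI, q, s, hq, hs, hns⟩)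
    · refine mem_union_right _ ?_
      have hsr : s ∈ range (S + 1) := mem_range.2 (by omega)
      have hodd : Odd s := by
        rw [← Nat.not_even_iff_odd]
        rintro ⟨b, hb⟩
        apply hn4
        have h4 : 4 ∣ s ^ 2 := ⟨b ^ 2, by rw [hb]; ring⟩
        have h5 : 4 ∣ n := by
          rcases hns with h | h
          · rw [h]; exact h4.mul_left _
          · rw [h]; exact h4.mul_left _
        omega
      rcases hns with h | h
      · refine mem_union_left _ (mem_biUnion.2 ⟨s, hsr, ?_⟩)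
        have hs1 : 1 < s := by
          rcases hodd with ⟨b, hb⟩
          rcases Nat.eq_zero_or_pos b with h0 | h0
          · exfalso
            apply hnp
            rw [h, hb, h0]
            simpa using hq
          · omega
        simp only [hB]
        rw [if_pos ⟨hodd, hs1⟩]
        exact mem_filter.2 ⟨hnI, ⟨q, hq, h⟩, hCT⟩
      · refine mem_union_right _ (mem_biUnion.2 ⟨s, hsr, ?_⟩)
        simp only [hD]
        rw [if_pos hodd]
        exact mem_filter.2 ⟨hnI, ⟨q, hq, h⟩, hQR⟩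
  have hAc : (A.card : ℝ) ≤ ε / 2 * Q := by
    refine (hXT X hXT').trans ?_
    rw [hQ, mul_div_assoc]
    exact mul_le_mul_of_nonneg_right hSC hQ0
  have hBc : ∀ s ∈ range (S + 1), ((B s).card : ℝ) ≤ ε' * Q := by
    intro s hs
    simp only [hB]
    split_ifs with h
    · rw [hQ, ← mul_div_assoc]
      exact hf1 s X (hX1 s hs) h.1 h.2
    · simpa using mul_nonneg hε'0.le hQ0
  have hDc : ∀ s ∈ range (S + 1), ((D s).card : ℝ) ≤ ε' * Q := by
    intro s hs
    simp only [hD]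
    split_ifs with h
    · rw [hQ, ← mul_div_assoc]
      exact hf2 s X (hX3 s hs) h
    · simpa using mul_nonneg hε'0.le hQ0
  have hBs : (((range (S + 1)).biUnion B).card : ℝ) ≤ (S + 1) * (ε' * Q) := by
    have := card_biUnion_le (s := range (S + 1)) (t := B)
    have h5 : (((range (S + 1)).biUnion B).card : ℝ) ≤ ∑ s ∈ range (S + 1), ((B s).card : ℝ) := by
      exact_mod_cast this
    refine h5.trans ((sum_le_sum hBc).trans (le_of_eq ?_))
    rw [sum_const, card_range, nsmul_eq_mul]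
    push_cast
    ring
  have hDs : (((range (S + 1)).biUnion D).card : ℝ) ≤ (S + 1) * (ε' * Q) := by
    have := card_biUnion_le (s := range (S + 1)) (t := D)
    have h5 : (((range (S + 1)).biUnion D).card : ℝ) ≤ ∑ s ∈ range (S + 1), ((D s).card : ℝ) := by
      exact_mod_cast this
    refine h5.trans ((sum_le_sum hDc).trans (le_of_eq ?_))
    rw [sum_const, card_range, nsmul_eq_mul]
    push_cast
    ring
  have hcard : (((Icc 2 X).filter (fun n => n % 4 ≠ 0 ∧ QRC n ∧ CTC n ∧ Form5 n ∧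
      ¬ n.Prime)).card : ℝ) ≤ A.card + (((range (S + 1)).biUnion B).card +
        ((range (S + 1)).biUnion D).card) := by
    have h5 := (card_le_card hsub).trans ((card_union_le _ _).trans
      (Nat.add_le_add_left (card_union_le _ _) _))
    exact_mod_cast h5
  have hfin : ε / 2 * Q + ((S + 1) * (ε' * Q) + (S + 1) * (ε' * Q)) = ε * Q := by
    rw [hε']
    have : (0 : ℝ) < S + 1 := by positivity
    field_simp
    ring
  rw [mul_div_assoc, ← hQ, ← hfin]
  linarith

end Pool.Agent.ADG
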