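import Pool.Agent.ADG.St2
import Mathlib.Algebra.Order.Field.Basic
import Mathlib.Analysis.PSeries

/-!
# SQE: integers `n` such that `n` or `n - 1` is divisible by the square of a prime `> T`
-/

set_option autoImplicit false

namespace Pool.Agent.ADG

open Finset

theorem SQE_thm : Stmt_SQE := by
  classical
  intro X T hT S hS
  -- the positive multiples of `q^2` up to `X`
  have hA : ∀ q : ℕ, ((((Ioc 0 X).filter (fun n => q ^ 2 ∣ n)).card : ℕ) : ℝ) ≤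
      (X : ℝ) * ((q : ℝ) ^ 2)⁻¹ := by
    intro q
    rw [Nat.Ioc_filter_dvd_card_eq_div]
    have h := @Nat.cast_div_le ℝ _ _ _ X (q ^ 2)
    rw [Nat.cast_pow] at h
    rw [← div_eq_mul_inv]
    exact h
  have hB : ∀ q : ℕ, (((((Ioc 0 X).filter (fun n => q ^ 2 ∣ n)).image (fun n => n + 1)).card : ℕ) : ℝ) ≤
      (X : ℝ) * ((q : ℝ) ^ 2)⁻¹ := by
    intro q
    refine le_trans ?_ (hA q)
    exact_mod_cast Finset.card_image_le
  have hsub : S ⊆ (Ioc T X).biUnion (fun q => (Ioc 0 X).filter (fun n => q ^ 2 ∣ n) ∪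
      ((Ioc 0 X).filter (fun n => q ^ 2 ∣ n)).image (fun n => n + 1)) := by
    intro n hn
    obtain ⟨h2, hX, q, hq, hTq, hd⟩ := hS n hn
    rw [mem_biUnion]
    have hq1 : q ≤ q ^ 2 := Nat.le_self_pow (by norm_num) q
    rcases hd with hd | hd
    · have h1 : q ^ 2 ≤ n := Nat.le_of_dvd (by omega) hd
      refine ⟨q, mem_Ioc.2 ⟨hTq, by omega⟩, mem_union_left _ ?_⟩
      rw [mem_filter, mem_Ioc]
      exact ⟨⟨by omega, hX⟩, hd⟩
    · have h1 : q ^ 2 ≤ n - 1 := Nat.le_of_dvd (by omega) hd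
      refine ⟨q, mem_Ioc.2 ⟨hTq, by omega⟩, mem_union_right _ ?_⟩
      rw [mem_image]
      refine ⟨n - 1, ?_, by omega⟩
      rw [mem_filter, mem_Ioc]
      exact ⟨⟨by omega, by omega⟩, hd⟩
  have hcard : (S.card : ℝ) ≤ ∑ q ∈ Ioc T X, (2 * (X : ℝ)) * ((q : ℝ) ^ 2)⁻¹ := by
    have h1 : S.card ≤ ∑ q ∈ Ioc T X, ((Ioc 0 X).filter (fun n => q ^ 2 ∣ n) ∪
        ((Ioc 0 X).filter (fun n => q ^ 2 ∣ n)).image (fun n => n + 1)).card :=
      le_trans (card_le_card hsub) card_biUnion_le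
    have h2 : (S.card : ℝ) ≤ ∑ q ∈ Ioc T X, ((((Ioc 0 X).filter (fun n => q ^ 2 ∣ n) ∪
        ((Ioc 0 X).filter (fun n => q ^ 2 ∣ n)).image (fun n => n + 1)).card : ℕ) : ℝ) := by
      exact_mod_cast h1
    refine le_trans h2 (sum_le_sum fun q _ => ?_)
    have h3 : ((((Ioc 0 X).filter (fun n => q ^ 2 ∣ n) ∪
        ((Ioc 0 X).filter (fun n => q ^ 2 ∣ n)).image (fun n => n + 1)).card : ℕ) : ℝ) ≤
        ((((Ioc 0 X).filter (fun n => q ^ 2 ∣ n)).card : ℕ) : ℝ) +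
        (((((Ioc 0 X).filter (fun n => q ^ 2 ∣ n)).image (fun n => n + 1)).card : ℕ) : ℝ) := by
      exact_mod_cast card_union_le _ _
    have h4 := hA q
    have h5 := hB q
    linarith
  rw [← mul_sum] at hcard
  have hX0 : (0 : ℝ) ≤ X := Nat.cast_nonneg X
  have hT0 : (0 : ℝ) < T := by exact_mod_cast hT
  have hsum : ∑ q ∈ Ioc T X, ((q : ℝ) ^ 2)⁻¹ ≤ (T : ℝ)⁻¹ := by
    rcases le_total T X with h | h
    · have h1 := @sum_Ioc_inv_sq_le_sub ℝ _ _ _ T X (by omega) h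
      have h2 : (0 : ℝ) ≤ (X : ℝ)⁻¹ := inv_nonneg.2 hX0
      linarith
    · rw [Ioc_eq_empty_of_le h, sum_empty]
      exact inv_nonneg.2 hT0.le
  calc (S.card : ℝ) ≤ 2 * (X : ℝ) * ∑ q ∈ Ioc T X, ((q : ℝ) ^ 2)⁻¹ := hcard
    _ ≤ 2 * (X : ℝ) * (T : ℝ)⁻¹ := by
        apply mul_le_mul_of_nonneg_left hsum
        positivity
    _ = 2 * X / T := by rw [div_eq_mul_inv]

end Pool.Agent.ADG
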