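import Pool.Agent.ADG.St

/-!
# Project ADG (MP_43d07b_co), part 2: orders `n ≠ 1 mod 4` in ALL groups (architect helper96)

THEOREM 2. There is `C` such that for `x ≥ 16` at most `C x (log log x)^3 / log x` integers `n ≤ x`, `n ≠ 1 mod 4`, are orders of
affine difference sets in finite groups (any group, any subgroup). (All primes are orders, so `x / log x` is the right size.)

(EPX, PXT) if `n ≠ 1 mod 4` is an order then every prime `l ≠ 2` dividing `n` to an odd power is a square modulo every prime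
`p ≠ 2` which divides `n - 1` exactly once (`QRC n`). The rest is a sieve for `QRC`, with two residue classes per prime.

Every `Stmt_X` is the statement of a module: `theorem X_thm (h : Stmt_Y) .. : Stmt_X` in `Pool/Agent/ADG/X.lean`, namespace
`Pool.Agent.ADG`, with the hypotheses named after USES (or fewer).
-/

set_option autoImplicit false

namespace Pool.Agent.ADG

open Finset Pool.Agent.ADS

/-! ## 1. Even orders, all groups -/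

/-- (EPX) The condition for even orders (all groups; no solvability is needed since `p` divides `n - 1` exactly once).

USES GRP, INV. PROOF. `n` even, `|G| = n^2 - 1` odd. `p` divides `|G|` and `|N|` exactly once (`gcd(n - 1, n + 1) = 1`); `P ≤ N` of order `p`, a Sylow subgroup of
`N` and of `G`. `M` its normalizer. (GRP) for `H = ⊥`: `sta = 1`, `m i = n - 1`, `r = n + 1`, `u = n^2 - 1`: `(-1)^((n^2 + n)/2)` is a square modulo `l`.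
(GRP) for `H = P`: `sta ∈ {1, p}` (a divisor of `p`); `r1` the number of `i` with `sta = p`, `w` the number of `i` with `sta = 1`; `u' = (n^2 - 1)/p`,
`r1 (n - 1)/p + w (n - 1) = u'`, so `r1 + p w = n + 1`; `(-1)^((u' + r1 + w)/2) p^(r1)` is a square modulo `l`. CLAIM: `r1` is odd.
`T = {x : x P x⁻¹ ≤ N}` is the union of the `r1` double cosets `N x P` with `sta = p`, each with `|N|` elements; `T = N M` as for (PFX): `x ∈ T`: `P` and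
`x P x⁻¹` are Sylow subgroups of `N`, conjugate by an `a ∈ N`, `a x ∈ M`. `|N M| = |N| |M| / |N ∩ M|`, so `r1 = |M| / |N ∩ M|` divides `|M|`, odd.
(See `Pool/Agent/ADG/PFX.lean`, the same argument with `X` trivial.) Product of the two squares: with `n^2 - 1 = p u'`, `n + 1 = r1 + p w` the exponent of
`-1` is `((p + 1) u' + 2 r1 + (p + 1) w)/2 = ((p + 1)/2)(u' + w) + r1`, and `u' + w = (u' + r1 + w) - r1` is odd: sign `(-1)^((p - 1)/2)`. So `(-1)^((p-1)/2) p`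
is a square modulo `l`, and by quadratic reciprocity `l` is a square modulo `p` (see `Pool/Agent/ADG/PXT.lean`). -/
def Stmt_EPX : Prop := ∀ (G : Type) [Group G] [Finite G] (n : ℕ) (N : Subgroup G) (D : Finset G),
  IsAffineDifferenceSet n N D → Even n → ∀ p : ℕ, p.Prime → p ≠ 2 →
  (n - 1).factorization p = 1 → ∀ l : ℕ, l.Prime → l ≠ 2 → Odd (n.factorization l) →
  IsSquare ((l : ℕ) : ZMod p)

/-- every odd prime `l` dividing `n` to an odd power is a square modulo every odd prime dividing `n - 1` exactly once -/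
def QRC (n : ℕ) : Prop := ∀ l p : ℕ, l.Prime → p.Prime → l ≠ 2 → p ≠ 2 →
  Odd (n.factorization l) → (n - 1).factorization p = 1 → IsSquare ((l : ℕ) : ZMod p)

/-! ## 2. Real characters and rough sums -/

/-- a real character modulo `m` which is not principal -/
structure RC (m : ℕ) (χ : ℕ → ℝ) : Prop where
  pos : 0 < m
  one : χ 1 = 1
  mul : ∀ a b : ℕ, χ (a * b) = χ a * χ b
  val : ∀ a : ℕ, χ a = 0 ∨ χ a = 1 ∨ χ a = -1
  block : ∀ a : ℕ, ∑ i ∈ range m, χ (a + i) = 0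

/-- (RCX) The two characters.

PROOF. (1) `χ q = (q/p)`, as in `Pool/Agent/ADS/EV1.lean` (`ch`, `ch_mul`, `ch_one`, `block_sum`); the sum over `4 p` consecutive integers is four times `0`.
(2) `l = 1 mod 4`: `ψ n = (n/l)`. `l = 3 mod 4`: `ψ n = χ₄(n) (n/l)`; quadratic reciprocity gives `(l/q) = ψ(q)` for primes `q ≠ 2, l`
(`legendreSym.quadratic_reciprocity'`, `ZMod.exists_sq_eq_prime_iff_of_mod_four_eq_one/three`). Sum over `4 l` consecutive integers: the function is periodic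
modulo `4 l`, and (Chinese remainder theorem) `Σ = (Σ_(4) χ₄)(Σ_(l) (·/l)) = 0`; or: `ψ(n + 2 l) = -ψ(n)` for `l = 3 mod 4` (`χ₄(n + 2 l) = χ₄(n + 2) = -χ₄(n)`), so the two
halves of a block of `4 l` cancel. -/
def Stmt_RCX : Prop :=
  (∀ p : ℕ, p.Prime → p ≠ 2 → ∃ χ : ℕ → ℝ, RC (4 * p) χ ∧
    ∀ q : ℕ, q.Prime → q ≠ p → (IsSquare ((q : ℕ) : ZMod p) ↔ χ q = 1)) ∧
  (∀ l : ℕ, l.Prime → l ≠ 2 → ∃ ψ : ℕ → ℝ, RC (4 * l) ψ ∧
    ∀ q : ℕ, q.Prime → q ≠ 2 → q ≠ l → (IsSquare ((l : ℕ) : ZMod q) ↔ ψ q = 1))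

/-- `Σ_(d ∣ k) χ(d)` -/
noncomputable def cf (χ : ℕ → ℝ) (k : ℕ) : ℝ := ∑ d ∈ k.divisors, χ d

/-- (CFP) The convolution `1 * χ`.

PROOF. `cf` is multiplicative (`χ` is completely multiplicative; for example as an `ArithmeticFunction ℝ`, `ζ * χ`), and `cf χ (q^e) = Σ_(j ≤ e) χ(q)^j` is `1`,
`e + 1`, or `0, 1` for `χ q = 0, 1, -1`: nonnegative. If `χ q = 1` for all primes `q ∣ k` then `χ d = 1` for all `d ∣ k`. -/
def Stmt_CFP : Prop := ∀ (m : ℕ) (χ : ℕ → ℝ), RC m χ →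
  (∀ k, 0 ≤ cf χ k) ∧ (∀ a b : ℕ, Nat.Coprime a b → cf χ (a * b) = cf χ a * cf χ b) ∧
  ∀ k : ℕ, k ≠ 0 → (∀ q : ℕ, q.Prime → q ∣ k → χ q = 1) → cf χ k = k.divisors.card

/-- (CAB) The sum of `cf χ n / n` over an interval.

PROOF. `Σ_(n ≤ B) cf(n)/n = Σ_(d ≤ B) (χ(d)/d) H(⌊B/d⌋)`, `H` the harmonic numbers (`Pool/Agent/ADS/EV1.lean`: `swap`). Part `d ≤ M`: `H(⌊t⌋) = log t + γ + O(1/t)` for
`t ≥ 1` (Mathlib: `Real.eulerMascheroniSeq`, or directly `|H(⌊B/d⌋) - H(⌊A/d⌋) - log(B/A)| ≤ 4 d/A` from `1/(k+1) ≤ log((k+1)/k) ≤ 1/k`), so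
`H(⌊B/d⌋) - H(⌊A/d⌋) = log(B/A) + O(d/A)` for `d ≤ M ≤ A`, and the sum of the errors is `O(M/A)`. Part `d > M`: `d ↦ H(⌊B/d⌋)/d` is nonnegative and
decreasing and the partial sums of `χ` over intervals are `≤ m` in absolute value (`block`), so `|Σ_(M < d ≤ B) χ(d) H(⌊B/d⌋)/d| ≤ m (1 + log B)/M`
(`EV1m.abel`), the same for `A`. -/
def Stmt_CAB : Prop := ∃ C : ℝ, 0 < C ∧ ∀ (m : ℕ) (χ : ℕ → ℝ), RC m χ → ∀ A B M : ℕ,
  1 ≤ M → M ≤ A → A ≤ B →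
  |∑ n ∈ Ioc A B, cf χ n / n - (∑ d ∈ Icc 1 M, χ d / d) * Real.log ((B : ℝ) / A)| ≤
    C * ((M : ℝ) / A + m * (1 + Real.log B) / M)

/-- (ROU) The reciprocal sum over the integers with all prime factors `> Q` and of character `1`.

USES CFP, CAB. PROOF. `A` the sum, `N' = N^2`. `A^2 ≤ R := Σ_(k ≤ N', all primes of k are > Q) cf(k)/k` (products `k = k1 k2`: `cf(k) = τ(k)` by (CFP); as in `EV1m.sq_le`). With
`F(M) = Σ_(n ≤ M) cf(n)/n`: `F(Q) R ≤ F(Q N')`, because `(a, k) ↦ a k`, `a ≤ Q`, `k` without primes `≤ Q`, is injective and `cf(a k) = cf(a) cf(k)`.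
Let `M = m^3`, `L = Σ_(d ≤ M) χ(d)/d`. (CAB) for `(Q, Q N')`: `F(Q N') - F(Q) ≤ L log N' + C'/m`, `C' = 3 C` (`M/Q ≤ 1/m`, `m (1 + log(Q N'))/M ≤ 1/m`). `F(Q) ≥ 1` and,
(CAB) for `(m^4, Q)`: `F(Q) ≥ L log(Q/m^4) - C' ≥ (1/2) L log Q - C'` if `L ≥ 0` (`Q ≥ m^8`), so `L ≤ 2 (1 + C') F(Q)/log Q`. So
`R ≤ F(Q N')/F(Q) ≤ 1 + C' + 2 (1 + C') log N'/log Q` (also if `L < 0`). -/
def Stmt_ROU : Prop := ∃ C : ℝ, 0 < C ∧ ∀ (m : ℕ) (χ : ℕ → ℝ), RC m χ → ∀ Q N : ℕ,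
  2 ≤ m → m ^ 8 ≤ Q → 2 ≤ N → 1 + Real.log (Q * (N : ℝ) ^ 2) ≤ m → ∀ S : Finset ℕ,
  (∀ k ∈ S, 1 ≤ k ∧ k ≤ N ∧ ∀ q : ℕ, q.Prime → q ∣ k → Q < q ∧ χ q = 1) →
  ∑ k ∈ S, (1 : ℝ) / k ≤ C * Real.sqrt (1 + Real.log N / Real.log Q)

/-! ## 3. The sieve -/

open Classical in
/-- the sum of the reciprocals of the integers up to `z` with all prime factors in `P` (the same as `EV23m.RS` in ADS/EV23) -/
noncomputable def RSm (P : Finset ℕ) (z : ℕ) : ℝ :=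
  ∑ m ∈ (Icc 1 z).filter (fun m => ∀ p : ℕ, p.Prime → p ∣ m → p ∈ P), (1 : ℝ) / m

/-- (S2V) Selberg's sieve with up to two residue classes per prime.

PROOF. As `EV23m.sieve_class` in `Pool/Agent/ADS/EV23.lean` (one class) and `form_count_le` in `Pool/Agent/Lib_helper72/AP/FormSieve.lean` (two classes). Let `P = P1 ∪ P2`, `ν(q)` = `[q ∈ P1] + [q ∈ P2]`,
`F(x) = ∏_(q ∈ P, (q ∈ P1 and q ∣ x) or (q ∈ P2 and q ∣ x - 1)) q`. `BoundingSieve` with `prodPrimes = ∏_(q ∈ P) q`, `support` = the values of `F` on `{1 ≤ x ≤ Y, x ≡ a mod M}`, weights = the number of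
preimages, `totalMass = Y/M`, `nu(d) = ∏_(q ∣ d) ν(q)/q`. For `d ∣ prodPrimes` the number of `x` with `d ∣ F(x)` is a union of `∏ ν(q)` residue classes modulo `M d`
(the two conditions for `q` are disjoint), so `|rem d| ≤ ∏ ν(q) ≤ 2^(ω(d)) ≤ d`, and `nu(d)⁻¹ ≤ d`, `nu(q) < 1` as `q ≥ 3`. `siftedSum_le_selberg` with `z^2`:
`≤ (Y/M)/S + z^12`, `S = Σ_(d ∣ prodPrimes, d ≤ z^2) ∏ ν(q)/(q - ν(q))`. And `RSm P1 z * RSm P2 z ≤ S`: the product is at most `Σ_(k ≤ z^2) g(k)/k`, `g` multiplicative, `g(q^e) = e + 1` if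
`q` is in both, `1` if it is in exactly one, `0` otherwise; grouping by the radical (`Lib_helper72.AP.sum_fiber_radical`): `Σ_(e ≥ 1) q^(-e) = 1/(q - 1)` and
`Σ_(e ≥ 1) (e + 1) q^(-e) = (2q - 1)/(q - 1)^2 ≤ 2/(q - 2)`. -/
def Stmt_S2V : Prop := ∀ (Y z M a : ℕ) (P1 P2 : Finset ℕ), 1 ≤ z → 0 < M →
  (∀ q ∈ P1 ∪ P2, q.Prime ∧ q ≠ 2 ∧ ¬ q ∣ M) → ∀ S : Finset ℕ,
  (∀ x ∈ S, 1 ≤ x ∧ x ≤ Y ∧ x ≡ a [MOD M] ∧ (∀ q ∈ P1, ¬ q ∣ x) ∧ ∀ q ∈ P2, ¬ q ∣ x - 1) →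
  (S.card : ℝ) ≤ (Y : ℝ) / M / (RSm P1 z * RSm P2 z) + (z : ℝ) ^ 12

/-- (RSU) Facts on `RSm`.

PROOF. (1) `m = m_A m_B` with `m_A` the part of `m` composed of the primes in `A`, `m_B` the rest: an injection, and both are `≤ z`. (2) (1) with `A ∪ B ⊇` all primes `≤ z`:
`Σ_(m ≤ z) 1/m ≥ log z`. (3) a prime `b`: `Σ b^(-j) ≤ 2`. (4), (5) `RSm P z ≤ ∏_(q ∈ P) (1 - 1/q)⁻¹ ≤ C exp(Σ_(q ∈ P) 1/q)` (by (1) and (3'), `Σ_j q^(-j) = (1 - 1/q)⁻¹`, induction on `P`; `(1 - 1/q)⁻¹ ≤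
exp(1/q + 1/q^2)`… for `q ≥ 2`: `(1 - x)⁻¹ ≤ exp(x + x^2)` for `0 ≤ x ≤ 1/2`), and Mertens' second theorem on an interval
(`Pool.Agent.Lib_helper29.SW.mertens : StmtMertens`, `Pool/Agent/Lib_helper29/SW/M0.lean`): `Σ_(a ≤ q ≤ Q) 1/q ≤ log log Q - log log a + C/log a`. -/
def Stmt_RSU : Prop :=
  (∀ (A B : Finset ℕ) (z : ℕ), RSm (A ∪ B) z ≤ RSm A z * RSm B z) ∧
  (∀ (A B : Finset ℕ) (z : ℕ), A ⊆ B → RSm A z ≤ RSm B z) ∧
  (∀ (A : Finset ℕ) (z : ℕ), 1 ≤ z → 1 ≤ RSm A z) ∧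
  (∀ (A B : Finset ℕ) (z : ℕ), 1 ≤ z → (∀ q : ℕ, q.Prime → q ≤ z → q ∈ A ∪ B) →
    Real.log z ≤ RSm A z * RSm B z) ∧
  (∀ (b z : ℕ), b.Prime → RSm {b} z ≤ 2) ∧
  ∃ C : ℝ, 0 < C ∧ (∀ T z : ℕ, 2 ≤ T → RSm ((Icc 1 T).filter Nat.Prime) z ≤ C * Real.log T) ∧
    ∀ a Q z : ℕ, 2 ≤ a → a ≤ Q →
      RSm ((Icc a Q).filter Nat.Prime) z ≤ C * (Real.log Q / Real.log a)

open Classical in
/-- (RSL) The lower bound for the sieve sums.

USES ROU, RSU. PROOF. `P` the set in the statement, `Q = w^9`, `P'` the set of all primes `≤ z` not in `P`: `log z ≤ RSm P z * RSm P' z` (RSU). `P' ⊆ {q ≤ T} ∪ {b1} ∪ {b2} ∪ {a ≤ q ≤ min(Q, z)} ∪ P''`,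
`P'' = {Q < q ≤ z, χ q = 1}`. Case `Q < z`: `RSm P'' z ≤ C sqrt(1 + log z/log Q) ≤ C sqrt(2 log z/log w)` by (ROU) with `N = z` (`m ≤ 4 w`, `w > T ≥ 4^8`, so `m^8 ≤ 4^8 w^8 ≤ w^9 = Q`;
`1 + log(Q z^2) ≤ 1 + 3 log z ≤ m`), `RSm {a ≤ q ≤ Q} ≤ C log Q/log a = 9 C log w/log a`, `RSm {q ≤ T} ≤ C log T`: `RSm P' z ≤ C log T (log w/log a) sqrt(log z/log w)`.
Case `Q ≥ z`: `P'' = ∅`, `log z ≤ 9 log w`, `RSm P' z ≤ C log T log z/log a`. -/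
def Stmt_RSL : Prop := ∃ (c : ℝ) (T0 : ℕ), 0 < c ∧ ∀ (m : ℕ) (χ : ℕ → ℝ), RC m χ →
  ∀ T z a w b1 b2 : ℕ, T0 ≤ T → T < a → a ≤ w → w ≤ z → m ≤ 4 * w → 1 + 4 * Real.log z ≤ m →
  b1.Prime → b2.Prime →
  c * (Real.log a / Real.log T) * Real.sqrt (Real.log z / Real.log w) ≤
    RSm ((Icc 1 z).filter (fun q => q.Prime ∧ T < q ∧ q ≠ b1 ∧ q ≠ b2 ∧
      (q < a ∨ (w ^ 9 < q ∧ χ q ≠ 1)))) z

/-! ## 4. The count for `QRC` -/

/-- (SQE) Integers divisible by the square of a prime `> T`.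

PROOF. `Σ_(q > T) (X/q^2)` for `n`, the same for `n - 1 ≥ 1`; `Σ_(q > T) 1/q^2 ≤ 1/T`. -/
def Stmt_SQE : Prop := ∀ X T : ℕ, 1 ≤ T → ∀ S : Finset ℕ,
  (∀ n ∈ S, 2 ≤ n ∧ n ≤ X ∧ ∃ q : ℕ, q.Prime ∧ T < q ∧ (q ^ 2 ∣ n ∨ q ^ 2 ∣ n - 1)) →
  (S.card : ℝ) ≤ 2 * X / T

/-- (RGH) Integers `n` such that `n` or `n - 1` has no prime factor in `(T, z]`.

USES S2V, RSU. PROOF. (S2V) with `M = 1`, `P1` = the primes in `(T, z]`, `P2 = ∅` (`RSm ∅ z = 1`), and exchanged. `RSm P1 z ≥ log z/RSm {q ≤ T} z ≥ log z/(C log T)` (RSU). -/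
def Stmt_RGH : Prop := ∃ C : ℝ, 0 < C ∧ ∀ X T z : ℕ, 2 ≤ T → T < z → ∀ S : Finset ℕ,
  (∀ n ∈ S, 2 ≤ n ∧ n ≤ X ∧ ((∀ q : ℕ, q.Prime → T < q → q ≤ z → ¬ q ∣ n) ∨
    ∀ q : ℕ, q.Prime → T < q → q ≤ z → ¬ q ∣ n - 1)) →
  (S.card : ℝ) ≤ C * X * Real.log T / Real.log z + 2 * (z : ℝ) ^ 12

/-- (PAI) The integers with given smallest prime factors `l` of `n` and `p` of `n - 1` in `(T, z]`.

USES S2V, RSL, RCX. PROOF. For `n ∈ S` all primes `q > T` divide `n` and `n - 1` at most once, so they divide `n` (`n - 1`) exactly once if they divide it. (QRC): every prime `q > T`, `q ∣ n`, is a square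
modulo `p`; `l` is a square modulo every prime `q > T`, `q ∣ n - 1`. `w = max l p`, `Q = w^9`. `P1 = {q ≤ z prime : T < q, q ≠ l, q ≠ p, (q < l or (Q < q and χ q ≠ 1))}` with `χ` the character of `p` in (RCX), `P2` the same with
`q < p` and `ψ` the character of `l`. For `q ∈ P1`: `q ∤ n`; for `q ∈ P2`: `q ∤ n - 1`. `n ≡ a mod l p` (Chinese remainder theorem: `n ≡ 0 mod l`, `n ≡ 1 mod p`). (S2V) with `M = l p`: `|S| ≤ (X/(l p))/(RSm P1 z RSm P2 z) + z^12`.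
(RSL) with `m = 4 p` (resp. `4 l`), `a = l` (resp. `p`): `RSm P1 z RSm P2 z ≥ c^2 (log l log p/(log T)^2) (log z/log w) = c^2 log(min l p) log z/(log T)^2`. -/
def Stmt_PAI : Prop := ∃ (C : ℝ) (T0 : ℕ), 0 < C ∧ ∀ X T z l p : ℕ, T0 ≤ T → 1 + 4 * Real.log z ≤ T →
  l.Prime → p.Prime → T < l → T < p → l ≤ z → p ≤ z → l ≠ p → ∀ S : Finset ℕ,
  (∀ n ∈ S, 2 ≤ n ∧ n ≤ X ∧ QRC n ∧ l ∣ n ∧ p ∣ n - 1 ∧
    (∀ q : ℕ, q.Prime → T < q → ¬ q ^ 2 ∣ n ∧ ¬ q ^ 2 ∣ n - 1) ∧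
    (∀ q : ℕ, q.Prime → T < q → q < l → ¬ q ∣ n) ∧
    ∀ q : ℕ, q.Prime → T < q → q < p → ¬ q ∣ n - 1) →
  (S.card : ℝ) ≤ C * X * (Real.log T) ^ 2 / (l * p * Real.log (min l p : ℕ) * Real.log z) +
    (z : ℝ) ^ 12

/-- (PSM) Sums over primes.

PROOF. `Σ_(q ≤ z) 1/q ≤ log log z + C` and `Σ_q 1/(q log q) ≤ C` (for example by blocks `(e^(2^j), e^(2^(j+1))]` and `Σ_(q ≤ x) log q/q ≤ C log x`, as `Pool/Agent/ADS/EV5.lean`; or Mertens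
`Pool.Agent.Lib_helper29.SW.mertens`). Then `Σ_(l ≠ p) 1/(l p log min(l, p)) ≤ 2 Σ_l 1/(l log l) Σ_p 1/p`. -/
def Stmt_PSM : Prop := ∃ C : ℝ, 0 < C ∧ ∀ z : ℕ, 16 ≤ z →
  ∑ l ∈ (Icc 1 z).filter Nat.Prime, ∑ p ∈ (Icc 1 z).filter Nat.Prime,
    (if l = p then (0 : ℝ) else 1 / (l * p * Real.log (min l p : ℕ))) ≤
    C * Real.log (Real.log z)

open Classical in
/-- (QRN) The count.

USES SQE, RGH, PAI, PSM. PROOF. `X` large, `T = ⌊(log X)^2⌋`, `z = ⌊X^(1/60)⌋`: `1 + 4 log z ≤ T`, `T < z`. Every `n ∈ [2, X]` with `QRC n` is in the set of (SQE), in the set of (RGH), or in one of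
the sets of (PAI) with `l`, `p` the smallest primes in `(T, z]` dividing `n` resp. `n - 1` (`l ≠ p`). Sum over `l, p`: (PSM). In total `≤ 2X/T + C X log T/log z + 2 z^12 + C X (log T)^2 log log z/log z + z^14`,
`log T ≤ 2 log log X`, `log z ≥ (log X)/120`. For `16 ≤ X ≤ X₀` enlarge `C` (`(log log X)^3/log X` is bounded below). -/
def Stmt_QRN : Prop := ∃ C : ℝ, 0 < C ∧ ∀ X : ℕ, 16 ≤ X →
  (((Icc 2 X).filter (fun n => QRC n)).card : ℝ) ≤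
    C * X * (Real.log (Real.log X)) ^ 3 / Real.log X

/-- The second main theorem. -/
def MainStatement2 : Prop := ∃ C : ℝ, ∀ x : ℝ, 16 ≤ x →
  ({n : ℕ | (n : ℝ) ≤ x ∧ n % 4 ≠ 1 ∧ AnyOrder n}.ncard : ℝ) ≤
    C * x * (Real.log (Real.log x)) ^ 3 / Real.log x

/-- (FIN2) Assembly.

USES EPX, PXT, QRN. PROOF. `n % 4 ≠ 1` and `AnyOrder n`: `n` is even (EPX) or `n % 4 = 3` (PXT), so `QRC n`. -/
def Stmt_FIN2 : Prop := MainStatement2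

end Pool.Agent.ADG
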