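import Pool.Agent.ADG.St2

/-!
# Project ADG (MP_43d07b_co), part 3: the exact order of magnitude (architect helper96)

THEOREM 3. There is `C` such that for `x ≥ 2` at most `C x / log x` integers `n ≤ x`, `n ≠ 1 mod 4`, are orders of affine
difference sets in finite groups (any group, any subgroup). All primes are orders, so `x / log x` is the exact order of magnitude.

As in part 2 it is a sieve for the condition `QRC`, but with no logarithmic losses: the sieve uses all primes (square divisors `c^2 ∣ n`, `d^2 ∣ n - 1`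
are summed), the characters modulo `4 p` are used for all primes `> (4 w^2)^8`, and for the loss between the smallest primes `l` of `n`, `p` of
`n - 1` the second smallest prime is used.

Every `Stmt_X` is the statement of a module: `theorem X_thm (h : Stmt_Y) .. : Stmt_X` in `Pool/Agent/ADG/X.lean`, namespace
`Pool.Agent.ADG`, with the hypotheses named after USES (or fewer).
-/

set_option autoImplicit false

namespace Pool.Agent.ADG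

open Finset Pool.Agent.ADS

/-! ## 1. Characters -/

/-- (ROU2) As (ROU), with no condition on the size of `N`. (In `ROU.lean`, with `ROU_thm`.)

USES CFP, CAB. PROOF. `K = ⌊Q^(1/8)⌋ ≥ m`, `K^8 ≤ Q < (2 K)^8`, `M = K^2`, `A0 = K^4`, `N' = N^2`. As for (ROU): `A^2 ≤ R`, `F(Q) R ≤ F(Q N')`. (CAB) for `(Q, Q N')`: error
`≤ C (1 + (1 + log Q + log N')/K) ≤ C' (1 + log N'/log Q)`. (CAB) for `(A0, Q)`: `F(Q) ≥ (1/2) L log Q - C'` if `L ≥ 0`. `R ≤ F(Q N')/F(Q) ≤ C'' (1 + log N'/log Q)`. -/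
def Stmt_ROU2 : Prop := ∃ C : ℝ, 0 < C ∧ ∀ (m : ℕ) (χ : ℕ → ℝ), RC m χ → ∀ Q N : ℕ,
  2 ≤ m → m ^ 8 ≤ Q → 2 ≤ N → ∀ S : Finset ℕ,
  (∀ k ∈ S, 1 ≤ k ∧ k ≤ N ∧ ∀ q : ℕ, q.Prime → q ∣ k → Q < q ∧ χ q = 1) →
  ∑ k ∈ S, (1 : ℝ) / k ≤ C * Real.sqrt (1 + Real.log N / Real.log Q)

/-- (RCY) The characters `χ p` and `ψ l` and their products.

PROOF. `χ p n = (n/p)`; `ψ l n = (n/l)` if `l = 1 mod 4` and `ψ l n = χ₄(n) (n/l)` if `l = 3 mod 4`, as for (RCX) (`Stmt_RCX` in St2; its proof `RCX.lean` by helper7 may be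
copied; here the functions are explicit). Products: if `f` is periodic modulo `a` with sum `0` over a period, `h` is periodic modulo `b`, `gcd(a, b) = 1`, then the sum of `f h` over
`a b` consecutive integers is `0` (Chinese remainder theorem: `(Σ f)(Σ h) = 0`). `χ p · χ p'`: `a = p`, `b = p'`, four times the period. `ψ l · ψ l'`: `f n = (n/l)`, `a = l`,
`h n = (n/l') χ₄(n)^e`, `b = 4 l'`. (`4 p p'` consecutive integers.) -/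
def Stmt_RCY : Prop := ∃ χ ψ : ℕ → ℕ → ℝ, ∀ p : ℕ, p.Prime → p ≠ 2 →
  RC (4 * p) (χ p) ∧ RC (4 * p) (ψ p) ∧
  (∀ q : ℕ, q.Prime → q ≠ p → (IsSquare ((q : ℕ) : ZMod p) ↔ χ p q = 1)) ∧
  (∀ q : ℕ, q.Prime → q ≠ 2 → q ≠ p → (IsSquare ((p : ℕ) : ZMod q) ↔ ψ p q = 1)) ∧
  (∀ q : ℕ, q.Prime → q ≠ 2 → q ≠ p → χ p q ≠ 0 ∧ ψ p q ≠ 0) ∧
  ∀ p' : ℕ, p'.Prime → p' ≠ 2 → p' ≠ p →
    RC (4 * (p * p')) (fun n => χ p n * χ p' n) ∧ RC (4 * (p * p')) (fun n => ψ p n * ψ p' n)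

/-! ## 2. Products over primes -/

/-- `∏_(q ∈ A) (1 - 1/q)⁻¹` -/
noncomputable def EP (A : Finset ℕ) : ℝ := ∏ q ∈ A, (1 - (1 : ℝ) / q)⁻¹

/-- (EPP) Facts on `EP`.

USES RSU. PROOF. (1) induction on `A` with `RSm (A ∪ B) z ≤ RSm A z * RSm B z` (RSU) and `RSm {q} z ≤ Σ_j q^(-j) = (1 - 1/q)⁻¹`. (3) `(1 - 1/q)⁻¹ ≤ exp(1/q + 1/(q (q - 1)))` and Mertens' second theorem
(`Pool.Agent.Lib_helper29.SW.mertens`, `Pool/Agent/Lib_helper29/SW/M0.lean`). (2) `Aᶜ` the primes `≤ z` not in `A`: `log z ≤ RSm A z * RSm Aᶜ z ≤ RSm A z * EP Aᶜ` (RSU (4), (1)) and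
`EP A * EP Aᶜ = EP {q ≤ z} ≤ C log z`. (4) upper bound: Mertens on the interval `(a, z]`; lower bound: `log z ≤ RSm {q ≤ z} z ≤ EP {q ≤ a} * EP (a, z] ≤ C log a * EP (a, z]`. -/
def Stmt_EPP : Prop :=
  (∀ (A : Finset ℕ) (z : ℕ), (∀ q ∈ A, q.Prime) → RSm A z ≤ EP A) ∧
  ∃ C : ℝ, 1 ≤ C ∧
    (∀ (A : Finset ℕ) (z : ℕ), 2 ≤ z → (∀ q ∈ A, q.Prime ∧ q ≤ z) → EP A ≤ C * RSm A z) ∧
    (∀ z : ℕ, 2 ≤ z → EP ((Icc 1 z).filter Nat.Prime) ≤ C * Real.log z) ∧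
    ∀ a z : ℕ, 2 ≤ a → a ≤ z →
      EP ((Ioc a z).filter Nat.Prime) ≤ C * (Real.log z / Real.log a) ∧
      Real.log z / Real.log a ≤ C * EP ((Ioc a z).filter Nat.Prime)

open Classical in
/-- (RO2) One character.

USES ROU2, EPP. PROOF. `A` the set, `S` the integers `k ≤ z` with all prime factors in `A`: `EP A ≤ C RSm A z = C Σ_(k ∈ S) 1/k ≤ C' sqrt(1 + log z/log Q) ≤ C' sqrt(2 log z/log Q)`. -/
def Stmt_RO2 : Prop := ∃ C : ℝ, 0 < C ∧ ∀ (m : ℕ) (χ : ℕ → ℝ), RC m χ → ∀ Q z : ℕ,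
  2 ≤ m → m ^ 8 ≤ Q → Q < z →
  EP ((Ioc Q z).filter (fun q => q.Prime ∧ χ q = 1)) ≤
    C * (Real.log z / Real.log Q) ^ (1 / 2 : ℝ)

open Classical in
/-- (RO4) Two characters.

USES EPP, RO2. PROOF. `A1, A2, A3, A4` the primes in `(Q, z]` with (`χ q`, `χ' q`) = (1, 1), (1, -1), (-1, 1), (-1, -1) (no other values by hypothesis), `E = EP`, multiplicative on disjoint unions, `t = log z/log Q`. (RO2) for `χ`,
`χ'`, `χ χ'`: `E(A1) E(A2) ≤ C t^(1/2)`, `E(A1) E(A3) ≤ C t^(1/2)`, `E(A1) E(A4) ≤ C t^(1/2)`. The product of the three: `E(A1)^2 E(all primes in (Q, z]) ≤ C^3 t^(3/2)`, and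
`t ≤ C E(all)` (EPP): `E(A1)^2 ≤ C^4 t^(1/2)`. -/
def Stmt_RO4 : Prop := ∃ C : ℝ, 0 < C ∧ ∀ (m m' m'' : ℕ) (χ χ' : ℕ → ℝ), RC m χ → RC m' χ' →
  RC m'' (fun n => χ n * χ' n) → ∀ Q z : ℕ, 2 ≤ m → 2 ≤ m' → 2 ≤ m'' → m ^ 8 ≤ Q →
  m' ^ 8 ≤ Q → m'' ^ 8 ≤ Q → Q < z → (∀ q : ℕ, q.Prime → Q < q → χ q ≠ 0 ∧ χ' q ≠ 0) →
  EP ((Ioc Q z).filter (fun q => q.Prime ∧ χ q = 1 ∧ χ' q = 1)) ≤
    C * (Real.log z / Real.log Q) ^ (1 / 4 : ℝ)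

/-- `∏_(q ∣ k) (1 - 1/q)⁻¹` -/
noncomputable def gk (k : ℕ) : ℝ := EP k.primeFactors

/-- (GKB) Bounds for `gk`.

PROOF. `gk(a b) ≤ gk a gk b` (`a, b ≠ 0`: `primeFactors` of the product is the union, the factors are `≥ 1`); `gk 2 = 2`, `gk l ≤ 3/2` for odd primes `l`. `gk k ≤ 2 k^(1/4)`: `(1 - 1/q)⁻¹ ≤ 5/4 ≤ 5^(1/4) ≤ q^(1/4)` for `q ≥ 5`,
`∏_(q ∣ k) q ≤ k`, and `(2/2^(1/4)) ((3/2)/3^(1/4)) ≤ 2` (fourth powers: `8 * 27/16 = 13.5 ≤ 16`). So `gk(2 c d) ≤ 2 * 2 (c d)^(1/4)` and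
`gk(2 (c d)(l p l')) ≤ 2 * (27/8) * 2 (c d)^(1/4)`. -/
def Stmt_GKB : Prop := ∀ c d : ℕ, 1 ≤ c → 1 ≤ d →
  gk (2 * (c * d)) ≤ 4 * ((c : ℝ) * d) ^ (1 / 4 : ℝ) ∧
  ∀ l p l' : ℕ, l.Prime → p.Prime → l'.Prime → l ≠ 2 → p ≠ 2 → l' ≠ 2 →
    gk (2 * (c * d) * (l * p * l')) ≤ 14 * ((c : ℝ) * d) ^ (1 / 4 : ℝ)

open Classical in
/-- the primes `q ≤ z`, `q ∤ k`, with `q ≤ y`, or `q > Q` and not `χ q = χ' q = 1` -/
noncomputable def Good (y Q z k : ℕ) (χ χ' : ℕ → ℝ) : Finset ℕ :=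
  (Icc 1 z).filter (fun q => q.Prime ∧ ¬ q ∣ k ∧ (q ≤ y ∨ (Q < q ∧ ¬ (χ q = 1 ∧ χ' q = 1))))

/-- (LBB) Lower bounds for the sieve sums.

USES RSU, EPP, RO2, RO4. PROOF. `Q = (4 w^2)^8`, `log Q ≤ 32 log w`, `P` = `Good ..`, `P'` the primes `≤ z` not in `P`: `log z ≤ RSm P z * RSm P' z ≤ RSm P z * EP P'` (RSU (4), EPP (1)). `P'` is contained in
`{q ∣ k} ∪ {y < q ≤ min(Q, z)} ∪ {Q < q ≤ z, χ q = χ' q = 1}` and `EP` of a union is at most the product. If `Q < z`: `EP P' ≤ gk k * C (log Q/log y) * C (log z/log Q)^θ'`, `θ' = 1/2` (RO2) resp. `1/4`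
(RO4), so `gk k * RSm P z ≥ C^(-2) log y (log z/log Q)^(1 - θ')`. If `Q ≥ z`: the third set is empty, `EP P' ≤ gk k * C log z/log y`, `gk k * RSm P z ≥ log y/C` and `log z/log w ≤ 32`. -/
def Stmt_LBB : Prop := ∃ c : ℝ, 0 < c ∧
  (∀ (m : ℕ) (χ : ℕ → ℝ), RC m χ → ∀ w y z k : ℕ, 2 ≤ m → m ≤ 4 * w ^ 2 →
    2 ≤ y → y ≤ w → w ≤ z → 1 ≤ k →
    c * Real.log y * (Real.log z / Real.log w) ^ (1 / 2 : ℝ) ≤
      gk k * RSm (Good y ((4 * w ^ 2) ^ 8) z k χ χ) z) ∧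
  ∀ (m m' m'' : ℕ) (χ χ' : ℕ → ℝ), RC m χ → RC m' χ' → RC m'' (fun n => χ n * χ' n) →
    ∀ w y z k : ℕ, 2 ≤ m → 2 ≤ m' → 2 ≤ m'' → m ≤ 4 * w ^ 2 → m' ≤ 4 * w ^ 2 →
    m'' ≤ 4 * w ^ 2 → (∀ q : ℕ, q.Prime → (4 * w ^ 2) ^ 8 < q → χ q ≠ 0 ∧ χ' q ≠ 0) →
    2 ≤ y → y ≤ w → w ≤ z → 1 ≤ k →
    c * Real.log y * (Real.log z / Real.log w) ^ (3 / 4 : ℝ) ≤
      gk k * RSm (Good y ((4 * w ^ 2) ^ 8) z k χ χ') z

/-! ## 3. The sets -/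

/-- `QRC n`, `c^2 ∣ n`, `d^2 ∣ n - 1` and the primes not dividing `c d` divide `n` and `n - 1` at most once -/
def Base (c d n : ℕ) : Prop := QRC n ∧ c ^ 2 ∣ n ∧ d ^ 2 ∣ n - 1 ∧
  ∀ q : ℕ, q.Prime → ¬ q ∣ c * d → ¬ q ^ 2 ∣ n ∧ ¬ q ^ 2 ∣ n - 1

open Classical in
/-- `n` (or `n - 1`) has no prime factor `≤ z` outside `2 c d` -/
noncomputable def T0 (X z c d : ℕ) : Finset ℕ := (Icc 2 X).filter (fun n => Base c d n ∧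
  ((∀ q : ℕ, q.Prime → q ≤ z → ¬ q ∣ 2 * (c * d) → ¬ q ∣ n) ∨
    ∀ q : ℕ, q.Prime → q ≤ z → ¬ q ∣ 2 * (c * d) → ¬ q ∣ n - 1))

open Classical in
/-- `l ∣ n`, `p ∣ n - 1` and no other prime `≤ max l p` outside `2 c d` divides `n` or `n - 1` -/
noncomputable def T1 (X c d l p : ℕ) : Finset ℕ := (Icc 2 X).filter (fun n => Base c d n ∧
  l ∣ n ∧ p ∣ n - 1 ∧ ∀ q : ℕ, q.Prime → q ≤ max l p → ¬ q ∣ 2 * (c * d) * (l * p * l) →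
    ¬ q ∣ n ∧ ¬ q ∣ n - 1)

open Classical in
/-- `l, l'` are the smallest primes of `n`, `p` is the smallest prime of `n - 1` (outside `2 c d`), for `l < l' < p` -/
noncomputable def T2 (X c d l l' p : ℕ) : Finset ℕ := (Icc 2 X).filter (fun n => Base c d n ∧
  l ∣ n ∧ l' ∣ n ∧ p ∣ n - 1 ∧
  (∀ q : ℕ, q.Prime → q ≤ l' → ¬ q ∣ 2 * (c * d) * (l * p * l') → ¬ q ∣ n) ∧
  ∀ q : ℕ, q.Prime → q ≤ p → ¬ q ∣ 2 * (c * d) * (l * p * l') → ¬ q ∣ n - 1)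

open Classical in
/-- `p, p'` are the smallest primes of `n - 1`, `l` is the smallest prime of `n` (outside `2 c d`), for `p < p' < l` -/
noncomputable def T3 (X c d p p' l : ℕ) : Finset ℕ := (Icc 2 X).filter (fun n => Base c d n ∧
  l ∣ n ∧ p ∣ n - 1 ∧ p' ∣ n - 1 ∧
  (∀ q : ℕ, q.Prime → q ≤ l → ¬ q ∣ 2 * (c * d) * (p * l * p') → ¬ q ∣ n) ∧
  ∀ q : ℕ, q.Prime → q ≤ p' → ¬ q ∣ 2 * (c * d) * (p * l * p') → ¬ q ∣ n - 1)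

/-- different odd primes `≤ z` not dividing `c d` -/
def OK1 (z c d l p : ℕ) : Prop := l.Prime ∧ p.Prime ∧ l ≠ 2 ∧ p ≠ 2 ∧ l ≤ z ∧ p ≤ z ∧ l ≠ p ∧
  ¬ l ∣ c * d ∧ ¬ p ∣ c * d

/-- (CS0) USES S2V, RSU, EPP, GKB. PROOF. Two cases; `n` has no such prime (the other is the same). If there is such an `n` then `c`, `d` are coprime (`gcd(n, n - 1) = 1`) and all `n` are congruent
modulo `M = c^2 d^2` to the first one. (S2V) with `P1` = the primes `q ≤ z`, `q ∤ 2 c d`, `P2 = ∅` (`RSm ∅ z = 1`, or `≥ 1` by (RSU)): `≤ (X/M)/RSm P1 z + z^12`, and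
`log z ≤ RSm P1 z * RSm (2 c d).primeFactors z ≤ RSm P1 z * gk (2 (c d)) ≤ RSm P1 z * 4 (c d)^(1/4)` (RSU (4), EPP (1), GKB). -/
def Stmt_CS0 : Prop := ∃ C : ℝ, 0 < C ∧ ∀ X z c d : ℕ, 2 ≤ z → 1 ≤ c → 1 ≤ d →
  ((T0 X z c d).card : ℝ) ≤
    C * X * ((c : ℝ) * d) ^ (1 / 4 : ℝ) / ((c : ℝ) ^ 2 * d ^ 2 * Real.log z) + 2 * (z : ℝ) ^ 12

/-- (PI1) USES S2V, GKB, LBB, RCY. PROOF. `w = max l p`, `Q = (4 w^2)^8`, `k = 2 (c d) (l p l)`, `P1 = Good w Q z k (χ p) (χ p)`, `P2 = Good w Q z k (ψ l) (ψ l)` (RCY). If the set is not empty then `c^2`, `d^2`, `l`, `p` are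
pairwise coprime (`gcd(n, n - 1) = 1`, `l, p ∤ c d`, `l ≠ p`) and all elements are congruent modulo `M = c^2 d^2 l p` to the first one. `q ∈ P1` does not divide `n`: for `q ≤ w` by definition of `T1`; for `q > Q`: if `q ∣ n` then
`q` divides `n` exactly once, `p` divides `n - 1` exactly once (`Base`), so `q` is a square modulo `p` (`QRC`), `χ p q = 1`. `q ∈ P2` does not divide `n - 1`: for `q > Q`: `l` would be a square modulo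
`q`, `ψ l q = 1`. (S2V): `≤ (X/M)/(RSm P1 z RSm P2 z) + z^12`; (LBB) with `m = 4 p` resp. `4 l`, `y = w`: `gk k RSm Pi z ≥ c' log w (log z/log w)^(1/2)`; product: `(gk k)^2 RSm P1 z RSm P2 z ≥ c'^2 log w log z`;
(GKB) `(gk k)^2 ≤ 196 (c d)^(1/2)`. -/
def Stmt_PI1 : Prop := ∃ C : ℝ, 0 < C ∧ ∀ X z c d l p : ℕ, 1 ≤ c → 1 ≤ d → OK1 z c d l p →
  ((T1 X c d l p).card : ℝ) ≤
    C * X * ((c : ℝ) * d) ^ (1 / 2 : ℝ) /
      ((c : ℝ) ^ 2 * d ^ 2 * (l * p * Real.log (max l p : ℕ) * Real.log z)) + (z : ℝ) ^ 12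

/-- (PI2) USES S2V, GKB, LBB, RCY. PROOF. As (PI1), `w = p`, `k = 2 (c d) (l p l')`, `M = c^2 d^2 l l' p`, `P1 = Good l' Q z k (χ p) (χ p)`, `P2 = Good p Q z k (ψ l) (ψ l')`. A prime `q > Q`, `q ∣ n - 1`, divides `n - 1` exactly once,
and `l`, `l'` divide `n` exactly once, so `ψ l q = ψ l' q = 1`. (LBB), moduli `4 p`, and `4 l`, `4 l'`, `4 l l'`, all `≤ 4 p^2`: `gk k RSm P1 z ≥ c' log l' (log z/log p)^(1/2)`,
`gk k RSm P2 z ≥ c' log p (log z/log p)^(3/4)`; product: `c'^2 log l' (log z)^(5/4)/(log p)^(1/4)`. -/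
def Stmt_PI2 : Prop := ∃ C : ℝ, 0 < C ∧ ∀ X z c d l l' p : ℕ, 1 ≤ c → 1 ≤ d →
  OK1 z c d l p → OK1 z c d l' p → l < l' → l' < p →
  ((T2 X c d l l' p).card : ℝ) ≤
    C * X * ((c : ℝ) * d) ^ (1 / 2 : ℝ) * (Real.log p) ^ (1 / 4 : ℝ) /
      ((c : ℝ) ^ 2 * d ^ 2 * (l * l' * p * Real.log l' * (Real.log z) ^ (5 / 4 : ℝ))) +
    (z : ℝ) ^ 12

/-- (PI3) USES S2V, GKB, LBB, RCY. PROOF. As (PI2) with the roles exchanged: `w = l`, `k = 2 (c d) (p l p')`, `M = c^2 d^2 p p' l`, `P1 = Good l Q z k (χ p) (χ p')`, `P2 = Good p' Q z k (ψ l) (ψ l)`. A prime `q > Q`, `q ∣ n`, is a square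
modulo `p` and `p'`: `χ p q = χ p' q = 1`. -/
def Stmt_PI3 : Prop := ∃ C : ℝ, 0 < C ∧ ∀ X z c d p p' l : ℕ, 1 ≤ c → 1 ≤ d →
  OK1 z c d l p → OK1 z c d l p' → p < p' → p' < l →
  ((T3 X c d p p' l).card : ℝ) ≤
    C * X * ((c : ℝ) * d) ^ (1 / 2 : ℝ) * (Real.log l) ^ (1 / 4 : ℝ) /
      ((c : ℝ) ^ 2 * d ^ 2 * (p * p' * l * Real.log p' * (Real.log z) ^ (5 / 4 : ℝ))) +
    (z : ℝ) ^ 12

/-! ## 4. The count -/

/-- (PSS) Sums over primes.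

PROOF. `Σ_(p ≤ x) log p/p ≤ C log x` (see `Pool/Agent/ADS/EV5.lean`, or Mertens in `Pool/Agent/Lib_helper29/SW/M0.lean`), so the sum of `1/p` over a block `(e^(2^j), e^(2^(j+1))]` is `≤ C₀` (also for `p ≤ e`). For `p` in block `j`: `Σ_(l < p) 1/l ≤ C₀ (j + 2)`,
`log p ≥ 2^j`. (1) `≤ 2 Σ_p 1/(p log p) Σ_(l < p) 1/l ≤ 2 Σ_j C₀ C₀ (j + 2) 2^(-j)`. (2) The sum is at most the product of `Σ_(l < l') 1/(l l' log l') ≤ C` (by (1)) and `Σ_(p ≤ z) (log p)^(1/4)/p ≤ Σ_(j ≤ J) C₀ 2^((j+1)/4) ≤ C (log z)^(1/4)`,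
`2^J ≤ log z` (plus the block of `p = 2`). -/
def Stmt_PSS : Prop := ∃ C : ℝ, 0 < C ∧ ∀ z : ℕ, 2 ≤ z →
  ∑ l ∈ (Icc 1 z).filter Nat.Prime, ∑ p ∈ (Icc 1 z).filter Nat.Prime,
    (if l = p then (0 : ℝ) else 1 / (l * p * Real.log (max l p : ℕ))) ≤ C ∧
  ∑ l ∈ (Icc 1 z).filter Nat.Prime, ∑ l' ∈ (Icc 1 z).filter Nat.Prime,
    ∑ p ∈ (Icc 1 z).filter Nat.Prime,
    (if l < l' then (Real.log p) ^ (1 / 4 : ℝ) / (l * l' * p * Real.log l') else (0 : ℝ)) ≤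
    C * (Real.log z) ^ (1 / 4 : ℝ)

/-- (QPT) The partition.

PROOF. `n = c^2 m`, `n - 1 = d^2 m'` with `m`, `m'` squarefree (`Nat.sq_mul_squarefree`); a prime `q ∤ c d` with `q^2 ∣ n` would have `q^2 ∣ m`; the same for `n - 1`: `Base c d n`. `A` = the primes `q ≤ z`, `q ∤ 2 c d`, `q ∣ n`,
`B` = the same for `n - 1`; disjoint. `A = ∅` or `B = ∅`: `T0`. Otherwise `l = min A`, `p = min B`. If `l < p` and `A` has no other element `< p`: `T1`. If `l < p` and `l'` is the smallest element of `A` different from `l` and `l' < p`: `T2`. If `p < l`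
and `B` has no other element `< l`: `T1`; otherwise `T3`. -/
def Stmt_QPT : Prop := ∀ X z L n : ℕ, 2 ≤ n → n ≤ X → QRC n →
  ∃ c d : ℕ, 1 ≤ c ∧ 1 ≤ d ∧ c ^ 2 ∣ n ∧ d ^ 2 ∣ n - 1 ∧ (L < c ∨ L < d ∨ (c ≤ L ∧ d ≤ L ∧
    (n ∈ T0 X z c d ∨ (∃ l p, OK1 z c d l p ∧ n ∈ T1 X c d l p) ∨
    (∃ l l' p, OK1 z c d l p ∧ OK1 z c d l' p ∧ l < l' ∧ l' < p ∧ n ∈ T2 X c d l l' p) ∨
    ∃ p p' l, OK1 z c d l p ∧ OK1 z c d l p' ∧ p < p' ∧ p' < l ∧ n ∈ T3 X c d p p' l)))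

open Classical in
/-- (QSM) The count.

USES QPT, CS0, PI1, PI2, PI3, PSS. PROOF. `X ≥ X₀`, `L = ⌊log X⌋`, `z = ⌊X^(1/60)⌋`. Elements with `c > L` or `d > L` in (QPT): at most `Σ_(c > L) X/c^2 + Σ_(d > L) X/d^2 ≤ 2 X/L`. The others: sum over `c, d ≤ L` of
`|T0| + Σ_(l, p) |T1| + Σ |T2| + Σ |T3|`; by (CS0), (PI1), (PI2), (PI3), (PSS) the main terms are at most `C X/(log z) Σ_(c, d) (c d)^(1/2)/(c^2 d^2)`, `Σ_c c^(-3/2) ≤ 3`; the error terms are at most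
`L^2 (2 + z^2 + 2 z^3) z^12 ≤ 5 (log X)^2 X^(1/4)`. `log z ≥ (log X)/120`. For `2 ≤ X ≤ X₀` enlarge `C` (`X/log X ≥ 1`). -/
def Stmt_QSM : Prop := ∃ C : ℝ, 0 < C ∧ ∀ X : ℕ, 2 ≤ X →
  (((Icc 2 X).filter (fun n => QRC n)).card : ℝ) ≤ C * X / Real.log X

/-- The third main theorem. -/
def MainStatement3 : Prop := ∃ C : ℝ, ∀ x : ℝ, 2 ≤ x →
  ({n : ℕ | (n : ℝ) ≤ x ∧ n % 4 ≠ 1 ∧ AnyOrder n}.ncard : ℝ) ≤ C * x / Real.log x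

/-- (FIN3) Assembly.

USES EPX, PXT, QSM. PROOF. `n % 4 ≠ 1` and `AnyOrder n`: `n` is even (EPX) or `n % 4 = 3` (PXT), so `QRC n`. -/
def Stmt_FIN3 : Prop := MainStatement3

end Pool.Agent.ADG
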