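import Pool.Agent.ADG.St3

/-!
# Project ADG (MP_43d07b_co), part 4: `n = 1 mod 4`, and the final theorem on ALL orders (architect helper96)

THEOREM 4. Let `D` be an affine difference set of order `n = 1 mod 4` in a finite group `G` (any group, any subgroup `N`), `l` a prime dividing
`n` to an odd power and `p` an odd prime dividing `n - 1` exactly once. Then `p` is a square modulo `l` (and `l` is a square modulo `p`).

So `QRC n` holds for ALL orders `n`, and the number of orders `n ≤ x` is at most `C x / log x` (exact order of magnitude: primes are orders).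

PROOF ON PAPER. `Ω` = the cosets `N x`, `G` acts on the right; for `H ≤ G` let `φ(H) = ∏ |H_ω|` over the `H`-orbits. `l = 1 mod 4` (SY2), so (GRP) says: (a) `φ(H)` is a square modulo `l`,
(b) `[G : H] +` the number of `H`-orbits is even. `P ≤ N` of order `p`, a Sylow subgroup of `G`; `M` its normalizer, transitive on `Fix(P)`; `α : M → Aut P` (cyclic of order `p - 1`, `2^(v+1)` the exact power of `2` in
`p - 1`); `A` = the elements of `M` with `α(g)^(2^(v+1)) = 1`, `A'` those with `α(g)^(2^v) = 1`. `[M : A]` is odd, `[A : A'] ≤ 2`. Suppose that `p` is not a square modulo `l`.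
(R) For `P ≤ H ≤ M` with complement `Y`: `φ(H) φ(Y) = p^a ∏ c_O^((p-1)/t_O)` modulo squares, `a` the number of `H`-orbits in `Fix(P)`, the product over the other `H`-orbits `O`, where `|H_ω| = c_O t_O`,
`c_O` the number of the elements centralizing `P`.
The number of `A`-orbits in `Fix(P)` is odd (it divides `[M : A]`). If `A = A'`, or if the stabilizers in `A` of the points of `Fix(P)` are not in `A'`, then the number of `A'`-orbits in `Fix(P)` is odd too, and (R) for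
`A'` (all `(p - 1)/t_O` are even) says that `p` is a square modulo `l`, contradiction. Otherwise: (R) for `A`: `p^a E`, `a` odd, is a square modulo `l`, `E = ∏ c_O` over the set `Z` of `A`-orbits with `A_ω ⊄ A'`
(`t_O = 2^(v+1)`). `φ(A') = ∏_(O ∈ Z) (c_O 2^v)` modulo squares (an orbit with `A_ω ≤ A'` gives two `A'`-orbits with equal stabilizers) and the number of `A'`-orbits is `|Z|` modulo 2, even by (b). So `E` is a square
modulo `l`, and so is `p`, contradiction.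

Every `Stmt_X` is the statement of a module: `theorem X_thm (h : Stmt_Y) .. : Stmt_X` in `Pool/Agent/ADG/X.lean`, namespace
`Pool.Agent.ADG`, with the hypotheses named after USES (or fewer).
-/

set_option autoImplicit false

namespace Pool.Agent.ADG

open Finset Pool.Agent.ADS

/-! ## 1. Sums over double cosets -/

/-- the sum of `f` over the double cosets `N x H`, if `f` is constant on double cosets (see (DCL)) -/
noncomputable def dc {G : Type} [Group G] [Fintype G] (N H : Subgroup G) (f : G → ℚ) : ℚ :=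
  (∑ x : G, f x * sta N H x) / (Nat.card N * Nat.card H)

/-- (DCL) `dc` is the sum over representatives; it is an integer for integer valued functions.

PROOF. A double coset `N x H` has `|N| |H| / sta N H x` elements (see `Pool/Agent/ADG/EPX.lean` or `PFX.lean`, where this is proved) and `sta` is constant on it, so the sum over `N x_i H` of `f(x) sta(x)` is
`f(x_i) |N| |H|`. Second part: representatives exist (for example the quotient by the relation `∃ a ∈ N, ∃ k ∈ H, y = a x k`, `DoubleCoset`, or as in `GRP.lean`). -/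
def Stmt_DCL : Prop := ∀ (G : Type) [Group G] [Fintype G] (N H : Subgroup G),
  (∀ (r : ℕ) (x : Fin r → G), (∀ g : G, ∃! i, ∃ a ∈ N, ∃ k ∈ H, g = a * x i * k) →
    ∀ f : G → ℚ, (∀ a ∈ N, ∀ k ∈ H, ∀ y, f (a * y * k) = f y) → dc N H f = ∑ i, f (x i)) ∧
  ∀ f : G → ℤ, (∀ a ∈ N, ∀ k ∈ H, ∀ y, f (a * y * k) = f y) →
    ∃ k : ℤ, dc N H (fun x => (f x : ℚ)) = k

open Classical in
/-- `0` if `s` is a square modulo `l`, `1` otherwise -/
noncomputable def th (l s : ℕ) : ℚ := if IsSquare ((s : ℕ) : ZMod l) then 0 else 1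

/-- (GRT) The theorem (GRP) for `n = 1 mod 4`, additive form.

USES GRP, INV, SY2, DCL. PROOF. `l = 1 mod 4` (SY2), so `-1` is a square modulo `l` (`ZMod.exists_sq_eq_neg_one_iff`) and (GRP) says that `∏ sta(x_i)` is a square; all `sta(x_i)` divide `|N| = n - 1`, so they are not `0` modulo `l`
(`l ∣ n`). Quadratic character (`legendreSym`, `quadraticChar`, multiplicative): the number of `i` with `sta(x_i)` not a square is even. By (DCL) it is `dc N H (th l (sta ..))`, and `dc N H 1 = r`. -/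
def Stmt_GRT : Prop := ∀ (G : Type) [Group G] [Fintype G] (n : ℕ) (N : Subgroup G) (D : Finset G),
  IsAffineDifferenceSet n N D → n % 4 = 1 → ∀ l : ℕ, l.Prime → Odd (n.factorization l) →
  ∀ H : Subgroup G, (∃ k : ℤ, dc N H (fun _ => 1) + H.index = 2 * k) ∧
    ∃ k : ℤ, dc N H (fun x => th l (sta N H x)) = 2 * k

/-! ## 2. The groups `P Y` -/

/-- the number of the elements of `H ∩ x⁻¹ N x` which centralize `P` -/
noncomputable def cen {G : Type} [Group G] (N P H : Subgroup G) (x : G) : ℕ :=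
  Nat.card {k : G // k ∈ H ∧ x * k * x⁻¹ ∈ N ∧ ∀ u ∈ P, k * u = u * k}

open Classical in
/-- (RTL) Stabilizers in `H = P Y` and in the complement `Y`.

PROOF. `P ∩ Y = ⊥`, `H = P Y` (orders); `D = H ∩ x⁻¹ N x`, `c = cen`. (1) If `P ≤ x⁻¹ N x` then `k = u y ∈ D` iff `y ∈ D`: `|D| = p |Y ∩ x⁻¹ N x|`. (2) Otherwise `D ∩ P = ⊥` and `p ∤ |D|` (`P` is the only subgroup of order `p` of `H`, a normal Sylow
subgroup). `α : D → Aut P` (conjugation) has kernel of order `c`, its image is a subgroup of a cyclic group of order `p - 1`: cyclic of order `t ∣ p - 1`, `|D| = c t`. For `u ∈ P`: `Y ∩ (x u)⁻¹ N (x u) = Y ∩ u⁻¹ D u`, of the same order as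
`{d ∈ D : u⁻¹ d u ∈ Y}`. Let `d = π b` (`π ∈ P`, `b ∈ Y`): `u⁻¹ d u = (u⁻¹ π (b u b⁻¹)) b` is in `Y` iff `u⁻¹ π (b u b⁻¹) = 1` (`P` is abelian), that is `π = u (b u b⁻¹)⁻¹`. If `α(d) = 1`: `π` and `b` commute, `d` has order prime to `p`, so `π = 1` and all `u` are good.
If `α(d) = α(b) ≠ 1`: `u ↦ u (b u b⁻¹)⁻¹` is an injective homomorphism `P → P`, so exactly one `u = u_d` is good. If `t = 1` then all `sta N Y (x u) = c`. If `t > 1`: `d₁ ∈ D` with `α(d₁)` a generator of `α(D)`; `D = ⟨C_D(P), d₁⟩`, so all of `D` is good for `u₁ = u_(d₁)` (the good `d` for a fixed `u` form a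
subgroup), and for `u ≠ u₁` only `C_D(P)` is good. So `sta N Y (x u)` is `|D|` for one `u` and `c` for the `p - 1` others. -/
def Stmt_RTL : Prop := ∀ (G : Type) [Group G] [Fintype G] (N P H Y : Subgroup G) (p : ℕ), p.Prime →
  Nat.card P = p → P ≤ H → Y ≤ H → (∀ h ∈ H, ∀ u ∈ P, h * u * h⁻¹ ∈ P) →
  Nat.card H = p * Nat.card Y → ¬ p ∣ Nat.card Y →
  (∀ x : G, (∀ u ∈ P, x * u * x⁻¹ ∈ N) → sta N H x = p * sta N Y x) ∧
  ∀ x : G, ¬ (∀ u ∈ P, x * u * x⁻¹ ∈ N) →
    (∃ t, t ∣ p - 1 ∧ sta N H x = cen N P H x * t) ∧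
    ∀ g : ℕ → ℚ, ∑ u ∈ univ.filter (fun u : G => u ∈ P), g (sta N Y (x * u)) =
      g (sta N H x) + ((p : ℚ) - 1) * g (cen N P H x)

open Classical in
/-- (RSM) The relation (R), additive form. (`(p - 1) cen/sta = (p - 1)/t` is an integer.)

USES DCL, GRT, RTL, INV. PROOF. Write `s_H = sta N H`, `s_Y = sta N Y`, `c = cen N P H`, `θ = th l`, `T` = the set of `x` with `x P x⁻¹ ≤ N`; `T` and its complement are invariant under `x ↦ a x k`, `a ∈ N`, `k ∈ H`, and so is `c`. (GRT): `Θ(Y) = dc N Y (θ s_Y)` and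
`Θ(H) = dc N H (θ s_H)` are even. `|N| |Y| Θ(Y) = Σ_T θ(s_Y) s_Y + Σ_(T^c) θ(s_Y) s_Y`. On `T`: `s_Y = s_H/p`. On `T^c`, replacing `x` by `x u` (`u ∈ P`) and averaging over `P`, (RTL) with `g(s) = θ(s) s`:
`Σ_(T^c) θ(s_Y) s_Y = (1/p) Σ_(T^c) (θ(s_H) s_H + (p - 1) θ(c) c)`. So with `|H| = p |Y|`: `Θ(Y) = dc N H (1_T θ(s_Y) + 1_(T^c) (θ(s_H) + ((p-1) c/s_H) θ(c)))`, and on `T`: `θ(s_H) = θ(p s_Y) = 1 - θ(s_Y)` (`p` is not a square modulo `l`, so `≠ 0`, and
`s_Y ∣ n - 1` is not `0` modulo `l`). Sum: `Θ(H) + Θ(Y) = dc N H (1_T + 1_(T^c) ((p-1) c/s_H) θ(c)) + 2 dc N H (1_(T^c) θ(s_H))`, the last `dc` is an integer (DCL). -/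
def Stmt_RSM : Prop := ∀ (G : Type) [Group G] [Fintype G] (n : ℕ) (N : Subgroup G) (D : Finset G),
  IsAffineDifferenceSet n N D → n % 4 = 1 → ∀ l : ℕ, l.Prime → Odd (n.factorization l) →
  ∀ (P H Y : Subgroup G) (p : ℕ), p.Prime → ¬ IsSquare ((p : ℕ) : ZMod l) →
  Nat.card P = p → P ≤ H → Y ≤ H → (∀ h ∈ H, ∀ u ∈ P, h * u * h⁻¹ ∈ P) →
  Nat.card H = p * Nat.card Y → ¬ p ∣ Nat.card Y →
  ∃ k : ℤ, dc N H (fun x => if ∀ u ∈ P, x * u * x⁻¹ ∈ N then 1 else
    ((p : ℚ) - 1) * cen N P H x / sta N H x * th l (cen N P H x)) = 2 * k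

/-! ## 3. The normalizer of `P` -/

/-- the data `P ≤ N`, `M`, `A`, `A'`, `v` -/
structure PD {G : Type} [Group G] (N P M A A' : Subgroup G) (p v : ℕ) : Prop where
  prime : p.Prime
  card_P : Nat.card P = p
  le_N : P ≤ N
  not_sq : ¬ p ^ 2 ∣ Nat.card N
  two : (p - 1).factorization 2 = v + 1
  mem_M : ∀ g, g ∈ M ↔ ∀ k, k ∈ P ↔ g * k * g⁻¹ ∈ P
  mem_A : ∀ g, g ∈ A ↔ g ∈ M ∧ ∀ u ∈ P, g ^ 2 ^ (v + 1) * u = u * g ^ 2 ^ (v + 1)
  mem_A' : ∀ g, g ∈ A' ↔ g ∈ M ∧ ∀ u ∈ P, g ^ 2 ^ v * u = u * g ^ 2 ^ v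
  odd_index : ∃ o, Odd o ∧ Nat.card M = o * Nat.card A
  index_two : Nat.card A = Nat.card A' ∨ Nat.card A = 2 * Nat.card A'

/-- (MST) Existence of the data and of complements.

PROOF. `p ∣ n - 1` once, `p ∤ n + 1` (`p` is odd), `|G| = (n - 1)(n + 1)`: `p^2 ∤ |G|`. `P ≤ N` a Sylow `p`-subgroup. `α : M → Aut P`, `Aut P ≅ (ℤ/p)ˣ` cyclic of order `p - 1` (`MulAut`, `ZMod.unitsEquiv..`; or: `g k₀ g⁻¹ = k₀^(α g)` for a generator `k₀` of `P`, `α g ∈ (ZMod p)ˣ`); `A`, `A'` are the preimages of the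
subgroups `{a : a^(2^(v+1)) = 1}`, `{a : a^(2^v) = 1}` of orders `2^(v+1)`, `2^v` of the cyclic group. `[M : A]` divides the index `(p - 1)/2^(v+1)`, odd; `[A : A']` divides `2`. Complements: `P ≤ A'` (`P` is abelian), normal, of order prime to the index: Schur-Zassenhaus
`Subgroup.exists_right_complement'_of_coprime` in the groups `A`, `A'`. -/
def Stmt_MST : Prop := ∀ (G : Type) [Group G] [Fintype G] (n : ℕ) (N : Subgroup G) (D : Finset G),
  IsAffineDifferenceSet n N D → ∀ p : ℕ, p.Prime → p ≠ 2 → (n - 1).factorization p = 1 →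
  ∃ (P M A A' Y Y' : Subgroup G) (v : ℕ), PD N P M A A' p v ∧
    Y ≤ A ∧ Nat.card A = p * Nat.card Y ∧ ¬ p ∣ Nat.card Y ∧
    Y' ≤ A' ∧ Nat.card A' = p * Nat.card Y' ∧ ¬ p ∣ Nat.card Y'

/-- (TVL) The numbers `t`.

PROOF. `D = A ∩ x⁻¹ N x`, `α : D → Aut P` cyclic, kernel of order `cen`, image cyclic of order `t`, `sta = cen * t`. The elements of the image satisfy `a^(2^(v+1)) = 1`, so `t ∣ 2^(v+1)`. If `D ≤ A'` (in particular for `A'` instead of `A`) they satisfy `a^(2^v) = 1`, so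
`t ∣ 2^v`. If `g ∈ D`, `g ∉ A'`: `α(g)^(2^v) ≠ 1`, so `α(g)` has order `2^(v+1)` and `t = 2^(v+1)`; and `D ∩ A'` has index `2` in `D` (`[A : A'] ≤ 2`). -/
def Stmt_TVL : Prop := ∀ (G : Type) [Group G] [Fintype G] (N P M A A' : Subgroup G) (p v : ℕ),
  PD N P M A A' p v → ∀ x : G,
  (∃ j ≤ v, sta N A' x = cen N P A' x * 2 ^ j) ∧
  ((∀ k ∈ A, x * k * x⁻¹ ∈ N → k ∈ A') →
    sta N A' x = sta N A x ∧ ∃ j ≤ v, sta N A x = cen N P A x * 2 ^ j) ∧
  ((¬ ∀ k ∈ A, x * k * x⁻¹ ∈ N → k ∈ A') →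
    sta N A x = cen N P A x * 2 ^ (v + 1) ∧ sta N A x = 2 * sta N A' x)

open Classical in
/-- (TCT) The orbits in `Fix(P)`.

PROOF. `T = {x : x P x⁻¹ ≤ N} = N M`: for `x ∈ T` the groups `P`, `x P x⁻¹` are Sylow `p`-subgroups of `N` (`p` divides `|N|` once), `a x P x⁻¹ a⁻¹ = P` for an `a ∈ N`, `a x ∈ M` (see PFX.lean, EPX.lean). `|T| = |N| |M| / |N ∩ M|`. For `x = a m ∈ T` and `B = A` or `A'` (normal in `M`): `B ∩ x⁻¹ N x = m⁻¹ (B ∩ N) m`, so
`sta N B x = |N ∩ B|` and `dc N B 1_T = |T| |N ∩ B| / (|N| |B|) = (|M| / |B|) / (|N ∩ M| / |N ∩ B|)`. `B = A`: `o = |M| / |A|` is odd and divisible by `[N ∩ M : N ∩ A]` (an index of `A N'`, `N' = N ∩ M`: `|A N'| = |A| |N'| / |N ∩ A|` divides `|M|`): odd.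
`B = A'`: if `|A| = |A'|` then `A = A'`. If `|A| = 2 |A'|` and `N ∩ A ≤ A'`: second alternative: for `x = a m ∈ T`, `k ∈ A`, `x k x⁻¹ ∈ N`: `m k m⁻¹ ∈ N ∩ A ≤ A'`, so `k ∈ A'`. If `N ∩ A` is not contained in `A'` then `|N ∩ A| = 2 |N ∩ A'|` and `dc N A' 1_T = dc N A 1_T`. -/
def Stmt_TCT : Prop := ∀ (G : Type) [Group G] [Fintype G] (N P M A A' : Subgroup G) (p v : ℕ),
  PD N P M A A' p v →
  (∃ a : ℕ, Odd a ∧ dc N A (fun x => if ∀ u ∈ P, x * u * x⁻¹ ∈ N then 1 else 0) = a) ∧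
  ((∃ a : ℕ, Odd a ∧ dc N A' (fun x => if ∀ u ∈ P, x * u * x⁻¹ ∈ N then 1 else 0) = a) ∨
    (Nat.card A = 2 * Nat.card A' ∧ ∀ x : G, (∀ u ∈ P, x * u * x⁻¹ ∈ N) →
      ∀ k ∈ A, x * k * x⁻¹ ∈ N → k ∈ A'))

/-- (PXU) The theorem for `n = 1 mod 4`.

USES DCL, GRT, RSM, MST, TVL, TCT, SY2, INV. PROOF. Suppose that `p` is not a square modulo `l`. Data (MST); `T`, `θ = th l`, `c = cen N P A`. First alternative of (TCT): (RSM) for `H = A'`, `Y = Y'`: `dc N A' (1_T + 1_(T^c) ((p-1) c'/s') θ(c'))` is even; `(p-1) c'/s' = (p-1)/2^j`, `j ≤ v` (TVL), is an even integer, so (DCL) the second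
part is an even integer, and `dc N A' 1_T` is even: contradiction. Second alternative: `Z` = the set of `x` such that not (`∀ k ∈ A, x k x⁻¹ ∈ N → k ∈ A'`), contained in `T^c`. (RSM) for `H = A`, `Y`: on `T^c` minus `Z` `(p-1) c/s` is an even integer, on `Z` it is `(p-1)/2^(v+1)`, odd (TVL): so `dc N A 1_T + dc N A (1_Z θ(c))` is
even. (GRT) for `A'`: `dc N A' 1 + [G : A']` is even, `[G : A'] = 2 [G : A]`; as `|A| = 2 |A'|` and `sta N A' = sta N A / 2` on `Z`, `= sta N A` outside (TVL), `dc N A' f = dc N A (f (1_Z + 2 1_(Z^c)))` for all `f`: so `dc N A 1_Z` is even (`f = 1`), and with `f = θ(sta N A')`: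
`dc N A (1_Z θ(2^v c))` is even (on `Z`: `sta N A' = 2^v c`). `θ(2^v c) = θ(c) + κ - 2 κ θ(c)`, `κ = θ(2^v) ∈ {0, 1}` (`2` and `c ∣ n - 1` are not `0` modulo `l`). So `dc N A (1_Z θ(c))` is even, `dc N A 1_T` is even: contradiction with (TCT). (All `dc` of integer valued functions
that are constant on double cosets are integers (DCL).) So `p` is a square modulo `l`; `l = 1 mod 4` (SY2), quadratic reciprocity: `l` is a square modulo `p`. -/
def Stmt_PXU : Prop := ∀ (G : Type) [Group G] [Finite G] (n : ℕ) (N : Subgroup G) (D : Finset G),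
  IsAffineDifferenceSet n N D → n % 4 = 1 → ∀ p : ℕ, p.Prime → p ≠ 2 →
  (n - 1).factorization p = 1 → ∀ l : ℕ, l.Prime → Odd (n.factorization l) →
  IsSquare ((l : ℕ) : ZMod p)

/-! ## 4. The final theorem -/

/-- The final theorem: the number of orders up to `x` has the exact order of magnitude `x / log x`; and the square condition. -/
def MainStatement4 : Prop :=
  (∀ n : ℕ, AnyOrder n → QRC n) ∧
  ∃ c C : ℝ, 0 < c ∧ ∀ x : ℝ, 2 ≤ x →
    c * x / Real.log x ≤ ({n : ℕ | (n : ℝ) ≤ x ∧ AnyOrder n}.ncard : ℝ) ∧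
    ({n : ℕ | (n : ℝ) ≤ x ∧ AnyOrder n}.ncard : ℝ) ≤ C * x / Real.log x

/-- (FIN4) Assembly.

USES EPX, PXT, PXU, QSM. PROOF. `QRC n`: (EPX), (PXT), (PXU) for `n` even, `n = 3 mod 4`, `n = 1 mod 4`. Upper bound (QSM), as `Pool/Agent/ADG/FIN3.lean`. Lower bound: every prime is an order (`Pool.Agent.ADS.BOSE_thm`, a cyclic group) and Chebyshev (`Chebyshev.pi_ge'`, Mathlib). -/
def Stmt_FIN4 : Prop := MainStatement4

end Pool.Agent.ADG
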