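import Pool.Agent.ADG.St4

/-!
# Project ADG (MP_43d07b_co), part 5: almost all orders `n ≠ 0 mod 4` are a prime times a square (architect helper96)

THEOREM 5. There is `C` such that for `x ≥ 2` at most `C x / (log x)^(13/12)` integers `n ≤ x`, `n ≠ 0 mod 4`, which are not of the form `q s^2` or `2 q s^2` with a prime `q`, are orders
of affine difference sets in finite groups (any group, any subgroup). (The number of all orders `≤ x` is of exact order `x / log x`, part 4; so this is `100` per cent of the orders `n ≠ 0 mod 4`.)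

PROOF ON PAPER. `n` an order, `n = c^2 m`, `n - 1 = d^2 m'`, `m`, `m'` squarefree; the odd primes `l ∣ m` satisfy `κ(l) = 1` for a real character `κ` modulo 8 depending on `n mod 8` (Bruck-Ryser for `n = 1, 2 mod 4`, (SY2) for `n = 3 mod 4`) and are squares modulo all odd primes
`p ∣ n - 1`, `p ∤ c d` (`QRC`). Let `V = exp((log X)^(1/5))`, `W = V^4`, `z = X^(1/60)`, `T = (log X)^2`, `c, d ≤ T`; `m` has at least two odd prime factors, `l` the smallest one.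
(A) `l ≤ W`, some `p ≤ W`: sieve `n` by the `q` with `κ(q) = -1` and the large `q` with `(q/p) = -1` (dimension 3/4), `n - 1` by the large `q` with `(l/q) = -1` (1/2): `X (log W)^(3/4) / (l p (log z)^(5/4))`.
(B) `l ≤ W`, `n - 1` has no prime `≤ W`: `n` by the `q` with `κ(q) = -1` (1/2), `n - 1` by all `q ≤ W` and the large `q` with `(l/q) = -1`: `X / (l (log z) (log W)^(1/2))`.
(C) `l > W`: then `l ≤ √X`. `n` by all `q < l` and the `q > l` with `κ(q) = -1`; `n - 1` by the `q ∈ (T, V]` and the `q > l^16` with `(l/q) = -1`. If `Σ_(T < q ≤ V) (l/q)/q ≤ 1`: `X / (l (log z) (log V / log T)^(1/2))`. The other `l` are rare: `Σ 1/l ≤ C / log X` (second moment), and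
for them one has `X / (l log z)`.

Every `Stmt_X` is the statement of a module: `theorem X_thm (h : Stmt_Y) .. : Stmt_X` in `Pool/Agent/ADG/X.lean`, namespace
`Pool.Agent.ADG`, with the hypotheses named after USES (or fewer).
-/

set_option autoImplicit false

namespace Pool.Agent.ADG

open Finset Pool.Agent.ADS

/-! ## 1. Characters and lower bounds -/

/-- (RCK) The characters of (RCY) together with the characters `κ r` modulo 8.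

PROOF. `χ`, `ψ` as in `Pool/Agent/ADG/RCY.lean` (explicit functions `qc`, `x4` there; the same proof). `κ r` for `r = 1, 5, 2, 6`: `1` at `1, 5`, `-1` at `3, 7` modulo 8; `r = 3`: `1` at `1, 3`, `-1` at `5, 7`; `r = 7`: `1` at `1, 7`, `-1` at `3, 5`; `0` at even numbers (`Cond` gives the third property). The sum of
`κ r · χ p` over `8 p` consecutive integers is `0`: `κ r` is periodic modulo `8` with sum `0`, `χ p` is periodic modulo `p`, `gcd(8, p) = 1`. -/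
def Stmt_RCK : Prop := ∃ κ χ ψ : ℕ → ℕ → ℝ,
  (∀ r : ℕ, r < 8 → r % 4 ≠ 0 → RC 8 (κ r) ∧ (∀ q : ℕ, q.Prime → q ≠ 2 → κ r q ≠ 0) ∧
    (∀ n : ℕ, n % 8 = r → Cond n → ∀ q : ℕ, q.Prime → q ≠ 2 → Odd (n.factorization q) →
      κ r q = 1) ∧
    ∀ p : ℕ, p.Prime → p ≠ 2 → RC (8 * p) (fun n => κ r n * χ p n)) ∧
  ∀ p : ℕ, p.Prime → p ≠ 2 →
  RC (4 * p) (χ p) ∧ RC (4 * p) (ψ p) ∧
  (∀ q : ℕ, q.Prime → q ≠ p → (IsSquare ((q : ℕ) : ZMod p) ↔ χ p q = 1)) ∧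
  (∀ q : ℕ, q.Prime → q ≠ 2 → q ≠ p → (IsSquare ((p : ℕ) : ZMod q) ↔ ψ p q = 1)) ∧
  (∀ q : ℕ, q.Prime → q ≠ 2 → q ≠ p → χ p q ≠ 0 ∧ ψ p q ≠ 0)

open Classical in
/-- the primes `q ≤ z`, `q ∤ k`, with `κ q ≠ 1`, or `q > Q` and `χ q ≠ 1` -/
noncomputable def G1 (Q z k : ℕ) (κ χ : ℕ → ℝ) : Finset ℕ :=
  (Icc 1 z).filter (fun q => q.Prime ∧ ¬ q ∣ k ∧ (κ q ≠ 1 ∨ (Q < q ∧ χ q ≠ 1)))

open Classical in
/-- the primes `q ≤ z`, `q ∤ k`, with `q ≤ y` or `κ q ≠ 1` -/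
noncomputable def G2 (y z k : ℕ) (κ : ℕ → ℝ) : Finset ℕ :=
  (Icc 1 z).filter (fun q => q.Prime ∧ ¬ q ∣ k ∧ (q ≤ y ∨ κ q ≠ 1))

open Classical in
/-- the primes `q ≤ z`, `q ∤ k`, with `ψ q ≠ 1`, and `T < q ≤ V` or `q > Q` -/
noncomputable def G3 (T V Q z k : ℕ) (ψ : ℕ → ℝ) : Finset ℕ :=
  (Icc 1 z).filter (fun q => q.Prime ∧ ¬ q ∣ k ∧ ψ q ≠ 1 ∧ ((T < q ∧ q ≤ V) ∨ Q < q))

/-- (LB3) USES RSU, EPP, RO2, RO4. PROOF. As (LBB), see `Pool/Agent/ADG/LBB.lean`. `Q = (4 w^2)^8`, `log Q ≤ 32 log w`. The primes `≤ z` outside `G1` are in `{q ∣ k} ∪ {q ≤ min(Q, z), κ q = 1} ∪ {Q < q ≤ z, κ q = χ q = 1}`. `EP {q ≤ Y, κ q = 1} ≤ C (log Y)^(1/2)` for `Y ≥ 2`: `EP {q ≤ 8^8}` is a constant and (RO2)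
with modulus 8 for `(8^8, Y]`. Third set (RO4): `≤ C (log z / log Q)^(1/4)`. `log z ≤ RSm P z * EP P'`. If `Q < z`: `gk k RSm ≥ c log z / ((log Q)^(1/2) (log z/log Q)^(1/4)) = c (log z)^(1/2) (log z/log Q)^(1/4)`; if `Q ≥ z`: `gk k RSm ≥ c (log z)^(1/2)` and `log z ≤ 32 log w`. -/
def Stmt_LB3 : Prop := ∃ c : ℝ, 0 < c ∧ ∀ (m m'' : ℕ) (κ χ : ℕ → ℝ), RC 8 κ → RC m χ →
  RC m'' (fun n => κ n * χ n) → ∀ w z k : ℕ, 2 ≤ m → 2 ≤ m'' → m ≤ 4 * w ^ 2 →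
  m'' ≤ 4 * w ^ 2 → (∀ q : ℕ, q.Prime → (4 * w ^ 2) ^ 8 < q → κ q ≠ 0 ∧ χ q ≠ 0) →
  2 ≤ w → w ≤ z → 1 ≤ k →
  c * (Real.log z) ^ (1 / 2 : ℝ) * (Real.log z / Real.log w) ^ (1 / 4 : ℝ) ≤
    gk k * RSm (G1 ((4 * w ^ 2) ^ 8) z k κ χ) z

/-- (LB4) USES RSU, EPP, RO2. PROOF. The primes `≤ z` outside `G2` are in `{q ∣ k} ∪ {y < q ≤ z, κ q = 1}`. `EP` of the last set is at most `C (log z/log y)^(1/2)`: for `y ≥ 8^8` (RO2) with modulus 8, `Q = y` (empty for `y = z`); for `y < 8^8` (RO2) for `(8^8, z]` and a constant for the primes `≤ 8^8`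
(`log y` is bounded). `log z ≤ RSm P z * EP P'`. -/
def Stmt_LB4 : Prop := ∃ c : ℝ, 0 < c ∧ ∀ κ : ℕ → ℝ, RC 8 κ → ∀ y z k : ℕ, 2 ≤ y → y ≤ z →
  1 ≤ k → c * (Real.log z * Real.log y) ^ (1 / 2 : ℝ) ≤ gk k * RSm (G2 y z k κ) z

/-- (LB5) USES RSU, EPP, RO2. PROOF. `B = {T < q ≤ V, ψ q = 1}`: `ψ q = ± 1` on `(T, V]`, so `Σ_(q ∈ B) 1/q = (1/2)(Σ_(T < q ≤ V) 1/q + Σ ψ q/q) ≤ (1/2) Σ 1/q + 1/2`; `(1 - 1/q)⁻¹ ≤ exp(1/q + 1/(q (q - 1)))` and `exp(1/q) ≤ (1 - 1/q)⁻¹`, so `EP B ≤ C (EP (T, V])^(1/2) ≤ C (log V/log T)^(1/2)` (EPP).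
(1) The primes `≤ z` outside `G3 T V z z k ψ` are in `{q ∣ k} ∪ {q ≤ T} ∪ B ∪ {V < q ≤ z}`: `EP ≤ gk k C log T (log V/log T)^(1/2) (log z/log V)`. (2) `Q = (4 w^2)^8`: if `Q < z` they are in `{q ∣ k} ∪ {q ≤ T} ∪ B ∪ {V < q ≤ Q} ∪ {Q < q ≤ z, ψ q = 1}`: `EP ≤ gk k C log T (log V/log T)^(1/2) (log Q/log V) (log z/log Q)^(1/2)`
(RO2), `log Q ≤ 32 log w`; if `Q ≥ z` as (1), `log z ≤ 32 log w`. `log z ≤ RSm P z * EP P'`. -/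
def Stmt_LB5 : Prop := ∃ c : ℝ, 0 < c ∧ ∀ (m : ℕ) (ψ : ℕ → ℝ), RC m ψ → ∀ T V w z k : ℕ,
  2 ≤ T → T ≤ V → V ≤ z → 1 ≤ k → (∀ q : ℕ, q.Prime → T < q → q ≤ V → ψ q ≠ 0) →
  ∑ q ∈ (Ioc T V).filter Nat.Prime, ψ q / q ≤ 1 →
  c * (Real.log V / Real.log T) ^ (1 / 2 : ℝ) ≤ gk k * RSm (G3 T V z z k ψ) z ∧
  (2 ≤ m → m ≤ 4 * w ^ 2 → V ≤ w → w ≤ z →
    c * (Real.log V / Real.log T * (Real.log z / Real.log w)) ^ (1 / 2 : ℝ) ≤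
      gk k * RSm (G3 T V ((4 * w ^ 2) ^ 8) z k ψ) z)

open Classical in
/-- `Σ_(T < q ≤ V) (l/q)/q` for primes `l > V` -/
noncomputable def SS (T V l : ℕ) : ℝ :=
  ∑ q ∈ (Ioc T V).filter Nat.Prime, (if IsSquare ((l : ℕ) : ZMod q) then (1 : ℝ) else -1) / q

open Classical in
/-- (SMO) Second moment.

USES RCY. PROOF. `l > V^4` prime, `q ≤ V`: `q ≠ l`, so the term is `χ q l / q` (`χ q l = 1` iff square, `χ q l ≠ 0`). The sum is at most `Σ_(V^4 < k ≤ Y) (1/k) (Σ_q χ q k/q)^2 = Σ_(q, q') (1/(q q')) Σ_k χ q k χ q' k/k`. `q = q'`: `≤ Σ_(q > T) (1/q^2)(1 + log Y) ≤ (1 + log Y)/T`. `q ≠ q'`: the sums of `χ q χ q'` over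
`4 q q'` consecutive integers are `0`, partial summation: `|Σ_k| ≤ 4 q q'/V^4`; the sum over `q, q' ≤ V` is at most `4/V^2`. -/
def Stmt_SMO : Prop := ∃ C : ℝ, 0 < C ∧ ∀ T V Y : ℕ, 2 ≤ T → T ≤ V → 1 ≤ Y →
  ∑ l ∈ (Ioc (V ^ 4) Y).filter (fun l => l.Prime ∧ 1 < SS T V l), (1 : ℝ) / l ≤
    C * ((1 + Real.log Y) / T + 1 / (V : ℝ) ^ 2)

/-! ## 2. The sets -/

/-- as `Base`, with `Cond n` and `n = r mod 8` -/
def Base5 (c d r n : ℕ) : Prop := QRC n ∧ Cond n ∧ n % 8 = r ∧ c ^ 2 ∣ n ∧ d ^ 2 ∣ n - 1 ∧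
  ∀ q : ℕ, q.Prime → ¬ q ∣ c * d → ¬ q ^ 2 ∣ n ∧ ¬ q ^ 2 ∣ n - 1

open Classical in
noncomputable def TA (X c d r l p : ℕ) : Finset ℕ := (Icc 2 X).filter (fun n =>
  Base5 c d r n ∧ c ^ 2 * l ∣ n ∧ Odd (n.factorization l) ∧ p ∣ n - 1)

open Classical in
noncomputable def TB (X W c d r l : ℕ) : Finset ℕ := (Icc 2 X).filter (fun n =>
  Base5 c d r n ∧ c ^ 2 * l ∣ n ∧ Odd (n.factorization l) ∧
  ∀ q : ℕ, q.Prime → q ≤ W → ¬ q ∣ 2 * (c * d) → ¬ q ∣ n - 1)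

open Classical in
noncomputable def TC (X c d r l : ℕ) : Finset ℕ := (Icc 2 X).filter (fun n =>
  Base5 c d r n ∧ c ^ 2 * l ∣ n ∧ Odd (n.factorization l) ∧
  ∀ q : ℕ, q.Prime → q < l → ¬ q ∣ 2 * (c * d) → ¬ q ∣ n)

/-- (TAC) USES S2V, GKB, LBB, LB3, RCK. PROOF. As `Pool/Agent/ADG/PI1.lean`. `w = max l p`, `Q = (4 w^2)^8`, `k = 2 (c d) (l p l)`, `P1 = G1 Q z k (κ r) (χ p)`, `P2 = Good 2 Q z k (ψ l) (ψ l)`. If the set is not empty: `c^2 l ∣ n` and `d^2 p ∣ n - 1` (`p ∤ d`) are coprime, all elements are congruent modulo `M = c^2 l d^2 p` to the first one.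
`q ∈ P1`, `q ∣ n`: `q ∤ c d`, so `q` divides `n` exactly once and `κ r q = 1`; if `q > Q` then `χ p q = 1` by `QRC` (`p` divides `n - 1` exactly once): contradiction. `q ∈ P2` (`q ≠ 2`), `q ∣ n - 1`: exactly once, `ψ l q = 1` by `QRC`. (S2V), (LB3) with moduli `4 p`, `8 p ≤ 4 w^2`, (LBB) first part with `y = 2`:
`(gk k)^2 RSm P1 z RSm P2 z ≥ c (log z)^(1/2) (log z/log w)^(1/4) (log z/log w)^(1/2)`; `(gk k)^2 ≤ 196 (c d)^(1/2)` (GKB). -/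
def Stmt_TAC : Prop := ∃ C : ℝ, 0 < C ∧ ∀ X z c d r l p : ℕ, 1 ≤ c → 1 ≤ d → r < 8 → r % 4 ≠ 0 →
  l.Prime → p.Prime → l ≠ 2 → p ≠ 2 → ¬ p ∣ c * d → l ≤ z → p ≤ z →
  ((TA X c d r l p).card : ℝ) ≤
    C * X * ((c : ℝ) * d) ^ (1 / 2 : ℝ) * (Real.log (max l p : ℕ)) ^ (3 / 4 : ℝ) /
      ((c : ℝ) ^ 2 * d ^ 2 * (l * p * (Real.log z) ^ (5 / 4 : ℝ))) + (z : ℝ) ^ 12

/-- (TBC) USES S2V, GKB, LBB, LB4, RCK. PROOF. `k = 2 (c d) (l l l)`, `M = c^2 l d^2`, `P1 = G2 2 z k (κ r)`, `P2 = Good W ((4 W^2)^8) z k (ψ l) (ψ l)`. (LB4) with `y = 2`: `gk k RSm P1 z ≥ c (log z)^(1/2)`; (LBB) first part, `w = y = W`, modulus `4 l`: `gk k RSm P2 z ≥ c log W (log z/log W)^(1/2)`. The rest as (TAC). -/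
def Stmt_TBC : Prop := ∃ C : ℝ, 0 < C ∧ ∀ X z W c d r l : ℕ, 1 ≤ c → 1 ≤ d → r < 8 → r % 4 ≠ 0 →
  l.Prime → l ≠ 2 → l ≤ W → W ≤ z →
  ((TB X W c d r l).card : ℝ) ≤
    C * X * ((c : ℝ) * d) ^ (1 / 2 : ℝ) /
      ((c : ℝ) ^ 2 * d ^ 2 * (l * (Real.log W) ^ (1 / 2 : ℝ) * Real.log z)) + (z : ℝ) ^ 12

/-- (TCC) USES S2V, GKB, LBB, LB4, LB5, RCK. PROOF. `k = 2 (c d) (l l l)`, `M = c^2 l d^2`. `P1 = G2 (min l z) z k (κ r)` (`q ≤ l`, `q ∤ k` implies `q < l`): `gk k RSm P1 z ≥ c (log z log (min l z))^(1/2)`. First bound: `l ≤ z`: `P2 = Good 2 ((4 l^2)^8) z k (ψ l) (ψ l)`, `gk k RSm P2 z ≥ c (log z/log l)^(1/2)`; `l > z`: `P2 = ∅`. Second bound: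
`l ≤ z`: `P2 = G3 T V ((4 l^2)^8) z k (ψ l)`, (LB5) second part with `w = l`; `l > z`: `P2 = G3 T V z z k (ψ l)`, (LB5) first part. (`SS T V l = Σ ψ l q/q` as `V < l`, `T ≥ 2`: `ψ l q = 1` if `l` is a square modulo `q`, `-1` otherwise.) In both cases the product is `≥ c log z` resp. `≥ c log z (log V/log T)^(1/2)`. -/
def Stmt_TCC : Prop := ∃ C : ℝ, 0 < C ∧ ∀ X z c d r l : ℕ, 1 ≤ c → 1 ≤ d → r < 8 → r % 4 ≠ 0 →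
  l.Prime → l ≠ 2 → 2 ≤ z →
  ((TC X c d r l).card : ℝ) ≤
    C * X * ((c : ℝ) * d) ^ (1 / 2 : ℝ) / ((c : ℝ) ^ 2 * d ^ 2 * (l * Real.log z)) +
      (z : ℝ) ^ 12 ∧
  ∀ T V : ℕ, 2 ≤ T → T ≤ V → V ≤ z → V < l → SS T V l ≤ 1 →
  ((TC X c d r l).card : ℝ) ≤
    C * X * ((c : ℝ) * d) ^ (1 / 2 : ℝ) * (Real.log T) ^ (1 / 2 : ℝ) /
      ((c : ℝ) ^ 2 * d ^ 2 * (l * (Real.log V) ^ (1 / 2 : ℝ) * Real.log z)) + (z : ℝ) ^ 12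

/-! ## 3. The count -/

/-- the forms `q s^2` and `2 q s^2`, `q` a prime -/
def Form5 (n : ℕ) : Prop := ∃ q s : ℕ, q.Prime ∧ (n = q * s ^ 2 ∨ n = 2 * q * s ^ 2)

/-- (PT5) The partition.

PROOF. `n = c^2 m`, `n - 1 = d^2 m'`, `m`, `m'` squarefree (see `Pool/Agent/ADG/QPT.lean`). If `m` has no odd prime factor: `m = 1` or `2`. If it has exactly one, `m = q` or `2 q`: `Form5`. Otherwise `l` the smallest odd prime factor of `m`, `c^2 l ∣ n`, `v_l(n)` odd. If `l ≤ W`: if some prime `p ≤ W`, `p ∤ 2 c d`, divides `n - 1`: `TA`;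
otherwise `TB`. If `l > W`: `l < l'`, `l l' ∣ m`, so `l^2 ≤ X`; a prime `q < l`, `q ∤ 2 c d`, `q ∣ n`, would be an odd prime factor of `m` smaller than `l`: `TC`. -/
def Stmt_PT5 : Prop := ∀ X W L n : ℕ, 2 ≤ n → n ≤ X → n % 4 ≠ 0 → QRC n → Cond n → ¬ Form5 n →
  ∃ c d : ℕ, 1 ≤ c ∧ 1 ≤ d ∧ c ^ 2 ∣ n ∧ d ^ 2 ∣ n - 1 ∧ (L < c ∨ L < d ∨ (c ≤ L ∧ d ≤ L ∧
    (n = c ^ 2 ∨ n = 2 * c ^ 2 ∨
    (∃ l p, l.Prime ∧ p.Prime ∧ l ≠ 2 ∧ p ≠ 2 ∧ ¬ p ∣ c * d ∧ l ≤ W ∧ p ≤ W ∧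
      n ∈ TA X c d (n % 8) l p) ∨
    (∃ l, l.Prime ∧ l ≠ 2 ∧ l ≤ W ∧ n ∈ TB X W c d (n % 8) l) ∨
    ∃ l, l.Prime ∧ l ≠ 2 ∧ W < l ∧ l ^ 2 ≤ X ∧ n ∈ TC X c d (n % 8) l)))

open Classical in
/-- (SM5) The count.

USES PT5, TAC, TBC, TCC, SMO. PROOF. As `Pool/Agent/ADG/QSM.lean`. `X ≥ X₀`, `L = T = ⌊(log X)^2⌋`, `V = ⌊exp((log X)^(1/5))⌋`, `W = V^4`, `z = ⌊X^(1/60)⌋` (`T ≤ V`, `W ≤ z`). `c > L` or `d > L`: `≤ 2 X/L`. `n = c^2`, `2 c^2`: `≤ 2 √X`. The others: sum over `c, d ≤ L`, `r < 8` (`Σ (c d)^(1/2)/(c^2 d^2) ≤ 9`), and over `l`, `p`: with `Σ_(q ≤ X) 1/q ≤ C log log X`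
(Mertens, see PSM.lean, PSS.lean): (A) `C X (log log X)^2 (log X)^(3/20) / (log X)^(5/4)`, (B) `C X log log X / ((log X)^(1/10) log X)`, (C) `SS T V l ≤ 1`: `C X (log log X) (log log X)^(1/2) / ((log X)^(1/10) log X)`, (C) `SS T V l > 1`: (SMO) `Σ 1/l ≤ C/log X`, so `C X/(log X)^2`. All are
`≤ C X/(log X)^(13/12)` as `11/10 > 13/12`. Errors: `z^12 L^2 8 (W^2 + W + √X) ≤ C X^(4/5)`. For `2 ≤ X ≤ X₀` enlarge `C`. -/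
def Stmt_SM5 : Prop := ∃ C : ℝ, 0 < C ∧ ∀ X : ℕ, 2 ≤ X →
  (((Icc 2 X).filter (fun n => n % 4 ≠ 0 ∧ QRC n ∧ Cond n ∧ ¬ Form5 n)).card : ℝ) ≤
    C * X / (Real.log X) ^ (13 / 12 : ℝ)

/-- The fifth main theorem. -/
def MainStatement5 : Prop := ∃ C : ℝ, ∀ x : ℝ, 2 ≤ x →
  ({n : ℕ | (n : ℝ) ≤ x ∧ n % 4 ≠ 0 ∧ AnyOrder n ∧ ¬ Form5 n}.ncard : ℝ) ≤
    C * x / (Real.log x) ^ (13 / 12 : ℝ)

/-- (FIN5) Assembly. USES main theorems 1 and 4 (`Cond`, `QRC` for orders), SM5. -/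
def Stmt_FIN5 : Prop := MainStatement5

end Pool.Agent.ADG
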