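import Pool.Agent.ADG.St5

/-!
# Project ADG (MP_43d07b_co), part 6: almost all orders `n ≠ 0 mod 4` are PRIMES, in all finite groups (architect helper33)

THEOREM 6. The number of the integers `n ≤ x`, `n ≠ 0 mod 4`, which are not primes and are orders of affine difference sets in finite groups (any group, any subgroup) is `o(x / log x)`. (All primes are orders.)

By part 5 only `n = q s^2` (`s > 1`) and `n = 2 q s^2`, `q` prime, `s` odd, have to be excluded (for almost all `n`). `n = 2 q s^2`: `n = 1 mod p`, so (QRC) gives `(2/p) = (q/p) = 1` for all odd primes `p` dividing `n - 1` exactly once.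
`n = q s^2`: here all Legendre symbols are `1` automatically. New (all `n`, all groups):

THEOREM (CTW). `D` an affine difference set of order `n` in `G` (any group, any `N`), `l ≠ 2` a prime dividing `n` to an odd power, `p ≠ 2` a prime dividing `n - 1` exactly once. Then `4 |G|_2` does not divide the order of `l` modulo `p`
(`|G|_2` the exact power of `2` in `|G| = n^2 - 1`).

As `q = s^(-2) mod p`, the order of `q` modulo `p` is the order of `s^2`. If `s = b^(2^j)`, `b` not a square, and `p = 1 mod 2^K`, `(b/p) = -1`, then `2^(K - j - 1)` divides this order. For almost all `n = q s^2` some such `p` divides `n - 1` exactly once and `4 |G|_2 ≤ 2^(K - j - 1)` (Dirichlet's theorem,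
`K` large): contradiction.

PROOF OF (CTW). `F = F_l`, `Ω` = the cosets `N x`; `X = F[G] + F[Ω]` with the standard forms. (LGR): `X` contains a subspace `C = C^⊥`, stable under the right translations by `G`. (The proof of (MAT) for `H = 1`.) Suppose `2^(κ + 2)` divides `o` = the order of `l` modulo `p`, `2^κ` the exact power of `2` in `|G|`.
`P ≤ N` of order `p`, `M` its normalizer, `A ≤ M` as in part 4 (the elements acting on `P` by elements of order a power of `2`): the action of `A` on `P` is by elements of order dividing `2^κ`, so by powers of `l` (`(ℤ/p)ˣ` is cyclic). `A = P Y`. Let `e ∈ F[P]` be the idempotent of the `⟨l⟩`-orbit of a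
character `χ` of `P` (it is invariant under the action of `A` and under `u ↦ u⁻¹`) and `E = e (1/|Y|) Σ_(y ∈ Y) y`, a self-adjoint idempotent. `X E` contains `C E = (C E)^⊥`, so the discriminant of `X E` is `(-1)^(dim/2)` modulo squares. `X E` is the orthogonal sum of spaces `U_O`, `O` the cosets `g A` and the double cosets
`N g A` outside `{g : g P g⁻¹ ≤ N}`, `U_O` isometric up to a factor to `(F[P] e)^T ≅ F_(l^(o/t))`, `T = α(D_O)`, `D_O = A ∩ g⁻¹ N g ≤ Y` for a suitable `g`, `t = |T|` divides `2^κ`, so `4 ∣ dim U_O`. Over the algebraic closure `U_O` has the basis `Σ_(c ∈ T) χ^(a c)`, `a ∈ ⟨l⟩ / T`, with Gram matrix `p t` times the permutation matrix of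
`a ↦ -a` (an even permutation), and the Frobenius map permutes the basis by one cycle of the even length `o/t`: so the discriminant of `U_O` is NOT a square in `F_l`. So the number of all `O` is even. By (GRP) `[G : A] +` the number of all double cosets `N g A` is even. So the number of the double cosets in
`{g : g P g⁻¹ ≤ N}` is even. But it is odd (TCT). Contradiction.

Every `Stmt_X` is the statement of a module: `theorem X_thm (h : Stmt_Y) .. : Stmt_X` in `Pool/Agent/ADG/X.lean`, namespace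
`Pool.Agent.ADG`, with the hypotheses named after USES (or fewer).
-/

set_option autoImplicit false

namespace Pool.Agent.ADG

open Finset Pool.Agent.ADS

/-! ## 1. Linear algebra -/

/-- (GRM) Self-dual subspaces for a symmetric Gram matrix (any field, also characteristic 2).

PROOF. `v ↦ (w ↦ v M w)` maps `F^ι` ONTO the dual of `L` (`M` is invertible, restriction to `L` is surjective) with kernel `L`: `card ι = 2 dim L`. A basis `v_a` (`a : κ`) of `L`, extended to a basis of `F^ι` (`LAG_ext` in `Pool/Agent/ADG/LAG.lean`), `P` the matrix of the basis: `P M Pᵀ = fromBlocks 0 B Bᵀ C`, of determinant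
`(-1)^κ (det B)^2` (`LAG_det`), so `(-1)^κ det M = (det B / det P)^2`; the same proof as `LAG_thm` with `M` instead of a diagonal matrix. -/
def Stmt_GRM : Prop := ∀ (F ι : Type) [Field F] [Fintype ι] [DecidableEq ι] (M : Matrix ι ι F)
  (L : Submodule F (ι → F)), M.det ≠ 0 → M.transpose = M →
  (∀ v : ι → F, v ∈ L ↔ ∀ w ∈ L, ∑ i, ∑ j, v i * M i j * w j = 0) →
  Even (Fintype.card ι) ∧ IsSquare ((-1) ^ (Fintype.card ι / 2) * M.det)

/-! ## 2. The self-dual code -/

open Classical in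
/-- (LGR) The self-dual code, stable under the right translations. (`F[Ω]` = the left `N`-invariant functions on `G`; the form is `Σ x x' - Σ f f'`.)

USES LAG, LAT, RKV. PROOF. The proof of (MAT) (`Pool/Agent/ADG/MAT.lean`, lemmas in `MATx`) for `I = J = G`, `B` = the cosets `N x` (`β` the projection; a right translation permutes the cosets), `A x y = [x y⁻¹ ∈ D]`, `S x = Aᵀ x`, that is `(S x)(y) = Σ_(d ∈ D) x(d y)`, `h = 1`, `s_b = 1`, `m_b = n - 1`
(for `A Aᵀ` see `Pool/Agent/ADG/GRP.lean`, `H = ⊥`). `n = l^(2j+1) n'`. `V` = the `x ∈ ℤ^G` with sum `0` on every coset `N g`, `V1 = {x ∈ V : S x ∈ l^(j+1) ℤ^G}`, `C` = the pairs `(x + f, f)` with `x` the reduction modulo `l` of an element of `V1` and `f` left `N`-invariant. `S` and `V` commute with the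
right translations, so `C` is stable. Isotropic: `Σ x x' = 0` modulo `l` for `x, x' ∈ V1` (as for the first family in (MAT)), `Σ x f' = 0` (`f'` is constant on the cosets). Dimension: (LAT) gives `u1` independent reductions of elements of `V1`, `u1 + u2 = |G| - r`, `r = n + 1` the number of cosets; the two families in (MAT)
give `2 (u1 + r) ≤ |G| + r`, `2 (u2 + r) ≤ |G| + r`, so `2 (u1 + r) = |G| + r` and `dim C ≥ u1 + r`. The form on `Z = {z : z.2 left N-invariant}` (dimension `|G| + r`) is not degenerate (`|N| = n - 1 = -1` modulo `l`), `C ⊆ C^⊥`, `dim C^⊥ = |G| + r - dim C ≤ dim C`: `C^⊥ = C`. -/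
def Stmt_LGR : Prop := ∀ (G : Type) [Group G] [Fintype G] (n : ℕ) (N : Subgroup G) (D : Finset G),
  IsAffineDifferenceSet n N D → ∀ l : ℕ, l.Prime → Odd (n.factorization l) →
  ∃ C : Submodule (ZMod l) ((G → ZMod l) × (G → ZMod l)),
    (∀ z ∈ C, ∀ a ∈ N, ∀ g, z.2 (a * g) = z.2 g) ∧
    (∀ z ∈ C, ∀ w ∈ C, ∑ g, z.1 g * w.1 g = ∑ g, z.2 g * w.2 g) ∧
    (∀ z ∈ C, ∀ k : G, ((fun g => z.1 (g * k)), (fun g => z.2 (g * k))) ∈ C) ∧
    ∀ z : (G → ZMod l) × (G → ZMod l), (∀ a ∈ N, ∀ g, z.2 (a * g) = z.2 g) →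
      (∀ w ∈ C, ∑ g, z.1 g * w.1 g = ∑ g, z.2 g * w.2 g) → z ∈ C

/-! ## 3. The idempotent of an orbit of characters -/

/-- (FRG) Discriminants and the Frobenius map (linear algebra).

PROOF. `β'_i = algebraMap ∘ β_i = Σ_x ξ_(i x) φ_x`, `Ξ = (ξ_(i x))`. The `β'_i` are independent over `K`: there are functionals `f_i`, `f_i(v) = Σ_u w_(i u) v(u)` with `w_(i u) ∈ ZMod l` and `f_i(β_j) = δ_(i j)` (`β` is independent over the field `ZMod l`, a dual basis), and they also work over `K`; so `det Ξ ≠ 0` (and the `φ_x` are independent, `card κ` vectors whose span contains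
`card κ` independent ones; so `Ξ` is unique). Gram matrices over `K`: `Gram β' = Ξ Gram φ Ξᵀ`, `Gram φ = c ·` the permutation matrix of `τ`: `algebraMap (det Gram β) = (det Ξ)^2 c^m` (`sign τ = 1`, `m = card κ` even). Frobenius: `β'_i(u)^l = β'_i(u)`, so `Σ_x ξ_(i x)^l φ_(σ x) = Σ_x ξ_(i x) φ_x`, `ξ_(i x)^l = ξ_(i, σ x)`: taking determinants
`(det Ξ)^l = sign σ · det Ξ = - det Ξ`. If `det Gram β = s^2`, `s ∈ ZMod l`, then `det Ξ = ± s c^(-m/2)` is in the image of `ZMod l`, so `(det Ξ)^l = det Ξ`, `2 det Ξ = 0`: contradiction (`l ≠ 2`). -/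
def Stmt_FRG : Prop := ∀ (l : ℕ) [Fact l.Prime] (K ι κ : Type) [Field K] [Algebra (ZMod l) K]
  [Fintype ι] [Fintype κ] [DecidableEq κ] (β : κ → ι → ZMod l) (φ : κ → ι → K)
  (σ τ : Equiv.Perm κ) (c : ZMod l), l ≠ 2 → LinearIndependent (ZMod l) β →
  (∀ i, (fun u => algebraMap (ZMod l) K (β i u)) ∈ Submodule.span K (Set.range φ)) →
  (∀ x u, φ x u ^ l = φ (σ x) u) → Equiv.Perm.sign σ = -1 →
  (∀ x y, ∑ u, φ x u * φ y u = if y = τ x then algebraMap (ZMod l) K c else 0) → c ≠ 0 →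
  Equiv.Perm.sign τ = 1 → Even (Fintype.card κ) →
  ¬ IsSquare (Matrix.det (Matrix.of fun i j => ∑ u, β i u * β j u))

open Classical in
/-- the properties of `e u = (1/p) Σ_(i < o) ζ^(l^i u)`, `ζ` a primitive `p`-th root of unity in characteristic `l`, `o` the order of `l` modulo `p`; the last one is
the theorem on the discriminants -/
structure Pce (p l : ℕ) [NeZero p] (e : ZMod p → ZMod l) : Prop where
  inv : ∀ c u : ZMod p, c ^ orderOf (l : ZMod p) = 1 → e (c * u) = e u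
  idem : ∀ u, ∑ v, e v * e (u - v) = e u
  zero : ∑ u, e u = 0
  piece : ∀ T : Subgroup (ZMod p)ˣ, (∃ j, Nat.card T = 2 ^ j) →
    4 * Nat.card T ∣ orderOf (l : ZMod p) →
    ∃ (m : ℕ) (β : Fin m → ZMod p → ZMod l), 4 ∣ m ∧ LinearIndependent (ZMod l) β ∧
      (∀ φ : ZMod p → ZMod l, φ ∈ Submodule.span (ZMod l) (Set.range β) ↔
        (∀ c ∈ T, ∀ u, φ ((c : ZMod p) * u) = φ u) ∧ ∀ u, ∑ v, e v * φ (u + v) = φ u) ∧
      ¬ IsSquare (Matrix.det (Matrix.of fun i j => ∑ u, β i u * β j u))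

/-- (PCE) The idempotent exists. (Checked by computer for p ≤ 41, l ≤ 23.)

USES FRG. PROOF. `K` an algebraic closure of `F = ZMod l`, `ζ ∈ K` a primitive `p`-th root of unity, `o` the order of `l` modulo `p`; `{c : c^o = 1} = {l^i}` because `(ℤ/p)ˣ` is cyclic; `-1 = l^(o/2)`; `χ_a(u) = ζ^(a u)`, `a, u ∈ ℤ/p`. `e_K = (1/p) Σ_(i < o) χ_(l^i)`;
`e_K(u)^l = e_K(u)`, so `e_K(u) ∈ F`: this is `e`. (inv) clear. (idem), (zero): orthogonality. `Σ_v e(v) χ_b(u + v) = χ_b(u)` if `b` is a power of `l` (then `-b` too) and `0` otherwise, so over `K` the convolution condition says `φ = Σ_i a_i χ_(l^i)` (`i` modulo `o`). `t = |T|`, `m = o/t`, `4 ∣ m`; `T` is contained in the powers of `l`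
(`c^o = 1`), so `T = {l^(m j) : j < t}`, and the invariance under `T` says that `a_i` depends only on `i` modulo `m`: over `K` the space has the basis `φ_i(u) = Σ_(j < t) ζ^(l^(i + m j) u)`, `i ∈ Fin m`. The operator `π φ(u) = (1/t) Σ_(c ∈ T) Σ_v e(v) φ(c u + v)` (`t` is a power of `2`, not `0` in `F`; `e(c v) = e(v)`) is an
idempotent with entries in `F` and the space is its range; `β` := a basis of its range over `F`. `β` is independent over `K` too, and spans the range of `π` over `K` (which is spanned by the columns of `π`), so it has `m` elements. (FRG) with `κ = Fin m`, `σ = finRotate m` (`φ_i(u)^l = φ_(i+1)(u)`, `φ_m = φ_0`; `sign_finRotate`: `-1` as `m` is even),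
`τ = σ^(o/2)` (`Σ_u φ_i(u) φ_k(u) = p t` if `l^k ∈ -l^i T`, that is `k = i + o/2` modulo `m`, and `0` otherwise; `sign τ = (-1)^(o/2) = 1` as `4 ∣ o`), `c = p t ≠ 0`. -/
def Stmt_PCE : Prop := ∀ (p l : ℕ) [NeZero p], p.Prime → l.Prime → p ≠ 2 → l ≠ 2 → l ≠ p →
  4 ∣ orderOf (l : ZMod p) → ∃ e : ZMod p → ZMod l, Pce p l e

/-! ## 4. The spaces `X E` -/

/-- the data `H = P Y`, `P = ⟨u⟩` of order `p`, `α` = the action of `H` on `P` -/
structure HD {G : Type} [Group G] (P H Y : Subgroup G) (u : G) (p l : ℕ) (α : G → ZMod p) :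
    Prop where
  prime : p.Prime
  card_P : Nat.card P = p
  ord_u : orderOf u = p
  mem_P : ∀ g, g ∈ P ↔ ∃ k : ℕ, g = u ^ k
  P_le : P ≤ H
  Y_le : Y ≤ H
  card_H : Nat.card H = p * Nat.card Y
  cop : ¬ p ∣ Nat.card Y
  act : ∀ h ∈ H, h * u * h⁻¹ = u ^ (α h).val
  two : ∃ κ : ℕ, 2 ^ (κ + 2) ∣ orderOf (l : ZMod p) ∧ ∀ h ∈ H, α h ^ 2 ^ κ = 1

open Classical in
/-- `x` is left `N'`-invariant, right `Y`-invariant, and fixed by the convolution with `e` on `P = ⟨u⟩` -/
def InU {G : Type} [Group G] [Fintype G] {p l : ℕ} [NeZero p] (N' Y : Subgroup G) (u : G)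
    (e : ZMod p → ZMod l) (x : G → ZMod l) : Prop :=
  (∀ a ∈ N', ∀ g, x (a * g) = x g) ∧ (∀ y ∈ Y, ∀ g, x (g * y) = x g) ∧
    ∀ g, ∑ v : ZMod p, e v * x (g * u ^ v.val) = x g

open Classical in
/-- the projection (the right multiplication by `E`) -/
noncomputable def pj {G : Type} [Group G] [Fintype G] {p l : ℕ} [NeZero p] (Y : Subgroup G)
    (u : G) (e : ZMod p → ZMod l) (x : G → ZMod l) : G → ZMod l := fun g =>
  (Nat.card Y : ZMod l)⁻¹ *
    ∑ y ∈ univ.filter (fun y : G => y ∈ Y), ∑ v : ZMod p, e v * x (g * u ^ v.val * y)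

open Classical in
/-- (OPR) The projection.

PROOF. `k ↦ u^(k.val)` is a homomorphism from `ZMod p` (`u` has order `p`). `y u^v = u^(α(y) v) y` for `y ∈ H` (`act`), `α(y)^o = 1` (`two`: `2^κ ∣ o`), so `e(α(y) v) = e(v)` (`inv`); also `e(-v) = e(v)` (`o` is even). `|Y|` divides `|G|`, so it is not `0` modulo `l`. (1) Right `Y`-invariance: `g y0 u^v y = g u^(α(y0) v) y0 y`, substitute `v` and `y`. Convolution:
`Σ_w e(w) (pj x)(g u^w) = (1/|Y|) Σ_y Σ_v Σ_w e(w) e(v) x(g u^(w + v) y) = (pj x)(g)` by (idem). (2) `x(g u^v y) = x(g u^v)`, then the convolution. (3) clear. (4) `Σ_g x(g u^v y) x'(g) = Σ_g x(g) x'(g y⁻¹ u^(-v))`, and `y⁻¹ u^(-v) = u^(-α(y⁻¹) v) y⁻¹`: substitute `v`. -/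
def Stmt_OPR : Prop := ∀ (G : Type) [Group G] [Fintype G] (p l : ℕ) [NeZero p]
  (P H Y : Subgroup G) (u : G) (α : G → ZMod p) (e : ZMod p → ZMod l), l.Prime →
  HD P H Y u p l α → Pce p l e → ¬ l ∣ Nat.card G →
  (∀ x, InU ⊥ Y u e (pj Y u e x)) ∧ (∀ x, InU ⊥ Y u e x → pj Y u e x = x) ∧
  (∀ (N' : Subgroup G) (x : G → ZMod l), (∀ a ∈ N', ∀ g, x (a * g) = x g) →
    ∀ a ∈ N', ∀ g, pj Y u e x (a * g) = pj Y u e x g) ∧
  ∀ x x' : G → ZMod l, ∑ g, pj Y u e x g * x' g = ∑ g, x g * pj Y u e x' g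

open Classical in
/-- (ONE) One double coset.

USES RTL. PROOF. (RTL) for `N'` and the function `[s = sta N' H g]`: there is `v ∈ P` with `sta N' Y (g v) = sta N' H g = sta N' H (g v)`; replace `g` by `g v` (the double coset and the hypothesis on `g` are the same): now `D := H ∩ g⁻¹ N' g` is contained in `Y`. `α` is multiplicative on `H` with values in the units; `T` = the image of `D`, a subgroup of the
cyclic group `(ℤ/p)ˣ` with `c^(2^κ) = 1` on `T`: `|T|` divides `2^κ`, so `4 |T|` divides the order of `l`. `β` (`i < m`) from (`piece`). `b_i(a g u^k y) := β_i(k)` (`a ∈ N'`, `y ∈ Y`), `0` outside `N' g H`. Well defined: if `a g u^k y = a' g u^k' y'` then `d := g⁻¹ a'⁻¹ a g = u^k' y' y⁻¹ u^(-k)` is in `D ≤ Y`; it is `u^(k' - α(y' y⁻¹) k) y' y⁻¹`, so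
`d = y' y⁻¹` and `k' = α(d) k`, `β_i(k') = β_i(k)`. `Σ_x b_i b_j = (|N'| |Y| / |D|) Σ_k β_i β_j` (every element of `N' g H` is `a g u^k y` in `|D|` ways; `|D|`, `|N'|`, `|Y|` divide `|G|`, not `0` modulo `l`), `m` is even, so the two determinants differ by a nonzero square. Span: if `InU x` with support in `N' g H` then `φ(k) := x(g u^k)` satisfies the convolution condition, and
`φ(α(d) k) = x(g d u^k d⁻¹) = x(a g u^k d⁻¹) = φ(k)` for `d ∈ D`, `g d = a g`: `φ ∈ span β`. -/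
def Stmt_ONE : Prop := ∀ (G : Type) [Group G] [Fintype G] (p l : ℕ) [NeZero p]
  (N' P H Y : Subgroup G) (u : G) (α : G → ZMod p) (e : ZMod p → ZMod l), l.Prime → l ≠ 2 →
  HD P H Y u p l α → Pce p l e → ¬ l ∣ Nat.card G → ∀ g : G, ¬ (∀ v ∈ P, g * v * g⁻¹ ∈ N') →
  ∃ (m : ℕ) (b : Fin m → G → ZMod l), 4 ∣ m ∧ LinearIndependent (ZMod l) b ∧
    (∀ x : G → ZMod l, x ∈ Submodule.span (ZMod l) (Set.range b) ↔
      InU N' Y u e x ∧ ∀ g', x g' ≠ 0 → ∃ a ∈ N', ∃ k ∈ H, g' = a * g * k) ∧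
    ¬ IsSquare (Matrix.det (Matrix.of fun i j => ∑ x, b i x * b j x))

open Classical in
/-- (BAS) The whole space. (`r` = the number of the double cosets `N' g H` outside `{g : g P g⁻¹ ≤ N'}`.)

USES ONE, DCL. PROOF. Representatives `x_i` of the double cosets `N' g H` (as in DCL.lean, GRP.lean), `J` = those `i` with not `x_i P x_i⁻¹ ≤ N'`; `r = |J| = dc N' H (..)` (DCL; the condition is constant on double cosets because `H` normalizes `P`). `b` = the union of the families of (ONE) for `i ∈ J`, reindexed by `Fin m`. If `InU x` then the restriction of `x` to a double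
coset is `InU` (the translations by `a ∈ N'`, `y ∈ Y`, `u^v ∈ H` preserve it), so it is in the span of the family if `i ∈ J`; if `i ∉ J`: `x(g u^k) = x((g u^k g⁻¹) g) = x(g)` for `g` in it, `x(g) = Σ_v e(v) x(g) = 0` (`zero`). Independence and Gram matrix: supports in different double cosets, block diagonal, the determinant is the product (`Matrix.det_blockDiagonal'`). In `ZMod l` a product
of `r` nonsquares is nonzero, and it is a square iff `r` is even (`FiniteField`, quadratic character). -/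
def Stmt_BAS : Prop := ∀ (G : Type) [Group G] [Fintype G] (p l : ℕ) [NeZero p]
  (N' P H Y : Subgroup G) (u : G) (α : G → ZMod p) (e : ZMod p → ZMod l), l.Prime → l ≠ 2 →
  HD P H Y u p l α → Pce p l e → ¬ l ∣ Nat.card G →
  ∃ (r m : ℕ) (b : Fin m → G → ZMod l),
    dc N' H (fun x => if ∀ v ∈ P, x * v * x⁻¹ ∈ N' then 0 else 1) = r ∧ 4 ∣ m ∧
    LinearIndependent (ZMod l) b ∧
    (∀ x : G → ZMod l, x ∈ Submodule.span (ZMod l) (Set.range b) ↔ InU N' Y u e x) ∧
    Matrix.det (Matrix.of fun i j => ∑ x, b i x * b j x) ≠ 0 ∧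
    (IsSquare (Matrix.det (Matrix.of fun i j => ∑ x, b i x * b j x)) ↔ Even r)

open Classical in
/-- (CTA) The parity of the number of orbits in `Fix(P)`.

USES GRM, LGR, PCE, OPR, BAS, GRP, DCL. PROOF. `4 ∣` the order of `l` (`two`), `e` from (PCE), `l ∤ |G| = n^2 - 1`. (BAS) for `N' = ⊥`: `b1`, `m1`, `r1 = dc ⊥ H 1 = [G : H]` (no `x` has `x P x⁻¹ ≤ ⊥`, `sta ⊥ H x = 1`); for `N' = N`: `b2`, `m2`, `r2`. `C` from (LGR). In `F^(m1) × F^(m2)` with `M = fromBlocks M1 0 0 (-M2)`, `M1`, `M2` the Gram matrices, `L` = the coordinates of the elements of `C` in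
`span b1 × span b2`. `L = L^⊥`: if `z ∈ span b1 × span b2` is orthogonal to `C ∩ (span b1 × span b2)` then for all `c ∈ C` with `π c = (pj c.1, pj c.2)`: `B(z, c) = B(π z, c) = B(z, π c) = 0`, as `π c ∈ C` (a combination of right translates of `c`) and `π c ∈ span b1 × span b2` (OPR, BAS; left `N`-invariance is preserved), so `z ∈ C`. (GRM): `(-1)^((m1 + m2)/2) det M =
± det M1 det M2` is a square, all signs are `+` (`4 ∣ m1, m2`), so `det M1 det M2` is a square, so (BAS) `r1` and `r2` have the same parity (finite field: square times nonsquare). (GRP): `[G : H] + dc N H 1` is even, and `dc N H 1 = r2 + dc N H 1_T`: `dc N H 1_T` is even. -/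
def Stmt_CTA : Prop := ∀ (G : Type) [Group G] [Fintype G] (n : ℕ) (N : Subgroup G) (D : Finset G),
  IsAffineDifferenceSet n N D → ∀ l : ℕ, l.Prime → l ≠ 2 → Odd (n.factorization l) →
  ∀ (p : ℕ) [NeZero p] (P H Y : Subgroup G) (u : G) (α : G → ZMod p), p ≠ 2 → l ≠ p →
  HD P H Y u p l α →
  ∃ k : ℤ, dc N H (fun x => if ∀ v ∈ P, x * v * x⁻¹ ∈ N then 1 else 0) = 2 * k

/-- (CTW) The theorem on the order of `l` modulo `p`, all groups.

USES CTA, MST, TCT. PROOF. Suppose the contrary, `κ = (n^2 - 1).factorization 2`. Data (MST): `P`, `M`, `A`, `Y`, `v`. `u` a generator of `P`, `h u h⁻¹ = u^(α h)` for `h ∈ A ≤ M`. `HD P A Y u p l α`: (`two`) `h^(2^(v+1))` centralizes `P` (`mem_A`), so `α(h)^(2^(v+1)) = 1`, and `α(h)^(n^2-1) = 1` as `h^|G| = 1`; so `α(h)^(2^κ) = 1`. `l ≠ p` as `p ∣ n - 1`, `l ∣ n`. (CTA) for `H = A`: `dc N A 1_T` is even,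
(TCT): it is an odd number. -/
def Stmt_CTW : Prop := ∀ (G : Type) [Group G] [Finite G] (n : ℕ) (N : Subgroup G) (D : Finset G),
  IsAffineDifferenceSet n N D → ∀ p : ℕ, p.Prime → p ≠ 2 → (n - 1).factorization p = 1 →
  ∀ l : ℕ, l.Prime → l ≠ 2 → Odd (n.factorization l) →
  ¬ 2 ^ ((n ^ 2 - 1).factorization 2 + 2) ∣ orderOf (l : ZMod p)

/-! ## 5. Primes -/

open Classical in
/-- (DR1) Dirichlet's theorem with divergence.

PROOF. Mathlib, `Mathlib/NumberTheory/LSeries/PrimesInAP.lean`: `ArithmeticFunction.vonMangoldt.LSeries_residueClass_lower_bound`: `c/(x - 1) - C ≤ Σ Λ(n) [n = a] / n^x` for `1 < x ≤ 2`, `c = 1/φ(m)`, and `summable_residueClass_non_primes_div` (prime powers contribute a bounded sum). Suppose that `Σ 1/q` converges; choose `Q` with `Σ_(q > Q) 1/q < c`. As `log q / q^(x-1) ≤ 1/(x - 1)`: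
`Σ_q log q / q^x ≤ Σ_(q ≤ Q) log q / q + (1/(x - 1)) Σ_(q > Q) 1/q`, a contradiction as `x → 1`. -/
def Stmt_DR1 : Prop := ∀ m a : ℕ, 0 < m → a.Coprime m →
  ¬ Summable (fun q : ℕ => if q.Prime ∧ q ≡ a [MOD m] then (1 : ℝ) / q else 0)

/-- (DR2) Primes modulo which `s^2` has an order divisible by a high power of `2`.

PROOF. `s = b^(2^j)`, `b > 1` odd, not a square. `b = w^f b'`, `w` prime, `w ∤ b'`, `f` odd. `K' = K + j + 3`, `m = 2^K' w b'`, `a = 1` modulo `2^K' b'` and `a` a nonresidue modulo `w` (Chinese remainder theorem). A prime `p = a mod m`: odd, prime to `b`, `p = 1 mod 4`, `(b/p) = (p/b)` (Jacobi symbols, `jacobiSym.quadratic_reciprocity_one_mod_four`) `= (a/w)^f (1/b') = -1`. So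
`b^((p-1)/2) = -1` modulo `p`: the order of `b` does not divide `(p - 1)/2` and divides `p - 1`, `2^K' ∣ p - 1`: `2^K'` divides the order of `b`, so `2^(K' - j - 1)` divides the order of `s^2 = b^(2^(j+1))` (`orderOf_pow`). `q s^2 = 1` modulo `p`: `q` and `s^2` have the same order. -/
def Stmt_DR2 : Prop := ∀ s K : ℕ, Odd s → 1 < s → ∃ m a : ℕ, 0 < m ∧ a.Coprime m ∧
  ∀ p : ℕ, p.Prime → p ≡ a [MOD m] → p ≠ 2 ∧ ¬ p ∣ s ∧
    ∀ q : ℕ, q * s ^ 2 ≡ 1 [MOD p] → 2 ^ K ∣ orderOf (q : ZMod p)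

open Classical in
/-- (GEN) The numbers `n = A q` (`A` fixed) such that no prime of a set `S` with divergent sum of reciprocals divides `n - 1` exactly once.

USES S2V, RSU. PROOF. `z = ⌊X^(1/60)⌋`, `P1` = the primes `≤ z` not dividing `2 A` (resp. `2 A p`): by (RSU) `log z ≤ RSm P1 z * RSm {q ∣ 2 A p} z` and `RSm {q ∣ k} z ≤ C_A` uniformly in `p` (`RSm {b} z ≤ 2`): `RSm P1 z ≥ log z/C_A`. If `n = A q`, `q > z`, then no prime of `P1` divides `n`. `w0 < y`, `P2 = S ∩ (w0, y]`. The `n`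
with `p ∤ n - 1` for all `p ∈ P2`: (S2V) with `M = A`: `≤ (X/A)/(RSm P1 z * RSm P2 z) + z^12`, `RSm P2 z ≥ Σ_(p ∈ P2) 1/p` for `z ≥ y` (the terms `m = p`). The other `n`: `p ∣ n - 1`, so `p^2 ∣ n - 1` for some `p ∈ P2`: (S2V) with `M = A p^2`, `P2 = ∅` (`RSm ∅ z ≥ 1`): `≤ C_A X/(A p^2 log z) + z^12` (all such `n` are congruent modulo `A p^2`), the sum over
`p > w0` is `≤ C_A X/(w0 log z) + y z^12`. Choose `w0`, then `y`, then `X₀`. The `n` with `q ≤ z`: at most `z`. -/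
def Stmt_GEN : Prop := ∀ (A : ℕ) (S : Set ℕ), 0 < A → (∀ p ∈ S, p.Prime ∧ p ≠ 2 ∧ ¬ p ∣ A) →
  ¬ Summable (fun p : ℕ => if p ∈ S then (1 : ℝ) / p else 0) → ∀ ε : ℝ, 0 < ε →
  ∃ X₀ : ℕ, ∀ X : ℕ, X₀ ≤ X →
  (((Icc 2 X).filter (fun n => (∃ q : ℕ, q.Prime ∧ n = A * q) ∧
    ∀ p ∈ S, (n - 1).factorization p ≠ 1)).card : ℝ) ≤ ε * X / Real.log X

open Classical in
/-- (V2T) The numbers `n = A q` with `n^2 = 1` modulo a high power of `2`.

USES S2V, RSU. PROOF. As (GEN): `n` is odd for `k ≥ 1`, `2^k ∣ (n - 1)(n + 1)`, so `n = ± 1` modulo `2^(k-1)` (`k ≥ 1`; one of the factors is `2 mod 4`): two classes modulo `M = A 2^(k-1)`, each at most `(X/M) C_A/log z + z^12`. `k = 0`: `M = A`. -/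
def Stmt_V2T : Prop := ∀ A : ℕ, Odd A → ∃ C : ℝ, 0 < C ∧ ∀ k : ℕ, ∃ X₀ : ℕ, ∀ X : ℕ, X₀ ≤ X →
  (((Icc 2 X).filter (fun n => (∃ q : ℕ, q.Prime ∧ n = A * q) ∧
    2 ^ k ∣ n ^ 2 - 1)).card : ℝ) ≤ C / 2 ^ k * X / Real.log X

open Classical in
/-- (TAI) The numbers `q s^2`, `2 q s^2` with large `s`.

PROOF. `Σ_(S < s ≤ X^(1/4)) 2 π(X/s^2) + Σ_(s > X^(1/4)) 2 X/s^2`, `π(y) ≤ C y/log y` (`y ≥ 2`; Chebyshev, in Mathlib or in our libraries, see QSM.lean, PSS.lean, or (S2V) with `M = 1`), `log(X/s^2) ≥ (log X)/2`, `Σ_(s > S) 1/s^2 ≤ 1/S`. -/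
def Stmt_TAI : Prop := ∃ C : ℝ, 0 < C ∧ ∀ S : ℕ, 1 ≤ S → ∃ X₀ : ℕ, ∀ X : ℕ, X₀ ≤ X →
  (((Icc 2 X).filter (fun n => ∃ q s : ℕ, q.Prime ∧ S < s ∧
    (n = q * s ^ 2 ∨ n = 2 * q * s ^ 2))).card : ℝ) ≤ C / S * X / Real.log X

/-! ## 6. The count -/

/-- the condition of (CTW) -/
def CTC (n : ℕ) : Prop := ∀ p l : ℕ, p.Prime → p ≠ 2 → (n - 1).factorization p = 1 → l.Prime →
  l ≠ 2 → Odd (n.factorization l) →
  ¬ 2 ^ ((n ^ 2 - 1).factorization 2 + 2) ∣ orderOf (l : ZMod p)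

open Classical in
/-- (FX1) `n = q s^2`, `s > 1` fixed.

USES DR1, DR2, GEN, V2T. PROOF. `A = s^2`. (V2T): choose `k` with `C/2^k ≤ ε/2`: the `n` with `2^k ∣ n^2 - 1` are few. For the other `n`, `(n^2 - 1).factorization 2 ≤ k - 1`. (DR2) with `K = k + 1`, `S` = the primes `= a mod m` (DR1). If `p ∈ S` divides `n - 1` exactly once and `q ≠ 2` then `q s^2 = 1` modulo `p`, `2^K` divides the order of `q` modulo `p`, `Odd (n.factorization q)` (`= 1 + 2 v_q(s)`): contradiction with `CTC n`.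
So (GEN) with `ε/4` counts the other `n` (and `q = 2`: one number `n`). -/
def Stmt_FX1 : Prop := ∀ s : ℕ, Odd s → 1 < s → ∀ ε : ℝ, 0 < ε → ∃ X₀ : ℕ, ∀ X : ℕ, X₀ ≤ X →
  (((Icc 2 X).filter (fun n => (∃ q : ℕ, q.Prime ∧ n = q * s ^ 2) ∧ CTC n)).card : ℝ) ≤
    ε * X / Real.log X

open Classical in
/-- (FX2) `n = 2 q s^2`, `s` fixed.

USES DR1, GEN. PROOF. `A = 2 s^2`, `S` = the primes `p = 3 mod 8`, `p ∤ s` (finitely many primes are removed from (DR1) with `m = 8`, `a = 3`). `q = 2`: one number. `q ≠ 2`, `p ∈ S` divides `n - 1` exactly once: `q` divides `n` to an odd power, so `q` is a square modulo `p` (`QRC`), `2 q s^2 = 1` modulo `p`, so `2` is a square modulo `p`: contradiction with `p = 3 mod 8` (`ZMod.exists_sq_eq_two_iff`). -/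
def Stmt_FX2 : Prop := ∀ s : ℕ, Odd s → ∀ ε : ℝ, 0 < ε → ∃ X₀ : ℕ, ∀ X : ℕ, X₀ ≤ X →
  (((Icc 2 X).filter (fun n => (∃ q : ℕ, q.Prime ∧ n = 2 * q * s ^ 2) ∧ QRC n)).card : ℝ) ≤
    ε * X / Real.log X

open Classical in
/-- (SM6) The sum over `s`.

USES FX1, FX2, TAI. PROOF. (TAI) with `C/S ≤ ε/2`; `n % 4 ≠ 0` implies that `s` is odd; (FX1), (FX2) for the `s ≤ S` with `ε/(4 S + 4)`; `n = q s^2`, `s = 1`, is a prime. -/
def Stmt_SM6 : Prop := ∀ ε : ℝ, 0 < ε → ∃ X₀ : ℕ, ∀ X : ℕ, X₀ ≤ X →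
  (((Icc 2 X).filter (fun n => n % 4 ≠ 0 ∧ QRC n ∧ CTC n ∧ Form5 n ∧ ¬ n.Prime)).card : ℝ) ≤
    ε * X / Real.log X

/-- The sixth main theorem: the number of the non-prime orders `n ≤ x`, `n ≠ 0 mod 4`, is `o(x / log x)`. -/
def MainStatement6 : Prop := ∀ ε : ℝ, 0 < ε → ∃ x₀ : ℝ, ∀ x : ℝ, x₀ ≤ x →
  ({n : ℕ | (n : ℝ) ≤ x ∧ n % 4 ≠ 0 ∧ AnyOrder n ∧ ¬ n.Prime}.ncard : ℝ) ≤
    ε * x / Real.log x

/-- (FIN6) Assembly.

USES FIN5, EPX, PXT, PXU, CTW, SM6. PROOF. The `n` which are not `Form5`: (FIN5), `C x/(log x)^(13/12) ≤ (ε/2) x/log x` for large `x`. The others: `QRC n` (FIN4 or EPX, PXT, PXU), `CTC n` (CTW), (SM6). -/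
def Stmt_FIN6 : Prop := MainStatement6

end Pool.Agent.ADG
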