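import Pool.Agent.ADG.St6
import Pool.Agent.ADS.EvStmts

/-!
# Project ADG (MP_43d07b_co), part 7: `n = 0 mod 4`; almost all orders are primes `p` or `p + 1` (architect helper96)

THEOREM 7. All but `o(x / log x)` of the orders `n ≤ x` of affine difference sets in finite groups (any group, any subgroup; the group solvable if `4 ∣ n`, which is automatic by the theorem of Feit and Thompson) are primes or of the form
`n = p + 1`, `p` prime, `4 ∣ n`.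

By part 6 only `4 ∣ n` is left. Here `OddCond n` holds (`ADG/EVG.lean`, ADS): a prime `l` dividing `n` to an odd power (also `l = 2`) has ODD order modulo EVERY prime `p ∣ n - 1`; in particular it is a square (`SqCond n`).

(I) The sieve. All but `O(x / (log x)^(16/15))` even `n` with `SqCond n` have the form `q s^2` or `2 q s^2` (`Form5`), or `n - 1` is prime. `n = c^2 m`, `m` squarefree, with at least two odd prime factors, `l` the smallest one; `p` the smallest prime factor of `n - 1`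
(`l^2 ≤ X`, `p^2 ≤ X`). `V = exp((log X)^(1/7))`, `W = V^4`, `z = X^(1/60)`.
`l, p ≤ W` and a third prime `≤ W` of `m` or `n - 1`: a sieve of dimension `5/4`: `X (log W)^(5/4) / (l p p' (log z)^(5/4))`. `l, p ≤ W` and no third prime: `X / (l p log W log z)`. `l > W ≥ p`: `n` by all `q < l` and the large `q` with `(q/p) = -1`, `n - 1` by the `q ∈ (T, V]` and the large
`q` with `(l/q) = -1`: `X / (l p (log z) (log V / log T)^(1/2))`, if `Σ_(T < q ≤ V) (l/q)/q ≤ 1` (the other `l` are rare, (SMO)); `l ≤ W < p`: the same with the roles exchanged (SMP). `l, p > W`: `X / (l p log(min l p) log z)`, or `X / (log W log z)` if `l > z` or `p > z`.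

(II) `n = 2 q s^2`: `2` is a square modulo all `p ∣ n - 1`, so no `p = 3 mod 8` divides `n - 1`: `o(x / log x)` (GEN). `n = q s^2`, `s > 1`: `s^2` has odd order modulo all `p ∣ n - 1`: `o(x / log x)` (GEN), if `Σ 1/p` diverges for the primes `p` modulo which `s^2` has even order (DR3): these contain a residue class
(Dirichlet) unless `s = (2 e^2)^(2^j)`, `j ≥ 1`, when they contain the primes `p = 1 mod M` for which `2` is not a fourth power modulo `p` (QRT).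

(III) (QRT) `ρ(a + b i) = i^(± a b/2)` is the quartic symbol of `2` on the Gaussian integers; `Σ ρ(α) ψ(N α) N(α)^(-s)` is bounded for `s → 1` for every Dirichlet character `ψ` modulo `M`, so `Σ_(p = 1 mod M) (2/p)_4 p^(-s)` is bounded from above, and `Σ_(p = 1 mod M) p^(-s)` is not (Dirichlet).

Every `Stmt_X` is the statement of a module: `theorem X_thm (h : Stmt_Y) .. : Stmt_X` in `Pool/Agent/ADG/X.lean`, namespace
`Pool.Agent.ADG`, with the hypotheses named after USES (or fewer).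
-/

set_option autoImplicit false

namespace Pool.Agent.ADG

open Finset Pool.Agent.ADS

/-! ## 1. The sieve bounds -/

/-- (SG) The sieve, in the form used below.

USES S2V. PROOF. If `S` is not empty, `n₀ ∈ S`: `c^2 e ∣ n`, `f ∣ n - 1` are coprime, so all `n ∈ S` are congruent to `n₀` modulo `M = c^2 e f` (`PI1m.cong` in `Pool/Agent/ADG/PI1.lean` for the pattern). (S2V): `≤ (X/M)/(RSm P1 z * RSm P2 z) + z^12`, and `R1 R2 ≤ (gk k)^2 RSm P1 z RSm P2 z ≤ g^2 RSm P1 z RSm P2 z`. -/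
def Stmt_SG : Prop := ∀ (X z c e f k : ℕ) (P1 P2 S : Finset ℕ) (R1 R2 g : ℝ), 1 ≤ z → 1 ≤ c →
  1 ≤ e → 1 ≤ f → 1 ≤ k →
  (∀ q ∈ P1 ∪ P2, q.Prime ∧ ¬ q ∣ k) → 2 ∣ k → (∀ q : ℕ, q.Prime → q ∣ c * e * f → q ∣ k) →
  (∀ n ∈ S, 2 ≤ n ∧ n ≤ X ∧ c ^ 2 * e ∣ n ∧ f ∣ n - 1 ∧ (∀ q ∈ P1, ¬ q ∣ n) ∧
    ∀ q ∈ P2, ¬ q ∣ n - 1) →
  0 < R1 → 0 < R2 → R1 ≤ gk k * RSm P1 z → R2 ≤ gk k * RSm P2 z → gk k ≤ g →
  (S.card : ℝ) ≤ g ^ 2 * X / ((c : ℝ) ^ 2 * (e * f) * (R1 * R2)) + (z : ℝ) ^ 12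

/-- the common conditions: `c^2 l ∣ n`, `l` divides `n` to an odd power, `p ∣ n - 1`, the primes not dividing `c` divide `n` at most once -/
def Co (c l p n : ℕ) : Prop := SqCond n ∧ c ^ 2 * l ∣ n ∧ Odd (n.factorization l) ∧ p ∣ n - 1 ∧
  ∀ q : ℕ, q.Prime → ¬ q ∣ c → ¬ q ^ 2 ∣ n

open Classical in
noncomputable def TJ (X c l p p' : ℕ) : Finset ℕ := (Icc 2 X).filter (fun n =>
  Co c l p n ∧ p' ∣ n - 1)

open Classical in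
noncomputable def TK (X c l l' p : ℕ) : Finset ℕ := (Icc 2 X).filter (fun n =>
  Co c l p n ∧ c ^ 2 * (l * l') ∣ n ∧ Odd (n.factorization l'))

open Classical in
noncomputable def TI (X W c l p : ℕ) : Finset ℕ := (Icc 2 X).filter (fun n =>
  Co c l p n ∧ ∀ q : ℕ, q.Prime → q ≤ W → ¬ q ∣ 2 * c * (l * p) → ¬ q ∣ n ∧ ¬ q ∣ n - 1)

open Classical in
noncomputable def TF (X c l p : ℕ) : Finset ℕ := (Icc 2 X).filter (fun n =>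
  Co c l p n ∧ ∀ q : ℕ, q.Prime → q < l → ¬ q ∣ 2 * c → ¬ q ∣ n)

open Classical in
noncomputable def TG (X c l p : ℕ) : Finset ℕ := (Icc 2 X).filter (fun n =>
  Co c l p n ∧ ∀ q : ℕ, q.Prime → q < p → ¬ q ∣ 2 * c → ¬ q ∣ n - 1)

open Classical in
noncomputable def TH (X c l p : ℕ) : Finset ℕ := (Icc 2 X).filter (fun n =>
  Co c l p n ∧ (∀ q : ℕ, q.Prime → q < l → ¬ q ∣ 2 * c → ¬ q ∣ n) ∧
    ∀ q : ℕ, q.Prime → q < p → ¬ q ∣ 2 * c → ¬ q ∣ n - 1)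

open Classical in
noncomputable def TU (X z W c : ℕ) : Finset ℕ := (Icc 2 X).filter (fun n => c ^ 2 ∣ n ∧
  (((∀ q : ℕ, q.Prime → q ≤ z → ¬ q ∣ 2 * c → ¬ q ∣ n) ∧
    ∀ q : ℕ, q.Prime → q ≤ W → ¬ q ∣ 2 * c → ¬ q ∣ n - 1) ∨
  ((∀ q : ℕ, q.Prime → q ≤ W → ¬ q ∣ 2 * c → ¬ q ∣ n) ∧
    ∀ q : ℕ, q.Prime → q ≤ z → ¬ q ∣ 2 * c → ¬ q ∣ n - 1)))

/-- (TJC) USES SG, GKB, LBB, RCY. PROOF. (As `Pool/Agent/ADG/PI3.lean`.) `k = 2 * (c * 1) * (l * p * p')`, (SG) with `e = l`, `f = p p'` (`p ≠ p'` both divide `n - 1`), `Q = (4 W^2)^8`, `P1 = Good 2 Q z k (χ p) (χ p')`, `P2 = Good 2 Q z k (ψ l) (ψ l)`. For `q ∈ P1`, `q ∣ n`: `q ∤ c`, `q ≠ 2`, so `q` divides `n` exactly once, and by `SqCond` it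
is a square modulo `p` and `p'`: `χ p q = χ p' q = 1`; so `q ≤ 2`, contradiction. For `q ∈ P2`, `q ∣ n - 1`: `l` is a square modulo `q`, `ψ l q = 1`. (LBB) with `y = 2`, `w = W`: `R1 = c₀ log 2 (log z/log W)^(3/4)`, `R2 = c₀ log 2 (log z/log W)^(1/2)`, `g = 14 c^(1/4)` (GKB). -/
def Stmt_TJC : Prop := ∃ C : ℝ, 0 < C ∧ ∀ X z W c l p p' : ℕ, 1 ≤ c → l.Prime → p.Prime →
  p'.Prime → l ≠ 2 → p ≠ 2 → p' ≠ 2 → p ≠ p' → l ≤ W → p ≤ W → p' ≤ W → W ≤ z →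
  ((TJ X c l p p').card : ℝ) ≤
    C * X * (c : ℝ) ^ (1 / 2 : ℝ) * (Real.log W) ^ (5 / 4 : ℝ) /
      ((c : ℝ) ^ 2 * (l * p * p' * (Real.log z) ^ (5 / 4 : ℝ))) + (z : ℝ) ^ 12

/-- (TKC) USES SG, GKB, LBB, RCY. PROOF. As (TJC) with the roles exchanged (see `Pool/Agent/ADG/PI2.lean`): `k = 2 * (c * 1) * (l * p * l')`, `e = l l'`, `f = p`, `P1 = Good 2 Q z k (χ p) (χ p)`, `P2 = Good 2 Q z k (ψ l) (ψ l')`. -/
def Stmt_TKC : Prop := ∃ C : ℝ, 0 < C ∧ ∀ X z W c l l' p : ℕ, 1 ≤ c → l.Prime → l'.Prime →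
  p.Prime → l ≠ 2 → l' ≠ 2 → p ≠ 2 → l ≠ l' → l ≤ W → l' ≤ W → p ≤ W → W ≤ z →
  ((TK X c l l' p).card : ℝ) ≤
    C * X * (c : ℝ) ^ (1 / 2 : ℝ) * (Real.log W) ^ (5 / 4 : ℝ) /
      ((c : ℝ) ^ 2 * (l * l' * p * (Real.log z) ^ (5 / 4 : ℝ))) + (z : ℝ) ^ 12

/-- (TIC) USES SG, GKB, LBB, RCY. PROOF. (As `Pool/Agent/ADG/PI1.lean`.) `k = 2 * (c * 1) * (l * p * l)`, `e = l`, `f = p`, `P1 = Good W Q z k (χ p) (χ p)`, `P2 = Good W Q z k (ψ l) (ψ l)`, (LBB) with `y = w = W`. -/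
def Stmt_TIC : Prop := ∃ C : ℝ, 0 < C ∧ ∀ X z W c l p : ℕ, 1 ≤ c → l.Prime → p.Prime →
  l ≠ 2 → p ≠ 2 → l ≤ W → p ≤ W → W ≤ z →
  ((TI X W c l p).card : ℝ) ≤
    C * X * (c : ℝ) ^ (1 / 2 : ℝ) / ((c : ℝ) ^ 2 * (l * p * Real.log W * Real.log z)) +
      (z : ℝ) ^ 12

/-- (THC) USES SG, GKB, LBB, RCY. PROOF. As (TIC), `w = max l p`, `Q = (4 w^2)^8`, `P1 = Good l Q z k (χ p) (χ p)`, `P2 = Good p Q z k (ψ l) (ψ l)` (`q ≤ l`, `q ∤ k` implies `q < l`). (LBB) with `y = l` resp. `y = p`: the product is `c₀^2 log l log p (log z/log w) = c₀^2 log(min l p) log z`. -/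
def Stmt_THC : Prop := ∃ C : ℝ, 0 < C ∧ ∀ X z c l p : ℕ, 1 ≤ c → l.Prime → p.Prime →
  l ≠ 2 → p ≠ 2 → l ≤ z → p ≤ z →
  ((TH X c l p).card : ℝ) ≤
    C * X * (c : ℝ) ^ (1 / 2 : ℝ) /
      ((c : ℝ) ^ 2 * (l * p * Real.log (min l p : ℕ) * Real.log z)) + (z : ℝ) ^ 12

/-- (TFC) USES SG, GKB, LBB, LB5, RSU, RCY. PROOF. (Compare `Pool/Agent/ADG/TCC.lean`.) `k = 2 * (c * 1) * (l * p * l)`, `e = l`, `f = p`, `Q = (4 l^2)^8`. `l ≤ z`: `P1 = Good l Q z k (χ p) (χ p)` (modulus `4 p ≤ 4 l^2`); `l > z`: `P1 = Good z ((4 z^2)^8) z k (χ p) (χ p)` (`p ≤ z`); with `l₁ = min l z` in both cases (LBB)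
`gk k RSm P1 z ≥ c₀ (log z log l₁)^(1/2)`. First bound: `l ≤ z`: `P2 = Good 2 Q z k (ψ l) (ψ l)`, `≥ c₀ log 2 (log z/log l)^(1/2)`; `l > z`: `P2 = ∅` (`RSm ≥ 1`, `gk ≥ 1`). Second bound: `l ≤ z`: `P2 = G3 T V Q z k (ψ l)`, (LB5) second part with `w = l`; `l > z`: `P2 = G3 T V z z k (ψ l)`, (LB5) first part
(`SS T V l = Σ ψ l q/q`, as in TCC). Products `≥ c log z`, resp. `≥ c log z (log V/log T)^(1/2)`. -/
def Stmt_TFC : Prop := ∃ C : ℝ, 0 < C ∧ ∀ X z c l p : ℕ, 1 ≤ c → l.Prime → p.Prime →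
  l ≠ 2 → p ≠ 2 → p < l → p ≤ z →
  ((TF X c l p).card : ℝ) ≤
    C * X * (c : ℝ) ^ (1 / 2 : ℝ) / ((c : ℝ) ^ 2 * (l * p * Real.log z)) + (z : ℝ) ^ 12 ∧
  ∀ T V : ℕ, 2 ≤ T → T ≤ V → V ≤ z → V < l → SS T V l ≤ 1 →
  ((TF X c l p).card : ℝ) ≤
    C * X * (c : ℝ) ^ (1 / 2 : ℝ) * (Real.log T) ^ (1 / 2 : ℝ) /
      ((c : ℝ) ^ 2 * (l * p * (Real.log V) ^ (1 / 2 : ℝ) * Real.log z)) + (z : ℝ) ^ 12

open Classical in
/-- `Σ_(T < q ≤ V) (q/p)/q` for primes `p > V` -/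
noncomputable def SR (T V p : ℕ) : ℝ :=
  ∑ q ∈ (Ioc T V).filter Nat.Prime, (if IsSquare ((q : ℕ) : ZMod p) then (1 : ℝ) else -1) / q

/-- (TGC) USES SG, GKB, LBB, LB5, RSU, RCY. PROOF. (TFC) with the roles exchanged: `Q = (4 p^2)^8`; `P2` = `Good p Q z k (ψ l) (ψ l)` or `Good z ((4 z^2)^8) z k (ψ l) (ψ l)`; `P1` = `Good 2 Q z k (χ p) (χ p)` or `∅`, resp. `G3 T V Q z k (χ p)` or `G3 T V z z k (χ p)`. -/
def Stmt_TGC : Prop := ∃ C : ℝ, 0 < C ∧ ∀ X z c l p : ℕ, 1 ≤ c → l.Prime → p.Prime →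
  l ≠ 2 → p ≠ 2 → l < p → l ≤ z →
  ((TG X c l p).card : ℝ) ≤
    C * X * (c : ℝ) ^ (1 / 2 : ℝ) / ((c : ℝ) ^ 2 * (l * p * Real.log z)) + (z : ℝ) ^ 12 ∧
  ∀ T V : ℕ, 2 ≤ T → T ≤ V → V ≤ z → V < p → SR T V p ≤ 1 →
  ((TG X c l p).card : ℝ) ≤
    C * X * (c : ℝ) ^ (1 / 2 : ℝ) * (Real.log T) ^ (1 / 2 : ℝ) /
      ((c : ℝ) ^ 2 * (l * p * (Real.log V) ^ (1 / 2 : ℝ) * Real.log z)) + (z : ℝ) ^ 12

/-- (TUC) USES SG, GKB, RSU, EPP. PROOF. Two sets. `k = 2 * (c * 1)`, `e = f = 1`, `P1` = the primes `≤ z` not dividing `k`, `P2` = the primes `≤ W` not dividing `k` (or exchanged). `log W ≤ RSm P2 W * RSm k.primeFactors W ≤ RSm P2 z * gk k` (RSU (4), EPP (1); `RSm P W ≤ RSm P z` for `W ≤ z`: more terms). -/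
def Stmt_TUC : Prop := ∃ C : ℝ, 0 < C ∧ ∀ X z W c : ℕ, 1 ≤ c → 2 ≤ W → W ≤ z →
  ((TU X z W c).card : ℝ) ≤
    C * X * (c : ℝ) ^ (1 / 2 : ℝ) / ((c : ℝ) ^ 2 * (Real.log W * Real.log z)) +
      2 * (z : ℝ) ^ 12

open Classical in
/-- (SMP) Second moment (the other symbol).

USES RCY. PROOF. As (SMO), `Pool/Agent/ADG/SMO.lean`, with `ψ q` instead of `χ q`: for primes `p > V^4`, `q ≤ V`, `q ≠ 2` (`T ≥ 2`): `ψ q p = 1` iff `q` is a square modulo `p`, `ψ q p ≠ 0`. -/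
def Stmt_SMP : Prop := ∃ C : ℝ, 0 < C ∧ ∀ T V Y : ℕ, 2 ≤ T → T ≤ V → 1 ≤ Y →
  ∑ p ∈ (Ioc (V ^ 4) Y).filter (fun p => p.Prime ∧ 1 < SR T V p), (1 : ℝ) / p ≤
    C * ((1 + Real.log Y) / T + 1 / (V : ℝ) ^ 2)

/-! ## 2. The count -/

/-- (PS7) PROOF. `Σ_(q ≤ z) 1/q ≤ C log log z` and `Σ_(q > W) 1/(q log q) ≤ C/log W` (blocks `(e^(2^j), e^(2^(j+1))]` as in PSM.lean, PSS.lean); the sum is at most `2 Σ_(l > W) 1/(l log l) Σ_(p ≤ z) 1/p`. -/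
def Stmt_PS7 : Prop := ∃ C : ℝ, 0 < C ∧ ∀ W z : ℕ, 2 ≤ W → 16 ≤ z →
  ∑ l ∈ (Ioc W z).filter Nat.Prime, ∑ p ∈ (Ioc W z).filter Nat.Prime,
    1 / ((l : ℝ) * p * Real.log (min l p : ℕ)) ≤
    C * Real.log (Real.log z) / Real.log W

/-- (PT7) The partition.

PROOF. `n = c^2 m`, `m` squarefree (see `Pool/Agent/ADG/PT5.lean`, `QPT.lean`); a prime `q ∤ c` with `q^2 ∣ n` would have `q^2 ∣ m`. If `m` has no odd prime factor: `m = 1` or `2`. If it has exactly one, `m = q` or `2 q`: `Form5`. Otherwise `l` the smallest odd prime factor of `m`, `l^2 ≤ X` (`l l' ∣ m`), `c^2 l ∣ n`, `v_l(n)` odd. `p` the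
smallest prime factor of `n - 1` (odd, `n - 1 ≥ 3` as `n = 2` is `Form5`), `p^2 ≤ n - 1` as `n - 1` is not prime. A prime `q < l`, `q ∤ 2 c`, does not divide `n` (it would be an odd prime factor of `m`); a prime `q < p` does not divide `n - 1`. `l, p ≤ W`: another prime `p' ≤ W` of `n - 1`: `TJ`; another odd prime factor `l' ≤ W`
of `m`: `TK` (`c^2 l l' ∣ n`); otherwise `TI`. `p ≤ W < l`: `TF`. `l ≤ W < p`: `TG`. `l, p > W`: both `≤ z`: `TH`; otherwise `TU`. -/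
def Stmt_PT7 : Prop := ∀ X z W L n : ℕ, W ≤ z → n ∈ Icc 2 X → Even n → SqCond n →
  ¬ (n - 1).Prime → ¬ Form5 n →
  ∃ c : ℕ, 1 ≤ c ∧ c ^ 2 ∣ n ∧ (L < c ∨ (c ≤ L ∧ (n = c ^ 2 ∨ n = 2 * c ^ 2 ∨ n ∈ TU X z W c ∨
    ∃ l p, l.Prime ∧ p.Prime ∧ l ≠ 2 ∧ p ≠ 2 ∧ l ^ 2 ≤ X ∧ p ^ 2 ≤ X ∧
    ((l ≤ W ∧ p ≤ W ∧
      ((∃ p', p'.Prime ∧ p' ≠ 2 ∧ p' ≠ p ∧ p' ≤ W ∧ n ∈ TJ X c l p p') ∨
        (∃ l', l'.Prime ∧ l' ≠ 2 ∧ l' ≠ l ∧ l' ≤ W ∧ n ∈ TK X c l l' p) ∨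
        n ∈ TI X W c l p)) ∨
    (W < l ∧ p ≤ W ∧ n ∈ TF X c l p) ∨ (l ≤ W ∧ W < p ∧ n ∈ TG X c l p) ∨
    (W < l ∧ l ≤ z ∧ W < p ∧ p ≤ z ∧ n ∈ TH X c l p)))))

open Classical in
/-- (SM7) The count.

USES PT7, TJC, TKC, TIC, TFC, TGC, THC, TUC, SMO, SMP, PS7. PROOF. As `Pool/Agent/ADG/SM5.lean`. `X ≥ X₀`, `L = T = ⌊(log X)^2⌋`, `V = ⌊exp((log X)^(1/7))⌋`, `W = V^4`, `z = ⌊X^(1/60)⌋` (`T ≤ V`, `W ≤ z`). `c > L`: `≤ X/L`. `n = c^2`, `2 c^2`: `≤ 2 √X`. The others: sum over `c ≤ L` (`Σ c^(1/2)/c^2 ≤ 3`) and over the primes, with `Σ_(q ≤ X) 1/q ≤ C log log X`: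
`TJ`, `TK`: `C X (log log X)^3 (log W)^(5/4) / (log X)^(5/4)`, exponent `5/4 - 5/28 = 15/14`; `TI`: `C X (log log X)^2 / (log W log X)`; `TF`, `TG`: `C X (log log X)^2 (log log X)^(1/2) / ((log X)^(1/14) log X)`, and for `SS > 1` (`SR > 1`): (SMO), (SMP) `Σ 1/l ≤ C/log X`, so `C X log log X / (log X)^2`; `TH`: `C X log log X / (log W log X)` (PS7);
`TU`: `C X / (log W log X)`. All are `≤ C X / (log X)^(16/15)`, as `15/14 > 16/15`. Errors: `z^12 L (2 W^3 + W^2 + 2 W √X + z^2 + 2) ≤ C X^(4/5)`. For `2 ≤ X ≤ X₀` enlarge `C`. -/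
def Stmt_SM7 : Prop := ∃ C : ℝ, 0 < C ∧ ∀ X : ℕ, 2 ≤ X →
  (((Icc 2 X).filter (fun n => Even n ∧ SqCond n ∧ ¬ (n - 1).Prime ∧ ¬ Form5 n)).card : ℝ) ≤
    C * X / (Real.log X) ^ (16 / 15 : ℝ)

/-! ## 3. The quartic symbol of 2 -/

/-- (QR1) The quartic character of `2`.

PROOF (Dirichlet). `a` is odd, `4 ∣ b`, `f = b/a` modulo `p`, `f^2 = -1`. WLOG `a, b > 0` (signs do not matter). `(a + b)^2 = 2 a b = 2 f a^2` modulo `p`, so `(a + b)^((p-1)/2) = 2^((p-1)/4) f^((p-1)/4) a^((p-1)/2)`. Jacobi symbols: `(a/p) = (p/a) = (b^2/a) = 1`; `2 p = (a + b)^2 + (a - b)^2`, so `(2p/(a+b)) = 1` and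
`((a+b)/p) = (p/(a+b)) = (2/(a+b)) = (-1)^(((a+b)^2 - 1)/8)` (`p = 1 mod 4`, `a + b` odd, prime to `p`). `f^((p-1)/4) = (-1)^((p-1)/8)`. So `2^((p-1)/4) = (-1)^(((a+b)^2 - 1)/8 + (p-1)/8) = (-1)^((p - 1 + a b)/4) = (-1)^(b/4)` (`(a+b)^2 + p - 2 = 2 (p - 1) + 2 a b`). And `2` is a fourth power modulo `p` iff `2^((p-1)/4) = 1`
(`(ℤ/p)ˣ` is cyclic). -/
def Stmt_QR1 : Prop := ∀ (p : ℕ) (a b : ℤ), p.Prime → p % 8 = 1 → a ^ 2 + b ^ 2 = p → Even b →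
  ((∃ x : ZMod p, x ^ 4 = 2) ↔ 8 ∣ b)

open Classical in
/-- the quartic symbol of `2` at the Gaussian integer `z` -/
noncomputable def rho (z : GaussianInt) : ℂ :=
  if z.re % 2 = 1 ∧ z.im % 2 = 0 then Complex.I ^ (z.re * z.im / 2)
  else if z.re % 2 = 0 ∧ z.im % 2 = 1 then Complex.I ^ (-(z.re * z.im / 2)) else 0

/-- (RHO) Properties of `rho`.

PROOF. `z = a + b i`, `w = c + d i`. `b, d` even: `z w = A + B i`, `A B/2 = (c d/2)(a^2 - b^2) + (a b/2)(c^2 - d^2)` and `a^2 - b^2 = c^2 - d^2 = 1 mod 4`. `rho (i z) = rho z` (`a' = -b`, `b' = a`), so the other cases reduce to this one (`i^2 = -1`). `rho (star z)`: `b ↦ -b`. Periodicity: `a b` modulo `8`. -/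
def Stmt_RHO : Prop :=
  (∀ z w : GaussianInt, rho (z * w) = rho z * rho w) ∧ rho 1 = 1 ∧
  (∀ z : GaussianInt, ‖rho z‖ ≤ 1) ∧ (∀ z : GaussianInt, z.norm % 2 = 1 → ‖rho z‖ = 1) ∧
  (∀ z : GaussianInt, z.norm % 2 = 0 → rho z = 0) ∧ (∀ z : GaussianInt, IsUnit z → rho z = 1) ∧
  (∀ z : GaussianInt, rho (star z) = star (rho z)) ∧
  (∀ z w : GaussianInt, rho (z + 8 * w) = rho z) ∧
  (∀ a : ℤ, a % 2 = 1 → rho (a : GaussianInt) = 1) ∧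
  ∀ a b : ℤ, a % 2 = 1 → b % 4 = 2 → rho ⟨a, b⟩ ^ 2 = -1

/-- (LSB) Sums over the lattice `ℤ^2` of periodic functions with sum `0`.

PROOF. Write `(a, b) = (m x + i, m y + j)`, `0 ≤ i, j < m`. For `(x, y) ≠ 0`, `N = x^2 + y^2`: `|(a^2 + b^2)^(-s) - (m^2 N)^(-s)| ≤ C_m N^(-3/2)` for `N > 8` (mean value theorem, `|a^2 + b^2 - m^2 N| ≤ 4 m^2 √N`, `1 < s ≤ 2`), so the sum over the block is `≤ m^2 C_m N^(-3/2)`; the finitely many other blocks contribute a bounded amount;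
`Σ_((x,y) ≠ 0) (x^2 + y^2)^(-3/2)` converges. (`Summable` for `s > 1`: `Σ (a^2 + b^2)^(-s)` converges; for example `a^2 + b^2 ≥ max(|a|,|b|)^2`, and there are at most `8 k` points with `max = k`. `0 ^ (-s) = 0`.) -/
def Stmt_LSB : Prop := ∀ (m : ℕ) (F : ℤ → ℤ → ℂ), 0 < m → (∀ a b, ‖F a b‖ ≤ 1) →
  (∀ a b, F (a + m) b = F a b ∧ F a (b + m) = F a b) →
  ∑ i ∈ range m, ∑ j ∈ range m, F i j = 0 →
  ∃ C : ℝ, ∀ s : ℝ, 1 < s → s ≤ 2 →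
    Summable (fun z : ℤ × ℤ => F z.1 z.2 * (((z.1 : ℝ) ^ 2 + (z.2 : ℝ) ^ 2) ^ (-s) : ℝ)) ∧
    ‖∑' z : ℤ × ℤ, F z.1 z.2 * (((z.1 : ℝ) ^ 2 + (z.2 : ℝ) ^ 2) ^ (-s) : ℝ)‖ ≤ C

open Classical in
/-- `(1/4) Σ_(a^2 + b^2 = n) rho(a + b i)` -/
noncomputable def rr (n : ℕ) : ℂ := (1 / 4 : ℂ) *
  ∑ a ∈ Icc (-(n : ℤ)) n, ∑ b ∈ Icc (-(n : ℤ)) n,
    if a ^ 2 + b ^ 2 = n then rho ⟨a, b⟩ else 0

/-- (RRM) `rr` is multiplicative, and its values at prime powers.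

USES RHO, QR1. PROOF. `ℤ[i]` is a principal ideal domain with the units `± 1, ± i`, `rho` is completely multiplicative and `1` on units; `rr n` is the sum of `rho` over the nonzero elements of norm `n` up to units. Coprime `m`, `n`: `z` of norm `m n` is, up to a unit, a unique product of an element of norm `m` and one of norm `n` (`gcd(z, m)`,
`gcd(z, n)`). `p = 1 mod 4`: `p = π π'` (`Nat.Prime.sq_add_sq`), `π' = star π`, the elements of norm `p^k` are `π^j π'^(k-j)`, `α = rho π`, `β = star α`; for `p = 1 mod 8`: `π = a + b i`, `b` even, `4 ∣ b`, `α = β = (-1)^(b/4)` (QR1); for `p = 5 mod 8`: `b = 2 mod 4`, `α = ± i`, `α + β = 0`. `p = 3 mod 4`: prime in `ℤ[i]`, only even `k`,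
the element `p^(k/2)`: `α = 1`, `β = -1`. `p = 2`: `rho = 0`: `α = β = 0`. `‖rr n‖ ≤` the number of divisors of `n` (from the multiplicativity). -/
def Stmt_RRM : Prop := rr 1 = 1 ∧ (∀ a b : ℕ, a.Coprime b → rr (a * b) = rr a * rr b) ∧
  (∀ n : ℕ, 1 ≤ n → ‖rr n‖ ≤ n.divisors.card) ∧
  (∀ p : ℕ, p.Prime → ∃ α β : ℂ, ‖α‖ ≤ 1 ∧ ‖β‖ ≤ 1 ∧
    ∀ k : ℕ, rr (p ^ k) = ∑ j ∈ range (k + 1), α ^ j * β ^ (k - j)) ∧
  (∀ p : ℕ, p.Prime → p % 8 ≠ 1 → rr p = 0) ∧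
  ∀ p : ℕ, p.Prime → p % 8 = 1 →
    ((∃ x : ZMod p, x ^ 4 = 2) → rr p = 2) ∧ ((¬ ∃ x : ZMod p, x ^ 4 = 2) → rr p = -2)

/-- (EUL) An upper bound from the Euler product.

PROOF. Mathlib: `EulerProduct.eulerProduct_hasProd` (or `eulerProduct_tprod`) for `n ↦ f n * n^(-s)` (absolutely summable: `Σ d(n) n^(-s) < ∞`). The factor at `p` is `E_p = Σ_k f(p^k) p^(-ks) = ((1 - α p^(-s)) (1 - β p^(-s)))⁻¹`, `f(p) = α + β`, and `log ‖E_p‖ = - log ‖1 - α p^(-s)‖ - log ‖1 - β p^(-s)‖ ≥ Re(α + β) p^(-s) - 4 p^(-2)`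
(`‖1 - w‖^2 = 1 - 2 Re w + ‖w‖^2 ≤ exp(- 2 Re w + ‖w‖^2)`, so `- log ‖1 - w‖ ≥ Re w - ‖w‖^2/2`). The norm of the product over `p ≤ x` tends to the norm of the sum, `≤ C`; so `Σ_p Re f(p) p^(-s) ≤ log C + Σ_p 4/p^2` (the sum converges absolutely for `s > 1`; `C > 0` because the sum is not `0`: all factors are not `0`; or replace `C` by `max C 1`). -/
def Stmt_EUL : Prop := ∀ f : ℕ → ℂ, f 1 = 1 → (∀ a b : ℕ, a.Coprime b → f (a * b) = f a * f b) →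
  (∀ n : ℕ, 1 ≤ n → ‖f n‖ ≤ n.divisors.card) →
  (∀ p : ℕ, p.Prime → ∃ α β : ℂ, ‖α‖ ≤ 1 ∧ ‖β‖ ≤ 1 ∧
    ∀ k : ℕ, f (p ^ k) = ∑ j ∈ range (k + 1), α ^ j * β ^ (k - j)) →
  ∀ C : ℝ, (∀ s : ℝ, 1 < s → s ≤ 2 → ‖∑' n : ℕ, f n * (((n : ℝ) ^ (-s) : ℝ) : ℂ)‖ ≤ C) →
  ∃ C' : ℝ, ∀ s : ℝ, 1 < s → s ≤ 2 →
    ∑' p : Nat.Primes, (f p).re * ((p : ℕ) : ℝ) ^ (-s) ≤ C'

/-- (LBD) The twisted sums are bounded.

USES RHO, LSB, RRM. PROOF. `F(a, b) = rho(a + b i) ψ(a^2 + b^2)` has period `m = 8 M` in `a` and `b` (RHO) and `‖F‖ ≤ 1`. Its sum over a period is `0`: let `M = 2^k M₁`, `M₁` odd, `γ = 1 + 2 M₁ i` (norm `1 + 4 M₁^2`, odd and prime to `M`; if `M₁ = 1` this is `1 + 2 i`), `t` an integer with `t N(γ) = 1` modulo `8 M`, `γ₀ = t γ^2`: `N(γ₀) = t^2 N(γ)^2 = 1` modulo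
`8 M` and `rho(γ₀) = rho(γ)^2 = -1` (RHO; `t` is odd). Multiplication by `γ₀` permutes `ℤ[i]/8M` and `F(γ₀ z) = -F(z)`. (LSB), and `Σ'_n rr(n) ψ(n) n^(-s) = (1/4) Σ'_(a,b) F(a,b) (a^2 + b^2)^(-s)` (grouping by the norm; `0 ^ (-s) = 0`, `rr 0` does not matter). -/
def Stmt_LBD : Prop := ∀ (M : ℕ) [NeZero M] (ψ : DirichletCharacter ℂ M), ∃ C : ℝ,
  ∀ s : ℝ, 1 < s → s ≤ 2 →
    ‖∑' n : ℕ, rr n * ψ (n : ZMod M) * (((n : ℝ) ^ (-s) : ℝ) : ℂ)‖ ≤ C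

open Classical in
/-- (QRT) Primes `p = 1 mod M` modulo which `2` is not a fourth power.

USES RRM, EUL, LBD, DR1. PROOF. WLOG `8 ∣ M` (replace `M` by `8 M`: a smaller set). (EUL) for `f n = rr n * ψ n` (`α ψ(p)`, `β ψ(p)`), (LBD): `Σ_p Re(rr p ψ(p)) p^(-s) ≤ C_ψ`. Sum over all `ψ` modulo `M` (`DirichletCharacter.sum_char_inv_mul_char_eq` or `DirichletCharacter.sum_characters_eq`: `Σ_ψ ψ(p) = φ(M)` if `p = 1 mod M`, `0` otherwise):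
`φ(M) Σ_(p = 1 mod M) rr p p^(-s) ≤ C` for `1 < s ≤ 2`, `rr p = 2` or `-2`. If the sum of `1/p` over the primes in the statement converged, then `Σ_(p = 1 mod M) p^(-s) = Σ (rr p/2) p^(-s) + 2 Σ_(rr p = -2) p^(-s)` would be bounded for `s → 1`, so `Σ_(p = 1 mod M) 1/p` would converge (monotone convergence): contradiction to (DR1). -/
def Stmt_QRT : Prop := ∀ M : ℕ, 0 < M → ¬ Summable (fun p : ℕ =>
  if p.Prime ∧ p ≡ 1 [MOD M] ∧ ¬ ∃ x : ZMod p, x ^ 4 = 2 then (1 : ℝ) / p else 0)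

/-! ## 4. The numbers `q s^2` and `2 q s^2` -/

open Classical in
/-- (DR3) Primes modulo which `s^2` has even order.

USES DR1, QRT. PROOF. `s = b^(2^j)`, `b > 1` not a square. Case 1: an odd prime `w` divides `b` to an odd power `f`; `b = 2^e w^f b'`, `b'` odd, `w ∤ b'`. `S` = the primes `p = a mod m`, `m = 2^(j+3) w b'`, `a = 1` modulo `2^(j+3) b'`, `a` a nonresidue modulo `w` (`p ≠ 2`, `p ∤ s`). `(b/p) = (2/p)^e (p/w)^f (p/b') = -1`, so `b` has an order divisible by the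
exact power `2^v`, `v ≥ j + 3`, of `2` in `p - 1` (it does not divide `(p-1)/2`), and `s^2 = b^(2^(j+1))` an order divisible by `2^(v-j-1)`. Case 2: `b = 2 e^2`. `j = 0`: `S` = the primes `p = 5 mod 8`, `p ∤ e`: `(b/p) = (2/p) = -1`, `4` divides the order of `s = b`, so `s^2` has even order. `j ≥ 1`: `S` = the primes `p = 1 mod 2^(j+6) e` modulo
which `2` is not a fourth power (QRT): `(e/p) = 1` (Jacobi symbols), `b^((p-1)/4) = 2^((p-1)/4) (e/p) ≠ 1`, `b^((p-1)/2) = 1`: `2^(v-1)`, `v ≥ j + 6`, divides the order of `b`, and `2^(v-j-2)` the order of `s^2`. (Dirichlet's theorem (DR1) minus finitely many primes.) -/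
def Stmt_DR3 : Prop := ∀ s : ℕ, 1 < s → ∃ S : Set ℕ,
  (∀ p ∈ S, p.Prime ∧ p ≠ 2 ∧ ¬ p ∣ s) ∧
  ¬ Summable (fun p : ℕ => if p ∈ S then (1 : ℝ) / p else 0) ∧
  ∀ p ∈ S, Even (orderOf ((s : ZMod p) ^ 2))

open Classical in
/-- (FE1) `n = q s^2`, `s > 1` fixed.

USES DR3, GEN. PROOF. `A = s^2`, `S` from (DR3). `q` divides `n` to the odd power `1 + 2 v_q(s)`. If `p ∈ S` divides `n - 1` then `q s^2 = 1` in `ZMod p`, so `q` has the order of `s^2`, even: contradiction to `OddCond n`. So no `p ∈ S` divides `n - 1`, (GEN). -/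
def Stmt_FE1 : Prop := ∀ s : ℕ, 1 < s → ∀ ε : ℝ, 0 < ε → ∃ X₀ : ℕ, ∀ X : ℕ, X₀ ≤ X →
  (((Icc 2 X).filter (fun n => (∃ q : ℕ, q.Prime ∧ n = q * s ^ 2) ∧ OddCond n)).card : ℝ) ≤
    ε * X / Real.log X

open Classical in
/-- (FE2) `n = 2 q s^2`, `s` fixed.

USES DR1, GEN. PROOF. As `Pool/Agent/ADG/FX2.lean`. `A = 2 s^2`, `S` = the primes `p = 3 mod 8`, `p ∤ s`. `q = 2`: one number. `q ≠ 2`: `2` divides `n` to an odd power. If `p ∈ S` divides `n - 1` then `2` has odd order modulo `p`, so it is a square: contradiction to `p = 3 mod 8`. -/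
def Stmt_FE2 : Prop := ∀ s : ℕ, 1 ≤ s → ∀ ε : ℝ, 0 < ε → ∃ X₀ : ℕ, ∀ X : ℕ, X₀ ≤ X →
  (((Icc 2 X).filter (fun n => (∃ q : ℕ, q.Prime ∧ n = 2 * q * s ^ 2) ∧ OddCond n)).card : ℝ) ≤
    ε * X / Real.log X

open Classical in
/-- (SM8) The sum over `s`.

USES FE1, FE2, TAI. PROOF. As `Pool/Agent/ADG/SM6.lean`: (TAI) with `C/S ≤ ε/2`; (FE1), (FE2) for `s ≤ S` with `ε/(4 S + 4)`; `4 ∣ q` is impossible for a prime `q` (`s = 1`). -/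
def Stmt_SM8 : Prop := ∀ ε : ℝ, 0 < ε → ∃ X₀ : ℕ, ∀ X : ℕ, X₀ ≤ X →
  (((Icc 2 X).filter (fun n => 4 ∣ n ∧ OddCond n ∧ Form5 n)).card : ℝ) ≤
    ε * X / Real.log X

/-! ## 5. The final theorem -/

/-- `n` is the order of an affine difference set in some finite group `G` (relative to some subgroup), `G` solvable if `4 ∣ n` -/
def Order7 (n : ℕ) : Prop := ∃ (G : Type) (_ : Group G) (N : Subgroup G) (D : Finset G),
  IsAffineDifferenceSet n N D ∧ (4 ∣ n → Group.IsSolvable G)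

/-- The seventh main theorem: almost all orders are primes `p` or `p + 1`. -/
def MainStatement7 : Prop := ∀ ε : ℝ, 0 < ε → ∃ x₀ : ℝ, ∀ x : ℝ, x₀ ≤ x →
  ({n : ℕ | (n : ℝ) ≤ x ∧ Order7 n ∧ ¬ n.Prime ∧ ¬ (4 ∣ n ∧ (n - 1).Prime)}.ncard : ℝ) ≤
    ε * x / Real.log x

/-- (FIN7) Assembly.

USES FIN6 (MainStatement6), SM7, SM8. PROOF. `n % 4 ≠ 0`: `AnyOrder n`, `MainStatement6` with `ε/2`. `4 ∣ n`: `OddCond n` (`Pool.Agent.ADS.EVA_thm`, `SolvOrder n`; or `EVG_thm`, `Pool/Agent/ADG/EVG.lean`) and `SqCond n`; `Form5 n`: (SM8) with `ε/4`; not `Form5 n`, `n - 1` not prime: (SM7), `C x/(log x)^(16/15) ≤ (ε/4) x/log x` for large `x`. -/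
def Stmt_FIN7 : Prop := MainStatement7

end Pool.Agent.ADG
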